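import Pool.Agent.Lib.MP_dd0771_pr.Sc.AaD

open Filter

namespace Pool.Agent.Lib.MP_dd0771_pr.Sc

theorem aa_ls {I N : ℕ} (h : N ^ 2 ≤ I) : ls (I ^ N) ≤ I ^ 3 := by
  have h1 : Nat.log 2 (I ^ N) ≤ I * N := by
    refine (Nat.log_mono_right (Nat.pow_le_pow_left (Nat.lt_two_pow_self (n := I)).le N)).trans ?_
    rw [← pow_mul, Nat.log_pow (by norm_num)]
  calc ls (I ^ N) ≤ (I * N) ^ 2 := Nat.pow_le_pow_left h1 2
    _ = I ^ 2 * N ^ 2 := by ring
    _ ≤ I ^ 2 * I := Nat.mul_le_mul_left _ h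
    _ = I ^ 3 := by ring

theorem aa_sum {I P C1 m c x X : ℕ} (h1 : I * P ≤ X) (h2 : C1 * m ≤ X) (h3 : c + x ≤ X) {T : ℕ}
    (hT : T ≤ 2 ^ x) : I ^ P + 2 ^ (C1 * m) + c * T ≤ 2 ^ (X + 2) := by
  have a1 : I ^ P ≤ 2 ^ X := by
    refine (Nat.pow_le_pow_left (Nat.lt_two_pow_self (n := I)).le P).trans ?_
    rw [← pow_mul]
    exact Nat.pow_le_pow_right (by norm_num) h1
  have a2 : 2 ^ (C1 * m) ≤ 2 ^ X := Nat.pow_le_pow_right (by norm_num) h2
  have a3 : c * T ≤ 2 ^ X := by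
    refine (Nat.mul_le_mul (Nat.lt_two_pow_self (n := c)).le hT).trans ?_
    rw [← pow_add]
    exact Nat.pow_le_pow_right (by norm_num) h3
  rw [pow_add]
  omega

theorem aa_ratio {U c T X E J : ℕ} (h : U + c * T ≤ 2 ^ X) (hJ : X + 3 * E ≤ J) :
    (1 / 2 : ℝ) ^ J * (U + c * T) ≤ ((1 / 2) ^ E) ^ 3 := by
  have h1 : (U : ℝ) + c * T ≤ 2 ^ X := by exact_mod_cast h
  calc _ ≤ (1 / 2 : ℝ) ^ (X + 3 * E) * 2 ^ X :=
        mul_le_mul (aa_half hJ) h1 (by positivity) (by positivity)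
    _ = ((1 / 2) ^ E) ^ 3 * (1 / 2 * 2) ^ X := by rw [mul_pow]; ring
    _ = _ := by norm_num

theorem aa_fin {c J y n U : ℕ} (h : U ≤ c * (2 ^ (9 * J) + 2 * 2 ^ y)) (hn : c + 9 * J + y + 3 ≤ n) :
    2 * U ≤ 2 ^ n := by
  have a1 : 2 ^ (9 * J) ≤ 2 ^ (9 * J + y) := Nat.pow_le_pow_right (by norm_num) (by omega)
  have a2 : 2 ^ y ≤ 2 ^ (9 * J + y) := Nat.pow_le_pow_right (by norm_num) (by omega)
  calc 2 * U ≤ 2 * (2 ^ c * (4 * 2 ^ (9 * J + y))) :=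
        Nat.mul_le_mul_left _ (h.trans (Nat.mul_le_mul Nat.lt_two_pow_self.le (by omega)))
    _ = 2 ^ (c + 9 * J + y + 3) := by ring
    _ ≤ _ := Nat.pow_le_pow_right (by norm_num) hn

theorem aa_geo {g k i n : ℕ} (h : g + k * (i + 1) ≤ n) : g * (2 ^ k * 2 ^ (k * i)) ≤ 2 ^ n :=
  calc _ ≤ 2 ^ g * (2 ^ k * 2 ^ (k * i)) := Nat.mul_le_mul_right _ Nat.lt_two_pow_self.le
    _ = 2 ^ (g + k * (i + 1)) := by ring
    _ ≤ _ := Nat.pow_le_pow_right (by norm_num) h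

theorem s_a {d : ℕ} {F : Fr} (hd : 2 ≤ d) (hF : F.Ok) (hL : Low d F) (hE : Eng d F)
    (hBOOST : S_BOOST d F) (hAPP : S_APP d F) (hW : S_W d F) (hLD : S_LD d F) (hF1 : S_F1 d F) (hF2 : S_F2 d F) (hB : S_B d F) :
    S_A d F := by
  obtain ⟨c, CT, e0, N, c0, c1, e00, ct1, ct2, hWA⟩ := hW
  have hLA := hLD c CT e0 N c0 ct1 ct2 hWA
  obtain ⟨C1, N1, hF1A⟩ := hF1 c CT e0 N c0 ct1 ct2 hWA
  obtain ⟨C2, N2, hF2A⟩ := hF2 c CT e0 N c0 ct1 ct2 hWA
  obtain ⟨k, μ, e1, N3, hk, hμ, -, e10, hBA⟩ := hB c CT e0 N C2 N2 c0 c1 e00 ct1 hLA hF2A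
  obtain ⟨a, R0, N0, La, Mb, e, hc⟩ := aa_const d k hμ
  refine ⟨min e0 (min e1 e), 3 * F.A + 5, lt_min e00 (lt_min e10 hc.he), by omega,
    fun B hB he => ?_⟩
  obtain ⟨he0, he1, he2⟩ : B.eps ≤ e0 ∧ B.eps ≤ e1 ∧ B.eps ≤ e := by
    simpa only [le_min_iff] using he
  obtain ⟨i0, hlev⟩ := aa_level hF hE c1 hk hLA hBA hB he0 he1
  obtain ⟨m0, hbase⟩ := aa_base2 hF hE hF1A hB he0
  have ht : Tendsto (fun I : ℕ => I ^ (3 * F.A + 5)) atTop atTop := tendsto_pow_atTop (by omega)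
  have hN0 : 1 ≤ N0 := by
    by_contra h0
    have h3 := hc.h2
    rw [show N0 = 0 by omega, Nat.cast_zero, mul_zero] at h3
    have : (0 : ℝ) < d := by exact_mod_cast (by omega : 0 < d)
    have : (0 : ℝ) < 16 * (d : ℝ) * ((R0 + d) * 2 ^ k) := by positivity
    linarith
  obtain ⟨κ, hκ⟩ : ∃ κ, κ = k + a + 2 := ⟨_, rfl⟩
  obtain ⟨P, hP⟩ : ∃ P, P = (3 * F.A + 5) * (2 * F.A + 4) := ⟨_, rfl⟩
  obtain ⟨g, hg⟩ : ∃ g, g = 4 * (R0 + d) + 32 := ⟨_, rfl⟩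
  filter_upwards [ht.eventually hlev, ht.eventually hbase,
    ht.eventually (aa_step (by omega) hL hE hBOOST hAPP B hB), Lmin_le F B (3 * F.A + 5),
    eventually_ge_atTop (i0 + m0 + (3 * F.A + 5) ^ 2),
    eventually_ge_atTop (2 * (N * k + N3 + k * CT + k) + 4 + (N1 + C1 + 1) * κ + g + 3 * Mb + 12),
    eventually_ge_atTop (P + C1 * κ + 4 * N0 + k * CT + 4 * (C1 * κ ^ 2) + 14)] with I h1 h2 h3 h4
    g1 g2 g3 K hK
  have hI : 1 ≤ I := by omega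
  obtain ⟨H, hH⟩ : ∃ H, H = I ^ (3 * F.A + 3) := ⟨_, rfl⟩
  obtain ⟨J, hJ⟩ : ∃ J, J = I * H := ⟨_, rfl⟩
  have hn : I ^ (3 * F.A + 5) = I * J := by rw [hJ, hH]; ring
  have hl : (I ^ 3) ^ (F.A + 1) = H := by rw [hH]; ring
  have hD : DD F (I ^ (3 * F.A + 5)) = I ^ P := by rw [DD, hP, pow_mul]
  have hH2 : I ^ 2 ≤ H := hH ▸ Nat.pow_le_pow_right hI (by omega)
  have hI2 : I ≤ I ^ 2 := Nat.le_self_pow (by norm_num) _
  have hHJ : H ≤ J := hJ ▸ Nat.le_mul_of_pos_left _ hI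
  have hl1 := aa_ls (N := 3 * F.A + 5) (I := I) (by omega)
  have hl2 : I ^ 3 ≤ I ^ (3 * F.A + 5) := Nat.pow_le_pow_right hI (by omega)
  have hLm := h4 _ le_rfl
  have b1 := Nat.mul_le_mul_right J g2
  have b2 := Nat.mul_le_mul_right H g3
  have b3 := Nat.mul_le_mul_right (I ^ 2) g3
  rw [← hn] at b1
  rw [← hJ] at b2
  rw [show I * I ^ 2 = I ^ 3 by ring] at b3
  generalize I ^ (3 * F.A + 5) = n at *
  have hm : k * I + a + 2 ≤ κ * I := by
    have := Nat.le_mul_of_pos_right (a + 2) hI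
    rw [hκ, add_assoc k, add_mul]
    omega
  have hm2 : C1 * (k * I + a + 2) ^ 2 ≤ C1 * κ ^ 2 * I ^ 2 := by
    rw [mul_assoc, ← mul_pow]
    exact Nat.mul_le_mul_left _ (Nat.pow_le_pow_left hm 2)
  have hki : ∀ i, I ≤ i → 2 ^ I ≤ 2 ^ (k * i) := fun i hi =>
    Nat.pow_le_pow_right (by norm_num) (hi.trans (Nat.le_mul_of_pos_left _ (by omega)))
  have f1 : ∀ z j, j ≤ J → z * (I + j) ≤ 2 * (z * J) := fun z j hj => by
    rw [mul_left_comm]
    exact Nat.mul_le_mul_left _ (by omega)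
  have f2 : ∀ z, z ≤ z * J := fun z => Nat.le_mul_of_pos_right _ (by omega)
  have f3 : ∀ z, z * I ≤ z * H := fun z => Nat.mul_le_mul_left _ (by omega)
  simp only [add_mul, mul_add, mul_assoc 2, mul_assoc 3, mul_assoc 4] at b1 b2 b3
  have lev : ∀ j, j ≤ J → ∃ T, AaLv d F B K n μ (2 ^ (k * (I + j))) T ∧ 2 ^ (9 * (I + j)) ≤ T ∧
      T ≤ 2 ^ (k * (I + j) * CT) := fun j hj => by
    refine h1 K hK (I + j) (by omega) (hLm.trans (hki _ (by omega))) ?_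
    have := f1 (N * k) j hj
    have := f1 N3 j hj
    have := f1 (k * CT) j hj
    have := f1 k j hj
    rw [← mul_assoc N, mul_right_comm k]
    omega
  obtain ⟨j, U, hj, hA, hU⟩ := aa_rec
    (fun i U v => AaV F B K n (fun _ : S d => (B.p 2, 2 ^ (k * i))) (a * 2 ^ (k * i)) U v)
    (fun i T => AaLv d F B K n μ (2 ^ (k * i)) T ∧ 2 ^ (9 * i) ≤ T ∧ T ≤ 2 ^ (k * i * CT))
    (c1 := 3 * Mb) (c2 := 4 * N0) (I := I) (J := J) (Tm := 2 ^ (2 * (k * CT * J)))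
    (δ := 2 * (1 / 2) ^ n) hI (by omega)
    (by
      have := aa_half (show 9 * J + 1 ≤ n by omega)
      rw [pow_succ] at this
      linarith)
    (fun j T hj h => ⟨h.2.1, h.2.2.trans (Nat.pow_le_pow_right (by norm_num)
      (by rw [mul_right_comm]; exact f1 _ j hj))⟩) lev
    (fun j T T' U v hj l1 l2 v0 v1 hA => by
      have e1 : 2 ^ (k * (I + j + 1)) = 2 ^ k * 2 ^ (k * (I + j)) := by ring
      have e2 : (2 : ℝ) ^ (k * (I + j + 1)) = 2 ^ k * ((2 ^ (k * (I + j)) : ℕ) : ℝ) := by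
        push_cast; ring
      have := h3 K hK k a R0 N0 La Mb (2 ^ (k * (I + j))) T T' U μ e v hμ hc he2 l1.1 (e1 ▸ l2.1)
        (aa_geo (by
          have := f1 k (j + 1) hj
          have := f2 g
          rw [← hg, add_assoc I]
          omega)) v0 v1 (by exact_mod_cast hA)
      rw [e1, e2]
      exact_mod_cast this)
    (by
      obtain ⟨T, hT⟩ := lev 0 (by omega)
      rw [add_zero] at hT
      have q1 : (N1 + C1 + 1) * (k * I + a + 2) ≤ (N1 + C1 + 1) * κ * J := by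
        rw [mul_assoc]
        exact Nat.mul_le_mul_left _ (hm.trans (Nat.mul_le_mul_left _ (by omega)))
      refine ⟨T, _, _, hT, h2 K hK (k * I) a (I ^ 3) ((by omega : m0 ≤ I).trans
        (Nat.le_mul_of_pos_left _ (by omega))) (hLm.trans (hki _ le_rfl)) hl1 hl2
        (by simp only [add_mul] at q1 ⊢; omega) (by omega) (by omega), by positivity,
        pow_le_one₀ (by norm_num) (by norm_num), ?_⟩
      refine aa_ratio (X := P * H + C1 * κ * H + 4 * (N0 * H) + k * CT * H + 2) ?_ ?_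
      · rw [hD]
        refine aa_sum ?_ ?_ ?_ hT.2.2
        · have := f3 P
          rw [mul_comm]
          omega
        · have := f3 (C1 * κ)
          have := Nat.mul_le_mul_left C1 hm
          rw [← mul_assoc] at this
          omega
        · have := f3 (k * CT)
          have : N0 ≤ N0 * H := Nat.le_mul_of_pos_right _ (by omega)
          rw [mul_right_comm k]
          omega
      · have := Nat.mul_le_mul_left (C1 * κ ^ 2) hH2
        omega)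
  obtain ⟨T, hT, -⟩ := lev j hj
  refine ⟨(B.p 2, 2 ^ (k * (I + j))), U, hT.t2, aa_fin hU (by have := f2 Mb; omega), ?_,
    fun M Φ te ub w y t hM hΦ hQ hZ hu ht hw hwu hy hG => ?_⟩
  · have := hT.t4.2.2.2.2
    simp only at this ⊢
    omega
  · refine (hA M Φ te ub w y t hM hΦ hQ hZ hu ht hw hwu ?_ hG).mono (le_of_eq (by ring))
    have q1 : (nrm y : ℝ) ≤ 2 ^ (k * (I + j)) := by exact_mod_cast hy.trans (hki _ (by omega))
    have q2 : (d : ℝ) ≤ (a : ℝ) ^ 2 := by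
      exact_mod_cast hc.h10.trans (Nat.le_self_pow (by norm_num) _)
    refine (eu_le y).trans ?_
    rw [mul_pow]
    gcongr

end Pool.Agent.Lib.MP_dd0771_pr.Sc
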