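import Pool.Agent.Lib.MP_dd0771_pr.Sc.Kit

/-! Values of launches for the goal that the origin is infected: the deterministic steps. -/

open Filter

namespace Pool.Agent.Lib.MP_dd0771_pr.Sc

variable {d : ℕ} {F : Fr} {B : Bs} {K n : ℕ}

/-- From any site of Euclidean norm at most `ρ`, a launch of type `C y` infects the origin within
`U` windows with value `v`. -/
def AaV (F : Fr) (B : Bs) (K n : ℕ) (C : S d → Ty) (ρ : ℝ) (U : ℕ) (v : ℝ) : Prop :=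
  ∀ (M : Amb d) (Φ : Nd d → ℝ) te ub w y t, M.Ok F B K n (B.p 4) →
    Mart F.toMd K M Φ te ub → bx 0 (2 ^ n) ⊆ M.Q' → bx 0 (2 ^ n) ⊆ M.Z →
    M.u0 ≤ t → t + U ≤ te → 0 ≤ w → w ≤ ub → eu y ≤ ρ ^ 2 →
    (∀ s, t ≤ tm s → tm s ≤ t + U → 0 ∈ (M.st F.toMd K s).2 → w ≤ Φ s) →
    Val F B K n (ls n) M Φ (C y) {y} t (v * w)

theorem AaV.mono {C : S d → Ty} {ρ ρ' v v' : ℝ} {U U' : ℕ} (h : AaV F B K n C ρ U v)
    (hρ : ρ' ^ 2 ≤ ρ ^ 2) (hU : U ≤ U') (hv : v' ≤ v) : AaV F B K n C ρ' U' v' := by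
  intro M Φ te ub w y t hM hΦ hQ hZ hu ht hw hwu hy hG
  exact (h M Φ te ub w y t hM hΦ hQ hZ hu (by omega) hw hwu (hy.trans hρ)
    fun s h1 h2 => hG s h1 (by omega)).mono (mul_le_mul_of_nonneg_right hv hw)

theorem aa_bx {z : S d} {ρ : ℝ} {r R : ℕ} (h0 : 0 ≤ ρ) (hz : eu z ≤ ρ ^ 2) (h : ρ + r ≤ R) :
    bx z r ⊆ bx 0 R := by
  apply bx_subset
  have h1 : (nrm z : ℝ) ≤ ρ := (pow_le_pow_iff_left₀ (Nat.cast_nonneg _) h0 two_ne_zero).1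
    ((nrm_sq_le_eu z).trans hz)
  rw [sub_zero]
  have : (nrm z : ℝ) + r ≤ R := by linarith
  exact_mod_cast this

theorem aa_adm {M : Amb d} {z : S d} {ρ : ℝ} {r R : ℕ} (hQ : bx 0 R ⊆ M.Q') (hZ : bx 0 R ⊆ M.Z)
    (h0 : 0 ≤ ρ) (hz : eu z ≤ ρ ^ 2) (h : ρ + 2 * r ≤ R) : Adm M {z} r := by
  refine ⟨apart_single _ _, ?_, ?_⟩
  · rw [wQ_single]
    exact (aa_bx h0 hz (by push_cast; linarith)).trans hQ
  · rw [wZ_single]
    have : (0 : ℝ) ≤ r := Nat.cast_nonneg r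
    exact (aa_bx h0 hz (by linarith)).trans hZ

theorem aa_eu_add (x y : S d) : eu (x + y) ≤ 2 * eu x + 2 * eu y := by
  simp only [eu, Finset.mul_sum, ← Finset.sum_add_distrib]
  refine Finset.sum_le_sum fun i _ => ?_
  simp only [Pi.add_apply, Int.cast_add]
  nlinarith [sq_nonneg ((x i : ℝ) - y i)]

theorem aa_eu_near {y z : S d} {ρ W : ℝ} {L : ℕ} (hy : eu y ≤ ρ ^ 2) (hz : nrm (z - y) ≤ L)
    (hW : 2 * ρ ^ 2 + 2 * (d * (L : ℝ) ^ 2) ≤ W ^ 2) : eu z ≤ W ^ 2 := by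
  have h1 := aa_eu_add y (z - y)
  rw [add_sub_cancel] at h1
  have h2 := eu_le (z - y)
  have h3 : (nrm (z - y) : ℝ) ^ 2 ≤ (L : ℝ) ^ 2 := by
    have : (nrm (z - y) : ℝ) ≤ L := by exact_mod_cast hz
    gcongr
  have h4 : (d : ℝ) * (nrm (z - y) : ℝ) ^ 2 ≤ d * (L : ℝ) ^ 2 := by gcongr
  linarith

/-- approach with steered steps -/
theorem aa_app (hAPP : S_APP d F) (hB : B.Ok F) {C C' : Ty} {T N0 U : ℕ} {dr W ρ v : ℝ}
    (hS : SteerAt d F B K n (B.p 4) C T dr) (hC : TyOk F B n (B.p 4) C)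
    (hC' : TyOk F B n (B.p 4) C') (hdr : 0 < dr) (hW : 0 < W) (hρ : 0 < ρ)
    (h1 : (d : ℝ) ^ 2 * (C.2 : ℝ) ^ 2 ≤ dr * ρ) (h2 : 4 * d * W ≤ dr * N0)
    (h3 : 20 * d * W * B.eps ≤ dr) (hg : W + 2 * C.2 ≤ 2 ^ n) (hg' : W + C'.2 ≤ 2 ^ n)
    (hv0 : 0 ≤ v) (hv1 : v ≤ 1) (h : AaV F B K n (fun _ : S d => C') ρ U v) :
    AaV F B K n (fun y : S d => if eu y ≤ ρ ^ 2 then C' else C) (W / 2)
      (N0 * (T + RR F B n) + U) (v / 2) := by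
  intro M Φ te ub w y t hM hΦ hQ hZ hu ht hw hwu hy hG
  have := hAPP B K n (B.p 4) C C' T dr W ρ M Φ te ub (v * w) N0 t y hB hS hC hC' hM hΦ hdr hW hρ
    (mul_nonneg hv0 hw) ((mul_le_of_le_one_left hw hv1).trans hwu) h1 h2 h3 hu (by omega)
    (by linarith [show (W / 2) ^ 2 = W ^ 2 / 4 by ring])
    (fun z hz => ⟨aa_adm hQ hZ hW.le hz.le (by exact_mod_cast hg),
      (aa_bx hW.le hz.le (by exact_mod_cast hg')).trans hZ⟩)
    (fun z t' hz h4 h5 => h M Φ te ub w z t' hM hΦ hQ hZ (by omega) (by omega) hw hwu hz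
      fun s h6 h7 => hG s (by omega) (by omega))
  exact this.mono (le_of_eq (by ring))

/-- one plain step -/
theorem aa_plain (hB : B.Ok F) {C : Ty} {ty : S d → Ty} {T U Lm : ℕ} {W ρ v : ℝ}
    (hP : PlainAt d F B K n (B.p 4) C T)
    (hty : ∀ z, TyOk F B n (B.p 4) (ty z) ∧ (ty z).2 ≤ Lm) (hρ : 0 ≤ ρ) (hW0 : 0 ≤ W)
    (hW : 2 * ρ ^ 2 + 2 * (d * (C.2 : ℝ) ^ 2) ≤ W ^ 2) (hg : ρ + 2 * C.2 ≤ 2 ^ n)
    (hg' : W + Lm ≤ 2 ^ n) (hv0 : 0 ≤ v) (hv1 : v ≤ 1) (h : AaV F B K n ty W U v) :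
    AaV F B K n (fun _ : S d => C) ρ (T + RR F B n + U) (v / 2) := by
  intro M Φ te ub w y t hM hΦ hQ hZ hu ht hw hwu hy hG
  obtain ⟨κ, hκ, hW1, -, -, hst⟩ := hP y
  have hvw : 0 ≤ v * w := mul_nonneg hv0 hw
  have := hst M Φ te t ub (v * w) (fun p => ty (y + p.1)) (fun _ => v * w) hM hΦ hu (by omega)
    (aa_adm hQ hZ hρ hy (by exact_mod_cast hg)) hvw ((mul_le_of_le_one_left hw hv1).trans hwu)
    (fun _ _ => le_rfl) (fun p hp _ => by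
      obtain ⟨a1, a2, a3⟩ := hW1 p hp
      have hz : eu (y + p.1) ≤ W ^ 2 := aa_eu_near hy (by rwa [add_sub_cancel_left]) hW
      refine ⟨(hty _).1, ((bx_mono _ (hty _).2).trans
        (aa_bx hW0 hz (by exact_mod_cast hg'))).trans hZ, ?_⟩
      exact h M Φ te ub w (y + p.1) (t + p.2) hM hΦ hQ hZ (by omega) (by omega) hw hwu hz
        fun s h6 h7 => hG s (by omega) (by omega))
  refine this.mono ?_
  have e1 : κ.E (fun _ => v * w) = v * w * κ.E fun _ => 1 := by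
    rw [← Law.E_mul]; simp only [mul_one]
  have e2 := hκ.2.1
  have e3 := hB.2.2.2.2.2.2.1
  rw [e1]
  nlinarith [mul_le_mul_of_nonneg_left e2 hvw, mul_le_mul_of_nonneg_left e3 hvw]

/-- repeated tries while staying near the origin -/
theorem aa_boost (hBO : S_BOOST d F) (hB : B.Ok F) {C : Ty} {T U Mn : ℕ} {ρ ρ0 u : ℝ}
    (hP : PlainAt d F B K n (B.p 4) C T) (hT : 1 ≤ T) (hC : TyOk F B n (B.p 4) C) (hρ : 0 < ρ0)
    (hu0 : 0 ≤ u) (htol : tol (ls n) ≤ 1 / 2) (hg : ρ0 + 2 * C.2 ≤ 2 ^ n)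
    (h1 : 4 * ρ ^ 2 ≤ ρ0 ^ 2)
    (h2 : Mn * (2 * (d * (C.2 : ℝ) ^ 2 / ρ0 ^ 2 + 5 * B.eps) *
      (2 * ((U : ℝ) + RR F B n) / T + 1)) ≤ 1 / 4)
    (h : AaV F B K n (fun _ : S d => C) ρ0 U u) :
    AaV F B K n (fun _ : S d => C) ρ (Mn * (U + T + 2 * RR F B n)) (min (1 / 8) (Mn * u / 4)) := by
  intro M Φ te ub w y t hM hΦ hQ hZ hu ht hw hwu hy hG
  have := hBO B K n (B.p 4) C T M _ Φ te ub 0 ρ0 w u Mn U hB hP hT hC hM
    (glOk_hit F.toMd K M fun I => 0 ∈ I) hΦ hρ hw hwu hu0 htol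
    (fun z hz => aa_adm hQ hZ hρ.le (by simpa using hz.le) (by exact_mod_cast hg))
    (fun Ψ ub' w' z t' a1 a2 a3 a4 a5 a6 =>
      h M Ψ (t' + U) ub' w' z t' hM a3 hQ hZ a1 le_rfl a4 a5 (by simpa using a2.le) a6)
    y t hu ht hG
  refine this.mono ?_
  rw [sub_zero]
  have h3 : eu y / ρ0 ^ 2 ≤ 1 / 4 := by
    rw [div_le_iff₀ (by positivity)]; linarith
  have h4 : min (1 / 8) (Mn * u / 4) * w ≤ min (w / 4) (Mn * u * w / 2) * (1 / 2) := by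
    rw [min_mul_of_nonneg _ _ hw, min_mul_of_nonneg _ _ (by norm_num)]
    exact min_le_min (le_of_eq (by ring)) (le_of_eq (by ring))
  refine h4.trans (mul_le_mul_of_nonneg_left (by linarith) (le_min (by linarith) (by positivity)))

end Pool.Agent.Lib.MP_dd0771_pr.Sc
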