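import Pool.Agent.Lib.MP_dd0771_pr.Sc.Defs

/-! Engine definitions: ambient systems, martingales, values of launches, the launch machine. -/

open Filter

namespace Pool.Agent.Lib.MP_dd0771_pr.Sc

variable {d : ℕ}

/-- Base data: lowest fugacity, gap, survival level, tolerance, initial time, initial radius. -/
structure Bs where
  pa : ℝ
  g : ℝ
  th : ℝ
  eps : ℝ
  n0 : ℕ
  R0 : ℕ

def Bs.Ok (B : Bs) (F : Fr) : Prop :=
  F.lo ≤ B.pa ∧ 0 < B.g ∧ B.pa + 5 * B.g ≤ F.hi ∧ 0 < B.th ∧ B.th ≤ 1 ∧ 0 < B.eps ∧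
    B.eps ≤ 1 / 100 ∧ 1 ≤ B.n0
def Bs.p (B : Bs) (i : ℕ) : ℝ := B.pa + i * B.g
def Bs.thp (B : Bs) : ℝ := B.th * (1 + B.eps)
def Bs.thm (B : Bs) : ℝ := B.th * (1 - B.eps)

/-- The cutoff `K` is good for the engine `n`. -/
def BK (d : ℕ) (F : Fr) (B : Bs) (K n : ℕ) : Prop :=
  KOk F K ∧ 3 ^ (n ^ 2) ≤ K ∧ ∀ R, R ≤ 2 ^ (4 * n) →
    (B.R0 ≤ R → alv d F.toMd K (B.p 4, R) B.n0 ≤ B.thp) ∧
      ∀ T, (B.R0 + T) ^ 2 ≤ R → B.thm ≤ alv d F.toMd K (B.pa, R) T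

/-- For all large `n` and all cutoffs that are good for `n`. -/
def EvN (d : ℕ) (F : Fr) (B : Bs) (p : ℕ → ℕ → Prop) : Prop :=
  ∀ᶠ n in atTop, ∀ K, BK d F B K n → p n K

/-! ### Scales -/

def s1 (F : Fr) (n : ℕ) : ℕ := (n ^ 2) ^ F.A
def VV (n : ℕ) : ℕ := n ^ 3
def DD (F : Fr) (n : ℕ) : ℕ := n ^ (2 * F.A + 4)
noncomputable def er (n : ℕ) : ℝ := (1 / 2) ^ (4 * n)
noncomputable def e2 (n : ℕ) : ℝ := (1 / 2) ^ (2 * n)
def s2 (F : Fr) (l : ℕ) : ℕ := l ^ F.A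
def sq (F : Fr) (B : Bs) (l : ℕ) : ℕ := s2 F l + B.n0
def sb (F : Fr) (B : Bs) (n l : ℕ) : ℕ := s1 F n + sq F B l
noncomputable def tol (l : ℕ) : ℝ := Real.exp (-(l : ℝ) / 4)
/-- The scale of the strong launch. -/
def ls (n : ℕ) : ℕ := Nat.log 2 n ^ 2
def mm (F : Fr) (n : ℕ) : ℕ := n ^ 2 * 2 ^ (ls n ^ (F.A + 1))
def RR (F : Fr) (B : Bs) (n : ℕ) : ℕ := (mm F n + 2) * sb F B n (ls n)
def Lmin (F : Fr) (B : Bs) (n : ℕ) : ℕ := (VV n * RR F B n) ^ 8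
/-- Density threshold of the engine with ceiling `pc`. -/
noncomputable def hh (F : Fr) (B : Bs) (K : ℕ) (pc : ℝ) : ℝ := mn F.toMd K (pc + 3 * B.g / 4)
def TyOk (F : Fr) (B : Bs) (n : ℕ) (pc : ℝ) (C : Ty) : Prop :=
  B.pa ≤ C.1 ∧ C.1 ≤ pc ∧ pc ≤ B.p 4 ∧ Lmin F B n ≤ C.2 ∧ C.2 ≤ 2 ^ n

/-! ### Ambient systems -/

abbrev Nd (d : ℕ) : Type := Cfg d × List (Word d)
def tm (s : Nd d) : ℕ := s.2.length
def nx (s : Nd d) (ws : List (Word d)) : Nd d := (s.1, s.2 ++ ws)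
def cut (u : ℕ) (s : Nd d) : Nd d := (s.1, s.2.take u)

structure Amb (d : ℕ) where
  Q : Finset (S d)
  Q' : Finset (S d)
  Z : Finset (S d)
  y0 : S d
  u0 : ℕ
  fl : Nd d → Prop

def Amb.sy (M : Amb d) (K : ℕ) : Sys d := ⟨al K M.Q, M.Z⟩
def Amb.st (M : Amb d) (G : Md) (K : ℕ) (s : Nd d) : St d :=
  acs G (M.sy K) (ini G M.Z {M.y0} s.1) s.2

def Amb.Ok (M : Amb d) (F : Fr) (B : Bs) (K n : ℕ) (pc : ℝ) : Prop :=
  M.Q' ⊆ M.Q ∧ M.Z ⊆ M.Q ∧ (∀ s ws, M.fl s → M.fl (nx s ws)) ∧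
    ∀ s, ¬ M.fl s → ∀ u, M.u0 ≤ u → u ≤ tm s →
      ¬ Sparse (n ^ 2) (hh F B K pc) M.Q' (M.st F.toMd K (cut u s)).1

/-- The ambient system with the standard density flag. -/
def samb (F : Fr) (B : Bs) (K n : ℕ) (pc : ℝ) (Q Q' Z : Finset (S d)) (y0 : S d) (u0 : ℕ) :
    Amb d :=
  ⟨Q, Q', Z, y0, u0, fun s => ∃ u, u0 ≤ u ∧ u ≤ tm s ∧
    Sparse (n ^ 2) (hh F B K pc) Q' (ms (al K Q) s.1 (s.2.take u))⟩

def Mart (G : Md) (K : ℕ) (M : Amb d) (Φ : Nd d → ℝ) (te : ℕ) (ub : ℝ) : Prop :=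
  (∀ s, 0 ≤ Φ s ∧ Φ s ≤ 1) ∧
    (∀ s, tm s < te → Φ s = ex (wl G (al K M.Q)) fun w => Φ (nx s [w])) ∧
    ∀ s, tm s ≤ te → M.fl s → ub ≤ Φ s

/-- Conditional expectation of a function of the node at time `te`. -/
noncomputable def cl (G : Md) (K : ℕ) (M : Amb d) (f : Nd d → ℝ) (te : ℕ) (s : Nd d) : ℝ :=
  ex (wls G (al K M.Q) (te - tm s)) fun ws => f (cut te (nx s ws))

def Adm (M : Amb d) (Y : Finset (S d)) (L : ℕ) : Prop :=
  Apart Y L ∧ wQ Y L ⊆ M.Q' ∧ wZ Y L ⊆ M.Z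

/-- Expectation of `f` of the state at time `n0` of the world of type `C` at `Y`, on the event that
all its components are alive. -/
noncomputable def wEv (G : Md) (K n0 : ℕ) (C : Ty) (Y : Finset (S d)) (f : St d → ℝ) : ℝ :=
  ex (mu G K C.1 (wQ Y C.2)) fun η => ex (wls G (al K (wQ Y C.2)) n0) fun ws =>
    ind (∀ y ∈ Y, ∃ x ∈ (acs G ⟨al K (wQ Y C.2), wZ Y C.2⟩ (ini G (wZ Y C.2) Y η) ws).2,
        x ∈ bx y C.2) * f (acs G ⟨al K (wQ Y C.2), wZ Y C.2⟩ (ini G (wZ Y C.2) Y η) ws)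

/-- The value for `Φ` of a launch of class `l` and type `C` at `Y`, completed at time `t`, is at
least `v`. -/
def Val (F : Fr) (B : Bs) (K n l : ℕ) (M : Amb d) (Φ : Nd d → ℝ) (C : Ty) (Y : Finset (S d))
    (t : ℕ) (v : ℝ) : Prop :=
  ∀ Λ : PMF (Nd d × St d × Bool), (∀ p ∈ Λ.support, tm p.1 = t) →
    (sq F B l ≤ t → ∀ p ∈ Λ.support, ∀ p' ∈ Λ.support,
      cut (t - sq F B l) p.1 = cut (t - sq F B l) p'.1) →
    (∀ f : St d → ℝ, (∀ σ, 0 ≤ f σ ∧ f σ ≤ 1) →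
      (wEv F.toMd K B.n0 C Y f - er n) / B.thp ^ Y.card ≤ ex Λ fun p => f p.2.1) →
    (∀ p ∈ Λ.support, p.2.2 = true → Vld (DD F n) p.2.1 (M.st F.toMd K p.1) ∨ M.fl p.1) →
    pr Λ (fun p => p.2.2 = false) ≤ tol l →
    v ≤ ex Λ fun p => if p.2.2 then Φ p.1 else 0

/-- Goals: monotone in the time window, stable under lowering the potential. -/
def GlOk (Gl : (Nd d → ℝ) → ℝ → ℕ → ℕ → Prop) : Prop :=
  (∀ Φ w t1 t2 t1' t2', t1 ≤ t1' → t2' ≤ t2 → Gl Φ w t1 t2 → Gl Φ w t1' t2') ∧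
    ∀ Φ Ψ w wb t1 t2, (∀ s, 0 ≤ Φ s ∧ Φ s ≤ 1) → (∀ s, 0 ≤ Ψ s ∧ Ψ s ≤ 1) → 0 ≤ wb →
      (∀ s, tm s ≤ t2 → Φ s - wb ≤ Ψ s) → Gl Φ w t1 t2 → Gl Ψ (w - wb) t1 t2

/-! ### The launch machine -/

abbrev Rule (d : ℕ) : Type := ℕ → Finset (S d) → Finset (Finset (S d))

def RuleOk (D : ℕ) (O : Rule d) : Prop :=
  ∀ k Cd, ∀ Yt ∈ O k Cd, Yt ⊆ Cd ∧ Yt.Nonempty ∧ Yt.card ≤ 2 ∧
    ∀ z ∈ Yt, ∀ z' ∈ Yt, z ≠ z' → 10 * D ≤ nrm (z - z')

def frz (G : Md) (z : S d) (ws : List (Word d)) : Prop := ∀ w ∈ ws, ∀ a ∈ w, a ∉ low G z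

/-- `ω` on the local box of `z`, raised to `j` at `z`. -/
noncomputable def loc (G : Md) (D : ℕ) (z : S d) (ω : Cfg d) : Cfg d :=
  fun x => if x ∈ bx z (4 * D) then (if x = z then max (ω x) G.j else ω x) else 0

def pregood (F : Fr) (K n l : ℕ) (pc : ℝ) (ω : Cfg d) (z : S d) : Prop :=
  mass ω (bx z (4 * DD F n)) ≤ 2 ^ n ∧
    (ex (piz F.toMd K pc (bx z (4 * DD F n)) z) fun ζ =>
      pr (wls F.toMd (al K (bx z (4 * DD F n)) \ low F.toMd z) (s2 F l)) fun ws =>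
        ∃ x ∈ bx z (3 * DD F n), ms (al K (bx z (4 * DD F n))) (loc F.toMd (DD F n) z ω) ws x <
          ms (al K (bx z (4 * DD F n))) ζ ws x) ≤ Real.exp (-(l : ℝ) / 2)

open Classical in
/-- One try at `z` on the windows `ws`: `some (ζ0, ζ')` on success, where `ζ0` is the local sample
at the start of the freeze and `ζ'` the initial configuration of the local world. -/
noncomputable def LT (F : Fr) (B : Bs) (K n l : ℕ) (pc : ℝ) (ws : List (Word d)) (z : S d) :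
    PMF (Option (Cfg d × Cfg d)) :=
  if frz F.toMd z (ws.take (s2 F l)) then
    (piz F.toMd K pc (bx z (4 * DD F n)) z).bind fun ζ0 =>
      (thin (sl F.toMd K pc F.j) (sl F.toMd K pc 0)
        (ms (al K (bx z (4 * DD F n))) ζ0 (ws.take (s2 F l)) z)).map fun v =>
        let ζ' := Function.update (ms (al K (bx z (4 * DD F n))) ζ0 (ws.take (s2 F l))) z v
        if (acs F.toMd ⟨al K (bx z (4 * DD F n)), bx z (2 * DD F n)⟩
            (ini F.toMd (bx z (2 * DD F n)) {z} ζ') (ws.drop (s2 F l))).2.Nonempty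
        then some (ζ0, ζ') else none
  else PMF.pure none

/-- All the tries at the sites of the list succeed. -/
noncomputable def LTs (F : Fr) (B : Bs) (K n l : ℕ) (pc : ℝ) (ws : List (Word d)) :
    List (S d) → PMF Bool
  | [] => PMF.pure true
  | z :: zs => (LT F B K n l pc ws z).bind fun o =>
      (LTs F B K n l pc ws zs).map fun b => o.isSome && b

/-- Success probability of one try. -/
noncomputable def qq (d : ℕ) (F : Fr) (B : Bs) (K n l : ℕ) (pc : ℝ) : ℝ :=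
  Real.exp (-(s2 F l : ℝ) * ∑ a ∈ low F.toMd (0 : S d), rt F.toMd a) *
    alv d F.toMd K (pc, 2 * DD F n) B.n0

/-- A machine: tracked system, centres, size and rule. -/
structure Mc (d : ℕ) where
  sy : Sys d
  Y : Finset (S d)
  L : ℕ
  O : Rule d

open Classical in
noncomputable def cand (F : Fr) (K n l : ℕ) (pc : ℝ) (H : Mc d) (σ : St d) (ws : List (Word d))
    (ω0 : Cfg d) : Finset (S d) :=
  ((acs F.toMd H.sy σ (ws.take (s1 F n))).2 ∩ wZ H.Y H.L).filter fun z =>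
    pregood F K n l pc (ms (al K (wQ H.Y H.L)) ω0 (ws.take (s1 F n))) z

open Classical in
/-- One block on the windows `ws`: the set tried, on success. -/
noncomputable def tryB (F : Fr) (B : Bs) (K n l : ℕ) (pc : ℝ) (H : Mc d) (k : ℕ) (σ : St d)
    (ws : List (Word d)) : PMF (Option (Finset (S d))) :=
  (mu F.toMd K (pc + B.g / 2) (wQ H.Y H.L)).bind fun ω0 =>
    if h : (H.O k (cand F K n l pc H σ ws ω0)).Nonempty then
      (PMF.uniformOfFinset _ h).bind fun Yt =>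
        (LTs F B K n l pc (ws.drop (s1 F n)) Yt.toList).map fun b => if b then some Yt else none
    else PMF.pure none

/-- Block and set of the first success among `m` blocks, the first one numbered `k`. -/
noncomputable def run (F : Fr) (B : Bs) (K n l : ℕ) (pc : ℝ) (H : Mc d) :
    ℕ → ℕ → St d → PMF (Option (ℕ × Finset (S d)))
  | 0, _, _ => PMF.pure none
  | m + 1, k, σ => (wls F.toMd H.sy.A (sb F B n l)).bind fun ws =>
      (tryB F B K n l pc H k σ ws).bind fun o =>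
        match o with
        | some Yt => PMF.pure (some (k, Yt))
        | none => run F B K n l pc H m (k + 1) (acs F.toMd H.sy σ ws)

/-- Expected value of the first success. -/
noncomputable def rv (F : Fr) (B : Bs) (K n l : ℕ) (pc : ℝ) (H : Mc d) (m : ℕ) (σ : St d)
    (v : ℕ × Finset (S d) → ℝ) : ℝ := ex (run F B K n l pc H m 0 σ) fun o => o.elim 0 v

open Classical in
/-- Chain event: on `mm` consecutive blocks before block `k2` there are two slow chains of infected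
sites of `Zc`, on half of these blocks the rule has an option as soon as both are candidates,
and all the options up to the last of these blocks satisfy `P`.
`I` is the trajectory from the start of the machine. -/
def CE (F : Fr) (B : Bs) (n : ℕ) (Zc : Finset (S d)) (O : Rule d) (k2 : ℕ)
    (P : ℕ × Finset (S d) → Prop) (I : Tj d) : Prop :=
  ∃ k1, k1 + mm F n ≤ k2 ∧
    (∀ k, k < k1 + mm F n → ∀ Cd ⊆ I (k * sb F B n (ls n) + s1 F n) ∩ Zc, ∀ Yt ∈ O k Cd,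
      P (k, Yt)) ∧ ∃ x1 x2 : ℕ → S d,
    (∀ k, k1 ≤ k → k < k1 + mm F n →
      x1 k ∈ I (k * sb F B n (ls n) + s1 F n) ∩ Zc ∧ x2 k ∈ I (k * sb F B n (ls n) + s1 F n) ∩ Zc ∧
      nrm (x1 (k + 1) - x1 k) ≤ VV n * sb F B n (ls n) ∧
      nrm (x2 (k + 1) - x2 k) ≤ VV n * sb F B n (ls n)) ∧
    mm F n ≤ 2 * ((Finset.Ico k1 (k1 + mm F n)).filter fun k =>
      ∀ Cd ⊆ I (k * sb F B n (ls n) + s1 F n) ∩ Zc, x1 k ∈ Cd → x2 k ∈ Cd → (O k Cd).Nonempty).card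

open Classical in
/-- Number of checkpoints `j < M` (every `U` windows after `n0`) with a chain event. -/
noncomputable def Ncnt (F : Fr) (B : Bs) (n : ℕ) (Zc : Finset (S d)) (O : Rule d) (M U : ℕ)
    (I : Tj d) : ℕ :=
  ((Finset.range M).filter fun j =>
    CE F B n Zc O (mm F n + 1) (fun _ => True) fun u => I (B.n0 + j * U + u)).card

/-- Flag of a tracked world during `ws`: too dense or too fast. -/
def wfl (G : Md) (n : ℕ) (h : ℝ) (Y : Sys d) (Qd : Finset (S d)) (η : Cfg d)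
    (ws : List (Word d)) : Prop :=
  ∃ u, u ≤ ws.length ∧ (Dense (n ^ 2) h Qd (ms Y.A η (ws.take u)) ∨
    ∃ w, ws[u]? = some w ∧ ¬ Slow G Y (VV n) Y.Z (ms Y.A η (ws.take u)) w)

/-- The error attached to the configuration of a tracked world over `T` windows. -/
noncomputable def werr (G : Md) (K n : ℕ) (h : ℝ) (Y : Sys d) (Q Qd : Finset (S d))
    (T : ℕ) (η : Cfg d) : ℝ :=
  min 1 (pr (wls G Y.A T) (wfl G n h Y Qd η) + ind (K ≤ mass η Q) +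
    (mass η Q + 1) * Real.exp (-(n : ℝ) ^ 2 / 2))

/-- The machine on the world of type `C` at `Y`. -/
noncomputable def wMc (K : ℕ) (C : Ty) (Y : Finset (S d)) (O : Rule d) : Mc d :=
  ⟨⟨al K (wQ Y C.2), wZ Y C.2⟩, Y, C.2, O⟩

/-- Every option of the rule with a positive value `v` among `m` blocks from time `t` leads to a
launch of class `l`, type `ty` at the kept sites `kp`, of value `v`. -/
def Cont (F : Fr) (B : Bs) (K n l : ℕ) (pc : ℝ) (M : Amb d) (Φ : Nd d → ℝ) (Zc : Finset (S d))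
    (O : Rule d) (m t : ℕ) (ty : ℕ × Finset (S d) → Ty) (kp : Finset (S d) → Finset (S d))
    (v : ℕ × Finset (S d) → ℝ) : Prop :=
  ∀ k, k < m → ∀ Cd ⊆ Zc, ∀ Yt ∈ O k Cd, 0 < v (k, Yt) →
    kp Yt ⊆ Yt ∧ Apart (kp Yt) (ty (k, Yt)).2 ∧ TyOk F B n pc (ty (k, Yt)) ∧
      wZ (kp Yt) (ty (k, Yt)).2 ⊆ M.Z ∧
      Val F B K n l M Φ (ty (k, Yt)) (kp Yt) (t + (k + 1) * sb F B n l) (v (k, Yt))

/-- Rule: try at any candidate in `P`. -/
noncomputable def rReg (P : Finset (S d)) : Rule d := fun _ Cd => (Cd ∩ P).image fun z => {z}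

/-- Rule: try at two candidates at distance at least `D`. -/
noncomputable def rSpr (D : ℕ) : Rule d := fun _ Cd =>
  ((Cd ×ˢ Cd).filter fun p => D ≤ nrm (p.1 - p.2)).image fun p => {p.1, p.2}

/-- Finitely supported weights. -/
structure Law (α : Type) where
  W : Finset α
  k : α → ℝ
def Law.E {α : Type} (κ : Law α) (f : α → ℝ) : ℝ := ∑ p ∈ κ.W, κ.k p * f p
def Law.Ok {α : Type} (κ : Law α) (e : ℝ) : Prop :=
  (∀ p, 0 ≤ κ.k p) ∧ 1 - e ≤ κ.E (fun _ => 1) ∧ κ.E (fun _ => 1) ≤ 1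

/-- One step from a launch of type `C` at `y` with law `κ` of displacement and duration. -/
def Step1 (F : Fr) (B : Bs) (K n : ℕ) (pc : ℝ) (C : Ty) (y : S d) (T : ℕ) (κ : Law (S d × ℕ)) :
    Prop :=
  ∀ (M : Amb d) (Φ : Nd d → ℝ) (te t : ℕ) (ub vb : ℝ) (ty : S d × ℕ → Ty) (v : S d × ℕ → ℝ),
    M.Ok F B K n pc → Mart F.toMd K M Φ te ub → M.u0 ≤ t → t + T ≤ te → Adm M {y} C.2 →
    0 ≤ vb → vb ≤ ub → (∀ p ∈ κ.W, v p ≤ vb) →
    (∀ p ∈ κ.W, 0 < v p → TyOk F B n pc (ty p) ∧ bx (y + p.1) (ty p).2 ⊆ M.Z ∧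
      Val F B K n (ls n) M Φ (ty p) {y + p.1} (t + p.2) (v p)) →
    Val F B K n (ls n) M Φ C {y} t (κ.E v - 2 * B.eps * vb)

/-- One step from a double launch of type `C` at `y1, y2`. -/
def Step2 (F : Fr) (B : Bs) (K n : ℕ) (pc : ℝ) (C : Ty) (y1 y2 : S d) (T : ℕ)
    (κ : Law (S d × S d × ℕ)) : Prop :=
  ∀ (M : Amb d) (Φ : Nd d → ℝ) (te t : ℕ) (ub vb : ℝ) (ty : S d × S d × ℕ → Ty)
    (v : S d × S d × ℕ → ℝ),
    M.Ok F B K n pc → Mart F.toMd K M Φ te ub → M.u0 ≤ t → t + T ≤ te → Adm M {y1, y2} C.2 →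
    0 ≤ vb → vb ≤ ub → (∀ p ∈ κ.W, v p ≤ vb) →
    (∀ p ∈ κ.W, 0 < v p → TyOk F B n pc (ty p) ∧ Apart {y1 + p.1, y2 + p.2.1} (ty p).2 ∧
      wZ {y1 + p.1, y2 + p.2.1} (ty p).2 ⊆ M.Z ∧
      Val F B K n (ls n) M Φ (ty p) {y1 + p.1, y2 + p.2.1} (t + p.2.2) (v p)) →
    Val F B K n (ls n) M Φ C {y1, y2} t (κ.E v - 2 * B.eps * vb)

/-- Plain steps of type `C` with time scale `T` exist at every site. -/
def PlainAt (d : ℕ) (F : Fr) (B : Bs) (K n : ℕ) (pc : ℝ) (C : Ty) (T : ℕ) : Prop :=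
  ∀ y : S d, ∃ κ : Law (S d × ℕ), κ.Ok (3 * B.eps) ∧
    (∀ p ∈ κ.W, nrm p.1 ≤ C.2 ∧ 1 ≤ p.2 ∧ p.2 ≤ T + RR F B n) ∧
    (∀ i, κ.E (fun p => (p.1 i : ℝ)) = 0) ∧ κ.E (fun p => ind (2 * p.2 < T)) ≤ 1 / 4 ∧
    Step1 F B K n pc C y (T + RR F B n) κ

/-- Pair steps of type `C` with time scale `T` and variance constant `c`. -/
def PairAt (d : ℕ) (F : Fr) (B : Bs) (K n : ℕ) (pc : ℝ) (C : Ty) (T : ℕ) (c : ℝ) : Prop :=
  ∀ y1 y2 : S d, 4 * C.2 + 2 ≤ nrm (y1 - y2) → ∃ κ : Law (S d × S d × ℕ), κ.Ok (6 * B.eps) ∧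
    (∀ p ∈ κ.W, nrm p.1 ≤ C.2 ∧ nrm p.2.1 ≤ C.2 ∧ 1 ≤ p.2.2 ∧ p.2.2 ≤ T + RR F B n) ∧
    (∀ i, κ.E (fun p => (p.1 i : ℝ)) = 0 ∧ κ.E (fun p => (p.2.1 i : ℝ)) = 0 ∧
      κ.E (fun p => (p.1 i : ℝ) * p.2.1 i) = 0 ∧
      c * (C.2 : ℝ) ^ 2 / (16 * d) ≤ κ.E fun p => (p.1 i : ℝ) ^ 2 + (p.2.1 i : ℝ) ^ 2) ∧
    Step2 F B K n pc C y1 y2 (T + RR F B n) κ

/-- Steps of type `C` with drift `dr` in any chosen direction. -/
def SteerAt (d : ℕ) (F : Fr) (B : Bs) (K n : ℕ) (pc : ℝ) (C : Ty) (T : ℕ) (dr : ℝ) : Prop :=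
  ∀ (y : S d) (i : Fin d) (sg : Bool), ∃ κ : Law (S d × ℕ), κ.Ok (3 * B.eps) ∧
    (∀ p ∈ κ.W, nrm p.1 ≤ C.2 ∧ 1 ≤ p.2 ∧ p.2 ≤ T + RR F B n) ∧
    (∀ i', i' ≠ i → κ.E (fun p => (p.1 i' : ℝ)) = 0) ∧
    κ.E (fun p => (if sg then 1 else -1) * (p.1 i : ℝ)) ≤ -dr ∧
    Step1 F B K n pc C y (T + RR F B n) κ

/-- Radius and time of the level of size `L`. -/
def LDat (d : ℕ) (F : Fr) (B : Bs) (K : ℕ) (c : ℝ) (CT L r T : ℕ) : Prop :=
  L ≤ 2 * r ∧ 16 * (r + Nat.sqrt L) ≤ 11 * L ∧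
    c * B.th ≤ reach d F.toMd K (B.p 2, L) B.n0 (r + Nat.sqrt L) T ∧
    (∀ t, 2 * t < T → reach d F.toMd K (B.p 2, L) B.n0 r t ≤ c * B.th) ∧
    Nat.sqrt L ≤ T ∧ T ≤ L ^ CT

end Pool.Agent.Lib.MP_dd0771_pr.Sc
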