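import Pool.Agent.Lib.MP_dd0771_pr.Sc.Det1
import Pool.Agent.Lib.MP_dd0771_pr.Sc.Defs2

open Filter

namespace Pool.Agent.Lib.MP_dd0771_pr.Sc

variable {d : ℕ} {G : Md}

theorem det2_mem_none (Y : Sys d) (σ : St d) (p x : S d) :
    x ∈ (ac G Y σ (p, none)).2 ↔
      x ∈ σ.2 ∧ ¬ (((p, none) : Lt d) ∈ Y.A ∧ σ.1 p = 1 ∧ x = p) := by
  simp only [ac]
  split_ifs with h
  · simp only [Finset.mem_erase]; tauto
  · tauto

theorem det2_mem_some (Y : Sys d) (σ : St d) (p x : S d) (q : Dir d × ℕ)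
    (h : ((p, some q) : Lt d) ∈ Y.A ∧ q.2 < σ.1 p) :
    x ∈ (ac G Y σ (p, some q)).2 ↔ (x ∈ σ.2 ∨ (x = nb p q.1 ∧ p ∈ σ.2 ∧ nb p q.1 ∈ Y.Z)) ∧
      G.j ≤ hop σ.1 p (nb p q.1) x := by
  simp only [ac, if_pos h, Finset.mem_filter]
  split_ifs with h'
  · simp only [Finset.mem_insert]; tauto
  · tauto

theorem det2_ac_idle (Y : Sys d) (σ : St d) (p : S d) (q : Dir d × ℕ)
    (h : ¬ (((p, some q) : Lt d) ∈ Y.A ∧ q.2 < σ.1 p)) : ac G Y σ (p, some q) = σ := by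
  simp only [ac, if_neg h]

theorem det2_fst_some (Y : Sys d) (σ : St d) (p : S d) (q : Dir d × ℕ)
    (h : ((p, some q) : Lt d) ∈ Y.A ∧ q.2 < σ.1 p) :
    (ac G Y σ (p, some q)).1 = hop σ.1 p (nb p q.1) := by
  simp only [ac, if_pos h]

theorem det2_fst_none (Y : Sys d) (σ : St d) (p : S d) : (ac G Y σ (p, none)).1 = σ.1 := by
  simp only [ac]

theorem reg_ini (Z Y0 : Finset (S d)) (η : Cfg d) : Reg G Z (ini G Z Y0 η) := by
  intro x hx
  simp only [ini, Finset.mem_filter, Finset.mem_inter] at hx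
  exact ⟨hx.1.2, hx.2⟩

theorem det2_reg_ac {Y : Sys d} {σ : St d} (h : Reg G Y.Z σ) (a : Lt d) :
    Reg G Y.Z (ac G Y σ a) := by
  obtain ⟨p, _ | q⟩ := a
  · intro x hx
    rw [det2_fst_none]
    exact h x ((det2_mem_none Y σ p x).1 hx).1
  · by_cases hq : ((p, some q) : Lt d) ∈ Y.A ∧ q.2 < σ.1 p
    · intro x hx
      rw [det2_fst_some Y σ p q hq]
      obtain ⟨h1, h2⟩ := (det2_mem_some Y σ p x q hq).1 hx
      refine ⟨?_, h2⟩
      rcases h1 with h1 | ⟨rfl, -, h1⟩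
      · exact (h x h1).1
      · exact h1
    · rw [det2_ac_idle Y σ p q hq]; exact h

theorem det2_acw_cons (Y : Sys d) (σ : St d) (a : Lt d) (w : Word d) :
    acw G Y σ (a :: w) = acw G Y (ac G Y σ a) w := rfl

theorem det2_acs_cons (Y : Sys d) (σ : St d) (w : Word d) (ws : List (Word d)) :
    acs G Y σ (w :: ws) = acs G Y (acw G Y σ w) ws := rfl

theorem Reg.acw {Y : Sys d} {σ : St d} (h : Reg G Y.Z σ) (w : Word d) :
    Reg G Y.Z (acw G Y σ w) := by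
  induction w generalizing σ with
  | nil => exact h
  | cons a w ih => exact ih (det2_reg_ac h a)

theorem Reg.acs {Y : Sys d} {σ : St d} (h : Reg G Y.Z σ) (ws : List (Word d)) :
    Reg G Y.Z (acs G Y σ ws) := by
  induction ws generalizing σ with
  | nil => exact h
  | cons w ws ih => exact ih (h.acw w)

/-- One letter of the comparison. -/
theorem det2_ac_cmp (hj : 1 ≤ G.j) {Y1 Y2 : Sys d} {σ τ : St d} (a : Lt d) (hr : Reg G Y1.Z σ)
    (h2 : σ.2 ⊆ τ.2) (hA : a.1 ∈ σ.2 → (a ∈ Y1.A ↔ a ∈ Y2.A))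
    (hd : ∀ x ∈ σ.2, σ.1 x ≤ τ.1 x)
    (hd' : ∀ x ∈ (ac G Y1 σ a).2, (ac G Y1 σ a).1 x ≤ (ac G Y2 τ a).1 x)
    (hZ : ∀ x ∈ (ac G Y1 σ a).2, x ∈ Y1.Z → x ∈ Y2.Z) : (ac G Y1 σ a).2 ⊆ (ac G Y2 τ a).2 := by
  intro x hx
  have hr' := det2_reg_ac hr a x hx
  have hj' : G.j ≤ (ac G Y2 τ a).1 x := hr'.2.trans (hd' x hx)
  have hz := hZ x hx hr'.1
  obtain ⟨p, _ | q⟩ := a
  · obtain ⟨h1, h3⟩ := (det2_mem_none Y1 σ p x).1 hx
    refine (det2_mem_none Y2 τ p x).2 ⟨h2 h1, ?_⟩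
    rintro ⟨h4, h5, rfl⟩
    have := hd x h1
    have := (hr x h1).2
    exact h3 ⟨(hA h1).2 h4, by omega, rfl⟩
  · have key : x ∈ σ.2 ∨ (x = nb p q.1 ∧ p ∈ σ.2 ∧
        (((p, some q) : Lt d) ∈ Y2.A ∧ q.2 < τ.1 p)) := by
      by_cases hq : ((p, some q) : Lt d) ∈ Y1.A ∧ q.2 < σ.1 p
      · rcases ((det2_mem_some Y1 σ p x q hq).1 hx).1 with h1 | ⟨h1, h3, -⟩
        · exact Or.inl h1
        · exact Or.inr ⟨h1, h3, (hA h3).1 hq.1, hq.2.trans_le (hd p h3)⟩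
      · rw [det2_ac_idle Y1 σ p q hq] at hx; exact Or.inl hx
    by_cases hq : ((p, some q) : Lt d) ∈ Y2.A ∧ q.2 < τ.1 p
    · rw [det2_fst_some Y2 τ p q hq] at hj'
      refine (det2_mem_some Y2 τ p x q hq).2 ⟨?_, hj'⟩
      rcases key with h1 | ⟨h1, h3, -⟩
      · exact Or.inl (h2 h1)
      · exact Or.inr ⟨h1, h2 h3, h1 ▸ hz⟩
    · rw [det2_ac_idle Y2 τ p q hq]
      rcases key with h1 | ⟨-, -, h3⟩
      · exact h2 h1
      · exact absurd h3 hq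

/-- Same alphabet: global monotonicity. -/
theorem acw_mono (hj : 1 ≤ G.j) (A : Finset (Lt d)) {Z Z' : Finset (S d)} (hZ : Z ⊆ Z')
    {σ τ : St d} (hr : Reg G Z σ) (h1 : σ.1 ≤ τ.1) (h2 : σ.2 ⊆ τ.2) (w : Word d) :
    (acw G ⟨A, Z⟩ σ w).2 ⊆ (acw G ⟨A, Z'⟩ τ w).2 := by
  induction w generalizing σ τ with
  | nil => exact h2
  | cons a w ih =>
    have hm : (ac G ⟨A, Z⟩ σ a).1 ≤ (ac G ⟨A, Z'⟩ τ a).1 := by
      rw [ac_fst, ac_fst]; exact mw_mono A h1 [a]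
    exact ih (det2_reg_ac (Y := ⟨A, Z⟩) hr a) hm
      (det2_ac_cmp (Y1 := ⟨A, Z⟩) (Y2 := ⟨A, Z'⟩) hj a hr h2 (fun _ => Iff.rfl)
        (fun x _ => h1 x) (fun x _ => hm x) fun x _ hx => hZ hx)

theorem acs_mono (hj : 1 ≤ G.j) (A : Finset (Lt d)) {Z Z' : Finset (S d)} (hZ : Z ⊆ Z')
    {σ τ : St d} (hr : Reg G Z σ) (h1 : σ.1 ≤ τ.1) (h2 : σ.2 ⊆ τ.2) (ws : List (Word d)) :
    (acs G ⟨A, Z⟩ σ ws).2 ⊆ (acs G ⟨A, Z'⟩ τ ws).2 := by
  rw [acs_flatten, acs_flatten]; exact acw_mono hj A hZ hr h1 h2 _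

/-- Local comparison along one word. -/
theorem acw_cmp (hj : 1 ≤ G.j) {Y1 Y2 : Sys d} {B : Finset (S d)} {σ τ : St d} (w : Word d)
    (hZ : ∀ x ∈ B, x ∈ Y1.Z → x ∈ Y2.Z) (hr : Reg G Y1.Z σ) (h2 : σ.2 ⊆ τ.2)
    (hA : ∀ a : Lt d, a.1 ∈ B → (a ∈ Y1.A ↔ a ∈ Y2.A))
    (hB : ∀ i, (acw G Y1 σ (w.take i)).2 ⊆ B)
    (hd : ∀ i, ∀ x ∈ B, mw Y1.A σ.1 (w.take i) x ≤ mw Y2.A τ.1 (w.take i) x) :
    (acw G Y1 σ w).2 ⊆ (acw G Y2 τ w).2 := by
  induction w generalizing σ τ with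
  | nil => exact h2
  | cons a w ih =>
    have b0 : σ.2 ⊆ B := hB 0
    have b1 : (ac G Y1 σ a).2 ⊆ B := hB 1
    refine ih (det2_reg_ac hr a) (det2_ac_cmp hj a hr h2 (fun h => hA a (b0 h))
      (fun x hx => hd 0 x (b0 hx)) (fun x hx => ?_) fun x hx => hZ x (b1 hx))
      (fun i => hB (i + 1)) fun i x hx => ?_
    · rw [ac_fst, ac_fst]; exact hd 1 x (b1 hx)
    · rw [ac_fst, ac_fst]; exact hd (i + 1) x hx

theorem det2_ac_anc (Y : Sys d) (σ : St d) (a : Lt d) {x' : S d} :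
    x' ∈ (ac G Y σ a).2 ↔ ∃ x ∈ σ.2, x' ∈ (ac G Y (σ.1, {x}) a).2 := by
  obtain ⟨p, _ | q⟩ := a
  · simp only [det2_mem_none, Finset.mem_singleton]
    constructor
    · rintro ⟨h1, h2⟩; exact ⟨x', h1, rfl, h2⟩
    · rintro ⟨x, h1, rfl, h2⟩; exact ⟨h1, h2⟩
  · by_cases hq : ((p, some q) : Lt d) ∈ Y.A ∧ q.2 < σ.1 p
    · have e : ∀ x, x' ∈ (ac G Y (σ.1, {x}) (p, some q)).2 ↔ _ := fun x =>
        det2_mem_some (G := G) Y (σ.1, {x}) p x' q hq
      simp only [e, det2_mem_some Y σ p x' q hq, Finset.mem_singleton]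
      constructor
      · rintro ⟨h1 | ⟨h1, h3, h4⟩, h2⟩
        · exact ⟨x', h1, Or.inl rfl, h2⟩
        · exact ⟨p, h3, Or.inr ⟨h1, rfl, h4⟩, h2⟩
      · rintro ⟨x, h0, h1 | ⟨h1, h3, h4⟩, h2⟩
        · exact ⟨Or.inl (h1 ▸ h0), h2⟩
        · exact ⟨Or.inr ⟨h1, h3 ▸ h0, h4⟩, h2⟩
    · have e : ∀ x, ac G Y (σ.1, {x}) (p, some q) = (σ.1, {x}) := fun x =>
        det2_ac_idle (G := G) Y (σ.1, {x}) p q hq
      simp only [e, det2_ac_idle Y σ p q hq, Finset.mem_singleton]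
      constructor
      · intro h; exact ⟨x', h, rfl⟩
      · rintro ⟨x, h, rfl⟩; exact h

/-- Additivity. -/
theorem acw_anc (Y : Sys d) (σ : St d) (w : Word d) {x' : S d} :
    x' ∈ (acw G Y σ w).2 ↔ ∃ x ∈ σ.2, x' ∈ (acw G Y (σ.1, {x}) w).2 := by
  induction w generalizing σ with
  | nil =>
    constructor
    · intro h; exact ⟨x', h, Finset.mem_singleton_self _⟩
    · rintro ⟨x, h, h'⟩
      have : x' = x := Finset.mem_singleton.1 h'
      exact this ▸ h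
  | cons a w ih =>
    have e : ∀ x, (ac G Y (σ.1, {x}) a).1 = (ac G Y σ a).1 := fun x => by rw [ac_fst, ac_fst]
    rw [det2_acw_cons, ih]
    constructor
    · rintro ⟨y, hy, h⟩
      obtain ⟨x, hx, hy'⟩ := (det2_ac_anc Y σ a).1 hy
      exact ⟨x, hx, by rw [det2_acw_cons, ih, e]; exact ⟨y, hy', h⟩⟩
    · rintro ⟨x, hx, h⟩
      rw [det2_acw_cons, ih, e] at h
      obtain ⟨y, hy, h⟩ := h
      exact ⟨y, (det2_ac_anc Y σ a).2 ⟨x, hx, hy⟩, h⟩

theorem acs_anc (Y : Sys d) (σ : St d) (ws : List (Word d)) {x' : S d} :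
    x' ∈ (acs G Y σ ws).2 ↔ ∃ x ∈ σ.2, x' ∈ (acs G Y (σ.1, {x}) ws).2 := by
  simp only [acs_flatten]; exact acw_anc Y σ _

theorem regT_tj (Y : Sys d) (Y0 : Finset (S d)) (η : Cfg d) (ws : List (Word d)) :
    RegT Y.Z Y0 (tj G Y (ini G Y.Z Y0 η) ws) := by
  refine ⟨fun x hx => ?_, fun u x hx => ((reg_ini Y.Z Y0 η).acs _ x hx).1, fun u hu => ?_⟩
  · have : x ∈ (ini G Y.Z Y0 η).2 := hx
    simp only [ini, Finset.mem_filter, Finset.mem_inter] at this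
    exact this.1.1
  · unfold tj at hu ⊢
    rcases h : ws[u]? with _ | w
    · have hl : ws.length ≤ u := List.getElem?_eq_none_iff.1 h
      rw [List.take_of_length_le (by omega)] at hu
      rwa [List.take_of_length_le hl]
    · rw [acs_take_succ Y _ h] at hu
      obtain ⟨x', hx'⟩ := hu
      obtain ⟨x, hx, -⟩ := (acw_anc Y _ w).1 hx'
      exact ⟨x, hx⟩

/-- The zone does not matter as long as the infection stays inside the smaller one. -/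
theorem acw_zone (A : Finset (Lt d)) {Z Z' : Finset (S d)} (hZ : Z ⊆ Z') (σ : St d) (w : Word d)
    (h : ∀ i, (acw G ⟨A, Z'⟩ σ (w.take i)).2 ⊆ Z) :
    acw G ⟨A, Z⟩ σ w = acw G ⟨A, Z'⟩ σ w := by
  induction w generalizing σ with
  | nil => rfl
  | cons a w ih =>
    have b1 : (ac G ⟨A, Z'⟩ σ a).2 ⊆ Z := h 1
    have e : ac G ⟨A, Z⟩ σ a = ac G ⟨A, Z'⟩ σ a := by
      refine Prod.ext (by rw [ac_fst, ac_fst]) (Finset.ext fun x => ?_)
      obtain ⟨p, _ | q⟩ := a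
      · rw [det2_mem_none, det2_mem_none]
      · by_cases hq : ((p, some q) : Lt d) ∈ A ∧ q.2 < σ.1 p
        · have hb := fun hx => @b1 x ((det2_mem_some (G := G) ⟨A, Z'⟩ σ p x q hq).2 hx)
          rw [det2_mem_some ⟨A, Z⟩ σ p x q hq, det2_mem_some ⟨A, Z'⟩ σ p x q hq]
          constructor
          · rintro ⟨h1 | ⟨h1, h3, h4⟩, h2⟩
            · exact ⟨Or.inl h1, h2⟩
            · exact ⟨Or.inr ⟨h1, h3, hZ h4⟩, h2⟩
          · rintro ⟨h1 | ⟨h1, h3, h4⟩, h2⟩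
            · exact ⟨Or.inl h1, h2⟩
            · exact ⟨Or.inr ⟨h1, h3, h1 ▸ hb ⟨Or.inr ⟨h1, h3, h4⟩, h2⟩⟩, h2⟩
        · rw [det2_ac_idle ⟨A, Z⟩ σ p q hq, det2_ac_idle ⟨A, Z'⟩ σ p q hq]
    rw [det2_acw_cons, det2_acw_cons, e]
    exact ih _ fun i => h (i + 1)

theorem Slow.mono {Y : Sys d} {V : ℕ} {B B' : Finset (S d)} {η : Cfg d} {w : Word d}
    (h : Slow G Y V B η w) (hB : B' ⊆ B) : Slow G Y V B' η w := fun x hx => h x (hB hx)

theorem slow_iff {Y : Sys d} {V : ℕ} {B : Finset (S d)} {η : Cfg d} {w : Word d} :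
    Slow G Y V B η w ↔ ∀ x ∈ B, Slow G Y V {x} η w := by
  constructor
  · intro h x hx; exact h.mono (Finset.singleton_subset_iff.2 hx)
  · intro h x hx; exact h x hx x (Finset.mem_singleton_self x)

theorem Slow.anc {Y : Sys d} {V : ℕ} {B : Finset (S d)} {σ : St d} {w : Word d}
    (h : Slow G Y V B σ.1 w) (hB : σ.2 ⊆ B) (i : ℕ) :
    ∀ x' ∈ (acw G Y σ (w.take i)).2, ∃ x ∈ σ.2, nrm (x' - x) ≤ V := by
  intro x' hx'
  obtain ⟨x, hx, h'⟩ := (acw_anc Y σ _).1 hx'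
  exact ⟨x, hx, h x (hB hx) i x' h'⟩

theorem det2_frz {Y : Sys d} {z : S d} (w : Word d) (h : ∀ a ∈ w, a ∉ low G z) {σ : St d}
    (hz : z ∈ σ.2) (hη : G.j ≤ σ.1 z) : z ∈ (acw G Y σ w).2 ∧ G.j ≤ (acw G Y σ w).1 z := by
  induction w generalizing σ with
  | nil => exact ⟨hz, hη⟩
  | cons a w ih =>
    have ha := h a List.mem_cons_self
    rw [mem_low] at ha
    have key : z ∈ (ac G Y σ a).2 ∧ G.j ≤ (ac G Y σ a).1 z := by
      obtain ⟨p, _ | q⟩ := a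
      · refine ⟨(det2_mem_none Y σ p z).2 ⟨hz, ?_⟩, hη⟩
        rintro ⟨-, -, rfl⟩
        exact ha ⟨rfl, fun q hq => by simp at hq⟩
      · by_cases hq : ((p, some q) : Lt d) ∈ Y.A ∧ q.2 < σ.1 p
        · have h1 : G.j ≤ hop σ.1 p (nb p q.1) z := by
            unfold hop
            by_cases hp : z = p
            · subst hp
              have : ¬ q.2 < G.j := fun hlt => ha ⟨rfl, fun q' hq' => by
                have : q = q' := by simpa using hq'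
                exact this ▸ hlt⟩
              have := hq.2
              simp only [if_true]; omega
            · simp only [if_neg hp]; omega
          exact ⟨(det2_mem_some Y σ p z q hq).2 ⟨Or.inl hz, h1⟩, by
            rw [det2_fst_some Y σ p q hq]; exact h1⟩
        · rw [det2_ac_idle Y σ p q hq]; exact ⟨hz, hη⟩
    exact ih (fun b hb => h b (List.mem_cons_of_mem _ hb)) key.1 key.2

/-- A frozen infected site stays infected. -/
theorem frz_stay (hj : 1 ≤ G.j) {Y : Sys d} {σ : St d} {z : S d} (hz : z ∈ σ.2) (hη : G.j ≤ σ.1 z)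
    {ws : List (Word d)} (h : frz G z ws) :
    z ∈ (acs G Y σ ws).2 ∧ G.j ≤ (acs G Y σ ws).1 z := by
  have _ := hj
  rw [acs_flatten]
  refine det2_frz _ (fun a ha => ?_) hz hη
  obtain ⟨w, hw, ha⟩ := List.mem_flatten.1 ha
  exact h w hw a ha

theorem tm_nx (s : Nd d) (ws : List (Word d)) : tm (nx s ws) = tm s + ws.length := by
  simp [tm, nx]
theorem nx_nil (s : Nd d) : nx s [] = s := by simp [nx]
theorem nx_nx (s : Nd d) (ws ws' : List (Word d)) : nx (nx s ws) ws' = nx s (ws ++ ws') := by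
  simp [nx]
theorem cut_nx_le {s : Nd d} {u : ℕ} (h : u ≤ tm s) (ws : List (Word d)) :
    cut u (nx s ws) = cut u s := by
  simp only [cut, nx, List.take_append_of_le_length h]
theorem cut_nx_add (s : Nd d) (ws : List (Word d)) (u : ℕ) :
    cut (tm s + u) (nx s ws) = nx s (ws.take u) := by
  simp only [cut, nx, tm, List.take_length_add_append]
theorem cut_self {s : Nd d} {u : ℕ} (h : tm s ≤ u) : cut u s = s := by
  simp only [cut, List.take_of_length_le h]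
theorem cut_cut (s : Nd d) (u u' : ℕ) : cut u (cut u' s) = cut (min u u') s := by
  simp only [cut, List.take_take]
theorem tm_cut (s : Nd d) (u : ℕ) : tm (cut u s) = min u (tm s) := by simp [tm, cut]
theorem nx_cut (s : Nd d) (u : ℕ) : nx (cut u s) (s.2.drop u) = s := by simp [nx, cut]
theorem st_nx (M : Amb d) (K : ℕ) (s : Nd d) (ws : List (Word d)) :
    M.st G K (nx s ws) = acs G (M.sy K) (M.st G K s) ws := by
  simp only [Amb.st, nx, acs_append]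
theorem st_reg (M : Amb d) (K : ℕ) (s : Nd d) : Reg G M.Z (M.st G K s) :=
  Reg.acs (Y := M.sy K) (reg_ini M.Z _ _) _
theorem st_fst (M : Amb d) (K : ℕ) (s : Nd d) : (M.st G K s).1 = ms (al K M.Q) s.1 s.2 := by
  unfold Amb.st; rw [acs_fst]; rfl
theorem samb_ok (F : Fr) (B : Bs) (K n : ℕ) (pc : ℝ) {Q Q' Z : Finset (S d)} (h : Q' ⊆ Q)
    (hZ : Z ⊆ Q) (y0 : S d) (u0 : ℕ) : (samb F B K n pc Q Q' Z y0 u0).Ok F B K n pc := by
  refine ⟨h, hZ, ?_, ?_⟩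
  · rintro s ws ⟨u, h1, h2, h3⟩
    refine ⟨u, h1, by rw [tm_nx]; omega, ?_⟩
    have : (nx s ws).2.take u = s.2.take u := congrArg Prod.snd (cut_nx_le h2 ws)
    rw [this]; exact h3
  · intro s hs u h1 h2 h3
    rw [st_fst] at h3
    exact hs ⟨u, h1, h2, h3⟩
theorem ruleOk_rReg (D : ℕ) (P : Finset (S d)) : RuleOk D (rReg P) := by
  intro k Cd Yt hY
  obtain ⟨z, hz, rfl⟩ := Finset.mem_image.1 hY
  refine ⟨Finset.singleton_subset_iff.2 (Finset.mem_inter.1 hz).1, Finset.singleton_nonempty z,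
    by simp, fun a ha b hb hab => ?_⟩
  rw [Finset.mem_singleton] at ha hb
  exact absurd (ha.trans hb.symm) hab
theorem ruleOk_rSpr {D D' : ℕ} (h : 10 * D ≤ D') : RuleOk D (rSpr (d := d) D') := by
  intro k Cd Yt hY
  obtain ⟨p, hp, rfl⟩ := Finset.mem_image.1 hY
  obtain ⟨hp1, hp2⟩ := Finset.mem_filter.1 hp
  obtain ⟨h1, h2⟩ := Finset.mem_product.1 hp1
  refine ⟨?_, Finset.insert_nonempty _ _, Finset.card_le_two, fun a ha b hb hab => ?_⟩
  · intro x hx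
    rcases Finset.mem_insert.1 hx with rfl | hx
    · exact h1
    · exact (Finset.mem_singleton.1 hx) ▸ h2
  · simp only [Finset.mem_insert, Finset.mem_singleton] at ha hb
    rcases ha with rfl | rfl <;> rcases hb with rfl | rfl
    · exact absurd rfl hab
    · exact h.trans hp2
    · rw [nrm_sub_comm]; exact h.trans hp2
    · exact absurd rfl hab

end Pool.Agent.Lib.MP_dd0771_pr.Sc
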