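import Pool.Agent.Lib.MP_dd0771_pr.Sc.Geo
import Pool.Agent.Lib.MP_dd0771_pr.Sc.Det2

/-! From chains of infected sites to chain events; continuation of the two basic rules. -/

open Filter

namespace Pool.Agent.Lib.MP_dd0771_pr.Sc

variable {d : ℕ} {F : Fr} {B : Bs} {n : ℕ}

theorem mem_rReg {P Cd Yt : Finset (S d)} {k : ℕ} :
    Yt ∈ rReg P k Cd ↔ ∃ z, z ∈ Cd ∧ z ∈ P ∧ Yt = {z} := by
  simp only [rReg, Finset.mem_image, Finset.mem_inter]
  constructor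
  · rintro ⟨z, ⟨h1, h2⟩, rfl⟩; exact ⟨z, h1, h2, rfl⟩
  · rintro ⟨z, h1, h2, rfl⟩; exact ⟨z, ⟨h1, h2⟩, rfl⟩
theorem mem_rSpr {D k : ℕ} {Cd Yt : Finset (S d)} :
    Yt ∈ rSpr D k Cd ↔ ∃ z z', z ∈ Cd ∧ z' ∈ Cd ∧ D ≤ nrm (z - z') ∧ Yt = {z, z'} := by
  simp only [rSpr, Finset.mem_image, Finset.mem_filter, Finset.mem_product]
  constructor
  · rintro ⟨⟨z, z'⟩, ⟨⟨h1, h2⟩, h3⟩, rfl⟩; exact ⟨z, z', h1, h2, h3, rfl⟩
  · rintro ⟨z, z', h1, h2, h3, rfl⟩; exact ⟨(z, z'), ⟨⟨h1, h2⟩, h3⟩, rfl⟩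

/-- A type that depends on the tried site. -/
noncomputable def tyS (ty : S d → Ty) : ℕ × Finset (S d) → Ty :=
  fun p => if h : p.2.Nonempty then ty h.choose else (0, 0)
theorem tyS_single (ty : S d → Ty) (k : ℕ) (z : S d) : tyS ty (k, {z}) = ty z := by
  have h : (({z} : Finset (S d))).Nonempty := Finset.singleton_nonempty z
  have := Finset.mem_singleton.1 h.choose_spec
  simp only [tyS, dif_pos h, this]

theorem cont_rReg {K l m t : ℕ} {pc v : ℝ} {M : Amb d} {Φ : Nd d → ℝ} {Zc P : Finset (S d)}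
    {ty : S d → Ty} (h : ∀ k, k < m → ∀ z ∈ Zc, z ∈ P → TyOk F B n pc (ty z) ∧
      bx z (ty z).2 ⊆ M.Z ∧ Val F B K n l M Φ (ty z) {z} (t + (k + 1) * sb F B n l) v) :
    Cont F B K n l pc M Φ Zc (rReg P) m t (tyS ty) id fun _ => v := by
  intro k hk Cd hCd Yt hY _
  obtain ⟨z, h1, h2, rfl⟩ := mem_rReg.1 hY
  obtain ⟨a, b, c⟩ := h k hk z (hCd h1) h2
  rw [tyS_single]
  exact ⟨subset_rfl, apart_single _ _, a, by simpa only [id, wZ_single] using b, c⟩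
theorem cont_rSpr {K l m t sep : ℕ} {pc v : ℝ} {M : Amb d} {Φ : Nd d → ℝ} {Zc : Finset (S d)}
    {C : Ty} (hC : TyOk F B n pc C) (hs : 4 * C.2 + 2 ≤ sep) (hZ : ∀ z ∈ Zc, bx z C.2 ⊆ M.Z)
    (h : ∀ k, k < m → ∀ z ∈ Zc, ∀ z' ∈ Zc, sep ≤ nrm (z - z') →
      Val F B K n l M Φ C {z, z'} (t + (k + 1) * sb F B n l) v) :
    Cont F B K n l pc M Φ Zc (rSpr sep) m t (fun _ => C) id fun _ => v := by
  intro k hk Cd hCd Yt hY _
  obtain ⟨z, z', h1, h2, h3, rfl⟩ := mem_rSpr.1 hY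
  refine ⟨subset_rfl, apart_pair (hs.trans h3), hC, ?_, h k hk z (hCd h1) z' (hCd h2) h3⟩
  intro x hx
  simp only [id, wZ, Finset.mem_biUnion, Finset.mem_insert, Finset.mem_singleton] at hx
  obtain ⟨a, rfl | rfl, hx⟩ := hx
  · exact hZ _ (hCd h1) hx
  · exact hZ _ (hCd h2) hx

/-- Two chains on the last `RR` windows before `t` give the chain event, for any rule. -/
theorem ce_of_chains (hsb : 1 ≤ sb F B n (ls n)) {Zc : Finset (S d)} {O : Rule d} {m t : ℕ}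
    {P : ℕ × Finset (S d) → Prop} {J : Tj d} (h1 : RR F B n ≤ t) (h2 : t ≤ m * sb F B n (ls n))
    (γ γ' : ℕ → S d)
    (hm : ∀ u, t ≤ u + RR F B n → u ≤ t → γ u ∈ J u ∧ γ u ∈ Zc ∧ γ' u ∈ J u ∧ γ' u ∈ Zc)
    (hγ : ∀ u u', nrm (γ u' - γ u) ≤ VV n * (max u u' - min u u'))
    (hγ' : ∀ u u', nrm (γ' u' - γ' u) ≤ VV n * (max u u' - min u u'))
    (hO : ∀ k, t ≤ k * sb F B n (ls n) + RR F B n → (k + 1) * sb F B n (ls n) ≤ t → ∀ Cd,
      γ (k * sb F B n (ls n) + s1 F n) ∈ Cd → γ' (k * sb F B n (ls n) + s1 F n) ∈ Cd →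
      (O k Cd).Nonempty)
    (hP : ∀ k, (k + 1) * sb F B n (ls n) ≤ t →
      ∀ Cd ⊆ J (k * sb F B n (ls n) + s1 F n) ∩ Zc, ∀ Yt ∈ O k Cd, P (k, Yt)) :
    CE F B n Zc O m P J := by
  classical
  have hs1 : s1 F n ≤ sb F B n (ls n) := Nat.le_add_right _ _
  have hR : RR F B n = (mm F n + 2) * sb F B n (ls n) := rfl
  unfold CE
  generalize sb F B n (ls n) = b at *
  generalize RR F B n = R at *
  generalize mm F n = q at *
  generalize s1 F n = c at *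
  obtain ⟨k1, hk1, hk2⟩ : ∃ k1, t ≤ k1 * b + R ∧ (k1 + q) * b ≤ t := by
    refine ⟨(t - R) / b + 1, ?_, ?_⟩
    · have := Nat.lt_div_mul_add (a := t - R) (b := b) hsb
      rw [add_mul]; omega
    · have := Nat.div_mul_le_self (t - R) b
      rw [add_mul, add_mul] at *; omega
  have key : ∀ k, k1 ≤ k → k < k1 + q → t ≤ k * b + R ∧ (k + 1) * b ≤ t := fun k a1 a2 =>
    ⟨hk1.trans (Nat.add_le_add_right (Nat.mul_le_mul_right _ a1) _),
      (Nat.mul_le_mul_right _ a2).trans hk2⟩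
  have lip : ∀ (g : ℕ → S d), (∀ u u', nrm (g u' - g u) ≤ VV n * (max u u' - min u u')) → ∀ k,
      nrm (g ((k + 1) * b + c) - g (k * b + c)) ≤ VV n * b := by
    intro g hg k
    have := hg (k * b + c) ((k + 1) * b + c)
    rwa [show max (k * b + c) ((k + 1) * b + c) - min (k * b + c) ((k + 1) * b + c) = b by
      rw [add_mul]; omega] at this
  refine ⟨k1, Nat.le_of_mul_le_mul_right (hk2.trans h2) hsb, fun k hk => hP k
    ((Nat.mul_le_mul_right _ hk).trans hk2), fun k => γ (k * b + c), fun k => γ' (k * b + c),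
    fun k a1 a2 => ?_, ?_⟩
  · obtain ⟨b1, b2⟩ := key k a1 a2
    rw [add_mul] at b2
    obtain ⟨c1, c2, c3, c4⟩ := hm (k * b + c) (by omega) (by omega)
    exact ⟨Finset.mem_inter.2 ⟨c1, c2⟩, Finset.mem_inter.2 ⟨c3, c4⟩, lip γ hγ k, lip γ' hγ' k⟩
  · rw [Finset.filter_true_of_mem, Nat.card_Ico]
    · omega
    · intro k hk Cd _ a1 a2
      obtain ⟨b1, b2⟩ := key k (Finset.mem_Ico.1 hk).1 (Finset.mem_Ico.1 hk).2
      exact hO k b1 b2 Cd a1 a2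

/-- Speed bound. -/
theorem Chn.speed {V T u : ℕ} {I : Tj d} {y x : S d} (h : Chn V T I) (h0 : I 0 ⊆ {y}) (hu : u ≤ T)
    (hx : x ∈ I u) : nrm (x - y) ≤ V * u := by
  obtain ⟨γ, h1, h2, h3⟩ := h.chain hu hx
  have := h3 0 u
  rw [h1, Finset.mem_singleton.1 (h0 (h2 0 (Nat.zero_le _)))] at this
  simpa using this

theorem cek_shift {V t0 : ℕ} {γ : ℕ → S d}
    (h : ∀ u u', nrm (γ u' - γ u) ≤ V * (max u u' - min u u')) (u u' : ℕ) :
    nrm (γ (t0 + u') - γ (t0 + u)) ≤ V * (max u u' - min u u') := by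
  have := h (t0 + u) (t0 + u')
  rwa [show max (t0 + u) (t0 + u') - min (t0 + u) (t0 + u') = max u u' - min u u' by omega] at this

theorem cek_near {V R u v : ℕ} {γ : ℕ → S d}
    (h : ∀ u u', nrm (γ u' - γ u) ≤ V * (max u u' - min u u')) (h1 : v ≤ u) (h2 : u ≤ v + R) :
    nrm (γ v - γ u) ≤ V * R :=
  (h u v).trans (Nat.mul_le_mul_left _ (by omega))

/-- An infected site `x` at time `u` whose neighbourhood lies in `P`. -/
theorem ce_far (hsb : 1 ≤ sb F B n (ls n)) {Zc P : Finset (S d)} {m T u t0 : ℕ} {I : Tj d}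
    {x : S d} (hc : Chn (VV n) T I) (hZ : ∀ u, I u ⊆ Zc) (hu : u ≤ T) (h1 : t0 + RR F B n ≤ u)
    (h2 : u ≤ t0 + m * sb F B n (ls n)) (hx : x ∈ I u)
    (hP : ∀ z ∈ Zc, nrm (z - x) ≤ VV n * RR F B n → z ∈ P) :
    CE F B n Zc (rReg P) m (fun _ => True) fun v => I (t0 + v) := by
  obtain ⟨γ, g1, g2, g3⟩ := hc.chain hu hx
  have hs1 : s1 F n ≤ sb F B n (ls n) := Nat.le_add_right _ _
  refine ce_of_chains hsb (t := u - t0) (by omega) (by omega) (fun v => γ (t0 + v))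
    (fun v => γ (t0 + v)) (fun v _ _ => ?_) (cek_shift g3) (cek_shift g3) ?_
    fun _ _ _ _ _ _ => trivial
  · have := g2 (t0 + v) (by omega)
    exact ⟨this, hZ _ this, this, hZ _ this⟩
  · intro k a1 a2 Cd a3 _
    rw [add_mul] at a2
    refine ⟨_, mem_rReg.2 ⟨_, a3, hP _ (hZ _ (g2 _ (by omega))) ?_, rfl⟩⟩
    rw [← g1]
    exact cek_near g3 (by omega) (by omega)

/-- Two distant infected sites at time `u`. -/
theorem ce_spr (hsb : 1 ≤ sb F B n (ls n)) {Zc : Finset (S d)} {m T u t0 sep : ℕ} {I : Tj d}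
    (hc : Chn (VV n) T I) (hZ : ∀ u, I u ⊆ Zc) (hu : u ≤ T) (h1 : t0 + RR F B n ≤ u)
    (h2 : u ≤ t0 + m * sb F B n (ls n)) (hx : Spread (sep + 2 * (VV n * RR F B n)) (I u)) :
    CE F B n Zc (rSpr sep) m (fun _ => True) fun v => I (t0 + v) := by
  obtain ⟨x, hx, x', hx', hs⟩ := hx
  obtain ⟨γ, g1, g2, g3⟩ := hc.chain hu hx
  obtain ⟨γ', f1, f2, f3⟩ := hc.chain hu hx'
  have hs1 : s1 F n ≤ sb F B n (ls n) := Nat.le_add_right _ _
  refine ce_of_chains hsb (t := u - t0) (by omega) (by omega) (fun v => γ (t0 + v))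
    (fun v => γ' (t0 + v)) (fun v _ _ => ?_) (cek_shift g3) (cek_shift f3) ?_
    fun _ _ _ _ _ _ => trivial
  · have a := g2 (t0 + v) (by omega)
    have b := f2 (t0 + v) (by omega)
    exact ⟨a, hZ _ a, b, hZ _ b⟩
  · intro k a1 a2 Cd a3 a4
    rw [add_mul] at a2
    refine ⟨_, mem_rSpr.2 ⟨_, _, a3, a4, ?_, rfl⟩⟩
    have e1 := cek_near (R := RR F B n) (u := u) (v := t0 + (k * sb F B n (ls n) + s1 F n)) g3
      (by omega) (by omega)
    have e2 := cek_near (R := RR F B n) (u := u) (v := t0 + (k * sb F B n (ls n) + s1 F n)) f3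
      (by omega) (by omega)
    rw [g1, nrm_sub_comm] at e1
    rw [f1] at e2
    have t1 := nrm_tri x (γ (t0 + (k * sb F B n (ls n) + s1 F n))) x'
    have t2 := nrm_tri (γ (t0 + (k * sb F B n (ls n) + s1 F n)))
      (γ' (t0 + (k * sb F B n (ls n) + s1 F n))) x'
    omega

open Classical in
/-- One chain on the first `mm` blocks, half of it in `P` (an increasing event). -/
def Hf (F : Fr) (B : Bs) (n : ℕ) (Zc P : Finset (S d)) (J : Tj d) : Prop :=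
  ∃ x : ℕ → S d, (∀ k, k < mm F n → x k ∈ J (k * sb F B n (ls n) + s1 F n) ∧ x k ∈ Zc ∧
      nrm (x (k + 1) - x k) ≤ VV n * sb F B n (ls n)) ∧
    mm F n ≤ 2 * ((Finset.range (mm F n)).filter fun k => x k ∈ P).card

theorem Hf.ce {Zc P : Finset (S d)} {J : Tj d} {k2 : ℕ} (h : Hf F B n Zc P J) (hk : mm F n ≤ k2) :
    CE F B n Zc (rReg P) k2 (fun _ => True) J := by
  classical
  obtain ⟨x, h1, h2⟩ := h
  refine ⟨0, by omega, fun _ _ _ _ _ _ => trivial, x, x, fun k _ a => ?_, ?_⟩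
  · obtain ⟨b1, b2, b3⟩ := h1 k (by omega)
    exact ⟨Finset.mem_inter.2 ⟨b1, b2⟩, Finset.mem_inter.2 ⟨b1, b2⟩, b3, b3⟩
  · refine h2.trans (Nat.mul_le_mul_left _ (Finset.card_le_card fun k hk => ?_))
    rw [Finset.mem_filter] at hk ⊢
    refine ⟨by simpa using hk.1, fun Cd _ a _ => ⟨_, mem_rReg.2 ⟨_, a, hk.2, rfl⟩⟩⟩
theorem Hf.mono {Zc P : Finset (S d)} {J J' : Tj d} (h : Hf F B n Zc P J)
    (hJ : ∀ u, u ≤ mm F n * sb F B n (ls n) → J u ⊆ J' u) : Hf F B n Zc P J' := by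
  obtain ⟨x, h1, h2⟩ := h
  refine ⟨x, fun k hk => ⟨hJ _ ?_ (h1 k hk).1, (h1 k hk).2⟩, h2⟩
  have hs1 : s1 F n ≤ sb F B n (ls n) := Nat.le_add_right _ _
  have := Nat.mul_le_mul_right (sb F B n (ls n)) (Nat.succ_le_of_lt hk)
  rw [Nat.succ_mul] at this
  omega
theorem Hf.image {Zc P Zc' P' : Finset (S d)} {J : Tj d} (h : Hf F B n Zc P J) (ψ : S d → S d)
    (h1 : ∀ a b, nrm (ψ a - ψ b) ≤ nrm (a - b)) (h2 : ∀ z ∈ Zc, ψ z ∈ Zc')
    (h3 : ∀ z ∈ Zc, z ∈ P → ψ z ∈ P') : Hf F B n Zc' P' fun u => (J u).image ψ := by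
  classical
  obtain ⟨x, g1, g2⟩ := h
  refine ⟨fun k => ψ (x k), fun k hk => ⟨Finset.mem_image_of_mem _ (g1 k hk).1,
    h2 _ (g1 k hk).2.1, (h1 _ _).trans (g1 k hk).2.2⟩,
    g2.trans (Nat.mul_le_mul_left _ (Finset.card_le_card fun k hk => ?_))⟩
  rw [Finset.mem_filter] at hk ⊢
  exact ⟨hk.1, h3 _ (g1 k (Finset.mem_range.1 hk.1)).2.1 hk.2⟩
theorem hf_or {Zc P1 P2 : Finset (S d)} {T u t0 : ℕ} {I : Tj d} (hc : Chn (VV n) T I)
    (hZ : ∀ u, I u ⊆ Zc) (hu : u ≤ T) (h1 : t0 + mm F n * sb F B n (ls n) ≤ u)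
    (hx : (I u).Nonempty) (hP : ∀ z ∈ Zc, z ∈ P1 ∨ z ∈ P2) :
    Hf F B n Zc P1 (fun v => I (t0 + v)) ∨ Hf F B n Zc P2 fun v => I (t0 + v) := by
  classical
  obtain ⟨x, hx⟩ := hx
  obtain ⟨γ, -, g2, g3⟩ := hc.chain hu hx
  have hs1 : s1 F n ≤ sb F B n (ls n) := Nat.le_add_right _ _
  have ha : ∀ k, k < mm F n → γ (t0 + (k * sb F B n (ls n) + s1 F n)) ∈
      I (t0 + (k * sb F B n (ls n) + s1 F n)) ∧ γ (t0 + (k * sb F B n (ls n) + s1 F n)) ∈ Zc ∧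
      nrm (γ (t0 + ((k + 1) * sb F B n (ls n) + s1 F n)) -
        γ (t0 + (k * sb F B n (ls n) + s1 F n))) ≤ VV n * sb F B n (ls n) := by
    intro k hk
    have := Nat.mul_le_mul_right (sb F B n (ls n)) (Nat.succ_le_of_lt hk)
    rw [Nat.succ_mul] at this
    have a := g2 (t0 + (k * sb F B n (ls n) + s1 F n)) (by omega)
    refine ⟨a, hZ _ a, ?_⟩
    rw [nrm_sub_comm]
    exact cek_near g3 (by rw [add_mul]; omega) (by rw [add_mul]; omega)
  have hc2 : mm F n ≤ ((Finset.range (mm F n)).filter fun k =>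
      γ (t0 + (k * sb F B n (ls n) + s1 F n)) ∈ P1).card + ((Finset.range (mm F n)).filter fun k =>
      γ (t0 + (k * sb F B n (ls n) + s1 F n)) ∈ P2).card := by
    refine le_trans ?_ (Finset.card_union_le _ _)
    conv_lhs => rw [← Finset.card_range (mm F n)]
    refine Finset.card_le_card fun k hk => ?_
    rw [Finset.mem_union, Finset.mem_filter, Finset.mem_filter]
    exact (hP _ (ha k (Finset.mem_range.1 hk)).2.1).imp (fun h => ⟨hk, h⟩) fun h => ⟨hk, h⟩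
  by_cases h : mm F n ≤ 2 * ((Finset.range (mm F n)).filter fun k =>
      γ (t0 + (k * sb F B n (ls n) + s1 F n)) ∈ P1).card
  · exact Or.inl ⟨_, ha, h⟩
  · exact Or.inr ⟨_, ha, by omega⟩

open Classical in
/-- Number of checkpoints with `Hf`. -/
noncomputable def Hcnt (F : Fr) (B : Bs) (n : ℕ) (Zc P : Finset (S d)) (M U : ℕ) (I : Tj d) : ℕ :=
  ((Finset.range M).filter fun j => Hf F B n Zc P fun u => I (B.n0 + j * U + u)).card

theorem hcnt_le (Zc P : Finset (S d)) (M U : ℕ) (I : Tj d) :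
    Hcnt F B n Zc P M U I ≤ Ncnt F B n Zc (rReg P) M U I := by
  classical
  refine Finset.card_le_card fun j hj => ?_
  rw [Finset.mem_filter] at hj ⊢
  exact ⟨hj.1, hj.2.ce (Nat.le_succ _)⟩
theorem hcnt_add {Zc P1 P2 : Finset (S d)} {T M U : ℕ} {I : Tj d} (hc : Chn (VV n) T I)
    (hZ : ∀ u, I u ⊆ Zc) (hU : RR F B n ≤ U) (hT : B.n0 + M * U ≤ T)
    (hx : (I (B.n0 + M * U)).Nonempty) (hP : ∀ z ∈ Zc, z ∈ P1 ∨ z ∈ P2) :
    M ≤ Hcnt F B n Zc P1 M U I + Hcnt F B n Zc P2 M U I := by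
  classical
  refine le_trans ?_ (Finset.card_union_le _ _)
  conv_lhs => rw [← Finset.card_range M]
  refine Finset.card_le_card fun j hj => ?_
  rw [Finset.mem_union, Finset.mem_filter, Finset.mem_filter]
  have h1 := Nat.mul_le_mul_right U (Nat.succ_le_of_lt (Finset.mem_range.1 hj))
  rw [Nat.succ_mul] at h1
  have hR : RR F B n = (mm F n + 2) * sb F B n (ls n) := rfl
  rw [add_mul] at hR
  exact (hf_or (t0 := B.n0 + j * U) hc hZ hT (by omega) hx hP).imp (fun h => ⟨hj, h⟩)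
    fun h => ⟨hj, h⟩
theorem hcnt_all {Zc : Finset (S d)} {T M U : ℕ} {I : Tj d} (hc : Chn (VV n) T I)
    (hZ : ∀ u, I u ⊆ Zc) (hU : RR F B n ≤ U) (hT : B.n0 + M * U ≤ T)
    (hx : (I (B.n0 + M * U)).Nonempty) : Hcnt F B n Zc Zc M U I = M := by
  classical
  unfold Hcnt
  rw [Finset.filter_true_of_mem, Finset.card_range]
  intro j hj
  have h1 := Nat.mul_le_mul_right U (Nat.succ_le_of_lt (Finset.mem_range.1 hj))
  rw [Nat.succ_mul] at h1
  have hR : RR F B n = (mm F n + 2) * sb F B n (ls n) := rfl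
  rw [add_mul] at hR
  exact (hf_or (t0 := B.n0 + j * U) hc hZ hT (by omega) hx fun z hz => Or.inl hz).elim id id
theorem hcnt_image {Zc P Zc' P' : Finset (S d)} (M U : ℕ) (I : Tj d) (ψ : S d → S d)
    (h1 : ∀ a b, nrm (ψ a - ψ b) ≤ nrm (a - b)) (h2 : ∀ z ∈ Zc, ψ z ∈ Zc')
    (h3 : ∀ z ∈ Zc, z ∈ P → ψ z ∈ P') :
    Hcnt F B n Zc P M U I ≤ Hcnt F B n Zc' P' M U fun u => (I u).image ψ := by
  classical
  refine Finset.card_le_card fun j hj => ?_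
  rw [Finset.mem_filter] at hj ⊢
  exact ⟨hj.1, hj.2.image ψ h1 h2 h3⟩

end Pool.Agent.Lib.MP_dd0771_pr.Sc
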