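import Pool.Agent.Lib.MP_dd0771_pr.Sc.AaA
import Pool.Agent.Lib.MP_dd0771_pr.Sc.CeK

/-! Repeated tries inside one plain world, and the base level. -/

open Filter

namespace Pool.Agent.Lib.MP_dd0771_pr.Sc

variable {d : ℕ} {F : Fr} {B : Bs} {K n : ℕ}

/-- slow and alive at time `T` -/
def AaAl (n T : ℕ) (I : Tj d) : Prop := Chn (VV n) T I ∧ (I T).Nonempty

theorem aa_shift (hS : S_SYM d F) (C : Ty) (y : S d) (T : ℕ) :
    cP F.toMd K C (0 : S d) T (AaAl n T) ≤ cP F.toMd K C y T (AaAl n T) := by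
  have h := hS K C.1 0 y (Equiv.refl _) (fun _ => true) (2 * C.2) C.2 T
    (fun I => ind (AaAl n T I)) (by omega)
  unfold cP wP
  rw [h]
  refine wP_mono fun I _ hI => ⟨fun u hu x' hx' => ?_, hI.2.image _⟩
  obtain ⟨z', hz', rfl⟩ := Finset.mem_image.1 hx'
  obtain ⟨z, hz, hzz⟩ := hI.1 u hu z' hz'
  refine ⟨_, Finset.mem_image_of_mem _ hz, ?_⟩
  rw [add_sub_add_left_eq_sub, ← sp_sub, nrm_sp, sub_sub_sub_cancel_right]
  exact hzz

theorem aa_alive (hL : Low d F) (hE : Eng d F) : EvB d F fun B n K =>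
    ∀ (L r T' : ℕ) (c : ℝ) (y : S d), Lmin F B n ≤ L → L ≤ 2 ^ n → T' ≤ 2 ^ n → 8 * r ≤ 7 * L →
      reach d F.toMd K (B.p 2, L) B.n0 r T' ≤ c * B.th →
      B.thm - e2 n - c * B.th ≤ cP F.toMd K (B.p 2, L) y (B.n0 + T') (AaAl n (B.n0 + T')) := by
  intro B hB
  filter_upwards [hE.hAT B hB, eventually_ge_atTop B.n0] with n hAT hn K hK L r T' c y h1 h2 h3
    h4 h5
  have hg := hB.2.1
  have h6 := hAT K hK (B.p 2, L) 0 T' (by simp only [Bs.p]; push_cast; linarith)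
    (by have := hB.2.2.1; simp only [Bs.p]; push_cast; linarith) h1 h2
    (by have := Nat.lt_two_pow_self (n := n); rw [pow_succ]; omega)
  refine le_trans ?_ (aa_shift hL.hSYM _ y _)
  have h7 : cP F.toMd K (B.p 2, L) (0 : S d) (B.n0 + T') (fun I => Chn (VV n) (B.n0 + T') I ∧
      ((I (B.n0 + T')).Nonempty ∨ ∃ u, B.n0 ≤ u ∧ u ≤ B.n0 + T' ∧
        ∃ x ∈ I u, 7 * L ≤ 8 * nrm (x - 0))) ≤
      cP F.toMd K (B.p 2, L) (0 : S d) (B.n0 + T') (AaAl n (B.n0 + T')) +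
        reach d F.toMd K (B.p 2, L) B.n0 r T' := by
    unfold reach cP
    refine wP_le_add fun I _ hI => ?_
    rcases hI.2 with h | ⟨u, a1, a2, x, a3, a4⟩
    · exact Or.inl ⟨hI.1, h⟩
    · rw [sub_zero] at a4
      exact Or.inr ⟨u, a1, a2, x, a3, by omega⟩
  linarith

theorem aa_back {Z Y0 : Finset (S d)} {I : Tj d} (h : RegT Z Y0 I) (u m : ℕ)
    (h1 : (I (u + m)).Nonempty) : (I u).Nonempty := by
  induction m with
  | zero => exact h1
  | succ m ih => exact ih (h.2.2 _ h1)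

theorem aa_small (hB : B.Ok F) : ∀ᶠ n : ℕ in atTop,
    e2 n ≤ B.th / 100 ∧ tol (ls n) ≤ 1 / 100 ∧ (1 / 2 : ℝ) ^ n ≤ 1 / 100 := by
  have h1 := er_small (show 0 < B.th / 100 by have := hB.2.2.2.1; positivity)
  have h2 := er_small (show (0 : ℝ) < 1 / 100 by norm_num)
  filter_upwards [h1, h2, eventually_ge_atTop 7] with n a b c
  refine ⟨a.2.1, b.2.2, ?_⟩
  exact (pow_le_pow_of_le_one (by norm_num) (by norm_num) c).trans (by norm_num)

/-- repeated tries inside one plain world -/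
theorem aa_wb (hL : Low d F) (hE : Eng d F) : EvB d F fun B n K =>
    ∀ (L r U Mn Lm : ℕ) (ty : S d → Ty) (W ρ v : ℝ), TyOk F B n (B.p 4) (B.p 2, L) →
      8 * r ≤ 7 * L → Mn * (RR F B n + U) ≤ 2 ^ n →
      reach d F.toMd K (B.p 2, L) B.n0 r (Mn * (RR F B n + U)) ≤ 1 / 10 * B.th →
      (∀ z, TyOk F B n (B.p 4) (ty z) ∧ (ty z).2 ≤ Lm) → 0 ≤ ρ → 0 ≤ W →
      2 * ρ ^ 2 + 2 * (d * (L : ℝ) ^ 2) ≤ W ^ 2 → ρ + 2 * L ≤ 2 ^ n → W + Lm ≤ 2 ^ n →
      (1 / 2 : ℝ) ^ n ≤ v → v ≤ 1 → 1 ≤ Mn → AaV F B K n ty W U v →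
      AaV F B K n (fun _ : S d => (B.p 2, L)) ρ (Mn * (RR F B n + U))
        (2 / 5 * min 1 (v * Mn)) := by
  intro B hB
  filter_upwards [hE.hWB B hB, aa_alive hL hE B hB, aa_small hB] with n hWB hAl hsm K hK L r U Mn
    Lm ty W ρ v hC hr hMn hre hty hρ hW0 hW hg hg' hv0 hv1 hM1 h
  intro M Φ te ub w y t hM hΦ hQ hZ hu ht hw hwu hy hG
  have hv : 0 ≤ v := le_trans (by positivity) hv0
  have hth := hB.2.2.2.1
  have := hWB K hK (B.p 4) M _ Φ te ub w v (B.p 2, L) y (rReg (bx y L)) Mn (RR F B n + U) t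
    (tyS ty) hC hM (glOk_hit F.toMd K M fun I => 0 ∈ I) hΦ hu (by omega) ht hMn
    (aa_adm hQ hZ hρ hy (by exact_mod_cast hg)) (ruleOk_rReg _ _) hw hwu hv hv1 hG
    (fun Ψ ub' w' t' a1 a2 a3 a4 a5 => cont_rReg fun k hk z hz _ => by
      have hz' : eu z ≤ W ^ 2 := aa_eu_near hy (mem_bx.1 hz) hW
      have hk' : (k + 1) * sb F B n (ls n) ≤ RR F B n := Nat.mul_le_mul_right _ (by omega)
      refine ⟨(hty _).1, ((bx_mono _ (hty _).2).trans
        (aa_bx hW0 hz' (by exact_mod_cast hg'))).trans hZ, ?_⟩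
      exact h M Ψ _ ub' w' z _ hM a2 hQ hZ (by omega) (by omega) a3 a4 hz'
        fun s h6 h7 => a5 s (by omega) (by omega))
  refine this.mono ?_
  set m := min 1 (v * Mn) with hm
  have hm1 : (1 / 2 : ℝ) ^ n ≤ m := by
    refine le_min (pow_le_one₀ (by norm_num) (by norm_num)) (hv0.trans ?_)
    exact le_mul_of_one_le_right hv (by exact_mod_cast hM1)
  have hm0 : 0 ≤ m := le_trans (by positivity) hm1
  have hP := hAl K hK L r _ (1 / 10) y hC.2.2.2.1 hC.2.2.2.2 hMn hr hre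
  have hX : m * cP F.toMd K (B.p 2, L) y (B.n0 + Mn * (RR F B n + U))
      (AaAl n (B.n0 + Mn * (RR F B n + U))) ≤
      wX F.toMd K (B.p 2) (bx y (2 * L)) (bx y L) {y} (B.n0 + Mn * (RR F B n + U)) fun I =>
        ind (I B.n0).Nonempty *
          min 1 (v * Ncnt F B n (bx y L) (rReg (bx y L)) Mn (RR F B n + U) I) := by
    unfold cP wP
    rw [← wX_mul]
    refine wX_mono ((Bdd.const _).mul (Bdd.ind _)) ((Bdd.ind _).mul (Bdd.of01 fun I =>
      ⟨le_min zero_le_one (by positivity), min_le_left _ _⟩)) fun I hI => ?_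
    by_cases hA : AaAl n (B.n0 + Mn * (RR F B n + U)) I
    · rw [ind_pos hA, ind_pos (aa_back hI _ _ hA.2), mul_one, one_mul]
      refine min_le_min le_rfl (mul_le_mul_of_nonneg_left ?_ hv)
      have := hcnt_le (F := F) (B := B) (n := n) (bx y L) (bx y L) Mn (RR F B n + U) I
      rw [hcnt_all hA.1 hI.2.1 (by omega) le_rfl hA.2] at this
      exact_mod_cast this
    · rw [ind_neg hA, mul_zero]
      exact mul_nonneg (ind_nonneg _) (le_min zero_le_one (by positivity))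
  have he := hB.2.2.2.2.2.2.1
  have hp := thp_pos hB
  have h1 : m * (87 / 100) ≤ wX F.toMd K (B.p 2) (bx y (2 * L)) (bx y L) {y}
      (B.n0 + Mn * (RR F B n + U)) (fun I => ind (I B.n0).Nonempty *
        min 1 (v * Ncnt F B n (bx y L) (rReg (bx y L)) Mn (RR F B n + U) I)) / B.thp := by
    rw [le_div_iff₀ hp, mul_assoc]
    refine le_trans (mul_le_mul_of_nonneg_left (le_trans ?_ hP) hm0) hX
    have := hsm.1
    simp only [Bs.thp, Bs.thm]
    nlinarith [mul_le_mul_of_nonneg_left he hth.le]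
  have h2 : e2 n ≤ 1 / 100 * m := by
    rw [e2, two_mul, pow_add]
    exact mul_le_mul hsm.2.2 hm1 (by positivity) (by norm_num)
  have h3 : tol (ls n) * m ≤ 1 / 100 * m := mul_le_mul_of_nonneg_right hsm.2.1 hm0
  calc 2 / 5 * m * w = w / 2 * (4 / 5 * m) := by ring
    _ ≤ _ := mul_le_mul_of_nonneg_left (by linarith) (by linarith)

/-- the base level -/
theorem aa_base (hE : Eng d F) : EvB d F fun B n K =>
    ∀ (L m l T : ℕ) (ρ q : ℝ), TyOk F B n (B.p 4) (B.p 2, L) → TyOk F B n (B.p 4) (B.p 3, 2 ^ m) →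
      ls n ≤ l → l ≤ n → T ≤ 2 ^ n → 0 ≤ ρ → 4 * (ρ + DD F n) ≤ 2 ^ m → ρ + 2 * L ≤ 2 ^ n →
      4 * 2 ^ m ≤ 2 ^ n → q ≤ 1 → tol l ≤ q / 8 → e2 n ≤ q / 8 →
      e2 n ≤ (1 / 2) ^ (l ^ (F.A + 1)) / 2 →
      (∀ y : S d, 4 * nrm (0 - y) ≤ 2 ^ m → q ≤ cP F.toMd K (B.p 3, 2 ^ m) y (B.n0 + T) fun I =>
        (I B.n0).Nonempty ∧ ∃ u, B.n0 ≤ u ∧ u ≤ B.n0 + T ∧ (0 : S d) ∈ I u) →
      AaV F B K n (fun _ : S d => (B.p 2, L)) ρ (sb F B n l + T)
        ((1 / 2) ^ (l ^ (F.A + 1)) / 2 * (q / 4)) := by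
  intro B hB
  filter_upwards [hE.hWEAK B hB, hE.hHIT B hB] with n hWK hHT K hK L m l T ρ q hC hC' l1 l2 hT hρ
    g1 g2 g3 q1 q2 q3 q4 hF1
  intro M Φ te ub w y t hM hΦ hQ hZ hu ht hw hwu hy hG
  have hq : 0 ≤ q := by
    have : 0 < tol l := Real.exp_pos _
    linarith
  have hny : (nrm y : ℝ) ≤ ρ := (pow_le_pow_iff_left₀ (Nat.cast_nonneg _) hρ two_ne_zero).1
    ((nrm_sq_le_eu y).trans hy)
  have := hWK K hK l (B.p 4) M Φ te ub (q / 4 * w) (B.p 2, L) (B.p 3, 2 ^ m) y t l1 l2 hC hC' hM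
    hΦ hu (by omega) (aa_adm hQ hZ hρ hy (by exact_mod_cast g2)) (by positivity)
    ((mul_le_of_le_one_left hw (by linarith)).trans hwu) fun z hz => by
      have a1 : 4 * nrm z ≤ 2 ^ m := by
        have b1 := nrm_tri z y 0
        rw [sub_zero, sub_zero] at b1
        have b2 : (nrm z : ℝ) ≤ DD F n + nrm y := by
          exact_mod_cast b1.trans (Nat.add_le_add_right (mem_bx.1 hz) _)
        have : (4 : ℝ) * nrm z ≤ 2 ^ m := by linarith
        exact_mod_cast this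
      have a2 : bx z (2 * 2 ^ m) ⊆ bx 0 (2 ^ n) := bx_subset (by rw [sub_zero]; omega)
      have a3 : bx z (2 ^ m) ⊆ M.Z := ((bx_mono _ (by omega)).trans a2).trans hZ
      refine ⟨a3, ?_⟩
      have := hHT K hK l (B.p 4) M Φ te ub w (B.p 3, 2 ^ m) z T (t + sb F B n l)
        (fun I => 0 ∈ I) hC' hM hΦ (by omega) (by omega) hT
        ⟨apart_single _ _, by rw [wQ_single]; exact a2.trans hQ, by rw [wZ_single]; exact a3⟩
        hw hwu (fun I J hIJ h0 => hIJ h0) fun s h6 h7 => hG s (by omega) (by omega)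
      refine this.mono ?_
      rw [mul_comm]
      refine mul_le_mul_of_nonneg_left ?_ hw
      have a4 := hF1 z (by rwa [zero_sub, nrm_neg])
      have a5 : q / 2 ≤ q / B.thp := by
        refine div_le_div_of_nonneg_left hq (thp_pos hB) ?_
        have := hB.2.2.2.2.1
        have := hB.2.2.2.2.2.2.1
        have := hB.2.2.2.2.2.1
        simp only [Bs.thp]
        nlinarith
      have a6 := div_le_div_of_nonneg_right a4 (thp_pos hB).le
      linarith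
  refine this.mono ?_
  rw [mul_assoc]
  exact mul_le_mul_of_nonneg_right (by linarith) (by positivity)

end Pool.Agent.Lib.MP_dd0771_pr.Sc
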