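import Pool.Agent.Lib.MP_dd0771_pr.Sc.AaB

/-! One level of the recursion. -/

open Filter

namespace Pool.Agent.Lib.MP_dd0771_pr.Sc

variable {d : ℕ} {F : Fr}

/-- The constants of the recursion. -/
structure AaK (d k : ℕ) (μ : ℝ) (a R0 N0 La Mb : ℕ) (e : ℝ) : Prop where
  h1 : 256 * (d : ℝ) ^ 2 ≤ μ * a
  h2 : 16 * (d : ℝ) * ((R0 + d) * 2 ^ k) ≤ μ * N0
  h3 : 80 * (d : ℝ) * ((R0 + d) * 2 ^ k) * e ≤ μ
  h4 : 2 * a ≤ R0
  h5 : 4 * N0 + 2 ≤ La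
  h6 : (Mb : ℝ) * (2 * (d / (R0 : ℝ) ^ 2 + 5 * e) * (2 * ((La : ℝ) + 3) + 1)) ≤ 1 / 4
  h7 : 800 ^ 3 * (3 * Mb + 4 * N0) ≤ Mb ^ 3
  h8 : 2 ≤ Mb
  h9 : 1 ≤ a
  h10 : d ≤ a
  he : 0 < e

theorem aa_const (d k : ℕ) {μ : ℝ} (hμ : 0 < μ) :
    ∃ a R0 N0 La Mb e, AaK d k μ a R0 N0 La Mb e := by
  obtain ⟨a0, ha0⟩ := exists_nat_ge (256 * (d : ℝ) ^ 2 / μ)
  obtain ⟨b0, hb0⟩ := exists_nat_ge (16 * (d : ℝ) * 2 ^ k / μ)
  rw [div_le_iff₀ hμ] at ha0 hb0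
  obtain ⟨a, ha⟩ : ∃ a, a = a0 + d + 1 := ⟨_, rfl⟩
  obtain ⟨b, hb⟩ : ∃ b, b = b0 + 1 := ⟨_, rfl⟩
  obtain ⟨q, hq⟩ : ∃ q, q = 2 * a + 400 * d * b := ⟨_, rfl⟩
  obtain ⟨Mb, hM⟩ : ∃ Mb, Mb = 800 ^ 3 * (3 + 8 * b * q) := ⟨_, rfl⟩
  have hM2 : 2 ≤ Mb := by omega
  have hR : q ≤ q * Mb := Nat.le_mul_of_pos_right _ (by omega)
  have hRd : d + 1 ≤ q * Mb := by omega
  have hb1 : 1 ≤ b := by omega
  obtain ⟨R, hRq⟩ : ∃ R, R = q * Mb := ⟨_, rfl⟩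
  rw [← hRq] at hR hRd
  have hN : 4 * (b * (R + d)) + 2 ≤ 8 * (b * R) := by nlinarith
  obtain ⟨X, hX⟩ : ∃ X : ℝ, X = 2 * (((8 * (b * R) : ℕ) : ℝ) + 3) + 1 := ⟨_, rfl⟩
  have hX0 : 0 < X := by rw [hX]; positivity
  have hMp : (0 : ℝ) < Mb := by exact_mod_cast (by omega : 0 < Mb)
  have hRp : (0 : ℝ) < R := by exact_mod_cast (by omega : 0 < R)
  obtain ⟨Y, hY⟩ : ∃ Y : ℝ, Y = 80 * (d : ℝ) * ((R + d) * 2 ^ k) := ⟨_, rfl⟩
  have hY0 : 0 ≤ Y := by rw [hY]; positivity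
  refine ⟨a, R, b * (R + d), 8 * (b * R), Mb, min (μ / (Y + 1)) (1 / (80 * Mb * X)), ?_, ?_, ?_,
    by omega, hN, ?_, ?_, hM2, by omega, by omega, lt_min (by positivity) (by positivity)⟩
  · have : (a0 : ℝ) ≤ a := by exact_mod_cast (by omega : a0 ≤ a)
    nlinarith
  · have : (b0 : ℝ) ≤ b := by exact_mod_cast (by omega : b0 ≤ b)
    have h1 : 16 * (d : ℝ) * 2 ^ k ≤ μ * b := by nlinarith
    push_cast
    calc 16 * (d : ℝ) * ((R + d) * 2 ^ k) = 16 * d * 2 ^ k * (R + d) := by ring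
      _ ≤ μ * b * (R + d) := by gcongr
      _ = _ := by ring
  · rw [← hY]
    calc Y * min (μ / (Y + 1)) (1 / (80 * Mb * X)) ≤ (Y + 1) * (μ / (Y + 1)) :=
          mul_le_mul (by linarith) (min_le_left _ _)
            (le_min (by positivity) (by positivity)) (by linarith)
      _ = μ := by field_simp
  · rw [← hX]
    have h1 : (Mb : ℝ) * X * min (μ / (Y + 1)) (1 / (80 * Mb * X)) ≤ 1 / 80 :=
      (mul_le_mul_of_nonneg_left (min_le_right _ _) (by positivity)).trans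
        (le_of_eq (by field_simp))
    have h2 : (Mb : ℝ) * X * (d / (R : ℝ) ^ 2) ≤ 1 / 16 := by
      rw [← mul_div_assoc, div_le_iff₀ (by positivity)]
      have h3 : 16 * (Mb * (2 * (8 * (b * R) + 3) + 1) * d) ≤ R ^ 2 := by
        have h4 : 2 * (8 * (b * R) + 3) + 1 ≤ 23 * (b * R) := by
          have : 1 ≤ b * R := Nat.mul_pos hb1 (by omega)
          omega
        calc 16 * (Mb * (2 * (8 * (b * R) + 3) + 1) * d) ≤ 16 * (Mb * (23 * (b * R)) * d) := by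
              gcongr
          _ = 368 * (d * b) * Mb * R := by ring
          _ ≤ q * Mb * R := by
              gcongr
              rw [hq, mul_assoc]
              omega
          _ = R ^ 2 := by rw [← hRq, pow_two]
      have h5 : (16 : ℝ) * (Mb * X * d) ≤ (R : ℝ) ^ 2 := by
        rw [hX]
        exact_mod_cast h3
      linarith
    linarith [show (Mb : ℝ) * (2 * (d / (R : ℝ) ^ 2 + 5 * min (μ / (Y + 1)) (1 / (80 * Mb * X))) *
      X) = 2 * (Mb * X * (d / (R : ℝ) ^ 2)) +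
        10 * (Mb * X * min (μ / (Y + 1)) (1 / (80 * Mb * X))) by ring]
  · calc 800 ^ 3 * (3 * Mb + 4 * (b * (R + d))) ≤ 800 ^ 3 * (3 * Mb + 8 * (b * R)) :=
          Nat.mul_le_mul_left _ (by omega)
      _ = Mb * Mb := by rw [hRq]; nth_rewrite 3 [hM]; ring
      _ ≤ Mb ^ 3 := by
          rw [← pow_two]
          exact Nat.pow_le_pow_right (by omega) (by omega)

/-- What is used about the level of size `L` and time scale `T`. -/
structure AaLv (d : ℕ) (F : Fr) (B : Bs) (K n : ℕ) (μ : ℝ) (L T : ℕ) : Prop where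
  t2 : TyOk F B n (B.p 4) (B.p 2, L)
  t4 : TyOk F B n (B.p 4) (B.p 4, 16 * L)
  pl : PlainAt d F B K n (B.p 4) (B.p 2, L) T
  st : ∃ dr, μ * L ≤ dr ∧ SteerAt d F B K n (B.p 4) (B.p 4, 16 * L) (3 * T) dr
  re : ∃ r, 8 * r ≤ 7 * L ∧ ∀ t, 2 * t < T → reach d F.toMd K (B.p 2, L) B.n0 r t ≤ 1 / 10 * B.th
  rr : RR F B n ≤ T
  t1 : 1 ≤ T
  tn : T ≤ 2 ^ n
  l1 : 1 ≤ L

/-- down to the lower level from a large ball -/
theorem aa_down (hAPP : S_APP d F) (hd : 1 ≤ d) {B : Bs} (hB : B.Ok F)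
    {K n k a R0 N0 La Mb L T U : ℕ} {μ e v : ℝ} (hμ : 0 < μ) (hK : AaK d k μ a R0 N0 La Mb e)
    (he : B.eps ≤ e) (hL : AaLv d F B K n μ L T)
    (hg : (4 * (R0 + d) + 32) * (2 ^ k * L) ≤ 2 ^ n) (hv0 : 0 ≤ v) (hv1 : v ≤ 1)
    (h : AaV F B K n (fun _ : S d => (B.p 2, L)) (a * L) U v) :
    AaV F B K n (fun y : S d => if eu y ≤ ((a : ℝ) * L) ^ 2 then (B.p 2, L) else (B.p 4, 16 * L))
      (2 * ((R0 + d) * (2 ^ k * L))) (U + 4 * N0 * T) (v / 2) := by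
  obtain ⟨dr, h1, h2⟩ := hL.st
  have hLp : (0 : ℝ) < L := by exact_mod_cast hL.l1
  have hap : (0 : ℝ) < a := by exact_mod_cast hK.h9
  have hdp : (0 : ℝ) < d := by exact_mod_cast hd
  have hg' : (4 * ((R0 : ℝ) + d) + 32) * (2 ^ k * L) ≤ 2 ^ n := by exact_mod_cast hg
  have hk : (L : ℝ) ≤ 2 ^ k * L := le_mul_of_one_le_left hLp.le (one_le_pow₀ (by norm_num))
  have he0 := hB.2.2.2.2.2.1
  refine (aa_app (W := 4 * ((R0 + d) * (2 ^ k * L))) (N0 := N0) hAPP hB h2 hL.t4 hL.t2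
    (lt_of_lt_of_le (by positivity) h1) (by positivity) (by positivity) ?_ ?_ ?_ ?_ ?_ hv0 hv1
    h).mono (le_of_eq (by ring)) ?_ le_rfl
  · calc (d : ℝ) ^ 2 * ((16 * L : ℕ) : ℝ) ^ 2 = 256 * d ^ 2 * (L * L) := by push_cast; ring
      _ ≤ μ * a * (L * L) := mul_le_mul_of_nonneg_right hK.h1 (by positivity)
      _ = μ * L * (a * L) := by ring
      _ ≤ _ := mul_le_mul_of_nonneg_right h1 (by positivity)
  · calc 4 * (d : ℝ) * (4 * ((R0 + d) * (2 ^ k * L))) = 16 * d * ((R0 + d) * 2 ^ k) * L := by ring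
      _ ≤ μ * N0 * L := mul_le_mul_of_nonneg_right hK.h2 hLp.le
      _ = μ * L * N0 := by ring
      _ ≤ _ := mul_le_mul_of_nonneg_right h1 (by positivity)
  · calc 20 * (d : ℝ) * (4 * ((R0 + d) * (2 ^ k * L))) * B.eps =
          80 * d * ((R0 + d) * 2 ^ k) * B.eps * L := by ring
      _ ≤ 80 * d * ((R0 + d) * 2 ^ k) * e * L := by gcongr
      _ ≤ μ * L := mul_le_mul_of_nonneg_right hK.h3 hLp.le
      _ ≤ _ := h1
  · push_cast
    linarith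
  · simp only
    linarith
  · have := Nat.mul_le_mul_left N0 (show 3 * T + RR F B n ≤ 4 * T by have := hL.rr; omega)
    rw [mul_comm 4 N0, mul_assoc]
    omega

theorem aa_num1 {T U R : ℕ} (hR : R ≤ U) (hU : 1 ≤ U) (h : 8 * U < T) :
    ∃ Mn : ℕ, 1 ≤ Mn ∧ 2 * (Mn * (R + U)) < T ∧ U + 2 * T ≤ 25 * (Mn * U) := by
  have h0 : 0 < 2 * (R + U) := by omega
  have h1 := Nat.div_add_mod (T - 1) (2 * (R + U))
  have h2 := Nat.mod_lt (T - 1) h0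
  generalize (T - 1) / (2 * (R + U)) = m at h1
  generalize (T - 1) % (2 * (R + U)) = z at h1 h2
  have h3 : 2 * (R + U) * m = 2 * (m * R) + 2 * (m * U) := by ring
  have h4 : m * R ≤ m * U := Nat.mul_le_mul_left _ hR
  have h5 : 2 ≤ m := by
    by_contra hm
    have : m * U ≤ 1 * U := Nat.mul_le_mul_right _ (by omega)
    omega
  have h6 : 2 * U ≤ m * U := Nat.mul_le_mul_right _ h5
  refine ⟨m, by omega, by rw [mul_add]; omega, by omega⟩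

/-- one try from the upper level -/
theorem aa_try (hL : Low d F) (hE : Eng d F) : EvB d F fun B n K =>
    ∀ (L T U Lm : ℕ) (ty : S d → Ty) (W ρ v μ : ℝ), AaLv d F B K n μ L T → RR F B n ≤ U → 1 ≤ U →
      (∀ z, TyOk F B n (B.p 4) (ty z) ∧ (ty z).2 ≤ Lm) → 0 ≤ ρ → 0 ≤ W →
      2 * ρ ^ 2 + 2 * (d * (L : ℝ) ^ 2) ≤ W ^ 2 → ρ + 2 * L ≤ 2 ^ n → W + Lm ≤ 2 ^ n →
      (1 / 2 : ℝ) ^ n ≤ v → v ≤ 1 → AaV F B K n ty W U v →
      AaV F B K n (fun _ : S d => (B.p 2, L)) ρ (U + 2 * T)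
        (min (1 / 4) (((U : ℝ) + 2 * T) / U * v / 100)) := by
  intro B hB
  filter_upwards [aa_wb hL hE B hB] with n hWB K hK L T U Lm ty W ρ v μ hLv hR hU hty hρ hW0 hW hg
    hg' hv0 hv1 h
  have hv : 0 ≤ v := le_trans (by positivity) hv0
  have hUp : (0 : ℝ) < U := by exact_mod_cast hU
  by_cases hc : 8 * U < T
  · obtain ⟨Mn, m1, m2, m3⟩ := aa_num1 hR hU hc
    obtain ⟨r, r1, r2⟩ := hLv.re
    have := hLv.tn
    refine (hWB K hK L r U Mn Lm ty W ρ v hLv.t2 r1 (by omega) (r2 _ m2) hty hρ hW0 hW hg hg' hv0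
      hv1 m1 h).mono le_rfl (by omega) ?_
    rw [mul_min_of_nonneg _ _ (by norm_num)]
    refine min_le_min (by norm_num) ?_
    have m4 : ((U : ℝ) + 2 * T) / U ≤ 25 * Mn := by
      rw [div_le_iff₀ hUp, mul_assoc]
      exact_mod_cast m3
    have m5 : (0 : ℝ) ≤ Mn * v := by positivity
    nlinarith [mul_le_mul_of_nonneg_right m4 hv]
  · refine (aa_plain hB hLv.pl hty hρ hW0 hW hg hg' hv hv1 h).mono le_rfl
      (by have := hLv.rr; omega) ((min_le_right _ _).trans ?_)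
    have m4 : ((U : ℝ) + 2 * T) / U ≤ 17 := by
      rw [div_le_iff₀ hUp]
      exact_mod_cast (by omega : U + 2 * T ≤ 17 * U)
    nlinarith [mul_le_mul_of_nonneg_right m4 hv]

/-- one level up -/
theorem aa_step (hd : 1 ≤ d) (hL : Low d F) (hE : Eng d F) (hBO : S_BOOST d F) (hAPP : S_APP d F) :
    EvB d F fun B n K => ∀ (k a R0 N0 La Mb L T T' U : ℕ) (μ e v : ℝ), 0 < μ →
      AaK d k μ a R0 N0 La Mb e → B.eps ≤ e → AaLv d F B K n μ L T →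
      AaLv d F B K n μ (2 ^ k * L) T' → (4 * (R0 + d) + 32) * (2 ^ k * L) ≤ 2 ^ n →
      2 * (1 / 2 : ℝ) ^ n ≤ v → v ≤ 1 →
      AaV F B K n (fun _ : S d => (B.p 2, L)) (a * L) U v →
      ∃ (U' : ℕ) (v' : ℝ), AaV F B K n (fun _ : S d => (B.p 2, 2 ^ k * L)) (a * (2 ^ k * L)) U' v' ∧
        U' ≤ 3 * Mb * (U + 4 * N0 * T + 2 * T') ∧ (v' = 1 / 8 ∨ (0 < v' ∧ v' ≤ 1 ∧
          ((U' : ℝ) + 4 * N0 * T') * v ^ 3 ≤ 192 * (U + 4 * N0 * T) * v' ^ 3)) := by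
  intro B hB
  filter_upwards [aa_try hL hE B hB, aa_small hB] with n hT hsm K hK k a R0 N0 La Mb L T T' U μ e v
    hμ hc he h1 h2 hg hv0 hv1 h
  have hv : 0 < v := lt_of_lt_of_le (by positivity) hv0
  have hdn := aa_down hAPP hd hB hμ hc he h1 hg hv.le hv1 h
  have hdp : (1 : ℝ) ≤ d := by exact_mod_cast hd
  have hN0 : 1 ≤ N0 := by
    by_contra h0
    have h3 := hc.h2
    rw [show N0 = 0 by omega, Nat.cast_zero, mul_zero] at h3
    have : (0 : ℝ) < 16 * (d : ℝ) * ((R0 + d) * 2 ^ k) := by positivity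
    linarith
  have hTU : T ≤ U + 4 * N0 * T :=
    (Nat.le_mul_of_pos_left _ (by omega)).trans (Nat.le_add_left _ _)
  rw [show (U : ℝ) + 4 * N0 * T = ((U + 4 * N0 * T : ℕ) : ℝ) by push_cast; ring]
  generalize U + 4 * N0 * T = Ut at hdn hTU ⊢
  have hk : L ≤ 2 ^ k * L := Nat.le_mul_of_pos_left _ (by positivity)
  rw [show (2 : ℝ) ^ k * L = ((2 ^ k * L : ℕ) : ℝ) by push_cast; ring] at hdn ⊢
  generalize 2 ^ k * L = L' at hdn hk h2 hg ⊢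
  have hLp : (0 : ℝ) < L' := by exact_mod_cast h2.l1
  have hg' : (4 * ((R0 : ℝ) + d) + 32) * L' ≤ 2 ^ n := by exact_mod_cast hg
  have hR0 : (2 : ℝ) * a ≤ R0 := by exact_mod_cast hc.h4
  have hap : (1 : ℝ) ≤ a := by exact_mod_cast hc.h9
  have hRL : 0 ≤ (R0 : ℝ) * L' := by positivity
  have hdL : 0 ≤ (d : ℝ) * L' := by positivity
  have hty : ∀ z : S d, TyOk F B n (B.p 4) (if eu z ≤ ((a : ℝ) * L) ^ 2 then (B.p 2, L)
      else (B.p 4, 16 * L)) ∧ (if eu z ≤ ((a : ℝ) * L) ^ 2 then ((B.p 2, L) : Ty)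
      else (B.p 4, 16 * L)).2 ≤ 16 * L' := fun z => by
    split_ifs
    · exact ⟨h1.t2, by simp only; omega⟩
    · exact ⟨h1.t4, by simp only; omega⟩
  have hW : 2 * ((R0 : ℝ) * L') ^ 2 + 2 * (d * (L' : ℝ) ^ 2) ≤ (2 * ((R0 + d) * L')) ^ 2 := by
    have : (d : ℝ) * (L' : ℝ) ^ 2 ≤ (d * L') ^ 2 := by
      rw [mul_pow]
      exact mul_le_mul_of_nonneg_right (by nlinarith) (by positivity)
    nlinarith [mul_nonneg hRL hdL, sq_nonneg ((d : ℝ) * L'), sq_nonneg ((R0 : ℝ) * L')]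
  have hg1 : (R0 : ℝ) * L' + 2 * L' ≤ 2 ^ n := by nlinarith
  have hg2 : 2 * (((R0 : ℝ) + d) * L') + ((16 * L' : ℕ) : ℝ) ≤ 2 ^ n := by push_cast; nlinarith
  have haR : 4 * ((a : ℝ) * L') ^ 2 ≤ (R0 * L') ^ 2 := by
    rw [show 4 * ((a : ℝ) * L') ^ 2 = (2 * a * L') ^ 2 by ring]
    gcongr
  have hM : 2 ≤ Mb := hc.h8
  have hUt : 1 ≤ Ut := h1.t1.trans hTU
  have hUp : (0 : ℝ) < Ut := by exact_mod_cast hUt
  have hrr := h2.rr
  by_cases hcase : La * T' < Ut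
  · refine ⟨Ut + 2 * T', v / 2 / 2, (aa_plain hB h2.pl hty hRL (by positivity) hW hg1 hg2
      (by linarith) (by linarith) hdn).mono (by nlinarith [sq_nonneg ((a : ℝ) * L')]) (by omega)
      le_rfl, Nat.le_mul_of_pos_left _ (by omega), Or.inr ⟨by linarith, by linarith, ?_⟩⟩
    have h3 : Ut + 2 * T' + 4 * N0 * T' ≤ 2 * Ut := by
      have := Nat.mul_le_mul_right T' hc.h5
      rw [add_mul] at this
      omega
    have h4 : ((Ut + 2 * T' : ℕ) : ℝ) + 4 * N0 * T' ≤ 2 * Ut := by exact_mod_cast h3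
    have h5 : 0 < v ^ 3 := by positivity
    nlinarith [mul_le_mul_of_nonneg_right h4 h5.le, mul_pos hUp h5]
  have htry := hT K hK L' T' Ut (16 * L') _ _ ((R0 : ℝ) * L') (v / 2) μ h2 (h1.rr.trans hTU) hUt
    hty hRL (by positivity) hW hg1 hg2 (by linarith) (by linarith) hdn
  have hx1 : 1 ≤ ((Ut : ℝ) + 2 * T') / Ut := by
    rw [le_div_iff₀ hUp]
    have : (0 : ℝ) ≤ T' := Nat.cast_nonneg _
    linarith
  have hx2 : ((Ut + 2 * T' : ℕ) : ℝ) = ((Ut : ℝ) + 2 * T') / Ut * Ut := by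
    push_cast
    field_simp
  generalize ((Ut : ℝ) + 2 * T') / Ut = x at htry hx1 hx2
  have hTp : (0 : ℝ) < T' := by exact_mod_cast h2.t1
  have hRp : (0 : ℝ) < R0 := by linarith
  have he0 := hB.2.2.2.2.2.1
  have hbo := aa_boost (ρ := a * L') (Mn := Mb) hBO hB h2.pl h2.t1 h2.t2 (by positivity)
    (le_min (by norm_num) (by positivity)) (by linarith [hsm.2.1]) hg1 haR (by
      refine le_trans (mul_le_mul_of_nonneg_left ?_ (Nat.cast_nonneg _)) hc.h6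
      have e1 : (d : ℝ) * (L' : ℝ) ^ 2 / (R0 * L') ^ 2 = d / (R0 : ℝ) ^ 2 := by field_simp
      have e2 : 2 * (((Ut + 2 * T' : ℕ) : ℝ) + RR F B n) / T' ≤ 2 * ((La : ℝ) + 3) := by
        rw [div_le_iff₀ hTp]
        have : 2 * (Ut + 2 * T' + RR F B n) ≤ 2 * (La + 3) * T' := by
          rw [mul_assoc, add_mul]
          omega
        exact_mod_cast this
      simp only [e1]
      have := hc.he
      gcongr) htry
  have hU' : Mb * (Ut + 2 * T' + T' + 2 * RR F B n) ≤ 3 * Mb * (Ut + 2 * T') := by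
    rw [mul_comm 3 Mb, mul_assoc]
    exact Nat.mul_le_mul_left _ (by omega)
  refine ⟨_, _, hbo.mono le_rfl hU' le_rfl, le_rfl, ?_⟩
  have hMp : (2 : ℝ) ≤ Mb := by exact_mod_cast hM
  rcases le_total (1 / 8 : ℝ) (Mb * min (1 / 4) (x * (v / 2) / 100) / 4) with h3 | h3
  · exact Or.inl (min_eq_left h3)
  rcases le_total (1 / 4 : ℝ) (x * (v / 2) / 100) with h4 | h4
  · rw [min_eq_left h4]
    exact Or.inl (min_eq_left (by linarith))
  rw [min_eq_right h3]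
  rw [min_eq_right h4] at h3 ⊢
  refine Or.inr ⟨by positivity, by linarith, ?_⟩
  have h5 : 3 * Mb * (Ut + 2 * T') + 4 * N0 * T' ≤ (3 * Mb + 4 * N0) * (Ut + 2 * T') := by
    rw [add_mul]
    exact Nat.add_le_add_left (Nat.mul_le_mul_left _ (by omega)) _
  have h6 : ((3 * Mb * (Ut + 2 * T') : ℕ) : ℝ) + 4 * N0 * T' ≤ (3 * Mb + 4 * N0) * (x * Ut) := by
    rw [← hx2]
    exact_mod_cast h5
  have h7 : (800 : ℝ) ^ 3 * (3 * Mb + 4 * N0) ≤ (Mb : ℝ) ^ 3 := by exact_mod_cast hc.h7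
  have h8 : x ≤ x ^ 3 := le_self_pow₀ hx1 (by norm_num)
  calc _ ≤ (3 * Mb + 4 * N0) * (x * Ut) * v ^ 3 := by gcongr
    _ ≤ (Mb : ℝ) ^ 3 / 800 ^ 3 * (x ^ 3 * Ut) * v ^ 3 := by
        gcongr
        rw [le_div_iff₀ (by norm_num)]
        linarith
    _ = 1 * Ut * (Mb * (x * (v / 2) / 100) / 4) ^ 3 := by ring
    _ ≤ _ := by gcongr; norm_num

end Pool.Agent.Lib.MP_dd0771_pr.Sc
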