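import Pool.Agent.Lib.MP_dd0771_pr.Sc.AaC

/-! The levels, the abstract recursion and the base of the recursion. -/

open Filter

namespace Pool.Agent.Lib.MP_dd0771_pr.Sc

variable {d : ℕ} {F : Fr}

theorem aa_rec (A : ℕ → ℕ → ℝ → Prop) (Lv : ℕ → ℕ → Prop) {c1 c2 I J Tm : ℕ} {δ : ℝ}
    (hI : 1 ≤ I) (hc : 1 ≤ c2) (hδ : δ ≤ (1 / 2) ^ (9 * J))
    (hT : ∀ j T, j ≤ J → Lv (I + j) T → 2 ^ (9 * (I + j)) ≤ T ∧ T ≤ Tm)
    (hlev : ∀ j, j ≤ J → ∃ T, Lv (I + j) T)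
    (hstep : ∀ j T T' U v, j < J → Lv (I + j) T → Lv (I + j + 1) T' → δ ≤ v → v ≤ 1 →
      A (I + j) U v → ∃ (U' : ℕ) (v' : ℝ), A (I + j + 1) U' v' ∧ U' ≤ c1 * (U + c2 * T + 2 * T') ∧
        (v' = 1 / 8 ∨ (0 < v' ∧ v' ≤ 1 ∧
          ((U' : ℝ) + c2 * T') * v ^ 3 ≤ 192 * (U + c2 * T) * v' ^ 3)))
    (hbase : ∃ T U v, Lv I T ∧ A I U v ∧ 0 < v ∧ v ≤ 1 ∧
      (1 / 2 : ℝ) ^ J * (U + c2 * T) ≤ v ^ 3) :
    ∃ j U, j ≤ J ∧ A (I + j) U (1 / 8) ∧ U ≤ c1 * (2 ^ (9 * J) + 2 * Tm) := by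
  by_contra hno
  have hJ : (0 : ℝ) < (1 / 2) ^ J := by positivity
  have hc' : (1 : ℝ) ≤ c2 := by exact_mod_cast hc
  have e1 : (1 / 2 : ℝ) ^ J * 2 ^ (9 * J) = 256 ^ J := by
    rw [pow_mul, ← mul_pow]; norm_num
  have e2 : (256 : ℝ) ^ J * (1 / 2) ^ (9 * J) = (1 / 2) ^ J := by
    rw [pow_mul, ← mul_pow]; norm_num
  have key : ∀ j, j ≤ J → ∃ T U v, Lv (I + j) T ∧ A (I + j) U v ∧ 0 < v ∧ v ≤ 1 ∧
      (1 / 2 : ℝ) ^ J * (U + c2 * T) ≤ 192 ^ j * v ^ 3 := by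
    intro j
    induction j with
    | zero => intro _; simpa using hbase
    | succ j ih =>
      intro hj
      obtain ⟨T, U, v, h1, h2, h3, h4, h5⟩ := ih (by omega)
      obtain ⟨T', h6⟩ := hlev (j + 1) hj
      have p1 : (192 : ℝ) ^ j ≤ 256 ^ J :=
        (pow_le_pow_left₀ (by norm_num) (by norm_num) j).trans
          (pow_le_pow_right₀ (by norm_num) (by omega))
      have p2 : v ^ 3 ≤ v := pow_le_of_le_one h3.le h4 (by norm_num)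
      have p3 : (1 : ℝ) ≤ T := by
        exact_mod_cast Nat.one_le_two_pow.trans (hT j T (by omega) h1).1
      have p4 : (1 : ℝ) ≤ U + c2 * T := by
        have : (0 : ℝ) ≤ U := Nat.cast_nonneg _
        nlinarith
      have p5 : (1 / 2 : ℝ) ^ J * (U + c2 * T) ≤ 256 ^ J * v :=
        h5.trans (mul_le_mul p1 p2 (by positivity) (by positivity))
      have p6 : δ ≤ v := by
        refine hδ.trans (le_of_mul_le_mul_left ?_ (by positivity : (0 : ℝ) < 256 ^ J))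
        rw [e2]
        exact (le_mul_of_one_le_right hJ.le p4).trans p5
      obtain ⟨U', v', q1, q2, q3⟩ := hstep j T T' U v (by omega) h1 h6 p6 h4 h2
      rcases q3 with rfl | ⟨q3, q4, q5⟩
      · refine absurd ⟨j + 1, U', hj, q1, q2.trans (Nat.mul_le_mul_left _ ?_)⟩ hno
        have p7 : (U : ℝ) + c2 * T ≤ 2 ^ (9 * J) := by
          refine le_of_mul_le_mul_left ?_ hJ
          rw [e1]
          exact p5.trans (mul_le_of_le_one_right (by positivity) h4)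
        have p8 : U + c2 * T ≤ 2 ^ (9 * J) := by exact_mod_cast p7
        have := (hT (j + 1) T' hj h6).2
        omega
      · refine ⟨T', U', v', h6, q1, q3, q4, le_of_mul_le_mul_right ?_ (pow_pos h3 3)⟩
        calc _ = (1 / 2 : ℝ) ^ J * (((U' : ℝ) + c2 * T') * v ^ 3) := by ring
          _ ≤ (1 / 2 : ℝ) ^ J * (192 * (U + c2 * T) * v' ^ 3) := by gcongr
          _ = (1 / 2 : ℝ) ^ J * (U + c2 * T) * (192 * v' ^ 3) := by ring
          _ ≤ 192 ^ j * v ^ 3 * (192 * v' ^ 3) := by gcongr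
          _ = _ := by ring
  obtain ⟨T, U, v, h1, -, h3, h4, h5⟩ := key J le_rfl
  have p1 : (2 : ℝ) ^ (9 * (I + J)) ≤ T := by exact_mod_cast (hT J T le_rfl h1).1
  have p2 : (2 : ℝ) * 2 ^ (9 * J) ≤ 2 ^ (9 * (I + J)) := by
    rw [← pow_succ']
    exact pow_le_pow_right₀ (by norm_num) (by omega)
  have p3 : (T : ℝ) ≤ U + c2 * T := by
    have : (0 : ℝ) ≤ U := Nat.cast_nonneg _
    have : (0 : ℝ) ≤ T := Nat.cast_nonneg _
    nlinarith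
  have p4 : (192 : ℝ) ^ J * v ^ 3 ≤ 256 ^ J * 1 :=
    mul_le_mul (pow_le_pow_left₀ (by norm_num) (by norm_num) J) (pow_le_one₀ h3.le h4)
      (by positivity) (by positivity)
  have p5 := mul_le_mul_of_nonneg_left ((p2.trans p1).trans p3) hJ.le
  have p6 : (0 : ℝ) < 256 ^ J := by positivity
  rw [mul_left_comm, e1] at p5
  linarith

theorem aa_p_le {B : Bs} (hB : B.Ok F) {i j : ℕ} (h : i ≤ j) : B.p i ≤ B.p j := by
  have : (i : ℝ) ≤ j := by exact_mod_cast h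
  have := mul_le_mul_of_nonneg_right this hB.2.1.le
  simp only [Bs.p]
  linarith

theorem aa_ty {B : Bs} (hB : B.Ok F) {i n L : ℕ} (h : i ≤ 4) (h1 : Lmin F B n ≤ L)
    (h2 : L ≤ 2 ^ n) : TyOk F B n (B.p 4) (B.p i, L) :=
  ⟨by simpa [Bs.p] using aa_p_le hB (Nat.zero_le i), aa_p_le hB h, le_rfl, h1, h2⟩

/-- the levels exist -/
theorem aa_level (hF : F.Ok) (hE : Eng d F) {c μ e0 e1 : ℝ} {CT N k N3 : ℕ} (hc : c ≤ 1 / 10)
    (hk : 18 ≤ k) (hLD : LDAt d F c CT e0 N) (hBA : BAt d F c CT k μ e1 N3) {B : Bs}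
    (hB : B.Ok F) (h0 : B.eps ≤ e0) (h1 : B.eps ≤ e1) :
    ∃ i0, ∀ᶠ n in atTop, ∀ K, BK d F B K n → ∀ i, i0 ≤ i → Lmin F B n ≤ 2 ^ (k * i) →
      N * (k * i) + N3 * i + k * i * CT + k * i + 4 ≤ n →
      ∃ T, AaLv d F B K n μ (2 ^ (k * i)) T ∧ 2 ^ (9 * i) ≤ T ∧ T ≤ 2 ^ (k * i * CT) := by
  obtain ⟨m1, hm1⟩ := eventually_atTop.1 (hLD B hB h0)
  obtain ⟨m2, hm2⟩ := eventually_atTop.1 (hBA B hB h1)
  refine ⟨m1 + m2, ?_⟩
  filter_upwards [hE.hSLP B hB, hE.hSLS B hB, le_of_Lmin hF B, eventually_ge_atTop 1] with n hP hS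
    hLm hn K hK i hi hL hb
  have hki : i ≤ k * i := Nat.le_mul_of_pos_left _ (by omega)
  obtain ⟨r, T, hT⟩ := hm1 (k * i) (by omega) K (hK.mono (by omega))
  obtain ⟨Ds, b, b1, b2, b3, b4, b5⟩ := hm2 i (by omega) K (hK.mono (by omega)) r T hT
  obtain ⟨t1, t2, -, t4, t5, t6⟩ := hT
  rw [← pow_mul] at t6
  have hth := hB.2.2.2.1
  have a1 : 16 * 2 ^ (k * i) ≤ 2 ^ n := by
    rw [show 16 * 2 ^ (k * i) = 2 ^ (k * i + 4) by ring]
    exact Nat.pow_le_pow_right (by norm_num) (by omega)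
  have a2 : 4 * 2 ^ (k * i * CT) ≤ 2 ^ n := by
    rw [show 4 * 2 ^ (k * i * CT) = 2 ^ (k * i * CT + 2) by ring]
    exact Nat.pow_le_pow_right (by norm_num) (by omega)
  have a3 : 2 ^ (9 * i) ≤ T := by
    refine le_trans (Nat.le_sqrt'.2 ?_) t5
    rw [← pow_mul]
    exact Nat.pow_le_pow_right (by norm_num) (by nlinarith)
  have a4 := aa_ty (i := 2) hB (by norm_num) hL (by omega)
  have a5 := aa_ty (i := 4) (L := 16 * 2 ^ (k * i)) hB le_rfl (by omega) a1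
  have a6 : RR F B n ≤ VV n * RR F B n := Nat.le_mul_of_pos_left _ (Nat.pow_pos hn)
  have a7 := (hLm _ hL).2.1
  refine ⟨T, ⟨a4, a5, hP K hK _ _ r T a4 (aa_p_le hB (by norm_num)) (by simp only; omega)
    (by omega) fun t ht => (t4 t ht).trans (by nlinarith), ⟨_, by exact_mod_cast b4,
    hS K hK _ _ Ds (3 * T) b a5 (aa_p_le hB (by norm_num)) b1 (by simp only; omega) (by omega) b3
      b5⟩, ⟨r, by omega, fun t ht => (t4 t ht).trans (by nlinarith)⟩, by omega,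
    Nat.one_le_two_pow.trans a3, by omega, Nat.one_le_two_pow⟩, a3, t6⟩

theorem aa_half {a b : ℕ} (h : a ≤ b) : (1 / 2 : ℝ) ^ b ≤ (1 / 2) ^ a :=
  pow_le_pow_of_le_one (by norm_num) (by norm_num) h

theorem aa_tol {l a : ℕ} (h : 4 * a ≤ l) : tol l ≤ (1 / 2 : ℝ) ^ a := by
  have h1 : Real.exp (-1) ≤ 1 / 2 := by
    rw [Real.exp_neg, one_div]
    exact inv_anti₀ (by norm_num) (by linarith [Real.add_one_le_exp (1 : ℝ)])
  have h2 : (4 : ℝ) * a ≤ l := by exact_mod_cast h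
  calc tol l ≤ Real.exp (a * (-1)) := Real.exp_le_exp.2 (by linarith)
    _ = Real.exp (-1) ^ a := Real.exp_nat_mul _ _
    _ ≤ _ := pow_le_pow_left₀ (Real.exp_pos _).le h1 a

/-- the base level with explicit exponents -/
theorem aa_base2 (hF : F.Ok) (hE : Eng d F) {e0 : ℝ} {C1 N1 : ℕ} (hF1 : F1At d F C1 e0 N1)
    {B : Bs} (hB : B.Ok F) (h0 : B.eps ≤ e0) :
    ∃ m0, ∀ᶠ n in atTop, ∀ K, BK d F B K n → ∀ x a l, m0 ≤ x → Lmin F B n ≤ 2 ^ x → ls n ≤ l →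
      l ≤ n → (N1 + C1 + 1) * (x + a + 2) + 2 ≤ n → 4 * (C1 * (x + a + 2) ^ 2 + 3) ≤ l →
      l ^ (F.A + 1) + 1 ≤ n →
      AaV F B K n (fun _ : S d => (B.p 2, 2 ^ x)) (a * 2 ^ x) (DD F n + 2 ^ (C1 * (x + a + 2)))
        ((1 / 2) ^ (l ^ (F.A + 1) + C1 * (x + a + 2) ^ 2 + 3)) := by
  obtain ⟨m0, hm0⟩ := eventually_atTop.1 (hF1 B hB h0)
  refine ⟨m0, ?_⟩
  filter_upwards [aa_base hE B hB, le_of_Lmin hF B, scales hF B] with n hb hLm hsc K hK x a l hx hL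
    l1 l2 g1 g2 g3
  rw [add_mul, add_mul, one_mul] at g1
  have a1 : 2 ^ (x + a + 2) = 4 * (2 ^ a * 2 ^ x) := by ring
  have a2 : (a + 1) * 2 ^ x ≤ 2 ^ a * 2 ^ x := Nat.mul_le_mul_right _ Nat.lt_two_pow_self
  have a3 : 4 * 2 ^ (x + a + 2) ≤ 2 ^ n := by
    rw [show 4 * 2 ^ (x + a + 2) = 2 ^ (x + a + 2 + 2) by ring]
    exact Nat.pow_le_pow_right (by norm_num) (by omega)
  have a4 := (hLm _ hL).2.2.2
  rw [add_mul, one_mul] at a2
  have e3 : ∀ z : ℕ, (1 / 2 : ℝ) ^ z / 8 = (1 / 2) ^ (z + 3) := fun z => by ring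
  refine (hb K hK (2 ^ x) (x + a + 2) l (2 ^ (C1 * (x + a + 2))) (a * 2 ^ x)
    ((1 / 2) ^ (C1 * (x + a + 2) ^ 2)) (aa_ty hB (by norm_num) hL (by omega))
    (aa_ty hB (by norm_num) (by omega) (by omega)) l1 l2
    (Nat.pow_le_pow_right (by norm_num) (by omega)) (by positivity)
    (by exact_mod_cast (by omega : 4 * (a * 2 ^ x + DD F n) ≤ 2 ^ (x + a + 2)))
    (by exact_mod_cast (by omega : a * 2 ^ x + 2 * 2 ^ x ≤ 2 ^ n)) a3
    (pow_le_one₀ (by norm_num) (by norm_num)) (by rw [e3]; exact aa_tol g2)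
    (by rw [e3]; exact aa_half (by omega))
    (by rw [show (1 / 2 : ℝ) ^ l ^ (F.A + 1) / 2 = (1 / 2) ^ (l ^ (F.A + 1) + 1) by ring]
        exact aa_half (by omega))
    fun y hy => hm0 (x + a + 2) (by omega) K (hK.mono (by omega)) y 0 hy).mono le_rfl
    (Nat.add_le_add_right (hsc.2.2.2.2.2.2.2 l l2) _) (le_of_eq (by ring))

end Pool.Agent.Lib.MP_dd0771_pr.Sc
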