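import Pool.Agent.Lib.MP_dd0771_pr.Sc.Kit

open Filter

namespace Pool.Agent.Lib.MP_dd0771_pr.Sc

theorem s_al {d : ℕ} {F : Fr} (hd : 2 ≤ d) (hF : F.Ok) (hL : Low d F)
    :
    S_AL d F := by
  intro B hB
  filter_upwards [eventually_ge_atTop B.R0, eventually_ge_atTop 2] with n hn hn2 K hK C h1 h2 h3 h4
  have hg := hB.2.1
  have h5 : B.p 4 ≤ B.pa + 5 * B.g := by unfold Bs.p; push_cast; linarith
  have h6 : B.pa ≤ B.p 4 := h1.trans h2
  have hD : 4 * n ^ 2 ≤ DD F n := by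
    calc 4 * n ^ 2 ≤ n ^ 2 * n ^ 2 := Nat.mul_le_mul_right _ (by nlinarith)
      _ = n ^ 4 := by ring
      _ ≤ n ^ (2 * F.A + 4) := Nat.pow_le_pow_right (by omega) (by omega)
  have hm : ∀ t, MonoEv fun I : Tj d => (I t).Nonempty := fun t I J h hI => hI.mono (h t)
  obtain ⟨hu, hl⟩ := hK.2.2 C.2 h4
  refine ⟨le_trans ?_ (hu (by nlinarith)), fun T hT => le_trans (hl T ?_) ?_⟩
  · exact hL.hMONO K C.1 (B.p 4) _ _ _ _ _ _ _ (hK.kp hF hB h1 (h2.trans h5))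
      (hK.kp hF hB h6 h5) h2 subset_rfl subset_rfl (hm _)
  · rcases le_total B.R0 T with h | h
    · calc (B.R0 + T) ^ 2 ≤ (T + T) ^ 2 := Nat.pow_le_pow_left (by omega) 2
        _ = 4 * T ^ 2 := by ring
        _ ≤ C.2 := hT
    · calc (B.R0 + T) ^ 2 ≤ (n + n) ^ 2 := Nat.pow_le_pow_left (by omega) 2
        _ = 4 * n ^ 2 := by ring
        _ ≤ C.2 := hD.trans h3
  · exact hL.hMONO K B.pa C.1 _ _ _ _ _ _ _ (hK.kp hF hB le_rfl (by linarith))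
      (hK.kp hF hB h1 (h2.trans h5)) h1 subset_rfl subset_rfl (hm _)

end Pool.Agent.Lib.MP_dd0771_pr.Sc
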