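import Pool.Agent.Lib.MP_dd0771_pr.Sc.Kit

open Filter

namespace Pool.Agent.Lib.MP_dd0771_pr.Sc

/-- The chain event before block `k2` only depends on the trajectory up to time `k2 * sb`. -/
theorem ambs_ce_congr {d : ℕ} {F : Fr} {B : Bs} {n : ℕ} {Zc : Finset (S d)} {O : Rule d} {k2 : ℕ}
    {P : ℕ × Finset (S d) → Prop} {I J : Tj d}
    (h : ∀ u, u ≤ k2 * sb F B n (ls n) → I u = J u) (hI : CE F B n Zc O k2 P I) :
    CE F B n Zc O k2 P J := by
  obtain ⟨k1, hk, hP, x1, x2, hx, hc⟩ := hI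
  have key : ∀ k, k < k1 + mm F n →
      J (k * sb F B n (ls n) + s1 F n) = I (k * sb F B n (ls n) + s1 F n) := by
    intro k hk'
    refine (h _ ?_).symm
    have h1 : s1 F n ≤ sb F B n (ls n) := Nat.le_add_right _ _
    have h2 : (k + 1) * sb F B n (ls n) ≤ k2 * sb F B n (ls n) :=
      Nat.mul_le_mul_right _ (by omega)
    rw [Nat.add_mul, one_mul] at h2
    omega
  refine ⟨k1, hk, ?_, x1, x2, ?_, ?_⟩
  · intro k hk' Cd hCd
    rw [key k hk'] at hCd
    exact hP k hk' Cd hCd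
  · intro k h1 h2
    rw [key k h2]
    exact hx k h1 h2
  · refine hc.trans (Nat.mul_le_mul_left 2 (Finset.card_le_card ?_))
    intro k hk'
    rw [Finset.mem_filter] at hk' ⊢
    refine ⟨hk'.1, ?_⟩
    rw [key k (Finset.mem_Ico.1 hk'.1).2]
    exact hk'.2

theorem ambs_tj_take {d : ℕ} (G : Md) (Y : Sys d) (σ : St d) (ws : List (Word d)) {T u : ℕ}
    (h : u ≤ T) : tj G Y σ (ws.take T) u = tj G Y σ ws u := by
  simp only [tj, List.take_take, min_eq_left h]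

/-- The horizon does not matter for the chain event. -/
theorem ambs_horizon {d : ℕ} {F : Fr} {B : Bs} {n : ℕ} (Zc : Finset (S d)) (O : Rule d) (k2 : ℕ)
    (P : ℕ × Finset (S d) → Prop) (Y : Sys d) (σ : St d) (A : Finset (Lt d)) {T : ℕ}
    (hT : k2 * sb F B n (ls n) ≤ T) :
    pr (wls F.toMd A T) (fun ws => CE F B n Zc O k2 P (tj F.toMd Y σ ws)) =
      pr (wls F.toMd A (k2 * sb F B n (ls n)))
        fun ws => CE F B n Zc O k2 P (tj F.toMd Y σ ws) := by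
  unfold wls
  rw [← iid_take (wl F.toMd A) hT, pr_map]
  refine pr_congr fun ws _ => ⟨fun h => ambs_ce_congr (fun u hu => ?_) h,
    fun h => ambs_ce_congr (fun u hu => ?_) h⟩
  · exact (ambs_tj_take _ _ _ _ hu).symm
  · exact ambs_tj_take _ _ _ _ hu

theorem ambs_rv_const {d : ℕ} (F : Fr) (B : Bs) (K n l : ℕ) (pc : ℝ) (H : Mc d) (m : ℕ)
    (σ : St d) (v : ℝ) :
    rv F B K n l pc H m σ (fun _ => v) = v * rv F B K n l pc H m σ fun _ => ind True := by
  unfold rv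
  rw [← ex_mul_left]
  refine ex_congr fun o _ => ?_
  cases o with
  | none => simp
  | some p => simp [ind_pos trivial]

theorem ambs_mm_le {F : Fr} {B : Bs} {n : ℕ} (hn : 1 ≤ n) (hsb : 1 ≤ sb F B n (ls n))
    (h : Lmin F B n ≤ 2 ^ n) : mm F n + 2 ≤ 2 ^ n := by
  have h1 : mm F n + 2 ≤ RR F B n := Nat.le_mul_of_pos_right _ hsb
  have h2 : 1 ≤ VV n := Nat.one_le_pow _ _ hn
  have h3 : RR F B n ≤ VV n * RR F B n := Nat.le_mul_of_pos_left _ h2
  have h4 : VV n * RR F B n ≤ Lmin F B n := Nat.le_self_pow (by norm_num) _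
  omega

theorem s_amb {d : ℕ} {F : Fr} (hd : 2 ≤ d) (hF : F.Ok) (hL : Low d F)
    (hENG : S_ENG d F) (hLIVE : S_LIVE d F) :
    S_AMB d F := by
  intro B hB
  filter_upwards [hENG B hB, hLIVE B hB, scales hF B, ls_le, eventually_ge_atTop 1] with n hE hV
    hsc hls hn1 K hK
  intro pc M Φ te ub v C y L s hC hM hΦ hu hte hQ hD hL2 hv0 hvu hval
  obtain ⟨-, -, -, -, hsb, -, -, -⟩ := hsc
  have hmm : mm F n + 2 ≤ 2 ^ n := ambs_mm_le hn1 hsb (hC.2.2.2.1.trans hC.2.2.2.2)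
  have hRR : (mm F n + 1) * sb F B n (ls n) ≤ RR F B n := Nat.mul_le_mul_right _ (by omega)
  have hpa : B.pa ≤ pc := hC.1.trans hC.2.1
  set H : Mc d := ⟨M.sy K, {y}, L, rReg (bx y L)⟩ with hH
  have hQ' : wQ H.Y H.L ⊆ M.Q' := by
    show wQ {y} L ⊆ M.Q'
    rw [wQ_single]; exact hQ
  have hA : al K (wQ H.Y H.L) ⊆ H.sy.A := al_mono K (hQ'.trans hM.1)
  have hZ : wZ H.Y H.L = bx y L := wZ_single y L
  have hcard : H.Y.card ≤ 2 := by
    show ({y} : Finset (S d)).card ≤ 2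
    simp
  have hO : RuleOk (DD F n) H.O := ruleOk_rReg _ _
  have hcont : Cont F B K n (ls n) pc M Φ (wZ H.Y H.L) H.O (mm F n + 1) (tm s) (fun _ => C) id
      fun _ => v := by
    intro k hk Cd _ Yt hYt _
    obtain ⟨z, hz, rfl⟩ := Finset.mem_image.1 hYt
    obtain ⟨h1, h2⟩ := hval z (Finset.mem_inter.1 hz).2
    have h3 : (k + 1) * sb F B n (ls n) ≤ (mm F n + 1) * sb F B n (ls n) :=
      Nat.mul_le_mul_right _ (by omega)
    have h4 : 0 < (k + 1) * sb F B n (ls n) := Nat.mul_pos (by omega) hsb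
    refine ⟨Finset.Subset.refl _, apart_single z _, hC, ?_, h2 _ (by omega) (by omega)⟩
    show wZ {z} C.2 ⊆ M.Z
    rw [wZ_single]; exact h1
  have e1 := hE K hK (ls n) pc M Φ te ub v H (mm F n + 1) s (M.st F.toMd K s) (fun _ => C) id
    (fun _ => v) le_rfl hls.2 hpa hC.2.2.1 hM hΦ hu (by omega) hcard hQ' hD hL2 hA
    (Finset.Subset.refl _) hO hvu (fun _ => ⟨hv0, le_rfl⟩) hcont
  have e2' := hV K hK pc H (M.st F.toMd K s) (mm F n + 1) (fun _ => True) hpa hC.2.2.1 hcard hD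
    hL2 hA ⟨M.Q, rfl⟩ hO (by rw [pow_succ]; omega)
  rw [pr_zero, ambs_rv_const] at e1
  · rw [hZ] at e2'
    rw [ambs_horizon _ _ _ _ _ _ _ hRR]
    obtain ⟨h0, -, h2⟩ := er_le_e2 n
    have h5 : ((mm F n + 2 : ℕ) : ℝ) ≤ 2 ^ (2 * n) := by
      have h6 : (2 : ℕ) ^ n ≤ 2 ^ (2 * n) := Nat.pow_le_pow_right (by norm_num) (by omega)
      exact_mod_cast hmm.trans h6
    have h7 : ((mm F n + 2 : ℕ) : ℝ) * er n ≤ e2 n := by
      rw [← h2]; exact mul_le_mul_of_nonneg_right h5 h0.le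
    push_cast at h7 e1
    have h8 := mul_le_mul_of_nonneg_left e2' hv0
    have h9 := mul_le_mul_of_nonneg_left h7 hv0
    have h10 : H.sy.A = al K M.Q := rfl
    have h11 : H.O = rReg (bx y L) := rfl
    have h12 : H.sy = M.sy K := rfl
    rw [h10, h11, h12] at h8
    linarith
  · rintro ws _ ⟨u, -, -, h⟩
    apply h
    rw [st_nx]
    exact Finset.Subset.refl _

end Pool.Agent.Lib.MP_dd0771_pr.Sc
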