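import Pool.Agent.Lib.MP_dd0771_pr.Sc.Kit

open Filter

namespace Pool.Agent.Lib.MP_dd0771_pr.Sc

theorem app_sqrt {s N : ℝ} (hs : 0 ≤ s) (hN : 0 < N) : √s ≤ (s + N ^ 2) / (2 * N) := by
  rw [le_div_iff₀ (by positivity)]
  nlinarith [Real.sq_sqrt hs, sq_nonneg (√s - N)]

theorem app_step {d : ℕ} {κ : Law (S d × ℕ)} {ε dr W ρ N0 nn : ℝ} {L : ℕ} {i : Fin d} {z : S d}
    (hκ : κ.Ok (3 * ε)) (hε : 0 ≤ ε) (hW : ∀ p ∈ κ.W, nrm p.1 ≤ L)
    (h0 : ∀ i', i' ≠ i → κ.E (fun p => (p.1 i' : ℝ)) = 0)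
    (hi : κ.E (fun p => (if decide (0 ≤ z i) then 1 else -1) * (p.1 i : ℝ)) ≤ -dr)
    (hz : |z i| = nrm z) (hd : 1 ≤ (d : ℝ)) (hdr : 0 < dr) (hWp : 0 < W) (hρ : 0 < ρ)
    (hN0 : 0 < N0) (hρz : ρ ^ 2 < eu z) (h1 : (d : ℝ) ^ 2 * (L : ℝ) ^ 2 ≤ dr * ρ)
    (h2 : 4 * d * W ≤ dr * N0) (h3 : 20 * d * W * ε ≤ dr) (hn : nn / N0 ≤ 1) :
    (nn + 1) / N0 - √(eu z) / W + 2 * ε ≤ κ.E fun p => nn / N0 - √(eu (z + p.1)) / W := by
  obtain ⟨N, hN⟩ : ∃ N, N = √(eu z) := ⟨_, rfl⟩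
  have hN2 : N ^ 2 = eu z := by rw [hN, Real.sq_sqrt (eu_nonneg z)]
  have hNρ : ρ < N := by rw [hN]; exact Real.lt_sqrt_of_sq_lt hρz
  have hNp : 0 < N := hρ.trans hNρ
  rw [← hN]
  have b := Law.E_mono hκ (f := fun p => (nn / N0 - N / W) * 1 +
      -(1 / (N * W)) * ∑ j, (z j : ℝ) * p.1 j + -(d * (L : ℝ) ^ 2 / (2 * N * W)) * 1)
    (g := fun p => nn / N0 - √(eu (z + p.1)) / W) fun p hp => by
      have k1 : (nrm p.1 : ℝ) ≤ L := by exact_mod_cast hW p hp
      have k2 : eu p.1 ≤ d * (L : ℝ) ^ 2 := (eu_le _).trans (by gcongr)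
      have k3 := app_sqrt (eu_nonneg (z + p.1)) hNp
      have k4 : (eu (z + p.1) + N ^ 2) / (2 * N) ≤
          N + (∑ j, (z j : ℝ) * p.1 j) / N + d * (L : ℝ) ^ 2 / (2 * N) := by
        rw [eu_add, ← hN2, div_le_iff₀ (by positivity)]
        have : (N + (∑ j, (z j : ℝ) * p.1 j) / N + d * (L : ℝ) ^ 2 / (2 * N)) * (2 * N) =
            2 * N ^ 2 + 2 * (∑ j, (z j : ℝ) * p.1 j) + d * (L : ℝ) ^ 2 := by field_simp
        rw [this]; linarith
      have k5 := div_le_div_of_nonneg_right (k3.trans k4) hWp.le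
      have k6 : (N + (∑ j, (z j : ℝ) * p.1 j) / N + d * (L : ℝ) ^ 2 / (2 * N)) / W =
          N / W + 1 / (N * W) * ∑ j, (z j : ℝ) * p.1 j + d * (L : ℝ) ^ 2 / (2 * N * W) := by
        field_simp
      linarith
  refine le_trans ?_ b
  rw [Law.E_add, Law.E_add, Law.E_mul, Law.E_mul, Law.E_mul, Law.E_sum]
  have e1 : ∑ j, κ.E (fun p => (z j : ℝ) * p.1 j) = z i * κ.E fun p => (p.1 i : ℝ) := by
    rw [Finset.sum_eq_single i (fun j _ hj => by rw [Law.E_mul, h0 j hj, mul_zero]) (by simp),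
      Law.E_mul]
  have hz' : |(z i : ℝ)| = nrm z := by exact_mod_cast hz
  have e2 : (z i : ℝ) * κ.E (fun p => (p.1 i : ℝ)) ≤ -dr * nrm z := by
    rw [Law.E_mul] at hi
    by_cases h : 0 ≤ z i
    · have h' : (0 : ℝ) ≤ z i := by exact_mod_cast h
      rw [abs_of_nonneg h'] at hz'
      simp only [h, decide_true, if_true] at hi
      rw [← hz']; nlinarith
    · have h' : (z i : ℝ) < 0 := by exact_mod_cast not_le.1 h
      rw [abs_of_neg h'] at hz'
      simp only [h, decide_false, Bool.false_eq_true, if_false] at hi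
      rw [← hz']; nlinarith
  have e3 : N ≤ d * nrm z := by
    have := eu_le z
    refine (pow_le_pow_iff_left₀ hNp.le (by positivity) two_ne_zero).1 ?_
    · have : (d : ℝ) * (nrm z : ℝ) ^ 2 ≤ (d * nrm z) ^ 2 := by
        nlinarith [mul_nonneg (sub_nonneg.2 hd) (mul_nonneg (by positivity : (0 : ℝ) ≤ d)
          (sq_nonneg (nrm z : ℝ)))]
      linarith
  rw [e1]
  have dp : (0 : ℝ) < d := by linarith
  have m1 : dr / (d * W) ≤ -(1 / (N * W)) * ((z i : ℝ) * κ.E fun p => (p.1 i : ℝ)) := by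
    have a1 : dr / (d * W) ≤ 1 / (N * W) * (dr * nrm z) := by
      rw [one_div_mul_eq_div, div_le_div_iff₀ (by positivity) (by positivity)]
      nlinarith [mul_le_mul_of_nonneg_left e3 (mul_pos hdr hWp).le]
    have a2 := mul_le_mul_of_nonneg_left e2 (by positivity : 0 ≤ 1 / (N * W))
    linarith
  have m2 : d * (L : ℝ) ^ 2 / (2 * N * W) * κ.E (fun _ => 1) ≤ dr / (d * W) / 2 := by
    refine (mul_le_of_le_one_right (by positivity) hκ.2.2).trans ?_
    rw [div_div, div_le_div_iff₀ (by positivity) (by positivity)]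
    nlinarith [mul_le_mul_of_nonneg_left (h1.trans (mul_le_mul_of_nonneg_left hNρ.le hdr.le))
      hWp.le]
  have m3 : nn / N0 - N / W - 3 * ε ≤ (nn / N0 - N / W) * κ.E fun _ => 1 := by
    have : 0 < N / W := by positivity
    obtain ⟨-, a1, a2⟩ := hκ
    rcases le_total 0 (nn / N0 - N / W) with c | c <;> nlinarith
  have m4 : 1 / N0 ≤ dr / (d * W) / 4 := by
    rw [div_div, div_le_div_iff₀ hN0 (by positivity)]; linarith
  have m5 : 5 * ε ≤ dr / (d * W) / 4 := by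
    rw [div_div, le_div_iff₀ (by positivity)]; linarith
  have m6 : (nn + 1) / N0 = nn / N0 + 1 / N0 := add_div _ _ _
  linarith

theorem s_app {d : ℕ} {F : Fr} (hd : 2 ≤ d) (hF : F.Ok)
    :
    S_APP d F := by
  intro B K n pc C C' T dr W ρ M Φ te ub w N0 t y hB hS hC hC' hM hΦ hdr hW hρ hw hwu h1 h2 h3 hu
    hte hy hA hV
  have _ := hF
  have d1 : (1 : ℝ) ≤ d := by exact_mod_cast (by omega : 1 ≤ d)
  have hN0 : (0 : ℝ) < N0 := by
    by_contra h
    have : (N0 : ℝ) = 0 := le_antisymm (not_lt.1 h) (by positivity)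
    rw [this] at h2
    nlinarith [mul_pos (lt_of_lt_of_le one_pos d1) hW]
  have hε := hB.2.2.2.2.2.1
  have key : ∀ nn : ℕ, nn ≤ N0 → ∀ z t', t ≤ t' →
      t' + nn * (T + RR F B n) ≤ t + N0 * (T + RR F B n) →
      Val F B K n (ls n) M Φ (if eu z ≤ ρ ^ 2 then C' else C) {z} t'
        (w * (nn / N0 - √(eu z) / W)) := by
    intro nn
    have le1 : ∀ (m : ℕ) (z : S d), m ≤ N0 → (m : ℝ) / N0 - √(eu z) / W ≤ 1 := fun m z hm => by
      have a1 : (m : ℝ) / N0 ≤ 1 := (div_le_one hN0).2 (by exact_mod_cast hm)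
      have a2 : 0 ≤ √(eu z) / W := by positivity
      linarith
    have ins : ∀ (m : ℕ) (z : S d), m ≤ N0 → 0 < w * ((m : ℝ) / N0 - √(eu z) / W) →
        eu z < W ^ 2 := fun m z hm h => by
      have a0 : 0 < (m : ℝ) / N0 - √(eu z) / W := by
        by_contra c
        exact absurd h (not_lt.2 (mul_nonpos_of_nonneg_of_nonpos hw (not_lt.1 c)))
      have a1 : (m : ℝ) / N0 ≤ 1 := (div_le_one hN0).2 (by exact_mod_cast hm)
      have a2 : √(eu z) < W := (div_lt_one hW).1 (by linarith)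
      exact (Real.sqrt_lt' hW).1 a2
    induction nn with
    | zero =>
      intro _ z t' _ _
      refine Val.nonpos (fun s => (hΦ.1 s).1) (mul_nonpos_of_nonneg_of_nonpos hw ?_)
      have : 0 ≤ √(eu z) / W := by positivity
      simp only [Nat.cast_zero, zero_div]; linarith
    | succ nn ih =>
      intro hn z t' ht1 ht2
      by_cases hz : eu z ≤ ρ ^ 2
      · rw [if_pos hz]
        exact (hV z t' hz ht1 (by omega)).mono (mul_le_of_le_one_right hw (le1 _ z hn))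
      rw [if_neg hz]
      by_cases hp : 0 < w * (((nn + 1 : ℕ) : ℝ) / N0 - √(eu z) / W)
      swap
      · exact Val.nonpos (fun s => (hΦ.1 s).1) (not_lt.1 hp)
      obtain ⟨i, hi⟩ := exists_nrm_eq (by omega) z
      obtain ⟨κ, k1, k2, k3, k4, k5⟩ := hS z i (decide (0 ≤ z i))
      have e : (nn + 1) * (T + RR F B n) = nn * (T + RR F B n) + (T + RR F B n) := by ring
      have st := k5 M Φ te t' ub w (fun p => if eu (z + p.1) ≤ ρ ^ 2 then C' else C)
        (fun p => w * (nn / N0 - √(eu (z + p.1)) / W)) hM hΦ (hu.trans ht1) (by omega)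
        (hA z (ins _ z hn hp)).1 hw hwu
        (fun p _ => mul_le_of_le_one_right hw (le1 nn _ (by omega))) fun p hp' hv => by
          have a := hA _ (ins nn _ (by omega) hv)
          have b := k2 p hp'
          refine ⟨by split_ifs <;> assumption, ?_, ih (by omega) _ _ (by omega) (by omega)⟩
          split_ifs
          · exact a.2
          · rw [← wZ_single]; exact a.1.2.2
      refine st.mono ?_
      rw [Law.E_mul]
      have := app_step (nn := nn) k1 hε.le (fun p hp => (k2 p hp).1) k3 k4 hi d1 hdr hW hρ hN0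
        (not_le.1 hz) h1 h2 h3 ((div_le_one hN0).2 (by exact_mod_cast (by omega : nn ≤ N0)))
      push_cast
      nlinarith [mul_le_mul_of_nonneg_left this hw]
  refine (key N0 le_rfl y t le_rfl le_rfl).mono ?_
  have a1 : √(eu y) ≤ W / 2 := Real.sqrt_le_iff.2 ⟨by positivity, by linarith⟩
  have a2 : √(eu y) / W ≤ 1 / 2 := by rw [div_le_iff₀ hW]; linarith
  rw [div_self hN0.ne']
  nlinarith

end Pool.Agent.Lib.MP_dd0771_pr.Sc
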