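import Pool.Agent.Lib.MP_dd0771_pr.Sc.Kit

open Filter

namespace Pool.Agent.Lib.MP_dd0771_pr.Sc

theorem at_zone {d : ℕ} {G : Md} (A : Finset (Lt d)) {y : S d} {L R V : ℕ} (hLR : L ≤ R)
    (hV : 8 * V ≤ L) (η : Cfg d) (ws : List (Word d))
    (hs : ∀ u w, ws[u]? = some w → Slow G ⟨A, bx y R⟩ V (bx y R) (ms A η (ws.take u)) w)
    (hn : ∀ u, u ≤ ws.length → ∀ x ∈ tj G ⟨A, bx y L⟩ (ini G (bx y L) {y} η) ws u,
      8 * nrm (x - y) < 7 * L) :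
    ∀ u, u ≤ ws.length → acs G ⟨A, bx y L⟩ (ini G (bx y L) {y} η) (ws.take u) =
      acs G ⟨A, bx y R⟩ (ini G (bx y R) {y} η) (ws.take u) := by
  intro u
  induction u with
  | zero =>
    intro _
    have e1 : ({y} : Finset (S d)) ∩ bx y L = {y} :=
      Finset.singleton_inter_of_mem (self_mem_bx y L)
    have e2 : ({y} : Finset (S d)) ∩ bx y R = {y} :=
      Finset.singleton_inter_of_mem (self_mem_bx y R)
    simp only [List.take_zero, acs, List.foldl_nil, ini, e1, e2]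
  | succ u ih =>
    intro hu
    have hlt : u < ws.length := hu
    have hw : ws[u]? = some ws[u] := List.getElem?_eq_getElem hlt
    rw [acs_take_succ _ _ hw, acs_take_succ _ _ hw, ← ih hlt.le]
    refine acw_zone A (bx_mono y hLR) _ _ ?_
    intro i x' hx'
    have h1 : (acs G ⟨A, bx y L⟩ (ini G (bx y L) {y} η) (ws.take u)).1 = ms A η (ws.take u) :=
      acs_fst _ _ _
    have h2 := hs u _ hw
    rw [← h1] at h2
    have h3 : (acs G ⟨A, bx y L⟩ (ini G (bx y L) {y} η) (ws.take u)).2 ⊆ bx y R := by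
      intro x hx
      have := hn u hlt.le x hx
      rw [mem_bx]
      omega
    obtain ⟨x, hx, hd⟩ := Slow.anc h2 h3 i x' hx'
    have h4 := hn u hlt.le x hx
    have h5 := nrm_tri x' x y
    rw [mem_bx]
    omega

theorem at_werr01 {d : ℕ} (G : Md) (K n : ℕ) (h : ℝ) (Y : Sys d) (Q Qd : Finset (S d)) (T : ℕ)
    (η : Cfg d) : pr (wls G Y.A T) (wfl G n h Y Qd η) ≤ werr G K n h Y Q Qd T η ∧
      werr G K n h Y Q Qd T η ≤ 1 := by
  refine ⟨le_min (pr_le_one _ _) ?_, min_le_left _ _⟩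
  have h1 := ind_nonneg (K ≤ mass η Q)
  have h2 : (0 : ℝ) ≤ (mass η Q + 1) * Real.exp (-(n : ℝ) ^ 2 / 2) := by positivity
  linarith

/-- Shrinking the zone. -/
theorem at_shrink {d : ℕ} (G : Md) (K n : ℕ) (h φ : ℝ) (Q : Finset (S d)) (y : S d)
    {L R : ℕ} (T : ℕ) (hLR : L ≤ R) (hV : 8 * VV n ≤ L) :
    wP G K φ Q (bx y R) {y} T (fun I => (I T).Nonempty) ≤
      wP G K φ Q (bx y L) {y} T
        (fun I => (I T).Nonempty ∨ ∃ u, u ≤ T ∧ ∃ x ∈ I u, 7 * L ≤ 8 * nrm (x - y)) +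
      ex (mu G K φ Q) (werr G K n h ⟨al K Q, bx y R⟩ Q ∅ T) := by
  have hb : Bdd (werr G K n h ⟨al K Q, bx y R⟩ Q ∅ T) := Bdd.of01 fun η =>
    ⟨(pr_nonneg _ _).trans (at_werr01 G K n h _ Q ∅ T η).1, (at_werr01 G K n h _ Q ∅ T η).2⟩
  have b1 : Bdd fun η : Cfg d => pr (wls G (al K Q) T) fun ws =>
      (tj G ⟨al K Q, bx y R⟩ (ini G (bx y R) {y} η) ws T).Nonempty :=
    Bdd.pr (fun _ => wls G (al K Q) T) _
  have b2 : Bdd fun η : Cfg d => pr (wls G (al K Q) T) fun ws =>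
      (tj G ⟨al K Q, bx y L⟩ (ini G (bx y L) {y} η) ws T).Nonempty ∨ ∃ u, u ≤ T ∧
        ∃ x ∈ tj G ⟨al K Q, bx y L⟩ (ini G (bx y L) {y} η) ws u, 7 * L ≤ 8 * nrm (x - y) :=
    Bdd.pr (fun _ => wls G (al K Q) T) _
  refine le_trans (ex_mono b1 (b2.add hb) ?_) (le_of_eq (ex_add _ b2 hb))
  intro η _
  refine le_trans (pr_le_add (E2 := wfl G n h ⟨al K Q, bx y R⟩ ∅ η) ?_)
    (add_le_add le_rfl (at_werr01 G K n h ⟨al K Q, bx y R⟩ Q ∅ T η).1)
  intro ws hws hE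
  have hl : ws.length = T := iid_length hws
  by_contra hc
  rw [not_or, not_or] at hc
  obtain ⟨⟨c1, c2⟩, c3⟩ := hc
  have hs : ∀ u w, ws[u]? = some w → Slow G ⟨al K Q, bx y R⟩ (VV n) (bx y R)
      (ms (al K Q) η (ws.take u)) w := by
    intro u w hw
    by_contra hns
    refine c3 ⟨u, ?_, Or.inr ⟨w, hw, hns⟩⟩
    exact (List.getElem?_eq_some_iff.1 hw).1.le
  have hn : ∀ u, u ≤ ws.length → ∀ x ∈ tj G ⟨al K Q, bx y L⟩ (ini G (bx y L) {y} η) ws u,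
      8 * nrm (x - y) < 7 * L := by
    intro u hu x hx
    by_contra hlt
    exact c2 ⟨u, hl ▸ hu, x, hx, not_lt.1 hlt⟩
  have key := at_zone (al K Q) hLR hV η ws hs hn T hl.ge
  apply c1
  unfold tj at hE ⊢
  rw [key]
  exact hE

theorem at_transl {d : ℕ} {F : Fr} (hS : S_SYM d F) (K : ℕ) (φ : ℝ) (R T : ℕ) (y : S d) :
    alv d F.toMd K (φ, R) T =
      wP F.toMd K φ (bx y (2 * R)) (bx y R) {y} T (fun I => (I T).Nonempty) := by
  have h := hS K φ y 0 1 (fun _ => true) (2 * R) R T (fun I => ind (I T).Nonempty) (by omega)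
  simp only [Finset.image_nonempty] at h
  exact h

theorem s_at {d : ℕ} {F : Fr} (hd : 2 ≤ d) (hF : F.Ok) (hL : Low d F)
    (hAL : S_AL d F) :
    S_AT d F := by
  intro B hB
  filter_upwards [hAL B hB, hL.hWERR B hB, hL.hDOM B hB, hL.hCHN, scales hF B, le_of_Lmin hF B,
    card_le (d := d) (by omega), eventually_ge_atTop 2] with n h1 h2 h3 h4 h5 h6 h7 h8 K hK
  intro C y T c1 c2 c3 c4 c5
  obtain ⟨φ, L⟩ := C
  simp only at c1 c2 c3 c4
  obtain ⟨b1, b2, b3, b4, b5, b6, b7, b8⟩ := id hB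
  obtain ⟨s1', -, s3, -⟩ := h5
  obtain ⟨-, -, -, l4⟩ := h6 L c3
  have hn2 : n ≤ 2 ^ (n + 1) := (Nat.lt_two_pow_self.le).trans
    (Nat.pow_le_pow_right (by omega) (by omega))
  have hT : B.n0 + T ≤ 2 ^ (n + 1) := by omega
  have hLR : L ≤ 2 ^ (4 * n) := c4.trans (Nat.pow_le_pow_right (by omega) (by omega))
  have hT4 : B.n0 + T ≤ 2 ^ (4 * n) := hT.trans (Nat.pow_le_pow_right (by omega) (by omega))
  have hTT : 4 * (B.n0 + T) ^ 2 ≤ 2 ^ (4 * n) := by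
    calc 4 * (B.n0 + T) ^ 2 ≤ 4 * (2 ^ (n + 1)) ^ 2 :=
          Nat.mul_le_mul_left _ (Nat.pow_le_pow_left hT 2)
      _ = 2 ^ (2 * n + 4) := by ring
      _ ≤ 2 ^ (4 * n) := Nat.pow_le_pow_right (by omega) (by omega)
  have hVn : 8 * (VV n * B.n0) ≤ DD F n := by
    refine le_trans ?_ s3
    rw [← Nat.mul_assoc]
    exact Nat.mul_le_mul_left _ (by omega)
  have hV1 : VV n ≤ VV n * B.n0 := Nat.le_mul_of_pos_right _ b8
  have hDD : 0 < DD F n := Nat.pow_pos (by omega)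
  have hp1 : B.p 1 = B.pa + B.g := by simp [Bs.p]
  have hp4 : B.pa ≤ B.p 4 := by
    have : B.p 4 = B.pa + 4 * B.g := by simp [Bs.p]
    linarith
  have hcard : (bx y (2 * 2 ^ (4 * n))).card ≤ 2 ^ (5 * n * d) := by
    rw [card_bx]
    refine le_trans ?_ h7
    have : 2 * (2 * 2 ^ (4 * n)) + 1 ≤ 2 ^ (4 * n + 3) + 1 := by
      have : 2 ^ (4 * n + 3) = 8 * 2 ^ (4 * n) := by ring
      omega
    have := Nat.pow_le_pow_left this d
    omega
  have a1 := (h1 K hK (B.pa, 2 ^ (4 * n)) le_rfl hp4 (by simp only; omega) le_rfl).2 _ hTT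
  rw [at_transl hL.hSYM K _ _ _ y] at a1
  have a2 := at_shrink F.toMd K n (hh F B K B.pa) B.pa (bx y (2 * 2 ^ (4 * n))) y (B.n0 + T) hLR
    (by omega)
  have a3 := h2 K hK B.pa B.pa (bx y (2 * 2 ^ (4 * n))) (bx y (2 ^ (4 * n))) ∅ (B.n0 + T) le_rfl
    hp4 b1 (by linarith) (bx_mono y (by omega)) (Finset.empty_subset _) hcard hT
  have a4 := h3 K hK B.pa φ (bx y (2 * 2 ^ (4 * n))) (bx y (2 * L)) (bx y L) (bx y L) {y} {y} L
    (B.n0 + T) (fun I => (I (B.n0 + T)).Nonempty ∨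
      ∃ u, u ≤ B.n0 + T ∧ ∃ x ∈ I u, 7 * L ≤ 8 * nrm (x - y)) le_rfl hp4 (by linarith) c2
    (by rw [wQ_single]; exact bx_mono y (by omega)) (by rw [wQ_single])
    (by rw [wZ_single]) subset_rfl (by simp) hcard (by omega) c4 hT (by
      rintro I J hIJ (h | ⟨u, hu, x, hx, h⟩)
      · exact Or.inl (h.mono (hIJ _))
      · exact Or.inr ⟨u, hu, x, hIJ u hx, h⟩)
  have a5 := h4 K φ (bx y (2 * L)) (bx y L) {y} (B.n0 + T) ⟨hK.1, by linarith, c2⟩ (by simp) hT4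
  have a6 : wP F.toMd K φ (bx y (2 * L)) (bx y L) {y} (B.n0 + T)
      (fun I => (I (B.n0 + T)).Nonempty ∨
        ∃ u, u ≤ B.n0 + T ∧ ∃ x ∈ I u, 7 * L ≤ 8 * nrm (x - y)) ≤
      wP F.toMd K φ (bx y (2 * L)) (bx y L) {y} (B.n0 + T) (fun I => Chn (VV n) (B.n0 + T) I ∧
        ((I (B.n0 + T)).Nonempty ∨
          ∃ u, B.n0 ≤ u ∧ u ≤ B.n0 + T ∧ ∃ x ∈ I u, 7 * L ≤ 8 * nrm (x - y))) +
      wP F.toMd K φ (bx y (2 * L)) (bx y L) {y} (B.n0 + T)
        (fun I => ¬ Chn (VV n) (B.n0 + T) I) := by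
    refine wP_le_add ?_
    intro I hI hE
    by_cases hc : Chn (VV n) (B.n0 + T) I
    · refine Or.inl ⟨hc, hE.imp id ?_⟩
      rintro ⟨u, hu, x, hx, h⟩
      refine ⟨u, ?_, hu, x, hx, h⟩
      by_contra hlt
      obtain ⟨γ, g1, g2, g3⟩ := hc.chain hu hx
      have g0 : γ 0 = y := Finset.mem_singleton.1 (hI.1 (g2 0 (Nat.zero_le _)))
      have g4 := g3 0 u
      rw [g1, g0, Nat.zero_max, Nat.zero_min, Nat.sub_zero] at g4
      have g5 : VV n * u ≤ VV n * B.n0 := Nat.mul_le_mul_left _ (by omega)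
      omega
    · exact Or.inr hc
  obtain ⟨e0, -, e1⟩ := er_le_e2 n
  have e3 : (4 : ℝ) ≤ 2 ^ (2 * n) := by
    calc (4 : ℝ) = 2 ^ 2 := by norm_num
      _ ≤ 2 ^ (2 * n) := pow_le_pow_right₀ (by norm_num) (by omega)
  have e4 : 4 * er n ≤ e2 n := by
    rw [← e1]
    exact mul_le_mul_of_nonneg_right e3 e0.le
  unfold cP
  simp only
  linarith

end Pool.Agent.Lib.MP_dd0771_pr.Sc
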