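import Pool.Agent.Lib.MP_dd0771_pr.Sc.BaseB

/-! The base data: a pigeonhole over the fugacity for the survival level. -/

open Filter Topology

namespace Pool.Agent.Lib.MP_dd0771_pr.Sc

theorem base_scale {F : Fr} (hF : F.Ok) {n R0 R T : ℕ} (hn : 2 ^ (2 * F.A + 4) ≤ n)
    (h0 : DD F n ≤ R0) (h : (R0 + T) ^ 2 ≤ R) : ∃ m, n ≤ m ∧ T ≤ 2 * s1 F m ∧ DD F m ≤ R := by
  have a3 : 3 ≤ F.A := hF.2.2.2.2.2.2
  have key (k) (e : T ≤ 2 * s1 F (n + k)) : ∃ m, n ≤ m ∧ T ≤ 2 * s1 F m ∧ DD F m ≤ R := by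
    induction k with
    | zero => exact ⟨n, le_rfl, e, by nlinarith⟩
    | succ k ih =>
      rcases le_or_gt T (2 * s1 F (n + k)) with c | c
      · exact ih c
      have p : 1 ≤ n + k := le_trans Nat.one_le_two_pow (hn.trans (n.le_add_right k))
      refine ⟨_, by omega, e, ?_⟩
      calc _ ≤ (2 * (n + k)) ^ (2 * F.A + 4) := Nat.pow_le_pow_left (by omega) _
        _ ≤ (n + k) * (n + k) ^ (2 * F.A + 4) := by
          rw [mul_pow]
          exact Nat.mul_le_mul_right _ (by omega)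
        _ ≤ (n + k) ^ (2 * F.A * 2) := by
          rw [← pow_succ']
          exact Nat.pow_le_pow_right p (by omega)
        _ = s1 F (n + k) ^ 2 := by rw [s1, ← pow_mul, ← pow_mul, mul_assoc]
        _ ≤ _ := (Nat.pow_le_pow_left (by omega) 2).trans h
  refine key T (le_trans ?_ (Nat.le_mul_of_pos_left _ two_pos))
  rw [s1, ← pow_mul]
  exact le_trans (by omega) (Nat.le_self_pow (by omega) _)

theorem s_base {d : ℕ} {F : Fr} (hd : 2 ≤ d) (hF : F.Ok) (hL : Low d F)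
    (hTH : S_TH d F) :
    S_BASE d F := by
  intro e e0 e1
  obtain ⟨θ0, t0, hθ⟩ := hTH
  have lh : F.lo < F.hi := hF.2.2.2.2.2.1
  choose! a ha using fun φ (h : F.lo ≤ φ ∧ φ ≤ F.hi) => base_lim (d := d) hF h.1 h.2
  have mono (φ φ') (h : F.lo ≤ φ) (k : φ ≤ φ') (h' : φ' ≤ F.hi) (R T T') (t : T' ≤ T) :
      a φ R T ≤ a φ' R T' := by
    refine le_of_tendsto_of_tendsto (ha φ ⟨h, k.trans h'⟩ R T) (ha φ' ⟨h.trans k, h'⟩ R T') ?_
    filter_upwards [kOk_eventually hF] with K hK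
    refine le_trans (hL.hMONO K φ φ' _ _ _ _ _ T (fun I => (I T).Nonempty) ⟨hK, h, k.trans h'⟩
      ⟨hK, h.trans k, h'⟩ k subset_rfl subset_rfl fun I J u v => v.mono (u T))
      (le_trans (wP_mono fun I r v => ?_) (wP_horizon (E := fun I => (I T').Nonempty) t
        fun I J u v => u T' le_rfl ▸ v).le)
    exact Nat.decreasingInduction (motive := fun u _ => (I u).Nonempty) (fun u _ => r.2.2 u) v t
  let U (φ : ℝ) : Set ℝ := {x | ∃ T, ∀ᶠ R in atTop, a φ R T ≤ x}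
  have u1 (φ) (h : F.lo ≤ φ ∧ φ ≤ F.hi) : (1 : ℝ) ∈ U φ :=
    ⟨0, .of_forall fun R => le_of_tendsto' (ha φ h R 0) fun K => by
      rw [alv, cP]
      exact wP_le_one _⟩
  have u0 (φ) (h : F.lo ≤ φ ∧ φ ≤ F.hi) : θ0 ∈ lowerBounds (U φ) := fun x ⟨T, hT⟩ => by
    obtain ⟨R, p, q⟩ := (hT.and (hθ T)).exists
    exact (ge_of_tendsto (ha _ ⟨le_rfl, lh.le⟩ R T) q).trans
      ((mono _ _ le_rfl h.1 h.2 R T T le_rfl).trans p)
  obtain ⟨N, hN⟩ := pow_unbounded_of_one_lt (1 / θ0) (by linarith : 1 < 1 + e)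
  set g := (F.hi - F.lo) / (5 * (N + 1)) with hg
  have g0 : 0 < g := div_pos (by linarith) (by positivity)
  have g1 : F.lo + (N + 1) * (5 * g) = F.hi := by
    rw [hg]
    field_simp
    ring
  have r (k : ℕ) (h : k ≤ N + 1) : F.lo ≤ F.lo + k * (5 * g) ∧ F.lo + k * (5 * g) ≤ F.hi :=
    ⟨le_add_of_nonneg_right (by positivity), by
      rw [← g1]
      gcongr
      exact_mod_cast h⟩
  obtain ⟨k, hk, h⟩ : ∃ k : ℕ, k < N ∧ sInf (U (F.lo + (k + 1 : ℕ) * (5 * g))) <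
      sInf (U (F.lo + k * (5 * g))) * (1 + e) := by
    by_contra! c
    have (k : ℕ) (h : k ≤ N) : θ0 * (1 + e) ^ k ≤ sInf (U (F.lo + k * (5 * g))) := by
      induction k with
      | zero => simpa using le_csInf ⟨1, u1 _ ⟨le_rfl, lh.le⟩⟩ (u0 _ ⟨le_rfl, lh.le⟩)
      | succ k ih =>
        rw [pow_succ, ← mul_assoc]
        exact (mul_le_mul_of_nonneg_right (ih (by omega)) (by linarith)).trans (c k h)
    have := (this N le_rfl).trans (csInf_le ⟨_, u0 _ (r N N.le_succ)⟩ (u1 _ (r N N.le_succ)))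
    rw [div_lt_iff₀ t0] at hN
    linarith
  have rk := r k (by omega)
  have rs := r (k + 1) (by omega)
  set pa := F.lo + k * (5 * g)
  set th := sInf (U pa)
  have es : F.lo + (k + 1 : ℕ) * (5 * g) = pa + 5 * g := by
    push_cast
    ring
  rw [es] at h rs
  have th0 : 0 < th := t0.trans_le (le_csInf ⟨1, u1 _ rk⟩ (u0 _ rk))
  obtain ⟨x, ⟨T0, hx⟩, xl⟩ := exists_lt_of_csInf_lt ⟨1, u1 _ rs⟩ h
  obtain ⟨R1, hR⟩ := eventually_atTop.1 hx
  obtain ⟨n, n2, n1⟩ := ((eventually_ge_atTop (2 ^ (2 * F.A + 4))).and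
    (eventually_forall_ge_atTop.2 ((base_loc hF hL).and
      ((tendsto_pow_atTop_nhds_zero_of_lt_one (r := (1 / 2 : ℝ)) (by norm_num)
        (by norm_num)).eventually_le_const (by positivity : 0 < th * e / 8))))).exists
  refine ⟨⟨pa, g, th, e, T0 + 1, max R1 (DD F n)⟩, ⟨rk.1, g0, rs.2, th0,
    csInf_le ⟨_, u0 _ rk⟩ (u1 _ rk), e0, e1, Nat.le_add_left _ _⟩, rfl, fun j => ?_⟩
  refine (kOk_eventually hF).and ((eventually_ge_atTop _).and
    ((eventually_all_finite (Set.finite_le_nat _)).2 fun R _ => Eventually.and ?_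
      ((eventually_all_finite ((Set.finite_le_nat R).subset fun T (c : (_ + T) ^ 2 ≤ R) =>
        le_trans (Nat.le_add_left _ _) ((Nat.le_self_pow two_ne_zero _).trans c))).2
          fun T c => ?_)))
  · refine eventually_imp_distrib_left.2 fun c => ?_
    have p4 : pa ≤ pa + (4 : ℕ) * g ∧ pa + (4 : ℕ) * g ≤ pa + 5 * g := by
      push_cast
      constructor <;> linarith
    exact (ha _ ⟨rk.1.trans p4.1, p4.2.trans rs.2⟩ R _).eventually_le_const
      ((mono _ _ (rk.1.trans p4.1) p4.2 rs.2 R _ T0 T0.le_succ).trans_lt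
        ((hR R ((le_max_left _ _).trans c)).trans_lt xl))
  · obtain ⟨m, m1, m2, m3⟩ := base_scale hF n2 (le_max_right _ _) c
    have loc (R) (c : DD F m ≤ R) : |a pa R T - a pa (DD F m) T| ≤ 2 * (1 / 2) ^ m :=
      le_of_tendsto ((ha _ rk R T).sub (ha _ rk _ T)).abs ((kOk_eventually hF).mono fun K hK =>
        (n1 m m1).1 K pa R T ⟨hK, rk⟩ c m2)
    have : ¬ ∀ᶠ R in atTop, a pa R T ≤ th * (1 - e / 4) := fun c => by
      nlinarith [csInf_le ⟨_, u0 _ rk⟩ (show _ ∈ U pa from ⟨T, c⟩), mul_pos th0 e0]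
    obtain ⟨R', p, q⟩ := ((not_eventually.1 this).and_eventually
      (eventually_ge_atTop (DD F m))).exists
    refine (ha _ rk R T).eventually_const_le ?_
    have u := abs_le.1 (loc R m3)
    have v := abs_le.1 (loc R' q)
    change th * (1 - e) < _
    nlinarith [(n1 m m1).2, mul_pos th0 e0]

end Pool.Agent.Lib.MP_dd0771_pr.Sc
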