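import Pool.Agent.Lib.MP_dd0771_pr.Sc.Kit

/-! The survival probability up to a short time hardly depends on the size of the world. -/

open Filter

namespace Pool.Agent.Lib.MP_dd0771_pr.Sc

variable {d : ℕ} {F : Fr} {G : Md}

/-- Some window is not slow. -/
def baseNs (G : Md) (Y : Sys d) (V : ℕ) (B : Finset (S d)) (η : Cfg d) (ws : List (Word d)) : Prop :=
  ∃ u w, ws[u]? = some w ∧ ¬ Slow G Y V B (ms Y.A η (ws.take u)) w

theorem base_slow (hS : S_STAT d F) (hL : S_SLOW d F) : ∀ᶠ n : ℕ in atTop,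
    ∀ K φ (Q Z B : Finset (S d)) T, KP F K φ →
      (ex (mu F.toMd K φ Q) fun η => pr (wls F.toMd (al K Q) T)
        (baseNs F.toMd ⟨al K Q, Z⟩ (VV n) B η)) ≤ T * B.card * Real.exp (-(n : ℝ) ^ 2 / 2) := by
  filter_upwards [hL] with n hn K φ Q Z B T hK
  let E (p : ℕ × S d) (η : Cfg d) (ws : List (Word d)) : Prop := ∃ w, ws[p.1]? = some w ∧
    ¬ Slow F.toMd ⟨al K Q, Z⟩ (VV n) {p.2} (ms (al K Q) η (ws.take p.1)) w
  have k (p) (hp : p ∈ Finset.range T ×ˢ B) : (ex (mu F.toMd K φ Q) fun η =>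
      pr (wls F.toMd (al K Q) T) (E p η)) ≤ Real.exp (-(n : ℝ) ^ 2 / 2) := by
    refine le_of_eq_of_le ?_ (hn K φ Q Z p.2 hK)
    conv_rhs => rw [← (hS K φ Q hK).2.1 p.1, ex_bind _ _ (Bdd.pr _ _)]
    refine ex_congr fun η _ => ?_
    rw [ex_map _ _ (Bdd.pr _ _)]
    refine Eq.trans (ex_congr fun ws _ => ?_) (ex_iid_get (wl F.toMd (al K Q))
      (Finset.mem_range.1 (Finset.mem_product.1 hp).1) (f := fun l w =>
        ind (¬ Slow F.toMd ⟨al K Q, Z⟩ (VV n) {p.2} (ms (al K Q) η l) w)) (Bdd.ind _))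
    cases e : ws[p.1]? with
    | none => exact ind_neg fun ⟨w, a, _⟩ => by simp [e] at a
    | some w => exact congrArg ind (by simp [E, e])
  calc _ ≤ ex (mu F.toMd K φ Q) fun η => ∑ p ∈ Finset.range T ×ˢ B,
        pr (wls F.toMd (al K Q) T) (E p η) := by
        refine ex_mono (Bdd.pr _ _) ⟨(Finset.range T ×ˢ B).card, fun η => ?_⟩ fun η _ =>
          le_trans (pr_mono ?_) (pr_union_le _ _ fun p => E p η)
        · rw [abs_of_nonneg (Finset.sum_nonneg fun _ _ => pr_nonneg _ _)]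
          simpa using Finset.sum_le_card_nsmul (Finset.range T ×ˢ B)
            (fun p => pr (wls F.toMd (al K Q) T) (E p η)) 1 fun p _ => pr_le_one _ _
        · rintro ws a ⟨u, w, b, c⟩
          rw [slow_iff] at c
          push Not at c
          obtain ⟨x, c, e⟩ := c
          exact ⟨(u, x), Finset.mem_product.2 ⟨Finset.mem_range.2
            (iid_length a ▸ (List.getElem?_eq_some_iff.1 b).1), c⟩, w, b, e⟩
    _ ≤ ∑ p ∈ Finset.range T ×ˢ B, Real.exp (-(n : ℝ) ^ 2 / 2) := by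
        rw [ex_sum _ _ fun p _ => Bdd.pr _ _]
        exact Finset.sum_le_sum k
    _ = _ := by simp

theorem base_zone {A : Finset (Lt d)} {Z Z' : Finset (S d)} {V D : ℕ} (hZ : Z ⊆ Z')
    (hD : bx 0 D ⊆ Z) {σ : St d} (h0 : σ.2 ⊆ {0}) {ws : List (Word d)} (hV : V * ws.length ≤ D)
    (h : ¬ baseNs G ⟨A, Z'⟩ V (bx 0 D) σ.1 ws) (u : ℕ) (hu : u ≤ ws.length) :
    acs G ⟨A, Z⟩ σ (ws.take u) = acs G ⟨A, Z'⟩ σ (ws.take u) ∧
      (acs G ⟨A, Z'⟩ σ (ws.take u)).2 ⊆ bx 0 (V * u) := by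
  induction u with
  | zero => exact ⟨rfl, h0.trans (Finset.singleton_subset_iff.2 (self_mem_bx _ _))⟩
  | succ u ih =>
    obtain ⟨a, b⟩ := ih (by omega)
    have e : ws[u]? = some ws[u] := List.getElem?_eq_getElem hu
    have l : V * (u + 1) ≤ D := (Nat.mul_le_mul_left _ hu).trans hV
    have s : Slow G ⟨A, Z'⟩ V (bx 0 D) (acs G ⟨A, Z'⟩ σ (ws.take u)).1 ws[u] := by
      rw [acs_fst]
      exact not_not.1 fun c => h ⟨u, _, e, c⟩
    have k (i) : (acw G ⟨A, Z'⟩ (acs G ⟨A, Z'⟩ σ (ws.take u)) (ws[u].take i)).2 ⊆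
        bx 0 (V * (u + 1)) := fun x' c => by
      obtain ⟨x, p, q⟩ := s.anc (b.trans (bx_mono _ (by rw [Nat.mul_succ] at l; omega))) i x' c
      have := nrm_tri x' x 0
      have := mem_bx.1 (b p)
      rw [mem_bx, Nat.mul_succ]
      omega
    rw [acs_take_succ _ _ e, acs_take_succ _ _ e, a]
    exact ⟨acw_zone A hZ _ _ fun i => (k i).trans ((bx_mono _ l).trans hD),
      by simpa using k ws[u].length⟩

theorem baseNs_flt {Y : Sys d} {V : ℕ} {B : Finset (S d)} {η : Cfg d} {ws : List (Word d)}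
    (h : baseNs G Y V B η ws) : baseNs G Y V B η (flt Y.A ws) := by
  obtain ⟨u, w, a, b⟩ := h
  refine ⟨u, w.filter fun a => a ∈ Y.A, by simp [flt, a], fun c => b fun x p i x' q => ?_⟩
  rw [flt_take, ms_flt subset_rfl] at c
  rw [← acw_filter Y subset_rfl, List.prefix_iff_eq_take.1 ((List.take_prefix i w).filter _)] at q
  exact c x p _ x' q

theorem base_pr (hF : F.Ok) {A B : Finset (Lt d)} (h : B ⊆ A) (T : ℕ) (E : List (Word d) → Prop) :
    pr (wls F.toMd B T) E = pr (wls F.toMd A T) fun ws => E (flt B ws) := by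
  rw [← wls_flt hF h, pr_map]

theorem base_poly (C : ℝ) (N : ℕ) : ∀ᶠ n : ℕ in atTop,
    C * ((n : ℝ) + 1) ^ N * Real.exp (-(n : ℝ) ^ 2 / 2) ≤ (1 / 2) ^ n := by
  filter_upwards [tendsto_natCast_atTop_atTop.eventually_ge_atTop (max C (2 * (N + 2) : ℝ))]
    with n hn
  have a := Real.add_one_le_exp (n : ℝ)
  have n0 : (0 : ℝ) ≤ n := n.cast_nonneg
  calc _ ≤ Real.exp n * Real.exp n ^ N * Real.exp (-(n : ℝ) ^ 2 / 2) := by
        gcongr
        linarith [le_max_left C (2 * (N + 2) : ℝ)]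
    _ = Real.exp (n + N * n + -(n : ℝ) ^ 2 / 2) := by
        rw [← Real.exp_nat_mul, ← Real.exp_add, ← Real.exp_add]
    _ ≤ Real.exp (n * (-1)) := Real.exp_le_exp.2 (by
        nlinarith [mul_le_mul_of_nonneg_right ((le_max_right _ _).trans hn) n0])
    _ ≤ _ := by
        rw [Real.exp_nat_mul]
        gcongr
        rw [Real.exp_neg, one_div]
        gcongr
        linarith [Real.add_one_le_exp (1 : ℝ)]

theorem base_ini {Z : Finset (S d)} (h : (0 : S d) ∈ Z) (η : Cfg d) :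
    ini G Z {0} η = (η, ({0} : Finset (S d)).filter fun x => G.j ≤ η x) := by
  rw [ini, Finset.inter_eq_left.2 (Finset.singleton_subset_iff.2 h)]

theorem base_loc1 (hF : F.Ok) (hL : Low d F) : ∀ᶠ n : ℕ in atTop, ∀ K φ R R' T, KP F K φ →
    DD F n ≤ R → DD F n ≤ R' → R' ≤ DD F (n + 1) → T ≤ 2 * s1 F n →
      alv d F.toMd K (φ, R') T ≤ alv d F.toMd K (φ, R) T + (1 / 2) ^ n := by
  obtain ⟨C, c1, hC⟩ := sl_mean hF
  filter_upwards [base_slow hL.hSTAT hL.hSLOW, hL.hTRK0, eventually_ge_atTop 2,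
    base_poly ((5 + C) * 5 ^ d) ((2 * F.A + 4) * (d + 1))] with n hs ht n2 hp K φ R R' T hK a b c e
  have D1 : 1 ≤ DD F n := Nat.one_le_pow _ _ (by omega)
  have vt : VV n * T ≤ DD F n := by
    calc _ ≤ n ^ 3 * (n * (n ^ 2) ^ F.A) :=
          Nat.mul_le_mul_left _ (e.trans (Nat.mul_le_mul_right _ n2))
      _ = _ := by rw [DD]; ring
  set Q1 := bx (0 : S d) (2 * R') with q1
  set Q2 := bx (0 : S d) (2 * R) with q2
  set Z := bx (0 : S d) (DD F n) with z
  have z1 : Z ⊆ bx 0 R' := bx_mono _ b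
  have z2 : Z ⊆ bx 0 R := bx_mono _ a
  have A1 : al K Q1 ⊆ al K (Q1 ∪ Q2) := al_mono K Finset.subset_union_left
  have A2 : al K Q2 ⊆ al K (Q1 ∪ Q2) := al_mono K Finset.subset_union_right
  obtain ⟨r, r1, r2, r3⟩ := pc_couple Q1 Q2 (fun _ => sl F.toMd K φ 0) (fun _ => sl F.toMd K φ 0)
    fun _ _ _ _ => le_rfl
  obtain ⟨m1, m2⟩ := ex_pc_mass Q1 Q1 (fun _ => sl F.toMd K φ 0) (by linarith : 0 ≤ C)
    fun _ _ => hC K φ 0 hK (by omega)
  let al' (Q : Finset (S d)) (L : ℕ) (η : Cfg d) : ℝ := pr (wls F.toMd (al K Q) T) fun ws =>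
    (tj F.toMd ⟨al K Q, bx 0 L⟩ (ini F.toMd (bx 0 L) {0} η) ws T).Nonempty
  let ns (Z' : Finset (S d)) (η : Cfg d) : ℝ :=
    pr (wls F.toMd (al K Q1) T) (baseNs F.toMd ⟨al K Q1, Z'⟩ (VV n) Z η)
  let tr (η : Cfg d) : ℝ := min 1 ((mass η Q1 + 1) * Real.exp (-(n : ℝ) ^ 3))
  have tb : Bdd tr := Bdd.of01 fun η => ⟨by positivity, min_le_left _ _⟩
  have key (p) (hp : p ∈ r.support) :
      al' Q1 R' p.1 ≤ al' Q2 R p.2 + (ns (bx 0 R') p.1 + (ns Z p.1 + tr p.1)) := by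
    have le (x) (hx : x ∈ Z) : p.1 x ≤ p.2 x :=
      r3 p hp x (bx_mono _ (by omega) hx) (bx_mono _ (by omega) hx)
    have s0 : (ini F.toMd Z {0} p.1).2 ⊆ {0} := by
      rw [base_ini (self_mem_bx _ _)]
      exact Finset.filter_subset _ _
    have t := ht (al K (Q1 ∪ Q2)) ⟨al K Q1, Z⟩ ⟨al K Q2, bx 0 R⟩ Q1 (DD F n) T
      (ini F.toMd Z {0} p.1) (ini F.toMd (bx 0 R) {0} p.2) A1 A2 (closed_al K Q1)
      (fun _ _ _ _ h => z2 h) (reg_ini _ _ _)
      (by
        rw [base_ini (self_mem_bx _ _), base_ini (self_mem_bx _ _)]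
        intro x hx
        obtain ⟨u, v⟩ := Finset.mem_filter.1 hx
        obtain rfl := Finset.mem_singleton.1 u
        exact Finset.mem_filter.2 ⟨u, v.trans (le _ (self_mem_bx _ _))⟩) le_rfl e
      fun x hx => by
        obtain rfl := Finset.mem_singleton.1 (s0 hx)
        exact ⟨bx_mono _ (by omega), al_agree K (bx_mono _ (by omega)) (bx_mono _ (by omega)), le⟩
    replace t := le_min (pr_le_one _ _) (t.trans (show _ ≤ (mass p.1 Q1 + 1 : ℝ) *
      Real.exp (-(n : ℝ) ^ 3) by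
        rw [mul_assoc]
        exact mul_le_of_le_one_left (by positivity)
          (by exact_mod_cast (Finset.card_le_card s0).trans_eq (Finset.card_singleton _))))
    simp only [al', ns, base_pr hF A1, base_pr hF A2, tj_flt _ subset_rfl]
    refine le_trans ((pr_le_add fun ws hw h => ?_).trans (add_le_add_right ((pr_or_le _ _ _).trans
      (add_le_add_right (pr_or_le _ _ _) _)) _)) (by gcongr)
    by_contra! k
    obtain ⟨k1, k2, k3, k4⟩ := k
    have l := iid_length hw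
    have y := (base_zone (A := al K Q1) z1 subset_rfl s0 (l ▸ vt) (fun c => k2 (baseNs_flt c)) T
      l.ge).1
    have := (k4 (fun u w c => (not_not.1 fun f => k3 (baseNs_flt ⟨u, w, c, f⟩)).mono
      Finset.inter_subset_right) T le_rfl).1
    rw [base_ini (self_mem_bx _ _), ← base_ini (Z := Z) (self_mem_bx _ _), tj, ← y] at h
    exact (h.mono this).ne_empty k1
  have b1 (Q L) : Bdd (al' Q L) := Bdd.pr _ _
  have b2 (Z') : Bdd (ns Z') := Bdd.pr _ _
  have f := ex_mono ((b1 Q1 R').comp Prod.fst) (((b1 Q2 R).comp Prod.snd).add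
    (((b2 _).add ((b2 _).add tb)).comp Prod.fst)) key
  rw [ex_add _ ((b1 Q2 R).comp Prod.snd) (((b2 _).add ((b2 _).add tb)).comp Prod.fst),
    ← ex_map r _ (b1 Q1 R'), ← ex_map r _ (b1 Q2 R), ← ex_map r _ ((b2 _).add ((b2 _).add tb)),
    r1, r2, ex_add _ (b2 _) ((b2 _).add tb), ex_add _ (b2 _) tb] at f
  refine le_trans f (add_le_add_right (le_trans ?_ hp) _)
  have g : ex (pc Q1 fun _ => sl F.toMd K φ 0) tr ≤ (C * Q1.card + 1) * Real.exp (-(n : ℝ) ^ 3) := by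
    have s1 := ex_summable (pc Q1 fun _ => sl F.toMd K φ 0) (Bdd.const 1)
    refine (ex_mono' (g := fun η => (mass η Q1 + 1) * Real.exp (-(n : ℝ) ^ 3))
      (((m1.add s1).mul_right _).congr fun η => by ring) (fun _ _ => by positivity)
      fun _ _ => min_le_right _ _).trans ?_
    rw [ex_mul_right]
    refine mul_le_mul_of_nonneg_right ?_ (by positivity)
    have := ex_const (pc Q1 fun _ => sl F.toMd K φ 0) 1
    simp only [ex, mul_add] at m2 this ⊢
    rw [m1.tsum_add s1]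
    linarith
  set P : ℝ := ((n : ℝ) + 1) ^ (2 * F.A + 4) with hP
  have p1 : (DD F (n + 1) : ℝ) = P := by simp [DD, hP]
  have p2 : (R' : ℝ) ≤ P := p1 ▸ Nat.cast_le.2 c
  have p3 : (1 : ℝ) ≤ P := le_trans (by exact_mod_cast D1.trans b) p2
  have p4 : (T : ℝ) ≤ P := le_trans (Nat.cast_le.2 (le_trans (le_trans
    (Nat.le_mul_of_pos_left _ (Nat.pow_pos (by omega))) vt) b)) p2
  have p5 : (Q1.card : ℝ) ≤ (5 * P) ^ d := by
    rw [card_bx]
    push_cast
    gcongr
    linarith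
  have p6 : (Z.card : ℝ) ≤ (5 * P) ^ d :=
    le_trans (Nat.cast_le.2 (Finset.card_le_card (bx_mono _ (by omega)))) p5
  have p7 : (1 : ℝ) ≤ (5 * P) ^ d := one_le_pow₀ (by linarith)
  have p8 : Real.exp (-(n : ℝ) ^ 3) ≤ Real.exp (-(n : ℝ) ^ 2 / 2) := Real.exp_le_exp.2 (by
    have : (2 : ℝ) ≤ n := by exact_mod_cast n2
    nlinarith [sq_nonneg (n : ℝ)])
  calc _ ≤ P * (5 * P) ^ d * Real.exp (-(n : ℝ) ^ 2 / 2) + (P * (5 * P) ^ d *
        Real.exp (-(n : ℝ) ^ 2 / 2) + (C * (P * (5 * P) ^ d) + 3 * (P * (5 * P) ^ d)) *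
          Real.exp (-(n : ℝ) ^ 2 / 2)) := by
        refine add_le_add ((hs K φ Q1 _ Z T hK).trans (by gcongr))
          (add_le_add ((hs K φ Q1 _ Z T hK).trans (by gcongr)) (g.trans ?_))
        gcongr
        · nlinarith
        · nlinarith
    _ = _ := by rw [pow_mul, ← hP, mul_pow]; ring

theorem base_loc (hF : F.Ok) (hL : Low d F) : ∀ᶠ n : ℕ in atTop, ∀ K φ R T, KP F K φ →
    DD F n ≤ R → T ≤ 2 * s1 F n →
      |alv d F.toMd K (φ, R) T - alv d F.toMd K (φ, DD F n) T| ≤ 2 * (1 / 2) ^ n := by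
  obtain ⟨n1, h⟩ := eventually_atTop.1 (base_loc1 hF hL)
  filter_upwards [eventually_ge_atTop n1] with n hn K φ R T hK a b
  have md {x y : ℕ} (e : x ≤ y) : DD F x ≤ DD F y := Nat.pow_le_pow_left e _
  have one (m R) (c : n ≤ m) (e : DD F m ≤ R) (f : R ≤ DD F (m + 1)) :
      |alv d F.toMd K (φ, R) T - alv d F.toMd K (φ, DD F m) T| ≤ (1 / 2) ^ m := by
    have t : T ≤ 2 * s1 F m := b.trans (Nat.mul_le_mul_left _
      (Nat.pow_le_pow_left (Nat.pow_le_pow_left c _) _))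
    exact abs_le.2 ⟨by linarith [h m (hn.trans c) K φ R _ T hK e le_rfl (md m.le_succ) t],
      by linarith [h m (hn.trans c) K φ _ R T hK le_rfl e f t]⟩
  have key (k R) (e : DD F n ≤ R) (f : R ≤ DD F (n + k + 1)) :
      |alv d F.toMd K (φ, R) T - alv d F.toMd K (φ, DD F n) T| ≤
        2 * (1 / 2) ^ n - (1 / 2) ^ (n + k) := by
    induction k generalizing R with
    | zero => exact (one n R le_rfl e f).trans_eq (by rw [add_zero]; ring)
    | succ k ih =>
      have p : (0 : ℝ) < (1 / 2) ^ (n + k) := by positivity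
      rw [← add_assoc, pow_succ]
      rcases le_total R (DD F (n + k + 1)) with g | g
      · linarith [ih R e g]
      · have u := abs_le.1 (one (n + k + 1) R (by omega) g f)
        have v := abs_le.1 (ih _ (md (by omega)) le_rfl)
        rw [pow_succ] at u
        exact abs_le.2 ⟨by linarith, by linarith⟩
  exact (key R R a (le_trans (by omega) (Nat.le_self_pow (by omega) (n + R + 1)))).trans
    (sub_le_self _ (by positivity))

end Pool.Agent.Lib.MP_dd0771_pr.Sc
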