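import Pool.Agent.Lib.MP_dd0771_pr.Sc.BaseA

/-! The survival probability of a fixed world converges when the cutoff grows. -/

open Filter Topology

namespace Pool.Agent.Lib.MP_dd0771_pr.Sc

variable {d : ℕ} {F : Fr} {G : Md}

theorem base_idle {K0 K : ℕ} (h : K0 ≤ K) (Q Z : Finset (S d)) (w : Word d) (σ : St d)
    (m : mass σ.1 Q ≤ K0) : acw G ⟨al K Q, Z⟩ σ w = acw G ⟨al K0 Q, Z⟩ σ w := by
  induction w generalizing σ with
  | nil => rfl
  | cons a w ih =>
    have e : ac G ⟨al K Q, Z⟩ σ a = ac G ⟨al K0 Q, Z⟩ σ a := by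
      obtain ⟨x, _ | ⟨e, k⟩⟩ := a
      · simp only [ac, mem_al_none]
      · simp only [ac, mem_al_some]
        refine if_congr ⟨fun ⟨⟨a, b, _⟩, c⟩ => ⟨⟨a, b, c.trans_le (le_trans ?_ m)⟩, c⟩,
          fun ⟨⟨a, b, e⟩, c⟩ => ⟨⟨a, b, e.trans_le h⟩, c⟩⟩ rfl rfl
        exact Finset.single_le_sum (f := σ.1) (fun _ _ => Nat.zero_le _) a
    have := mass_mw (closed_al K0 Q) σ.1 [a]
    rw [← acw_fst (G := G) ⟨al K0 Q, Z⟩] at this
    exact (congrArg (fun τ => acw G ⟨al K Q, Z⟩ τ w) e).trans (ih _ (this.trans_le m))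

theorem base_sub {K0 K : ℕ} (h : K0 ≤ K) (Q : Finset (S d)) : al K0 Q ⊆ al K Q := by
  rintro ⟨x, _ | ⟨e, k⟩⟩ a
  · exact mem_al_none.2 (mem_al_none.1 a)
  · exact mem_al_some.2 ((mem_al_some.1 a).imp_right (And.imp_right fun b => b.trans_le h))

theorem base_site (hF : F.Ok) {K0 K K' : ℕ} {φ δ : ℝ} (h : K0 ≤ K) (h' : K0 ≤ K') (p : KP F K φ)
    (q : KP F K' φ) (t : pr (sl F.toMd K φ 0) (fun m => K0 + 1 ≤ m) ≤ δ) (i : ℕ) (hi : i ≤ K0) :
    (1 - δ) * (sl F.toMd K' φ 0 i).toReal ≤ (sl F.toMd K φ 0 i).toReal := by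
  set P := sl F.toMd K φ 0
  set R := sl F.toMd K' φ 0
  have r (i) (hi : i ≤ K0) : (P i).toReal * (R 0).toReal = (R i).toReal * (P 0).toReal := by
    induction i with
    | zero => ring
    | succ i ih =>
      have a := sl_ratio hF p (f := 0) (i := i) (by omega) (by omega)
      have b := sl_ratio hF q (f := 0) (i := i) (by omega) (by omega)
      have e : gK F.toMd K' (i + 1) = gK F.toMd K (i + 1) := by
        rw [gK, gK, min_eq_left (hi.trans h), min_eq_left (hi.trans h')]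
      have g : 0 < gK F.toMd K (i + 1) := by
        rw [gK, min_eq_left (hi.trans h)]
        exact Finset.sum_pos (fun k _ => hF.1.trans_le (hF.2.1 k).1) (by simp)
      rw [gK_zero, sub_zero] at a b
      rw [e] at b
      refine mul_right_cancel₀ g.ne' ?_
      linear_combination (R 0).toReal * a - (P 0).toReal * b + φ * ih (by omega)
  have s : pr P (fun m => ¬ K0 + 1 ≤ m) * (R 0).toReal =
      pr R (fun m => ¬ K0 + 1 ≤ m) * (P 0).toReal := by
    simp only [pr, ex, ← tsum_mul_right]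
    refine tsum_congr fun m => ?_
    by_cases c : K0 + 1 ≤ m
    · rw [ind_neg (not_not.2 c), mul_zero, mul_zero, zero_mul, zero_mul]
    · rw [ind_pos c, mul_one, mul_one, r m (by omega)]
  have z : 0 < (R 0).toReal := ENNReal.toReal_pos
    ((PMF.mem_support_iff _ _).1 ((sl_support hF q (by omega)).2 le_rfl)) (R.apply_ne_top 0)
  have u : (1 - δ) * (R 0).toReal ≤ (P 0).toReal := by
    rw [pr_not P] at s
    nlinarith [pr_le_one R fun m => ¬ K0 + 1 ≤ m, (P 0).toReal_nonneg]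
  refine le_of_mul_le_mul_right ?_ z
  rw [r i hi]
  nlinarith [(R i).toReal_nonneg]

theorem base_cut (hF : F.Ok) (R T : ℕ) {e : ℝ} (he : 0 < e) : ∀ᶠ K0 : ℕ in atTop,
    ∀ K K' φ, K0 ≤ K → K0 ≤ K' → KP F K φ → KP F K' φ →
      alv d F.toMd K' (φ, R) T ≤ alv d F.toMd K (φ, R) T + e := by
  obtain ⟨C, -, hC⟩ := sl_mean hF
  obtain ⟨D, d1, hD⟩ := sl_tail hF
  set Q := bx (0 : S d) (2 * R)
  have l1 : Tendsto (fun K0 : ℕ => D * (1 / 2 : ℝ) ^ (K0 + 1)) atTop (𝓝 0) := by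
    simpa using ((tendsto_pow_atTop_nhds_zero_of_lt_one (r := (1 / 2 : ℝ)) (by norm_num)
      (by norm_num)).comp (tendsto_add_atTop_nat 1)).const_mul D
  have l2 : Tendsto (fun K0 : ℕ => Q.card * (D * (1 / 2 : ℝ) ^ (K0 + 1)) +
      |C| * Q.card * (1 / ((K0 : ℝ) + 1))) atTop (𝓝 0) := by
    simpa using (l1.const_mul (Q.card : ℝ)).add
      (tendsto_one_div_add_atTop_nhds_zero_nat.const_mul (|C| * Q.card))
  filter_upwards [l1.eventually_le_const one_pos, l2.eventually_le_const he]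
    with K0 a b K K' φ h h' p q
  set δ := D * (1 / 2 : ℝ) ^ (K0 + 1)
  let H (K : ℕ) (η : Cfg d) : ℝ := pr (wls F.toMd (al K Q) T) fun ws =>
    (tj F.toMd ⟨al K Q, bx 0 R⟩ (ini F.toMd (bx 0 R) {0} η) ws T).Nonempty
  let H0 (η : Cfg d) : ℝ := ind (mass η Q ≤ K0) * H K0 η
  have hb (K) : Bdd (H K) := Bdd.pr _ _
  have h01 (η) : 0 ≤ H0 η ∧ H0 η ≤ 1 := ⟨mul_nonneg (ind_nonneg _) (pr_nonneg _ _),
    mul_le_one₀ (ind_le_one _) (pr_nonneg _ _) (pr_le_one _ _)⟩
  have hb0 : Bdd H0 := Bdd.of01 h01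
  have eq (K) (h : K0 ≤ K) (η) (m : mass η Q ≤ K0) : H K η = H0 η := by
    simp only [H0, H, ind_pos m, one_mul, base_pr hF (base_sub h Q), tj_flt _ subset_rfl]
    simp only [tj, acs_flatten, base_idle h Q _ _ (ini F.toMd (bx 0 R) {0} η) m]
  obtain ⟨m1, m2⟩ := ex_pc_mass Q Q (fun _ => sl F.toMd K' φ 0) (abs_nonneg C)
    fun _ _ => (hC K' φ 0 q (by omega)).imp_right fun u => u.trans (le_abs_self C)
  have s1 : ex (mu F.toMd K' φ Q) (H K') ≤ ex (mu F.toMd K' φ Q) H0 +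
      pr (mu F.toMd K' φ Q) fun η => (K0 : ℝ) + 1 ≤ mass η Q := by
    rw [pr, ← ex_add _ hb0 (Bdd.ind _)]
    refine ex_mono (hb _) (hb0.add (Bdd.ind _)) fun η _ => ?_
    rcases le_or_gt (mass η Q) K0 with c | c
    · rw [eq K' h' η c]
      exact le_add_of_nonneg_right (ind_nonneg _)
    · rw [ind_pos (by exact_mod_cast c)]
      exact (pr_le_one _ _).trans (le_add_of_nonneg_left (h01 η).1)
  have s2 := (markov m1 (fun _ _ => by positivity) (by positivity : (0 : ℝ) < K0 + 1)).trans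
    (div_le_div_of_nonneg_right m2 (by positivity))
  have s3 : (1 - δ) ^ Q.card * ex (mu F.toMd K' φ Q) H0 ≤ ex (mu F.toMd K φ Q) H0 := by
    rw [ex, ← tsum_mul_left]
    refine ((ex_summable _ hb0).mul_left _).tsum_le_tsum (fun η => ?_) (ex_summable _ hb0)
    by_cases c : mass η Q ≤ K0
    · rw [← mul_assoc]
      refine mul_le_mul_of_nonneg_right ?_ (h01 η).1
      simp only [mu, pc_apply]
      split_ifs
      · rw [ENNReal.toReal_prod, ENNReal.toReal_prod, ← Finset.prod_const, ← Finset.prod_mul_distrib]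
        exact Finset.prod_le_prod (fun _ _ => mul_nonneg (by linarith) ENNReal.toReal_nonneg)
          fun x hx => base_site hF h h' p q (hD K φ 0 _ p (by omega)).2 _
            (le_trans (Finset.single_le_sum (f := η) (fun _ _ => Nat.zero_le _) hx) c)
      · simp
    · simp [H0, ind_neg c]
  have s4 : ex (mu F.toMd K φ Q) H0 ≤ ex (mu F.toMd K φ Q) (H K) :=
    ex_mono hb0 (hb _) fun η _ => by
      by_cases c : mass η Q ≤ K0
      · exact (eq K h η c).ge
      · simpa [H0, ind_neg c] using pr_nonneg _ _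
  have s5 := one_add_mul_le_pow (a := -δ) (by linarith) Q.card
  have s6 := ex_le (p := mu F.toMd K' φ Q) hb0 fun η _ => (h01 η).2
  have s7 := ex_nonneg (p := mu F.toMd K' φ Q) fun η _ => (h01 η).1
  have s8 : 0 ≤ Q.card * δ := by positivity
  rw [← sub_eq_add_neg] at s5
  rw [div_eq_mul_one_div] at s2
  change ex _ (H K') ≤ ex _ (H K) + e
  change pr (mu F.toMd K' φ Q) _ ≤ _ at s2
  nlinarith [mul_le_mul_of_nonneg_right s5 s7, mul_le_mul_of_nonneg_left s6 s8]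

theorem base_lim (hF : F.Ok) {φ : ℝ} (h : F.lo ≤ φ) (h' : φ ≤ F.hi) (R T : ℕ) :
    ∃ a, Tendsto (fun K => alv d F.toMd K (φ, R) T) atTop (𝓝 a) := by
  refine cauchySeq_tendsto_of_complete (Metric.cauchySeq_iff.2 fun e he => ?_)
  obtain ⟨N, hN⟩ := eventually_atTop.1 ((base_cut (d := d) hF R T (half_pos he)).and
    (eventually_forall_ge_atTop.2 (kOk_eventually hF)))
  obtain ⟨a, b⟩ := hN N le_rfl
  refine ⟨N, fun m hm n hn => ?_⟩
  rw [Real.dist_eq, abs_lt]
  constructor <;> linarith [a m n φ hm hn ⟨b m hm, h, h'⟩ ⟨b n hn, h, h'⟩,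
    a n m φ hn hm ⟨b n hn, h, h'⟩ ⟨b m hm, h, h'⟩]

end Pool.Agent.Lib.MP_dd0771_pr.Sc
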