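import Pool.Agent.Lib.MP_dd0771_pr.Sc.BbF

open Filter

namespace Pool.Agent.Lib.MP_dd0771_pr.Sc

theorem bb_n1 {C1 k j l : ℕ} (h : (4 * (C1 * k ^ 2) + 16) * (j + 1) ^ 2 ≤ l) :
    4 * (C1 * (k * (j + 1)) ^ 2 + 4) ≤ l := by
  have w1 : 1 ≤ (j + 1) ^ 2 := Nat.one_le_pow _ _ (by omega)
  nlinarith

theorem bb_n2 {C1 k j G l P i : ℕ}
    (h : ((2 * k + 1) * ((C1 + 1) * k + 1) + C1 * k ^ 2 + G + 4) * (j + 1) ^ 2 ≤ l) (h1 : l ≤ P)
    (h2 : 2 * P ≤ i) : (2 * k + 1) * ((C1 + 1) * (k * (j + 1)) + 1) +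
      (P + 1 + (C1 * (k * (j + 1)) ^ 2 + 2) + G) + 1 ≤ i := by
  have w1 : 1 ≤ (j + 1) ^ 2 := Nat.one_le_pow _ _ (by omega)
  have w2 : j + 1 ≤ (j + 1) ^ 2 := Nat.le_self_pow (by norm_num) _
  have f1 : (C1 + 1) * (k * (j + 1)) + 1 ≤ ((C1 + 1) * k + 1) * (j + 1) ^ 2 := by
    nlinarith [Nat.mul_le_mul_left ((C1 + 1) * k) w2]
  have f2 := Nat.mul_le_mul_left (2 * k + 1) f1
  have f3 := Nat.mul_le_mul_left (G + 4) w1
  nlinarith

theorem bb_n3 {x q L : ℕ} (hq : x = 8 * q) (x40 : 40 ≤ x) (v1 : x ^ 8 ≤ L) :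
    16 * (x ^ 8 * L) ≤ (2 * q * L) ^ 4 ∧ 2 * q * L ≤ x ^ 8 * L := by
  have v2 : x ≤ x ^ 8 := Nat.le_self_pow (by norm_num) _
  refine ⟨?_, Nat.mul_le_mul_right _ (by omega)⟩
  calc 16 * (x ^ 8 * L) ≤ 16 * (L * L) := by gcongr
    _ = 2 ^ 4 * L ^ 2 := by ring
    _ ≤ (2 * q) ^ 4 * L ^ 4 := Nat.mul_le_mul (Nat.pow_le_pow_left (by omega) _)
      (Nat.pow_le_pow_right (by omega) (by norm_num))
    _ = _ := by ring

theorem bb_n4 {d x q L L' : ℕ} {c : ℝ} (hd : 1 ≤ d) (hq : x = 8 * q) (x40 : 40 ≤ x)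
    (e : 2 ^ L' = x ^ 8 * L) :
    c / (512 * d * (x : ℝ) ^ 7) * 2 ^ L' ≤ ((2 * q * L : ℕ) : ℝ) * (c / 32) / (4 * d) := by
  have e1 : (2 : ℝ) ^ L' = (x : ℝ) ^ 8 * L := by exact_mod_cast e
  have e2 : (q : ℝ) = x / 8 := by rw [hq]; push_cast; ring
  have : (0 : ℝ) < x := by exact_mod_cast (show 0 < x by omega)
  have : (0 : ℝ) < d := by exact_mod_cast hd
  rw [e1]; push_cast; rw [e2]
  exact le_of_eq (by field_simp; ring)

theorem s_b {d : ℕ} {F : Fr} (hd : 2 ≤ d) (hF : F.Ok) (hL : Low d F) (hE : Eng d F)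
    (hHOV : S_HOV d F) (hBOOST : S_BOOST d F) (hCLIMB : S_CLIMB d F) :
    S_B d F := by
  intro c CT e0 N C1 N' c0 c1 he0 hCT hLD hF2
  have hd1 : 1 ≤ d := by omega
  have hd' : (1 : ℝ) ≤ d := by exact_mod_cast hd1
  obtain ⟨x, k, Nt, Mn, e1, k18, e10, hc⟩ := bbd_cst hd1 c0 (by linarith)
  have x40 := (hc 0 le_rfl e10.le).x40
  have xR : (40 : ℝ) ≤ x := by exact_mod_cast x40
  have x7 : (1 : ℝ) ≤ (x : ℝ) ^ 7 := one_le_pow₀ (by linarith)
  obtain ⟨G0, hG⟩ := exists_pow_lt_of_lt_one (show 0 < c / 16 by positivity)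
    (show (1 / 2 : ℝ) < 1 by norm_num)
  obtain ⟨N2, hN2⟩ : ∃ N2, N2 = N * k + N' * k + k * CT + k + 4 := ⟨_, rfl⟩
  refine ⟨k, c / (512 * d * (x : ℝ) ^ 7), min e0 e1, N2, k18, by positivity, ?_, by positivity,
    fun B hB he => ?_⟩
  · rw [div_le_one (by positivity)]; nlinarith
  have he' := hB.2.2.2.2.2.1
  have hth := hB.2.2.2.1
  have cst := hc B.eps he'.le (he.trans (min_le_right _ _))
  have hec : 320 * B.eps ≤ c := by
    nlinarith [cst.e2, mul_pos he' (show (0 : ℝ) < (x : ℝ) ^ 32 by positivity)]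
  obtain ⟨m1, hm1⟩ := eventually_atTop.1 ((hLD B hB (he.trans (min_le_left _ _))).and
    (hF2 B hB (he.trans (min_le_left _ _))))
  obtain ⟨n1, hn1⟩ := eventually_atTop.1 ((Eventually.and (bbf_main hd1 hF hL hE hHOV hBOOST hCLIMB B hB)
    (bbe_lv hF hE B hB)).and (er_small (show 0 < c * B.th / 64 by positivity)))
  refine bbd_root (a := 3 * F.A + 4) (by omega) ?_
  filter_upwards [(tendsto_add_atTop_nat 1).eventually (Lmin_le F B (3 * F.A + 4 + 1)),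
    scale_pow_two N2 (3 * F.A + 4), bbd_sq (4 * (C1 * k ^ 2) + 16),
    bbd_sq ((2 * k + 1) * ((C1 + 1) * k + 1) + C1 * k ^ 2 + G0 + 4), eventually_ge_atTop m1,
    eventually_ge_atTop n1, eventually_ge_atTop N2, eventually_ge_atTop 2] with j j1 j2 j3 j4 j5 j6 j7
    j8 i i1 i2 K hK r T hT
  have p1 : (j ^ 3) ^ (F.A + 1) = j ^ (3 * F.A + 3) := by rw [← pow_mul]; rfl
  have p2 : j ^ 3 ≤ j ^ (3 * F.A + 3) := Nat.pow_le_pow_right (by omega) (by omega)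
  have p3 : 2 * j ^ (3 * F.A + 3) ≤ j ^ (3 * F.A + 4) := by
    rw [pow_succ' j (3 * F.A + 3)]; exact Nat.mul_le_mul_right _ j8
  have p4 : j ≤ j ^ 3 := Nat.le_self_pow (by norm_num) _
  have q1 : N2 * i = N * (k * i) + N' * (k * i) + k * i * CT + k * i + 4 * i := by rw [hN2]; ring
  have q2 : N2 * i ≤ N2 * (j + 1) ^ (3 * F.A + 4) := Nat.mul_le_mul_left _ i2.le
  have q3 : Lmin F B (N2 * i) ≤ 2 ^ (j + 1) := j1 _ (q2.trans (by
    rw [pow_succ' (j + 1) (3 * F.A + 4)]; exact Nat.mul_le_mul_right _ (by omega)))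
  have q4 : ls (N2 * i) ≤ j ^ 3 := by
    have := Nat.log_mono_right (b := 2) (q2.trans j2)
    rw [Nat.log_pow (by norm_num)] at this
    exact (Nat.pow_le_pow_left this 2).trans (Nat.pow_le_pow_right (by omega) (by norm_num))
  obtain ⟨⟨u1, u2⟩, u3, u4, u5⟩ := hn1 (N2 * i) (by omega)
  have ex : ∀ σ, j ≤ σ → σ ≤ i → ∃ T' r', LDat d F B K c CT (2 ^ (k * σ)) r' T' ∧ (σ = i → T' = T) := by
    intro σ a1 a2
    by_cases h : σ = i
    · exact ⟨T, r, h ▸ hT, fun _ => rfl⟩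
    · have := Nat.mul_le_mul k18 a1
      have := Nat.mul_le_mul_left N (Nat.mul_le_mul_left k a2)
      obtain ⟨r', T', h'⟩ := (hm1 (k * σ) (by omega)).1 K (hK.mono (by omega))
      exact ⟨T', r', h', fun e => absurd e h⟩
  choose! TT hTT using ex
  have cth : c * B.th ≤ c := mul_le_of_le_one_right c0.le hB.2.2.2.2.1
  obtain ⟨q, hq⟩ := cst.x8
  have ei : 2 ^ (k * i) = x ^ 8 * 2 ^ (k * (i - 1)) := by
    obtain ⟨i', rfl⟩ : ∃ i', i = i' + 1 := ⟨i - 1, by omega⟩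
    rw [← cst.hk, Nat.add_sub_cancel]; ring
  have fin := u1 K hK x k Nt Mn j i (j ^ 3) C1 G0 c TT cst (by omega) c0 c1 (fun σ a1 a2 => by
      obtain ⟨r', h', -⟩ := hTT σ a1 a2
      have f1 := Nat.mul_le_mul k18 a1
      have f2 := Nat.mul_le_mul_left k a2
      have f3 := Nat.mul_le_mul_right CT f2
      refine ⟨u2 K hK c CT _ r' _ h' (q3.trans (Nat.pow_le_pow_right (by norm_num) (by omega)))
        (Nat.pow_le_pow_right (by norm_num) (by omega)) ?_ (by linarith only [hec, he']) c1, h'.2.2.2.2.1⟩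
      calc 4 * TT σ ≤ 4 * (2 ^ (k * σ)) ^ CT := Nat.mul_le_mul_left _ h'.2.2.2.2.2
        _ = 2 ^ (k * σ * CT + 2) := by ring
        _ ≤ _ := Nat.pow_le_pow_right (by norm_num) (by omega))
    (by
      have f1 := Nat.mul_le_mul k18 (show j ≤ j + 1 by omega)
      have f2 := Nat.mul_le_mul_left N' (Nat.mul_le_mul_left k (show j + 1 ≤ i by omega))
      exact (hm1 (k * (j + 1)) (by omega)).2 K (hK.mono (by omega)))
    (by linarith only [u3]) (by linarith only [u4, u5, cth, c0]) q4 (by omega) (bb_n1 j3) hG.le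
    (bb_n2 j4 (by omega) (by omega))
    (by
      calc 16 * 2 ^ (k * i) = 2 ^ (k * i + 4) := by ring
        _ ≤ _ := Nat.pow_le_pow_right (by norm_num) (by omega))
    (2 * q * 2 ^ (k * (i - 1))) (by rw [hq]; ring)
  obtain ⟨-, -, eT⟩ := hTT i (by omega) le_rfl
  rw [eT rfl] at fin
  have v1 : x ^ 8 ≤ 2 ^ (k * (i - 1)) := by
    rw [← cst.hk]
    exact Nat.pow_le_pow_right (by norm_num) (Nat.le_mul_of_pos_right _ (by omega))
  have v2 := bb_n3 hq x40 v1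
  rw [← ei] at v2
  exact ⟨_, c / 32, v2.1, v2.2, by linarith only [hec, he'], bb_n4 hd1 hq x40 ei, fin⟩

end Pool.Agent.Lib.MP_dd0771_pr.Sc
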