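import Pool.Agent.Lib.MP_dd0771_pr.Sc.Gv

/-! Separation of two launches: passing to the next level, and boosting. -/

open Filter

namespace Pool.Agent.Lib.MP_dd0771_pr.Sc

variable {d : ℕ} {F : Fr} {B : Bs} {K n : ℕ} {M : Amb d} {pc : ℝ} {C : Ty}

/-- A launch of type `C` gives the fraction `b` of the double launches of size `L` within `rad` at
separation `sep`, wherever there is room `need`. -/
def BPi (F : Fr) (B : Bs) (K n : ℕ) (M : Amb d) (C : Ty) (L rad sep need tt : ℕ) (b : ℝ) : Prop :=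
  ∀ y, bx y need ⊆ M.Q' → bx y need ⊆ M.Z →
    Gives F B K n M (GP F B K n M (B.p 2, L) y rad sep) C y tt b

theorem BPi.mono {L rad sep need tt rad' need' tt' : ℕ} {b b' : ℝ}
    (h : BPi F B K n M C L rad sep need tt b) (h1 : rad ≤ rad') (h2 : need ≤ need') (h3 : tt ≤ tt')
    (h4 : b' ≤ b) : BPi F B K n M C L rad' sep need' tt' b' := fun y a1 a2 =>
  ((h y ((bx_mono y h2).trans a1) ((bx_mono y h2).trans a2)).mono (glOk_GP _ _ _ _) h3 h4).goal
    fun _ _ _ _ g z z' t c1 c2 => g z z' t (c1.trans h1) (c2.trans h1)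

theorem bba_pass (hCL : S_CLIMB d F) (hB : B.Ok F) (hM : M.Ok F B K n pc) {x L k T Nt tt : ℕ}
    {c b : ℝ} (hx : 40 ≤ x) (hk : 2 ^ k = x ^ 8) (hL : 1 ≤ L)
    (hP : PairAt d F B K n pc (B.p 2, L) T c) (hC : TyOk F B n pc (B.p 2, L))
    (hC' : TyOk F B n pc (B.p 2, x ^ 8 * L)) (hc0 : 0 < c) (hc1 : c ≤ 1)
    (hN : 300 * d * (x : ℝ) ^ 18 ≤ c * Nt) (he : 500 * B.eps * Nt ≤ 1)
    (hr : 2000 * d ≤ c * (x : ℝ) ^ 6)
    (h : BPi F B K n M C L (2 * (x ^ 8 * L)) (x * L) (3 * (x ^ 8 * L)) tt b) :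
    BPi F B K n M C (x ^ 8 * L) (x ^ 16 * L) (x * (x ^ 8 * L)) (x ^ 16 * L)
      (tt + Nt * (T + RR F B n)) ((39 / 100) ^ k * b) := by
  intro y hQ hZ Φ te ub w t a1 a2 a3 a4 a5 a6
  have p1 : 1 ≤ x ^ 7 := Nat.one_le_pow _ _ (by omega)
  have e8 : x ^ 8 * L = x * (x ^ 7 * L) := by ring
  have e15 : x ^ 16 * L = x * (x ^ 15 * L) := by ring
  have e16 : x ^ 15 * L = x ^ 7 * (x ^ 8 * L) := by ring
  have l1 : L ≤ x ^ 7 * L := Nat.le_mul_of_pos_left _ p1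
  have l2 : 40 * (x ^ 7 * L) ≤ x ^ 8 * L := e8 ▸ Nat.mul_le_mul_right _ hx
  have l3 : x ^ 8 * L ≤ x ^ 15 * L := e16 ▸ Nat.le_mul_of_pos_left _ p1
  have l4 : 40 * (x ^ 15 * L) ≤ x ^ 16 * L := e15 ▸ Nat.mul_le_mul_right _ hx
  have l5 : 40 * (x ^ 8 * L) ≤ x * (x ^ 8 * L) := Nat.mul_le_mul_right _ hx
  have ek : 2 ^ k * (x * L) = x * (x ^ 8 * L) := by rw [hk]; ring
  have q0 : (0 : ℝ) ≤ (39 / 100) ^ k := by positivity
  have q1 : ((39 / 100 : ℝ)) ^ k ≤ 1 := pow_le_one₀ (by norm_num) (by norm_num)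
  have ekR : (2 : ℝ) ^ k * ((x * L : ℕ) : ℝ) = (x : ℝ) ^ 9 * L := by
    have : ((2 ^ k * (x * L) : ℕ) : ℝ) = ((x * (x ^ 8 * L) : ℕ) : ℝ) := by rw [ek]
    push_cast at this ⊢; rw [this]; ring
  refine (h y ((bx_mono y (by omega)).trans hQ) ((bx_mono y (by omega)).trans hZ) Φ te ub
    ((39 / 100) ^ k * w) t a1 (mul_nonneg q0 a2) (by nlinarith) a4 (by omega)
    fun z z' t' b1 b2 b3 b4 b5 => ?_).mono (le_of_eq (by ring))
  have tri : nrm (z - z') ≤ nrm (z - y) + nrm (z' - y) := by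
    have := nrm_tri z y z'; rwa [nrm_sub_comm y z'] at this
  have far : ∀ u, nrm (u - z) ≤ x ^ 15 * L ∨ nrm (u - z') ≤ x ^ 15 * L →
      nrm (u - y) ≤ 3 * (x ^ 15 * L) := by
    rintro u (hu | hu)
    · have := nrm_tri u z y; omega
    · have := nrm_tri u z' y; omega
  refine hCL B K n pc (B.p 2, L) (B.p 2, x ^ 8 * L) T c M Φ te ub w (x * L) k Nt (x ^ 15 * L) t' z
    z' hB hP hC hC' hM a1 hc0 hc1 a2 a3 (Nat.mul_le_mul_right _ hx) (by rw [ek]; simp only; omega)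
    ?_ he ?_ (a4.trans b4) (by omega) b3 (by rw [ek]; omega) (fun u hu => ?_)
    fun z1 z2 t'' c1 c2 c3 c4 c5 => a6 z1 z2 t'' ?_ ?_ (ek ▸ c3) (by omega) (by omega)
  · rw [ekR]
    have : (0 : ℝ) ≤ (L : ℝ) ^ 2 := by positivity
    simp only
    nlinarith [mul_le_mul_of_nonneg_right hN this]
  · rw [ekR]
    have : (0 : ℝ) ≤ (x : ℝ) ^ 9 * L := by positivity
    have hd : (0 : ℝ) ≤ d := by positivity
    push_cast
    nlinarith [mul_le_mul_of_nonneg_right hr this, mul_nonneg hd this]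
  · have := far u hu
    exact ⟨(bx_subset (by simp only; omega)).trans hQ, (bx_subset (by simp only; omega)).trans hZ,
      (bx_subset (by simp only; omega)).trans hZ⟩
  · have := far z1 (Or.inl c1); omega
  · have := far z2 (Or.inr c2); omega

theorem bba_boost (hBO : S_BOOST d F) (hB : B.Ok F) (hM : M.Ok F B K n pc)
    {L R Lh Th sep U Mn : ℕ} {b : ℝ} (hP : PlainAt d F B K n pc (B.p 2, Lh) Th) (hT : 1 ≤ Th)
    (hCh : TyOk F B n pc (B.p 2, Lh)) (hC : TyOk F B n pc C) (hCR : C.2 ≤ R) (hR : 1 ≤ R)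
    (hLh : 4 * Lh ≤ R) (h0 : 0 ≤ b) (h1 : b ≤ 1) (htol : tol (ls n) ≤ 1 / 2)
    (hc : Mn * (2 * (64 * d * (Lh : ℝ) ^ 2 / (R : ℝ) ^ 2 + 5 * B.eps) *
      (2 * ((Th : ℝ) + 2 * RR F B n + U) / Th + 1)) ≤ 1 / 2)
    (h : BPi F B K n M C L R sep R U b) :
    BPi F B K n M (B.p 2, Lh) L (2 * R) sep (3 * R) (Mn * (2 * Th + 3 * RR F B n + U))
      (min (1 / 8) (Mn * b / 8)) := by
  intro y hQ hZ
  have hR0 : (0 : ℝ) < R := by exact_mod_cast hR
  refine (gives_boost (y := y) (U := Th + RR F B n + U) (Mn := Mn) (u := b / 2) (ρ := R / 8) hBO hB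
    (glOk_GP (B.p 2, L) y (2 * R) sep) hP hT hCh hM (by positivity) (by positivity) htol
    (fun z hz => ?_) ?_).mono (glOk_GP _ _ _ _) (le_of_eq (by ring))
    (le_of_eq (by congr 1; ring))
  · have hz' : 8 * nrm (z - y) ≤ R := by
      have := (nrm_sq_le_eu (z - y)).trans_lt hz
      have := lt_of_pow_lt_pow_left₀ 2 (by positivity) this
      have : (8 * nrm (z - y) : ℝ) ≤ R := by linarith
      exact_mod_cast this
    have hA : Adm M {z} Lh := ⟨apart_single _ _, by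
      rw [wQ_single]; exact (bx_subset (by omega)).trans hQ, by
      rw [wZ_single]; exact (bx_subset (by omega)).trans hZ⟩
    refine ⟨hA, gives_plain hB (glOk_GP _ _ _ _) (fun _ => C) hP hM hA h0 h1 fun u hu => ?_⟩
    have t1 := nrm_tri u z y
    simp only at hu
    refine ⟨hC, (bx_subset (by omega)).trans hZ, (h u ((bx_subset (by omega)).trans hQ)
      ((bx_subset (by omega)).trans hZ)).goal fun _ _ _ _ g z1 z2 t c1 c2 => g z1 z2 t ?_ ?_⟩
    · have := nrm_tri z1 u y; omega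
    · have := nrm_tri z2 u y; omega
  · refine le_trans (le_of_eq ?_) hc
    push_cast
    field_simp
    ring

end Pool.Agent.Lib.MP_dd0771_pr.Sc
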