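import Pool.Agent.Lib.MP_dd0771_pr.Sc.BbA

/-! From a spread infection to a double launch. -/

open Filter

namespace Pool.Agent.Lib.MP_dd0771_pr.Sc

variable {d : ℕ} {F : Fr}

/-- Spread `s` at some time of `[n0, n0 + T]`. -/
def SprE (n0 T s : ℕ) (I : Tj d) : Prop := ∃ u, n0 ≤ u ∧ u ≤ n0 + T ∧ Spread s (I u)

theorem bbb_tr (hS : S_SYM d F) (K : ℕ) (C : Ty) (y : S d) (n0 T s : ℕ) :
    cP F.toMd K C (0 : S d) (n0 + T) (SprE n0 T s) ≤ cP F.toMd K C y (n0 + T) (SprE n0 T s) := by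
  unfold cP wP
  rw [hS K C.1 0 y 1 (fun _ => true) (2 * C.2) C.2 (n0 + T) _ (by omega)]
  refine wX_mono (Bdd.ind _) (Bdd.ind _) fun I _ => ind_mono ?_
  rintro ⟨u, h1, h2, x, hx, x', hx', h⟩
  refine ⟨u, h1, h2, _, Finset.mem_image_of_mem _ hx, _, Finset.mem_image_of_mem _ hx', ?_⟩
  rwa [add_sub_add_left_eq_sub, ← sp_sub, nrm_sp, sub_sub_sub_cancel_right]

theorem bbb_one (hF : F.Ok) (hL : Low d F) (hE : Eng d F) : EvB d F fun B n K =>
    ∀ l0 pc (M : Amb d) (Φ : Nd d → ℝ) te ub w (C : Ty) L' sep s T y t (β : ℝ), TyOk F B n pc C →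
    TyOk F B n pc (B.p 2, L') → M.Ok F B K n pc → Mart F.toMd K M Φ te ub → M.u0 ≤ t →
    t + (T + RR F B n) ≤ te → T ≤ 2 ^ n → bx y (2 * C.2) ⊆ M.Q' → bx y (C.2 + L') ⊆ M.Z →
    4 * L' + 2 ≤ sep → 2 * sep ≤ s → 0 ≤ w → w ≤ ub →
    β ≤ cP F.toMd K C y (B.n0 + T) (SprE B.n0 T s) →
    GP F B K n M (B.p 2, L') y C.2 sep Φ w t (t + (T + RR F B n)) →
    Val F B K n l0 M Φ C {y} t (w * ((β - er n) / B.thp - tol l0 - 2 * e2 n)) := by
  intro B hB
  filter_upwards [hE.hONE B hB, hL.hCHN, scales hF B, le_of_Lmin hF B, eventually_ge_atTop 1] with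
    n h1 h2 h3 h4 hn K hK l0 pc M Φ te ub w C L' sep s T y t β hC hC' hM a1 a4 a5 hT hQ hZ hs1 hs2
    a2 a3 hβ hG
  obtain ⟨c1, -, -, -, c5, c6, -, -⟩ := h3
  obtain ⟨-, d2, d3, d4⟩ := h4 L' hC'.2.2.2.1
  have hL' : L' ≤ 2 ^ n := hC'.2.2.2.2
  have hV : 1 ≤ VV n := Nat.one_le_pow _ _ hn
  have hR : RR F B n ≤ VV n * RR F B n := Nat.le_mul_of_pos_left _ hV
  have hsR : sb F B n (ls n) ≤ RR F B n := Nat.le_mul_of_pos_left _ (by omega)
  have hn0 : B.n0 ≤ RR F B n := le_trans (Nat.le_add_left _ _) c6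
  obtain ⟨m, m1, m2⟩ : ∃ m, T ≤ m * sb F B n (ls n) ∧ m * sb F B n (ls n) ≤ T + RR F B n := by
    refine ⟨T / sb F B n (ls n) + 1, ?_, ?_⟩
    · have := Nat.lt_div_mul_add (a := T) c5
      rw [add_mul]; omega
    · have := Nat.div_mul_le_self T (sb F B n (ls n))
      rw [add_mul]; omega
  have p1 : 2 ^ (n + 1) = 2 * 2 ^ n := by ring
  have p2 : 2 ^ (n + 2) ≤ 2 ^ (4 * n) := Nat.pow_le_pow_right (by norm_num) (by omega)
  have p3 : 2 ^ (n + 2) = 4 * 2 ^ n := by ring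
  refine (h1 K hK l0 pc M Φ te ub w C y (rSpr sep) m t (fun _ => (B.p 2, L')) hC hM a1 a4 (by omega)
    (by omega) ⟨apart_single _ _, by rwa [wQ_single], by
      rw [wZ_single]; exact (bx_mono y (by omega)).trans hZ⟩ (ruleOk_rSpr (by omega)) a2 a3
    (cont_rSpr hC' hs1 (fun z hz => (bx_subset ?_).trans hZ) fun k hk z hz z' hz' hs => ?_)).mono ?_
  · have := mem_bx.1 hz
    simp only; omega
  · have := Nat.mul_le_mul_right (sb F B n (ls n)) (show k + 1 ≤ m from hk)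
    exact hG z z' _ (mem_bx.1 hz) (mem_bx.1 hz') hs (by omega) (by omega)
  · refine mul_le_mul_of_nonneg_left ?_ a2
    have hg := hB.2.1
    have kp : KP F K C.1 := hK.kp hF hB hC.1 (by
      have := hC.2.1.trans hC.2.2.1
      simp only [Bs.p] at this; push_cast at this; linarith)
    have e1 := h2 K C.1 (bx y (2 * C.2)) (bx y C.2) {y} (B.n0 + m * sb F B n (ls n)) kp (by simp)
      (by omega)
    have e2 : cP F.toMd K C y (B.n0 + m * sb F B n (ls n)) (SprE B.n0 T s) =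
        cP F.toMd K C y (B.n0 + T) (SprE B.n0 T s) :=
      wP_horizon (by omega) fun I J h ⟨u, b1, b2, b3⟩ => ⟨u, b1, b2, h u b2 ▸ b3⟩
    have e3 := wP_le_add (G := F.toMd) (K := K) (φ := C.1) (Q := bx y (2 * C.2)) (Z := bx y C.2)
      (Y0 := {y}) (T := B.n0 + m * sb F B n (ls n)) (E := SprE B.n0 T s)
      (E1 := fun I => (I B.n0).Nonempty ∧ CE F B n (bx y C.2) (rSpr sep) m (fun _ => True)
        fun u => I (B.n0 + u)) (E2 := fun I => ¬ Chn (VV n) (B.n0 + m * sb F B n (ls n)) I) (by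
      rintro I hI ⟨u, b1, b2, x, hx, x', hx', b3⟩
      by_cases hc : Chn (VV n) (B.n0 + m * sb F B n (ls n)) I
      · left
        obtain ⟨γ, -, g2, -⟩ := hc.chain (show u ≤ _ by omega) hx
        refine ⟨⟨_, g2 _ b1⟩, ce_spr c5 hc hI.2.1 (u := u) (by omega) ?_ (by omega)
          ⟨x, hx, x', hx', by omega⟩⟩
        by_contra hu
        have f1 := hc.speed hI.1 (show u ≤ _ by omega) hx
        have f2 := hc.speed hI.1 (show u ≤ _ by omega) hx'
        have f3 := nrm_tri x y x'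
        rw [nrm_sub_comm y x'] at f3
        have f4 : VV n * u ≤ VV n * (2 * RR F B n) := Nat.mul_le_mul_left _ (by omega)
        rw [Nat.mul_left_comm] at f4
        omega
      · exact Or.inr hc)
    have : β - er n ≤ cP F.toMd K C y (B.n0 + m * sb F B n (ls n)) fun I => (I B.n0).Nonempty ∧
        CE F B n (bx y C.2) (rSpr sep) m (fun _ => True) fun u => I (B.n0 + u) := by
      unfold cP at *; linarith
    have := div_le_div_of_nonneg_right this (thp_pos hB).le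
    linarith

theorem bbb_c1 (hF : F.Ok) (hL : Low d F) (hE : Eng d F) : EvB d F fun B n K =>
    ∀ pc (M : Amb d) (C : Ty) L' sep s T (β b : ℝ), TyOk F B n pc C → TyOk F B n pc (B.p 2, L') →
    M.Ok F B K n pc → T ≤ 2 ^ n → L' ≤ C.2 → 4 * L' + 2 ≤ sep → 2 * sep ≤ s →
    β ≤ cP F.toMd K C (0 : S d) (B.n0 + T) (SprE B.n0 T s) →
    b ≤ (β - er n) / B.thp - tol (ls n) - 2 * e2 n →
    BPi F B K n M C L' C.2 sep (2 * C.2) (T + RR F B n) b := by
  intro B hB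
  filter_upwards [bbb_one hF hL hE B hB] with n h1 K hK pc M C L' sep s T β b hC hC' hM hT hl hs1
    hs2 hβ hb y hQ hZ Φ te ub w t a1 a2 a3 a4 a5 a6
  exact (h1 K hK (ls n) pc M Φ te ub w C L' sep s T y t β hC hC' hM a1 a4 a5 hT hQ
    ((bx_mono y (by omega)).trans hZ) hs1 hs2 a2 a3 (hβ.trans (bbb_tr hL.hSYM _ _ _ _ _ _))
    a6).mono (by nlinarith)

theorem bbb_base (hF : F.Ok) (hL : Low d F) (hE : Eng d F) : EvB d F fun B n K =>
    ∀ l pc (M : Amb d) (C : Ty) L' sep s T (β γ : ℝ), ls n ≤ l → l ≤ n → TyOk F B n pc C →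
    TyOk F B n pc (B.p 2, L') → M.Ok F B K n pc → T ≤ 2 ^ n → L' ≤ C.2 → 4 * L' + 2 ≤ sep →
    2 * sep ≤ s → (∀ y : S d, β ≤ cP F.toMd K C y (B.n0 + T) (SprE B.n0 T s)) → 0 ≤ γ → γ ≤ 1 →
    γ ≤ (β - er n) / B.thp - tol l - 2 * e2 n →
    BPi F B K n M C L' (2 * C.2) sep (3 * C.2) (T + C.2)
      (((1 / 2) ^ (l ^ (F.A + 1)) - e2 n) * γ) := by
  intro B hB
  filter_upwards [bbb_one hF hL hE B hB, hE.hWEAK B hB, scales hF B, le_of_Lmin hF B,
    eventually_ge_atTop 1] with n h1 h2 h3 h4 hn K hK l pc M C L' sep s T β γ l1 l2 hC hC' hM hT hl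
    hs1 hs2 hβ g0 g1 hγ y hQ hZ Φ te ub w t a1 a2 a3 a4 a5 a6
  have c1 := h3.2.2.2.2.2.2.2 l l2
  obtain ⟨-, d2, d3, d4⟩ := h4 C.2 hC.2.2.2.1
  have hR : RR F B n ≤ VV n * RR F B n := Nat.le_mul_of_pos_left _ (Nat.one_le_pow _ _ hn)
  refine (h2 K hK l pc M Φ te ub (γ * w) C C y t l1 l2 hC hC hM a1 a4 (by omega)
    ⟨apart_single _ _, by rw [wQ_single]; exact (bx_mono y (by omega)).trans hQ, by
      rw [wZ_single]; exact (bx_mono y (by omega)).trans hZ⟩ (mul_nonneg g0 a2) (by nlinarith)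
    fun z hz => ?_).mono (le_of_eq (by ring))
  have hz' := mem_bx.1 hz
  refine ⟨(bx_subset (by omega)).trans hZ, (h1 K hK l pc M Φ te ub w C L' sep s T z _ β hC hC' hM a1
    (by omega) (by omega) hT ((bx_subset (by omega)).trans hQ) ((bx_subset (by omega)).trans hZ) hs1
    hs2 a2 a3 (hβ z) fun z1 z2 t' b1 b2 b3 b4 b5 =>
      a6 z1 z2 t' ?_ ?_ b3 (by omega) (by omega)).mono (by nlinarith)⟩
  · have := nrm_tri z1 z y; omega
  · have := nrm_tri z2 z y; omega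

end Pool.Agent.Lib.MP_dd0771_pr.Sc
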