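import Pool.Agent.Lib.MP_dd0771_pr.Sc.BbB

/-! Spread of the infection in a world: the fast case, and the final step. -/

open Filter

namespace Pool.Agent.Lib.MP_dd0771_pr.Sc

variable {d : ℕ} {F : Fr}

theorem bbc_back {Z Y0 : Finset (S d)} {I : Tj d} (h : RegT Z Y0 I) {u u' : ℕ} (hu : u ≤ u')
    (hx : (I u').Nonempty) : (I u).Nonempty := by
  induction u', hu using Nat.le_induction with
  | base => exact hx
  | succ v _ ih => exact ih (h.2.2 v hx)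

theorem bbc_card {n L : ℕ} (h : 2 * (2 ^ (4 * n + 3) + 1) ^ d ≤ 2 ^ (5 * n * d)) (hL : L ≤ 2 ^ n) :
    (bx (0 : S d) (2 * L)).card ≤ 2 ^ (5 * n * d) := by
  rw [card_bx]
  have e1 : 2 ^ (n + 2) ≤ 2 ^ (4 * n + 3) := Nat.pow_le_pow_right (by norm_num) (by omega)
  have e2 : 2 ^ (n + 2) = 4 * 2 ^ n := by ring
  have := Nat.pow_le_pow_left (show 2 * (2 * L) + 1 ≤ 2 ^ (4 * n + 3) + 1 by omega) d
  omega

theorem bbc_p {B : Bs} (hB : B.Ok F) {i j : ℕ} (h : i ≤ j) : B.p i ≤ B.p j := by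
  have : (i : ℝ) ≤ j := by exact_mod_cast h
  have := hB.2.1
  simp only [Bs.p]; nlinarith

theorem bbc_pa {B : Bs} (hB : B.Ok F) (i : ℕ) : B.pa ≤ B.p i := by
  have := bbc_p hB (Nat.zero_le i)
  simpa [Bs.p] using this

theorem bbc_p5 {B : Bs} (hB : B.Ok F) {i : ℕ} (h : i ≤ 5) : B.p i ≤ B.pa + 5 * B.g := by
  have := bbc_p hB h
  simpa [Bs.p] using this

theorem bbc_succ (B : Bs) (i : ℕ) : B.p i + B.g = B.p (i + 1) := by
  simp only [Bs.p]; push_cast; ring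

theorem bbc_case1 (hd : 1 ≤ d) (hF : F.Ok) (hL : Low d F) (hE : Eng d F) (hHOV : S_HOV d F) :
    EvB d F fun B n K => ∀ (ρ Lh r T Th : ℕ) (c : ℝ), TyOk F B n (B.p 2) (B.p 2, Lh) →
    PlainAt d F B K n (B.p 2) (B.p 2, Lh) Th → 1 ≤ Th → 1 ≤ T → T + Th ≤ 2 ^ n → Lh ≤ ρ →
    1 ≤ ρ → 8 * ρ ≤ 2 ^ n → 4 * ρ ≤ r → c ≤ 1 → 16 * B.eps ≤ c → 16 * er n ≤ c * B.th →
    c * B.th ≤ reach d F.toMd K (B.p 2, 8 * ρ) B.n0 r T →
    6 * B.eps + 2 * (d * (Lh : ℝ) ^ 2 / (ρ : ℝ) ^ 2 + 5 * B.eps) * (2 * (T : ℝ) / Th + 1) ≤ c / 4 →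
    c * B.th / 4 ≤ cP F.toMd K (B.p 3, 8 * ρ) (0 : S d) (B.n0 + T) (SprE B.n0 T (2 * ρ)) := by
  intro B hB
  filter_upwards [hE.hWA B hB, hE.hV0 B hB, hE.hAL B hB, scales hF B, le_of_Lmin hF B, card_le hd,
    eventually_ge_atTop 1] with n h1 h2 h3 h4 h5 h6 hn K hK ρ Lh r T Th c hC hP hTh hT hTT hρ hρ1 hρ2
    hr hc1 hc2 hc3 hre hco
  obtain ⟨-, d2, d3, d4⟩ := h5 Lh hC.2.2.2.1
  have hR : RR F B n ≤ VV n * RR F B n := Nat.le_mul_of_pos_left _ (Nat.one_le_pow _ _ hn)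
  have hn0 : B.n0 ≤ RR F B n := le_trans (Nat.le_add_left _ _) h4.2.2.2.2.2.1
  have p1 : 2 ^ (n + 1) = 2 * 2 ^ n := by ring
  have p2 : 2 ^ n ≤ 2 ^ (4 * n) := Nat.pow_le_pow_right (by norm_num) (by omega)
  obtain ⟨M, Φ, hM, e1, e2, e3, hΦ, hg, hf⟩ := h1 K hK (B.p 2) (B.p 3) (bx 0 (2 * (8 * ρ)))
    (bx 0 (2 * (8 * ρ))) (bx 0 (2 * ρ)) 0 (B.n0 + T) (B.n0 + T + Th + RR F B n) Finset.Nonempty
    (bbc_pa hB 2) (bbc_succ B 2).le ((bbc_p5 hB (by norm_num)).trans hB.2.2.1) subset_rfl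
    (bx_mono _ (by omega)) (bbc_card h6 hρ2) (by omega) (by omega)
  have hρ0 : (0 : ℝ) < ρ := by exact_mod_cast hρ1
  have he := hB.2.2.2.2.2.1
  have geo : ∀ y : S d, eu (y - 0) < (ρ : ℝ) ^ 2 → Adm M {y} Lh ∧ bx y Lh ⊆ M.Z := by
    intro y hy
    have := lt_of_pow_lt_pow_left₀ 2 hρ0.le ((nrm_sq_le_eu (y - 0)).trans_lt hy)
    have : nrm (y - 0) < ρ := by exact_mod_cast this
    have hz : bx y Lh ⊆ M.Z := by rw [e2]; exact bx_subset (by omega)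
    exact ⟨⟨apart_single _ _, by rw [wQ_single, e1]; exact bx_subset (by omega), by
      rwa [wZ_single]⟩, hz⟩
  have hv := hHOV B K n (B.p 2) (B.p 2, Lh) (B.p 2, Lh) Th M Φ _ 1 0 ρ (6 * B.eps) 1 (B.n0 + T) hB hP
    hTh hC hC hM hΦ hρ0 (by positivity) zero_le_one le_rfl le_rfl geo (fun y t' _ b2 b3 =>
      (h2 K hK (B.p 2) M Φ _ 1 1 (B.p 2, Lh) {y} t' hC hΦ b3 (apart_single _ _) zero_le_one le_rfl
        fun s hs hx => hg s (by omega) (by omega) (by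
          obtain ⟨x, hx, -⟩ := hx y (Finset.mem_singleton_self y); exact ⟨x, hx⟩)).mono (by
        have := div_nonneg (eu_nonneg (y - 0)) (sq_nonneg (ρ : ℝ)); linarith))
    0 B.n0 (by omega) (by omega)
  have e0 : eu ((0 : S d) - 0) = 0 := by simp [eu]
  have a1 := hf (B.p 2, Lh) (1 - c / 4) hC (geo 0 (by rw [e0]; positivity)).1 (by linarith)
    (hv.mono (by rw [e0]; push_cast; simp only [add_sub_cancel_left, zero_div]; linarith))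
  have a2 := wP_two (K := K) (φ := B.p 3) (Q := bx (0 : S d) (2 * (8 * ρ))) (Z := bx 0 (8 * ρ))
    (Y0 := {0}) (T := B.n0 + T + Th + RR F B n) hF (Z' := bx 0 (2 * ρ)) (bx_mono _ (by omega))
    (E1 := fun I => ∃ u, B.n0 + T ≤ u ∧ u ≤ B.n0 + T + Th + RR F B n ∧ (I u).Nonempty)
    (E2 := fun I => ∃ u, B.n0 ≤ u ∧ u ≤ B.n0 + T ∧ ∃ x ∈ I u, r ≤ nrm x)
    (E := fun I => (I B.n0).Nonempty) (E' := SprE B.n0 T (2 * ρ)) (by
      rintro J I _ hI hJI (⟨u, b1, -, b3⟩ | ⟨u, b1, -, x, hx, -⟩)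
      · exact bbc_back hI (by omega) (b3.mono (hJI u))
      · exact bbc_back hI b1 ⟨x, hx⟩) (by
      rintro J I hJ - hJI ⟨u', b1, -, b3⟩ ⟨u, c1, c2, x, hx, c3⟩
      obtain ⟨x', hx'⟩ := bbc_back hJ (c2.trans b1) b3
      refine ⟨u, c1, c2, x, hx, x', hJI u hx', ?_⟩
      have f1 := mem_bx.1 (hJ.2.1 u hx')
      have f2 := nrm_tri x x' 0
      rw [sub_zero] at f2
      omega)
  rw [wP_horizon (T := B.n0 + T) (E := SprE B.n0 T (2 * ρ)) (by omega)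
      (fun I J h ⟨u, b1, b2, b3⟩ => ⟨u, b1, b2, h u b2 ▸ b3⟩),
    wP_horizon (T := B.n0) (E := fun I => (I B.n0).Nonempty) (by omega)
      (fun I J h b => h _ le_rfl ▸ b),
    wP_horizon (T := B.n0 + T) (E := fun I => ∃ u, B.n0 ≤ u ∧ u ≤ B.n0 + T ∧ ∃ x ∈ I u, r ≤ nrm x)
      (by omega) (fun I J h ⟨u, b1, b2, b3⟩ => ⟨u, b1, b2, h u b2 ▸ b3⟩)] at a2
  have a3 := (h3 K hK (B.p 3, 8 * ρ) (bbc_pa hB 3) (bbc_p hB (by norm_num)) (by simp only; omega)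
    (by simp only; omega)).1
  have a4 := hL.hMONO K (B.p 2) (B.p 3) (bx (0 : S d) (2 * (8 * ρ))) (bx 0 (8 * ρ)) (bx 0 (8 * ρ))
    {0} {0} (B.n0 + T) (fun I => ∃ u, B.n0 ≤ u ∧ u ≤ B.n0 + T ∧ ∃ x ∈ I u, r ≤ nrm x)
    (hK.kp hF hB (bbc_pa hB 2) (bbc_p5 hB (by norm_num)))
    (hK.kp hF hB (bbc_pa hB 3) (bbc_p5 hB (by norm_num))) (bbc_p hB (by norm_num)) subset_rfl
    subset_rfl fun I J h ⟨u, b1, b2, x, hx, b3⟩ => ⟨u, b1, b2, x, h u hx, b3⟩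
  have hth := hB.2.2.2.1
  simp only [reach, alv, cP, Bs.thm, Bs.thp] at *
  nlinarith [mul_pos hth he, mul_le_mul_of_nonneg_left hc2 hth.le,
    mul_nonneg (mul_pos hth he).le (show 0 ≤ c by linarith)]

theorem bbc_fin (hd : 1 ≤ d) (hF : F.Ok) (hE : Eng d F) :
    EvB d F fun B n K => ∀ (C : Ty) (L L' Ds tt T : ℕ) (b : ℝ), TyOk F B n (B.p 3) C →
    TyOk F B n (B.p 3) (B.p 2, L') → C.2 ≤ L → 16 * L ≤ 2 ^ n → tt ≤ T → T ≤ 2 ^ n →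
    2 * L' + 2 ≤ 2 * Ds → 0 ≤ b → 4 * er n ≤ b * B.th →
    (∀ M : Amb d, M.Ok F B K n (B.p 3) → BPi F B K n M C L' (2 * L) (4 * Ds) (3 * L) tt b) →
    b / 2 * B.th ≤ wP F.toMd K (B.p 4) (bx (0 : S d) (2 * (16 * L))) (bx 0 (16 * L / 4)) {0}
      (B.n0 + T) (SprE B.n0 T (2 * Ds)) := by
  intro B hB
  filter_upwards [hE.hWA B hB, hE.hV0 B hB, scales hF B, card_le hd] with n h1 h2 h4 h6 K hK C L L'
    Ds tt T b hC hC' hCL hL ht hT hD hb0 hb h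
  have p1 : 2 ^ (n + 1) = 2 * 2 ^ n := by ring
  have p2 : n < 2 ^ n := Nat.lt_two_pow_self
  have hn0 := h4.1
  obtain ⟨M, Φ, hM, e1, e2, e3, hΦ, hg, hf⟩ := h1 K hK (B.p 3) (B.p 4) (bx 0 (2 * (16 * L)))
    (bx 0 (2 * (16 * L))) (bx 0 (16 * L / 4)) 0 B.n0 (B.n0 + T) (Spread (2 * Ds))
    (bbc_pa hB 3) (bbc_succ B 3).le ((bbc_p5 hB (by norm_num)).trans hB.2.2.1) subset_rfl
    (bx_mono _ (by omega)) (bbc_card h6 hL) (by omega) (by omega)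
  have he := hB.2.2.2.2.2.1
  have he1 := hB.2.2.2.2.2.2.1
  have hv := h M hM 0 (by rw [e1]; exact bx_mono _ (by omega)) (by rw [e2]; exact bx_mono _ (by omega))
    Φ _ 1 (1 * (1 - 6 * B.eps)) B.n0 hΦ (by linarith) (by linarith) (by omega) (by omega)
    fun z z' t _ _ b3 b4 b5 => h2 K hK (B.p 3) M Φ _ 1 1 (B.p 2, L') {z, z'} t hC' hΦ (by omega)
      (apart_pair (by simp only; omega)) zero_le_one le_rfl fun s hs hx =>
        hg s (by omega) (by omega) (by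
          obtain ⟨x, g1, g2⟩ := hx z (by simp)
          obtain ⟨x', g3, g4⟩ := hx z' (by simp)
          refine ⟨x, g1, x', g3, ?_⟩
          have f1 := mem_bx.1 g2
          have f2 := mem_bx.1 g4
          have f3 := nrm_tri z x z'
          have f4 := nrm_tri x x' z'
          rw [nrm_sub_comm z x] at f3
          simp only at f1 f2
          omega)
  have a1 := hf C _ hC ⟨apart_single _ _, by rw [wQ_single, e1]; exact bx_mono _ (by omega), by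
    rw [wZ_single, e2]; exact bx_mono _ (by omega)⟩ (mul_nonneg hb0 (by linarith)) hv
  refine le_trans ?_ a1
  have hth := hB.2.2.2.1
  have : (3 / 4 : ℝ) ≤ (1 - B.eps) * (1 - 6 * B.eps) := by nlinarith
  simp only [Bs.thm]
  nlinarith [mul_le_mul_of_nonneg_left this (mul_nonneg hb0 hth.le)]

end Pool.Agent.Lib.MP_dd0771_pr.Sc
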