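import Mathlib

/-! Numerical lemmas for the recursion on the separation. -/

open Filter

namespace Pool.Agent.Lib.MP_dd0771_pr.Sc

theorem bbd_rec (Q : ℕ → ℝ → Prop) (mono : ∀ s b b', Q s b → b' ≤ b → Q s b') {j s0 i : ℕ}
    {g c θ : ℝ} (g0 : 0 < g) (gc : g ≤ c) (t0 : 0 < θ) (t1 : θ ≤ 1) (hj : Q j g) (h01 : j ≤ s0)
    (h02 : s0 ≤ i) (h1 : ∀ s b, j ≤ s → s < i → 0 < b → b ≤ c → Q s b → Q (s + 1) (θ * b))
    (h2 : ∀ s b, s0 ≤ s → s < i → 0 < b → b ≤ c → Q s b → Q (s + 1) (min c (8 * b)))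
    (h : c ≤ 8 ^ (i - s0) * (θ ^ (s0 - j) * g)) : Q i c := by
  have le : ∀ u : ℕ, 0 < θ ^ u * g ∧ θ ^ u * g ≤ c := fun u =>
    ⟨by positivity, (mul_le_of_le_one_left g0.le (pow_le_one₀ t0.le t1)).trans gc⟩
  have a : ∀ u, j + u ≤ i → Q (j + u) (θ ^ u * g) := by
    intro u
    induction u with
    | zero => intro _; simpa using hj
    | succ u ih =>
      intro hu
      exact mono _ _ _ (h1 (j + u) _ (by omega) (by omega) (le u).1 (le u).2 (ih (by omega)))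
        (le_of_eq (by ring))
  have b : ∀ u, s0 + u ≤ i → Q (s0 + u) (min c (8 ^ u * (θ ^ (s0 - j) * g))) := by
    intro u
    induction u with
    | zero =>
      intro _
      have := a (s0 - j) (by omega)
      rw [show j + (s0 - j) = s0 by omega] at this
      exact mono _ _ _ this (by simp)
    | succ u ih =>
      intro hu
      have p := (le (s0 - j)).1
      refine mono _ _ _ (h2 (s0 + u) _ (by omega) (by omega)
        (lt_min (g0.trans_le gc) (by positivity)) (min_le_left _ _) (ih (by omega)))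
        (le_min (min_le_left _ _) ?_)
      rw [mul_min_of_nonneg _ _ (by norm_num : (0 : ℝ) ≤ 8)]
      exact min_le_min (by linarith [g0.trans_le gc]) (le_of_eq (by ring))
  have := b (i - s0) (by omega)
  rwa [show s0 + (i - s0) = i by omega, min_eq_left h] at this

theorem bbd_root {a : ℕ} (ha : 1 ≤ a) {P : ℕ → Prop}
    (h : ∀ᶠ j in atTop, ∀ i, j ^ a ≤ i → i < (j + 1) ^ a → P i) : ∀ᶠ i in atTop, P i := by
  obtain ⟨j0, hj⟩ := eventually_atTop.1 h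
  refine eventually_atTop.2 ⟨j0 ^ a, fun i hi => ?_⟩
  have ex : ∃ j, i < (j + 1) ^ a := ⟨i, (Nat.lt_succ_self i).trans_le (Nat.le_self_pow (by omega) _)⟩
  have h1 := Nat.find_spec ex
  have h2 : Nat.find ex ^ a ≤ i := by
    rcases Nat.eq_zero_or_pos (Nat.find ex) with e | e
    · rw [e, zero_pow (by omega)]; exact Nat.zero_le _
    · have := Nat.find_min ex (show Nat.find ex - 1 < Nat.find ex by omega)
      rw [show Nat.find ex - 1 + 1 = Nat.find ex by omega] at this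
      omega
  refine hj _ ?_ i h2 h1
  have := lt_of_pow_lt_pow_left₀ a (Nat.zero_le _) (hi.trans_lt h1)
  omega

theorem bbd_sq (C : ℕ) : ∀ᶠ j : ℕ in atTop, C * (j + 1) ^ 2 ≤ j ^ 3 := by
  filter_upwards [eventually_ge_atTop (4 * C + 1)] with j hj
  calc C * (j + 1) ^ 2 ≤ C * (2 * j) ^ 2 :=
        Nat.mul_le_mul_left _ (Nat.pow_le_pow_left (by omega) _)
    _ = 4 * C * j ^ 2 := by ring
    _ ≤ j * j ^ 2 := Nat.mul_le_mul_right _ (by omega)
    _ = j ^ 3 := by ring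

/-- The constants of the recursion. -/
structure BCst (d : ℕ) (c : ℝ) (x k Nt Mn : ℕ) (e : ℝ) : Prop where
  x40 : 40 ≤ x
  x8 : 8 ∣ x
  hk : 2 ^ k = x ^ 8
  hr : 2000 * d ≤ c * (x : ℝ) ^ 6
  hN : 300 * d * (x : ℝ) ^ 18 ≤ c * Nt
  hM : 64 ≤ Mn * (39 / 100 : ℝ) ^ k
  hb : Mn * (8 * (x : ℝ) ^ 16 + 2 * Nt) ≤ c / (2048 * d) * (x : ℝ) ^ 32
  e1 : 500 * e * Nt ≤ 1
  e2 : 320 * e * ((x : ℝ) ^ 32 + 1) ≤ c

theorem bbd_cst {d : ℕ} (hd : 1 ≤ d) {c : ℝ} (c0 : 0 < c) (c1 : c ≤ 1) :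
    ∃ (x k Nt Mn : ℕ) (e1 : ℝ), 18 ≤ k ∧ 0 < e1 ∧ ∀ e, 0 ≤ e → e ≤ e1 → BCst d c x k Nt Mn e := by
  have hd' : (1 : ℝ) ≤ d := by exact_mod_cast hd
  obtain ⟨q, hq⟩ := pow_unbounded_of_one_lt (64 * 610 * 2048 * (d / c) ^ 2 : ℝ)
    (by norm_num : (1 : ℝ) < 2)
  have dc : 1 ≤ (d : ℝ) / c := by rw [le_div_iff₀ c0]; linarith
  have h40 : (40 : ℝ) ≤ 2 ^ q := by nlinarith
  have x40 : 40 ≤ 2 ^ q := by exact_mod_cast h40
  have q3 : 3 ≤ q := by
    by_contra h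
    have := Nat.pow_le_pow_right (show 0 < 2 by norm_num) (show q ≤ 2 by omega)
    omega
  set x : ℝ := 2 ^ q with hx
  have x1 : 1 ≤ x := by linarith
  have cx : ((2 ^ q : ℕ) : ℝ) = x := by push_cast; rfl
  set Nt := ⌈300 * ((d : ℝ) / c) * x ^ 18⌉₊ with hNt
  have n1 : 300 * ((d : ℝ) / c) * x ^ 18 ≤ Nt := Nat.le_ceil _
  have x18 : 1 ≤ x ^ 18 := one_le_pow₀ x1
  have n2 : (Nt : ℝ) ≤ 301 * ((d : ℝ) / c) * x ^ 18 := by
    have := (Nat.ceil_lt_add_one (show 0 ≤ 300 * ((d : ℝ) / c) * x ^ 18 by positivity)).le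
    nlinarith
  refine ⟨2 ^ q, 8 * q, Nt, 64 * 3 ^ (8 * q), min (1 / (500 * Nt + 1)) (c / (320 * (x ^ 32 + 1))),
    by omega, by positivity, fun e e0 he => ⟨x40, ?_, by ring, ?_, ?_, ?_, ?_, ?_, ?_⟩⟩
  · exact pow_dvd_pow 2 q3
  · rw [cx]
    have h1 : 2000 * ((d : ℝ) / c) ≤ x := by nlinarith
    have h2 : x ≤ x ^ 6 := le_self_pow₀ x1 (by norm_num)
    have := mul_le_mul_of_nonneg_left (h1.trans h2) c0.le
    rwa [show c * (2000 * ((d : ℝ) / c)) = 2000 * d by field_simp] at this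
  · rw [cx]
    have := mul_le_mul_of_nonneg_left n1 c0.le
    rwa [show c * (300 * ((d : ℝ) / c) * x ^ 18) = 300 * d * x ^ 18 by field_simp] at this
  · push_cast
    rw [mul_assoc, ← mul_pow]
    have : (1 : ℝ) ≤ (3 * (39 / 100)) ^ (8 * q) := one_le_pow₀ (by norm_num)
    linarith
  · rw [cx]; push_cast
    have h1 : (3 : ℝ) ^ (8 * q) * x ≤ x ^ 14 := by
      rw [hx, pow_mul, ← mul_pow, ← pow_mul, mul_comm q 14, pow_mul]
      exact pow_le_pow_left₀ (by norm_num) (by norm_num) _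
    have h2 : x ^ 16 ≤ (d : ℝ) / c * x ^ 18 :=
      (pow_le_pow_right₀ x1 (by norm_num)).trans (le_mul_of_one_le_left (by positivity) dc)
    have h3 : 8 * x ^ 16 + 2 * (Nt : ℝ) ≤ 610 * ((d : ℝ) / c) * x ^ 18 := by nlinarith
    have h4 : (0 : ℝ) < 3 ^ (8 * q) := by positivity
    calc 64 * (3 : ℝ) ^ (8 * q) * (8 * x ^ 16 + 2 * Nt)
        ≤ 64 * 3 ^ (8 * q) * (610 * ((d : ℝ) / c) * x ^ 18) := by gcongr
      _ = c / (2048 * d) * (3 ^ (8 * q) * (64 * 610 * 2048 * (d / c) ^ 2) * x ^ 18) := by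
        field_simp
      _ ≤ c / (2048 * d) * (3 ^ (8 * q) * x * x ^ 18) := by gcongr
      _ ≤ c / (2048 * d) * (x ^ 14 * x ^ 18) := by gcongr
      _ = _ := by ring
  · have := (le_div_iff₀ (by positivity)).1 (he.trans (min_le_left _ _))
    nlinarith
  · rw [cx]
    have := (le_div_iff₀ (by positivity)).1 (he.trans (min_le_right _ _))
    linarith

end Pool.Agent.Lib.MP_dd0771_pr.Sc
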