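import Pool.Agent.Lib.MP_dd0771_pr.Sc.BbC
import Pool.Agent.Lib.MP_dd0771_pr.Sc.BbD

/-! One level of the recursion on the separation. -/

open Filter

namespace Pool.Agent.Lib.MP_dd0771_pr.Sc

variable {d : ℕ} {F : Fr}

/-- The statement proved level by level. -/
def BQ (d : ℕ) (F : Fr) (B : Bs) (K n x L tmax : ℕ) (b : ℝ) : Prop :=
  ∃ (C : Ty) (tt : ℕ), TyOk F B n (B.p 3) C ∧ C.2 ≤ x ^ 8 * L ∧ tt ≤ tmax ∧
    ∀ M : Amb d, M.Ok F B K n (B.p 3) →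
      BPi F B K n M C L (2 * (x ^ 8 * L)) (x * L) (3 * (x ^ 8 * L)) tt b

theorem BQ.mono {B : Bs} {K n x L t : ℕ} {b b' : ℝ} (h : BQ d F B K n x L t b) (hb : b' ≤ b) :
    BQ d F B K n x L t b' :=
  let ⟨C, tt, h1, h2, h3, h4⟩ := h
  ⟨C, tt, h1, h2, h3, fun M hM => (h4 M hM).mono le_rfl le_rfl le_rfl hb⟩

/-- What is used about the level of size `L` and time `T`. -/
structure BLv (d : ℕ) (F : Fr) (B : Bs) (K n : ℕ) (c : ℝ) (L T : ℕ) : Prop where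
  ty2 : TyOk F B n (B.p 2) (B.p 2, L)
  ty3 : TyOk F B n (B.p 3) (B.p 2, L)
  ty33 : TyOk F B n (B.p 3) (B.p 3, L)
  pl2 : PlainAt d F B K n (B.p 2) (B.p 2, L) T
  pl3 : PlainAt d F B K n (B.p 3) (B.p 2, L) T
  pr3 : PairAt d F B K n (B.p 3) (B.p 2, L) T c
  rr : RR F B n ≤ T
  t1 : 1 ≤ T
  l1 : 1 ≤ L
  t2 : 4 * T ≤ 2 ^ n
  re : ∃ r, L ≤ 2 * r ∧ c * B.th ≤ reach d F.toMd K (B.p 2, L) B.n0 r T

theorem bbe_lv (hF : F.Ok) (hE : Eng d F) : EvB d F fun B n K => ∀ (c : ℝ) CT L r T,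
    LDat d F B K c CT L r T → Lmin F B n ≤ L → L ≤ 2 ^ n → 4 * T ≤ 2 ^ n → 20 * B.eps ≤ c →
    c ≤ 1 / 10 → BLv d F B K n c L T := by
  intro B hB
  filter_upwards [hE.hSLP B hB, hE.hSL2 B hB, scales hF B, le_of_Lmin hF B, eventually_ge_atTop 1]
    with n h1 h2 h3 h4 hn K hK c CT L r T ⟨a1, a2, a3, a4, a5, a6⟩ l1 l2 hT hc hc1
  obtain ⟨-, d2, d3, -⟩ := h4 L l1
  have hR : RR F B n ≤ VV n * RR F B n := Nat.le_mul_of_pos_left _ (Nat.one_le_pow _ _ hn)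
  have hsR : sb F B n (ls n) ≤ RR F B n := Nat.le_mul_of_pos_left _ (by omega)
  have h5 := h3.2.2.2.2.1
  have ty : ∀ i j, i ≤ j → j ≤ 4 → TyOk F B n (B.p j) (B.p i, L) := fun i j e1 e2 =>
    ⟨bbc_pa hB i, bbc_p hB e1, bbc_p hB e2, l1, l2⟩
  have hth := hB.2.2.2.1
  have pl : ∀ j, 2 ≤ j → j ≤ 4 → PlainAt d F B K n (B.p j) (B.p 2, L) T := fun j e1 e2 =>
    h1 K hK _ _ r T (ty 2 j e1 e2) (bbc_p hB (by norm_num)) (by simp only; omega) (by omega)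
      fun t ht => (a4 t ht).trans (by nlinarith)
  exact ⟨ty 2 2 le_rfl (by norm_num), ty 2 3 (by norm_num) (by norm_num),
    ty 3 3 le_rfl (by norm_num), pl 2 le_rfl (by norm_num), pl 3 (by norm_num) (by norm_num),
    h2 K hK _ _ r T c (ty 2 3 (by norm_num) (by norm_num)) (bbc_p hB (by norm_num)) a1
      (by simp only; omega) (by omega) hc a3, by omega, by omega, by omega, hT,
    _, by omega, a3⟩

theorem bbe_num1 {d c e X P T Th : ℝ} (hd : 1 ≤ d) (c0 : 0 < c) (e0 : 0 < e) (hTh : 0 < Th)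
    (h1 : 2048 * d ≤ c * P) (h2 : P ≤ X) (c1 : c ≤ 1) (he : 320 * e * (X + 1) ≤ c) (P0 : 0 < P)
    (hT : T ≤ c / (2048 * d) * P * Th) :
    6 * e + 2 * (64 * d / P + 5 * e) * (2 * T / Th + 1) ≤ c / 4 := by
  have a1 : 2 * T / Th ≤ 2 * (c / (2048 * d) * P) := by rw [div_le_iff₀ hTh]; linarith
  have a2 : 64 * d / P ≤ c / 32 := by rw [div_le_iff₀ P0]; linarith
  have a3 : 64 * d / P * (c / (2048 * d) * P) = c / 32 := by field_simp; ring
  have a4 : c / (2048 * d) ≤ 1 := by rw [div_le_one (by positivity)]; linarith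
  have a5 : c / (2048 * d) * P ≤ X := (mul_le_of_le_one_left P0.le a4).trans h2
  have a6 : 0 ≤ 64 * d / P + 5 * e := by positivity
  nlinarith [mul_le_mul_of_nonneg_left a1 a6, mul_le_mul_of_nonneg_left a5 e0.le]

theorem bbe_num2 {d c e X P S Th m : ℝ} (hd : 1 ≤ d) (c0 : 0 < c) (e0 : 0 < e) (hTh : 0 < Th)
    (h2 : P ≤ X) (c1 : c ≤ 1) (he : 320 * e * (X + 1) ≤ c) (P0 : 0 < P) (m0 : 0 ≤ m)
    (hS : m * (2 * S + Th) ≤ 2 * (c / (2048 * d) * P * Th)) :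
    m * (2 * (64 * d / P + 5 * e) * (2 * S / Th + 1)) ≤ 1 / 2 := by
  have a1 : m * (2 * S / Th + 1) ≤ 2 * (c / (2048 * d) * P) := by
    rw [show m * (2 * S / Th + 1) = m * (2 * S + Th) / Th by field_simp, div_le_iff₀ hTh]; linarith
  have a3 : 64 * d / P * (c / (2048 * d) * P) = c / 32 := by field_simp; ring
  have a4 : c / (2048 * d) ≤ 1 := by rw [div_le_one (by positivity)]; linarith
  have a5 : c / (2048 * d) * P ≤ X := (mul_le_of_le_one_left P0.le a4).trans h2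
  have a6 : 0 ≤ 64 * d / P + 5 * e := by positivity
  nlinarith [mul_le_mul_of_nonneg_left a1 a6, mul_le_mul_of_nonneg_left a5 e0.le]

theorem bbe_core (hd : 1 ≤ d) (hF : F.Ok) (hL : Low d F) (hE : Eng d F) (hHOV : S_HOV d F)
    (hBO : S_BOOST d F) (hCL : S_CLIMB d F) : EvB d F fun B n K =>
    ∀ (x k Nt Mn L T0 T1 T2 tc Lh Th g : ℕ) (c b : ℝ), BCst d c x k Nt Mn B.eps → 0 < c →
    c ≤ 1 / 10 → BLv d F B K n c L T0 → BLv d F B K n c (x ^ 8 * L) T1 →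
    BLv d F B K n c (x ^ 8 * (x ^ 8 * L)) T2 → BLv d F B K n c Lh Th →
    g * Lh = x ^ 8 * (x ^ 8 * L) → x ^ 8 ≤ g → g ≤ x ^ 16 → x ^ 16 * T1 ≤ g ^ 2 * Th →
    x ^ 32 * T0 ≤ g ^ 2 * Th → 16 * er n ≤ c * B.th → 16 * (tol (ls n) + 2 * e2 n) ≤ c → 0 < b →
    b ≤ c / 16 → BQ d F B K n x L (2 * T1 + tc) b →
    BQ d F B K n x (x ^ 8 * L) (2 * T2 + tc) ((39 / 100) ^ k * b) ∧
      (tc ≤ T1 → BQ d F B K n x (x ^ 8 * L) (2 * T2 + tc) (min (c / 16) (8 * b))) := by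
  intro B hB
  filter_upwards [bbc_case1 hd hF hL hE hHOV B hB, bbb_c1 hF hL hE B hB] with n h1 h2 K hK x k Nt Mn
    L T0 T1 T2 tc Lh Th g c b hc c0 c1 v0 v1 v2 vh hg g1 g2 g3 g4 s1 s2 b0 b1 ⟨C, tt, q1, q2, q3, q4⟩
  have hd' : (1 : ℝ) ≤ d := by exact_mod_cast hd
  have x40 := hc.x40
  have he := hB.2.2.2.2.2.1
  have he1 := hB.2.2.2.2.2.2.1
  have hth := hB.2.2.2.1
  have e16 : x ^ 16 * L = x ^ 8 * (x ^ 8 * L) := by ring
  have xR : (40 : ℝ) ≤ x := by exact_mod_cast x40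
  have x8 : 40 * x ≤ x ^ 8 := by
    calc 40 * x ≤ x * x := Nat.mul_le_mul_right _ x40
      _ = x ^ 2 := by ring
      _ ≤ x ^ 8 := Nat.pow_le_pow_right (by omega) (by norm_num)
  have l1 := v1.l1
  have l2 : 40 * (x * (x ^ 8 * L)) ≤ x ^ 8 * (x ^ 8 * L) := by
    rw [← mul_assoc]; exact Nat.mul_le_mul_right _ x8
  have l3 : 40 * (x ^ 8 * L) ≤ x * (x ^ 8 * L) := Nat.mul_le_mul_right _ x40
  have l4 : 40 * Lh ≤ g * Lh := Nat.mul_le_mul_right _ (by omega)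
  have gR : (0 : ℝ) < g := by exact_mod_cast (show 0 < g by omega)
  have hTh : (0 : ℝ) < Th := by exact_mod_cast vh.t1
  have hLh : (0 : ℝ) < Lh := by exact_mod_cast vh.l1
  have P1 : (x : ℝ) ^ 16 ≤ (g : ℝ) ^ 2 := by
    have := Nat.pow_le_pow_left g1 2
    rw [← pow_mul] at this; exact_mod_cast this
  have P2 : (g : ℝ) ^ 2 ≤ (x : ℝ) ^ 32 := by
    have := Nat.pow_le_pow_left g2 2
    rw [← pow_mul] at this; exact_mod_cast this
  have q0 : (0 : ℝ) < (39 / 100) ^ k := by positivity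
  have q1' : ((39 / 100 : ℝ)) ^ k ≤ 1 := pow_le_one₀ (by norm_num) (by norm_num)
  have x32 : (0 : ℝ) < (x : ℝ) ^ 32 := by positivity
  have hec : 320 * B.eps ≤ c := by nlinarith [hc.e2, mul_pos he x32]
  by_cases hT : (T2 : ℝ) ≤ c / (2048 * d) * (g : ℝ) ^ 2 * Th
  · obtain ⟨ρ, hρ⟩ : 8 ∣ x ^ 8 * (x ^ 8 * L) :=
      (hc.x8.trans (dvd_pow_self x (by norm_num))).mul_right _
    obtain ⟨r, r1, r2⟩ := v2.re
    have t2 := v2.t2
    have th2 := vh.t2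
    have hsz : x ^ 8 * (x ^ 8 * L) ≤ 2 ^ n := v2.ty2.2.2.2.2
    have a1 := h1 K hK ρ Lh r T2 Th c vh.ty2 vh.pl2 vh.t1 v2.t1 (by omega) (by omega) (by omega)
      (by omega) (by omega) (by linarith) (by linarith) s1 (hρ ▸ r2) (by
        have e : (ρ : ℝ) = g * Lh / 8 := by
          have : ((g * Lh : ℕ) : ℝ) = ((8 * ρ : ℕ) : ℝ) := by rw [hg, hρ]
          push_cast at this; linarith
        rw [show d * (Lh : ℝ) ^ 2 / (ρ : ℝ) ^ 2 = 64 * d / (g : ℝ) ^ 2 by rw [e]; field_simp; ring]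
        refine bbe_num1 hd' c0 he hTh ?_ P2 (by linarith) hc.e2 (by positivity) hT
        have f1 : 40 * (x : ℝ) ^ 6 ≤ (x : ℝ) ^ 16 := by
          calc 40 * (x : ℝ) ^ 6 ≤ (x : ℝ) * (x : ℝ) ^ 6 := by gcongr
            _ = (x : ℝ) ^ 7 := by ring
            _ ≤ (x : ℝ) ^ 16 := pow_le_pow_right₀ (by linarith) (by norm_num)
        nlinarith [hc.hr, mul_le_mul_of_nonneg_left (f1.trans P1) c0.le])
    have a2 : BQ d F B K n x (x ^ 8 * L) (2 * T2 + tc) (c / 16) := by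
      refine ⟨_, T2 + RR F B n, v2.ty33, le_rfl, by have := v2.rr; omega, fun M hM => (h2 K hK _ M _
        (x ^ 8 * L) (x * (x ^ 8 * L)) (2 * ρ) T2 (c * B.th / 4) (c / 16) v2.ty33 v1.ty3 hM (by omega)
        (by simp only; omega) (by omega) (by omega) (by rw [hρ]; exact a1) ?_).mono
        (by simp only; omega) (by simp only; omega) le_rfl le_rfl⟩
      have : c / 8 ≤ (c * B.th / 4 - er n) / B.thp := by
        rw [le_div_iff₀ (thp_pos hB)]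
        simp only [Bs.thp]
        nlinarith [mul_pos c0 hth]
      linarith
    exact ⟨a2.mono (by nlinarith), fun _ => a2.mono (min_le_left _ _)⟩
  · have pass := fun M hM => bba_pass hCL hB hM x40 hc.hk v0.l1 v0.pr3 v0.ty3 v1.ty3 c0
      (by linarith) hc.hN hc.e1 hc.hr (q4 M hM)
    rw [e16] at pass
    have r0 := v0.rr
    have r1 := v1.rr
    have rh := vh.rr
    have n1 : Nt * (T0 + RR F B n) ≤ Nt * (2 * T0) := Nat.mul_le_mul_left _ (by omega)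
    have M1 : (1 : ℝ) ≤ Mn := by nlinarith [hc.hM, (Nat.cast_nonneg Mn : (0 : ℝ) ≤ Mn)]
    -- the basic time estimate
    have key : (Mn : ℝ) * (2 * Th + 6 * T1 + Nt * (2 * T0)) ≤ c / (2048 * d) * (g : ℝ) ^ 2 * Th := by
      have f1 : (x : ℝ) ^ 16 * T1 ≤ (g : ℝ) ^ 2 * Th := by exact_mod_cast g3
      have f2 : (x : ℝ) ^ 32 * T0 ≤ (g : ℝ) ^ 2 * Th := by exact_mod_cast g4
      have f3 : (x : ℝ) ^ 16 * Th ≤ (g : ℝ) ^ 2 * Th := by gcongr
      have f4 : (0 : ℝ) ≤ (x : ℝ) ^ 16 := by positivity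
      have f5 : (x : ℝ) ^ 32 * (2 * Th + 6 * T1 + Nt * (2 * T0)) ≤
          (8 * (x : ℝ) ^ 16 + 2 * Nt) * ((g : ℝ) ^ 2 * Th) := by
        have e : (x : ℝ) ^ 32 = x ^ 16 * x ^ 16 := by ring
        nlinarith [mul_le_mul_of_nonneg_left f1 f4, mul_le_mul_of_nonneg_left f3 f4,
          mul_le_mul_of_nonneg_left f2 (Nat.cast_nonneg Nt : (0 : ℝ) ≤ Nt)]
      refine le_of_mul_le_mul_left ?_ x32
      calc (x : ℝ) ^ 32 * (Mn * (2 * Th + 6 * T1 + Nt * (2 * T0)))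
          = Mn * ((x : ℝ) ^ 32 * (2 * Th + 6 * T1 + Nt * (2 * T0))) := by ring
        _ ≤ Mn * ((8 * (x : ℝ) ^ 16 + 2 * Nt) * ((g : ℝ) ^ 2 * Th)) := by gcongr
        _ = Mn * (8 * (x : ℝ) ^ 16 + 2 * Nt) * ((g : ℝ) ^ 2 * Th) := by ring
        _ ≤ c / (2048 * d) * (x : ℝ) ^ 32 * ((g : ℝ) ^ 2 * Th) :=
          mul_le_mul_of_nonneg_right hc.hb (by positivity)
        _ = _ := by ring
    have key2 : Mn * (2 * Th + 6 * T1 + Nt * (2 * T0)) ≤ T2 := by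
      have := key.trans (not_le.1 hT).le
      exact_mod_cast this
    have key3 : 2 * Th + 6 * T1 + Nt * (2 * T0) ≤ T2 :=
      (Nat.le_mul_of_pos_left _ (by exact_mod_cast M1)).trans key2
    refine ⟨⟨C, _, q1, by omega, by omega, fun M hM =>
      (pass M hM).mono (by omega) (by omega) le_rfl le_rfl⟩, fun htc => ?_⟩
    have n2 : 2 * Th + 3 * RR F B n + (tt + Nt * (T0 + RR F B n)) ≤
        2 * Th + 6 * T1 + Nt * (2 * T0) := by omega
    refine ⟨_, Mn * (2 * Th + 3 * RR F B n + (tt + Nt * (T0 + RR F B n))), vh.ty3,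
      by simp only; omega, ((Nat.mul_le_mul_left _ n2).trans key2).trans (by omega), fun M hM =>
      (bba_boost hBO hB hM vh.pl3 vh.t1 vh.ty3 q1 (by omega) (by omega) (by omega)
        (mul_pos q0 b0).le (by nlinarith) ?_ ?_ (pass M hM)).mono le_rfl le_rfl le_rfl ?_⟩
    · have : 0 ≤ e2 n := by unfold e2; positivity
      linarith
    · rw [← hg, show 64 * d * (Lh : ℝ) ^ 2 / ((g * Lh : ℕ) : ℝ) ^ 2 = 64 * d / (g : ℝ) ^ 2 by
        push_cast; field_simp]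
      refine bbe_num2 hd' c0 he hTh P2 (by linarith) hc.e2 (by positivity) (by positivity) ?_
      have n3 : 2 * (Th + 2 * RR F B n + (tt + Nt * (T0 + RR F B n))) + Th ≤
          2 * (2 * Th + 6 * T1 + Nt * (2 * T0)) := by omega
      have n4 : 2 * ((Th : ℝ) + 2 * RR F B n + ((tt + Nt * (T0 + RR F B n) : ℕ) : ℝ)) + Th ≤
          2 * (2 * Th + 6 * T1 + Nt * (2 * T0)) := by exact_mod_cast n3
      nlinarith [mul_le_mul_of_nonneg_left n4 (Nat.cast_nonneg Mn : (0 : ℝ) ≤ Mn)]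
    · exact min_le_min (by linarith) (by
        have := mul_le_mul_of_nonneg_right hc.hM b0.le
        rw [mul_assoc] at this
        linarith only [this])

theorem bbe_step (hd : 1 ≤ d) (hF : F.Ok) (hL : Low d F) (hE : Eng d F) (hHOV : S_HOV d F)
    (hBO : S_BOOST d F) (hCL : S_CLIMB d F) : EvB d F fun B n K =>
    ∀ (x k Nt Mn L T0 T1 T2 tc : ℕ) (c b : ℝ), BCst d c x k Nt Mn B.eps → 0 < c →
    c ≤ 1 / 10 → BLv d F B K n c L T0 → BLv d F B K n c (x ^ 8 * L) T1 →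
    BLv d F B K n c (x ^ 8 * (x ^ 8 * L)) T2 → 16 * er n ≤ c * B.th →
    16 * (tol (ls n) + 2 * e2 n) ≤ c → 0 < b → b ≤ c / 16 → BQ d F B K n x L (2 * T1 + tc) b →
    BQ d F B K n x (x ^ 8 * L) (2 * T2 + tc) ((39 / 100) ^ k * b) ∧
      (tc ≤ T1 → BQ d F B K n x (x ^ 8 * L) (2 * T2 + tc) (min (c / 16) (8 * b))) := by
  intro B hB
  filter_upwards [bbe_core hd hF hL hE hHOV hBO hCL B hB] with n h K hK x k Nt Mn L T0 T1 T2 tc c b
    hc c0 c1 v0 v1 v2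
  have e : x ^ 8 ≤ x ^ 16 := Nat.pow_le_pow_right (by have := hc.x40; omega) (by norm_num)
  rcases le_total (x ^ 16 * T1) (x ^ 32 * T0) with g | g
  · exact h K hK x k Nt Mn L T0 T1 T2 tc L T0 (x ^ 16) c b hc c0 c1 v0 v1 v2 v0 (by ring) e le_rfl
      (by rwa [← pow_mul]) (by rw [← pow_mul])
  · exact h K hK x k Nt Mn L T0 T1 T2 tc _ T1 (x ^ 8) c b hc c0 c1 v0 v1 v2 v1 rfl le_rfl e
      (by rw [← pow_mul]) (by rwa [← pow_mul])

end Pool.Agent.Lib.MP_dd0771_pr.Sc
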