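import Pool.Agent.Lib.MP_dd0771_pr.Sc.BbE

/-! The recursion on the separation, from the base level to the top level. -/

open Filter

namespace Pool.Agent.Lib.MP_dd0771_pr.Sc

variable {d : ℕ} {F : Fr}

theorem bbf_tol {l E : ℕ} (h : 4 * E ≤ l) : tol l ≤ (1 / 2) ^ E := by
  have h1 : Real.exp (-1) ≤ 1 / 2 := by
    rw [Real.exp_neg, one_div]
    exact inv_anti₀ (by norm_num) (by linarith [Real.add_one_le_exp (1 : ℝ)])
  have h2 : (4 * E : ℝ) ≤ l := by exact_mod_cast h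
  calc tol l ≤ Real.exp (E * (-1)) := Real.exp_le_exp.2 (by linarith)
    _ = Real.exp (-1) ^ E := Real.exp_nat_mul _ _
    _ ≤ _ := pow_le_pow_left₀ (Real.exp_pos _).le h1 _

theorem bbf_half {a b : ℕ} (h : a ≤ b) : (1 / 2 : ℝ) ^ b ≤ (1 / 2) ^ a :=
  pow_le_pow_of_le_one (by norm_num) (by norm_num) h

theorem bbf_base (hF : F.Ok) (hL : Low d F) (hE : Eng d F) : EvB d F fun B n K =>
    ∀ (x L l E T : ℕ), 40 ≤ x → 1 ≤ L → TyOk F B n (B.p 3) (B.p 3, x ^ 8 * L) →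
    TyOk F B n (B.p 3) (B.p 2, L) → T ≤ 2 ^ n → ls n ≤ l → l ^ (F.A + 1) + 1 ≤ n →
    4 * (E + 4) ≤ l → (∀ y : S d, (1 / 2 : ℝ) ^ E ≤ cP F.toMd K (B.p 3, x ^ 8 * L) y (B.n0 + T)
      (SprE B.n0 T (x ^ 8 * L / 16))) →
    ∀ t, T + x ^ 8 * L ≤ t → BQ d F B K n x L t ((1 / 2) ^ (l ^ (F.A + 1) + 1 + (E + 2))) := by
  intro B hB
  filter_upwards [bbb_base hF hL hE B hB] with n h K hK x L l E T x40 l1 c1 c2 hT n1 n2 n3 hβ t ht
  have n4 : l ≤ l ^ (F.A + 1) := Nat.le_self_pow (by omega) _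
  have x8 : 40 * x ≤ x ^ 8 := by
    calc 40 * x ≤ x * x := Nat.mul_le_mul_right _ x40
      _ = x ^ 2 := by ring
      _ ≤ x ^ 8 := Nat.pow_le_pow_right (by omega) (by norm_num)
  have l2 : 40 * (x * L) ≤ x ^ 8 * L := by rw [← mul_assoc]; exact Nat.mul_le_mul_right _ x8
  have l3 : 40 * L ≤ x * L := Nat.mul_le_mul_right _ x40
  have b0 : (0 : ℝ) < (1 / 2) ^ E := by positivity
  have b1 : ((1 / 2 : ℝ)) ^ E ≤ 1 := pow_le_one₀ (by norm_num) (by norm_num)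
  have e1 : e2 n ≤ (1 / 2) ^ E / 16 :=
    (bbf_half (show E + 4 ≤ 2 * n by omega)).trans (le_of_eq (by ring))
  have e2' : tol l ≤ (1 / 2) ^ E / 16 := (bbf_tol n3).trans (le_of_eq (by ring))
  have e3 := (er_le_e2 n).2.1
  have e4 : e2 n ≤ (1 / 2) ^ (l ^ (F.A + 1)) / 2 :=
    (bbf_half (show l ^ (F.A + 1) + 1 ≤ 2 * n by omega)).trans (le_of_eq (by ring))
  refine ⟨_, _, c1, le_rfl, ht, fun M hM => (h K hK l _ M _ L (x * L) _ T _ ((1 / 2) ^ E / 4) n1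
    (by omega) c1 c2 hM hT (by simp only; omega) (by omega) (by omega) hβ (by positivity)
    (by linarith) ?_).mono le_rfl le_rfl le_rfl ?_⟩
  · have : (1 / 2 : ℝ) ^ E / 2 ≤ ((1 / 2) ^ E - er n) / B.thp := by
      rw [le_div_iff₀ (thp_pos hB)]
      obtain ⟨-, -, -, t0, t1, t2, t3, -⟩ := hB
      have : B.thp ≤ 3 / 2 := by simp only [Bs.thp]; nlinarith
      nlinarith [mul_le_mul_of_nonneg_left this b0.le]
    linarith
  · calc (1 / 2 : ℝ) ^ (l ^ (F.A + 1) + 1 + (E + 2))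
        = (1 / 2) ^ (l ^ (F.A + 1)) / 2 * ((1 / 2) ^ E / 4) := by ring
      _ ≤ _ := mul_le_mul_of_nonneg_right (by linarith) (by positivity)

theorem bbf_num {c : ℝ} {k G s j i : ℕ} (c1 : c ≤ 1) (h : (2 * k + 1) * s + G ≤ i) :
    c ≤ 8 ^ (i - s) * (((39 / 100 : ℝ) ^ k) ^ (s - j) * (1 / 2) ^ G) := by
  have a1 : (1 / 2 : ℝ) ^ (2 * k * s) ≤ ((39 / 100 : ℝ) ^ k) ^ (s - j) := by
    calc (1 / 2 : ℝ) ^ (2 * k * s) ≤ (1 / 2) ^ (2 * k * (s - j)) :=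
          bbf_half (Nat.mul_le_mul_left _ (Nat.sub_le _ _))
      _ = (((1 / 2) ^ 2) ^ k) ^ (s - j) := by rw [← pow_mul, ← pow_mul, mul_assoc]
      _ ≤ _ := by gcongr; norm_num
  have a2 : (2 : ℝ) ^ (2 * k * s + G) ≤ 8 ^ (i - s) :=
    (pow_le_pow_right₀ (by norm_num) (by rw [add_mul] at h; omega)).trans
      (pow_le_pow_left₀ (by norm_num) (by norm_num) _)
  calc c ≤ 1 := c1
    _ = 2 ^ (2 * k * s + G) * ((1 / 2) ^ (2 * k * s) * (1 / 2) ^ G) := by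
      rw [← pow_add, ← mul_pow]; norm_num
    _ ≤ _ := by gcongr

theorem bbf_main (hd : 1 ≤ d) (hF : F.Ok) (hL : Low d F) (hE : Eng d F) (hHOV : S_HOV d F)
    (hBO : S_BOOST d F) (hCL : S_CLIMB d F) : EvB d F fun B n K =>
    ∀ (x k Nt Mn j i l C1 G0 : ℕ) (c : ℝ) (T : ℕ → ℕ), BCst d c x k Nt Mn B.eps → 2 ≤ k → 0 < c →
    c ≤ 1 / 10 → (∀ σ, j ≤ σ → σ ≤ i →
      BLv d F B K n c (2 ^ (k * σ)) (T σ) ∧ Nat.sqrt (2 ^ (k * σ)) ≤ T σ) →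
    (∀ y : S d, (1 / 2 : ℝ) ^ (C1 * (k * (j + 1)) ^ 2) ≤ cP F.toMd K (B.p 3, 2 ^ (k * (j + 1))) y
      (B.n0 + 2 ^ (C1 * (k * (j + 1)))) (SprE B.n0 (2 ^ (C1 * (k * (j + 1))))
        (2 ^ (k * (j + 1)) / 16))) →
    64 * er n ≤ c * B.th → 16 * (tol (ls n) + 2 * e2 n) ≤ c → ls n ≤ l → l ^ (F.A + 1) + 1 ≤ n →
    4 * (C1 * (k * (j + 1)) ^ 2 + 4) ≤ l → (1 / 2 : ℝ) ^ G0 ≤ c / 16 →
    (2 * k + 1) * ((C1 + 1) * (k * (j + 1)) + 1) +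
      (l ^ (F.A + 1) + 1 + (C1 * (k * (j + 1)) ^ 2 + 2) + G0) + 1 ≤ i → 16 * 2 ^ (k * i) ≤ 2 ^ n →
    ∀ Ds, 4 * Ds = x * 2 ^ (k * (i - 1)) →
      c / 32 * B.th ≤ wP F.toMd K (B.p 4) (bx (0 : S d) (2 * (16 * 2 ^ (k * i))))
        (bx 0 (16 * 2 ^ (k * i) / 4)) {0} (B.n0 + 3 * T i) (SprE B.n0 (3 * T i) (2 * Ds)) := by
  intro B hB
  filter_upwards [bbe_step hd hF hL hE hHOV hBO hCL B hB, bbf_base hF hL hE B hB,
    bbc_fin hd hF hE B hB] with n h1 h2 h3 K hK x k Nt Mn j i l C1 G0 c T hc k2 c0 c1 hv hβ s1 s2 n1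
    n2 n3 hG hi hn Ds hDs
  have e : ∀ σ, 2 ^ (k * (σ + 1)) = x ^ 8 * 2 ^ (k * σ) := fun σ => by
    rw [← hc.hk]; ring
  have hth := hB.2.2.2.1
  have er0 := (er_le_e2 n).1
  set m := k * (j + 1) with hm
  have m1 : j + 1 ≤ m := Nat.le_mul_of_pos_left _ (by omega)
  have m2 : m ≤ (C1 + 1) * m := Nat.le_mul_of_pos_left _ (by omega)
  have m3 : C1 * m ≤ (C1 + 1) * m := Nat.mul_le_mul_right _ (by omega)
  have m4 : C1 * m ≤ C1 * m ^ 2 := Nat.mul_le_mul_left _ (Nat.le_self_pow (by norm_num) _)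
  have n4 : l ≤ l ^ (F.A + 1) := Nat.le_self_pow (by omega) _
  obtain ⟨s0, hs0⟩ : ∃ s0, s0 = (C1 + 1) * m + 1 := ⟨_, rfl⟩
  rw [← hs0] at hi
  have m5 : s0 ≤ (2 * k + 1) * s0 := Nat.le_mul_of_pos_left _ (by omega)
  have tc : ∀ σ, s0 ≤ σ → σ ≤ i → 2 ^ (C1 * m) + 2 ^ m ≤ T σ := fun σ a1 a2 => by
    refine le_trans ?_ (hv σ (by omega) a2).2
    have f1 : 2 ^ (C1 * m) ≤ 2 ^ ((C1 + 1) * m) := Nat.pow_le_pow_right (by norm_num) m3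
    have f2 : 2 ^ m ≤ 2 ^ ((C1 + 1) * m) := Nat.pow_le_pow_right (by norm_num) m2
    have f3 : 2 ^ s0 = 2 * 2 ^ ((C1 + 1) * m) := by rw [hs0]; ring
    refine le_trans (show _ ≤ 2 ^ s0 by omega) ?_
    rw [Nat.le_sqrt, ← pow_add]
    have := Nat.mul_le_mul k2 a1
    exact Nat.pow_le_pow_right (by norm_num) (by omega)
  have vj := (hv j le_rfl (by omega)).1
  have vj1 := (hv (j + 1) (by omega) (by omega)).1
  have base := h2 K hK x (2 ^ (k * j)) l (C1 * m ^ 2) (2 ^ (C1 * m)) hc.x40 vj.l1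
    (e j ▸ vj1.ty33) vj.ty3 (Nat.pow_le_pow_right (by norm_num) (by omega)) n1 n2 n3
    (by rw [← e j]; exact hβ) (2 * T (j + 1) + (2 ^ (C1 * m) + 2 ^ m)) (by rw [← e j]; exact Nat.le_add_left _ _)
  have step := fun σ b (a1 : j ≤ σ) (a2 : σ < i - 1) (b0 : 0 < b) (b1 : b ≤ c / 16) =>
    h1 K hK x k Nt Mn (2 ^ (k * σ)) (T σ) (T (σ + 1)) (T (σ + 1 + 1)) (2 ^ (C1 * m) + 2 ^ m) c b hc
      c0 c1 (hv σ a1 (by omega)).1 (e σ ▸ (hv (σ + 1) (by omega) (by omega)).1)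
      (by rw [← e σ, ← e (σ + 1)]; exact (hv (σ + 1 + 1) (by omega) (by omega)).1)
      (by linarith) s2 b0 b1
  obtain ⟨C, tt, q1, q2, q3, q4⟩ := bbd_rec (fun σ b => BQ d F B K n x (2 ^ (k * σ))
      (2 * T (σ + 1) + (2 ^ (C1 * m) + 2 ^ m)) b) (fun _ _ _ => BQ.mono) (j := j) (s0 := s0)
    (i := i - 1) (g := (1 / 2) ^ (l ^ (F.A + 1) + 1 + (C1 * m ^ 2 + 2) + G0)) (c := c / 16)
    (θ := (39 / 100) ^ k) (by positivity) ((bbf_half (Nat.le_add_left _ _)).trans hG)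
    (by positivity) (pow_le_one₀ (by norm_num) (by norm_num))
    (base.mono (bbf_half (Nat.le_add_right _ _))) (by omega) (by omega)
    (fun σ b a1 a2 b0 b1 q => by rw [e σ]; exact (step σ b a1 a2 b0 b1 q).1)
    (fun σ b a1 a2 b0 b1 q => by
      rw [e σ]; exact (step σ b (by omega) a2 b0 b1 q).2 (tc _ (by omega) (by omega)))
    (bbf_num (by linarith) (by omega))
  have ei : 2 ^ (k * i) = x ^ 8 * 2 ^ (k * (i - 1)) := by
    rw [← e, show i - 1 + 1 = i by omega]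
  rw [show i - 1 + 1 = i by omega] at q3
  rw [← ei, ← hDs] at q4
  have vi := (hv (i - 1) (by omega) (by omega)).1
  have t2 := (hv i (by omega) le_rfl).1.t2
  have t3 := tc i (by omega) le_rfl
  have l1 := vi.l1
  have l3 : 40 * 2 ^ (k * (i - 1)) ≤ x * 2 ^ (k * (i - 1)) := Nat.mul_le_mul_right _ hc.x40
  exact le_trans (le_of_eq (by ring)) (h3 K hK C (2 ^ (k * i)) (2 ^ (k * (i - 1))) Ds tt (3 * T i)
    (c / 16) q1 vi.ty3 (ei ▸ q2) hn (by omega) (by omega) (by omega) (by positivity) (by linarith) q4)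

end Pool.Agent.Lib.MP_dd0771_pr.Sc
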