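import Pool.Agent.Lib.MP_dd0771_pr.Sc.Kit

open Filter

namespace Pool.Agent.Lib.MP_dd0771_pr.Sc

theorem boost_sq_le (F : Fr) (B : Bs) (n : ℕ) : sq F B (ls n) ≤ RR F B n := by
  unfold RR sb
  nlinarith [Nat.zero_le (mm F n), Nat.zero_le (s1 F n), Nat.zero_le (sq F B (ls n)),
    Nat.zero_le (mm F n * s1 F n), Nat.zero_le (mm F n * sq F B (ls n))]

theorem boost_RR_pos {F : Fr} {B : Bs} (hB : B.Ok F) (n : ℕ) : 1 ≤ RR F B n := by
  have h1 : 1 ≤ B.n0 := hB.2.2.2.2.2.2.2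
  have h2 := boost_sq_le F B n
  unfold sq at h2
  omega

theorem boost_eu_nonneg {d : ℕ} (x : S d) : 0 ≤ eu x :=
  Finset.sum_nonneg fun _ _ => sq_nonneg _

theorem boost_bdd {α : Type} {f : α → ℝ} (h : ∀ s, 0 ≤ f s ∧ f s ≤ 1) : Bdd f :=
  ⟨1, fun s => abs_le.2 ⟨by linarith [(h s).1], (h s).2⟩⟩

/-- A positive value for the zero potential means that no launch law exists. -/
theorem boost_void {d : ℕ} {F : Fr} {B : Bs} {K n l : ℕ} {M : Amb d} {Φ : Nd d → ℝ} {C : Ty}
    {Y : Finset (S d)} {t : ℕ} {v v' : ℝ} (hv : 0 < v)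
    (h : Val F B K n l M (fun _ => 0) C Y t v) : Val F B K n l M Φ C Y t v' := by
  intro Λ h1 h2 h3 h4 h5
  have := h Λ h1 h2 h3 h4 h5
  simp [ex] at this
  linarith

theorem s_boost {d : ℕ} {F : Fr} (hd : 2 ≤ d) (hF : F.Ok)
    (hHOV : S_HOV d F) :
    S_BOOST d F := by
  intro B K n pc C T M Gl Φ te ub x ρ w u Mn U hB hP hT hC hM hG hΦ hρ hw hwu hu htol hA hV
  have he : 0 < B.eps := hB.2.2.2.2.2.1
  have hT0 : (0 : ℝ) < T := by exact_mod_cast hT
  set δ : ℝ := 2 * (d * (C.2 : ℝ) ^ 2 / ρ ^ 2 + 5 * B.eps) *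
    (2 * ((U : ℝ) + RR F B n) / T + 1) with hδ
  have hδ0 : 0 ≤ δ := by positivity
  have hρ2 : 0 < ρ ^ 2 := by positivity
  induction Mn with
  | zero =>
    intro y t _ _ _
    refine Val.nonpos (fun s => (hΦ.1 s).1) ?_
    have : min (w / 4) (((0 : ℕ) : ℝ) * u * w / 2) = 0 := by
      rw [Nat.cast_zero, zero_mul, zero_mul, zero_div]
      exact min_eq_right (by linarith)
    rw [this, zero_mul]
  | succ m ih =>
    intro y t ht hte hGl
    have hV0 : ∀ k : ℕ, 0 ≤ min (w / 4) ((k : ℝ) * u * w / 2) := fun k =>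
      le_min (by linarith) (by positivity)
    have hq : 0 ≤ eu (y - x) / ρ ^ 2 := div_nonneg (boost_eu_nonneg _) hρ2.le
    have hmδ : 0 ≤ (m : ℝ) * δ := by positivity
    have hpot1 : 1 - eu (y - x) / ρ ^ 2 - ((m + 1 : ℕ) : ℝ) * δ ≤ 1 := by
      push_cast
      nlinarith
    by_cases hpot : 1 - eu (y - x) / ρ ^ 2 - ((m + 1 : ℕ) : ℝ) * δ ≤ 0
    · exact Val.nonpos (fun s => (hΦ.1 s).1) (mul_nonpos_of_nonneg_of_nonpos (hV0 _) hpot)
    push Not at hpot
    have hy : eu (y - x) < ρ ^ 2 := by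
      have : eu (y - x) / ρ ^ 2 < 1 := by
        push_cast at hpot
        nlinarith
      rwa [div_lt_one hρ2] at this
    have hP1 : t + (m + 1) * (U + T + 2 * RR F B n) =
        t + (U + T + 2 * RR F B n) + m * (U + T + 2 * RR F B n) := by ring
    have hm0 := Nat.zero_le (m * (U + T + 2 * RR F B n))
    have hGU : Gl Φ w t (t + U) := hG.1 Φ w _ _ _ _ le_rfl (by omega) hGl
    by_cases hw2 : 2 < w
    · rcases hu.eq_or_lt with h0 | h0
      · refine Val.nonpos (fun s => (hΦ.1 s).1) ?_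
        have : min (w / 4) (((m + 1 : ℕ) : ℝ) * u * w / 2) = 0 := by
          rw [← h0, mul_zero, zero_mul, zero_div]
          exact min_eq_right (by linarith)
        rw [this, zero_mul]
      · have hz : Mart F.toMd K M (fun _ => 0) (t + U) (w - 1) := by
          refine ⟨fun _ => ⟨le_rfl, zero_le_one⟩, fun s _ => by simp [ex], fun s hs hf => ?_⟩
          have := hΦ.2.2 s (by omega) hf
          have := (hΦ.1 s).2
          linarith
        have hg := hG.2 Φ (fun _ => 0) w 1 t (t + U) hΦ.1 hz.1 zero_le_one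
          (fun s _ => by linarith [(hΦ.1 s).2]) hGU
        exact boost_void (mul_pos h0 (by linarith))
          (hV _ _ _ y t ht hy hz (by linarith) le_rfl hg)
    push Not at hw2
    obtain ⟨Φ', Ψ, m1, m2, hs, -, hloc⟩ := Mart.split (F := F) (B := B) (n := n) hΦ hM.2.2.1
      (t1 := t + U) (by omega) (wb := w / 2) (by linarith) (by linarith) (by linarith)
    have hgΨ := hG.2 Φ Ψ w (w / 2) t (t + U) hΦ.1 m2.1 (by linarith)
      (fun s h => (hs s h).2) hGU
    have v2 := hV Ψ _ _ y t ht hy m2 (by linarith) (by linarith) hgΨ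
    have hR := boost_RR_pos hB n
    have hsq := boost_sq_le F B n
    have hVm : min (w / 4) ((m : ℝ) * u * w / 2) ≤ w / 4 := min_le_left _ _
    have v1 := hHOV B K n pc C C T M Φ' te (w / 2) x ρ ((m : ℝ) * δ)
      (min (w / 4) ((m : ℝ) * u * w / 2)) (t + U + RR F B n) hB hP hT hC hC hM m1 hρ hmδ (hV0 m)
      (by linarith) (by omega)
      (fun z hz => ⟨hA z hz, by simpa [wZ] using (hA z hz).2.2⟩)
      (fun z t' hz h1 h2 => by
        refine hloc _ _ _ _ _ (by omega) ?_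
          (ih z t' (by omega) (by omega) (hG.1 Φ w _ _ _ _ (by omega) (by omega) hGl))
        have hq' : 0 ≤ eu (z - x) / ρ ^ 2 := div_nonneg (boost_eu_nonneg _) hρ2.le
        have a1 : min (w / 4) ((m : ℝ) * u * w / 2) * (1 - eu (z - x) / ρ ^ 2 - m * δ) ≤
            min (w / 4) ((m : ℝ) * u * w / 2) :=
          mul_le_of_le_one_right (hV0 m) (by linarith)
        nlinarith)
      y t ht (by omega)
    refine (Val.add (boost_bdd m1.1) (boost_bdd m2.1) (fun s h => (hs s (by omega)).1) v1 v2).mono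
      ?_
    have e1 : 1 - eu (y - x) / ρ ^ 2 - (m : ℝ) * δ - 2 * (d * (C.2 : ℝ) ^ 2 / ρ ^ 2 + 5 * B.eps) *
        (2 * (((t + U + RR F B n : ℕ) : ℝ) - t) / T + 1) =
        1 - eu (y - x) / ρ ^ 2 - ((m + 1 : ℕ) : ℝ) * δ := by
      rw [hδ]
      push_cast
      ring
    rw [e1]
    have huw : 0 ≤ u * w := mul_nonneg hu hw
    have a2 : min (w / 4) (((m + 1 : ℕ) : ℝ) * u * w / 2) ≤
        min (w / 4) ((m : ℝ) * u * w / 2) + u * w / 2 := by
      rcases le_total (w / 4) ((m : ℝ) * u * w / 2) with h | h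
      · rw [min_eq_left h]
        linarith [min_le_left (w / 4) (((m + 1 : ℕ) : ℝ) * u * w / 2)]
      · rw [min_eq_right h]
        refine (min_le_right _ _).trans (le_of_eq ?_)
        push_cast
        ring
    have a3 := mul_le_mul_of_nonneg_right a2 hpot.le
    have a4 : u * w / 2 * (1 - eu (y - x) / ρ ^ 2 - ((m + 1 : ℕ) : ℝ) * δ) ≤ u * w / 2 :=
      mul_le_of_le_one_right (by linarith) hpot1
    nlinarith

end Pool.Agent.Lib.MP_dd0771_pr.Sc
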