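import Pool.Agent.Lib.MP_dd0771_pr.Sc.Kit

open Filter

namespace Pool.Agent.Lib.MP_dd0771_pr.Sc

variable {d : ℕ}

/-- An event of one window in the stationary system. -/
theorem chn_window {G : Md} {A : Finset (Lt d)} {p : PMF (Cfg d)}
    (h : ∀ T, (p.bind fun η => (wls G A T).map (ms A η)) = p) (T u : ℕ)
    (E : Cfg d → Word d → Prop) :
    (ex p fun η => pr (wls G A T) fun ws => ∃ w, ws[u]? = some w ∧ E (ms A η (ws.take u)) w) ≤
      ex p fun η => pr (wl G A) (E η) := by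
  have b : Bdd fun η => pr (wl G A) (E η) := Bdd.pr _ _
  rcases le_or_gt T u with hu | hu
  · refine (ex_le (Bdd.pr _ _) fun η _ => (pr_zero ?_).le).trans
      (ex_nonneg fun _ _ => pr_nonneg _ _)
    rintro ws hws ⟨w, hw, -⟩
    have := (List.getElem?_eq_some_iff.1 hw).1
    rw [iid_length hws] at this
    omega
  refine le_of_eq ?_
  conv_rhs => rw [← h u, ex_bind _ _ b]
  refine ex_congr fun η _ => ?_
  rw [ex_map _ _ b]
  refine Eq.trans (ex_congr fun ws _ => ?_) (ex_iid_get (wl G A) hu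
    (f := fun l w => ind (E (ms A η l) w)) (Bdd.ind fun x : List (Word d) × Word d =>
      E (ms A η x.1) x.2))
  cases hw : ws[u]? with
  | none => exact ind_neg (by simp [hw])
  | some w => simp [hw]

theorem chn_det {G : Md} {Y : Sys d} {σ : St d} {V T : ℕ} {ws : List (Word d)}
    (hT : T ≤ ws.length) (h : ∀ u < T, ∀ x ∈ σ.2.biUnion fun y => bx y (V * T), ∀ w,
      ws[u]? = some w → Slow G Y V {x} (ms Y.A σ.1 (ws.take u)) w) : Chn V T (tj G Y σ ws) := by
  have step : ∀ u < T, (∀ x ∈ tj G Y σ ws u, ∃ y ∈ σ.2, nrm (x - y) ≤ V * u) →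
      ∀ x' ∈ tj G Y σ ws (u + 1), ∃ x ∈ tj G Y σ ws u, nrm (x' - x) ≤ V := by
    intro u hu ih x' hx'
    have hw : ws[u]? = some ws[u] := List.getElem?_eq_getElem (by omega)
    unfold tj at hx'
    rw [acs_take_succ Y σ hw, ← List.take_length (l := ws[u])] at hx'
    refine Slow.anc (slow_iff.2 fun x hx => ?_) subset_rfl _ x' hx'
    obtain ⟨y, hy, h1⟩ := ih x hx
    rw [acs_fst]
    exact h u hu x (Finset.mem_biUnion.2
      ⟨y, hy, mem_bx.2 (h1.trans (Nat.mul_le_mul_left V hu.le))⟩) _ hw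
  have key : ∀ u ≤ T, ∀ x ∈ tj G Y σ ws u, ∃ y ∈ σ.2, nrm (x - y) ≤ V * u := by
    intro u
    induction u with
    | zero => exact fun _ x hx => ⟨x, hx, by rw [sub_self, nrm_zero]; omega⟩
    | succ u ih =>
      intro hu x' hx'
      obtain ⟨x, hx, h1⟩ := step u hu (ih (by omega)) x' hx'
      obtain ⟨y, hy, h2⟩ := ih (by omega) x hx
      exact ⟨y, hy, (nrm_tri x' x y).trans (by rw [Nat.mul_succ]; omega)⟩
  exact fun u hu => step u hu (key u hu.le)

theorem chn_num (d : ℕ) : ∀ᶠ n : ℕ in atTop,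
    (2 : ℝ) ^ (4 * n + (1 + (7 * n + 2) * d)) * Real.exp (-(n : ℝ) ^ 2 / 2) ≤ er n := by
  filter_upwards [eventually_ge_atTop (18 * (d + 1))] with n hn
  have e2 : (2 : ℝ) ≤ Real.exp 1 := by linarith [Real.add_one_le_exp 1]
  set N := 4 * n + (1 + (7 * n + 2) * d) + 4 * n with hN
  have c2 : (2 : ℝ) ^ N ≤ Real.exp (N : ℝ) := by
    rw [← mul_one (N : ℝ), Real.exp_nat_mul]
    exact pow_le_pow_left₀ two_pos.le e2 _
  have c3 : 2 * N ≤ n ^ 2 := by rw [hN]; nlinarith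
  have c4 : 2 * (N : ℝ) ≤ (n : ℝ) ^ 2 := by exact_mod_cast c3
  have c5 : (2 : ℝ) ^ N * Real.exp (-(n : ℝ) ^ 2 / 2) ≤ 1 := by
    refine (mul_le_mul_of_nonneg_right c2 (Real.exp_pos _).le).trans ?_
    rw [← Real.exp_add, Real.exp_le_one_iff]; linarith
  rw [er, one_div, inv_pow, ← one_div, le_div_iff₀ (by positivity), mul_right_comm, ← pow_add]
  exact c5

theorem s_chn {d : ℕ} {F : Fr} (hd : 2 ≤ d) (hF : F.Ok)
    (hSTAT : S_STAT d F) (hSLOW : S_SLOW d F) :
    S_CHN d F := by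
  filter_upwards [hSLOW, chn_num d] with n hS hn K φ Q Z Y0 T hK hY hT
  set P := (Finset.range T) ×ˢ (Y0.biUnion fun y => bx y (VV n * T)) with hP
  let E : ℕ × S d → Cfg d → List (Word d) → Prop := fun b η ws => ∃ w, ws[b.1]? = some w ∧
    ¬ Slow F.toMd ⟨al K Q, Z⟩ (VV n) {b.2} (ms (al K Q) η (ws.take b.1)) w
  have bE : ∀ b, Bdd fun η => pr (wls F.toMd (al K Q) T) (E b η) := fun b => Bdd.pr _ _
  have cP : (P.card : ℝ) ≤ 2 ^ (4 * n + (1 + (7 * n + 2) * d)) := by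
    have h0 : VV n ≤ 2 ^ (3 * n) := by
      rw [VV, mul_comm, pow_mul]; exact Nat.pow_le_pow_left Nat.lt_two_pow_self.le 3
    have h1 : 2 * (VV n * T) + 1 ≤ 2 ^ (7 * n + 2) := by
      have h2 := Nat.mul_le_mul h0 hT
      have h3 := Nat.one_le_two_pow (n := 7 * n)
      rw [← pow_add, show 3 * n + 4 * n = 7 * n by ring] at h2
      rw [pow_add]; omega
    have h2 : (Y0.biUnion fun y => bx y (VV n * T)).card ≤ 2 ^ (1 + (7 * n + 2) * d) := by
      refine (Finset.card_biUnion_le_card_mul _ _ (2 ^ ((7 * n + 2) * d)) fun y _ => ?_).trans ?_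
      · rw [card_bx, pow_mul]; exact Nat.pow_le_pow_left h1 d
      · rw [pow_add]; exact Nat.mul_le_mul_right _ hY
    have h3 : P.card ≤ 2 ^ (4 * n + (1 + (7 * n + 2) * d)) := by
      rw [hP, Finset.card_product, Finset.card_range, pow_add]; exact Nat.mul_le_mul hT h2
    exact_mod_cast h3
  have bS : Bdd fun η => ∑ b ∈ P, pr (wls F.toMd (al K Q) T) (E b η) := by
    refine ⟨P.card, fun η => ?_⟩
    rw [abs_of_nonneg (Finset.sum_nonneg fun _ _ => pr_nonneg _ _)]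
    simpa using Finset.sum_le_card_nsmul P _ 1 fun b _ => pr_le_one (wls F.toMd (al K Q) T) (E b η)
  refine (ex_mono (Bdd.pr (fun _ => wls F.toMd (al K Q) T) fun η ws =>
    ¬ Chn (VV n) T (tj F.toMd ⟨al K Q, Z⟩ (ini F.toMd Z Y0 η) ws)) bS fun η _ => ?_).trans ?_
  · refine le_trans (pr_mono fun ws hws H => ?_) (pr_union_le _ P fun b => E b η)
    by_contra hc
    refine H (chn_det (iid_length hws).ge fun u hu x hx w hw => ?_)
    by_contra hs
    refine hc ⟨(u, x), Finset.mem_product.2 ⟨Finset.mem_range.2 hu, ?_⟩, w, hw, hs⟩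
    exact Finset.biUnion_subset_biUnion_of_subset_left _
      ((Finset.filter_subset _ _).trans Finset.inter_subset_left) hx
  rw [ex_sum _ _ fun b _ => bE b]
  refine (Finset.sum_le_card_nsmul P _ (Real.exp (-(n : ℝ) ^ 2 / 2)) fun b _ => ?_).trans ?_
  · exact (chn_window (hSTAT K φ Q hK).2.1 T b.1 _).trans (hS K φ Q Z b.2 hK)
  · rw [nsmul_eq_mul]
    exact (mul_le_mul_of_nonneg_right cP (Real.exp_pos _).le).trans hn

end Pool.Agent.Lib.MP_dd0771_pr.Sc
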