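import Pool.Agent.Lib.MP_dd0771_pr.Sc.Kit

open Filter

namespace Pool.Agent.Lib.MP_dd0771_pr.Sc

/-- The potential of one doubling. -/
noncomputable def cl1F (a ρ ct N0 D e nn : ℝ) : ℝ :=
  (40 * D - 5 * a) / (77 * a) + ((D - 17 * a / 16) ^ 2 / a ^ 2 - 1) / 50 + (nn / N0 - 1) -
    e / ρ ^ 2 - nn * ct

theorem cl1_mass {α : Type} {κ : Law α} {e x : ℝ} (h : κ.Ok e) (hx : x ≤ 1) :
    x - e ≤ x * κ.E fun _ => 1 := by
  obtain ⟨-, h1, h2⟩ := h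
  rcases le_total 0 x with c | c <;> nlinarith

theorem cl1_le {a ρ ct N0 D e nn : ℝ} (ha : 0 < a) (h1 : 3 * a ≤ 40 * D) (h2 : 40 * D ≤ 82 * a)
    (hN : 0 < N0) (n0 : 0 ≤ nn) (n1 : nn ≤ N0) (hc : 0 ≤ ct) :
    cl1F a ρ ct N0 D e nn ≤ (40 * D - 5 * a) / (77 * a) + (nn / N0 - 1) - e / ρ ^ 2 ∧
      (40 * D - 5 * a) / (77 * a) ≤ 1 ∧ nn / N0 ≤ 1 := by
  have a1 : (D - 17 * a / 16) ^ 2 / a ^ 2 ≤ 1 := by
    rw [div_le_one (by positivity)]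
    nlinarith
  have a2 := mul_nonneg n0 hc
  refine ⟨by unfold cl1F; linarith, ?_, (div_le_one hN).2 n1⟩
  rw [div_le_one (by positivity)]
  linarith

theorem cl1_step {d : ℕ} {κ : Law (S d × S d × ℕ)} {ε c a ρ N0 nn : ℝ} {L : ℕ} {i : Fin d}
    {u1 u2 : S d} {D : ℝ} (hκ : κ.Ok (6 * ε)) (hε : 0 ≤ ε)
    (hW : ∀ p ∈ κ.W, nrm p.1 ≤ L ∧ nrm p.2.1 ≤ L)
    (hm : ∀ i, κ.E (fun p => (p.1 i : ℝ)) = 0 ∧ κ.E (fun p => (p.2.1 i : ℝ)) = 0 ∧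
      κ.E (fun p => (p.1 i : ℝ) * p.2.1 i) = 0 ∧
      c * (L : ℝ) ^ 2 / (16 * d) ≤ κ.E fun p => (p.1 i : ℝ) ^ 2 + (p.2.1 i : ℝ) ^ 2)
    (ha : 0 < a) (hρ : 0 < ρ) (hN : 0 < N0) (hd : 0 < (d : ℝ))
    (h8 : 800 * d * a ^ 2 ≤ c * (L : ℝ) ^ 2 * N0)
    (h1 : cl1F a ρ (10 * ε + 2 * d * L ^ 2 / ρ ^ 2) N0 D (eu u1 + eu u2) nn ≤ 1) :
    cl1F a ρ (10 * ε + 2 * d * L ^ 2 / ρ ^ 2) N0 D (eu u1 + eu u2) (nn + 1) + 2 * ε ≤
      κ.E fun p => cl1F a ρ (10 * ε + 2 * d * L ^ 2 / ρ ^ 2) N0 (D + p.2.1 i - p.1 i)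
        (eu (u1 + p.1) + eu (u2 + p.2.1)) nn := by
  obtain ⟨ct, hc⟩ : ∃ ct, ct = 10 * ε + 2 * d * (L : ℝ) ^ 2 / ρ ^ 2 := ⟨_, rfl⟩
  rw [← hc] at h1 ⊢
  obtain ⟨c1, e1⟩ : ∃ c1, c1 = 40 / (77 * a) + (D - 17 * a / 16) / (25 * a ^ 2) := ⟨_, rfl⟩
  have b := Law.E_mono hκ (f := fun p => cl1F a ρ ct N0 D (eu u1 + eu u2) nn * 1 +
      c1 * (p.2.1 i : ℝ) + -c1 * (p.1 i : ℝ) +
      1 / (50 * a ^ 2) * ((p.1 i : ℝ) ^ 2 + (p.2.1 i : ℝ) ^ 2) +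
      -(1 / (25 * a ^ 2)) * ((p.1 i : ℝ) * p.2.1 i) +
      -(2 / ρ ^ 2) * ∑ j, (u1 j : ℝ) * p.1 j + -(2 / ρ ^ 2) * ∑ j, (u2 j : ℝ) * p.2.1 j +
      -(2 * d * (L : ℝ) ^ 2 / ρ ^ 2) * 1)
    (g := fun p => cl1F a ρ ct N0 (D + p.2.1 i - p.1 i) (eu (u1 + p.1) + eu (u2 + p.2.1)) nn)
    fun p hp => by
      have k : ∀ x : S d, nrm x ≤ L → eu x / ρ ^ 2 ≤ d * (L : ℝ) ^ 2 / ρ ^ 2 := fun x hx => by
        have : (nrm x : ℝ) ≤ L := by exact_mod_cast hx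
        exact div_le_div_of_nonneg_right ((eu_le x).trans (by gcongr)) (by positivity)
      have k1 := k _ (hW p hp).1
      have k2 := k _ (hW p hp).2
      rw [eu_add, eu_add, ← sub_nonneg]
      refine (add_nonneg (sub_nonneg.2 k1) (sub_nonneg.2 k2)).trans_eq ?_
      unfold cl1F
      rw [e1]
      field_simp
      ring
  refine le_trans ?_ b
  rw [Law.E_add, Law.E_add, Law.E_add, Law.E_add, Law.E_add, Law.E_add, Law.E_add]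
  simp only [Law.E_mul κ _ fun _ => 1, Law.E_mul κ _ fun p => (p.1 _ : ℝ),
    Law.E_mul κ _ fun p => (p.2.1 _ : ℝ), Law.E_mul κ _ fun p => (p.1 i : ℝ) * p.2.1 i,
    Law.E_mul κ _ fun p => (p.1 i : ℝ) ^ 2 + (p.2.1 i : ℝ) ^ 2,
    Law.E_mul κ _ fun p => ∑ j, (u1 j : ℝ) * p.1 j, Law.E_mul κ _ fun p => ∑ j, (u2 j : ℝ) * p.2.1 j,
    Law.E_sum, (hm _).1, (hm _).2.1, (hm _).2.2.1, mul_zero, Finset.sum_const_zero, add_zero]
  have m1 := cl1_mass hκ h1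
  have m2 : 2 * d * (L : ℝ) ^ 2 / ρ ^ 2 * κ.E (fun _ => 1) ≤ 2 * d * (L : ℝ) ^ 2 / ρ ^ 2 :=
    mul_le_of_le_one_right (by positivity) hκ.2.2
  have m3 : 1 / N0 ≤ 1 / (50 * a ^ 2) * κ.E fun p => (p.1 i : ℝ) ^ 2 + (p.2.1 i : ℝ) ^ 2 := by
    refine le_trans ?_ (mul_le_mul_of_nonneg_left (hm i).2.2.2 (by positivity))
    rw [div_mul_div_comm, div_le_div_iff₀ hN (by positivity)]
    linarith
  have m4 : cl1F a ρ ct N0 D (eu u1 + eu u2) (nn + 1) =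
      cl1F a ρ ct N0 D (eu u1 + eu u2) nn + 1 / N0 - ct := by
    unfold cl1F
    ring
  linarith

theorem s_cl1 {d : ℕ} {F : Fr} (hd : 2 ≤ d) (hF : F.Ok)
    :
    S_CL1 d F := by
  intro B K n pc C C' T c M Φ te ub w ρ a N0 t i y1 y2 hB hP hC hM hΦ hc hw hu h40 h8 h5 hρ h2 ht
    hte a1 a2 hQ hV
  have hε := hB.2.2.2.2.2.1
  have a0 : (0 : ℝ) < a := by
    have : 0 < a := by omega
    exact_mod_cast this
  have d0 : (0 : ℝ) < d := by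
    have : 0 < d := by omega
    exact_mod_cast this
  have p0 : 0 < c * (C.2 : ℝ) ^ 2 * N0 := lt_of_lt_of_le (by positivity) h8
  have N1 : (0 : ℝ) < N0 := lt_of_le_of_ne (by positivity) fun e => by simp [← e] at p0
  have L1 : 1 ≤ C.2 := Nat.one_le_iff_ne_zero.2 fun e => by simp [e] at p0
  obtain ⟨ct, e⟩ : ∃ ct, ct = 10 * B.eps + 2 * d * (C.2 : ℝ) ^ 2 / ρ ^ 2 := ⟨_, rfl⟩
  have c0 : 0 ≤ ct := by rw [e]; positivity
  have ap : ∀ z1 z2 : S d, (a : ℤ) < 8 * (z2 i - z1 i) → 4 * C.2 + 2 ≤ nrm (z1 - z2) :=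
    fun z1 z2 h => by
      have := (neg_le_abs _).trans (abs_le_nrm (z1 - z2) i)
      rw [Pi.sub_apply] at this
      omega
  -- consequences of a positive potential
  have pos : ∀ (z1 z2 : S d) (m : ℕ), m ≤ N0 → 3 * (a : ℤ) ≤ 40 * (z2 i - z1 i) →
      40 * (z2 i - z1 i) ≤ 82 * a →
      cl1F a ρ ct N0 (z2 i - z1 i) (eu (z1 - y1) + eu (z2 - y2)) m ≤ 1 ∧
      (0 < cl1F a ρ ct N0 (z2 i - z1 i) (eu (z1 - y1) + eu (z2 - y2)) m → 0 < m ∧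
        (a : ℤ) < 8 * (z2 i - z1 i) ∧ eu (z1 - y1) < ρ ^ 2 ∧ eu (z2 - y2) < ρ ^ 2) := by
    intro z1 z2 m hm b1 b2
    obtain ⟨k1, k2, k3⟩ := cl1_le (ρ := ρ) (D := z2 i - z1 i) (e := eu (z1 - y1) + eu (z2 - y2))
      a0 (by exact_mod_cast b1) (by exact_mod_cast b2) N1 m.cast_nonneg (Nat.cast_le.2 hm) c0
    have e1 := eu_nonneg (z1 - y1)
    have e2 := eu_nonneg (z2 - y2)
    have e3 : 0 ≤ (eu (z1 - y1) + eu (z2 - y2)) / ρ ^ 2 := by positivity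
    refine ⟨by linarith, fun h => ?_⟩
    have e4 : eu (z1 - y1) + eu (z2 - y2) < ρ ^ 2 :=
      (div_lt_one (by positivity)).1 (by linarith)
    refine ⟨Nat.pos_of_ne_zero fun e0 => ?_, ?_, by linarith, by linarith⟩
    · rw [e0, Nat.cast_zero, zero_div] at k1
      rw [e0, Nat.cast_zero] at h
      linarith
    · have : (0 : ℝ) < 40 * (z2 i - z1 i) - 5 * a :=
        (div_pos_iff_of_pos_right (by positivity : (0 : ℝ) < 77 * a)).1 (by linarith)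
      have : (a : ℝ) < 8 * (z2 i - z1 i) := by linarith
      exact_mod_cast this
  have zz : ∀ z1 z2 : S d, eu (z1 - y1) < ρ ^ 2 → eu (z2 - y2) < ρ ^ 2 →
      wQ {z1, z2} C.2 ⊆ M.Q' ∧ wZ {z1, z2} C.2 ⊆ M.Z := fun z1 z2 b1 b2 => by
    simp only [wQ, wZ, Finset.biUnion_insert, Finset.singleton_biUnion, Finset.union_subset_iff]
    exact ⟨⟨(hQ _ (.inl b1)).1, (hQ _ (.inr b2)).1⟩, (hQ _ (.inl b1)).2, (hQ _ (.inr b2)).2⟩
  have key : ∀ m, m ≤ N0 → ∀ (z1 z2 : S d) t', t ≤ t' →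
      t' + m * (T + RR F B n) ≤ t + N0 * (T + RR F B n) → (a : ℤ) < 8 * (z2 i - z1 i) →
      z2 i - z1 i < 2 * a → Val F B K n (ls n) M Φ C {z1, z2} t'
        (w * cl1F a ρ ct N0 (z2 i - z1 i) (eu (z1 - y1) + eu (z2 - y2)) m) := by
    intro m
    induction m with
    | zero =>
      intro hm z1 z2 t' _ _ b1 b2
      refine Val.nonpos (fun s => (hΦ.1 s).1) (mul_nonpos_of_nonneg_of_nonpos hw (not_lt.1 fun h =>
        ?_))
      exact absurd ((pos z1 z2 0 hm (by omega) (by omega)).2 h).1 (lt_irrefl _)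
    | succ m ih =>
      intro hm z1 z2 t' t1 t2 b1 b2
      by_cases h : 0 < cl1F a ρ ct N0 (z2 i - z1 i) (eu (z1 - y1) + eu (z2 - y2)) (m + 1 : ℕ)
      swap
      · exact Val.nonpos (fun s => (hΦ.1 s).1) (mul_nonpos_of_nonneg_of_nonpos hw (not_lt.1 h))
      obtain ⟨-, -, r1, r2⟩ := (pos z1 z2 _ hm (by omega) (by omega)).2 h
      obtain ⟨κ, k1, k2, k3, k4⟩ := hP z1 z2 (ap _ _ b1)
      rw [add_one_mul] at t2
      have nx : ∀ p ∈ κ.W, 3 * (a : ℤ) ≤ 40 * ((z2 + p.2.1) i - (z1 + p.1) i) ∧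
          40 * ((z2 + p.2.1) i - (z1 + p.1) i) ≤ 82 * a := fun p hp => by
        obtain ⟨q1, q2, -⟩ := k2 p hp
        have q3 := abs_le.1 (nrm_le_iff.1 q1 i)
        have q4 := abs_le.1 (nrm_le_iff.1 q2 i)
        simp only [Pi.add_apply]
        omega
      refine (k4 M Φ te t' ub w
        (fun p => if 2 * (a : ℤ) ≤ (z2 + p.2.1) i - (z1 + p.1) i then C' (z1 + p.1) (z2 + p.2.1)
          else C)
        (fun p => w * cl1F a ρ ct N0 (((z2 + p.2.1) i : ℤ) - ((z1 + p.1) i : ℤ))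
          (eu (z1 + p.1 - y1) + eu (z2 + p.2.1 - y2)) m) hM hΦ (ht.trans t1) (by omega)
        ⟨apart_pair (ap _ _ b1), zz _ _ r1 r2⟩ hw hu (fun p hp => mul_le_of_le_one_right hw
          (pos _ _ m (by omega) (nx p hp).1 (nx p hp).2).1) fun p hp h0 => ?_).mono ?_
      · obtain ⟨g1, g2⟩ := pos _ _ m (by omega) (nx p hp).1 (nx p hp).2
        obtain ⟨-, g3, g4, g5⟩ := g2 (not_le.1 fun c =>
          h0.not_ge (mul_nonpos_of_nonneg_of_nonpos hw c))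
        obtain ⟨-, -, q1, q2⟩ := k2 p hp
        split_ifs with g
        · obtain ⟨v1, v2, v3, v4⟩ := hV _ _ (t' + p.2.2) g4 g5 g (by omega) (by omega)
          exact ⟨v1, v2, v3, v4.mono (mul_le_of_le_one_right hw g1)⟩
        · exact ⟨hC, apart_pair (ap _ _ g3), (zz _ _ g4 g5).2,
            ih (by omega) _ _ _ (by omega) (by omega) g3 (not_le.1 g)⟩
      · have := cl1_step (i := i) (u1 := z1 - y1) (u2 := z2 - y2) (D := z2 i - z1 i) (nn := m) k1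
          hε.le (fun p hp => ⟨(k2 p hp).1, (k2 p hp).2.1⟩) k3 a0 hρ N1 d0 h8
          (e ▸ (pos z1 z2 m (by omega) (by omega) (by omega)).1)
        rw [← e] at this
        have e3 : ∀ x y z u : ℝ, y + u - (x + z) = y - x + u - z := fun _ _ _ _ => by ring
        simp only [Law.E_mul κ w, Nat.cast_succ, add_sub_right_comm z1, add_sub_right_comm z2,
          Pi.add_apply, Int.cast_add, e3]
        have := mul_le_mul_of_nonneg_left this hw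
        linarith
  refine (key N0 le_rfl y1 y2 t le_rfl le_rfl (by omega) a2).mono ?_
  rw [mul_comm]
  refine mul_le_mul_of_nonneg_left ?_ hw
  have a3 : (a : ℝ) ≤ y2 i - y1 i := by exact_mod_cast a1
  have f1 : 5 / 11 ≤ (40 * ((y2 i : ℝ) - y1 i) - 5 * a) / (77 * a) := by
    rw [le_div_iff₀ (by positivity)]
    linarith
  have f2 : 0 ≤ ((y2 i : ℝ) - y1 i - 17 * a / 16) ^ 2 / a ^ 2 := by positivity
  have f3 : N0 * (2 * d * (C.2 : ℝ) ^ 2 / ρ ^ 2) ≤ 1 / 100 := by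
    rw [← mul_div_assoc, div_le_iff₀ (by positivity)]
    linarith
  have f4 : eu (0 : S d) = 0 := by simp [eu]
  unfold cl1F
  rw [sub_self, sub_self, f4, div_self N1.ne', e, mul_add]
  simp only [add_zero, zero_div]
  linarith

end Pool.Agent.Lib.MP_dd0771_pr.Sc
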