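import Pool.Agent.Lib.MP_dd0771_pr.Sc.Kit

open Filter

namespace Pool.Agent.Lib.MP_dd0771_pr.Sc

theorem climb_nrm {d : ℕ} (z1 z2 : S d) (i : Fin d) : z2 i - z1 i ≤ nrm (z1 - z2) := by
  have := (neg_le_abs _).trans (abs_le_nrm (z1 - z2) i)
  rw [Pi.sub_apply] at this
  omega

theorem climb_dir {d : ℕ} {F : Fr} (hd : 2 ≤ d) (hCL1 : S_CL1 d F) {B : Bs} {K n : ℕ} {pc : ℝ}
    {C C' : Ty} {T : ℕ} {c : ℝ} {M : Amb d} {Φ : Nd d → ℝ} {te : ℕ} {ub w : ℝ}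
    {a P Nt ρ t : ℕ} {y1 y2 : S d} (i : Fin d) (hB : B.Ok F) (hP : PairAt d F B K n pc C T c)
    (hC : TyOk F B n pc C) (hC' : TyOk F B n pc C') (hM : M.Ok F B K n pc)
    (hΦ : Mart F.toMd K M Φ te ub) (hc : 0 < c) (c1 : c ≤ 1) (hw : 0 ≤ w) (hu : w ≤ ub)
    (h40 : 40 * C.2 ≤ a) (h4 : 4 * C'.2 + 2 ≤ P) (L1 : 1 ≤ C.2) (h5 : 500 * B.eps * Nt ≤ 1)
    (ht : M.u0 ≤ t) (hte : t + Nt * (T + RR F B n) ≤ te)
    (hQ : ∀ z, nrm (z - y1) ≤ ρ ∨ nrm (z - y2) ≤ ρ →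
      bx z (2 * C.2) ⊆ M.Q' ∧ bx z C.2 ⊆ M.Z ∧ bx z C'.2 ⊆ M.Z)
    (hV : ∀ z1 z2 t', nrm (z1 - y1) ≤ ρ → nrm (z2 - y2) ≤ ρ → P ≤ nrm (z1 - z2) → t < t' →
      t' ≤ t + Nt * (T + RR F B n) → Val F B K n (ls n) M Φ C' {z1, z2} t' w) (j : ℕ) :
    ∀ (A : ℕ) (z1 z2 : S d) (t' r : ℕ), 2 ^ j * A = P → a ≤ A → (A : ℤ) ≤ z2 i - z1 i →
      267 * d * ((P : ℝ) ^ 2 - (A : ℝ) ^ 2) ≤ c * (C.2 : ℝ) ^ 2 * r → r ≤ Nt →
      t' + r * (T + RR F B n) ≤ t + Nt * (T + RR F B n) → t ≤ t' →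
      ((P : ℤ) ≤ z2 i - z1 i → t < t') →
      c * nrm (z1 - y1) + 401 * d * ((P : ℝ) - A) ≤ c * ρ →
      c * nrm (z2 - y2) + 401 * d * ((P : ℝ) - A) ≤ c * ρ →
      Val F B K n (ls n) M Φ (if (P : ℤ) ≤ z2 i - z1 i then C' else C) {z1, z2} t'
        ((39 / 100) ^ j * w) := by
  have d0 : (2 : ℝ) ≤ d := by exact_mod_cast hd
  have L0 : (1 : ℝ) ≤ C.2 := by exact_mod_cast L1
  have hε := hB.2.2.2.2.2.1
  have nr : ∀ (x : S d) (e : ℝ), 0 ≤ e → c * nrm x + 401 * d * e ≤ c * ρ → nrm x ≤ ρ :=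
    fun x e he h => by
      have : 0 ≤ 401 * d * e := by positivity
      exact_mod_cast le_of_mul_le_mul_left (by linarith : c * nrm x ≤ c * ρ) hc
  induction j with
  | zero =>
    intro A z1 z2 t' r e _ b1 _ _ t1 _ t3 n1 n2
    obtain rfl : A = P := by omega
    rw [if_pos b1, pow_zero, one_mul]
    have := climb_nrm z1 z2 i
    exact hV _ _ _ (nr _ _ (by simp) n1) (nr _ _ (by simp) n2) (by omega) (t3 b1) (by omega)
  | succ j ih =>
    intro A z1 z2 t' r e aA b1 b2 r1 t1 t2 t3 n1 n2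
    have e' : 2 ^ j * (2 * A) = P := by rw [← e]; ring
    have AP : 2 * A ≤ P := e' ▸ Nat.le_mul_of_pos_left _ (by positivity)
    have AP' : 2 * (A : ℝ) ≤ P := by exact_mod_cast AP
    have LA : 40 * (C.2 : ℝ) ≤ A := by exact_mod_cast h40.trans aA
    have A0 : (0 : ℝ) < A := by linarith
    have dA : (0 : ℝ) ≤ d * A := by positivity
    have dA2 : (0 : ℝ) ≤ d * A ^ 2 := by positivity
    have w0 : 0 ≤ (39 / 100 : ℝ) ^ j * w := by positivity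
    by_cases g : 2 * (A : ℤ) ≤ z2 i - z1 i
    · refine (ih (2 * A) z1 z2 t' r e' (by omega) (by omega) ?_ r1 t1 t2 t3 ?_ ?_).mono ?_
      · push_cast; linarith
      · push_cast; linarith
      · push_cast; linarith
      · rw [pow_succ']; linarith
    rw [if_neg (by omega), pow_succ', mul_assoc]
    have cL : 0 < c * (C.2 : ℝ) ^ 2 := by positivity
    obtain ⟨N, N1, N2⟩ : ∃ N : ℕ, 800 * d * (A : ℝ) ^ 2 ≤ c * (C.2 : ℝ) ^ 2 * N ∧
        c * (C.2 : ℝ) ^ 2 * N ≤ 801 * d * (A : ℝ) ^ 2 := by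
      refine ⟨⌈800 * d * (A : ℝ) ^ 2 / (c * (C.2 : ℝ) ^ 2)⌉₊, ?_, ?_⟩
      · rw [← div_le_iff₀' cL]
        exact Nat.le_ceil _
      · have := mul_le_mul_of_nonneg_left (Nat.ceil_lt_add_one (by positivity :
          0 ≤ 800 * d * (A : ℝ) ^ 2 / (c * (C.2 : ℝ) ^ 2))).le cL.le
        rw [mul_add, mul_div_cancel₀ _ cL.ne', mul_one] at this
        have q1 : (C.2 : ℝ) ^ 2 ≤ A ^ 2 := by gcongr; linarith
        have q2 : c * (C.2 : ℝ) ^ 2 ≤ d * A ^ 2 := by gcongr; linarith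
        linarith
    have q3 : d * (2 * (A : ℝ)) ^ 2 ≤ d * P ^ 2 := by gcongr
    have Nr : N ≤ r := by
      exact_mod_cast le_of_mul_le_mul_left (by linarith : c * (C.2 : ℝ) ^ 2 * N ≤
        c * (C.2 : ℝ) ^ 2 * r) cL
    obtain ⟨r, rfl⟩ := Nat.exists_eq_add_of_le Nr
    rw [add_mul] at t1
    have mv : ∀ z x y : S d, eu (z - x) < (401 * d * A / c) ^ 2 →
        c * nrm (x - y) + 401 * d * ((P : ℝ) - A) ≤ c * ρ →
        c * nrm (z - y) + 401 * d * ((P : ℝ) - (2 * A : ℕ)) ≤ c * ρ := fun z x y h1 h2 => by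
      have q1 : (nrm (z - x) : ℝ) < 401 * d * A / c :=
        lt_of_pow_lt_pow_left₀ 2 (by positivity) ((nrm_sq_le_eu _).trans_lt h1)
      rw [lt_div_iff₀ hc] at q1
      have q2 : (nrm (z - y) : ℝ) ≤ nrm (z - x) + nrm (x - y) := by exact_mod_cast nrm_tri z x y
      have := mul_le_mul_of_nonneg_left q2 hc.le
      push_cast
      linarith
    have P2 : (0 : ℝ) ≤ P - (2 * A : ℕ) := by push_cast; linarith
    refine hCL1 B K n pc C (fun z1 z2 => if (P : ℤ) ≤ z2 i - z1 i then C' else C) T c M Φ te ub _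
      (401 * d * A / c) A N t' i z1 z2 hB hP hC hM hΦ hc w0
      ((mul_le_of_le_one_left hw (pow_le_one₀ (by norm_num) (by norm_num))).trans hu)
      (h40.trans aA) N1 ?_ (by positivity) ?_ (ht.trans t2) (by omega) b1 (not_le.1 g)
      (fun z hz => ?_) fun x1 x2 t'' g1 g2 g3 g4 g5 => ?_
    · refine le_trans ?_ h5
      gcongr
      omega
    · rw [div_pow, le_div_iff₀ (by positivity)]
      have q1 : c * (c * (C.2 : ℝ) ^ 2 * N) ≤ 1 * (801 * d * (A : ℝ) ^ 2) := by gcongr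
      have q2 := mul_le_mul_of_nonneg_left q1 (by positivity : (0 : ℝ) ≤ 200 * d)
      have q4 : (0 : ℝ) ≤ (d * A) ^ 2 := by positivity
      linarith
    · have := hQ z (hz.imp (fun h => nr _ _ P2 (mv _ _ _ h n1)) fun h => nr _ _ P2 (mv _ _ _ h n2))
      exact ⟨this.1, this.2.1⟩
    · have m1 := mv _ _ _ g1 n1
      have m2 := mv _ _ _ g2 n2
      have u1 := hQ _ (.inl (nr _ _ P2 m1))
      have u2 := hQ _ (.inr (nr _ _ P2 m2))
      have := climb_nrm x1 x2 i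
      refine ⟨?_, ?_, ?_, ih (2 * A) x1 x2 t'' r e' (by omega) (by omega) ?_ (by omega) (by omega)
        (by omega) (fun _ => by omega) m1 m2⟩
      · split_ifs
        exacts [hC', hC]
      · split_ifs
        exacts [apart_pair (by omega), apart_pair (by omega)]
      · simp only [wZ, Finset.biUnion_insert, Finset.singleton_biUnion, Finset.union_subset_iff]
        split_ifs
        exacts [⟨u1.2.2, u2.2.2⟩, ⟨u1.2.1, u2.2.1⟩]
      · push_cast at b2 ⊢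
        linarith

theorem s_climb {d : ℕ} {F : Fr} (hd : 2 ≤ d) (hF : F.Ok)
    (hCL1 : S_CL1 d F) :
    S_CLIMB d F := by
  intro B K n pc C C' T c M Φ te ub w a k Nt ρ t y1 y2 hB hP hC hC' hM hΦ hc c1 hw hu h40 h4 h3 h5
    hρ ht hte a1 a2 hQ hV
  obtain ⟨P, e⟩ : ∃ P, 2 ^ k * a = P := ⟨_, rfl⟩
  have e' : (2 ^ k * a : ℝ) = P := by exact_mod_cast e
  rw [e] at h4 a2 hV
  rw [e'] at h3 hρ
  have d0 : (2 : ℝ) ≤ d := by exact_mod_cast hd
  have P0 : (0 : ℝ) < P := by exact_mod_cast (by omega : 0 < P)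
  have L1 : 1 ≤ C.2 := Nat.one_le_iff_ne_zero.2 fun e => by
    have : (0 : ℝ) < 300 * d * P ^ 2 := by positivity
    rw [e] at h3
    simp only [Nat.cast_zero, ne_eq, OfNat.ofNat_ne_zero, not_false_eq_true, zero_pow, mul_zero,
      zero_mul] at h3
    linarith
  have q1 : (0 : ℝ) ≤ d * P ^ 2 := by positivity
  have q2 : (0 : ℝ) ≤ d * a ^ 2 := by positivity
  have q3 : (0 : ℝ) ≤ d * P := by positivity
  have q4 : (0 : ℝ) ≤ d * a := by positivity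
  have q5 : ∀ y : S d, c * nrm (y - y) + 401 * d * ((P : ℝ) - a) ≤ c * ρ := fun y => by
    rw [sub_self, nrm_zero, Nat.cast_zero]
    linarith
  obtain ⟨i, hi⟩ := exists_nrm_eq (by omega) (y1 - y2)
  rw [Pi.sub_apply] at hi
  rcases abs_cases (y1 i - y2 i) with g | g
  · have := climb_dir hd hCL1 (y1 := y2) (y2 := y1) i hB hP hC hC' hM hΦ hc c1 hw hu h40 h4 L1 h5 ht
      hte (fun z hz => hQ z hz.symm) (fun z1 z2 t' g1 g2 g3 g4 g5 => by
        rw [Finset.pair_comm]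
        exact hV z2 z1 t' g2 g1 (nrm_sub_comm z1 z2 ▸ g3) g4 g5) k a y2 y1 t Nt e le_rfl (by omega)
      (by linarith) le_rfl le_rfl le_rfl (fun _ => by omega) (q5 _) (q5 _)
    rwa [if_neg (by omega), Finset.pair_comm] at this
  · have := climb_dir hd hCL1 i hB hP hC hC' hM hΦ hc c1 hw hu h40 h4 L1 h5 ht
      hte hQ hV k a y1 y2 t Nt e le_rfl (by omega)
      (by linarith) le_rfl le_rfl le_rfl (fun _ => by omega) (q5 _) (q5 _)
    rwa [if_neg (by omega)] at this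

end Pool.Agent.Lib.MP_dd0771_pr.Sc
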