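import Mathlib

/-! Discrete model (words of letters, one word per unit time window) for the infection carried by a
zero-range process on `ℤ^d`: basic definitions. -/

open Filter
open scoped ENNReal NNReal

namespace Pool.Agent.Lib.MP_dd0771_pr.Sc

abbrev S (d : ℕ) : Type := Fin d → ℤ
abbrev Dir (d : ℕ) : Type := Fin d × Bool
/-- A letter: a healing mark `(x, none)` or a jump `(x, some (direction, level))`. -/
abbrev Lt (d : ℕ) : Type := S d × Option (Dir d × ℕ)
abbrev Word (d : ℕ) : Type := List (Lt d)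
abbrev Cfg (d : ℕ) : Type := S d → ℕ
/-- Configuration and infected set. -/
abbrev St (d : ℕ) : Type := Cfg d × Finset (S d)
/-- Infected sets at the ends of the windows. -/
abbrev Tj (d : ℕ) : Type := ℕ → Finset (S d)

variable {d : ℕ}

def nb (x : S d) (e : Dir d) : S d := Function.update x e.1 (x e.1 + if e.2 then 1 else -1)
def nrm (x : S d) : ℕ := Finset.univ.sup fun i => (x i).natAbs
noncomputable def bx (x : S d) (r : ℕ) : Finset (S d) :=
  Fintype.piFinset fun i => Finset.Icc (x i - r) (x i + r)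
/-- Square of the Euclidean norm. -/
def eu (x : S d) : ℝ := ∑ i, (x i : ℝ) ^ 2
def mass (η : Cfg d) (B : Finset (S d)) : ℕ := ∑ x ∈ B, η x

/-! ### Expectations under a `PMF` -/

noncomputable def ex {α : Type} (p : PMF α) (f : α → ℝ) : ℝ := ∑' a, (p a).toReal * f a
open Classical in
noncomputable def ind (E : Prop) : ℝ := if E then 1 else 0
noncomputable def pr {α : Type} (p : PMF α) (E : α → Prop) : ℝ := ex p fun a => ind (E a)
def Bdd {α : Type} (f : α → ℝ) : Prop := ∃ M : ℝ, ∀ a, |f a| ≤ M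

open Classical in
/-- The law with weights proportional to `w` (a point mass if they cannot be normalised). -/
noncomputable def ofW {α : Type} (w : α → ℝ) (a0 : α) : PMF α :=
  if h : (∑' a, ENNReal.ofReal (w a)) ≠ 0 ∧ (∑' a, ENNReal.ofReal (w a)) ≠ ⊤ then
    PMF.normalize (fun a => ENNReal.ofReal (w a)) h.1 h.2 else PMF.pure a0

noncomputable def iid {α : Type} (p : PMF α) : ℕ → PMF (List α)
  | 0 => PMF.pure []
  | N + 1 => p.bind fun a => (iid p N).map fun l => a :: l

noncomputable def pcL (m : S d → PMF ℕ) : List (S d) → PMF (Cfg d)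
  | [] => PMF.pure 0
  | x :: l => (m x).bind fun v => (pcL m l).map fun η => Function.update η x v

/-- Product law on `Q`, zero outside. -/
noncomputable def pc (Q : Finset (S d)) (m : S d → PMF ℕ) : PMF (Cfg d) := pcL m Q.toList

open Classical in
/-- A kernel that only decreases and carries `p` to `q`, when there is one. -/
noncomputable def thin (p q : PMF ℕ) : ℕ → PMF ℕ :=
  if h : ∃ κ : ℕ → PMF ℕ, (∀ a, ∀ b ∈ (κ a).support, b ≤ a) ∧ p.bind κ = q then h.choose
  else PMF.pure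

/-! ### The model -/

/-- Increments of the rate function, healing rate, and the number of particles an infected site
needs (`1`, or `2` for infinite healing rate). -/
structure Md where
  a : ℕ → ℝ
  dl : ℝ
  j : ℕ

/-- The fixed frame: model, bounds on the increments, range of fugacities, exponent. -/
structure Fr extends Md where
  Gm : ℝ
  Gp : ℝ
  lo : ℝ
  hi : ℝ
  A : ℕ

def Fr.Ok (F : Fr) : Prop :=
  0 < F.Gm ∧ (∀ k, F.Gm ≤ F.a k ∧ F.a k ≤ F.Gp) ∧ 0 ≤ F.dl ∧ (F.j = 1 ∨ F.j = 2) ∧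
    0 < F.lo ∧ F.lo < F.hi ∧ 3 ≤ F.A

noncomputable def rt (G : Md) : Lt d → ℝ
  | (_, none) => G.dl
  | (_, some q) => G.a q.2 / (2 * d)

/-- Marks in `Q` and jumps of level below `K` with both ends in `Q`. -/
def al (K : ℕ) (Q : Finset (S d)) : Finset (Lt d) :=
  Q.image (fun x => (x, none)) ∪
    ((Q ×ˢ ((Finset.univ : Finset (Dir d)) ×ˢ Finset.range K)).filter
      fun p => nb p.1 p.2.1 ∈ Q).image fun p => (p.1, some p.2)

/-- Marks in `Q` and all jumps of level below `K` that start in `Q` (killed system). -/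
def alk (K : ℕ) (Q : Finset (S d)) : Finset (Lt d) :=
  Q.image (fun x => (x, none)) ∪
    (Q ×ˢ ((Finset.univ : Finset (Dir d)) ×ˢ Finset.range K)).image fun p => (p.1, some p.2)

/-- The letters that can heal `z`. -/
def low (G : Md) (z : S d) : Finset (Lt d) :=
  insert (z, none)
    (((Finset.univ : Finset (Dir d)) ×ˢ Finset.range G.j).image fun q => (z, some q))

noncomputable def lw (G : Md) (A : Finset (Lt d)) : PMF (Lt d) :=
  ofW (fun a => if a ∈ A then rt G a else 0) (0, none)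

/-- One window: a Poisson number of independent letters of `A`. -/
noncomputable def wl (G : Md) (A : Finset (Lt d)) : PMF (Word d) :=
  (ofW (fun N : ℕ => (∑ a ∈ A, rt G a) ^ N / N.factorial) 0).bind (iid (lw G A))

noncomputable def wls (G : Md) (A : Finset (Lt d)) (T : ℕ) : PMF (List (Word d)) := iid (wl G A) T

/-- Keep the letters of `A`. -/
def flt (A : Finset (Lt d)) (ws : List (Word d)) : List (Word d) :=
  ws.map fun w => w.filter fun a => a ∈ A

def hop (η : Cfg d) (x y : S d) : Cfg d :=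
  fun z => η z - (if z = x then 1 else 0) + (if z = y then 1 else 0)

/-- Action of a letter on a configuration that reads the alphabet `A`. -/
def mv (A : Finset (Lt d)) (η : Cfg d) (a : Lt d) : Cfg d :=
  match a.2 with
  | none => η
  | some q => if a ∈ A ∧ q.2 < η a.1 then hop η a.1 (nb a.1 q.1) else η

def mw (A : Finset (Lt d)) (η : Cfg d) (w : Word d) : Cfg d := w.foldl (mv A) η
def ms (A : Finset (Lt d)) (η : Cfg d) (ws : List (Word d)) : Cfg d := ws.foldl (mw A) η

/-- A system: the alphabet it reads and the zone of the infection. -/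
structure Sys (d : ℕ) where
  A : Finset (Lt d)
  Z : Finset (S d)

def ac (G : Md) (Y : Sys d) (σ : St d) (a : Lt d) : St d :=
  match a.2 with
  | none => (σ.1, if a ∈ Y.A ∧ σ.1 a.1 = 1 then σ.2.erase a.1 else σ.2)
  | some q =>
    if a ∈ Y.A ∧ q.2 < σ.1 a.1 then
      (hop σ.1 a.1 (nb a.1 q.1),
        (if a.1 ∈ σ.2 ∧ nb a.1 q.1 ∈ Y.Z then insert (nb a.1 q.1) σ.2 else σ.2).filter
          fun x => G.j ≤ hop σ.1 a.1 (nb a.1 q.1) x)
    else σ

def acw (G : Md) (Y : Sys d) (σ : St d) (w : Word d) : St d := w.foldl (ac G Y) σ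
def acs (G : Md) (Y : Sys d) (σ : St d) (ws : List (Word d)) : St d := ws.foldl (acw G Y) σ
/-- Trajectory of the infected set. -/
def tj (G : Md) (Y : Sys d) (σ : St d) (ws : List (Word d)) : Tj d :=
  fun u => (acs G Y σ (ws.take u)).2
def ini (G : Md) (Z Y0 : Finset (S d)) (η : Cfg d) : St d :=
  (η, (Y0 ∩ Z).filter fun x => G.j ≤ η x)
def Reg (G : Md) (Z : Finset (S d)) (σ : St d) : Prop := ∀ x ∈ σ.2, x ∈ Z ∧ G.j ≤ σ.1 x

noncomputable def gK (G : Md) (K n : ℕ) : ℝ := ∑ k ∈ Finset.range (min n K), G.a k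

/-- Site law of fugacity `φ` with the lowest `f` particles frozen. -/
noncomputable def sl (G : Md) (K : ℕ) (φ : ℝ) (f : ℕ) : PMF ℕ :=
  ofW (fun i => if f ≤ i then ∏ m ∈ Finset.Ioc f i, φ / (gK G K m - gK G K f) else 0) f

noncomputable def mu (G : Md) (K : ℕ) (φ : ℝ) (Q : Finset (S d)) : PMF (Cfg d) :=
  pc Q fun _ => sl G K φ 0
noncomputable def piz (G : Md) (K : ℕ) (φ : ℝ) (Q : Finset (S d)) (z : S d) : PMF (Cfg d) :=
  pc Q fun x => sl G K φ (if x = z then G.j else 0)
noncomputable def mn (G : Md) (K : ℕ) (φ : ℝ) : ℝ := ex (sl G K φ 0) fun i => (i : ℝ)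

/-- The cutoff is large enough. -/
def KOk (F : Fr) (K : ℕ) : Prop := 4 ≤ K ∧ 2 * F.hi + 1 ≤ gK F.toMd K K - gK F.toMd K 2

/-- Expectation of a function of the infected trajectory in the stationary system on `Q` with zone
`Z`, started from `Y0`, over `T` windows. -/
noncomputable def wX (G : Md) (K : ℕ) (φ : ℝ) (Q Z Y0 : Finset (S d)) (T : ℕ) (f : Tj d → ℝ) : ℝ :=
  ex (mu G K φ Q) fun η => ex (wls G (al K Q) T) fun ws =>
    f (tj G ⟨al K Q, Z⟩ (ini G Z Y0 η) ws)
noncomputable def wP (G : Md) (K : ℕ) (φ : ℝ) (Q Z Y0 : Finset (S d)) (T : ℕ)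
    (E : Tj d → Prop) : ℝ := wX G K φ Q Z Y0 T fun I => ind (E I)

def MonoEv (E : Tj d → Prop) : Prop := ∀ I J : Tj d, (∀ u, I u ⊆ J u) → E I → E J
/-- Every infected site has an infected ancestor one window earlier at distance at most `V`. -/
def Chn (V T : ℕ) (I : Tj d) : Prop := ∀ u < T, ∀ x' ∈ I (u + 1), ∃ x ∈ I u, nrm (x' - x) ≤ V
/-- What every trajectory satisfies. -/
def RegT (Z Y0 : Finset (S d)) (I : Tj d) : Prop :=
  I 0 ⊆ Y0 ∧ (∀ u, I u ⊆ Z) ∧ ∀ u, (I (u + 1)).Nonempty → (I u).Nonempty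

noncomputable def wQ (Y : Finset (S d)) (L : ℕ) : Finset (S d) := Y.biUnion fun y => bx y (2 * L)
noncomputable def wZ (Y : Finset (S d)) (L : ℕ) : Finset (S d) := Y.biUnion fun y => bx y L
/-- One or two centres whose boxes do not touch. -/
def Apart (Y : Finset (S d)) (L : ℕ) : Prop :=
  Y.Nonempty ∧ Y.card ≤ 2 ∧ ∀ y ∈ Y, ∀ y' ∈ Y, y ≠ y' → 4 * L + 2 ≤ nrm (y - y')

/-- Type of a world: fugacity and size. -/
abbrev Ty : Type := ℝ × ℕ

/-- Probability in the world of type `C` centred at `y`. -/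
noncomputable def cP (G : Md) (K : ℕ) (C : Ty) (y : S d) (T : ℕ) (E : Tj d → Prop) : ℝ :=
  wP G K C.1 (bx y (2 * C.2)) (bx y C.2) {y} T E
noncomputable def alv (d : ℕ) (G : Md) (K : ℕ) (C : Ty) (t : ℕ) : ℝ :=
  cP G K C (0 : S d) t fun I => (I t).Nonempty
noncomputable def reach (d : ℕ) (G : Md) (K : ℕ) (C : Ty) (n0 r T : ℕ) : ℝ :=
  cP G K C (0 : S d) (n0 + T) fun I => ∃ u, n0 ≤ u ∧ u ≤ n0 + T ∧ ∃ x ∈ I u, r ≤ nrm x
def Spread (D : ℕ) (B : Finset (S d)) : Prop := ∃ x ∈ B, ∃ x' ∈ B, D ≤ nrm (x - x')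

/-- `σ` is dominated by `τ` near its infected sites. -/
def Vld (D : ℕ) (σ τ : St d) : Prop := σ.2 ⊆ τ.2 ∧ ∀ x ∈ σ.2, ∀ x' ∈ bx x D, σ.1 x' ≤ τ.1 x'

/-- The jumps of `A` have both ends in `Q`. -/
def Closed (A : Finset (Lt d)) (Q : Finset (S d)) : Prop :=
  ∀ x e k, ((x, some (e, k)) : Lt d) ∈ A → x ∈ Q ∧ nb x e ∈ Q

/-- At the sites `x` of `B` the jumps of `A` are those of level in `[f x, K)`, all directions. -/
def Lev (A : Finset (Lt d)) (B : Finset (S d)) (f : Cfg d) (K : ℕ) : Prop :=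
  ∀ x ∈ B, ∀ e k, (((x, some (e, k)) : Lt d) ∈ A ↔ f x ≤ k ∧ k < K)

/-- In the window `w`, descendants of a site of `B` stay within distance `V`. -/
def Slow (G : Md) (Y : Sys d) (V : ℕ) (B : Finset (S d)) (η : Cfg d) (w : Word d) : Prop :=
  ∀ x ∈ B, ∀ i, ∀ x' ∈ (acw G Y (η, {x}) (w.take i)).2, nrm (x' - x) ≤ V

/-- Some box of radius `l` inside `B` has more than `h` particles per site. -/
def Dense (l : ℕ) (h : ℝ) (B : Finset (S d)) (η : Cfg d) : Prop :=
  ∃ x, bx x l ⊆ B ∧ h * (bx x l).card < mass η (bx x l)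
/-- Some box of radius `l` inside `B` has less than `h` particles per site. -/
def Sparse (l : ℕ) (h : ℝ) (B : Finset (S d)) (η : Cfg d) : Prop :=
  ∃ x, bx x l ⊆ B ∧ (mass η (bx x l) : ℝ) < h * (bx x l).card

/-- A bijection of the lattice that is a graph isomorphism from `Q` onto its image. -/
def Iso (ψ : S d ≃ S d) (dm : S d → Dir d ≃ Dir d) (Q : Finset (S d)) : Prop :=
  ∀ x ∈ Q, ∀ e, (nb x e ∈ Q ↔ nb (ψ x) (dm x e) ∈ Q.image ψ) ∧
    (nb x e ∈ Q → ψ (nb x e) = nb (ψ x) (dm x e))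

/-- Signed permutation of the coordinates. -/
def sp (e : Equiv.Perm (Fin d)) (sg : Fin d → Bool) (x : S d) : S d :=
  fun i => if sg i then x (e i) else -x (e i)

end Pool.Agent.Lib.MP_dd0771_pr.Sc
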