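import Pool.Agent.Lib.MP_dd0771_pr.Sc.Geo

open Filter

namespace Pool.Agent.Lib.MP_dd0771_pr.Sc

variable {d : ℕ} {G : Md}

theorem mem_al_none {K : ℕ} {Q : Finset (S d)} {x : S d} :
    ((x, none) : Lt d) ∈ al K Q ↔ x ∈ Q := by
  simp [al]
theorem mem_al_some {K : ℕ} {Q : Finset (S d)} {x : S d} {e : Dir d} {k : ℕ} :
    ((x, some (e, k)) : Lt d) ∈ al K Q ↔ x ∈ Q ∧ nb x e ∈ Q ∧ k < K := by
  simp only [al, Finset.mem_union, Finset.mem_image, Finset.mem_filter, Finset.mem_product,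
    Finset.mem_univ, Finset.mem_range, true_and]
  constructor
  · rintro (⟨y, -, h⟩ | ⟨p, ⟨⟨h1, h2⟩, h3⟩, h⟩)
    · simp at h
    · obtain ⟨a, b⟩ := p
      simp only [Prod.mk.injEq, Option.some.injEq] at h
      obtain ⟨rfl, rfl⟩ := h
      exact ⟨h1, h3, h2⟩
  · rintro ⟨h1, h2, h3⟩
    exact Or.inr ⟨(x, (e, k)), ⟨⟨h1, h3⟩, h2⟩, rfl⟩
theorem mem_alk_none {K : ℕ} {Q : Finset (S d)} {x : S d} :
    ((x, none) : Lt d) ∈ alk K Q ↔ x ∈ Q := by
  simp [alk]
theorem mem_alk_some {K : ℕ} {Q : Finset (S d)} {x : S d} {e : Dir d} {k : ℕ} :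
    ((x, some (e, k)) : Lt d) ∈ alk K Q ↔ x ∈ Q ∧ k < K := by
  simp only [alk, Finset.mem_union, Finset.mem_image, Finset.mem_product,
    Finset.mem_univ, Finset.mem_range, true_and]
  constructor
  · rintro (⟨y, -, h⟩ | ⟨p, ⟨h1, h2⟩, h⟩)
    · simp at h
    · obtain ⟨a, b⟩ := p
      simp only [Prod.mk.injEq, Option.some.injEq] at h
      obtain ⟨rfl, rfl⟩ := h
      exact ⟨h1, h2⟩
  · rintro ⟨h1, h3⟩
    exact Or.inr ⟨(x, (e, k)), ⟨h1, h3⟩, rfl⟩
theorem mem_low {z : S d} {a : Lt d} :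
    a ∈ low G z ↔ a.1 = z ∧ ∀ q, a.2 = some q → q.2 < G.j := by
  obtain ⟨p, _ | q⟩ := a
  · simp [low]
  · simp only [low, Finset.mem_insert, Finset.mem_image, Finset.mem_product, Finset.mem_univ,
      Finset.mem_range, true_and, Prod.mk.injEq, Option.some.injEq]
    constructor
    · rintro (⟨-, h⟩ | ⟨q', h1, rfl, rfl⟩)
      · simp at h
      · exact ⟨rfl, fun q hq => hq ▸ h1⟩
    · rintro ⟨rfl, h⟩
      exact Or.inr ⟨q, h q rfl, rfl, rfl⟩
theorem al_mono (K : ℕ) {Q Q' : Finset (S d)} (h : Q ⊆ Q') : al K Q ⊆ al K Q' := by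
  rintro ⟨x, _ | ⟨e, k⟩⟩ ha
  · exact mem_al_none.2 (h (mem_al_none.1 ha))
  · obtain ⟨h1, h2, h3⟩ := mem_al_some.1 ha
    exact mem_al_some.2 ⟨h h1, h h2, h3⟩
theorem al_subset_alk (K : ℕ) (Q : Finset (S d)) : al K Q ⊆ alk K Q := by
  rintro ⟨x, _ | ⟨e, k⟩⟩ ha
  · exact mem_alk_none.2 (mem_al_none.1 ha)
  · obtain ⟨h1, -, h3⟩ := mem_al_some.1 ha
    exact mem_alk_some.2 ⟨h1, h3⟩
theorem subset_of_al {K : ℕ} {Q Q' : Finset (S d)} (h : al K Q ⊆ al K Q') : Q ⊆ Q' :=
  fun _ hx => mem_al_none.1 (h (mem_al_none.2 hx))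
theorem closed_al (K : ℕ) (Q : Finset (S d)) : Closed (al K Q) Q := fun _ _ _ h =>
  ⟨(mem_al_some.1 h).1, (mem_al_some.1 h).2.1⟩
theorem Closed.mono {A A' : Finset (Lt d)} {Q : Finset (S d)} (h : Closed A Q) (h' : A' ⊆ A) :
    Closed A' Q := fun x e k ha => h x e k (h' ha)
theorem lev_al (K : ℕ) {Q : Finset (S d)} {y : S d} {r : ℕ} (h : bx y (r + 1) ⊆ Q) :
    Lev (al K Q) (bx y r) 0 K := by
  intro x hx e k
  rw [mem_al_some]
  have h1 : x ∈ Q := h (bx_mono y (Nat.le_succ r) hx)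
  have h2 : nb x e ∈ Q := h (nb_mem_bx hx e)
  simp [h1, h2]
theorem lev_al_low {K : ℕ} {Q : Finset (S d)} {y : S d} {r : ℕ} (h : bx y (r + 1) ⊆ Q) (z : S d) :
    Lev (al K Q \ low G z) (bx y r) (fun x => if x = z then G.j else 0) K := by
  intro x hx e k
  rw [Finset.mem_sdiff, lev_al K h x hx e k, mem_low]
  by_cases hz : x = z
  · simp only [hz, if_true, true_and, Option.some.injEq, forall_eq', Pi.zero_apply, zero_le]
    omega
  · simp [hz]
theorem al_agree (K : ℕ) {Q Q' : Finset (S d)} {y : S d} {r : ℕ} (h : bx y (r + 1) ⊆ Q)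
    (h' : bx y (r + 1) ⊆ Q') (a : Lt d) (ha : a.1 ∈ bx y r) : a ∈ al K Q ↔ a ∈ al K Q' := by
  obtain ⟨x, _ | ⟨e, k⟩⟩ := a
  · have h1 := bx_mono y (Nat.le_succ r) ha
    simp only [mem_al_none]
    exact ⟨fun _ => h' h1, fun _ => h h1⟩
  · rw [lev_al K h x ha e k, lev_al K h' x ha e k]
theorem det1_al_fst {K : ℕ} {Q : Finset (S d)} {a : Lt d} (h : a ∈ al K Q) : a.1 ∈ Q := by
  obtain ⟨x, _ | ⟨e, k⟩⟩ := a
  · exact mem_al_none.1 h
  · exact (mem_al_some.1 h).1
theorem al_union (K : ℕ) {y1 y2 : S d} {r : ℕ} (h : 2 * r + 2 ≤ nrm (y1 - y2)) :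
    al K (bx y1 r ∪ bx y2 r) = al K (bx y1 r) ∪ al K (bx y2 r) ∧
      Disjoint (al K (bx y1 r)) (al K (bx y2 r)) := by
  have d1 : Disjoint (bx y1 (r + 1)) (bx y2 r) := bx_disjoint (by omega)
  have d2 : Disjoint (bx y1 r) (bx y2 (r + 1)) := bx_disjoint (by omega)
  refine ⟨Finset.ext ?_, Finset.disjoint_left.2 fun a h1 h2 => Finset.disjoint_left.1 d1
    (bx_mono y1 (Nat.le_succ r) (det1_al_fst h1)) (det1_al_fst h2)⟩
  rintro ⟨x, _ | ⟨e, k⟩⟩
  · simp only [Finset.mem_union, mem_al_none]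
  · simp only [Finset.mem_union, mem_al_some]
    constructor
    · rintro ⟨h1 | h1, h2 | h2, h3⟩
      · exact Or.inl ⟨h1, h2, h3⟩
      · exact absurd h2 (Finset.disjoint_left.1 d1 (nb_mem_bx h1 e))
      · exact absurd (nb_mem_bx h1 e) (Finset.disjoint_left.1 d2 h2)
      · exact Or.inr ⟨h1, h2, h3⟩
    · rintro (⟨h1, h2, h3⟩ | ⟨h1, h2, h3⟩)
      · exact ⟨Or.inl h1, Or.inl h2, h3⟩
      · exact ⟨Or.inr h1, Or.inr h2, h3⟩
theorem ac_fst (Y : Sys d) (σ : St d) (a : Lt d) : (ac G Y σ a).1 = mv Y.A σ.1 a := by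
  obtain ⟨p, _ | q⟩ := a
  · rfl
  · simp only [ac, mv]
    split_ifs <;> rfl
theorem acw_fst (Y : Sys d) (σ : St d) (w : Word d) : (acw G Y σ w).1 = mw Y.A σ.1 w := by
  induction w generalizing σ with
  | nil => rfl
  | cons a w ih => exact (ih (ac G Y σ a)).trans (by rw [ac_fst]; rfl)
theorem acs_fst (Y : Sys d) (σ : St d) (ws : List (Word d)) :
    (acs G Y σ ws).1 = ms Y.A σ.1 ws := by
  induction ws generalizing σ with
  | nil => rfl
  | cons w ws ih => exact (ih (acw G Y σ w)).trans (by rw [acw_fst]; rfl)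
theorem acw_append (Y : Sys d) (σ : St d) (w w' : Word d) :
    acw G Y σ (w ++ w') = acw G Y (acw G Y σ w) w' := List.foldl_append
theorem acs_append (Y : Sys d) (σ : St d) (ws ws' : List (Word d)) :
    acs G Y σ (ws ++ ws') = acs G Y (acs G Y σ ws) ws' := List.foldl_append
theorem mw_append (A : Finset (Lt d)) (η : Cfg d) (w w' : Word d) :
    mw A η (w ++ w') = mw A (mw A η w) w' := List.foldl_append
theorem ms_append (A : Finset (Lt d)) (η : Cfg d) (ws ws' : List (Word d)) :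
    ms A η (ws ++ ws') = ms A (ms A η ws) ws' := List.foldl_append
theorem acs_flatten (Y : Sys d) (σ : St d) (ws : List (Word d)) :
    acs G Y σ ws = acw G Y σ ws.flatten := by
  induction ws generalizing σ with
  | nil => rfl
  | cons w ws ih => rw [List.flatten_cons, acw_append]; exact ih _
theorem ms_flatten (A : Finset (Lt d)) (η : Cfg d) (ws : List (Word d)) :
    ms A η ws = mw A η ws.flatten := by
  induction ws generalizing η with
  | nil => rfl
  | cons w ws ih => rw [List.flatten_cons, mw_append]; exact ih _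
theorem acs_take_succ (Y : Sys d) (σ : St d) {ws : List (Word d)} {u : ℕ} {w : Word d}
    (h : ws[u]? = some w) :
    acs G Y σ (ws.take (u + 1)) = acw G Y (acs G Y σ (ws.take u)) w := by
  rw [List.take_add_one, h, acs_append]; rfl
theorem tj_shift (Y : Sys d) (σ : St d) (ws ws' : List (Word d)) (u : ℕ) :
    tj G Y σ (ws ++ ws') (ws.length + u) = tj G Y (acs G Y σ ws) ws' u := by
  simp only [tj, List.take_length_add_append, acs_append]
theorem flt_length (A : Finset (Lt d)) (ws : List (Word d)) : (flt A ws).length = ws.length :=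
  List.length_map _
theorem flt_take (A : Finset (Lt d)) (ws : List (Word d)) (u : ℕ) :
    (flt A ws).take u = flt A (ws.take u) := by simp only [flt, List.map_take]
theorem flt_drop (A : Finset (Lt d)) (ws : List (Word d)) (u : ℕ) :
    (flt A ws).drop u = flt A (ws.drop u) := by simp only [flt, List.map_drop]
theorem det1_ac_idle (Y : Sys d) (σ : St d) {a : Lt d} (h : a ∉ Y.A) : ac G Y σ a = σ := by
  obtain ⟨p, _ | q⟩ := a
  · simp only [ac, h, false_and, if_false]
  · simp only [ac, h, false_and, if_false]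
theorem det1_mv_idle {A : Finset (Lt d)} (η : Cfg d) {a : Lt d} (h : a ∉ A) : mv A η a = η := by
  obtain ⟨p, _ | q⟩ := a
  · rfl
  · simp only [mv, h, false_and, if_false]
theorem acw_filter (Y : Sys d) {A : Finset (Lt d)} (h : Y.A ⊆ A) (σ : St d) (w : Word d) :
    acw G Y σ (w.filter fun a => a ∈ A) = acw G Y σ w := by
  induction w generalizing σ with
  | nil => rfl
  | cons a w ih =>
    by_cases ha : a ∈ A
    · rw [List.filter_cons_of_pos (by simpa using ha)]; exact ih _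
    · rw [List.filter_cons_of_neg (by simpa using ha), ih]
      show _ = acw G Y (ac G Y σ a) w
      rw [det1_ac_idle Y σ fun h' => ha (h h')]
theorem acs_flt (Y : Sys d) {A : Finset (Lt d)} (h : Y.A ⊆ A) (σ : St d) (ws : List (Word d)) :
    acs G Y σ (flt A ws) = acs G Y σ ws := by
  induction ws generalizing σ with
  | nil => rfl
  | cons w ws ih =>
    show acs G Y (acw G Y σ (w.filter fun a => a ∈ A)) (flt A ws) = acs G Y (acw G Y σ w) ws
    rw [acw_filter Y h, ih]
theorem tj_flt (Y : Sys d) {A : Finset (Lt d)} (h : Y.A ⊆ A) (σ : St d) (ws : List (Word d)) :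
    tj G Y σ (flt A ws) = tj G Y σ ws := by
  funext u; simp only [tj, flt_take, acs_flt Y h]
theorem ms_flt {A A' : Finset (Lt d)} (h : A ⊆ A') (η : Cfg d) (ws : List (Word d)) :
    ms A η (flt A' ws) = ms A η ws := by
  have e := fun ws => acs_fst (G := ⟨fun _ => 0, 0, 0⟩) ⟨A, ∅⟩ (η, ∅) ws
  exact (e _).symm.trans ((congrArg Prod.fst (acs_flt ⟨A, ∅⟩ h _ _)).trans (e _))
theorem det1_mw_congr {A A' : Finset (Lt d)} (η : Cfg d) {w : Word d}
    (h : ∀ a ∈ w, (a ∈ A ↔ a ∈ A')) : mw A η w = mw A' η w := by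
  induction w generalizing η with
  | nil => rfl
  | cons a w ih =>
    have e : mv A η a = mv A' η a := by
      have := h a List.mem_cons_self
      obtain ⟨p, _ | q⟩ := a
      · rfl
      · simp only [mv, this]
    show mw A (mv A η a) w = mw A' (mv A' η a) w
    rw [e]; exact ih _ fun b hb => h b (List.mem_cons_of_mem _ hb)
/-- Only the letters that occur matter. -/
theorem ms_congr_al {A A' : Finset (Lt d)} (η : Cfg d) {ws : List (Word d)}
    (h : ∀ w ∈ ws, ∀ a ∈ w, (a ∈ A ↔ a ∈ A')) : ms A η ws = ms A' η ws := by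
  rw [ms_flatten, ms_flatten]
  refine det1_mw_congr η fun a ha => ?_
  obtain ⟨w, hw, ha⟩ := List.mem_flatten.1 ha
  exact h w hw a ha
theorem det1_mass_hop {Q : Finset (S d)} {η : Cfg d} {x y : S d} (hx : x ∈ Q) (hy : y ∈ Q)
    (h : 0 < η x) : mass (hop η x y) Q = mass η Q := by
  have e : ∀ z, hop η x y z + (if z = x then 1 else 0) = η z + if z = y then 1 else 0 := by
    intro z; unfold hop
    by_cases hz : z = x
    · subst hz; simp only [if_true]; omega
    · simp only [if_neg hz]; omega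
  have := Finset.sum_congr rfl fun z (_ : z ∈ Q) => e z
  rw [Finset.sum_add_distrib, Finset.sum_add_distrib, Finset.sum_ite_eq', Finset.sum_ite_eq',
    if_pos hx, if_pos hy] at this
  unfold mass; omega
theorem mass_mw {A : Finset (Lt d)} {Q : Finset (S d)} (h : Closed A Q) (η : Cfg d) (w : Word d) :
    mass (mw A η w) Q = mass η Q := by
  induction w generalizing η with
  | nil => rfl
  | cons a w ih =>
    refine (ih (mv A η a)).trans ?_
    obtain ⟨p, _ | ⟨e, k⟩⟩ := a
    · rfl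
    · simp only [mv]
      split_ifs with hq
      · exact det1_mass_hop (h p e k hq.1).1 (h p e k hq.1).2 (by omega)
      · rfl
theorem mass_ms {A : Finset (Lt d)} {Q : Finset (S d)} (h : Closed A Q) (η : Cfg d)
    (ws : List (Word d)) : mass (ms A η ws) Q = mass η Q := by
  rw [ms_flatten, mass_mw h]
theorem ms_outside {A : Finset (Lt d)} {Q : Finset (S d)} (h : Closed A Q) (η : Cfg d)
    (ws : List (Word d)) {x : S d} (hx : x ∉ Q) : ms A η ws x = η x := by
  rw [ms_flatten]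
  induction ws.flatten generalizing η with
  | nil => rfl
  | cons a w ih =>
    refine (ih (mv A η a)).trans ?_
    obtain ⟨p, _ | ⟨e, k⟩⟩ := a
    · rfl
    · simp only [mv]
      split_ifs with hq
      · have h1 : x ≠ p := fun e' => hx (e' ▸ (h p e k hq.1).1)
        have h2 : x ≠ nb p e := fun e' => hx (e' ▸ (h p e k hq.1).2)
        simp [hop, h1, h2]
      · rfl
theorem mw_mono (A : Finset (Lt d)) {η η' : Cfg d} (h : η ≤ η') (w : Word d) :
    mw A η w ≤ mw A η' w := by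
  induction w generalizing η η' with
  | nil => exact h
  | cons a w ih =>
    refine ih (η := mv A η a) (η' := mv A η' a) ?_
    obtain ⟨p, _ | q⟩ := a
    · exact h
    · intro x
      have h1 : η x ≤ η' x := h x
      have h2 : η p ≤ η' p := h p
      simp only [mv]
      split_ifs with c1 c2 c2
      · unfold hop; omega
      · exact absurd ⟨c1.1, by omega⟩ c2
      · unfold hop
        by_cases hx : x = p
        · subst hx
          have : ¬ q.2 < η x := fun h' => c1 ⟨c2.1, h'⟩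
          have := c2.2
          simp only [if_true]; omega
        · simp only [if_neg hx]; omega
      · exact h1
theorem ms_mono (A : Finset (Lt d)) {η η' : Cfg d} (h : η ≤ η') (ws : List (Word d)) :
    ms A η ws ≤ ms A η' ws := by
  rw [ms_flatten, ms_flatten]; exact mw_mono A h _
/-- A closed system only sees the configuration on `Q`. -/
theorem acs_local {Y : Sys d} {Q : Finset (S d)} (h : Closed Y.A Q) {σ σ' : St d}
    (h1 : ∀ x ∈ Q, σ.1 x = σ'.1 x) (h2 : σ.2 = σ'.2) (h3 : σ.2 ⊆ Q) (ws : List (Word d)) :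
    (∀ x ∈ Q, (acs G Y σ ws).1 x = (acs G Y σ' ws).1 x) ∧
      (acs G Y σ ws).2 = (acs G Y σ' ws).2 := by
  rw [acs_flatten, acs_flatten]
  induction ws.flatten generalizing σ σ' with
  | nil => exact ⟨h1, h2⟩
  | cons a w ih =>
    suffices k : (∀ x ∈ Q, (ac G Y σ a).1 x = (ac G Y σ' a).1 x) ∧
        (ac G Y σ a).2 = (ac G Y σ' a).2 ∧ (ac G Y σ a).2 ⊆ Q from ih k.1 k.2.1 k.2.2
    by_cases ha : a ∈ Y.A
    swap
    · rw [det1_ac_idle Y σ ha, det1_ac_idle Y σ' ha]; exact ⟨h1, h2, h3⟩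
    obtain ⟨p, _ | ⟨e, k⟩⟩ := a
    · simp only [ac, ha, true_and, ← h2]
      refine ⟨h1, ?_, ?_⟩
      · by_cases hp : p ∈ Q
        · rw [h1 p hp]
        · have : p ∉ σ.2 := fun h' => hp (h3 h')
          simp only [Finset.erase_eq_of_notMem this, ite_self]
      · split_ifs
        · exact (Finset.erase_subset _ _).trans h3
        · exact h3
    · obtain ⟨hp, hn⟩ := h p e k ha
      have hh : ∀ x ∈ Q, hop σ.1 p (nb p e) x = hop σ'.1 p (nb p e) x := fun x hx => by
        unfold hop; rw [h1 x hx]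
      have hs : (if p ∈ σ.2 ∧ nb p e ∈ Y.Z then insert (nb p e) σ.2 else σ.2) ⊆ Q := by
        split_ifs
        · exact Finset.insert_subset hn h3
        · exact h3
      simp only [ac, ha, true_and, ← h2, ← h1 p hp]
      by_cases hk : k < σ.1 p
      · simp only [if_pos hk]
        exact ⟨hh, Finset.filter_congr fun x hx => by rw [hh x (hs hx)],
          (Finset.filter_subset _ _).trans hs⟩
      · simp only [if_neg hk]; exact ⟨h1, h2, h3⟩

end Pool.Agent.Lib.MP_dd0771_pr.Sc
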