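import Pool.Agent.Lib.MP_dd0771_pr.Sc.Kit

open Filter

namespace Pool.Agent.Lib.MP_dd0771_pr.Sc

/-- A probability over the windows of a smaller alphabet, read under a coupling. -/
theorem dom_lift {d : ℕ} {F : Fr} (hF : F.Ok) {β : Type} (r : PMF β) (π : β → Cfg d)
    {A A0 : Finset (Lt d)} (hA : A ⊆ A0) (T : ℕ) (E : Cfg d → List (Word d) → Prop)
    (hE : ∀ η ws, E η (flt A ws) ↔ E η ws) :
    (ex (r.map π) fun η => pr (wls F.toMd A T) (E η)) =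
      ex r fun p => pr (wls F.toMd A0 T) (E (π p)) := by
  rw [ex_map _ _ (Bdd.pr (fun _ => wls F.toMd A T) E)]
  exact ex_congr fun p _ =>
    (ex_wls_flt hF hA T (Bdd.ind _) fun ws => by rw [propext (hE (π p) ws)]).symm

theorem dom_werr {d : ℕ} (G : Md) (K n : ℕ) (h : ℝ) (Y : Sys d) (Q Qd : Finset (S d)) (T : ℕ) :
    Bdd (werr G K n h Y Q Qd T) :=
  Bdd.of01 fun η => ⟨le_min one_pos.le (add_nonneg (add_nonneg (pr_nonneg _ _) (ind_nonneg _))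
    (by positivity)), min_le_left _ _⟩

theorem dom_vld {d : ℕ} (G : Md) {Z1 Z2 Y Y0 : Finset (S d)} {L D : ℕ} {η η' : Cfg d}
    (hZ1 : Z1 ⊆ wZ Y L) (hZ2 : Z1 ⊆ Z2) (hD : D ≤ L) (h : ∀ x ∈ wQ Y L, η x ≤ η' x) :
    Reg G Z1 (ini G Z1 Y0 η) ∧ Vld D (ini G Z1 Y0 η) (ini G Z2 Y0 η') := by
  refine ⟨fun x hx => ?_, fun x hx => ?_, fun x hx x' hx' => h x' ?_⟩ <;>
    obtain ⟨h1, h2⟩ := Finset.mem_filter.1 hx <;> obtain ⟨h0, h1⟩ := Finset.mem_inter.1 h1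
  · exact ⟨h1, h2⟩
  · exact Finset.mem_filter.2 ⟨Finset.mem_inter.2 ⟨h0, hZ2 h1⟩,
      h2.trans (h x (wZ_subset_wQ Y L (hZ1 h1)))⟩
  · obtain ⟨y, hy, h3⟩ := Finset.mem_biUnion.1 (hZ1 h1)
    exact Finset.mem_biUnion.2 ⟨y, hy, bx_subset (by have := mem_bx.1 h3; omega) hx'⟩

theorem s_dom {d : ℕ} {F : Fr} (hd : 2 ≤ d) (hF : F.Ok)
    (hTRACK : S_TRACK d F) (hWERR : S_WERR d F) (hEN0 : S_EN0 d F) :
    S_DOM d F := by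
  intro B hB
  filter_upwards [hTRACK, hWERR B hB, hEN0 B hB] with n hT hW hE K hK φ1 φ2 Q1 Q2 Z1 Z2 Y Y0 L T E
    h1 h2 h3 h4 hQ1 hQ2 hZ1 hZ2 hY hc hL hL2 hT2 hM
  have hg := hB.2.1
  have l1 : F.lo ≤ φ1 := hB.1.trans h1
  have k1 : KP F K φ1 := ⟨hK.1, l1, by linarith⟩
  have k2 : KP F K φ2 := ⟨hK.1, by linarith, h4⟩
  obtain ⟨r, r1, r2, hr⟩ := pc_couple Q1 Q2 (fun _ => sl F.toMd K φ1 0) (fun _ => sl F.toMd K φ2 0)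
    fun _ _ _ k => sl_dom hF k1 k2 (by linarith) le_rfl (by omega) k
  have a1 : al K Q1 ⊆ al K (Q1 ∪ Q2) := al_mono K Finset.subset_union_left
  have a2 : al K Q2 ⊆ al K (Q1 ∪ Q2) := al_mono K Finset.subset_union_right
  have e1 := dom_lift hF r Prod.fst a1 T
    (fun η ws => E (tj F.toMd ⟨al K Q1, Z1⟩ (ini F.toMd Z1 Y0 η) ws))
    fun η ws => by rw [tj_flt ⟨al K Q1, Z1⟩ subset_rfl]
  have e2 := dom_lift hF r Prod.snd a2 T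
    (fun η ws => E (tj F.toMd ⟨al K Q2, Z2⟩ (ini F.toMd Z2 Y0 η) ws))
    fun η ws => by rw [tj_flt ⟨al K Q2, Z2⟩ subset_rfl]
  have e3 := dom_lift hF r Prod.snd a2 T (fun η ws => ∃ u, 0 ≤ u ∧ u ≤ T ∧
    Sparse (n ^ 2) (hh F B K φ1) (wQ Y L) (ms (al K Q2) η (ws.take u)))
    fun η ws => by simp only [flt_take, ms_flt subset_rfl]
  have e4 := ex_map r Prod.fst
    (dom_werr F.toMd K n (hh F B K φ1) ⟨al K Q1, Z1⟩ Q1 (wQ Y L) T)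
  rw [r1] at e1 e4
  rw [r2] at e2 e3
  have b1 := hW K hK φ1 φ1 Q1 Z1 (wQ Y L) T h1 h2 l1 (by linarith)
    (hZ1.trans ((wZ_subset_wQ Y L).trans hQ1)) hQ1 hc hT2
  have b2 := hE K hK φ1 φ2 Q2 (wQ Y L) 0 T T h1 h3 h4 hQ2 ((Finset.card_le_card hQ1).trans hc)
    (by omega)
  have b3 := b1.trans_eq' e4
  have b4 := b2.trans_eq' e3
  have c2 := Bdd.pr (fun _ : Cfg d × Cfg d => wls F.toMd (al K (Q1 ∪ Q2)) T)
    fun p ws => E (tj F.toMd ⟨al K Q2, Z2⟩ (ini F.toMd Z2 Y0 p.2) ws)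
  have c3 := Bdd.pr (fun _ : Cfg d × Cfg d => wls F.toMd (al K (Q1 ∪ Q2)) T)
    fun p ws => ∃ u, 0 ≤ u ∧ u ≤ T ∧
      Sparse (n ^ 2) (hh F B K φ1) (wQ Y L) (ms (al K Q2) p.2 (ws.take u))
  have c4 := (dom_werr F.toMd K n (hh F B K φ1) ⟨al K Q1, Z1⟩ Q1 (wQ Y L) T).comp
    (Prod.fst : Cfg d × Cfg d → Cfg d)
  refine (e1.trans_le ((ex_mono (Bdd.pr _ _) ((c2.add c3).add c4) fun p hp => ?_).trans_eq
    ((ex_add r (c2.add c3) c4).trans (congrArg (· + _) (ex_add r c2 c3))))).trans ?_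
  · obtain ⟨v1, v2⟩ := dom_vld F.toMd (Y0 := Y0) hZ1 hZ2 (show DD F n ≤ L by omega)
      fun x hx => hr p hp x (hQ1 hx) (hQ2 hx)
    have t := hT K (Q1 ∪ Q2) Q1 Q2 Z1 Z2 Y L T (hh F B K φ1) _ _ Finset.subset_union_left
      Finset.subset_union_right hQ1 hQ2 hZ1 hZ2 hY hL hL2 hT2 v1 v2
    refine (pr_le_add fun ws hw h0 => ?_).trans (add_le_add (pr_or_le _ _ _) t)
    by_cases g1 : ∀ u, tj F.toMd ⟨al K Q1, Z1⟩ (ini F.toMd Z1 Y0 p.1) ws u ⊆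
        tj F.toMd ⟨al K Q2, Z2⟩ (ini F.toMd Z2 Y0 p.2) ws u
    · exact Or.inl (Or.inl (hM _ _ g1 h0))
    obtain ⟨u, hu⟩ := not_forall.1 g1
    by_cases g2 : ∃ u, 0 ≤ u ∧ u ≤ T ∧
        Sparse (n ^ 2) (hh F B K φ1) (wQ Y L) (ms (al K Q2) p.2 (ws.take u))
    · exact Or.inl (Or.inr g2)
    refine Or.inr ⟨min u T, min_le_right _ _, Or.inl ?_, fun u' h' h'' =>
      g2 ⟨u', Nat.zero_le _, h'.trans (min_le_right _ _), h''⟩⟩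
    rwa [tj, tj, ← (wls_mem hF hw).1, ← List.take_eq_take_min]
  · have e5 : wP F.toMd K φ2 Q2 Z2 Y0 T E = _ := e2
    rw [e5]
    linarith

end Pool.Agent.Lib.MP_dd0771_pr.Sc
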