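import Pool.Agent.Lib.MP_dd0771_pr.Sc.Kit

open Filter

namespace Pool.Agent.Lib.MP_dd0771_pr.Sc

variable {d : ℕ} {F : Fr}

/-- Total rate of the jumps from `Q` below the height `ζ`, with weights. -/
theorem early_rate (hd : 1 ≤ d) (hF : F.Ok) (A : Finset (Lt d)) (Q : Finset (S d)) (ζ : Cfg d)
    (H : Lt d → ℝ) (h : S d → ℕ → ℝ) (h0 : ∀ x k, 0 ≤ h x k) (hn : ∀ x, H (x, none) ≤ 0)
    (hs : ∀ x e k, H (x, some (e, k)) ≤ if x ∈ Q ∧ k < ζ x then h x k else 0) :
    ∑ a ∈ A, rt F.toMd a * H a ≤ F.Gp * ∑ x ∈ Q, ∑ k ∈ Finset.range (ζ x), h x k := by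
  classical
  have d0 : (0 : ℝ) < d := by exact_mod_cast hd
  have g0 : 0 ≤ F.Gp := hF.1.le.trans ((hF.2.1 0).1.trans (hF.2.1 0).2)
  obtain ⟨W, hW⟩ : ∃ W : Lt d → ℝ, W = fun a => a.2.elim 0 fun q => F.Gp / (2 * d) * h a.1 q.2 :=
    ⟨_, rfl⟩
  have W0 : ∀ a, 0 ≤ W a := by
    rintro ⟨x, _ | q⟩
    · simp [hW]
    · simp only [hW, Option.elim]
      have := h0 x q.2
      positivity
  obtain ⟨T, hT⟩ : ∃ T : Finset (Lt d), T = (Q.sigma fun x =>
    (Finset.univ : Finset (Dir d)) ×ˢ Finset.range (ζ x)).image fun p => (p.1, some p.2) := ⟨_, rfl⟩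
  calc _ ≤ ∑ a ∈ A, if a ∈ T then W a else 0 := by
        refine Finset.sum_le_sum ?_
        rintro ⟨x, _ | ⟨e, k⟩⟩ -
        · refine (mul_nonpos_of_nonneg_of_nonpos (rt_nonneg hF _) (hn x)).trans ?_
          split_ifs
          exacts [W0 _, le_rfl]
        · refine (mul_le_mul_of_nonneg_left (hs x e k) (rt_nonneg hF _)).trans ?_
          by_cases c : x ∈ Q ∧ k < ζ x
          · rw [if_pos c, if_pos (hT ▸ Finset.mem_image.2 ⟨⟨x, e, k⟩, by simp [c], rfl⟩), hW]
            refine mul_le_mul_of_nonneg_right ?_ (h0 x k)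
            exact div_le_div_of_nonneg_right (hF.2.1 k).2 (by positivity)
          · rw [if_neg c, mul_zero]
            split_ifs
            exacts [W0 _, le_rfl]
    _ ≤ ∑ a ∈ T, W a := by
        rw [Finset.sum_ite_mem]
        exact Finset.sum_le_sum_of_subset_of_nonneg Finset.inter_subset_right fun a _ _ => W0 a
    _ = _ := by
        rw [hT, Finset.sum_image, Finset.sum_sigma, Finset.mul_sum]
        · refine Finset.sum_congr rfl fun x _ => ?_
          rw [Finset.sum_product]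
          simp only [hW, Option.elim, ← Finset.mul_sum, Finset.sum_const, Finset.card_univ,
            Fintype.card_prod, Fintype.card_fin, Fintype.card_bool, nsmul_eq_mul]
          push_cast
          field_simp
        · rintro ⟨x, q⟩ - ⟨x', q'⟩ - e
          obtain ⟨rfl, e'⟩ := Prod.mk.inj e
          obtain rfl := Option.some.inj e'
          rfl

theorem early_fold (A1 A2 : Finset (Lt d)) (w : Word d) (p : Cfg d × Cfg d) :
    w.foldl (fun (p : Cfg d × Cfg d) a => (mv A1 p.1 a, mv A2 p.2 a)) p =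
      (mw A1 p.1 w, mw A2 p.2 w) := by
  induction w generalizing p with
  | nil => rfl
  | cons a w ih => exact ih _

/-- One letter creates a negative discrepancy only at the end of a jump of the lower system. -/
theorem early_site {A1 A2 : Finset (Lt d)} {B : Finset (S d)}
    (hA : ∀ x ∈ B, ∀ q, ((x, some q) : Lt d) ∈ A1 ↔ ((x, some q) : Lt d) ∈ A2) (ζ η : Cfg d)
    (x : S d) (e : Dir d) (k : ℕ) {z : S d} (hz : z ∈ B) :
    mv A1 ζ (x, some (e, k)) z - mv A2 η (x, some (e, k)) z ≤ ζ z - η z +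
      if z = nb x e ∧ ((x, some (e, k)) : Lt d) ∈ A1 ∧ k < ζ x ∧ ¬ (x ∈ B ∧ k < η x) then 1
      else 0 := by
  have n := nb_ne x e
  by_cases h1 : z = x
  · subst h1
    have := hA z hz (e, k)
    by_cases a1 : ((z, some (e, k)) : Lt d) ∈ A1 <;> by_cases c1 : k < ζ z <;>
      by_cases c2 : k < η z <;> simp [mv, hop, ← this, a1, c1, c2, n.symm] <;> omega
  · by_cases h2 : z = nb x e
    · subst h2
      have := fun h => hA x h (e, k)
      by_cases a1 : ((x, some (e, k)) : Lt d) ∈ A1 <;>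
        by_cases a2 : ((x, some (e, k)) : Lt d) ∈ A2 <;> by_cases c1 : k < ζ x <;>
        by_cases c2 : k < η x <;> by_cases c3 : x ∈ B <;>
        simp [mv, hop, a1, a2, c1, c2, c3, n] at this ⊢ <;> omega
    · simp only [mv, h2, false_and, if_false]
      split_ifs <;> simp [hop, h1, h2]

theorem s_early {d : ℕ} {F : Fr} (hd : 2 ≤ d) (hF : F.Ok)
    :
    S_EARLY d F := by
  classical
  have g0 : 0 ≤ F.Gp := hF.1.le.trans ((hF.2.1 0).1.trans (hF.2.1 0).2)
  refine ⟨Real.exp (3 * F.Gp), Real.one_le_exp (by positivity),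
    fun A A1 A2 Q1 y Do Di T ζ η _ _ hc hQ hA hD hle => ?_⟩
  obtain ⟨ψ, hψ⟩ : ∃ ψ : S d → ℝ, ψ = fun x => Real.exp (-(nrm (x - y) : ℝ)) := ⟨_, rfl⟩
  have ψ0 : ∀ x, 0 < ψ x := fun x => hψ ▸ Real.exp_pos _
  have ψ1 : ∀ x, ψ x ≤ 1 := fun x => hψ ▸ Real.exp_le_one_iff.2 (by simp)
  have ψ2 : ∀ x (r : ℕ), r ≤ nrm (x - y) → ψ x ≤ Real.exp (-(r : ℝ)) := fun x r h =>
    hψ ▸ Real.exp_le_exp.2 (neg_le_neg (by exact_mod_cast h))
  have tri : ∀ x e, nrm (x - y) ≤ nrm (nb x e - y) + 1 := fun x e => by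
    have := nrm_tri x (nb x e) y
    rw [nrm_sub_comm x (nb x e), nrm_nb] at this
    omega
  have ψ3 : ∀ x e, ψ (nb x e) ≤ 3 * ψ x := fun x e => by
    have h1 : (nrm (x - y) : ℝ) ≤ nrm (nb x e - y) + 1 := by exact_mod_cast tri x e
    calc _ ≤ Real.exp (1 + -(nrm (x - y) : ℝ)) := hψ ▸ Real.exp_le_exp.2 (by linarith)
      _ ≤ _ := by
        rw [Real.exp_add, hψ]
        exact mul_le_mul_of_nonneg_right (Real.exp_one_lt_d9.le.trans (by norm_num))
          (Real.exp_pos _).le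
  obtain ⟨g, hg⟩ : ∃ g : Cfg d × Cfg d → ℝ,
    g = fun p => ∑ z ∈ bx y Do, ψ z * ((p.1 z - p.2 z : ℕ) : ℝ) := ⟨_, rfl⟩
  have gn : ∀ p, 0 ≤ g p := fun p => hg ▸ Finset.sum_nonneg fun z _ =>
    mul_nonneg (ψ0 z).le (Nat.cast_nonneg _)
  obtain ⟨b, hb⟩ : ∃ b : ℝ, b = Real.exp (-(Do : ℝ)) := ⟨_, rfl⟩
  have b0 : 0 < b := hb ▸ Real.exp_pos _
  have key := gen_max hF A (fun (p : Cfg d × Cfg d) a => (mv A1 p.1 a, mv A2 p.2 a))
    (fun p => mass p.1 Q1 = mass ζ Q1) (fun p a hp _ => (mass_mw hc p.1 [a]).trans hp)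
    (fun p => g p + b * mass ζ Q1) (mass ζ Q1 + b * mass ζ Q1) (3 * F.Gp) 0 (by positivity) le_rfl
    (fun p hp => ⟨add_nonneg (gn p) (by positivity), add_le_add_left ?_ _⟩) (fun p hp => ?_) T
    (ζ, η) rfl (Real.exp_pos (-(Di : ℝ)))
  · refine (pr_mono ?_).trans (key.trans ?_)
    · rintro ws - ⟨u, w, i, hw, x, hx, hlt⟩
      refine ⟨u, w, i, hw, ?_⟩
      rw [early_fold, early_fold, ← ms_flatten, ← ms_flatten]
      refine le_add_of_le_of_nonneg ?_ (by positivity)
      rw [hg]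
      refine le_trans ?_ (Finset.single_le_sum (fun z _ => mul_nonneg (ψ0 z).le (Nat.cast_nonneg _))
        (bx_mono y hD hx))
      refine le_trans ?_ (le_mul_of_one_le_right (ψ0 x).le ?_)
      · exact hψ ▸ Real.exp_le_exp.2 (neg_le_neg (by exact_mod_cast mem_bx.1 hx))
      · exact_mod_cast Nat.sub_pos_of_lt hlt
    · have : g (ζ, η) = 0 := hg ▸ Finset.sum_eq_zero fun z hz => by
        simp [Nat.sub_eq_zero_of_le (hle z hz)]
      rw [this, ← Real.exp_nat_mul, div_le_iff₀ (Real.exp_pos _), mul_assoc (_ * _), ← Real.exp_add,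
        show -((Do : ℝ) - Di) + -(Di : ℝ) = -Do by ring, ← hb, mul_comm (T : ℝ)]
      have := Real.exp_pos (3 * F.Gp * T)
      nlinarith [mul_pos this b0]
  · rw [hg, ← hp, mass]
    push_cast
    refine le_trans (Finset.sum_le_sum fun z _ => ?_)
      (Finset.sum_le_sum_of_subset_of_nonneg hQ fun z _ _ => Nat.cast_nonneg _)
    exact (mul_le_of_le_one_left (Nat.cast_nonneg _) (ψ1 z)).trans (by exact_mod_cast Nat.sub_le _ _)
  · refine (early_rate (by omega) hF A Q1 p.1 _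
      (fun x k => (if x ∈ bx y Do ∧ p.2 x ≤ k then 3 * ψ x else 0) + b) (fun x k => ?_)
      (fun x => le_of_eq (sub_self _)) fun x e k => ?_).trans ?_
    · have := ψ0 x
      positivity
    · rw [add_sub_add_right_eq_sub, hg, ← Finset.sum_sub_distrib]
      refine (Finset.sum_le_sum (g := fun z => if z = nb x e then if ((x, some (e, k)) : Lt d) ∈ A1 ∧
        k < p.1 x ∧ ¬ (x ∈ bx y Do ∧ k < p.2 x) then ψ z else 0 else 0) fun z hz => ?_).trans ?_
      · have h1 : (_ : ℝ) ≤ _ := Nat.cast_le.2 (early_site hA p.1 p.2 x e k hz)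
        rw [Nat.cast_add, ← sub_le_iff_le_add'] at h1
        rw [← mul_sub, ← ite_and]
        refine (mul_le_mul_of_nonneg_left h1 (ψ0 z).le).trans (le_of_eq ?_)
        split_ifs <;> simp
      · rw [Finset.sum_ite_eq']
        have := ψ0 x
        by_cases c : nb x e ∈ bx y Do ∧ ((x, some (e, k)) : Lt d) ∈ A1 ∧
          k < p.1 x ∧ ¬ (x ∈ bx y Do ∧ k < p.2 x)
        · rw [if_pos c.1, if_pos c.2, if_pos ⟨(hc x e k c.2.1).1, c.2.2.1⟩]
          by_cases c' : x ∈ bx y Do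
          · rw [if_pos ⟨c', not_lt.1 fun h => c.2.2.2 ⟨c', h⟩⟩]
            exact (ψ3 x e).trans (le_add_of_nonneg_right b0.le)
          · rw [if_neg fun h => c' h.1, zero_add, hb]
            have := tri x e
            rw [mem_bx] at c'
            exact ψ2 _ _ (by omega)
        · rw [← ite_and, if_neg c]
          positivity
    · have e1 : ∀ x ∈ Q1, ∑ k ∈ Finset.range (p.1 x),
          ((if x ∈ bx y Do ∧ p.2 x ≤ k then 3 * ψ x else 0) + b) =
          (if x ∈ bx y Do then 3 * (ψ x * ((p.1 x - p.2 x : ℕ) : ℝ)) else 0) + b * p.1 x :=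
        fun x _ => by
          rw [Finset.sum_add_distrib, Finset.sum_const, Finset.card_range, nsmul_eq_mul, mul_comm _ b]
          congr 1
          split_ifs with c
          · simp only [c, true_and, ← Finset.sum_filter, Finset.sum_const, nsmul_eq_mul]
            rw [show (Finset.range (p.1 x)).filter (p.2 x ≤ ·) = Finset.Ico (p.2 x) (p.1 x) by
              ext k; simp [and_comm], Nat.card_Ico]
            ring
          · simp [c]
      rw [Finset.sum_congr rfl e1, Finset.sum_add_distrib, ← Finset.sum_filter,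
        Finset.filter_mem_eq_inter, Finset.inter_eq_right.2 hQ, ← Finset.mul_sum, ← Finset.mul_sum,
        ← Nat.cast_sum, show ∑ x ∈ Q1, p.1 x = mass ζ Q1 from hp,
        show ∑ z ∈ bx y Do, ψ z * ((p.1 z - p.2 z : ℕ) : ℝ) = g p by rw [hg]]
      have : 0 ≤ F.Gp * (b * mass ζ Q1) := by positivity
      nlinarith

end Pool.Agent.Lib.MP_dd0771_pr.Sc
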