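import Pool.Agent.Lib.MP_dd0771_pr.Sc.Kit

open Filter

namespace Pool.Agent.Lib.MP_dd0771_pr.Sc

theorem en0_stat {d : ℕ} {G : Md} (p : PMF (Cfg d)) (A : Finset (Lt d))
    (h : ∀ T, (p.bind fun η => (wls G A T).map (ms A η)) = p) (T u : ℕ) (E : Cfg d → Prop) :
    (ex p fun η => pr (wls G A T) fun ws => E (ms A η (ws.take u))) = pr p E := by
  conv_rhs => rw [← h (min u T), pr_bind]
  refine ex_congr fun η _ => ?_
  rw [pr_map, wls, wls, ← iid_take _ (min_le_right u T), pr_map]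
  refine pr_congr fun ws hw => ?_
  rw [← iid_length hw, ← List.take_take, List.take_length]

theorem en0_num (d : ℕ) (hd : 1 ≤ d) {γ : ℝ} (hγ : 0 < γ) : ∀ᶠ n : ℕ in atTop,
    (2 : ℝ) ^ (n + 2) * 2 ^ (5 * n * d) * Real.exp (-γ * ((n ^ 2 : ℕ) : ℝ) ^ d) ≤ er n := by
  obtain ⟨N, hN⟩ := exists_nat_ge ((7 + 5 * d) / γ)
  filter_upwards [eventually_ge_atTop (N + 1)] with n hn
  have n1 : (N : ℝ) + 1 ≤ n := by exact_mod_cast hn
  have N0 : (0 : ℝ) ≤ N := Nat.cast_nonneg N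
  have d0 : (0 : ℝ) ≤ d := Nat.cast_nonneg d
  rw [div_le_iff₀ hγ] at hN
  have h1 : ((n ^ 2 : ℕ) : ℝ) ≤ ((n ^ 2 : ℕ) : ℝ) ^ d := by
    refine le_self_pow₀ ?_ (by omega)
    push_cast
    nlinarith
  have h2 : (2 : ℝ) ≤ Real.exp 1 := by linarith [Real.add_one_le_exp (1 : ℝ)]
  have h3 : (2 : ℝ) ^ (n + 2 + 5 * n * d + 4 * n) ≤ Real.exp (γ * ((n ^ 2 : ℕ) : ℝ) ^ d) := by
    refine (pow_le_pow_left₀ (by norm_num) h2 _).trans ?_
    rw [← Real.exp_nat_mul]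
    refine Real.exp_le_exp.2 (le_trans ?_ (mul_le_mul_of_nonneg_left h1 hγ.le))
    have h4 : 7 + 5 * (d : ℝ) ≤ γ * n := by nlinarith
    have h5 := mul_le_mul_of_nonneg_right h4 (by linarith : (0 : ℝ) ≤ n)
    push_cast
    nlinarith
  rw [neg_mul, Real.exp_neg, er, one_div, inv_pow, ← pow_add, ← div_eq_mul_inv,
    div_le_iff₀ (Real.exp_pos _), ← div_eq_inv_mul, le_div_iff₀ (by positivity), ← pow_add]
  exact h3

theorem s_en0 {d : ℕ} {F : Fr} (hd : 2 ≤ d) (hF : F.Ok)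
    (hSTAT : S_STAT d F) (hGAP : S_GAP d F) :
    S_EN0 d F := by
  classical
  intro B hB
  have g0 : 0 < B.g := hB.2.1
  obtain ⟨γ, hγ, hl⟩ := hGAP (B.g / 4) (by positivity)
  have t2 : Tendsto (fun n : ℕ => n ^ 2) atTop atTop := tendsto_pow_atTop (by norm_num)
  filter_upwards [t2.eventually hl, en0_num d (by omega) hγ] with n h1 h2 K hK pc φ Q Q' u0 te T
    a1 a2 a3 hQ hc ht
  have k1 : KP F K φ := ⟨hK.1, by linarith [hB.1], a3⟩
  have k2 : KP F K (pc + 3 * B.g / 4) := ⟨hK.1, by linarith [hB.1], by linarith⟩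
  let s := Finset.Icc u0 te ×ˢ Q'.filter fun x => bx x (n ^ 2) ⊆ Q'
  let E : ℕ × S d → Cfg d → List (Word d) → Prop := fun b η ws =>
    (mass (ms (al K Q) η (ws.take b.1)) (bx b.2 (n ^ 2)) : ℝ) <
      mn F.toMd K (pc + 3 * B.g / 4) * (bx b.2 (n ^ 2)).card
  have hb : ∀ b ∈ s, Bdd fun η => pr (wls F.toMd (al K Q) T) (E b η) :=
    fun b _ => Bdd.pr (fun _ => wls F.toMd (al K Q) T) (E b)
  calc _ ≤ ex (mu F.toMd K φ Q) fun η => ∑ b ∈ s, pr (wls F.toMd (al K Q) T) (E b η) := by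
        refine ex_mono (Bdd.pr (fun _ => wls F.toMd (al K Q) T) _) ⟨s.card, fun η => ?_⟩
          fun η _ => (pr_mono ?_).trans (pr_union_le _ s fun b => E b η)
        · rw [abs_of_nonneg (Finset.sum_nonneg fun b _ => pr_nonneg _ _)]
          simpa using Finset.sum_le_card_nsmul s _ 1 fun b _ => pr_le_one _ (E b η)
        · rintro ws _ ⟨u, b1, b2, x, b3, b4⟩
          exact ⟨(u, x), Finset.mem_product.2 ⟨Finset.mem_Icc.2 ⟨b1, b2⟩,
            Finset.mem_filter.2 ⟨b3 (self_mem_bx x _), b3⟩⟩, b4⟩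
    _ ≤ s.card • Real.exp (-γ * ((n ^ 2 : ℕ) : ℝ) ^ d) := by
        rw [ex_sum _ s hb]
        refine Finset.sum_le_card_nsmul s _ _ fun b hb' => ?_
        have b3 := (Finset.mem_filter.1 (Finset.mem_product.1 hb').2).2
        refine (en0_stat _ _ (hSTAT K φ Q k1).2.1 T b.1 fun η => (mass η (bx b.2 (n ^ 2)) : ℝ) <
          mn F.toMd K (pc + 3 * B.g / 4) * (bx b.2 (n ^ 2)).card).le.trans ?_
        exact (h1 K φ _ Q b.2 b.2 _ k1 k2 (b3.trans hQ) (Or.inl rfl)).1 (by linarith)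
    _ ≤ _ := by
        refine le_trans ?_ h2
        rw [nsmul_eq_mul]
        refine mul_le_mul_of_nonneg_right ?_ (Real.exp_pos _).le
        have c1 : s.card ≤ 2 ^ (n + 2) * 2 ^ (5 * n * d) := by
          rw [Finset.card_product, Nat.card_Icc]
          refine Nat.mul_le_mul ?_ ((Finset.card_filter_le _ _).trans hc)
          have : 0 < 2 ^ (n + 1) := by positivity
          rw [pow_succ 2 (n + 1)]
          omega
        exact_mod_cast c1

end Pool.Agent.Lib.MP_dd0771_pr.Sc
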