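import Pool.Agent.Lib.MP_dd0771_pr.Sc.Kit

open Filter

namespace Pool.Agent.Lib.MP_dd0771_pr.Sc

variable {d : ℕ} {F : Fr}

theorem engs_bdd {α : Type} {f : α → ℝ} {C : ℝ} (h : ∀ a, 0 ≤ f a ∧ f a ≤ C) : Bdd f :=
  ⟨C, fun a => by rw [abs_of_nonneg (h a).1]; exact (h a).2⟩

theorem engs_ex {α : Type} (p : PMF α) {f : α → ℝ} {C : ℝ} (h : ∀ a, 0 ≤ f a ∧ f a ≤ C) :
    0 ≤ ex p f ∧ ex p f ≤ C :=
  ⟨ex_nonneg fun a _ => (h a).1, ex_le (engs_bdd h) fun a _ => (h a).2⟩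

theorem engs_bool (p : PMF Bool) (x y : ℝ) :
    ex p (fun b => if b then x else y) =
      pr p (fun b => b = true) * x + (1 - pr p fun b => b = true) * y := by
  have e : (fun b : Bool => if b then x else y) =
      fun b => ind (b = true) * x + ind (¬ b = true) * y := by
    funext b
    cases b
    · simp [ind]
    · simp [ind]
  rw [e, ex_add p ((Bdd.ind _).mul (Bdd.const x)) ((Bdd.ind _).mul (Bdd.const y)), ex_mul_right,
    ex_mul_right, ← pr_not]
  rfl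

theorem engs_low (hF : F.Ok) {K r : ℕ} (hK : 4 ≤ K) (hr : 1 ≤ r) (z : S d) :
    low F.toMd z ⊆ al K (bx z r) := by
  rintro ⟨x, o⟩ ha
  obtain ⟨hx, hq⟩ := mem_low.1 ha
  obtain rfl : x = z := hx
  rcases o with _ | ⟨e, k⟩
  · exact mem_al_none.2 (self_mem_bx _ _)
  · refine mem_al_some.2 ⟨self_mem_bx _ _, ?_, ?_⟩
    · rw [mem_bx, nrm_nb]; exact hr
    · have h1 : k < F.toMd.j := hq (e, k) rfl
      rcases hF.2.2.2.1 with h | h <;> omega

theorem engs_frz {G : Md} {A : Finset (Lt d)} {z : S d} (h : low G z ⊆ A)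
    (ws : List (Word d)) : frz G z (flt A ws) ↔ frz G z ws := by
  unfold frz flt
  constructor
  · intro H w hw a ha hl
    exact H _ (List.mem_map.2 ⟨w, hw, rfl⟩) a (List.mem_filter.2 ⟨ha, by simpa using h hl⟩) hl
  · intro H w' hw' a ha
    obtain ⟨w, hw, rfl⟩ := List.mem_map.1 hw'
    exact H w hw a (List.mem_filter.1 ha).1

theorem engs_LT (B : Bs) (K n l : ℕ) (pc : ℝ) {A : Finset (Lt d)} {z : S d}
    (h1 : low F.toMd z ⊆ A) (h2 : al K (bx z (4 * DD F n)) ⊆ A) (ws : List (Word d)) :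
    LT F B K n l pc (flt A ws) z = LT F B K n l pc ws z := by
  unfold LT
  have e : ∀ σ ws', acs F.toMd ⟨al K (bx z (4 * DD F n)), bx z (2 * DD F n)⟩ σ (flt A ws') =
      acs F.toMd ⟨al K (bx z (4 * DD F n)), bx z (2 * DD F n)⟩ σ ws' := fun σ ws' =>
    acs_flt _ h2 σ ws'
  have e0 : frz F.toMd z ((flt A ws).take (s2 F l)) = frz F.toMd z (ws.take (s2 F l)) := by
    rw [flt_take, engs_frz h1]
  simp only [flt_take, flt_drop, ms_flt h2, e]
  by_cases hz : frz F.toMd z (ws.take (s2 F l))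
  · rw [if_pos hz, if_pos (e0 ▸ hz)]
  · rw [if_neg hz, if_neg (e0 ▸ hz)]

theorem engs_LTs (B : Bs) (K n l : ℕ) (pc : ℝ) {A : Finset (Lt d)} (ws : List (Word d))
    (zs : List (S d)) (h : ∀ z ∈ zs, low F.toMd z ⊆ A ∧ al K (bx z (4 * DD F n)) ⊆ A) :
    LTs F B K n l pc (flt A ws) zs = LTs F B K n l pc ws zs := by
  induction zs with
  | nil => rfl
  | cons z zs ih =>
    simp only [LTs]
    rw [engs_LT B K n l pc (h z (by simp)).1 (h z (by simp)).2,
      ih fun z' hz' => h z' (by simp [hz'])]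

theorem engs_box {Y : Finset (S d)} {L r : ℕ} {z : S d} (hz : z ∈ wZ Y L) :
    ∃ y ∈ Y, bx z r ⊆ bx y (L + r) := by
  obtain ⟨y, hy, h⟩ := Finset.mem_biUnion.1 hz
  exact ⟨y, hy, bx_subset (Nat.add_le_add_right (mem_bx.1 h) r)⟩

theorem engs_boxQ {Y : Finset (S d)} {L r : ℕ} {z : S d} (hz : z ∈ wZ Y L) (hr : r ≤ L) :
    bx z r ⊆ wQ Y L := by
  obtain ⟨y, hy, h⟩ := engs_box (r := r) hz
  exact fun x hx => Finset.mem_biUnion.2 ⟨y, hy, bx_mono y (by omega) (h hx)⟩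

/-- A block only reads the letters of the tracked system. -/
theorem engs_tryB_flt (hF : F.Ok) (B : Bs) {K n : ℕ} (l : ℕ) (pc : ℝ) (H : Mc d) (k : ℕ)
    (σ : St d) (hK : 4 ≤ K) (hD : 1 ≤ DD F n) (hL : 8 * DD F n ≤ H.L)
    (hA : al K (wQ H.Y H.L) ⊆ H.sy.A) (hO : RuleOk (DD F n) H.O) (ws : List (Word d)) :
    tryB F B K n l pc H k σ (flt H.sy.A ws) = tryB F B K n l pc H k σ ws := by
  have hc : ∀ ω0, cand F K n l pc H σ (flt H.sy.A ws) ω0 = cand F K n l pc H σ ws ω0 := by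
    intro ω0
    unfold cand
    rw [flt_take, acs_flt _ (Finset.Subset.refl _), ms_flt hA]
  unfold tryB
  simp only [hc]
  congr 1
  funext ω0
  split_ifs with hne
  · refine kit3_bind fun Yt hYt => ?_
    rw [PMF.mem_support_uniformOfFinset_iff] at hYt
    rw [flt_drop, engs_LTs]
    intro z hz
    have hz1 : z ∈ wZ H.Y H.L := (Finset.mem_inter.1 (wx_cand_sub n l pc H σ ws ω0
      ((hO _ _ _ hYt).1 (Finset.mem_toList.1 hz)))).2
    have h2 : al K (bx z (4 * DD F n)) ⊆ H.sy.A :=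
      (al_mono K (engs_boxQ hz1 (by omega))).trans hA
    exact ⟨(engs_low hF hK (by omega) z).trans h2, h2⟩
  · rfl

/-- Exchange of the second part of the windows with the randomness of the block. -/
theorem engs_tryB_le (B : Bs) (K n l : ℕ) (pc : ℝ) (H : Mc d) (k : ℕ) (σ : St d)
    {ws1 : List (Word d)} (h1 : ws1.length = s1 F n) (q : PMF (List (Word d)))
    {g : List (Word d) → Option (Finset (S d)) → ℝ} {C : ℝ} (hg : ∀ a b, 0 ≤ g a b ∧ g a b ≤ C)
    {c : Cfg d → ℝ} (hc : Bdd c) (h0 : ∀ ω0, (ex q fun ws2 => g ws2 none) ≤ c ω0)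
    (hs : ∀ ω0, ∀ Yt ∈ H.O k (cand F K n l pc H σ ws1 ω0),
      (ex q fun ws2 => pr (LTs F B K n l pc ws2 Yt.toList) (fun b => b = true) * g ws2 (some Yt) +
        (1 - pr (LTs F B K n l pc ws2 Yt.toList) fun b => b = true) * g ws2 none) ≤ c ω0) :
    (ex q fun ws2 => ex (tryB F B K n l pc H k σ (ws1 ++ ws2)) (g ws2)) ≤
      ex (mu F.toMd K (pc + B.g / 2) (wQ H.Y H.L)) c := by
  have hcd : ∀ ws2 ω0, cand F K n l pc H σ (ws1 ++ ws2) ω0 = cand F K n l pc H σ ws1 ω0 := by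
    intro ws2 ω0
    unfold cand
    rw [List.take_left' h1, List.take_of_length_le h1.le]
  have hb : ∀ a, Bdd (g a) := fun a => engs_bdd (hg a)
  unfold tryB
  simp only [hcd, List.drop_left' h1, ex_bind _ _ (hb _)]
  rw [ex_comm q _ (engs_bdd fun x => engs_ex _ (hg x.1))]
  refine ex_mono (engs_bdd fun a => engs_ex _ fun b => engs_ex _ (hg b)) hc fun ω0 _ => ?_
  by_cases hne : (H.O k (cand F K n l pc H σ ws1 ω0)).Nonempty
  · simp only [dif_pos hne, ex_bind _ _ (hb _), ex_map _ _ (hb _)]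
    refine (le_of_eq (ex_comm q (PMF.uniformOfFinset _ hne) (f := fun a Yt =>
      ex (LTs F B K n l pc a Yt.toList) fun b => g a (if b = true then some Yt else none))
      (engs_bdd fun x => engs_ex _ fun b => hg x.1 _))).trans ?_
    refine ex_le (engs_bdd fun a => engs_ex _ fun b => engs_ex _ fun b' => hg b _)
      fun Yt hYt => ?_
    rw [PMF.mem_support_uniformOfFinset_iff] at hYt
    refine le_trans (le_of_eq (ex_congr fun ws2 _ => ?_)) (hs ω0 Yt hYt)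
    rw [← engs_bool]
    exact ex_congr fun b _ => by cases b <;> rfl
  · simp only [dif_neg hne, ex_pure]
    exact h0 ω0

/-- The tracked infection is not contained in the ambient one at an unflagged time `u ≤ T`. -/
def engsT (F : Fr) (K : ℕ) (M : Amb d) (H : Mc d) (T : ℕ) (s : Nd d) (σ : St d)
    (ws : List (Word d)) : Prop :=
  ∃ u, u ≤ T ∧ ¬ M.fl (nx s (ws.take u)) ∧
    ¬ tj F.toMd H.sy σ ws u ⊆ (M.st F.toMd K (nx s (ws.take u))).2

theorem engsT_shift {K T : ℕ} {M : Amb d} {H : Mc d} {s : Nd d} {σ : St d}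
    {ws ws' : List (Word d)} (h : engsT F K M H T (nx s ws) (acs F.toMd H.sy σ ws) ws') :
    engsT F K M H (ws.length + T) s σ (ws ++ ws') := by
  obtain ⟨u, hu, h1, h2⟩ := h
  refine ⟨ws.length + u, by omega, ?_, ?_⟩
  · rwa [List.take_length_add_append, ← nx_nx]
  · rwa [List.take_length_add_append, ← nx_nx, tj_shift]

theorem engsT_first {K T : ℕ} {M : Amb d} {H : Mc d} {s : Nd d} {σ : St d}
    {ws : List (Word d)} (hT : ws.length ≤ T) (h1 : ¬ M.fl (nx s ws))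
    (h2 : ¬ (acs F.toMd H.sy σ ws).2 ⊆ (M.st F.toMd K (nx s ws)).2) (ws' : List (Word d)) :
    engsT F K M H T s σ (ws ++ ws') := by
  refine ⟨ws.length, hT, ?_, ?_⟩
  · rwa [List.take_left']
    rfl
  · unfold tj
    rwa [List.take_left']
    rfl

/-- Value of the machine started at block `k`. -/
noncomputable def engsR (F : Fr) (B : Bs) (K n l : ℕ) (pc : ℝ) (H : Mc d)
    (v : ℕ × Finset (S d) → ℝ) (m k : ℕ) (σ : St d) : ℝ :=
  ex (run F B K n l pc H m k σ) fun o => o.elim 0 v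

theorem engsR_bd (B : Bs) (K n l : ℕ) (pc : ℝ) (H : Mc d) {v : ℕ × Finset (S d) → ℝ} {vb : ℝ}
    (h : ∀ p, 0 ≤ v p ∧ v p ≤ vb) (m k : ℕ) (σ : St d) :
    0 ≤ engsR F B K n l pc H v m k σ ∧ engsR F B K n l pc H v m k σ ≤ vb := by
  refine engs_ex _ ?_
  rintro (_ | p)
  · exact ⟨le_rfl, (h (0, ∅)).1.trans (h (0, ∅)).2⟩
  · exact h p

theorem engsR_succ (B : Bs) (K n l : ℕ) (pc : ℝ) (H : Mc d) {v : ℕ × Finset (S d) → ℝ} {vb : ℝ}
    (h : ∀ p, 0 ≤ v p ∧ v p ≤ vb) (m k : ℕ) (σ : St d) :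
    engsR F B K n l pc H v (m + 1) k σ = ex (wls F.toMd H.sy.A (sb F B n l)) fun ws =>
      ex (tryB F B K n l pc H k σ ws) fun o =>
        o.elim (engsR F B K n l pc H v m (k + 1) (acs F.toMd H.sy σ ws)) fun Yt => v (k, Yt) := by
  have hb : Bdd fun o : Option (ℕ × Finset (S d)) => o.elim 0 v := by
    refine engs_bdd (C := vb) ?_
    rintro (_ | p)
    · exact ⟨le_rfl, (h (0, ∅)).1.trans (h (0, ∅)).2⟩
    · exact h p
  unfold engsR
  rw [run, ex_bind _ _ hb]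
  refine ex_congr fun ws _ => ?_
  rw [ex_bind _ _ hb]
  refine ex_congr fun o _ => ?_
  cases o
  · rfl
  · exact ex_pure _ _

theorem engs_comb {α : Type} (q : PMF α) {su R X : α → ℝ} {v e b : ℝ}
    (hs : ∀ a, 0 ≤ su a ∧ su a ≤ 1) (hR : Bdd R) (hX : Bdd X) (he : 0 ≤ e)
    (h1 : ∀ a ∈ q.support, R a ≤ X a + e)
    (h2 : (ex q fun a => su a * v) ≤ (ex q fun a => su a * X a) + b) :
    (ex q fun a => su a * v + (1 - su a) * R a) ≤ ex q X + e + b := by
  have b1 : Bdd su := Bdd.of01 hs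
  have b2 : Bdd fun a => 1 - su a := (Bdd.const 1).sub b1
  have h3 : (ex q fun a => (1 - su a) * R a) ≤ ex q fun a => X a - su a * X a + e := by
    refine ex_mono (b2.mul hR) ((hX.sub (b1.mul hX)).add (Bdd.const e)) fun a ha => ?_
    have h4 := mul_le_mul_of_nonneg_left (h1 a ha) (sub_nonneg.2 (hs a).2)
    nlinarith [mul_nonneg (hs a).1 he]
  rw [ex_add q (hX.sub (b1.mul hX)) (Bdd.const e), ex_sub q hX (b1.mul hX), ex_const] at h3
  rw [ex_add q (b1.mul (Bdd.const v)) (b2.mul hR)]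
  linarith

end Pool.Agent.Lib.MP_dd0771_pr.Sc
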