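import Pool.Agent.Lib.MP_dd0771_pr.Sc.Kit
import Pool.Agent.Lib.MP_dd0771_pr.Sc.EngsA

open Filter

namespace Pool.Agent.Lib.MP_dd0771_pr.Sc

theorem s_eng {d : ℕ} {F : Fr} (hd : 2 ≤ d) (hF : F.Ok) (hL : Low d F)
    (hQQ : S_QQ d F) (hPHA : S_PHA d F) (hTRY : S_TRY d F) : S_ENG d F := by
  intro B hB
  filter_upwards [hQQ B hB, hPHA B hB, hTRY B hB, eventually_ge_atTop 1] with n hq hp ht hn K hK
    l pc M Φ te ub vb H m s σ ty kp v hl1 hl2 hp1 hp2 hM hΦ hu hte hY hQ' hL8 hL2 hA1 hA2 hO hvb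
    hv hC
  have hD : 1 ≤ DD F n := Nat.one_le_pow _ _ hn
  have hv0 : 0 ≤ vb := (hv (0, ∅)).1.trans (hv (0, ∅)).2
  have he := (er_le_e2 n).1.le
  have hsb : sb F B n l = s1 F n + sq F B l := rfl
  have key : ∀ j k (s' : Nd d) (σ' : St d), k + j = m → tm s' = tm s + k * sb F B n l →
      engsR F B K n l pc H v j k σ' ≤ Φ s' + vb *
        (pr (wls F.toMd (al K M.Q) (j * sb F B n l)) (engsT F K M H (j * sb F B n l) s' σ') +
          j * er n) := by
    intro j
    induction j with
    | zero =>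
      intro k s' σ' _ _
      have h0 : engsR F B K n l pc H v 0 k σ' = 0 := ex_pure _ _
      rw [h0]
      exact add_nonneg (hΦ.1 s').1 (mul_nonneg hv0 (add_nonneg (pr_nonneg _ _) (by positivity)))
    | succ j ih =>
      intro k s' σ' hk hs'
      have hm : (k + 1) * sb F B n l ≤ m * sb F B n l := Nat.mul_le_mul_right _ (by omega)
      have hte' : tm s' + sb F B n l ≤ te := by rw [hs']; rw [add_mul, one_mul] at hm; omega
      have hj : (j + 1) * sb F B n l = sb F B n l + j * sb F B n l := by ring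
      obtain ⟨G, hG⟩ : ∃ G : List (Word d) → ℝ, G = fun ws =>
        pr (wls F.toMd (al K M.Q) (j * sb F B n l)) fun ws' =>
          engsT F K M H (sb F B n l + j * sb F B n l) s' σ' (ws ++ ws') := ⟨_, rfl⟩
      have hG1 : ∀ ws, 0 ≤ G ws ∧ G ws ≤ 1 := fun ws => by
        rw [hG]; exact ⟨pr_nonneg _ _, pr_le_one _ _⟩
      obtain ⟨X, hX⟩ : ∃ X : List (Word d) → ℝ, X = fun ws => Φ (nx s' ws) + vb * G ws := ⟨_, rfl⟩
      have hX1 : ∀ ws, Φ (nx s' ws) ≤ X ws ∧ vb * G ws ≤ X ws ∧ 0 ≤ X ws ∧ X ws ≤ 1 + vb := by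
        intro ws
        have a1 := hΦ.1 (nx s' ws)
        have a2 := mul_nonneg hv0 (hG1 ws).1
        have a3 := mul_le_of_le_one_right hv0 (hG1 ws).2
        simp only [hX]
        refine ⟨?_, ?_, ?_, ?_⟩ <;> linarith [a1.1, a1.2]
      have bX : Bdd X := engs_bdd fun ws => (hX1 ws).2.2
      have hXe : ex (wls F.toMd (al K M.Q) (sb F B n l)) X = Φ s' + vb *
          pr (wls F.toMd (al K M.Q) ((j + 1) * sb F B n l))
            (engsT F K M H ((j + 1) * sb F B n l) s' σ') := by
        rw [hX, ex_add _ (Bdd.of01 fun ws => hΦ.1 _) ((Bdd.const vb).mul (Bdd.of01 hG1)),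
          ← hΦ.ex s' hte', ex_mul_left, hj, hG]
        congr 2
        exact (ex_iid_add _ _ _ (Bdd.ind _)).symm
      have hR := engsR_bd (F := F) B K n l pc H hv j (k + 1)
      have hI : ∀ ws : List (Word d), ws.length = sb F B n l →
          engsR F B K n l pc H v j (k + 1) (acs F.toMd H.sy σ' ws) ≤ X ws + vb * (j * er n) := by
        intro ws hw
        have a1 := ih (k + 1) (nx s' ws) (acs F.toMd H.sy σ' ws) (by omega)
          (by rw [tm_nx, hs', hw]; ring)
        have a2 : pr (wls F.toMd (al K M.Q) (j * sb F B n l)) (engsT F K M H (j * sb F B n l)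
            (nx s' ws) (acs F.toMd H.sy σ' ws)) ≤ G ws := by
          rw [hG]
          refine pr_mono fun ws' _ h => ?_
          have a4 := engsT_shift h
          rwa [hw] at a4
        have a3 := mul_le_mul_of_nonneg_left a2 hv0
        simp only [hX]
        linarith
      have hg : ∀ (ws : List (Word d)) (o : Option (Finset (S d))),
          0 ≤ (o.elim (engsR F B K n l pc H v j (k + 1) (acs F.toMd H.sy σ' ws))
            fun Yt => v (k, Yt)) ∧
          (o.elim (engsR F B K n l pc H v j (k + 1) (acs F.toMd H.sy σ' ws))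
            fun Yt => v (k, Yt)) ≤ vb := by
        rintro ws (_ | Yt)
        · exact hR _
        · exact hv _
      obtain ⟨E, hE⟩ : ∃ E : Cfg d → List (Word d) → Prop, E = fun ω0 ws => ¬ M.fl (nx s' ws) ∧
        ∃ y ∈ H.Y, ∃ x ∈ bx y (H.L + 4 * DD F n),
          (M.st F.toMd K (nx s' ws)).1 x < ms (al K (wQ H.Y H.L)) ω0 ws x := ⟨_, rfl⟩
      have hP : (ex (mu F.toMd K (pc + B.g / 2) (wQ H.Y H.L)) fun ω0 =>
          pr (wls F.toMd (al K M.Q) (s1 F n)) (E ω0)) ≤ er n := by
        rw [hE]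
        exact hp K hK pc M s' H.Y H.L hp1 hp2 hM (by omega) hY hQ' hL8 hL2
      have hW : ∀ ws1 : List (Word d), Bdd fun ws2 => X (ws1 ++ ws2) := fun ws1 => bX.comp _
      have blk : ∀ ws1 : List (Word d), ws1.length = s1 F n →
          (ex (wls F.toMd (al K M.Q) (sq F B l)) fun ws2 =>
            ex (tryB F B K n l pc H k σ' (ws1 ++ ws2)) fun o =>
              o.elim (engsR F B K n l pc H v j (k + 1) (acs F.toMd H.sy σ' (ws1 ++ ws2)))
                fun Yt => v (k, Yt)) ≤
          (ex (wls F.toMd (al K M.Q) (sq F B l)) fun ws2 => X (ws1 ++ ws2)) + vb * (j * er n) +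
            vb * pr (mu F.toMd K (pc + B.g / 2) (wQ H.Y H.L)) fun ω0 => E ω0 ws1 := by
        intro ws1 h1
        have hlen : ∀ ws2 ∈ (wls F.toMd (al K M.Q) (sq F B l)).support,
            (ws1 ++ ws2).length = sb F B n l := fun ws2 h2 => by
          rw [List.length_append, h1, iid_length h2, hsb]
        refine (engs_tryB_le B K n l pc H k σ' h1 _ (fun a b => hg (ws1 ++ a) b)
          (c := fun ω0 => (ex (wls F.toMd (al K M.Q) (sq F B l)) fun ws2 => X (ws1 ++ ws2)) +
            vb * (j * er n) + vb * ind (E ω0 ws1))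
          ((Bdd.const _).add ((Bdd.const vb).mul (Bdd.ind _))) (fun ω0 => ?_)
          fun ω0 Yt hYt => ?_).trans (le_of_eq ?_)
        · have a1 := ex_mono (engs_bdd fun ws2 => hR (acs F.toMd H.sy σ' (ws1 ++ ws2)))
            ((hW ws1).add (Bdd.const (vb * (j * er n)))) fun ws2 h2 => hI _ (hlen ws2 h2)
          rw [ex_add _ (hW ws1) (Bdd.const _), ex_const] at a1
          exact a1.trans (le_add_of_nonneg_right (mul_nonneg hv0 (ind_nonneg _)))
        · have hsu : ∀ ws2, 0 ≤ pr (LTs F B K n l pc ws2 Yt.toList) (fun b => b = true) ∧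
              pr (LTs F B K n l pc ws2 Yt.toList) (fun b => b = true) ≤ 1 := fun ws2 =>
            ⟨pr_nonneg _ _, pr_le_one _ _⟩
          have bs := Bdd.of01 hsu
          refine engs_comb _ hsu (engs_bdd fun ws2 => hR (acs F.toMd H.sy σ' (ws1 ++ ws2)))
            (hW ws1) (by positivity) (fun ws2 h2 => hI _ (hlen ws2 h2)) ?_
          have hi := mul_nonneg hv0 (ind_nonneg (E ω0 ws1))
          have easy : (∀ ws2 ∈ (wls F.toMd (al K M.Q) (sq F B l)).support,
              v (k, Yt) ≤ X (ws1 ++ ws2)) → (ex (wls F.toMd (al K M.Q) (sq F B l)) fun ws2 =>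
                pr (LTs F B K n l pc ws2 Yt.toList) (fun b => b = true) * v (k, Yt)) ≤
              (ex (wls F.toMd (al K M.Q) (sq F B l)) fun ws2 =>
                pr (LTs F B K n l pc ws2 Yt.toList) (fun b => b = true) * X (ws1 ++ ws2)) +
                vb * ind (E ω0 ws1) := fun h =>
            (ex_mono (bs.mul (Bdd.const _)) (bs.mul (hW ws1)) fun ws2 h2 =>
              mul_le_mul_of_nonneg_left (h ws2 h2) (hsu ws2).1).trans (le_add_of_nonneg_right hi)
          by_cases c1 : 0 < v (k, Yt)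
          swap
          · exact easy fun ws2 _ => (not_lt.1 c1).trans (hX1 _).2.2.1
          by_cases c2 : M.fl (nx s' ws1)
          · refine easy fun ws2 h2 => ((hv _).2.trans hvb).trans
              ((hΦ.2.2 _ ?_ ?_).trans (hX1 _).1)
            · rw [tm_nx, hlen ws2 h2]; exact hte'
            · rw [← nx_nx]; exact hM.2.2.1 _ _ c2
          by_cases c3 : (acs F.toMd H.sy σ' ws1).2 ⊆ (M.st F.toMd K (nx s' ws1)).2
          swap
          · refine easy fun ws2 _ => (hv _).2.trans (le_trans (le_of_eq ?_) (hX1 _).2.1)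
            rw [hG]
            simp only [List.append_assoc]
            rw [pr_one fun ws' _ => engsT_first (by omega) c2 c3 _, mul_one]
          by_cases c4 : E ω0 ws1
          · rw [ind_pos c4, mul_one]
            refine (ex_le (bs.mul (Bdd.const _)) fun ws2 _ =>
              (mul_le_of_le_one_left (hv _).1 (hsu ws2).2).trans (hv _).2).trans
              (le_add_of_nonneg_left (ex_nonneg fun ws2 _ =>
                mul_nonneg (hsu ws2).1 (hX1 _).2.2.1))
          have hcs := wx_cand_sub (F := F) (K := K) n l pc H σ' ws1 ω0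
          rw [List.take_of_length_le h1.le] at hcs
          obtain ⟨o1, -, o3, o4⟩ := hO _ _ _ hYt
          have hZ : ∀ z ∈ Yt, z ∈ wZ H.Y H.L := fun z hz => (Finset.mem_inter.1 (hcs (o1 hz))).2
          have hbx : ∀ z ∈ Yt, bx z (4 * DD F n) ⊆ M.Q := fun z hz =>
            ((engs_boxQ (hZ z hz) (by omega)).trans hQ').trans hM.1
          obtain ⟨k1, k2, k3, k4, k5⟩ := hC k (by omega) _ (hcs.trans Finset.inter_subset_right)
            Yt hYt c1
          have a1 := ht K hK l pc M Φ (nx s' ws1) (ms (al K (wQ H.Y H.L)) ω0 ws1) Yt (kp Yt)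
            (ty (k, Yt)) (v (k, Yt)) hl1 hl2 hM hΦ.1 o3 hbx o4 k1 k2 k3 k4 (fun z hz => ?_)
            (by rw [tm_nx, hs', h1]; convert k5 using 1; rw [hsb]; ring)
          · rw [ex_mul_right, (hq K hK l pc hl1 hl2 hp1 hp2).2.2.2 M.Q Yt o3 hbx o4]
            refine (a1.trans (ex_mono (bs.mul (Bdd.of01 fun _ => hΦ.1 _)) (bs.mul (hW ws1))
              fun ws2 _ => ?_)).trans (le_add_of_nonneg_right hi)
            rw [nx_nx]
            exact mul_le_mul_of_nonneg_left (hX1 _).1 (hsu ws2).1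
          · refine ⟨c3 (Finset.mem_inter.1 (hcs (o1 (k1 hz)))).1, ?_, fun x hx => ?_⟩
            · have a2 := o1 (k1 hz)
              unfold cand at a2
              rw [List.take_of_length_le h1.le] at a2
              classical
              exact (Finset.mem_filter.1 a2).2
            · obtain ⟨y, hy, hb⟩ := engs_box (r := 4 * DD F n) (hZ z (k1 hz))
              by_contra hlt
              exact c4 (by rw [hE]; exact ⟨c2, y, hy, x, hb hx, not_le.1 hlt⟩)
        · rw [ex_add _ (Bdd.const _) ((Bdd.const vb).mul (Bdd.ind _)), ex_const, ex_mul_left]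
          rfl
      have bf : Bdd fun ws => ex (tryB F B K n l pc H k σ' ws) fun o =>
          o.elim (engsR F B K n l pc H v j (k + 1) (acs F.toMd H.sy σ' ws)) fun Yt => v (k, Yt) :=
        engs_bdd fun ws => engs_ex _ (hg ws)
      have bW : Bdd fun ws1 => ex (wls F.toMd (al K M.Q) (sq F B l)) fun ws2 => X (ws1 ++ ws2) :=
        engs_bdd fun ws1 => engs_ex _ fun ws2 => (hX1 _).2.2
      have bP : Bdd fun ws1 => vb * pr (mu F.toMd K (pc + B.g / 2) (wQ H.Y H.L))
          fun ω0 => E ω0 ws1 := (Bdd.const vb).mul (Bdd.pr _ _)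
      rw [engsR_succ B K n l pc H hv, ← ex_wls_flt hF hA2 _ bf fun ws => by
        rw [engs_tryB_flt hF B l pc H k σ' hK.1.1 hD hL8 hA1 hO, acs_flt _ (Finset.Subset.refl _)]]
      have a1 := ex_mono (p := wls F.toMd (al K M.Q) (s1 F n))
        (engs_bdd fun ws1 => engs_ex _ fun ws2 => engs_ex _ (hg (ws1 ++ ws2)))
        ((bW.add (Bdd.const _)).add bP) fun ws1 h1 => blk ws1 (iid_length h1)
      rw [ex_add _ (bW.add (Bdd.const _)) bP, ex_add _ bW (Bdd.const _), ex_const,
        ex_mul_left] at a1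
      have a2 : (ex (wls F.toMd (al K M.Q) (s1 F n)) fun ws1 =>
          pr (mu F.toMd K (pc + B.g / 2) (wQ H.Y H.L)) fun ω0 => E ω0 ws1) ≤ er n :=
        (le_of_eq (ex_comm _ _ (f := fun ws1 ω0 => ind (E ω0 ws1)) (Bdd.ind _))).trans hP
      have a3 := mul_le_mul_of_nonneg_left a2 hv0
      have a4 := ex_iid_add (wl F.toMd (al K M.Q)) (s1 F n) (sq F B l) bX
      have a5 := ex_iid_add (wl F.toMd (al K M.Q)) (s1 F n) (sq F B l) bf
      refine (le_of_eq a5).trans (a1.trans ?_)
      have a6 : (ex (wls F.toMd (al K M.Q) (s1 F n)) fun ws1 =>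
          ex (wls F.toMd (al K M.Q) (sq F B l)) fun ws2 => X (ws1 ++ ws2)) = _ :=
        a4.symm.trans hXe
      rw [a6]
      push_cast
      linarith
  have fin := key m 0 s σ (by omega) (by omega)
  exact sub_le_iff_le_add.2 fin

end Pool.Agent.Lib.MP_dd0771_pr.Sc
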