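import Pool.Agent.Lib.MP_dd0771_pr.Sc.Kit

open Filter

namespace Pool.Agent.Lib.MP_dd0771_pr.Sc

theorem s_engw {d : ℕ} {F : Fr} (hd : 2 ≤ d) (hF : F.Ok) (hL : Low d F)
    (hENG : S_ENG d F) :
    S_ENGW d F := by
  intro B hB
  filter_upwards [hENG B hB, hL.hTRACK, le_of_Lmin hF B] with n hE hT hLm K hK l pc M Φ te ub vb C
    Y O m s σ ty kp v l1 l2 hC hM hΦ hu0 hte hm hA hO hvb hv hc hR hV
  have hD : 8 * DD F n ≤ C.2 := by have := (hLm _ hC.2.2.2.1).2.2.2; omega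
  have hQ : wQ Y C.2 ⊆ M.Q := hA.2.1.trans hM.1
  have h0 : 0 ≤ vb := (hv (0, ∅)).1.trans (hv _).2
  refine le_trans ?_ (hE K hK l pc M Φ te ub vb (wMc K C Y O) m s σ ty kp v l1 l2
    (hC.1.trans hC.2.1) hC.2.2.1 hM hΦ hu0 hte hA.1.2.1 hA.2.1 hD hC.2.2.2.2 subset_rfl
    (al_mono K hQ) hO hvb hv hc)
  refine sub_le_sub_left (mul_le_mul_of_nonneg_left (add_le_add ?_ le_rfl) h0) _
  refine le_trans (pr_mono fun ws hws ⟨u, hu, hf, hn⟩ => ?_) (hT K M.Q (wQ Y C.2) M.Q (wZ Y C.2)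
    M.Z Y C.2 _ (hh F B K pc) σ (M.st F.toMd K s) hQ subset_rfl subset_rfl hQ subset_rfl hA.2.2
    hA.1.2.1 hD hC.2.2.2.2 hm hR hV)
  have hl := (wls_mem hF hws).1
  refine ⟨u, hu, Or.inl (by rwa [st_nx] at hn), fun u' hu' ⟨x, hx, hx'⟩ => ?_⟩
  refine hM.2.2.2 _ hf (tm s + u') (by omega) (by rw [tm_nx, List.length_take]; omega) ?_
  rw [cut_nx_add, st_nx, acs_fst, List.take_take, min_eq_left hu']
  exact ⟨x, hx.trans hA.2.1, hx'⟩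

end Pool.Agent.Lib.MP_dd0771_pr.Sc
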