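import Pool.Agent.Lib.MP_dd0771_pr.Sc.Kit

open Filter

namespace Pool.Agent.Lib.MP_dd0771_pr.Sc

/-- A slow chain up to time `T` that satisfies `p` at half of the checkpoints `tk k`, `k < m`. -/
def f0Ev {d : ℕ} (V T m : ℕ) (tk : ℕ → ℕ) (p : S d → Prop) [DecidablePred p] (I : Tj d) : Prop :=
  ∃ γ : ℕ → S d, (∀ u, u ≤ T → γ u ∈ I u) ∧
    (∀ u u', nrm (γ u' - γ u) ≤ V * (max u u' - min u u')) ∧
    m ≤ 2 * ((Finset.Ico 0 (0 + m)).filter fun k => p (γ (tk k))).card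

theorem f0_mono {d : ℕ} (V T m : ℕ) (tk : ℕ → ℕ) (p : S d → Prop) [DecidablePred p] :
    MonoEv (f0Ev V T m tk p) := by
  rintro I J h ⟨γ, h1, h2, h3⟩
  exact ⟨γ, fun u hu => h u (h1 u hu), h2, h3⟩

theorem f0_half {d : ℕ} {V T : ℕ} (m : ℕ) (tk : ℕ → ℕ) (z : S d) (i : Fin d) {I : Tj d}
    (hc : Chn V T I) (ha : (I T).Nonempty) :
    f0Ev V T m tk (fun x => z i ≤ x i) I ∨ f0Ev V T m tk (fun x => x i ≤ z i) I := by
  obtain ⟨x, hx⟩ := ha
  obtain ⟨γ, -, h1, h2⟩ := hc.chain le_rfl hx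
  have h := Finset.card_filter_add_card_filter_not (s := Finset.Ico 0 (0 + m))
    (fun k => z i ≤ γ (tk k) i)
  have h' : ((Finset.Ico 0 (0 + m)).filter fun k => ¬ z i ≤ γ (tk k) i).card ≤
      ((Finset.Ico 0 (0 + m)).filter fun k => γ (tk k) i ≤ z i).card := by
    refine Finset.card_le_card fun k hk => ?_
    rw [Finset.mem_filter] at hk ⊢
    exact ⟨hk.1, (not_le.1 hk.2).le⟩
  rw [Nat.card_Ico] at h
  by_cases hm : m ≤ 2 * ((Finset.Ico 0 (0 + m)).filter fun k => z i ≤ γ (tk k) i).card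
  · exact Or.inl ⟨γ, h1, h2, hm⟩
  · refine Or.inr ⟨γ, h1, h2, ?_⟩
    show m ≤ 2 * ((Finset.Ico 0 (0 + m)).filter fun k => γ (tk k) i ≤ z i).card
    omega

theorem f0_refl {d : ℕ} {V T m : ℕ} {tk : ℕ → ℕ} {z : S d} {i : Fin d} {I : Tj d}
    (h : f0Ev V T m tk (fun x => x i ≤ z i) I) :
    f0Ev V T m tk (fun x => z i ≤ x i) fun u =>
      (I u).image fun x => z + sp 1 (fun _ => false) (x - z) := by
  obtain ⟨γ, h1, h2, h3⟩ := h
  refine ⟨fun u => z + sp 1 (fun _ => false) (γ u - z),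
    fun u hu => Finset.mem_image_of_mem _ (h1 u hu), fun u u' => ?_, h3.trans ?_⟩
  · rw [add_sub_add_left_eq_sub, ← sp_sub, nrm_sp, sub_sub_sub_cancel_right]
    exact h2 u u'
  · refine Nat.mul_le_mul_left 2 (Finset.card_le_card fun k hk => ?_)
    rw [Finset.mem_filter] at hk ⊢
    refine ⟨hk.1, ?_⟩
    have := hk.2
    simp only [sp, Pi.add_apply, Pi.sub_apply, Equiv.Perm.coe_one, id, Bool.false_eq_true,
      if_false]
    omega

/-- In a world centred at `z`, a chain that stays on one side at half of the checkpoints. -/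
theorem f0_small {d : ℕ} {F : Fr} (hS : S_SYM d F) {K : ℕ} {φ e : ℝ} {V T L : ℕ} (m : ℕ)
    (tk : ℕ → ℕ) (z : S d) (i : Fin d)
    (hc : wP F.toMd K φ (bx z (2 * L)) (bx z L) {z} T (fun I => ¬ Chn V T I) ≤ e) :
    alv d F.toMd K (φ, L) T - e ≤
      2 * wP F.toMd K φ (bx z (2 * L)) (bx z L) {z} T (f0Ev V T m tk fun x => z i ≤ x i) := by
  have hL : L ≤ 2 * L := by omega
  have h1 : alv d F.toMd K (φ, L) T =
      wP F.toMd K φ (bx z (2 * L)) (bx z L) {z} T fun I => (I T).Nonempty := by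
    have := hS K φ 0 z 1 (fun _ => true) (2 * L) L T (fun I => ind (I T).Nonempty) hL
    simp only [Finset.image_nonempty] at this
    exact this.symm
  have h2 : wP F.toMd K φ (bx z (2 * L)) (bx z L) {z} T (f0Ev V T m tk fun x => x i ≤ z i) ≤
      wP F.toMd K φ (bx z (2 * L)) (bx z L) {z} T (f0Ev V T m tk fun x => z i ≤ x i) := by
    have := hS K φ z z 1 (fun _ => false) (2 * L) L T
      (fun I => ind (f0Ev V T m tk (fun x => z i ≤ x i) I)) hL
    refine le_trans (wP_mono fun I _ h => f0_refl h) (le_of_eq this.symm)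
  have h3 : wP F.toMd K φ (bx z (2 * L)) (bx z L) {z} T (fun I => (I T).Nonempty) ≤
      wP F.toMd K φ (bx z (2 * L)) (bx z L) {z} T (fun I => ¬ Chn V T I) +
      wP F.toMd K φ (bx z (2 * L)) (bx z L) {z} T (fun I => Chn V T I ∧ (I T).Nonempty) := by
    refine wP_le_add fun I _ h => ?_
    by_cases hc : Chn V T I
    · exact Or.inr ⟨hc, h⟩
    · exact Or.inl hc
  have h4 : wP F.toMd K φ (bx z (2 * L)) (bx z L) {z} T (fun I => Chn V T I ∧ (I T).Nonempty) ≤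
      wP F.toMd K φ (bx z (2 * L)) (bx z L) {z} T (f0Ev V T m tk fun x => z i ≤ x i) +
      wP F.toMd K φ (bx z (2 * L)) (bx z L) {z} T (f0Ev V T m tk fun x => x i ≤ z i) :=
    wP_le_add fun I _ h => f0_half m tk z i h.1 h.2
  linarith

theorem f0_ce {d : ℕ} {F : Fr} {B : Bs} {n L T : ℕ} {y : S d} {i : Fin d} {I : Tj d}
    (h0 : 1 ≤ B.n0) (hT : 1 + T = B.n0 + (mm F n + 1) * sb F B n (ls n))
    (hZ : ∀ u, I u ⊆ bx y L)
    (h : f0Ev (VV n) T (mm F n) (fun k => B.n0 - 1 + (k * sb F B n (ls n) + s1 F n))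
      (fun x => nb y (i, true) i ≤ x i) fun u => I (1 + u)) :
    (I B.n0).Nonempty ∧ CE F B n (bx y L) (rReg ((bx y L).filter fun z => y i + 1 ≤ z i))
      (mm F n + 1) (fun _ => True) fun u => I (B.n0 + u) := by
  obtain ⟨γ, h1, h2, h3⟩ := h
  have hs : s1 F n ≤ sb F B n (ls n) := Nat.le_add_right _ _
  have hmem : ∀ k, k < 0 + mm F n → γ (B.n0 - 1 + (k * sb F B n (ls n) + s1 F n)) ∈
      I (B.n0 + (k * sb F B n (ls n) + s1 F n)) ∩ bx y L := by
    intro k hk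
    have hk' : (k + 1) * sb F B n (ls n) ≤ (mm F n + 1) * sb F B n (ls n) :=
      Nat.mul_le_mul_right _ (by omega)
    rw [Nat.add_mul, Nat.one_mul] at hk'
    have := h1 (B.n0 - 1 + (k * sb F B n (ls n) + s1 F n)) (by omega)
    have e : 1 + (B.n0 - 1 + (k * sb F B n (ls n) + s1 F n)) =
        B.n0 + (k * sb F B n (ls n) + s1 F n) := by omega
    simp only [e] at this
    exact Finset.mem_inter.2 ⟨this, hZ _ this⟩
  have hstep : ∀ k, nrm (γ (B.n0 - 1 + ((k + 1) * sb F B n (ls n) + s1 F n)) -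
      γ (B.n0 - 1 + (k * sb F B n (ls n) + s1 F n))) ≤ VV n * sb F B n (ls n) := by
    intro k
    refine (h2 _ _).trans (Nat.mul_le_mul_left _ ?_)
    rw [Nat.add_mul, Nat.one_mul]
    omega
  refine ⟨⟨γ (B.n0 - 1), ?_⟩, 0, by omega, fun _ _ _ _ _ _ => trivial,
    fun k => γ (B.n0 - 1 + (k * sb F B n (ls n) + s1 F n)),
    fun k => γ (B.n0 - 1 + (k * sb F B n (ls n) + s1 F n)),
    fun k _ hk => ⟨hmem k hk, hmem k hk, hstep k, hstep k⟩, h3.trans ?_⟩
  · have := h1 (B.n0 - 1) (by omega)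
    have e : 1 + (B.n0 - 1) = B.n0 := by omega
    simpa only [e] using this
  · refine Nat.mul_le_mul_left 2 (Finset.card_le_card fun k hk => ?_)
    rw [Finset.mem_filter] at hk ⊢
    refine ⟨hk.1, fun Cd hCd hx _ => ?_⟩
    refine Finset.Nonempty.image ⟨_, Finset.mem_inter.2 ⟨hx, Finset.mem_filter.2
      ⟨(Finset.mem_inter.1 (hCd hx)).2, ?_⟩⟩⟩ _
    have := hk.2
    simpa [nb] using this

theorem s_f0 {d : ℕ} {F : Fr} (hd : 2 ≤ d) (hF : F.Ok) (hL : Low d F) (hE : Eng d F)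
    :
    S_F0 d F := by
  obtain ⟨c0, hc0, hc1, hU⟩ := hL.hUM
  refine ⟨c0 / 4, by positivity, by linarith, fun B hB => ?_⟩
  have hth : 0 < B.th := hB.2.2.2.1
  filter_upwards [hE.hAL B hB, hL.hDOM B hB, hL.hCHN, scales hF B, le_of_Lmin hF B,
    card_le (d := d) (by omega), er_small (e := B.th / 20) (by positivity),
    eventually_ge_atTop 1] with n hAL hDOM hCHN hsc hLm hcard her hn K hK
  intro C y i hC1 hC2 hC3 hC4
  obtain ⟨hlo, hg, hhi, -, -, heps0, heps, hn0⟩ := hB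
  obtain ⟨-, -, -, -, hsb, -⟩ := hsc
  obtain ⟨-, hX, hsq, hDD⟩ := hLm C.2 hC3
  have hp1 : B.pa + B.g ≤ C.1 := by simpa [Bs.p] using hC1
  have hp4 : B.pa ≤ B.p 4 := by
    have : (0 : ℝ) ≤ ((4 : ℕ) : ℝ) * B.g := by positivity
    simp only [Bs.p]; linarith
  have kp0 : KP F K B.pa := ⟨hK.1, hlo, by linarith⟩
  have kp1 : KP F K C.1 := ⟨hK.1, by linarith, hC2⟩
  obtain ⟨T, hT⟩ : ∃ T, 1 + T = B.n0 + (mm F n + 1) * sb F B n (ls n) :=
    ⟨B.n0 + (mm F n + 1) * sb F B n (ls n) - 1, by omega⟩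
  have hnsb : B.n0 ≤ sb F B n (ls n) := by simp only [sb, sq]; omega
  have hRR : RR F B n = (mm F n + 1) * sb F B n (ls n) + sb F B n (ls n) := by
    simp only [RR]; ring
  have hV : 1 ≤ VV n := Nat.one_le_pow _ _ hn
  have hRX : RR F B n ≤ VV n * RR F B n := Nat.le_mul_of_pos_left _ hV
  have hTs : 64 * (1 + T) ≤ Nat.sqrt C.2 := by omega
  have hT2 : 4 * T ^ 2 ≤ C.2 / 2 := by
    have h1 : (64 * T) * (64 * T) ≤ C.2 :=
      (Nat.mul_le_mul (by omega) (by omega)).trans (Nat.sqrt_le C.2)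
    have h2 : (64 * T) * (64 * T) = 4096 * T ^ 2 := by ring
    omega
  have hpow : 2 ^ n ≤ 2 ^ (n + 1) := Nat.pow_le_pow_right (by norm_num) (by omega)
  have hpow4 : 2 ^ n ≤ 2 ^ (4 * n) := Nat.pow_le_pow_right (by norm_num) (by omega)
  have hpow5 : 2 ^ (4 * n + 3) = 8 * 2 ^ (4 * n) := by ring
  set z := nb y (i, true) with hz
  have hzy : nrm (z - y) = 1 := nrm_nb y _
  have hal := (hAL K hK (B.pa, C.2 / 2) le_rfl hp4 (by simp only; omega)
    (by simp only; omega)).2 T hT2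
  have hsm := f0_small hL.hSYM (mm F n) (fun k => B.n0 - 1 + (k * sb F B n (ls n) + s1 F n)) z i
    (hCHN K B.pa (bx z (2 * (C.2 / 2))) (bx z (C.2 / 2)) {z} T kp0 (by simp) (by omega))
  have hdom := hDOM K hK B.pa C.1 (bx z (2 * (C.2 / 2))) (bx y (2 * C.2)) (bx z (C.2 / 2))
    (bx y C.2) {z} {z} (C.2 / 2) T _ le_rfl hp4 hp1 hC2 (by rw [wQ_single])
    (by rw [wQ_single]; exact bx_subset (by omega)) (by rw [wZ_single])
    (bx_subset (by omega)) (by simp)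
    (by
      rw [card_bx]
      have : (2 * (2 * (C.2 / 2)) + 1) ^ d ≤ (2 ^ (4 * n + 3) + 1) ^ d :=
        Nat.pow_le_pow_left (by omega) d
      omega)
    (by omega) (by omega) (by omega)
    (f0_mono (VV n) T (mm F n) (fun k => B.n0 - 1 + (k * sb F B n (ls n) + s1 F n))
      fun x => z i ≤ x i)
  have hZQ : bx y C.2 ⊆ bx y (2 * C.2) := bx_mono y (by omega)
  have hfk := hL.hFKC K C.1 (bx y (2 * C.2)) (bx y C.2) {y} {z} 1 T _ kp1 hZQ
    (f0_mono (VV n) T (mm F n) (fun k => B.n0 - 1 + (k * sb F B n (ls n) + s1 F n))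
      fun x => z i ≤ x i)
  have hum := hU K C.1 (bx y (2 * C.2)) (bx y C.2) y y (i, true) kp1 hZQ (self_mem_bx _ _)
    (self_mem_bx _ _) (mem_bx.2 (by rw [nrm_nb]; omega))
  rw [Finset.pair_eq_singleton] at hum
  have hum' : c0 ≤ wP F.toMd K C.1 (bx y (2 * C.2)) (bx y C.2) {y} 1 fun I => {z} ⊆ I 1 :=
    hum.trans (wP_mono fun I _ h => Finset.singleton_subset_iff.2 (h (by simp [hz])))
  have hfin := wP_mono (G := F.toMd) (K := K) (T := 1 + T) (φ := C.1) (Q := bx y (2 * C.2))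
    (Z := bx y C.2) (Y0 := {y}) fun I hI h => f0_ce (i := i) hn0 hT hI.2.1 h
  have hthm : B.th * (99 / 100) ≤ B.thm :=
    mul_le_mul_of_nonneg_left (by linarith) hth.le
  have hlow : B.th / 4 ≤ wP F.toMd K C.1 (bx y (2 * C.2)) (bx y C.2) {z} T
      (f0Ev (VV n) T (mm F n) (fun k => B.n0 - 1 + (k * sb F B n (ls n) + s1 F n))
        fun x => z i ≤ x i) := by
    linarith [her.1]
  have hmul := mul_le_mul hum' hlow (by positivity) (hc0.le.trans hum')
  rw [cP, ← hT]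
  calc c0 / 4 * B.th = c0 * (B.th / 4) := by ring
    _ ≤ _ := hmul.trans (hfk.trans hfin)

end Pool.Agent.Lib.MP_dd0771_pr.Sc
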