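import Pool.Agent.Lib.MP_dd0771_pr.Sc.F1A

open Filter

namespace Pool.Agent.Lib.MP_dd0771_pr.Sc

section walk

variable {d : ℕ} {Gd : S d → ℕ → ℝ → Prop} {y x : S d} {R : ℕ}

/-- Moves of length `h` along any coordinate, in any direction, from any point of `bx y R`. -/
def f1Mv (Gd : S d → ℕ → ℝ → Prop) (y : S d) (R h τ : ℕ) (κ : ℝ) : Prop :=
  ∀ a i (s : Bool) T q, nrm (a - y) ≤ R → Gd a T q →
    Gd (Function.update a i (a i + (if s then 1 else -1) * (h : ℤ))) (T + τ) (q * κ)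

def f1Mo (Gd : S d → ℕ → ℝ → Prop) : Prop :=
  ∀ a T T' q κ, T ≤ T' → 0 ≤ κ → κ ≤ 1 → Gd a T q → Gd a T' (q * κ)

theorem f1_coord (hM : f1Mo Gd) {h τ D : ℕ} {κ : ℝ} (h0 : 0 ≤ κ) (h1 : κ ≤ 1)
    (hv : f1Mv Gd y R h τ κ) (hx : nrm (x - y) ≤ R) (hh : h ≤ D + 1) (i : Fin d) (k : ℕ) :
    ∀ a T q, nrm (a - y) ≤ R → Gd a T q → |x i - a i| ≤ D + k * h →
      ∃ a', nrm (a' - y) ≤ R ∧ Gd a' (T + k * τ) (q * κ ^ k) ∧ |x i - a' i| ≤ D ∧
        ∀ i', i' ≠ i → a' i' = a i' := by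
  induction k with
  | zero =>
    intro a T q ha hG hD
    exact ⟨a, ha, by simpa using hG, by simpa using hD, fun _ _ => rfl⟩
  | succ k ih =>
    intro a T q ha hG hD
    by_cases hc : |x i - a i| ≤ D
    · exact ⟨a, ha, hM a T _ q _ (by omega) (by positivity) (pow_le_one₀ h0 h1) hG, hc,
        fun _ _ => rfl⟩
    have hxi := nrm_le_iff.1 hx i
    have hai := nrm_le_iff.1 ha i
    have hh' : (h : ℤ) ≤ D + 1 := by exact_mod_cast hh
    have hp : (0 : ℤ) ≤ h := Int.natCast_nonneg h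
    simp only [Pi.sub_apply] at hxi hai
    push_cast at hD
    obtain ⟨a', b1, b2, b3, b4⟩ := ih _ (T + τ) (q * κ) (by
      refine nrm_le_iff.2 fun i' => ?_
      by_cases hi : i' = i
      · subst hi
        simp only [Pi.sub_apply, Function.update_self]
        rw [abs_le] at hxi hai ⊢
        rcases le_or_gt (a i') (x i') with hs | hs
        · rw [abs_of_nonneg (by omega)] at hc
          simp only [hs, decide_true, if_true]; omega
        · rw [abs_of_neg (by omega)] at hc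
          simp only [not_le.2 hs, decide_false, Bool.false_eq_true, if_false]; omega
      · simp only [Pi.sub_apply, Function.update_of_ne hi]
        exact nrm_le_iff.1 ha i') (hv a i (decide (a i ≤ x i)) T q ha hG) (by
      simp only [Function.update_self]
      rcases le_or_gt (a i) (x i) with hs | hs
      · rw [abs_of_nonneg (by omega)] at hc hD
        simp only [hs, decide_true, if_true]
        rw [abs_of_nonneg (by omega)]; linarith
      · rw [abs_of_neg (by omega)] at hc hD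
        simp only [not_le.2 hs, decide_false, Bool.false_eq_true, if_false]
        rw [abs_of_nonpos (by omega)]; linarith)
    refine ⟨a', b1, ?_, b3, fun i' hi => by rw [b4 i' hi, Function.update_of_ne hi]⟩
    rw [show T + (k + 1) * τ = T + τ + k * τ by ring, show q * κ ^ (k + 1) = q * κ * κ ^ k by ring]
    exact b2

theorem f1_all (hM : f1Mo Gd) {h τ D : ℕ} {κ : ℝ} (h0 : 0 ≤ κ) (h1 : κ ≤ 1)
    (hv : f1Mv Gd y R h τ κ) (hx : nrm (x - y) ≤ R) (hh : h ≤ D + 1) (k : ℕ) {a : S d} {T : ℕ}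
    {q : ℝ} (ha : nrm (a - y) ≤ R) (hG : Gd a T q) (hD : ∀ i, |x i - a i| ≤ D + k * h) :
    ∃ a', nrm (a' - y) ≤ R ∧ Gd a' (T + d * k * τ) (q * κ ^ (d * k)) ∧ ∀ i, |x i - a' i| ≤ D := by
  have key : ∀ s : Finset (Fin d), ∃ a', nrm (a' - y) ≤ R ∧
      Gd a' (T + s.card * k * τ) (q * κ ^ (s.card * k)) ∧ (∀ i ∈ s, |x i - a' i| ≤ D) ∧
      ∀ i, i ∉ s → a' i = a i := by
    intro s
    induction s using Finset.induction_on with
    | empty => exact ⟨a, ha, by simpa using hG, by simp, fun _ _ => rfl⟩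
    | insert i s hi ih =>
      obtain ⟨a1, b1, b2, b3, b4⟩ := ih
      obtain ⟨a2, c1, c2, c3, c4⟩ := f1_coord hM h0 h1 hv hx hh i k a1 _ _ b1 b2
        (by rw [b4 i hi]; exact hD i)
      refine ⟨a2, c1, ?_, fun i' hi' => ?_, fun i' hi' => ?_⟩
      · rw [Finset.card_insert_of_notMem hi,
          show T + (s.card + 1) * k * τ = T + s.card * k * τ + k * τ by ring,
          show q * κ ^ ((s.card + 1) * k) = q * κ ^ (s.card * k) * κ ^ k by ring]
        exact c2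
      · rcases Finset.mem_insert.1 hi' with rfl | hs
        · exact c3
        · rw [c4 i' (ne_of_mem_of_not_mem hs hi)]; exact b3 i' hs
      · rw [Finset.mem_insert, not_or] at hi'
        rw [c4 i' hi'.1, b4 i' hi'.2]
  obtain ⟨a', b1, b2, b3, -⟩ := key Finset.univ
  rw [Finset.card_univ, Fintype.card_fin] at b2
  exact ⟨a', b1, b2, fun i => b3 i (Finset.mem_univ i)⟩

theorem f1_levels (hM : f1Mo Gd) {τ j0 : ℕ} {κ : ℝ} (h0 : 0 ≤ κ) (h1 : κ ≤ 1)
    (hx : nrm (x - y) ≤ R) (k : ℕ)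
    (hv : ∀ j, j0 ≤ j → j < j0 + k → ∃ h, 2 ^ j ≤ h ∧ h ≤ 2 * 2 ^ j ∧ f1Mv Gd y R h τ κ) :
    ∀ a T q, nrm (a - y) ≤ R → Gd a T q → (∀ i, |x i - a i| ≤ (2 * 2 ^ (j0 + k) : ℕ)) →
      ∃ a', nrm (a' - y) ≤ R ∧ Gd a' (T + k * (d * 2) * τ) (q * κ ^ (k * (d * 2))) ∧
        ∀ i, |x i - a' i| ≤ (2 * 2 ^ j0 : ℕ) := by
  induction k with
  | zero => intro a T q ha hG hD; exact ⟨a, ha, by simpa using hG, hD⟩
  | succ k ih =>
    intro a T q ha hG hD
    obtain ⟨h, b1, b2, b3⟩ := hv (j0 + k) (by omega) (by omega)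
    obtain ⟨a1, c1, c2, c3⟩ := f1_all hM h0 h1 b3 hx (D := 2 * 2 ^ (j0 + k)) (by omega) 2 ha hG
      (fun i => (hD i).trans (by
        have : 2 * 2 ^ (j0 + (k + 1)) ≤ 2 * 2 ^ (j0 + k) + 2 * h := by
          rw [← add_assoc, pow_succ]; omega
        exact_mod_cast this))
    obtain ⟨a2, e1, e2, e3⟩ := ih (fun j h1 h2 => hv j h1 (by omega)) a1 _ _ c1 c2 c3
    refine ⟨a2, e1, ?_, e3⟩
    rw [show T + (k + 1) * (d * 2) * τ = T + d * 2 * τ + k * (d * 2) * τ by ring,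
      show q * κ ^ ((k + 1) * (d * 2)) = q * κ ^ (d * 2) * κ ^ (k * (d * 2)) by ring]
    exact e2

end walk

theorem f1_dbl {d : ℕ} {F : Fr} (hd : 1 ≤ d) (hL : Low d F) {B : Bs} {K C CT j m R : ℕ} {y : S d}
    (hK : KP F K (B.p 3)) (hP : f1Pc d F B K C CT j) (hj : j ≤ m) (hR : R + 2 * 2 ^ j ≤ 2 ^ m) :
    ∃ h, 2 ^ j ≤ h ∧ h ≤ 2 * 2 ^ j ∧
      f1Mv (fun a => f1G F K (B.p 3) (bx y (2 * 2 ^ m)) (bx y (2 ^ m)) y B.n0 {a}) y R h
        (2 * (B.n0 + (2 ^ m) ^ CT)) (((1 / 2 : ℝ) ^ (C * m)) ^ 2) := by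
  obtain ⟨t, v, ht, hv1, hv2, hp, -⟩ := hP
  refine ⟨2 * nrm v, by omega, by omega, fun a i s T q ha hG => ?_⟩
  obtain ⟨e, sg, sg', h1, h2, h3⟩ := f1_orient hd v i s
  have hZ : bx y (2 ^ m) ⊆ bx y (2 * 2 ^ m) := bx_mono y (by omega)
  have hτ : t ≤ B.n0 + (2 ^ m) ^ CT :=
    ht.trans (Nat.add_le_add_left (Nat.pow_le_pow_left (Nat.pow_le_pow_right (by norm_num) hj) _) _)
  have hκ : (1 / 2 : ℝ) ^ (C * m) ≤ (1 / 2 : ℝ) ^ (C * j) :=
    pow_le_pow_of_le_one (by norm_num) (by norm_num) (Nat.mul_le_mul_left C hj)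
  have ha' : nrm (a + sp e sg v - y) ≤ R + 2 ^ j := by
    have := nrm_add_le (a - y) (sp e sg v)
    rw [nrm_sp, show a - y + sp e sg v = a + sp e sg v - y by ring] at this
    omega
  have g1 := hG.step hL hK hZ (by positivity) hτ
    (hκ.trans (hp _ _ a e sg (bx_subset (by omega)) (bx_subset (by omega))))
  have g2 := g1.step hL hK hZ (by positivity) hτ
    (hκ.trans (hp _ _ (a + sp e sg v) e sg' (bx_subset (by omega)) (bx_subset (by omega))))
  have he : a + sp e sg v + sp e sg' v =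
      Function.update a i (a i + (if s then 1 else -1) * ((2 * nrm v : ℕ) : ℤ)) := by
    funext k
    by_cases hk : k = i
    · subst hk
      simp only [Pi.add_apply, Function.update_self, h2, h1]
      push_cast; ring
    · simp only [Pi.add_apply, Function.update_of_ne hk]
      have := h3 k hk
      omega
  rw [he] at g2
  exact g2.mono (by omega) (mul_nonneg hG.1 (by positivity)) (le_of_eq (by ring))

theorem s_f1 {d : ℕ} {F : Fr} (hd : 2 ≤ d) (hF : F.Ok) (hL : Low d F) (hE : Eng d F)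
    :
    S_F1 d F := by
  intro c CT e0 N hc hCT hN hW
  obtain ⟨C, N1, hP⟩ := f1_pc hd hF hL hc hN hW
  obtain ⟨c0, hc0, hc1, hU⟩ := hL.hUM
  refine ⟨4 * d * C + 1 + (CT + 1), N1, fun B hB he => ?_⟩
  obtain ⟨j0, hj0⟩ := eventually_atTop.1 (hP B hB he)
  have hp0 : 0 < c0 ^ B.n0 * c0 ^ (d * (2 * 2 ^ j0)) := by positivity
  filter_upwards [f1_half hp0, f1_time (4 * d) CT B.n0 hCT, eventually_ge_atTop (j0 + 3)]
    with m h1 h2 h3 K hK y x hx
  obtain ⟨k, rfl⟩ : ∃ k, m = j0 + k + 3 := ⟨m - j0 - 3, by omega⟩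
  set m := j0 + k + 3 with hm
  have hg := hB.2.1
  have hKP : KP F K (B.p 3) := hK.kp hF hB (by unfold Bs.p; push_cast; linarith)
    (by unfold Bs.p; push_cast; linarith)
  have h2m : 2 ^ m = 8 * 2 ^ (j0 + k) := by rw [hm, pow_add]; ring
  have h1k : 1 ≤ 2 ^ (j0 + k) := Nat.one_le_two_pow
  have hZ : bx y (2 ^ m) ⊆ bx y (2 * 2 ^ m) := bx_mono y (by omega)
  have hU' : f1U F K (B.p 3) (bx y (2 * 2 ^ m)) (bx y (2 ^ m)) c0 :=
    fun a a' e b1 b2 b3 => hU K _ _ _ a a' e hKP hZ b1 b2 b3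
  have hM : f1Mo fun a => f1G F K (B.p 3) (bx y (2 * 2 ^ m)) (bx y (2 ^ m)) y B.n0 {a} :=
    fun a T T' q κ b1 b2 b3 hG => hG.mono b1 (mul_nonneg hG.1 b2) (mul_le_of_le_one_right hG.1 b3)
  have hnb : ∀ a e, nrm (a - y) ≤ 2 * 2 ^ (j0 + k) → nb a e ∈ bx y (2 ^ m) := fun a e ha =>
    bx_mono y (by omega) (nb_mem_bx (mem_bx.2 ha) e)
  have hy0 : nrm (y - y) ≤ 2 * 2 ^ (j0 + k) := by rw [sub_self, nrm_zero]; omega
  have g0 := f1G.start hL hKP hZ hc0.le hU' (⟨0, by omega⟩, true) (self_mem_bx y _) (hnb y _ hy0)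
    hB.2.2.2.2.2.2.2
  have hx' : nrm (x - y) ≤ 2 * 2 ^ (j0 + k) := by omega
  obtain ⟨a1, b1, b2, b3⟩ := f1_levels hM (κ := ((1 / 2 : ℝ) ^ (C * m)) ^ 2) (by positivity)
    (pow_le_one₀ (by positivity) (pow_le_one₀ (by norm_num) (by norm_num))) hx' k
    (fun j a1 a2 => f1_dbl (by omega) hL hKP
      (hj0 j a1 K (hK.mono (Nat.mul_le_mul_left N1 (by omega)))) (by omega) (by
        have : 2 ^ j ≤ 2 ^ (j0 + k) := Nat.pow_le_pow_right (by norm_num) (by omega)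
        omega)) y _ _ hy0 g0 (fun i => nrm_le_iff.1 hx' i)
  have hu : f1Mv (fun a => f1G F K (B.p 3) (bx y (2 * 2 ^ m)) (bx y (2 ^ m)) y B.n0 {a}) y
      (2 * 2 ^ (j0 + k)) 1 1 c0 := by
    intro a i s T q ha hG
    have ha' : a ∈ bx y (2 ^ m) := mem_bx.2 (by omega)
    rw [← Finset.pair_eq_singleton] at hG
    have := hG.unit hL hKP hZ hc0.le hU' ha' ha' (hnb a (i, s) ha) (Bs' := {nb a (i, s)}) (by simp)
    simpa [nb] using this
  obtain ⟨a2, -, e2, e3⟩ := f1_all hM hc0.le hc1 hu hx' (D := 0) (by omega) (2 * 2 ^ j0) b1 b2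
    (fun i => by simpa using b3 i)
  obtain rfl : x = a2 := by
    funext i
    have := e3 i
    simp only [Nat.cast_zero, abs_nonpos_iff] at this
    omega
  have hT : B.n0 + k * (d * 2) * (2 * (B.n0 + (2 ^ m) ^ CT)) + d * (2 * 2 ^ j0) * 1 ≤
      B.n0 + 2 ^ ((4 * d * C + 1 + (CT + 1)) * m) := by
    have a1 := h2 (4 * d * C + 1 + (CT + 1)) (by omega)
    have a2 : 2 ^ j0 ≤ 2 ^ m := Nat.pow_le_pow_right (by norm_num) (by omega)
    have a3 : k * (d * 2) * (2 * (B.n0 + (2 ^ m) ^ CT)) ≤ 4 * d * m * (B.n0 + (2 ^ m) ^ CT) := by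
      rw [show k * (d * 2) * (2 * (B.n0 + (2 ^ m) ^ CT)) = 4 * d * k * (B.n0 + (2 ^ m) ^ CT) by ring]
      exact Nat.mul_le_mul_right _ (Nat.mul_le_mul_left _ (by omega))
    have a4 : d * (2 * 2 ^ j0) * 1 ≤ 4 * d * 2 ^ m := by nlinarith
    omega
  have hq := f1_prob (a := 4 * d) (C := C) (k := 2 * (k * (d * 2))) (C1 := 4 * d * C + 1 + (CT + 1))
    h1 (by
      rw [show 2 * (k * (d * 2)) = 4 * d * k by ring]
      exact Nat.mul_le_mul_left _ (by omega)) (by omega)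
  refine ((e2.mono hT (by positivity) (hq.trans (le_of_eq (by rw [pow_mul]; ring)))).fin
    fun I t hI a1 a2 a3 => ?_)
  have a4 := Finset.singleton_subset_iff.1 a3
  exact ⟨f1_alive hI a1 ⟨x, a4⟩, t, a1, a2, a4⟩

end Pool.Agent.Lib.MP_dd0771_pr.Sc
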