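import Pool.Agent.Lib.MP_dd0771_pr.Sc.F1A

open Filter

namespace Pool.Agent.Lib.MP_dd0771_pr.Sc

section walk

variable {d : ℕ} {Gd : S d → S d → ℕ → ℝ → Prop} {y : S d} {i : Fin d}

/-- One move of level `j` of a pair of sites, away from each other. -/
def f2Mv (Gd : S d → S d → ℕ → ℝ → Prop) (y : S d) (i : Fin d) (j τ : ℕ) (κ : ℝ) : Prop :=
  ∀ a1 a2 T q, 8 * 2 ^ j ≤ a2 i - a1 i → nrm (a1 - y) ≤ 14 * 2 ^ j → nrm (a2 - y) ≤ 14 * 2 ^ j →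
    Gd a1 a2 T q → ∃ b1 b2, Gd b1 b2 (T + τ) (q * κ) ∧
      8 * (a2 i - a1 i) + 11 * 2 ^ j ≤ 8 * (b2 i - b1 i) ∧ nrm (b1 - a1) ≤ 2 ^ j ∧
      nrm (b2 - a2) ≤ 2 ^ j

theorem f2_six {j τ : ℕ} {κ : ℝ} (hv : f2Mv Gd y i j τ κ) {a1 a2 : S d} {T : ℕ} {q : ℝ}
    (h1 : 8 * 2 ^ j ≤ a2 i - a1 i) (h2 : nrm (a1 - y) ≤ 8 * 2 ^ j) (h3 : nrm (a2 - y) ≤ 8 * 2 ^ j)
    (hG : Gd a1 a2 T q) (k : ℕ) (hk : k ≤ 6) : ∃ b1 b2, Gd b1 b2 (T + k * τ) (q * κ ^ k) ∧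
      64 * 2 ^ j + 11 * (k * 2 ^ j) ≤ 8 * (b2 i - b1 i) ∧ nrm (b1 - y) ≤ 8 * 2 ^ j + k * 2 ^ j ∧
      nrm (b2 - y) ≤ 8 * 2 ^ j + k * 2 ^ j := by
  induction k with
  | zero => exact ⟨a1, a2, by simpa using hG, by simp; omega, by omega, by omega⟩
  | succ k ih =>
    obtain ⟨b1, b2, c1, c2, c3, c4⟩ := ih (by omega)
    have hk6 : k * 2 ^ j ≤ 6 * 2 ^ j := Nat.mul_le_mul_right _ (by omega)
    have hp : (0 : ℤ) ≤ k * 2 ^ j := by positivity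
    obtain ⟨e1, e2, g1, g2, g3, g4⟩ := hv b1 b2 _ _ (by omega) (by omega) (by omega) c1
    have t1 := nrm_tri e1 b1 y
    have t2 := nrm_tri e2 b2 y
    refine ⟨e1, e2, ?_, by push_cast; linarith, by rw [add_mul]; omega, by rw [add_mul]; omega⟩
    rw [show T + (k + 1) * τ = T + k * τ + τ by ring, show q * κ ^ (k + 1) = q * κ ^ k * κ by ring]
    exact g1

theorem f2_levels {j0 τ : ℕ} {κ : ℝ} {a1 a2 : S d} {T : ℕ} {q : ℝ}
    (h1 : 8 * 2 ^ j0 ≤ a2 i - a1 i) (h2 : nrm (a1 - y) ≤ 8 * 2 ^ j0)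
    (h3 : nrm (a2 - y) ≤ 8 * 2 ^ j0) (hG : Gd a1 a2 T q) (k : ℕ)
    (hv : ∀ j, j0 ≤ j → j < j0 + k → f2Mv Gd y i j τ κ) :
    ∃ b1 b2, Gd b1 b2 (T + k * 6 * τ) (q * κ ^ (k * 6)) ∧ 8 * 2 ^ (j0 + k) ≤ b2 i - b1 i ∧
      nrm (b1 - y) ≤ 8 * 2 ^ (j0 + k) ∧ nrm (b2 - y) ≤ 8 * 2 ^ (j0 + k) := by
  induction k with
  | zero => exact ⟨a1, a2, by simpa using hG, h1, h2, h3⟩
  | succ k ih =>
    obtain ⟨b1, b2, c1, c2, c3, c4⟩ := ih fun j a b => hv j a (by omega)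
    obtain ⟨e1, e2, g1, g2, g3, g4⟩ := f2_six (hv (j0 + k) (by omega) (by omega)) c2 c3 c4 c1 6 le_rfl
    have hp : (0 : ℤ) ≤ 2 ^ (j0 + k) := by positivity
    refine ⟨e1, e2, ?_, by rw [← add_assoc, pow_succ]; push_cast at g2; linarith,
      by rw [← add_assoc, pow_succ]; omega, by rw [← add_assoc, pow_succ]; omega⟩
    rw [show T + (k + 1) * 6 * τ = T + k * 6 * τ + 6 * τ by ring,
      show q * κ ^ ((k + 1) * 6) = q * κ ^ (k * 6) * κ ^ 6 by ring]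
    exact g1

end walk

theorem f2_mv {d : ℕ} {F : Fr} (hd : 1 ≤ d) (hL : Low d F) {B : Bs} {K C CT j m : ℕ} {y : S d}
    (i : Fin d) (hK : KP F K (B.p 3)) (hP : f1Pc d F B K C CT j) (hj : j + 4 ≤ m) :
    f2Mv (fun a1 a2 => f1G F K (B.p 3) (bx y (2 * 2 ^ m)) (bx y (2 ^ m)) y B.n0 {a1, a2}) y i j
      (B.n0 + (2 ^ m) ^ CT) ((1 / 2 : ℝ) ^ (C * m)) := by
  obtain ⟨t, v, ht, hv1, hv2, -, hp⟩ := hP
  intro a1 a2 T q h1 h2 h3 hG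
  obtain ⟨e1, sg1, -, o1, -⟩ := f1_orient hd v i false
  obtain ⟨e2, sg2, -, o2, -⟩ := f1_orient hd v i true
  have hZ : bx y (2 ^ m) ⊆ bx y (2 * 2 ^ m) := bx_mono y (by omega)
  have hτ : t ≤ B.n0 + (2 ^ m) ^ CT := ht.trans (Nat.add_le_add_left
    (Nat.pow_le_pow_left (Nat.pow_le_pow_right (by norm_num) (by omega)) _) _)
  have hκ : (1 / 2 : ℝ) ^ (C * m) ≤ (1 / 2 : ℝ) ^ (C * j) :=
    pow_le_pow_of_le_one (by norm_num) (by norm_num) (Nat.mul_le_mul_left C (by omega))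
  have hm : 2 ^ (j + 4) ≤ 2 ^ m := Nat.pow_le_pow_right (by norm_num) hj
  rw [pow_add] at hm
  have h1j : 1 ≤ 2 ^ j := Nat.one_le_two_pow
  have hs : 4 * 2 ^ j + 2 ≤ nrm (a1 - a2) := by
    have b1 := abs_le_nrm (a1 - a2) i
    have b2 := neg_le_abs ((a1 - a2) i)
    rw [Pi.sub_apply] at b1 b2
    zify at h1j ⊢
    linarith
  refine ⟨a1 + sp e1 sg1 v, a2 + sp e2 sg2 v, hG.step hL hK hZ (by positivity) hτ
    (hκ.trans (hp _ _ a1 a2 e1 sg1 e2 sg2 hs (bx_subset (by omega)) (bx_subset (by omega))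
      (bx_subset (by omega)) (bx_subset (by omega)))), ?_, ?_, ?_⟩
  · simp only [Pi.add_apply, o1, o2]
    zify at hv2
    simp only [if_true, Bool.false_eq_true, if_false]
    linarith
  · rwa [add_sub_cancel_left, nrm_sp]
  · rwa [add_sub_cancel_left, nrm_sp]

theorem s_f2 {d : ℕ} {F : Fr} (hd : 2 ≤ d) (hF : F.Ok) (hL : Low d F) (hE : Eng d F)
    :
    S_F2 d F := by
  intro c CT e0 N hc hCT hN hW
  obtain ⟨C, N1, hP⟩ := f1_pc hd hF hL hc hN hW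
  obtain ⟨c0, hc0, hc1, hU⟩ := hL.hUM
  refine ⟨8 * C + 1 + (CT + 1), N1, fun B hB he => ?_⟩
  obtain ⟨j0, hj0⟩ := eventually_atTop.1 (hP B hB he)
  have hp0 : 0 < c0 ^ B.n0 * c0 ^ (8 * 2 ^ j0) := by positivity
  filter_upwards [f1_half hp0, f1_time 8 CT B.n0 hCT, eventually_ge_atTop (j0 + 7)]
    with m h1 h2 h3 K hK y
  obtain ⟨k, rfl⟩ : ∃ k, m = j0 + k + 7 := ⟨m - j0 - 7, by omega⟩
  set m := j0 + k + 7 with hm
  have hg := hB.2.1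
  have hKP : KP F K (B.p 3) := hK.kp hF hB (by unfold Bs.p; push_cast; linarith)
    (by unfold Bs.p; push_cast; linarith)
  have h2m : 2 ^ m = 128 * 2 ^ (j0 + k) := by rw [hm, pow_add]; ring
  have h1k : 2 ^ j0 ≤ 2 ^ (j0 + k) := Nat.pow_le_pow_right (by norm_num) (by omega)
  have h1j : 1 ≤ 2 ^ j0 := Nat.one_le_two_pow
  have hZ : bx y (2 ^ m) ⊆ bx y (2 * 2 ^ m) := bx_mono y (by omega)
  have hU' : f1U F K (B.p 3) (bx y (2 * 2 ^ m)) (bx y (2 ^ m)) c0 :=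
    fun a a' e b1 b2 b3 => hU K _ _ _ a a' e hKP hZ b1 b2 b3
  have hnb : ∀ a e, nrm (a - y) ≤ 8 * 2 ^ j0 → nb a e ∈ bx y (2 ^ m) := fun a e ha =>
    bx_mono y (by omega) (nb_mem_bx (mem_bx.2 ha) e)
  have hy0 : nrm (y - y) = 0 := by rw [sub_self, nrm_zero]
  obtain ⟨i⟩ : Nonempty (Fin d) := ⟨⟨0, by omega⟩⟩
  have g0 := f1G.start hL hKP hZ hc0.le hU' (i, true) (self_mem_bx y _) (hnb y _ (by omega))
    hB.2.2.2.2.2.2.2
  have g1 : ∀ r, r ≤ 8 * 2 ^ j0 → ∃ a, nrm (a - y) ≤ r ∧ a i - y i = r ∧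
      f1G F K (B.p 3) (bx y (2 * 2 ^ m)) (bx y (2 ^ m)) y B.n0 {y, a} (B.n0 + r)
        (c0 ^ B.n0 * c0 ^ r) := by
    intro r hr
    induction r with
    | zero => exact ⟨y, hy0.le, by simp, by simpa using g0⟩
    | succ r ih =>
      obtain ⟨a, b1, b2, b3⟩ := ih (by omega)
      rw [Finset.pair_comm] at b3
      have b4 := b3.unit hL hKP hZ hc0.le hU' (mem_bx.2 (by omega)) (self_mem_bx y _)
        (hnb a (i, true) (by omega)) (Bs' := {y, nb a (i, true)}) (by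
          intro z hz
          simp only [Finset.mem_insert, Finset.mem_singleton] at hz ⊢
          tauto)
      refine ⟨nb a (i, true), mem_bx.1 (nb_mem_bx (mem_bx.2 b1) _), ?_, ?_⟩
      · simp only [nb, Function.update_self, if_true]
        push_cast; linarith
      · rw [show c0 ^ B.n0 * c0 ^ (r + 1) = c0 ^ B.n0 * c0 ^ r * c0 by ring,
          show B.n0 + (r + 1) = B.n0 + r + 1 by ring]
        exact b4
  obtain ⟨a, b1, b2, b3⟩ := g1 _ le_rfl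
  obtain ⟨e1, e2, c1, c2, -, -⟩ := f2_levels
    (Gd := fun a1 a2 => f1G F K (B.p 3) (bx y (2 * 2 ^ m)) (bx y (2 ^ m)) y B.n0 {a1, a2})
    (y := y) (i := i) (j0 := j0) (by rw [b2]; push_cast; exact le_rfl) (by omega) b1 b3 k
    (fun j a1 a2 => f2_mv (by omega) hL i hKP
      (hj0 j a1 K (hK.mono (Nat.mul_le_mul_left N1 (by omega)))) (by omega))
  have hT : B.n0 + 8 * 2 ^ j0 + k * 6 * (B.n0 + (2 ^ m) ^ CT) ≤
      B.n0 + 2 ^ ((8 * C + 1 + (CT + 1)) * m) := by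
    have a1 := h2 (8 * C + 1 + (CT + 1)) (by omega)
    have a3 : k * 6 * (B.n0 + (2 ^ m) ^ CT) ≤ 8 * m * (B.n0 + (2 ^ m) ^ CT) :=
      Nat.mul_le_mul_right _ (by omega)
    omega
  have hq := f1_prob (a := 8) (C := C) (k := k * 6) (C1 := 8 * C + 1 + (CT + 1)) h1 (by omega)
    (by omega)
  refine (c1.mono hT (by positivity) hq).fin fun I t hI a1 a2 a3 => ⟨t, a1, a2, e2, a3 (by simp),
    e1, a3 (by simp), ?_⟩
  have a4 := abs_le_nrm (e2 - e1) i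
  have a5 := le_abs_self ((e2 - e1) i)
  rw [Pi.sub_apply] at a4 a5
  have a6 : 8 * 2 ^ (j0 + k) ≤ nrm (e2 - e1) := by
    zify
    linarith
  omega

end Pool.Agent.Lib.MP_dd0771_pr.Sc
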