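import Pool.Agent.Lib.MP_dd0771_pr.Sc.Kit

open Filter

namespace Pool.Agent.Lib.MP_dd0771_pr.Sc

theorem fkc_ini {d : ℕ} (G : Md) (Z Y0 : Finset (S d)) {η η' : Cfg d} (h : η ≤ η') :
    (ini G Z Y0 η).2 ⊆ (ini G Z Y0 η').2 := by
  intro x hx
  obtain ⟨h1, h2⟩ := Finset.mem_filter.mp hx
  exact Finset.mem_filter.mpr ⟨h1, le_trans h2 (h x)⟩

theorem s_fkc {d : ℕ} {F : Fr} (hd : 2 ≤ d) (hF : F.Ok)
    (hSTAT : S_STAT d F) (hREV : S_REV d F) :
    S_FKC d F := by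
  intro K φ Q Z Y0 B t T E hK hZ hE
  have hj : 1 ≤ F.toMd.j := by rcases hF.2.2.2.1 with h | h <;> omega
  let f : Cfg d → ℝ := fun η => pr (wls F.toMd (al K Q) T) fun ws =>
    E (tj F.toMd ⟨al K Q, Z⟩ (ini F.toMd Z B η) ws)
  let g : Cfg d → ℝ := fun η => pr (wls F.toMd (al K Q) t) fun ws =>
    ∀ b ∈ B, ∃ a ∈ Y0, a ∈ (acs F.toMd ⟨al K Q, Z⟩ (ini F.toMd Z {b} η) ws).2
  have bf : Bdd f := Bdd.pr _ _
  have bg : Bdd g := Bdd.pr _ _
  have mf : Monotone f := fun η η' h => pr_mono fun ws _ hw => hE _ _ (fun u =>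
    acs_mono hj (al K Q) (Finset.Subset.refl Z) (τ := ini F.toMd Z B η') (reg_ini Z B η) h
      (fkc_ini _ Z B h) _) hw
  have mg : Monotone g := fun η η' h => pr_mono fun ws _ hw b hb => by
    obtain ⟨a, ha, ha'⟩ := hw b hb
    exact ⟨a, ha, acs_mono hj (al K Q) (Finset.Subset.refl Z) (τ := ini F.toMd Z {b} η')
      (reg_ini Z {b} η) h (fkc_ini _ Z {b} h) _ ha'⟩
  have e1 : wP F.toMd K φ Q Z Y0 t (fun I => B ⊆ I t) = ex (mu F.toMd K φ Q) g := by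
    have := hREV K φ Q Z Y0 B t (fun _ => 1) hK hZ (Bdd.const 1)
    simp only [mul_one, one_mul] at this
    refine Eq.trans ?_ this
    refine ex_congr fun η _ => ex_congr fun ws hws => ?_
    show ind (B ⊆ (acs F.toMd ⟨al K Q, Z⟩ (ini F.toMd Z Y0 η) (ws.take t)).2) = _
    rw [List.take_of_length_le (wls_mem hF hws).1.le]
  have e2 : wP F.toMd K φ Q Z B T E = ex (mu F.toMd K φ Q) f := rfl
  rw [e1, e2, mul_comm]
  refine le_trans (pc_harris Q _ bf bg mf mg) ?_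
  have e3 := hREV K φ Q Z Y0 B t f hK hZ bf
  refine le_trans (le_of_eq e3.symm) ?_
  refine ex_mono (Bdd.ex (f := fun η ws => ind (B ⊆ (acs F.toMd ⟨al K Q, Z⟩
      (ini F.toMd Z Y0 η) ws).2) * f (ms (al K Q) η ws))
      ((Bdd.ind _).mul (bf.comp fun p : Cfg d × List (Word d) => ms (al K Q) p.1 p.2)) _)
    (Bdd.pr _ _) fun η _ => ?_
  refine le_trans ?_ (le_of_eq (ex_iid_add _ t T (Bdd.ind _)).symm)
  refine ex_mono ((Bdd.ind _).mul (bf.comp _)) (Bdd.pr _ _) fun ws hws => ?_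
  by_cases hB : B ⊆ (acs F.toMd ⟨al K Q, Z⟩ (ini F.toMd Z Y0 η) ws).2
  · rw [ind_pos hB, one_mul]
    refine pr_mono fun ws' _ hw => hE _ _ (fun u => ?_) hw
    have hl : ws.length = t := (wls_mem hF hws).1
    rw [← hl, tj_shift]
    refine acs_mono hj (al K Q) (Finset.Subset.refl Z) (reg_ini Z B _) ?_ ?_ _
    · rw [acs_fst]
      exact le_rfl
    · intro x hx
      exact hB (Finset.mem_inter.mp (Finset.mem_filter.mp hx).1).1
  · rw [ind_neg hB, zero_mul]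
    exact pr_nonneg _ _

end Pool.Agent.Lib.MP_dd0771_pr.Sc
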