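import Pool.Agent.Lib.MP_dd0771_pr.Sc.Kit

open Filter

namespace Pool.Agent.Lib.MP_dd0771_pr.Sc

theorem gap_exp {d : ℕ} {Q B : Finset (S d)} (hB : B ⊆ Q) (m : S d → PMF ℕ) (t a : ℝ)
    (hs : ∀ x ∈ B, Summable fun i : ℕ => (m x i).toReal * Real.exp (t * i)) :
    pr (pc Q m) (fun η => a ≤ t * mass η B) ≤
      (∏ x ∈ B, ex (m x) fun i => Real.exp (t * i)) / Real.exp a := by
  obtain ⟨h1, h2⟩ := ex_pc_prod Q B hB m (f := fun _ i => Real.exp (t * i))
    (fun _ _ => (Real.exp_pos _).le) hs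
  rw [← h2]
  refine le_trans (pr_mono fun η _ h => ?_) (markov h1
    (fun η _ => Finset.prod_nonneg fun _ _ => (Real.exp_pos _).le) (Real.exp_pos a))
  rw [← Real.exp_sum, Real.exp_le_exp, ← Finset.mul_sum]
  simpa [mass] using h

theorem gap_prod {α : Type} [DecidableEq α] (B : Finset α) (z : α) {u : α → ℝ} {b C : ℝ}
    (hC : 1 ≤ C) (h0 : ∀ x, 0 ≤ u x) (h1 : ∀ x, x ≠ z → u x ≤ Real.exp b)
    (h2 : u z ≤ C * Real.exp b) : ∏ x ∈ B, u x ≤ C * Real.exp (b * B.card) := by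
  calc ∏ x ∈ B, u x ≤ ∏ x ∈ B, (if x = z then C else 1) * Real.exp b :=
        Finset.prod_le_prod (fun x _ => h0 x) fun x _ => by
          by_cases e : x = z
          · rw [if_pos e, e]; exact h2
          · rw [if_neg e, one_mul]; exact h1 x e
    _ = (if z ∈ B then C else 1) * Real.exp (b * B.card) := by
        rw [Finset.prod_mul_distrib, Finset.prod_ite_eq', Finset.prod_const, ← Real.exp_nat_mul,
          mul_comm b]
    _ ≤ C * Real.exp (b * B.card) := by
        refine mul_le_mul_of_nonneg_right ?_ (Real.exp_pos _).le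
        split_ifs
        exacts [le_rfl, hC]

theorem s_gap {d : ℕ} {F : Fr} (hd : 2 ≤ d) (hF : F.Ok)
    :
    S_GAP d F := by
  intro g hg
  obtain ⟨c, hc, gap⟩ := mn_gap hF
  obtain ⟨C, hC, mgf⟩ := sl_mgf hF
  obtain ⟨M, hM, mean⟩ := sl_mean hF
  have hj : F.j ≤ 2 := by rcases hF.2.2.2.1 with h | h <;> omega
  obtain ⟨τ, τ0, τ1, τ2⟩ : ∃ τ : ℝ, 0 < τ ∧ τ ≤ 1 / 4 ∧ C * τ ≤ c * g / 2 :=
    ⟨min (1 / 4) (c * g / 2 / C), lt_min (by norm_num) (by positivity), min_le_left _ _, by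
      rw [mul_comm, ← le_div_iff₀ (by linarith)]
      exact min_le_right _ _⟩
  have γ0 : 0 < τ * (c * g) / 4 := by positivity
  have hD : 1 ≤ C * Real.exp M := one_le_mul_of_one_le_of_one_le hC (Real.one_le_exp (by linarith))
  refine ⟨τ * (c * g) / 4, γ0, ?_⟩
  filter_upwards [eventually_ge_atTop 1, tendsto_natCast_atTop_atTop.eventually_ge_atTop
    (Real.log (C * Real.exp M) / (τ * (c * g) / 4))] with l l1 l2 K φ φs Q x z p hφ hφs hQ hp
  have key (t : ℝ) (ht : |t| = τ) (hm : t * (mn F.toMd K φ - mn F.toMd K φs) ≤ -(τ * (c * g))) :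
      pr p (fun η => t * (mn F.toMd K φs * (bx x l).card) ≤ t * mass η (bx x l)) ≤
        Real.exp (-(τ * (c * g) / 4) * (l : ℝ) ^ d) := by
    obtain ⟨f, f1, f2, rfl⟩ : ∃ f : S d → ℕ, (∀ y, f y ≤ 2) ∧ (∀ y, y ≠ z → f y = 0) ∧
        p = pc Q fun y => sl F.toMd K φ (f y) := by
      rcases hp with rfl | rfl
      · exact ⟨fun _ => 0, fun _ => Nat.zero_le _, fun _ _ => rfl, rfl⟩
      · exact ⟨fun y => if y = z then F.j else 0, fun y => by dsimp only; split_ifs <;> omega,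
          fun y e => if_neg e, rfl⟩
    have ht' : |t| ≤ 1 / 4 := ht ▸ τ1
    have m0 : 0 ≤ mn F.toMd K φ := ex_nonneg fun _ _ => Nat.cast_nonneg _
    have m1 : mn F.toMd K φ ≤ M := (mean K φ 0 hφ (Nat.zero_le _)).2
    have t2 : t ^ 2 = τ ^ 2 := by rw [← ht, sq_abs]
    refine (gap_exp hQ _ t _ fun y _ => (mgf K φ (f y) t hφ (f1 y) ht').1).trans ?_
    have pb := gap_prod (bx x l) z (u := fun y => ex (sl F.toMd K φ (f y)) fun i =>
      Real.exp (t * i)) (b := t * mn F.toMd K φ + C * t ^ 2) hD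
      (fun y => ex_nonneg fun _ _ => (Real.exp_pos _).le)
      (fun y e => by
        rw [f2 y e]
        exact (mgf K φ 0 t hφ (Nat.zero_le _) ht').2.2 rfl)
      ((mgf K φ (f z) t hφ (f1 z) ht').2.1.trans (by
        rw [mul_assoc, ← Real.exp_add]
        refine le_mul_of_one_le_right (by linarith) (Real.one_le_exp ?_)
        have := (abs_le.1 ht').1
        nlinarith [sq_nonneg t, mul_nonneg (show 0 ≤ t + 1 / 4 by linarith) m0]))
    refine (div_le_div_of_nonneg_right pb (Real.exp_pos _).le).trans ?_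
    have n1 : (l : ℝ) ^ d ≤ (bx x l).card := by
      rw [card_bx]
      exact_mod_cast Nat.pow_le_pow_left (by omega) d
    have n2 : (l : ℝ) ≤ (l : ℝ) ^ d := le_self_pow₀ (by exact_mod_cast l1) (by omega)
    rw [div_le_iff₀ γ0] at l2
    rw [← Real.exp_log (show 0 < C * Real.exp M by linarith), ← Real.exp_add, ← Real.exp_sub,
      Real.exp_le_exp, t2]
    generalize ((bx x l).card : ℝ) = N at *
    generalize (l : ℝ) ^ d = P at *
    have n3 : 0 ≤ N := le_trans (le_trans (Nat.cast_nonneg l) n2) n1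
    have e1 : t * (mn F.toMd K φ - mn F.toMd K φs) + C * τ ^ 2 ≤ -(τ * (c * g) / 2) := by
      nlinarith [mul_le_mul_of_nonneg_left τ2 τ0.le]
    nlinarith [mul_le_mul_of_nonneg_right e1 n3, mul_le_mul_of_nonneg_left n1 γ0.le,
      mul_le_mul_of_nonneg_left n2 γ0.le]
  refine ⟨fun h => le_trans (pr_mono fun η _ e => ?_) (key (-τ) (by rw [abs_neg, abs_of_pos τ0]) ?_),
    fun h => le_trans (pr_mono fun η _ e => ?_) (key τ (abs_of_pos τ0) ?_)⟩
  · nlinarith
  · have := gap K φs φ hφs hφ (by linarith)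
    nlinarith [mul_le_mul_of_nonneg_left (show g ≤ φ - φs by linarith) hc.le]
  · nlinarith
  · have := gap K φ φs hφ hφs (by linarith)
    nlinarith [mul_le_mul_of_nonneg_left (show g ≤ φs - φ by linarith) hc.le]

end Pool.Agent.Lib.MP_dd0771_pr.Sc
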