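import Pool.Agent.Lib.MP_dd0771_pr.Sc.Stm3

open Filter

namespace Pool.Agent.Lib.MP_dd0771_pr.Sc

variable {d : ℕ} {F : Fr} {B : Bs}

theorem scale_log_tendsto : Tendsto (Nat.log 2) atTop atTop := by
  refine tendsto_atTop.2 fun b => ?_
  filter_upwards [eventually_ge_atTop (2 ^ b)] with x hx
  exact Nat.le_log_of_pow_le (by norm_num) hx

theorem scale_pow_two (C p : ℕ) : ∀ᶠ m : ℕ in atTop, C * (m + 1) ^ p ≤ 2 ^ m := by
  have h := tendsto_pow_const_div_const_pow_of_one_lt p (r := (2 : ℝ)) (by norm_num)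
  have hpos : (0 : ℝ) < 1 / ((C : ℝ) * 2 ^ p + 1) := by positivity
  filter_upwards [h.eventually (gt_mem_nhds hpos), eventually_ge_atTop 1] with m hm h1
  have h2 : (0 : ℝ) < 2 ^ m := by positivity
  have h3 : (0 : ℝ) < (C : ℝ) * 2 ^ p + 1 := by positivity
  rw [div_lt_div_iff₀ h2 h3] at hm
  have h4 : ((m : ℝ) + 1) ^ p ≤ 2 ^ p * (m : ℝ) ^ p := by
    rw [← mul_pow]
    have : (1 : ℝ) ≤ m := by exact_mod_cast h1
    exact pow_le_pow_left₀ (by positivity) (by linarith) p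
  have h5 : (0 : ℝ) ≤ (m : ℝ) ^ p := by positivity
  have h6 : (C : ℝ) * ((m : ℝ) + 1) ^ p ≤ 2 ^ m := by
    calc (C : ℝ) * ((m : ℝ) + 1) ^ p ≤ C * (2 ^ p * (m : ℝ) ^ p) :=
          mul_le_mul_of_nonneg_left h4 (by positivity)
      _ ≤ (m : ℝ) ^ p * ((C : ℝ) * 2 ^ p + 1) := by nlinarith
      _ ≤ 2 ^ m := by linarith
  exact_mod_cast h6

theorem scale_poly (C p : ℕ) : ∀ᶠ x : ℕ in atTop, C * (Nat.log 2 x + 1) ^ p ≤ x := by
  filter_upwards [scale_log_tendsto.eventually (scale_pow_two C p), eventually_ge_atTop 1]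
    with x hx h1
  exact hx.trans (Nat.pow_log_le_self 2 (by omega))

theorem BK.mono {K n n' : ℕ} (h : BK d F B K n) (hn : n' ≤ n) : BK d F B K n' := by
  refine ⟨h.1, le_trans ?_ h.2.1, fun R hR => h.2.2 R (hR.trans ?_)⟩
  · exact Nat.pow_le_pow_right (by norm_num) (Nat.pow_le_pow_left hn 2)
  · exact Nat.pow_le_pow_right (by norm_num) (by omega)

theorem BK.kp (hF : F.Ok) (hB : B.Ok F) {K n : ℕ} (h : BK d F B K n) {φ : ℝ} (h1 : B.pa ≤ φ)
    (h2 : φ ≤ B.pa + 5 * B.g) : KP F K φ := by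
  have _ := hF
  exact ⟨h.1, hB.1.trans h1, h2.trans hB.2.2.1⟩

theorem EvN.and {p q : ℕ → ℕ → Prop} (hp : EvN d F B p) (hq : EvN d F B q) :
    EvN d F B fun n K => p n K ∧ q n K := by
  unfold EvN at *
  filter_upwards [hp, hq] with n h1 h2 K hK
  exact ⟨h1 K hK, h2 K hK⟩

theorem EvN.mono {p q : ℕ → ℕ → Prop} (hp : EvN d F B p)
    (h : ∀ᶠ n in atTop, ∀ K, BK d F B K n → p n K → q n K) : EvN d F B q := by
  unfold EvN at *
  filter_upwards [hp, h] with n h1 h2 K hK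
  exact h2 K hK (h1 K hK)

theorem EvN.comp {p : ℕ → ℕ → Prop} (hp : EvN d F B p) {g : ℕ → ℕ} (hg : Tendsto g atTop atTop) :
    ∀ᶠ m in atTop, ∀ K, BK d F B K (g m) → p (g m) K := hg.eventually hp

theorem thp_pos (hB : B.Ok F) : 0 < B.thp := by
  obtain ⟨-, -, -, h1, -, h2, -, -⟩ := hB
  unfold Bs.thp
  positivity

theorem thm_pos (hB : B.Ok F) : 0 < B.thm := by
  obtain ⟨-, -, -, h1, -, -, h3, -⟩ := hB
  unfold Bs.thm
  exact mul_pos h1 (by linarith)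

theorem thm_div_thp (hB : B.Ok F) : 1 - 2 * B.eps ≤ B.thm / B.thp := by
  rw [le_div_iff₀ (thp_pos hB)]
  obtain ⟨-, -, -, h1, -, h2, -, -⟩ := hB
  unfold Bs.thp Bs.thm
  nlinarith [mul_pos h1 (mul_pos h2 h2)]

theorem er_le_e2 (n : ℕ) : 0 < er n ∧ er n ≤ e2 n ∧ 2 ^ (2 * n) * er n = e2 n := by
  unfold er e2
  refine ⟨by positivity, pow_le_pow_of_le_one (by norm_num) (by norm_num) (by omega), ?_⟩
  have h : 4 * n = 2 * n + 2 * n := by ring
  rw [h, pow_add, ← mul_assoc, ← mul_pow]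
  norm_num

theorem ls_tendsto : Tendsto ls atTop atTop :=
  tendsto_atTop_mono (fun n => Nat.le_self_pow (by norm_num) _) scale_log_tendsto

theorem er_small {e : ℝ} (he : 0 < e) : ∀ᶠ n in atTop, er n ≤ e ∧ e2 n ≤ e ∧ tol (ls n) ≤ e := by
  have h1 : Tendsto (fun n : ℕ => (1 / 2 : ℝ) ^ n) atTop (nhds 0) :=
    tendsto_pow_atTop_nhds_zero_of_lt_one (by norm_num) (by norm_num)
  have h2 : Tendsto tol atTop (nhds 0) := by
    unfold tol
    refine Real.tendsto_exp_atBot.comp ?_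
    exact (tendsto_neg_atTop_atBot.comp tendsto_natCast_atTop_atTop).atBot_div_const (by norm_num)
  filter_upwards [h1.eventually (gt_mem_nhds he),
    (h2.comp ls_tendsto).eventually (gt_mem_nhds he)] with n ha hb
  have h3 : e2 n ≤ e := by
    refine le_trans ?_ ha.le
    exact pow_le_pow_of_le_one (by norm_num) (by norm_num) (by omega)
  exact ⟨(er_le_e2 n).2.1.trans h3, h3, hb.le⟩

theorem ls_le : ∀ᶠ n in atTop, 2 ≤ ls n ∧ ls n ≤ n := by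
  filter_upwards [ls_tendsto.eventually (eventually_ge_atTop 2), scale_poly 1 2] with n h1 h2
  refine ⟨h1, le_trans ?_ h2⟩
  rw [one_mul]
  exact Nat.pow_le_pow_left (Nat.le_succ _) 2

/-- A power of `n` is small against the exponential of the strong scale. -/
theorem pow_le_exp_ls (N : ℕ) {c : ℝ} (hc : 0 < c) :
    ∀ᶠ n : ℕ in atTop, (n : ℝ) ^ N ≤ Real.exp (c * ls n) := by
  have ht : Tendsto (fun n : ℕ => (Nat.log 2 n : ℝ)) atTop atTop :=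
    tendsto_natCast_atTop_atTop.comp scale_log_tendsto
  filter_upwards [ht.eventually (eventually_ge_atTop 1),
    ht.eventually (eventually_ge_atTop (2 * N / c))] with n h1 h2
  set m := Nat.log 2 n with hm
  have h3 : (n : ℝ) ≤ Real.exp ((m : ℝ) + 1) := by
    have h4 : n < 2 ^ (m + 1) := Nat.lt_pow_succ_log_self (by norm_num) n
    have h5 : (n : ℝ) ≤ 2 ^ (m + 1) := by exact_mod_cast h4.le
    have h6 : (2 : ℝ) ≤ Real.exp 1 := by linarith [Real.add_one_le_exp (1 : ℝ)]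
    calc (n : ℝ) ≤ 2 ^ (m + 1) := h5
      _ ≤ Real.exp 1 ^ (m + 1) := pow_le_pow_left₀ (by norm_num) h6 _
      _ = Real.exp ((m : ℝ) + 1) := by rw [← Real.exp_nat_mul]; push_cast; ring_nf
  have h7 : 2 * (N : ℝ) ≤ m * c := (div_le_iff₀ hc).1 h2
  calc (n : ℝ) ^ N ≤ Real.exp ((m : ℝ) + 1) ^ N := pow_le_pow_left₀ (by positivity) h3 _
    _ = Real.exp (N * ((m : ℝ) + 1)) := by rw [← Real.exp_nat_mul]
    _ ≤ Real.exp (c * ls n) := by
      refine Real.exp_le_exp.2 ?_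
      unfold ls
      rw [← hm]
      push_cast
      have hN : (0 : ℝ) ≤ N := by positivity
      nlinarith [mul_le_mul_of_nonneg_right h7 (show (0 : ℝ) ≤ m by positivity),
        mul_le_mul_of_nonneg_left h1 hN]

theorem scales (hF : F.Ok) (B : Bs) : ∀ᶠ n in atTop, B.n0 ≤ n ∧ B.R0 ≤ n ∧
    8 * VV n * (s1 F n + n ^ F.A + B.n0) ≤ DD F n ∧ 10 * DD F n ≤ VV n * RR F B n ∧
    1 ≤ sb F B n (ls n) ∧ sq F B (ls n) ≤ RR F B n ∧ s1 F n ≤ RR F B n ∧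
    ∀ l, l ≤ n → sb F B n l ≤ DD F n := by
  have hA : 3 ≤ F.A := hF.2.2.2.2.2.2
  filter_upwards [eventually_ge_atTop B.n0, eventually_ge_atTop B.R0, eventually_ge_atTop 24]
    with n h0 hR h24
  have hn : 0 < n := by omega
  have hs1 : s1 F n = n ^ (2 * F.A) := by unfold s1; rw [← pow_mul]
  have hP : 1 ≤ n ^ (2 * F.A) := Nat.one_le_pow _ _ hn
  have ha : n ^ F.A ≤ n ^ (2 * F.A) := Nat.pow_le_pow_right hn (by omega)
  have hb : B.n0 ≤ n ^ (2 * F.A) := h0.trans (Nat.le_self_pow (by omega) n)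
  have hD : DD F n = n ^ (2 * F.A) * n ^ 3 * n := by unfold DD; ring
  have hsb : s1 F n ≤ sb F B n (ls n) := Nat.le_add_right _ _
  have hsq : sq F B (ls n) ≤ sb F B n (ls n) := Nat.le_add_left _ _
  have hRR : sb F B n (ls n) ≤ RR F B n := Nat.le_mul_of_pos_left _ (by omega)
  have hmm : n ^ 2 ≤ mm F n + 2 :=
    (Nat.le_mul_of_pos_right _ (by positivity)).trans (Nat.le_add_right _ _)
  have h3 : 1 ≤ n ^ 3 := Nat.one_le_pow _ _ hn
  refine ⟨h0, hR, ?_, ?_, ?_, hsq.trans hRR, hsb.trans hRR, fun l hl => ?_⟩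
  · rw [hD, hs1]
    calc 8 * VV n * (n ^ (2 * F.A) + n ^ F.A + B.n0) ≤ 8 * VV n * (3 * n ^ (2 * F.A)) :=
          Nat.mul_le_mul_left _ (by omega)
      _ = n ^ (2 * F.A) * n ^ 3 * 24 := by unfold VV; ring
      _ ≤ _ := Nat.mul_le_mul_left _ h24
  · rw [hD]
    calc 10 * (n ^ (2 * F.A) * n ^ 3 * n) ≤ n * (n ^ (2 * F.A) * n ^ 3 * n) :=
          Nat.mul_le_mul_right _ (by omega)
      _ = VV n * (n ^ 2 * s1 F n) := by rw [hs1]; unfold VV; ring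
      _ ≤ _ := Nat.mul_le_mul_left _ (Nat.mul_le_mul hmm hsb)
  · exact (hs1 ▸ hP).trans hsb
  · have hl' : l ^ F.A ≤ n ^ F.A := Nat.pow_le_pow_left hl _
    rw [hD]
    calc sb F B n l ≤ n ^ (2 * F.A) * 1 * 3 := by unfold sb sq s2; rw [hs1]; omega
      _ ≤ _ := Nat.mul_le_mul (Nat.mul_le_mul_left _ h3) (by omega)

theorem le_of_Lmin (hF : F.Ok) (B : Bs) : ∀ᶠ n in atTop, ∀ L, Lmin F B n ≤ L →
    (VV n * RR F B n) ^ 4 ≤ Nat.sqrt L ∧ 64 * (VV n * RR F B n) ≤ Nat.sqrt L ∧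
      64 * Nat.sqrt L ≤ L ∧ 64 * DD F n ≤ L := by
  filter_upwards [scales hF B, eventually_ge_atTop 1] with n h hn L hL
  obtain ⟨-, -, -, h10, -⟩ := h
  have hD : 1 ≤ DD F n := Nat.one_le_pow _ _ hn
  unfold Lmin at hL
  generalize VV n * RR F B n = X at *
  have h1 : X ^ 4 ≤ Nat.sqrt L := by
    rw [Nat.le_sqrt, ← pow_add]
    exact hL
  have h2 : 64 * X ≤ X ^ 4 := by
    calc 64 * X = 4 ^ 3 * X := by norm_num
      _ ≤ X ^ 3 * X := Nat.mul_le_mul_right _ (Nat.pow_le_pow_left (by omega) 3)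
      _ = X ^ 4 := by ring
  have h3 : 64 * Nat.sqrt L ≤ L :=
    (Nat.mul_le_mul_right _ (by omega)).trans (Nat.sqrt_le L)
  exact ⟨h1, h2.trans h1, h3, by omega⟩

theorem scale_Lmin (F : Fr) (B : Bs) {n k : ℕ} (hk : 1 ≤ k) (h0 : B.n0 ≤ k) (hn : n ≤ 2 ^ k) :
    Lmin F B n ≤ 2 ^ (8 * (2 * F.A + 11) * k ^ (2 * F.A + 2)) := by
  have hk2 : k ≤ 2 ^ k := (Nat.lt_two_pow_self).le
  have hlog : Nat.log 2 n ≤ k := by
    have := Nat.log_mono_right (b := 2) hn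
    rwa [Nat.log_pow (by norm_num)] at this
  have hls : ls n ≤ k ^ 2 := Nat.pow_le_pow_left hlog 2
  set P := k ^ (2 * F.A + 2) with hP
  have hkP : k ≤ P := Nat.le_self_pow (by omega) k
  have he : ls n ^ (F.A + 1) ≤ P := by
    calc ls n ^ (F.A + 1) ≤ (k ^ 2) ^ (F.A + 1) := Nat.pow_le_pow_left hls _
      _ = P := by rw [hP, ← pow_mul]; ring_nf
  have hnP : n ≤ 2 ^ P := hn.trans (Nat.pow_le_pow_right (by norm_num) hkP)
  have hkP2 : k ≤ 2 ^ P := hk2.trans (Nat.pow_le_pow_right (by norm_num) hkP)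
  have hQ : 2 ≤ 2 ^ P := Nat.le_self_pow (by omega) 2
  have hee : 2 ^ (ls n ^ (F.A + 1)) ≤ 2 ^ P := Nat.pow_le_pow_right (by norm_num) he
  have hfin : (2 ^ P) ^ (8 * (2 * F.A + 11)) = 2 ^ (8 * (2 * F.A + 11) * P) := by
    rw [← pow_mul, mul_comm]
  rw [← hfin]
  generalize 2 ^ P = Q at *
  have hQ0 : 0 < Q := by omega
  have hV : VV n ≤ Q ^ 3 := Nat.pow_le_pow_left hnP 3
  have hm : mm F n + 2 ≤ Q ^ 4 := by
    have h1 : mm F n ≤ Q ^ 2 * Q := Nat.mul_le_mul (Nat.pow_le_pow_left hnP 2) hee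
    have h2 : Q ≤ Q ^ 3 := Nat.le_self_pow (by norm_num) Q
    have h3 : Q ^ 2 * Q = Q ^ 3 := by ring
    calc mm F n + 2 ≤ Q ^ 3 * 2 := by omega
      _ ≤ Q ^ 3 * Q := Nat.mul_le_mul_left _ hQ
      _ = Q ^ 4 := by ring
  have hs : sb F B n (ls n) ≤ Q ^ (2 * F.A + 4) := by
    have h1 : s1 F n ≤ Q ^ (2 * F.A + 1) := by
      unfold s1
      rw [← pow_mul]
      exact (Nat.pow_le_pow_left hnP _).trans (Nat.pow_le_pow_right hQ0 (by omega))
    have h2 : ls n ^ F.A ≤ Q ^ (2 * F.A + 1) := by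
      calc ls n ^ F.A ≤ (Q ^ 2) ^ F.A :=
            Nat.pow_le_pow_left (hls.trans (Nat.pow_le_pow_left hkP2 2)) _
        _ = Q ^ (2 * F.A) := by rw [← pow_mul]
        _ ≤ _ := Nat.pow_le_pow_right hQ0 (by omega)
    have h3 : B.n0 ≤ Q ^ (2 * F.A + 1) := (h0.trans hkP2).trans (Nat.le_self_pow (by omega) Q)
    have h4 : 2 ^ 3 ≤ Q ^ 3 := Nat.pow_le_pow_left hQ 3
    calc sb F B n (ls n) ≤ Q ^ (2 * F.A + 1) * 2 ^ 3 := by unfold sb sq s2; omega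
      _ ≤ Q ^ (2 * F.A + 1) * Q ^ 3 := Nat.mul_le_mul_left _ h4
      _ = _ := by ring
  calc Lmin F B n ≤ (Q ^ 3 * (Q ^ 4 * Q ^ (2 * F.A + 4))) ^ 8 :=
        Nat.pow_le_pow_left (Nat.mul_le_mul hV (Nat.mul_le_mul hm hs)) 8
    _ = _ := by ring

theorem Lmin_le (F : Fr) (B : Bs) (N : ℕ) :
    ∀ᶠ x in atTop, ∀ n, n ≤ x ^ N → Lmin F B n ≤ 2 ^ x := by
  filter_upwards [scale_poly (8 * (2 * F.A + 11) * (N + B.n0 + 1) ^ (2 * F.A + 2)) (2 * F.A + 2)]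
    with x hx n hn
  have hlt : x < 2 ^ (Nat.log 2 x + 1) := Nat.lt_pow_succ_log_self (by norm_num) x
  have hm : 0 < Nat.log 2 x + 1 := Nat.succ_pos _
  generalize Nat.log 2 x + 1 = m at *
  have h1 : N + B.n0 + 1 ≤ (N + B.n0 + 1) * m := Nat.le_mul_of_pos_right _ hm
  refine (scale_Lmin F B (k := (N + B.n0 + 1) * m) (by omega) (by omega) ?_).trans ?_
  · calc n ≤ x ^ N := hn
      _ ≤ (2 ^ m) ^ N := Nat.pow_le_pow_left hlt.le _
      _ = 2 ^ (N * m) := by rw [← pow_mul, mul_comm]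
      _ ≤ _ := Nat.pow_le_pow_right (by norm_num) (Nat.mul_le_mul_right _ (by omega))
  · refine Nat.pow_le_pow_right (by norm_num) (le_trans (le_of_eq ?_) hx)
    rw [mul_pow]
    ring

theorem card_le (hd : 1 ≤ d) :
    ∀ᶠ n : ℕ in atTop, 2 * (2 ^ (4 * n + 3) + 1) ^ d ≤ 2 ^ (5 * n * d) := by
  filter_upwards [eventually_ge_atTop 5] with n hn
  have h1 : 2 ^ (4 * n + 3) + 1 ≤ 2 ^ (4 * n + 4) := by
    have : 1 ≤ 2 ^ (4 * n + 3) := Nat.one_le_two_pow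
    rw [show 4 * n + 4 = 4 * n + 3 + 1 from rfl, pow_succ 2 (4 * n + 3)]
    omega
  calc 2 * (2 ^ (4 * n + 3) + 1) ^ d ≤ 2 * (2 ^ (4 * n + 4)) ^ d :=
        Nat.mul_le_mul_left _ (Nat.pow_le_pow_left h1 d)
    _ = 2 ^ ((4 * n + 4) * d + 1) := by rw [← pow_mul]; ring
    _ ≤ _ := Nat.pow_le_pow_right (by norm_num) (by nlinarith)

end Pool.Agent.Lib.MP_dd0771_pr.Sc
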