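import Pool.Agent.Lib.MP_dd0771_pr.Sc.ValK
import Pool.Agent.Lib.MP_dd0771_pr.Sc.Scale

/-! Counting checkpoints and accumulating errors along the checkpoints of one world. -/

open Filter

namespace Pool.Agent.Lib.MP_dd0771_pr.Sc

variable {d : ℕ}

theorem wb_bdd {α : Type} {f : α → ℝ} {c : ℝ} (h : ∀ a, 0 ≤ f a ∧ f a ≤ c) : Bdd f :=
  ⟨c, fun a => by rw [abs_of_nonneg (h a).1]; exact (h a).2⟩

/-- The chain event only reads the first `k2` blocks. -/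
theorem wb_CE {F : Fr} {B : Bs} {n : ℕ} {Zc : Finset (S d)} {O : Rule d} {k2 : ℕ}
    {P : ℕ × Finset (S d) → Prop} {I J : Tj d}
    (h : ∀ v, v ≤ k2 * sb F B n (ls n) → I v = J v) (hI : CE F B n Zc O k2 P I) :
    CE F B n Zc O k2 P J := by
  classical
  obtain ⟨k1, hk, h1, x1, x2, h2, h3⟩ := hI
  have e : ∀ k, k < k1 + mm F n →
      J (k * sb F B n (ls n) + s1 F n) = I (k * sb F B n (ls n) + s1 F n) := fun k hk' => by
    refine (h _ ?_).symm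
    have h4 : s1 F n ≤ sb F B n (ls n) := Nat.le_add_right _ _
    calc k * sb F B n (ls n) + s1 F n ≤ (k + 1) * sb F B n (ls n) := by
          rw [Nat.succ_mul]; omega
      _ ≤ _ := Nat.mul_le_mul_right _ (by omega)
  refine ⟨k1, hk, fun k hk' => by rw [e k hk']; exact h1 k hk', x1, x2,
    fun k a b => by rw [e k b]; exact h2 k a b, h3.trans_eq ?_⟩
  congr 2
  refine Finset.filter_congr fun k hk' => ?_
  rw [e k (Finset.mem_Ico.1 hk').2]

/-- Number of checkpoints among `k` at which the event `E` of the future holds. -/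
noncomputable def wbN (E : Tj d → Prop) (U k : ℕ) (J : Tj d) : ℝ :=
  ∑ j ∈ Finset.range k, ind (E fun v => J (j * U + v))

theorem wbN_bd (E : Tj d → Prop) (U k : ℕ) (J : Tj d) : 0 ≤ wbN E U k J ∧ wbN E U k J ≤ k :=
  ⟨Finset.sum_nonneg fun _ _ => ind_nonneg _,
    (Finset.sum_le_sum fun _ _ => ind_le_one _).trans (by simp)⟩

theorem wbN_succ (E : Tj d → Prop) (U k : ℕ) (J : Tj d) :
    wbN E U (k + 1) J = ind (E J) + wbN E U k fun v => J (U + v) := by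
  unfold wbN
  rw [Finset.sum_range_succ', add_comm]
  congr 1
  · simp
  · refine Finset.sum_congr rfl fun j _ => ?_
    congr 2
    funext v
    congr 1
    ring

theorem wb_Ncnt (F : Fr) (B : Bs) (n : ℕ) (Zc : Finset (S d)) (O : Rule d) (M U : ℕ) (I : Tj d) :
    (Ncnt F B n Zc O M U I : ℝ) =
      wbN (CE F B n Zc O (mm F n + 1) fun _ => True) U M fun v => I (B.n0 + v) := by
  classical
  unfold Ncnt wbN
  rw [Finset.card_filter]
  push_cast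
  refine Finset.sum_congr rfl fun j _ => ?_
  simp only [ind, add_assoc]

theorem wb_min {u x : ℝ} (hu : 0 ≤ u) (hx : 0 ≤ x) : 0 ≤ min 1 (u * x) ∧ min 1 (u * x) ≤ 1 :=
  ⟨le_min zero_le_one (mul_nonneg hu hx), min_le_left _ _⟩

/-- The value of the next `k` checkpoints. -/
noncomputable def wbV (G : Md) (Y : Sys d) (E : Tj d → Prop) (U : ℕ) (u : ℝ) (k : ℕ)
    (σ : St d) : ℝ := ex (wls G Y.A (k * U)) fun ws => min 1 (u * wbN E U k (tj G Y σ ws))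

theorem wbV_bd (G : Md) (Y : Sys d) (E : Tj d → Prop) (U : ℕ) {u : ℝ} (hu : 0 ≤ u) (k : ℕ)
    (σ : St d) : 0 ≤ wbV G Y E U u k σ ∧ wbV G Y E U u k σ ≤ min 1 (u * k) :=
  ⟨ex_nonneg fun _ _ => (wb_min hu (wbN_bd _ _ _ _).1).1,
    ex_le (.of01 fun _ => wb_min hu (wbN_bd _ _ _ _).1) fun _ _ =>
      min_le_min le_rfl (mul_le_mul_of_nonneg_left (wbN_bd _ _ _ _).2 hu)⟩

theorem wbV_01 (G : Md) (Y : Sys d) (E : Tj d → Prop) (U : ℕ) {u : ℝ} (hu : 0 ≤ u) (k : ℕ)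
    (σ : St d) : 0 ≤ wbV G Y E U u k σ ∧ wbV G Y E U u k σ ≤ 1 :=
  ⟨(wbV_bd G Y E U hu k σ).1, (wbV_bd G Y E U hu k σ).2.trans (min_le_left _ _)⟩

theorem wbV_succ (G : Md) (Y : Sys d) {E : Tj d → Prop} {U T : ℕ} (hT : T ≤ U)
    (hE : ∀ I J : Tj d, (∀ v, v ≤ T → I v = J v) → E I → E J) {u : ℝ} (hu : 0 ≤ u) (k : ℕ)
    (σ : St d) : wbV G Y E U u (k + 1) σ ≤ u * pr (wls G Y.A T) (fun ws => E (tj G Y σ ws)) +
      ex (wls G Y.A U) fun ws => wbV G Y E U u k (acs G Y σ ws) := by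
  have b0 : ∀ k (σ : St d) (ws : List (Word d)), 0 ≤ min 1 (u * wbN E U k (tj G Y σ ws)) ∧
      min 1 (u * wbN E U k (tj G Y σ ws)) ≤ 1 := fun _ _ _ => wb_min hu (wbN_bd _ _ _ _).1
  have e1 : pr (wls G Y.A T) (fun ws => E (tj G Y σ ws)) =
      pr (wls G Y.A U) fun ws => E (tj G Y σ (ws.take T)) := by
    rw [wls, ← iid_take _ hT, pr_map]; rfl
  have bi : Bdd fun ws : List (Word d) => u * ind (E (tj G Y σ (ws.take T))) :=
    (Bdd.const u).mul (.ind _)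
  have bV : Bdd fun ws : List (Word d) => wbV G Y E U u k (acs G Y σ ws) :=
    .of01 fun _ => wbV_01 _ _ _ _ hu _ _
  rw [e1, pr, ← ex_mul_left, ← ex_add _ bi bV, wbV, show (k + 1) * U = U + k * U by ring, wls,
    ex_iid_add _ _ _ (.of01 (b0 _ _))]
  refine ex_mono (.of01 fun l => ⟨ex_nonneg fun _ _ => (b0 _ _ _).1,
    ex_le (.of01 fun _ => b0 _ _ _) fun _ _ => (b0 _ _ _).2⟩) (bi.add bV) fun l hl => ?_
  have hlen : l.length = U := iid_length hl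
  rw [wbV, wls, ← ex_const (iid (wl G Y.A) (k * U)) (u * _),
    ← ex_add _ (.const _) (.of01 (b0 _ _))]
  refine ex_mono (.of01 fun _ => b0 _ _ _) ((Bdd.const _).add (.of01 (b0 _ _))) fun l' _ => ?_
  have e2 : (fun v => tj G Y σ (l ++ l') (U + v)) = tj G Y (acs G Y σ l) l' := by
    funext v; rw [← hlen, tj_shift]
  have e3 : ind (E (tj G Y σ (l ++ l'))) ≤ ind (E (tj G Y σ (l.take T))) :=
    ind_mono (hE _ _ fun v hv => by
      unfold tj
      rw [List.take_append_of_le_length (by omega), List.take_take, min_eq_left hv])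
  rw [wbN_succ, e2]
  have h1 := mul_le_mul_of_nonneg_left e3 hu
  have h2 := mul_nonneg hu (ind_nonneg (E (tj G Y σ (l.take T))))
  rcases le_total 1 (u * wbN E U k (tj G Y (acs G Y σ l) l')) with h | h
  · rw [min_eq_left h]; linarith [min_le_left 1 (u * (ind (E (tj G Y σ (l ++ l'))) +
      wbN E U k (tj G Y (acs G Y σ l) l')))]
  · rw [min_eq_right h]; refine (min_le_right _ _).trans ?_; linarith

/-- Errors accumulated along `k` checkpoints. -/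
noncomputable def wbE (G : Md) (A : Finset (Lt d)) (a : Cfg d → ℝ) (U : ℕ) : ℕ → Cfg d → ℝ
  | 0 => fun _ => 0
  | k + 1 => fun η => a η + ex (wls G A U) fun ws => wbE G A a U k (ms A η ws)

theorem wbE_bd (G : Md) (A : Finset (Lt d)) {a : Cfg d → ℝ} {c : ℝ}
    (ha : ∀ η, 0 ≤ a η ∧ a η ≤ c) (U : ℕ) :
    ∀ k η, 0 ≤ wbE G A a U k η ∧ wbE G A a U k η ≤ k * c
  | 0, _ => by simp [wbE]
  | k + 1, η => by
    have ih := wbE_bd G A ha U k
    have h1 : 0 ≤ ex (wls G A U) fun ws => wbE G A a U k (ms A η ws) :=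
      ex_nonneg fun _ _ => (ih _).1
    have h2 : (ex (wls G A U) fun ws => wbE G A a U k (ms A η ws)) ≤ k * c :=
      ex_le (wb_bdd fun _ => ih _) fun _ _ => (ih _).2
    simp only [wbE]
    push_cast
    constructor <;> linarith [(ha η).1, (ha η).2]

theorem wb_stat {G : Md} {A : Finset (Lt d)} {μ : PMF (Cfg d)} {T : ℕ}
    (h : (μ.bind fun η => (wls G A T).map (ms A η)) = μ) {g : Cfg d → ℝ} (hg : Bdd g) :
    (ex μ fun η => ex (wls G A T) fun ws => g (ms A η ws)) = ex μ g := by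
  conv_rhs => rw [← h]
  rw [ex_bind _ _ hg]
  exact ex_congr fun η _ => (ex_map _ _ hg).symm

theorem wbE_ex {G : Md} {A : Finset (Lt d)} {μ : PMF (Cfg d)} {U : ℕ}
    (h : (μ.bind fun η => (wls G A U).map (ms A η)) = μ) {a : Cfg d → ℝ} {c : ℝ}
    (ha : ∀ η, 0 ≤ a η ∧ a η ≤ c) : ∀ k, ex μ (wbE G A a U k) = k * ex μ a
  | 0 => by simpa [wbE] using ex_const μ 0
  | k + 1 => by
    have b := wb_bdd (wbE_bd G A ha U k)
    simp only [wbE]
    rw [ex_add _ (wb_bdd ha) (Bdd.ex (f := fun η ws => wbE G A a U k (ms A η ws))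
      (b.comp fun p : Cfg d × List (Word d) => ms A p.1 p.2) _), wb_stat h b, wbE_ex h ha k]
    push_cast
    ring

theorem wb_wEv_le {G : Md} {K n0 : ℕ} {C : Ty} {Y : Finset (S d)}
    (h : ((mu G K C.1 (wQ Y C.2)).bind fun η => (wls G (al K (wQ Y C.2)) n0).map
      (ms (al K (wQ Y C.2)) η)) = mu G K C.1 (wQ Y C.2)) {g : Cfg d → ℝ} {c : ℝ}
    (hg : ∀ η, 0 ≤ g η ∧ g η ≤ c) :
    wEv G K n0 C Y (fun σ => g σ.1) ≤ ex (mu G K C.1 (wQ Y C.2)) g := by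
  have b := wb_bdd hg
  rw [← wb_stat h b]
  have hi : ∀ (E : Prop) η, 0 ≤ ind E * g η ∧ ind E * g η ≤ g η := fun E η =>
    ⟨mul_nonneg (ind_nonneg _) (hg η).1, mul_le_of_le_one_left (hg η).1 (ind_le_one _)⟩
  have hi' : ∀ (E : Prop) η, 0 ≤ ind E * g η ∧ ind E * g η ≤ c := fun E η =>
    ⟨(hi E η).1, (hi E η).2.trans (hg η).2⟩
  refine ex_mono (wb_bdd (c := c) fun η => ⟨ex_nonneg fun _ _ => (hi' _ _).1,
    ex_le (wb_bdd fun _ => hi' _ _) fun _ _ => (hi' _ _).2⟩)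
    (wb_bdd (c := c) fun η => ⟨ex_nonneg fun _ _ => (hg _).1,
      ex_le (wb_bdd fun _ => hg _) fun _ _ => (hg _).2⟩) fun η _ => ?_
  refine ex_mono (wb_bdd fun _ => hi' _ _) (wb_bdd fun _ => hg _) fun ws _ => ?_
  refine (hi _ _).2.trans_eq ?_
  rw [acs_fst]
  rfl

theorem wb_werr (G : Md) (K n : ℕ) (h : ℝ) (Y : Sys d) (Q Qd : Finset (S d)) (T : ℕ)
    (η : Cfg d) : 0 ≤ werr G K n h Y Q Qd T η ∧ werr G K n h Y Q Qd T η ≤ 1 :=
  ⟨le_min zero_le_one (add_nonneg (add_nonneg (pr_nonneg _ _) (ind_nonneg _)) (by positivity)),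
    min_le_left _ _⟩

/-- `Mart.split` for every height. -/
theorem wb_split {G : Md} {K : ℕ} {M : Amb d} {Φ : Nd d → ℝ} {te : ℕ} {ub : ℝ}
    (h : Mart G K M Φ te ub) (hp : ∀ s ws, M.fl s → M.fl (nx s ws)) {t1 : ℕ} (ht : t1 ≤ te)
    {wb : ℝ} (h0 : 0 ≤ wb) (hu : wb ≤ ub) :
    ∃ Φ' Ψ : Nd d → ℝ, Mart G K M Φ' te wb ∧ Mart G K M Ψ t1 (ub - wb) ∧
      (∀ s, tm s ≤ t1 → Φ s = Φ' s + Ψ s ∧ Φ s - wb ≤ Ψ s) ∧
      ∀ s, t1 ≤ tm s → min wb (Φ s) ≤ Φ' s := by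
  rcases le_total wb 1 with h1 | h1
  · obtain ⟨Φ', Ψ, a, b, c, e, -⟩ := h.split (F := ⟨G, 0, 0, 0, 0, 0⟩) (B := ⟨0, 0, 0, 0, 0, 0⟩)
      (n := 0) hp ht h0 h1 hu
    exact ⟨Φ', Ψ, a, b, c, e⟩
  · refine ⟨Φ, fun _ => 0, h.weaken le_rfl hu, ⟨fun _ => ⟨le_rfl, zero_le_one⟩,
      fun _ _ => (ex_const _ 0).symm, fun s hs hf => ?_⟩,
      fun s _ => ⟨by simp, by linarith [(h.1 s).2]⟩, fun s _ => min_le_right _ _⟩
    linarith [h.2.2 s (hs.trans ht) hf, (h.1 s).2]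

theorem wb_rv (F : Fr) (B : Bs) (K n l : ℕ) (pc : ℝ) (H : Mc d) (m : ℕ) (σ : St d) (c : ℝ) :
    rv F B K n l pc H m σ (fun _ => c) = c * rv F B K n l pc H m σ fun _ => ind True := by
  unfold rv
  rw [← ex_mul_left]
  refine ex_congr fun o _ => ?_
  cases o <;> simp [ind]

theorem wb_num {th : ℝ} (h : 0 < th) : ∀ᶠ n : ℕ in atTop, (3 * 2 ^ n + 1) * er n ≤ e2 n * th := by
  filter_upwards [(tendsto_pow_atTop_atTop_of_one_lt (one_lt_two (α := ℝ))).eventually_ge_atTop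
    (4 / th)] with n hn
  obtain ⟨h1, -, h2⟩ := er_le_e2 n
  rw [← h2, mul_right_comm]
  refine mul_le_mul_of_nonneg_right ?_ h1.le
  have h3 : (1 : ℝ) ≤ 2 ^ n := one_le_pow₀ one_le_two
  rw [div_le_iff₀ h] at hn
  rw [two_mul, pow_add]
  nlinarith

theorem wb_card {n L : ℕ} {Y : Finset (S d)} (hY : Y.card ≤ 2) (hL : L ≤ 2 ^ n)
    (h : 2 * (2 ^ (4 * n + 3) + 1) ^ d ≤ 2 ^ (5 * n * d)) : (wQ Y L).card ≤ 2 ^ (5 * n * d) := by
  refine (card_wQ _ _).trans (le_trans ?_ h)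
  refine Nat.mul_le_mul hY (Nat.pow_le_pow_left ?_ _)
  have h1 : 2 ^ (n + 2) ≤ 2 ^ (4 * n + 3) := Nat.pow_le_pow_right two_pos (by omega)
  rw [pow_add] at h1
  omega

end Pool.Agent.Lib.MP_dd0771_pr.Sc
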