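import Pool.Agent.Lib.MP_dd0771_pr.Sc.Kit
import Pool.Agent.Lib.MP_dd0771_pr.Sc.WbA

open Filter

namespace Pool.Agent.Lib.MP_dd0771_pr.Sc

theorem s_gen {d : ℕ} {F : Fr} (hd : 2 ≤ d) (hF : F.Ok) (hL : Low d F)
    (hENGW : S_ENGW d F) :
    S_GEN d F := by
  intro B hB
  have hth := thp_pos hB
  have hm0 : 0 < min 1 B.thp := lt_min one_pos hth
  filter_upwards [hENGW B hB, hL.hWERR B hB, card_le (d := d) (by omega),
    wb_num (pow_pos hm0 2)] with n hE hW hcd hnum K hK l0 l pc M Φ te ub vb Vb C Y O m t ty kp v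
    l1 l2 hC hM hΦ hu0 hte hm hA hO hVb hvb hv hrv hc
  have hp4 : B.p 4 = B.pa + 4 * B.g := by simp [Bs.p]
  have hg := hB.2.1
  have hkp : KP F K C.1 := hK.kp hF hB hC.1 (by linarith [hC.2.1, hC.2.2.1])
  have her := (er_le_e2 n).1
  have h0 : 0 ≤ vb := (hv (0, ∅)).1.trans (hv _).2
  have hY := hA.1.2.1
  set we : Cfg d → ℝ := werr F.toMd K n (hh F B K pc) (wMc K C Y O).sy (wQ Y C.2) (wQ Y C.2)
    (m * sb F B n l) with hwe
  have bw : ∀ η, 0 ≤ we η ∧ we η ≤ 1 := fun _ => wb_werr _ _ _ _ _ _ _ _ _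
  have hme : (0 : ℝ) ≤ m * er n := by positivity
  have ha : ∀ η, 0 ≤ we η + m * er n ∧ we η + m * er n ≤ 1 + m * er n := fun η => by
    constructor <;> linarith [(bw η).1, (bw η).2]
  have hEx : wEv F.toMd K B.n0 C Y (fun σ => we σ.1 + m * er n) ≤ 3 * 2 ^ n * er n := by
    refine (wb_wEv_le ((hL.hSTAT K C.1 (wQ Y C.2) hkp).2.1 _) ha).trans ?_
    rw [ex_add _ (.of01 bw) (.const _), ex_const]
    have h1 : ex (mu F.toMd K C.1 (wQ Y C.2)) we ≤ er n :=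
      hW K hK pc C.1 _ _ _ _ (hC.1.trans hC.2.1) hC.2.2.1 hkp.2.1 (by linarith [hC.2.1])
        (wZ_subset_wQ _ _) subset_rfl (wb_card hY hC.2.2.2.2 hcd) hm
    have h2 : 1 ≤ sb F B n l := by have := hB.2.2.2.2.2.2.2; unfold sb sq; omega
    have h3 : m + 1 ≤ 3 * 2 ^ n := by
      have h4 := (Nat.le_mul_of_pos_right m h2).trans hm
      have h5 : 0 < 2 ^ n := by positivity
      rw [pow_succ] at h4
      omega
    have h6 : (m : ℝ) + 1 ≤ 3 * 2 ^ n := by exact_mod_cast h3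
    linarith [mul_le_mul_of_nonneg_right h6 her.le]
  refine (Val.of_state (n := n) (l := l0) (t := t) hB (vb := vb) (Vb := Vb)
    (V := fun σ => rv F B K n l pc (wMc K C Y O) m σ v) (e := fun σ => we σ.1 + m * er n) hΦ.1
    (fun σ => ⟨(rv_bounds B n l pc _ m σ hv).1, hrv σ⟩) (fun σ => (ha _).1)
    (wb_bdd fun σ => ha _) h0
    (fun s hs hf => hVb.trans (hvb.trans (hΦ.2.2 s (by omega) hf)))
    (fun s σ hs hR hV => hE K hK l pc M Φ te ub vb C Y O m s σ ty kp v l1 l2 hC hM hΦ (by omega)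
      (by omega) hm hA hO hvb hv (by rwa [hs]) hR hV)).mono ?_
  have h7 : min 1 B.thp ^ 2 ≤ B.thp ^ Y.card :=
    (pow_le_pow_of_le_one hm0.le (min_le_left _ _) hY).trans
      (pow_le_pow_left₀ hm0.le (min_le_right _ _) _)
  have h8 := pow_pos hth Y.card
  have h9 : (3 * 2 ^ n + 1) * er n ≤ e2 n * B.thp ^ Y.card :=
    hnum.trans (mul_le_mul_of_nonneg_left h7 (her.le.trans (er_le_e2 n).2.1))
  have h10 : ∀ X Ee : ℝ, Ee ≤ 3 * 2 ^ n * er n →
      X / B.thp ^ Y.card - e2 n * vb ≤ (X - vb * Ee - Vb * er n) / B.thp ^ Y.card :=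
    fun X Ee h => by
      rw [le_div_iff₀ h8, sub_mul, div_mul_cancel₀ _ h8.ne']
      linarith [mul_le_mul_of_nonneg_left h h0, mul_le_mul_of_nonneg_left h9 h0,
        mul_le_mul_of_nonneg_right hVb her.le]
  linarith [h10 (wEv F.toMd K B.n0 C Y fun σ => rv F B K n l pc (wMc K C Y O) m σ v) _ hEx]

end Pool.Agent.Lib.MP_dd0771_pr.Sc
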