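import Pool.Agent.Lib.MP_dd0771_pr.Sc.Kit

open Filter

namespace Pool.Agent.Lib.MP_dd0771_pr.Sc

variable {d : ℕ} {F : Fr}

theorem hit_werr01 (G : Md) (K n : ℕ) (h : ℝ) (Y : Sys d) (Q Qd : Finset (S d)) (T : ℕ)
    (η : Cfg d) : 0 ≤ werr G K n h Y Q Qd T η ∧ werr G K n h Y Q Qd T η ≤ 1 :=
  ⟨le_min zero_le_one (add_nonneg (add_nonneg (pr_nonneg _ _) (ind_nonneg _)) (by positivity)),
    min_le_left _ _⟩

/-- A function of the configuration at time `n0` has the stationary mean. -/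
theorem hit_wEv_le (hS : S_STAT d F) {K n0 : ℕ} {C : Ty} (hK : KP F K C.1) (Y : Finset (S d))
    {f : Cfg d → ℝ} (hf : ∀ η, 0 ≤ f η ∧ f η ≤ 1) :
    wEv F.toMd K n0 C Y (fun σ => f σ.1) ≤ ex (mu F.toMd K C.1 (wQ Y C.2)) f := by
  have hb : Bdd f := .of01 hf
  have h1 : ∀ (E : Prop) η, 0 ≤ ind E * f η ∧ ind E * f η ≤ 1 := fun E η =>
    ⟨mul_nonneg (ind_nonneg _) (hf η).1, mul_le_one₀ (ind_le_one _) (hf η).1 (hf η).2⟩
  conv_rhs => rw [← (hS K C.1 (wQ Y C.2) hK).2.1 n0, ex_bind _ _ hb]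
  refine ex_mono (Bdd.ex (.of01 fun _ => h1 _ _) _)
    (Bdd.ex (f := fun _ => f) (hb.comp _) _) fun η _ => ?_
  rw [ex_map _ _ hb]
  refine ex_mono (.of01 fun _ => h1 _ _) (hb.comp _) fun ws _ => ?_
  beta_reduce
  rw [acs_fst]
  exact mul_le_of_le_one_left (hf _).1 (ind_le_one _)

theorem s_hit {d : ℕ} {F : Fr} (hd : 2 ≤ d) (hF : F.Ok) (hL : Low d F)
    :
    S_HIT d F := by
  intro B hB
  have tp := thp_pos hB
  filter_upwards [hL.hTRACK, hL.hWERR B hB, le_of_Lmin hF B, card_le (d := d) (by omega),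
    er_small (half_pos tp)] with n h1 h2 h3 h4 h5 K hK l0 pc M Φ te ub w C y T t P hC hM hΦ hu ht
    hT hA w0 wu hP hw
  obtain ⟨c1, c2, c3, c4, c5⟩ := hC
  have g0 := hB.2.1
  have p4 : B.p 4 = B.pa + 4 * B.g := by simp [Bs.p]
  have hT' : T ≤ 2 ^ (n + 1) := hT.trans (Nat.pow_le_pow_right two_pos n.le_succ)
  have q1 : wQ {y} C.2 ⊆ M.Q := hA.2.1.trans hM.1
  have key := Val.of_state (K := K) (n := n) (l := l0) (M := M) (Φ := Φ) (C := C) (Y := {y})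
    (t := t) hB (Vb := w) (vb := w)
    (V := fun σ => w * ex (wls F.toMd (al K (wQ {y} C.2)) T) fun ws =>
      ind (∃ u, u ≤ T ∧ P (tj F.toMd ⟨al K (wQ {y} C.2), wZ {y} C.2⟩ σ ws u)))
    (e := fun σ => werr F.toMd K n (hh F B K pc) ⟨al K (wQ {y} C.2), wZ {y} C.2⟩ (wQ {y} C.2)
      (wQ {y} C.2) T σ.1) hΦ.1
    (fun σ => ⟨mul_nonneg w0 (pr_nonneg _ _), mul_le_of_le_one_right w0 (pr_le_one _ _)⟩)
    (fun σ => (hit_werr01 ..).1) (.of01 fun σ => hit_werr01 ..) w0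
    (fun s e f => wu.trans (hΦ.2.2 s (by omega) f)) fun s σ e hr hv => by
      have a1 := h1 K M.Q _ M.Q _ M.Z {y} C.2 T (hh F B K pc) σ (M.st F.toMd K s) q1 subset_rfl
        subset_rfl q1 subset_rfl hA.2.2 (by simp) (by have := (h3 _ c4).2.2.2; omega) c5 hT' hr hv
      have a2 := hΦ.stop s (T := T) (by omega) w0
      rw [← ex_wls_flt hF (al_mono K q1) T (.ind _) fun ws => by rw [tj_flt _ subset_rfl]]
      refine le_trans ?_ a2
      rw [← mul_sub]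
      refine mul_le_mul_of_nonneg_left (sub_le_iff_le_add.2
        ((pr_le_add fun ws _ => ?_).trans (add_le_add le_rfl a1))) w0
      rintro ⟨u, u1, u2⟩
      have tn : ∀ u, u ≤ T → t ≤ tm (nx s (ws.take u)) ∧ tm (nx s (ws.take u)) ≤ t + T :=
        fun u hu => by rw [tm_nx, List.length_take]; omega
      by_cases hs : ∀ u', u' ≤ u → ¬ Sparse (n ^ 2) (hh F B K pc) (wQ {y} C.2)
        (ms (al K M.Q) (M.st F.toMd K s).1 (ws.take u'))
      · by_cases hi : tj F.toMd ⟨al K (wQ {y} C.2), wZ {y} C.2⟩ σ ws u ⊆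
          tj F.toMd ⟨al K M.Q, M.Z⟩ (M.st F.toMd K s) ws u
        · refine Or.inl ⟨u, u1, hw _ (tn u u1).1 (tn u u1).2 ?_⟩
          rw [st_nx]
          exact hP _ _ hi u2
        · exact Or.inr ⟨u, u1, Or.inl hi, hs⟩
      · push Not at hs
        obtain ⟨u', b1, x, b2, b3⟩ := hs
        have b4 := tn u' (b1.trans u1)
        refine Or.inl ⟨u', b1.trans u1, wu.trans (hΦ.2.2 _ (by omega) ?_)⟩
        by_contra hn
        refine hM.2.2.2 _ hn _ (hu.trans b4.1) le_rfl ⟨x, b2.trans hA.2.1, ?_⟩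
        rw [cut_self le_rfl, st_nx, acs_fst]
        exact b3
  refine key.mono ?_
  have e1 := (hit_wEv_le (n0 := B.n0) hL.hSTAT (hK.kp hF hB c1 (by linarith)) {y} fun η =>
    hit_werr01 F.toMd K n (hh F B K pc) ⟨al K (wQ {y} C.2), wZ {y} C.2⟩ (wQ {y} C.2)
      (wQ {y} C.2) T η).trans (h2 K hK pc C.1 _ _ _ T (c1.trans c2) c3 (hB.1.trans c1)
      (by linarith) (wZ_subset_wQ _ _) subset_rfl ((card_wQ _ _).trans (le_trans ?_ h4)) hT')
  · have e2' : cP F.toMd K C y (B.n0 + T) (fun I => (I B.n0).Nonempty ∧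
        ∃ u, B.n0 ≤ u ∧ u ≤ B.n0 + T ∧ P (I u)) ≤ wEv F.toMd K B.n0 C {y} fun σ =>
          ex (wls F.toMd (al K (wQ {y} C.2)) T) fun ws =>
            ind (∃ u, u ≤ T ∧ P (tj F.toMd ⟨al K (wQ {y} C.2), wZ {y} C.2⟩ σ ws u)) := by
      rw [wEv_ex T (f := fun I => ind (∃ u, u ≤ T ∧ P (I u))) (.ind _), wQ_single, wZ_single, cP, wP]
      refine wX_mono (.ind _) ((Bdd.ind _).mul (.ind _)) fun I hI => ?_
      rw [← ind_and]
      refine ind_mono fun ⟨⟨x, hx⟩, u, a, b, c⟩ => ⟨fun z hz => ?_, u - B.n0, by omega, ?_⟩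
      · exact ⟨x, hx, Finset.mem_singleton.1 hz ▸ hI.2.1 _ hx⟩
      · beta_reduce; rwa [Nat.add_sub_cancel' a]
    rw [wEv_mul, Finset.card_singleton, pow_one]
    have e3 : er n = e2 n * e2 n := by rw [er, e2, ← pow_add]; congr 1; ring
    have e4 : 0 ≤ e2 n := by rw [e2]; positivity
    have e5 : 2 * er n ≤ e2 n * B.thp := by rw [e3]; nlinarith [h5.2.1]
    rw [← mul_sub, ← mul_sub, mul_div_assoc, mul_comm (tol l0), ← mul_sub]
    refine mul_le_mul_of_nonneg_left ?_ w0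
    rw [sub_right_comm, sub_le_sub_iff_right, le_div_iff₀ tp, sub_mul, div_mul_cancel₀ _ tp.ne']
    linarith
  · rw [Finset.card_singleton, one_mul]
    refine le_trans (Nat.pow_le_pow_left ?_ d) (Nat.le_mul_of_pos_left _ two_pos)
    have : 2 ^ n * 4 ≤ 2 ^ (4 * n + 3) := by
      rw [show 4 = 2 ^ 2 by rfl, ← pow_add]
      exact Nat.pow_le_pow_right two_pos (by omega)
    omega

end Pool.Agent.Lib.MP_dd0771_pr.Sc
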