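import Pool.Agent.Lib.MP_dd0771_pr.Sc.Kit

open Filter

namespace Pool.Agent.Lib.MP_dd0771_pr.Sc

/-- The time part of the potential. -/
noncomputable def hovH (g : ℝ) (T t1 t : ℕ) : ℝ :=
  if t < t1 then 2 * g * (2 * ((t1 : ℝ) - t) / T + 1) else 0

theorem hovH_ge {g : ℝ} {T t1 t : ℕ} (hg : 0 ≤ g) (ht : t < t1) : 2 * g ≤ hovH g T t1 t := by
  rw [hovH, if_pos ht]
  have : (0 : ℝ) ≤ 2 * ((t1 : ℝ) - t) / T :=
    div_nonneg (by linarith [(Nat.cast_lt.2 ht : (t : ℝ) < t1)]) (Nat.cast_nonneg _)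
  nlinarith

theorem hovH_nonneg {g : ℝ} (hg : 0 ≤ g) (T t1 t : ℕ) : 0 ≤ hovH g T t1 t := by
  by_cases ht : t < t1
  · linarith [hovH_ge (T := T) hg ht]
  · rw [hovH, if_neg ht]

theorem hovH_step {g : ℝ} {T t1 t : ℕ} (hg : 0 ≤ g) (hT : 1 ≤ T) (ht : t < t1) (τ : ℕ) :
    hovH g T t1 (t + τ) ≤ hovH g T t1 t - 2 * g + 2 * g * ind (2 * τ < T) := by
  have i0 := mul_nonneg hg (ind_nonneg (2 * τ < T))
  by_cases h : t + τ < t1
  · have T0 : (0 : ℝ) < T := Nat.cast_pos.2 hT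
    have e : hovH g T t1 (t + τ) = hovH g T t1 t - 2 * g * (2 * τ / T) := by
      rw [hovH, hovH, if_pos h, if_pos ht]
      push_cast
      ring
    rw [e]
    by_cases c : 2 * τ < T
    · rw [ind_pos c]
      have : 0 ≤ g * (2 * (τ : ℝ) / T) := by positivity
      linarith
    · have : (1 : ℝ) ≤ 2 * τ / T := by
        rw [le_div_iff₀ T0, one_mul]
        exact_mod_cast not_lt.1 c
      nlinarith
  · have := hovH_ge (T := T) hg ht
    rw [hovH, if_neg h]
    linarith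

theorem s_hov {d : ℕ} {F : Fr} (hd : 2 ≤ d) (hF : F.Ok)
    :
    S_HOV d F := by
  intro B K n pc C C' T M Φ te ub x ρ γ w t1 hB hP hT hC hC' hM hΦ hρ hγ hw hub hte hA hV
  obtain ⟨-, -, -, -, -, e0, e1, -⟩ := id hB
  obtain ⟨D, hD⟩ : ∃ D, D = d * (C.2 : ℝ) ^ 2 / ρ ^ 2 := ⟨_, rfl⟩
  have D0 : 0 ≤ D := by rw [hD]; positivity
  have g0 : 0 ≤ D + 5 * B.eps := by linarith
  have r2 : 0 < ρ ^ 2 := by positivity
  have inside : ∀ y t, 0 < 1 - eu (y - x) / ρ ^ 2 - γ - hovH (D + 5 * B.eps) T t1 t →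
      eu (y - x) < ρ ^ 2 := fun y t h => by
    rw [← div_lt_one r2]
    linarith [hovH_nonneg g0 T t1 t]
  have main : ∀ j y t, t1 - t = j → M.u0 ≤ t → t < t1 → Val F B K n (ls n) M Φ C {y} t
      (w * (1 - eu (y - x) / ρ ^ 2 - γ - hovH (D + 5 * B.eps) T t1 t)) := by
    intro j
    induction j using Nat.strong_induction_on with
    | _ j ih =>
    intro y t hj hu ht
    rcases le_or_gt (1 - eu (y - x) / ρ ^ 2 - γ - hovH (D + 5 * B.eps) T t1 t) 0 with h0 | h0
    · exact Val.nonpos (fun s => (hΦ.1 s).1) (mul_nonpos_of_nonneg_of_nonpos hw h0)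
    obtain ⟨κ, k1, k2, k3, k4, k5⟩ := hP y
    refine (k5 M Φ te t ub w (fun p => if t + p.2 < t1 then C else C')
      (fun p => w * (1 - eu (y + p.1 - x) / ρ ^ 2 - γ - hovH (D + 5 * B.eps) T t1 (t + p.2)))
      hM hΦ hu (by omega) (hA y (inside y t h0)).1 hw hub (fun p _ => ?_) fun p hp hpos => ?_).mono
      ?_
    · refine mul_le_of_le_one_right hw ?_
      linarith [hovH_nonneg g0 T t1 (t + p.2), div_nonneg (eu_nonneg (y + p.1 - x)) r2.le]
    · have hin := inside _ _ (pos_of_mul_pos_right hpos hw)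
      obtain ⟨-, b1, b2⟩ := k2 p hp
      by_cases c : t + p.2 < t1
      · simp only [if_pos c]
        exact ⟨hC, wZ_single (y + p.1) C.2 ▸ (hA _ hin).1.2.2,
          ih _ (by omega) _ _ rfl (by omega) c⟩
      · simp only [if_neg c]
        refine ⟨hC', (hA _ hin).2, ?_⟩
        rw [hovH, if_neg c, sub_zero]
        exact hV _ _ hin (not_lt.1 c) (by omega)
    · obtain ⟨a, ha⟩ : ∃ a, a = 1 - eu (y - x) / ρ ^ 2 - γ - hovH (D + 5 * B.eps) T t1 t :=
        ⟨_, rfl⟩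
      have a1 : a + 2 * (D + 5 * B.eps) ≤ 1 := by
        linarith [hovH_ge (T := T) g0 ht, div_nonneg (eu_nonneg (y - x)) r2.le]
      have low : κ.E (fun p => w * ((a + D + 10 * B.eps) * 1 +
          (∑ i, (-2 * ((y - x) i : ℝ) / ρ ^ 2) * (p.1 i : ℝ) +
            (-2 * (D + 5 * B.eps)) * ind (2 * p.2 < T)))) ≤
          κ.E fun p => w * (1 - eu (y + p.1 - x) / ρ ^ 2 - γ -
            hovH (D + 5 * B.eps) T t1 (t + p.2)) := by
        refine Law.E_mono k1 fun p hp => mul_le_mul_of_nonneg_left ?_ hw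
        have s1 := hovH_step g0 hT ht p.2
        have s2 : eu p.1 / ρ ^ 2 ≤ D := by
          rw [hD]
          refine div_le_div_of_nonneg_right ((eu_le _).trans ?_) r2.le
          exact mul_le_mul_of_nonneg_left (pow_le_pow_left₀ (Nat.cast_nonneg _)
            (Nat.cast_le.2 (k2 p hp).1) 2) (Nat.cast_nonneg _)
        have s3 : ∑ i, (-2 * ((y - x) i : ℝ) / ρ ^ 2) * (p.1 i : ℝ) =
            -(2 * (∑ i, ((y - x) i : ℝ) * p.1 i) / ρ ^ 2) := by
          rw [Finset.mul_sum, Finset.sum_div, ← Finset.sum_neg_distrib]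
          exact Finset.sum_congr rfl fun i _ => by ring
        rw [add_sub_right_comm, eu_add, add_div, add_div, s3]
        linarith
      rw [Law.E_mul, Law.E_add, Law.E_add, Law.E_mul, Law.E_mul, Law.E_sum,
        Finset.sum_eq_zero fun i _ => by rw [Law.E_mul, k3, mul_zero]] at low
      rw [← ha] at h0 ⊢
      have m1 := mul_le_mul_of_nonneg_left k1.2.1 (show 0 ≤ a + D + 10 * B.eps by linarith)
      have m2 := mul_le_mul_of_nonneg_left k4 g0
      have m3 : a + 2 * B.eps ≤ (a + D + 10 * B.eps) * κ.E (fun _ => 1) +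
          (0 + -2 * (D + 5 * B.eps) * κ.E fun p => ind (2 * p.2 < T)) := by
        nlinarith [mul_le_mul_of_nonneg_left a1 e0.le, mul_nonneg e0.le D0]
      nlinarith [mul_le_mul_of_nonneg_left m3 hw]
  intro y t hu ht
  have := main _ y t rfl hu ht
  rwa [hovH, if_pos ht, hD] at this

end Pool.Agent.Lib.MP_dd0771_pr.Sc
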