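import Pool.Agent.Lib.MP_dd0771_pr.Sc.Kit2
import Pool.Agent.Lib.MP_dd0771_pr.Sc.Det1

open Filter

namespace Pool.Agent.Lib.MP_dd0771_pr.Sc

variable {d : ℕ} {F : Fr}

/-- Weighted sum of `f` over the words of length `N` in the alphabet `A`. -/
noncomputable def wd1I {α : Type} (r : α → ℝ) (A : Finset α) : ℕ → (List α → ℝ) → ℝ
  | 0, f => f []
  | N + 1, f => ∑ a ∈ A, r a * wd1I r A N fun l => f (a :: l)

theorem wd1_bound {α : Type} {r : α → ℝ} (hr : ∀ a, 0 ≤ r a) (A : Finset α) {M : ℝ} (N : ℕ) :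
    ∀ f : List α → ℝ, (∀ l, |f l| ≤ M) → |wd1I r A N f| ≤ M * (∑ a ∈ A, r a) ^ N := by
  induction N with
  | zero => intro f hf; simpa [wd1I] using hf []
  | succ N ih =>
    intro f hf
    rw [wd1I]
    refine le_trans (Finset.abs_sum_le_sum_abs _ _) ?_
    calc ∑ a ∈ A, |r a * wd1I r A N fun l => f (a :: l)|
        ≤ ∑ a ∈ A, r a * (M * (∑ a ∈ A, r a) ^ N) := by
          refine Finset.sum_le_sum fun a _ => ?_
          rw [abs_mul, abs_of_nonneg (hr a)]
          exact mul_le_mul_of_nonneg_left (ih _ fun l => hf _) (hr a)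
      _ = _ := by rw [← Finset.sum_mul]; ring

theorem wd1_congr {α : Type} (r : α → ℝ) (A : Finset α) (N : ℕ) :
    ∀ f g : List α → ℝ, (∀ l : List α, l.length = N → (∀ a ∈ l, a ∈ A) → f l = g l) →
      wd1I r A N f = wd1I r A N g := by
  induction N with
  | zero => intro f g h; exact h [] rfl (by simp)
  | succ N ih =>
    intro f g h
    rw [wd1I, wd1I]
    refine Finset.sum_congr rfl fun a ha => ?_
    rw [ih _ (fun l => g (a :: l)) fun l hl hA => h _ (by simp [hl]) (by
      intro b hb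
      rcases List.mem_cons.mp hb with rfl | hb
      · exact ha
      · exact hA b hb)]

theorem wd1_zero {α : Type} (r : α → ℝ) (A : Finset α) (N : ℕ) : wd1I r A N (fun _ => 0) = 0 := by
  induction N with
  | zero => rfl
  | succ N ih => rw [wd1I]; simp [ih]

theorem wd1_point {α : Type} (r : α → ℝ) (A : Finset α) :
    ∀ w : List α, (∀ a ∈ w, a ∈ A) → wd1I r A w.length (fun l => ind (l = w)) = (w.map r).prod := by
  intro w
  induction w with
  | nil => intro _; exact ind_pos rfl
  | cons b w ih =>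
    intro h
    rw [List.length_cons, wd1I, Finset.sum_eq_single b, List.map_cons, List.prod_cons,
      ← ih fun a ha => h a (List.mem_cons_of_mem _ ha)]
    · congr 2
      funext l
      simp
    · intro a _ hab
      rw [wd1_congr r A _ _ (fun _ => 0) fun l _ _ => ind_neg (by simp [hab]), wd1_zero, mul_zero]
    · intro hb
      exact absurd (h b List.mem_cons_self) hb

/-- Shuffle rule. -/
theorem wd1_shuffle {α : Type} [DecidableEq α] (r : α → ℝ) (A B : Finset α) (N : ℕ) :
    ∀ f g : List α → ℝ,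
      wd1I r A N (fun l => f (l.filter fun a => a ∈ B) * g (l.filter fun a => a ∉ B)) =
        ∑ p ∈ Finset.HasAntidiagonal.antidiagonal N,
          (N.choose p.1 : ℝ) * (wd1I r (A ∩ B) p.1 f * wd1I r (A \ B) p.2 g) := by
  induction N with
  | zero => intro f g; simp [wd1I]
  | succ N ih =>
    intro f g
    rw [Finset.sum_antidiagonal_choose_succ_mul
      (fun i j => wd1I r (A ∩ B) i f * wd1I r (A \ B) j g), wd1I,
      ← Finset.sum_sdiff (Finset.inter_subset_left (s₁ := A) (s₂ := B)), Finset.sdiff_inter_self_left]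
    congr 1
    · have h : ∀ a ∈ A \ B, r a * wd1I r A N (fun l => f ((a :: l).filter fun a => a ∈ B) *
          g ((a :: l).filter fun a => a ∉ B)) = ∑ p ∈ Finset.HasAntidiagonal.antidiagonal N, (N.choose p.1 : ℝ) *
            (wd1I r (A ∩ B) p.1 f * (r a * wd1I r (A \ B) p.2 fun l => g (a :: l))) := by
        intro a ha
        have hB := (Finset.mem_sdiff.mp ha).2
        have := ih f fun l => g (a :: l)
        simp only [List.filter_cons, hB, decide_false, not_false_eq_true, decide_true, if_true,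
          Bool.false_eq_true, if_false]
        rw [this, Finset.mul_sum]
        exact Finset.sum_congr rfl fun p _ => by ring
      rw [Finset.sum_congr rfl h, Finset.sum_comm]
      refine Finset.sum_congr rfl fun p _ => ?_
      rw [wd1I, Finset.mul_sum, Finset.mul_sum]
    · have h : ∀ a ∈ A ∩ B, r a * wd1I r A N (fun l => f ((a :: l).filter fun a => a ∈ B) *
          g ((a :: l).filter fun a => a ∉ B)) = ∑ p ∈ Finset.HasAntidiagonal.antidiagonal N, (N.choose p.2 : ℝ) *
            ((r a * wd1I r (A ∩ B) p.1 fun l => f (a :: l)) * wd1I r (A \ B) p.2 g) := by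
        intro a ha
        have hB := (Finset.mem_inter.mp ha).2
        have := ih (fun l => f (a :: l)) g
        simp only [List.filter_cons, hB, decide_false, not_true_eq_false, decide_true, if_true,
          Bool.false_eq_true, if_false]
        rw [this, Finset.mul_sum]
        refine Finset.sum_congr rfl fun p hp => ?_
        rw [Nat.choose_symm_of_eq_add (Finset.HasAntidiagonal.mem_antidiagonal.mp hp).symm]
        ring
      rw [Finset.sum_congr rfl h, Finset.sum_comm]
      refine Finset.sum_congr rfl fun p _ => ?_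
      rw [wd1I, Finset.sum_mul, Finset.mul_sum]

theorem rt_nonneg (hF : F.Ok) (a : Lt d) : 0 ≤ rt F.toMd a := by
  obtain ⟨x, q⟩ := a
  cases q with
  | none => exact hF.2.2.1
  | some q => exact div_nonneg (le_trans hF.1.le (hF.2.1 _).1) (by positivity)

theorem ex_lw (hF : F.Ok) {A : Finset (Lt d)} (h : 0 < ∑ a ∈ A, rt F.toMd a) (f : Lt d → ℝ) :
    ex (lw F.toMd A) f = (∑ a ∈ A, rt F.toMd a * f a) / ∑ a ∈ A, rt F.toMd a := by
  have hz : ∀ a ∉ A, (if a ∈ A then rt F.toMd a else 0) = 0 := fun a ha => if_neg ha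
  have ht : (∑' a, if a ∈ A then rt F.toMd a else 0) = ∑ a ∈ A, rt F.toMd a := by
    rw [tsum_eq_sum hz]
    exact Finset.sum_congr rfl fun a ha => if_pos ha
  have hp : ∀ a, (lw F.toMd A a).toReal =
      (if a ∈ A then rt F.toMd a else 0) / ∑ a ∈ A, rt F.toMd a := by
    intro a
    rw [← ht]
    refine ofW_apply _ (fun a => ?_) (summable_of_ne_finset_zero hz) (by rw [ht]; exact h) a
    split_ifs
    · exact rt_nonneg hF a
    · exact le_rfl
  rw [ex, tsum_eq_sum (s := A) fun a ha => by rw [hp, hz a ha, zero_div, zero_mul], Finset.sum_div]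
  refine Finset.sum_congr rfl fun a ha => ?_
  rw [hp, if_pos ha]
  ring

theorem wd1_iid (hF : F.Ok) (A : Finset (Lt d)) (N : ℕ) : ∀ f : Word d → ℝ, Bdd f →
    (∑ a ∈ A, rt F.toMd a) ^ N * ex (iid (lw F.toMd A) N) f = wd1I (rt F.toMd) A N f := by
  induction N with
  | zero => intro f _; rw [pow_zero, one_mul, iid, ex_pure, wd1I]
  | succ N ih =>
    intro f hf
    rw [wd1I]
    rcases (Finset.sum_nonneg fun a (_ : a ∈ A) => rt_nonneg hF a).eq_or_lt with h | h
    · rw [← h, zero_pow (Nat.succ_ne_zero _), zero_mul]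
      refine (Finset.sum_eq_zero fun a ha => ?_).symm
      rw [(Finset.sum_eq_zero_iff_of_nonneg fun a _ => rt_nonneg hF a).mp h.symm a ha, zero_mul]
    · rw [ex_iid_succ _ _ hf, ex_lw hF h, pow_succ, mul_assoc, mul_div_cancel₀ _ h.ne',
        Finset.mul_sum]
      refine Finset.sum_congr rfl fun a _ => ?_
      rw [← ih _ (hf.comp _)]
      ring

theorem ex_wl (hF : F.Ok) (A : Finset (Lt d)) {f : Word d → ℝ} (hf : Bdd f) :
    ex (wl F.toMd A) f = ∑' N : ℕ, Real.exp (-∑ a ∈ A, rt F.toMd a) *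
      (∑ a ∈ A, rt F.toMd a) ^ N / N.factorial * ex (iid (lw F.toMd A) N) f := by
  have h0 : 0 ≤ ∑ a ∈ A, rt F.toMd a := Finset.sum_nonneg fun a _ => rt_nonneg hF a
  have hs := NormedSpace.expSeries_div_hasSum_exp (∑ a ∈ A, rt F.toMd a)
  rw [← Real.exp_eq_exp_ℝ] at hs
  rw [wl, ex_bind _ _ hf, ex]
  refine tsum_congr fun N => ?_
  rw [ofW_apply _ (fun N => by positivity) hs.summable (by rw [hs.tsum_eq]; exact Real.exp_pos _),
    hs.tsum_eq, Real.exp_neg]
  ring

theorem wd1_ex (hF : F.Ok) (A : Finset (Lt d)) {f : Word d → ℝ} (hf : Bdd f) :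
    ex (wl F.toMd A) f = Real.exp (-∑ a ∈ A, rt F.toMd a) *
      ∑' N : ℕ, wd1I (rt F.toMd) A N f / N.factorial := by
  rw [ex_wl hF A hf, ← tsum_mul_left]
  refine tsum_congr fun N => ?_
  rw [← wd1_iid hF A N f hf]
  ring

theorem wd1_summable (hF : F.Ok) (A : Finset (Lt d)) {f : Word d → ℝ} (hf : Bdd f) :
    Summable fun N : ℕ => ‖wd1I (rt F.toMd) A N f / N.factorial‖ := by
  obtain ⟨M, hM⟩ := hf
  refine Summable.of_nonneg_of_le (fun _ => norm_nonneg _) (fun N => ?_)
    ((Real.summable_pow_div_factorial (∑ a ∈ A, rt F.toMd a)).mul_left M)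
  rw [Real.norm_eq_abs, abs_div, Nat.abs_cast, ← mul_div_assoc]
  exact div_le_div_of_nonneg_right (wd1_bound (rt_nonneg hF) A N f hM) (Nat.cast_nonneg _)

/-- The letters inside and outside `B` are independent. -/
theorem wd1_prod (hF : F.Ok) (A B : Finset (Lt d)) {f g : Word d → ℝ} (hf : Bdd f) (hg : Bdd g) :
    ex (wl F.toMd A) (fun w => f (w.filter fun a => a ∈ B) * g (w.filter fun a => a ∉ B)) =
      ex (wl F.toMd (A ∩ B)) f * ex (wl F.toMd (A \ B)) g := by
  rw [wd1_ex hF A ((hf.comp _).mul (hg.comp _)), wd1_ex hF _ hf, wd1_ex hF _ hg, mul_mul_mul_comm,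
    tsum_mul_tsum_eq_tsum_sum_antidiagonal_of_summable_norm (wd1_summable hF _ hf)
      (wd1_summable hF _ hg), ← Real.exp_add,
    ← Finset.sum_sdiff (Finset.inter_subset_left (s₁ := A) (s₂ := B)), Finset.sdiff_inter_self_left]
  congr 1
  · congr 1
    ring
  · refine tsum_congr fun N => ?_
    rw [wd1_shuffle, Finset.sum_div]
    refine Finset.sum_congr rfl fun p hp => ?_
    have hN := Finset.HasAntidiagonal.mem_antidiagonal.mp hp
    have h1 : ((N.choose p.1 : ℕ) : ℝ) * p.1.factorial * p.2.factorial = N.factorial := by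
      rw [← hN]
      exact_mod_cast (by
        rw [Nat.choose_symm_add]
        have := Nat.add_choose_mul_factorial_mul_factorial p.1 p.2
        exact this)
    have h2 : (p.1.factorial : ℝ) ≠ 0 := by positivity
    have h3 : (p.2.factorial : ℝ) ≠ 0 := by positivity
    have h4 : (N.factorial : ℝ) ≠ 0 := by positivity
    rw [div_mul_div_comm, div_eq_div_iff h4 (mul_ne_zero h2 h3), ← h1]
    ring

theorem wl_apply (hF : F.Ok) (A : Finset (Lt d)) (w : Word d) (h : ∀ a ∈ w, a ∈ A) :
    (wl F.toMd A w).toReal =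
      Real.exp (-∑ a ∈ A, rt F.toMd a) * (w.map (rt F.toMd)).prod / w.length.factorial := by
  rw [← ex_ind_eq, pr, wd1_ex hF A (Bdd.ind _), tsum_eq_single w.length, wd1_point _ _ w h,
    mul_div_assoc]
  intro N hN
  rw [wd1_congr _ A _ _ (fun _ => 0) fun l hl _ => ind_neg (by rintro rfl; exact hN hl.symm),
    wd1_zero, zero_div]

theorem wl_mem (hF : F.Ok) {A : Finset (Lt d)} {w : Word d} (h : w ∈ (wl F.toMd A).support) :
    ∀ a ∈ w, a ∈ A := by
  by_contra hn
  have h1 : (wl F.toMd A w).toReal = 0 := by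
    rw [← ex_ind_eq, pr, wd1_ex hF A (Bdd.ind _)]
    have : ∀ N : ℕ, wd1I (rt F.toMd) A N (fun l => ind (l = w)) / N.factorial = 0 := by
      intro N
      rw [wd1_congr _ A _ _ (fun _ => 0) fun l _ hl => ind_neg (by rintro rfl; exact hn hl),
        wd1_zero, zero_div]
    simp [this]
  rcases (ENNReal.toReal_eq_zero_iff _).mp h1 with h2 | h2
  · exact (PMF.mem_support_iff _ _).mp h h2
  · exact PMF.apply_ne_top _ _ h2

theorem wls_mem (hF : F.Ok) {A : Finset (Lt d)} {T : ℕ} {ws : List (Word d)}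
    (h : ws ∈ (wls F.toMd A T).support) : ws.length = T ∧ ∀ w ∈ ws, ∀ a ∈ w, a ∈ A :=
  ⟨iid_length h, fun w hw => wl_mem hF (iid_mem h w hw)⟩

theorem wl_filter (hF : F.Ok) (A B : Finset (Lt d)) :
    (wl F.toMd A).map (fun w => w.filter fun a => a ∈ B) = wl F.toMd (A ∩ B) := by
  refine pmf_ext fun f hf => ?_
  have := wd1_prod hF A B hf (Bdd.const 1)
  rw [ex_const, mul_one] at this
  rw [ex_map _ _ hf, ← this]
  simp only [mul_one]

theorem wls_flt (hF : F.Ok) {A B : Finset (Lt d)} (h : B ⊆ A) (T : ℕ) :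
    (wls F.toMd A T).map (flt B) = wls F.toMd B T := by
  have := iid_map (wl F.toMd A) (fun w => w.filter fun a => a ∈ B) T
  rw [wl_filter hF, Finset.inter_eq_right.mpr h] at this
  exact this

theorem ex_wls_flt (hF : F.Ok) {A B : Finset (Lt d)} (h : B ⊆ A) (T : ℕ) {f : List (Word d) → ℝ}
    (hf : Bdd f) (hB : ∀ ws, f (flt B ws) = f ws) :
    ex (wls F.toMd A T) f = ex (wls F.toMd B T) f := by
  rw [← wls_flt hF h T, ex_map _ _ hf]
  simp only [hB]

theorem wd1_pair {α β : Type} (p : PMF α) (q : PMF β) (a : α) (b : β) :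
    (p.bind fun x => q.map fun y => (x, y)) (a, b) = p a * q b := by
  classical
  rw [PMF.bind_apply, tsum_eq_single a]
  · rw [PMF.map_apply, tsum_eq_single b]
    · simp
    · intro y hy
      simp [hy.symm]
  · intro x hx
    rw [PMF.map_apply]
    simp [hx.symm]

/-- One window: letters of disjoint alphabets are independent. -/
theorem wd1_split (hF : F.Ok) {A B1 B2 : Finset (Lt d)} (h1 : B1 ⊆ A) (h2 : B2 ⊆ A)
    (h : Disjoint B1 B2) :
    (wl F.toMd A).map (fun w => (w.filter fun a => a ∈ B1, w.filter fun a => a ∈ B2)) =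
      (wl F.toMd B1).bind fun w1 => (wl F.toMd B2).map fun w2 => (w1, w2) := by
  ext ⟨w1, w2⟩
  rw [wd1_pair]
  refine (ENNReal.toReal_eq_toReal_iff' (PMF.apply_ne_top _ _)
    (ENNReal.mul_ne_top (PMF.apply_ne_top _ _) (PMF.apply_ne_top _ _))).mp ?_
  have e2 : (A \ B1) ∩ B2 = B2 := Finset.inter_eq_right.mpr fun a ha =>
    Finset.mem_sdiff.mpr ⟨h2 ha, fun h' => Finset.disjoint_left.mp h h' ha⟩
  have key := wd1_prod hF A B1 (Bdd.ind fun l => l = w1)
    (Bdd.ind fun l : Word d => (l.filter fun a => a ∈ B2) = w2)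
  rw [Finset.inter_eq_right.mpr h1] at key
  rw [ENNReal.toReal_mul, ← ex_ind_eq, ← ex_ind_eq, ← ex_ind_eq, pr_map]
  conv_rhs => rw [← e2, ← wl_filter hF, pr_map]
  refine Eq.trans ?_ key
  refine ex_congr fun w _ => ?_
  have : ((w.filter fun a => a ∉ B1).filter fun a => a ∈ B2) = w.filter fun a => a ∈ B2 := by
    rw [List.filter_filter]
    refine List.filter_congr fun a _ => ?_
    by_cases ha : a ∈ B2
    · have : a ∉ B1 := fun h' => Finset.disjoint_left.mp h h' ha
      simp [ha, this]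
    · simp [ha]
  rw [this, ← ind_and]
  simp only [Prod.mk.injEq]

theorem wd1_iid_pair {α β γ : Type} (p : PMF α) (g1 : α → β) (g2 : α → γ) (q1 : PMF β) (q2 : PMF γ)
    (h : p.map (fun a => (g1 a, g2 a)) = q1.bind fun x => q2.map fun y => (x, y)) (T : ℕ) :
    (iid p T).map (fun l => (l.map g1, l.map g2)) =
      (iid q1 T).bind fun l1 => (iid q2 T).map fun l2 => (l1, l2) := by
  induction T with
  | zero => simp [iid, PMF.pure_map]
  | succ T ih =>
    have e1 : (iid p (T + 1)).map (fun l => (l.map g1, l.map g2)) =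
        (p.map fun a => (g1 a, g2 a)).bind fun z =>
          ((iid p T).map fun l => (l.map g1, l.map g2)).map fun y => (z.1 :: y.1, z.2 :: y.2) := by
      rw [iid, PMF.map_bind, PMF.bind_map]
      congr 1
      funext a
      simp only [Function.comp_apply, PMF.map_comp]
      rfl
    rw [e1, h, ih, iid, iid, PMF.bind_bind, PMF.bind_bind]
    congr 1
    funext x
    rw [PMF.bind_map, PMF.bind_map]
    simp only [Function.comp_def, PMF.map_bind, PMF.map_comp]
    exact PMF.bind_comm _ _ _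

/-- Letters of disjoint alphabets are independent. -/
theorem wls_split (hF : F.Ok) {A B1 B2 : Finset (Lt d)} (h1 : B1 ⊆ A) (h2 : B2 ⊆ A)
    (h : Disjoint B1 B2) (T : ℕ) :
    (wls F.toMd A T).map (fun ws => (flt B1 ws, flt B2 ws)) =
      (wls F.toMd B1 T).bind fun ws1 => (wls F.toMd B2 T).map fun ws2 => (ws1, ws2) :=
  wd1_iid_pair _ _ _ _ _ (wd1_split hF h1 h2 h) T

theorem wd1_avoid (hF : F.Ok) {A L : Finset (Lt d)} (h : L ⊆ A) {f : Word d → ℝ} (hf : Bdd f) :
    ex (wl F.toMd A) (fun w => ind (∀ a ∈ w, a ∉ L) * f w) =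
      Real.exp (-∑ a ∈ L, rt F.toMd a) * ex (wl F.toMd (A \ L)) f := by
  have key := wd1_prod hF A L (Bdd.ind fun l : Word d => l = []) hf
  have e := wl_apply hF L [] (by simp)
  rw [← ex_ind_eq, pr] at e
  rw [Finset.inter_eq_right.mpr h, e] at key
  simp only [List.map_nil, List.prod_nil, List.length_nil, Nat.factorial_zero, Nat.cast_one,
    mul_one, div_one] at key
  rw [← key]
  refine ex_congr fun w _ => ?_
  by_cases hw : ∀ a ∈ w, a ∉ L
  · rw [ind_pos hw, ind_pos (List.filter_eq_nil_iff.mpr (by simpa using hw)),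
      List.filter_eq_self.mpr (by simpa using hw)]
  · rw [ind_neg hw, ind_neg (fun h' => hw (by simpa using List.filter_eq_nil_iff.mp h')),
      zero_mul, zero_mul]

/-- Conditioning on the absence of the letters of `L`. -/
theorem ex_wls_avoid (hF : F.Ok) {A L : Finset (Lt d)} (h : L ⊆ A) (T : ℕ)
    {f : List (Word d) → ℝ} (hf : Bdd f) :
    ex (wls F.toMd A T) (fun ws => ind (∀ w ∈ ws, ∀ a ∈ w, a ∉ L) * f ws) =
      Real.exp (-(T : ℝ) * ∑ a ∈ L, rt F.toMd a) * ex (wls F.toMd (A \ L) T) f := by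
  induction T generalizing f with
  | zero => simp [wls, iid, ex_pure, ind_pos]
  | succ T ih =>
    have hb : Bdd fun w : Word d => ex (wls F.toMd (A \ L) T) fun l => f (w :: l) :=
      Bdd.ex (f := fun w l => f (w :: l)) (hf.comp _) _
    rw [wls, wls, ex_iid_succ _ _ ((Bdd.ind _).mul hf), ex_iid_succ _ _ hf]
    have e : ∀ w : Word d, (ex (iid (wl F.toMd A) T) fun l =>
        ind (∀ w' ∈ w :: l, ∀ a ∈ w', a ∉ L) * f (w :: l)) =
        Real.exp (-(T : ℝ) * ∑ a ∈ L, rt F.toMd a) *
          (ind (∀ a ∈ w, a ∉ L) * ex (wls F.toMd (A \ L) T) fun l => f (w :: l)) := by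
      intro w
      rw [mul_left_comm, ← ih (hf.comp fun l => w :: l), ← ex_mul_left]
      refine ex_congr fun l _ => ?_
      rw [List.forall_mem_cons, ind_and, mul_assoc]
    simp only [e]
    rw [ex_mul_left, wd1_avoid hF h hb, ← mul_assoc, ← Real.exp_add]
    congr 2
    push_cast
    ring

end Pool.Agent.Lib.MP_dd0771_pr.Sc
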