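import Pool.Agent.Lib.MP_dd0771_pr.Sc.Kit3
import Pool.Agent.Lib.MP_dd0771_pr.Sc.Wd1
import Pool.Agent.Lib.MP_dd0771_pr.Sc.Det2

/-! Transport of letters, configurations and systems along an isomorphism. -/

open Filter

namespace Pool.Agent.Lib.MP_dd0771_pr.Sc

section
variable {α β : Type}

theorem iso_map_apply (p : PMF α) {g : α → β} (hg : Function.Injective g) (a : α) :
    p.map g (g a) = p a := by
  classical
  rw [PMF.map_apply, tsum_eq_single a]
  · simp
  · intro b hb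
    exact if_neg fun h => hb (hg h).symm

/-- Change of variables along an injection; no boundedness is needed. -/
theorem ex_map_inj (p : PMF α) {g : α → β} (hg : Function.Injective g) (f : β → ℝ) :
    ex (p.map g) f = ex p fun a => f (g a) := by
  unfold ex
  rw [← hg.tsum_eq (f := fun b => (p.map g b).toReal * f b)]
  · simp only [iso_map_apply p hg]
  · intro b hb
    by_contra hn
    refine hb ?_
    have : b ∉ (p.map g).support := fun h => by
      obtain ⟨a, -, ha⟩ := (PMF.mem_support_map_iff _ _ _).1 h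
      exact hn ⟨a, ha⟩
    rw [PMF.mem_support_iff, not_not] at this
    simp [this]

end

variable {d : ℕ} {F : Fr} {G : Md}

/-- Transport of letters. -/
def isoL (ψ : S d ≃ S d) (dm : S d → Dir d ≃ Dir d) : Lt d ≃ Lt d where
  toFun a := (ψ a.1, a.2.map fun q => (dm a.1 q.1, q.2))
  invFun a := (ψ.symm a.1, a.2.map fun q => ((dm (ψ.symm a.1)).symm q.1, q.2))
  left_inv := by rintro ⟨x, _ | q⟩ <;> simp
  right_inv := by rintro ⟨x, _ | q⟩ <;> simp

def isoC (ψ : S d ≃ S d) (η : Cfg d) : Cfg d := fun x => η (ψ.symm x)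
def isoS (ψ : S d ≃ S d) (σ : St d) : St d := (isoC ψ σ.1, σ.2.image ψ)
def isoW (ψ : S d ≃ S d) (dm : S d → Dir d ≃ Dir d) (ws : List (Word d)) : List (Word d) :=
  ws.map (List.map (isoL ψ dm))

variable {ψ : S d ≃ S d} {dm : S d → Dir d ≃ Dir d}

theorem isoL_none (x : S d) : isoL ψ dm (x, none) = (ψ x, none) := rfl
theorem isoL_some (x : S d) (e : Dir d) (k : ℕ) :
    isoL ψ dm (x, some (e, k)) = (ψ x, some (dm x e, k)) := rfl
theorem isoC_apply (η : Cfg d) (x : S d) : isoC ψ η (ψ x) = η x := by simp [isoC]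

theorem isoC_inj (ψ : S d ≃ S d) : Function.Injective (isoC ψ) := fun η η' h =>
  funext fun x => by rw [← isoC_apply (ψ := ψ) η, h, isoC_apply]

theorem isoW_inj (ψ : S d ≃ S d) (dm : S d → Dir d ≃ Dir d) : Function.Injective (isoW ψ dm) :=
  (List.map_injective_iff.2 (List.map_injective_iff.2 (isoL ψ dm).injective))

theorem isoW_take (ws : List (Word d)) (u : ℕ) : (isoW ψ dm ws).take u = isoW ψ dm (ws.take u) :=
  List.map_take.symm
theorem isoW_drop (ws : List (Word d)) (u : ℕ) : (isoW ψ dm ws).drop u = isoW ψ dm (ws.drop u) :=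
  List.map_drop.symm

theorem iso_mem_image (B : Finset (S d)) (x : S d) : ψ x ∈ B.image ψ ↔ x ∈ B :=
  ψ.injective.mem_finset_image

theorem isoC_update (η : Cfg d) (z : S d) (v : ℕ) :
    isoC ψ (Function.update η z v) = Function.update (isoC ψ η) (ψ z) v := by
  funext x
  obtain ⟨y, rfl⟩ := ψ.surjective x
  by_cases h : y = z
  · subst h; simp [isoC]
  · rw [isoC_apply, Function.update_of_ne h, Function.update_of_ne (ψ.injective.ne h), isoC_apply]

theorem iso_mass (η : Cfg d) (B : Finset (S d)) : mass (isoC ψ η) (B.image ψ) = mass η B := by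
  unfold mass
  rw [Finset.sum_image fun a _ b _ h => ψ.injective h]
  simp only [isoC_apply]

theorem iso_rt (G : Md) (a : Lt d) : rt G (isoL ψ dm a) = rt G a := by
  rcases a with ⟨x, _ | q⟩ <;> rfl

theorem Iso.mono {Q Q' : Finset (S d)} (h : Iso ψ dm Q) (hQ : Q' ⊆ Q) : Iso ψ dm Q' := by
  intro x hx e
  obtain ⟨h1, h2⟩ := h x (hQ hx) e
  refine ⟨⟨fun h3 => ?_, fun h3 => ?_⟩, fun h3 => h2 (hQ h3)⟩
  · rw [← h2 (hQ h3)]; exact Finset.mem_image_of_mem _ h3
  · have h4 := h1.2 (Finset.image_subset_image hQ h3)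
    rw [← h2 h4] at h3
    exact (iso_mem_image _ _).1 h3

theorem iso_al {Q : Finset (S d)} (h : Iso ψ dm Q) (K : ℕ) (a : Lt d) :
    a ∈ al K Q ↔ isoL ψ dm a ∈ al K (Q.image ψ) := by
  rcases a with ⟨x, _ | ⟨e, k⟩⟩
  · rw [isoL_none, mem_al_none, mem_al_none, iso_mem_image]
  · rw [isoL_some, mem_al_some, mem_al_some, iso_mem_image]
    exact and_congr_right fun hx => by rw [(h x hx e).1]

theorem iso_low (G : Md) (z : S d) (a : Lt d) : a ∈ low G z ↔ isoL ψ dm a ∈ low G (ψ z) := by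
  rcases a with ⟨x, _ | ⟨e, k⟩⟩
  · rw [isoL_none, mem_low, mem_low]; simp
  · rw [isoL_some, mem_low, mem_low]; simp

theorem iso_frz (G : Md) (z : S d) (ws : List (Word d)) :
    frz G (ψ z) (isoW ψ dm ws) ↔ frz G z ws := by
  unfold frz isoW
  simp only [List.forall_mem_map, ← iso_low]

theorem iso_sum (G : Md) {A A' : Finset (Lt d)} (hA : ∀ a, a ∈ A ↔ isoL ψ dm a ∈ A') :
    ∑ a ∈ A, rt G a = ∑ a ∈ A', rt G a :=
  Finset.sum_equiv (isoL ψ dm) hA fun a _ => (iso_rt G a).symm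

theorem iso_wl (hF : F.Ok) {A A' : Finset (Lt d)} (hA : ∀ a, a ∈ A ↔ isoL ψ dm a ∈ A') :
    wl F.toMd A' = (wl F.toMd A).map (List.map (isoL ψ dm)) := by
  have hi : Function.Injective (List.map (isoL ψ dm)) :=
    List.map_injective_iff.2 (isoL ψ dm).injective
  ext w'
  obtain ⟨w, rfl⟩ := (List.map_surjective_iff.2 (isoL ψ dm).surjective) w'
  rw [iso_map_apply _ hi]
  have hw : (∀ a ∈ w.map (isoL ψ dm), a ∈ A') ↔ ∀ a ∈ w, a ∈ A := by
    simp only [List.forall_mem_map, ← hA]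
  by_cases h : ∀ a ∈ w, a ∈ A
  · rw [← ENNReal.toReal_eq_toReal_iff' (PMF.apply_ne_top _ _) (PMF.apply_ne_top _ _),
      wl_apply hF A w h, wl_apply hF A' _ (hw.2 h), iso_sum F.toMd hA, List.map_map,
      List.length_map]
    congr 3
    exact List.map_congr_left fun a _ => iso_rt F.toMd a
  · have h1 : wl F.toMd A w = 0 := by
      by_contra hn
      exact h (wl_mem hF hn)
    have h2 : wl F.toMd A' (w.map (isoL ψ dm)) = 0 := by
      by_contra hn
      exact h (hw.1 (wl_mem hF hn))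
    rw [h1, h2]

theorem iso_wls (hF : F.Ok) {A A' : Finset (Lt d)} (hA : ∀ a, a ∈ A ↔ isoL ψ dm a ∈ A') (T : ℕ) :
    wls F.toMd A' T = (wls F.toMd A T).map (isoW ψ dm) := by
  unfold wls
  rw [iso_wl hF hA, ← iid_map]
  rfl

theorem iso_ex_wls (hF : F.Ok) {A A' : Finset (Lt d)} (hA : ∀ a, a ∈ A ↔ isoL ψ dm a ∈ A')
    (T : ℕ) (f : List (Word d) → ℝ) :
    ex (wls F.toMd A' T) f = ex (wls F.toMd A T) fun ws => f (isoW ψ dm ws) := by
  rw [iso_wls hF hA, ex_map_inj _ (isoW_inj ψ dm)]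

theorem iso_mu (G : Md) (K : ℕ) (φ : ℝ) (ψ : S d ≃ S d) (Q : Finset (S d)) :
    mu G K φ (Q.image ψ) = (mu G K φ Q).map (isoC ψ) := pc_image ψ Q _

theorem iso_piz (G : Md) (K : ℕ) (φ : ℝ) (ψ : S d ≃ S d) (Q : Finset (S d)) (z : S d) :
    piz G K φ (Q.image ψ) (ψ z) = (piz G K φ Q z).map (isoC ψ) := by
  unfold piz
  rw [pc_image]
  simp only [ψ.injective.eq_iff]
  rfl

theorem iso_ex_mu (G : Md) (K : ℕ) (φ : ℝ) (ψ : S d ≃ S d) (Q : Finset (S d)) (f : Cfg d → ℝ) :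
    ex (mu G K φ (Q.image ψ)) f = ex (mu G K φ Q) fun η => f (isoC ψ η) := by
  rw [iso_mu, ex_map_inj _ (isoC_inj ψ)]

theorem iso_hop (η : Cfg d) (x y : S d) : hop (isoC ψ η) (ψ x) (ψ y) = isoC ψ (hop η x y) := by
  funext z
  obtain ⟨z, rfl⟩ := ψ.surjective z
  simp only [hop, isoC_apply, ψ.injective.eq_iff]

/-- The alphabets `A`, `A'` correspond and the jumps of `A` are carried to jumps. -/
def IsoA (ψ : S d ≃ S d) (dm : S d → Dir d ≃ Dir d) (A A' : Finset (Lt d)) : Prop :=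
  (∀ a, a ∈ A ↔ isoL ψ dm a ∈ A') ∧
    ∀ x e k, ((x, some (e, k)) : Lt d) ∈ A → ψ (nb x e) = nb (ψ x) (dm x e)

theorem Iso.isoA {Q : Finset (S d)} (h : Iso ψ dm Q) (K : ℕ) :
    IsoA ψ dm (al K Q) (al K (Q.image ψ)) :=
  ⟨iso_al h K, fun x e _ ha => (h x (mem_al_some.1 ha).1 e).2 (mem_al_some.1 ha).2.1⟩

theorem iso_ac {A A' : Finset (Lt d)} (h : IsoA ψ dm A A') (Z : Finset (S d)) (σ : St d)
    (a : Lt d) : ac G ⟨A', Z.image ψ⟩ (isoS ψ σ) (isoL ψ dm a) = isoS ψ (ac G ⟨A, Z⟩ σ a) := by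
  have ha := h.1 a
  rcases a with ⟨x, _ | ⟨e, k⟩⟩
  · rw [isoL_none] at ha ⊢
    simp only [ac, isoS, isoC_apply, ← ha]
    split_ifs
    · rw [Finset.image_erase ψ.injective]
    · rfl
  · rw [isoL_some] at ha ⊢
    simp only [ac, isoS, isoC_apply, ← ha]
    by_cases hc : ((x, some (e, k)) : Lt d) ∈ A ∧ k < σ.1 x
    · rw [if_pos hc, if_pos hc, ← h.2 x e k hc.1, iso_hop]
      simp only [iso_mem_image]
      refine Prod.ext rfl ?_
      dsimp only
      split_ifs
      · rw [← Finset.image_insert, Finset.filter_image]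
        simp only [isoC_apply]
      · rw [Finset.filter_image]
        simp only [isoC_apply]
    · rw [if_neg hc, if_neg hc]

theorem iso_acw {A A' : Finset (Lt d)} (h : IsoA ψ dm A A') (Z : Finset (S d)) (σ : St d)
    (w : Word d) :
    acw G ⟨A', Z.image ψ⟩ (isoS ψ σ) (w.map (isoL ψ dm)) = isoS ψ (acw G ⟨A, Z⟩ σ w) := by
  induction w generalizing σ with
  | nil => rfl
  | cons a w ih =>
    have := ih (ac G ⟨A, Z⟩ σ a)
    simp only [acw, List.map_cons, List.foldl_cons] at this ⊢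
    rw [iso_ac h, this]

theorem iso_acs {A A' : Finset (Lt d)} (h : IsoA ψ dm A A') (Z : Finset (S d)) (σ : St d)
    (ws : List (Word d)) :
    acs G ⟨A', Z.image ψ⟩ (isoS ψ σ) (isoW ψ dm ws) = isoS ψ (acs G ⟨A, Z⟩ σ ws) := by
  induction ws generalizing σ with
  | nil => rfl
  | cons w ws ih =>
    have := ih (acw G ⟨A, Z⟩ σ w)
    simp only [acs, isoW, List.map_cons, List.foldl_cons] at this ⊢
    rw [iso_acw h, this]

theorem iso_ms {A A' : Finset (Lt d)} (h : IsoA ψ dm A A') (η : Cfg d) (ws : List (Word d)) :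
    ms A' (isoC ψ η) (isoW ψ dm ws) = isoC ψ (ms A η ws) := by
  have := congrArg Prod.fst (iso_acs (G := ⟨fun _ => 0, 0, 0⟩) h ∅ (η, ∅) ws)
  rw [acs_fst] at this
  exact this.trans (congrArg (isoC ψ) (acs_fst _ _ _))

theorem iso_ini (G : Md) (ψ : S d ≃ S d) (Z Y0 : Finset (S d)) (η : Cfg d) :
    ini G (Z.image ψ) (Y0.image ψ) (isoC ψ η) = isoS ψ (ini G Z Y0 η) := by
  unfold ini isoS
  rw [← Finset.image_inter _ _ ψ.injective, Finset.filter_image]
  simp only [isoC_apply]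

theorem iso_tj {A A' : Finset (Lt d)} (h : IsoA ψ dm A A') (Z : Finset (S d)) (σ : St d)
    (ws : List (Word d)) :
    tj G ⟨A', Z.image ψ⟩ (isoS ψ σ) (isoW ψ dm ws) = fun u => (tj G ⟨A, Z⟩ σ ws u).image ψ := by
  funext u
  unfold tj
  rw [isoW_take, iso_acs h]
  rfl

end Pool.Agent.Lib.MP_dd0771_pr.Sc
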