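import Pool.Agent.Lib.MP_dd0771_pr.Sc.Defs2

/-! Statements of the low level. -/

open Filter

namespace Pool.Agent.Lib.MP_dd0771_pr.Sc

/-- Admissible cutoff and fugacity. -/
def KP (F : Fr) (K : ℕ) (φ : ℝ) : Prop := KOk F K ∧ F.lo ≤ φ ∧ φ ≤ F.hi

def S_STAT (d : ℕ) (F : Fr) : Prop :=
  ∀ K φ (Q : Finset (S d)), KP F K φ →
    ((mu F.toMd K φ Q).bind fun η => (lw F.toMd (al K Q)).map (mv (al K Q) η)) =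
      mu F.toMd K φ Q ∧
    (∀ T, ((mu F.toMd K φ Q).bind fun η => (wls F.toMd (al K Q) T).map (ms (al K Q) η)) =
      mu F.toMd K φ Q) ∧
    (∀ z ∈ Q, ∀ T, ((piz F.toMd K φ Q z).bind fun η =>
      (wls F.toMd (al K Q \ low F.toMd z) T).map (ms (al K Q) η)) = piz F.toMd K φ Q z) ∧
    ∀ f : Cfg d → ℝ, Bdd f → (ex (mu F.toMd K φ Q) fun η =>
      ∑ a ∈ al K Q, rt F.toMd a * (f (mv (al K Q) η a) - f η)) = 0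

/-- Time reversal: the configuration at time `t` on the event that `B` is infected from `Y0`. -/
def S_REV (d : ℕ) (F : Fr) : Prop :=
  ∀ K φ (Q Z Y0 B : Finset (S d)) t (f : Cfg d → ℝ), KP F K φ → Z ⊆ Q → Bdd f →
    (ex (mu F.toMd K φ Q) fun η => ex (wls F.toMd (al K Q) t) fun ws =>
      ind (B ⊆ (acs F.toMd ⟨al K Q, Z⟩ (ini F.toMd Z Y0 η) ws).2) * f (ms (al K Q) η ws)) =
    ex (mu F.toMd K φ Q) fun η => f η * pr (wls F.toMd (al K Q) t) fun ws =>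
      ∀ b ∈ B, ∃ a ∈ Y0, a ∈ (acs F.toMd ⟨al K Q, Z⟩ (ini F.toMd Z {b} η) ws).2

def S_FKC (d : ℕ) (F : Fr) : Prop :=
  ∀ K φ (Q Z Y0 B : Finset (S d)) t T (E : Tj d → Prop), KP F K φ → Z ⊆ Q → MonoEv E →
    wP F.toMd K φ Q Z Y0 t (fun I => B ⊆ I t) * wP F.toMd K φ Q Z B T E ≤
      wP F.toMd K φ Q Z Y0 (t + T) fun I => E fun u => I (t + u)

def S_UM (d : ℕ) (F : Fr) : Prop :=
  ∃ c0 : ℝ, 0 < c0 ∧ c0 ≤ 1 ∧ ∀ K φ (Q Z : Finset (S d)) a a' e, KP F K φ → Z ⊆ Q → a ∈ Z →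
    a' ∈ Z → nb a e ∈ Z → c0 ≤ wP F.toMd K φ Q Z {a, a'} 1 fun I => {a, nb a e, a'} ⊆ I 1

def S_GAP (d : ℕ) (F : Fr) : Prop :=
  ∀ g : ℝ, 0 < g → ∃ γ : ℝ, 0 < γ ∧ ∀ᶠ l : ℕ in atTop, ∀ K φ φs (Q : Finset (S d)) x z p,
    KP F K φ → KP F K φs → bx x l ⊆ Q → (p = mu F.toMd K φ Q ∨ p = piz F.toMd K φ Q z) →
    (φs + g ≤ φ → pr p (fun η => (mass η (bx x l) : ℝ) < mn F.toMd K φs * (bx x l).card) ≤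
      Real.exp (-γ * (l : ℝ) ^ d)) ∧
    (φ + g ≤ φs → pr p (fun η => mn F.toMd K φs * (bx x l).card < (mass η (bx x l) : ℝ)) ≤
      Real.exp (-γ * (l : ℝ) ^ d))

def S_OCC (d : ℕ) (F : Fr) : Prop :=
  ∃ C : ℝ, 0 < C ∧ ∀ K φ (Q : Finset (S d)) x H T, KP F K φ →
    (ex (mu F.toMd K φ Q) fun η => pr (wls F.toMd (al K Q) T) fun ws => ∃ u w i,
      ws[u]? = some w ∧ H ≤ mw (al K Q) (ms (al K Q) η (ws.take u)) (w.take i) x) ≤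
      C * T * (1 / 2) ^ H

def S_SLOW (d : ℕ) (F : Fr) : Prop :=
  ∀ᶠ n : ℕ in atTop, ∀ K φ (Q Z : Finset (S d)) x, KP F K φ →
    (ex (mu F.toMd K φ Q) fun η => pr (wl F.toMd (al K Q)) fun w =>
      ¬ Slow F.toMd ⟨al K Q, Z⟩ (VV n) {x} η w) ≤ Real.exp (-(n : ℝ) ^ 2 / 2)

def S_CHN (d : ℕ) (F : Fr) : Prop :=
  ∀ᶠ n : ℕ in atTop, ∀ K φ (Q Z Y0 : Finset (S d)) T, KP F K φ → Y0.card ≤ 2 →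
    T ≤ 2 ^ (4 * n) → wP F.toMd K φ Q Z Y0 T (fun I => ¬ Chn (VV n) T I) ≤ er n

def S_EARLY (d : ℕ) (F : Fr) : Prop :=
  ∃ C : ℝ, 1 ≤ C ∧ ∀ (A A1 A2 : Finset (Lt d)) Q1 y Do Di T (ζ η : Cfg d), A1 ⊆ A → A2 ⊆ A →
    Closed A1 Q1 → bx y Do ⊆ Q1 →
    (∀ x ∈ bx y Do, ∀ q, ((x, some q) : Lt d) ∈ A1 ↔ ((x, some q) : Lt d) ∈ A2) → Di ≤ Do →
    (∀ x ∈ bx y Do, ζ x ≤ η x) →
    pr (wls F.toMd A T) (fun ws => ∃ u w i, ws[u]? = some w ∧ ∃ x ∈ bx y Di,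
      mw A2 (ms A2 η (ws.take u)) (w.take i) x < mw A1 (ms A1 ζ (ws.take u)) (w.take i) x) ≤
      (mass ζ Q1 + 1) * C ^ T * Real.exp (-((Do : ℝ) - Di))

/-- Two second class particles on a common background `β` coalesce. -/
def S_TP (d : ℕ) (F : Fr) : Prop :=
  ∃ N : ℕ, ∀ᶠ l : ℕ in atTop, ∀ (A : Finset (Lt d)) K Q1 (f β : Cfg d) x y, Closed A Q1 →
    bx x (l ^ 4) ⊆ Q1 → Lev A (bx x (l ^ 4)) f K → (∀ z ∈ bx x (l ^ 4), f z ≤ β z) →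
    mass β Q1 < K → nrm (y - x) ≤ 2 * l →
    1 / (l : ℝ) ^ N ≤ pr (wls F.toMd A (l ^ 3)) fun ws =>
      ms A (Function.update β x (β x + 1)) ws = ms A (Function.update β y (β y + 1)) ws

def S_P1 (d : ℕ) (F : Fr) : Prop :=
  ∀ᶠ l : ℕ in atTop, ∀ (A A1 A2 : Finset (Lt d)) K Q1 y (h : ℝ) (f ζ η : Cfg d), A1 ⊆ A →
    A2 ⊆ A → Closed A1 Q1 → bx y (l ^ F.A) ⊆ Q1 → Lev A1 (bx y (l ^ F.A)) f K →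
    Lev A2 (bx y (l ^ F.A)) f K → (∀ x ∈ bx y (l ^ F.A), f x ≤ ζ x ∧ f x ≤ η x) →
    mass ζ Q1 < K →
    pr (wls F.toMd A (l ^ F.A)) (fun ws => ms A2 η ws y < ms A1 ζ ws y ∧ ∀ u, u ≤ l ^ F.A →
      ¬ Dense l h (bx y (l ^ F.A)) (ms A1 ζ (ws.take u)) ∧
      ¬ Sparse l h (bx y (l ^ F.A)) (ms A2 η (ws.take u))) ≤
      (mass ζ Q1 + 1) * Real.exp (-(l : ℝ))

/-- Tracking for short times. -/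
def S_TRK0 (d : ℕ) (F : Fr) : Prop :=
  ∀ᶠ n : ℕ in atTop, ∀ (A : Finset (Lt d)) (Y1 Y2 : Sys d) Q1 Do T (σ τ : St d), Y1.A ⊆ A →
    Y2.A ⊆ A → Closed Y1.A Q1 → (∀ x ∈ σ.2, ∀ x' ∈ bx x (DD F n), x' ∈ Y1.Z → x' ∈ Y2.Z) →
    Reg F.toMd Y1.Z σ → σ.2 ⊆ τ.2 → DD F n ≤ Do → T ≤ 2 * s1 F n →
    (∀ x ∈ σ.2, bx x Do ⊆ Q1 ∧ (∀ a : Lt d, a.1 ∈ bx x Do → (a ∈ Y1.A ↔ a ∈ Y2.A)) ∧
      ∀ x' ∈ bx x Do, σ.1 x' ≤ τ.1 x') →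
    pr (wls F.toMd A T) (fun ws =>
      (∀ u w, ws[u]? = some w → Slow F.toMd Y1 (VV n)
        ((σ.2.biUnion fun x => bx x (DD F n)) ∩ Y1.Z) (ms Y1.A σ.1 (ws.take u)) w) ∧
      ∃ u, u ≤ T ∧ (¬ tj F.toMd Y1 σ ws u ⊆ tj F.toMd Y2 τ ws u ∨
        ∃ x ∈ σ.2, ∃ x' ∈ bx x (Do - DD F n / 2),
          ms Y2.A τ.1 (ws.take u) x' < ms Y1.A σ.1 (ws.take u) x')) ≤
      σ.2.card * (mass σ.1 Q1 + 1) * Real.exp (-(n : ℝ) ^ 3)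

def S_TRACK (d : ℕ) (F : Fr) : Prop :=
  ∀ᶠ n : ℕ in atTop, ∀ K (Q0 Q1 Q2 Z1 Z2 Y : Finset (S d)) L T (h : ℝ) (σ τ : St d),
    Q1 ⊆ Q0 → Q2 ⊆ Q0 → wQ Y L ⊆ Q1 → wQ Y L ⊆ Q2 → Z1 ⊆ wZ Y L → Z1 ⊆ Z2 → Y.card ≤ 2 →
    8 * DD F n ≤ L → L ≤ 2 ^ n → T ≤ 2 ^ (n + 1) → Reg F.toMd Z1 σ → Vld (DD F n) σ τ →
    pr (wls F.toMd (al K Q0) T) (fun ws => ∃ u, u ≤ T ∧
      (¬ tj F.toMd ⟨al K Q1, Z1⟩ σ ws u ⊆ tj F.toMd ⟨al K Q2, Z2⟩ τ ws u ∨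
        (s1 F n ≤ u ∧ ¬ Vld (DD F n) (acs F.toMd ⟨al K Q1, Z1⟩ σ (ws.take u))
          (acs F.toMd ⟨al K Q2, Z2⟩ τ (ws.take u)))) ∧
      ∀ u', u' ≤ u → ¬ Sparse (n ^ 2) h (wQ Y L) (ms (al K Q2) τ.1 (ws.take u'))) ≤
      werr F.toMd K n h ⟨al K Q1, Z1⟩ Q1 (wQ Y L) T σ.1

def S_WERR (d : ℕ) (F : Fr) : Prop :=
  ∀ B : Bs, B.Ok F → EvN d F B fun n K => ∀ pc φ (Q Z Qd : Finset (S d)) T, B.pa ≤ pc →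
    pc ≤ B.p 4 → F.lo ≤ φ → φ ≤ pc + B.g / 2 → Z ⊆ Q → Qd ⊆ Q → Q.card ≤ 2 ^ (5 * n * d) →
    T ≤ 2 ^ (n + 1) →
    ex (mu F.toMd K φ Q) (werr F.toMd K n (hh F B K pc) ⟨al K Q, Z⟩ Q Qd T) ≤ er n

def S_EN0 (d : ℕ) (F : Fr) : Prop :=
  ∀ B : Bs, B.Ok F → EvN d F B fun n K => ∀ pc φ (Q Q' : Finset (S d)) u0 te T, B.pa ≤ pc →
    pc + B.g ≤ φ → φ ≤ F.hi → Q' ⊆ Q → Q'.card ≤ 2 ^ (5 * n * d) → te ≤ u0 + 2 ^ (n + 1) →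
    (ex (mu F.toMd K φ Q) fun η => pr (wls F.toMd (al K Q) T) fun ws => ∃ u, u0 ≤ u ∧ u ≤ te ∧
      Sparse (n ^ 2) (hh F B K pc) Q' (ms (al K Q) η (ws.take u))) ≤ er n

def S_MONO (d : ℕ) (F : Fr) : Prop :=
  ∀ K φ1 φ2 (Q Z1 Z2 Y1 Y2 : Finset (S d)) T (E : Tj d → Prop), KP F K φ1 → KP F K φ2 →
    φ1 ≤ φ2 → Z1 ⊆ Z2 → Y1 ⊆ Y2 → MonoEv E →
    wP F.toMd K φ1 Q Z1 Y1 T E ≤ wP F.toMd K φ2 Q Z2 Y2 T E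

def S_DOM (d : ℕ) (F : Fr) : Prop :=
  ∀ B : Bs, B.Ok F → EvN d F B fun n K => ∀ φ1 φ2 (Q1 Q2 Z1 Z2 Y Y0 : Finset (S d)) L T
    (E : Tj d → Prop), B.pa ≤ φ1 → φ1 ≤ B.p 4 → φ1 + B.g ≤ φ2 → φ2 ≤ F.hi → wQ Y L ⊆ Q1 →
    wQ Y L ⊆ Q2 → Z1 ⊆ wZ Y L → Z1 ⊆ Z2 → Y.card ≤ 2 → Q1.card ≤ 2 ^ (5 * n * d) →
    8 * DD F n ≤ L → L ≤ 2 ^ n → T ≤ 2 ^ (n + 1) → MonoEv E →
    wP F.toMd K φ1 Q1 Z1 Y0 T E ≤ wP F.toMd K φ2 Q2 Z2 Y0 T E + 2 * er n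

def S_PROD (d : ℕ) (F : Fr) : Prop :=
  ∀ K φ (y1 y2 : S d) L T (f1 f2 : Tj d → ℝ), KP F K φ → 4 * L + 2 ≤ nrm (y1 - y2) → Bdd f1 →
    Bdd f2 →
    wX F.toMd K φ (wQ {y1, y2} L) (wZ {y1, y2} L) {y1, y2} T
        (fun I => f1 (fun u => I u ∩ bx y1 L) * f2 fun u => I u ∩ bx y2 L) =
      wX F.toMd K φ (bx y1 (2 * L)) (bx y1 L) {y1} T f1 *
        wX F.toMd K φ (bx y2 (2 * L)) (bx y2 L) {y2} T f2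

def S_ISO (d : ℕ) (F : Fr) : Prop :=
  ∀ K φ (ψ : S d ≃ S d) dm (Q Z Y0 : Finset (S d)) T (f : Tj d → ℝ), Iso ψ dm Q → Z ⊆ Q →
    wX F.toMd K φ (Q.image ψ) (Z.image ψ) (Y0.image ψ) T f =
      wX F.toMd K φ Q Z Y0 T fun I => f fun u => (I u).image ψ

/-- Translations and signed permutations about a centre. -/
def S_SYM (d : ℕ) (F : Fr) : Prop :=
  ∀ K φ (y y' : S d) e sg a b T (f : Tj d → ℝ), b ≤ a →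
    wX F.toMd K φ (bx y' a) (bx y' b) {y'} T f =
      wX F.toMd K φ (bx y a) (bx y b) {y} T fun I =>
        f fun u => (I u).image fun x => y' + sp e sg (x - y)

def S_ISORUN (d : ℕ) (F : Fr) : Prop :=
  ∀ (B : Bs) K n l pc (C : Ty) (Y : Finset (S d)) (O : Rule d) m (ψ : S d ≃ S d) dm
    (v : ℕ × Finset (S d) → ℝ), Iso ψ dm (wQ Y C.2) → (∀ y ∈ Y, ψ y = y) →
    (∀ z r, bx z r ⊆ wQ Y C.2 → (bx z r).image ψ = bx (ψ z) r) → 4 * DD F n ≤ C.2 →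
    RuleOk (DD F n) O →
    (∀ k, ∀ Cd ⊆ wZ Y C.2, O k (Cd.image ψ) = (O k Cd).image fun Yt => Yt.image ψ) → Bdd v →
    wEv F.toMd K B.n0 C Y (fun σ => rv F B K n l pc (wMc K C Y O) m σ v) =
      wEv F.toMd K B.n0 C Y fun σ =>
        rv F B K n l pc (wMc K C Y O) m σ fun p => v (p.1, p.2.image ψ)

end Pool.Agent.Lib.MP_dd0771_pr.Sc
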