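import Pool.Agent.Lib.MP_dd0771_pr.Sc.Kit2
import Pool.Agent.Lib.MP_dd0771_pr.Sc.Stm1

/-! Weights of the site laws. -/

open Filter

namespace Pool.Agent.Lib.MP_dd0771_pr.Sc

variable {F : Fr}

theorem siteA_sub (hF : F.Ok) (K : ℕ) {m n : ℕ} (h : m ≤ n) :
    F.Gm * ((min n K : ℕ) - (min m K : ℕ)) ≤ gK F.toMd K n - gK F.toMd K m ∧
      gK F.toMd K n - gK F.toMd K m ≤ F.Gp * ((min n K : ℕ) - (min m K : ℕ)) := by
  have h1 : min m K ≤ min n K := min_le_min_right _ h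
  rw [gK, gK, ← Finset.sum_Ico_eq_sub _ h1, ← Nat.cast_sub h1, mul_comm, mul_comm F.Gp,
    ← Nat.card_Ico, ← nsmul_eq_mul, ← nsmul_eq_mul]
  exact ⟨Finset.card_nsmul_le_sum _ _ _ fun k _ => (hF.2.1 k).1,
    Finset.sum_le_card_nsmul _ _ _ fun k _ => (hF.2.1 k).2⟩

theorem siteA_Gp (hF : F.Ok) : 0 < F.Gp := hF.1.trans_le ((hF.2.1 0).1.trans (hF.2.1 0).2)

theorem siteA_mono (hF : F.Ok) (K : ℕ) : Monotone (gK F.toMd K) := fun m n h => by
  have h1 := (siteA_sub hF K h).1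
  have h2 : ((min m K : ℕ) : ℝ) ≤ (min n K : ℕ) := Nat.cast_le.2 (min_le_min_right _ h)
  nlinarith [hF.1]

theorem siteA_lip (hF : F.Ok) (K : ℕ) {m n : ℕ} (h : m ≤ n) :
    gK F.toMd K n - gK F.toMd K m ≤ F.Gp * (n - m) := by
  refine (siteA_sub hF K h).2.trans (mul_le_mul_of_nonneg_left ?_ (siteA_Gp hF).le)
  have : min n K + m ≤ n + min m K := by omega
  have : ((min n K : ℕ) : ℝ) + m ≤ n + (min m K : ℕ) := by exact_mod_cast this
  linarith

theorem siteA_den (hF : F.Ok) {K f m : ℕ} {φ : ℝ} (h : KP F K φ) (hf : f ≤ 2) (hm : f < m) :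
    F.Gm ≤ gK F.toMd K m - gK F.toMd K f := by
  refine le_trans ?_ (siteA_sub hF K hm.le).1
  have := h.1.1
  have : min f K + 1 ≤ min m K := by omega
  have : ((min f K : ℕ) : ℝ) + 1 ≤ (min m K : ℕ) := by exact_mod_cast this
  nlinarith [hF.1]

theorem siteA_phi (hF : F.Ok) {K : ℕ} {φ : ℝ} (h : KP F K φ) : 0 < φ :=
  hF.2.2.2.2.1.trans_le h.2.1

/-- The unnormalised weight. -/
noncomputable def sw (F : Fr) (K : ℕ) (φ : ℝ) (f i : ℕ) : ℝ :=
  if f ≤ i then ∏ m ∈ Finset.Ioc f i, φ / (gK F.toMd K m - gK F.toMd K f) else 0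

theorem sw_self (K : ℕ) (φ : ℝ) (f : ℕ) : sw F K φ f f = 1 := by simp [sw]

theorem sw_succ (K : ℕ) (φ : ℝ) {f i : ℕ} (h : f ≤ i) :
    sw F K φ f (i + 1) = sw F K φ f i * (φ / (gK F.toMd K (i + 1) - gK F.toMd K f)) := by
  rw [sw, sw, if_pos h, if_pos (by omega), Finset.prod_Ioc_succ_top h]

theorem sw_pos (hF : F.Ok) {K f i : ℕ} {φ : ℝ} (h : KP F K φ) (hf : f ≤ 2) (hi : f ≤ i) :
    0 < sw F K φ f i := by
  rw [sw, if_pos hi]
  exact Finset.prod_pos fun m hm => div_pos (siteA_phi hF h)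
    (hF.1.trans_le (siteA_den hF h hf (Finset.mem_Ioc.1 hm).1))

theorem sw_nonneg (hF : F.Ok) {K f : ℕ} {φ : ℝ} (h : KP F K φ) (hf : f ≤ 2) (i : ℕ) :
    0 ≤ sw F K φ f i := by
  by_cases hi : f ≤ i
  · exact (sw_pos hF h hf hi).le
  · rw [sw, if_neg hi]

theorem sw_le (hF : F.Ok) : ∃ C : ℝ, 1 ≤ C ∧ ∀ K φ f i, KP F K φ → f ≤ 2 →
    sw F K φ f i ≤ C * (1 / 2) ^ i := by
  have hm := hF.1
  have hh : 0 < F.hi := hF.2.2.2.2.1.trans hF.2.2.2.2.2.1
  obtain ⟨m0, hm0⟩ := exists_nat_ge (2 * F.hi / F.Gm + 2)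
  set ρ := 2 * F.hi / F.Gm + 1 with hρ
  have h0 : 0 < 2 * F.hi / F.Gm := by positivity
  have h1 : 1 ≤ ρ := by linarith
  refine ⟨4 * ρ ^ m0, by nlinarith [one_le_pow₀ (n := m0) h1], fun K φ f i h hf => ?_⟩
  have key : ∀ i, f ≤ i → sw F K φ f i ≤ 4 * ρ ^ min i m0 * (1 / 2) ^ i := fun i hi => by
    induction i, hi using Nat.le_induction with
    | base =>
      have h2 : ((1:ℝ) / 2) ^ 2 ≤ (1 / 2) ^ f :=
        pow_le_pow_of_le_one (by norm_num) (by norm_num) hf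
      rw [sw_self]
      nlinarith [one_le_pow₀ (n := min f m0) h1]
    | succ i hi ih =>
      have hd := siteA_den hF h hf (show f < i + 1 by omega)
      have hp := siteA_phi hF h
      have hb : φ / (gK F.toMd K (i + 1) - gK F.toMd K f) * ρ ^ min i m0 ≤
          ρ ^ min (i + 1) m0 * (1 / 2) := by
        rcases lt_or_ge i m0 with h2 | h2
        · rw [min_eq_left h2.le, min_eq_left h2, pow_succ, mul_assoc, mul_comm]
          refine mul_le_mul_of_nonneg_left ?_ (by positivity)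
          have : φ / (gK F.toMd K (i + 1) - gK F.toMd K f) ≤ F.hi / F.Gm := by
            gcongr; exact h.2.2
          have e : 2 * F.hi / F.Gm = 2 * (F.hi / F.Gm) := by ring
          linarith
        · rw [min_eq_right h2, min_eq_right (by omega), mul_comm]
          refine mul_le_mul_of_nonneg_left ?_ (by positivity)
          rw [div_le_iff₀ (hm.trans_le hd)]
          have h3 := siteA_mono hF K hf
          have h4 := h.2.2
          rcases le_total K (i + 1) with h5 | h5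
          · have := siteA_mono hF K h5
            linarith [h.1.2]
          · have h6 := (siteA_sub hF K (show f ≤ i + 1 by omega)).1
            rw [min_eq_left h5, min_eq_left (by omega)] at h6
            have h7 : (f : ℝ) ≤ 2 := by exact_mod_cast hf
            have h8 : (m0 : ℝ) ≤ i := by exact_mod_cast h2
            have h9 : 2 * F.hi / F.Gm ≤ ((i + 1 : ℕ) : ℝ) - f := by push_cast; linarith
            rw [div_le_iff₀ hm] at h9
            linarith
      rw [sw_succ K φ hi]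
      calc _ ≤ 4 * ρ ^ min i m0 * (1 / 2) ^ i * (φ / (gK F.toMd K (i + 1) - gK F.toMd K f)) :=
            mul_le_mul_of_nonneg_right ih (div_pos hp (hm.trans_le hd)).le
        _ = 4 * (φ / (gK F.toMd K (i + 1) - gK F.toMd K f) * ρ ^ min i m0) * (1 / 2) ^ i := by ring
        _ ≤ 4 * (ρ ^ min (i + 1) m0 * (1 / 2)) * (1 / 2) ^ i := by gcongr
        _ = _ := by ring
  by_cases hi : f ≤ i
  · refine (key i hi).trans ?_
    gcongr
    exact min_le_right _ _
  · rw [sw, if_neg hi]; positivity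

theorem sw_sum (hF : F.Ok) {K f : ℕ} {φ : ℝ} (h : KP F K φ) (hf : f ≤ 2) :
    Summable (sw F K φ f) ∧ 1 ≤ ∑' i, sw F K φ f i := by
  obtain ⟨C, -, hC⟩ := sw_le hF
  have hs : Summable (sw F K φ f) := .of_nonneg_of_le (sw_nonneg hF h hf)
    (fun i => hC K φ f i h hf) (summable_geometric_two.mul_left C)
  exact ⟨hs, (sw_self K φ f).symm.trans_le (hs.le_tsum f fun j _ => sw_nonneg hF h hf j)⟩

theorem sl_eq (hF : F.Ok) {K f : ℕ} {φ : ℝ} (h : KP F K φ) (hf : f ≤ 2) (i : ℕ) :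
    (sl F.toMd K φ f i).toReal = sw F K φ f i / ∑' i, sw F K φ f i :=
  ofW_apply f (sw_nonneg hF h hf) (sw_sum hF h hf).1 (one_pos.trans_le (sw_sum hF h hf).2) i

theorem siteA_le (hF : F.Ok) : ∃ C : ℝ, 1 ≤ C ∧ ∀ K φ f i, KP F K φ → f ≤ 2 →
    (sl F.toMd K φ f i).toReal ≤ C * (1 / 2) ^ i := by
  obtain ⟨C, h1, hC⟩ := sw_le hF
  refine ⟨C, h1, fun K φ f i h hf => ?_⟩
  rw [sl_eq hF h hf]
  exact (div_le_self (sw_nonneg hF h hf i) (sw_sum hF h hf).2).trans (hC K φ f i h hf)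

theorem siteA_one {α : Type} (p : PMF α) : HasSum (fun a => (p a).toReal) 1 := by
  have h1 := (ex_summable p (Bdd.const 1)).hasSum
  have h2 : ∑' a, (p a).toReal * 1 = 1 := ex_const p 1
  rw [h2] at h1
  simpa using h1

theorem siteA_exp : Real.exp (1 / 2) ≤ 7 / 4 := by
  have h1 : Real.exp (1 / 2) ^ 2 ≤ (7 / 4) ^ 2 := by
    rw [← Real.exp_nat_mul]
    norm_num
    linarith [Real.exp_one_lt_d9]
  exact (pow_le_pow_iff_left₀ (Real.exp_pos _).le (by norm_num) two_ne_zero).1 h1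

/-- Functions of moderate exponential growth are summable, uniformly. -/
theorem siteA_dom (hF : F.Ok) : ∃ C : ℝ, 1 ≤ C ∧ ∀ K φ f (g : ℕ → ℝ) (M : ℝ), KP F K φ → f ≤ 2 →
    (∀ i, |g i| ≤ M * Real.exp (i / 2)) →
    (Summable fun i => (sl F.toMd K φ f i).toReal * g i) ∧ ex (sl F.toMd K φ f) g ≤ C * M := by
  obtain ⟨C, h1, hC⟩ := siteA_le hF
  refine ⟨8 * C, by linarith, fun K φ f g M h hf hg => ?_⟩
  have hM : 0 ≤ M := by simpa using (abs_nonneg _).trans (hg 0)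
  have hb : ∀ i, ‖(sl F.toMd K φ f i).toReal * g i‖ ≤ C * M * (7 / 8) ^ i := fun i => by
    have h2 : Real.exp (i / 2) ≤ (7 / 4) ^ i := by
      rw [div_eq_mul_one_div, Real.exp_nat_mul]
      exact pow_le_pow_left₀ (Real.exp_pos _).le siteA_exp i
    rw [norm_mul, Real.norm_of_nonneg ENNReal.toReal_nonneg, Real.norm_eq_abs]
    calc _ ≤ C * (1 / 2) ^ i * (M * (7 / 4) ^ i) :=
          mul_le_mul (hC K φ f i h hf) ((hg i).trans (by gcongr)) (abs_nonneg _) (by positivity)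
      _ = _ := by rw [show (7 / 8 : ℝ) = 1 / 2 * (7 / 4) by norm_num, mul_pow]; ring
  have hs := (hasSum_geometric_of_lt_one (r := 7 / 8) (by norm_num) (by norm_num)).mul_left (C * M)
  refine ⟨.of_norm_bounded hs.summable hb, (le_abs_self _).trans ?_⟩
  refine (tsum_of_norm_bounded hs hb).trans_eq ?_
  norm_num
  ring

theorem siteA_taylor (x : ℝ) : Real.exp x ≤ 1 + x + x ^ 2 * Real.exp |x| := by
  have h0 : 1 ≤ Real.exp |x| := Real.one_le_exp (abs_nonneg x)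
  rcases le_total |x| 1 with h | h
  · have := (abs_le.1 (Real.abs_exp_sub_one_sub_id_le h)).2
    nlinarith [sq_nonneg x]
  · have h1 : 1 ≤ x ^ 2 := by nlinarith [sq_abs x]
    rcases le_total 0 x with h2 | h2
    · rw [abs_of_nonneg h2] at *
      nlinarith
    · have := Real.exp_le_one_iff.2 h2
      rw [abs_of_nonpos h2] at h
      nlinarith

end Pool.Agent.Lib.MP_dd0771_pr.Sc
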