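import Pool.Agent.Lib.MP_dd0771_pr.Sc.Kit2
import Pool.Agent.Lib.MP_dd0771_pr.Sc.Stm1
import Pool.Agent.Lib.MP_dd0771_pr.Sc.SiteA

open Filter

namespace Pool.Agent.Lib.MP_dd0771_pr.Sc

variable {F : Fr}

theorem gK_mono (hF : F.Ok) (K : ℕ) : Monotone (gK F.toMd K) := siteA_mono hF K
theorem gK_zero (K : ℕ) : gK F.toMd K 0 = 0 := by simp [gK]
theorem gK_le (hF : F.Ok) (K n : ℕ) : gK F.toMd K n ≤ F.Gp * n := by
  simpa [gK_zero] using siteA_lip hF K (Nat.zero_le n)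
theorem kOk_eventually (hF : F.Ok) : ∀ᶠ K in atTop, KOk F K := by
  obtain ⟨N, hN⟩ := exists_nat_ge ((2 * F.hi + 1) / F.Gm + 2)
  filter_upwards [eventually_ge_atTop 4, eventually_ge_atTop N] with K h4 hK
  refine ⟨h4, le_trans ?_ (siteA_sub hF K (show 2 ≤ K by omega)).1⟩
  rw [min_self, min_eq_left (show 2 ≤ K by omega)]
  have h1 : (N : ℝ) ≤ K := by exact_mod_cast hK
  have h2 : (2 * F.hi + 1) / F.Gm ≤ (K : ℝ) - 2 := by linarith
  rw [div_le_iff₀ hF.1] at h2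
  push_cast
  linarith

theorem site_pos (hF : F.Ok) {K f i : ℕ} {φ : ℝ} (h : KP F K φ) (hf : f ≤ 2) (hi : f ≤ i) :
    0 < (sl F.toMd K φ f i).toReal := by
  rw [sl_eq hF h hf]
  exact div_pos (sw_pos hF h hf hi) (one_pos.trans_le (sw_sum hF h hf).2)

theorem site_zero (hF : F.Ok) {K f i : ℕ} {φ : ℝ} (h : KP F K φ) (hf : f ≤ 2) (hi : ¬ f ≤ i) :
    (sl F.toMd K φ f i).toReal = 0 := by
  rw [sl_eq hF h hf, sw, if_neg hi, zero_div]

theorem sl_support (hF : F.Ok) {K f i : ℕ} {φ : ℝ} (h : KP F K φ) (hf : f ≤ 2) :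
    i ∈ (sl F.toMd K φ f).support ↔ f ≤ i := by
  rw [PMF.mem_support_iff]
  refine ⟨fun h0 => by_contra fun hi => h0 ?_, fun hi h0 => ?_⟩
  · exact ((ENNReal.toReal_eq_zero_iff _).1 (site_zero hF h hf hi)).resolve_right
      (PMF.apply_ne_top _ _)
  · simpa [h0] using site_pos hF h hf hi
theorem sl_ratio (hF : F.Ok) {K f i : ℕ} {φ : ℝ} (h : KP F K φ) (hf : f ≤ 2) (hi : f ≤ i) :
    (sl F.toMd K φ f (i + 1)).toReal * (gK F.toMd K (i + 1) - gK F.toMd K f) =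
      φ * (sl F.toMd K φ f i).toReal := by
  have := (hF.1.trans_le (siteA_den hF h hf (show f < i + 1 by omega))).ne'
  rw [sl_eq hF h hf, sl_eq hF h hf, sw_succ K φ hi]
  field_simp
theorem sl_tail (hF : F.Ok) : ∃ C : ℝ, 1 ≤ C ∧ ∀ K φ f i, KP F K φ → f ≤ 2 →
    (sl F.toMd K φ f i).toReal ≤ C * (1 / 2) ^ i ∧
      pr (sl F.toMd K φ f) (fun m => i ≤ m) ≤ C * (1 / 2) ^ i := by
  obtain ⟨C, h1, hC⟩ := siteA_le hF
  refine ⟨2 * C, by linarith, fun K φ f i h hf =>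
    ⟨(hC K φ f i h hf).trans (by gcongr; linarith), ?_⟩⟩
  have hs : Summable fun m : ℕ => if i ≤ m then (2 : ℝ)⁻¹ ^ m else 0 :=
    .of_nonneg_of_le (fun m => by positivity) (fun m => by
      split_ifs
      · rw [one_div]
      · positivity) summable_geometric_two
  refine ((ex_summable _ (Bdd.ind _)).tsum_le_tsum (fun m => ?_) (hs.mul_left C)).trans_eq ?_
  · split_ifs with h2
    · simpa [ind_pos h2] using hC K φ f m h hf
    · simp [ind_neg h2]
  · rw [tsum_mul_left, tsum_geometric_inv_two_ge, one_div]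
    ring
theorem sl_mean (hF : F.Ok) : ∃ C : ℝ, 1 ≤ C ∧ ∀ K φ f, KP F K φ → f ≤ 2 →
    (Summable fun i : ℕ => (sl F.toMd K φ f i).toReal * (i : ℝ)) ∧
      ex (sl F.toMd K φ f) (fun i => (i : ℝ)) ≤ C := by
  obtain ⟨C, h1, hC⟩ := siteA_dom hF
  refine ⟨C * 2, by linarith, fun K φ f h hf => hC K φ f _ 2 h hf fun i => ?_⟩
  rw [Nat.abs_cast]
  linarith [Real.add_one_le_exp ((i : ℝ) / 2)]
theorem sl_lower (hF : F.Ok) : ∃ c : ℝ, 0 < c ∧ ∀ K φ f i, KP F K φ → f ≤ 2 → f ≤ i → i ≤ 4 →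
    c ≤ (sl F.toMd K φ f i).toReal := by
  obtain ⟨C, h1, hC⟩ := sw_le hF
  have hG := siteA_Gp hF
  have hl := hF.2.2.2.2.1
  set r := min 1 (F.lo / (4 * F.Gp)) with hr
  have r0 : 0 < r := lt_min one_pos (by positivity)
  have r1 : r ≤ 1 := min_le_left _ _
  have r2 : r * (4 * F.Gp) ≤ F.lo := (le_div_iff₀ (by positivity)).1 (min_le_right _ _)
  refine ⟨r ^ 4 / (C * 2), by positivity, fun K φ f i h hf hi h4 => ?_⟩
  have key : ∀ i, f ≤ i → i ≤ 4 → r ^ i / (C * 2) ≤ (sl F.toMd K φ f i).toReal := fun i hi => by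
    induction i, hi using Nat.le_induction with
    | base =>
      intro _
      rw [sl_eq hF h hf, sw_self]
      refine div_le_div₀ one_pos.le (pow_le_one₀ r0.le r1) (one_pos.trans_le (sw_sum hF h hf).2) ?_
      refine ((sw_sum hF h hf).1.tsum_le_tsum (fun i => hC K φ f i h hf)
        (summable_geometric_two.mul_left C)).trans_eq ?_
      rw [tsum_mul_left, tsum_geometric_two]
    | succ i hi ih =>
      intro h5
      have h6 := sl_ratio hF h hf hi
      have h7 := siteA_lip hF K (show f ≤ i + 1 by omega)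
      have h8 : ((i + 1 : ℕ) : ℝ) ≤ 4 := by exact_mod_cast h5
      have h9 : gK F.toMd K (i + 1) - gK F.toMd K f ≤ 4 * F.Gp := by
        nlinarith [Nat.cast_nonneg (α := ℝ) f]
      have a1 := site_pos hF h hf hi
      have a2 := site_pos hF h hf (show f ≤ i + 1 by omega)
      have a3 : r * (sl F.toMd K φ f i).toReal ≤ (sl F.toMd K φ f (i + 1)).toReal := by
        refine le_of_mul_le_mul_right ?_ (show 0 < 4 * F.Gp by positivity)
        nlinarith [mul_le_mul_of_nonneg_left h9 a2.le,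
          mul_le_mul_of_nonneg_right (r2.trans h.2.1) a1.le]
      rw [pow_succ', mul_div_assoc]
      exact (mul_le_mul_of_nonneg_left (ih (by omega)) r0.le).trans a3
  refine le_trans ?_ (key i hi h4)
  exact div_le_div_of_nonneg_right (pow_le_pow_of_le_one r0.le r1 h4) (by positivity)

/-- The likelihood ratio is monotone. -/
theorem site_step (hF : F.Ok) {K f f' m : ℕ} {φ φ' l : ℝ} (h : KP F K φ) (h' : KP F K φ')
    (hφ : φ ≤ φ') (hf : f ≤ f') (hf' : f' ≤ 2) (hl : 0 ≤ l) (hm : f' ≤ m)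
    (h0 : (sl F.toMd K φ f m).toReal ≤ l * (sl F.toMd K φ' f' m).toReal) {i : ℕ} (hi : m ≤ i) :
    (sl F.toMd K φ f i).toReal ≤ l * (sl F.toMd K φ' f' i).toReal := by
  induction i, hi using Nat.le_induction with
  | base => exact h0
  | succ i hi ih =>
    have h1 := sl_ratio hF h (hf.trans hf') (show f ≤ i by omega)
    have h2 := sl_ratio hF h' hf' (show f' ≤ i by omega)
    have h3 := hF.1.trans_le (siteA_den hF h (hf.trans hf') (show f < i + 1 by omega))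
    have h4 := siteA_mono hF K hf
    have h5 := siteA_phi hF h
    refine le_of_mul_le_mul_right ?_ h3
    calc _ = φ * (sl F.toMd K φ f i).toReal := h1
      _ ≤ φ' * (l * (sl F.toMd K φ' f' i).toReal) :=
        mul_le_mul hφ ih ENNReal.toReal_nonneg (h5.le.trans hφ)
      _ = l * (sl F.toMd K φ' f' (i + 1)).toReal * (gK F.toMd K (i + 1) - gK F.toMd K f') := by
        rw [mul_assoc, h2]; ring
      _ ≤ _ := mul_le_mul_of_nonneg_left (by linarith) (by positivity)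

theorem site_cross (hF : F.Ok) {K f f' : ℕ} {φ φ' : ℝ} (h : KP F K φ) (h' : KP F K φ')
    (hφ : φ ≤ φ') (hf : f ≤ f') (hf' : f' ≤ 2) :
    ∃ m, (∀ i < m, (sl F.toMd K φ' f' i).toReal ≤ (sl F.toMd K φ f i).toReal) ∧
      ∀ i, m ≤ i → (sl F.toMd K φ f i).toReal ≤ (sl F.toMd K φ' f' i).toReal := by
  have key : ∀ i, ¬ (f' ≤ i ∧ (sl F.toMd K φ f i).toReal ≤ (sl F.toMd K φ' f' i).toReal) →
      (sl F.toMd K φ' f' i).toReal ≤ (sl F.toMd K φ f i).toReal := fun i hi => by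
    by_cases h1 : f' ≤ i
    · exact le_of_not_ge fun h2 => hi ⟨h1, h2⟩
    · rw [site_zero hF h' hf' h1]; exact ENNReal.toReal_nonneg
  have hex : ∃ m, f' ≤ m ∧ (sl F.toMd K φ f m).toReal ≤ (sl F.toMd K φ' f' m).toReal := by
    by_contra hn
    rw [not_exists] at hn
    exact lt_irrefl _ (hasSum_lt (fun i => key i (hn i)) (i := f')
      (lt_of_not_ge fun h2 => hn f' ⟨le_rfl, h2⟩) (siteA_one _) (siteA_one _))
  classical
  refine ⟨Nat.find hex, fun i hi => key i (Nat.find_min hex hi), fun i hi => ?_⟩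
  simpa using site_step hF h h' hφ hf hf' one_pos.le (Nat.find_spec hex).1
    (by simpa using (Nat.find_spec hex).2) hi

/-- Stochastic monotonicity for monotone summable functions. -/
theorem site_mono (hF : F.Ok) {K f f' : ℕ} {φ φ' a a' : ℝ} (h : KP F K φ) (h' : KP F K φ')
    (hφ : φ ≤ φ') (hf : f ≤ f') (hf' : f' ≤ 2) {g : ℕ → ℝ} (hg : Monotone g)
    (ha : HasSum (fun i => (sl F.toMd K φ f i).toReal * g i) a)
    (ha' : HasSum (fun i => (sl F.toMd K φ' f' i).toReal * g i) a') : a ≤ a' := by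
  obtain ⟨m, h1, h2⟩ := site_cross hF h h' hφ hf hf'
  have := hasSum_le (fun i => ?_) (ha.sub ((siteA_one (sl F.toMd K φ f)).mul_right (g m)))
    (ha'.sub ((siteA_one (sl F.toMd K φ' f')).mul_right (g m)))
  · linarith
  · rcases lt_or_ge i m with h3 | h3
    · nlinarith [mul_nonneg (sub_nonneg.2 (h1 i h3)) (sub_nonneg.2 (hg h3.le))]
    · nlinarith [mul_nonneg (sub_nonneg.2 (h2 i h3)) (sub_nonneg.2 (hg h3))]

theorem sl_dom (hF : F.Ok) {K f f' : ℕ} {φ φ' : ℝ} (h : KP F K φ) (h' : KP F K φ') (hφ : φ ≤ φ')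
    (hf : f ≤ f') (hf' : f' ≤ 2) (m : ℕ) :
    pr (sl F.toMd K φ f) (fun i => m ≤ i) ≤ pr (sl F.toMd K φ' f') fun i => m ≤ i :=
  site_mono hF h h' hφ hf hf' (g := fun i => ind (m ≤ i))
    (fun _ _ hij => ind_mono fun hm => hm.trans hij)
    (ex_summable _ (Bdd.ind _)).hasSum (ex_summable _ (Bdd.ind _)).hasSum
theorem sl_raise (hF : F.Ok) : ∃ C : ℝ, 1 ≤ C ∧ ∀ K φ, KP F K φ → ∀ f : ℕ → ℝ, Bdd f →
    (∀ i, 0 ≤ f i) →
    ex (sl F.toMd K φ 0) (fun i => f (max i F.j)) ≤ C * ex (sl F.toMd K φ F.j) f := by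
  obtain ⟨c, hc, hC⟩ := sl_lower hF
  have hj : F.j ≤ 2 := by rcases hF.2.2.2.1 with h | h <;> omega
  have c0 : 0 < c⁻¹ := inv_pos.2 hc
  refine ⟨2 * c⁻¹ + 1, by linarith, fun K φ h f hb h0 => ?_⟩
  have h1 : 1 ≤ c⁻¹ * (sl F.toMd K φ F.j F.j).toReal := by
    rw [← div_eq_inv_mul, one_le_div hc]
    exact hC K φ F.j F.j h hj le_rfl (by omega)
  have h2 : (sl F.toMd K φ 0 F.j).toReal ≤ 1 :=
    le_hasSum (siteA_one _) _ fun _ _ => ENNReal.toReal_nonneg
  have hs := ex_summable (sl F.toMd K φ F.j) hb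
  have h3 : (sl F.toMd K φ F.j F.j).toReal * f F.j ≤ ex (sl F.toMd K φ F.j) f :=
    hs.le_tsum _ fun i _ => mul_nonneg ENNReal.toReal_nonneg (h0 i)
  have h4 : 0 ≤ ex (sl F.toMd K φ F.j) f := ex_nonneg fun i _ => h0 i
  have h5 : ex (sl F.toMd K φ 0) (fun i => f (max i F.j)) ≤
      1 * f F.j + c⁻¹ * ex (sl F.toMd K φ F.j) f := by
    refine hasSum_le (fun i => ?_) (ex_summable _ (hb.comp _)).hasSum
      (((siteA_one (sl F.toMd K φ 0)).mul_right (f F.j)).add (hs.hasSum.mul_left c⁻¹))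
    rcases le_total i F.j with h6 | h6
    · rw [max_eq_right h6]
      exact le_add_of_nonneg_right (mul_nonneg c0.le (mul_nonneg ENNReal.toReal_nonneg (h0 i)))
    · rw [max_eq_left h6, ← mul_assoc]
      exact (mul_le_mul_of_nonneg_right (site_step hF h h le_rfl (Nat.zero_le _) hj c0.le le_rfl
        (h2.trans h1) h6) (h0 i)).trans
        (le_add_of_nonneg_left (mul_nonneg ENNReal.toReal_nonneg (h0 _)))
  nlinarith [mul_le_mul_of_nonneg_right h1 (h0 F.j), mul_le_mul_of_nonneg_left h3 c0.le]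

theorem site_gK (hF : F.Ok) {K : ℕ} {φ : ℝ} (h : KP F K φ) :
    HasSum (fun i => (sl F.toMd K φ 0 i).toReal * gK F.toMd K i) φ := by
  have h1 : HasSum (fun i => (sl F.toMd K φ 0 (i + 1)).toReal * gK F.toMd K (i + 1)) (φ * 1) := by
    have e := (siteA_one (sl F.toMd K φ 0)).mul_left φ
    rwa [← funext fun i => sl_ratio hF h (f := 0) (by omega) (Nat.zero_le i), gK_zero,
      funext fun i => congrArg (_ * ·) (sub_zero _)] at e
  simpa [gK_zero] using
    (hasSum_nat_add_iff (f := fun i => (sl F.toMd K φ 0 i).toReal * gK F.toMd K i) 1).1 h1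

theorem mn_gap (hF : F.Ok) : ∃ c : ℝ, 0 < c ∧ ∀ K φ φ', KP F K φ → KP F K φ' → φ ≤ φ' →
    mn F.toMd K φ + c * (φ' - φ) ≤ mn F.toMd K φ' := by
  obtain ⟨C, -, hC⟩ := sl_mean hF
  have hG := siteA_Gp hF
  refine ⟨F.Gp⁻¹, inv_pos.2 hG, fun K φ φ' h h' hφ => ?_⟩
  have key : ∀ ψ, KP F K ψ → HasSum (fun i => (sl F.toMd K ψ 0 i).toReal *
      (F.Gp * i - gK F.toMd K i)) (F.Gp * mn F.toMd K ψ - ψ) := fun ψ hψ => by
    have e := ((hC K ψ 0 hψ (by omega)).1.hasSum.mul_left F.Gp).sub (site_gK hF hψ)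
    simp only [mul_left_comm F.Gp, ← mul_sub] at e
    exact e
  have h1 := site_mono hF h h' hφ le_rfl (by omega)
    (fun m n hmn => by linarith [siteA_lip hF K hmn]) (key φ h) (key φ' h')
  refine le_of_mul_le_mul_left ?_ hG
  rw [mul_add, mul_inv_cancel_left₀ hG.ne']
  linarith
theorem sl_mgf (hF : F.Ok) : ∃ C : ℝ, 1 ≤ C ∧ ∀ K φ f (t : ℝ), KP F K φ → f ≤ 2 → |t| ≤ 1 / 4 →
    (Summable fun i : ℕ => (sl F.toMd K φ f i).toReal * Real.exp (t * i)) ∧
      ex (sl F.toMd K φ f) (fun i => Real.exp (t * i)) ≤ C ∧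
      (f = 0 → ex (sl F.toMd K φ 0) (fun i => Real.exp (t * i)) ≤
        Real.exp (t * mn F.toMd K φ + C * t ^ 2)) := by
  obtain ⟨C, h1, hC⟩ := siteA_dom hF
  obtain ⟨D, -, hD⟩ := sl_mean hF
  refine ⟨C * 32, by linarith, fun K φ f t h hf ht => ?_⟩
  have hi : ∀ i : ℕ, |t * i| ≤ i / 4 := fun i => by
    rw [abs_mul, Nat.abs_cast]
    nlinarith [Nat.cast_nonneg (α := ℝ) i]
  have h2 := hC K φ f (fun i => Real.exp (t * i)) 1 h hf fun i => by
    rw [one_mul, abs_of_pos (Real.exp_pos _), Real.exp_le_exp]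
    linarith [le_abs_self (t * i), hi i, Nat.cast_nonneg (α := ℝ) i]
  refine ⟨h2.1, by linarith [h2.2], fun h0 => ?_⟩
  subst h0
  have h3 := hC K φ 0 (fun i => (i : ℝ) ^ 2 * Real.exp (i / 4)) 32 h hf fun i => by
    have a1 := Real.quadratic_le_exp_of_nonneg (show (0 : ℝ) ≤ i / 4 by positivity)
    have a2 : Real.exp (i / 2) = Real.exp (i / 4) * Real.exp (i / 4) := by
      rw [← Real.exp_add]; ring_nf
    rw [abs_of_nonneg (by positivity), a2, ← mul_assoc]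
    exact mul_le_mul_of_nonneg_right (by nlinarith [Nat.cast_nonneg (α := ℝ) i])
      (Real.exp_pos _).le
  have h4 : ex (sl F.toMd K φ 0) (fun i => Real.exp (t * i)) ≤ 1 + t * mn F.toMd K φ +
      t ^ 2 * ex (sl F.toMd K φ 0) fun i => (i : ℝ) ^ 2 * Real.exp (i / 4) := by
    refine hasSum_le (fun i => ?_) h2.1.hasSum (((siteA_one (sl F.toMd K φ 0)).add
      ((hD K φ 0 h hf).1.hasSum.mul_left t)).add (h3.1.hasSum.mul_left (t ^ 2)))
    have a1 := siteA_taylor (t * i)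
    have a2 : (t * i) ^ 2 * Real.exp |t * i| ≤ (t * i) ^ 2 * Real.exp (i / 4) :=
      mul_le_mul_of_nonneg_left (Real.exp_le_exp.2 (hi i)) (sq_nonneg _)
    refine (mul_le_mul_of_nonneg_left (a1.trans (add_le_add_right a2 _))
      ENNReal.toReal_nonneg).trans_eq ?_
    ring
  refine le_trans ?_ (Real.add_one_le_exp _)
  nlinarith [mul_le_mul_of_nonneg_left h3.2 (sq_nonneg t)]

end Pool.Agent.Lib.MP_dd0771_pr.Sc
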