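import Pool.Agent.Lib.MP_dd0771_pr.Sc.Stm3

/-! Bundles of statements. -/

namespace Pool.Agent.Lib.MP_dd0771_pr.Sc

structure Low (d : ℕ) (F : Fr) : Prop where
  hSTAT : S_STAT d F
  hREV : S_REV d F
  hFKC : S_FKC d F
  hUM : S_UM d F
  hGAP : S_GAP d F
  hOCC : S_OCC d F
  hSLOW : S_SLOW d F
  hCHN : S_CHN d F
  hEARLY : S_EARLY d F
  hP1 : S_P1 d F
  hTRK0 : S_TRK0 d F
  hTRACK : S_TRACK d F
  hWERR : S_WERR d F
  hEN0 : S_EN0 d F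
  hMONO : S_MONO d F
  hDOM : S_DOM d F
  hPROD : S_PROD d F
  hISO : S_ISO d F
  hSYM : S_SYM d F
  hISORUN : S_ISORUN d F

structure Eng (d : ℕ) (F : Fr) : Prop where
  hAL : S_AL d F
  hPBAD : S_PBAD d F
  hQQ : S_QQ d F
  hPHA : S_PHA d F
  hTRY : S_TRY d F
  hENG : S_ENG d F
  hENGW : S_ENGW d F
  hGEN : S_GEN d F
  hLIVE : S_LIVE d F
  hLIVW : S_LIVW d F
  hAT : S_AT d F
  hSLP : S_SLP d F
  hSL2 : S_SL2 d F
  hSLS : S_SLS d F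
  hONE : S_ONE d F
  hWB : S_WB d F
  hHIT : S_HIT d F
  hV0 : S_V0 d F
  hWEAK : S_WEAK d F
  hWA : S_WA d F
  hAMB : S_AMB d F

end Pool.Agent.Lib.MP_dd0771_pr.Sc
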