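import Pool.Agent.Lib.MP_dd0771_pr.Sc.WX

open Filter

namespace Pool.Agent.Lib.MP_dd0771_pr.Sc

variable {d : ℕ} {F : Fr} {B : Bs} {K n l : ℕ} {M : Amb d} {Φ : Nd d → ℝ} {C : Ty}
  {Y : Finset (S d)} {t te : ℕ} {v ub : ℝ}

theorem valk_bdd {Φ : Nd d → ℝ} (b : Bdd Φ) :
    Bdd fun p : Nd d × St d × Bool => if p.2.2 then Φ p.1 else 0 := by
  obtain ⟨c, hc⟩ := b
  refine ⟨c, fun p => ?_⟩
  dsimp only
  split_ifs
  · exact hc _
  · rw [abs_zero]; exact (abs_nonneg _).trans (hc p.1)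

theorem Val.mono {v' : ℝ} (h : Val F B K n l M Φ C Y t v) (hv : v' ≤ v) :
    Val F B K n l M Φ C Y t v' := fun Λ h1 h2 h3 h4 h5 => hv.trans (h Λ h1 h2 h3 h4 h5)
theorem Val.nonpos (h0 : ∀ s, 0 ≤ Φ s) (hv : v ≤ 0) : Val F B K n l M Φ C Y t v :=
  fun _ _ _ _ _ _ => hv.trans (ex_nonneg fun p _ => by split_ifs; exacts [h0 _, le_rfl])
theorem Val.add {Φ1 Φ2 : Nd d → ℝ} {v1 v2 : ℝ} (b1 : Bdd Φ1) (b2 : Bdd Φ2)
    (h : ∀ s, tm s = t → Φ s = Φ1 s + Φ2 s) (h1 : Val F B K n l M Φ1 C Y t v1)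
    (h2 : Val F B K n l M Φ2 C Y t v2) : Val F B K n l M Φ C Y t (v1 + v2) := by
  intro Λ a1 a2 a3 a4 a5
  refine (add_le_add (h1 Λ a1 a2 a3 a4 a5) (h2 Λ a1 a2 a3 a4 a5)).trans (le_of_eq ?_)
  rw [← ex_add _ (valk_bdd b1) (valk_bdd b2)]
  refine ex_congr fun p hp => ?_
  split_ifs
  · exact (h _ (a1 p hp)).symm
  · exact add_zero _
theorem Val.lower {Ψ : Nd d → ℝ} {wb : ℝ} (b1 : Bdd Φ) (b2 : Bdd Ψ) (hw : 0 ≤ wb)
    (h : ∀ s, tm s = t → Φ s - wb ≤ Ψ s) (h1 : Val F B K n l M Φ C Y t v) :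
    Val F B K n l M Ψ C Y t (v - wb) := by
  intro Λ a1 a2 a3 a4 a5
  refine (sub_le_sub_right (h1 Λ a1 a2 a3 a4 a5) wb).trans ?_
  rw [← ex_const Λ wb, ← ex_sub _ (valk_bdd b1) (Bdd.const wb)]
  refine ex_mono ((valk_bdd b1).sub (Bdd.const wb)) (valk_bdd b2) fun p hp => ?_
  split_ifs
  · exact h _ (a1 p hp)
  · linarith
theorem valk_cons (s : Nd d) (a : Word d) (ws : List (Word d)) :
    nx s (a :: ws) = nx (nx s [a]) ws := by rw [nx_nx]; rfl
theorem Mart.ex {G : Md} (h : Mart G K M Φ te ub) (s : Nd d) {T : ℕ} (hT : tm s + T ≤ te) :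
    Φ s = ex (wls G (al K M.Q) T) fun ws => Φ (nx s ws) := by
  induction T generalizing s with
  | zero => rw [wls, iid, ex_pure, nx_nil]
  | succ T ih =>
    rw [wls, ex_iid_succ _ _ ((Bdd.of01 h.1).comp _), h.2.1 s (by omega)]
    refine ex_congr fun a _ => ?_
    rw [ih (nx s [a]) (by rw [tm_nx, List.length_singleton]; omega)]
    exact ex_congr fun ws _ => by rw [valk_cons s a ws]
theorem Mart.weaken {G : Md} {te' : ℕ} {ub' : ℝ} (h : Mart G K M Φ te ub) (ht : te' ≤ te)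
    (hu : ub' ≤ ub) : Mart G K M Φ te' ub' :=
  ⟨h.1, fun s hs => h.2.1 s (by omega), fun s hs hf => hu.trans (h.2.2 s (by omega) hf)⟩
/-- Optional stopping: the martingale is at least `w` times the probability to meet `[w, 1]`. -/
theorem Mart.stop {G : Md} (h : Mart G K M Φ te ub) (s : Nd d) {T : ℕ} (hT : tm s + T ≤ te) {w : ℝ}
    (hw : 0 ≤ w) :
    w * pr (wls G (al K M.Q) T) (fun ws => ∃ u, u ≤ T ∧ w ≤ Φ (nx s (ws.take u))) ≤ Φ s := by
  induction T generalizing s with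
  | zero =>
    rcases le_or_gt w (Φ s) with h1 | h1
    · exact (mul_le_of_le_one_right hw (pr_le_one _ _)).trans h1
    · rw [pr_zero, mul_zero]
      · exact (h.1 s).1
      · rintro ws - ⟨u, hu, h2⟩
        rw [Nat.le_zero.1 hu, List.take_zero, nx_nil] at h2
        exact h2.not_gt h1
  | succ T ih =>
    rcases le_or_gt w (Φ s) with h1 | h1
    · exact (mul_le_of_le_one_right hw (pr_le_one _ _)).trans h1
    rw [pr, wls, ex_iid_succ _ _ (Bdd.ind _), ← ex_mul_left, h.2.1 s (by omega)]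
    refine ex_mono ((Bdd.const w).mul (Bdd.pr (fun _ => iid (wl G (al K M.Q)) T) fun a ws =>
      ∃ u, u ≤ T + 1 ∧ w ≤ Φ (nx s ((a :: ws).take u)))) ((Bdd.of01 h.1).comp _) fun a _ => ?_
    refine le_trans (mul_le_mul_of_nonneg_left (pr_mono fun ws _ => ?_) hw)
      (ih (nx s [a]) (by rw [tm_nx, List.length_singleton]; omega))
    rintro ⟨_ | u, hu, h2⟩
    · rw [List.take_zero, nx_nil] at h2
      exact absurd h1 h2.not_gt
    · exact ⟨u, by omega, by rwa [List.take_succ_cons, valk_cons] at h2⟩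
theorem cl_of_le {G : Md} (f : Nd d → ℝ) {s : Nd d} (h : te ≤ tm s) :
    cl G K M f te s = f (cut te s) := by
  rw [cl, Nat.sub_eq_zero_of_le h, wls, iid, ex_pure, nx_nil]
theorem cl_of_ge {G : Md} (f : Nd d → ℝ) {s : Nd d} (h : tm s ≤ te) :
    cl G K M f te s = ex (wls G (al K M.Q) (te - tm s)) fun ws => f (nx s ws) :=
  ex_congr fun ws hws => by rw [cut_self (by rw [tm_nx, iid_length hws]; omega)]
theorem mart_cl {G : Md} {f : Nd d → ℝ} (hf : ∀ s, 0 ≤ f s ∧ f s ≤ 1)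
    (hp : ∀ s ws, M.fl s → M.fl (nx s ws)) (hu : ∀ s, tm s = te → M.fl s → ub ≤ f s) :
    Mart G K M (cl G K M f te) te ub := by
  have b := Bdd.of01 hf
  refine ⟨fun s => ⟨ex_nonneg fun _ _ => (hf _).1, ex_le (b.comp _) fun _ _ => (hf _).2⟩,
    fun s hs => ?_, fun s hs hfl => ?_⟩
  · have e : te - tm s = te - (tm s + 1) + 1 := by omega
    rw [cl, e, wls, ex_iid_succ _ _ (b.comp _)]
    refine ex_congr fun a _ => ?_
    rw [cl, tm_nx, List.length_singleton, wls]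
    exact ex_congr fun ws _ => by rw [valk_cons s a ws]
  · rw [cl_of_ge f hs]
    exact le_ex (b.comp _) fun ws hws =>
      hu _ (by rw [tm_nx, iid_length hws]; omega) (hp s ws hfl)
/-- Splitting a martingale at the time `t1` and the height `wb`. -/
theorem Mart.split {G : Md} (h : Mart G K M Φ te ub) (hp : ∀ s ws, M.fl s → M.fl (nx s ws))
    {t1 : ℕ} (ht : t1 ≤ te) {wb : ℝ} (h0 : 0 ≤ wb) (h1 : wb ≤ 1) (hu : wb ≤ ub) :
    ∃ Φ' Ψ : Nd d → ℝ, Mart G K M Φ' te wb ∧ Mart G K M Ψ t1 (ub - wb) ∧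
      (∀ s, tm s ≤ t1 → Φ s = Φ' s + Ψ s ∧ Φ s - wb ≤ Ψ s) ∧
      (∀ s, t1 ≤ tm s → min wb (Φ s) ≤ Φ' s) ∧
      ∀ (l t : ℕ) (C : Ty) (Y : Finset (S d)) (v : ℝ), t1 + sq F B l ≤ t → v ≤ wb * (1 - tol l) →
        Val F B K n l M Φ C Y t v → Val F B K n l M Φ' C Y t v := by
  have f1 : ∀ s, 0 ≤ min (Φ s) wb ∧ min (Φ s) wb ≤ 1 := fun s =>
    ⟨le_min (h.1 s).1 h0, (min_le_right _ _).trans h1⟩
  have f2 : ∀ s, 0 ≤ max (Φ s - wb) 0 ∧ max (Φ s - wb) 0 ≤ 1 := fun s =>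
    ⟨le_max_right _ _, max_le (by linarith [(h.1 s).2]) zero_le_one⟩
  have m1 : Mart G K M (cl G K M (fun s => min (Φ s) wb) t1) t1 wb :=
    mart_cl f1 hp fun s hs hf => le_min (hu.trans (h.2.2 s (by omega) hf)) le_rfl
  have m2 : Mart G K M (cl G K M (fun s => max (Φ s - wb) 0) t1) t1 (ub - wb) :=
    mart_cl f2 hp fun s hs hf => (sub_le_sub_right (h.2.2 s (by omega) hf) wb).trans (le_max_left _ _)
  obtain ⟨Φ', e1, e2⟩ : ∃ Φ' : Nd d → ℝ,
      (∀ s, tm s ≤ t1 → Φ' s = cl G K M (fun s => min (Φ s) wb) t1 s) ∧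
      ∀ s, t1 ≤ tm s → Φ' s = if wb ≤ Φ (cut t1 s) then wb else Φ s := by
    refine ⟨fun s => if tm s ≤ t1 then cl G K M (fun s => min (Φ s) wb) t1 s else
      if wb ≤ Φ (cut t1 s) then wb else Φ s, fun s hs => if_pos hs, fun s hs => ?_⟩
    by_cases h2 : tm s ≤ t1
    · simp only [if_pos h2]
      rw [cl_of_le _ hs, cut_self h2]
      split_ifs with h3
      · exact min_eq_right h3
      · exact min_eq_left (not_le.1 h3).le
    · exact if_neg h2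
  refine ⟨Φ', _, ⟨fun s => ?_, fun s hs => ?_, fun s hs hf => ?_⟩, m2, fun s hs => ?_,
    fun s hs => ?_, fun l t C Y v g1 g2 g3 Λ a1 a2 a3 a4 a5 => ?_⟩
  · rcases le_total (tm s) t1 with h2 | h2
    · rw [e1 s h2]; exact m1.1 s
    · rw [e2 s h2]; split_ifs; exacts [⟨h0, h1⟩, h.1 s]
  · rcases lt_or_ge (tm s) t1 with h2 | h2
    · rw [e1 s h2.le, m1.2.1 s h2]
      exact ex_congr fun a _ => (e1 _ (by rw [tm_nx, List.length_singleton]; omega)).symm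
    · have e : ∀ a : Word d, Φ' (nx s [a]) = if wb ≤ Φ (cut t1 s) then wb else Φ (nx s [a]) :=
        fun a => by rw [e2 _ (by rw [tm_nx]; omega), cut_nx_le h2]
      simp only [e]
      rw [e2 s h2]
      split_ifs
      · exact (ex_const _ _).symm
      · exact h.2.1 s hs
  · rcases le_total (tm s) t1 with h2 | h2
    · rw [e1 s h2]; exact m1.2.2 s h2 hf
    · rw [e2 s h2]; split_ifs; exacts [le_rfl, hu.trans (h.2.2 s hs hf)]
  · have e : Φ s = Φ' s + cl G K M (fun s => max (Φ s - wb) 0) t1 s := by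
      rw [e1 s hs, cl_of_ge _ hs, cl_of_ge _ hs,
        ← ex_add _ ((Bdd.of01 f1).comp _) ((Bdd.of01 f2).comp _),
        h.ex s (T := t1 - tm s) (by omega)]
      refine ex_congr fun ws _ => ?_
      rcases le_total (Φ (nx s ws)) wb with h2 | h2
      · rw [min_eq_left h2, max_eq_right (by linarith), add_zero]
      · rw [min_eq_right h2, max_eq_left (by linarith)]; ring
    have e' : Φ' s ≤ wb := by
      rw [e1 s hs, cl_of_ge _ hs]
      exact ex_le ((Bdd.of01 f1).comp _) fun _ _ => min_le_right _ _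
    exact ⟨e, by linarith⟩
  · rw [e2 s hs]; split_ifs; exacts [min_le_left _ _, min_le_right _ _]
  · obtain ⟨p0, hp0⟩ := Λ.support_nonempty
    have e : ∀ p ∈ Λ.support, Φ' p.1 = if wb ≤ Φ (cut t1 p0.1) then wb else Φ p.1 := by
      intro p hp
      have e3 := congrArg (cut t1) (a2 (by omega) p hp p0 hp0)
      rw [cut_cut, cut_cut, min_eq_left (by omega)] at e3
      rw [e2 _ (by rw [a1 p hp]; omega), e3]
    by_cases h2 : wb ≤ Φ (cut t1 p0.1)
    · have e4 : (Sc.ex Λ fun p => if p.2.2 then Φ' p.1 else 0) =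
          wb * pr Λ fun p => ¬ p.2.2 = false := by
        rw [pr, ← ex_mul_left]
        refine ex_congr fun p hp => ?_
        rw [e p hp, if_pos h2]
        cases p.2.2
        · rw [ind_neg (by simp)]; simp
        · rw [ind_pos (by simp)]; simp
      rw [e4, pr_not]
      exact g2.trans (mul_le_mul_of_nonneg_left (by linarith) h0)
    · exact (g3 Λ a1 a2 a3 a4 a5).trans (le_of_eq (ex_congr fun p hp => by rw [e p hp, if_neg h2]))
/-- From a bound state by state to the value of a launch. -/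
theorem Val.of_state (hB : B.Ok F) {V e : St d → ℝ} {Vb vb : ℝ} (hΦ : ∀ s, 0 ≤ Φ s ∧ Φ s ≤ 1)
    (hV : ∀ σ, 0 ≤ V σ ∧ V σ ≤ Vb) (he : ∀ σ, 0 ≤ e σ) (hb : Bdd e) (hvb : 0 ≤ vb)
    (hfl : ∀ s, tm s = t → M.fl s → Vb ≤ Φ s)
    (h : ∀ s σ, tm s = t → Reg F.toMd (wZ Y C.2) σ → Vld (DD F n) σ (M.st F.toMd K s) →
      V σ - vb * e σ ≤ Φ s) :
    Val F B K n l M Φ C Y t ((wEv F.toMd K B.n0 C Y V - vb * wEv F.toMd K B.n0 C Y e -
      Vb * er n) / B.thp ^ Y.card - tol l * Vb) := by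
  classical
  obtain ⟨-, -, -, t0, -, e0, -⟩ := hB
  have p0 : 0 < B.thp ^ Y.card := pow_pos (mul_pos t0 (by linarith)) _
  have bV : Bdd V := ⟨Vb, fun σ => abs_le.2 ⟨by linarith [(hV σ).1, (hV σ).2], (hV σ).2⟩⟩
  have V0 : 0 ≤ Vb := (hV (0, ∅)).1.trans (hV _).2
  obtain ⟨g, g0, g1, g2⟩ : ∃ g : St d → ℝ, (∀ σ, 0 ≤ g σ ∧ g σ ≤ Vb) ∧
      (∀ σ, Reg F.toMd (wZ Y C.2) σ → V σ ≤ g σ + vb * e σ) ∧
      ∀ s σ, tm s = t → Vld (DD F n) σ (M.st F.toMd K s) → g σ ≤ Φ s := by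
    refine ⟨fun σ => if Reg F.toMd (wZ Y C.2) σ then max (V σ - vb * e σ) 0 else 0,
      fun σ => ?_, fun σ hσ => ?_, fun s σ h1 h2 => ?_⟩
    · have := mul_nonneg hvb (he σ)
      dsimp only
      split_ifs
      · exact ⟨le_max_right _ _, max_le (by linarith [(hV σ).2]) V0⟩
      · exact ⟨le_rfl, V0⟩
    · simp only [if_pos hσ]
      linarith [le_max_left (V σ - vb * e σ) 0]
    · dsimp only
      split_ifs with h3
      · exact max_le (h s σ h1 h3 h2) (hΦ s).1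
      · exact (hΦ s).1
  have bg : Bdd g := ⟨Vb, fun σ => abs_le.2 ⟨by linarith [(g0 σ).1, (g0 σ).2], (g0 σ).2⟩⟩
  have be : Bdd fun σ => vb * e σ := (Bdd.const vb).mul hb
  have w1 := wEv_mono (K := K) (n0 := B.n0) bV (bg.add be) g1
  rw [wEv_add bg be, wEv_mul] at w1
  intro Λ a1 _ a3 a4 a5
  have w2 : (wEv F.toMd K B.n0 C Y g - Vb * er n) / B.thp ^ Y.card ≤ ex Λ fun p => g p.2.1 := by
    rcases V0.eq_or_lt with h0 | h0
    · have eg : g = fun _ => 0 * (0 : ℝ) := funext fun σ => by linarith [(g0 σ).1, (g0 σ).2]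
      rw [eg, wEv_mul, ← h0, ex_const]; simp
    · have h1 := a3 (fun σ => Vb⁻¹ * g σ) fun σ =>
        ⟨mul_nonneg (inv_nonneg.2 V0) (g0 σ).1, by rw [inv_mul_le_iff₀ h0, mul_one]; exact (g0 σ).2⟩
      rw [wEv_mul, ex_mul_left, le_inv_mul_iff₀ h0, ← mul_div_assoc, mul_sub,
        mul_inv_cancel_left₀ h0.ne'] at h1
      exact h1
  have w3 : (ex Λ fun p => g p.2.1) ≤ (ex Λ fun p => if p.2.2 then Φ p.1 else 0) +
      Vb * pr Λ fun p => p.2.2 = false := by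
    have b1 := valk_bdd (Bdd.of01 hΦ)
    have b2 := (Bdd.const Vb).mul (Bdd.ind fun p : Nd d × St d × Bool => p.2.2 = false)
    rw [pr, ← ex_mul_left, ← ex_add _ b1 b2]
    refine ex_mono (bg.comp _) (b1.add b2) fun p hp => ?_
    rcases hq : p.2.2 with _ | _
    · rw [ind_pos rfl]; simpa using (g0 _).2
    · rw [ind_neg (by simp), mul_zero, add_zero, if_pos rfl]
      exact (a4 p hp hq).elim (g2 _ _ (a1 p hp)) fun hf => (g0 _).2.trans (hfl _ (a1 p hp) hf)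
  have w4 := mul_le_mul_of_nonneg_left a5 V0
  have w5 := div_le_div_of_nonneg_right (show wEv F.toMd K B.n0 C Y V -
    vb * wEv F.toMd K B.n0 C Y e - Vb * er n ≤ wEv F.toMd K B.n0 C Y g - Vb * er n by linarith) p0.le
  linarith
theorem Law.E_mono {α : Type} {κ : Law α} {e : ℝ} (h : κ.Ok e) {f g : α → ℝ}
    (hfg : ∀ p ∈ κ.W, f p ≤ g p) : κ.E f ≤ κ.E g :=
  Finset.sum_le_sum fun p hp => mul_le_mul_of_nonneg_left (hfg p hp) (h.1 p)
theorem Law.E_add {α : Type} (κ : Law α) (f g : α → ℝ) :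
    κ.E (fun p => f p + g p) = κ.E f + κ.E g := by
  simp only [Law.E, mul_add, Finset.sum_add_distrib]
theorem Law.E_mul {α : Type} (κ : Law α) (c : ℝ) (f : α → ℝ) :
    κ.E (fun p => c * f p) = c * κ.E f := by
  simp only [Law.E, Finset.mul_sum, mul_left_comm]
theorem Law.E_sum {α β : Type} (κ : Law α) (s : Finset β) (f : β → α → ℝ) :
    κ.E (fun p => ∑ b ∈ s, f b p) = ∑ b ∈ s, κ.E (f b) := by
  simp only [Law.E, Finset.mul_sum]
  exact Finset.sum_comm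
/-- One plain step changes the type. -/
theorem PlainAt.step {pc : ℝ} {T : ℕ} {C' : Ty} {y : S d} (hB : B.Ok F)
    (h : PlainAt d F B K n pc C T) (hM : M.Ok F B K n pc) (hΦ : Mart F.toMd K M Φ te ub)
    (hu : M.u0 ≤ t) (ht : t + (T + RR F B n) ≤ te) (hA : Adm M {y} C.2) (h0 : 0 ≤ v) (hv : v ≤ ub)
    (hC : TyOk F B n pc C')
    (hc : ∀ z t', nrm (z - y) ≤ C.2 → t < t' → t' ≤ t + (T + RR F B n) →
      bx z C'.2 ⊆ M.Z ∧ Val F B K n (ls n) M Φ C' {z} t' v) :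
    Val F B K n (ls n) M Φ C {y} t ((1 - 5 * B.eps) * v) := by
  obtain ⟨κ, k1, k2, -, -, k3⟩ := h y
  refine (k3 M Φ te t ub v (fun _ => C') (fun _ => v) hM hΦ hu ht hA h0 hv (fun _ _ => le_rfl)
    fun p hp _ => ⟨hC, hc _ _ ?_ ?_ ?_⟩).mono ?_
  · rw [add_sub_cancel_left]; exact (k2 p hp).1
  · have := (k2 p hp).2.1; omega
  · have := (k2 p hp).2.2; omega
  · have e := κ.E_mul v fun _ => 1
    simp only [mul_one] at e
    rw [e]
    nlinarith [mul_le_mul_of_nonneg_left k1.2.1 h0]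
theorem glOk_hit (G : Md) (K : ℕ) (M : Amb d) (P : Finset (S d) → Prop) :
    GlOk fun (Φ : Nd d → ℝ) w t1 t2 => ∀ s, t1 ≤ tm s → tm s ≤ t2 → P (M.st G K s).2 → w ≤ Φ s :=
  ⟨fun _ _ _ _ _ _ h1 h2 h s a b c => h s (h1.trans a) (b.trans h2) c,
    fun _ _ _ wb _ _ _ _ _ h1 h s a b c => (sub_le_sub_right (h s a b c) wb).trans (h1 s b)⟩

end Pool.Agent.Lib.MP_dd0771_pr.Sc
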