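import Pool.Agent.Lib.MP_dd0771_pr.Sc.Wd2A

open Filter

namespace Pool.Agent.Lib.MP_dd0771_pr.Sc

variable {d : ℕ} {F : Fr} {α : Type}

/-- Generator bound from above, with a maximal inequality over all the letter times. -/
theorem gen_max (hF : F.Ok) (A : Finset (Lt d)) (step : α → Lt d → α) (Inv : α → Prop)
    (hI : ∀ x a, Inv x → a ∈ A → Inv (step x a)) (f : α → ℝ) (M c b : ℝ) (hc : 0 ≤ c) (hb : 0 ≤ b)
    (hf : ∀ x, Inv x → 0 ≤ f x ∧ f x ≤ M)
    (hg : ∀ x, Inv x → ∑ a ∈ A, rt F.toMd a * (f (step x a) - f x) ≤ c * f x + b) (T : ℕ) (x : α)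
    (hx : Inv x) {lam : ℝ} (hl : 0 < lam) :
    pr (wls F.toMd A T) (fun ws => ∃ (u : ℕ) (w : Word d) (i : ℕ), ws[u]? = some w ∧
      lam ≤ f ((w.take i).foldl step ((ws.take u).flatten.foldl step x))) ≤
      Real.exp (c * T) * (f x + b * T) / lam := by
  classical
  have hI' : ∀ x a, Inv x → a ∈ A → Inv (if lam ≤ f x then x else step x a) := fun x a h k => by
    split_ifs
    exacts [h, hI x a h k]
  have hB : Bdd fun y => if Inv y then f y else 0 := ⟨M, fun y => by
    have := hf x hx
    dsimp only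
    split_ifs with h
    · exact abs_le.2 ⟨by linarith [(hf y h).1], (hf y h).2⟩
    · rw [abs_zero]; linarith⟩
  have h1 := wd2_gen hF A (fun y a => if lam ≤ f y then y else step y a) Inv hI' _ hB c b hc hb
    (fun y hy => by
      rw [Finset.sum_congr rfl fun a ha => by rw [if_pos (hI' y a hy ha)], if_pos hy]
      split_ifs with k
      · have := mul_nonneg hc (hf y hy).1
        simp only [sub_self, mul_zero, Finset.sum_const_zero]
        linarith
      · exact hg y hy) T x hx
  rw [if_pos hx] at h1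
  refine (pr_mono fun ws hw => ?_).trans ((markov (ex_summable _ (hB.comp
    fun ws : List (Word d) => ws.flatten.foldl (fun y a => if lam ≤ f y then y else step y a) x))
    (fun ws _ => by
      split_ifs with h
      exacts [(hf _ h).1, le_rfl]) hl).trans (div_le_div_of_nonneg_right h1 hl.le))
  · rintro ⟨u, w, i, e, k⟩
    rw [← List.foldl_append] at k
    rw [if_pos (wd2_inv hI' (fun a ha => ?_) hx)]
    · exact wd2_stop step (fun y => lam ≤ f y) (wd2_pre e i) k
    · obtain ⟨w, h2, h3⟩ := List.mem_flatten.1 ha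
      exact (wls_mem hF hw).2 w h2 a h3

theorem gen_le (hF : F.Ok) (A : Finset (Lt d)) (step : α → Lt d → α) (Inv : α → Prop)
    (hI : ∀ x a, Inv x → a ∈ A → Inv (step x a)) (f : α → ℝ) (hf : Bdd f) (c b : ℝ) (hc : 0 ≤ c)
    (hb : 0 ≤ b) (h0 : ∀ x, Inv x → 0 ≤ f x)
    (hg : ∀ x, Inv x → ∑ a ∈ A, rt F.toMd a * (f (step x a) - f x) ≤ c * f x + b) (T : ℕ) (x : α)
    (hx : Inv x) :
    ex (wls F.toMd A T) (fun ws => f (ws.flatten.foldl step x)) ≤
      Real.exp (c * T) * (f x + b * T) :=
  have _ := h0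
  wd2_gen hF A step Inv hI f hf c b hc hb hg T x hx

/-- Generator bound from below; `f` may take both signs. -/
theorem gen_ge (hF : F.Ok) (A : Finset (Lt d)) (step : α → Lt d → α) (Inv : α → Prop)
    (hI : ∀ x a, Inv x → a ∈ A → Inv (step x a)) (f : α → ℝ) (hf : Bdd f) (c : ℝ) (hc : 0 ≤ c)
    (hg : ∀ x, Inv x → c * f x ≤ ∑ a ∈ A, rt F.toMd a * (f (step x a) - f x)) (T : ℕ) (x : α)
    (hx : Inv x) :
    Real.exp (c * T) * f x ≤ ex (wls F.toMd A T) fun ws => f (ws.flatten.foldl step x) := by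
  have h1 := wd2_gen hF A step Inv hI (fun y => -1 * f y) ((Bdd.const _).mul hf) c 0 hc le_rfl
    (fun y hy => by
      have := hg y hy
      rw [Finset.sum_congr rfl fun a _ => show rt F.toMd a * (-1 * f (step y a) - -1 * f y) =
        -(rt F.toMd a * (f (step y a) - f y)) by ring, Finset.sum_neg_distrib]
      linarith) T x hx
  rw [ex_mul_left] at h1
  linarith

/-- An invariant law of the one-letter kernel is invariant for words. -/
theorem inv_wls (hF : F.Ok) (A : Finset (Lt d)) (step : α → Lt d → α) (p : PMF α)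
    (h : ∀ f : α → ℝ, Bdd f → (ex p fun x => ∑ a ∈ A, rt F.toMd a * (f (step x a) - f x)) = 0) :
    ((0 < ∑ a ∈ A, rt F.toMd a) → (p.bind fun x => (lw F.toMd A).map (step x)) = p) ∧
      ∀ T, (p.bind fun x => (wls F.toMd A T).map fun ws => ws.flatten.foldl step x) = p := by
  refine ⟨fun hR => pmf_ext fun f hf => ?_, fun T => pmf_ext fun f hf => ?_⟩
  · have h1 := h f hf
    have h2 : Bdd fun x => ∑ a ∈ A, rt F.toMd a * f (step x a) :=
      wd2_bd _ A fun a => hf.comp fun x => step x a
    simp only [mul_sub, Finset.sum_sub_distrib, ← Finset.sum_mul] at h1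
    rw [ex_sub p h2 ((Bdd.const _).mul hf), ex_mul_left] at h1
    rw [ex_bind _ _ hf]
    simp only [ex_map _ _ hf, ex_lw hF hR, div_eq_mul_inv, ex_mul_right]
    rw [sub_eq_zero.1 h1]
    field_simp
  · have k : ∀ f : α → ℝ, Bdd f → (ex p fun x => ex (wls F.toMd A T)
        fun ws => f (ws.flatten.foldl step x)) ≤ ex p f := fun f hf => by
      simpa using wd2_avg hF A p (g := fun x l => f (l.foldl step x)) (hf.comp _) le_rfl
        (fun l => (h (fun x => f (l.foldl step x)) (hf.comp _)).le) T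
    have k2 := k (fun y => -1 * f y) ((Bdd.const _).mul hf)
    simp only [ex_mul_left] at k2
    rw [ex_bind _ _ hf]
    simp only [ex_map _ _ hf]
    linarith [k f hf]

/-- Flux bound under an invariant law. -/
theorem flux (hF : F.Ok) (A : Finset (Lt d)) (step : α → Lt d → α) (p : PMF α)
    (h : ∀ f : α → ℝ, Bdd f → (ex p fun x => ∑ a ∈ A, rt F.toMd a * (f (step x a) - f x)) = 0)
    (E : α → Prop) (T : ℕ) :
    (ex p fun x => pr (wls F.toMd A T) fun ws => ∃ (u : ℕ) (w : Word d) (i : ℕ), ws[u]? = some w ∧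
      E ((w.take i).foldl step ((ws.take u).flatten.foldl step x))) ≤
      pr p E + T * ex p fun x => ∑ a ∈ A, rt F.toMd a * ind (¬ E x ∧ E (step x a)) := by
  have hB : Bdd fun x => ∑ a ∈ A, rt F.toMd a * ind (¬ E x ∧ E (step x a)) :=
    wd2_bd _ A fun a => Bdd.ind fun x => ¬ E x ∧ E (step x a)
  have h1 := wd2_avg hF A p (g := fun x l => ind (∃ l₁, l₁ <+: l ∧ E (l₁.foldl step x)))
    (Bdd.ind _) (b := ex p fun x => ∑ a ∈ A, rt F.toMd a * ind (¬ E x ∧ E (step x a)))
    (ex_nonneg fun x _ => Finset.sum_nonneg fun a _ => mul_nonneg (rt_nonneg hF a) (ind_nonneg _))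
    (fun l => ?_) T
  · simp only [List.prefix_nil, exists_eq_left, List.foldl_nil] at h1
    rw [mul_comm]
    refine le_trans (ex_mono (Bdd.pr _ _) (Bdd.pr (fun _ => wls F.toMd A T) fun x ws =>
      ∃ l₁, l₁ <+: ws.flatten ∧ E (l₁.foldl step x)) fun x _ => pr_mono ?_) h1
    rintro ws - ⟨u, w, i, e, k⟩
    exact ⟨_, wd2_pre e i, by rwa [List.foldl_append]⟩
  · have b1 : Bdd fun x => ind (∃ l₁, l₁ <+: l ∧ E (l₁.foldl step x)) := Bdd.ind _
    have b2 := wd2_bd F.toMd A fun a => (b1.comp fun x => step x a).sub b1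
    have b3 := wd2_bd F.toMd A fun a => ((Bdd.ind E).comp fun x => step x a).sub (Bdd.ind E)
    refine (ex_mono (wd2_bd _ A fun a => (Bdd.ind _).sub b1) ((b2.sub b3).add hB)
      fun x _ => ?_).trans (le_of_eq ?_)
    · rw [← Finset.sum_sub_distrib, ← Finset.sum_add_distrib]
      refine Finset.sum_le_sum fun a _ => ?_
      rw [← mul_sub, ← mul_add]
      refine mul_le_mul_of_nonneg_left ?_ (rt_nonneg hF a)
      have c1 := ind_le_one (∃ l₁, l₁ <+: a :: l ∧ E (l₁.foldl step x))
      have c2 := ind_nonneg (∃ l₁, l₁ <+: l ∧ E (l₁.foldl step (step x a)))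
      by_cases k2 : E (step x a)
      · rw [ind_pos (E := ∃ l₁, l₁ <+: l ∧ E (l₁.foldl step (step x a))) ⟨[], List.nil_prefix, k2⟩,
          ind_and, ind_not, ind_pos k2]
        linarith
      rw [ind_and, ind_neg k2]
      by_cases k1 : E x
      · rw [ind_pos k1]
        linarith
      · have c3 : ind (∃ l₁, l₁ <+: a :: l ∧ E (l₁.foldl step x)) ≤
            ind (∃ l₁, l₁ <+: l ∧ E (l₁.foldl step (step x a))) := ind_mono fun ⟨t, t1, t2⟩ => by
          rcases List.prefix_cons_iff.1 t1 with rfl | ⟨t, rfl, t3⟩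
          exacts [(k1 t2).elim, ⟨t, t3, t2⟩]
        rw [ind_neg k1]
        linarith
    · rw [ex_add p (b2.sub b3) hB, ex_sub p b2 b3, h _ b1, h _ (Bdd.ind E), sub_self, zero_add]

/-- A given list of letters classes occurs as a subword. -/
theorem pr_sublist (hF : F.Ok) (A : Finset (Lt d)) (Bs : List (Finset (Lt d))) {r : ℝ}
    (hr : ∀ B ∈ Bs, ∑ a ∈ B, rt F.toMd a ≤ r) :
    pr (wl F.toMd A) (fun w => ∃ w' : Word d, w'.Sublist w ∧ List.Forall₂ (fun a B => a ∈ B) w' Bs)
      ≤ r ^ Bs.length / Bs.length.factorial := by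
  classical
  have hR := wd2_R hF A
  set R := ∑ a ∈ A, rt F.toMd a with eR
  have h1 : ∀ (N : ℕ) (Bs : List (Finset (Lt d))), (∀ B ∈ Bs, ∑ a ∈ B, rt F.toMd a ≤ r) →
      wd2U F.toMd A N (fun w => ind (∃ w' : Word d, w'.Sublist w ∧
        List.Forall₂ (fun a B => a ∈ B) w' Bs)) ≤
      r ^ Bs.length * (N.choose Bs.length * R ^ (N - Bs.length)) := by
    intro N
    induction N with
    | zero =>
      intro Bs _
      rw [wd2_zero]
      rcases Bs with _ | ⟨B, Bs⟩
      · simpa using ind_le_one _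
      · rw [ind_neg (by simp)]; simp
    | succ N ih =>
      intro Bs hr
      rcases Bs with _ | ⟨B, Bs⟩
      · simp only [List.length_nil, pow_zero, Nat.choose_zero_right, Nat.cast_one, one_mul,
          Nat.sub_zero, wd2U]
        exact mul_le_of_le_one_right (pow_nonneg hR _) (pr_le_one _ _)
      have h2 := ih _ hr
      have h3 := ih Bs fun B' k => hr B' (List.mem_cons_of_mem _ k)
      have h4 := hr B List.mem_cons_self
      have h5 : 0 ≤ r := (wd2_R hF B).trans h4
      have h6 : ∑ a ∈ A, rt F.toMd a * ind (a ∈ B) ≤ r := by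
        refine le_trans ?_ h4
        rw [← Finset.sum_filter_add_sum_filter_not A (· ∈ B),
          Finset.sum_eq_zero (s := A.filter (· ∉ B)) fun a ha => by
            rw [ind_neg (Finset.mem_filter.1 ha).2, mul_zero], add_zero,
          Finset.sum_congr rfl fun a ha => by rw [ind_pos (Finset.mem_filter.1 ha).2, mul_one]]
        exact Finset.sum_le_sum_of_subset_of_nonneg (fun a ha => (Finset.mem_filter.1 ha).2)
          fun a _ _ => rt_nonneg hF a
      have h7 : R * (N.choose (Bs.length + 1) * R ^ (N - (Bs.length + 1))) =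
          N.choose (Bs.length + 1) * R ^ (N - Bs.length) := by
        rcases lt_or_ge N (Bs.length + 1) with k | k
        · rw [Nat.choose_eq_zero_of_lt k]; simp
        · rw [show N - Bs.length = N - (Bs.length + 1) + 1 by omega, pow_succ]; ring
      rw [wd2_succ hF A N (Bdd.ind _)]
      refine (Finset.sum_le_sum (g := fun a => rt F.toMd a * (r ^ (Bs.length + 1) *
        (N.choose (Bs.length + 1) * R ^ (N - (Bs.length + 1))) + ind (a ∈ B) *
        (r ^ Bs.length * (N.choose Bs.length * R ^ (N - Bs.length)))))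
        fun a _ => mul_le_mul_of_nonneg_left ?_ (rt_nonneg hF a)).trans ?_
      · refine le_trans ?_ (add_le_add h2 (mul_le_mul_of_nonneg_left h3 (ind_nonneg (a ∈ B))))
        simp only [wd2U]
        rw [mul_left_comm, ← mul_add, ← ex_mul_left _ (ind (a ∈ B)),
          ← ex_add _ (Bdd.ind _) ((Bdd.const _).mul (Bdd.ind _))]
        refine mul_le_mul_of_nonneg_left (ex_mono (Bdd.ind _)
          ((Bdd.ind _).add ((Bdd.const _).mul (Bdd.ind _))) fun l _ => ?_) (pow_nonneg hR _)
        rw [← ind_and]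
        by_cases k : ∃ w' : Word d, w'.Sublist (a :: l) ∧
          List.Forall₂ (fun a B => a ∈ B) w' (B :: Bs)
        · rw [ind_pos k]
          obtain ⟨w', k1, k2⟩ := k
          rcases List.sublist_cons_iff.1 k1 with k3 | ⟨t, rfl, k3⟩
          · rw [ind_pos ⟨w', k3, k2⟩]
            exact le_add_of_nonneg_right (ind_nonneg _)
          · obtain ⟨k4, k5⟩ := List.forall₂_cons.1 k2
            rw [ind_pos (E := a ∈ B ∧ _) ⟨k4, t, k3, k5⟩]
            exact le_add_of_nonneg_left (ind_nonneg _)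
        · rw [ind_neg k]
          exact add_nonneg (ind_nonneg _) (ind_nonneg _)
      · simp only [mul_add, Finset.sum_add_distrib, ← mul_assoc (rt F.toMd _) (ind _),
          ← Finset.sum_mul]
        rw [← eR, mul_left_comm, h7, List.length_cons, Nat.choose_succ_succ', Nat.add_sub_add_right]
        have h8 : 0 ≤ r ^ Bs.length * (N.choose Bs.length * R ^ (N - Bs.length)) := by positivity
        have h9 := mul_le_mul_of_nonneg_right h6 h8
        push_cast
        rw [pow_succ] at *
        nlinarith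
  refine (wd2_le hF A (Bdd.ind _) (h1 · Bs hr) (((wd2_exp R Bs.length).mul_left
    (r ^ Bs.length)).congr_fun fun N => by ring)).trans (le_of_eq ?_)
  rw [← eR, Real.exp_neg]
  field_simp

end Pool.Agent.Lib.MP_dd0771_pr.Sc
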