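import Pool.Agent.Lib.MP_dd0771_pr.Sc.Kit3
import Pool.Agent.Lib.MP_dd0771_pr.Sc.Wd2
import Pool.Agent.Lib.MP_dd0771_pr.Sc.Site
import Pool.Agent.Lib.MP_dd0771_pr.Sc.ValK
import Pool.Agent.Lib.MP_dd0771_pr.Sc.Scale
import Pool.Agent.Lib.MP_dd0771_pr.Sc.Stm4
import Pool.Agent.Lib.MP_dd0771_pr.Sc.IsoA

open Filter

namespace Pool.Agent.Lib.MP_dd0771_pr.Sc

theorem s_iso {d : ℕ} {F : Fr} (hd : 2 ≤ d) (hF : F.Ok)
    :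
    S_ISO d F := by
  intro K φ ψ dm Q Z Y0 T f h _
  unfold wX
  rw [iso_ex_mu]
  refine ex_congr fun η _ => ?_
  rw [iso_ex_wls hF (iso_al h K)]
  refine ex_congr fun ws _ => ?_
  rw [iso_ini, iso_tj (h.isoA K)]

end Pool.Agent.Lib.MP_dd0771_pr.Sc
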