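import Pool.Agent.Lib.MP_dd0771_pr.Sc.IsoRunA

open Filter

namespace Pool.Agent.Lib.MP_dd0771_pr.Sc

section
variable {d : ℕ} {ψ : S d ≃ S d} {dm : S d → Dir d ≃ Dir d} {F : Fr} {B : Bs} {K n l : ℕ} {pc : ℝ}
  {C : Ty} {Y : Finset (S d)} {O : Rule d} (hF : F.Ok) (h : Iso ψ dm (wQ Y C.2))
  (hQ : (wQ Y C.2).image ψ = wQ Y C.2) (hZ : (wZ Y C.2).image ψ = wZ Y C.2)
  (hz : ∀ z ∈ wZ Y C.2, Iso ψ dm (bx z (4 * DD F n)) ∧
    ∀ r, r ≤ 4 * DD F n → bx (ψ z) r = (bx z r).image ψ) (hR : RuleOk (DD F n) O)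
  (hO : ∀ k, ∀ Cd ⊆ wZ Y C.2, O k (Cd.image ψ) = (O k Cd).image fun Yt => Yt.image ψ)

theorem isorun_mem {H : Mc d} {σ : St d} {ws : List (Word d)} {ω : Cfg d} {z : S d} :
    z ∈ cand F K n l pc H σ ws ω ↔
      (z ∈ (acs F.toMd H.sy σ (ws.take (s1 F n))).2 ∧ z ∈ wZ H.Y H.L) ∧
        pregood F K n l pc (ms (al K (wQ H.Y H.L)) ω (ws.take (s1 F n))) z := by
  simp only [cand, Finset.mem_filter, Finset.mem_inter]

include h hQ in
theorem isorun_al : (al K (wQ Y C.2)).image (irL ψ dm) = al K (wQ Y C.2) := by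
  rw [← h.ir_al, hQ]

include h hQ hZ in
theorem isorun_acs (σ : St d) (ws : List (Word d)) :
    acs F.toMd ⟨al K (wQ Y C.2), wZ Y C.2⟩ (irS ψ σ) (irW ψ dm ws) =
      irS ψ (acs F.toMd ⟨al K (wQ Y C.2), wZ Y C.2⟩ σ ws) := by
  have := ir_acs (G := F.toMd) (h.ir_j K) (wZ Y C.2) σ ws
  rwa [isorun_al h hQ, hZ] at this

include hF h hQ hZ hz in
theorem isorun_cand (σ : St d) (ws : List (Word d)) (ω : Cfg d) :
    cand F K n l pc (wMc K C Y O) (irS ψ σ) (irW ψ dm ws) (irC ψ ω) =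
      (cand F K n l pc (wMc K C Y O) σ ws ω).image ψ := ir_ext fun z => by
  have a := ir_ms F.toMd (h.ir_j K) ω (ws.take (s1 F n))
  have b : ψ z ∈ wZ Y C.2 ↔ z ∈ wZ Y C.2 := by
    conv_lhs => rw [← hZ]
    exact ir_mem
  rw [isorun_al h hQ] at a
  simp only [isorun_mem, wMc, irW_take, isorun_acs h hQ hZ, a, b]
  rw [irS, ir_mem]
  exact and_congr_right fun m => ir_good hF (hz z m.2).1 (hz z m.2).2 _

include hF h hQ hZ hz hR hO in
theorem isorun_try (k : ℕ) (σ : St d) (ws : List (Word d)) :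
    tryB F B K n l pc (wMc K C Y O) k (irS ψ σ) (irW ψ dm ws) =
      (tryB F B K n l pc (wMc K C Y O) k σ ws).map (Option.map (Finset.image ψ)) := by
  have a := ir_mu (G := F.toMd) (ψ := ψ) K (pc + B.g / 2) (wQ Y C.2)
  rw [hQ] at a
  rw [tryB, tryB, PMF.map_bind]
  change (mu F.toMd K (pc + B.g / 2) (wQ Y C.2)).bind _ = (mu F.toMd K _ (wQ Y C.2)).bind _
  conv_lhs => rw [a, PMF.bind_map]
  refine kit3_bind fun ω _ => ?_
  have s : cand F K n l pc (wMc K C Y O) σ ws ω ⊆ wZ Y C.2 :=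
    fun z a => (isorun_mem.1 a).1.2
  have e : (wMc K C Y O).O k (cand F K n l pc (wMc K C Y O) (irS ψ σ) (irW ψ dm ws) (irC ψ ω)) =
      ((wMc K C Y O).O k (cand F K n l pc (wMc K C Y O) σ ws ω)).image (Finset.image ψ) := by
    rw [isorun_cand hF h hQ hZ hz]
    exact hO k _ s
  simp only [Function.comp_apply, e, Finset.image_nonempty]
  split_ifs with c
  · rw [ir_unif (Finset.image_injective ψ.injective) c, PMF.bind_map, PMF.map_bind]
    refine kit3_bind fun Yt m => ?_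
    have m' : Yt ⊆ wZ Y C.2 :=
      (hR k _ Yt ((PMF.mem_support_uniformOfFinset_iff ..).1 m)).1.trans s
    have p : (Yt.image ψ).toList.Perm (Yt.toList.map ψ) :=
      (List.perm_ext_iff_of_nodup (Finset.nodup_toList _)
        ((Finset.nodup_toList _).map ψ.injective)).2 fun x => by simp
    rw [Function.comp_apply, ir_perm _ p, irW_drop,
      ir_LTs _ fun z a => hz z (m' (Finset.mem_toList.1 a)), PMF.map_comp]
    exact kit3_map fun b _ => by cases b <;> rfl
  · rw [PMF.pure_map]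
    rfl

include hF h hQ hZ hz hR hO in
theorem isorun_run (m k : ℕ) (σ : St d) :
    run F B K n l pc (wMc K C Y O) m k (irS ψ σ) =
      (run F B K n l pc (wMc K C Y O) m k σ).map (Option.map fun p => (p.1, p.2.image ψ)) := by
  induction m generalizing k σ with
  | zero =>
    rw [run, run, PMF.pure_map]
    rfl
  | succ m ih =>
    have a := ir_wls (ψ := ψ) (dm := dm) hF (al K (wQ Y C.2)) (sb F B n l)
    rw [isorun_al h hQ] at a
    rw [run, run, PMF.map_bind]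
    change (wls F.toMd (al K (wQ Y C.2)) _).bind _ = (wls F.toMd (al K (wQ Y C.2)) _).bind _
    conv_lhs => rw [a, PMF.bind_map]
    refine kit3_bind fun ws _ => ?_
    rw [Function.comp_apply, isorun_try hF h hQ hZ hz hR hO, PMF.bind_map, PMF.map_bind]
    refine kit3_bind fun o _ => ?_
    cases o with
    | none => exact (congrArg _ (isorun_acs h hQ hZ σ ws)).trans (ih _ _)
    | some Yt => exact (PMF.pure_map (Option.map fun p : ℕ × Finset (S d) =>
        (p.1, p.2.image ψ)) (some (k, Yt))).symm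

end

theorem isorun_bdd {α : Type} {v : α → ℝ} (h : Bdd v) : Bdd fun o : Option α => o.elim 0 v := by
  obtain ⟨M, h⟩ := h
  refine ⟨|M|, fun o => ?_⟩
  cases o with
  | none => simp
  | some a => exact (h a).trans (le_abs_self M)

theorem s_isorun {d : ℕ} {F : Fr} (hd : 2 ≤ d) (hF : F.Ok)
    :
    S_ISORUN d F := by
  intro B K n l pc C Y O m ψ dm v h hY hb hD hR hO hv
  have by' : ∀ y ∈ Y, ∀ r, r ≤ 2 * C.2 → (bx y r).image ψ = bx y r := fun y a r e => by
    rw [hb y r ((bx_mono y e).trans (Finset.subset_biUnion_of_mem (fun y => bx y (2 * C.2)) a)),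
      hY y a]
  have hQ : (wQ Y C.2).image ψ = wQ Y C.2 := by
    rw [wQ, Finset.biUnion_image]
    exact Finset.biUnion_congr rfl fun y a => by' y a _ le_rfl
  have hZ : (wZ Y C.2).image ψ = wZ Y C.2 := by
    rw [wZ, Finset.biUnion_image]
    exact Finset.biUnion_congr rfl fun y a => by' y a _ (by omega)
  have hY' : Y.image ψ = Y := (Finset.image_congr (g := id) fun y a => hY y a).trans Finset.image_id
  have hz : ∀ z ∈ wZ Y C.2, Iso ψ dm (bx z (4 * DD F n)) ∧
      ∀ r, r ≤ 4 * DD F n → bx (ψ z) r = (bx z r).image ψ := fun z a => by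
    obtain ⟨y, a, c⟩ := Finset.mem_biUnion.1 a
    have s : bx z (4 * DD F n) ⊆ wQ Y C.2 :=
      (bx_subset (by have := mem_bx.1 c; omega)).trans
        (Finset.subset_biUnion_of_mem (fun y => bx y (2 * C.2)) a)
    exact ⟨h.ir_sub s, fun r e => (hb z r ((bx_mono z e).trans s)).symm⟩
  have r : ∀ σ, rv F B K n l pc (wMc K C Y O) m (irS ψ σ) v =
      rv F B K n l pc (wMc K C Y O) m σ fun p => v (p.1, p.2.image ψ) := fun σ => by
    rw [rv, rv, isorun_run hF h hQ hZ hz hR hO, ex_map _ _ (isorun_bdd hv)]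
    exact ex_congr fun o _ => by cases o <;> rfl
  have a := ir_wls (ψ := ψ) (dm := dm) hF (al K (wQ Y C.2)) B.n0
  have b := ir_mu (G := F.toMd) (ψ := ψ) K C.1 (wQ Y C.2)
  rw [isorun_al h hQ] at a
  rw [hQ] at b
  have c : Bdd fun σ : St d => ind (∀ y ∈ Y, ∃ x ∈ σ.2, x ∈ bx y C.2) *
      rv F B K n l pc (wMc K C Y O) m σ v :=
    (Bdd.ind _).mul (Bdd.ex (f := fun _ o => Option.elim o 0 v) ((isorun_bdd hv).comp Prod.snd) _)
  rw [wEv, wEv]
  conv_lhs => rw [b, ex_map _ _ (Bdd.ex (c.comp fun p : Cfg d × List (Word d) =>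
    acs F.toMd ⟨al K (wQ Y C.2), wZ Y C.2⟩ (ini F.toMd (wZ Y C.2) Y p.1) p.2) fun _ => _)]
  refine ex_congr fun η _ => ?_
  conv_lhs => rw [a, ex_map _ _ (c.comp _)]
  refine ex_congr fun ws _ => ?_
  have i := ir_ini (G := F.toMd) (ψ := ψ) (wZ Y C.2) Y η
  rw [hZ, hY'] at i
  rw [i, isorun_acs h hQ hZ, r]
  congr 2
  refine propext (forall₂_congr fun y a => ?_)
  conv_lhs => rw [← by' y a C.2 (by omega)]
  simp only [irS, Finset.exists_mem_image, ir_mem]

end Pool.Agent.Lib.MP_dd0771_pr.Sc
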