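import Pool.Agent.Lib.MP_dd0771_pr.Sc.Kit

open Filter

namespace Pool.Agent.Lib.MP_dd0771_pr.Sc

theorem ld_num : ∀ᶠ m : ℕ in atTop, m ^ 4 ≤ Nat.sqrt (2 ^ m) := by
  have h := (isLittleO_pow_const_const_pow_of_one_lt (R := ℝ) 8 one_lt_two).def one_pos
  filter_upwards [h] with m hm
  rw [Nat.le_sqrt', ← pow_mul]
  rw [Real.norm_of_nonneg (by positivity), Real.norm_of_nonneg (by positivity), one_mul] at hm
  exact_mod_cast hm

theorem ld_comb {R : ℕ → ℕ → Prop} {D W J : ℕ} (D0 : 1 ≤ D) (hJ : W < 2 ^ J)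
    (h1 : ∀ j, j ≤ J → R j W) (h2 : ∀ j t, R j t → D ≤ t) :
    ∃ j T, j < J ∧ R (j + 1) T ∧ (∀ t, 2 * t < T → ¬ R j t) ∧ D ≤ T ∧ T ≤ W := by
  classical
  by_contra hne
  push Not at hne
  have key : ∀ j, j ≤ J → ∀ t, R j t → 2 ^ j ≤ t := by
    intro j
    induction j with
    | zero => exact fun _ t ht => D0.trans (h2 0 t ht)
    | succ j ih =>
      intro hj
      have ex : ∃ t, R (j + 1) t := ⟨W, h1 _ hj⟩
      suffices h : 2 ^ (j + 1) ≤ Nat.find ex from fun t ht => h.trans (Nat.find_min' ex ht)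
      by_contra hlt
      refine absurd (hne j _ hj (Nat.find_spec ex) (fun t ht hr => ?_)
        (h2 _ _ (Nat.find_spec ex))) (not_lt.2 (Nat.find_min' ex (h1 _ hj)))
      have := ih (by omega) t hr
      rw [pow_succ] at hlt
      omega
  exact absurd (key J le_rfl W (h1 J le_rfl)) (not_le.2 hJ)

theorem s_ld {d : ℕ} {F : Fr} (hd : 2 ≤ d) (hF : F.Ok) (hL : Low d F) (hE : Eng d F)
    :
    S_LD d F := by
  intro c CT e0 N c0 _ _ hW B hB he
  have th0 : 0 < c * B.th / 2 := by have := hB.2.2.2.1; positivity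
  filter_upwards [hW B hB he, hL.hCHN, er_small th0, ld_num, eventually_ge_atTop B.n0,
    eventually_ge_atTop (6 * CT + 6)] with m h1 h2 h3 h4 h5 h6 K hK
  obtain ⟨D, hD⟩ : ∃ D, D = Nat.sqrt (2 ^ m) := ⟨_, rfl⟩
  obtain ⟨H, hH⟩ : ∃ H, 2 ^ m = 2 * H := ⟨2 ^ (m - 1), by
    rw [← pow_succ', Nat.sub_add_cancel (by omega)]⟩
  have d1 : D * D ≤ 2 * H := hH ▸ hD ▸ Nat.sqrt_le _
  rw [← hD] at h4
  have m1 : 6 * m ^ 3 ≤ D := by
    refine le_trans ?_ h4
    rw [pow_succ' m 3]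
    exact Nat.mul_le_mul_right _ (by omega)
  have m2 : m * m ≤ D := by
    refine le_trans ?_ h4
    rw [← pow_two]
    exact Nat.pow_le_pow_right (by omega) (by omega)
  have m3 : 6 * (m * CT + 1) ≤ D := by nlinarith
  have m4 : m ≤ D := by nlinarith
  have kp : KP F K (B.p 2) := BK.kp hF hB hK (by
    have := hB.2.1; simp only [Bs.p]; push_cast; linarith) (by
    have := hB.2.1; simp only [Bs.p]; push_cast; linarith)
  obtain ⟨j, T, j1, j2, j3, j4, j5⟩ := ld_comb (R := fun j t =>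
      c * B.th ≤ reach d F.toMd K (B.p 2, 2 ^ m) B.n0 (H + j * D) t) (D := D) (W := (2 ^ m) ^ CT)
      (J := m * CT + 1) (by omega) (by
        rw [← pow_mul]; exact Nat.pow_lt_pow_right one_lt_two (Nat.lt_succ_self _))
      (fun j hj => (h1 K hK).trans (by
        unfold reach cP
        refine wP_mono ?_
        rintro I - ⟨u, u1, u2, x, x1, x2⟩
        refine ⟨u, u1, u2, x, x1, le_trans ?_ x2⟩
        rw [Nat.le_div_iff_mul_le (by norm_num), hH]
        nlinarith [Nat.mul_le_mul_right D hj, Nat.mul_le_mul_right D m3]))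
      (fun j t ht => by
        by_contra hlt
        have t1 : B.n0 + t ≤ 2 ^ (4 * m) := by
          refine le_trans ?_ (Nat.pow_le_pow_right two_pos (by omega : m ≤ 4 * m))
          nlinarith
        have t2 := h2 K (B.p 2) (bx (0 : S d) (2 * 2 ^ m)) (bx 0 (2 ^ m)) {0} (B.n0 + t) kp
          (by simp) t1
        suffices t3 : reach d F.toMd K (B.p 2, 2 ^ m) B.n0 (H + j * D) t ≤ er m by
          linarith [h3.1]
        unfold reach cP
        refine le_trans (wP_mono ?_) t2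
        rintro I hI ⟨u, -, u2, x, x1, x2⟩ hc
        obtain ⟨γ, g1, g2, g3⟩ := hc.chain u2 x1
        have g4 := g3 0 u
        rw [g1, Finset.mem_singleton.1 (hI.1 (g2 0 (Nat.zero_le u))), sub_zero, Nat.zero_max,
          Nat.zero_min, Nat.sub_zero, VV] at g4
        have g5 : m ^ 3 * u ≤ m ^ 3 * (2 * D) := Nat.mul_le_mul_left _ (by omega)
        nlinarith [Nat.mul_le_mul_right D m1, Nat.zero_le (j * D)])
  refine ⟨H + j * D, T, by omega, ?_, ?_, fun t ht => (not_le.1 (j3 t ht)).le, hD ▸ j4, j5⟩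
  · rw [← hD, hH]
    nlinarith [Nat.mul_le_mul_right D (Nat.succ_le_of_lt j1), Nat.mul_le_mul_right D m3]
  · rwa [← hD, add_assoc, ← Nat.succ_mul]

end Pool.Agent.Lib.MP_dd0771_pr.Sc
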