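import Pool.Agent.Lib.MP_dd0771_pr.Sc.LiveB

open Filter

namespace Pool.Agent.Lib.MP_dd0771_pr.Sc

section
variable {d : ℕ} {F : Fr} {B : Bs} {K n l : ℕ} {pc : ℝ} {H : Mc d}
  {P : ℕ × Finset (S d) → Prop}

theorem live_exp (J : Finset ℕ) (E : ℕ → Prop) {t u : ℝ} (t0 : 0 ≤ t)
    (h : u ≤ ∑ k ∈ J, ind (E k)) :
    1 ≤ Real.exp (-(t * u)) * ∏ k ∈ J, Real.exp (t * ind (E k)) := by
  rw [← Real.exp_sum, ← Real.exp_add, ← Finset.mul_sum]
  exact Real.one_le_exp (by nlinarith)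

theorem live_bexp {α : Type} {t : ℝ} (t0 : 0 ≤ t) (E : α → Prop) :
    Bdd fun a => Real.exp (t * ind (E a)) := ⟨Real.exp t, fun b => by
  rw [abs_of_pos (Real.exp_pos _)]
  exact Real.exp_le_exp.2 (mul_le_of_le_one_right t0 (ind_le_one _))⟩

theorem live_bsum {α β : Type} (J : Finset β) {g : β → α → ℝ} (h : ∀ k ∈ J, Bdd (g k)) :
    Bdd fun a => ∑ k ∈ J, g k a := by
  classical
  induction J using Finset.induction_on with
  | empty => simpa using Bdd.const 0
  | insert k J hk ih =>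
    simpa only [Finset.sum_insert hk] using (h k (Finset.mem_insert_self _ _)).add
      (ih fun j hj => h j (Finset.mem_insert_of_mem hj))

variable (F B K n l pc H) in
/-- failure of a block, weighted by the presence of an option -/
noncomputable def liveU (c : ℝ) (σ : St d) (k : ℕ) (a b : List (Word d)) : ℝ :=
  liveF F B K n l pc H k (acs F.toMd H.sy σ a) b *
    Real.exp (c / 2 * ind (liveO F B K n l pc H k (acs F.toMd H.sy σ a) b))

variable (F B K n l pc H) in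
/-- weight of a block along a chain -/
noncomputable def liveV (t : ℝ) (y : ℕ → S d) (k : ℕ) (_a b : List (Word d)) : ℝ :=
  Real.exp (t * ind (liveH F B K n l pc H b (y k)))

theorem live_ptw {c t : ℝ} (c0 : 0 ≤ c) (t0 : 0 ≤ t) {σ : St d} {m : ℕ} {ws : List (Word d)}
    {C : ℕ → Finset (ℕ → S d)} (hC : ∀ k1, ∀ x : ℕ → S d, x k1 ∈ wZ H.Y H.L →
      (∀ k, k1 ≤ k → k < k1 + mm F n → nrm (x (k + 1) - x k) ≤ VV n * sb F B n (ls n)) →
      ∃ y ∈ C k1, ∀ k, k1 ≤ k → k ≤ k1 + mm F n → y k = x k) (hM : 0 < mm F n) :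
    ind (CE F B n (wZ H.Y H.L) H.O m P (tj F.toMd H.sy σ ws)) ≤
      liveR F B K n (ls n) pc H P m 0 σ ws +
      ∑ k1 ∈ (Finset.range (m + 1)).filter fun k1 => k1 + mm F n ≤ m,
        (Real.exp (-(c / 2 * (mm F n / 4))) * ∏ k ∈ Finset.Ico k1 (k1 + mm F n),
          liveU F B K n (ls n) pc H c σ k (ws.take (k * sb F B n (ls n)))
            (liveB (sb F B n (ls n)) k ws) +
        ∑ y ∈ C k1, Real.exp (-(t * (mm F n / 8))) * ∏ k ∈ Finset.Ico k1 (k1 + mm F n),
          liveV F B K n (ls n) pc H t y k (ws.take (k * sb F B n (ls n)))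
            (liveB (sb F B n (ls n)) k ws)) := by
  classical
  have u0 : ∀ k1, 0 ≤ Real.exp (-(c / 2 * (mm F n / 4))) * ∏ k ∈ Finset.Ico k1 (k1 + mm F n),
      liveU F B K n (ls n) pc H c σ k (ws.take (k * sb F B n (ls n)))
        (liveB (sb F B n (ls n)) k ws) := fun k1 => mul_nonneg (Real.exp_pos _).le
    (Finset.prod_nonneg fun k _ => mul_nonneg (pr_nonneg _ _) (Real.exp_pos _).le)
  have v0 : ∀ k1 y, 0 ≤ Real.exp (-(t * (mm F n / 8))) * ∏ k ∈ Finset.Ico k1 (k1 + mm F n),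
      liveV F B K n (ls n) pc H t y k (ws.take (k * sb F B n (ls n)))
        (liveB (sb F B n (ls n)) k ws) := fun k1 y => mul_nonneg (Real.exp_pos _).le
    (Finset.prod_nonneg fun k _ => (Real.exp_pos _).le)
  have r0 := (live_01 (F := F) (B := B) (K := K) (n := n) (l := ls n) (pc := pc) (H := H) (P := P)
    m 0 σ ws).1
  by_cases h : CE F B n (wZ H.Y H.L) H.O m P (tj F.toMd H.sy σ ws)
  swap
  · rw [ind_neg h]
    exact add_nonneg r0 (Finset.sum_nonneg fun k1 _ =>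
      add_nonneg (u0 k1) (Finset.sum_nonneg fun y _ => v0 k1 y))
  rw [ind_pos h]
  obtain ⟨k1, hk, hP, x1, x2, hx, hc⟩ := h
  refine le_trans ?_ (add_le_add_right (Finset.single_le_sum (a := k1)
    (fun k _ => add_nonneg (u0 k) (Finset.sum_nonneg fun y _ => v0 k y))
    (Finset.mem_filter.2 ⟨Finset.mem_range.2 (by omega), hk⟩)) _)
  obtain ⟨y1, hy1, e1⟩ := hC k1 x1 (Finset.mem_inter.1 (hx k1 le_rfl (by omega)).1).2
    fun k a b => (hx k a b).2.2.1
  obtain ⟨y2, hy2, e2⟩ := hC k1 x2 (Finset.mem_inter.1 (hx k1 le_rfl (by omega)).2.1).2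
    fun k a b => (hx k a b).2.2.2
  have hs : (mm F n : ℝ) ≤ 2 * ∑ k ∈ Finset.Ico k1 (k1 + mm F n),
      (ind (liveO F B K n (ls n) pc H k (acs F.toMd H.sy σ (ws.take (k * sb F B n (ls n))))
        (liveB (sb F B n (ls n)) k ws)) +
      (ind (liveH F B K n (ls n) pc H (liveB (sb F B n (ls n)) k ws) (y1 k)) +
      ind (liveH F B K n (ls n) pc H (liveB (sb F B n (ls n)) k ws) (y2 k)))) := by
    refine (Nat.cast_le.2 hc).trans ?_
    rw [Nat.cast_mul, Nat.cast_ofNat, Finset.card_filter, Nat.cast_sum]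
    refine mul_le_mul_of_nonneg_left (Finset.sum_le_sum fun k hk' => ?_) zero_le_two
    obtain ⟨a, b⟩ := Finset.mem_Ico.1 hk'
    have i1 := ind_nonneg (liveO F B K n (ls n) pc H k
      (acs F.toMd H.sy σ (ws.take (k * sb F B n (ls n)))) (liveB (sb F B n (ls n)) k ws))
    have i2 := ind_nonneg (liveH F B K n (ls n) pc H (liveB (sb F B n (ls n)) k ws) (y1 k))
    have i3 := ind_nonneg (liveH F B K n (ls n) pc H (liveB (sb F B n (ls n)) k ws) (y2 k))
    split_ifs with g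
    · have h1 := hx k a b
      rw [← live_cand] at h1 g
      rw [e1 k a b.le, e2 k a b.le] at *
      rcases live_good (B := B) (K := K) (l := ls n) (pc := pc) h1.1 h1.2.1 g with g | g | g <;>
        rw [ind_pos g, Nat.cast_one] <;> linarith
    · rw [Nat.cast_zero]
      linarith
  rw [Finset.sum_add_distrib, Finset.sum_add_distrib] at hs
  have hv : ∀ y ∈ C k1, (mm F n / 8 : ℝ) ≤ ∑ k ∈ Finset.Ico k1 (k1 + mm F n),
      ind (liveH F B K n (ls n) pc H (liveB (sb F B n (ls n)) k ws) (y k)) →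
      1 ≤ ∑ y ∈ C k1, Real.exp (-(t * (mm F n / 8))) * ∏ k ∈ Finset.Ico k1 (k1 + mm F n),
        liveV F B K n (ls n) pc H t y k (ws.take (k * sb F B n (ls n)))
          (liveB (sb F B n (ls n)) k ws) := fun y hy g =>
    (live_exp _ _ t0 g).trans (Finset.single_le_sum (fun y _ => v0 k1 y) hy)
  by_cases g : (mm F n / 4 : ℝ) ≤ ∑ k ∈ Finset.Ico k1 (k1 + mm F n),
      ind (liveO F B K n (ls n) pc H k (acs F.toMd H.sy σ (ws.take (k * sb F B n (ls n))))
        (liveB (sb F B n (ls n)) k ws))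
  · have h1 := live_pt (B := B) (K := K) (pc := pc) (P := P) (k1 + mm F n) m 0 σ ws hk
      fun i hi ω Yt hY => by
        rw [zero_add] at hY ⊢
        exact hP i hi _ (by rw [← live_cand]; exact live_sub _ _ ω) Yt hY
    simp only [zero_add] at h1
    have h2 := Finset.prod_le_prod_of_subset_of_le_one (s := Finset.Ico k1 (k1 + mm F n))
      (t := Finset.range (k1 + mm F n)) (f := fun i => liveF F B K n (ls n) pc H i
        (acs F.toMd H.sy σ (ws.take (i * sb F B n (ls n)))) (liveB (sb F B n (ls n)) i ws))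
      (fun i hi => Finset.mem_range.2 (Finset.mem_Ico.1 hi).2) (fun i _ => pr_nonneg _ _)
      fun i _ _ => pr_le_one _ _
    have h3 := mul_le_mul_of_nonneg_left (live_exp _ _ (div_nonneg c0 zero_le_two) g)
      (Finset.prod_nonneg (s := Finset.Ico k1 (k1 + mm F n)) (f := fun i =>
        liveF F B K n (ls n) pc H i (acs F.toMd H.sy σ (ws.take (i * sb F B n (ls n))))
          (liveB (sb F B n (ls n)) i ws)) fun i _ => pr_nonneg _ _)
    rw [mul_one, mul_left_comm, ← Finset.prod_mul_distrib] at h3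
    have h4 := Finset.sum_nonneg fun y (_ : y ∈ C k1) => v0 k1 y
    unfold liveU
    linarith
  · have h1 := u0 k1
    by_cases g1 : (mm F n / 8 : ℝ) ≤ ∑ k ∈ Finset.Ico k1 (k1 + mm F n),
      ind (liveH F B K n (ls n) pc H (liveB (sb F B n (ls n)) k ws) (y1 k))
    · linarith [hv y1 hy1 g1]
    · linarith [hv y2 hy2 (by linarith [not_le.1 g, not_le.1 g1])]

theorem live_key (hF : F.Ok) (hS : S_STAT d F) (hK : KP F K (pc + B.g / 2))
    (hA : al K (wQ H.Y H.L) ⊆ H.sy.A) {c t : ℝ} (c0 : 0 ≤ c) (t0 : 0 ≤ t)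
    (hQ : ∀ k, ∀ Cd ⊆ wZ H.Y H.L, ∀ Yt ∈ H.O k Cd,
      c ≤ ex (wls F.toMd H.sy.A (sq F B (ls n))) fun b =>
        pr (LTs F B K n (ls n) pc b Yt.toList) fun t => t = true)
    (hp : ∀ x ∈ wZ H.Y H.L, pr (mu F.toMd K (pc + B.g / 2) (wQ H.Y H.L))
      (fun ω => ¬ pregood F K n (ls n) pc ω x) ≤ Real.exp (-t)) (hM : 0 < mm F n)
    (σ : St d) (m : ℕ) :
    pr (wls F.toMd H.sy.A (m * sb F B n (ls n)))
      (fun ws => CE F B n (wZ H.Y H.L) H.O m P (tj F.toMd H.sy σ ws)) ≤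
      (rv F B K n (ls n) pc H m σ fun p => ind (P p)) + (m + 1 : ℕ) *
        (Real.exp (-(c / 2 * (mm F n / 4))) +
          ((wZ H.Y H.L).card * ((2 * (VV n * sb F B n (ls n)) + 1) ^ d) ^ mm F n : ℕ) *
            (Real.exp (-(t * (mm F n / 8))) * 5 ^ mm F n)) := by
  choose C h1 h2 using fun k1 => live_ch (wZ H.Y H.L) (VV n * sb F B n (ls n)) k1 (mm F n)
  have bu : ∀ k, Bdd fun x : List (Word d) × List (Word d) =>
      liveU F B K n (ls n) pc H c σ k x.1 x.2 := fun k =>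
    (Bdd.of01 fun x => ⟨pr_nonneg _ _, pr_le_one _ _⟩).mul (live_bexp (by positivity) _)
  have bv : ∀ y k, Bdd fun x : List (Word d) × List (Word d) =>
      liveV F B K n (ls n) pc H t y k x.1 x.2 := fun y k => live_bexp t0 _
  have bU : ∀ k1, Bdd fun ws : List (Word d) => Real.exp (-(c / 2 * (mm F n / 4))) *
      ∏ k ∈ Finset.Ico k1 (k1 + mm F n), liveU F B K n (ls n) pc H c σ k
        (ws.take (k * sb F B n (ls n))) (liveB (sb F B n (ls n)) k ws) := fun k1 =>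
    (Bdd.const _).mul (live_bdd _ fun k => (bu k).comp fun ws : List (Word d) =>
      (ws.take (k * sb F B n (ls n)), liveB (sb F B n (ls n)) k ws))
  have bV : ∀ k1 y, Bdd fun ws : List (Word d) => Real.exp (-(t * (mm F n / 8))) *
      ∏ k ∈ Finset.Ico k1 (k1 + mm F n), liveV F B K n (ls n) pc H t y k
        (ws.take (k * sb F B n (ls n))) (liveB (sb F B n (ls n)) k ws) := fun k1 y =>
    (Bdd.const _).mul (live_bdd _ fun k => (bv y k).comp fun ws : List (Word d) =>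
      (ws.take (k * sb F B n (ls n)), liveB (sb F B n (ls n)) k ws))
  have bS := fun k1 => (bU k1).add (live_bsum (C k1) fun y _ => bV k1 y)
  have bR : Bdd (liveR F B K n (ls n) pc H P m 0 σ) := Bdd.of01 fun ws => live_01 _ _ _ _
  refine (ex_mono (Bdd.ind _) (bR.add (live_bsum _ fun k1 _ => bS k1))
    fun ws _ => live_ptw c0 t0 h2 hM).trans ?_
  rw [ex_add _ bR (live_bsum _ fun k1 _ => bS k1), ex_sum _ _ fun k1 _ => bS k1, rv, live_rv]
  refine add_le_add_right ((Finset.sum_le_card_nsmul _ _ _ fun k1 hk => ?_).trans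
    ((nsmul_eq_mul _ _).le.trans (mul_le_mul_of_nonneg_right (Nat.cast_le.2
      ((Finset.card_filter_le _ _).trans (Finset.card_range _).le)) (by positivity)))) _
  have hJ : Finset.Ico k1 (k1 + mm F n) ⊆ Finset.range m := fun k h =>
    Finset.mem_range.2 ((Finset.mem_Ico.1 h).2.trans_le (Finset.mem_filter.1 hk).2)
  rw [ex_add _ (bU k1) (live_bsum (C k1) fun y _ => bV k1 y), ex_sum _ _ fun y _ => bV k1 y,
    ex_mul_left]
  refine add_le_add (mul_le_of_le_one_right (Real.exp_pos _).le ?_)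
    ((Finset.sum_le_card_nsmul _ _ _ fun y _ => ?_).trans ((nsmul_eq_mul _ _).le.trans
      (mul_le_mul_of_nonneg_right (Nat.cast_le.2 (h1 k1)) (by positivity))))
  · exact (live_prod _ _ bu (fun k a b => mul_nonneg (pr_nonneg _ _) (Real.exp_pos _).le)
      (fun k a => live_one c0 hQ k _) hJ).trans (one_pow _).le
  · rw [ex_mul_left]
    refine mul_le_mul_of_nonneg_left ((live_prod _ _ (bv y) (fun k a b => (Real.exp_pos _).le)
      (fun k a => live_two hF hS hK hA t0 (y k) (hp _)) hJ).trans ?_) (Real.exp_pos _).le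
    rw [Nat.card_Ico, Nat.add_sub_cancel_left]

theorem live_num {d n m M l Z R : ℕ} {c : ℝ} (hn : 32 * (8 + 5 * d) ≤ n) (hm : m ≤ 2 ^ (n + 1))
    (hl : 2 ≤ l) (hM : n ^ 2 ≤ M) (hc : 4 * (n : ℝ) ^ 2 ≤ c * M) (hZ : Z ≤ 2 ^ (5 * n * d))
    (hR : 5 * (R : ℝ) ≤ Real.exp (1 / 64 * l)) :
    ((m + 1 : ℕ) : ℝ) * (Real.exp (-(c / 2 * (M / 4))) +
      (Z * R ^ M : ℕ) * (Real.exp (-(l / 4 * (M / 8))) * 5 ^ M)) ≤ er n := by
  have two : ∀ k : ℕ, (2 : ℝ) ^ k ≤ Real.exp k := fun k => by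
    rw [← Real.exp_one_pow]
    exact pow_le_pow_left₀ zero_le_two (by linarith [Real.add_one_le_exp 1]) k
  have hn' : 32 * (8 + 5 * d : ℝ) ≤ n := by exact_mod_cast hn
  have hl' : (2 : ℝ) ≤ l := by exact_mod_cast hl
  have hM' : (n : ℝ) ^ 2 ≤ M := by exact_mod_cast hM
  have d0 : (0 : ℝ) ≤ d := d.cast_nonneg
  have h1 : ((m + 1 : ℕ) : ℝ) ≤ 2 ^ (n + 2) := by
    have : 1 ≤ 2 ^ (n + 1) := Nat.one_le_two_pow
    exact_mod_cast (by rw [pow_succ 2 (n + 1)]; omega : m + 1 ≤ 2 ^ (n + 2))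
  have h2 : (Z : ℝ) ≤ 2 ^ (5 * n * d) := by exact_mod_cast hZ
  have h3 : (R : ℝ) ^ M * (Real.exp (-(l / 4 * (M / 8))) * 5 ^ M) ≤ Real.exp (-(n ^ 2 / 32)) := by
    rw [mul_left_comm, ← mul_pow, mul_comm (R : ℝ)]
    refine (mul_le_mul_of_nonneg_left (pow_le_pow_left₀ (by positivity) hR M)
      (Real.exp_pos _).le).trans ?_
    rw [← Real.exp_nat_mul, ← Real.exp_add]
    exact Real.exp_le_exp.2 (by nlinarith [sq_nonneg (n : ℝ)])
  have h4 : Real.exp (-(c / 2 * (M / 4))) ≤ 2 ^ (5 * n * d) * Real.exp (-(n ^ 2 / 32)) :=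
    (Real.exp_le_exp.2 (by nlinarith [sq_nonneg (n : ℝ)])).trans
      (le_mul_of_one_le_left (Real.exp_pos _).le (one_le_pow₀ one_le_two))
  have h5 : (2 : ℝ) ^ (n + 2 + (1 + 5 * n * d) + 4 * n) ≤ Real.exp (n ^ 2 / 32) :=
    (two _).trans (Real.exp_le_exp.2 (by push_cast; nlinarith))
  rw [Nat.cast_mul, Nat.cast_pow, mul_assoc]
  refine (mul_le_mul h1 (add_le_add h4 (mul_le_mul h2 h3 (by positivity) (by positivity)))
    (by positivity) (by positivity)).trans ?_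
  rw [er, one_div, inv_pow, Real.exp_neg, ← two_mul, ← mul_assoc, ← mul_assoc,
    mul_inv_le_iff₀ (Real.exp_pos _), le_inv_mul_iff₀ (by positivity)]
  refine le_trans (le_of_eq ?_) h5
  ring

end

theorem s_live {d : ℕ} {F : Fr} (hd : 2 ≤ d) (hF : F.Ok) (hL : Low d F)
    (hPBAD : S_PBAD d F) (hQQ : S_QQ d F) :
    S_LIVE d F := by
  intro B hB
  filter_upwards [hPBAD B hB, hQQ B hB, scales hF B, ls_le,
    pow_le_exp_ls ((2 * F.A + 8) * d + 1) (show (0 : ℝ) < 1 / 64 by norm_num),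
    card_le (show 1 ≤ d by omega), eventually_ge_atTop (32 * (8 + 5 * d))]
    with n h1 h2 h3 h4 h5 h6 h7 K hK pc H σ m P p1 p2 hY l1 l2 hA hQ hO hm
  obtain ⟨Q, hQ⟩ := hQ
  obtain ⟨q0, q1, q2, q3⟩ := h2 K hK (ls n) pc le_rfl h4.2 p1 p2
  have g0 := hB.2.1
  have hb : ∀ z ∈ wZ H.Y H.L, bx z (4 * DD F n) ⊆ wQ H.Y H.L := fun z hz => by
    obtain ⟨y, hy, hz⟩ := Finset.mem_biUnion.1 hz
    exact (bx_subset (by have := mem_bx.1 hz; omega)).trans
      (Finset.subset_biUnion_of_mem (fun y => bx y (2 * H.L)) hy)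
  have hM : n ^ 2 ≤ mm F n := Nat.le_mul_of_pos_right _ (by positivity)
  have key := live_key (P := P) (c := qq d F B K n (ls n) pc ^ 2) (t := ls n / 4) hF hL.hSTAT
    (hK.kp hF hB (φ := pc + B.g / 2) (by linarith) (by
      rw [Bs.p] at p2; push_cast at p2; linarith)) hA (by positivity) (by positivity)
    (fun k Cd hC Yt hY => by
      obtain ⟨o1, -, o2, o3⟩ := hO k Cd Yt hY
      rw [hQ, q3 Q Yt o2 (fun z hz => (hb z (hC (o1 hz))).trans (subset_of_al (hQ ▸ hA))) o3]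
      exact pow_le_pow_of_le_one q0 q1 o2)
    (fun x hx => by
      rw [← neg_div]
      exact h1 K hK (ls n) pc _ x le_rfl h4.2 p1 p2 (hb x hx))
    (lt_of_lt_of_le (pow_pos (by omega) 2) hM) σ m
  refine sub_le_iff_le_add.2 (key.trans (add_le_add_right (live_num h7 hm h4.1 hM ?_ ?_ ?_) _))
  · have := mul_le_mul_of_nonneg_right q2 (Nat.cast_nonneg (mm F n))
    refine le_trans (le_of_eq ?_) this
    rw [mm, one_div, inv_pow]
    push_cast
    field_simp
  · refine ((Finset.card_le_card (wZ_subset_wQ _ _)).trans (card_wQ _ _)).trans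
      (le_trans (Nat.mul_le_mul hY (Nat.pow_le_pow_left ?_ d)) h6)
    have : 2 ^ (n + 2) ≤ 2 ^ (4 * n + 3) := Nat.pow_le_pow_right two_pos (by omega)
    rw [pow_add] at this
    omega
  · refine le_trans ?_ h5
    have a1 : VV n * sb F B n (ls n) ≤ n ^ (2 * F.A + 7) := by
      rw [show 2 * F.A + 7 = 3 + (2 * F.A + 4) by ring, pow_add]
      exact Nat.mul_le_mul_left _ (h3.2.2.2.2.2.2.2 _ h4.2)
    have a2 : 2 * (VV n * sb F B n (ls n)) + 1 ≤ n ^ (2 * F.A + 8) := by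
      have := Nat.one_le_pow (2 * F.A + 7) n (by omega)
      have := Nat.mul_le_mul_left (n ^ (2 * F.A + 7)) (show 3 ≤ n by omega)
      rw [pow_succ n (2 * F.A + 7)]
      omega
    have a3 := Nat.mul_le_mul (Nat.pow_le_pow_left a2 d) (show 5 ≤ n by omega)
    rw [← pow_mul, ← pow_succ, mul_comm] at a3
    exact_mod_cast a3

end Pool.Agent.Lib.MP_dd0771_pr.Sc
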