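import Pool.Agent.Lib.MP_dd0771_pr.Sc.Kit

open Filter

namespace Pool.Agent.Lib.MP_dd0771_pr.Sc

theorem livw_bdd {d : ℕ} (P : ℕ × Finset (S d) → Prop) :
    Bdd fun o : Option (ℕ × Finset (S d)) => o.elim 0 fun p => ind (P p) := by
  refine Bdd.of01 fun o => ?_
  cases o with
  | none => exact ⟨le_rfl, zero_le_one⟩
  | some p => exact ⟨ind_nonneg _, ind_le_one _⟩

/-- A success is an option of the rule on the trajectory of the tracked system. -/
theorem livw_run {d : ℕ} {F : Fr} (hF : F.Ok) (B : Bs) (K n l : ℕ) (pc : ℝ) (H : Mc d)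
    (P : ℕ × Finset (S d) → Prop) (m : ℕ) : ∀ (k0 : ℕ) (σ : St d),
    ex (run F B K n l pc H m k0 σ) (fun o => o.elim 0 fun p => ind (P p)) ≤
      pr (wls F.toMd H.sy.A (m * sb F B n l)) fun ws => ∃ k, k < m ∧
        ∃ Cd ⊆ tj F.toMd H.sy σ ws (k * sb F B n l + s1 F n), ∃ Yt ∈ H.O (k0 + k) Cd,
          P (k0 + k, Yt) := by
  induction m with
  | zero =>
    intro k0 σ
    rw [run, ex_pure]
    exact pr_nonneg _ _
  | succ m ih =>
    intro k0 σ
    have e : (m + 1) * sb F B n l = sb F B n l + m * sb F B n l := by ring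
    rw [run, ex_bind _ _ (livw_bdd P), e]
    refine le_trans ?_ (le_of_eq (ex_iid_add _ _ _ (Bdd.ind _)).symm)
    refine ex_mono (Bdd.ex (f := fun _ o => Option.elim o 0 fun p => ind (P p))
      ((livw_bdd P).comp _) _) (Bdd.pr _ _) fun ws hws => ?_
    have hl : ws.length = sb F B n l := (wls_mem hF hws).1
    rw [ex_bind _ _ (livw_bdd P)]
    refine ex_le (Bdd.ex (f := fun _ o => Option.elim o 0 fun p => ind (P p))
      ((livw_bdd P).comp _) _) fun o ho => ?_
    cases o with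
    | some Yt =>
      show ex (PMF.pure (some (k0, Yt))) _ ≤ _
      rw [ex_pure]
      obtain ⟨ω0, hY⟩ := wx_tryB B n l pc H k0 σ ws ho
      refine le_ex (Bdd.ind _) fun ws' _ => ind_mono fun hP =>
        ⟨0, Nat.succ_pos _, cand F K n l pc H σ ws ω0, ?_, Yt, hY, hP⟩
      have h1 : s1 F n ≤ ws.length := by rw [hl, sb]; omega
      intro z hz
      show z ∈ (acs F.toMd H.sy σ ((ws ++ ws').take (0 * sb F B n l + s1 F n))).2
      rw [zero_mul, zero_add, List.take_append_of_le_length h1]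
      exact (Finset.mem_inter.mp (wx_cand_sub n l pc H σ ws ω0 hz)).1
    | none =>
      refine le_trans (ih (k0 + 1) (acs F.toMd H.sy σ ws)) (pr_mono fun ws' _ h => ?_)
      obtain ⟨k, hk, Cd, hCd, Yt, hY, hP⟩ := h
      have e1 : k0 + 1 + k = k0 + (k + 1) := by omega
      have e2 : (k + 1) * sb F B n l + s1 F n = ws.length + (k * sb F B n l + s1 F n) := by
        rw [hl]; ring
      rw [e1] at hY hP
      refine ⟨k + 1, by omega, Cd, ?_, Yt, hY, hP⟩
      rw [e2, tj_shift]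
      exact hCd

theorem s_livw {d : ℕ} {F : Fr} (hd : 2 ≤ d) (hF : F.Ok) (hL : Low d F)
    (hLIVE : S_LIVE d F) :
    S_LIVW d F := by
  intro B hB
  filter_upwards [hLIVE B hB, le_of_Lmin hF B] with n h1 h2 K hK
  intro pc C Y O m P hC hY hO hm
  have brv : Bdd fun σ => rv F B K n (ls n) pc (wMc K C Y O) m σ fun p => ind (P p) :=
    Bdd.of01 fun σ => rv_bounds B n (ls n) pc _ m σ fun p => ⟨ind_nonneg _, ind_le_one _⟩
  have her : 0 ≤ er n := (er_le_e2 n).1.le
  constructor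
  · have e := wEv_ex (G := F.toMd) (K := K) (n0 := B.n0) (C := C) (Y := Y)
      (m * sb F B n (ls n)) (Bdd.ind fun I => CE F B n (wZ Y C.2) O m P I)
    simp only [← ind_and] at e
    have hm1 := wEv_mono (G := F.toMd) (K := K) (n0 := B.n0) (C := C) (Y := Y)
      (Bdd.pr (fun _ : St d => wls F.toMd (al K (wQ Y C.2)) (m * sb F B n (ls n)))
        fun σ ws => CE F B n (wZ Y C.2) O m P (tj F.toMd ⟨al K (wQ Y C.2), wZ Y C.2⟩ σ ws))
      (brv.add (Bdd.const (er n * 1))) fun σ _ => by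
        have := h1 K hK pc (wMc K C Y O) σ m P (le_trans hC.1 hC.2.1) hC.2.2.1 hY
          (by have := (h2 _ hC.2.2.2.1).2.2.2; show 8 * DD F n ≤ C.2; omega) hC.2.2.2.2
          (Finset.Subset.refl _) ⟨_, rfl⟩ hO hm
        rw [mul_one]
        exact sub_le_iff_le_add.mp this
    rw [wEv_add brv (Bdd.const _), wEv_mul] at hm1
    have h3 : wEv F.toMd K B.n0 C Y (fun _ => 1) ≤ 1 := by
      unfold wEv
      simp only [mul_one]
      exact ex_le (Bdd.pr _ _) fun η _ => pr_le_one _ _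
    have h4 := mul_le_mul_of_nonneg_left h3 her
    have h5 : wP F.toMd K C.1 (wQ Y C.2) (wZ Y C.2) Y (B.n0 + m * sb F B n (ls n)) (fun I =>
        (∀ y ∈ Y, ∃ x ∈ I B.n0, x ∈ bx y C.2) ∧
          CE F B n (wZ Y C.2) O m P fun u => I (B.n0 + u)) ≤ _ := le_trans (le_of_eq e.symm) hm1
    linarith
  · have e := wEv_ex (G := F.toMd) (K := K) (n0 := B.n0) (C := C) (Y := Y)
      (m * sb F B n (ls n)) (Bdd.ind fun I : Tj d => ∃ k, k < m ∧
        ∃ Cd ⊆ I (k * sb F B n (ls n) + s1 F n), ∃ Yt ∈ O k Cd, P (k, Yt))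
    simp only [← ind_and] at e
    refine le_trans (wEv_mono brv (Bdd.pr _ _) fun σ _ => ?_) (le_of_eq e)
    have := livw_run hF B K n (ls n) pc (wMc K C Y O) P m 0 σ
    simp only [zero_add] at this
    exact this

end Pool.Agent.Lib.MP_dd0771_pr.Sc
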