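import Pool.Agent.Lib.MP_dd0771_pr.Sc.Kit

open Filter

namespace Pool.Agent.Lib.MP_dd0771_pr.Sc

theorem s_mono {d : ℕ} {F : Fr} (hd : 2 ≤ d) (hF : F.Ok)
    :
    S_MONO d F := by
  intro K φ1 φ2 Q Z1 Z2 Y1 Y2 T E h1 h2 hφ hZ hY hE
  have hj : 1 ≤ F.j := by rcases hF.2.2.2.1 with h | h <;> omega
  obtain ⟨r, r1, r2, r3⟩ := pc_couple Q Q (fun _ => sl F.toMd K φ1 0) (fun _ => sl F.toMd K φ2 0)
    fun _ _ _ k => sl_dom hF h1 h2 hφ le_rfl (by omega) k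
  have b : ∀ Z Y : Finset (S d), Bdd fun η => pr (wls F.toMd (al K Q) T) fun ws =>
      E (tj F.toMd ⟨al K Q, Z⟩ (ini F.toMd Z Y η) ws) := fun Z Y => Bdd.pr _ _
  have e1 := ex_map r Prod.fst (b Z1 Y1)
  have e2 := ex_map r Prod.snd (b Z2 Y2)
  rw [r1] at e1
  rw [r2] at e2
  refine e1.le.trans (le_trans ?_ e2.ge)
  refine ex_mono ((b Z1 Y1).comp _) ((b Z2 Y2).comp _) fun p hp => pr_mono fun ws _ => ?_
  have le : p.1 ≤ p.2 := fun x => by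
    by_cases hx : x ∈ Q
    · exact r3 p hp x hx hx
    · have h3 : p.1 ∈ (r.map Prod.fst).support := (PMF.mem_support_map_iff _ _ _).2 ⟨p, hp, rfl⟩
      rw [r1] at h3
      rw [(pc_support h3).1 x hx]
      exact Nat.zero_le _
  refine hE _ _ fun u => acs_mono hj _ hZ (τ := ini F.toMd Z2 Y2 p.2) (reg_ini Z1 Y1 p.1) le
    (fun x hx => ?_) _
  obtain ⟨h3, h4⟩ := Finset.mem_filter.1 hx
  exact Finset.mem_filter.2 ⟨Finset.inter_subset_inter hY hZ h3, h4.trans (le x)⟩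

end Pool.Agent.Lib.MP_dd0771_pr.Sc
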