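import Pool.Agent.Lib.MP_dd0771_pr.Sc.Kit

open Filter

namespace Pool.Agent.Lib.MP_dd0771_pr.Sc

theorem occ_rate {d : ℕ} (hd : 1 ≤ d) (G : Md) (K H : ℕ) (x : S d) :
    ∑ a ∈ ((Finset.univ : Finset (Dir d)) ×ˢ Finset.range (min H K)).image
      (fun q => ((x, some q) : Lt d)), rt G a = gK G K H := by
  rw [Finset.sum_image (fun q _ q' _ h => by simpa using h), Finset.sum_product]
  have h0 : (d : ℝ) ≠ 0 := by positivity
  simp only [rt, gK, Finset.sum_const, Finset.card_univ, Fintype.card_prod, Fintype.card_fin,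
    Fintype.card_bool, nsmul_eq_mul, ← Finset.sum_div]
  push_cast
  field_simp

theorem occ_down {d : ℕ} {K H : ℕ} {Q : Finset (S d)} {x : S d} {η : Cfg d} {a : Lt d}
    (h1 : H ≤ η x) (h2 : ¬ H ≤ mv (al K Q) η a x) : η x = H ∧
      a ∈ ((Finset.univ : Finset (Dir d)) ×ˢ Finset.range (min H K)).image
        (fun q => ((x, some q) : Lt d)) := by
  obtain ⟨y, _ | ⟨e, k⟩⟩ := a
  · exact absurd h1 h2
  · simp only [mv] at h2
    split_ifs at h2 with hc
    · have hK := (mem_al_some.1 hc.1).2.2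
      have hk := hc.2
      by_cases hxy : x = y
      · subst hxy
        simp only [hop, if_true] at h2
        refine ⟨by omega, Finset.mem_image.2 ⟨(e, k), ?_, rfl⟩⟩
        simp only [Finset.mem_product, Finset.mem_univ, Finset.mem_range, true_and]
        omega
      · simp only [hop, if_neg hxy] at h2
        omega
    · exact absurd h1 h2

theorem occ_bdd {d : ℕ} {F : Fr} (hF : F.Ok) (A : Finset (Lt d)) (P : Cfg d → Lt d → Prop) :
    Bdd fun η => ∑ a ∈ A, rt F.toMd a * ind (P η a) := by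
  refine ⟨∑ a ∈ A, rt F.toMd a, fun η => ?_⟩
  rw [abs_of_nonneg (Finset.sum_nonneg fun a _ => mul_nonneg (rt_nonneg hF a) (ind_nonneg _))]
  exact Finset.sum_le_sum fun a _ => mul_le_of_le_one_right (rt_nonneg hF a) (ind_le_one _)

theorem s_occ {d : ℕ} {F : Fr} (hd : 2 ≤ d) (hF : F.Ok)
    (hSTAT : S_STAT d F) :
    S_OCC d F := by
  obtain ⟨C, hC, hT⟩ := sl_tail hF
  have hhi : 0 < F.hi := hF.2.2.2.2.1.trans hF.2.2.2.2.2.1
  refine ⟨C + 2 * F.hi * C, by positivity, fun K φ Q x H T hK => ?_⟩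
  rcases Nat.eq_zero_or_pos T with rfl | hT0
  · have h0 : ∀ η : Cfg d, (pr (wls F.toMd (al K Q) 0) fun ws => ∃ u w i, ws[u]? = some w ∧
        H ≤ mw (al K Q) (ms (al K Q) η (ws.take u)) (w.take i) x) = 0 := by
      intro η
      refine pr_zero fun ws hws => ?_
      rintro ⟨u, w, i, h, -⟩
      rw [List.length_eq_zero_iff.1 (wls_mem hF hws).1] at h
      simp at h
    simp only [h0, ex_const]
    simp
  have hS := (hSTAT K φ Q hK).2.2.2
  have h1 := flux hF (al K Q) (mv (al K Q)) (mu F.toMd K φ Q) hS (fun η => H ≤ η x) T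
  simp only [ms_flatten]
  refine le_trans h1 ?_
  have hsite : ∀ P : ℕ → Prop, x ∈ Q →
      pr (mu F.toMd K φ Q) (fun η => P (η x)) = pr (sl F.toMd K φ 0) P := by
    intro P hx
    rw [← pr_map (mu F.toMd K φ Q) (fun η => η x) P, mu, pc_site hx]
  have hout : ∀ η ∈ (mu F.toMd K φ Q).support, x ∉ Q → η x = 0 :=
    fun η h hx => (pc_support h).1 x hx
  have h2 : pr (mu F.toMd K φ Q) (fun η => H ≤ η x) ≤ C * (1 / 2) ^ H := by
    by_cases hx : x ∈ Q
    · rw [hsite (fun i => H ≤ i) hx]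
      exact (hT K φ 0 H hK (by omega)).2
    · rcases Nat.eq_zero_or_pos H with rfl | hH
      · exact (pr_le_one _ _).trans (by simpa using hC)
      · rw [pr_zero fun η h => by rw [hout η h hx]; omega]
        positivity
  have h3 : (ex (mu F.toMd K φ Q) fun η => ∑ a ∈ al K Q, rt F.toMd a *
      ind (¬ H ≤ η x ∧ H ≤ mv (al K Q) η a x)) = ex (mu F.toMd K φ Q) fun η =>
        ∑ a ∈ al K Q, rt F.toMd a * ind (H ≤ η x ∧ ¬ H ≤ mv (al K Q) η a x) := by
    rw [← sub_eq_zero, ← ex_sub _ (occ_bdd hF _ _) (occ_bdd hF _ _),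
      ← hS (fun η => ind (H ≤ η x)) (Bdd.ind _)]
    refine ex_congr fun η _ => ?_
    rw [← Finset.sum_sub_distrib]
    refine Finset.sum_congr rfl fun a _ => ?_
    rw [ind_and, ind_and, ind_not, ind_not]
    ring
  have h4 : (ex (mu F.toMd K φ Q) fun η => ∑ a ∈ al K Q, rt F.toMd a *
      ind (H ≤ η x ∧ ¬ H ≤ mv (al K Q) η a x)) ≤
        gK F.toMd K H * pr (mu F.toMd K φ Q) fun η => η x = H := by
    unfold pr
    rw [← ex_mul_left]
    refine ex_mono (occ_bdd hF _ _) ((Bdd.const _).mul (Bdd.ind _)) fun η _ => ?_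
    rw [← occ_rate (by omega) F.toMd K H x, Finset.sum_mul]
    set W := ((Finset.univ : Finset (Dir d)) ×ˢ Finset.range (min H K)).image
      (fun q => ((x, some q) : Lt d)) with hW
    calc _ = ∑ a ∈ al K Q ∩ W, rt F.toMd a * ind (H ≤ η x ∧ ¬ H ≤ mv (al K Q) η a x) := by
          refine (Finset.sum_subset Finset.inter_subset_left fun a ha hn => ?_).symm
          rw [ind_neg fun h => hn (Finset.mem_inter.2 ⟨ha, (occ_down h.1 h.2).2⟩), mul_zero]
      _ ≤ ∑ a ∈ al K Q ∩ W, rt F.toMd a * ind (η x = H) := Finset.sum_le_sum fun a _ =>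
          mul_le_mul_of_nonneg_left (ind_mono fun h => (occ_down h.1 h.2).1) (rt_nonneg hF a)
      _ ≤ _ := Finset.sum_le_sum_of_subset_of_nonneg Finset.inter_subset_right fun a _ _ =>
          mul_nonneg (rt_nonneg hF a) (ind_nonneg _)
  have h5 : gK F.toMd K H * pr (mu F.toMd K φ Q) (fun η => η x = H) ≤
      2 * F.hi * C * (1 / 2) ^ H := by
    rcases H with _ | i
    · rw [gK_zero, zero_mul]; positivity
    by_cases hx : x ∈ Q
    · rw [hsite (fun m => m = i + 1) hx, ex_ind_eq]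
      have a1 := sl_ratio hF (f := 0) (i := i) hK (by omega) (by omega)
      rw [gK_zero, sub_zero] at a1
      rw [mul_comm, a1, pow_succ]
      have a2 := (hT K φ 0 i hK (by omega)).1
      calc _ ≤ F.hi * (C * (1 / 2) ^ i) :=
            mul_le_mul hK.2.2 a2 ENNReal.toReal_nonneg hhi.le
        _ = _ := by ring
    · rw [pr_zero fun η h => by rw [hout η h hx]; omega, mul_zero]
      positivity
  have hT1 : (1 : ℝ) ≤ T := by exact_mod_cast hT0
  have h6 : C * (1 / 2) ^ H ≤ T * (C * (1 / 2) ^ H) :=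
    le_mul_of_one_le_left (by positivity) hT1
  have h7 := mul_le_mul_of_nonneg_left (h4.trans h5) (Nat.cast_nonneg (α := ℝ) T)
  rw [h3]
  linarith

end Pool.Agent.Lib.MP_dd0771_pr.Sc
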