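import Pool.Agent.Lib.MP_dd0771_pr.Sc.Kit
import Pool.Agent.Lib.MP_dd0771_pr.Sc.WbA

open Filter

namespace Pool.Agent.Lib.MP_dd0771_pr.Sc

theorem s_one {d : ℕ} {F : Fr} (hd : 2 ≤ d) (hF : F.Ok) (hL : Low d F)
    (hGEN : S_GEN d F) (hLIVW : S_LIVW d F) :
    S_ONE d F := by
  intro B hB
  have hth := thp_pos hB
  filter_upwards [hGEN B hB, hLIVW B hB, ls_le, wb_num hth] with n hG hI hls hnum K hK l0 pc M Φ te
    ub w C y O m t ty hC hM hΦ hu0 hte hm hA hO hw hwu hc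
  have h2 : 1 ≤ sb F B n (ls n) := by have := hB.2.2.2.2.2.2.2; unfold sb sq; omega
  have her := (er_le_e2 n).1
  have hv : ∀ _ : ℕ × Finset (S d), 0 ≤ w ∧ w ≤ w := fun _ => ⟨hw, le_rfl⟩
  rw [← wZ_single] at hc
  refine (hG K hK l0 (ls n) pc M Φ te ub w w C {y} O m t ty id _ le_rfl hls.2 hC hM hΦ hu0 hte hm
    hA hO le_rfl hwu hv (fun σ => (rv_bounds B n _ pc _ m σ hv).2) hc).mono ?_
  have h3 := (hI K hK pc C {y} O m (fun _ => True) hC (by simp) hO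
    ((Nat.le_mul_of_pos_right m h2).trans hm)).1
  have h4 : cP F.toMd K C y (B.n0 + m * sb F B n (ls n)) (fun I => (I B.n0).Nonempty ∧
      CE F B n (bx y C.2) O m (fun _ => True) fun u => I (B.n0 + u)) ≤
      wP F.toMd K C.1 (wQ {y} C.2) (wZ {y} C.2) {y} (B.n0 + m * sb F B n (ls n)) fun I =>
        (∀ y' ∈ ({y} : Finset (S d)), ∃ x ∈ I B.n0, x ∈ bx y' C.2) ∧
          CE F B n (wZ {y} C.2) O m (fun _ => True) fun u => I (B.n0 + u) := by
    rw [cP, wQ_single, wZ_single]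
    refine wP_mono fun I hI ⟨⟨x, hx⟩, h⟩ => ⟨fun y' hy' => ⟨x, hx, ?_⟩, h⟩
    rw [Finset.mem_singleton.1 hy']
    exact hI.2.1 _ hx
  have e : (fun σ => rv F B K n (ls n) pc (wMc K C {y} O) m σ fun _ => w) =
      fun σ => w * rv F B K n (ls n) pc (wMc K C {y} O) m σ fun _ => ind True :=
    funext fun σ => wb_rv _ _ _ _ _ _ _ _ _ _
  rw [e, wEv_mul, Finset.card_singleton, pow_one]
  have h5 : er n ≤ e2 n * B.thp := by
    have : 0 ≤ 3 * 2 ^ n * er n := by positivity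
    linarith
  have h6 : ∀ X X' : ℝ, X - er n ≤ X' → w * (X / B.thp - tol l0 - 2 * e2 n) ≤
      w * X' / B.thp - tol l0 * w - e2 n * w := fun X X' h => by
    have h7 : X / B.thp - e2 n ≤ X' / B.thp := by
      rw [le_div_iff₀ hth, sub_mul, div_mul_cancel₀ _ hth.ne']
      linarith
    rw [mul_div_assoc]
    linarith [mul_le_mul_of_nonneg_left h7 hw]
  exact h6 _ _ ((sub_le_sub_right h4 _).trans h3)

end Pool.Agent.Lib.MP_dd0771_pr.Sc
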