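import Pool.Agent.Lib.MP_dd0771_pr.Sc.Kit

/-! Discrepancies, cells, and one epoch of the coupling. -/

open Filter

namespace Pool.Agent.Lib.MP_dd0771_pr.Sc

variable {d : ℕ} {F : Fr}

/-- Number of negative discrepancies on `R`. -/
def p1D (R : Finset (S d)) (ζ η : Cfg d) : ℕ := ∑ x ∈ R, (ζ x - η x)

/-- One more particle at `x`. -/
def p1U (β : Cfg d) (x : S d) : Cfg d := Function.update β x (β x + 1)

theorem p1U_apply (β : Cfg d) (x z : S d) : p1U β x z = β z + if z = x then 1 else 0 := by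
  unfold p1U
  by_cases h : z = x
  · subst h; simp
  · simp [h]

theorem p1U_mass (β : Cfg d) (x : S d) (Q : Finset (S d)) :
    mass (p1U β x) Q = mass β Q + if x ∈ Q then 1 else 0 := by
  unfold mass
  simp only [p1U_apply, Finset.sum_add_distrib, Finset.sum_ite_eq']

theorem p1D_le {R Q : Finset (S d)} (h : R ⊆ Q) (ζ η : Cfg d) : p1D R ζ η ≤ mass ζ Q :=
  (Finset.sum_le_sum fun _ _ => Nat.sub_le _ _).trans (Finset.sum_le_sum_of_subset h)

theorem p1D_tri (R : Finset (S d)) (ζ ζ' η : Cfg d) : p1D R ζ η ≤ p1D R ζ ζ' + p1D R ζ' η := by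
  unfold p1D
  rw [← Finset.sum_add_distrib]
  exact Finset.sum_le_sum fun x _ => by omega

theorem p1D_zero {R : Finset (S d)} {ζ η : Cfg d} (h : ∀ x ∈ R, ζ x ≤ η x) : p1D R ζ η = 0 :=
  Finset.sum_eq_zero fun x hx => Nat.sub_eq_zero_of_le (h x hx)

theorem p1D_pair {A : Finset (Lt d)} {Q R : Finset (S d)} (hA : Closed A Q) (hR : R ⊆ Q)
    (β : Cfg d) (x x' : S d) (ws : List (Word d)) :
    p1D R (ms A (p1U β x) ws) (ms A (p1U β x') ws) ≤ 1 := by
  have hle : ∀ z, β ≤ p1U β z := fun z v => by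
    show β v ≤ p1U β z v
    rw [p1U_apply]; omega
  have h1 := ms_mono A (hle x) ws
  have h2 := ms_mono A (hle x') ws
  have h3 : p1D R (ms A (p1U β x) ws) (ms A (p1U β x') ws) ≤
      ∑ z ∈ Q, (ms A (p1U β x) ws z - ms A β ws z) :=
    (Finset.sum_le_sum fun z _ => Nat.sub_le_sub_left (h2 z) _).trans
      (Finset.sum_le_sum_of_subset hR)
  have h4 : ∑ z ∈ Q, (ms A (p1U β x) ws z - ms A β ws z) + mass (ms A β ws) Q =
      mass (ms A (p1U β x) ws) Q := by
    unfold mass
    rw [← Finset.sum_add_distrib]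
    exact Finset.sum_congr rfl fun z _ => Nat.sub_add_cancel (h1 z)
  rw [mass_ms hA, mass_ms hA, p1U_mass] at h4
  split_ifs at h4 <;> omega

theorem p1_floor {A : Finset (Lt d)} {R : Finset (S d)} {f : Cfg d} {K : ℕ} (hA : Lev A R f K)
    (ws : List (Word d)) {ζ : Cfg d} (h : ∀ x ∈ R, f x ≤ ζ x) : ∀ x ∈ R, f x ≤ ms A ζ ws x := by
  rw [ms_flatten]
  generalize ws.flatten = w
  induction w generalizing ζ with
  | nil => exact h
  | cons a w ih =>
    refine ih (ζ := mv A ζ a) fun x hx => ?_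
    obtain ⟨z, _ | ⟨e, k⟩⟩ := a
    · exact h x hx
    · simp only [mv]
      split_ifs with hc
      · unfold hop
        have := h x hx
        by_cases hz : x = z
        · subst hz
          have := ((hA x hx e k).1 hc.1).1
          have := hc.2
          simp only [if_true] at *
          omega
        · simp only [hz, if_false]
          omega
      · exact h x hx

/-- Centre of the cell of `x` in the grid of boxes of radius `l` based at `y`. -/
def p1C (y : S d) (l : ℕ) (x : S d) : S d :=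
  fun i => y i + (2 * l + 1) * ((x i - y i + l) / (2 * l + 1))

theorem p1C_mem (y : S d) (l : ℕ) (x : S d) : x ∈ bx (p1C y l x) l := by
  rw [mem_bx, nrm_le_iff]
  intro i
  have h1 := Int.emod_add_mul_ediv (x i - y i + l) (2 * l + 1)
  have h2 := Int.emod_nonneg (x i - y i + l) (show (2 * l + 1 : ℤ) ≠ 0 by omega)
  have h3 := Int.emod_lt_of_pos (x i - y i + l) (show (0 : ℤ) < 2 * l + 1 by omega)
  rw [Pi.sub_apply, abs_le]
  unfold p1C
  constructor <;> linarith

theorem p1C_eq {y : S d} {l : ℕ} {x z : S d} (h : z ∈ bx (p1C y l x) l) :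
    p1C y l z = p1C y l x := by
  rw [mem_bx, nrm_le_iff] at h
  funext i
  have h1 := abs_le.1 (h i)
  rw [Pi.sub_apply] at h1
  unfold p1C at h1 ⊢
  set q := (x i - y i + l) / (2 * l + 1)
  have e : z i - y i + l = (z i - (y i + (2 * l + 1) * q) + l) + (2 * l + 1) * q := by ring
  rw [e, Int.add_mul_ediv_left _ _ (by omega), Int.ediv_eq_zero_of_lt (by omega) (by omega),
    zero_add]

theorem p1C_sub {y : S d} {l j : ℕ} {x : S d} (h : x ∈ bx y (l + j * (2 * l + 1))) :
    bx (p1C y l x) l ⊆ bx y (l + j * (2 * l + 1)) := by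
  refine bx_subset ?_
  rw [mem_bx, nrm_le_iff] at h
  have : nrm (p1C y l x - y) ≤ j * (2 * l + 1) := by
    rw [nrm_le_iff]
    intro i
    have h1 := abs_le.1 (h i)
    rw [Pi.sub_apply] at h1 ⊢
    push_cast at h1 ⊢
    have hp : (0 : ℤ) < 2 * l + 1 := by omega
    have h2 : (x i - y i + l) / (2 * l + 1) < j + 1 := Int.ediv_lt_of_lt_mul hp (by linarith)
    have h3 : -(j : ℤ) ≤ (x i - y i + l) / (2 * l + 1) := Int.le_ediv_of_mul_le hp (by linarith)
    unfold p1C
    rw [add_sub_cancel_left, abs_le]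
    constructor <;> nlinarith
  omega

theorem p1_bdd {A1 : Finset (Lt d)} {Q R : Finset (S d)} (hA : Closed A1 Q) (hR : R ⊆ Q)
    (ζ : Cfg d) (g : List (Word d) → Cfg d) :
    Bdd fun ws => (p1D R (ms A1 ζ ws) (g ws) : ℝ) := by
  refine ⟨mass ζ Q, fun ws => ?_⟩
  rw [abs_of_nonneg (Nat.cast_nonneg _), ← mass_ms hA ζ ws]
  exact Nat.cast_le.2 (p1D_le hR _ _)

/-- One epoch: the discrepancies are matched inside the cells, one at a time. -/
theorem p1_epoch {A1 A2 : Finset (Lt d)} {Q R Bx : Finset (S d)} {y : S d} {l j m : ℕ}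
    {f η : Cfg d} {p e : ℝ} (P : PMF (List (Word d))) (hA : Closed A1 Q) (hR : R ⊆ Q)
    (hG : bx y (l + j * (2 * l + 1)) ⊆ Bx) (hB : Bx ⊆ Q) (hη : ∀ x ∈ Bx, f x ≤ η x)
    (hTP : ∀ β x x', x ∈ bx y (l + j * (2 * l + 1)) → nrm (x' - x) ≤ 2 * l →
      (∀ z ∈ Bx, f z ≤ β z) → mass β Q < m →
      p ≤ pr P fun ws => ms A1 (p1U β x) ws = ms A1 (p1U β x') ws)
    (hEA : ∀ ζ : Cfg d, (∀ x ∈ bx y (l + j * (2 * l + 1)), ζ x ≤ η x) → mass ζ Q = m →
      pr P (fun ws => ∃ x ∈ R, ms A2 η ws x < ms A1 ζ ws x) ≤ e) (k : ℕ) :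
    ∀ ζ : Cfg d, p1D (bx y (l + j * (2 * l + 1))) ζ η = k → mass ζ Q = m →
      (∀ x ∈ Bx, f x ≤ ζ x) → (∀ x ∈ bx y (l + j * (2 * l + 1)),
        mass ζ (bx (p1C y l x) l) ≤ mass η (bx (p1C y l x) l)) →
      ex P (fun ws => (p1D R (ms A1 ζ ws) (ms A2 η ws) : ℝ)) ≤ (1 - p) * k + m * e := by
  set G := bx y (l + j * (2 * l + 1)) with hGdef
  induction k with
  | zero =>
    intro ζ hD hm _ _
    have hle : ∀ x ∈ G, ζ x ≤ η x := fun x hx =>
      Nat.sub_eq_zero_iff_le.1 (Finset.sum_eq_zero_iff.1 hD x hx)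
    have h1 : ex P (fun ws => (p1D R (ms A1 ζ ws) (ms A2 η ws) : ℝ)) ≤
        ex P fun ws => m * ind (∃ x ∈ R, ms A2 η ws x < ms A1 ζ ws x) := by
      refine ex_mono (p1_bdd hA hR ζ _) ((Bdd.const _).mul (Bdd.ind _)) fun ws _ => ?_
      by_cases h : ∃ x ∈ R, ms A2 η ws x < ms A1 ζ ws x
      · rw [ind_pos h, mul_one, ← hm, ← mass_ms hA ζ ws]
        exact_mod_cast p1D_le hR _ _
      · rw [ind_neg h, mul_zero, p1D_zero fun x hx => not_lt.1 fun h' => h ⟨x, hx, h'⟩]
        simp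
    rw [ex_mul_left] at h1
    have h2 := mul_le_mul_of_nonneg_left (hEA ζ hle hm) (Nat.cast_nonneg (α := ℝ) m)
    unfold pr at h2
    simp only [Nat.cast_zero, mul_zero, zero_add]
    exact h1.trans h2
  | succ k ih =>
    intro ζ hD hm hf hc
    obtain ⟨x, hx, hxlt⟩ : ∃ x ∈ G, η x < ζ x := by
      by_contra hcon
      rw [p1D_zero fun x hx => not_lt.1 fun h' => hcon ⟨x, hx, h'⟩] at hD
      omega
    obtain ⟨x', hx', hxlt'⟩ : ∃ x' ∈ bx (p1C y l x) l, ζ x' < η x' := by
      by_contra hcon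
      have := Finset.sum_lt_sum (s := bx (p1C y l x) l) (f := η) (g := ζ)
        (fun z hz => not_lt.1 fun h' => hcon ⟨z, hz, h'⟩) ⟨x, p1C_mem y l x, hxlt⟩
      exact absurd (hc x hx) (not_le.2 this)
    have hne : x' ≠ x := fun h => by subst h; omega
    have hx'G : x' ∈ G := p1C_sub hx hx'
    obtain ⟨β, rfl⟩ : ∃ β, ζ = p1U β x := ⟨Function.update ζ x (ζ x - 1), funext fun z => by
      rw [p1U_apply]
      by_cases h : z = x
      · subst h; simp only [Function.update_self, if_true]; omega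
      · simp [h]⟩
    rw [p1U_apply, if_pos rfl] at hxlt
    rw [p1U_apply, if_neg hne] at hxlt'
    have hfβ : ∀ z ∈ Bx, f z ≤ β z := fun z hz => by
      have h1 := hf z hz
      rw [p1U_apply] at h1
      by_cases h : z = x
      · subst h
        have := hη z hz
        omega
      · simpa [h] using h1
    rw [p1U_mass, if_pos (hB (hG hx))] at hm
    have hD1 : p1D G (p1U β x) η = p1D G β η + 1 := by
      unfold p1D
      have : ∀ z ∈ G, p1U β x z - η z = (β z - η z) + if z = x then 1 else 0 := fun z _ => by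
        rw [p1U_apply]
        by_cases h : z = x
        · subst h; simp only [if_true]; omega
        · simp [h]
      rw [Finset.sum_congr rfl this, Finset.sum_add_distrib, Finset.sum_ite_eq', if_pos hx]
    have hD2 : p1D G (p1U β x') η = p1D G β η := by
      refine Finset.sum_congr rfl fun z _ => ?_
      rw [p1U_apply]
      by_cases h : z = x'
      · subst h; simp only [if_true]; omega
      · simp [h]
    have h1 := ih (p1U β x') (by omega) (by rw [p1U_mass, if_pos (hB (hG hx'G)), hm])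
      (fun z hz => (hfβ z hz).trans (by rw [p1U_apply]; omega)) fun z hz => by
        have h2 := hc z hz
        rw [p1U_mass] at h2 ⊢
        by_cases h : x' ∈ bx (p1C y l z) l
        · have : x ∈ bx (p1C y l z) l := by
            rw [← p1C_eq h, p1C_eq hx']; exact p1C_mem y l x
          rwa [if_pos h, ← if_pos (t := 1) (e := 0) this]
        · rw [if_neg h]; omega
    have hxx : nrm (x' - x) ≤ 2 * l := by
      have a1 := mem_bx.1 hx'
      have a2 := mem_bx.1 (p1C_mem y l x)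
      have a3 := nrm_tri x' (p1C y l x) x
      rw [nrm_sub_comm (p1C y l x) x] at a3
      omega
    have h2 := hTP β x x' hx hxx hfβ (by omega)
    have h3 : ex P (fun ws => (p1D R (ms A1 (p1U β x) ws) (ms A2 η ws) : ℝ)) ≤ ex P fun ws =>
        ind (¬ ms A1 (p1U β x) ws = ms A1 (p1U β x') ws) +
          (p1D R (ms A1 (p1U β x') ws) (ms A2 η ws) : ℝ) := by
      refine ex_mono (p1_bdd hA hR _ _) ((Bdd.ind _).add (p1_bdd hA hR _ _)) fun ws _ => ?_
      by_cases h : ms A1 (p1U β x) ws = ms A1 (p1U β x') ws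
      · rw [ind_neg (not_not.2 h), zero_add, h]
      · rw [ind_pos h]
        have a1 := p1D_tri R (ms A1 (p1U β x) ws) (ms A1 (p1U β x') ws) (ms A2 η ws)
        have a2 := p1D_pair hA hR β x x' ws
        exact_mod_cast (show _ ≤ 1 + _ by omega)
    rw [ex_add _ (Bdd.ind _) (p1_bdd hA hR _ _)] at h3
    have h4 := pr_not P fun ws => ms A1 (p1U β x) ws = ms A1 (p1U β x') ws
    unfold pr at h2 h4
    push_cast
    linarith

end Pool.Agent.Lib.MP_dd0771_pr.Sc
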