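import Pool.Agent.Lib.MP_dd0771_pr.Sc.Kit
import Pool.Agent.Lib.MP_dd0771_pr.Sc.P1X

open Filter

namespace Pool.Agent.Lib.MP_dd0771_pr.Sc

variable {d : ℕ} {F : Fr}

/-- A negative discrepancy at `y` at the end, and no flag. -/
def p1E (A1 A2 : Finset (Lt d)) (Bx : Finset (S d)) (y : S d) (l : ℕ) (h : ℝ) (T : ℕ)
    (ζ η : Cfg d) (ws : List (Word d)) : Prop :=
  ms A2 η ws y < ms A1 ζ ws y ∧ ∀ u, u ≤ T →
    ¬ Dense l h Bx (ms A1 ζ (ws.take u)) ∧ ¬ Sparse l h Bx (ms A2 η (ws.take u))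

theorem p1_shift (G : Md) (A A1 A2 : Finset (Lt d)) (Bx : Finset (S d)) (y : S d) (l : ℕ) (h : ℝ)
    (T T' : ℕ) (ζ η : Cfg d) :
    pr (wls G A (T + T')) (p1E A1 A2 Bx y l h (T + T') ζ η) ≤ ex (wls G A T) fun ws =>
      pr (wls G A T') (p1E A1 A2 Bx y l h T' (ms A1 ζ ws) (ms A2 η ws)) := by
  unfold pr wls
  rw [ex_iid_add _ _ _ (Bdd.ind _)]
  refine ex_mono (Bdd.pr _ fun a b => p1E A1 A2 Bx y l h (T + T') ζ η (a ++ b))
    (Bdd.pr _ fun a => p1E A1 A2 Bx y l h T' (ms A1 ζ a) (ms A2 η a)) fun ws hws => ?_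
  refine ex_mono (Bdd.ind _) (Bdd.ind _) fun ws' _ => ind_mono fun hE => ?_
  have hl := iid_length hws
  refine ⟨by simpa only [ms_append] using hE.1, fun u hu => ?_⟩
  have := hE.2 (T + u) (by omega)
  rwa [← hl, List.take_length_add_append, ms_append, ms_append] at this

/-- Many epochs. -/
theorem p1_many (G : Md) {A A1 A2 : Finset (Lt d)} {Q Bx : Finset (S d)} {y : S d} {l T E m K : ℕ}
    {h p e : ℝ} {f : Cfg d} (R : ℕ → Finset (S d)) (hA : Closed A1 Q) (hL1 : Lev A1 Bx f K)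
    (hL2 : Lev A2 Bx f K) (hR : ∀ k, k ≤ E → R k ⊆ Q) (hy : y ∈ R 0) (hp : p ≤ 1) (hp0 : 0 ≤ p)
    (he : 0 ≤ e)
    (hep : ∀ k, k < E → ∀ ζ η : Cfg d, mass ζ Q = m → (∀ x ∈ Bx, f x ≤ ζ x) →
      (∀ x ∈ Bx, f x ≤ η x) → ¬ Dense l h Bx ζ → ¬ Sparse l h Bx η →
      ex (wls G A T) (fun ws => (p1D (R k) (ms A1 ζ ws) (ms A2 η ws) : ℝ)) ≤
        (1 - p) * p1D (R (k + 1)) ζ η + e) (k : ℕ) :
    k ≤ E → ∀ ζ η : Cfg d, mass ζ Q = m → (∀ x ∈ Bx, f x ≤ ζ x) → (∀ x ∈ Bx, f x ≤ η x) →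
      pr (wls G A (k * T)) (p1E A1 A2 Bx y l h (k * T) ζ η) ≤
        (1 - p) ^ k * p1D (R k) ζ η + k * e := by
  induction k with
  | zero =>
    intro _ ζ η _ _ _
    simp only [zero_mul, pow_zero, one_mul, Nat.cast_zero, add_zero]
    refine ex_le (Bdd.ind _) fun ws hws => ?_
    have hl : ws = [] := List.length_eq_zero_iff.1 (iid_length hws)
    subst hl
    by_cases hE : p1E A1 A2 Bx y l h 0 ζ η []
    · rw [ind_pos hE]
      have h1 : η y < ζ y := hE.1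
      have h2 : ζ y - η y ≤ p1D (R 0) ζ η :=
        Finset.single_le_sum (f := fun x => ζ x - η x) (fun _ _ => Nat.zero_le _) hy
      exact_mod_cast (show 1 ≤ p1D (R 0) ζ η by omega)
    · rw [ind_neg hE]; positivity
  | succ k ih =>
    intro hk ζ η hm h1 h2
    have hq : 0 ≤ 1 - p := by linarith
    by_cases hfl : ¬ Dense l h Bx ζ ∧ ¬ Sparse l h Bx η
    · rw [Nat.succ_mul, Nat.add_comm (k * T) T]
      refine (p1_shift G A A1 A2 Bx y l h T (k * T) ζ η).trans ?_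
      have hb := p1_bdd hA (hR k (by omega)) ζ (ms A2 η)
      refine (ex_mono (g := fun ws => (1 - p) ^ k * (p1D (R k) (ms A1 ζ ws) (ms A2 η ws) : ℝ) +
        k * e) (Bdd.pr _ _) (((Bdd.const _).mul hb).add (Bdd.const _)) fun ws _ =>
          ih (by omega) _ _ (by rw [mass_ms hA, hm]) (p1_floor hL1 ws h1)
            (p1_floor hL2 ws h2)).trans ?_
      rw [ex_add _ ((Bdd.const _).mul hb) (Bdd.const _), ex_mul_left, ex_const]
      have h3 := mul_le_mul_of_nonneg_left (hep k hk ζ η hm h1 h2 hfl.1 hfl.2) (pow_nonneg hq k)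
      have h4 : (1 - p) ^ k ≤ 1 := pow_le_one₀ hq (by linarith)
      have h5 := mul_le_mul_of_nonneg_right h4 he
      push_cast
      rw [pow_succ]
      linarith
    · rw [pr_zero fun ws _ hE => hfl (by simpa [ms] using hE.2 0 (Nat.zero_le _))]
      positivity

theorem p1_num {N l m : ℕ} {C : ℝ} (hC : 1 ≤ C) (hl : (N : ℝ) + C + 5 ≤ l)
    (hm : (m : ℝ) + 1 ≤ Real.exp l) :
    (1 - 1 / (l : ℝ) ^ N) ^ (l ^ (N + 2)) * m + (l ^ (N + 2) : ℕ) * (m * ((m + 1) * C ^ (l ^ 3) *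
      Real.exp (-((l : ℝ) ^ 4 * (2 * l + 1))))) ≤ (m + 1) * Real.exp (-(l : ℝ)) := by
  have hN : (0 : ℝ) ≤ N := Nat.cast_nonneg _
  have hl6 : (6 : ℝ) ≤ l := by linarith
  have hl0 : (0 : ℝ) < l := by linarith
  have hm0 : (0 : ℝ) ≤ m := Nat.cast_nonneg _
  have hhalf : Real.exp (-(l : ℝ) - 1) ≤ Real.exp (-(l : ℝ)) / 2 := by
    rw [Real.exp_sub]
    refine div_le_div_of_nonneg_left (Real.exp_pos _).le (by norm_num) ?_
    linarith [Real.add_one_le_exp 1]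
  have h1 : (1 - 1 / (l : ℝ) ^ N) ^ (l ^ (N + 2)) ≤ Real.exp (-(l : ℝ) - 1) := by
    have a1 : 1 / (l : ℝ) ^ N ≤ 1 := by
      rw [div_le_one (by positivity)]; exact one_le_pow₀ (by linarith)
    refine (pow_le_pow_left₀ (by linarith) (Real.one_sub_le_exp_neg _) _).trans ?_
    rw [← Real.exp_nat_mul]
    refine Real.exp_le_exp.2 ?_
    have : ((l ^ (N + 2) : ℕ) : ℝ) * -(1 / (l : ℝ) ^ N) = -(l : ℝ) ^ 2 := by
      push_cast; field_simp; ring
    rw [this]; nlinarith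
  have h2 : ((l ^ (N + 2) : ℕ) : ℝ) * ((m + 1) * C ^ (l ^ 3) *
      Real.exp (-((l : ℝ) ^ 4 * (2 * l + 1)))) ≤ Real.exp (-(l : ℝ) - 1) := by
    have a1 : ((l ^ (N + 2) : ℕ) : ℝ) ≤ Real.exp ((N + 2 : ℕ) * l) := by
      rw [Real.exp_nat_mul]; push_cast
      exact pow_le_pow_left₀ hl0.le (by linarith [Real.add_one_le_exp (l : ℝ)]) _
    have a2 : C ^ (l ^ 3) ≤ Real.exp ((l ^ 3 : ℕ) * C) := by
      rw [Real.exp_nat_mul]
      exact pow_le_pow_left₀ (by linarith) (by linarith [Real.add_one_le_exp C]) _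
    calc _ ≤ Real.exp ((N + 2 : ℕ) * l) * (Real.exp l * Real.exp ((l ^ 3 : ℕ) * C) *
          Real.exp (-((l : ℝ) ^ 4 * (2 * l + 1)))) := by gcongr
      _ = Real.exp ((N + 2 : ℕ) * l + (l + (l ^ 3 : ℕ) * C + -((l : ℝ) ^ 4 * (2 * l + 1)))) := by
          rw [Real.exp_add, Real.exp_add, Real.exp_add]
      _ ≤ _ := by
          refine Real.exp_le_exp.2 ?_
          push_cast
          have b1 : (l : ℝ) ≤ l ^ 3 := le_self_pow₀ (by linarith) (by norm_num)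
          have b2 : (0 : ℝ) < l ^ 3 := by positivity
          have b3 : ((N : ℝ) + 5) * l ≤ (N + 5) * l ^ 3 := by gcongr
          have b4 : ((N : ℝ) + C + 5) * l ^ 3 ≤ l * l ^ 3 := by gcongr
          have b5 : (0 : ℝ) ≤ l ^ 4 * l := by positivity
          nlinarith
  have h3 := mul_le_mul_of_nonneg_right (h1.trans hhalf) hm0
  have h4 := mul_le_mul_of_nonneg_left (h2.trans hhalf) hm0
  have h5 := Real.exp_pos (-(l : ℝ))
  nlinarith

theorem s_p1 {d : ℕ} {F : Fr} (hd : 2 ≤ d) (hF : F.Ok) (hEARLY : S_EARLY d F) (hTP : S_TP d F) :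
    ∃ A, 3 ≤ A ∧ S_P1 d { F with A := A } := by
  obtain ⟨C, hC, hEA⟩ := hEARLY
  obtain ⟨N, hTP⟩ := hTP
  refine ⟨N + 8, by omega, ?_⟩
  filter_upwards [hTP, tendsto_natCast_atTop_atTop.eventually_ge_atTop ((N : ℝ) + C + 5),
    eventually_ge_atTop 5] with l hT hl hl5 A A1 A2 K Q1 y h f ζ η h1 h2 hcl hB hL1 hL2 hf hK
  change bx y (l ^ (N + 8)) ⊆ Q1 at hB
  change Lev A1 (bx y (l ^ (N + 8))) f K at hL1
  change Lev A2 (bx y (l ^ (N + 8))) f K at hL2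
  change ∀ x ∈ bx y (l ^ (N + 8)), f x ≤ ζ x ∧ f x ≤ η x at hf
  change pr (wls F.toMd A (l ^ (N + 8))) (p1E A1 A2 (bx y (l ^ (N + 8))) y l h (l ^ (N + 8)) ζ η) ≤ _
  set m := mass ζ Q1 with hm
  rcases le_total (Real.exp l) ((m : ℝ) + 1) with hbig | hsm
  · refine (pr_le_one _ _).trans ?_
    rw [Real.exp_neg, ← div_eq_mul_inv, le_div_iff₀ (Real.exp_pos _), one_mul]
    exact hbig
  have hl1 : (1 : ℝ) ≤ l := by exact_mod_cast (show 1 ≤ l by omega)
  have hrad : ∀ k, k ≤ l ^ (N + 2) → l + k * l ^ 4 * (2 * l + 1) + l ^ 4 ≤ l ^ (N + 8) := by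
    intro k hk
    have a1 : k * l ^ 4 * (2 * l + 1) ≤ l ^ (N + 2) * l ^ 4 * (3 * l) :=
      Nat.mul_le_mul (Nat.mul_le_mul_right _ hk) (by omega)
    have a2 : l ^ (N + 2) * l ^ 4 * (3 * l) = 3 * l ^ (N + 7) := by ring
    have a3 : l ^ 1 ≤ l ^ (N + 7) := Nat.pow_le_pow_right (by omega) (by omega)
    have a4 : l ^ 4 ≤ l ^ (N + 7) := Nat.pow_le_pow_right (by omega) (by omega)
    have a5 : 5 * l ^ (N + 7) ≤ l ^ (N + 8) := by
      rw [pow_succ' l (N + 7)]; exact Nat.mul_le_mul_right _ hl5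
    rw [pow_one] at a3
    omega
  have hp1 : 1 / (l : ℝ) ^ N ≤ 1 := by
    rw [div_le_one (by positivity)]; exact one_le_pow₀ hl1
  have key := p1_many F.toMd (A := A) (A2 := A2) (y := y) (l := l) (T := l ^ 3) (E := l ^ (N + 2))
    (m := m) (h := h) (p := 1 / (l : ℝ) ^ N) (e := m * ((m + 1) * C ^ (l ^ 3) *
      Real.exp (-((l : ℝ) ^ 4 * (2 * l + 1))))) (fun k => bx y (l + k * l ^ 4 * (2 * l + 1))) hcl
    hL1 hL2 (fun k hk => (bx_mono y (by have := hrad k hk; omega)).trans hB) (self_mem_bx _ _) hp1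
    (by positivity) (by positivity) (fun k hk ζ' η' hm' hf1 hf2 hD hS => by
      have hr := hrad (k + 1) hk
      have hG : bx y (l + (k + 1) * l ^ 4 * (2 * l + 1)) ⊆ bx y (l ^ (N + 8)) :=
        bx_mono y (by omega)
      have hmono : l + k * l ^ 4 * (2 * l + 1) ≤ l + (k + 1) * l ^ 4 * (2 * l + 1) := by
        gcongr; omega
      refine p1_epoch (f := f) _ hcl (((bx_mono y hmono).trans hG).trans hB) hG hB hf2
        (fun β x x' hx hxx hβ hmβ => ?_) (fun ζ0 hle hm0 => ?_) _ ζ' rfl hm' hf1 fun x hx => ?_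
      · have hx4 : bx x (l ^ 4) ⊆ bx y (l ^ (N + 8)) :=
          bx_subset (by have := mem_bx.1 hx; omega)
        refine (hT A1 K Q1 f β x x' hcl (hx4.trans hB) (fun z hz => hL1 z (hx4 hz))
          (fun z hz => hβ z (hx4 hz)) (by omega) hxx).trans (le_of_eq ?_)
        unfold pr
        exact (ex_wls_flt hF h1 _ (Bdd.ind _) fun ws => by
          rw [ms_flt subset_rfl, ms_flt subset_rfl]).symm
      · have h3 := hEA A A1 A2 Q1 y _ _ (l ^ 3) ζ0 η' h1 h2 hcl (hG.trans hB)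
          (fun x hx q => (hL1 x (hG hx) q.1 q.2).trans (hL2 x (hG hx) q.1 q.2).symm) hmono hle
        have e1 : ((l + (k + 1) * l ^ 4 * (2 * l + 1) : ℕ) : ℝ) -
            (l + k * l ^ 4 * (2 * l + 1) : ℕ) = (l : ℝ) ^ 4 * (2 * l + 1) := by push_cast; ring
        rw [e1, hm0] at h3
        refine le_trans (pr_mono fun ws hws hx => ?_) h3
        obtain ⟨x, hx, hlt⟩ := hx
        have hlen := (wls_mem hF hws).1
        have hne : ws ≠ [] := fun h0 => by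
          rw [h0] at hlen
          have : 0 < l ^ 3 := by positivity
          simp only [List.length_nil] at hlen
          omega
        obtain ⟨ws0, w, rfl⟩ := (List.eq_nil_or_concat' ws).resolve_left hne
        refine ⟨ws0.length, w, w.length, by simp, x, hx, ?_⟩
        rw [ms_append, ms_append] at hlt
        simpa [ms] using hlt
      · have hs := (p1C_sub hx).trans hG
        have a1 := not_lt.1 fun h' => hD ⟨_, hs, h'⟩
        have a2 := not_lt.1 fun h' => hS ⟨_, hs, h'⟩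
        exact_mod_cast a1.trans a2) (l ^ (N + 2)) le_rfl
  have hT0 : l ^ (N + 2) * l ^ 3 ≤ l ^ (N + 8) := by
    rw [← pow_add]; exact Nat.pow_le_pow_right (by omega) (by omega)
  obtain ⟨T0, hT1⟩ : ∃ T0, l ^ (N + 8) = T0 + l ^ (N + 2) * l ^ 3 := ⟨_, (Nat.sub_add_cancel hT0).symm⟩
  have h3 := p1_shift F.toMd A A1 A2 (bx y (l ^ (N + 8))) y l h T0 (l ^ (N + 2) * l ^ 3) ζ η
  rw [← hT1] at h3
  refine h3.trans (ex_le (Bdd.pr _ _) fun ws _ => ?_)
  refine (key _ _ (by rw [mass_ms hcl]) (p1_floor hL1 ws fun x hx => (hf x hx).1)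
    (p1_floor hL2 ws fun x hx => (hf x hx).2)).trans (le_trans ?_ (p1_num hC hl hsm))
  have h4 : (p1D (bx y (l + l ^ (N + 2) * l ^ 4 * (2 * l + 1))) (ms A1 ζ ws) (ms A2 η ws) : ℝ) ≤
      m := by
    rw [hm, ← mass_ms hcl ζ ws]
    exact Nat.cast_le.2 (p1D_le ((bx_mono y (by have := hrad _ le_rfl; omega)).trans hB) _ _)
  have h5 : 0 ≤ (1 - 1 / (l : ℝ) ^ N) ^ (l ^ (N + 2)) := pow_nonneg (by linarith) _
  exact add_le_add (mul_le_mul_of_nonneg_left h4 h5) le_rfl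

end Pool.Agent.Lib.MP_dd0771_pr.Sc
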