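import Pool.Agent.Lib.MP_dd0771_pr.Sc.Kit

open Filter

namespace Pool.Agent.Lib.MP_dd0771_pr.Sc

theorem pha_num {n d : ℕ} (h : 10 * d ≤ n) :
    (2 : ℝ) ^ (5 * n * d) * Real.exp (-((n ^ 2 : ℕ) : ℝ)) ≤ Real.exp (-(n : ℝ) ^ 2 / 2) := by
  have h1 : (10 * d : ℝ) ≤ n := by exact_mod_cast h
  have hn : (0 : ℝ) ≤ n := Nat.cast_nonneg n
  have h3 : (2 : ℝ) ^ (5 * n * d) ≤ Real.exp (5 * n * d) := by
    have : Real.exp (5 * n * d) = Real.exp 1 ^ (5 * n * d) := by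
      rw [← Real.exp_nat_mul]; push_cast; ring_nf
    rw [this]
    exact pow_le_pow_left₀ (by norm_num) (by linarith [Real.add_one_le_exp 1]) _
  refine (mul_le_mul_of_nonneg_right h3 (Real.exp_pos _).le).trans ?_
  rw [← Real.exp_add]
  refine Real.exp_le_exp.2 ?_
  push_cast
  nlinarith [mul_le_mul_of_nonneg_left h1 hn]

theorem s_pha {d : ℕ} {F : Fr} (hd : 2 ≤ d) (hF : F.Ok) (hL : Low d F)
    :
    S_PHA d F := by
  intro B hB
  filter_upwards [hL.hWERR B hB, (tendsto_pow_atTop (two_ne_zero)).eventually hL.hP1,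
    scales hF B, card_le (d := d) (by omega), eventually_ge_atTop (10 * d),
    eventually_ge_atTop 1] with n hW hP hsc hcard hnd hn K hK
  intro pc M s Y L h1 h2 hM hu hY hQ' hDL hLn
  obtain ⟨-, -, hsD, -⟩ := hsc
  have hg : 0 < B.g := hB.2.1
  have hn0 : 1 ≤ B.n0 := hB.2.2.2.2.2.2.2
  have hV1 : 1 ≤ VV n := Nat.one_le_pow _ _ hn
  have hs1 : s1 F n + 1 ≤ DD F n := by
    have : 1 * (s1 F n + n ^ F.A + B.n0) ≤ 8 * VV n * (s1 F n + n ^ F.A + B.n0) :=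
      Nat.mul_le_mul_right _ (by omega)
    omega
  have hQ : wQ Y L ⊆ M.Q := hQ'.trans hM.1
  have hpow : 2 ^ n ≤ 2 ^ (n + 1) := Nat.pow_le_pow_right (by norm_num) (by omega)
  have hpow4 : 2 ^ n ≤ 2 ^ (4 * n) := Nat.pow_le_pow_right (by norm_num) (by omega)
  have hpow5 : 2 ^ (4 * n + 3) = 8 * 2 ^ (4 * n) := by ring
  have hc : (wQ Y L).card ≤ 2 ^ (5 * n * d) :=
    (card_wQ Y L).trans ((Nat.mul_le_mul hY (Nat.pow_le_pow_left (by omega) d)).trans hcard)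
  have hw := hW K hK pc (pc + B.g / 2) (wQ Y L) (wZ Y L) (wQ Y L) (s1 F n) h1 h2
    (by linarith [hB.1]) le_rfl (wZ_subset_wQ Y L) (Finset.Subset.refl _) hc (by omega)
  have he : 0 ≤ Real.exp (-(n : ℝ) ^ 2 / 2) := (Real.exp_pos _).le
  refine le_trans (ex_mono (Bdd.pr _ _) (Bdd.of01 fun ω => ⟨le_min zero_le_one ?_,
    min_le_left _ _⟩) fun ω _ => le_min (pr_le_one _ _) ?_) hw
  · exact add_nonneg (add_nonneg (pr_nonneg _ _) (ind_nonneg _)) (by positivity)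
  have hpr := pr_nonneg (wls F.toMd (al K (wQ Y L)) (s1 F n))
    (wfl F.toMd n (hh F B K pc) ⟨al K (wQ Y L), wZ Y L⟩ (wQ Y L) ω)
  have hms : (0 : ℝ) ≤ ((mass ω (wQ Y L) : ℝ) + 1) * Real.exp (-(n : ℝ) ^ 2 / 2) := by positivity
  by_cases hm : K ≤ mass ω (wQ Y L)
  · rw [ind_pos hm]
    exact (pr_le_one _ _).trans (by simp only; linarith)
  rw [ind_neg hm, add_zero]
  set X : Finset (S d) := Y.biUnion fun y => bx y (L + 4 * DD F n) with hX
  have hXb : ∀ x ∈ X, bx x ((n ^ 2) ^ F.A + 1) ⊆ wQ Y L := by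
    intro x hx
    obtain ⟨y, hy, hxy⟩ := Finset.mem_biUnion.1 hx
    rw [mem_bx] at hxy
    refine (bx_subset ?_).trans (Finset.subset_biUnion_of_mem (fun y => bx y (2 * L)) hy)
    simp only [s1] at hs1
    omega
  have hXb' : ∀ x ∈ X, bx x ((n ^ 2) ^ F.A) ⊆ wQ Y L := fun x hx =>
    (bx_mono x (by omega)).trans (hXb x hx)
  have hXc : (X.card : ℝ) ≤ 2 ^ (5 * n * d) := by
    have : X ⊆ wQ Y L := fun x hx => hXb' x hx (self_mem_bx _ _)
    exact_mod_cast (Finset.card_le_card this).trans hc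
  refine le_trans (pr_le_add (E1 := fun ws => ∃ u, u ≤ s1 F n ∧
      Dense (n ^ 2) (hh F B K pc) (wQ Y L) (ms (al K (wQ Y L)) ω (ws.take u)))
    (E2 := fun ws => ∃ x ∈ X, ms (al K M.Q) (M.st F.toMd K s).1 ws x < ms (al K (wQ Y L)) ω ws x ∧
      ∀ u, u ≤ (n ^ 2) ^ F.A →
        ¬ Dense (n ^ 2) (hh F B K pc) (bx x ((n ^ 2) ^ F.A)) (ms (al K (wQ Y L)) ω (ws.take u)) ∧
        ¬ Sparse (n ^ 2) (hh F B K pc) (bx x ((n ^ 2) ^ F.A))
          (ms (al K M.Q) (M.st F.toMd K s).1 (ws.take u))) fun ws hws h => ?_)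
    (add_le_add ?_ ((pr_union_le _ _ _).trans ?_))
  · obtain ⟨hfl, y, hy, x, hx, hlt⟩ := h
    have hxX : x ∈ X := Finset.mem_biUnion.2 ⟨y, hy, hx⟩
    by_cases hD : ∃ u, u ≤ s1 F n ∧
        Dense (n ^ 2) (hh F B K pc) (wQ Y L) (ms (al K (wQ Y L)) ω (ws.take u))
    · exact Or.inl hD
    rw [st_nx, acs_fst] at hlt
    refine Or.inr ⟨x, hxX, hlt, fun u hu' => ⟨?_, ?_⟩⟩
    · rintro ⟨z, hz, hz'⟩
      exact hD ⟨u, hu', z, hz.trans (hXb' x hxX), hz'⟩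
    · rintro ⟨z, hz, hz'⟩
      refine hM.2.2.2 (nx s ws) hfl (tm s + u) (by omega) ?_ ⟨z, hz.trans ((hXb' x hxX).trans hQ'), ?_⟩
      · rw [tm_nx, (wls_mem hF hws).1]
        exact Nat.add_le_add_left hu' _
      · rw [cut_nx_add, st_nx, acs_fst]
        exact hz'
  · refine le_trans (le_of_eq (ex_wls_flt hF (al_mono K hQ) _ (Bdd.ind _) fun ws => ?_))
      (pr_mono fun ws hws h => ?_)
    · simp only [flt_take, ms_flt (Finset.Subset.refl _)]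
    · obtain ⟨u, hu', h⟩ := h
      exact ⟨u, by rw [(wls_mem hF hws).1]; exact hu', Or.inl h⟩
  · refine le_trans (Finset.sum_le_card_nsmul _ _
      (((mass ω (wQ Y L) : ℝ) + 1) * Real.exp (-((n ^ 2 : ℕ) : ℝ))) fun x hx => ?_) ?_
    · exact hP (al K M.Q) (al K (wQ Y L)) (al K M.Q) K (wQ Y L) x (hh F B K pc) 0 ω
        (M.st F.toMd K s).1 (al_mono K hQ) (Finset.Subset.refl _) (closed_al K _) (hXb' x hx)
        (lev_al K (hXb x hx)) (lev_al K ((hXb x hx).trans hQ))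
        (fun _ _ => ⟨Nat.zero_le _, Nat.zero_le _⟩) (not_le.1 hm)
    · rw [nsmul_eq_mul]
      calc (X.card : ℝ) * (((mass ω (wQ Y L) : ℝ) + 1) * Real.exp (-((n ^ 2 : ℕ) : ℝ)))
          ≤ 2 ^ (5 * n * d) * (((mass ω (wQ Y L) : ℝ) + 1) * Real.exp (-((n ^ 2 : ℕ) : ℝ))) :=
            mul_le_mul_of_nonneg_right hXc (by positivity)
        _ = ((mass ω (wQ Y L) : ℝ) + 1) * (2 ^ (5 * n * d) * Real.exp (-((n ^ 2 : ℕ) : ℝ))) := by
            ring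
        _ ≤ _ := mul_le_mul_of_nonneg_left (pha_num hnd) (by positivity)

end Pool.Agent.Lib.MP_dd0771_pr.Sc
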