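import Pool.Agent.Lib.MP_dd0771_pr.Sc.Kit

open Filter

namespace Pool.Agent.Lib.MP_dd0771_pr.Sc

variable {d : ℕ} {G : Md}

/-- `τ` is the part of `σ` on `Q`. -/
def prodR (G : Md) (Q : Finset (S d)) (σ τ : St d) : Prop :=
  (∀ x ∈ σ.2, G.j ≤ σ.1 x) ∧ (∀ x ∈ Q, σ.1 x = τ.1 x) ∧ ∀ x, x ∈ τ.2 ↔ x ∈ σ.2 ∧ x ∈ Q

theorem prod_ac {Y Y1 : Sys d} {Q : Finset (S d)}
    (hA : ∀ a : Lt d, a ∈ Y1.A ↔ a ∈ Y.A ∧ a.1 ∈ Q)
    (hc : ∀ x e k, ((x, some (e, k)) : Lt d) ∈ Y.A → (x ∈ Q ↔ nb x e ∈ Q))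
    (hZ : ∀ x ∈ Q, (x ∈ Y.Z ↔ x ∈ Y1.Z)) {σ τ : St d} (h : prodR G Q σ τ) (a : Lt d) :
    prodR G Q (ac G Y σ a) (ac G Y1 τ a) := by
  obtain ⟨h1, h2, h3⟩ := h
  obtain ⟨x, _ | ⟨e, k⟩⟩ := a
  · simp only [ac, prodR]
    refine ⟨fun y hy => h1 y ?_, h2, fun y => ?_⟩
    · split_ifs at hy
      exacts [Finset.mem_of_mem_erase hy, hy]
    · by_cases hx : x ∈ Q
      · simp only [hA, hx, and_true, ← h2 x hx]
        split_ifs
        · simp only [Finset.mem_erase, h3, and_assoc]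
        · exact h3 y
      · simp only [hA, hx, and_false, false_and, if_false, h3]
        split_ifs
        · simp only [Finset.mem_erase]
          exact ⟨fun t => ⟨⟨fun r => hx (r ▸ t.2), t.1⟩, t.2⟩, fun t => ⟨t.1.2, t.2⟩⟩
        · rfl
  · simp only [ac]
    by_cases c : ((x, some (e, k)) : Lt d) ∈ Y.A ∧ k < σ.1 x
    · rw [if_pos c]
      by_cases hx : x ∈ Q
      · have hn := (hc x e k c.1).1 hx
        rw [if_pos (show (_ : Lt d) ∈ Y1.A ∧ k < τ.1 x from ⟨(hA _).2 ⟨c.1, hx⟩, h2 x hx ▸ c.2⟩)]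
        have e1 (y) (hy : y ∈ Q) : hop σ.1 x (nb x e) y = hop τ.1 x (nb x e) y := by
          simp only [hop, h2 y hy]
        refine ⟨fun y hy => (Finset.mem_filter.1 hy).2, e1, fun y => ?_⟩
        simp only [Finset.mem_filter, h3, hx, and_true, ← hZ _ hn]
        by_cases hy : y ∈ Q
        · rw [e1 y hy]
          split_ifs <;> simp [h3, hy]
        · have : y ≠ nb x e := fun r => hy (r ▸ hn)
          split_ifs <;> simp [h3, hy, this]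
      · have hn : nb x e ∉ Q := fun r => hx ((hc x e k c.1).2 r)
        rw [if_neg fun r : ((x, some (e, k)) : Lt d) ∈ Y1.A ∧ k < τ.1 x => hx ((hA _).1 r.1).2]
        have e1 (y) (hy : y ∈ Q) : hop σ.1 x (nb x e) y = σ.1 y := by
          have a1 : y ≠ x := fun r => hx (r ▸ hy)
          have a2 : y ≠ nb x e := fun r => hn (r ▸ hy)
          simp [hop, a1, a2]
        refine ⟨fun y hy => (Finset.mem_filter.1 hy).2, fun y hy => (e1 y hy).trans (h2 y hy),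
          fun y => ?_⟩
        simp only [Finset.mem_filter, h3]
        refine and_congr_left fun hy => ?_
        have : y ≠ nb x e := fun r => hn (r ▸ hy)
        rw [e1 y hy]
        split_ifs
        · simp only [Finset.mem_insert, this, false_or]
          exact ⟨fun t => ⟨t, h1 y t⟩, fun t => t.1⟩
        · exact ⟨fun t => ⟨t, h1 y t⟩, fun t => t.1⟩
    · rw [if_neg c, if_neg fun r : ((x, some (e, k)) : Lt d) ∈ Y1.A ∧ k < τ.1 x =>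
        c ⟨((hA _).1 r.1).1, h2 x ((hA _).1 r.1).2 ▸ r.2⟩]
      exact ⟨h1, h2, h3⟩

theorem prod_acs {Y Y1 : Sys d} {Q : Finset (S d)}
    (hA : ∀ a : Lt d, a ∈ Y1.A ↔ a ∈ Y.A ∧ a.1 ∈ Q)
    (hc : ∀ x e k, ((x, some (e, k)) : Lt d) ∈ Y.A → (x ∈ Q ↔ nb x e ∈ Q))
    (hZ : ∀ x ∈ Q, (x ∈ Y.Z ↔ x ∈ Y1.Z)) (ws : List (Word d)) {σ τ : St d} (h : prodR G Q σ τ) :
    prodR G Q (acs G Y σ ws) (acs G Y1 τ ws) := by
  rw [acs_flatten, acs_flatten]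
  induction ws.flatten generalizing σ τ with
  | nil => exact h
  | cons a w ih => exact ih (prod_ac hA hc hZ h a)

/-- One component of a union of two systems. -/
theorem prod_tj {K : ℕ} {Q1 Q2 Q Z1 Z2 Z Y : Finset (S d)} {y1 y2 : S d} {η η' ζ : Cfg d}
    (hQ : Disjoint Q1 Q2) (hA : ∀ a, a ∈ al K Q ↔ a ∈ al K Q1 ∨ a ∈ al K Q2)
    (hZ : ∀ x, x ∈ Z ↔ x ∈ Z1 ∨ x ∈ Z2) (hY : ∀ x, x ∈ Y ↔ x = y1 ∨ x = y2) (z1 : Z1 ⊆ Q1)
    (z2 : Z2 ⊆ Q2) (m2 : y2 ∈ Q2) (hζ : ∀ x, ζ x = η x + η' x) (h0 : ∀ x, x ∉ Q2 → η' x = 0)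
    (ws : List (Word d)) :
    (fun u => tj G ⟨al K Q, Z⟩ (ini G Z Y ζ) ws u ∩ Z1) =
      tj G ⟨al K Q1, Z1⟩ (ini G Z1 {y1} η) ws := by
  have dj {x} (a : x ∈ Q1) (b : x ∈ Q2) : False := Finset.disjoint_left.1 hQ a b
  have fs {B : Finset (S d)} {a : Lt d} (h : a ∈ al K B) : a.1 ∈ B := by
    obtain ⟨x, _ | ⟨e, k⟩⟩ := a
    exacts [mem_al_none.1 h, (mem_al_some.1 h).1]
  have hz (x) (a : x ∈ Q1) : x ∈ Z ↔ x ∈ Z1 :=
    (hZ x).trans (or_iff_left fun b => dj a (z2 b))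
  have e0 (x) (a : x ∈ Q1) : ζ x = η x := by rw [hζ, h0 x (dj a), add_zero]
  funext u
  have k := prod_acs (G := G) (Y := ⟨al K Q, Z⟩) (Y1 := ⟨al K Q1, Z1⟩) (Q := Q1)
    (fun a => ⟨fun h => ⟨(hA a).2 (.inl h), fs h⟩, fun h =>
      ((hA a).1 h.1).resolve_right fun r => dj h.2 (fs r)⟩)
    (fun x e k h => ((hA _).1 h).elim
      (fun r => iff_of_true (mem_al_some.1 r).1 (mem_al_some.1 r).2.1)
      fun r => iff_of_false (dj · (mem_al_some.1 r).1) (dj · (mem_al_some.1 r).2.1))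
    hz (ws.take u) (σ := ini G Z Y ζ) (τ := ini G Z1 {y1} η)
    ⟨fun x h => (Finset.mem_filter.1 h).2, e0, fun x => by
      simp only [ini, Finset.mem_filter, Finset.mem_inter, Finset.mem_singleton, hY]
      exact ⟨fun h => ⟨⟨⟨.inl h.1.1, (hz x (z1 h.1.2)).2 h.1.2⟩, e0 x (z1 h.1.2) ▸ h.2⟩, z1 h.1.2⟩,
        fun h => ⟨⟨h.1.1.1.resolve_right fun r => dj h.2 (r ▸ m2), (hz x h.2).1 h.1.1.2⟩,
          e0 x h.2 ▸ h.1.2⟩⟩⟩
  have r := (reg_ini (G := G) Z Y ζ).acs (Y := ⟨al K Q, Z⟩) (ws.take u)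
  ext x
  rw [Finset.mem_inter]
  exact ⟨fun h => (k.2.2 x).2 ⟨h.1, z1 h.2⟩, fun h =>
    ⟨((k.2.2 x).1 h).1, (hz x ((k.2.2 x).1 h).2).1 (r x ((k.2.2 x).1 h).1).1⟩⟩

theorem s_prod {d : ℕ} {F : Fr} (hd : 2 ≤ d) (hF : F.Ok)
    :
    S_PROD d F := by
  intro K φ y1 y2 L T f1 f2 _ hL b1 b2
  have _ := hd
  have hQ : Disjoint (bx y1 (2 * L)) (bx y2 (2 * L)) := bx_disjoint (by omega)
  obtain ⟨hA, hD⟩ := al_union K (y1 := y1) (y2 := y2) (r := 2 * L) (by omega)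
  have eQ : wQ {y1, y2} L = bx y1 (2 * L) ∪ bx y2 (2 * L) := by
    rw [wQ, Finset.biUnion_insert, Finset.singleton_biUnion]
  have eZ : wZ {y1, y2} L = bx y1 L ∪ bx y2 L := by
    rw [wZ, Finset.biUnion_insert, Finset.singleton_biUnion]
  have bb {α : Type} (g1 g2 : α → Tj d) : Bdd fun a => f1 (g1 a) * f2 (g2 a) :=
    (b1.comp g1).mul (b2.comp g2)
  unfold wX
  rw [eQ, eZ, mu, pc_union hQ, ex_bind _ _ (Bdd.ex (bb _ _) _), ← ex_mul_right]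
  refine ex_congr fun η h1 => ?_
  rw [ex_map _ _ (Bdd.ex (bb _ _) _), ← ex_mul_left]
  refine ex_congr fun η' h2 => ?_
  have s1 : al K (bx y1 (2 * L)) ⊆ al K (bx y1 (2 * L) ∪ bx y2 (2 * L)) :=
    al_mono K Finset.subset_union_left
  have s2 : al K (bx y2 (2 * L)) ⊆ al K (bx y1 (2 * L) ∪ bx y2 (2 * L)) :=
    al_mono K Finset.subset_union_right
  have k := congrArg (ex · fun p : List (Word d) × List (Word d) =>
    f1 (tj F.toMd ⟨al K (bx y1 (2 * L)), bx y1 L⟩ (ini F.toMd (bx y1 L) {y1} η) p.1) *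
      f2 (tj F.toMd ⟨al K (bx y2 (2 * L)), bx y2 L⟩ (ini F.toMd (bx y2 L) {y2} η') p.2))
    (wls_split hF s1 s2 hD T)
  rw [ex_map _ _ (bb _ _), ex_bind _ _ (bb _ _)] at k
  refine (ex_congr fun ws _ => ?_).trans (k.trans ?_)
  · beta_reduce
    rw [tj_flt _ subset_rfl, tj_flt _ subset_rfl,
      prod_tj (y1 := y1) (y2 := y2) (η := η) (η' := η') (ζ := η + η') hQ (fun a => by rw [hA, Finset.mem_union])
        (fun _ => Finset.mem_union) (fun _ => by simp) (bx_mono _ (by omega))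
        (bx_mono _ (by omega)) (self_mem_bx _ _) (fun _ => rfl) (pc_support h2).1,
      prod_tj (y1 := y2) (y2 := y1) (η := η') (η' := η) (ζ := η + η') hQ.symm
        (fun a => by rw [hA, Finset.mem_union, or_comm])
        (fun _ => Finset.mem_union.trans or_comm) (fun _ => by simp [or_comm])
        (bx_mono _ (by omega)) (bx_mono _ (by omega)) (self_mem_bx _ _) (fun _ => add_comm _ _)
        (pc_support h1).1]
  · rw [← ex_mul_right]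
    refine ex_congr fun ws _ => ?_
    rw [ex_map _ _ (bb _ _), ← ex_mul_left]

end Pool.Agent.Lib.MP_dd0771_pr.Sc
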