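import Pool.Agent.Lib.MP_dd0771_pr.Sc.Kit3
import Pool.Agent.Lib.MP_dd0771_pr.Sc.Wd2
import Pool.Agent.Lib.MP_dd0771_pr.Sc.Site
import Pool.Agent.Lib.MP_dd0771_pr.Sc.ValK
import Pool.Agent.Lib.MP_dd0771_pr.Sc.Scale
import Pool.Agent.Lib.MP_dd0771_pr.Sc.Stm4

open Filter

namespace Pool.Agent.Lib.MP_dd0771_pr.Sc

variable {d : ℕ} {F : Fr}

theorem qq_low_sum (G : Md) (z : S d) :
    ∑ a ∈ low G z, rt G a = ∑ a ∈ low G (0 : S d), rt G a := by
  have key : ∀ z : S d, ∑ a ∈ low G z, rt G a = G.dl +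
      ∑ q ∈ (Finset.univ : Finset (Dir d)) ×ˢ Finset.range G.j, G.a q.2 / (2 * d) := by
    intro z
    unfold low
    rw [Finset.sum_insert (by simp), Finset.sum_image (by intro a _ b _ h; simpa using h)]
    rfl
  rw [key z, key 0]

theorem qq_low_sub (hF : F.Ok) {K r : ℕ} (hK : 4 ≤ K) (hr : 1 ≤ r) (z : S d) :
    low F.toMd z ⊆ al K (bx z r) := by
  rintro ⟨x, o⟩ ha
  obtain ⟨hx, hq⟩ := mem_low.1 ha
  obtain rfl : x = z := hx
  rcases o with _ | ⟨e, k⟩
  · exact mem_al_none.2 (self_mem_bx _ _)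
  · refine mem_al_some.2 ⟨self_mem_bx _ _, ?_, ?_⟩
    · rw [mem_bx, nrm_nb]; exact hr
    · have h1 : k < F.toMd.j := hq (e, k) rfl
      rcases hF.2.2.2.1 with h | h <;> omega

theorem qq_frz_flt {G : Md} {A : Finset (Lt d)} {z : S d} (h : low G z ⊆ A)
    (ws : List (Word d)) : frz G z (flt A ws) ↔ frz G z ws := by
  unfold frz flt
  constructor
  · intro H w hw a ha hl
    exact H _ (List.mem_map.2 ⟨w, hw, rfl⟩) a (List.mem_filter.2 ⟨ha, by simpa using h hl⟩) hl
  · intro H w' hw' a ha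
    obtain ⟨w, hw, rfl⟩ := List.mem_map.1 hw'
    exact H w hw a (List.mem_filter.1 ha).1

/-- A try only reads the letters of its local box. -/
theorem qq_LT_flt (B : Bs) (K n l : ℕ) (pc : ℝ) {A : Finset (Lt d)} {z : S d}
    (h1 : low F.toMd z ⊆ A) (h2 : al K (bx z (4 * DD F n)) ⊆ A) (ws : List (Word d)) :
    LT F B K n l pc (flt A ws) z = LT F B K n l pc ws z := by
  unfold LT
  have e : ∀ σ ws', acs F.toMd ⟨al K (bx z (4 * DD F n)), bx z (2 * DD F n)⟩ σ (flt A ws') =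
      acs F.toMd ⟨al K (bx z (4 * DD F n)), bx z (2 * DD F n)⟩ σ ws' := fun σ ws' =>
    acs_flt _ h2 σ ws'
  have e0 : frz F.toMd z ((flt A ws).take (s2 F l)) = frz F.toMd z (ws.take (s2 F l)) := by
    rw [flt_take, qq_frz_flt h1]
  simp only [flt_take, flt_drop, ms_flt h2, e]
  by_cases hz : frz F.toMd z (ws.take (s2 F l))
  · rw [if_pos hz, if_pos (e0 ▸ hz)]
  · rw [if_neg hz, if_neg (e0 ▸ hz)]

/-- The local world started from `ζ` is alive after the windows `ws`. -/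
def qqAl (F : Fr) (K n : ℕ) (z : S d) (ζ : Cfg d) (ws : List (Word d)) : Prop :=
  (acs F.toMd ⟨al K (bx z (4 * DD F n)), bx z (2 * DD F n)⟩
    (ini F.toMd (bx z (2 * DD F n)) {z} ζ) ws).2.Nonempty

theorem qq_ex_LT (B : Bs) (K n l : ℕ) (pc : ℝ) (z : S d) (ws : List (Word d))
    {g : Cfg d × Cfg d → ℝ} (hg : Bdd g) :
    ex (LT F B K n l pc ws z) (fun o => o.elim 0 g) =
      ind (frz F.toMd z (ws.take (s2 F l))) *
        ex (piz F.toMd K pc (bx z (4 * DD F n)) z) fun ζ0 =>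
          ex (thin (sl F.toMd K pc F.j) (sl F.toMd K pc 0)
            (ms (al K (bx z (4 * DD F n))) ζ0 (ws.take (s2 F l)) z)) fun v =>
            ind (qqAl F K n z
              (Function.update (ms (al K (bx z (4 * DD F n))) ζ0 (ws.take (s2 F l))) z v)
              (ws.drop (s2 F l))) *
            g (ζ0, Function.update (ms (al K (bx z (4 * DD F n))) ζ0 (ws.take (s2 F l))) z v) := by
  have hb : Bdd fun o : Option (Cfg d × Cfg d) => o.elim 0 g := by
    obtain ⟨M, hM⟩ := hg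
    refine ⟨M, ?_⟩
    rintro (_ | p)
    · simpa using (abs_nonneg _).trans (hM (0, 0))
    · exact hM p
  unfold LT
  split_ifs with h
  · rw [ind_pos h, one_mul, ex_bind _ _ hb]
    refine ex_congr fun ζ0 _ => ?_
    rw [ex_map _ _ hb]
    refine ex_congr fun v _ => ?_
    dsimp only
    split_ifs with h'
    · rw [ind_pos (show qqAl F K n z _ _ from h'), one_mul]; rfl
    · rw [ind_neg (show ¬ qqAl F K n z _ _ from h'), zero_mul]; rfl
  · rw [ind_neg h, zero_mul, ex_pure]; rfl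

/-- Thinning the frozen law at `z` gives the stationary law. -/
theorem qq_thin (hF : F.Ok) {K : ℕ} {pc : ℝ} (hp : KP F K pc) {Q : Finset (S d)} {z : S d}
    (hz : z ∈ Q) :
    ((piz F.toMd K pc Q z).bind fun η =>
      (thin (sl F.toMd K pc F.j) (sl F.toMd K pc 0) (η z)).map fun v => Function.update η z v) =
      mu F.toMd K pc Q := by
  have hj : F.j ≤ 2 := by rcases hF.2.2.2.1 with h | h <;> omega
  have ht := (thin_spec (sl F.toMd K pc F.j) (sl F.toMd K pc 0) fun m =>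
    sl_dom hF hp hp le_rfl (Nat.zero_le _) hj m).2
  unfold piz mu
  rw [pc_kernel_site hz]
  refine pc_congr fun x _ => ?_
  by_cases hx : x = z
  · subst hx
    simp only [Function.update_self, if_true]
    exact ht
  · simp only [Function.update_of_ne hx, if_neg hx]

/-- Law of the start of the local world and of the later windows, on success. -/
theorem qq_one (hF : F.Ok) (hS : S_STAT d F) (B : Bs) {K n : ℕ} (l : ℕ) {pc : ℝ} (hp : KP F K pc)
    (hD : 1 ≤ DD F n) (z : S d) (T : ℕ) {f : Cfg d → List (Word d) → ℝ}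
    (hf : Bdd fun x : Cfg d × List (Word d) => f x.1 x.2) :
    (ex (wls F.toMd (al K (bx z (4 * DD F n))) (s2 F l + T)) fun ws =>
      ex (LT F B K n l pc ws z) fun o => o.elim 0 fun p => f p.2 (ws.drop (s2 F l))) =
      Real.exp (-(s2 F l : ℝ) * ∑ a ∈ low F.toMd (0 : S d), rt F.toMd a) *
        ex (mu F.toMd K pc (bx z (4 * DD F n))) fun ζ =>
          ex (wls F.toMd (al K (bx z (4 * DD F n))) T) fun ws => ind (qqAl F K n z ζ ws) * f ζ ws := by
  set A := al K (bx z (4 * DD F n)) with hA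
  set κ := thin (sl F.toMd K pc F.j) (sl F.toMd K pc 0) with hκ
  set P := piz F.toMd K pc (bx z (4 * DD F n)) z with hP
  have hlow : low F.toMd z ⊆ A := qq_low_sub hF hp.1.1 (by omega) z
  -- the value of a start and of the later windows
  let u : Cfg d → List (Word d) → ℝ := fun ζ ws => ind (qqAl F K n z ζ ws) * f ζ ws
  have hu : Bdd fun x : Cfg d × List (Word d) => u x.1 x.2 := (Bdd.ind _).mul hf
  let u1 : Cfg d → List (Word d) → ℝ := fun ζ ws => ex (κ (ζ z)) fun v => u (Function.update ζ z v) ws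
  have hu1 : Bdd fun x : Cfg d × List (Word d) => u1 x.1 x.2 :=
    Bdd.ex (f := fun (x : Cfg d × List (Word d)) v => u (Function.update x.1 z v) x.2)
      (hu.comp fun y : (Cfg d × List (Word d)) × ℕ => (Function.update y.1.1 z y.2, y.1.2))
      fun x => κ (x.1 z)
  let u2 : List (Word d) → List (Word d) → ℝ := fun w1 w2 => ex P fun ζ0 => u1 (ms A ζ0 w1) w2
  have hu2 : Bdd fun x : List (Word d) × List (Word d) => u2 x.1 x.2 :=
    Bdd.ex (f := fun (x : List (Word d) × List (Word d)) ζ0 => u1 (ms A ζ0 x.1) x.2)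
      (hu1.comp fun y : (List (Word d) × List (Word d)) × Cfg d => (ms A y.2 y.1.1, y.1.2))
      fun _ => P
  let H : Cfg d → ℝ := fun ζ => ex (wls F.toMd A T) (u1 ζ)
  have hH : Bdd H := Bdd.ex hu1 fun _ => wls F.toMd A T
  let H0 : Cfg d → ℝ := fun ζ => ex (wls F.toMd A T) (u ζ)
  have hH0 : Bdd H0 := Bdd.ex hu fun _ => wls F.toMd A T
  have s1 : (ex (wls F.toMd A (s2 F l + T)) fun ws =>
      ex (LT F B K n l pc ws z) fun o => o.elim 0 fun p => f p.2 (ws.drop (s2 F l))) =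
      ex (wls F.toMd A (s2 F l + T)) fun ws =>
        ind (frz F.toMd z (ws.take (s2 F l))) * u2 (ws.take (s2 F l)) (ws.drop (s2 F l)) :=
    ex_congr fun ws _ => qq_ex_LT B K n l pc z ws
      (hf.comp fun p : Cfg d × Cfg d => (p.2, ws.drop (s2 F l)))
  have s2' : (ex (wls F.toMd A (s2 F l + T)) fun ws =>
        ind (frz F.toMd z (ws.take (s2 F l))) * u2 (ws.take (s2 F l)) (ws.drop (s2 F l))) =
      ex (wls F.toMd A (s2 F l)) fun w1 => ind (frz F.toMd z w1) * ex P fun ζ0 => H (ms A ζ0 w1) := by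
    unfold wls
    rw [ex_iid_split _ _ _ (f := fun w1 w2 => ind (frz F.toMd z w1) * u2 w1 w2)
      ((Bdd.ind _).mul hu2)]
    refine ex_congr fun w1 _ => ?_
    rw [ex_mul_left]
    congr 1
    exact ex_comm _ P (f := fun w2 ζ0 => u1 (ms A ζ0 w1) w2)
      (hu1.comp fun y : List (Word d) × Cfg d => (ms A y.2 w1, y.1))
  have hH2 : Bdd fun x : List (Word d) × Cfg d => H (ms A x.2 x.1) := hH.comp _
  have s3 := ex_wls_avoid hF hlow (s2 F l) (f := fun w1 => ex P fun ζ0 => H (ms A ζ0 w1))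
    (Bdd.ex (f := fun w1 ζ0 => H (ms A ζ0 w1)) hH2 fun _ => P)
  have s4 : (ex (wls F.toMd (A \ low F.toMd z) (s2 F l)) fun w1 => ex P fun ζ0 => H (ms A ζ0 w1)) =
      ex P H := by
    rw [ex_comm _ P (f := fun w1 ζ0 => H (ms A ζ0 w1)) hH2]
    conv_rhs => rw [hP, ← (hS K pc (bx z (4 * DD F n)) hp).2.2.1 z (self_mem_bx _ _) (s2 F l)]
    rw [ex_bind _ _ hH]
    exact ex_congr fun ζ0 _ => (ex_map _ _ hH).symm
  have s5 : ex P H = ex (mu F.toMd K pc (bx z (4 * DD F n))) H0 := by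
    rw [← qq_thin hF hp (self_mem_bx z _), ex_bind _ _ hH0]
    refine ex_congr fun ζ _ => ?_
    rw [ex_map _ _ hH0]
    exact ex_comm _ (κ (ζ z)) (f := fun ws v => u (Function.update ζ z v) ws)
      (hu.comp fun y : List (Word d) × ℕ => (Function.update ζ z y.2, y.1))
  rw [s1, s2', ← qq_low_sum F.toMd z, ← s5, ← s4]
  exact s3

/-- Probability of success of the try at `z` on the windows `ws`. -/
noncomputable def qqS (F : Fr) (B : Bs) (K n l : ℕ) (pc : ℝ) (z : S d) (ws : List (Word d)) : ℝ :=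
  ex (LT F B K n l pc ws z) fun o => o.elim 0 fun _ => 1

theorem qq_S01 (B : Bs) (K n l : ℕ) (pc : ℝ) (z : S d) (ws : List (Word d)) :
    0 ≤ qqS F B K n l pc z ws ∧ qqS F B K n l pc z ws ≤ 1 := by
  have key : ∀ o : Option (Cfg d × Cfg d),
      0 ≤ o.elim (0 : ℝ) (fun _ => 1) ∧ o.elim (0 : ℝ) (fun _ => 1) ≤ 1 := by
    rintro (_ | p) <;> simp
  exact ⟨ex_nonneg fun o _ => (key o).1, ex_le (Bdd.of01 key) fun o _ => (key o).2⟩

theorem qq_LTs (B : Bs) (K n l : ℕ) (pc : ℝ) (ws : List (Word d)) (zs : List (S d)) :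
    pr (LTs F B K n l pc ws zs) (fun b => b = true) =
      (zs.map fun z => qqS F B K n l pc z ws).prod := by
  induction zs with
  | nil => simp only [LTs, List.map_nil, List.prod_nil]; exact pr_one fun b hb => by simpa using hb
  | cons z zs ih =>
    rw [LTs, pr_bind, List.map_cons, List.prod_cons, ← ih, qqS, ← ex_mul_right]
    refine ex_congr fun o _ => ?_
    rw [pr_map]
    rcases o with _ | p
    · simp only [Option.elim_none, zero_mul]
      exact pr_zero fun b _ => by simp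
    · simp only [Option.elim_some, one_mul]
      exact pr_congr fun b _ => by simp

theorem qq_single (hF : F.Ok) (hS : S_STAT d F) (hY : S_SYM d F) (B : Bs) {K n : ℕ} (l : ℕ)
    {pc : ℝ} (hp : KP F K pc) (hD : 1 ≤ DD F n) (z : S d) :
    ex (wls F.toMd (al K (bx z (4 * DD F n))) (sq F B l)) (qqS F B K n l pc z) =
      qq d F B K n l pc := by
  have h := qq_one hF hS B l hp hD z B.n0 (f := fun _ _ => 1) (Bdd.const 1)
  refine Eq.trans h ?_
  unfold qq
  congr 1
  have e : 2 * (2 * DD F n) = 4 * DD F n := by ring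
  have h2 := hY K pc (0 : S d) z (Equiv.refl _) (fun _ => true) (4 * DD F n) (2 * DD F n) B.n0
    (fun I => ind (I B.n0).Nonempty) (by omega)
  simp only [Finset.image_nonempty] at h2
  unfold alv cP wP
  simp only [e]
  rw [← h2]
  refine ex_congr fun ζ _ => ex_congr fun ws hws => ?_
  have hl : ws.length = B.n0 := iid_length hws
  rw [mul_one]
  simp only [tj, List.take_of_length_le hl.le]
  rfl

theorem qq_prod (hF : F.Ok) (hS : S_STAT d F) (hY : S_SYM d F) (B : Bs) {K n : ℕ} (l : ℕ)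
    {pc : ℝ} (hp : KP F K pc) (hD : 1 ≤ DD F n) (Q Yt : Finset (S d)) (hc : Yt.card ≤ 2)
    (hQ : ∀ z ∈ Yt, bx z (4 * DD F n) ⊆ Q)
    (hs : ∀ z ∈ Yt, ∀ z' ∈ Yt, z ≠ z' → 10 * DD F n ≤ nrm (z - z')) :
    (ex (wls F.toMd (al K Q) (sq F B l)) fun ws =>
      pr (LTs F B K n l pc ws Yt.toList) fun b => b = true) = qq d F B K n l pc ^ Yt.card := by
  have hb : ∀ z : S d, Bdd (qqS F B K n l pc z) := fun z => Bdd.of01 (qq_S01 B K n l pc z)
  have hflt : ∀ (z : S d) ws,
      qqS F B K n l pc z (flt (al K (bx z (4 * DD F n))) ws) = qqS F B K n l pc z ws := by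
    intro z ws
    unfold qqS
    rw [qq_LT_flt B K n l pc (qq_low_sub hF hp.1.1 (by omega) z) (Finset.Subset.refl _)]
  simp only [qq_LTs, Finset.prod_map_toList]
  have h3 : Yt.card = 0 ∨ Yt.card = 1 ∨ Yt.card = 2 := by omega
  rcases h3 with h | h | h
  · rw [h, Finset.card_eq_zero.1 h]
    simp [ex_const]
  · obtain ⟨z, rfl⟩ := Finset.card_eq_one.1 h
    simp only [Finset.prod_singleton, Finset.card_singleton, pow_one]
    rw [ex_wls_flt hF (al_mono K (hQ z (by simp))) _ (hb z) (hflt z)]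
    exact qq_single hF hS hY B l hp hD z
  · rw [h]
    obtain ⟨z, z', hne, rfl⟩ := Finset.card_eq_two.1 h
    simp only [Finset.prod_pair hne]
    have hd := (al_union K (y1 := z) (y2 := z') (r := 4 * DD F n)
      (by have := hs z (by simp) z' (by simp) hne; omega)).2
    have hsp := wls_split hF (al_mono K (hQ z (by simp))) (al_mono K (hQ z' (by simp))) hd
      (sq F B l)
    have hb2 : Bdd fun p : List (Word d) × List (Word d) =>
        qqS F B K n l pc z p.1 * qqS F B K n l pc z' p.2 := ((hb z).comp _).mul ((hb z').comp _)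
    have e := congrArg (fun p => ex p fun p : List (Word d) × List (Word d) =>
      qqS F B K n l pc z p.1 * qqS F B K n l pc z' p.2) hsp
    simp only [ex_map _ _ hb2, ex_bind _ _ hb2, hflt, ex_mul_left, ex_mul_right] at e
    rw [e]
    have e1 := qq_single hF hS hY B l hp hD z
    have e2 := qq_single hF hS hY B l hp hD z'
    rw [pow_two]
    exact congrArg₂ (· * ·) e1 e2

theorem qq_num {R t : ℝ} (hR : 0 ≤ R) (ht : 0 < t) (A : ℕ) : ∀ᶠ l0 : ℕ in atTop, ∀ l, l0 ≤ l →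
    4 * (1 / 2 : ℝ) ^ (l ^ (A + 1)) ≤ (Real.exp (-((l ^ A : ℕ) : ℝ) * R) * t) ^ 2 := by
  have hlog : 0 < Real.log 2 := Real.log_pos one_lt_two
  obtain ⟨N, hN⟩ := exists_nat_ge ((2 * R + |Real.log (4 / t ^ 2)|) / Real.log 2)
  filter_upwards [eventually_ge_atTop N, eventually_ge_atTop 1] with l0 h0 h1 l hl
  have hl1 : (1 : ℝ) ≤ ((l ^ A : ℕ) : ℝ) := by exact_mod_cast Nat.one_le_pow _ _ (by omega)
  have hl2 : 2 * R + |Real.log (4 / t ^ 2)| ≤ l * Real.log 2 := by
    rw [div_le_iff₀ hlog] at hN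
    have : (N : ℝ) ≤ l := by exact_mod_cast h0.trans hl
    nlinarith
  have e1 : (1 / 2 : ℝ) ^ (l ^ (A + 1)) = Real.exp (-(((l ^ A : ℕ) : ℝ) * (l * Real.log 2))) := by
    rw [Real.exp_neg, ← mul_assoc, ← Nat.cast_mul, Real.exp_nat_mul, Real.exp_log two_pos, pow_succ,
      one_div, inv_pow]
  have e2 : (4 : ℝ) = Real.exp (Real.log (4 / t ^ 2)) * t ^ 2 := by
    rw [Real.exp_log (by positivity)]; field_simp
  rw [e1, mul_pow, ← Real.exp_nat_mul, e2, mul_right_comm, ← Real.exp_add]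
  refine mul_le_mul_of_nonneg_right (Real.exp_le_exp.2 ?_) (by positivity)
  have h4 := le_abs_self (Real.log (4 / t ^ 2))
  have h5 := abs_nonneg (Real.log (4 / t ^ 2))
  push_cast at hl1 ⊢
  nlinarith

theorem s_qq {d : ℕ} {F : Fr} (hd : 2 ≤ d) (hF : F.Ok) (hL : Low d F)
    (hAL : S_AL d F) :
    S_QQ d F := by
  intro B hB
  have hR : 0 ≤ ∑ a ∈ low F.toMd (0 : S d), rt F.toMd a :=
    Finset.sum_nonneg fun a _ => rt_nonneg hF a
  have hbig : ∀ᶠ n : ℕ in atTop, 2 * DD F n ≤ 2 ^ (4 * n) := by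
    have h := (isLittleO_pow_const_const_pow_of_one_lt (R := ℝ) (2 * F.A + 4)
      (r := 2) one_lt_two).def one_pos
    filter_upwards [h, eventually_ge_atTop 1] with n hn h1
    have h2 : n ^ (2 * F.A + 4) ≤ 2 ^ n := by
      rw [Real.norm_of_nonneg (by positivity), Real.norm_of_nonneg (by positivity), one_mul] at hn
      exact_mod_cast hn
    have h3 : 2 ^ (n + 1) ≤ 2 ^ (4 * n) := Nat.pow_le_pow_right (by norm_num) (by omega)
    unfold DD
    omega
  filter_upwards [hAL B hB, scales hF B, hbig, eventually_ge_atTop 2,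
    ls_tendsto.eventually (qq_num hR (thm_pos hB) F.A)] with n h1 h2 h3 h4 h5 K hK l pc hl1 hl2 hp1 hp2
  have hp : KP F K pc := hK.kp hF hB hp1 (by
    have := hB.2.1
    simp only [Bs.p] at hp2
    push_cast at hp2
    linarith)
  have hD : 1 ≤ DD F n := Nat.one_le_pow _ _ (by omega)
  have hn0 : 4 * B.n0 ^ 2 ≤ 2 * DD F n := by
    have a1 : B.n0 ^ 2 ≤ n ^ 2 := Nat.pow_le_pow_left h2.1 2
    have a2 : n ^ 3 ≤ n ^ (2 * F.A + 4) := Nat.pow_le_pow_right (by omega) (by omega)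
    have a3 : 2 * n ^ 2 ≤ n ^ 3 := by rw [pow_succ n 2]; nlinarith
    unfold DD
    omega
  have hth : B.thm ≤ alv d F.toMd K (pc, 2 * DD F n) B.n0 :=
    (h1 K hK (pc, 2 * DD F n) hp1 hp2 (by simp only; omega) h3).2 B.n0 hn0
  have hx : Real.exp (-(s2 F l : ℝ) * ∑ a ∈ low F.toMd (0 : S d), rt F.toMd a) ≤ 1 := by
    rw [Real.exp_le_one_iff]
    have : (0 : ℝ) ≤ s2 F l := Nat.cast_nonneg _
    nlinarith
  have ha0 : 0 ≤ alv d F.toMd K (pc, 2 * DD F n) B.n0 := by
    unfold alv cP; exact wP_nonneg _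
  have ha1 : alv d F.toMd K (pc, 2 * DD F n) B.n0 ≤ 1 := by
    unfold alv cP; exact wP_le_one _
  refine ⟨mul_nonneg (Real.exp_pos _).le ha0, mul_le_one₀ hx ha0 ha1, (h5 l hl1).trans ?_,
    fun Q Yt => qq_prod hF hL.hSTAT hL.hSYM B l hp hD Q Yt⟩
  refine pow_le_pow_left₀ (mul_nonneg (Real.exp_pos _).le (thm_pos hB).le) ?_ 2
  exact mul_le_mul_of_nonneg_left hth (Real.exp_pos _).le

end Pool.Agent.Lib.MP_dd0771_pr.Sc
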