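import Pool.Agent.Lib.MP_dd0771_pr.Sc.StatA

open Filter

namespace Pool.Agent.Lib.MP_dd0771_pr.Sc

section

variable {d : ℕ} {F : Fr} {G : Md} {K : ℕ} {φ : ℝ} {Q Z : Finset (S d)} {A : Finset (Lt d)}

/-- `b` is infected from `a` along the word `w`. -/
def revR (G : Md) (A : Finset (Lt d)) (Z : Finset (S d)) (η : Cfg d) (w : Word d) (a b : S d) :
    Prop := b ∈ (acw G ⟨A, Z⟩ (ini G Z {a} η) w).2

theorem rev_anc {σ : St d} (h : Reg G Z σ) (w : Word d) (b : S d) :
    b ∈ (acw G ⟨A, Z⟩ σ w).2 ↔ ∃ a ∈ σ.2, revR G A Z σ.1 w a b := by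
  rw [acw_anc]
  refine exists_congr fun a => and_congr_right fun ha => ?_
  have h1 : ini G Z {a} σ.1 = (σ.1, {a}) := by
    simp only [ini, Prod.mk.injEq, true_and]
    ext x
    simp only [Finset.mem_filter, Finset.mem_inter, Finset.mem_singleton]
    exact ⟨fun h1 => h1.1.1, fun h1 => by rw [h1]; exact ⟨⟨rfl, (h a ha).1⟩, (h a ha).2⟩⟩
  rw [revR, h1]

theorem rev_append (η : Cfg d) (w w' : Word d) :
    revR G A Z η (w ++ w') = Relation.Comp (revR G A Z η w) (revR G A Z (mw A η w) w') := by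
  funext a c
  rw [revR, acw_append, rev_anc (Reg.acw (Y := ⟨A, Z⟩) (reg_ini Z {a} η) w), acw_fst]
  rfl

theorem rev_nil (η : Cfg d) (a b : S d) : revR G A Z η [] a b ↔ b = a ∧ a ∈ Z ∧ G.j ≤ η a := by
  simp only [revR, acw, List.foldl_nil, ini, Finset.mem_filter, Finset.mem_inter,
    Finset.mem_singleton]
  exact ⟨fun h => ⟨h.1.1, h.1.1 ▸ h.1.2, h.1.1 ▸ h.2⟩, fun h => by rw [h.1]; exact ⟨⟨rfl, h.2.1⟩, h.2.2⟩⟩

theorem rev_diag {r : S d → S d → Prop} (h : ∀ a b, r a b → b = a) : flip r = r := by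
  funext a b
  exact propext ⟨fun h1 => by have := h b a h1; subst this; exact h1,
    fun h1 => by have := h a b h1; subst this; exact h1⟩

theorem rev_mark (η : Cfg d) (x : S d) :
    flip (revR G A Z η [(x, none)]) = revR G A Z η [(x, none)] := by
  refine rev_diag fun a b h => ((rev_nil (G := G) (A := A) (Z := Z) η a b).1 ?_).1
  simp only [revR, acw, List.foldl_cons, List.foldl_nil, ac] at h ⊢
  split_ifs at h
  · exact Finset.mem_of_mem_erase h
  · exact h

theorem rev_jump {η : Cfg d} {x : S d} {e : Dir d} {k : ℕ} (h1 : (x, some (e, k)) ∈ A)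
    (h2 : k < η x) (a b : S d) : revR G A Z η [(x, some (e, k))] a b ↔
      a ∈ Z ∧ G.j ≤ η a ∧ (b = a ∨ (a = x ∧ b = nb x e ∧ b ∈ Z)) ∧ G.j ≤ hop η x (nb x e) b := by
  have h3 : ∀ y, y ∈ (ini G Z {a} η).2 ↔ y = a ∧ a ∈ Z ∧ G.j ≤ η a :=
    fun y => rev_nil (A := A) η a y
  have h4 : (ini G Z {a} η).1 = η := rfl
  simp only [revR, acw, List.foldl_cons, List.foldl_nil, ac, h4, h1, h2, and_self, if_true,
    Finset.mem_filter]
  split_ifs with h5
  · rw [h3] at h5
    rw [Finset.mem_insert, h3]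
    constructor
    · rintro ⟨h6 | h6, h7⟩
      · exact ⟨h5.1.2.1, h5.1.2.2, Or.inr ⟨h5.1.1.symm, h6, h6 ▸ h5.2⟩, h7⟩
      · exact ⟨h6.2.1, h6.2.2, Or.inl h6.1, h7⟩
    · rintro ⟨h6, h7, h8 | h8, h9⟩
      · exact ⟨Or.inr ⟨h8, h6, h7⟩, h9⟩
      · exact ⟨Or.inl h8.2.1, h9⟩
  · rw [h3] at h5 ⊢
    constructor
    · rintro ⟨h6, h7⟩
      exact ⟨h6.2.1, h6.2.2, Or.inl h6.1, h7⟩
    · rintro ⟨h6, h7, h8 | h8, h9⟩
      · exact ⟨⟨h8, h6, h7⟩, h9⟩
      · exact absurd ⟨⟨h8.1.symm, h6, h7⟩, h8.2.1 ▸ h8.2.2⟩ h5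

/-- The law of start, end and relation is symmetric under time reversal. -/
def revP (G : Md) (p : PMF (Cfg d)) (A : Finset (Lt d)) (Z : Finset (S d)) {α : Type} (q : PMF α)
    (c : α → Word d) : Prop :=
  ∀ Φ : Cfg d × Cfg d × (S d → S d → Prop) → ℝ, Bdd Φ →
    (ex p fun η => ex q fun a => Φ (η, mw A η (c a), revR G A Z η (c a))) =
      ex p fun η => ex q fun a => Φ (mw A η (c a), η, flip (revR G A Z η (c a)))

theorem rev_iid {p : PMF (Cfg d)} {α : Type} {q : PMF α} {c : α → Word d}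
    (h : revP G p A Z q c) (N : ℕ) : revP G p A Z (iid q N) fun l => l.flatMap c := by
  induction N with
  | zero =>
    intro Φ _
    simp only [iid, ex_pure, List.flatMap_nil]
    rw [funext fun η => congrArg (fun r => Φ (mw A η [], η, r))
      (rev_diag fun a b h => ((rev_nil (G := G) (A := A) (Z := Z) η a b).1 h).1)]
    rfl
  | succ N ih =>
    intro Φ hΦ
    have h1 := h (fun t => ex (iid q N) fun l => Φ (t.1, mw A t.2.1 (l.flatMap c),
        Relation.Comp t.2.2 (revR G A Z t.2.1 (l.flatMap c))))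
      (Bdd.ex (f := fun (t : Cfg d × Cfg d × (S d → S d → Prop)) (l : List α) =>
        Φ (t.1, mw A t.2.1 (l.flatMap c), Relation.Comp t.2.2 (revR G A Z t.2.1 (l.flatMap c))))
        (hΦ.comp _) fun _ => _)
    have h2 := ih (fun t => ex q fun a => Φ (mw A t.1 (c a), t.2.1,
        Relation.Comp (flip (revR G A Z t.1 (c a))) t.2.2))
      (Bdd.ex (f := fun (t : Cfg d × Cfg d × (S d → S d → Prop)) (a : α) =>
        Φ (mw A t.1 (c a), t.2.1, Relation.Comp (flip (revR G A Z t.1 (c a))) t.2.2))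
        (hΦ.comp _) fun _ => _)
    refine Eq.trans (Eq.trans ?_ h1) (Eq.trans (Eq.trans ?_ h2) ?_)
    · refine congrArg (ex p) (funext fun η => ?_)
      rw [ex_iid_succ _ _ (hΦ.comp _)]
      simp only [List.flatMap_cons, mw_append, rev_append]
    · refine congrArg (ex p) (funext fun η => ?_)
      exact ex_comm _ _ (hΦ.comp _)
    · refine congrArg (ex p) (funext fun η => ?_)
      rw [ex_iid_succ' _ _ (hΦ.comp _)]
      simp only [List.flatMap_append, List.flatMap_singleton, mw_append, rev_append,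
        Relation.flip_comp]

theorem rev_mix {p : PMF (Cfg d)} {α : Type} (m : PMF ℕ) {q : ℕ → PMF α} {c : α → Word d}
    (h : ∀ N, revP G p A Z (q N) c) : revP G p A Z (m.bind q) c := by
  intro Φ hΦ
  have key : ∀ f : Cfg d → α → ℝ, (Bdd fun x : Cfg d × α => f x.1 x.2) →
      (ex p fun η => ex (m.bind q) (f η)) = ex m fun N => ex p fun η => ex (q N) (f η) := by
    intro f hf
    rw [← ex_comm p m (f := fun η N => ex (q N) (f η)) (Bdd.ex
      (f := fun (x : Cfg d × ℕ) a => f x.1 a) (hf.comp fun y : (Cfg d × ℕ) × α => (y.1.1, y.2)) _)]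
    exact congrArg (ex p) (funext fun η => ex_bind _ _ (hf.comp fun a => (η, a)))
  rw [key _ (hΦ.comp _), key _ (hΦ.comp _)]
  exact congrArg (ex m) (funext fun N => h N Φ hΦ)

theorem rev_one (hF : F.Ok) (h : KP F K φ) :
    revP F.toMd (mu F.toMd K φ Q) (al K Q) Z (lw F.toMd (al K Q)) fun a => [a] := by
  intro Φ hΦ
  by_cases h0 : 0 < ∑ a ∈ al K Q, rt F.toMd a
  swap
  · simp only [stat_lw hF h0, ex_pure, rev_mark]
    rfl
  set J : Cfg d → S d → Dir d → S d → S d → Prop := fun η x e a b =>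
    a ∈ Z ∧ F.j ≤ η a ∧ (b = a ∨ (a = x ∧ b = nb x e ∧ b ∈ Z)) ∧ F.j ≤ hop η x (nb x e) b with hJ
  have h1 := stat_gen hF h (f := fun _ => 0) (fun _ => Nat.zero_le _) (Q := Q) (A := al K Q)
    (fun x e k => by simp [mem_al_some])
    (D := fun a η => Φ (η, mw (al K Q) η [a], revR F.toMd (al K Q) Z η [a]) -
      Φ (mw (al K Q) η [a], η, flip (revR F.toMd (al K Q) Z η [a])))
    (Ψ := fun x e η => Φ (η, hop η x (nb x e), J η x e) - Φ (hop η x (nb x e), η, flip (J η x e)))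
    (fun x e => (hΦ.comp _).sub (hΦ.comp _)) (fun x η => ?_) (fun x e k η ha => ?_) fun x e β => ?_
  · rw [← sub_eq_zero, ← ex_sub _ (Bdd.ex (f := fun η a => Φ (η, mw (al K Q) η [a],
      revR F.toMd (al K Q) Z η [a])) (hΦ.comp _) fun _ => _) (Bdd.ex (f := fun η a =>
      Φ (mw (al K Q) η [a], η, flip (revR F.toMd (al K Q) Z η [a]))) (hΦ.comp _) fun _ => _)]
    simp only [ex_lw hF h0, ← sub_div, ← Finset.sum_sub_distrib, ← mul_sub]
    simp only [div_eq_mul_inv, ex_mul_right]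
    exact mul_eq_zero_of_left h1 _
  · simp only [rev_mark]
    exact sub_self _
  · split_ifs with h2
    · have h3 : revR F.toMd (al K Q) Z η [(x, some (e, k))] = J η x e :=
        funext fun a => funext fun b => propext (rev_jump ha h2 a b)
      simp only [h3, mw, List.foldl_cons, List.foldl_nil, mv, ha, h2, and_self, if_true]
    · have h3 : revR F.toMd (al K Q) Z η [(x, some (e, k))] = revR F.toMd (al K Q) Z η [] := by
        funext a b
        have h4 : (ini F.toMd Z {a} η).1 = η := rfl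
        simp only [revR, acw, List.foldl_cons, List.foldl_nil, ac, h4, h2, and_false, if_false]
      rw [h3, rev_diag fun a b h => ((rev_nil η a b).1 h).1]
      simp only [mw, List.foldl_cons, List.foldl_nil, mv, h2, and_false, if_false, sub_self]
  · have h2 : flip (J (Function.update β (nb x e) (β (nb x e) + 1)) (nb x e) (e.1, !e.2)) =
        J (Function.update β x (β x + 1)) x e := by
      funext a b
      simp only [hJ, flip, stat_hop, nb_nb]
      refine propext ⟨?_, ?_⟩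
      · rintro ⟨h2, h3, h4 | h4, h5⟩
        · exact ⟨h4 ▸ h2, h5, Or.inl h4.symm, h3⟩
        · exact ⟨h4.2.2, h5, Or.inr ⟨h4.2.1, h4.1, h2⟩, h3⟩
      · rintro ⟨h2, h3, h4 | h4, h5⟩
        · exact ⟨h4 ▸ h2, h5, Or.inl h4.symm, h3⟩
        · exact ⟨h4.2.2, h5, Or.inr ⟨h4.2.1, h4.1, h2⟩, h3⟩
    simp only [stat_hop, nb_nb, ← h2]
    exact sub_add_sub_cancel' _ _ _ |>.trans (sub_self _)

end

theorem s_rev {d : ℕ} {F : Fr} (hd : 2 ≤ d) (hF : F.Ok)
    (hSTAT : S_STAT d F) :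
    S_REV d F := by
  intro K φ Q Z Y0 B t f h _ hf
  have _ := hd
  have _ := hSTAT
  have h1 : revP F.toMd (mu F.toMd K φ Q) (al K Q) Z (wl F.toMd (al K Q)) id :=
    rev_mix _ fun N => by
      have h1 := rev_iid (rev_one (Q := Q) (Z := Z) hF h) N
      simp only [List.flatMap_singleton'] at h1
      exact h1
  have h2 := rev_iid h1 t (fun s => ind (∀ b ∈ B, ∃ a ∈ Y0, s.2.2 a b) * f s.2.1)
    ((Bdd.ind _).mul (hf.comp _))
  simp only [List.flatMap_id] at h2
  refine Eq.trans ?_ (h2.trans ?_)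
  · refine congrArg (ex _) (funext fun η => congrArg (ex _) (funext fun ws => ?_))
    rw [acs_flatten, ms_flatten]
    congr 2
    refine propext (forall₂_congr fun b _ => ?_)
    rw [rev_anc (reg_ini Z Y0 η)]
    refine exists_congr fun a => ⟨fun h3 => ⟨?_, h3.2⟩, fun h3 => ⟨?_, h3.2⟩⟩
    · exact (Finset.mem_inter.1 (Finset.mem_filter.1 h3.1).1).1
    · obtain ⟨a', h4, -⟩ := (rev_anc (reg_ini Z {a} η) _ b).1 h3.2
      obtain ⟨h5, h6⟩ := (rev_nil (A := al K Q) η a a').1 h4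
      exact Finset.mem_filter.2 ⟨Finset.mem_inter.2 ⟨h3.1, h6.1⟩, h6.2⟩
  · refine congrArg (ex _) (funext fun η => ?_)
    rw [ex_mul_right, mul_comm]
    simp only [acs_flatten]
    rfl

end Pool.Agent.Lib.MP_dd0771_pr.Sc
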