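import Pool.Agent.Lib.MP_dd0771_pr.Sc.SlpA

open Filter

namespace Pool.Agent.Lib.MP_dd0771_pr.Sc

variable {d : ℕ}

/-- Rule: far candidates, and all candidates from block `k0` on. -/
def slpO (y : S d) (r k0 : ℕ) : Rule d := fun k Cd =>
  (Cd.filter fun z => k0 ≤ k ∨ r ≤ nrm (z - y)).image fun z => {z}

theorem slpO_mem {y : S d} {r k0 k : ℕ} {Cd Yt : Finset (S d)} :
    Yt ∈ slpO y r k0 k Cd ↔ ∃ z ∈ Cd, (k0 ≤ k ∨ r ≤ nrm (z - y)) ∧ {z} = Yt := by
  simp only [slpO, Finset.mem_image, Finset.mem_filter, and_assoc]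

theorem slpO_ok (y : S d) (r k0 D : ℕ) : RuleOk D (slpO y r k0) := fun k Cd Yt h => by
  obtain ⟨z, hz, -, rfl⟩ := slpO_mem.1 h
  simp [hz]

theorem slpO_image {y : S d} {r k0 : ℕ} {ψ : S d ≃ S d} (h : ∀ z, nrm (ψ z - y) = nrm (z - y))
    (k : ℕ) (Cd : Finset (S d)) :
    slpO y r k0 k (Cd.image ψ) = (slpO y r k0 k Cd).image fun Yt => Yt.image ψ := by
  simp only [slpO, Finset.filter_image, Finset.image_image, h]
  exact Finset.image_congr fun z _ => by simp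

/-- Alive at the end, or far at some time: the chain event of the plain rule. -/
theorem slp_det {F : Fr} {B : Bs} {n L r k0 : ℕ} {y : S d} {I : Tj d} (hr : RegT (bx y L) {y} I)
    (h1 : 1 ≤ sb F B n (ls n)) (h2 : 64 * (VV n * RR F B n) < L) (h3 : 4 * r ≤ 3 * L)
    (hc : Chn (VV n) (B.n0 + (k0 + (mm F n + 2)) * sb F B n (ls n)) I)
    (h : (I (B.n0 + (k0 + (mm F n + 2)) * sb F B n (ls n))).Nonempty ∨
      ∃ u, B.n0 ≤ u ∧ u ≤ B.n0 + (k0 + (mm F n + 2)) * sb F B n (ls n) ∧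
        ∃ x ∈ I u, 7 * L ≤ 8 * nrm (x - y)) :
    (∃ x ∈ I B.n0, x ∈ bx y L) ∧ CE F B n (bx y L) (slpO y r k0) (k0 + (mm F n + 2))
      (fun _ => True) fun u => I (B.n0 + u) := by
  have hs : s1 F n + B.n0 ≤ sb F B n (ls n) := by
    unfold sb sq
    omega
  have hR : RR F B n = (mm F n + 2) * sb F B n (ls n) := rfl
  have hu : ∀ k j, k < j → k * sb F B n (ls n) + s1 F n ≤ j * sb F B n (ls n) := fun k j hk => by
    have := Nat.mul_le_mul_right (sb F B n (ls n)) (Nat.succ_le_of_lt hk)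
    rw [Nat.succ_mul] at this
    omega
  rcases h with ⟨x, hx⟩ | ⟨u, u1, u2, x, hx, hf⟩
  · obtain ⟨γ, -, g2, g3⟩ := hc.chain le_rfl hx
    refine ⟨⟨_, g2 _ (by omega), hr.2.1 _ (g2 B.n0 (by omega))⟩,
      slp_ce (k1 := k0) γ γ g2 g2 g3 g3 (by omega)
        (Nat.add_le_add_left (Nat.mul_le_mul_right _ (by omega)) _) (fun _ _ _ _ _ _ => trivial)
        fun k a1 a2 => ?_⟩
    have hz := hr.2.1 _ (g2 (B.n0 + (k * sb F B n (ls n) + s1 F n))
      (Nat.add_le_add_left (hu k _ (by omega)) _))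
    exact ⟨hz, hz, fun Cd _ h _ => ⟨_, slpO_mem.2 ⟨_, h, Or.inl a1, rfl⟩⟩⟩
  · obtain ⟨γ, g1, g2, g3⟩ := hc.chain u2 hx
    have h0 : γ 0 = y := Finset.mem_singleton.1 (hr.1 (g2 0 (Nat.zero_le _)))
    have h4 : nrm (x - y) ≤ VV n * u := by simpa [h0, g1] using g3 0 u
    have h5 : RR F B n ≤ u := by
      by_contra hh
      have := Nat.mul_le_mul_left (VV n) (not_le.1 hh).le
      omega
    obtain ⟨a, rfl⟩ := Nat.exists_eq_add_of_le u1
    have h6 : mm F n ≤ a / sb F B n (ls n) := by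
      rw [Nat.le_div_iff_mul_le h1]
      rw [hR, add_mul] at h5
      omega
    obtain ⟨k1, h7⟩ := Nat.exists_eq_add_of_le' h6
    have h8 := Nat.div_mul_le_self a (sb F B n (ls n))
    have h9 := Nat.lt_div_mul_add (a := a) h1
    refine ⟨⟨_, g2 _ u1, hr.2.1 _ (g2 B.n0 u1)⟩,
      slp_ce (k1 := k1) γ γ g2 g2 g3 g3 (by
        rw [← h7]; exact Nat.div_le_of_le_mul (by rw [mul_comm]; omega))
        (by rw [← h7]; omega) (fun _ _ _ _ _ _ => trivial) fun k a1 a2 => ?_⟩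
    have b1 := hu k _ a2
    rw [h7] at h8 h9
    have hz := hr.2.1 _ (g2 (B.n0 + (k * sb F B n (ls n) + s1 F n)) (by omega))
    refine ⟨hz, hz, fun Cd _ h _ => ⟨_, slpO_mem.2 ⟨_, h, Or.inr ?_, rfl⟩⟩⟩
    have b2 := g3 (B.n0 + (k * sb F B n (ls n) + s1 F n)) (B.n0 + a)
    have b3 := Nat.mul_le_mul_right (sb F B n (ls n)) a1
    have b4 : max (B.n0 + (k * sb F B n (ls n) + s1 F n)) (B.n0 + a) -
        min (B.n0 + (k * sb F B n (ls n) + s1 F n)) (B.n0 + a) ≤ RR F B n := by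
      rw [hR, add_mul]
      rw [add_mul] at h9
      omega
    have b5 := Nat.mul_le_mul_left (VV n) b4
    have b6 := nrm_tri x (γ (B.n0 + (k * sb F B n (ls n) + s1 F n))) y
    rw [g1] at b2
    omega

theorem s_slp {d : ℕ} {F : Fr} (hd : 2 ≤ d) (hF : F.Ok) (hL : Low d F)
    (hAL : S_AL d F) (hGEN : S_GEN d F) (hLIVW : S_LIVW d F) (hAT : S_AT d F) :
    S_SLP d F := by
  intro B hB
  have hθ : 0 < B.th := hB.2.2.2.1
  have hε : 0 < B.eps := hB.2.2.2.2.2.1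
  filter_upwards [hAL B hB, slp_gen (α := S d × ℕ) hGEN B hB, hLIVW B hB, hAT B hB, scales hF B,
    le_of_Lmin hF B, ls_le, er_small (e := B.eps * B.th / 2) (by positivity)] with n h1 h2 h3 h4
    h5 h6 h7 h8 K hK pc C r T hC c1 c2 c3 c4 y
  obtain ⟨s1', -, -, -, s2', s3, -, s4⟩ := h5
  obtain ⟨-, l1, l2, l3⟩ := h6 _ hC.2.2.2.1
  have s5 := s4 _ h7.2
  have hn : 1 ≤ VV n := Nat.one_le_pow _ _ (hB.2.2.2.2.2.2.2.trans s1')
  have hV : RR F B n ≤ VV n * RR F B n := Nat.le_mul_of_pos_left _ hn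
  have hn0 : B.n0 ≤ RR F B n := le_trans (Nat.le_add_left _ _) s3
  have hL2 := hC.2.2.2.2
  have hp : 2 ^ (n + 1) = 2 * 2 ^ n := by ring
  obtain ⟨k0, hk0⟩ : ∃ k0, k0 = T / sb F B n (ls n) := ⟨_, rfl⟩
  obtain ⟨m, hm⟩ : ∃ m, m = k0 + (mm F n + 2) := ⟨_, rfl⟩
  have m1 : m * sb F B n (ls n) = k0 * sb F B n (ls n) + RR F B n := by rw [hm, add_mul]; rfl
  have m2 : k0 * sb F B n (ls n) ≤ T := hk0 ▸ Nat.div_mul_le_self _ _
  have m3 : T < k0 * sb F B n (ls n) + sb F B n (ls n) := hk0 ▸ Nat.lt_div_mul_add s2'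
  have m4 : sb F B n (ls n) ≤ RR F B n := Nat.le_mul_of_pos_left _ (by omega)
  have m5 : m ≤ m * sb F B n (ls n) := Nat.le_mul_of_pos_right _ s2'
  have hO := slpO_ok y r k0 (DD F n)
  have hopt : ∀ p, slpOpt (wZ {y} C.2) (slpO y r k0) m p → ∃ k z, k < m ∧ nrm (z - y) ≤ C.2 ∧
      p = (k, {z}) := fun p ⟨a1, Cd, a2, a3⟩ => by
    obtain ⟨z, hz, -, e⟩ := slpO_mem.1 a3
    exact ⟨p.1, z, a1, mem_bx.1 (wZ_single y C.2 ▸ a2 hz), by rw [e]⟩
  have hτ : ∀ k, k < m → 1 ≤ (k + 1) * sb F B n (ls n) ∧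
      (k + 1) * sb F B n (ls n) ≤ T + RR F B n := fun k hk =>
    ⟨Nat.mul_pos k.succ_pos s2', (Nat.mul_le_mul_right _ hk).trans (by omega)⟩
  let φ : ℕ × Finset (S d) → S d × ℕ := fun p =>
    (∑ z ∈ p.2, z - y, (p.1 + 1) * sb F B n (ls n))
  have hφ : ∀ k z, φ (k, {z}) = (z - y, (k + 1) * sb F B n (ls n)) := fun k z => by simp [φ]
  have hW : ∀ p, slpOpt (wZ {y} C.2) (slpO y r k0) m p →
      φ p ∈ bx (0 : S d) C.2 ×ˢ Finset.Icc 1 (T + RR F B n) := fun p hp => by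
    obtain ⟨k, z, a1, a2, rfl⟩ := hopt p hp
    rw [hφ]
    exact Finset.mem_product.2 ⟨mem_bx.2 (by rwa [sub_zero]), Finset.mem_Icc.2 (hτ k a1)⟩
  have hθp := thp_pos hB
  have hθ' : B.th ≤ B.thp := le_mul_of_one_le_right hθ.le (by linarith)
  have hliv := fun P => h3 K hK pc C {y} (slpO y r k0) m P hC (by simp) hO (by omega)
  simp only [wQ_single, wZ_single, Finset.mem_singleton, forall_eq] at hliv
  have hE : ∀ P : S d × ℕ → Prop, (slpLaw F B K n pc C {y} (slpO y r k0) m _ φ).E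
      (fun q => ind (P q)) = wEv F.toMd K B.n0 C {y} (fun σ => rv F B K n (ls n) pc
        (wMc K C {y} (slpO y r k0)) m σ fun p => ind (P (φ p))) / B.thp := fun P => by
    rw [slpLaw_E hW, slpE, Finset.card_singleton, pow_one]
  have h1' : (fun _ : S d × ℕ => (1 : ℝ)) = fun _ => ind True := by rw [ind_pos trivial]
  refine ⟨slpLaw F B K n pc C {y} (slpO y r k0) m
    (bx (0 : S d) C.2 ×ˢ Finset.Icc 1 (T + RR F B n)) φ, ⟨slpLaw_nonneg hB, ?_, ?_⟩,
    fun p hp => ?_, fun i => ?_, ?_, ?_⟩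
  · rw [h1', hE fun _ => True, le_div_iff₀ hθp]
    have a1 := h4 K hK C y (m * sb F B n (ls n)) c1 (hC.2.1.trans (hC.2.2.1.trans (by
      have := hB.2.2.1
      have := hB.2.1
      simp only [Bs.p]
      push_cast
      linarith))) hC.2.2.2.1 hL2 (by omega)
    have a2 := (hliv fun _ => True).1
    have a3 := a1.trans (wP_mono (E' := fun I => (∃ x ∈ I B.n0, x ∈ bx y C.2) ∧
      CE F B n (bx y C.2) (slpO y r k0) m (fun _ => True) fun u => I (B.n0 + u))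
      fun I hr hI => by
        rw [hm] at hI ⊢
        exact slp_det hr s2' (by omega) c2 hI.1 hI.2)
    have a4 := (le_div_iff₀ hθp).1 (thm_div_thp hB)
    nlinarith [h8.1, h8.2.1, mul_le_mul_of_nonneg_left hθ' hε.le]
  · rw [h1', hE fun _ => True, div_le_one hθp]
    refine (hliv fun _ => True).2.trans ((wP_mono (E' := fun I => (I B.n0).Nonempty)
      fun I _ hI => ⟨_, hI.1.choose_spec.1⟩).trans ?_)
    rw [← cP, slp_alv hL.hSYM y (Nat.le_add_right _ _)]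
    exact (h1 K hK C hC.1 (hC.2.1.trans hC.2.2.1) (by omega)
      (hL2.trans (Nat.pow_le_pow_right two_pos (by omega)))).1
  · obtain ⟨a1, a2⟩ := Finset.mem_product.1 hp
    exact ⟨by simpa using mem_bx.1 a1, Finset.mem_Icc.1 a2⟩
  · obtain ⟨ψ, dm, e1, e2, e3⟩ := exists_iso_sp y y 1 fun _ => false
    have e4 : ∀ z, ψ z - y = -(z - y) := fun z => by
      rw [e1, add_sub_cancel_left]
      funext j
      simp [sp]
    have := slp_iso (B := B) (K := K) (pc := pc) hL.hISORUN (e2 _) (fun y' hy => by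
      rw [Finset.mem_singleton.1 hy, ← sub_eq_zero, e4, sub_self, neg_zero]) (fun z r _ => e3 z r)
      (by omega) hO (fun k Cd _ => slpO_image (fun z => by rw [e4, nrm_neg]) k Cd) hW
      (f := fun p => (p.1 i : ℝ)) (g := fun p => -1 * (p.1 i : ℝ)) fun p hp => by
        obtain ⟨k, z, -, -, rfl⟩ := hopt p hp
        simp only [Finset.image_singleton, hφ, e4]
        simp
    rw [Law.E_mul] at this
    linarith
  · rw [hE fun q => 2 * q.2 < T, div_le_iff₀ hθp]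
    refine (hliv fun p => 2 * (φ p).2 < T).2.trans ?_
    rcases Nat.eq_zero_or_pos T with rfl | hT
    · refine (wP_le_add (E1 := fun _ => False) (E2 := fun _ => False) fun I _ hI => ?_).trans ?_
      · obtain ⟨-, k, -, Cd, -, Yt, -, h⟩ := hI
        omega
      · simp only [wP, ind_neg not_false, wX_const]
        linarith
    refine (wP_mono (E' := fun I => ∃ u, B.n0 ≤ u ∧ u ≤ B.n0 + (T - 1) / 2 ∧ ∃ x ∈ I u,
      r ≤ nrm (x - y)) fun I _ hI => ?_).trans ?_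
    · obtain ⟨-, k, -, Cd, a1, Yt, a2, a3⟩ := hI
      obtain ⟨z, hz, a4, -⟩ := slpO_mem.1 a2
      have a5 : s1 F n ≤ sb F B n (ls n) := Nat.le_add_right _ _
      simp only [φ, Nat.succ_mul] at a3
      refine ⟨_, Nat.le_add_right _ _, by omega, z, a1 hz, a4.resolve_left fun a6 => ?_⟩
      have := Nat.mul_le_mul_right (sb F B n (ls n)) a6
      omega
    · rw [← cP, slp_reach hL.hSYM y (by omega)]
      linarith [c4 ((T - 1) / 2) (by omega)]
  · intro M Φ te t ub vb ty v a1 a2 a3 a4 a5 a6 a7 a8 a9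
    refine h2 K hK pc M Φ te ub vb C {y} _ m t _ φ ty id v hC a1 a2 a3 (by omega) (by omega) a5 hO
      a6 a7 hW a8 fun p hp hv => ?_
    have a10 := a9 _ (hW p hp) hv
    obtain ⟨k, z, -, -, rfl⟩ := hopt p hp
    rw [hφ] at a10 ⊢
    simp only [add_sub_cancel] at a10
    exact ⟨subset_rfl, apart_single _ _, a10.1, (wZ_single _ _).subset.trans a10.2.1, a10.2.2⟩

end Pool.Agent.Lib.MP_dd0771_pr.Sc
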