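import Pool.Agent.Lib.MP_dd0771_pr.Sc.SlsA

open Filter

namespace Pool.Agent.Lib.MP_dd0771_pr.Sc

theorem sls_prob {d : ℕ} {F : Fr} (hd : 1 ≤ d) (hF : F.Ok) (hS : S_SYM d F) {K L Ds n0 T V R : ℕ}
    {φ e b : ℝ} (h1 : 8 * Ds ≤ L) (h2 : 64 * (V * R) ≤ L) (h3 : n0 ≤ R) (h4 : 1 ≤ R) (h5 : 1 ≤ L)
    (c : wP F.toMd K φ (bx (0 : S d) (2 * L)) (bx 0 L) {0} (n0 + T)
      (fun I => ¬ Chn V (n0 + T) I) ≤ e)
    (h : b ≤ wP F.toMd K φ (bx (0 : S d) (2 * L)) (bx 0 (L / 4)) {0} (n0 + T)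
      fun I => ∃ u, n0 ≤ u ∧ u ≤ n0 + T ∧ Spread (2 * Ds) (I u)) (y : S d) (i : Fin d) :
    b - e ≤ d * wP F.toMd K φ (bx y (2 * L)) (bx y L) {y} (n0 + T) (slsG y i L Ds n0 T) := by
  have a1 := wP_two (K := K) (T := n0 + T) (φ := φ) (Q := bx (0 : S d) (2 * L)) (Y0 := {0}) hF
    (bx_mono 0 (Nat.div_le_self L 4))
    (E1 := fun I => ∃ u, n0 ≤ u ∧ u ≤ n0 + T ∧ Spread (2 * Ds) (I u)) (E2 := Chn V (n0 + T))
    (E := fun _ => True) (E' := fun I => ∃ i, slsG 0 i L Ds n0 T I) (fun _ _ _ _ _ _ => trivial)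
    fun J I rJ rI hJ p q => sls_two hd rJ rI hJ q h1 h2 h3 h4 h5 p
  have a2 := wP_le_add (G := F.toMd) (K := K) (T := n0 + T) (φ := φ) (Q := bx (0 : S d) (2 * L))
    (Z := bx 0 L) (Y0 := {0}) (E := fun _ => True) (E1 := Chn V (n0 + T))
    (E2 := fun I => ¬ Chn V (n0 + T) I) fun _ _ _ => em _
  have a3 := wP_union_le (G := F.toMd) (K := K) (T := n0 + T) (φ := φ)
    (Q := bx (0 : S d) (2 * L)) (Z := bx 0 L) (Y0 := {0}) Finset.univ
    (E := fun I => ∃ i, slsG 0 i L Ds n0 T I) (fun i => slsG 0 i L Ds n0 T)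
    fun _ _ ⟨i, p⟩ => ⟨i, Finset.mem_univ _, p⟩
  have a4 (j) : wP F.toMd K φ (bx (0 : S d) (2 * L)) (bx 0 L) {0} (n0 + T) (slsG 0 j L Ds n0 T) ≤
      wP F.toMd K φ (bx y (2 * L)) (bx y L) {y} (n0 + T) (slsG y i L Ds n0 T) := by
    refine le_of_le_of_eq (wP_mono ?_) (hS K φ 0 y (Equiv.swap i j) (fun _ => true) (2 * L) L
      (n0 + T) (fun I => ind (slsG y i L Ds n0 T I)) (by omega)).symm
    rintro I - ⟨u, u1, u2, ⟨x, hx, x', hx', p⟩, q⟩
    refine ⟨u, u1, u2, ⟨_, Finset.mem_image_of_mem _ hx, _, Finset.mem_image_of_mem _ hx', ?_⟩,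
      fun t ht z hz => ?_⟩
    · simpa [sp] using p
    · obtain ⟨w, hw, rfl⟩ := Finset.mem_image.1 hz
      rw [add_sub_cancel_left, nrm_sp]
      exact q t ht w hw
  have a5 := Finset.sum_le_card_nsmul Finset.univ _ _ fun j _ => a4 j
  rw [Finset.card_univ, Fintype.card_fin, nsmul_eq_mul] at a5
  linarith

theorem s_sls {d : ℕ} {F : Fr} (hd : 2 ≤ d) (hF : F.Ok) (hL : Low d F)
    (hAL : S_AL d F) (hGEN : S_GEN d F) (hLIVW : S_LIVW d F) (hAT : S_AT d F) :
    S_SLS d F := by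
  intro B hB
  have thp := thp_pos hB
  have thd := thm_div_thp hB
  obtain ⟨b1, b2, b3, b4, b5, b6, b7, b8⟩ := id hB
  have d0 : (2 : ℝ) ≤ d := by exact_mod_cast hd
  filter_upwards [hAL B hB, slp_gen (α := S d × ℕ) hGEN B hB, hLIVW B hB, hAT B hB, hL.hCHN,
    scales hF B, le_of_Lmin hF B, eventually_ge_atTop 1,
    er_small (show 0 < B.eps * B.th / (4 * (1 + 2 * d)) by positivity)]
    with n eAL eGEN eLIV eAT eCHN eS eL n1 eE K hK pc C Ds T b hC hp h4 h8 hT hb hP y i sg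
  obtain ⟨c1, c2, c3, c4, c5⟩ := id hC
  obtain ⟨-, -, -, s1', s2', s3', -, -⟩ := eS
  obtain ⟨-, l1, l2, l3⟩ := eL C.2 c4
  have hi : C.1 ≤ B.pa + 5 * B.g := by
    have : B.p 4 = B.pa + 4 * B.g := by simp [Bs.p]
    linarith
  have kp := hK.kp hF hB c1 hi
  have hR : RR F B n = (mm F n + 2) * sb F B n (ls n) := rfl
  have n0R : B.n0 ≤ RR F B n := le_trans (Nat.le_add_left _ _) s3'
  have v1 : 1 ≤ VV n := Nat.one_le_pow _ _ n1
  have r2 : mm F n * sb F B n (ls n) + 2 ≤ RR F B n := by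
    rw [hR, add_mul]
    omega
  have w1 : RR F B n ≤ VV n * RR F B n := Nat.le_mul_of_pos_left _ v1
  have w2 : 2 * (VV n * RR F B n) ≤ Ds := by
    have : ((VV n * RR F B n) ^ 2) ^ 4 ≤ Ds ^ 4 := by
      rw [← pow_mul]
      exact c4.trans h4
    have := (Nat.pow_le_pow_iff_left (by norm_num)).1 this
    rw [pow_two] at this
    exact (Nat.mul_le_mul_right _ (by omega)).trans this
  have late {u a} (p : a ≤ VV n * u) (q : 2 * (VV n * RR F B n) ≤ a) :
      B.n0 + mm F n * sb F B n (ls n) ≤ u := by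
    have : 2 * RR F B n ≤ u := Nat.le_of_mul_le_mul_left (c := VV n)
      (by rw [Nat.mul_left_comm]; omega) v1
    omega
  obtain ⟨k0, m, hm, m1, m2, m3⟩ : ∃ k0 m, m = k0 + mm F n ∧ m * sb F B n (ls n) ≤ T + RR F B n ∧
      T ≤ m * sb F B n (ls n) ∧ ∀ k, (k + 1) * sb F B n (ls n) ≤ T → k < k0 := by
    refine ⟨T / sb F B n (ls n) + 2, _, rfl, ?_, ?_, fun k hk => ?_⟩
    · have := Nat.div_mul_le_self T (sb F B n (ls n))
      simp only [hR, add_mul]
      omega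
    · have := Nat.lt_div_mul_add (a := T) s2'
      simp only [add_mul]
      omega
    · have := (Nat.le_div_iff_mul_le s2').2 hk
      omega
  have p2 : B.n0 + m * sb F B n (ls n) ≤ 2 ^ (n + 1) := by
    rw [pow_succ]
    omega
  have p4 : 2 ^ (n + 1) ≤ 2 ^ (4 * n) := Nat.pow_le_pow_right (by norm_num) (by omega)
  have ok : RuleOk (DD F n) (slsO y i C.2 Ds k0) := sls_ok (by omega)
  obtain ⟨σ, hσ, eσ⟩ : ∃ σ : ℤ, (σ = 1 ∨ σ = -1) ∧ (if sg then (1 : ℝ) else -1) = σ := by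
    cases sg
    exacts [⟨-1, .inr rfl, by simp⟩, ⟨1, .inl rfl, by simp⟩]
  have hσ' : -σ = 1 ∨ -σ = -1 := by omega
  have D0 : 0 < Ds := by omega
  have sel {τ : ℤ} (h : τ = 1 ∨ τ = -1) {p : ℕ × Finset (S d)}
      (o : slpOpt (wZ {y} C.2) (slsO y i C.2 Ds k0) m p) : slsS τ i p.2 - y ∈ bx 0 C.2 := by
    obtain ⟨-, Cd, a, e⟩ := o
    have := a (sls_mem h D0 e).2
    rw [wZ_single, mem_bx] at this
    rwa [mem_bx, sub_zero]
  have hW (p : ℕ × Finset (S d)) (o : slpOpt (wZ {y} C.2) (slsO y i C.2 Ds k0) m p) :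
      (slsS σ i p.2 - y, (p.1 + 1) * sb F B n (ls n)) ∈
        bx (0 : S d) C.2 ×ˢ Finset.Icc 1 (T + RR F B n) :=
    Finset.mem_product.2 ⟨sel hσ o, Finset.mem_Icc.2 ⟨Nat.mul_pos (Nat.succ_pos _) s2',
      (Nat.mul_le_mul_right _ o.1).trans m1⟩⟩
  have liv (P) := eLIV K hK pc C {y} _ m P hC (by simp) ok
    ((Nat.le_mul_of_pos_right m s2').trans (by omega))
  have lv (P : ℕ × Finset (S d) → Prop) (E : Tj d → Prop)
      (h : ∀ I, RegT (bx y C.2) {y} I → E I → (I B.n0).Nonempty ∧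
        CE F B n (bx y C.2) (slsO y i C.2 Ds k0) m P fun u => I (B.n0 + u)) :
      (cP F.toMd K C y (B.n0 + m * sb F B n (ls n)) E - er n) / B.thp ≤
        slpE F B K n pc C {y} (slsO y i C.2 Ds k0) m fun p => ind (P p) := by
    rw [slpE, Finset.card_singleton, pow_one]
    refine div_le_div_of_nonneg_right (le_trans (sub_le_sub_right ?_ _) (liv P).1) thp.le
    rw [wQ_single, wZ_single]
    refine wP_mono fun I r e => ⟨fun y' hy => ?_, (h I r e).2⟩
    obtain ⟨x, hx⟩ := (h I r e).1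
    exact ⟨x, hx, Finset.mem_singleton.1 hy ▸ r.2.1 _ hx⟩
  have ee := eE.1
  have e2' := eE.2.1
  rw [le_div_iff₀ (by positivity)] at ee e2'
  have er0 := (er_le_e2 n).1
  have er1 := (er_le_e2 n).2.1
  have iso (j) := sls_refl y j
  have one : (slpLaw F B K n pc C {y} (slsO y i C.2 Ds k0) m
      (bx (0 : S d) C.2 ×ˢ Finset.Icc 1 (T + RR F B n)) fun p =>
      (slsS σ i p.2 - y, (p.1 + 1) * sb F B n (ls n))).E (fun _ => 1) =
      slpE F B K n pc C {y} (slsO y i C.2 Ds k0) m fun _ => ind True := by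
    rw [slpLaw_E hW, ind_pos trivial]
  refine ⟨slpLaw F B K n pc C {y} (slsO y i C.2 Ds k0) m
    (bx (0 : S d) C.2 ×ˢ Finset.Icc 1 (T + RR F B n)) fun p =>
      (slsS σ i p.2 - y, (p.1 + 1) * sb F B n (ls n)), ⟨slpLaw_nonneg hB, ?_, ?_⟩,
    fun p hp => ?_, fun j hj => ?_, ?_, ?_⟩
  · rw [one]
    refine le_trans ?_ (lv (fun _ => True) _ fun I r (e : Chn (VV n) (B.n0 + m * sb F B n (ls n)) I ∧
      ((I (B.n0 + m * sb F B n (ls n))).Nonempty ∨ ∃ u, B.n0 ≤ u ∧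
        u ≤ B.n0 + m * sb F B n (ls n) ∧ ∃ x ∈ I u, 7 * C.2 ≤ 8 * nrm (x - y))) => ?_)
    · have a := eAT K hK C y (m * sb F B n (ls n)) hp (hi.trans b3) c4 c5 (by omega)
      rw [le_div_iff₀ thp] at thd ⊢
      have : B.eps * B.th ≤ B.eps * B.thp :=
        mul_le_mul_of_nonneg_left (le_mul_of_one_le_right b4.le (by linarith)) b6.le
      nlinarith
    · obtain ⟨c, ⟨x, hx⟩ | ⟨u, u1, u2, x, hx, e⟩⟩ := e
      · refine ⟨sls_alive r (Nat.le_add_right _ _) ⟨x, hx⟩, sls_ce r c le_rfl hx hx s2'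
          (Nat.add_le_add_left (Nat.mul_le_mul_right _ (by omega)) _) le_rfl
          (fun _ _ _ _ _ _ => trivial) fun k z1 z2 f _ _ Cd a1 a2 => sls_ne a1 a2 (.inr (.inl ?_))⟩
        have := Nat.lt_of_mul_lt_mul_right (Nat.lt_of_add_lt_add_left f)
        omega
      · refine ⟨sls_alive r u1 ⟨x, hx⟩, sls_ce r c u2 hx hx s2'
          (late (sls_speed r c u2 hx) (by omega)) u2 (fun _ _ _ _ _ _ => trivial)
          fun k z1 z2 _ f _ Cd a1 a2 => sls_ne a1 a2 (.inr (.inr ?_))⟩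
        have := nrm_tri x z1 y
        omega
  · rw [one, slpE, Finset.card_singleton, pow_one, div_le_one thp]
    refine (liv fun _ => True).2.trans (le_trans ?_ (eAL K hK C c1 (c2.trans c3) (by omega)
      (c5.trans (Nat.pow_le_pow_right (by norm_num) (by omega)))).1)
    rw [← slp_alv hL.hSYM y (Nat.le_add_right B.n0 (m * sb F B n (ls n))), wQ_single, wZ_single]
    exact wP_mono fun I _ e => (e.1 y (Finset.mem_singleton_self y)).imp fun _ a => a.1
  · obtain ⟨a, e⟩ := Finset.mem_product.1 hp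
    rw [mem_bx, sub_zero] at a
    exact ⟨a, Finset.mem_Icc.1 e⟩
  · obtain ⟨ψ, dm, i1, i2, i3, i4, i5, i6⟩ := iso j
    have e (z z' : S d) : ψ z i - ψ z' i = 1 * (z i - z' i) := by
      rw [i6 z i hj.symm, i6 z' i hj.symm, one_mul]
    have := slp_iso (B := B) (K := K) (pc := pc) hL.hISORUN (i1 _)
      (fun _ a => Finset.mem_singleton.1 a ▸ i3) (fun z r _ => i2 z r) (by omega) ok
      (fun k Cd _ => sls_O_image (.inl rfl) e i4 k Cd) hW (f := fun q => (q.1 j : ℝ))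
      (g := fun q => -1 * (q.1 j : ℝ)) fun p ⟨_, _, _, o⟩ => by
        simp only [sls_sel_image hσ (.inl rfl) D0 e o, one_mul, Pi.sub_apply, i5]
        push_cast
        ring
    rw [Law.E_mul] at this
    linarith
  · classical
    obtain ⟨ψ, dm, i1, i2, i3, i4, i5, -⟩ := iso i
    have e (z z' : S d) : ψ z i - ψ z' i = -1 * (z i - z' i) := by
      have := i5 z
      have := i5 z'
      omega
    have hV (p : ℕ × Finset (S d)) (o : slpOpt (wZ {y} C.2) (slsO y i C.2 Ds k0) m p) :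
        (slsS σ i p.2 - y, slsS (-σ) i p.2 - y) ∈ (bx (0 : S d) C.2 ×ˢ bx (0 : S d) C.2).filter
          fun q => q.1 = q.2 ∨ σ * q.1 i + Ds ≤ σ * q.2 i := by
      refine Finset.mem_filter.2 ⟨Finset.mem_product.2 ⟨sel hσ o, sel hσ' o⟩, ?_⟩
      obtain ⟨-, Cd, -, o⟩ := o
      rcases sls_gap hσ D0 o with a | a
      · right
        simp only [Pi.sub_apply, mul_sub]
        omega
      · exact .inl (by rw [a.1])
    have t1 := slp_iso (B := B) (K := K) (pc := pc) hL.hISORUN (i1 _)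
      (fun _ a => Finset.mem_singleton.1 a ▸ i3) (fun z r _ => i2 z r) (by omega) ok
      (fun k Cd _ => sls_O_image (.inr rfl) e i4 k Cd) hV (f := fun q => (σ : ℝ) * (q.1 i : ℝ))
      (g := fun q => -((σ : ℝ) * (q.2 i : ℝ))) fun p ⟨_, _, _, o⟩ => by
        simp only [sls_sel_image hσ (.inr rfl) D0 e o, neg_mul, one_mul, Pi.sub_apply, i5]
        push_cast
        ring
    have t2 := slpLaw_mono (K := K) (n := n) (pc := pc) (C := C) (Y := {y})
      (O := slsO y i C.2 Ds k0) (m := m)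
      (φ := fun p => (slsS σ i p.2 - y, slsS (-σ) i p.2 - y)) hB
      (W := (bx (0 : S d) C.2 ×ˢ bx (0 : S d) C.2).filter
          fun q => q.1 = q.2 ∨ σ * q.1 i + Ds ≤ σ * q.2 i)
      (f := fun q => (σ : ℝ) * (q.1 i : ℝ) + -((σ : ℝ) * (q.2 i : ℝ)))
      (g := fun q => -(Ds : ℝ) * ind (q.1 ≠ q.2)) fun q hq => by
        by_cases a : q.1 = q.2
        · rw [ind_neg (not_not.2 a), a]
          simp
        · have : ((σ * q.1 i + Ds : ℤ) : ℝ) ≤ (σ * q.2 i : ℤ) :=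
            Int.cast_le.2 ((Finset.mem_filter.1 hq).2.resolve_left a)
          rw [ind_pos a]
          push_cast at this
          linarith
    rw [Law.E_add, ← t1, slpLaw_E hV, slpLaw_E hV, slpE_mul (-(Ds : ℝ))] at t2
    have t3 := lv (fun p => slsS σ i p.2 - y ≠ slsS (-σ) i p.2 - y)
      (fun I => slsG y i C.2 Ds B.n0 T I ∧ Chn (VV n) (B.n0 + m * sb F B n (ls n)) I) (by
        rintro I r ⟨⟨u, u1, u2, ⟨x, hx, x', hx', a⟩, q⟩, c⟩
        have u3 : u ≤ B.n0 + m * sb F B n (ls n) := by omega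
        refine ⟨sls_alive r u1 ⟨x, hx⟩, sls_ce r c u3 hx hx' s2' (late le_rfl ?_) u3
          (fun k hk Cd hC Yt o => ?_) fun k z1 z2 _ f1 f2 Cd a1 a2 => sls_ne a1 a2 (.inl ?_)⟩
        · have g1 := sls_speed r c u3 hx
          have g2 := sls_speed r c u3 hx'
          have g3 := abs_le_nrm (x - x') i
          have g4 := nrm_tri x y x'
          have g5 := nrm_sub_comm y x'
          rw [Pi.sub_apply] at g3
          omega
        · rcases sls_gap hσ D0 o with g | ⟨-, g | ⟨z, g1, g2⟩⟩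
          · intro f
            rw [(sub_left_inj.1 f : slsS σ i Yt = slsS (-σ) i Yt)] at g
            omega
          · exact absurd (m3 k (by omega)) (not_lt.2 g)
          · have : s1 F n ≤ sb F B n (ls n) := Nat.le_add_right _ _
            rw [Nat.succ_mul] at hk
            exact absurd (q _ (by omega) z (hC g1)) (not_lt.2 g2)
        · have g1 := abs_le.1 (abs_le_nrm (x - z1) i)
          have g2 := abs_le.1 (abs_le_nrm (x' - z2) i)
          rw [Pi.sub_apply] at g1 g2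
          rw [le_abs] at a ⊢
          omega)
    have t4 := sls_prob (by omega) hF hL.hSYM h8 (by omega) n0R (by omega) (by omega)
      (eCHN K C.1 _ _ _ _ kp (by simp) (by omega)) hP y i
    rw [← wP_horizon (T' := B.n0 + m * sb F B n (ls n)) (by omega) (by
      rintro I J f ⟨u, u1, u2, a, q⟩
      exact ⟨u, u1, u2, f u u2 ▸ a, fun t ht => f t (ht.trans u2) ▸ q t ht⟩)] at t4
    have t5 := wP_le_add (G := F.toMd) (K := K) (T := B.n0 + m * sb F B n (ls n)) (φ := C.1)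
      (Q := bx y (2 * C.2)) (Z := bx y C.2) (Y0 := {y}) (E := slsG y i C.2 Ds B.n0 T)
      (E1 := fun I => slsG y i C.2 Ds B.n0 T I ∧ Chn (VV n) (B.n0 + m * sb F B n (ls n)) I)
      (E2 := fun I => ¬ Chn (VV n) (B.n0 + m * sb F B n (ls n)) I)
      fun I _ a => (em _).imp (fun c => ⟨a, c⟩) id
    have t6 := eCHN K C.1 (bx y (2 * C.2)) (bx y C.2) {y} _ kp (by simp) (p2.trans p4)
    rw [slpLaw_E hW, eσ]
    unfold cP at t3
    have t7 : b / (2 * d) ≤ slpE F B K n pc C {y} (slsO y i C.2 Ds k0) m fun p =>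
        ind (slsS σ i p.2 - y ≠ slsS (-σ) i p.2 - y) := by
      refine le_trans ?_ t3
      rw [div_le_div_iff₀ (by positivity) thp, Bs.thp]
      have g1 : B.eps * B.th ≤ b * B.th := mul_le_mul_of_nonneg_right hb b4.le
      have g2 : b * B.th * B.eps ≤ b * B.th * (1 / 100) :=
        mul_le_mul_of_nonneg_left b7 (mul_nonneg (b6.le.trans hb) b4.le)
      nlinarith [mul_le_mul_of_nonneg_left (t5.trans (add_le_add_right t6 _))
        (by linarith : (0 : ℝ) ≤ d)]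
    have t8 := mul_le_mul_of_nonneg_left t7 (Nat.cast_nonneg (α := ℝ) Ds)
    have t9 : (Ds : ℝ) * (b / (2 * d)) = 2 * (Ds * b / (4 * d)) := by
      field_simp
      ring
    dsimp only at t2 ⊢
    linarith
  · intro M Φ te t ub vb ty v a1 a2 a3 a4 a5 a6 a7 a8 a9
    refine eGEN K hK pc M Φ te ub vb C {y} _ m t _ _ ty (fun Yt => {slsS σ i Yt}) v hC a1 a2 a3
      (by omega) (by omega) a5 ok a6 a7 hW a8 fun p o hv => ?_
    obtain ⟨g1, g2, g3⟩ := a9 _ (hW p o) hv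
    rw [add_sub_cancel] at g2 g3
    obtain ⟨-, Cd, -, o⟩ := o
    exact ⟨Finset.singleton_subset_iff.2 (sls_mem hσ D0 o).1, apart_single _ _, g1,
      wZ_single _ _ ▸ g2, g3⟩

end Pool.Agent.Lib.MP_dd0771_pr.Sc
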