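import Pool.Agent.Lib.MP_dd0771_pr.Sc.Kit

open Filter

namespace Pool.Agent.Lib.MP_dd0771_pr.Sc

/-- The word is a nearest neighbour path of jumps from `x` to `y`. -/
def slwCh {d : ℕ} (P : S d → ℕ → Prop) : S d → Word d → S d → Prop
  | x, [], y => y = x
  | x, a :: w, y => ∃ e k, a = (x, some (e, k)) ∧ P x k ∧ slwCh P (nb x e) w y

/-- The classes of low letters along a path. -/
def slwCl {d : ℕ} (H : ℕ) : S d → List (Dir d) → List (Finset (Lt d))
  | _, [] => []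
  | x, e :: es => ((Finset.range H).image fun k => (x, some (e, k))) :: slwCl H (nb x e) es

theorem slw_len {d : ℕ} (H : ℕ) (es : List (Dir d)) : ∀ x : S d,
    (slwCl H x es).length = es.length := by
  induction es with
  | nil => intro x; rfl
  | cons e es ih => intro x; simp [slwCl, ih]

theorem slw_rate {d : ℕ} {F : Fr} (hF : F.Ok) (H : ℕ) (es : List (Dir d)) : ∀ x : S d,
    ∀ B ∈ slwCl H x es, ∑ a ∈ B, rt F.toMd a ≤ H * F.Gp / (2 * d) := by
  induction es with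
  | nil => intro x B hB; simp [slwCl] at hB
  | cons e es ih =>
    intro x B hB
    simp only [slwCl, List.mem_cons] at hB
    rcases hB with rfl | hB
    · rw [Finset.sum_image (by intro a _ b _ h; simpa using h)]
      calc ∑ k ∈ Finset.range H, rt F.toMd ((x, some (e, k)) : Lt d)
          ≤ ∑ _k ∈ Finset.range H, F.Gp / (2 * d) := by
            refine Finset.sum_le_sum fun k _ => ?_
            show F.a k / (2 * d) ≤ F.Gp / (2 * d)
            exact div_le_div_of_nonneg_right (hF.2.1 k).2 (by positivity)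
        _ = H * F.Gp / (2 * d) := by
            rw [Finset.sum_const, Finset.card_range, nsmul_eq_mul]; ring
    · exact ih _ B hB

theorem slw_anc {d : ℕ} (G : Md) (Y : Sys d) (P : S d → ℕ → Prop) (y : S d) (w : Word d) :
    ∀ σ : St d, (∀ i z k, k < mw Y.A σ.1 (w.take i) z → P z k) → y ∈ (acw G Y σ w).2 →
      ∃ x ∈ σ.2, ∃ w' : Word d, w'.Sublist w ∧ slwCh P x w' y := by
  induction w with
  | nil => intro σ _ hy; exact ⟨y, hy, [], List.Sublist.refl _, rfl⟩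
  | cons a w ih =>
    intro σ hP hy
    obtain ⟨x, hx, w', hs, hc⟩ := ih (ac G Y σ a) (fun i z k hk => hP (i + 1) z k (by
      rw [ac_fst] at hk; exact hk)) hy
    by_cases hx0 : x ∈ σ.2
    · exact ⟨x, hx0, w', hs.cons _, hc⟩
    obtain ⟨z, o⟩ := a
    cases o with
    | none =>
      exfalso
      simp only [ac] at hx
      split_ifs at hx
      · exact hx0 (Finset.mem_of_mem_erase hx)
      · exact hx0 hx
    | some q =>
      simp only [ac] at hx
      split_ifs at hx with h1 h2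
      · have hx' := (Finset.mem_filter.1 hx).1
        rcases Finset.mem_insert.1 hx' with rfl | hx'
        · exact ⟨z, h2.1, (z, some q) :: w', hs.cons_cons _, q.1, q.2, rfl,
            hP 0 z q.2 h1.2, hc⟩
        · exact absurd hx' hx0
      · exact absurd (Finset.mem_filter.1 hx).1 hx0
      · exact absurd hx hx0

theorem slw_path {d : ℕ} (P : S d → ℕ → Prop) (H : ℕ) (y : S d) (V : ℕ) :
    ∀ (w : Word d) (x : S d), slwCh P x w y → V ≤ nrm (y - x) →
      (∀ z k, nrm (z - x) ≤ V → P z k → k < H) →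
      ∃ es : List (Dir d), es.length = V ∧ ∃ w' : Word d, w'.Sublist w ∧
        List.Forall₂ (fun a B => a ∈ B) w' (slwCl H x es) := by
  induction V with
  | zero => intro w x _ _ _; exact ⟨[], rfl, [], List.nil_sublist _, List.Forall₂.nil⟩
  | succ V ih =>
    intro w x hc hV hP
    cases w with
    | nil =>
      have : y = x := hc
      subst this
      rw [sub_self, nrm_zero] at hV
      omega
    | cons a w =>
      obtain ⟨e, k, rfl, hk, hc⟩ := hc
      have h1 := nrm_nb x e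
      obtain ⟨es, hl, w', hs, hf⟩ := ih w (nb x e) hc
        (by have := nrm_tri y (nb x e) x; omega)
        (fun z k hz => hP z k (by have := nrm_tri z (nb x e) x; omega))
      refine ⟨e :: es, by simp [hl], (x, some (e, k)) :: w', hs.cons_cons _, ?_⟩
      refine List.Forall₂.cons ?_ hf
      exact Finset.mem_image.2 ⟨k, Finset.mem_range.2
        (hP x k (by rw [sub_self, nrm_zero]; omega) hk), rfl⟩

theorem slw_split {d : ℕ} (G : Md) (Y : Sys d) (V H : ℕ) (x : S d) (η : Cfg d) (w : Word d)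
    (h : ¬ Slow G Y V {x} η w) :
    (∃ z ∈ bx x V, ∃ i, H ≤ mw Y.A η (w.take i) z) ∨
      ∃ f ∈ (Finset.univ : Finset (Fin V → Dir d)), ∃ w' : Word d, w'.Sublist w ∧
        List.Forall₂ (fun a B => a ∈ B) w' (slwCl H x (List.ofFn f)) := by
  by_contra hc
  rw [not_or] at hc
  obtain ⟨h1, h2⟩ := hc
  apply h
  intro x0 hx0 i y hy
  rw [Finset.mem_singleton] at hx0
  subst hx0
  by_contra hV
  apply h2
  obtain ⟨x1, hx1, w', hs, hch⟩ := slw_anc G Y (fun z k => ∃ i, k < mw Y.A η (w.take i) z) y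
    (w.take i) (η, {x0}) (fun j z k hk => ⟨min j i, by rw [← List.take_take]; exact hk⟩) hy
  rw [Finset.mem_singleton] at hx1
  subst hx1
  obtain ⟨es, hl, w2, hs2, hf⟩ := slw_path _ H y V w' x1 hch (by omega) (by
    rintro z k hz ⟨j, hj⟩
    by_contra hk
    exact h1 ⟨z, mem_bx.2 hz, j, by omega⟩)
  subst hl
  refine ⟨es.get, Finset.mem_univ _, w2, (hs2.trans hs).trans (List.take_sublist _ _), ?_⟩
  rw [List.ofFn_get]
  exact hf

theorem slw_one {α : Type} (p : PMF α) (E : List α → Prop) :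
    pr (iid p 1) E = pr p fun a => E [a] := by
  unfold pr
  rw [ex_iid_succ p 0 (Bdd.ind E)]
  refine ex_congr fun a _ => ?_
  show ex (PMF.pure []) _ = _
  rw [ex_pure]

theorem slw_num1 {d : ℕ} (hd : 2 ≤ d) {g : ℝ} (hg : 0 ≤ g) {n : ℕ} (hn : 3 * g + 1 ≤ n) :
    ((2 * d : ℕ) : ℝ) ^ (n ^ 3) * ((((n ^ 2 : ℕ) : ℝ) * g / (2 * d)) ^ (n ^ 3) /
      ((n ^ 3).factorial : ℝ)) ≤ Real.exp (-(n : ℝ) ^ 2) := by
  have hd0 : (0 : ℝ) < 2 * d := by
    have : (2 : ℝ) ≤ d := by exact_mod_cast hd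
    linarith
  have he : Real.exp 1 ≤ 3 := (Real.exp_one_lt_d9.le).trans (by norm_num)
  have h1 := Real.pow_div_factorial_le_exp (Real.exp 1 * ((n : ℝ) ^ 2 * g)) (by positivity) (n ^ 3)
  have h2 : ((2 * d : ℕ) : ℝ) ^ (n ^ 3) * ((((n ^ 2 : ℕ) : ℝ) * g / (2 * d)) ^ (n ^ 3) /
      ((n ^ 3).factorial : ℝ)) =
      (Real.exp 1 * ((n : ℝ) ^ 2 * g)) ^ (n ^ 3) / ((n ^ 3).factorial : ℝ) *
        Real.exp (-(n : ℝ) ^ 3) := by
    have h3 : Real.exp 1 ^ (n ^ 3) * Real.exp (-(n : ℝ) ^ 3) = 1 := by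
      rw [← Real.exp_nat_mul, ← Real.exp_add]; push_cast; simp
    have h4 : ((2 * d : ℕ) : ℝ) * (((n ^ 2 : ℕ) : ℝ) * g / (2 * d)) = (n : ℝ) ^ 2 * g := by
      push_cast; field_simp
    rw [← mul_div_assoc, ← mul_pow, h4, mul_pow (Real.exp 1), div_mul_eq_mul_div]
    congr 1
    linear_combination (-((n : ℝ) ^ 2 * g) ^ (n ^ 3)) * h3
  rw [h2]
  calc _ ≤ Real.exp (Real.exp 1 * ((n : ℝ) ^ 2 * g)) * Real.exp (-(n : ℝ) ^ 3) :=
        mul_le_mul_of_nonneg_right h1 (Real.exp_pos _).le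
    _ ≤ Real.exp (-(n : ℝ) ^ 2) := by
        rw [← Real.exp_add]
        refine Real.exp_le_exp.2 ?_
        have h5 : (0 : ℝ) ≤ (n : ℝ) ^ 2 := by positivity
        have h6 : Real.exp 1 * ((n : ℝ) ^ 2 * g) ≤ 3 * ((n : ℝ) ^ 2 * g) :=
          mul_le_mul_of_nonneg_right he (by positivity)
        have h7 := mul_le_mul_of_nonneg_left hn h5
        nlinarith

theorem slw_num2 (d : ℕ) {C : ℝ} (hC : 0 < C) {n : ℕ} (h1 : 2 * C ≤ n) (h2 : 6 * (1 + 4 * d) ≤ n) :
    (((2 * n ^ 3 + 1) ^ d : ℕ) : ℝ) * (C * (1 / 2) ^ (n ^ 2)) + Real.exp (-(n : ℝ) ^ 2) ≤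
      Real.exp (-(n : ℝ) ^ 2 / 2) := by
  have hn : (6 : ℝ) * (1 + 4 * d) ≤ n := by exact_mod_cast h2
  have hd0 : (0 : ℝ) ≤ d := Nat.cast_nonneg d
  have hn6 : (6 : ℝ) ≤ n := by linarith
  have e1 : (n : ℝ) + 1 ≤ Real.exp n := Real.add_one_le_exp _
  have e2 : 2 * (n : ℝ) ^ 3 + 1 ≤ Real.exp (4 * n) := by
    have : Real.exp (4 * n) = Real.exp n ^ 4 := by rw [← Real.exp_nat_mul]; norm_num
    rw [this]
    calc 2 * (n : ℝ) ^ 3 + 1 ≤ ((n : ℝ) + 1) ^ 4 := by nlinarith [sq_nonneg (n : ℝ), pow_pos (by linarith : (0 : ℝ) < n) 3, pow_pos (by linarith : (0 : ℝ) < n) 4]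
      _ ≤ _ := pow_le_pow_left₀ (by linarith) e1 4
  have e3 : (((2 * n ^ 3 + 1) ^ d : ℕ) : ℝ) ≤ Real.exp (d * (4 * n)) := by
    push_cast
    rw [Real.exp_nat_mul]
    exact pow_le_pow_left₀ (by positivity) e2 d
  have e4 : ((1 : ℝ) / 2) ^ (n ^ 2) = Real.exp (-(Real.log 2 * (n : ℝ) ^ 2)) := by
    rw [Real.exp_neg, mul_comm, ← Nat.cast_pow, Real.exp_nat_mul, Real.exp_log (by norm_num),
      one_div, inv_pow]
  have e5 : 2 * C ≤ Real.exp n := by linarith
  have hl : (0.69 : ℝ) ≤ Real.log 2 := (by norm_num : (0.69 : ℝ) ≤ 0.6931471803).trans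
    Real.log_two_gt_d9.le
  have e6 : Real.exp (d * (4 * n)) * Real.exp n * Real.exp (-(Real.log 2 * (n : ℝ) ^ 2)) ≤
      Real.exp (-(n : ℝ) ^ 2 / 2) := by
    rw [← Real.exp_add, ← Real.exp_add]
    refine Real.exp_le_exp.2 ?_
    have a1 := mul_le_mul_of_nonneg_right hl (by positivity : (0 : ℝ) ≤ (n : ℝ) ^ 2)
    have a2 := mul_le_mul_of_nonneg_right hn (by positivity : (0 : ℝ) ≤ (n : ℝ))
    nlinarith
  have e7 : 2 * Real.exp (-(n : ℝ) ^ 2) ≤ Real.exp (-(n : ℝ) ^ 2 / 2) := by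
    have a1 : Real.exp (-(n : ℝ) ^ 2 / 2) = Real.exp ((n : ℝ) ^ 2 / 2) * Real.exp (-(n : ℝ) ^ 2) := by
      rw [← Real.exp_add]; congr 1; ring
    rw [a1]
    refine mul_le_mul_of_nonneg_right ?_ (Real.exp_pos _).le
    have := Real.add_one_le_exp ((n : ℝ) ^ 2 / 2)
    nlinarith
  have e8 : (((2 * n ^ 3 + 1) ^ d : ℕ) : ℝ) * (2 * C) * (1 / 2) ^ (n ^ 2) ≤
      Real.exp (-(n : ℝ) ^ 2 / 2) := by
    refine le_trans ?_ e6
    rw [e4]
    exact mul_le_mul_of_nonneg_right (mul_le_mul e3 e5 (by positivity) (Real.exp_pos _).le)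
      (Real.exp_pos _).le
  nlinarith

theorem s_slow {d : ℕ} {F : Fr} (hd : 2 ≤ d) (hF : F.Ok)
    (hOCC : S_OCC d F) :
    S_SLOW d F := by
  obtain ⟨C, hC, hO⟩ := hOCC
  have hG : 0 ≤ F.Gp := (hF.1.le.trans (hF.2.1 0).1).trans (hF.2.1 0).2
  have hR := tendsto_natCast_atTop_atTop (R := ℝ)
  filter_upwards [hR.eventually_ge_atTop (3 * F.Gp + 1), hR.eventually_ge_atTop (2 * C),
    eventually_ge_atTop (6 * (1 + 4 * d))] with n h1 h2 h3 K φ Q Z x hK
  refine le_trans ?_ (slw_num2 d hC h2 h3)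
  set oc : S d → Cfg d → ℝ := fun z η =>
    pr (wl F.toMd (al K Q)) fun w => ∃ i, n ^ 2 ≤ mw (al K Q) η (w.take i) z with hoc
  have hb : ∀ z, Bdd (oc z) := fun z => Bdd.pr _ _
  have hpt : ∀ η, pr (wl F.toMd (al K Q)) (fun w =>
      ¬ Slow F.toMd ⟨al K Q, Z⟩ (VV n) {x} η w) ≤
      ∑ z ∈ bx x (n ^ 3), oc z η + Real.exp (-(n : ℝ) ^ 2) := by
    intro η
    refine (pr_le_add fun w _ hw => slw_split F.toMd ⟨al K Q, Z⟩ (n ^ 3) (n ^ 2) x η w hw).trans
      (add_le_add (pr_union_le _ _ _) ((pr_union_le _ _ _).trans ?_))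
    refine le_trans ?_ (slw_num1 hd hG h1)
    refine (Finset.sum_le_card_nsmul _ _
      ((((n ^ 2 : ℕ) : ℝ) * F.Gp / (2 * d)) ^ (n ^ 3) / ((n ^ 3).factorial : ℝ))
      fun f _ => ?_).trans (le_of_eq ?_)
    · have := pr_sublist hF (al K Q) (slwCl (n ^ 2) x (List.ofFn f))
        (slw_rate hF (n ^ 2) (List.ofFn f) x)
      rwa [slw_len, List.length_ofFn] at this
    · rw [nsmul_eq_mul, Finset.card_univ, Fintype.card_fun, Fintype.card_prod, Fintype.card_fin,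
        Fintype.card_fin, Fintype.card_bool, mul_comm d 2, Nat.cast_pow]
  have hsum : Bdd fun η => ∑ z ∈ bx x (n ^ 3), oc z η := by
    refine ⟨(bx x (n ^ 3)).card, fun η => ?_⟩
    rw [abs_of_nonneg (Finset.sum_nonneg fun z _ => pr_nonneg _ _)]
    simpa using Finset.sum_le_card_nsmul (bx x (n ^ 3)) (fun z => oc z η) 1
      fun z _ => pr_le_one _ _
  refine (ex_mono (Bdd.pr _ _) (hsum.add (Bdd.const _)) fun η _ => hpt η).trans ?_
  rw [ex_add _ hsum (Bdd.const _), ex_const, ex_sum _ _ fun z _ => hb z]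
  refine add_le_add ?_ le_rfl
  refine (Finset.sum_le_card_nsmul _ _ (C * (1 / 2) ^ (n ^ 2)) fun z _ => ?_).trans
    (le_of_eq (by rw [nsmul_eq_mul, card_bx]))
  have := hO K φ Q z (n ^ 2) 1 hK
  rw [Nat.cast_one, mul_one] at this
  refine le_trans (ex_mono (hb z) (Bdd.pr _ _) fun η _ => ?_) this
  unfold wls
  rw [slw_one]
  exact pr_mono fun w _ ⟨i, hi⟩ => ⟨0, w, i, rfl, hi⟩

end Pool.Agent.Lib.MP_dd0771_pr.Sc
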