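import Pool.Agent.Lib.MP_dd0771_pr.Sc.Kit

open Filter

namespace Pool.Agent.Lib.MP_dd0771_pr.Sc

theorem s_sym {d : ℕ} {F : Fr} (hd : 2 ≤ d) (hF : F.Ok)
    (hISO : S_ISO d F) :
    S_SYM d F := by
  intro K φ y y' e sg a b T f hba
  obtain ⟨ψ, dm, h1, h2, h3⟩ := exists_iso_sp y y' e sg
  have hy : ψ y = y' := by
    rw [h1, sub_self]
    funext i
    simp [sp]
  have h := hISO K φ ψ dm (bx y a) (bx y b) {y} T f (h2 _) (bx_mono y hba)
  rw [h3, h3, Finset.image_singleton, hy] at h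
  rw [h]
  have e : (fun x => y' + sp e sg (x - y)) = (ψ : S d → S d) := (funext h1).symm
  rw [e]

end Pool.Agent.Lib.MP_dd0771_pr.Sc
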