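import Pool.Agent.Lib.MP_dd0771_pr.Sc.TpB

/-! Coalescence inside a box, with polynomial probability. -/

open Filter

namespace Pool.Agent.Lib.MP_dd0771_pr.Sc

variable {d : ℕ} {F : Fr}

theorem tp_small {c : ℝ} (hc : 0 < c) (C : ℝ) (k : ℕ) :
    ∀ᶠ l : ℕ in atTop, C * (l : ℝ) ^ k ≤ Real.exp (c * l) := by
  have h := ((isLittleO_pow_exp_pos_mul_atTop k hc).const_mul_left C).bound one_pos
  filter_upwards [tendsto_natCast_atTop_atTop.eventually h] with l hl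
  rw [one_mul, Real.norm_eq_abs, Real.norm_eq_abs, abs_of_pos (Real.exp_pos _)] at hl
  exact (le_abs_self _).trans hl

theorem tp_core (hd : 1 ≤ d) (hF : F.Ok) :
    ∃ N : ℕ, ∀ᶠ l : ℕ in atTop, ∀ (A A1 : Finset (Lt d)) K Q1 (f β : Cfg d) x y, A1 ⊆ A →
      Closed A1 Q1 → bx x (l ^ 4) ⊆ Q1 → Lev A1 (bx x (l ^ 4)) f K →
      (∀ z ∈ bx x (l ^ 4), f z ≤ β z) → mass β Q1 < K → nrm (y - x) ≤ 2 * l →
      1 / (l : ℝ) ^ N ≤ pr (wls F.toMd A (l ^ 3)) fun ws =>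
        (ws.flatten.foldl (st3 A1) (β, x, y)).2.1 = (ws.flatten.foldl (st3 A1) (β, x, y)).2.2 ∧
        (ws.flatten.foldl (st3 A1) (β, x, y)).2.1 ∈ bx x (l ^ 4) := by
  have hd0 : (1 : ℝ) ≤ d := by exact_mod_cast hd
  have hGm := hF.1
  set m := 8 * d ^ 2 + 2 with hm
  refine ⟨3 * m + 1, ?_⟩
  filter_upwards [tp_small (c := F.Gm / (40 * d ^ 2)) (by positivity) 8 (3 * m),
    tp_small one_pos 16 (3 * m), eventually_ge_atTop (4 * d + 4),
    tendsto_natCast_atTop_atTop.eventually_ge_atTop (2 * |F.Gp| + 3)]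
    with l h1 h2 h3 h4 A A1 K Q1 f β x y hA hC hQ hL hf hm' hy
  have hl : (4 : ℝ) * d + 4 ≤ l := by exact_mod_cast h3
  have hl1 : (1 : ℝ) ≤ l := by linarith
  have hl0 : (0 : ℝ) < l := by linarith
  have hy' : y ∈ bx x (l ^ 4) := mem_bx.2 (hy.trans (by
    calc 2 * l ≤ l * l := Nat.mul_le_mul_right _ (by omega)
      _ = l ^ 2 := (pow_two l).symm
      _ ≤ l ^ 4 := Nat.pow_le_pow_right (by omega) (by norm_num)))
  have h5 := tp_main hd hF hA hC hQ hL hf hm' hy' (ρ := 8 * d * (l : ℝ) ^ 2 + 1) (by positivity)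
    (l ^ 3)
  have h6 := tp_exit hd hF hA x (l ^ 4) (l ^ 3) (β, x, y)
  have hp : (0 : ℝ) < (l : ℝ) ^ (3 * m) := by positivity
  have hyr : (nrm (y - x) : ℝ) ≤ 2 * l := by exact_mod_cast hy
  -- the main term
  have e1 : (1 / (1 + 4 * d * (l : ℝ) ^ 2)) ^ m ≤ tpu (x - y) := by
    have h7 := eu_le (x - y)
    rw [nrm_sub_comm] at h7
    have h8 : (nrm (y - x) : ℝ) ^ 2 ≤ (2 * l) ^ 2 := by gcongr
    have h9 := eu_nonneg (x - y)
    rw [tpu]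
    gcongr
    nlinarith
  have e2 : (1 / (1 + (8 * d * (l : ℝ) ^ 2 + 1))) ^ m ≤ (1 / (1 + 4 * d * (l : ℝ) ^ 2)) ^ m / 2 := by
    rw [show 1 / (1 + (8 * d * (l : ℝ) ^ 2 + 1)) = 1 / (1 + 4 * d * (l : ℝ) ^ 2) * (1 / 2) by
      field_simp; ring, mul_pow]
    exact (mul_le_mul_of_nonneg_left (pow_le_of_le_one (a := (1 / 2 : ℝ)) (n := m) (by norm_num)
      (by norm_num) (Nat.succ_ne_zero _)) (by positivity)).trans (le_of_eq (by ring))
  have e3 : 1 / (l : ℝ) ^ (3 * m) ≤ (1 / (1 + 4 * d * (l : ℝ) ^ 2)) ^ m := by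
    rw [pow_mul, ← one_div_pow]
    gcongr
    nlinarith [mul_le_mul_of_nonneg_right hl (sq_nonneg (l : ℝ))]
  have e4 : Real.exp (-(((l ^ 3 : ℕ) : ℝ) * (F.Gm / (2 * d * (1 + (8 * d * (l : ℝ) ^ 2 + 1))) / 2))) ≤
      1 / (l : ℝ) ^ (3 * m) / 8 := by
    have h7 : F.Gm / (40 * d ^ 2) * l ≤
        ((l ^ 3 : ℕ) : ℝ) * (F.Gm / (2 * d * (1 + (8 * d * (l : ℝ) ^ 2 + 1))) / 2) := by
      push_cast
      rw [div_div, ← mul_div_assoc, div_mul_eq_mul_div, div_le_div_iff₀ (by positivity)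
        (by positivity)]
      have h8 : (1 : ℝ) ≤ d * (l : ℝ) ^ 2 := by nlinarith
      have h9 : 0 ≤ F.Gm * l * d := by positivity
      nlinarith [mul_le_mul_of_nonneg_left h8 h9]
    rw [Real.exp_neg, div_div (1 : ℝ), mul_comm _ (8 : ℝ), ← one_div]
    exact one_div_le_one_div_of_le (by positivity) (h1.trans (Real.exp_le_exp.2 h7))
  have e5 : Real.exp (2 * F.Gp * ((l ^ 3 : ℕ) : ℝ)) *
      (Real.exp (nrm (x - x)) + Real.exp (nrm (y - x))) / Real.exp ((l ^ 4 : ℕ) : ℝ) ≤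
      1 / (l : ℝ) ^ (3 * m) / 8 := by
    have h7 : Real.exp (nrm (x - x)) + Real.exp (nrm (y - x)) ≤ 2 * Real.exp (2 * l) := by
      rw [sub_self, nrm_zero, two_mul]
      exact add_le_add (Real.exp_le_exp.2 (by push_cast; linarith)) (Real.exp_le_exp.2 hyr)
    have h8 : 2 * F.Gp * (l : ℝ) ^ 3 + 2 * l + l ≤ (l : ℝ) ^ 4 := by
      have h9 : (l : ℝ) ≤ (l : ℝ) ^ 3 := le_self_pow₀ hl1 (by norm_num)
      nlinarith [le_abs_self F.Gp, mul_le_mul_of_nonneg_right h4 (pow_pos hl0 3).le, pow_pos hl0 3]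
    push_cast
    rw [div_div, div_le_div_iff₀ (Real.exp_pos _) (by positivity), one_mul]
    rw [one_mul] at h2
    calc _ ≤ Real.exp (2 * F.Gp * (l : ℝ) ^ 3) * (2 * Real.exp (2 * l)) * ((l : ℝ) ^ (3 * m) * 8) := by
          gcongr
      _ = Real.exp (2 * F.Gp * (l : ℝ) ^ 3) * Real.exp (2 * l) * (16 * (l : ℝ) ^ (3 * m)) := by ring
      _ ≤ Real.exp (2 * F.Gp * (l : ℝ) ^ 3) * Real.exp (2 * l) * Real.exp l := by gcongr
      _ ≤ _ := by rw [← Real.exp_add, ← Real.exp_add]; exact Real.exp_le_exp.2 h8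
  have e6 : 1 / (l : ℝ) ^ (3 * m + 1) ≤ 1 / (l : ℝ) ^ (3 * m) / 4 := by
    rw [pow_succ, div_div]
    gcongr
    linarith
  linarith

end Pool.Agent.Lib.MP_dd0771_pr.Sc
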