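import Pool.Agent.Lib.MP_dd0771_pr.Sc.Kit
import Pool.Agent.Lib.MP_dd0771_pr.Sc.TpC

open Filter

namespace Pool.Agent.Lib.MP_dd0771_pr.Sc

theorem s_tp {d : ℕ} {F : Fr} (hd : 2 ≤ d) (hF : F.Ok)
    (hEARLY : S_EARLY d F) :
    S_TP d F := by
  obtain ⟨N, h⟩ := tp_core (d := d) (by omega) hF
  refine ⟨N, h.mono fun l hl A K Q1 f β x y h1 h2 h3 h4 h5 h6 => ?_⟩
  refine (hl A A K Q1 f β x y le_rfl h1 h2 h3 h4 h5 h6).trans (pr_mono fun ws _ h7 => ?_)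
  obtain ⟨h8, h9⟩ := mw_st3 A ws.flatten (β, x, y)
  rw [inc_eq, inc_eq, ms_flatten, ms_flatten, h8, h9, h7.1]

end Pool.Agent.Lib.MP_dd0771_pr.Sc
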