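import Pool.Agent.Lib.MP_dd0771_pr.Sc.Kit

open Filter

namespace Pool.Agent.Lib.MP_dd0771_pr.Sc

variable {d : ℕ}

/-- An event of a segment of windows, given the past. -/
theorem track_seg {α : Type} (p : PMF α) {t m T : ℕ} (h : t + m ≤ T)
    (E : List α → List α → Prop) {c : ℝ} (hc : ∀ pre, pr (iid p m) (E pre) ≤ c) :
    pr (iid p T) (fun ws => E (ws.take t) ((ws.drop t).take m)) ≤ c := by
  obtain ⟨r, rfl⟩ := Nat.exists_eq_add_of_le (Nat.le_of_add_right_le h)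
  have e := ex_iid_split p t r (f := fun l l' => ind (E l (l'.take m)))
    (Bdd.ind fun x : List α × List α => E x.1 (x.2.take m))
  refine e.le.trans (ex_le (Bdd.pr (fun _ => iid p r) fun l l' => E l (l'.take m)) fun l _ => ?_)
  have e2 := pr_map (iid p r) (List.take m) (E l)
  rw [iid_take p (by omega)] at e2
  exact e2.ge.trans (hc l)

theorem track_slow {G : Md} {Y : Sys d} {V : ℕ} {B : Finset (S d)} {η : Cfg d} {w : Word d}
    (h : Slow G Y V B η (w.filter fun a => a ∈ Y.A)) : Slow G Y V B η w := by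
  intro x hx i x' hx'
  refine h x hx ((w.take i).filter fun a => a ∈ Y.A).length x' ?_
  have e : (w.filter fun a => a ∈ Y.A).take ((w.take i).filter fun a => a ∈ Y.A).length =
      (w.take i).filter fun a => a ∈ Y.A := by
    conv_lhs => rw [← List.take_append_drop i w, List.filter_append]
    rw [List.take_append_drop, List.take_left]
  rwa [e, acw_filter Y subset_rfl]

theorem track_wfl {F : Fr} (hF : F.Ok) {A : Finset (Lt d)} {Y : Sys d} (hA : Y.A ⊆ A) (n T : ℕ)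
    (h : ℝ) (Qd : Finset (S d)) (η : Cfg d) :
    pr (wls F.toMd A T) (wfl F.toMd n h Y Qd η) ≤ pr (wls F.toMd Y.A T) (wfl F.toMd n h Y Qd η) := by
  rw [← wls_flt hF hA, pr_map]
  refine pr_mono fun ws _ => ?_
  rintro ⟨u, hu, H⟩
  refine ⟨u, by rwa [flt_length], ?_⟩
  rw [flt_take, ms_flt subset_rfl]
  refine H.imp id ?_
  rintro ⟨w, hw, hs⟩
  exact ⟨_, by rw [flt, List.getElem?_map, hw]; rfl, fun h' => hs (track_slow h')⟩

/-- The deterministic part. -/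
theorem track_det {G : Md} (hj : 1 ≤ G.j) {Y1 Y2 : Sys d} (hZ : Y1.Z ⊆ Y2.Z)
    (hA : ∀ a : Lt d, a.1 ∈ Y1.Z → (a ∈ Y1.A ↔ a ∈ Y2.A)) {σ τ : St d} (hr : Reg G Y1.Z σ)
    (h2 : σ.2 ⊆ τ.2) {V s r u : ℕ} (hV : V * s ≤ r) {ws : List (Word d)} (hu : u ≤ ws.length)
    (HS : ∀ v w, ws[v]? = some w → Slow G Y1 V Y1.Z (ms Y1.A σ.1 (ws.take v)) w)
    (H0 : ∀ v w i, v < s → ws[v]? = some w → ∀ x ∈ σ.2, ∀ x' ∈ bx x r,
      mw Y1.A (ms Y1.A σ.1 (ws.take v)) (w.take i) x' ≤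
        mw Y2.A (ms Y2.A τ.1 (ws.take v)) (w.take i) x')
    (H2 : ∀ v w i, s ≤ v → v < u → ws[v]? = some w → ∀ x' ∈ Y1.Z,
      mw Y1.A (ms Y1.A σ.1 (ws.take v)) (w.take i) x' ≤
        mw Y2.A (ms Y2.A τ.1 (ws.take v)) (w.take i) x') :
    tj G Y1 σ ws u ⊆ tj G Y2 τ ws u := by
  classical
  have key : ∀ v, v ≤ u → tj G Y1 σ ws v ⊆ tj G Y2 τ ws v ∧
      ∀ x' ∈ tj G Y1 σ ws v, ∃ x ∈ σ.2, nrm (x' - x) ≤ V * v := by
    intro v
    induction v with
    | zero => exact fun _ => ⟨h2, fun x hx => ⟨x, hx, by rw [sub_self, nrm_zero]; omega⟩⟩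
    | succ v ih =>
      intro hv
      obtain ⟨i1, i2⟩ := ih (by omega)
      have hw : ws[v]? = some ws[v] := List.getElem?_eq_getElem (by omega)
      generalize ws[v] = w at hw
      have rv := hr.acs (ws.take v)
      have anc : ∀ i, ∀ x' ∈ (acw G Y1 (acs G Y1 σ (ws.take v)) (w.take i)).2,
          ∃ x ∈ σ.2, nrm (x' - x) ≤ V * (v + 1) := by
        intro i x' hx'
        obtain ⟨z, hz, h1⟩ := Slow.anc (B := Y1.Z) (V := V) (w := w)
          (by rw [acs_fst]; exact HS v w hw) (fun z hz => (rv z hz).1) i x' hx'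
        obtain ⟨x, hx, h3⟩ := i2 z hz
        exact ⟨x, hx, (nrm_tri x' z x).trans (by rw [Nat.mul_succ]; omega)⟩
      unfold tj
      rw [acs_take_succ Y1 σ hw, acs_take_succ Y2 τ hw]
      refine ⟨?_, by simpa using anc w.length⟩
      refine acw_cmp hj (B := Y1.Z.filter fun x' => ∃ x ∈ σ.2, nrm (x' - x) ≤ V * (v + 1)) w
        (fun _ _ h => hZ h) rv i1 (fun a ha => hA a (Finset.mem_filter.1 ha).1)
        (fun i x' hx' => Finset.mem_filter.2 ⟨(rv.acw _ x' hx').1, anc i x' hx'⟩) fun i x' hx' => ?_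
      obtain ⟨hz, x, hx, h1⟩ := Finset.mem_filter.1 hx'
      rw [acs_fst, acs_fst]
      rcases Nat.lt_or_ge v s with h | h
      · exact H0 v w i h hw x hx x' (mem_bx.2 (h1.trans ((Nat.mul_le_mul_left V h).trans hV)))
      · exact H2 v w i h (by omega) hw x' hz
  exact (key u le_rfl).1

theorem track_num (F : Fr) (hF : F.Ok) (d : ℕ) {C : ℝ} (hC : 1 ≤ C) : ∀ᶠ n : ℕ in atTop,
    VV n * s1 F n ≤ DD F n / 2 ∧ s1 F n + 1 ≤ DD F n ∧ 1 ≤ s1 F n ∧
    (∀ m ≤ s1 F n, ∀ x : ℝ, (DD F n : ℝ) / 2 ≤ x →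
      C ^ m * Real.exp (-x) ≤ Real.exp (-((n ^ 2 : ℕ) : ℝ))) ∧
    3 * (2 ^ (n + 2) * (2 * 2 ^ ((n + 3) * d))) * Real.exp (-((n ^ 2 : ℕ) : ℝ)) ≤
      Real.exp (-(n : ℝ) ^ 2 / 2) := by
  obtain ⟨N, hN⟩ := exists_nat_ge (2 * (C + 1))
  filter_upwards [eventually_ge_atTop N, eventually_ge_atTop (4 * (d + 1)), eventually_ge_atTop 5]
    with n h1 h2 h3
  have hA : 3 ≤ F.A := hF.2.2.2.2.2.2
  have eD : DD F n = n ^ 4 * s1 F n := by rw [DD, s1, ← pow_mul, ← pow_add, add_comm]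
  have hs : n ^ 2 ≤ s1 F n := Nat.le_self_pow (by omega) _
  have h4 : 1 ≤ n ^ 2 := Nat.one_le_pow _ _ (by omega)
  have h5 : 2 * n ^ 3 ≤ n ^ 4 := by
    rw [pow_succ n 3, mul_comm]; exact Nat.mul_le_mul_left _ (by omega)
  have h6 : 1 ≤ n ^ 3 := Nat.one_le_pow _ _ (by omega)
  refine ⟨?_, ?_, by omega, fun m hm x hx => ?_, ?_⟩
  · rw [Nat.le_div_iff_mul_le two_pos, eD, VV]; nlinarith
  · rw [eD]; nlinarith
  · have c1 : C ^ m ≤ Real.exp (C * s1 F n) := by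
      calc C ^ m ≤ C ^ s1 F n := pow_le_pow_right₀ hC hm
        _ ≤ Real.exp C ^ s1 F n :=
          pow_le_pow_left₀ (by linarith) (by linarith [Real.add_one_le_exp C]) _
        _ = _ := by rw [← Real.exp_nat_mul, mul_comm]
    refine (mul_le_mul_of_nonneg_right c1 (Real.exp_pos _).le).trans ?_
    rw [← Real.exp_add, Real.exp_le_exp]
    have c2 : ((n ^ 2 : ℕ) : ℝ) ≤ s1 F n := Nat.cast_le.2 hs
    have c3 : 2 * (C + 1) ≤ ((n ^ 4 : ℕ) : ℝ) :=
      hN.trans (Nat.cast_le.2 (h1.trans (Nat.le_self_pow (by omega) _)))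
    rw [eD, Nat.cast_mul] at hx
    have c4 : (0 : ℝ) ≤ s1 F n := Nat.cast_nonneg _
    nlinarith [mul_le_mul_of_nonneg_right c3 c4]
  · have e2 : (2 : ℝ) ≤ Real.exp 1 := by linarith [Real.add_one_le_exp 1]
    have c1 : (3 : ℝ) * (2 ^ (n + 2) * (2 * 2 ^ ((n + 3) * d))) ≤ 2 ^ (n + 5 + (n + 3) * d) := by
      have : (0 : ℝ) < 2 ^ n * 2 ^ ((n + 3) * d) := by positivity
      rw [pow_add, pow_add, pow_add]; nlinarith
    have c2 : (2 : ℝ) ^ (n + 5 + (n + 3) * d) ≤ Real.exp ((n + 5 + (n + 3) * d : ℕ) : ℝ) := by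
      rw [← mul_one ((n + 5 + (n + 3) * d : ℕ) : ℝ), Real.exp_nat_mul]
      exact pow_le_pow_left₀ two_pos.le e2 _
    refine (mul_le_mul_of_nonneg_right (c1.trans c2) (Real.exp_pos _).le).trans ?_
    rw [← Real.exp_add, Real.exp_le_exp]
    have c3 : 2 * (n + 5 + (n + 3) * d) ≤ n ^ 2 := by nlinarith
    have c4 : ((2 * (n + 5 + (n + 3) * d) : ℕ) : ℝ) ≤ ((n ^ 2 : ℕ) : ℝ) := Nat.cast_le.2 c3
    rw [Nat.cast_mul] at c4
    push_cast at c4 ⊢
    linarith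

theorem track_sum {α β : Type} (p : PMF α) (s : Finset β) (E : β → α → Prop) {c N : ℝ}
    (hc : 0 ≤ c) (hN : (s.card : ℝ) ≤ N) (h : ∀ b ∈ s, pr p (E b) ≤ c) :
    pr p (fun a => ∃ b ∈ s, E b a) ≤ N * c :=
  (pr_union_le p s E).trans ((Finset.sum_le_card_nsmul s _ c h).trans (by
    rw [nsmul_eq_mul]; exact mul_le_mul_of_nonneg_right hN hc))

theorem s_track {d : ℕ} {F : Fr} (hd : 2 ≤ d) (hF : F.Ok)
    (hEARLY : S_EARLY d F) (hTRK0 : S_TRK0 d F) (hP1 : S_P1 d F) :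
    S_TRACK d F := by
  obtain ⟨C, hC, hE⟩ := hEARLY
  have hsq : Tendsto (fun n : ℕ => n ^ 2) atTop atTop := tendsto_pow_atTop two_ne_zero
  filter_upwards [track_num F hF d hC, hsq.eventually hP1] with n ⟨n1, n2, n3, n4, n5⟩ hP
  intro K Q0 Q1 Q2 Z1 Z2 Y L T h σ τ q1 q2 w1 w2 z1 z2 hY hL hL' hT hr hv
  have hj : 1 ≤ F.j := by rcases hF.2.2.2.1 with h | h <;> omega
  have m0 : (0 : ℝ) ≤ mass σ.1 Q1 + 1 := by positivity
  refine le_min (pr_le_one _ _) ?_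
  rcases le_or_gt K (mass σ.1 Q1) with hK | hK
  · rw [ind_pos hK]
    have := mul_nonneg m0 (Real.exp_pos (-(n : ℝ) ^ 2 / 2)).le
    exact (pr_le_one _ _).trans ((le_add_of_nonneg_left (pr_nonneg _ _)).trans
      (le_add_of_nonneg_right this))
  rw [ind_neg (not_le.2 hK), add_zero]
  set D := DD F n with hD
  set s := s1 F n with hs
  set c : ℝ := (mass σ.1 Q1 + 1) * Real.exp (-((n ^ 2 : ℕ) : ℝ)) with hc
  have c0 : 0 ≤ c := mul_nonneg m0 (Real.exp_pos _).le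
  have a1 := al_mono K q1
  have a2 := al_mono K q2
  have inQ : ∀ y ∈ Y, ∀ x r, nrm (x - y) + r ≤ 2 * L → bx x r ⊆ wQ Y L := fun y hy x r hx =>
    (bx_subset hx).trans (Finset.subset_biUnion_of_mem (fun y => bx y (2 * L)) hy)
  have inZ : ∀ x ∈ Z1, ∃ y ∈ Y, nrm (x - y) ≤ L := fun x hx => by
    obtain ⟨y, hy, h1⟩ := Finset.mem_biUnion.1 (z1 hx)
    exact ⟨y, hy, mem_bx.1 h1⟩
  -- cardinalities
  have cW : ((wQ Y L).card : ℝ) ≤ 2 * 2 ^ ((n + 3) * d) := by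
    have h1 : 4 * L + 1 ≤ 2 ^ (n + 3) := by
      have := Nat.one_le_two_pow (n := n)
      rw [pow_add]; omega
    have h2 := (card_wQ Y L).trans (Nat.mul_le_mul hY (Nat.pow_le_pow_left h1 d))
    rw [← pow_mul] at h2
    exact_mod_cast h2
  have cT : ((T + 1 : ℕ) : ℝ) ≤ 2 ^ (n + 2) := by
    have := Nat.one_le_two_pow (n := n + 1)
    have h1 : T + 1 ≤ 2 ^ (n + 2) := by rw [pow_succ]; omega
    exact_mod_cast h1
  have cP : (((Finset.range (T + 1)) ×ˢ wQ Y L).card : ℝ) ≤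
      2 ^ (n + 2) * (2 * 2 ^ ((n + 3) * d)) := by
    rw [Finset.card_product, Finset.card_range, Nat.cast_mul]
    exact mul_le_mul cT cW (Nat.cast_nonneg _) (by positivity)
  -- the three bad events
  let E0 : ℕ × S d → List (Word d) → Prop := fun b ws => b.2 ∈ σ.2 ∧ ∃ u w i,
    (ws.take s)[u]? = some w ∧ ∃ x ∈ bx b.2 (D / 2),
      mw (al K Q2) (ms (al K Q2) τ.1 (ws.take u)) (w.take i) x <
        mw (al K Q1) (ms (al K Q1) σ.1 (ws.take u)) (w.take i) x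
  let E1 : ℕ × S d → List (Word d) → Prop := fun b ws => s ≤ b.1 ∧
    (∃ y ∈ Y, nrm (b.2 - y) ≤ L + 2 * D) ∧
    ms (al K Q2) τ.1 (ws.take b.1) b.2 < ms (al K Q1) σ.1 (ws.take b.1) b.2 ∧ ∀ u ≤ b.1,
      ¬ Dense (n ^ 2) h (wQ Y L) (ms (al K Q1) σ.1 (ws.take u)) ∧
      ¬ Sparse (n ^ 2) h (wQ Y L) (ms (al K Q2) τ.1 (ws.take u))
  let E2 : ℕ × S d → List (Word d) → Prop := fun b ws => b.2 ∈ Y ∧
    (∀ x ∈ bx b.2 (L + 2 * D),
      ms (al K Q1) σ.1 (ws.take b.1) x ≤ ms (al K Q2) τ.1 (ws.take b.1) x) ∧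
    ∃ w i, ws[b.1]? = some w ∧ ∃ x ∈ bx b.2 L,
      mw (al K Q2) (ms (al K Q2) τ.1 (ws.take b.1)) (w.take i) x <
        mw (al K Q1) (ms (al K Q1) σ.1 (ws.take b.1)) (w.take i) x
  have p0 : ∀ b, pr (wls F.toMd (al K Q0) T) (E0 b) ≤ c := by
    rintro ⟨_, x⟩
    by_cases hx : x ∈ σ.2
    swap
    · exact (pr_zero fun ws _ H => hx H.1).le.trans c0
    obtain ⟨y, hy, h1⟩ := inZ x (hr x hx).1
    have b1 := inQ y hy x (D + 1) (by omega)
    have H := hE (al K Q0) (al K Q1) (al K Q2) Q1 x D (D / 2) (min s T) σ.1 τ.1 a1 a2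
      (closed_al K Q1) ((bx_mono x (by omega)).trans (b1.trans w1))
      (fun z hz q => al_agree K (b1.trans w1) (b1.trans w2) _ hz) (Nat.div_le_self _ _)
      (hv.2 x hx)
    rw [mul_assoc] at H
    have H' := H.trans (mul_le_mul_of_nonneg_left (n4 _ (min_le_left _ _) _ (by
      have : ((D / 2 : ℕ) : ℝ) ≤ D / 2 := Nat.cast_div_le
      linarith)) m0)
    refine le_trans (pr_mono fun ws hws => ?_)
      (track_seg (wl F.toMd (al K Q0)) (t := 0) (m := min s T) (T := T) (by omega)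
        (fun _ ws => _) fun _ => H')
    rintro ⟨-, u, w, i, hw, H⟩
    have hl := (wls_mem hF hws).1
    have e : (ws.drop 0).take (min s T) = ws.take s := by
      rw [List.drop_zero, ← hl, ← List.take_take, List.take_length]
    have hu : u < s := by
      have := (List.getElem?_eq_some_iff.1 hw).1
      rw [List.length_take] at this; omega
    refine ⟨u, w, i, by rw [e]; exact hw, ?_⟩
    rwa [e, List.take_take, min_eq_left hu.le]
  have p1 : ∀ b ∈ (Finset.range (T + 1)) ×ˢ wQ Y L, pr (wls F.toMd (al K Q0) T) (E1 b) ≤ c := by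
    rintro ⟨v, x⟩ hb
    have hvT : v < T + 1 := Finset.mem_range.1 (Finset.mem_product.1 hb).1
    by_cases hx : s ≤ v ∧ ∃ y ∈ Y, nrm (x - y) ≤ L + 2 * D
    swap
    · exact (pr_zero fun ws _ H => hx ⟨H.1, H.2.1⟩).le.trans c0
    obtain ⟨hsv, y, hy, h1⟩ := hx
    obtain ⟨t, rfl⟩ := Nat.exists_eq_add_of_le' hsv
    have b1 := inQ y hy x (s + 1) (by omega)
    have b2 : bx x s ⊆ wQ Y L := (bx_mono x (by omega)).trans b1
    have H := fun pre : List (Word d) => hP (al K Q0) (al K Q1) (al K Q2) K Q1 x h 0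
      (ms (al K Q1) σ.1 pre) (ms (al K Q2) τ.1 pre) a1 a2 (closed_al K Q1) (b2.trans w1)
      (lev_al K (b1.trans w1)) (lev_al K (b1.trans w2)) (fun _ _ => ⟨Nat.zero_le _, Nat.zero_le _⟩)
      (by rw [mass_ms (closed_al K Q1)]; exact hK)
    simp only [mass_ms (closed_al K Q1)] at H
    refine le_trans (pr_mono fun ws _ => ?_)
      (track_seg (wl F.toMd (al K Q0)) (t := t) (m := s) (T := T) (by omega) _ H)
    rintro ⟨-, -, H1, H2⟩
    refine ⟨by rwa [← ms_append, ← ms_append, ← List.take_add], fun u hu => ?_⟩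
    have hu' : u ≤ s := hu
    rw [← ms_append, ← ms_append, List.take_take, min_eq_left hu', ← List.take_add]
    obtain ⟨H3, H4⟩ := H2 (t + u) (by simpa using hu')
    exact ⟨fun ⟨z, h1, h2⟩ => H3 ⟨z, h1.trans b2, h2⟩, fun ⟨z, h1, h2⟩ => H4 ⟨z, h1.trans b2, h2⟩⟩
  have p2 : ∀ b, pr (wls F.toMd (al K Q0) T) (E2 b) ≤ c := by
    rintro ⟨v, y⟩
    by_cases hx : y ∈ Y ∧ v < T
    swap
    · refine (pr_zero fun ws hws H => hx ⟨H.1, ?_⟩).le.trans c0
      obtain ⟨-, -, w, -, hw, -⟩ := H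
      exact (wls_mem hF hws).1 ▸ (List.getElem?_eq_some_iff.1 hw).1
    have b1 := inQ y hx.1 y (L + 2 * D + 1) (by rw [sub_self, nrm_zero]; omega)
    refine le_trans (pr_mono fun ws _ => ?_)
      (track_seg (wl F.toMd (al K Q0)) (t := v) (m := 1) (T := T) (by omega)
        (fun pre mid => (∀ x ∈ bx y (L + 2 * D), ms (al K Q1) σ.1 pre x ≤ ms (al K Q2) τ.1 pre x) ∧
          ∃ u w i, mid[u]? = some w ∧ ∃ x ∈ bx y L,
            mw (al K Q2) (ms (al K Q2) (ms (al K Q2) τ.1 pre) (mid.take u)) (w.take i) x <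
              mw (al K Q1) (ms (al K Q1) (ms (al K Q1) σ.1 pre) (mid.take u)) (w.take i) x)
        fun pre => ?_)
    · rintro ⟨-, H1, w, i, hw, H2⟩
      exact ⟨H1, 0, w, i, by simpa [List.getElem?_take] using hw, H2⟩
    · by_cases H1 : ∀ x ∈ bx y (L + 2 * D), ms (al K Q1) σ.1 pre x ≤ ms (al K Q2) τ.1 pre x
      swap
      · exact (pr_zero fun ws _ H => H1 H.1).le.trans c0
      have H := hE (al K Q0) (al K Q1) (al K Q2) Q1 y (L + 2 * D) L 1 _ _ a1 a2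
        (closed_al K Q1) ((bx_mono y (by omega)).trans (b1.trans w1))
        (fun z hz q => al_agree K (b1.trans w1) (b1.trans w2) _ hz) (by omega) H1
      rw [mul_assoc, mass_ms (closed_al K Q1)] at H
      refine (pr_mono fun ws _ H => H.2).trans
        (H.trans (mul_le_mul_of_nonneg_left (n4 _ n3 _ ?_) m0))
      have : (0 : ℝ) ≤ D := Nat.cast_nonneg _
      push_cast; linarith
  -- the union
  have s0 := track_sum _ _ E0 c0 cP fun b _ => p0 b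
  have s1' := track_sum _ _ E1 c0 cP p1
  have s2 := track_sum _ _ E2 c0 cP fun b _ => p2 b
  have fin := mul_le_mul_of_nonneg_left n5 m0
  have u2 := (pr_or_le _ _ _).trans (add_le_add s0 ((pr_or_le _ _ _).trans (add_le_add s1' s2)))
  refine (pr_le_add (E1 := wfl F.toMd n h ⟨al K Q1, Z1⟩ (wQ Y L) σ.1) fun ws hws H => ?_).trans
    (add_le_add (track_wfl hF (Y := ⟨al K Q1, Z1⟩) a1 n T h _ _) (u2.trans (by
      rw [hc]; linarith)))
  by_contra hcon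
  simp only [not_or, not_exists, not_and] at hcon
  obtain ⟨f0, f1, f2, f3⟩ := hcon
  obtain ⟨u, hu, H, hsp⟩ := H
  have hl := (wls_mem hF hws).1
  have mem : ∀ v ≤ T, ∀ y ∈ Y, ∀ x, nrm (x - y) ≤ 2 * L →
      (v, x) ∈ (Finset.range (T + 1)) ×ˢ wQ Y L := fun v hv y hy x hx =>
    Finset.mem_product.2 ⟨Finset.mem_range.2 (by omega), inQ y hy x 0 hx (self_mem_bx x 0)⟩
  have g1 : ∀ v, s ≤ v → v ≤ u → ∀ y ∈ Y, ∀ x ∈ bx y (L + 2 * D),
      ms (al K Q1) σ.1 (ws.take v) x ≤ ms (al K Q2) τ.1 (ws.take v) x := by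
    intro v h1 h2 y hy x hx
    have hx' := mem_bx.1 hx
    refine not_lt.1 fun hlt => f2 (v, x) (mem v (by omega) y hy x (by omega))
      ⟨h1, ⟨y, hy, hx'⟩, hlt, fun u' hu' => ⟨fun hd => f0 ⟨u', ?_, Or.inl hd⟩, hsp u' ?_⟩⟩
    · have : u' ≤ v := hu'
      omega
    · exact le_trans hu' h2
  have sub : tj F.toMd ⟨al K Q1, Z1⟩ σ ws u ⊆ tj F.toMd ⟨al K Q2, Z2⟩ τ ws u := by
    refine track_det hj (Y1 := ⟨al K Q1, Z1⟩) (Y2 := ⟨al K Q2, Z2⟩) z2 (fun a ha => ?_) hr hv.1 n1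
      (by omega) (fun v w hw => ?_) (fun v w i h1 hw x hx x' hx' => ?_)
      fun v w i h1 h2 hw x hx => ?_
    · obtain ⟨y, hy, h1⟩ := inZ _ ha
      have b1 := inQ y hy a.1 (0 + 1) (by omega)
      exact al_agree K (b1.trans w1) (b1.trans w2) a (self_mem_bx _ _)
    · by_contra hs
      exact f0 ⟨v, (List.getElem?_eq_some_iff.1 hw).1.le, Or.inr ⟨w, hw, hs⟩⟩
    · obtain ⟨y, hy, h2⟩ := inZ x (hr x hx).1
      exact not_lt.1 fun hlt => f1 (0, x) (mem 0 (by omega) y hy x (by omega))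
        ⟨hx, v, w, i, by rw [List.getElem?_take, if_pos h1]; exact hw, x', hx', hlt⟩
    · obtain ⟨y, hy, h3⟩ := inZ x hx
      exact not_lt.1 fun hlt => f3 (v, y)
        (mem v (by omega) y hy y (by rw [sub_self, nrm_zero]; omega))
        ⟨hy, g1 v h1 h2.le y hy, w, i, hw, x, mem_bx.2 h3, hlt⟩
  rcases H with H | ⟨H1, H2⟩
  · exact H sub
  refine H2 ⟨sub, fun x hx x' hx' => ?_⟩
  obtain ⟨y, hy, h1⟩ := inZ x (Reg.acs (Y := ⟨al K Q1, Z1⟩) hr _ x hx).1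
  rw [acs_fst, acs_fst]
  exact g1 u H1 le_rfl y hy x' (bx_subset (by omega) hx')

end Pool.Agent.Lib.MP_dd0771_pr.Sc
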