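import Pool.Agent.Lib.MP_dd0771_pr.Sc.TryI

open Filter

namespace Pool.Agent.Lib.MP_dd0771_pr.Sc

theorem s_try {d : ℕ} {F : Fr} (hd : 2 ≤ d) (hF : F.Ok) (hL : Low d F)
    (hAL : S_AL d F) (hQQ : S_QQ d F) :
    S_TRY d F := by
  classical
  intro B hB
  filter_upwards [hAL B hB, hQQ B hB, try_ws hd hF hL B.n0, try_as hd hF hL B.n0, try_num hB,
    scales hF B, le_of_Lmin hF B, eventually_ge_atTop 2] with n hal hqq hws has hnum hsc hlm hn2
    K hBK l pc M Φ s ω Yt Yk C v hl1 hl2 hM hΦ hc2 hQ hsep hk hAp hTy hZ hz hVal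
  obtain ⟨ty1, ty2, ty3, ty4, ty5⟩ := hTy
  have hg := hB.2.1
  have hp4 : B.p 4 ≤ B.pa + 5 * B.g := by unfold Bs.p; push_cast; linarith
  have hK : KP F K pc := hBK.kp hF hB (ty1.trans ty2) (ty3.trans hp4)
  have hK1 : KP F K C.1 := hBK.kp hF hB ty1 (ty2.trans (ty3.trans hp4))
  have hD : 1 ≤ DD F n := Nat.one_le_pow _ _ (by omega)
  have hDL := (hlm C.2 ty4).2.2.2
  have hfar : tryFar F n Yt := fun z h1 z' h2 hne =>
    bx_disjoint (by have := hsep z h1 z' h2 hne; omega)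
  have hfk : tryFar F n Yk := fun z h1 z' h2 hne => hfar z (hk h1) z' (hk h2) hne
  have hQ' : ∀ z ∈ Yt, tryBox F n z ⊆ M.Q := hQ
  have hQk : ∀ z ∈ Yk, tryBox F n z ⊆ M.Q := fun z h => hQ z (hk h)
  have hck : Yk.card ≤ 2 := hAp.2.1
  obtain ⟨-, -, -, hq⟩ := hqq K hBK l pc hl1 hl2 (ty1.trans ty2) ty3
  have hat := try_a hF hL hK hD hfar hQ' (hq M.Q Yt hc2 hQ hsep)
  have hak := try_a hF hL hK hD hfk hQk (hq M.Q Yk hck hQk fun z h1 z' h2 =>
    hsep z (hk h1) z' (hk h2))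
  have h2n : 2 ^ n ≤ 2 ^ (4 * n) := Nat.pow_le_pow_right (by omega) (by omega)
  obtain ⟨ha1, ha2⟩ := hal K hBK (pc, 2 * DD F n) (ty1.trans ty2) ty3 (by dsimp only; omega)
    (by dsimp only; omega)
  have hn4 : 4 * B.n0 ^ 2 ≤ 2 * DD F n := by
    have a1 : B.n0 ^ 2 ≤ n ^ 2 := Nat.pow_le_pow_left hsc.1 2
    have a2 : n ^ 3 ≤ DD F n := Nat.pow_le_pow_right (by omega) (by omega)
    have a3 : 2 * n ^ 2 ≤ n ^ 3 := by
      rw [pow_succ n 2, mul_comm (n ^ 2)]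
      exact Nat.mul_le_mul_right _ hn2
    omega
  have ha3 := ha2 B.n0 hn4
  have ha4 : alv d F.toMd K (pc, 2 * DD F n) B.n0 ≤ 1 := by
    unfold alv cP
    exact wP_le_one _
  set a := alv d F.toMd K (pc, 2 * DD F n) B.n0 with ha
  have hm0 := thm_pos hB
  have ha0 : 0 < a := hm0.trans_le ha3
  obtain ⟨KS, hE1, hE2⟩ := hws K pc C Yk hK hK1 ty2 hAp (by omega) ty5
  have hAS := has K l pc M.Q M.Z Yt Yk ω (M.st F.toMd K s) hK hl2 hfar hk hck hQ' fun z h =>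
    ⟨fun x hx => hZ (Finset.mem_biUnion.2 ⟨z, h, bx_mono z (by omega) hx⟩), (hz z h).1,
      (st_reg M K s z (hz z h).1).2, (hz z h).2.1, (hz z h).2.2⟩
  have hlaw := try_law hF hL hK hD hfar hQ' (s2 F l)
  set J := tryJ (wls F.toMd (al K M.Q \ tryLow F Yt) (s2 F l))
    (fun ws1 => tryPX F K n pc ws1 Yt.toList) (wls F.toMd (al K M.Q) B.n0)
    fun ξ w => KS (tryRes (tryLoc F n Yk) ξ) (flt (tryAl F K n Yk) w) with hJ
  have hsucc : pr J (fun x => ∀ z ∈ Yt, tryAlive F K n z x.1.2 x.2.1) = a ^ Yt.card := by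
    unfold pr
    rw [hJ, try_exJ' _ _ _ _ (h := fun ξ w _ => ind (∀ z ∈ Yt, tryAlive F K n z ξ w)) (Bdd.ind _),
      hlaw, ← hat]
    exact ex_congr fun ξ _ => ex_congr fun w _ => ex_const _ _
  obtain ⟨L0, hL1, hL2⟩ := exists_cond J (fun x => ∀ z ∈ Yt, tryAlive F K n z x.1.2 x.2.1)
    (by rw [hsucc]; positivity)
  rw [hsucc] at hL2
  have hsplit : ∀ ξ w, ind (∀ z ∈ Yt, tryAlive F K n z ξ w) =
      ind (∀ z ∈ Yt \ Yk, tryAlive F K n z ξ w) * ind (∀ z ∈ Yk,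
        tryAlive F K n z (tryRes (tryLoc F n Yk) ξ) (flt (tryAl F K n Yk) w)) := fun ξ w => by
    rw [← ind_and]
    congr 1
    refine propext ⟨fun h => ⟨fun z h1 => h z (Finset.mem_sdiff.1 h1).1,
      fun z h1 => (tryg_alive h1 ξ w).2 (h z (hk h1))⟩, fun h z h1 => ?_⟩
    by_cases h2 : z ∈ Yk
    · exact (tryg_alive h2 ξ w).1 (h.2 z h2)
    · exact h.1 z (Finset.mem_sdiff.2 ⟨h1, h2⟩)
  set ar := ex (mu F.toMd K pc (tryLoc F n Yt)) fun ξ => pr (wls F.toMd (al K M.Q) B.n0) fun w =>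
    ∀ z ∈ Yt \ Yk, tryAlive F K n z ξ w with har
  have har0 : 0 ≤ ar := ex_nonneg fun _ _ => pr_nonneg _ _
  have hprod : a ^ Yt.card = ar * a ^ Yk.card := by
    have e1 := try_ind (K := K) (pc := pc) hF hfar hk hQ' B.n0
      (H := fun ξ w => ind (∀ z ∈ Yk, tryAlive F K n z ξ w)) (Bdd.ind _)
    have e2 := try_marg (K := K) (pc := pc) hF (Finset.Subset.refl Yk) hQk B.n0
      (H := fun ξ w => ind (∀ z ∈ Yk, tryAlive F K n z ξ w)) (Bdd.ind _)
    rw [← hat, ← hak]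
    simp only [hsplit]
    rw [e1, ← e2]
    congr 1
    refine ex_congr fun ξ _ => ex_congr fun w _ => ?_
    congr 1
    exact propext (forall₂_congr fun z h1 => tryg_alive h1 ξ w)
  have har1 : 0 < ar := by
    rcases har0.eq_or_lt with h | h
    · rw [← h, zero_mul] at hprod
      exact absurd hprod (by positivity)
    · exact h
  have hlen : ∀ x ∈ L0.support, (x.1.1 ++ x.2.1).length = sq F B l := fun x hx => by
    obtain ⟨h1, h2⟩ := try_suppJ (hL1 x hx).1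
    rw [List.length_append, (wls_mem hF h1).1, (wls_mem hF h2).1]
    rfl
  have bΦ := Bdd.of01 hΦ
  have hv := hVal (L0.map fun x => (nx s (x.1.1 ++ x.2.1), x.2.2,
    decide (Vld (DD F n) x.2.2 (M.st F.toMd K (nx s (x.1.1 ++ x.2.1)))))) ?_ ?_ ?_ ?_ ?_
  · have b1 : Bdd fun p : Nd d × St d × Bool => if p.2.2 = true then Φ p.1 else 0 :=
      Bdd.of01 fun p => by
        split_ifs
        · exact hΦ _
        · exact ⟨le_rfl, zero_le_one⟩
    rw [ex_map _ _ b1] at hv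
    have h1 : v ≤ ex L0 fun x => Φ (nx s (x.1.1 ++ x.2.1)) :=
      hv.trans (ex_mono (b1.comp _) (bΦ.comp _) fun x _ => by
        dsimp only
        split_ifs
        · exact le_rfl
        · exact (hΦ _).1)
    have h2 := hL2 (fun x => Φ (nx s (x.1.1 ++ x.2.1))) (bΦ.comp _)
    rw [hJ, try_exJ _ _ _ _ ((Bdd.ind _).mul (bΦ.comp _))] at h2
    simp only [ex_const] at h2
    rw [try_id hF hK hD hfar hQ' (bΦ.comp (nx s)), ← h2]
    unfold qq
    rw [mul_pow, mul_assoc, ← ha, mul_comm (a ^ Yt.card)]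
    exact mul_le_mul_of_nonneg_left (mul_le_mul_of_nonneg_right h1 (by positivity))
      (by positivity)
  · intro p hp
    obtain ⟨x, hx, rfl⟩ := (PMF.mem_support_map_iff _ _ _).1 hp
    rw [tm_nx, hlen x hx]
  · intro _ p hp p' hp'
    obtain ⟨x, -, rfl⟩ := (PMF.mem_support_map_iff _ _ _).1 hp
    obtain ⟨x', -, rfl⟩ := (PMF.mem_support_map_iff _ _ _).1 hp'
    rw [Nat.add_sub_cancel, cut_nx_le le_rfl, cut_nx_le le_rfl]
  · intro f hf
    have bf := Bdd.of01 hf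
    rw [ex_map _ _ (bf.comp fun p : Nd d × St d × Bool => p.2.1),
      div_le_iff₀ (pow_pos (thp_pos hB) _)]
    have h2 := hL2 (fun x => f x.2.2) (bf.comp _)
    rw [hJ, try_exJ' _ _ _ _ (h := fun ξ w σ => ind (∀ z ∈ Yt, tryAlive F K n z ξ w) * f σ)
      ((Bdd.ind _).mul (bf.comp _)), hlaw] at h2
    have e1 := try_ind (K := K) (pc := pc) hF hfar hk hQ' B.n0
      (H := fun ξ w => ind (∀ z ∈ Yk, tryAlive F K n z ξ w) * ex (KS ξ w) f)
      ((Bdd.ind _).mul (Bdd.ex (f := fun _ => f) (bf.comp _) _))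
    simp only [ex_mul_left, hsplit, mul_assoc] at h2
    rw [e1, hprod, ← har] at h2
    have h3 := mul_le_mul_of_nonneg_left (hE1 f hf) har0
    rw [← h2] at h3
    have h4 : 0 ≤ ex L0 fun x => f x.2.2 := ex_nonneg fun _ _ => (hf _).1
    have h5 : wEv F.toMd K B.n0 C Yk f - er n ≤ (ex L0 fun x => f x.2.2) * a ^ Yk.card :=
      le_of_mul_le_mul_left (by linarith) har1
    exact h5.trans (mul_le_mul_of_nonneg_left (pow_le_pow_left₀ ha0.le ha1 _) h4)
  · intro p hp h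
    obtain ⟨x, -, rfl⟩ := (PMF.mem_support_map_iff _ _ _).1 hp
    exact Or.inl (of_decide_eq_true h)
  · rw [pr_map]
    have h2 := hL2 (fun x => ind (decide (Vld (DD F n) x.2.2
      (M.st F.toMd K (nx s (x.1.1 ++ x.2.1)))) = false)) (Bdd.ind _)
    have h3 : (ex J fun x => ind (∀ z ∈ Yt, tryAlive F K n z x.1.2 x.2.1) *
        ind (decide (Vld (DD F n) x.2.2 (M.st F.toMd K (nx s (x.1.1 ++ x.2.1)))) = false)) ≤
        pr J (fun x => ¬ tryGW F K n Yk (tryRes (tryLoc F n Yk) x.1.2)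
          (flt (tryAl F K n Yk) x.2.1) x.2.2) +
        pr J fun x => ¬ tryGA F K n Yk x.1.2 x.2.1
          (acs F.toMd ⟨al K M.Q, M.Z⟩ (M.st F.toMd K s) (x.1.1 ++ x.2.1)) := by
      simp only [← ind_and]
      refine pr_le_add fun x _ h => ?_
      by_contra hcon
      rw [not_or, not_not, not_not] at hcon
      have := try_vld hcon.1 hcon.2
      exact of_decide_eq_false h.2 (by rw [st_nx]; exact this)
    have h4 : pr J (fun x => ¬ tryGW F K n Yk (tryRes (tryLoc F n Yk) x.1.2)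
        (flt (tryAl F K n Yk) x.2.1) x.2.2) ≤ er n := by
      unfold pr
      rw [hJ, try_exJ' _ _ _ _ (h := fun ξ w σ => ind (¬ tryGW F K n Yk
        (tryRes (tryLoc F n Yk) ξ) (flt (tryAl F K n Yk) w) σ)) (Bdd.ind _), hlaw]
      exact (try_marg hF hk hQ' B.n0
        (H := fun ξ w => pr (KS ξ w) fun σ => ¬ tryGW F K n Yk ξ w σ) (Bdd.pr _ _)).trans_le hE2
    have h5 : pr J (fun x => ¬ tryGA F K n Yk x.1.2 x.2.1
        (acs F.toMd ⟨al K M.Q, M.Z⟩ (M.st F.toMd K s) (x.1.1 ++ x.2.1))) ≤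
        2 * Real.exp (-(l : ℝ) / 2) + 3 * er n := by
      unfold pr
      rw [hJ, try_exJ _ _ _ _ (Bdd.ind _)]
      simp only [ex_const]
      exact hAS
    have h6 : B.thm ^ 2 ≤ a ^ Yt.card :=
      (pow_le_pow_left₀ hm0.le ha3 2).trans (pow_le_pow_of_le_one ha0.le ha4 hc2)
    have h7 := hnum l hl1 hl2
    have t0 : 0 < tol l := Real.exp_pos _
    refine le_of_mul_le_mul_right ?_ (pow_pos ha0 Yt.card)
    have h8 := mul_le_mul_of_nonneg_left h6 t0.le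
    unfold pr at h3 h4 h5 ⊢
    dsimp only
    linarith

end Pool.Agent.Lib.MP_dd0771_pr.Sc
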