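import Pool.Agent.Lib.MP_dd0771_pr.Sc.Kit

open Filter

namespace Pool.Agent.Lib.MP_dd0771_pr.Sc

section
variable {d : ℕ} {G : Md}

/-- Letters outside `alk 3 B` keep `m ≤ 3` particles on `B` and the infected sites of `B`. -/
theorem um_keep {Y : Sys d} {B J : Finset (S d)} {m : ℕ} (hm : m ≤ 3) (hj : G.j ≤ m) (hJ : J ⊆ B)
    (w : Word d) (hw : ∀ b ∈ w, b ∉ alk 3 B) :
    ∀ σ : St d, (∀ x ∈ B, m ≤ σ.1 x) → J ⊆ σ.2 →
      (∀ x ∈ B, m ≤ (acw G Y σ w).1 x) ∧ J ⊆ (acw G Y σ w).2 := by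
  induction w with
  | nil => exact fun σ h1 h2 => ⟨h1, h2⟩
  | cons b w ih =>
    intro σ h1 h2
    have hb := hw b List.mem_cons_self
    have key : (∀ x ∈ B, m ≤ (ac G Y σ b).1 x) ∧ J ⊆ (ac G Y σ b).2 := by
      obtain ⟨x, _ | ⟨e, k⟩⟩ := b
      · rw [mem_alk_none] at hb
        refine ⟨h1, fun z hz => ?_⟩
        simp only [ac]
        split_ifs
        · exact Finset.mem_erase.2 ⟨fun h => hb (h ▸ hJ hz), h2 hz⟩
        · exact h2 hz
      · rw [mem_alk_some] at hb
        simp only [ac]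
        by_cases c : ((x, some (e, k)) : Lt d) ∈ Y.A ∧ k < σ.1 x
        · rw [if_pos c]
          have h3 : ∀ z ∈ B, m ≤ hop σ.1 x (nb x e) z := fun z hz => by
            have h4 := h1 z hz
            unfold hop
            by_cases c1 : z = x
            · subst c1
              have : ¬ k < 3 := fun h => hb ⟨hz, h⟩
              have := c.2
              rw [if_pos rfl]
              omega
            · rw [if_neg c1]
              omega
          refine ⟨h3, fun z hz => Finset.mem_filter.2 ⟨?_, hj.trans (h3 z (hJ hz))⟩⟩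
          split_ifs
          · exact Finset.mem_insert_of_mem (h2 hz)
          · exact h2 hz
        · rw [if_neg c]
          exact ⟨h1, h2⟩
    exact ih (fun b hb => hw b (List.mem_cons_of_mem _ hb)) _ key.1 key.2

theorem um_det {Y : Sys d} {a a' : S d} {e : Dir d} (hj : G.j ≤ 2) (ha : a ∈ Y.Z) (ha' : a' ∈ Y.Z)
    (hn : nb a e ∈ Y.Z) (hA : ((a, some (e, 0)) : Lt d) ∈ Y.A) {η : Cfg d}
    (hη : ∀ x ∈ ({a, nb a e, a'} : Finset (S d)), η x = 3) {w : Word d}
    (hw : (w.filter fun b => b ∈ alk 3 ({a, nb a e, a'} : Finset (S d))) = [(a, some (e, 0))]) :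
    ({a, nb a e, a'} : Finset (S d)) ⊆ (acw G Y (ini G Y.Z {a, a'} η) w).2 := by
  obtain ⟨w1, w2, rfl, h1, -, h2⟩ := List.filter_eq_cons_iff.1 hw
  rw [List.filter_eq_nil_iff] at h2
  have hJ : ({a, a'} : Finset (S d)) ⊆ {a, nb a e, a'} := by
    intro z hz
    simp only [Finset.mem_insert, Finset.mem_singleton] at hz ⊢
    tauto
  obtain ⟨k1, k2⟩ := um_keep (G := G) (Y := Y) (m := 3) le_rfl (by omega) hJ w1
    (fun b hb => by simpa using h1 b hb) (ini G Y.Z {a, a'} η) (fun x hx => (hη x hx).ge)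
    (fun z hz => Finset.mem_filter.2 ⟨Finset.mem_inter.2 ⟨hz, by
      simp only [Finset.mem_insert, Finset.mem_singleton] at hz
      rcases hz with rfl | rfl <;> assumption⟩, by rw [hη z (hJ hz)]; omega⟩)
  rw [acw_append]
  generalize acw G Y (ini G Y.Z {a, a'} η) w1 = σ at k1 k2
  have a1 : a ∈ σ.2 := k2 (Finset.mem_insert_self _ _)
  have a3 := k1 a (Finset.mem_insert_self _ _)
  have h3 : ∀ z ∈ ({a, nb a e, a'} : Finset (S d)), 2 ≤ hop σ.1 a (nb a e) z := fun z hz => by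
    have h4 := k1 z hz
    unfold hop
    split_ifs <;> omega
  have e1 : ac G Y σ (a, some (e, 0)) = (hop σ.1 a (nb a e),
      (insert (nb a e) σ.2).filter fun x => G.j ≤ hop σ.1 a (nb a e) x) := by
    simp only [ac]
    rw [if_pos ⟨hA, by omega⟩, if_pos ⟨a1, hn⟩]
  refine (um_keep (G := G) (Y := Y) (m := 2) (by omega) hj subset_rfl w2
    (fun b hb => by simpa using h2 b hb) (ac G Y σ (a, some (e, 0))) ?_ ?_).2
  · rw [e1]
    exact h3
  · rw [e1]
    intro z hz
    refine Finset.mem_filter.2 ⟨?_, hj.trans (h3 z hz)⟩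
    simp only [Finset.mem_insert, Finset.mem_singleton] at hz
    rcases hz with rfl | rfl | rfl
    · exact Finset.mem_insert_of_mem a1
    · exact Finset.mem_insert_self _ _
    · exact Finset.mem_insert_of_mem (k2 (by simp))

theorem um_card {B : Finset (S d)} (hB : B.card ≤ 3) : (alk 3 B).card ≤ 3 + 18 * d := by
  refine (Finset.card_union_le _ _).trans (Nat.add_le_add (Finset.card_image_le.trans hB)
    (Finset.card_image_le.trans ?_))
  simp only [Finset.card_product, Finset.card_univ, Fintype.card_prod, Fintype.card_fin,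
    Fintype.card_bool, Finset.card_range]
  nlinarith

end

theorem um_rt {d : ℕ} {F : Fr} (hd : 2 ≤ d) (hF : F.Ok) (b : Lt d) : rt F.toMd b ≤ F.dl + F.Gp := by
  obtain ⟨h1, h2, h3, -⟩ := hF
  have h4 : 0 < F.Gp := h1.trans_le ((h2 0).1.trans (h2 0).2)
  obtain ⟨x, _ | q⟩ := b
  · show F.dl ≤ _
    linarith
  · show F.a q.2 / (2 * d) ≤ _
    have : (2 : ℝ) ≤ d := by exact_mod_cast hd
    have h5 := div_le_self (h1.le.trans (h2 q.2).1) (show (1 : ℝ) ≤ 2 * d by linarith)
    linarith [(h2 q.2).2]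

theorem um_word {d : ℕ} {F : Fr} (hd : 2 ≤ d) (hF : F.Ok) {A : Finset (Lt d)} {B : Finset (S d)}
    (hB : B.card ≤ 3) {a : S d} {e : Dir d} (ha : a ∈ B) (hA : ((a, some (e, 0)) : Lt d) ∈ A) :
    Real.exp (-((3 + 18 * d) * (F.dl + F.Gp))) * (F.Gm / (2 * d)) ≤
      pr (wl F.toMd A) fun w => (w.filter fun b => b ∈ alk 3 B) = [(a, some (e, 0))] := by
  have d0 : (2 : ℝ) ≤ d := by exact_mod_cast hd
  rw [← pr_map (wl F.toMd A) (fun w => w.filter fun b => b ∈ alk 3 B)
    (fun w => w = [(a, some (e, 0))]), wl_filter hF, ex_ind_eq, wl_apply hF _ _ (by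
      intro b hb
      rw [List.mem_singleton.1 hb]
      exact Finset.mem_inter.2 ⟨hA, mem_alk_some.2 ⟨ha, by omega⟩⟩)]
  have h1 : ∑ b ∈ A ∩ alk 3 B, rt F.toMd b ≤ (3 + 18 * d) * (F.dl + F.Gp) := by
    refine (Finset.sum_le_card_nsmul _ _ _ fun b _ => um_rt hd hF b).trans ?_
    rw [nsmul_eq_mul]
    refine mul_le_mul_of_nonneg_right ?_
      ((rt_nonneg hF ((a, none) : Lt d)).trans (um_rt hd hF _))
    exact_mod_cast (Finset.card_le_card Finset.inter_subset_right).trans (um_card hB)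
  simp only [List.map_cons, List.map_nil, List.prod_cons, List.prod_nil, mul_one,
    List.length_singleton, Nat.factorial_one, Nat.cast_one, div_one]
  exact mul_le_mul (Real.exp_le_exp.2 (by linarith))
    (div_le_div_of_nonneg_right (hF.2.1 0).1 (by linarith)) (div_nonneg hF.1.le (by linarith))
    (Real.exp_pos _).le

theorem s_um {d : ℕ} {F : Fr} (hd : 2 ≤ d) (hF : F.Ok)
    :
    S_UM d F := by
  obtain ⟨c, c0, hc⟩ := sl_lower hF
  have d0 : (2 : ℝ) ≤ d := by exact_mod_cast hd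
  obtain ⟨r, hr⟩ : ∃ r, r = Real.exp (-((3 + 18 * d) * (F.dl + F.Gp))) * (F.Gm / (2 * d)) :=
    ⟨_, rfl⟩
  have r0 : 0 < r := hr ▸ mul_pos (Real.exp_pos _) (div_pos hF.1 (by linarith))
  have m0 : 0 < min c 1 := lt_min c0 one_pos
  have hj : F.j ≤ 2 := by rcases hF.2.2.2.1 with h | h <;> omega
  refine ⟨min 1 (r * min c 1 ^ 3), lt_min one_pos (by positivity), min_le_left _ _,
    fun K φ Q Z a a' e hK hZ ha ha' hn => (min_le_right _ _).trans ?_⟩
  have hBQ : ({a, nb a e, a'} : Finset (S d)) ⊆ Q := by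
    intro z hz
    simp only [Finset.mem_insert, Finset.mem_singleton] at hz
    rcases hz with rfl | rfl | rfl <;> exact hZ (by assumption)
  have hB : ({a, nb a e, a'} : Finset (S d)).card ≤ 3 := Finset.card_le_three
  have hA : ((a, some (e, 0)) : Lt d) ∈ al K Q :=
    mem_al_some.2 ⟨hZ ha, hZ hn, by have := hK.1.1; omega⟩
  have h1 := (ex_pc_prod Q _ hBQ (fun _ => sl F.toMd K φ 0) (f := fun _ i => ind (i = 3))
    (fun _ _ => ind_nonneg _) fun _ _ => ex_summable _ (Bdd.ind _)).2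
  have h2 : min c 1 ^ 3 ≤ ∏ _x ∈ ({a, nb a e, a'} : Finset (S d)),
      ex (sl F.toMd K φ 0) fun i => ind (i = 3) := by
    rw [Finset.prod_const]
    refine (pow_le_pow_of_le_one m0.le (min_le_right _ _) hB).trans
      (pow_le_pow_left₀ m0.le ((min_le_left _ _).trans ?_) _)
    exact (hc K φ 0 3 hK (by omega) (by omega) (by omega)).trans_eq (ex_ind_eq _ _).symm
  refine (mul_le_mul_of_nonneg_left (h2.trans_eq h1.symm) r0.le).trans ?_
  rw [← ex_mul_left]
  refine ex_mono' (ex_summable _ (Bdd.pr _ _))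
    (fun η _ => mul_nonneg r0.le (Finset.prod_nonneg fun _ _ => ind_nonneg _)) fun η _ => ?_
  by_cases hη : ∀ x ∈ ({a, nb a e, a'} : Finset (S d)), η x = 3
  · rw [Finset.prod_eq_one fun x hx => ind_pos (hη x hx), mul_one, hr]
    refine (um_word hd hF hB (Finset.mem_insert_self _ _) hA).trans ?_
    rw [wls, ex_iid_succ _ 0 (Bdd.ind _)]
    simp only [iid, ex_pure]
    exact pr_mono fun w _ hw =>
      um_det (G := F.toMd) (Y := ⟨al K Q, Z⟩) hj ha ha' hn hA hη hw
  · push Not at hη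
    obtain ⟨x, hx, h⟩ := hη
    rw [Finset.prod_eq_zero hx (ind_neg h), mul_zero]
    exact pr_nonneg _ _

end Pool.Agent.Lib.MP_dd0771_pr.Sc
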