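import Pool.Agent.Lib.MP_dd0771_pr.Sc.Kit

open Filter

namespace Pool.Agent.Lib.MP_dd0771_pr.Sc

theorem v0_transl {d : ℕ} {F : Fr} (hS : S_SYM d F) (K n0 : ℕ) (C : Ty) (y : S d) :
    wX F.toMd K C.1 (bx y (2 * C.2)) (bx y C.2) {y} n0 (fun I => ind (I n0).Nonempty) =
      alv d F.toMd K C n0 := by
  have h2 := hS K C.1 0 y 1 (fun _ => true) (2 * C.2) C.2 n0 (fun I => ind (I n0).Nonempty)
    (by omega)
  simp only [Finset.image_nonempty] at h2
  exact h2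

theorem v0_one {d : ℕ} {F : Fr} (K n0 : ℕ) (C : Ty) (Y : Finset (S d)) :
    (wEv F.toMd K n0 C Y fun _ => 1) = wX F.toMd K C.1 (wQ Y C.2) (wZ Y C.2) Y n0 fun I =>
      ind (∀ y ∈ Y, ∃ x ∈ I n0, x ∈ bx y C.2) := by
  have h1 := wEv_ex (G := F.toMd) (K := K) (n0 := n0) (C := C) (Y := Y) 0 (Bdd.const (1 : ℝ))
  simpa only [ex_const, mul_one, Nat.add_zero] using h1

theorem v0_alive {d : ℕ} {F : Fr} (hL : Low d F) {K : ℕ} (n0 : ℕ) {C : Ty} (hk : KP F K C.1)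
    {Y : Finset (S d)} (hY : Apart Y C.2) :
    (wEv F.toMd K n0 C Y fun _ => 1) = alv d F.toMd K C n0 ^ Y.card := by
  obtain ⟨hne, hc, hap⟩ := hY
  have h1 : 0 < Y.card := Finset.card_pos.2 hne
  rw [v0_one]
  rcases (by omega : Y.card = 1 ∨ Y.card = 2) with h | h
  · obtain ⟨y, rfl⟩ := Finset.card_eq_one.1 h
    rw [Finset.card_singleton, pow_one, wQ_single, wZ_single, ← v0_transl hL.hSYM K n0 C y]
    refine le_antisymm (wP_mono fun I _ h => ?_) (wP_mono fun I hI h => ?_)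
    · obtain ⟨x, hx, -⟩ := h y (Finset.mem_singleton_self y)
      exact ⟨x, hx⟩
    · intro y' hy'
      obtain ⟨x, hx⟩ := h
      rw [Finset.mem_singleton.1 hy']
      exact ⟨x, hx, hI.2.1 _ hx⟩
  · obtain ⟨y1, y2, hn, rfl⟩ := Finset.card_eq_two.1 h
    have hy := hap y1 (by simp) y2 (by simp) hn
    have hp := hL.hPROD K C.1 y1 y2 C.2 n0 (fun I => ind (I n0).Nonempty)
      (fun I => ind (I n0).Nonempty) hk hy (Bdd.ind _) (Bdd.ind _)
    rw [v0_transl hL.hSYM, v0_transl hL.hSYM] at hp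
    rw [h, pow_two, ← hp]
    congr 1
    funext I
    rw [← ind_and]
    congr 1
    apply propext
    simp only [Finset.mem_insert, Finset.mem_singleton, forall_eq_or_imp, forall_eq,
      Finset.Nonempty, Finset.mem_inter]

theorem v0_wEv {d : ℕ} {G : Md} (K n0 : ℕ) (C : Ty) (Y : Finset (S d)) (w : ℝ) :
    (wEv G K n0 C Y fun σ => w * ind (∀ y ∈ Y, ∃ x ∈ σ.2, x ∈ bx y C.2)) =
      w * wEv G K n0 C Y fun _ => 1 := by
  rw [wEv_mul]
  congr 1
  unfold wEv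
  simp only [← ind_and, and_self, mul_one]

theorem v0_num {a m p e r t : ℝ} {c : ℕ} (hc1 : 1 ≤ c) (hc : c ≤ 2) (hm : 0 < m) (hp : 0 < p)
    (hma : m ≤ a) (he : 0 < e) (he1 : e ≤ 1 / 100) (hq : 1 - 2 * e ≤ m / p) (hr : r ≤ e * p ^ c)
    (ht : t ≤ e) : 1 - 6 * e ≤ (a ^ c - r) / p ^ c - t := by
  have hpc : 0 < p ^ c := pow_pos hp c
  have h1 : (1 - 2 * e) ^ c ≤ (a / p) ^ c :=
    pow_le_pow_left₀ (by linarith) (hq.trans (div_le_div_of_nonneg_right hma hp.le)) c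
  have h2 : 1 - 4 * e ≤ (1 - 2 * e) ^ c := by
    rcases (by omega : c = 1 ∨ c = 2) with h | h <;> subst h <;> nlinarith
  have h3 : r / p ^ c ≤ e := by rw [div_le_iff₀ hpc]; exact hr
  rw [sub_div, ← div_pow]
  linarith

theorem s_v0 {d : ℕ} {F : Fr} (hd : 2 ≤ d) (hF : F.Ok) (hL : Low d F)
    (hAL : S_AL d F) :
    S_V0 d F := by
  intro B hB
  have hp := thp_pos hB
  have he : 0 < B.eps := hB.2.2.2.2.2.1
  have hsm : 0 < B.eps * min 1 (min B.thp (B.thp ^ 2)) := by positivity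
  filter_upwards [hAL B hB, le_of_Lmin hF B, scales hF B, er_small hsm, eventually_ge_atTop 2]
    with n hal hLm hsc hsmall hn K hK
  intro pc M Φ te ub w C Y t hC hΦ ht hY hw hwu h
  obtain ⟨hC1, hC2, hC3, hC4, hC5⟩ := hC
  have hg := hB.2.1
  have h5 : B.p 4 ≤ B.pa + 5 * B.g := by unfold Bs.p; push_cast; linarith
  have hk : KP F K C.1 := hK.kp hF hB hC1 ((hC2.trans hC3).trans h5)
  obtain ⟨-, -, -, hDD⟩ := hLm C.2 hC4
  have hD : n ^ 2 ≤ DD F n := Nat.pow_le_pow_right (by omega) (by omega)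
  have hn0 : B.n0 ^ 2 ≤ n ^ 2 := Nat.pow_le_pow_left hsc.1 2
  have hal2 := (hal K hK C hC1 (hC2.trans hC3) (by omega)
    (hC5.trans (Nat.pow_le_pow_right (by omega) (by omega)))).2 B.n0 (by omega)
  have hV := Val.of_state (F := F) (B := B) (K := K) (n := n) (l := ls n) (M := M) (Φ := Φ)
    (C := C) (Y := Y) (t := t) hB
    (V := fun σ => w * ind (∀ y ∈ Y, ∃ x ∈ σ.2, x ∈ bx y C.2)) (e := fun _ => 0) (Vb := w)
    (vb := 0) hΦ.1
    (fun σ => ⟨mul_nonneg hw (ind_nonneg _), mul_le_of_le_one_right hw (ind_le_one _)⟩)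
    (fun _ => le_rfl) (Bdd.const 0) le_rfl
    (fun s hs hf => hwu.trans (hΦ.2.2 s (hs ▸ ht) hf))
    (fun s σ hs _ hv => by
      by_cases ha : ∀ y ∈ Y, ∃ x ∈ σ.2, x ∈ bx y C.2
      · have := h s hs fun y hy => by
          obtain ⟨x, hx, hx'⟩ := ha y hy
          exact ⟨x, hv.1 hx, hx'⟩
        simpa only [ind_pos ha, mul_one, mul_zero, sub_zero] using this
      · simpa only [ind_neg ha, mul_zero, sub_zero] using (hΦ.1 s).1)
  refine hV.mono ?_
  rw [v0_wEv, v0_alive hL B.n0 hk hY, zero_mul, sub_zero]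
  have hc1 : 1 ≤ Y.card := Finset.card_pos.2 hY.1
  have hr : er n ≤ B.eps * B.thp ^ Y.card := by
    refine hsmall.1.trans (mul_le_mul_of_nonneg_left ?_ he.le)
    rcases (by have := hY.2.1; omega : Y.card = 1 ∨ Y.card = 2) with hc | hc <;> rw [hc]
    · rw [pow_one]; exact (min_le_right _ _).trans (min_le_left _ _)
    · exact (min_le_right _ _).trans (min_le_right _ _)
  have ht' : tol (ls n) ≤ B.eps :=
    hsmall.2.2.trans (mul_le_of_le_one_right he.le (min_le_left _ _))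
  have hnum := v0_num hc1 hY.2.1 (thm_pos hB) hp hal2 he hB.2.2.2.2.2.2.1 (thm_div_thp hB) hr ht'
  calc w * (1 - 6 * B.eps)
      ≤ w * ((alv d F.toMd K C B.n0 ^ Y.card - er n) / B.thp ^ Y.card - tol (ls n)) :=
        mul_le_mul_of_nonneg_left hnum hw
    _ = _ := by ring

end Pool.Agent.Lib.MP_dd0771_pr.Sc
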