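import Pool.Agent.Lib.MP_dd0771_pr.Sc.Kit

open Filter

namespace Pool.Agent.Lib.MP_dd0771_pr.Sc

theorem wa_cmp {d : ℕ} {G : Md} (hj : 1 ≤ G.j) {Y1 Y2 : Sys d} {Bx : Finset (S d)}
    (hZ : Y1.Z ⊆ Y2.Z) (hB : Y1.Z ⊆ Bx) (hA : ∀ a : Lt d, a.1 ∈ Bx → (a ∈ Y1.A ↔ a ∈ Y2.A))
    (ws : List (Word d)) : ∀ σ τ : St d, Reg G Y1.Z σ → σ.2 ⊆ τ.2 → (∀ x ∈ Bx, σ.1 x ≤ τ.1 x) →
      (∀ u w i, ws[u]? = some w → ∀ x ∈ Bx, mw Y1.A (ms Y1.A σ.1 (ws.take u)) (w.take i) x ≤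
        mw Y2.A (ms Y2.A τ.1 (ws.take u)) (w.take i) x) →
      (acs G Y1 σ ws).2 ⊆ (acs G Y2 τ ws).2 ∧
        ∀ x ∈ Bx, (acs G Y1 σ ws).1 x ≤ (acs G Y2 τ ws).1 x := by
  induction ws with
  | nil => exact fun σ τ _ h2 h1 _ => ⟨h2, h1⟩
  | cons w ws ih =>
    intro σ τ hr h2 _ h
    refine ih (acw G Y1 σ w) (acw G Y2 τ w) (hr.acw w) ?_ ?_ ?_
    · exact acw_cmp hj w (fun x _ hx => hZ hx) hr h2 hA
        (fun i x hx => hB ((hr.acw (w.take i)) x hx).1) fun i => h 0 w i rfl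
    · intro x hx
      have := h 0 w w.length rfl x hx
      rw [List.take_length] at this
      rw [acw_fst, acw_fst]
      exact this
    · intro u w' i hu x hx
      rw [acw_fst, acw_fst]
      exact h (u + 1) w' i (by simpa using hu) x hx

theorem wa_num (d n0 : ℕ) {c C t : ℝ} (hc : 0 ≤ c) (hC : 0 ≤ C) (ht : 0 < t) :
    ∀ᶠ n : ℕ in atTop, C ^ n0 * Real.exp (-(n : ℝ) ^ 2) * (c * 2 ^ (5 * n * d) + 1) ≤
      t * Real.exp (-(n : ℝ) / 4) := by
  filter_upwards [eventually_ge_atTop (5 * d + 2),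
    tendsto_natCast_atTop_atTop.eventually_ge_atTop (C ^ n0 * (c + 1) / t)] with n h1 h2
  have h1' : (5 * d + 2 : ℝ) ≤ n := by exact_mod_cast h1
  have hd : (0 : ℝ) ≤ d := Nat.cast_nonneg d
  have h3 : (2 : ℝ) ^ (5 * n * d) ≤ Real.exp (5 * n * d) := by
    have : Real.exp (5 * n * d) = Real.exp 1 ^ (5 * n * d) := by
      rw [← Real.exp_nat_mul]; push_cast; ring_nf
    rw [this]
    exact pow_le_pow_left₀ (by norm_num) (by linarith [Real.add_one_le_exp 1]) _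
  have h4 : (1 : ℝ) ≤ Real.exp (5 * n * d) := Real.one_le_exp (by positivity)
  have h5 : c * 2 ^ (5 * n * d) + 1 ≤ (c + 1) * Real.exp (5 * n * d) := by
    nlinarith [mul_le_mul_of_nonneg_left h3 hc]
  have h6 : C ^ n0 * (c + 1) ≤ t * Real.exp n := by
    rw [div_le_iff₀ ht] at h2
    nlinarith [Real.add_one_le_exp (n : ℝ)]
  have h7 : Real.exp n * (Real.exp (-(n : ℝ) ^ 2) * Real.exp (5 * n * d)) ≤
      Real.exp (-(n : ℝ) / 4) := by
    rw [← Real.exp_add, ← Real.exp_add]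
    refine Real.exp_le_exp.2 ?_
    nlinarith
  calc C ^ n0 * Real.exp (-(n : ℝ) ^ 2) * (c * 2 ^ (5 * n * d) + 1)
      ≤ C ^ n0 * Real.exp (-(n : ℝ) ^ 2) * ((c + 1) * Real.exp (5 * n * d)) :=
        mul_le_mul_of_nonneg_left h5 (by positivity)
    _ = C ^ n0 * (c + 1) * (Real.exp (-(n : ℝ) ^ 2) * Real.exp (5 * n * d)) := by ring
    _ ≤ t * Real.exp n * (Real.exp (-(n : ℝ) ^ 2) * Real.exp (5 * n * d)) :=
        mul_le_mul_of_nonneg_right h6 (by positivity)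
    _ = t * (Real.exp n * (Real.exp (-(n : ℝ) ^ 2) * Real.exp (5 * n * d))) := by ring
    _ ≤ _ := mul_le_mul_of_nonneg_left h7 ht.le

theorem wa_mass {d : ℕ} (p : PMF (Cfg d)) (Q : Finset (S d)) {a b : ℝ} (ha : 0 ≤ a)
    (hs : Summable fun η => (p η).toReal * (mass η Q : ℝ))
    (hb : ex p (fun η => (mass η Q : ℝ)) ≤ b) :
    ex p (fun η => min 1 (a * (mass η Q + 1))) ≤ a * (b + 1) := by
  have h1 : Summable fun η => (p η).toReal * (1 : ℝ) := ex_summable p (Bdd.const 1)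
  have h2 : Summable fun η => (p η).toReal * ((mass η Q : ℝ) + 1) := by
    simpa only [mul_add] using hs.add h1
  have h3 : ex p (fun η => (mass η Q : ℝ) + 1) = ex p (fun η => (mass η Q : ℝ)) + 1 := by
    have := ex_const p (1 : ℝ)
    unfold ex at this ⊢
    simp only [mul_add]
    rw [hs.tsum_add h1, this]
  have h4 : ex p (fun η => min 1 (a * (mass η Q + 1))) ≤ ex p fun η => a * (mass η Q + 1) := by
    refine ex_mono' ?_ (fun η _ => le_min zero_le_one (by positivity)) fun η _ => min_le_right _ _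
    simpa only [mul_left_comm] using h2.mul_left a
  rw [ex_mul_left, h3] at h4
  exact h4.trans (mul_le_mul_of_nonneg_left (by linarith) ha)

/-- The launch at time `n0` realised by a coupling of the initial configurations. -/
theorem wa_val {d : ℕ} {F : Fr} {B : Bs} (hF : F.Ok) (hB : B.Ok F) {K n l : ℕ} {M : Amb d}
    {Φ : Nd d → ℝ} {C : Ty} {Y : Finset (S d)} {v : ℝ} (hY : Y.card = 1) (hl : 1 ≤ l)
    (hΦ : ∀ s, 0 ≤ Φ s ∧ Φ s ≤ 1) (hQ : wQ Y C.2 ⊆ M.Q) (hv : 0 ≤ v) (r : PMF (Cfg d × Cfg d))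
    (h1 : r.map Prod.fst = mu F.toMd K C.1 (wQ Y C.2))
    (hlo : B.thm ≤ wEv F.toMd K B.n0 C Y fun _ => 1)
    (hhi : (wEv F.toMd K B.n0 C Y fun _ => 1) ≤ B.thp)
    (hbad : (ex r fun q => pr (wls F.toMd (al K M.Q) B.n0) fun ws => ¬ Vld (DD F n)
      (acs F.toMd ⟨al K (wQ Y C.2), wZ Y C.2⟩ (ini F.toMd (wZ Y C.2) Y q.1) ws)
      (M.st F.toMd K (q.2, ws))) ≤ B.thm * tol l)
    (hV : Val F B K n l M Φ C Y B.n0 v) :
    B.thm * v ≤ ex (r.map Prod.snd) fun η =>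
      ex (wls F.toMd (al K M.Q) B.n0) fun ws => Φ (η, ws) := by
  classical
  set p : PMF ((Cfg d × Cfg d) × List (Word d)) :=
    r.bind fun q => (wls F.toMd (al K M.Q) B.n0).map fun ws => (q, ws) with hp
  set σ : (Cfg d × Cfg d) × List (Word d) → St d := fun x =>
    acs F.toMd ⟨al K (wQ Y C.2), wZ Y C.2⟩ (ini F.toMd (wZ Y C.2) Y x.1.1) x.2 with hσ
  set E : (Cfg d × Cfg d) × List (Word d) → Prop := fun x =>
    ∀ y ∈ Y, ∃ z ∈ (σ x).2, z ∈ bx y C.2 with hE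
  have hex : ∀ g : (Cfg d × Cfg d) × List (Word d) → ℝ, Bdd g →
      ex p g = ex r fun q => ex (wls F.toMd (al K M.Q) B.n0) fun ws => g (q, ws) := by
    intro g hg
    rw [hp, ex_bind _ _ hg]
    exact congrArg _ (funext fun q => ex_map _ _ hg)
  have hw : ∀ f : St d → ℝ, Bdd f →
      ex p (fun x => ind (E x) * f (σ x)) = wEv F.toMd K B.n0 C Y f := by
    intro f hf
    have hb : Bdd fun τ : St d => ind (∀ y ∈ Y, ∃ z ∈ τ.2, z ∈ bx y C.2) * f τ :=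
      (Bdd.ind _).mul hf
    rw [hex _ (hb.comp σ), wEv, ← h1, ex_map _ _ (Bdd.ex (hb.comp fun x : Cfg d × List (Word d) =>
      acs F.toMd ⟨al K (wQ Y C.2), wZ Y C.2⟩ (ini F.toMd (wZ Y C.2) Y x.1) x.2) _)]
    refine congrArg _ (funext fun q => ?_)
    refine ex_wls_flt hF (al_mono K hQ) _ (hb.comp _) fun ws => ?_
    simp only [hσ]
    rw [acs_flt (Y := ⟨al K (wQ Y C.2), wZ Y C.2⟩) (Finset.Subset.refl _)]
  have hpE : pr p E = wEv F.toMd K B.n0 C Y fun _ => 1 := by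
    rw [← hw _ (Bdd.const 1)]
    simp only [mul_one]
    rfl
  have hm := thm_pos hB
  have hpos : 0 < pr p E := by rw [hpE]; linarith
  obtain ⟨q, hq1, hq2⟩ := exists_cond p E hpos
  set π : (Cfg d × Cfg d) × List (Word d) → Nd d × St d × Bool := fun x =>
    ((x.1.2, x.2), σ x, decide (Vld (DD F n) (σ x) (M.st F.toMd K (x.1.2, x.2)))) with hπ
  have hΦb : Bdd Φ := Bdd.of01 hΦ
  have key := hV (q.map π) ?_ ?_ ?_ ?_ ?_
  · have hb : Bdd fun x : Nd d × St d × Bool => if x.2.2 then Φ x.1 else 0 :=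
      Bdd.of01 fun x => by
        split_ifs
        · exact hΦ _
        · exact ⟨le_rfl, zero_le_one⟩
    rw [ex_map _ _ hb] at key
    have h2 := hq2 _ (hb.comp π)
    have h3 : (ex p fun x => ind (E x) * if (π x).2.2 then Φ (π x).1 else 0) ≤
        ex p fun x => Φ (x.1.2, x.2) := by
      refine ex_mono ((Bdd.ind _).mul (hb.comp π)) (hΦb.comp _) fun x _ => ?_
      have h4 := hΦ (x.1.2, x.2)
      have h5 := ind_le_one (E x)
      have h6 := ind_nonneg (E x)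
      split_ifs
      · exact mul_le_of_le_one_left h4.1 h5
      · rw [mul_zero]; exact h4.1
    rw [hex _ (hΦb.comp _)] at h3
    rw [ex_map _ _ (Bdd.ex (f := fun η ws => Φ (η, ws)) hΦb _)]
    calc B.thm * v ≤ pr p E * v := mul_le_mul_of_nonneg_right (by rw [hpE]; exact hlo) hv
      _ ≤ pr p E * _ := mul_le_mul_of_nonneg_left key hpos.le
      _ = _ := by rw [mul_comm]; exact h2
      _ ≤ _ := h3
  · intro x hx
    obtain ⟨a, ha, rfl⟩ := (PMF.mem_support_map_iff _ _ _).1 hx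
    obtain ⟨b, -, hb⟩ := (PMF.mem_support_bind_iff _ _ _).1 (hq1 a ha).1
    obtain ⟨ws, hws, rfl⟩ := (PMF.mem_support_map_iff _ _ _).1 hb
    exact (wls_mem hF hws).1
  · intro h
    have : 1 ≤ s2 F l := Nat.one_le_pow _ _ hl
    simp only [sq] at h
    omega
  · intro f hf
    have hb : Bdd f := Bdd.of01 hf
    rw [ex_map _ _ (hb.comp fun x : Nd d × St d × Bool => x.2.1), hY, pow_one,
      div_le_iff₀ (thp_pos hB)]
    have h2 := hq2 _ (hb.comp σ)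
    rw [hw f hb] at h2
    have h3 : 0 ≤ ex q fun x => f (σ x) := ex_nonneg fun x _ => (hf _).1
    have h4 := mul_le_mul_of_nonneg_left (hpE.le.trans hhi) h3
    have h5 := (er_le_e2 n).1
    show _ ≤ (ex q fun x => f (σ x)) * B.thp
    linarith
  · intro x hx h
    obtain ⟨a, -, rfl⟩ := (PMF.mem_support_map_iff _ _ _).1 hx
    exact Or.inl (of_decide_eq_true h)
  · rw [pr_map]
    have h2 := hq2 _ (Bdd.ind fun x => (π x).2.2 = false)
    have h3 : (ex p fun x => ind (E x) * ind ((π x).2.2 = false)) ≤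
        ex p fun x => ind (¬ Vld (DD F n) (σ x) (M.st F.toMd K (x.1.2, x.2))) := by
      refine ex_mono ((Bdd.ind _).mul (Bdd.ind _)) (Bdd.ind _) fun x _ => ?_
      rw [← ind_and]
      exact ind_mono fun h => of_decide_eq_false h.2
    rw [hex _ (Bdd.ind _)] at h3
    have h4 : pr q (fun x => (π x).2.2 = false) * B.thm ≤
        pr q (fun x => (π x).2.2 = false) * pr p E :=
      mul_le_mul_of_nonneg_left (by rw [hpE]; exact hlo) (pr_nonneg _ _)
    have h5 : pr q (fun x => (π x).2.2 = false) * B.thm ≤ tol l * B.thm := by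
      rw [mul_comm (tol l)]
      exact h4.trans (h2.le.trans (h3.trans hbad))
    exact le_of_mul_le_mul_right h5 hm

theorem wa_alv {d : ℕ} {F : Fr} (hS : S_SYM d F) (K n0 : ℕ) (C : Ty) (y : S d) :
    (wEv F.toMd K n0 C {y} fun _ => 1) = alv d F.toMd K C n0 := by
  have h1 := wEv_ex (G := F.toMd) (K := K) (n0 := n0) (C := C) (Y := {y}) 0 (Bdd.const (1 : ℝ))
  simp only [ex_const, mul_one, Nat.add_zero, wQ_single, wZ_single] at h1
  have h2 := hS K C.1 0 y 1 (fun _ => true) (2 * C.2) C.2 n0 (fun I => ind (I n0).Nonempty)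
    (by omega)
  simp only [Finset.image_nonempty] at h2
  rw [h1]
  refine Eq.trans (le_antisymm (wP_mono fun I _ h => ?_) (wP_mono fun I hI h => ?_)) h2
  · obtain ⟨x, hx, -⟩ := h y (Finset.mem_singleton_self y)
    exact ⟨x, hx⟩
  · intro y' hy'
    obtain ⟨x, hx⟩ := h
    rw [Finset.mem_singleton.1 hy']
    exact ⟨x, hx, hI.2.1 _ hx⟩

theorem s_wa {d : ℕ} {F : Fr} (hd : 2 ≤ d) (hF : F.Ok) (hL : Low d F)
    (hAL : S_AL d F) :
    S_WA d F := by
  obtain ⟨Ce, hCe, hEA⟩ := hL.hEARLY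
  obtain ⟨Cm, hCm, hmean⟩ := sl_mean hF
  intro B hB
  filter_upwards [hAL B hB, hL.hEN0 B hB, scales hF B, le_of_Lmin hF B, ls_le,
    wa_num d B.n0 (c := Cm) (C := Ce) (by linarith) (by linarith) (thm_pos hB),
    eventually_ge_atTop 1] with n hal hen hsc hLm hls hnum hn K hK
  intro pc φ Q Q' Z y t1 te P h1 h2 h3 hQ hZ hcard hte hte'
  have hj : 1 ≤ F.j := by rcases hF.2.2.2.1 with h | h <;> omega
  set M := samb F B K n pc Q Q' Z y 0 with hM
  have hok : M.Ok F B K n pc := samb_ok F B K n pc hQ hZ y 0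
  set f : Nd d → ℝ := fun s =>
    ind (M.fl s ∨ ∃ u, t1 ≤ u ∧ u ≤ tm s ∧ P (M.st F.toMd K (cut u s)).2) with hf
  have hf01 : ∀ s, 0 ≤ f s ∧ f s ≤ 1 := fun s => ⟨ind_nonneg _, ind_le_one _⟩
  have hmart : Mart F.toMd K M (cl F.toMd K M f te) te 1 :=
    mart_cl hf01 hok.2.2.1 fun s _ h => (ind_pos (Or.inl h)).ge
  refine ⟨M, cl F.toMd K M f te, hok, rfl, rfl, rfl, hmart, fun s hs1 hs2 hP => ?_,
    fun C v hC hA hv hV => ?_⟩
  · rw [cl_of_ge f hs2]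
    refine le_ex ((Bdd.of01 hf01).comp _) fun ws _ => (ind_pos (Or.inr ⟨tm s, hs1, ?_, ?_⟩)).ge
    · rw [tm_nx]; omega
    · rw [cut_nx_le le_rfl, cut_self le_rfl]; exact hP
  obtain ⟨hC1, hC2, hC3, hC4, hC5⟩ := hC
  obtain ⟨-, hA1, hA2⟩ := hA
  obtain ⟨-, hX, hsq, hDD⟩ := hLm C.2 hC4
  obtain ⟨-, -, -, -, hsb, hsqR, -⟩ := hsc
  have hg : 0 < B.g := hB.2.1
  have kp1 : KP F K C.1 := ⟨hK.1, hB.1.trans hC1, by linarith⟩
  have kp2 : KP F K φ := ⟨hK.1, by linarith [hB.1], h3⟩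
  have hV1 : 1 ≤ VV n := Nat.one_le_pow _ _ hn
  have hRX : RR F B n ≤ VV n * RR F B n := Nat.le_mul_of_pos_left _ hV1
  have hn0 : 64 * B.n0 ≤ Nat.sqrt C.2 := by simp only [sq] at hsqR; omega
  have hT2 : 4 * B.n0 ^ 2 ≤ C.2 := by
    have e1 : (64 * B.n0) * (64 * B.n0) ≤ C.2 := (Nat.mul_le_mul hn0 hn0).trans (Nat.sqrt_le C.2)
    have e2 : (64 * B.n0) * (64 * B.n0) = 4096 * B.n0 ^ 2 := by ring
    omega
  have hpow4 : 2 ^ n ≤ 2 ^ (4 * n) := Nat.pow_le_pow_right (by norm_num) (by omega)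
  obtain ⟨hal1, hal2⟩ := hal K hK C hC1 (hC2.trans hC3) (by omega) (by omega)
  have hD : n ^ 2 ≤ DD F n := Nat.pow_le_pow_right hn (by omega)
  have hD1 : 1 ≤ DD F n := Nat.one_le_pow _ _ hn
  have hwQ : wQ {y} C.2 ⊆ Q := hA1.trans hQ
  obtain ⟨r, hr1, hr2, hr3⟩ := pc_couple (wQ {y} C.2) Q (fun _ => sl F.toMd K C.1 0)
    (fun _ => sl F.toMd K φ 0) fun _ _ _ k => sl_dom hF kp1 kp2 (by linarith) le_rfl (by omega) k
  have hbx : bx y (2 * C.2 - 1 + 1) ⊆ wQ {y} C.2 := by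
    rw [wQ_single]; exact bx_mono y (by omega)
  have hbx' : bx y (2 * C.2 - 1) ⊆ wQ {y} C.2 := (bx_mono y (by omega)).trans hbx
  have hbi : bx y (C.2 + DD F n) ⊆ bx y (2 * C.2 - 1) := bx_mono y (by omega)
  set a : ℝ := Ce ^ B.n0 * Real.exp (-(n : ℝ) ^ 2) with ha
  have ha0 : 0 ≤ a := by positivity
  have hbad : (ex r fun q => pr (wls F.toMd (al K M.Q) B.n0) fun ws => ¬ Vld (DD F n)
      (acs F.toMd ⟨al K (wQ {y} C.2), wZ {y} C.2⟩ (ini F.toMd (wZ {y} C.2) {y} q.1) ws)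
      (M.st F.toMd K (q.2, ws))) ≤ B.thm * tol (ls n) := by
    have hb : Bdd fun η : Cfg d => min 1 (a * (mass η (wQ {y} C.2) + 1)) :=
      Bdd.of01 fun η => ⟨le_min zero_le_one (by positivity), min_le_left _ _⟩
    obtain ⟨hs, hm⟩ := ex_pc_mass (wQ {y} C.2) (wQ {y} C.2) (fun _ => sl F.toMd K C.1 0)
      (c := Cm) (by linarith) fun _ _ => hmean K C.1 0 kp1 (by omega)
    have e1 := wa_mass _ _ ha0 hs hm
    rw [← hr1, ex_map _ _ hb] at e1
    have e2 : ((wQ {y} C.2).card : ℝ) ≤ 2 ^ (5 * n * d) := by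
      exact_mod_cast (Finset.card_le_card hA1).trans hcard
    have e3 : Real.exp (-(n : ℝ) / 4) ≤ tol (ls n) := by
      have : ((ls n : ℕ) : ℝ) ≤ n := by exact_mod_cast hls.2
      exact Real.exp_le_exp.2 (by linarith)
    have e4 : a * (Cm * (wQ {y} C.2).card + 1) ≤ B.thm * tol (ls n) :=
      (mul_le_mul_of_nonneg_left (by nlinarith) ha0).trans
        (hnum.trans (mul_le_mul_of_nonneg_left e3 (thm_pos hB).le))
    refine le_trans (ex_mono (Bdd.pr _ _) (hb.comp Prod.fst) fun q hq => ?_) (e1.trans e4)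
    have hle : ∀ x ∈ wQ {y} C.2, q.1 x ≤ q.2 x := fun x hx => hr3 q hq x hx (hwQ hx)
    have e5 := hEA (al K Q) (al K (wQ {y} C.2)) (al K Q) (wQ {y} C.2) y (2 * C.2 - 1)
      (C.2 + DD F n) B.n0 q.1 q.2 (al_mono K hwQ) (Finset.Subset.refl _) (closed_al K _) hbx'
      (fun x hx k => al_agree K hbx (hbx.trans hwQ) _ hx) (by omega) fun x hx => hle x (hbx' hx)
    refine le_min (pr_le_one _ _) (le_trans (pr_mono fun ws _ h => ?_) (e5.trans ?_))
    · by_contra hc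
      push Not at hc
      have e6 := wa_cmp (G := F.toMd) hj (Y1 := ⟨al K (wQ {y} C.2), wZ {y} C.2⟩)
        (Y2 := ⟨al K Q, Z⟩) (Bx := bx y (C.2 + DD F n)) hA2
        (by rw [wZ_single]; exact bx_mono y (by omega))
        (fun a ha => al_agree K hbx (hbx.trans hwQ) a (hbi ha)) ws
        (ini F.toMd (wZ {y} C.2) {y} q.1) (ini F.toMd Z {y} q.2) (reg_ini _ _ _) ?_
        (fun x hx => hle x (hbx' (hbi hx))) hc
      · refine h ⟨e6.1, fun x hx x' hx' => e6.2 x' (bx_subset ?_ hx')⟩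
        have e7 := ((reg_ini (G := F.toMd) (wZ {y} C.2) {y} q.1).acs
          (Y := ⟨al K (wQ {y} C.2), wZ {y} C.2⟩) ws x hx).1
        rw [wZ_single, mem_bx] at e7
        omega
      · intro x hx
        simp only [ini, Finset.mem_filter, Finset.mem_inter] at hx ⊢
        exact ⟨⟨hx.1.1, hA2 hx.1.2⟩, hx.2.trans (hle x (wZ_subset_wQ _ _ hx.1.2))⟩
    · have e6 : (n : ℝ) ^ 2 + ((C.2 + DD F n : ℕ) : ℝ) ≤ ((2 * C.2 - 1 : ℕ) : ℝ) := by
        exact_mod_cast (show n ^ 2 + (C.2 + DD F n) ≤ 2 * C.2 - 1 by omega)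
      have e7 : Real.exp (-(((2 * C.2 - 1 : ℕ) : ℝ) - ((C.2 + DD F n : ℕ) : ℝ))) ≤
          Real.exp (-(n : ℝ) ^ 2) := Real.exp_le_exp.2 (by linarith)
      calc _ ≤ ((mass q.1 (wQ {y} C.2) : ℝ) + 1) * Ce ^ B.n0 * Real.exp (-(n : ℝ) ^ 2) :=
            mul_le_mul_of_nonneg_left e7 (by positivity)
        _ = _ := by rw [ha]; ring
  have key := wa_val hF hB (Finset.card_singleton y) (by omega) hmart.1 hwQ hv r hr1
    (by rw [wa_alv hL.hSYM]; exact hal2 _ hT2) (by rw [wa_alv hL.hSYM]; exact hal1) hbad hV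
  rw [hr2] at key
  have hen' := hen K hK pc φ Q Q' 0 te te h1 h2 h3 hQ hcard (by omega)
  have hfin : (ex (mu F.toMd K φ Q) fun η => ex (wls F.toMd (al K M.Q) B.n0) fun ws =>
      cl F.toMd K M f te (η, ws)) ≤
      (ex (mu F.toMd K φ Q) fun η => pr (wls F.toMd (al K Q) te) fun ws => ∃ u, 0 ≤ u ∧ u ≤ te ∧
        Sparse (n ^ 2) (hh F B K pc) Q' (ms (al K Q) η (ws.take u))) +
      wP F.toMd K φ Q Z {y} te fun I => ∃ u, t1 ≤ u ∧ u ≤ te ∧ P (I u) := by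
    have hb2 : Bdd fun η => pr (wls F.toMd (al K Q) te) fun ws => ∃ u, t1 ≤ u ∧ u ≤ te ∧
        P (tj F.toMd ⟨al K Q, Z⟩ (ini F.toMd Z {y} η) ws u) := Bdd.pr _ _
    refine le_trans (ex_mono (Bdd.ex (f := fun η ws => cl F.toMd K M f te (η, ws))
      (Bdd.of01 hmart.1) _) ((Bdd.pr _ _).add hb2) fun η _ => ?_)
      (ex_add _ (Bdd.pr _ _) hb2).le
    have e1 := hmart.ex (η, []) (T := B.n0) (by simpa [tm] using hte)
    have e2 := cl_of_ge (G := F.toMd) (K := K) (M := M) f (s := (η, [])) (te := te)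
      (Nat.zero_le _)
    refine le_trans (e1.symm.trans e2).le (pr_le_add fun ws hws h => ?_)
    have hlen : tm (nx ((η, []) : Nd d) ws) = te := (wls_mem hF hws).1
    rw [hlen] at h
    rcases h with ⟨u, hu0, hu, h⟩ | h
    · rw [hlen] at hu
      exact Or.inl ⟨u, hu0, hu, h⟩
    · exact Or.inr h
  have := key.trans hfin
  linarith

end Pool.Agent.Lib.MP_dd0771_pr.Sc
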