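import Pool.Agent.Lib.MP_dd0771_pr.Sc.Kit
import Pool.Agent.Lib.MP_dd0771_pr.Sc.WbA

open Filter

namespace Pool.Agent.Lib.MP_dd0771_pr.Sc

/-- The induction over the checkpoints, state by state. -/
theorem wb_ind {d : ℕ} {F : Fr} (hF : F.Ok) {B : Bs} {K n : ℕ} {pc : ℝ} {M : Amb d}
    {Φ : Nd d → ℝ} {te t U T Mn D : ℕ} {ub wb u : ℝ} {Y : Sys d} {E : Tj d → Prop}
    {Qd : Finset (S d)} {a1 a2 : Cfg d → ℝ} {c : ℝ} (hM : M.Ok F B K n pc)
    (hΦ : Mart F.toMd K M Φ te ub) (hu0 : M.u0 ≤ t) (hte : t + Mn * U ≤ te) (h0 : 0 ≤ wb)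
    (hub : wb ≤ ub) (hu : 0 ≤ u) (hT : T ≤ U) (hs : s1 F n ≤ U) (hA : Y.A ⊆ al K M.Q)
    (hQ : Qd ⊆ M.Q') (hE : ∀ I J : Tj d, (∀ v, v ≤ T → I v = J v) → E I → E J)
    (ha : ∀ η, 0 ≤ a1 η + a2 η ∧ a1 η + a2 η ≤ c)
    (h1 : ∀ Ψ s σ, t ≤ tm s → tm s + U ≤ t + Mn * U → Mart F.toMd K M Ψ (tm s + U) (ub - wb) →
      (∀ s', tm s' ≤ tm s + U → Φ s' - wb ≤ Ψ s') → Reg F.toMd Y.Z σ →
      Vld D σ (M.st F.toMd K s) →
      wb * (u * pr (wls F.toMd Y.A T) (fun ws => E (tj F.toMd Y σ ws)) - a1 σ.1) ≤ Ψ s)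
    (h2 : 0 < Mn → ∀ σ τ : St d, Reg F.toMd Y.Z σ → Vld D σ τ →
      pr (wls F.toMd (al K M.Q) U) (fun ws => ∃ v, v ≤ U ∧
        (¬ tj F.toMd Y σ ws v ⊆ tj F.toMd (M.sy K) τ ws v ∨
          (s1 F n ≤ v ∧ ¬ Vld D (acs F.toMd Y σ (ws.take v))
            (acs F.toMd (M.sy K) τ (ws.take v)))) ∧
        ∀ v', v' ≤ v → ¬ Sparse (n ^ 2) (hh F B K pc) Qd (ms (al K M.Q) τ.1 (ws.take v'))) ≤
        a2 σ.1) :
    ∀ k, k ≤ Mn → ∀ s σ, tm s + k * U = t + Mn * U → Reg F.toMd Y.Z σ →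
      Vld D σ (M.st F.toMd K s) →
      wb * (wbV F.toMd Y E U u k σ - wbE F.toMd Y.A (fun η => a1 η + a2 η) U k σ.1) ≤ Φ s := by
  intro k
  induction k with
  | zero =>
    intro _ s σ _ _ _
    have h3 := (wbV_bd F.toMd Y E U hu 0 σ).2
    simp only [Nat.cast_zero, mul_zero, zero_le_one, min_eq_right] at h3
    simp only [wbE, sub_zero]
    exact (mul_nonpos_of_nonneg_of_nonpos h0 h3).trans (hΦ.1 s).1
  | succ k ih =>
    intro hk s σ hs' hR hV
    have hkU : (k + 1) * U ≤ Mn * U := Nat.mul_le_mul_right _ hk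
    have e0 : (k + 1) * U = k * U + U := Nat.succ_mul _ _
    obtain ⟨Φ', Ψ, m1, m2, m3, m4⟩ := wb_split hΦ hM.2.2.1 (t1 := tm s + U) (by omega) h0 hub
    have g1 := h1 Ψ s σ (by omega) (by omega) m2 (fun s' h => (m3 s' h).2) hR hV
    have g2 := h2 (by omega) σ _ hR hV
    set Bad : List (Word d) → Prop := fun ws => ∃ v, v ≤ U ∧
        (¬ tj F.toMd Y σ ws v ⊆ tj F.toMd (M.sy K) (M.st F.toMd K s) ws v ∨
          (s1 F n ≤ v ∧ ¬ Vld D (acs F.toMd Y σ (ws.take v))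
            (acs F.toMd (M.sy K) (M.st F.toMd K s) (ws.take v)))) ∧
        ∀ v', v' ≤ v → ¬ Sparse (n ^ 2) (hh F B K pc) Qd
          (ms (al K M.Q) (M.st F.toMd K s).1 (ws.take v')) with hBad
    have bV : Bdd fun ws : List (Word d) => wbV F.toMd Y E U u k (acs F.toMd Y σ ws) :=
      .of01 fun _ => wbV_01 _ _ _ _ hu _ _
    have bE : Bdd fun ws : List (Word d) =>
        wbE F.toMd Y.A (fun η => a1 η + a2 η) U k (ms Y.A σ.1 ws) :=
      wb_bdd fun _ => wbE_bd _ _ ha _ _ _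
    have g3 : (ex (wls F.toMd (al K M.Q) U) fun ws => wb *
        (wbV F.toMd Y E U u k (acs F.toMd Y σ ws) -
          wbE F.toMd Y.A (fun η => a1 η + a2 η) U k (ms Y.A σ.1 ws) - ind (Bad ws))) ≤ Φ' s := by
      rw [m1.ex s (T := U) (by omega)]
      refine ex_mono ((Bdd.const _).mul ((bV.sub bE).sub (.ind _))) (.of01 fun _ => m1.1 _)
        fun ws hws => ?_
      have hl : ws.length = U := (wls_mem hF hws).1
      have htm : tm (nx s ws) = tm s + U := by rw [tm_nx, hl]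
      have v1 := (wbV_01 F.toMd Y E U hu k (acs F.toMd Y σ ws)).2
      have v2 := (wbE_bd F.toMd Y.A ha U k (ms Y.A σ.1 ws)).1
      by_cases hb : Bad ws
      · rw [ind_pos hb]
        exact (mul_nonpos_of_nonneg_of_nonpos h0 (by linarith)).trans (m1.1 _).1
      rw [ind_neg hb, sub_zero]
      have v3 := mul_le_of_le_one_right h0 (show wbV F.toMd Y E U u k (acs F.toMd Y σ ws) -
        wbE F.toMd Y.A (fun η => a1 η + a2 η) U k (ms Y.A σ.1 ws) ≤ 1 by linarith)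
      refine le_trans (le_min v3 ?_) (m4 _ htm.ge)
      by_cases hf : M.fl (nx s ws)
      · exact v3.trans (hub.trans (hΦ.2.2 _ (by omega) hf))
      have htk : ws.take U = ws := List.take_of_length_le hl.le
      have hV' : Vld D (acs F.toMd Y σ ws) (M.st F.toMd K (nx s ws)) := by
        by_contra hc
        refine hb ⟨U, le_rfl, Or.inr ⟨hs, by rwa [htk, ← st_nx]⟩, fun v' hv' hsp => ?_⟩
        refine hM.2.2.2 _ hf (tm s + v') (by omega) (by omega) ?_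
        rw [cut_nx_add, st_nx, acs_fst]
        obtain ⟨x, hx, hx'⟩ := hsp
        exact ⟨x, hx.trans hQ, hx'⟩
      have v4 := ih (by omega) (nx s ws) _ (by omega) (hR.acs ws) hV'
      rwa [acs_fst] at v4
    rw [ex_mul_left, ex_sub _ (bV.sub bE) (.ind _), ex_sub _ bV bE,
      ex_wls_flt hF hA U bV fun ws => by rw [acs_flt Y subset_rfl],
      ex_wls_flt hF hA U bE fun ws => by rw [ms_flt subset_rfl]] at g3
    have g4 := wbV_succ F.toMd Y hT hE hu k σ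
    have g5 : (ex (wls F.toMd (al K M.Q) U) fun ws => ind (Bad ws)) ≤ a2 σ.1 := g2
    rw [(m3 s (by omega)).1]
    refine le_trans ?_ (add_le_add g3 g1)
    rw [← mul_add]
    refine mul_le_mul_of_nonneg_left ?_ h0
    simp only [wbE]
    linarith

theorem s_wb {d : ℕ} {F : Fr} (hd : 2 ≤ d) (hF : F.Ok) (hL : Low d F)
    (hENGW : S_ENGW d F) (hLIVE : S_LIVE d F) :
    S_WB d F := by
  intro B hB
  filter_upwards [hENGW B hB, hLIVE B hB, hL.hTRACK, hL.hWERR B hB, scales hF B, le_of_Lmin hF B,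
    ls_le, card_le (d := d) (by omega), wb_num (thp_pos hB)] with n hE hI hT hW hS hLm hls hcd hnum
    K hK pc M Gl Φ te ub w u C y O Mn U t ty hC hM hG hΦ hu0 hU hte hMU hA hO hw hwu hu hu1 hGl hc
  obtain ⟨-, -, -, -, hsb, -, hs1, -⟩ := hS
  have hD : 8 * DD F n ≤ C.2 := by have := (hLm _ hC.2.2.2.1).2.2.2; omega
  have hp4 : B.p 4 = B.pa + 4 * B.g := by simp [Bs.p]
  have hpa : B.pa ≤ pc := hC.1.trans hC.2.1
  have hg := hB.2.1
  have hkp : KP F K C.1 := hK.kp hF hB hC.1 (by linarith [hC.2.1, hC.2.2.1])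
  have her := (er_le_e2 n).1
  set m := mm F n + 1 with hm
  set T := m * sb F B n (ls n) with hTd
  have hTU : T + sb F B n (ls n) ≤ U := by
    refine le_trans (le_of_eq ?_) hU
    rw [hTd, hm, RR]; ring
  have hmT : m ≤ T := Nat.le_mul_of_pos_right _ hsb
  have h2n : 2 ^ n ≤ 2 ^ (n + 1) := Nat.pow_le_pow_right two_pos (Nat.le_succ n)
  have hU2 : 0 < Mn → U ≤ 2 ^ n := fun h => (Nat.le_mul_of_pos_left _ h).trans hMU
  set Y : Sys d := ⟨al K (wQ {y} C.2), wZ {y} C.2⟩ with hY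
  set we : ℕ → Cfg d → ℝ := werr F.toMd K n (hh F B K pc) Y (wQ {y} C.2) (wQ {y} C.2) with hwe
  have bw : ∀ T η, 0 ≤ we T η ∧ we T η ≤ 1 := fun _ _ => wb_werr _ _ _ _ _ _ _ _ _
  have hme : (0 : ℝ) ≤ (m + 1) * er n := by positivity
  have ha : ∀ η, 0 ≤ (we T η + (m + 1) * er n) + we U η ∧
      (we T η + (m + 1) * er n) + we U η ≤ 2 + (m + 1) * er n := fun η => by
    constructor <;> linarith [(bw T η).1, (bw T η).2, (bw U η).1, (bw U η).2]
  have hQ : wQ {y} C.2 ⊆ M.Q := hA.2.1.trans hM.1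
  have key := wb_ind hF (D := DD F n) (wb := w / 2) (Y := Y) (T := T)
    (E := CE F B n (wZ {y} C.2) O m fun _ => True) (a1 := fun η => we T η + (m + 1) * er n)
    (a2 := we U) hM hΦ hu0 hte (by linarith) (by linarith) hu (by omega) (hs1.trans hU)
    (al_mono K hQ) hA.2.1 (fun I J h => wb_CE h) ha
    (fun Ψ s σ a b mΨ hlow hR hV => by
      have hMn : 0 < Mn := by
        rcases Nat.eq_zero_or_pos Mn with h | h
        · rw [h] at b; omega
        · exact h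
      have := hU2 hMn
      have gΨ := hG.2 Φ Ψ w (w / 2) (tm s) (tm s + U) hΦ.1 mΨ.1 (by linarith) hlow
        (hG.1 _ _ _ _ _ _ a b hGl)
      rw [show w - w / 2 = w / 2 by ring] at gΨ
      have cΨ := hc Ψ (ub - w / 2) (w / 2) (tm s) a mΨ (by linarith) (by linarith) gΨ
      rw [← wZ_single] at cΨ
      have huw : 0 ≤ u * (w / 2) := by positivity
      have huw' : u * (w / 2) ≤ w / 2 := mul_le_of_le_one_left (by linarith) hu1
      have r1 := hE K hK (ls n) pc M Ψ _ _ (u * (w / 2)) C {y} O m s σ ty id _ le_rfl hls.2 hC hM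
        mΨ (by omega) (by omega) (by omega) hA hO (by linarith) (fun _ => ⟨huw, le_rfl⟩) cΨ hR hV
      have r2 := hI K hK pc (wMc K C {y} O) σ m (fun _ => True) hpa hC.2.2.1
        (by simp [wMc]) hD hC.2.2.2.2 subset_rfl ⟨_, rfl⟩ hO (by omega)
      rw [wb_rv] at r1
      have r3 := mul_le_mul_of_nonneg_left r2 huw
      have r4 := mul_le_mul_of_nonneg_right huw'
        (show 0 ≤ we T σ.1 + (m + 1) * er n by linarith [(bw T σ.1).1])
      change u * (w / 2) * (pr (wls F.toMd Y.A T) (fun ws =>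
        CE F B n (wZ {y} C.2) O m (fun _ => True) (tj F.toMd Y σ ws)) - er n) ≤ _ at r3
      change _ - u * (w / 2) * (we T σ.1 + m * er n) ≤ _ at r1
      linarith)
    (fun hMn σ τ hR hV => hT K M.Q (wQ {y} C.2) M.Q (wZ {y} C.2) M.Z {y} C.2 U (hh F B K pc) σ τ
      hQ subset_rfl subset_rfl hQ subset_rfl hA.2.2 (by simp) hD hC.2.2.2.2
      ((hU2 hMn).trans h2n) hR hV) Mn le_rfl
  have hst := (hL.hSTAT K C.1 (wQ {y} C.2) hkp).2.1
  have bE := wbE_bd F.toMd Y.A ha U Mn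
  have hmin := wb_min hu (Nat.cast_nonneg (α := ℝ) Mn)
  have hw2 : 0 ≤ w / 2 := by linarith
  have hEx : wEv F.toMd K B.n0 C {y} (fun σ => wbE F.toMd Y.A
      (fun η => (we T η + (m + 1) * er n) + we U η) U Mn σ.1) ≤ 3 * 2 ^ n * er n := by
    refine (wb_wEv_le (hst _) bE).trans ?_
    rw [wbE_ex (hst U) ha]
    rcases Nat.eq_zero_or_pos Mn with h | h
    · rw [h, Nat.cast_zero, zero_mul]; positivity
    have hcard := wb_card (Y := {y}) (by simp) hC.2.2.2.2 hcd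
    have hx : ∀ T', T' ≤ U → ex (mu F.toMd K C.1 (wQ {y} C.2)) (we T') ≤ er n := fun T' h' =>
      hW K hK pc C.1 _ _ _ T' hpa hC.2.2.1 hkp.2.1 (by linarith [hC.2.1]) (wZ_subset_wQ _ _)
        subset_rfl hcard (h'.trans ((hU2 h).trans h2n))
    rw [ex_add _ ((Bdd.of01 (bw T)).add (.const _)) (.of01 (bw U)),
      ex_add _ (.of01 (bw T)) (.const _), ex_const]
    have h1 : (Mn : ℝ) * (m + 3) ≤ 3 * 2 ^ n := by
      have h2 : Mn * (m + 3) ≤ Mn * (3 * U) := Nat.mul_le_mul_left _ (by omega)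
      have h3 : Mn * (m + 3) ≤ 3 * 2 ^ n := by rw [mul_left_comm] at h2; omega
      exact_mod_cast h3
    calc _ ≤ (Mn : ℝ) * ((m + 3) * er n) := mul_le_mul_of_nonneg_left
          (by linarith [hx T (by omega), hx U le_rfl]) (Nat.cast_nonneg _)
      _ ≤ _ := by rw [← mul_assoc]; exact mul_le_mul_of_nonneg_right h1 her.le
  have bV := wbV_bd F.toMd Y (CE F B n (wZ {y} C.2) O m fun _ => True) U hu Mn
  refine (Val.of_state (n := n) (l := ls n) (t := t) hB (vb := w / 2)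
    (Vb := w / 2 * min 1 (u * Mn))
    (V := fun σ => w / 2 * wbV F.toMd Y (CE F B n (wZ {y} C.2) O m fun _ => True) U u Mn σ)
    (e := fun σ => wbE F.toMd Y.A (fun η => (we T η + (m + 1) * er n) + we U η) U Mn σ.1) hΦ.1
    (fun σ => ⟨mul_nonneg hw2 (bV σ).1, mul_le_mul_of_nonneg_left (bV σ).2 hw2⟩)
    (fun σ => (bE _).1) (wb_bdd fun σ => bE _) hw2
    (fun s hs hf => (mul_le_of_le_one_right hw2 hmin.2).trans
      (le_trans (by linarith) (hΦ.2.2 s (by omega) hf)))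
    (fun s σ hs hR hV => by rw [← mul_sub]; exact key s σ (by rw [hs]) hR hV)).mono ?_
  have bm : ∀ J : Tj d, 0 ≤ min 1 (u * wbN (CE F B n (wZ {y} C.2) O m fun _ => True) U Mn J) ∧
      min 1 (u * wbN (CE F B n (wZ {y} C.2) O m fun _ => True) U Mn J) ≤ 1 :=
    fun J => wb_min hu (wbN_bd _ _ _ _).1
  have hX : wX F.toMd K C.1 (bx y (2 * C.2)) (bx y C.2) {y} (B.n0 + Mn * U) (fun I =>
      ind (I B.n0).Nonempty * min 1 (u * Ncnt F B n (bx y C.2) O Mn U I)) ≤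
      wEv F.toMd K B.n0 C {y}
        (wbV F.toMd Y (CE F B n (wZ {y} C.2) O m fun _ => True) U u Mn) := by
    refine le_trans ?_ (wEv_ex (Mn * U) (Bdd.of01 bm)).ge
    rw [← wQ_single, ← wZ_single]
    simp only [wb_Ncnt]
    refine wX_mono ((Bdd.ind _).mul (.of01 fun _ => bm _)) ((Bdd.ind _).mul (.of01 fun _ => bm _))
      fun I hI => mul_le_mul_of_nonneg_right (ind_mono fun ⟨x, hx⟩ y' hy' => ⟨x, hx, ?_⟩) (bm _).1
    rw [Finset.mem_singleton.1 hy', ← wZ_single]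
    exact hI.2.1 _ hx
  rw [wEv_mul, Finset.card_singleton, pow_one]
  have hth := thp_pos hB
  have h5 : min 1 (u * Mn) * er n ≤ er n := mul_le_of_le_one_left her.le hmin.2
  have h6 : ∀ X X' Ee : ℝ, X ≤ X' → Ee ≤ 3 * 2 ^ n * er n →
      w / 2 * (X / B.thp - tol (ls n) * min 1 (u * Mn) - e2 n) ≤
      (w / 2 * X' - w / 2 * Ee - w / 2 * min 1 (u * Mn) * er n) / B.thp -
        tol (ls n) * (w / 2 * min 1 (u * Mn)) := fun X X' Ee h1 h2 => by
    have h7 : X / B.thp - e2 n ≤ (X' - Ee - min 1 (u * Mn) * er n) / B.thp := by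
      rw [le_div_iff₀ hth, sub_mul, div_mul_cancel₀ _ hth.ne']
      linarith
    have h8 := mul_le_mul_of_nonneg_left h7 hw2
    have h9 : (w / 2 * X' - w / 2 * Ee - w / 2 * min 1 (u * Mn) * er n) / B.thp =
        w / 2 * ((X' - Ee - min 1 (u * Mn) * er n) / B.thp) := by ring
    rw [h9]
    linarith
  exact h6 _ _ _ hX hEx

end Pool.Agent.Lib.MP_dd0771_pr.Sc
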