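import Pool.Agent.Lib.MP_dd0771_pr.Sc.Kit

open Filter

namespace Pool.Agent.Lib.MP_dd0771_pr.Sc

theorem weak_ex01 {α : Type} (p : PMF α) {f : α → ℝ} (h : ∀ a, 0 ≤ f a ∧ f a ≤ 1) :
    0 ≤ ex p f ∧ ex p f ≤ 1 :=
  ⟨ex_nonneg fun a _ => (h a).1, ex_le (Bdd.of01 h) fun a _ => (h a).2⟩

theorem weak_pr01 {α : Type} (p : PMF α) (E : α → Prop) : 0 ≤ pr p E ∧ pr p E ≤ 1 :=
  ⟨pr_nonneg p E, pr_le_one p E⟩

section
variable {d : ℕ} (F : Fr) (B : Bs) (K n l : ℕ) (pc : ℝ) (H : Mc d) (σ : St d)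

open Classical in
/-- Success probability of the tries on `ws` at a uniform option of the finite set `Op`. -/
noncomputable def weakTry (Op : Finset (Finset (S d))) (ws : List (Word d)) : ℝ :=
  if h : Op.Nonempty then ex (PMF.uniformOfFinset Op h) fun Yt =>
    pr (LTs F B K n l pc ws Yt.toList) fun b => b = true else 0

theorem weak_try01 (Op : Finset (Finset (S d))) (ws : List (Word d)) :
    0 ≤ weakTry F B K n l pc Op ws ∧ weakTry F B K n l pc Op ws ≤ 1 := by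
  unfold weakTry
  split_ifs with h
  · exact weak_ex01 _ fun _ => weak_pr01 _ _
  · exact ⟨le_rfl, zero_le_one⟩

theorem weak_cand_take (ws : List (Word d)) (ω0 : Cfg d) :
    cand F K n l pc H σ (ws.take (s1 F n)) ω0 = cand F K n l pc H σ ws ω0 := by
  have h : (ws.take (s1 F n)).take (s1 F n) = ws.take (s1 F n) := by
    rw [List.take_take, min_self]
  unfold cand
  rw [h]

theorem weak_tryB (k : ℕ) (ws : List (Word d)) :
    pr (tryB F B K n l pc H k σ ws) (fun o => o.isSome = true) =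
      ex (mu F.toMd K (pc + B.g / 2) (wQ H.Y H.L)) fun ω0 =>
        weakTry F B K n l pc (H.O k (cand F K n l pc H σ (ws.take (s1 F n)) ω0))
          (ws.drop (s1 F n)) := by
  unfold tryB
  rw [pr_bind]
  refine ex_congr fun ω0 _ => ?_
  rw [weak_cand_take]
  unfold weakTry
  split_ifs with h
  · rw [pr_bind]
    refine ex_congr fun Yt _ => ?_
    rw [pr_map]
    refine pr_congr fun b _ => ?_
    cases b <;> simp
  · exact pr_zero fun o ho => by
      rw [PMF.support_pure, Set.mem_singleton_iff] at ho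
      subst ho; simp

theorem weak_rv_try (v : ℝ) :
    rv F B K n l pc H 1 σ (fun _ => v) = v * ex (wls F.toMd H.sy.A (sb F B n l)) fun ws =>
      pr (tryB F B K n l pc H 0 σ ws) fun o => o.isSome = true := by
  have hb : Bdd fun o : Option (ℕ × Finset (S d)) => o.elim (0 : ℝ) fun _ => v :=
    ⟨|v|, fun o => by cases o <;> simp⟩
  unfold rv
  rw [← ex_mul_left]
  simp only [run]
  rw [ex_bind _ _ hb]
  refine ex_congr fun ws _ => ?_
  rw [ex_bind _ _ hb]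
  unfold pr
  rw [← ex_mul_left]
  refine ex_congr fun o _ => ?_
  cases o with
  | none => simp [ex_pure, ind_neg]
  | some Yt => simp [ex_pure, ind_pos]

/-- One block: the value is the probability to have an option times the success probability. -/
theorem weak_rv {q : ℝ} (v : ℝ) (hq : ∀ Cd, ∀ Yt ∈ H.O 0 Cd,
      (ex (wls F.toMd H.sy.A (sq F B l)) fun ws =>
        pr (LTs F B K n l pc ws Yt.toList) fun b => b = true) = q) :
    rv F B K n l pc H 1 σ (fun _ => v) = v * q * ex (wls F.toMd H.sy.A (s1 F n)) fun ws =>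
      pr (mu F.toMd K (pc + B.g / 2) (wQ H.Y H.L)) fun ω0 =>
        (H.O 0 (cand F K n l pc H σ ws ω0)).Nonempty := by
  rw [weak_rv_try, mul_assoc, ← ex_mul_left _ q]
  congr 1
  simp only [weak_tryB]
  unfold sb wls
  rw [ex_iid_split (wl F.toMd H.sy.A) (s1 F n) (sq F B l)
    (f := fun ws1 ws2 => ex (mu F.toMd K (pc + B.g / 2) (wQ H.Y H.L)) fun ω0 =>
      weakTry F B K n l pc (H.O 0 (cand F K n l pc H σ ws1 ω0)) ws2)
    (Bdd.of01 fun _ => weak_ex01 _ fun _ => weak_try01 ..)]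
  refine ex_congr fun ws1 _ => ?_
  rw [ex_comm _ _ (f := fun ws2 ω0 =>
    weakTry F B K n l pc (H.O 0 (cand F K n l pc H σ ws1 ω0)) ws2)
    (Bdd.of01 fun _ => weak_try01 ..)]
  unfold pr
  rw [← ex_mul_left]
  refine ex_congr fun ω0 _ => ?_
  unfold weakTry
  split_ifs with h
  · rw [ex_comm _ _ (f := fun (ws2 : List (Word d)) (Yt : Finset (S d)) =>
      pr (LTs F B K n l pc ws2 Yt.toList) fun b => b = true) (Bdd.of01 fun _ => weak_pr01 ..),
      ind_pos h, mul_one, ← ex_const (PMF.uniformOfFinset _ h) q]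
    refine ex_congr fun Yt hY => ?_
    rw [PMF.support_uniformOfFinset] at hY
    exact hq _ Yt hY
  · rw [ex_const, ind_neg h, mul_zero]

end

/-- The chance of a candidate in `P` is at least the chance of an infected site in `P`, up to the
chance of a bad site. -/
theorem weak_opt {d : ℕ} {F : Fr} {B : Bs} {K n l : ℕ} {pc δ : ℝ} {C : Ty} {Y P : Finset (S d)}
    (hst : ((mu F.toMd K (pc + B.g / 2) (wQ Y C.2)).bind fun η =>
      (wls F.toMd (al K (wQ Y C.2)) (s1 F n)).map (ms (al K (wQ Y C.2)) η)) =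
        mu F.toMd K (pc + B.g / 2) (wQ Y C.2))
    (hbad : ∀ z ∈ P, pr (mu F.toMd K (pc + B.g / 2) (wQ Y C.2))
      (fun ω => ¬ pregood F K n l pc ω z) ≤ δ) (σ : St d) :
    (ex (wls F.toMd (al K (wQ Y C.2)) (s1 F n)) fun ws =>
      ind (∃ z ∈ tj F.toMd ⟨al K (wQ Y C.2), wZ Y C.2⟩ σ ws (s1 F n), z ∈ wZ Y C.2 ∧ z ∈ P) -
        P.card * δ) ≤
      ex (wls F.toMd (al K (wQ Y C.2)) (s1 F n)) fun ws =>
        pr (mu F.toMd K (pc + B.g / 2) (wQ Y C.2)) fun ω0 =>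
          (rReg P 0 (cand F K n l pc (wMc K C Y (rReg P)) σ ws ω0)).Nonempty := by
  have h1 : (ex (wls F.toMd (al K (wQ Y C.2)) (s1 F n)) fun ws =>
      pr (mu F.toMd K (pc + B.g / 2) (wQ Y C.2)) fun ω0 =>
        ∃ z ∈ P, ¬ pregood F K n l pc (ms (al K (wQ Y C.2)) ω0 ws) z) ≤ P.card * δ := by
    have h2 : pr (mu F.toMd K (pc + B.g / 2) (wQ Y C.2))
        (fun ω => ∃ z ∈ P, ¬ pregood F K n l pc ω z) ≤ P.card * δ := by
      refine (pr_union_le _ P fun z ω => ¬ pregood F K n l pc ω z).trans ?_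
      simpa using Finset.sum_le_card_nsmul P _ δ hbad
    rw [← hst, pr_bind] at h2
    simp only [pr_map] at h2
    unfold pr at h2 ⊢
    rwa [ex_comm _ _ (Bdd.ind _)]
  rw [ex_sub _ (Bdd.ind _) (Bdd.const _), ex_const]
  refine le_trans (sub_le_sub_left h1 _) ?_
  rw [← ex_sub _ (Bdd.ind _) (Bdd.pr _ _)]
  refine ex_mono ((Bdd.ind _).sub (Bdd.pr _ _)) (Bdd.pr _ _) fun ws hws => ?_
  have hlen : ws.take (s1 F n) = ws := List.take_of_length_le (iid_length hws).le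
  by_cases hE : ∃ z ∈ tj F.toMd ⟨al K (wQ Y C.2), wZ Y C.2⟩ σ ws (s1 F n), z ∈ wZ Y C.2 ∧ z ∈ P
  · rw [ind_pos hE, ← pr_not]
    obtain ⟨z, h3, h4, h5⟩ := hE
    refine pr_mono fun ω0 _ h6 => ?_
    refine ⟨{z}, Finset.mem_image.2 ⟨z, Finset.mem_inter.2 ⟨?_, h5⟩, rfl⟩⟩
    classical
    unfold cand
    rw [Finset.mem_filter]
    refine ⟨Finset.mem_inter.2 ⟨h3, h4⟩, ?_⟩
    rw [hlen]
    by_contra h7
    exact h6 ⟨z, h5, h7⟩
  · rw [ind_neg hE]
    have := pr_nonneg (mu F.toMd K (pc + B.g / 2) (wQ Y C.2)) fun ω0 =>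
      ∃ z ∈ P, ¬ pregood F K n l pc (ms (al K (wQ Y C.2)) ω0 ws) z
    have := pr_nonneg (mu F.toMd K (pc + B.g / 2) (wQ Y C.2)) fun ω0 =>
      (rReg P 0 (cand F K n l pc (wMc K C Y (rReg P)) σ ws ω0)).Nonempty
    linarith

theorem weak_alv {d : ℕ} {F : Fr} (hS : S_SYM d F) (K : ℕ) (C : Ty) (y : S d) (T : ℕ) :
    alv d F.toMd K C T = wP F.toMd K C.1 (wQ {y} C.2) (wZ {y} C.2) {y} T fun I => (I T).Nonempty := by
  rw [wQ_single, wZ_single]
  unfold alv cP wP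
  rw [hS K C.1 y 0 (Equiv.refl _) (fun _ => true) (2 * C.2) C.2 T _ (by omega)]
  simp only [Finset.image_nonempty]

theorem weak_small {d : ℕ} (F : Fr) {e : ℝ} (he : 0 < e) : ∀ᶠ n : ℕ in atTop, ∀ (y : S d) (l : ℕ),
    ls n ≤ l → ((bx y (DD F n)).card : ℝ) * Real.exp (-(l : ℝ) / 4) ≤ e := by
  filter_upwards [pow_le_exp_ls ((2 * F.A + 5) * d + 1) (c := 1 / 4) (by norm_num),
    eventually_ge_atTop 3, tendsto_natCast_atTop_atTop.eventually_ge_atTop (1 / e)] with n h1 h3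
    h4 y l hl
  have h5 : 2 * DD F n + 1 ≤ n ^ (2 * F.A + 5) := by
    have h6 : 1 ≤ DD F n := Nat.one_le_pow _ _ (by omega)
    have h7 : n ^ (2 * F.A + 5) = DD F n * n := pow_succ _ _
    rw [h7]; nlinarith
  have h8 : ((bx y (DD F n)).card : ℝ) ≤ (n : ℝ) ^ ((2 * F.A + 5) * d) := by
    rw [card_bx, pow_mul]
    exact_mod_cast Nat.pow_le_pow_left h5 d
  have h9 : Real.exp (1 / 4 * (ls n : ℝ)) * Real.exp (-(l : ℝ) / 4) ≤ 1 := by
    rw [← Real.exp_add, Real.exp_le_one_iff]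
    have : (ls n : ℝ) ≤ l := by exact_mod_cast hl
    linarith
  have h10 := Real.exp_pos (-(l : ℝ) / 4)
  have h11 : (1 : ℝ) ≤ n * e := by rwa [div_le_iff₀ he] at h4
  have h12 : (0 : ℝ) < n := by exact_mod_cast (by omega : 0 < n)
  rw [pow_succ] at h1
  have h13 : (n : ℝ) ^ ((2 * F.A + 5) * d) * n * Real.exp (-(l : ℝ) / 4) ≤ 1 :=
    (mul_le_mul_of_nonneg_right h1 h10.le).trans h9
  have h14 : (n : ℝ) ^ ((2 * F.A + 5) * d) * Real.exp (-(l : ℝ) / 4) ≤ e := by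
    refine le_of_mul_le_mul_right ?_ h12
    nlinarith
  exact (mul_le_mul_of_nonneg_right h8 h10.le).trans h14

theorem s_weak {d : ℕ} {F : Fr} (hd : 2 ≤ d) (hF : F.Ok) (hL : Low d F)
    (hAL : S_AL d F) (hPBAD : S_PBAD d F) (hQQ : S_QQ d F) (hGEN : S_GEN d F) :
    S_WEAK d F := by
  intro B hB
  have hthp := thp_pos hB
  filter_upwards [hAL B hB, hPBAD B hB, hQQ B hB, hGEN B hB, scales hF B, le_of_Lmin hF B, hL.hCHN,
    er_small (e := B.thp / 10) (by positivity), er_small (e := 1 / 10) (by norm_num),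
    weak_small (d := d) F (e := B.thp / 10) (by positivity), eventually_ge_atTop 1] with n hal hpb
    hqq hgen hsc hlm hchn he1 he2 hsm hn1 K hK
  intro l pc M Φ te ub v C C' y t hl1 hl2 hC hC' hM hΦ hu hte hA hv0 hvu hval
  obtain ⟨-, -, hs1, -, -, hs2, hs3, hs4⟩ := hsc
  obtain ⟨-, hm1, hm2, hm3⟩ := hlm C.2 hC.2.2.2.1
  have hpa : B.pa ≤ pc := hC.1.trans hC.2.1
  have hp4 : pc ≤ B.pa + 4 * B.g := by have := hC.2.2.1; simpa [Bs.p] using this
  have hg := hB.2.1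
  obtain ⟨q0, q1, q2, q3⟩ := hqq K hK l pc hl1 hl2 hpa hC.2.2.1
  set q := qq d F B K n l pc with hq
  set P := bx y (DD F n) with hP
  have hbx : ∀ z ∈ P, bx z (4 * DD F n) ⊆ wQ {y} C.2 := by
    intro z hz
    rw [wQ_single]
    have := mem_bx.1 hz
    exact bx_subset (by omega)
  have hrv : ∀ σ, rv F B K n l pc (wMc K C {y} (rReg P)) 1 σ (fun _ => v) =
      v * q * ex (wls F.toMd (al K (wQ {y} C.2)) (s1 F n)) fun ws =>
        pr (mu F.toMd K (pc + B.g / 2) (wQ {y} C.2)) fun ω0 =>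
          (rReg P 0 (cand F K n l pc (wMc K C {y} (rReg P)) σ ws ω0)).Nonempty := by
    intro σ
    refine weak_rv F B K n l pc (wMc K C {y} (rReg P)) σ v fun Cd Yt hYt => ?_
    obtain ⟨z, hz, rfl⟩ := Finset.mem_image.1 hYt
    have := q3 (wQ {y} C.2) {z} (by simp)
      (fun z' hz' => by rw [Finset.mem_singleton.1 hz']; exact hbx z (Finset.mem_inter.1 hz).2)
      (fun a ha b hb hab => (hab ((Finset.mem_singleton.1 ha).trans
        (Finset.mem_singleton.1 hb).symm)).elim)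
    rw [Finset.card_singleton, pow_one] at this
    exact this
  have hvq : 0 ≤ v * q := mul_nonneg hv0 q0
  have hrv1 : ∀ σ, 0 ≤ rv F B K n l pc (wMc K C {y} (rReg P)) 1 σ (fun _ => v) ∧
      rv F B K n l pc (wMc K C {y} (rReg P)) 1 σ (fun _ => v) ≤ v * q := by
    intro σ
    rw [hrv]
    have := weak_ex01 (wls F.toMd (al K (wQ {y} C.2)) (s1 F n)) fun ws => weak_pr01
      (mu F.toMd K (pc + B.g / 2) (wQ {y} C.2)) fun ω0 =>
        (rReg P 0 (cand F K n l pc (wMc K C {y} (rReg P)) σ ws ω0)).Nonempty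
    exact ⟨mul_nonneg hvq this.1, mul_le_of_le_one_right hvq this.2⟩
  have hsb := hs4 l hl2
  have hC2 := hC.2.2.2.2
  have hcont : Cont F B K n l pc M Φ (wZ {y} C.2) (rReg P) 1 t (fun _ => C') id fun _ => v := by
    intro k hk Cd _ Yt hYt _
    obtain ⟨z, hz, rfl⟩ := Finset.mem_image.1 hYt
    obtain ⟨h1, h2⟩ := hval z (Finset.mem_inter.1 hz).2
    obtain rfl : k = 0 := by omega
    refine ⟨Finset.Subset.refl _, apart_single z _, hC', ?_, by simpa using h2⟩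
    show wZ {z} C'.2 ⊆ M.Z
    rw [wZ_single]; exact h1
  have hG := hgen K hK (ls n) l pc M Φ te ub v (v * q) C {y} (rReg P) 1 t (fun _ => C') id
    (fun _ => v) hl1 hl2 hC hM hΦ hu (by omega) (by rw [pow_succ]; omega) hA (ruleOk_rReg _ _)
    (mul_le_of_le_one_right hv0 q1) hvu (fun _ => ⟨hv0, le_rfl⟩) (fun σ => (hrv1 σ).2) hcont
  refine hG.mono ?_
  -- the lower bound in the world
  have hkp : KP F K (pc + B.g / 2) := hK.kp hF hB (by linarith) (by linarith)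
  have hkp1 : KP F K C.1 := hK.kp hF hB hC.1 (by linarith [hC.2.1])
  have hV1 : 1 ≤ VV n := Nat.one_le_pow _ _ hn1
  have hT1 : B.n0 + s1 F n ≤ 2 * (VV n * RR F B n) := by
    have h1 : B.n0 ≤ sq F B (ls n) := Nat.le_add_left _ _
    have h2 : RR F B n ≤ VV n * RR F B n := Nat.le_mul_of_pos_left _ hV1
    omega
  have hT2 : 4 * (B.n0 + s1 F n) ^ 2 ≤ C.2 := by
    have h1 : 2 * (B.n0 + s1 F n) ≤ Nat.sqrt C.2 := by omega
    have h2 := Nat.sqrt_le' C.2
    have h3 := Nat.pow_le_pow_left h1 2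
    rw [mul_pow] at h3
    omega
  have hpow : (2 : ℕ) ^ n ≤ 2 ^ (4 * n) := Nat.pow_le_pow_right (by norm_num) (by omega)
  have ha := (hal K hK C hC.1 (hC.2.1.trans hC.2.2.1) (by omega) (hC2.trans hpow)).2 _ hT2
  rw [weak_alv hL.hSYM K C y] at ha
  have hc := hchn K C.1 (wQ {y} C.2) (wZ {y} C.2) {y} (B.n0 + s1 F n) hkp1 (by simp) (by omega)
  set δ : ℝ := P.card * Real.exp (-(l : ℝ) / 4) with hδ
  have hδ0 : 0 ≤ δ := by positivity
  have hδ1 : δ ≤ B.thp / 10 := hsm y l hl1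
  have hf : Bdd fun I : Tj d => ind (∃ z ∈ I (s1 F n), z ∈ wZ {y} C.2 ∧ z ∈ P) - δ :=
    (Bdd.ind _).sub (Bdd.const _)
  have hw1 := wEv_ex (G := F.toMd) (K := K) (n0 := B.n0) (C := C) (Y := {y}) (s1 F n) hf
  have hw2 : wX F.toMd K C.1 (wQ {y} C.2) (wZ {y} C.2) {y} (B.n0 + s1 F n)
      (fun I => ind (I (B.n0 + s1 F n)).Nonempty +
        ((-1) * ind (¬ Chn (VV n) (B.n0 + s1 F n) I) + -δ)) ≤
      wX F.toMd K C.1 (wQ {y} C.2) (wZ {y} C.2) {y} (B.n0 + s1 F n) fun I =>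
        ind (∀ y' ∈ ({y} : Finset (S d)), ∃ x ∈ I B.n0, x ∈ bx y' C.2) *
          (ind (∃ z ∈ I (B.n0 + s1 F n), z ∈ wZ {y} C.2 ∧ z ∈ P) - δ) := by
    refine wX_mono ((Bdd.ind _).add (((Bdd.const _).mul (Bdd.ind _)).add (Bdd.const _)))
      ((Bdd.ind _).mul ((Bdd.ind _).sub (Bdd.const _))) fun I hI => ?_
    have i1 := ind_nonneg (∀ y' ∈ ({y} : Finset (S d)), ∃ x ∈ I B.n0, x ∈ bx y' C.2)
    have i2 := ind_le_one (∀ y' ∈ ({y} : Finset (S d)), ∃ x ∈ I B.n0, x ∈ bx y' C.2)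
    have i3 := ind_nonneg (∃ z ∈ I (B.n0 + s1 F n), z ∈ wZ {y} C.2 ∧ z ∈ P)
    have i4 := ind_le_one (I (B.n0 + s1 F n)).Nonempty
    have i5 := ind_nonneg (¬ Chn (VV n) (B.n0 + s1 F n) I)
    have i6 := mul_nonneg i1 i3
    have i7 := mul_nonneg (sub_nonneg.2 i2) hδ0
    by_cases h1 : (I (B.n0 + s1 F n)).Nonempty
    · by_cases h2 : Chn (VV n) (B.n0 + s1 F n) I
      · obtain ⟨x, hx⟩ := h1
        obtain ⟨γ, g1, g2, g3⟩ := h2.chain le_rfl hx
        have g4 : γ 0 = y := Finset.mem_singleton.1 (hI.1 (g2 0 (Nat.zero_le _)))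
        have g5 := g3 0 (B.n0 + s1 F n)
        rw [g1, g4, Nat.zero_max, Nat.zero_min, Nat.sub_zero] at g5
        have g6 : x ∈ P := mem_bx.2 (g5.trans (by nlinarith [Nat.zero_le (n ^ F.A)]))
        have g7 : ∀ y' ∈ ({y} : Finset (S d)), ∃ x ∈ I B.n0, x ∈ bx y' C.2 := by
          intro y' hy'
          rw [Finset.mem_singleton.1 hy', ← wZ_single]
          exact ⟨γ B.n0, g2 _ (Nat.le_add_right _ _), hI.2.1 _ (g2 _ (Nat.le_add_right _ _))⟩
        rw [ind_pos g7, ind_pos (E := ∃ z ∈ I (B.n0 + s1 F n), z ∈ wZ {y} C.2 ∧ z ∈ P)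
          ⟨x, hx, hI.2.1 _ hx, g6⟩]
        linarith
      · rw [ind_pos h2]; nlinarith
    · rw [ind_neg h1]; nlinarith
  rw [wX_add (Bdd.ind _) (((Bdd.const _).mul (Bdd.ind _)).add (Bdd.const _)),
    wX_add ((Bdd.const _).mul (Bdd.ind _)) (Bdd.const _), wX_mul, wX_const, ← hw1] at hw2
  have hw3 : v * q * wEv F.toMd K B.n0 C {y} (fun σ =>
      ex (wls F.toMd (al K (wQ {y} C.2)) (s1 F n)) fun ws =>
        ind (∃ z ∈ tj F.toMd ⟨al K (wQ {y} C.2), wZ {y} C.2⟩ σ ws (s1 F n),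
          z ∈ wZ {y} C.2 ∧ z ∈ P) - δ) ≤
      wEv F.toMd K B.n0 C {y} fun σ => rv F B K n l pc (wMc K C {y} (rReg P)) 1 σ fun _ => v := by
    rw [← wEv_mul]
    refine wEv_mono ((Bdd.const _).mul (Bdd.ex ((Bdd.ind _).sub (Bdd.const _)) _))
      ⟨v * q, fun σ => by rw [abs_of_nonneg (hrv1 σ).1]; exact (hrv1 σ).2⟩ fun σ _ => ?_
    rw [hrv]
    exact mul_le_mul_of_nonneg_left (weak_opt ((hL.hSTAT K _ _ hkp).2.1 _)
      (fun z hz => hpb K hK l pc _ z hl1 hl2 hpa hC.2.2.1 (hbx z hz)) σ) hvq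
  have hth : (1 - 2 * B.eps) * B.thp ≤ B.thm := (le_div_iff₀ hthp).1 (thm_div_thp hB)
  have heps := hB.2.2.2.2.2.2.1
  unfold wP at ha hc
  have hw4 : v * q * (B.thp / 2) ≤
      wEv F.toMd K B.n0 C {y} fun σ => rv F B K n l pc (wMc K C {y} (rReg P)) 1 σ fun _ => v := by
    refine le_trans (mul_le_mul_of_nonneg_left ?_ hvq) hw3
    nlinarith [he1.1]
  rw [Finset.card_singleton, pow_one]
  have hw5 : v * q / 2 ≤ (wEv F.toMd K B.n0 C {y} fun σ =>
      rv F B K n l pc (wMc K C {y} (rReg P)) 1 σ fun _ => v) / B.thp := by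
    rw [le_div_iff₀ hthp]; linarith
  have h6 : tol (ls n) * (v * q) ≤ 1 / 10 * (v * q) := mul_le_mul_of_nonneg_right he2.2.2 hvq
  have h7 : 4 * (1 / 2 : ℝ) ^ (l ^ (F.A + 1)) ≤ q := by nlinarith
  have h8 := mul_le_mul_of_nonneg_left h7 hv0
  nlinarith

end Pool.Agent.Lib.MP_dd0771_pr.Sc
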