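import Pool.Agent.Lib.MP_dd0771_pr.Sc.Kit3
import Pool.Agent.Lib.MP_dd0771_pr.Sc.Wd2
import Pool.Agent.Lib.MP_dd0771_pr.Sc.Site
import Pool.Agent.Lib.MP_dd0771_pr.Sc.ValK
import Pool.Agent.Lib.MP_dd0771_pr.Sc.Scale
import Pool.Agent.Lib.MP_dd0771_pr.Sc.Stm4

open Filter

namespace Pool.Agent.Lib.MP_dd0771_pr.Sc

variable {d : ℕ} {F : Fr}

theorem werr_split {α : Type} (p : PMF α) {f a b : α → ℝ} (ha : Bdd a)
    (hb : Summable fun x => (p x).toReal * b x) (h0 : ∀ x, 0 ≤ f x) (h : ∀ x, f x ≤ a x + b x) :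
    ex p f ≤ ex p a + ex p b := by
  have hs := (ex_summable p ha).add hb
  have e : ex p a + ex p b = ex p fun x => a x + b x := by
    unfold ex
    rw [← (ex_summable p ha).tsum_add hb]
    simp only [mul_add]
  rw [e]
  exact ex_mono' (by simpa only [mul_add] using hs) (fun x _ => h0 x) fun x _ => h x

theorem werr_stat0 (hS : S_STAT d F) {K : ℕ} {φ : ℝ} (hp : KP F K φ) (Q : Finset (S d)) (u : ℕ)
    {f : Cfg d → ℝ} (hf : Bdd f) :
    (ex (mu F.toMd K φ Q) fun η => ex (wls F.toMd (al K Q) u) fun ws => f (ms (al K Q) η ws)) =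
      ex (mu F.toMd K φ Q) f := by
  conv_rhs => rw [← (hS K φ Q hp).2.1 u]
  rw [ex_bind _ _ hf]
  exact ex_congr fun η _ => (ex_map _ _ hf).symm

/-- The configuration after `u` windows has the stationary law. -/
theorem werr_stat (hS : S_STAT d F) {K : ℕ} {φ : ℝ} (hp : KP F K φ) (Q : Finset (S d)) {u T : ℕ}
    (hu : u ≤ T) (E : Cfg d → Prop) :
    (ex (mu F.toMd K φ Q) fun η => pr (wls F.toMd (al K Q) T) fun ws =>
      E (ms (al K Q) η (ws.take u))) = pr (mu F.toMd K φ Q) E := by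
  refine Eq.trans (ex_congr fun η _ => ?_) (werr_stat0 hS hp Q u (Bdd.ind E))
  unfold wls
  rw [← iid_take (wl F.toMd (al K Q)) hu, ex_map _ _ (Bdd.ind _)]
  rfl

/-- The window number `u` is fresh and starts from the stationary law. -/
theorem werr_stat' (hS : S_STAT d F) {K : ℕ} {φ : ℝ} (hp : KP F K φ) (Q : Finset (S d)) {u T : ℕ}
    (hu : u < T) (E : Cfg d → Word d → Prop) :
    (ex (mu F.toMd K φ Q) fun η => pr (wls F.toMd (al K Q) T) fun ws =>
      ∃ w, ws[u]? = some w ∧ E (ms (al K Q) η (ws.take u)) w) =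
      ex (mu F.toMd K φ Q) fun η => pr (wl F.toMd (al K Q)) (E η) := by
  refine Eq.trans (ex_congr fun η _ => ?_)
    (werr_stat0 hS hp Q u (Bdd.pr (fun _ => wl F.toMd (al K Q)) E))
  refine Eq.trans ?_ (ex_iid_get (wl F.toMd (al K Q)) hu
    (f := fun l w => ind (E (ms (al K Q) η l) w)) (Bdd.ind _))
  refine ex_congr fun ws _ => ?_
  dsimp only
  generalize ws[u]? = o
  cases o with
  | none => exact ind_neg (by simp)
  | some w => simp

theorem werr_num {c : ℝ} (hc : 0 < c) (C : ℝ) (N : ℕ) :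
    ∀ᶠ n : ℕ in atTop, C * 2 ^ (N * n) * Real.exp (-c * (n : ℝ) ^ 2) ≤ 1 := by
  obtain ⟨m, hm⟩ := exists_nat_ge ((|C| + N) / c)
  filter_upwards [eventually_ge_atTop m, eventually_ge_atTop 1] with n h1 h2
  have a1 : C ≤ Real.exp |C| := by
    have := Real.add_one_le_exp |C|
    have := le_abs_self C
    linarith
  have a2 : (2 : ℝ) ^ (N * n) ≤ Real.exp ((N * n : ℕ) * 1) := by
    rw [Real.exp_nat_mul]
    refine pow_le_pow_left₀ zero_le_two ?_ _
    have := Real.add_one_le_exp 1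
    linarith
  have b1 : (1 : ℝ) ≤ n := by exact_mod_cast h2
  have b2 : |C| + N ≤ n * c := by
    rw [div_le_iff₀ hc] at hm
    have : (m : ℝ) ≤ n := by exact_mod_cast h1
    nlinarith
  calc C * 2 ^ (N * n) * Real.exp (-c * (n : ℝ) ^ 2)
      ≤ Real.exp |C| * Real.exp ((N * n : ℕ) * 1) * Real.exp (-c * (n : ℝ) ^ 2) := by gcongr
    _ ≤ 1 := by
      rw [← Real.exp_add, ← Real.exp_add, Real.exp_le_one_iff]
      push_cast
      nlinarith [abs_nonneg C]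

/-- Union bound for the flag. -/
theorem werr_flag (hF : F.Ok) (hS : S_STAT d F) {K n : ℕ} {φ h a b : ℝ} (hp : KP F K φ)
    {Q Z Qd : Finset (S d)} (hZ : Z ⊆ Q) (hQd : Qd ⊆ Q) (T : ℕ) (ha0 : 0 ≤ a) (hb0 : 0 ≤ b)
    (ha : ∀ x, bx x (n ^ 2) ⊆ Q → pr (mu F.toMd K φ Q)
      (fun η => h * (bx x (n ^ 2)).card < (mass η (bx x (n ^ 2)) : ℝ)) ≤ a)
    (hb : ∀ x, (ex (mu F.toMd K φ Q) fun η => pr (wl F.toMd (al K Q)) fun w =>
      ¬ Slow F.toMd ⟨al K Q, Z⟩ (VV n) {x} η w) ≤ b) :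
    (ex (mu F.toMd K φ Q) fun η => pr (wls F.toMd (al K Q) T)
      (wfl F.toMd n h ⟨al K Q, Z⟩ Qd η)) ≤ (T + 1) * Q.card * (a + b) := by
  set P : PMF (Cfg d × List (Word d)) := (mu F.toMd K φ Q).bind fun η =>
    (wls F.toMd (al K Q) T).map fun ws => (η, ws) with hP
  have key : ∀ E : Cfg d → List (Word d) → Prop, pr P (fun p => E p.1 p.2) =
      ex (mu F.toMd K φ Q) fun η => pr (wls F.toMd (al K Q) T) (E η) := by
    intro E
    rw [hP, pr_bind]
    exact ex_congr fun η _ => pr_map _ _ _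
  let E1 : ℕ × S d → Cfg d → List (Word d) → Prop := fun q η ws => bx q.2 (n ^ 2) ⊆ Q ∧
    h * (bx q.2 (n ^ 2)).card < (mass (ms (al K Q) η (ws.take q.1)) (bx q.2 (n ^ 2)) : ℝ)
  let E2 : ℕ × S d → Cfg d → List (Word d) → Prop := fun q η ws => q.1 < T ∧
    ∃ w, ws[q.1]? = some w ∧
      ¬ Slow F.toMd ⟨al K Q, Z⟩ (VV n) {q.2} (ms (al K Q) η (ws.take q.1)) w
  rw [← key]
  have h1 : pr P (fun p => wfl F.toMd n h ⟨al K Q, Z⟩ Qd p.1 p.2) ≤
      pr P fun p => ∃ q ∈ Finset.range (T + 1) ×ˢ Q, E1 q p.1 p.2 ∨ E2 q p.1 p.2 := by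
    refine pr_mono fun p hp' hw => ?_
    obtain ⟨η, -, hp'⟩ := (PMF.mem_support_bind_iff _ _ _).1 hp'
    obtain ⟨ws, hws, rfl⟩ := (PMF.mem_support_map_iff _ _ _).1 hp'
    have hl : ws.length = T := iid_length hws
    obtain ⟨u, hu, ⟨x, hx, hd⟩ | ⟨w, hw, hs⟩⟩ := hw
    · exact ⟨(u, x), Finset.mem_product.2 ⟨Finset.mem_range.2 (by simp only at hu ⊢; omega),
        hQd (hx (self_mem_bx _ _))⟩, Or.inl ⟨hx.trans hQd, hd⟩⟩
    · rw [slow_iff] at hs
      simp only [not_forall] at hs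
      obtain ⟨x, hx, hs⟩ := hs
      have hu' : u < T := hl ▸ (List.getElem?_eq_some_iff.1 hw).1
      exact ⟨(u, x), Finset.mem_product.2 ⟨Finset.mem_range.2 (by simp only; omega), hZ hx⟩,
        Or.inr ⟨hu', w, hw, hs⟩⟩
  refine h1.trans ((pr_union_le _ _ _).trans ?_)
  have h2 : ∀ q ∈ Finset.range (T + 1) ×ˢ Q,
      pr P (fun p => E1 q p.1 p.2 ∨ E2 q p.1 p.2) ≤ a + b := by
    intro q hq
    have hu : q.1 ≤ T := by
      have := Finset.mem_range.1 (Finset.mem_product.1 hq).1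
      omega
    refine (pr_or_le _ _ _).trans (add_le_add ?_ ?_)
    · by_cases hx : bx q.2 (n ^ 2) ⊆ Q
      · refine le_trans (pr_mono (E' := fun p => h * (bx q.2 (n ^ 2)).card <
          (mass (ms (al K Q) p.1 (p.2.take q.1)) (bx q.2 (n ^ 2)) : ℝ)) fun p _ hp => hp.2) ?_
        rw [key fun η ws => h * (bx q.2 (n ^ 2)).card <
          (mass (ms (al K Q) η (ws.take q.1)) (bx q.2 (n ^ 2)) : ℝ), werr_stat hS hp Q hu
          fun η => h * (bx q.2 (n ^ 2)).card < (mass η (bx q.2 (n ^ 2)) : ℝ)]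
        exact ha _ hx
      · rw [pr_zero fun p _ hp => hx hp.1]; exact ha0
    · by_cases hx : q.1 < T
      · refine le_trans (pr_mono (E' := fun p => ∃ w, p.2[q.1]? = some w ∧ ¬ Slow F.toMd
          ⟨al K Q, Z⟩ (VV n) {q.2} (ms (al K Q) p.1 (p.2.take q.1)) w) fun p _ hp => hp.2) ?_
        rw [key fun η ws => ∃ w, ws[q.1]? = some w ∧ ¬ Slow F.toMd
          ⟨al K Q, Z⟩ (VV n) {q.2} (ms (al K Q) η (ws.take q.1)) w, werr_stat' hS hp Q hx
          fun η w => ¬ Slow F.toMd ⟨al K Q, Z⟩ (VV n) {q.2} η w]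
        exact hb _
      · rw [pr_zero fun p _ hp => hx hp.1]; exact hb0
  refine (Finset.sum_le_card_nsmul _ _ _ h2).trans (le_of_eq ?_)
  rw [Finset.card_product, Finset.card_range, nsmul_eq_mul]
  push_cast
  ring

theorem s_werr {d : ℕ} {F : Fr} (hd : 2 ≤ d) (hF : F.Ok)
    (hSTAT : S_STAT d F) (hGAP : S_GAP d F) (hSLOW : S_SLOW d F) :
    S_WERR d F := by
  intro B hB
  have hg : 0 < B.g := hB.2.1
  obtain ⟨γ, hγ, hG⟩ := hGAP (B.g / 4) (by positivity)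
  obtain ⟨C, hC, hM⟩ := sl_mean hF
  have hsq : Tendsto (fun n : ℕ => n ^ 2) atTop atTop := tendsto_pow_atTop two_ne_zero
  have hc : 0 < min γ (1 / 2) := lt_min hγ one_half_pos
  filter_upwards [hsq.eventually hG, hSLOW, werr_num hc (2 * C + 9) (5 * d + 5),
    eventually_ge_atTop 1] with n h1 h2 h3 h4 K hK pc φ Q Z Qd T hp1 hp2 hφ1 hφ2 hZ hQd hQ hT
  have hp4 : pc ≤ B.pa + 4 * B.g := by simpa [Bs.p] using hp2
  have hps : KP F K (pc + 3 * B.g / 4) := hK.kp hF hB (by linarith) (by linarith)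
  have hp : KP F K φ := ⟨hK.1, hφ1, by have := hB.2.2.1; linarith⟩
  set ε := Real.exp (-min γ (1 / 2) * (n : ℝ) ^ 2) with hε
  have hε0 : 0 < ε := Real.exp_pos _
  have hn1 : (1 : ℝ) ≤ (n : ℝ) ^ 2 := one_le_pow₀ (by exact_mod_cast h4)
  have e1 : Real.exp (-γ * ((n ^ 2 : ℕ) : ℝ) ^ d) ≤ ε := by
    rw [hε, Real.exp_le_exp]
    push_cast
    have : (n : ℝ) ^ 2 ≤ ((n : ℝ) ^ 2) ^ d := le_self_pow₀ hn1 (by omega)
    have := min_le_left γ (1 / 2)
    nlinarith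
  have e2' : Real.exp (-(n : ℝ) ^ 2 / 2) ≤ ε := by
    rw [hε, Real.exp_le_exp]
    have := min_le_right γ (1 / 2)
    nlinarith
  have e3 : 1 / (K : ℝ) ≤ ε := by
    refine le_trans ?_ e2'
    have a1 : Real.exp ((n ^ 2 : ℕ) * (1 / 2)) ≤ K := by
      rw [Real.exp_nat_mul]
      refine (pow_le_pow_left₀ (Real.exp_pos _).le (siteA_exp.trans (by norm_num)) _).trans
        (b := (3 : ℝ) ^ (n ^ 2)) ?_
      exact_mod_cast hK.2.1
    rw [show -(n : ℝ) ^ 2 / 2 = -((n ^ 2 : ℕ) * (1 / 2)) by push_cast; ring, Real.exp_neg, one_div]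
    exact inv_anti₀ (Real.exp_pos _) a1
  have hK0 : (0 : ℝ) < K := by exact_mod_cast (show 0 < K by have := hK.1.1; omega)
  have hm := ex_pc_mass Q Q (fun _ => sl F.toMd K φ 0) (c := C) (by linarith)
    fun x _ => hM K φ 0 hp (Nat.zero_le _)
  have f1 := werr_flag (n := n) (h := hh F B K pc) hF hSTAT hp hZ hQd T hε0.le hε0.le
    (fun x hx => ((h1 K φ _ Q x x _ hp hps hx (Or.inl rfl)).2 (by linarith)).trans e1)
    fun x => (h2 K φ Q Z x hp).trans e2'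
  have f2 : pr (mu F.toMd K φ Q) (fun η => K ≤ mass η Q) ≤ C * Q.card * ε := by
    refine le_trans (pr_mono (E' := fun η => (K : ℝ) ≤ mass η Q) fun η _ h => by
      exact_mod_cast h) ((markov hm.1 (fun η _ => Nat.cast_nonneg _) hK0).trans ?_)
    rw [div_eq_mul_one_div]
    exact mul_le_mul hm.2 e3 (by positivity) (by positivity)
  have f3 := werr_split (mu F.toMd K φ Q)
    (f := werr F.toMd K n (hh F B K pc) ⟨al K Q, Z⟩ Q Qd T)
    (a := fun η => pr (wls F.toMd (al K Q) T) (wfl F.toMd n (hh F B K pc) ⟨al K Q, Z⟩ Qd η) +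
      ind (K ≤ mass η Q) + ε) (b := fun η => ε * mass η Q)
    (((Bdd.pr _ _).add (Bdd.ind _)).add (Bdd.const ε))
    ((hm.1.mul_left ε).congr fun η => mul_left_comm _ _ _)
    (fun η => le_min zero_le_one (add_nonneg (add_nonneg (pr_nonneg _ _) (ind_nonneg _))
      (by positivity)))
    (fun η => (min_le_right _ _).trans (by
      have : (0 : ℝ) ≤ mass η Q := Nat.cast_nonneg _
      nlinarith))
  rw [ex_add _ ((Bdd.pr _ _).add (Bdd.ind _)) (Bdd.const ε), ex_add _ (Bdd.pr _ _) (Bdd.ind _),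
    ex_const, ex_mul_left] at f3
  have f4 : ε * ex (mu F.toMd K φ Q) (fun η => (mass η Q : ℝ)) ≤ ε * (C * Q.card) :=
    mul_le_mul_of_nonneg_left hm.2 hε0.le
  have f2' : ex (mu F.toMd K φ Q) (fun η => ind (K ≤ mass η Q)) ≤ C * Q.card * ε := f2
  have q1 : (Q.card : ℝ) ≤ 2 ^ (5 * n * d) := by exact_mod_cast hQ
  have q2 : (T : ℝ) + 1 ≤ 4 * 2 ^ n := by
    have : T + 1 ≤ 4 * 2 ^ n := by have := Nat.one_le_two_pow (n := n); omega
    exact_mod_cast this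
  have q3 : (1 : ℝ) ≤ 2 ^ n := one_le_pow₀ one_le_two
  have q4 : (1 : ℝ) ≤ 2 ^ (5 * n * d) := one_le_pow₀ one_le_two
  have q5 : (2 : ℝ) ^ ((5 * d + 5) * n) * er n = 2 ^ (5 * n * d) * 2 ^ n := by
    unfold er
    rw [show (5 * d + 5) * n = 5 * n * d + n + 4 * n by ring, pow_add, pow_add, mul_assoc,
      ← mul_pow]
    norm_num
  have q6 : (2 * C + 9) * (2 ^ (5 * n * d) * 2 ^ n) * ε ≤ er n := by
    have := mul_le_mul_of_nonneg_right h3 (er_le_e2 n).1.le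
    rw [← q5]
    nlinarith
  have q0 : (0 : ℝ) ≤ Q.card := Nat.cast_nonneg _
  generalize (2 : ℝ) ^ (5 * n * d) = X at *
  generalize (2 : ℝ) ^ n = Y at *
  have r1 : ((T : ℝ) + 1) * Q.card ≤ 4 * Y * X := mul_le_mul q2 q1 q0 (by linarith)
  have r2 : (Q.card : ℝ) ≤ X * Y := q1.trans (le_mul_of_one_le_right (by linarith) q3)
  have r3 : 1 ≤ X * Y := one_le_mul_of_one_le_of_one_le q4 q3
  have r4 : C * Q.card ≤ C * (X * Y) := mul_le_mul_of_nonneg_left r2 (by linarith)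
  nlinarith [mul_le_mul_of_nonneg_right r1 hε0.le, mul_le_mul_of_nonneg_right r4 hε0.le,
    mul_le_mul_of_nonneg_right r3 hε0.le]

end Pool.Agent.Lib.MP_dd0771_pr.Sc
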