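import Pool.Agent.Lib.MP_dd0771_pr.Sc.WwA

/-! The fast and the slow case in one world: probabilities of the chain events. -/

open Filter

namespace Pool.Agent.Lib.MP_dd0771_pr.Sc

variable {d : ℕ} {F : Fr} {B : Bs} {K n : ℕ}

/-- The affine signed permutation that carries the origin to `y`. -/
def wwPs (y : S d) (e : Equiv.Perm (Fin d)) (sg : Fin d → Bool) (x : S d) : S d :=
  y + sp e sg (x - 0)

theorem wwPs_nrm (y : S d) (e : Equiv.Perm (Fin d)) (sg : Fin d → Bool) (a b : S d) :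
    nrm (wwPs y e sg a - wwPs y e sg b) = nrm (a - b) := by
  unfold wwPs
  rw [add_sub_add_left_eq_sub, ← sp_sub, nrm_sp, sub_sub_sub_cancel_right]

theorem wwPs_mem (y : S d) (e : Equiv.Perm (Fin d)) (sg : Fin d → Bool) {L : ℕ} {x : S d}
    (hx : x ∈ bx 0 L) : wwPs y e sg x ∈ bx y L := by
  rw [mem_bx] at hx ⊢
  unfold wwPs
  rwa [add_sub_cancel_left, nrm_sp]

theorem wwPs_apply (y : S d) (e : Equiv.Perm (Fin d)) (s : Bool) (x : S d) (i : Fin d) :
    wwPs y e (fun _ => s) x i = y i + if s then x (e i) else -x (e i) := by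
  simp [wwPs, sp]

theorem wwTr (hL : Low d F) (φ : ℝ) (y : S d) (e : Equiv.Perm (Fin d)) (sg : Fin d → Bool)
    (L T : ℕ) {f g : Tj d → ℝ} (hf : Bdd f) (hg : Bdd g)
    (h : ∀ I, RegT (bx 0 L) {0} I → f I ≤ g fun u => (I u).image (wwPs y e sg)) :
    wX F.toMd K φ (bx 0 (2 * L)) (bx 0 L) {0} T f ≤
      wX F.toMd K φ (bx y (2 * L)) (bx y L) {y} T g := by
  rw [hL.hSYM K φ 0 y e sg (2 * L) L T g (by omega)]
  exact wX_mono hf (hg.comp _) h

theorem ww_alive {Z Y0 : Finset (S d)} {I : Tj d} (h : RegT Z Y0 I) {u u' : ℕ} (hu : u ≤ u')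
    (hx : (I u').Nonempty) : (I u).Nonempty := by
  induction u', hu using Nat.le_induction with
  | base => exact hx
  | succ k _ ih => exact ih (h.2.2 k hx)

theorem ww_chn_image {V T : ℕ} {I : Tj d} (h : Chn V T I) (ψ : S d → S d)
    (h1 : ∀ a b, nrm (ψ a - ψ b) ≤ nrm (a - b)) : Chn V T fun u => (I u).image ψ := by
  intro u hu x' hx'
  obtain ⟨a, ha, rfl⟩ := Finset.mem_image.1 hx'
  obtain ⟨b, hb, hab⟩ := h u hu a ha
  exact ⟨ψ b, Finset.mem_image_of_mem _ hb, (h1 a b).trans hab⟩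

theorem ww_bdd (E : Tj d → Prop) {u : ℝ} (hu : 0 ≤ u) (N : Tj d → ℕ) :
    Bdd fun I => ind (E I) * min 1 (u * N I) :=
  (Bdd.ind E).mul (Bdd.of01 fun _ => ⟨le_min zero_le_one (by positivity), min_le_left _ _⟩)

theorem ww_horizon {C : Ty} {V T T' : ℕ} (hT : T ≤ T') :
    cP F.toMd K C (0 : S d) T' (fun I => Chn V T' I ∧ (I T').Nonempty) ≤
      cP F.toMd K C (0 : S d) T fun I => Chn V T I ∧ (I T).Nonempty := by
  unfold cP
  rw [← wP_horizon hT (E := fun I => Chn V T I ∧ (I T).Nonempty)]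
  · exact wP_mono fun I hI h => ⟨fun u hu => h.1 u (by omega), ww_alive hI hT h.2⟩
  · intro I J hIJ h
    refine ⟨fun u hu => ?_, hIJ T le_rfl ▸ h.2⟩
    rw [← hIJ (u + 1) (by omega), ← hIJ u (by omega)]
    exact h.1 u hu

/-- The slow case: many checkpoints on one side. -/
theorem wwSlow (hL : Low d F) {C : Ty} {Tf Mn U : ℕ} {u q : ℝ} (hu : 0 ≤ u) (hM : 2 ≤ u * Mn)
    (hU : RR F B n ≤ U) (hT : Mn * U ≤ Tf)
    (hq : q ≤ cP F.toMd K C (0 : S d) (B.n0 + Tf) fun I =>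
      Chn (VV n) (B.n0 + Tf) I ∧ (I (B.n0 + Tf)).Nonempty) (y : S d) (i : Fin d) :
    q / 2 ≤ wX F.toMd K C.1 (bx y (2 * C.2)) (bx y C.2) {y} (B.n0 + Mn * U) fun I =>
      ind (I B.n0).Nonempty * min 1 (u * Ncnt F B n (bx y C.2)
        (rReg ((bx y C.2).filter fun z => y i ≤ z i)) Mn U I) := by
  have h1 := hq.trans (ww_horizon (T := B.n0 + Mn * U) (by omega))
  let P : Bool → Finset (S d) := fun s =>
    (bx 0 C.2).filter fun z => 0 ≤ if s then z i else -z i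
  let f : Bool → Tj d → ℝ := fun s I =>
    ind (I B.n0).Nonempty * min 1 (u * Hcnt F B n (bx 0 C.2) (P s) Mn U I)
  have hf : ∀ s, Bdd (f s) := fun s => ww_bdd _ hu _
  have h2 : ∀ s, wX F.toMd K C.1 (bx 0 (2 * C.2)) (bx 0 C.2) {0} (B.n0 + Mn * U) (f s) ≤
      wX F.toMd K C.1 (bx y (2 * C.2)) (bx y C.2) {y} (B.n0 + Mn * U) fun I =>
      ind (I B.n0).Nonempty * min 1 (u * Ncnt F B n (bx y C.2)
        (rReg ((bx y C.2).filter fun z => y i ≤ z i)) Mn U I) := by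
    intro s
    refine wwTr hL C.1 y 1 (fun _ => s) C.2 _ (hf s) (ww_bdd _ hu _) fun I _ => ?_
    refine mul_le_mul (ind_mono fun h => h.image _) (min_le_min le_rfl ?_)
      (le_min zero_le_one (by positivity)) (ind_nonneg _)
    refine mul_le_mul_of_nonneg_left ?_ hu
    refine Nat.cast_le.2 (le_trans (hcnt_image Mn U I (wwPs y 1 fun _ => s)
      (fun a b => (wwPs_nrm _ _ _ a b).le) (fun z hz => wwPs_mem _ _ _ hz) fun z hz hzP => ?_)
      (hcnt_le _ _ _ _ _))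
    refine Finset.mem_filter.2 ⟨wwPs_mem _ _ _ hz, ?_⟩
    have := (Finset.mem_filter.1 hzP).2
    rw [wwPs_apply]
    simpa using this
  have h3 : cP F.toMd K C (0 : S d) (B.n0 + Mn * U) (fun I => Chn (VV n) (B.n0 + Mn * U) I ∧
      (I (B.n0 + Mn * U)).Nonempty) ≤ wX F.toMd K C.1 (bx 0 (2 * C.2)) (bx 0 C.2) {0}
      (B.n0 + Mn * U) fun I => f true I + f false I := by
    unfold cP wP
    refine wX_mono (Bdd.ind _) ((hf true).add (hf false)) fun I hI => ?_
    by_cases hE : Chn (VV n) (B.n0 + Mn * U) I ∧ (I (B.n0 + Mn * U)).Nonempty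
    · have ha : (I B.n0).Nonempty := ww_alive hI (by omega) hE.2
      have hc := hcnt_add (P1 := P true) (P2 := P false) hE.1 hI.2.1 hU le_rfl hE.2 fun z hz => by
        simp only [P, Finset.mem_filter, hz, true_and, if_true, Bool.false_eq_true, if_false]
        omega
      have hc' : (Mn : ℝ) ≤ Hcnt F B n (bx 0 C.2) (P true) Mn U I +
          Hcnt F B n (bx 0 C.2) (P false) Mn U I := by exact_mod_cast hc
      have hc2 := mul_le_mul_of_nonneg_left hc' hu
      simp only [f]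
      rw [ind_pos hE, ind_pos ha, one_mul, one_mul]
      have p1 : (0 : ℝ) ≤ u * Hcnt F B n (bx 0 C.2) (P true) Mn U I := by positivity
      have p2 : (0 : ℝ) ≤ u * Hcnt F B n (bx 0 C.2) (P false) Mn U I := by positivity
      rw [mul_add] at hc2
      rcases le_total 1 (u * Hcnt F B n (bx 0 C.2) (P true) Mn U I) with h | h
      · rw [min_eq_left h]
        linarith [le_min zero_le_one p2]
      · rw [min_eq_left (show 1 ≤ u * Hcnt F B n (bx 0 C.2) (P false) Mn U I by linarith)]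
        linarith [le_min zero_le_one p1]
    · rw [ind_neg hE]
      have p : ∀ s, 0 ≤ f s I := fun s =>
        mul_nonneg (ind_nonneg _) (le_min zero_le_one (by positivity))
      linarith [p true, p false]
  rw [wX_add (hf true) (hf false)] at h3
  linarith [h2 true, h2 false]

/-- The fast case: a far point in the chosen direction. -/
theorem wwFast (hL : Low d F) (hd : 1 ≤ d) {C : Ty} {mb r : ℕ} {q : ℝ}
    (hsb : 1 ≤ sb F B n (ls n)) (hn0 : B.n0 ≤ RR F B n) (hr : VV n * RR F B n < r)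
    (hq : q ≤ cP F.toMd K C (0 : S d) (B.n0 + mb * sb F B n (ls n)) fun I =>
      Chn (VV n) (B.n0 + mb * sb F B n (ls n)) I ∧ ∃ u, B.n0 ≤ u ∧
        u ≤ B.n0 + mb * sb F B n (ls n) ∧ ∃ x ∈ I u, r + VV n * RR F B n ≤ nrm x)
    (y : S d) (i : Fin d) :
    q / (2 * d) ≤ cP F.toMd K C y (B.n0 + mb * sb F B n (ls n)) fun I =>
      (I B.n0).Nonempty ∧ CE F B n (bx y C.2) (rReg ((bx y C.2).filter fun z => y i + r ≤ z i)) mb
        (fun _ => True) fun u => I (B.n0 + u) := by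
  set T := B.n0 + mb * sb F B n (ls n) with hT
  let E : Fin d × Bool → Tj d → Prop := fun p I => Chn (VV n) T I ∧ ∃ u, B.n0 ≤ u ∧ u ≤ T ∧
    ∃ x ∈ I u, (r : ℤ) + (VV n * RR F B n : ℕ) ≤ if p.2 then x p.1 else -x p.1
  have h1 := hq.trans (wP_union_le Finset.univ E fun I _ h => by
    obtain ⟨hc, u, hu1, hu2, x, hx, hn⟩ := h
    obtain ⟨j, hj⟩ := exists_nrm_eq hd x
    have hn' : (r : ℤ) + (VV n * RR F B n : ℕ) ≤ |x j| := by rw [hj]; exact_mod_cast hn
    rcases le_abs.1 hn' with h | h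
    · exact ⟨(j, true), Finset.mem_univ _, hc, u, hu1, hu2, x, hx, by simpa using h⟩
    · exact ⟨(j, false), Finset.mem_univ _, hc, u, hu1, hu2, x, hx, by simpa using h⟩)
  have h2 : ∀ p ∈ (Finset.univ : Finset (Fin d × Bool)),
      wP F.toMd K C.1 (bx 0 (2 * C.2)) (bx 0 C.2) {0} T (E p) ≤
      cP F.toMd K C y T fun I => (I B.n0).Nonempty ∧ CE F B n (bx y C.2)
        (rReg ((bx y C.2).filter fun z => y i + r ≤ z i)) mb (fun _ => True)
        fun u => I (B.n0 + u) := by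
    intro p _
    unfold cP wP
    refine wwTr hL C.1 y (Equiv.swap i p.1) (fun _ => p.2) C.2 T (Bdd.ind _) (Bdd.ind _)
      fun I hI => ind_mono fun h => ?_
    obtain ⟨hc, u, hu1, hu2, x, hx, hn⟩ := h
    refine ⟨(ww_alive hI hu1 ⟨x, hx⟩).image _, ?_⟩
    have hs := hc.speed hI.1 hu2 hx
    rw [sub_zero] at hs
    have hab := abs_le.1 (abs_le_nrm x p.1)
    have hnx : r + VV n * RR F B n ≤ nrm x := by
      have : (r : ℤ) + (VV n * RR F B n : ℕ) ≤ nrm x := by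
        split_ifs at hn <;> linarith [hab.1, hab.2]
      exact_mod_cast this
    have hu3 : B.n0 + RR F B n ≤ u := by
      by_contra hlt
      have : VV n * u ≤ VV n * (2 * RR F B n) := Nat.mul_le_mul_left _ (by omega)
      rw [Nat.mul_left_comm] at this
      omega
    refine ce_far (I := fun u => (I u).image (wwPs y (Equiv.swap i p.1) fun _ => p.2)) hsb
      (ww_chn_image hc _ fun a b => (wwPs_nrm _ _ _ a b).le) (fun v z hz => ?_) hu2 hu3 hu2
      (Finset.mem_image_of_mem _ hx) fun z hz hzx => Finset.mem_filter.2 ⟨hz, ?_⟩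
    · obtain ⟨a, ha, rfl⟩ := Finset.mem_image.1 hz
      exact wwPs_mem _ _ _ (hI.2.1 v ha)
    · have h3 := (abs_le.1 (nrm_le_iff.1 hzx i)).1
      rw [Pi.sub_apply, wwPs_apply, Equiv.swap_apply_left] at h3
      linarith
  have h3 := h1.trans (Finset.sum_le_sum h2)
  rw [Finset.sum_const, Finset.card_univ, Fintype.card_prod, Fintype.card_fin, Fintype.card_bool,
    nsmul_eq_mul] at h3
  have hd' : (0 : ℝ) < d := by exact_mod_cast hd
  rw [div_le_iff₀ (by positivity)]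
  push_cast at h3
  linarith

/-- Either alive at the end or far out before. -/
theorem wwDich (hE : Eng d F) :
    EvB d F fun B n K => ∀ (C : Ty) (ρ T : ℕ), C.1 = B.p 1 → TyOk F B n (B.p 1) C →
      T ≤ 2 ^ (n + 1) - B.n0 → 8 * ρ ≤ 7 * C.2 →
      (4 / 5 * B.th ≤ cP F.toMd K C (0 : S d) (B.n0 + T) fun I =>
        Chn (VV n) (B.n0 + T) I ∧ (I (B.n0 + T)).Nonempty) ∨
      1 / 10 * B.th ≤ cP F.toMd K C (0 : S d) (B.n0 + T) fun I =>
        Chn (VV n) (B.n0 + T) I ∧ ∃ u, B.n0 ≤ u ∧ u ≤ B.n0 + T ∧ ∃ x ∈ I u, ρ ≤ nrm x := by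
  intro B hB
  have hth : 0 < B.th := hB.2.2.2.1
  filter_upwards [hE.hAT B hB, er_small (show 0 < B.th / 20 by positivity)] with n h1 he K hK C ρ T
    hC hty hT hρ
  have hhi : C.1 ≤ F.hi := by
    have := hB.2.1
    have h5 := hB.2.2.1
    rw [hC]; unfold Bs.p; push_cast; linarith
  have h2 := (h1 K hK C 0 T hC.ge hhi hty.2.2.2.1 hty.2.2.2.2 hT).trans (wP_le_add
    (E1 := fun I => Chn (VV n) (B.n0 + T) I ∧ (I (B.n0 + T)).Nonempty)
    (E2 := fun I => Chn (VV n) (B.n0 + T) I ∧ ∃ u, B.n0 ≤ u ∧ u ≤ B.n0 + T ∧ ∃ x ∈ I u, ρ ≤ nrm x)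
    fun I _ h => by
      rcases h with ⟨hc, h | ⟨u, hu1, hu2, x, hx, hn⟩⟩
      · exact Or.inl ⟨hc, h⟩
      · rw [sub_zero] at hn
        exact Or.inr ⟨hc, u, hu1, hu2, x, hx, by omega⟩)
  by_contra hcon
  rw [not_or, not_le, not_le] at hcon
  have h3 : 99 / 100 * B.th ≤ B.thm := by
    have := hB.2.2.2.2.2.2.1
    unfold Bs.thm; nlinarith
  unfold cP at hcon
  linarith [hcon.1, hcon.2, he.2.1]

end Pool.Agent.Lib.MP_dd0771_pr.Sc
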