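import Pool.Agent.Lib.MP_dd0771_pr.Sc.Kit
import Pool.Agent.Lib.MP_dd0771_pr.Sc.WwB

open Filter

namespace Pool.Agent.Lib.MP_dd0771_pr.Sc

/-- The gain `24 H` at a bounded cost, in the fast and in the slow case. -/
theorem wwCore {d : ℕ} {F : Fr} (hd : 2 ≤ d) (hF : F.Ok) (hL : Low d F) (hE : Eng d F)
    (hF0 : S_F0 d F) : ∃ (c : ℝ) (q : ℕ), 0 < c ∧ c ≤ 1 / 8 ∧ 1 ≤ q ∧
    EvB d F fun B n K => ∀ (M : Amb d) (C : Ty) (i : Fin d) (H j : ℕ), wwAm F B K n M C →
      C.1 = B.p 1 → C.2 = 2 * H → 24 * H ≤ 2 ^ j → RR F B n * q ^ j ≤ 2 ^ n →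
      wwG F B K n M C i (24 * H) c (24 * (RR F B n * q ^ j)) := by
  obtain ⟨c1, hc0, hc1, hF0⟩ := hF0
  have hd1 : (1 : ℝ) ≤ d := by exact_mod_cast (show 1 ≤ d by omega)
  set κ : ℝ := min (c1 / 2) (1 / 8) with hκ
  have hκ0 : 0 < κ := lt_min (by positivity) (by norm_num)
  have hκ1 : κ ≤ 1 / 8 := min_le_right _ _
  obtain ⟨M', hM'⟩ := exists_nat_ge (2 / (κ * κ))
  have hM2 : 2 ≤ κ * κ * M' := by
    rw [div_le_iff₀ (by positivity)] at hM'
    linarith
  have hM1 : 1 ≤ M' := by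
    rcases Nat.eq_zero_or_pos M' with h | h
    · rw [h] at hM2; norm_num at hM2
    · exact h
  have hp0 : (0 : ℝ) < 1 / (20 * d) := by positivity
  have hp1 : (1 : ℝ) / (20 * d) ≤ 1 := by
    rw [div_le_one (by positivity)]; linarith
  refine ⟨min κ ((1 / (20 * d) / 2) ^ 24), 3 * M', lt_min hκ0 (by positivity),
    (min_le_left _ _).trans hκ1, by omega, ?_⟩
  intro B hB
  filter_upwards [hF0 B hB, wwOne hE hc0 hc1 B hB, wwOne hE hp0 hp1 B hB, wwBoost hE B hB,
    wwDich hE B hB, scales hF B, le_of_Lmin hF B] with n h0 h1 h2 h3 h4 hs hl K hK M C i H j hA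
    hC1 hC2 hj hT
  obtain ⟨s1, -, -, -, s5, s6, -, -⟩ := hs
  obtain ⟨-, l2, l3, -⟩ := hl C.2 hA.ty.2.2.2.1
  have hn0 : B.n0 ≤ RR F B n := le_trans (by unfold sq; omega) s6
  have hB1 : 1 ≤ B.n0 := hB.2.2.2.2.2.2.2
  have hX : 1 ≤ VV n * RR F B n := Nat.mul_pos (Nat.pow_pos (by omega)) (by omega)
  have hn2 : n < 2 ^ n := Nat.lt_two_pow_self
  have hq1 : ∀ k, 1 ≤ (3 * M') ^ k := fun k => Nat.pow_pos (by omega)
  have hRT : RR F B n ≤ RR F B n * (3 * M') ^ j := Nat.le_mul_of_pos_right _ (hq1 j)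
  have hTf : (mm F n + 2) * (3 * M') ^ j * sb F B n (ls n) = RR F B n * (3 * M') ^ j := by
    unfold RR; ring
  rcases h4 K hK C (H + VV n * RR F B n) (RR F B n * (3 * M') ^ j) hC1 hA.ty
    (by rw [pow_succ]; omega) (by omega) with h | h
  · have hhi : C.1 ≤ F.hi := by
      have := hB.2.1
      have h5 := hB.2.2.1
      rw [hC1]; unfold Bs.p; push_cast; linarith
    have hR : (mm F n + 1) * sb F B n (ls n) ≤ RR F B n := Nat.mul_le_mul_right _ (by omega)
    have key : ∀ k, k ≤ j → wwG F B K n M C i (2 ^ k) κ (RR F B n * (3 * M') ^ k) := by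
      intro k
      induction k with
      | zero =>
        intro _
        refine wwG_mono (h1 K hK M C i 1 (mm F n + 1) hA (by rw [pow_succ]; omega) fun y => ?_)
          le_rfl (min_le_left _ _) (by simpa using hR)
        simpa only [Nat.cast_one] using h0 K hK C y i hC1.ge hhi hA.ty.2.2.2.1 hA.ty.2.2.2.2
      | succ k ih =>
        intro hk
        have g1 := wwG_comp (ih (by omega)) (ih (by omega)) hκ0.le (by linarith)
        have hU : RR F B n ≤ RR F B n * (3 * M') ^ k := Nat.le_mul_of_pos_right _ (hq1 k)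
        have hle : M' * (RR F B n + (RR F B n * (3 * M') ^ k + RR F B n * (3 * M') ^ k)) ≤
            RR F B n * (3 * M') ^ (k + 1) := by
          have e : RR F B n * (3 * M') ^ (k + 1) = M' * (3 * (RR F B n * (3 * M') ^ k)) := by ring
          rw [e]
          exact Nat.mul_le_mul_left _ (by omega)
        have hle2 : RR F B n * (3 * M') ^ (k + 1) ≤ RR F B n * (3 * M') ^ j :=
          Nat.mul_le_mul_left _ (Nat.pow_le_pow_right (by omega) hk)
        refine wwG_mono (h3 K hK M C i _ _ M' (κ * κ) hA (by positivity) (by nlinarith)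
          (by omega) (fun y => ?_) g1) (by rw [pow_succ]; omega) hκ1 hle
        exact le_trans (by linarith) (wwSlow hL (by positivity) hM2 (Nat.le_add_right _ _)
          (hle.trans hle2) h y i)
    exact wwG_mono (key j le_rfl) hj (min_le_left _ _) (by omega)
  · rw [← hTf] at h
    have g1 := h2 K hK M C i H ((mm F n + 2) * (3 * M') ^ j) hA (by rw [hTf, pow_succ]; omega)
      fun y => le_trans (le_of_eq (by field_simp; ring))
        (wwFast hL (by omega) s5 hn0 (by omega) h y i)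
    rw [hTf] at g1
    exact wwG_mono (wwG_pow g1 (by positivity) (by linarith) 24) le_rfl (min_le_right _ _) le_rfl

theorem s_w {d : ℕ} {F : Fr} (hd : 2 ≤ d) (hF : F.Ok) (hL : Low d F) (hE : Eng d F)
    (hF0 : S_F0 d F) :
    S_W d F := by
  obtain ⟨c, q, hc0, hc1, hq1, hcore⟩ := wwCore hd hF hL hE hF0
  refine ⟨c / 2, q + 2, 1, q + 2, by positivity, by linarith, one_pos, by omega, le_rfl, ?_⟩
  intro B hB _
  have hth : 0 < B.th := hB.2.2.2.1
  have hg : 0 < B.g := hB.2.1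
  have he0 : 0 < B.eps := hB.2.2.2.2.2.1
  have he1 : B.eps ≤ 1 / 100 := hB.2.2.2.2.2.2.1
  have ht : Tendsto (fun m : ℕ => (q + 2) * m) atTop atTop :=
    tendsto_id.const_mul_atTop' (by omega)
  filter_upwards [EvN.comp (hcore B hB) ht, EvN.comp (hE.hWA B hB) ht, EvN.comp (hE.hV0 B hB) ht,
    ht.eventually (scales hF B), ht.eventually (le_of_Lmin hF B),
    ht.eventually (card_le (d := d) (by omega)),
    ht.eventually (er_small (show 0 < c * B.th / 4 by positivity)),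
    (tendsto_sub_atTop_nat 4).eventually (Lmin_le F B 2), eventually_ge_atTop (q + 10)]
    with m h1 h2 h3 hs hl hcard her hLm hm K hK
  obtain ⟨x, rfl⟩ : ∃ x, m = x + 5 := ⟨m - 5, by omega⟩
  set n := (q + 2) * (x + 5) with hn
  have hL32 : 2 ^ (x + 5) = 32 * 2 ^ x := by ring
  have hmn : x + 5 ≤ n := Nat.le_mul_of_pos_left _ (by omega)
  have hn2 : n < 2 ^ n := Nat.lt_two_pow_self
  have hmn2 : 2 ^ (x + 5) ≤ 2 ^ n := Nat.pow_le_pow_right (by omega) hmn
  have hpow : (2 ^ (x + 5)) ^ (q + 2) = 2 ^ n := by rw [← pow_mul, hn, mul_comm]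
  have hLmin : Lmin F B n ≤ 2 * 2 ^ x := by
    have := hLm n (by
      have e : x + 5 - 4 = x + 1 := by omega
      rw [e, hn]; nlinarith)
    have e : x + 5 - 4 = x + 1 := by omega
    rwa [e, pow_succ, mul_comm] at this
  have hty : TyOk F B n (B.p 1) (B.p 1, 2 * 2 ^ x) := by
    refine ⟨?_, le_rfl, ?_, hLmin, ?_⟩
    · unfold Bs.p; push_cast; linarith
    · unfold Bs.p; push_cast; linarith
    · show 2 * 2 ^ x ≤ 2 ^ n
      omega
  obtain ⟨s1, -, -, -, -, -, -, -⟩ := hs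
  obtain ⟨-, l2, l3, -⟩ := hl _ hLmin
  have hV : 1 ≤ VV n := Nat.pow_pos (by omega)
  have hRR : RR F B n ≤ 2 ^ (x + 5) := by
    have := Nat.le_mul_of_pos_left (RR F B n) hV
    omega
  have hU : 24 * (RR F B n * q ^ (x + 5)) ≤ 2 ^ n := by
    have a1 : q ^ (x + 5) ≤ (2 ^ q) ^ (x + 5) := Nat.pow_le_pow_left Nat.lt_two_pow_self.le _
    have a2 : 24 ≤ 2 ^ (x + 5) := by
      have : 1 ≤ 2 ^ x := Nat.pow_pos (by omega)
      omega
    calc 24 * (RR F B n * q ^ (x + 5)) ≤ 2 ^ (x + 5) * (2 ^ (x + 5) * (2 ^ q) ^ (x + 5)) :=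
          Nat.mul_le_mul a2 (Nat.mul_le_mul hRR a1)
      _ = 2 ^ n := by rw [hn]; ring
  obtain ⟨M, Φ, hM, hQ, hZ, hu0, hΦ, hgoal, hfin⟩ := h2 K hK (B.p 1) (B.p 2)
    (bx 0 (2 * 2 ^ (x + 5))) (bx 0 (2 * 2 ^ (x + 5))) (bx 0 (2 ^ (x + 5))) 0 B.n0
    (B.n0 + (2 ^ (x + 5)) ^ (q + 2)) (fun I => ∃ z ∈ I, 11 * 2 ^ (x + 5) / 16 ≤ nrm z) hty.1
    (by unfold Bs.p; push_cast; linarith)
    (by have := hB.2.2.1; unfold Bs.p; push_cast; linarith) subset_rfl (bx_mono _ (by omega))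
    (by
      rw [card_bx]
      refine le_trans ?_ hcard
      have a1 : 2 ^ (x + 5 + 2) ≤ 2 ^ (4 * n + 3) := Nat.pow_le_pow_right (by omega) (by omega)
      have a2 : (2 * (2 * 2 ^ (x + 5)) + 1) ^ d ≤ (2 ^ (4 * n + 3) + 1) ^ d :=
        Nat.pow_le_pow_left (by rw [pow_add _ _ 2] at a1; omega) _
      omega)
    (by omega) (by rw [hpow, pow_succ]; omega)
  have hA : wwAm F B K n M (B.p 1, 2 * 2 ^ x) :=
    ⟨hM, hu0, by rw [hQ]; exact bx_mono _ (by simp only; omega),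
      by rw [hZ]; exact bx_mono _ (by simp only; omega), hty⟩
  have i : Fin d := ⟨0, by omega⟩
  have hG := h1 K hK M (B.p 1, 2 * 2 ^ x) i (2 ^ x) (x + 5) hA rfl rfl (by omega) (by omega)
  have hval := hG (24 * 2 ^ x : ℕ) 0 Φ 1 (1 * (1 - 6 * B.eps)) B.n0 (by rw [nrm_zero]; omega)
    (by simp) (hΦ.weaken (by omega) le_rfl) (by linarith) (by linarith) (by
      intro z t ht1 ht2 _ hz
      refine h3 K hK (B.p 1) M Φ _ 1 1 _ {z} t hty hΦ (by omega) (apart_single _ _) zero_le_one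
        le_rfl fun s hs hx => ?_
      obtain ⟨w, hw, hwz⟩ := hx z (Finset.mem_singleton_self z)
      refine hgoal s (by omega) (by omega) ⟨w, hw, ?_⟩
      have a1 : 24 * 2 ^ x ≤ nrm z := by
        rcases hz with hz | hz
        · have := (hz.trans (le_abs_self _)).trans (abs_le_nrm z i)
          exact_mod_cast this
        · simp only at hz; omega
      have a2 := mem_bx.1 hwz
      have a3 := nrm_add_le (z - w) w
      rw [sub_add_cancel, nrm_sub_comm] at a3
      simp only at a2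
      omega)
  have hres := hfin _ _ hty (hA.adm (by rw [nrm_zero]; positivity))
    (mul_nonneg hc0.le (by linarith)) hval
  refine le_trans ?_ hres
  have a1 : 3 / 4 ≤ (1 - B.eps) * (1 - 6 * B.eps) := by nlinarith
  have a2 : B.thm * (c * (1 * (1 - 6 * B.eps))) = c * B.th * ((1 - B.eps) * (1 - 6 * B.eps)) := by
    unfold Bs.thm; ring
  have a3 : 0 < c * B.th := by positivity
  rw [a2]
  nlinarith [her.1]

end Pool.Agent.Lib.MP_dd0771_pr.Sc
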