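import Pool.Agent.Lib.MP_dd0771_pr.Sc.Stat
import Pool.Agent.Lib.MP_dd0771_pr.Sc.Rev
import Pool.Agent.Lib.MP_dd0771_pr.Sc.Fkc
import Pool.Agent.Lib.MP_dd0771_pr.Sc.Um
import Pool.Agent.Lib.MP_dd0771_pr.Sc.Gap
import Pool.Agent.Lib.MP_dd0771_pr.Sc.Occ
import Pool.Agent.Lib.MP_dd0771_pr.Sc.Slw
import Pool.Agent.Lib.MP_dd0771_pr.Sc.Chn
import Pool.Agent.Lib.MP_dd0771_pr.Sc.Early
import Pool.Agent.Lib.MP_dd0771_pr.Sc.Tp
import Pool.Agent.Lib.MP_dd0771_pr.Sc.Trk0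
import Pool.Agent.Lib.MP_dd0771_pr.Sc.Track
import Pool.Agent.Lib.MP_dd0771_pr.Sc.Werr
import Pool.Agent.Lib.MP_dd0771_pr.Sc.En0
import Pool.Agent.Lib.MP_dd0771_pr.Sc.Mono
import Pool.Agent.Lib.MP_dd0771_pr.Sc.Dom
import Pool.Agent.Lib.MP_dd0771_pr.Sc.Prod
import Pool.Agent.Lib.MP_dd0771_pr.Sc.Iso
import Pool.Agent.Lib.MP_dd0771_pr.Sc.Sym
import Pool.Agent.Lib.MP_dd0771_pr.Sc.IsoRun
import Pool.Agent.Lib.MP_dd0771_pr.Sc.Al
import Pool.Agent.Lib.MP_dd0771_pr.Sc.Pbad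
import Pool.Agent.Lib.MP_dd0771_pr.Sc.Qst
import Pool.Agent.Lib.MP_dd0771_pr.Sc.Pha
import Pool.Agent.Lib.MP_dd0771_pr.Sc.Try
import Pool.Agent.Lib.MP_dd0771_pr.Sc.Engs
import Pool.Agent.Lib.MP_dd0771_pr.Sc.Engw
import Pool.Agent.Lib.MP_dd0771_pr.Sc.Gen
import Pool.Agent.Lib.MP_dd0771_pr.Sc.Live
import Pool.Agent.Lib.MP_dd0771_pr.Sc.Livw
import Pool.Agent.Lib.MP_dd0771_pr.Sc.At
import Pool.Agent.Lib.MP_dd0771_pr.Sc.Slp
import Pool.Agent.Lib.MP_dd0771_pr.Sc.Sl2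
import Pool.Agent.Lib.MP_dd0771_pr.Sc.Sls
import Pool.Agent.Lib.MP_dd0771_pr.Sc.One
import Pool.Agent.Lib.MP_dd0771_pr.Sc.Wb
import Pool.Agent.Lib.MP_dd0771_pr.Sc.Hit
import Pool.Agent.Lib.MP_dd0771_pr.Sc.V0
import Pool.Agent.Lib.MP_dd0771_pr.Sc.Weak
import Pool.Agent.Lib.MP_dd0771_pr.Sc.Wa
import Pool.Agent.Lib.MP_dd0771_pr.Sc.Ambs
import Pool.Agent.Lib.MP_dd0771_pr.Sc.Hov
import Pool.Agent.Lib.MP_dd0771_pr.Sc.Boost
import Pool.Agent.Lib.MP_dd0771_pr.Sc.Cl1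
import Pool.Agent.Lib.MP_dd0771_pr.Sc.Climb
import Pool.Agent.Lib.MP_dd0771_pr.Sc.App
import Pool.Agent.Lib.MP_dd0771_pr.Sc.F0
import Pool.Agent.Lib.MP_dd0771_pr.Sc.Ww
import Pool.Agent.Lib.MP_dd0771_pr.Sc.Ld
import Pool.Agent.Lib.MP_dd0771_pr.Sc.F1
import Pool.Agent.Lib.MP_dd0771_pr.Sc.F2
import Pool.Agent.Lib.MP_dd0771_pr.Sc.Bb
import Pool.Agent.Lib.MP_dd0771_pr.Sc.Aa
import Pool.Agent.Lib.MP_dd0771_pr.Sc.Base
import Pool.Agent.Lib.MP_dd0771_pr.Sc.Mainq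
import Pool.Agent.Lib.MP_dd0771_pr.Sc.P1

namespace Pool.Agent.Lib.MP_dd0771_pr.Sc

theorem disc0 {d : ℕ} {F : Fr} (hd : 2 ≤ d) (hF : F.Ok) (hP1 : S_P1 d F) (hTH : S_TH d F) :
    S_MAIN d F := by
  have hSTAT : S_STAT d F := s_stat hd hF
  have hREV : S_REV d F := s_rev hd hF hSTAT
  have hFKC : S_FKC d F := s_fkc hd hF hSTAT hREV
  have hUM : S_UM d F := s_um hd hF
  have hGAP : S_GAP d F := s_gap hd hF
  have hOCC : S_OCC d F := s_occ hd hF hSTAT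
  have hSLOW : S_SLOW d F := s_slow hd hF hOCC
  have hCHN : S_CHN d F := s_chn hd hF hSTAT hSLOW
  have hEARLY : S_EARLY d F := s_early hd hF
  have hTP : S_TP d F := s_tp hd hF hEARLY
  have hTRK0 : S_TRK0 d F := s_trk0 hd hF hEARLY
  have hTRACK : S_TRACK d F := s_track hd hF hEARLY hTRK0 hP1
  have hWERR : S_WERR d F := s_werr hd hF hSTAT hGAP hSLOW
  have hEN0 : S_EN0 d F := s_en0 hd hF hSTAT hGAP
  have hMONO : S_MONO d F := s_mono hd hF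
  have hDOM : S_DOM d F := s_dom hd hF hTRACK hWERR hEN0
  have hPROD : S_PROD d F := s_prod hd hF
  have hISO : S_ISO d F := s_iso hd hF
  have hSYM : S_SYM d F := s_sym hd hF hISO
  have hISORUN : S_ISORUN d F := s_isorun hd hF
  have hL : Low d F := ⟨hSTAT, hREV, hFKC, hUM, hGAP, hOCC, hSLOW, hCHN, hEARLY, hP1, hTRK0, hTRACK, hWERR, hEN0, hMONO, hDOM, hPROD, hISO, hSYM, hISORUN⟩
  have hAL : S_AL d F := s_al hd hF hL
  have hPBAD : S_PBAD d F := s_pbad hd hF hL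
  have hQQ : S_QQ d F := s_qq hd hF hL hAL
  have hPHA : S_PHA d F := s_pha hd hF hL
  have hTRY : S_TRY d F := s_try hd hF hL hAL hQQ
  have hENG : S_ENG d F := s_eng hd hF hL hQQ hPHA hTRY
  have hENGW : S_ENGW d F := s_engw hd hF hL hENG
  have hGEN : S_GEN d F := s_gen hd hF hL hENGW
  have hLIVE : S_LIVE d F := s_live hd hF hL hPBAD hQQ
  have hLIVW : S_LIVW d F := s_livw hd hF hL hLIVE
  have hAT : S_AT d F := s_at hd hF hL hAL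
  have hSLP : S_SLP d F := s_slp hd hF hL hAL hGEN hLIVW hAT
  have hSL2 : S_SL2 d F := s_sl2 hd hF hL hAL hGEN hLIVW hAT
  have hSLS : S_SLS d F := s_sls hd hF hL hAL hGEN hLIVW hAT
  have hONE : S_ONE d F := s_one hd hF hL hGEN hLIVW
  have hWB : S_WB d F := s_wb hd hF hL hENGW hLIVE
  have hHIT : S_HIT d F := s_hit hd hF hL
  have hV0 : S_V0 d F := s_v0 hd hF hL hAL
  have hWEAK : S_WEAK d F := s_weak hd hF hL hAL hPBAD hQQ hGEN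
  have hWA : S_WA d F := s_wa hd hF hL hAL
  have hAMB : S_AMB d F := s_amb hd hF hL hENG hLIVE
  have hHOV : S_HOV d F := s_hov hd hF
  have hBOOST : S_BOOST d F := s_boost hd hF hHOV
  have hCL1 : S_CL1 d F := s_cl1 hd hF
  have hCLIMB : S_CLIMB d F := s_climb hd hF hCL1
  have hAPP : S_APP d F := s_app hd hF
  have hE : Eng d F := ⟨hAL, hPBAD, hQQ, hPHA, hTRY, hENG, hENGW, hGEN, hLIVE, hLIVW, hAT, hSLP, hSL2, hSLS, hONE, hWB, hHIT, hV0, hWEAK, hWA, hAMB⟩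
  have hF0 : S_F0 d F := s_f0 hd hF hL hE
  have hW : S_W d F := s_w hd hF hL hE hF0
  have hLD : S_LD d F := s_ld hd hF hL hE
  have hF1 : S_F1 d F := s_f1 hd hF hL hE
  have hF2 : S_F2 d F := s_f2 hd hF hL hE
  have hB : S_B d F := s_b hd hF hL hE hHOV hBOOST hCLIMB
  have hA : S_A d F := s_a hd hF hL hE hBOOST hAPP hW hLD hF1 hF2 hB
  have hBASE : S_BASE d F := s_base hd hF hL hTH
  have hMAIN : S_MAIN d F := s_main hd hF hL hE hA hBASE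
  exact hMAIN

/-- The discrete theorem. -/
theorem disc {d : ℕ} {F : Fr} (hd : 2 ≤ d) (hF : F.Ok) (hTH : S_TH d F) : S_MAIN d F := by
  have hE := s_early hd hF
  obtain ⟨A, hA, hP⟩ := s_p1 hd hF hE (s_tp hd hF hE)
  have hF' : ({ F with A := A } : Fr).Ok := ⟨hF.1, hF.2.1, hF.2.2.1, hF.2.2.2.1, hF.2.2.2.2.1,
    hF.2.2.2.2.2.1, hA⟩
  exact disc0 (F := { F with A := A }) hd hF' hP hTH

end Pool.Agent.Lib.MP_dd0771_pr.Sc
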