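import Pool.Agent.Lib.MP_dd0771_pr.Sc.Kit

/-! Pieces of level `j` and chains of pieces, shared by `F1` and `F2`. -/

open Filter

namespace Pool.Agent.Lib.MP_dd0771_pr.Sc

variable {d : ℕ} {F : Fr}

/-- A displacement `v` of size about `2 ^ j` that one site, or two far sites at once, can make in
any orientation with probability at least `2 ^ (-C j)`. -/
def f1Pc (d : ℕ) (F : Fr) (B : Bs) (K C CT j : ℕ) : Prop :=
  ∃ (t : ℕ) (v : S d), t ≤ B.n0 + (2 ^ j) ^ CT ∧ nrm v ≤ 2 ^ j ∧ 11 * 2 ^ j ≤ 16 * nrm v ∧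
    (∀ (Q Z : Finset (S d)) y e sg, bx y (2 * 2 ^ j) ⊆ Q → bx y (2 ^ j) ⊆ Z →
      (1 / 2 : ℝ) ^ (C * j) ≤ wP F.toMd K (B.p 3) Q Z {y} t fun I => {y + sp e sg v} ⊆ I t) ∧
    ∀ (Q Z : Finset (S d)) y1 y2 e1 sg1 e2 sg2, 4 * 2 ^ j + 2 ≤ nrm (y1 - y2) →
      bx y1 (2 * 2 ^ j) ⊆ Q → bx y1 (2 ^ j) ⊆ Z → bx y2 (2 * 2 ^ j) ⊆ Q → bx y2 (2 ^ j) ⊆ Z →
      (1 / 2 : ℝ) ^ (C * j) ≤ wP F.toMd K (B.p 3) Q Z {y1, y2} t fun I =>
        {y1 + sp e1 sg1 v, y2 + sp e2 sg2 v} ⊆ I t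

theorem f1_pigeon {G : Md} {K n0 L r T : ℕ} {φ p : ℝ} (h : p ≤ reach d G K (φ, L) n0 r T) (hp : 0 < p) :
    ∃ (t : ℕ) (v : S d), t ≤ n0 + T ∧ nrm v ≤ L ∧ r ≤ nrm v ∧
      p / (((T + 1) * (2 * L + 1) ^ d : ℕ) : ℝ) ≤
        wP G K φ (bx 0 (2 * L)) (bx 0 L) {0} t fun I => v ∈ I t := by
  classical
  set s : Finset (ℕ × S d) := Finset.Icc n0 (n0 + T) ×ˢ ((bx (0 : S d) L).filter fun x => r ≤ nrm x)
    with hs
  have h1 : p ≤ ∑ b ∈ s, wP G K φ (bx 0 (2 * L)) (bx 0 L) {0} (n0 + T) fun I => b.2 ∈ I b.1 := by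
    unfold reach cP at h
    refine h.trans (wP_union_le s (fun b I => b.2 ∈ I b.1) ?_)
    rintro I hI ⟨u, h1, h2, x, hx, hr⟩
    refine ⟨(u, x), ?_, hx⟩
    simp only [hs, Finset.mem_product, Finset.mem_Icc, Finset.mem_filter]
    exact ⟨⟨h1, h2⟩, hI.2.1 u hx, hr⟩
  have hc : s.card ≤ (T + 1) * (2 * L + 1) ^ d := by
    rw [hs, Finset.card_product, Nat.card_Icc]
    refine Nat.mul_le_mul (by omega) ?_
    exact (Finset.card_filter_le _ _).trans (card_bx _ _).le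
  have hN : (0 : ℝ) < (((T + 1) * (2 * L + 1) ^ d : ℕ) : ℝ) := by positivity
  by_contra hcon
  have h2 : ∀ b ∈ s, (wP G K φ (bx 0 (2 * L)) (bx 0 L) {0} (n0 + T) fun I => b.2 ∈ I b.1) <
      p / (((T + 1) * (2 * L + 1) ^ d : ℕ) : ℝ) := by
    intro b hb
    simp only [hs, Finset.mem_product, Finset.mem_Icc, Finset.mem_filter] at hb
    by_contra hge
    refine hcon ⟨b.1, b.2, hb.1.2, ?_, hb.2.2, ?_⟩
    · simpa using mem_bx.1 hb.2.1
    · rw [wP_horizon hb.1.2 (fun I J hIJ hI => hIJ _ le_rfl ▸ hI)] at hge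
      exact not_lt.1 hge
  rcases s.eq_empty_or_nonempty with he | he
  · rw [he, Finset.sum_empty] at h1; exact absurd h1 (not_le.2 hp)
  · have h3 := Finset.sum_lt_sum_of_nonempty he h2
    rw [Finset.sum_const, nsmul_eq_mul] at h3
    have h4 : (s.card : ℝ) * (p / (((T + 1) * (2 * L + 1) ^ d : ℕ) : ℝ)) ≤ p := by
      have : (s.card : ℝ) ≤ (((T + 1) * (2 * L + 1) ^ d : ℕ) : ℝ) := by exact_mod_cast hc
      calc _ ≤ (((T + 1) * (2 * L + 1) ^ d : ℕ) : ℝ) *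
            (p / (((T + 1) * (2 * L + 1) ^ d : ℕ) : ℝ)) := by gcongr
        _ = p := by field_simp
    linarith

theorem f1_sym (hL : Low d F) {K L t : ℕ} {φ : ℝ} (v y : S d) (e : Equiv.Perm (Fin d))
    (sg : Fin d → Bool) :
    (wP F.toMd K φ (bx 0 (2 * L)) (bx 0 L) {0} t fun I => v ∈ I t) ≤
      wP F.toMd K φ (bx y (2 * L)) (bx y L) {y} t fun I => y + sp e sg v ∈ I t := by
  unfold wP
  rw [hL.hSYM K φ 0 y e sg (2 * L) L t _ (by omega)]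
  refine wX_mono (Bdd.ind _) (Bdd.ind _) fun I _ => ind_mono fun hv => ?_
  exact Finset.mem_image.2 ⟨v, hv, by rw [sub_zero]⟩

theorem f1_num {C0 j n : ℕ} (h0 : 1 ≤ C0) (hj : 1 ≤ j) (hn : C0 * j ≤ n) :
    (1 / 2 : ℝ) ^ ((2 * C0 + 1) * j) + 2 * er n ≤ (1 / 2 : ℝ) ^ (C0 * j) * (1 / 2) ^ (C0 * j) := by
  have hq0 : (0 : ℝ) < (1 / 2) ^ (C0 * j) := by positivity
  have hq : (1 / 2 : ℝ) ^ (C0 * j) ≤ 1 / 2 :=
    pow_le_of_le_one (by norm_num) (by norm_num) (Nat.mul_pos h0 hj).ne'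
  have h1 : er n ≤ ((1 / 2 : ℝ) ^ (C0 * j)) ^ 4 := by
    rw [← pow_mul]
    exact pow_le_pow_of_le_one (by norm_num) (by norm_num) (by omega)
  have h2 : (1 / 2 : ℝ) ^ ((2 * C0 + 1) * j) ≤ ((1 / 2 : ℝ) ^ (C0 * j)) ^ 2 * (1 / 2) := by
    rw [← pow_mul, ← pow_succ]
    exact pow_le_pow_of_le_one (by norm_num) (by norm_num) (by nlinarith)
  generalize (1 / 2 : ℝ) ^ (C0 * j) = q at *
  have h3 : q ^ 2 ≤ 1 / 4 := by nlinarith
  have h4 : q ^ 4 ≤ q ^ 2 * (1 / 4) := by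
    have : q ^ 4 = q ^ 2 * q ^ 2 := by ring
    rw [this]; gcongr
  nlinarith

theorem f1_count {CT j : ℕ} (hj : 1 ≤ j) :
    ((2 ^ j) ^ CT + 1) * (2 * 2 ^ j + 1) ^ d * 2 ^ j ≤ 2 ^ ((CT + 2 + 3 * d) * j) := by
  have h1 : (2 ^ j) ^ CT + 1 ≤ 2 ^ (j * CT + j) := by
    rw [pow_add, ← pow_mul]
    have : 2 ≤ 2 ^ j := by
      calc 2 = 2 ^ 1 := rfl
        _ ≤ 2 ^ j := Nat.pow_le_pow_right (by norm_num) hj
    have h3 : 1 ≤ 2 ^ (j * CT) := Nat.one_le_two_pow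
    nlinarith
  have h2 : (2 * 2 ^ j + 1) ^ d ≤ 2 ^ (3 * j * d) := by
    rw [pow_mul]
    refine Nat.pow_le_pow_left ?_ d
    have h3 : 1 ≤ 2 ^ j := Nat.one_le_two_pow
    calc 2 * 2 ^ j + 1 ≤ 2 ^ (j + 2) := by rw [pow_add]; omega
      _ ≤ 2 ^ (3 * j) := Nat.pow_le_pow_right (by norm_num) (by omega)
  calc _ ≤ 2 ^ (j * CT + j) * 2 ^ (3 * j * d) * 2 ^ j := by gcongr
    _ = _ := by rw [← pow_add, ← pow_add]; congr 1; ring

theorem f1_half {p : ℝ} (hp : 0 < p) : ∀ᶠ j : ℕ in atTop, (1 / 2 : ℝ) ^ j ≤ p :=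
  (tendsto_pow_atTop_nhds_zero_of_lt_one (by norm_num) (by norm_num)).eventually
    (eventually_le_nhds hp)

theorem f1_pc (hd : 2 ≤ d) (hF : F.Ok) (hL : Low d F) {c e0 : ℝ} {CT N : ℕ} (hc : 0 < c)
    (hN : CT ≤ N) (hW : WAt d F c CT e0 N) :
    ∃ C N1, EvM d F e0 N1 fun B j K => f1Pc d F B K C CT j := by
  refine ⟨2 * (CT + 2 + 3 * d) + 1, N + (CT + 2 + 3 * d), fun B hB he => ?_⟩
  set C0 := CT + 2 + 3 * d with hC0
  have hg : Tendsto (fun j => (N + C0) * j) atTop atTop :=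
    tendsto_atTop_mono (fun j => Nat.le_mul_of_pos_left j (by omega)) tendsto_id
  have hth := hB.2.2.2.1
  have hgp := hB.2.1
  filter_upwards [hW B hB he, (hL.hDOM B hB).comp hg, hg.eventually (scales hF B),
    hg.eventually (le_of_Lmin hF B), hg.eventually (card_le (d := d) (by omega)), Lmin_le F B 2,
    f1_half (mul_pos hc hth), eventually_ge_atTop (N + C0)] with j h1 h2 h3 h4 h5 h6 h7 h8 K hK
  set n := (N + C0) * j with hn
  have hj : 1 ≤ j := by omega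
  have hjn : j ≤ n := Nat.le_mul_of_pos_left j (by omega)
  obtain ⟨t, v, ht, hv1, hv2, hp⟩ :=
    f1_pigeon (h1 K (hK.mono (Nat.mul_le_mul_right j (by omega)))) (mul_pos hc hth)
  have hq : (1 / 2 : ℝ) ^ (C0 * j) ≤
      wP F.toMd K (B.p 2) (bx 0 (2 * 2 ^ j)) (bx 0 (2 ^ j)) {0} t fun I => v ∈ I t := by
    refine le_trans ?_ hp
    rw [le_div_iff₀ (by positivity)]
    refine le_trans ?_ h7
    have h9 : (((((2 ^ j) ^ CT + 1) * (2 * 2 ^ j + 1) ^ d : ℕ) : ℝ)) * 2 ^ j ≤ 2 ^ (C0 * j) := by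
      exact_mod_cast f1_count (d := d) (CT := CT) hj
    rw [one_div_pow, one_div_pow, div_mul_eq_mul_div, one_mul,
      div_le_div_iff₀ (by positivity) (by positivity), one_mul]
    exact h9
  have hnum := f1_num (C0 := C0) (by omega) hj (Nat.mul_le_mul_right j (by omega) : C0 * j ≤ n)
  have hD : 8 * DD F n ≤ 2 ^ j := by
    have := (h4 _ (h6 n (by rw [pow_two]; exact Nat.mul_le_mul_right j h8))).2.2.2
    omega
  have hLn : 2 ^ j ≤ 2 ^ n := Nat.pow_le_pow_right (by norm_num) hjn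
  have htn : t ≤ 2 ^ (n + 1) := by
    have a1 : B.n0 ≤ 2 ^ n := h3.1.trans Nat.lt_two_pow_self.le
    have a2 : (2 ^ j) ^ CT ≤ 2 ^ n := by
      rw [← pow_mul]
      exact Nat.pow_le_pow_right (by norm_num) (by rw [mul_comm]; exact Nat.mul_le_mul_right j (by omega))
    rw [pow_succ]; omega
  have hcard : ∀ Y : Finset (S d), Y.card ≤ 2 → (wQ Y (2 ^ j)).card ≤ 2 ^ (5 * n * d) := by
    intro Y hY
    refine (card_wQ Y _).trans (le_trans (Nat.mul_le_mul hY (Nat.pow_le_pow_left ?_ d)) h5)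
    have : 2 ^ (j + 2) ≤ 2 ^ (4 * n + 3) := Nat.pow_le_pow_right (by norm_num) (by omega)
    rw [pow_add] at this
    omega
  have p1 : B.pa ≤ B.p 2 := by unfold Bs.p; push_cast; linarith
  have p2 : B.p 2 ≤ B.p 4 := by unfold Bs.p; push_cast; linarith
  have p3 : B.p 2 + B.g ≤ B.p 3 := by unfold Bs.p; push_cast; linarith
  have p4 : B.p 3 ≤ F.hi := by have := hB.2.2.1; unfold Bs.p; push_cast; linarith
  have p5 : B.p 2 ≤ B.pa + 5 * B.g := by unfold Bs.p; push_cast; linarith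
  have hq0 : (0 : ℝ) < (1 / 2) ^ (C0 * j) := by positivity
  have hq1 : (1 / 2 : ℝ) ^ (C0 * j) ≤ 1 := pow_le_one₀ (by norm_num) (by norm_num)
  have h16 : 16 ∣ 11 * 2 ^ j := by
    obtain ⟨i, rfl⟩ : ∃ i, j = i + 4 := ⟨j - 4, by omega⟩
    exact ⟨11 * 2 ^ i, by ring⟩
  refine ⟨t, v, ht, hv1, by omega, ?_, ?_⟩
  · intro Q Z y e sg hQ hZ
    have a1 := h2 K hK (B.p 2) (B.p 3) (wQ {y} (2 ^ j)) Q (wZ {y} (2 ^ j)) Z {y} {y} (2 ^ j) t
      (fun I => {y + sp e sg v} ⊆ I t) p1 p2 p3 p4 subset_rfl (by rwa [wQ_single]) subset_rfl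
      (by rwa [wZ_single]) (by simp) (hcard _ (by simp)) hD hLn htn
      (fun I J hIJ hI => hI.trans (hIJ t))
    rw [wQ_single, wZ_single] at a1
    have a2 := hq.trans (f1_sym hL v y e sg)
    simp only [Finset.singleton_subset_iff] at a1 ⊢
    nlinarith
  · intro Q Z y1 y2 e1 sg1 e2 sg2 hy hQ1 hZ1 hQ2 hZ2
    have hQ : wQ {y1, y2} (2 ^ j) ⊆ Q := by
      unfold wQ
      refine Finset.biUnion_subset.2 fun y hy => ?_
      rcases Finset.mem_insert.1 hy with rfl | hy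
      · exact hQ1
      · rw [Finset.mem_singleton.1 hy]; exact hQ2
    have hZ : wZ {y1, y2} (2 ^ j) ⊆ Z := by
      unfold wZ
      refine Finset.biUnion_subset.2 fun y hy => ?_
      rcases Finset.mem_insert.1 hy with rfl | hy
      · exact hZ1
      · rw [Finset.mem_singleton.1 hy]; exact hZ2
    have a1 := h2 K hK (B.p 2) (B.p 3) (wQ {y1, y2} (2 ^ j)) Q (wZ {y1, y2} (2 ^ j)) Z {y1, y2}
      {y1, y2} (2 ^ j) t (fun I => {y1 + sp e1 sg1 v, y2 + sp e2 sg2 v} ⊆ I t) p1 p2 p3 p4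
      subset_rfl hQ subset_rfl hZ Finset.card_le_two (hcard _ Finset.card_le_two) hD hLn htn
      (fun I J hIJ hI => hI.trans (hIJ t))
    have a2 := hq.trans (f1_sym hL v y1 e1 sg1)
    have a3 := hq.trans (f1_sym hL v y2 e2 sg2)
    have a4 := hL.hPROD K (B.p 2) y1 y2 (2 ^ j) t (fun I => ind (y1 + sp e1 sg1 v ∈ I t))
      (fun I => ind (y2 + sp e2 sg2 v ∈ I t)) (hK.kp hF hB p1 p5) hy (Bdd.ind _) (Bdd.ind _)
    have a5 : wX F.toMd K (B.p 2) (wQ {y1, y2} (2 ^ j)) (wZ {y1, y2} (2 ^ j)) {y1, y2} t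
        (fun I => ind (y1 + sp e1 sg1 v ∈ I t ∩ bx y1 (2 ^ j)) *
          ind (y2 + sp e2 sg2 v ∈ I t ∩ bx y2 (2 ^ j))) ≤
        wP F.toMd K (B.p 2) (wQ {y1, y2} (2 ^ j)) (wZ {y1, y2} (2 ^ j)) {y1, y2} t fun I =>
          {y1 + sp e1 sg1 v, y2 + sp e2 sg2 v} ⊆ I t := by
      refine wX_mono ((Bdd.ind _).mul (Bdd.ind _)) (Bdd.ind _) fun I _ => ?_
      rw [← ind_and]
      refine ind_mono fun h => ?_
      exact Finset.insert_subset (Finset.mem_inter.1 h.1).1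
        (Finset.singleton_subset_iff.2 (Finset.mem_inter.1 h.2).1)
    have a6 := mul_le_mul a2 a3 hq0.le (hq0.le.trans a2)
    unfold wP at a6
    rw [← a4] at a6
    linarith

/-- The set `Bs` is infected from `y` at some time in `[n0, T]` with probability at least `q`. -/
def f1G (F : Fr) (K : ℕ) (φ : ℝ) (Q Z : Finset (S d)) (y : S d) (n0 : ℕ) (Bs : Finset (S d))
    (T : ℕ) (q : ℝ) : Prop :=
  0 ≤ q ∧ ∃ t, n0 ≤ t ∧ t ≤ T ∧ q ≤ wP F.toMd K φ Q Z {y} t fun I => Bs ⊆ I t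

variable {K n0 : ℕ} {φ : ℝ} {Q Z : Finset (S d)} {y : S d}

theorem f1G.mono {Bs : Finset (S d)} {T T' : ℕ} {q q' : ℝ} (h : f1G F K φ Q Z y n0 Bs T q)
    (hT : T ≤ T') (h0 : 0 ≤ q') (hq : q' ≤ q) : f1G F K φ Q Z y n0 Bs T' q' := by
  obtain ⟨-, t, h1, h2, h3⟩ := h
  exact ⟨h0, t, h1, h2.trans hT, hq.trans h3⟩

theorem f1G.step (hL : Low d F) (hK : KP F K φ) (hZ : Z ⊆ Q) {Bs Bs' : Finset (S d)}
    {T τ τ' : ℕ} {q κ : ℝ} (h : f1G F K φ Q Z y n0 Bs T q) (h0 : 0 ≤ κ) (hτ : τ ≤ τ')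
    (hκ : κ ≤ wP F.toMd K φ Q Z Bs τ fun I => Bs' ⊆ I τ) :
    f1G F K φ Q Z y n0 Bs' (T + τ') (q * κ) := by
  obtain ⟨hq, t, h1, h2, h3⟩ := h
  refine ⟨mul_nonneg hq h0, t + τ, by omega, by omega, ?_⟩
  exact (mul_le_mul h3 hκ h0 (hq.trans h3)).trans
    (hL.hFKC K φ Q Z {y} Bs t τ (fun I => Bs' ⊆ I τ) hK hZ fun I J hIJ hI => hI.trans (hIJ τ))

/-- Unit moves. -/
def f1U (F : Fr) (K : ℕ) (φ : ℝ) (Q Z : Finset (S d)) (c0 : ℝ) : Prop :=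
  ∀ a a' e, a ∈ Z → a' ∈ Z → nb a e ∈ Z →
    c0 ≤ wP F.toMd K φ Q Z {a, a'} 1 fun I => {a, nb a e, a'} ⊆ I 1

theorem f1G.unit (hL : Low d F) (hK : KP F K φ) (hZ : Z ⊆ Q) {c0 : ℝ} (h0 : 0 ≤ c0)
    (hU : f1U F K φ Q Z c0) {a a' : S d} {e : Dir d} (ha : a ∈ Z) (ha' : a' ∈ Z) (he : nb a e ∈ Z)
    {Bs' : Finset (S d)} (hB : Bs' ⊆ {a, nb a e, a'}) {T : ℕ} {q : ℝ}
    (h : f1G F K φ Q Z y n0 {a, a'} T q) : f1G F K φ Q Z y n0 Bs' (T + 1) (q * c0) :=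
  h.step hL hK hZ h0 le_rfl ((hU a a' e ha ha' he).trans (wP_mono fun _ _ hI => hB.trans hI))

theorem f1G.start (hL : Low d F) (hK : KP F K φ) (hZ : Z ⊆ Q) {c0 : ℝ} (h0 : 0 ≤ c0)
    (hU : f1U F K φ Q Z c0) (e : Dir d) (hy : y ∈ Z) (he : nb y e ∈ Z) (hn : 1 ≤ n0) :
    f1G F K φ Q Z y n0 {y} n0 (c0 ^ n0) := by
  have h1 : c0 ≤ wP F.toMd K φ Q Z {y} 1 fun I => {y} ⊆ I 1 := by
    have := hU y y e hy hy he
    rw [Finset.pair_eq_singleton] at this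
    exact this.trans (wP_mono fun _ _ hI => (by simp : ({y} : Finset (S d)) ⊆ _).trans hI)
  induction n0, hn using Nat.le_induction with
  | base => exact ⟨by positivity, 1, le_rfl, le_rfl, by rwa [pow_one]⟩
  | succ k hk ih =>
    obtain ⟨hq, t, a1, a2, a3⟩ := ih
    obtain rfl : t = k := le_antisymm a2 a1
    refine ⟨by positivity, t + 1, le_rfl, le_rfl, ?_⟩
    rw [pow_succ]
    have a4 := hL.hFKC K φ Q Z {y} {y} t 1 (fun I => ({y} : Finset (S d)) ⊆ I 1) hK hZ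
      fun I J hIJ hI => Finset.Subset.trans hI (hIJ 1)
    exact (mul_le_mul a3 h1 h0 (hq.trans a3)).trans a4

theorem f1_alive {Y0 : Finset (S d)} {I : Tj d} (h : RegT Z Y0 I) {u u' : ℕ} (hu : u ≤ u')
    (hI : (I u').Nonempty) : (I u).Nonempty := by
  induction u', hu using Nat.le_induction with
  | base => exact hI
  | succ k _ ih => exact ih (h.2.2 k hI)

theorem f1G.fin {Bs : Finset (S d)} {T : ℕ} {q : ℝ} (h : f1G F K φ Q Z y n0 Bs T q)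
    {E : Tj d → Prop} (hE : ∀ I t, RegT Z {y} I → n0 ≤ t → t ≤ T → Bs ⊆ I t → E I) :
    q ≤ wP F.toMd K φ Q Z {y} T E := by
  obtain ⟨-, t, h1, h2, h3⟩ := h
  rw [← wP_horizon h2 (fun I J hIJ hI => hIJ _ le_rfl ▸ hI)] at h3
  exact h3.trans (wP_mono fun I hI hB => hE I t hI h1 h2 hB)

/-- An orientation of `v` with the largest coordinate at the place `i` and with the sign `s`. -/
theorem f1_orient (hd : 1 ≤ d) (v : S d) (i : Fin d) (s : Bool) :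
    ∃ e sg sg', sp e sg v i = (if s then 1 else -1) * (nrm v : ℤ) ∧ sp e sg' v i = sp e sg v i ∧
      ∀ k, k ≠ i → sp e sg v k + sp e sg' v k = 0 := by
  obtain ⟨i0, h0⟩ := exists_nrm_eq hd v
  refine ⟨Equiv.swap i i0, fun _ => (s == decide (0 ≤ v i0)),
    fun k => if k = i then (s == decide (0 ≤ v i0)) else !(s == decide (0 ≤ v i0)), ?_, ?_, ?_⟩
  · simp only [sp, Equiv.swap_apply_left, ← h0]
    rcases le_or_gt 0 (v i0) with h | h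
    · cases s <;> simp [h, abs_of_nonneg h]
    · cases s <;> simp [not_le.2 h, abs_of_neg h]
  · simp [sp]
  · intro k hk
    simp only [sp, if_neg hk]
    cases (s == decide (0 ≤ v i0)) <;> simp

/-- Time and probability budgets. -/
theorem f1_time (a CT n0 : ℕ) (hCT : 1 ≤ CT) : ∀ᶠ m : ℕ in atTop, ∀ C1, CT + 1 ≤ C1 →
    a * m * (n0 + (2 ^ m) ^ CT) + a * 2 ^ m ≤ 2 ^ (C1 * m) := by
  have h1 : ∀ᶠ m : ℕ in atTop, 3 * a * m ≤ 2 ^ m := by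
    filter_upwards [eventually_ge_atTop (3 * a + 5)] with m hm
    have h2 : ∀ k, 5 ≤ k → k * k ≤ 2 ^ k := by
      intro k hk
      induction k, hk using Nat.le_induction with
      | base => norm_num
      | succ k hk ih => rw [pow_succ]; nlinarith
    exact (Nat.mul_le_mul_right m (by omega)).trans (h2 m (by omega))
  filter_upwards [h1, eventually_ge_atTop (n0 + 1)] with m h1 h2 C1 hC
  have a1 : 2 ^ m ≤ (2 ^ m) ^ CT := Nat.le_self_pow (by omega) _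
  have a2 : n0 ≤ (2 ^ m) ^ CT := le_trans (le_trans (by omega) Nat.lt_two_pow_self.le) a1
  have a3 : a * 2 ^ m ≤ a * m * (2 ^ m) ^ CT :=
    Nat.mul_le_mul (Nat.le_mul_of_pos_right a (by omega)) a1
  have a4 : a * m * (n0 + (2 ^ m) ^ CT) ≤ a * m * (2 * (2 ^ m) ^ CT) :=
    Nat.mul_le_mul_left _ (by omega)
  calc _ ≤ 3 * a * m * (2 ^ m) ^ CT := by nlinarith
    _ ≤ 2 ^ m * (2 ^ m) ^ CT := Nat.mul_le_mul_right _ h1
    _ = 2 ^ ((CT + 1) * m) := by rw [← pow_mul, ← pow_add]; congr 1; ring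
    _ ≤ _ := Nat.pow_le_pow_right (by norm_num) (Nat.mul_le_mul_right m hC)

theorem f1_prob {p : ℝ} {a C m k C1 : ℕ} (hp : (1 / 2 : ℝ) ^ m ≤ p) (hk : k ≤ a * m)
    (hC : a * C + 1 ≤ C1) : (1 / 2 : ℝ) ^ (C1 * m ^ 2) ≤ p * ((1 / 2 : ℝ) ^ (C * m)) ^ k := by
  refine le_trans ?_ (mul_le_mul_of_nonneg_right hp (by positivity))
  rw [← pow_mul, ← pow_add]
  refine pow_le_pow_of_le_one (by norm_num) (by norm_num) ?_
  have h1 : C * m * k ≤ C * m * (a * m) := Nat.mul_le_mul_left _ hk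
  have h2 : (a * C + 1) * m ^ 2 ≤ C1 * m ^ 2 := Nat.mul_le_mul_right _ hC
  have h3 : m ≤ m ^ 2 := Nat.le_self_pow (by norm_num) m
  nlinarith

end Pool.Agent.Lib.MP_dd0771_pr.Sc
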