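import Pool.Agent.Lib.MP_dd0771_pr.Sc.Defs

open Filter

namespace Pool.Agent.Lib.MP_dd0771_pr.Sc

variable {d : ℕ}

theorem nrm_le_iff {x : S d} {r : ℕ} : nrm x ≤ r ↔ ∀ i, |x i| ≤ r := by
  simp only [nrm, Finset.sup_le_iff, Finset.mem_univ, true_imp_iff]
  exact forall_congr' fun i => by rw [Int.abs_eq_natAbs, Int.ofNat_le]
theorem abs_le_nrm (x : S d) (i : Fin d) : |x i| ≤ nrm x := nrm_le_iff.1 le_rfl i
theorem exists_nrm_eq (hd : 1 ≤ d) (x : S d) : ∃ i, |x i| = nrm x := by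
  obtain ⟨i, -, h⟩ := Finset.exists_mem_eq_sup (Finset.univ : Finset (Fin d))
    ⟨⟨0, hd⟩, Finset.mem_univ _⟩ fun i => (x i).natAbs
  exact ⟨i, by rw [nrm, h, Int.abs_eq_natAbs]⟩
theorem mem_bx {x y : S d} {r : ℕ} : y ∈ bx x r ↔ nrm (y - x) ≤ r := by
  simp only [bx, Fintype.mem_piFinset, Finset.mem_Icc, nrm_le_iff, Pi.sub_apply, abs_le]
  exact forall_congr' fun i => by omega
theorem nrm_zero : nrm (0 : S d) = 0 := Nat.le_zero.1 (nrm_le_iff.2 fun i => by simp)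
theorem nrm_eq_zero {x : S d} : nrm x = 0 ↔ x = 0 := by
  refine ⟨fun h => funext fun i => ?_, fun h => h ▸ nrm_zero⟩
  simpa using nrm_le_iff.1 h.le i
theorem nrm_neg (x : S d) : nrm (-x) = nrm x := by simp [nrm]
theorem nrm_sub_comm (x y : S d) : nrm (x - y) = nrm (y - x) := by rw [← nrm_neg, neg_sub]
theorem nrm_add_le (x y : S d) : nrm (x + y) ≤ nrm x + nrm y :=
  nrm_le_iff.2 fun i => by
    push_cast
    exact (abs_add_le _ _).trans (add_le_add (abs_le_nrm x i) (abs_le_nrm y i))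
theorem nrm_tri (x y z : S d) : nrm (x - z) ≤ nrm (x - y) + nrm (y - z) := by
  simpa using nrm_add_le (x - y) (y - z)
theorem card_bx (x : S d) (r : ℕ) : (bx x r).card = (2 * r + 1) ^ d := by
  rw [bx, Fintype.card_piFinset, Finset.prod_congr rfl (g := fun _ => 2 * r + 1) fun i _ => by
    rw [Int.card_Icc]; omega]
  simp
theorem self_mem_bx (x : S d) (r : ℕ) : x ∈ bx x r := mem_bx.2 (by simp [nrm_zero])
theorem bx_mono (x : S d) {r r' : ℕ} (h : r ≤ r') : bx x r ⊆ bx x r' :=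
  fun _ hz => mem_bx.2 ((mem_bx.1 hz).trans h)
theorem bx_subset {x y : S d} {r R : ℕ} (h : nrm (x - y) + r ≤ R) : bx x r ⊆ bx y R :=
  fun z hz => mem_bx.2 (by have := mem_bx.1 hz; have := nrm_tri z x y; omega)
theorem bx_disjoint {x y : S d} {r R : ℕ} (h : r + R < nrm (x - y)) :
    Disjoint (bx x r) (bx y R) :=
  Finset.disjoint_left.2 fun z h1 h2 => by
    have := mem_bx.1 h1
    have := mem_bx.1 h2
    have := nrm_tri x z y
    rw [nrm_sub_comm x z] at this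
    omega
theorem nrm_nb (x : S d) (e : Dir d) : nrm (nb x e - x) = 1 := by
  refine le_antisymm (nrm_le_iff.2 fun i => ?_) ?_
  · rcases eq_or_ne i e.1 with rfl | h
    · cases h : e.2 <;> simp [nb, h]
    · simp [nb, Function.update_of_ne h]
  · have := abs_le_nrm (nb x e - x) e.1
    cases h : e.2 <;> simpa [nb, h] using this
theorem nb_ne (x : S d) (e : Dir d) : nb x e ≠ x := fun h => by
  have := nrm_nb x e
  rw [h, sub_self, nrm_zero] at this
  omega
theorem nb_nb (x : S d) (e : Dir d) : nb (nb x e) (e.1, !e.2) = x := by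
  funext i
  rcases eq_or_ne i e.1 with rfl | h
  · cases h : e.2 <;> simp [nb, h]
  · simp [nb, Function.update_of_ne h]
theorem nb_add (x y : S d) (e : Dir d) : nb (x + y) e = nb x e + y := by
  funext i
  rcases eq_or_ne i e.1 with rfl | h
  · simp [nb, add_right_comm]
  · simp [nb, Function.update_of_ne h]
theorem nb_mem_bx {x y : S d} {r : ℕ} (h : x ∈ bx y r) (e : Dir d) : nb x e ∈ bx y (r + 1) :=
  mem_bx.2 (by have := mem_bx.1 h; have := nrm_tri (nb x e) x y; rw [nrm_nb] at this; omega)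
theorem eu_nonneg (x : S d) : 0 ≤ eu x := Finset.sum_nonneg fun _ _ => sq_nonneg _
theorem nrm_sq_le_eu (x : S d) : (nrm x : ℝ) ^ 2 ≤ eu x := by
  rcases Nat.eq_zero_or_pos d with rfl | hd
  · refine le_trans (le_of_eq ?_) (eu_nonneg x)
    rw [Subsingleton.elim x 0, nrm_zero]
    simp
  obtain ⟨i, h⟩ := exists_nrm_eq hd x
  have e : (nrm x : ℝ) = |(x i : ℝ)| := by exact_mod_cast h.symm
  rw [e, sq_abs]
  exact Finset.single_le_sum (f := fun i => (x i : ℝ) ^ 2) (fun _ _ => sq_nonneg _)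
    (Finset.mem_univ i)
theorem eu_le (x : S d) : eu x ≤ d * (nrm x : ℝ) ^ 2 := by
  refine (Finset.sum_le_card_nsmul _ _ ((nrm x : ℝ) ^ 2) fun i _ => ?_).trans (by simp)
  rw [← sq_abs]
  exact pow_le_pow_left₀ (abs_nonneg _) (by exact_mod_cast abs_le_nrm x i) 2
theorem eu_add (x y : S d) : eu (x + y) = eu x + 2 * ∑ i, (x i : ℝ) * y i + eu y := by
  simp only [eu, Finset.mul_sum, ← Finset.sum_add_distrib, Pi.add_apply, Int.cast_add]
  exact Finset.sum_congr rfl fun i _ => by ring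
theorem wQ_single (y : S d) (L : ℕ) : wQ {y} L = bx y (2 * L) := Finset.singleton_biUnion
theorem wZ_single (y : S d) (L : ℕ) : wZ {y} L = bx y L := Finset.singleton_biUnion
theorem wZ_subset_wQ (Y : Finset (S d)) (L : ℕ) : wZ Y L ⊆ wQ Y L :=
  Finset.biUnion_mono fun y _ => bx_mono y (by omega)
theorem card_wQ (Y : Finset (S d)) (L : ℕ) : (wQ Y L).card ≤ Y.card * (4 * L + 1) ^ d :=
  Finset.card_biUnion_le_card_mul _ _ _ fun y _ => by
    rw [card_bx, show 2 * (2 * L) = 4 * L by ring]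
theorem apart_single (y : S d) (L : ℕ) : Apart {y} L :=
  ⟨Finset.singleton_nonempty y, by simp, fun a ha b hb h =>
    (h ((Finset.mem_singleton.1 ha).trans (Finset.mem_singleton.1 hb).symm)).elim⟩
theorem apart_pair {y1 y2 : S d} {L : ℕ} (h : 4 * L + 2 ≤ nrm (y1 - y2)) : Apart {y1, y2} L := by
  refine ⟨Finset.insert_nonempty _ _, Finset.card_le_two, fun a ha b hb hab => ?_⟩
  simp only [Finset.mem_insert, Finset.mem_singleton] at ha hb
  rcases ha with rfl | rfl <;> rcases hb with rfl | rfl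
  exacts [(hab rfl).elim, h, by rwa [nrm_sub_comm], (hab rfl).elim]
theorem nrm_sp (e : Equiv.Perm (Fin d)) (sg : Fin d → Bool) (x : S d) : nrm (sp e sg x) = nrm x := by
  have e1 : ∀ i, |sp e sg x i| = |x (e i)| := fun i => by
    rw [sp]; split_ifs <;> simp
  refine le_antisymm (nrm_le_iff.2 fun i => e1 i ▸ abs_le_nrm x _) (nrm_le_iff.2 fun i => ?_)
  rw [← e.apply_symm_apply i, ← e1]
  exact abs_le_nrm _ _
theorem sp_sub (e : Equiv.Perm (Fin d)) (sg : Fin d → Bool) (x y : S d) :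
    sp e sg (x - y) = sp e sg x - sp e sg y := by
  funext i
  simp only [sp, Pi.sub_apply]
  split_ifs <;> ring

theorem geo_sp (y y' : S d) (e : Equiv.Perm (Fin d)) (sg : Fin d → Bool) :
    ∃ (ψ : S d ≃ S d) (dm : Dir d ≃ Dir d), (∀ x, ψ x = y' + sp e sg (x - y)) ∧
      (∀ x c, ψ (nb x c) = nb (ψ x) (dm c)) ∧ ∀ x z, nrm (ψ x - ψ z) = nrm (x - z) := by
  refine ⟨⟨fun x => y' + sp e sg (x - y), fun x => y + sp e.symm (fun i => sg (e.symm i)) (x - y'),
    fun x => ?_, fun x => ?_⟩, ⟨fun c => (e.symm c.1, c.2 == sg (e.symm c.1)),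
    fun c => (e c.1, c.2 == sg c.1), fun c => ?_, fun c => ?_⟩, fun _ => rfl, fun x c => ?_,
    fun x z => ?_⟩
  · funext i
    cases h : sg (e.symm i) <;> simp [sp, h]
  · funext i
    cases h : sg i <;> simp [sp, h]
  · cases h : sg (e.symm c.1) <;> simp [h]
  · cases h : sg c.1 <;> simp [h]
  · funext i
    obtain ⟨j, b⟩ := c
    obtain ⟨k, rfl⟩ := e.surjective j
    rcases eq_or_ne i k with rfl | h
    · cases b <;> cases h : sg i <;> simp [sp, nb, h] <;> ring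
    · simp [sp, nb, Function.update_of_ne h, Function.update_of_ne (e.injective.ne h)]
  · change nrm (y' + sp e sg (x - y) - (y' + sp e sg (z - y))) = _
    rw [add_sub_add_left_eq_sub, ← sp_sub, nrm_sp, sub_sub_sub_cancel_right]

theorem geo_img {ψ : S d ≃ S d} (h : ∀ x z, nrm (ψ x - ψ z) = nrm (x - z)) (z : S d) (r : ℕ) :
    (bx z r).image ψ = bx (ψ z) r := by
  ext w
  obtain ⟨x, rfl⟩ := ψ.surjective w
  rw [ψ.injective.mem_finset_image, mem_bx, mem_bx, h]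

/-- The affine signed permutation as an isomorphism. -/
theorem exists_iso_sp (y y' : S d) (e : Equiv.Perm (Fin d)) (sg : Fin d → Bool) :
    ∃ (ψ : S d ≃ S d) (dm : S d → Dir d ≃ Dir d), (∀ x, ψ x = y' + sp e sg (x - y)) ∧
      (∀ Q, Iso ψ dm Q) ∧ ∀ z r, (bx z r).image ψ = bx (ψ z) r := by
  obtain ⟨ψ, dm, h1, h2, h3⟩ := geo_sp y y' e sg
  exact ⟨ψ, fun _ => dm, h1, fun Q x _ c =>
    ⟨by rw [← h2, ψ.injective.mem_finset_image], fun _ => h2 x c⟩, geo_img h3⟩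

theorem geo_one {y1 y2 z : S d} {L r : ℕ} (h : 4 * L + 2 ≤ nrm (y1 - y2))
    (hz : z ∈ bx y1 (2 * L)) (hs : ∀ x ∈ bx z r, x ∈ bx y1 (2 * L) ∨ x ∈ bx y2 (2 * L)) :
    bx z r ⊆ bx y1 (2 * L) := by
  have key : ∀ k ≤ r, bx z k ⊆ bx y1 (2 * L) := by
    intro k
    induction k with
    | zero => exact fun _ => bx_subset (mem_bx.1 hz)
    | succ k ih =>
      intro hk x hx
      refine (hs x (bx_mono z hk hx)).resolve_right ?_
      intro h2
      have h3 : (fun i => max (z i - k) (min (x i) (z i + k))) ∈ bx z k :=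
        mem_bx.2 (nrm_le_iff.2 fun i => by rw [Pi.sub_apply, abs_le]; omega)
      have h4 : nrm ((fun i => max (z i - k) (min (x i) (z i + k))) - x) ≤ 1 :=
        nrm_le_iff.2 fun i => by
          have := nrm_le_iff.1 (mem_bx.1 hx) i
          rw [Pi.sub_apply, abs_le] at this ⊢
          omega
      have h5 := mem_bx.1 (ih (by omega) h3)
      generalize (fun i => max (z i - k) (min (x i) (z i + k))) = w at h4 h5
      have h6 := mem_bx.1 h2
      have h7 := nrm_tri y1 w y2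
      have h8 := nrm_tri w x y2
      rw [nrm_sub_comm y1 w] at h7
      omega
  exact key r le_rfl

theorem geo_half {y1 y2 : S d} {L : ℕ} (h : 4 * L + 2 ≤ nrm (y1 - y2)) {ψ ψ1 : S d ≃ S d}
    {dm : Dir d ≃ Dir d} {Q : Finset (S d)}
    (hQ : ∀ x, x ∈ Q ↔ x ∈ bx y1 (2 * L) ∨ x ∈ bx y2 (2 * L)) (hI : Q.image ψ = Q)
    (h1 : ψ1 y1 = y1) (h2 : ∀ x c, ψ1 (nb x c) = nb (ψ1 x) (dm c))
    (h3 : ∀ x z, nrm (ψ1 x - ψ1 z) = nrm (x - z)) (e : ∀ x ∈ bx y1 (2 * L), ψ x = ψ1 x)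
    {x : S d} (hx : x ∈ bx y1 (2 * L)) :
    (∀ c, (nb x c ∈ Q ↔ nb (ψ x) (dm c) ∈ Q.image ψ) ∧
      (nb x c ∈ Q → ψ (nb x c) = nb (ψ x) (dm c))) ∧
    ∀ r, bx x r ⊆ Q → (bx x r).image ψ = bx (ψ x) r := by
  have hd : ∀ w ∈ bx y1 (2 * L + 1), w ∈ Q ↔ w ∈ bx y1 (2 * L) := fun w hw => by
    rw [hQ]
    exact or_iff_left (Finset.disjoint_left.1 (bx_disjoint (by omega)) hw)
  have hb : ∀ w r, ψ1 w ∈ bx y1 r ↔ w ∈ bx y1 r := fun w r => by
    rw [mem_bx, mem_bx, ← h3 w y1, h1]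
  refine ⟨fun c => ⟨?_, fun hc => ?_⟩, fun r hr => ?_⟩
  · rw [hI, e x hx, ← h2, hd _ (nb_mem_bx hx c), hd _ ((hb _ _).2 (nb_mem_bx hx c)), hb]
  · rw [e x hx, ← h2, e _ ((hd _ (nb_mem_bx hx c)).1 hc)]
  · rw [e x hx, ← geo_img h3]
    exact Finset.image_congr fun w hw => e w (geo_one h hx (fun v hv => (hQ v).1 (hr hv)) hw)

/-- Separate signed permutations about two centres whose boxes are apart. -/
theorem exists_iso_pair {y1 y2 : S d} {L : ℕ} (h : 4 * L + 2 ≤ nrm (y1 - y2))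
    (e1 e2 : Equiv.Perm (Fin d)) (sg1 sg2 : Fin d → Bool) :
    ∃ (ψ : S d ≃ S d) (dm : S d → Dir d ≃ Dir d),
      (∀ x ∈ bx y1 (2 * L), ψ x = y1 + sp e1 sg1 (x - y1)) ∧
      (∀ x ∈ bx y2 (2 * L), ψ x = y2 + sp e2 sg2 (x - y2)) ∧ Iso ψ dm (wQ {y1, y2} L) ∧
      ∀ z r, bx z r ⊆ wQ {y1, y2} L → (bx z r).image ψ = bx (ψ z) r := by
  classical
  obtain ⟨ψ1, d1, a1, a2, a3⟩ := geo_sp y1 y1 e1 sg1
  obtain ⟨ψ2, d2, b1, b2, b3⟩ := geo_sp y2 y2 e2 sg2
  have z0 : ∀ e sg, sp e sg (0 : S d) = 0 := fun e sg => nrm_eq_zero.1 (by rw [nrm_sp, nrm_zero])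
  have a0 : ψ1 y1 = y1 := by rw [a1, sub_self, z0, add_zero]
  have b0 : ψ2 y2 = y2 := by rw [b1, sub_self, z0, add_zero]
  have a4 : ∀ x, ψ1 x ∈ bx y1 (2 * L) ↔ x ∈ bx y1 (2 * L) := fun x => by
    rw [mem_bx, mem_bx, ← a3 x y1, a0]
  have b4 : ∀ x, ψ2 x ∈ bx y2 (2 * L) ↔ x ∈ bx y2 (2 * L) := fun x => by
    rw [mem_bx, mem_bx, ← b3 x y2, b0]
  have hD : Disjoint (bx y1 (2 * L)) (bx y2 (2 * L)) := bx_disjoint (by omega)
  have hQ : ∀ x, x ∈ wQ {y1, y2} L ↔ x ∈ bx y1 (2 * L) ∨ x ∈ bx y2 (2 * L) := fun x => by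
    simp [wQ]
  let ψ : Equiv.Perm (S d) := Equiv.Perm.ofSubtype (Equiv.Perm.subtypePerm ψ1 a4) *
    Equiv.Perm.ofSubtype (Equiv.Perm.subtypePerm ψ2 b4)
  have c1 : ∀ x ∈ bx y1 (2 * L), ψ x = ψ1 x := fun x hx => by
    rw [Equiv.Perm.mul_apply,
      Equiv.Perm.ofSubtype_apply_of_not_mem _ (Finset.disjoint_left.1 hD hx),
      Equiv.Perm.ofSubtype_apply_of_mem _ hx]
    rfl
  have c2 : ∀ x ∈ bx y2 (2 * L), ψ x = ψ2 x := fun x hx => by
    rw [Equiv.Perm.mul_apply, Equiv.Perm.ofSubtype_apply_of_mem _ hx]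
    exact Equiv.Perm.ofSubtype_apply_of_not_mem _ (Finset.disjoint_right.1 hD ((b4 x).2 hx))
  have hI : (wQ {y1, y2} L).image ψ = wQ {y1, y2} L := by
    refine Finset.eq_of_subset_of_card_le (fun w hw => ?_)
      (Finset.card_image_of_injective _ ψ.injective).ge
    obtain ⟨x, hx, rfl⟩ := Finset.mem_image.1 hw
    rcases (hQ x).1 hx with hx | hx
    · exact (hQ _).2 (Or.inl (c1 x hx ▸ (a4 x).2 hx))
    · exact (hQ _).2 (Or.inr (c2 x hx ▸ (b4 x).2 hx))
  have k1 := fun x hx => geo_half h hQ hI a0 a2 a3 c1 (x := x) hx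
  have k2 := fun x hx => geo_half (by rwa [nrm_sub_comm]) (fun x => (hQ x).trans or_comm) hI
    b0 b2 b3 c2 (x := x) hx
  refine ⟨ψ, fun x => if x ∈ bx y1 (2 * L) then d1 else d2, fun x hx => (c1 x hx).trans (a1 x),
    fun x hx => (c2 x hx).trans (b1 x), fun x hx => ?_, fun z r hz => ?_⟩
  · rcases (hQ x).1 hx with hx | hx
    · simpa only [if_pos hx] using (k1 x hx).1
    · simpa only [if_neg (Finset.disjoint_right.1 hD hx)] using (k2 x hx).1
  · rcases (hQ z).1 (hz (self_mem_bx z r)) with hx | hx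
    exacts [(k1 z hx).2 r hz, (k2 z hx).2 r hz]

/-- Ancestors: a chain ending at `x` at time `t`. -/
theorem Chn.chain {V T : ℕ} {I : Tj d} (h : Chn V T I) {t : ℕ} (ht : t ≤ T) {x : S d}
    (hx : x ∈ I t) : ∃ γ : ℕ → S d, γ t = x ∧ (∀ u, u ≤ t → γ u ∈ I u) ∧
      ∀ u u', nrm (γ u' - γ u) ≤ V * (max u u' - min u u') := by
  induction t generalizing x with
  | zero =>
    exact ⟨fun _ => x, rfl, fun u hu => by rwa [Nat.le_zero.1 hu], fun _ _ => by simp [nrm_zero]⟩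
  | succ t ih =>
    obtain ⟨y, hy, hV⟩ := h t ht x hx
    obtain ⟨γ, h1, h2, h3⟩ := ih (by omega) hy
    have key : ∀ u u', u ≤ t → ¬ u' ≤ t → nrm (x - γ u) ≤ V * (u' - u) := fun u u' a b => by
      have h4 := h3 u t
      rw [h1, max_eq_right a, min_eq_left a] at h4
      have h5 : V * (t - u + 1) ≤ V * (u' - u) := Nat.mul_le_mul_left _ (by omega)
      have h6 := nrm_tri x y (γ u)
      rw [mul_add, mul_one] at h5
      omega
    refine ⟨fun u => if u ≤ t then γ u else x, if_neg (by omega), fun u hu => ?_, fun u u' => ?_⟩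
    · by_cases a : u ≤ t
      · simpa only [if_pos a] using h2 u a
      · simp only [if_neg a]
        rwa [show u = t + 1 by omega]
    · by_cases a : u ≤ t <;> by_cases b : u' ≤ t <;> simp only [a, b, if_true, if_false]
      · exact h3 u u'
      · rw [max_eq_right (by omega), min_eq_left (by omega)]
        exact key u u' a b
      · rw [max_eq_left (by omega), min_eq_right (by omega), nrm_sub_comm]
        exact key u' u b a
      · simp [nrm_zero]

end Pool.Agent.Lib.MP_dd0771_pr.Sc
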