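import Pool.Agent.Lib.MP_dd0771_pr.Sc.Kit
import Pool.Agent.Lib.MP_dd0771_pr.Sc.CeK

/-! Launches that give a fixed fraction of a goal. -/

open Filter

namespace Pool.Agent.Lib.MP_dd0771_pr.Sc

variable {d : ℕ} {F : Fr} {B : Bs} {K n : ℕ} {M : Amb d} {pc : ℝ}
  {Gl : (Nd d → ℝ) → ℝ → ℕ → ℕ → Prop} {C : Ty} {y : S d}

/-- A strong launch of type `C` at `y` gives the fraction `u` of the goal `Gl` within time `tt`. -/
def Gives (F : Fr) (B : Bs) (K n : ℕ) (M : Amb d) (Gl : (Nd d → ℝ) → ℝ → ℕ → ℕ → Prop) (C : Ty)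
    (y : S d) (tt : ℕ) (u : ℝ) : Prop :=
  ∀ Φ te ub w t, Mart F.toMd K M Φ te ub → 0 ≤ w → w ≤ ub → M.u0 ≤ t → t + tt ≤ te →
    Gl Φ w t (t + tt) → Val F B K n (ls n) M Φ C {y} t (u * w)

theorem Gives.mono (hG : GlOk Gl) {tt tt' : ℕ} {u u' : ℝ} (h : Gives F B K n M Gl C y tt u)
    (ht : tt ≤ tt') (hu : u' ≤ u) : Gives F B K n M Gl C y tt' u' :=
  fun Φ te ub w t a1 a2 a3 a4 a5 a6 =>
    (h Φ te ub w t a1 a2 a3 a4 (by omega) (hG.1 _ _ _ _ _ _ le_rfl (by omega) a6)).mono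
      (mul_le_mul_of_nonneg_right hu a2)

theorem Gives.goal {Gl' : (Nd d → ℝ) → ℝ → ℕ → ℕ → Prop} {tt : ℕ} {u : ℝ}
    (h : Gives F B K n M Gl C y tt u) (hg : ∀ Φ w a b, Gl' Φ w a b → Gl Φ w a b) :
    Gives F B K n M Gl' C y tt u :=
  fun Φ te ub w t a1 a2 a3 a4 a5 a6 => h Φ te ub w t a1 a2 a3 a4 a5 (hg _ _ _ _ a6)

/-- Use of `Gives` at a later time inside a larger window. -/
theorem Gives.at (hG : GlOk Gl) {tt : ℕ} {u : ℝ} (h : Gives F B K n M Gl C y tt u)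
    {Φ : Nd d → ℝ} {te a b t : ℕ} {ub w : ℝ} (hΦ : Mart F.toMd K M Φ te ub) (h0 : 0 ≤ w)
    (h1 : w ≤ ub) (hu : M.u0 ≤ t) (ha : a ≤ t) (hb : t + tt ≤ b) (he : b ≤ te)
    (hg : Gl Φ w a b) : Val F B K n (ls n) M Φ C {y} t (u * w) :=
  h Φ te ub w t hΦ h0 h1 hu (by omega) (hG.1 _ _ _ _ _ _ ha hb hg)

theorem gives_plain (hB : B.Ok F) (hG : GlOk Gl) {T U : ℕ} {u : ℝ} (ty : S d → Ty)
    (hP : PlainAt d F B K n pc C T) (hM : M.Ok F B K n pc) (hA : Adm M {y} C.2) (h0 : 0 ≤ u)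
    (h1 : u ≤ 1) (h : ∀ z, nrm (z - y) ≤ C.2 → TyOk F B n pc (ty z) ∧ bx z (ty z).2 ⊆ M.Z ∧
      Gives F B K n M Gl (ty z) z U u) :
    Gives F B K n M Gl C y (T + RR F B n + U) (u / 2) := by
  intro Φ te ub w t a1 a2 a3 a4 a5 a6
  obtain ⟨κ, hκ, hb, -, -, hS⟩ := hP y
  have huw : 0 ≤ u * w := mul_nonneg h0 a2
  have := hS M Φ te t ub (u * w) (fun p => ty (y + p.1)) (fun _ => u * w) hM a1 a4 (by omega) hA
    huw (by nlinarith) (fun _ _ => le_rfl) fun p hp _ => by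
      obtain ⟨b1, b2, b3⟩ := hb p hp
      obtain ⟨c1, c2, c3⟩ := h (y + p.1) (by simpa using b1)
      exact ⟨c1, c2, c3.at hG a1 a2 a3 (by omega) (by omega) (by omega) a5 a6⟩
  refine this.mono ?_
  have e : κ.E (fun _ => u * w) = u * w * κ.E fun _ => 1 := by
    rw [← Law.E_mul]; simp
  have := hκ.2.1
  have := hB.2.2.2.2.2.2.1
  rw [e]; nlinarith

theorem gives_boost (hBO : S_BOOST d F) (hB : B.Ok F) (hG : GlOk Gl) {T U Mn : ℕ} {u ρ : ℝ}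
    (hP : PlainAt d F B K n pc C T) (hT : 1 ≤ T) (hC : TyOk F B n pc C) (hM : M.Ok F B K n pc)
    (hρ : 0 < ρ) (h0 : 0 ≤ u) (htol : tol (ls n) ≤ 1 / 2)
    (h : ∀ z, eu (z - y) < ρ ^ 2 → Adm M {z} C.2 ∧ Gives F B K n M Gl C z U u)
    (hc : Mn * (2 * (d * (C.2 : ℝ) ^ 2 / ρ ^ 2 + 5 * B.eps) *
      (2 * ((U : ℝ) + RR F B n) / T + 1)) ≤ 1 / 2) :
    Gives F B K n M Gl C y (Mn * (U + T + 2 * RR F B n)) (min (1 / 8) (Mn * u / 4)) := by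
  intro Φ te ub w t a1 a2 a3 a4 a5 a6
  refine (hBO B K n pc C T M Gl Φ te ub y ρ w u Mn U hB hP hT hC hM hG a1 hρ a2 a3 h0 htol
    (fun z hz => (h z hz).1) (fun Ψ ub' w' z t' b1 b2 b3 b4 b5 b6 =>
      (h z b2).2 Ψ _ ub' w' t' b3 b4 b5 b1 le_rfl b6) y t a4 a5 a6).mono ?_
  have e0 : eu (y - y) = 0 := by simp [eu]
  have e1 : min (w / 4) (Mn * u * w / 2) = 2 * (min (1 / 8) (Mn * u / 4) * w) := by
    rw [min_mul_of_nonneg _ _ a2, mul_min_of_nonneg _ _ (by norm_num : (0 : ℝ) ≤ 2)]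
    congr 1 <;> ring
  have e2 : 0 ≤ min (1 / 8) (Mn * u / 4) * w :=
    mul_nonneg (le_min (by norm_num) (by positivity)) a2
  rw [e0, e1, zero_div]
  nlinarith [mul_le_mul_of_nonneg_left hc e2]

theorem gives_app (hAP : S_APP d F) (hB : B.Ok F) (hG : GlOk Gl) {C' : Ty} {T U N0 : ℕ}
    {u dr W ρ : ℝ} (hS : SteerAt d F B K n pc C T dr) (hC : TyOk F B n pc C)
    (hC' : TyOk F B n pc C') (hM : M.Ok F B K n pc) (hdr : 0 < dr) (hW : 0 < W) (hρ : 0 < ρ)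
    (h0 : 0 ≤ u) (h1 : u ≤ 1) (c1 : (d : ℝ) ^ 2 * (C.2 : ℝ) ^ 2 ≤ dr * ρ)
    (c2 : 4 * d * W ≤ dr * N0) (c3 : 20 * d * W * B.eps ≤ dr) (hy : 4 * eu y ≤ W ^ 2)
    (hz : ∀ z, eu z < W ^ 2 → Adm M {z} C.2 ∧ bx z C'.2 ⊆ M.Z)
    (h : ∀ z, eu z ≤ ρ ^ 2 → Gives F B K n M Gl C' z U u) :
    Gives F B K n M Gl (if eu y ≤ ρ ^ 2 then C' else C) y (N0 * (T + RR F B n) + U) (u / 2) := by
  intro Φ te ub w t a1 a2 a3 a4 a5 a6
  have := hAP B K n pc C C' T dr W ρ M Φ te ub (u * w) N0 t y hB hS hC hC' hM a1 hdr hW hρ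
    (mul_nonneg h0 a2) (by nlinarith) c1 c2 c3 a4 (by omega) hy hz fun z t' b1 b2 b3 =>
      (h z b1).at hG a1 a2 a3 (by omega) b2 (by omega) a5 a6
  exact this.mono (by linarith)

/-- Goal: values of double launches of type `C` near `y` at separation at least `sep`. -/
def GP (F : Fr) (B : Bs) (K n : ℕ) (M : Amb d) (C : Ty) (y : S d) (rad sep : ℕ) (Φ : Nd d → ℝ)
    (w : ℝ) (a b : ℕ) : Prop :=
  ∀ z z' t, nrm (z - y) ≤ rad → nrm (z' - y) ≤ rad → sep ≤ nrm (z - z') → a ≤ t → t ≤ b →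
    Val F B K n (ls n) M Φ C {z, z'} t w

theorem glOk_GP (C : Ty) (y : S d) (rad sep : ℕ) : GlOk (GP F B K n M C y rad sep) :=
  ⟨fun _ _ _ _ _ _ h1 h2 h z z' t a1 a2 a3 a4 a5 => h z z' t a1 a2 a3 (h1.trans a4) (a5.trans h2),
    fun _ _ _ _ _ _ b1 b2 h0 h1 h z z' t a1 a2 a3 a4 a5 =>
      (h z z' t a1 a2 a3 a4 a5).lower (Bdd.of01 b1) (Bdd.of01 b2) h0
        fun s hs => h1 s (hs.le.trans a5)⟩

/-- Goal: values of single launches of type `ty z` at the sites of `P`. -/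
def GS (F : Fr) (B : Bs) (K n : ℕ) (M : Amb d) (ty : S d → Ty) (P : S d → Prop) (Φ : Nd d → ℝ)
    (w : ℝ) (a b : ℕ) : Prop :=
  ∀ z t, P z → a ≤ t → t ≤ b → Val F B K n (ls n) M Φ (ty z) {z} t w

theorem glOk_GS (ty : S d → Ty) (P : S d → Prop) : GlOk (GS F B K n M ty P) :=
  ⟨fun _ _ _ _ _ _ h1 h2 h z t a1 a4 a5 => h z t a1 (h1.trans a4) (a5.trans h2),
    fun _ _ _ _ _ _ b1 b2 h0 h1 h z t a1 a4 a5 =>
      (h z t a1 a4 a5).lower (Bdd.of01 b1) (Bdd.of01 b2) h0 fun s hs => h1 s (hs.le.trans a5)⟩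

/-- One run of the machine with the rule `rReg P`. -/
theorem gives_one (hE : Eng d F) : EvB d F fun B n K => ∀ pc (M : Amb d) Gl (C : Ty) y P m U
    (u β : ℝ) (ty : S d → Ty), GlOk Gl → TyOk F B n pc C → M.Ok F B K n pc →
    m * sb F B n (ls n) ≤ 2 ^ (n + 1) → Adm M {y} C.2 → 0 ≤ u → u ≤ 1 →
    (∀ z ∈ bx y C.2, z ∈ P → TyOk F B n pc (ty z) ∧ bx z (ty z).2 ⊆ M.Z ∧
      Gives F B K n M Gl (ty z) z U u) →
    β * B.thp ≤ cP F.toMd K C y (B.n0 + m * sb F B n (ls n)) (fun I => (I B.n0).Nonempty ∧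
      CE F B n (bx y C.2) (rReg P) m (fun _ => True) fun u => I (B.n0 + u)) →
    Gives F B K n M Gl C y (m * sb F B n (ls n) + U) ((β - tol (ls n) - 2 * e2 n) * u) := by
  intro B hB
  filter_upwards [hE.hONE B hB] with n h1 K hK pc M Gl C y P m U u β ty hG hC hM hm hA h0 hu h hβ
    Φ te ub w t a1 a2 a3 a4 a5 a6
  have huw : 0 ≤ u * w := mul_nonneg h0 a2
  refine (h1 K hK (ls n) pc M Φ te ub (u * w) C y (rReg P) m t (tyS ty) hC hM a1 a4 (by omega) hm hA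
    (ruleOk_rReg _ _) huw (by nlinarith) (cont_rReg fun k hk z hz hP => ?_)).mono ?_
  · obtain ⟨c1, c2, c3⟩ := h z hz hP
    have := Nat.mul_le_mul_right (sb F B n (ls n)) (show k + 1 ≤ m from hk)
    exact ⟨c1, c2, c3.at hG a1 a2 a3 (by omega) (by omega) (by omega) a5 a6⟩
  · have := (le_div_iff₀ (thp_pos hB)).2 hβ
    nlinarith

/-- Repeated tries with the rule `rReg P` inside one world. -/
theorem gives_wb (hE : Eng d F) : EvB d F fun B n K => ∀ pc (M : Amb d) Gl (C : Ty) y P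
    (Mn N0 U : ℕ) (u β : ℝ) (ty : S d → Ty), GlOk Gl → TyOk F B n pc C → M.Ok F B K n pc →
    Mn * (RR F B n + U) ≤ 2 ^ n → Adm M {y} C.2 → 0 ≤ u → u ≤ 1 →
    (∀ z ∈ bx y C.2, z ∈ P → TyOk F B n pc (ty z) ∧ bx z (ty z).2 ⊆ M.Z ∧
      Gives F B K n M Gl (ty z) z U u) →
    β * B.thp ≤ cP F.toMd K C y (B.n0 + Mn * (RR F B n + U)) (fun I => (I B.n0).Nonempty ∧
      N0 ≤ Hcnt F B n (bx y C.2) P Mn (RR F B n + U) I) →
    Gives F B K n M Gl C y (Mn * (RR F B n + U))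
      ((min 1 (u * N0) * β - tol (ls n) * min 1 (u * Mn) - e2 n) / 2) := by
  intro B hB
  filter_upwards [hE.hWB B hB] with n h1 K hK pc M Gl C y P Mn N0 U u β ty hG hC hM hm hA h0 hu h
    hβ Φ te ub w t a1 a2 a3 a4 a5 a6
  refine (h1 K hK pc M Gl Φ te ub w u C y (rReg P) Mn (RR F B n + U) t (tyS ty) hC hM hG a1 a4
    (by omega) a5 hm hA (ruleOk_rReg _ _) a2 a3 h0 hu a6
    fun Ψ ub' w' t' b1 b2 b3 b4 b5 => cont_rReg fun k hk z hz hP => ?_).mono ?_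
  · obtain ⟨c1, c2, c3⟩ := h z hz hP
    have e1 := Nat.mul_le_mul_right (sb F B n (ls n)) (show k + 1 ≤ mm F n + 2 by omega)
    have e2 : RR F B n = (mm F n + 2) * sb F B n (ls n) := rfl
    exact ⟨c1, c2, c3.at hG b2 b3 b4 (by omega) (by omega) (by omega) le_rfl b5⟩
  · have hm0 : 0 ≤ min 1 (u * N0) := le_min zero_le_one (by positivity)
    have e : min 1 (u * N0) * (β * B.thp) ≤ wX F.toMd K C.1 (bx y (2 * C.2)) (bx y C.2) {y}
        (B.n0 + Mn * (RR F B n + U)) fun I => ind (I B.n0).Nonempty *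
          min 1 (u * Ncnt F B n (bx y C.2) (rReg P) Mn (RR F B n + U) I) := by
      refine (mul_le_mul_of_nonneg_left hβ hm0).trans ?_
      unfold cP wP
      rw [← wX_mul]
      refine wX_mono ((Bdd.const _).mul (Bdd.ind _)) ((Bdd.ind _).mul (Bdd.of01 fun I =>
        ⟨le_min zero_le_one (by positivity), min_le_left _ _⟩)) fun I _ => ?_
      by_cases hI : (I B.n0).Nonempty ∧ N0 ≤ Hcnt F B n (bx y C.2) P Mn (RR F B n + U) I
      · rw [ind_pos hI, ind_pos hI.1, mul_one, one_mul]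
        exact min_le_min le_rfl (mul_le_mul_of_nonneg_left
          (by exact_mod_cast hI.2.trans (hcnt_le _ _ _ _ _)) h0)
      · rw [ind_neg hI, mul_zero]
        exact mul_nonneg (ind_nonneg _) (le_min zero_le_one (by positivity))
    have := (le_div_iff₀ (thp_pos hB)).2 ((mul_assoc _ _ _).le.trans e)
    nlinarith

end Pool.Agent.Lib.MP_dd0771_pr.Sc
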