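import Pool.Agent.Lib.MP_dd0771_pr.Sc.Kit

open Filter

namespace Pool.Agent.Lib.MP_dd0771_pr.Sc

variable {d : ℕ} (ψ : S d ≃ S d) (dm : S d → Dir d ≃ Dir d)

/-- Transport of letters. -/
def irL : Lt d ≃ Lt d :=
  (Equiv.prodShear ψ fun x => Equiv.optionCongr ((dm x).prodCongr (Equiv.refl ℕ)))
/-- Transport of configurations. -/
def irC (η : Cfg d) : Cfg d := fun x => η (ψ.symm x)
/-- Transport of states. -/
def irS (σ : St d) : St d := (irC ψ σ.1, σ.2.image ψ)
/-- Transport of lists of words. -/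
def irW (ws : List (Word d)) : List (Word d) := ws.map (List.map (irL ψ dm))
/-- The jumps of the alphabet are carried to jumps. -/
def irJ (A : Finset (Lt d)) : Prop :=
  ∀ x e k, ((x, some (e, k)) : Lt d) ∈ A → ψ (nb x e) = nb (ψ x) (dm x e)

variable {ψ dm} {G : Md} {F : Fr}

theorem irL_none (x : S d) : irL ψ dm (x, none) = (ψ x, none) := rfl
theorem irL_some (x : S d) (e : Dir d) (k : ℕ) :
    irL ψ dm (x, some (e, k)) = (ψ x, some (dm x e, k)) := rfl
theorem irC_apply (η : Cfg d) (x : S d) : irC ψ η (ψ x) = η x := by simp [irC]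
theorem ir_mem {α : Type} [DecidableEq α] {e : α ≃ α} {s : Finset α} {x : α} :
    e x ∈ s.image e ↔ x ∈ s := e.injective.mem_finset_image
theorem ir_ext {α : Type} [DecidableEq α] {e : α ≃ α} {s t : Finset α}
    (h : ∀ x, e x ∈ t ↔ x ∈ s) : t = s.image e := Finset.ext fun y => by
  obtain ⟨x, rfl⟩ := e.surjective y
  rw [h, ir_mem]
theorem irC_ext {η η' : Cfg d} (h : ∀ x, η' (ψ x) = η x) : η' = irC ψ η := funext fun y => by
  obtain ⟨x, rfl⟩ := ψ.surjective y
  rw [h, irC_apply]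
theorem ir_rt (a : Lt d) : rt G (irL ψ dm a) = rt G a := by
  rcases a with ⟨x, _ | ⟨e, k⟩⟩ <;> rfl

theorem Iso.ir_sub {Q Q' : Finset (S d)} (h : Iso ψ dm Q) (s : Q' ⊆ Q) : Iso ψ dm Q' :=
  fun x hx e => ⟨⟨fun a => (h x (s hx) e).2 (s a) ▸ ir_mem.2 a, fun a => ir_mem.1
    (((h x (s hx) e).2 ((h x (s hx) e).1.2 (Finset.image_subset_image s a))).symm ▸ a)⟩,
    fun a => (h x (s hx) e).2 (s a)⟩
theorem Iso.ir_al {Q : Finset (S d)} (h : Iso ψ dm Q) (K : ℕ) :
    al K (Q.image ψ) = (al K Q).image (irL ψ dm) := ir_ext fun a => by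
  rcases a with ⟨x, _ | ⟨e, k⟩⟩
  · rw [irL_none, mem_al_none, mem_al_none, ir_mem]
  · rw [irL_some, mem_al_some, mem_al_some, ir_mem]
    exact and_congr_right fun a => and_congr_left' (h x a e).1.symm
theorem Iso.ir_j {Q : Finset (S d)} (h : Iso ψ dm Q) (K : ℕ) : irJ ψ dm (al K Q) :=
  fun x e _ a => (h x (mem_al_some.1 a).1 e).2 (mem_al_some.1 a).2.1
theorem ir_low (z : S d) : low G (ψ z) = (low G z).image (irL ψ dm) := ir_ext fun a => by
  rcases a with ⟨x, _ | ⟨e, k⟩⟩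
  · simp [irL_none, mem_low]
  · simp [irL_some, mem_low]

theorem ir_hop (η : Cfg d) (x y : S d) : hop (irC ψ η) (ψ x) (ψ y) = irC ψ (hop η x y) :=
  irC_ext fun z => by simp [hop, irC_apply]
theorem ir_ac {A : Finset (Lt d)} (h : irJ ψ dm A) (Z : Finset (S d)) (σ : St d) (a : Lt d) :
    ac G ⟨A.image (irL ψ dm), Z.image ψ⟩ (irS ψ σ) (irL ψ dm a) = irS ψ (ac G ⟨A, Z⟩ σ a) := by
  have m : irL ψ dm a ∈ A.image (irL ψ dm) ↔ a ∈ A := ir_mem
  rcases a with ⟨x, _ | ⟨e, k⟩⟩
  · rw [irL_none] at m ⊢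
    simp only [ac, irS, m, irC_apply]
    split_ifs
    · rw [Finset.image_erase ψ.injective]
    · rfl
  · rw [irL_some] at m ⊢
    simp only [ac, irS, m, irC_apply]
    by_cases c : ((x, some (e, k)) : Lt d) ∈ A ∧ k < σ.1 x
    · rw [if_pos c, if_pos c, ← h x e k c.1]
      refine Prod.ext (ir_hop ..) (ir_ext fun y => ?_)
      simp only [Finset.mem_filter, ir_hop, irC_apply, ir_mem]
      split_ifs <;> simp
    · rw [if_neg c, if_neg c]
theorem ir_acw {A : Finset (Lt d)} (h : irJ ψ dm A) (Z : Finset (S d)) (σ : St d) (w : Word d) :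
    acw G ⟨A.image (irL ψ dm), Z.image ψ⟩ (irS ψ σ) (w.map (irL ψ dm)) =
      irS ψ (acw G ⟨A, Z⟩ σ w) := by
  induction w generalizing σ with
  | nil => rfl
  | cons a w ih => exact (congrArg (acw G _ · _) (ir_ac h Z σ a)).trans (ih _)
theorem ir_acs {A : Finset (Lt d)} (h : irJ ψ dm A) (Z : Finset (S d)) (σ : St d)
    (ws : List (Word d)) : acs G ⟨A.image (irL ψ dm), Z.image ψ⟩ (irS ψ σ) (irW ψ dm ws) =
      irS ψ (acs G ⟨A, Z⟩ σ ws) := by
  induction ws generalizing σ with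
  | nil => rfl
  | cons w ws ih => exact (congrArg (acs G _ · _) (ir_acw h Z σ w)).trans (ih _)
theorem ir_ms (G : Md) {A : Finset (Lt d)} (h : irJ ψ dm A) (η : Cfg d) (ws : List (Word d)) :
    ms (A.image (irL ψ dm)) (irC ψ η) (irW ψ dm ws) = irC ψ (ms A η ws) := by
  have := congrArg Prod.fst (ir_acs (G := G) h ∅ (η, ∅) ws)
  rwa [acs_fst, irS, irS, acs_fst] at this
theorem ir_ini (Z Y : Finset (S d)) (η : Cfg d) :
    ini G (Z.image ψ) (Y.image ψ) (irC ψ η) = irS ψ (ini G Z Y η) :=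
  congrArg (Prod.mk _) (ir_ext fun x => by
    simp only [ini, Finset.mem_filter, Finset.mem_inter, ir_mem, irC_apply])
theorem irW_take (ws : List (Word d)) (u : ℕ) : (irW ψ dm ws).take u = irW ψ dm (ws.take u) :=
  List.map_take.symm
theorem irW_drop (ws : List (Word d)) (u : ℕ) : (irW ψ dm ws).drop u = irW ψ dm (ws.drop u) :=
  List.map_drop.symm

theorem ir_wl (hF : F.Ok) (A : Finset (Lt d)) :
    wl F.toMd (A.image (irL ψ dm)) = (wl F.toMd A).map (List.map (irL ψ dm)) := by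
  classical
  ext w
  obtain ⟨w, rfl⟩ := (List.map_surjective_iff.2 (irL ψ dm).surjective) w
  rw [PMF.map_apply, tsum_eq_single w fun w' n => if_neg fun e =>
    n (List.map_injective_iff.2 (irL ψ dm).injective e).symm, if_pos rfl]
  by_cases h : ∀ a ∈ w, a ∈ A
  · rw [← ENNReal.toReal_eq_toReal_iff' (PMF.apply_ne_top _ _) (PMF.apply_ne_top _ _),
      wl_apply hF A w h, wl_apply hF _ _ (List.forall_mem_map.2 fun a m => ir_mem.2 (h a m)),
      Finset.sum_image (irL ψ dm).injective.injOn, List.map_map, List.length_map]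
    simp only [Function.comp_def, ir_rt]
  · exact (by_contra fun z => h fun a m => ir_mem.1
      (wl_mem hF z _ (List.mem_map_of_mem m))).trans (by_contra fun z => h (wl_mem hF z)).symm
theorem ir_wls (hF : F.Ok) (A : Finset (Lt d)) (T : ℕ) :
    wls F.toMd (A.image (irL ψ dm)) T = (wls F.toMd A T).map (irW ψ dm) := by
  rw [wls, ir_wl hF, ← iid_map]
  rfl
theorem ir_mu (K : ℕ) (φ : ℝ) (Q : Finset (S d)) :
    mu G K φ (Q.image ψ) = (mu G K φ Q).map (irC ψ) := pc_image ..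
theorem ir_piz (K : ℕ) (φ : ℝ) (Q : Finset (S d)) (z : S d) :
    piz G K φ (Q.image ψ) (ψ z) = (piz G K φ Q z).map (irC ψ) := by
  rw [piz, pc_image]
  simp only [ψ.injective.eq_iff]
  rfl
theorem ir_mass (η : Cfg d) (Q : Finset (S d)) : mass (irC ψ η) (Q.image ψ) = mass η Q := by
  rw [mass, Finset.sum_image ψ.injective.injOn]
  simp only [irC_apply, mass]
theorem ir_upd (η : Cfg d) (z : S d) (v : ℕ) :
    Function.update (irC ψ η) (ψ z) v = irC ψ (Function.update η z v) :=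
  irC_ext fun x => by by_cases h : x = z <;> simp [h, irC_apply]
theorem ir_frz (z : S d) (ws : List (Word d)) : frz G (ψ z) (irW ψ dm ws) ↔ frz G z ws := by
  simp only [frz, irW, ir_low (dm := dm), List.forall_mem_map, ir_mem]
theorem ir_unif {α : Type} [DecidableEq α] {f : α → α} (hf : Function.Injective f) {s : Finset α}
    (h : s.Nonempty) (h' : (s.image f).Nonempty) :
    PMF.uniformOfFinset _ h' = (PMF.uniformOfFinset s h).map f := pmf_ext fun g b => by
  rw [ex_map _ _ b, ex_uniform, ex_uniform, Finset.sum_image hf.injOn,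
    Finset.card_image_of_injective _ hf]

variable {B : Bs} {K n l : ℕ} {pc : ℝ} {z : S d}

theorem ir_good (hF : F.Ok) (h : Iso ψ dm (bx z (4 * DD F n)))
    (hb : ∀ r, r ≤ 4 * DD F n → bx (ψ z) r = (bx z r).image ψ) (ω : Cfg d) :
    pregood F K n l pc (irC ψ ω) (ψ z) ↔ pregood F K n l pc ω z := by
  have e : loc F.toMd (DD F n) (ψ z) (irC ψ ω) = irC ψ (loc F.toMd (DD F n) z ω) :=
    irC_ext fun x => by simp only [loc, hb _ le_rfl, ir_mem, irC_apply, ψ.injective.eq_iff]
  rw [pregood, pregood, e, hb _ le_rfl, hb (3 * _) (by omega), ir_mass, ir_piz, h.ir_al,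
    ir_low (dm := dm), ← Finset.image_sdiff _ _ (irL ψ dm).injective, ir_wls hF,
    ex_map _ _ (Bdd.pr (fun _ => _) _)]
  simp [pr_map, ir_ms F.toMd (h.ir_j K), irC_apply]

theorem ir_LT (h : Iso ψ dm (bx z (4 * DD F n)))
    (hb : ∀ r, r ≤ 4 * DD F n → bx (ψ z) r = (bx z r).image ψ) (ws : List (Word d)) :
    LT F B K n l pc (irW ψ dm ws) (ψ z) =
      (LT F B K n l pc ws z).map (Option.map (Prod.map (irC ψ) (irC ψ))) := by
  rw [LT, LT, irW_take, irW_drop, ir_frz]
  split_ifs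
  · rw [hb _ le_rfl, hb (2 * _) (by omega), ir_piz, h.ir_al, PMF.bind_map, PMF.map_bind]
    refine kit3_bind fun ζ _ => ?_
    rw [Function.comp_apply, ir_ms F.toMd (h.ir_j K), irC_apply, PMF.map_comp]
    refine kit3_map fun v _ => ?_
    simp only [Function.comp_apply]
    rw [ir_upd, ← Finset.image_singleton, ir_ini, ir_acs (h.ir_j K)]
    simp only [irS, Finset.image_nonempty]
    split_ifs <;> rfl
  · rw [PMF.pure_map]
    rfl

theorem ir_perm (ws : List (Word d)) {s t : List (S d)} (h : s.Perm t) :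
    LTs F B K n l pc ws s = LTs F B K n l pc ws t := by
  induction h with
  | nil => rfl
  | cons x _ ih => rw [LTs, LTs, ih]
  | swap x y l =>
    simp only [LTs, PMF.map_bind, PMF.map_comp]
    rw [PMF.bind_comm]
    exact kit3_bind fun v _ => kit3_bind fun w _ => kit3_map fun η _ => Bool.and_left_comm ..
  | trans _ _ a b => exact a.trans b

theorem ir_LTs (ws : List (Word d)) {s : List (S d)} (h : ∀ z ∈ s, Iso ψ dm (bx z (4 * DD F n)) ∧
    ∀ r, r ≤ 4 * DD F n → bx (ψ z) r = (bx z r).image ψ) :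
    LTs F B K n l pc (irW ψ dm ws) (s.map ψ) = LTs F B K n l pc ws s := by
  induction s with
  | nil => rfl
  | cons z s ih =>
    rw [List.map_cons, LTs, LTs, ih fun y a => h y (List.mem_cons_of_mem _ a),
      ir_LT (h z List.mem_cons_self).1 (h z List.mem_cons_self).2, PMF.bind_map]
    exact kit3_bind fun o _ => by simp

end Pool.Agent.Lib.MP_dd0771_pr.Sc
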