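import Pool.Agent.Lib.MP_dd0771_pr.Sc.Kit3
import Pool.Agent.Lib.MP_dd0771_pr.Sc.Wd2
import Pool.Agent.Lib.MP_dd0771_pr.Sc.Site
import Pool.Agent.Lib.MP_dd0771_pr.Sc.ValK
import Pool.Agent.Lib.MP_dd0771_pr.Sc.Scale
import Pool.Agent.Lib.MP_dd0771_pr.Sc.Stm4
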