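import Pool.Agent.Lib.MP_dd0771_pr.Sc.Defs

open Filter

namespace Pool.Agent.Lib.MP_dd0771_pr.Sc

variable {α β γ : Type}

theorem ind_nonneg (E : Prop) : 0 ≤ ind E := by unfold ind; split_ifs <;> norm_num

theorem ind_le_one (E : Prop) : ind E ≤ 1 := by unfold ind; split_ifs <;> norm_num

theorem ind_pos {E : Prop} (h : E) : ind E = 1 := if_pos h

theorem ind_neg {E : Prop} (h : ¬ E) : ind E = 0 := if_neg h

theorem ind_mono {E E' : Prop} (h : E → E') : ind E ≤ ind E' := by
  by_cases e : E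
  · rw [ind_pos e, ind_pos (h e)]
  · rw [ind_neg e]; exact ind_nonneg _

theorem ind_and (E E' : Prop) : ind (E ∧ E') = ind E * ind E' := by by_cases e : E <;> by_cases e' : E' <;> simp [ind, e, e']

theorem ind_not (E : Prop) : ind (¬ E) = 1 - ind E := by by_cases e : E <;> simp [ind, e]

theorem Bdd.of01 {f : α → ℝ} (h : ∀ a, 0 ≤ f a ∧ f a ≤ 1) : Bdd f :=
  ⟨1, fun a => abs_le.2 ⟨by linarith [(h a).1], (h a).2⟩⟩

theorem Bdd.const (c : ℝ) : Bdd (fun _ : α => c) := ⟨|c|, fun _ => le_rfl⟩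

theorem Bdd.ind (E : α → Prop) : Bdd (fun a => ind (E a)) :=
  .of01 fun _ => ⟨ind_nonneg _, ind_le_one _⟩

theorem Bdd.add {f g : α → ℝ} (hf : Bdd f) (hg : Bdd g) : Bdd (fun a => f a + g a) := by
  obtain ⟨M, hM⟩ := hf
  obtain ⟨N, hN⟩ := hg
  exact ⟨M + N, fun a => (abs_add_le _ _).trans (add_le_add (hM a) (hN a))⟩

theorem Bdd.sub {f g : α → ℝ} (hf : Bdd f) (hg : Bdd g) : Bdd (fun a => f a - g a) := by
  obtain ⟨M, hM⟩ := hf
  obtain ⟨N, hN⟩ := hg
  exact ⟨M + N, fun a => (abs_sub _ _).trans (add_le_add (hM a) (hN a))⟩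

theorem Bdd.mul {f g : α → ℝ} (hf : Bdd f) (hg : Bdd g) : Bdd (fun a => f a * g a) := by
  obtain ⟨M, hM⟩ := hf
  obtain ⟨N, hN⟩ := hg
  exact ⟨M * N, fun a => (abs_mul _ _).trans_le
    (mul_le_mul (hM a) (hN a) (abs_nonneg _) ((abs_nonneg _).trans (hM a)))⟩

theorem Bdd.comp {f : α → ℝ} (hf : Bdd f) (g : β → α) : Bdd (fun b => f (g b)) :=
  hf.imp fun _ h b => h (g b)

theorem kit1_one (p : PMF α) : HasSum (fun a => (p a).toReal) 1 := by
  have := ENNReal.hasSum_toReal (f := p) (by simp [p.tsum_coe])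
  rwa [← ENNReal.tsum_toReal_eq p.apply_ne_top, p.tsum_coe] at this

theorem kit1_zero {p : PMF α} {a : α} (h : a ∉ p.support) : (p a).toReal = 0 := by
  rw [(p.apply_eq_zero_iff a).2 h, ENNReal.toReal_zero]

theorem kit1_le {p : PMF α} {f g : α → ℝ} (h : ∀ a ∈ p.support, f a ≤ g a) (a : α) :
    (p a).toReal * f a ≤ (p a).toReal * g a := by
  by_cases e : a ∈ p.support
  · exact mul_le_mul_of_nonneg_left (h a e) ENNReal.toReal_nonneg
  · rw [kit1_zero e, zero_mul, zero_mul]

theorem kit1_sum (p : PMF α) (q : α → PMF β) {f : α → β → ℝ}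
    (hf : Bdd fun x : α × β => f x.1 x.2) :
    Summable fun x : α × β => (p x.1).toReal * ((q x.1 x.2).toReal * f x.1 x.2) := by
  obtain ⟨M, hM⟩ := hf
  have h1 : Summable fun x : α × β => (p x.1).toReal * (q x.1 x.2).toReal := by
    refine (summable_prod_of_nonneg (f := fun x : α × β => (p x.1).toReal * (q x.1 x.2).toReal)
      fun x => mul_nonneg ENNReal.toReal_nonneg ENNReal.toReal_nonneg).2 ⟨fun a => ?_, ?_⟩
    · exact Summable.mul_left (p a).toReal (kit1_one (q a)).summable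
    · simp only [tsum_mul_left, (kit1_one (q _)).tsum_eq, mul_one]
      exact (kit1_one p).summable
  refine (h1.mul_right M).of_norm_bounded fun x => ?_
  rw [Real.norm_eq_abs, ← mul_assoc, abs_mul, abs_of_nonneg (by positivity)]
  exact mul_le_mul_of_nonneg_left (hM x) (by positivity)

theorem ex_summable (p : PMF α) {f : α → ℝ} (hf : Bdd f) :
    Summable fun a => (p a).toReal * f a := by
  obtain ⟨M, hM⟩ := hf
  refine ((kit1_one p).summable.mul_right M).of_norm_bounded fun a => ?_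
  rw [Real.norm_eq_abs, abs_mul, abs_of_nonneg ENNReal.toReal_nonneg]
  exact mul_le_mul_of_nonneg_left (hM a) ENNReal.toReal_nonneg

theorem ex_const (p : PMF α) (c : ℝ) : ex p (fun _ => c) = c :=
  ((kit1_one p).mul_right c).tsum_eq.trans (one_mul c)

theorem ex_pure (a : α) (f : α → ℝ) : ex (PMF.pure a) f = f a := by
  rw [ex, tsum_eq_single a fun b hb => by simp [PMF.pure_apply, hb]]
  simp

theorem ex_bind (p : PMF α) (q : α → PMF β) {f : β → ℝ} (hf : Bdd f) :
    ex (p.bind q) f = ex p fun a => ex (q a) f := by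
  have h1 : ∀ b, ((p.bind q) b).toReal * f b = ∑' a, (p a).toReal * ((q a b).toReal * f b) :=
    fun b => by
    rw [PMF.bind_apply, ENNReal.tsum_toReal_eq fun a =>
      ENNReal.mul_ne_top (p.apply_ne_top a) ((q a).apply_ne_top b), ← tsum_mul_right]
    simp only [ENNReal.toReal_mul, mul_assoc]
  simp only [ex, h1, ← tsum_mul_left]
  exact Summable.tsum_comm (f := fun a b => (p a).toReal * ((q a b).toReal * f b))
    (kit1_sum p q (f := fun _ b => f b) (hf.comp _))

theorem ex_map (p : PMF α) (g : α → β) {f : β → ℝ} (hf : Bdd f) :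
    ex (p.map g) f = ex p fun a => f (g a) := by
  rw [PMF.map, ex_bind p _ hf]
  simp only [Function.comp_apply, ex_pure]

theorem ex_congr {p : PMF α} {f g : α → ℝ} (h : ∀ a ∈ p.support, f a = g a) : ex p f = ex p g :=
  tsum_congr fun a => by
    by_cases e : a ∈ p.support
    · rw [h a e]
    · rw [kit1_zero e, zero_mul, zero_mul]

theorem ex_add (p : PMF α) {f g : α → ℝ} (hf : Bdd f) (hg : Bdd g) :
    ex p (fun a => f a + g a) = ex p f + ex p g := by
  simp only [ex, mul_add]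
  exact (ex_summable p hf).tsum_add (ex_summable p hg)

theorem ex_sub (p : PMF α) {f g : α → ℝ} (hf : Bdd f) (hg : Bdd g) :
    ex p (fun a => f a - g a) = ex p f - ex p g := by
  simp only [ex, mul_sub]
  exact (ex_summable p hf).tsum_sub (ex_summable p hg)

theorem ex_mul_left (p : PMF α) (c : ℝ) (f : α → ℝ) : ex p (fun a => c * f a) = c * ex p f := by
  simp only [ex, mul_left_comm _ c]
  exact tsum_mul_left

theorem ex_mul_right (p : PMF α) (c : ℝ) (f : α → ℝ) : ex p (fun a => f a * c) = ex p f * c := by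
  simp only [ex, ← mul_assoc]
  exact tsum_mul_right

theorem ex_sum (p : PMF α) (s : Finset β) {f : β → α → ℝ} (hf : ∀ b ∈ s, Bdd (f b)) :
    ex p (fun a => ∑ b ∈ s, f b a) = ∑ b ∈ s, ex p (f b) := by
  simp only [ex, Finset.mul_sum]
  exact Summable.tsum_finsetSum fun b hb => ex_summable p (hf b hb)

theorem ex_mono {p : PMF α} {f g : α → ℝ} (hf : Bdd f) (hg : Bdd g)
    (h : ∀ a ∈ p.support, f a ≤ g a) : ex p f ≤ ex p g :=
  (ex_summable p hf).tsum_le_tsum (kit1_le h) (ex_summable p hg)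

/-- Monotonicity against a possibly unbounded summable majorant. -/
theorem ex_mono' {p : PMF α} {f g : α → ℝ} (hg : Summable fun a => (p a).toReal * g a)
    (h0 : ∀ a ∈ p.support, 0 ≤ f a) (h : ∀ a ∈ p.support, f a ≤ g a) : ex p f ≤ ex p g := by
  have h1 : ∀ a, 0 ≤ (p a).toReal * f a := fun a => by
    simpa using kit1_le (f := fun _ => 0) h0 a
  exact (hg.of_nonneg_of_le h1 (kit1_le h)).tsum_le_tsum (kit1_le h) hg

theorem ex_nonneg {p : PMF α} {f : α → ℝ} (h : ∀ a ∈ p.support, 0 ≤ f a) : 0 ≤ ex p f :=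
  tsum_nonneg fun a => by simpa using kit1_le (f := fun _ => 0) h a

theorem ex_le {p : PMF α} {f : α → ℝ} {c : ℝ} (hf : Bdd f) (h : ∀ a ∈ p.support, f a ≤ c) :
    ex p f ≤ c := (ex_mono hf (.const c) h).trans_eq (ex_const p c)

theorem le_ex {p : PMF α} {f : α → ℝ} {c : ℝ} (hf : Bdd f) (h : ∀ a ∈ p.support, c ≤ f a) :
    c ≤ ex p f := (ex_const p c).ge.trans (ex_mono (.const c) hf h)

theorem Bdd.ex {f : α → β → ℝ} (hf : Bdd fun p : α × β => f p.1 p.2) (q : α → PMF β) :
    Bdd (fun a => ex (q a) (f a)) := by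
  obtain ⟨M, hM⟩ := hf
  exact ⟨M, fun a => abs_le.2 ⟨le_ex ⟨M, fun b => hM (a, b)⟩ fun b _ => (abs_le.1 (hM (a, b))).1,
    ex_le ⟨M, fun b => hM (a, b)⟩ fun b _ => (abs_le.1 (hM (a, b))).2⟩⟩

theorem ex_comm (p : PMF α) (q : PMF β) {f : α → β → ℝ} (hf : Bdd fun x : α × β => f x.1 x.2) :
    (ex p fun a => ex q fun b => f a b) = ex q fun b => ex p fun a => f a b := by
  simp only [ex, ← tsum_mul_left]
  refine (Summable.tsum_comm (f := fun a b => (p a).toReal * ((q b).toReal * f a b))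
    (kit1_sum p (fun _ => q) hf)).symm.trans ?_
  simp only [mul_left_comm (p _).toReal]

theorem ex_finset {p : PMF α} (s : Finset α) (hs : ∀ a ∈ p.support, a ∈ s) (f : α → ℝ) :
    ex p f = ∑ a ∈ s, (p a).toReal * f a :=
  tsum_eq_sum fun a ha => by rw [kit1_zero fun e => ha (hs a e), zero_mul]

theorem ex_ind_eq (p : PMF α) (a : α) : pr p (fun b => b = a) = (p a).toReal := by
  rw [pr, ex, tsum_eq_single a fun b hb => by rw [ind_neg hb, mul_zero], ind_pos rfl, mul_one]

theorem pmf_ext {p q : PMF α} (h : ∀ f : α → ℝ, Bdd f → ex p f = ex q f) : p = q :=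
  PMF.ext fun a => (ENNReal.toReal_eq_toReal_iff' (p.apply_ne_top a) (q.apply_ne_top a)).1
    ((ex_ind_eq p a).symm.trans ((h _ (.ind _)).trans (ex_ind_eq q a)))

theorem ex_sq_le (p : PMF α) {f g : α → ℝ} (hf : Bdd f) (hg : Bdd g) :
    ex p (fun a => f a * g a) ^ 2 ≤ ex p (fun a => f a ^ 2) * ex p fun a => g a ^ 2 := by
  have hff : Bdd fun a => f a ^ 2 := by simpa only [sq] using hf.mul hf
  have hgg : Bdd fun a => g a ^ 2 := by simpa only [sq] using hg.mul hg
  have := discrim_le_zero (a := ex p fun a => f a ^ 2) (b := 2 * ex p fun a => f a * g a)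
    (c := ex p fun a => g a ^ 2) fun x => by
      rw [← ex_mul_right, ← ex_mul_left, ← ex_mul_right,
        ← ex_add p (hff.mul (.const _)) (((Bdd.const 2).mul (hf.mul hg)).mul (.const _)),
        ← ex_add p ((hff.mul (.const _)).add (((Bdd.const 2).mul (hf.mul hg)).mul (.const _))) hgg]
      exact ex_nonneg fun a _ => by nlinarith [sq_nonneg (f a * x + g a)]
  rw [discrim] at this
  nlinarith

theorem pr_nonneg (p : PMF α) (E : α → Prop) : 0 ≤ pr p E := ex_nonneg fun _ _ => ind_nonneg _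

theorem pr_le_one (p : PMF α) (E : α → Prop) : pr p E ≤ 1 := ex_le (.ind _) fun _ _ => ind_le_one _

theorem Bdd.pr (q : α → PMF β) (E : α → β → Prop) : Bdd (fun a => pr (q a) (E a)) :=
  .of01 fun _ => ⟨pr_nonneg _ _, pr_le_one _ _⟩

theorem pr_mono {p : PMF α} {E E' : α → Prop} (h : ∀ a ∈ p.support, E a → E' a) :
    pr p E ≤ pr p E' := ex_mono (.ind _) (.ind _) fun a ha => ind_mono (h a ha)

theorem pr_congr {p : PMF α} {E E' : α → Prop} (h : ∀ a ∈ p.support, (E a ↔ E' a)) :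
    pr p E = pr p E' := ex_congr fun a ha => congrArg ind (propext (h a ha))

theorem pr_not (p : PMF α) (E : α → Prop) : pr p (fun a => ¬ E a) = 1 - pr p E := by
  simp only [pr, ind_not]
  rw [ex_sub p (.const 1) (.ind _), ex_const]

theorem pr_or_le (p : PMF α) (E E' : α → Prop) : pr p (fun a => E a ∨ E' a) ≤ pr p E + pr p E' := by
  rw [pr, pr, pr, ← ex_add p (.ind _) (.ind _)]
  refine ex_mono (.ind _) ((Bdd.ind _).add (.ind _)) fun a _ => ?_
  by_cases e : E a <;> by_cases e' : E' a <;> simp [ind, e, e']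

theorem pr_le_add {p : PMF α} {E E1 E2 : α → Prop} (h : ∀ a ∈ p.support, E a → E1 a ∨ E2 a) :
    pr p E ≤ pr p E1 + pr p E2 := (pr_mono h).trans (pr_or_le p E1 E2)

theorem pr_zero {p : PMF α} {E : α → Prop} (h : ∀ a ∈ p.support, ¬ E a) : pr p E = 0 :=
  (ex_congr fun a ha => ind_neg (h a ha)).trans (ex_const p 0)

theorem pr_one {p : PMF α} {E : α → Prop} (h : ∀ a ∈ p.support, E a) : pr p E = 1 :=
  (ex_congr fun a ha => ind_pos (h a ha)).trans (ex_const p 1)

theorem pr_union_le (p : PMF α) (s : Finset β) (E : β → α → Prop) :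
    pr p (fun a => ∃ b ∈ s, E b a) ≤ ∑ b ∈ s, pr p (E b) := by
  classical
  induction s using Finset.induction_on with
  | empty => exact (pr_zero (by simp)).le
  | insert b s hb ih =>
    rw [Finset.sum_insert hb]
    exact (pr_le_add fun a _ h => by simpa using h).trans (add_le_add le_rfl ih)

theorem pr_bind (p : PMF α) (q : α → PMF β) (E : β → Prop) :
    pr (p.bind q) E = ex p fun a => pr (q a) E := ex_bind p q (.ind _)

theorem pr_map (p : PMF α) (g : α → β) (E : β → Prop) : pr (p.map g) E = pr p fun a => E (g a) :=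
  ex_map p g (.ind _)

theorem markov {p : PMF α} {f : α → ℝ} {c : ℝ} (hf : Summable fun a => (p a).toReal * f a)
    (h0 : ∀ a ∈ p.support, 0 ≤ f a) (hc : 0 < c) : pr p (fun a => c ≤ f a) ≤ ex p f / c := by
  rw [div_eq_mul_inv, ← ex_mul_right]
  refine ex_mono' (by simpa only [mul_assoc] using hf.mul_right c⁻¹) (fun _ _ => ind_nonneg _)
    fun a ha => ?_
  by_cases e : c ≤ f a
  · rw [ind_pos e, ← div_eq_mul_inv, one_le_div hc]; exact e
  · rw [ind_neg e]; exact mul_nonneg (h0 a ha) (inv_pos.2 hc).le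

end Pool.Agent.Lib.MP_dd0771_pr.Sc
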