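import Pool.Agent.Lib.MP_dd0771_pr.Sc.Kit1

open Filter

namespace Pool.Agent.Lib.MP_dd0771_pr.Sc

variable {α β γ : Type}

theorem iid_length {p : PMF α} {N : ℕ} {l : List α} (h : l ∈ (iid p N).support) :
    l.length = N := by
  induction N generalizing l with
  | zero => simpa [iid] using h
  | succ N ih =>
    simp only [iid, PMF.mem_support_bind_iff, PMF.mem_support_map_iff] at h
    obtain ⟨a, -, l', hl', rfl⟩ := h
    simp [ih hl']
theorem iid_mem {p : PMF α} {N : ℕ} {l : List α} (h : l ∈ (iid p N).support) :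
    ∀ a ∈ l, a ∈ p.support := by
  induction N generalizing l with
  | zero =>
    have : l = [] := by simpa [iid] using h
    subst this
    simp
  | succ N ih =>
    simp only [iid, PMF.mem_support_bind_iff, PMF.mem_support_map_iff] at h
    obtain ⟨a, ha, l', hl', rfl⟩ := h
    intro b hb
    rcases List.mem_cons.1 hb with rfl | hb
    · exact ha
    · exact ih hl' b hb
theorem iid_add (p : PMF α) (m n : ℕ) :
    iid p (m + n) = (iid p m).bind fun l => (iid p n).map fun l' => l ++ l' := by
  induction m with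
  | zero =>
    simp only [iid, Nat.zero_add, PMF.pure_bind, List.nil_append]
    exact (PMF.map_id _).symm
  | succ m ih =>
    rw [Nat.add_right_comm]
    simp only [iid, ih, PMF.bind_bind, PMF.bind_map, PMF.map_bind, PMF.map_comp]
    rfl
theorem ex_iid_succ (p : PMF α) (N : ℕ) {f : List α → ℝ} (hf : Bdd f) :
    ex (iid p (N + 1)) f = ex p fun a => ex (iid p N) fun l => f (a :: l) := by
  rw [iid, ex_bind _ _ hf]
  exact ex_congr fun a _ => ex_map _ _ hf
theorem ex_iid_add (p : PMF α) (m n : ℕ) {f : List α → ℝ} (hf : Bdd f) :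
    ex (iid p (m + n)) f = ex (iid p m) fun l => ex (iid p n) fun l' => f (l ++ l') := by
  rw [iid_add, ex_bind _ _ hf]
  exact ex_congr fun a _ => ex_map _ _ hf
theorem ex_iid_succ' (p : PMF α) (N : ℕ) {f : List α → ℝ} (hf : Bdd f) :
    ex (iid p (N + 1)) f = ex (iid p N) fun l => ex p fun a => f (l ++ [a]) := by
  rw [ex_iid_add p N 1 hf]
  refine ex_congr fun l _ => ?_
  rw [ex_iid_succ p 0 (hf.comp fun l' => l ++ l')]
  exact ex_congr fun a _ => ex_pure _ _
theorem ex_iid_split (p : PMF α) (m n : ℕ) {f : List α → List α → ℝ}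
    (hf : Bdd fun x : List α × List α => f x.1 x.2) :
    ex (iid p (m + n)) (fun l => f (l.take m) (l.drop m)) =
      ex (iid p m) fun l => ex (iid p n) fun l' => f l l' := by
  rw [ex_iid_add p m n (hf.comp fun l : List α => (l.take m, l.drop m))]
  refine ex_congr fun l hl => ex_congr fun l' _ => ?_
  rw [List.take_left' (iid_length hl), List.drop_left' (iid_length hl)]
theorem iid_take (p : PMF α) {m n : ℕ} (h : m ≤ n) : (iid p n).map (List.take m) = iid p m := by
  obtain ⟨k, rfl⟩ := Nat.exists_eq_add_of_le h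
  refine pmf_ext fun f hf => ?_
  rw [ex_map _ _ hf, ex_iid_split p m k (f := fun l _ => f l) (hf.comp Prod.fst)]
  exact ex_congr fun l _ => ex_const _ _
theorem iid_map (p : PMF α) (g : α → β) (N : ℕ) :
    (iid p N).map (List.map g) = iid (p.map g) N := by
  induction N with
  | zero => simp [iid, PMF.pure_map]
  | succ N ih =>
    simp only [iid, ← ih, PMF.bind_map, PMF.map_bind, PMF.map_comp]
    rfl
theorem iid_reverse (p : PMF α) (N : ℕ) : (iid p N).map List.reverse = iid p N := by
  induction N with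
  | zero => simp [iid, PMF.pure_map]
  | succ N ih =>
    refine pmf_ext fun f hf => ?_
    rw [ex_map _ _ hf, ex_iid_succ p N (hf.comp List.reverse), ex_iid_succ' p N hf,
      ← ex_comm p (iid p N) (f := fun a l => f (l ++ [a]))
        (hf.comp fun x : α × List α => x.2 ++ [x.1])]
    refine ex_congr fun a _ => ?_
    conv_rhs => rw [← ih, ex_map _ _ (hf.comp fun l => l ++ [a])]
    simp only [List.reverse_cons]
theorem iid_apply (p : PMF α) (l : List α) : iid p l.length l = (l.map p).prod := by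
  classical
  induction l with
  | nil => simp [iid]
  | cons a l ih =>
    rw [List.length_cons, iid, PMF.bind_apply, tsum_eq_single a, PMF.map_apply, tsum_eq_single l]
    · simp [ih]
    · intro l' hl'
      rw [if_neg]
      intro h
      exact hl' (List.cons.inj h).2.symm
    · intro b hb
      rw [PMF.map_apply, mul_eq_zero]
      right
      rw [ENNReal.tsum_eq_zero]
      intro l'
      rw [if_neg]
      intro h
      exact hb (List.cons.inj h).1.symm
/-- The window number `u` is independent of the earlier ones. -/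
theorem ex_iid_get (p : PMF α) {u N : ℕ} (h : u < N) {f : List α → α → ℝ}
    (hf : Bdd fun x : List α × α => f x.1 x.2) :
    ex (iid p N) (fun l => (l[u]?).elim 0 (f (l.take u))) = ex (iid p u) fun l => ex p (f l) := by
  obtain ⟨k, rfl⟩ := Nat.exists_eq_add_of_lt h
  have hb : Bdd fun l : List α => (l[u]?).elim 0 (f (l.take u)) := by
    obtain ⟨M, hM⟩ := hf
    refine ⟨|M|, fun l => ?_⟩
    dsimp only
    cases l[u]? with
    | none => simp
    | some a => exact (hM (l.take u, a)).trans (le_abs_self M)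
  rw [add_assoc, ex_iid_add p u (k + 1) hb]
  refine ex_congr fun l hl => ?_
  have hlen := iid_length hl
  rw [ex_iid_succ p k (hb.comp fun l' => l ++ l')]
  refine ex_congr fun a _ => ?_
  rw [← ex_const (iid p k) (f l a)]
  refine ex_congr fun l' _ => ?_
  subst hlen
  simp
theorem ofW_apply {w : α → ℝ} (a0 : α) (h0 : ∀ a, 0 ≤ w a) (hs : Summable w) (hp : 0 < ∑' a, w a)
    (a : α) : (ofW w a0 a).toReal = w a / ∑' a, w a := by
  have e : (∑' a, ENNReal.ofReal (w a)) = ENNReal.ofReal (∑' a, w a) :=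
    (ENNReal.ofReal_tsum_of_nonneg h0 hs).symm
  have h : (∑' a, ENNReal.ofReal (w a)) ≠ 0 ∧ (∑' a, ENNReal.ofReal (w a)) ≠ ⊤ := by
    rw [e]
    exact ⟨(ENNReal.ofReal_pos.2 hp).ne', ENNReal.ofReal_ne_top⟩
  rw [ofW, dif_pos h, PMF.normalize_apply, e, ENNReal.toReal_mul, ENNReal.toReal_inv,
    ENNReal.toReal_ofReal (h0 a), ENNReal.toReal_ofReal hp.le, div_eq_mul_inv]
theorem ex_uniform (s : Finset α) (h : s.Nonempty) (f : α → ℝ) :
    ex (PMF.uniformOfFinset s h) f = (∑ a ∈ s, f a) / s.card := by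
  rw [ex_finset s (fun a ha => by simpa using ha), Finset.sum_div]
  refine Finset.sum_congr rfl fun a ha => ?_
  rw [PMF.uniformOfFinset_apply_of_mem h ha, ENNReal.toReal_inv, ENNReal.toReal_natCast,
    div_eq_inv_mul]
theorem kit2_supp {w : α → ℝ} (a0 : α) (h0 : ∀ a, 0 ≤ w a) (hs : Summable w)
    (hp : 0 < ∑' a, w a) {a : α} (ha : a ∈ (ofW w a0).support) : w a ≠ 0 := by
  intro hw
  have h1 := ofW_apply a0 h0 hs hp a
  rw [hw, zero_div, ENNReal.toReal_eq_zero_iff] at h1
  rcases h1 with h1 | h1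
  · exact ha h1
  · exact PMF.apply_ne_top _ _ h1
/-- Conditioning. -/
theorem exists_cond (p : PMF α) (E : α → Prop) (h : 0 < pr p E) :
    ∃ q : PMF α, (∀ a ∈ q.support, a ∈ p.support ∧ E a) ∧
      ∀ f : α → ℝ, Bdd f → ex q f * pr p E = ex p fun a => ind (E a) * f a := by
  obtain ⟨a0, -⟩ := p.support_nonempty
  have h0 : ∀ a, 0 ≤ (p a).toReal * ind (E a) := fun a =>
    mul_nonneg ENNReal.toReal_nonneg (ind_nonneg _)
  have hs := ex_summable p (Bdd.ind E)
  refine ⟨ofW (fun a => (p a).toReal * ind (E a)) a0, fun a ha => ?_, fun f _ => ?_⟩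
  · have h1 := kit2_supp a0 h0 hs h ha
    refine ⟨fun h2 => h1 ?_, by_contra fun h2 => h1 ?_⟩
    · rw [h2]; simp
    · rw [ind_neg h2, mul_zero]
  · rw [ex, ex, ← tsum_mul_right]
    refine tsum_congr fun a => ?_
    rw [ofW_apply a0 h0 hs h a]
    have e : (∑' a, (p a).toReal * ind (E a)) = pr p E := rfl
    rw [e]
    field_simp
/-- Disintegration along `π`. -/
theorem exists_disint (q : PMF γ) (π : γ → β) :
    ∃ κ : β → PMF γ, (q.map π).bind κ = q ∧
      ∀ b ∈ (q.map π).support, ∀ c ∈ (κ b).support, c ∈ q.support ∧ π c = b := by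
  classical
  have hm : ∀ b, q.map π b = ∑' c, Set.indicator {c | π c = b} q c := fun b => by
    rw [PMF.map_apply]
    refine tsum_congr fun c => ?_
    by_cases h : π c = b
    · rw [if_pos h.symm, Set.indicator_of_mem (by exact h)]
    · rw [if_neg fun e => h e.symm, Set.indicator_of_notMem (by exact h)]
  have hx : ∀ b ∈ (q.map π).support, ∃ c ∈ {c | π c = b}, c ∈ q.support := fun b hb => by
    obtain ⟨c, hc, e⟩ := (PMF.mem_support_map_iff _ _ _).1 hb
    exact ⟨c, e, hc⟩
  refine ⟨fun b => if h : b ∈ (q.map π).support then q.filter {c | π c = b} (hx b h) else q,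
    ?_, fun b hb c hc => ?_⟩
  · ext c
    rw [PMF.bind_apply, tsum_eq_single (π c)]
    · by_cases h : π c ∈ (q.map π).support
      · rw [dif_pos h, PMF.filter_apply, ← hm, Set.indicator_of_mem (by exact rfl), mul_comm,
          mul_assoc, ENNReal.inv_mul_cancel h (PMF.apply_ne_top _ _), mul_one]
      · have h1 : q c = 0 := by
          by_contra h2
          exact h ((PMF.mem_support_map_iff _ _ _).2 ⟨c, h2, rfl⟩)
        rw [dif_neg h, h1, mul_zero]
    · intro b hb
      by_cases h : b ∈ (q.map π).support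
      · rw [dif_pos h, PMF.filter_apply, Set.indicator_of_notMem (by exact hb.symm), zero_mul,
          mul_zero]
      · rw [not_not.1 h, zero_mul]
  · dsimp only at hc
    rw [dif_pos hb, PMF.mem_support_filter_iff] at hc
    exact ⟨hc.2, hc.1⟩
/-- Gluing two laws along a common marginal. -/
theorem exists_glue (p : PMF α) (q : PMF γ) (π : α → β) (π' : γ → β) (h : p.map π = q.map π') :
    ∃ r : PMF (α × γ), r.map Prod.fst = p ∧ r.map Prod.snd = q ∧
      ∀ x ∈ r.support, π x.1 = π' x.2 := by
  obtain ⟨κ, h1, h2⟩ := exists_disint p π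
  obtain ⟨κ', h3, h4⟩ := exists_disint q π'
  refine ⟨(p.map π).bind fun b => (κ b).bind fun a => (κ' b).map fun c => (a, c), ?_, ?_, ?_⟩
  · rw [PMF.map_bind]
    refine Eq.trans (congrArg _ (funext fun b => ?_)) h1
    rw [PMF.map_bind]
    refine Eq.trans (congrArg _ (funext fun a => ?_)) (PMF.bind_pure _)
    rw [PMF.map_comp]
    exact PMF.map_const _ _
  · rw [PMF.map_bind, h]
    refine Eq.trans (congrArg _ (funext fun b => ?_)) h3
    rw [PMF.map_bind]
    refine Eq.trans (congrArg _ (funext fun a => ?_)) (PMF.bind_const _ _)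
    rw [PMF.map_comp]
    exact PMF.map_id _
  · intro x hx
    simp only [PMF.mem_support_bind_iff] at hx
    obtain ⟨b, hb, a, ha, hx⟩ := hx
    obtain ⟨c, hc, rfl⟩ := (PMF.mem_support_map_iff _ _ _).1 hx
    exact (h2 b hb a ha).2.trans (h4 b (h ▸ hb) c hc).2.symm
theorem kit2_step (p : PMF ℕ) (m : ℕ) :
    pr p (fun i => m ≤ i) - pr p (fun i => m + 1 ≤ i) = (p m).toReal := by
  rw [← ex_ind_eq, pr, pr, pr, ← ex_sub p (Bdd.ind _) (Bdd.ind _)]
  refine ex_congr fun i _ => ?_
  rcases lt_trichotomy i m with h | h | h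
  · rw [ind_neg (by omega), ind_neg (by omega), ind_neg (by omega), sub_zero]
  · rw [ind_pos (by omega), ind_neg (by omega), ind_pos h, sub_zero]
  · rw [ind_pos (by omega), ind_pos (by omega), ind_neg (by omega), sub_self]
theorem kit2_lim (p : PMF ℕ) : Tendsto (fun m => pr p fun i => m ≤ i) atTop (nhds 0) := by
  have h1 : HasSum (fun i => (p i).toReal * 1) 1 := by
    have h2 := (ex_summable p (Bdd.const 1)).hasSum
    have h3 : (∑' i, (p i).toReal * 1) = 1 := ex_const p 1
    rwa [h3] at h2
  have h4 : ∀ m, pr p (fun i => m ≤ i) = 1 - ∑ i ∈ Finset.range m, (p i).toReal * 1 := by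
    intro m
    induction m with
    | zero => simpa using pr_one (p := p) (E := fun i => 0 ≤ i) fun i _ => Nat.zero_le i
    | succ m ih =>
      rw [Finset.sum_range_succ]
      have := kit2_step p m
      linarith
  have h5 := (tendsto_const_nhds (x := (1 : ℝ))).sub h1.tendsto_sum_nat
  rw [sub_self] at h5
  exact h5.congr fun m => (h4 m).symm
/-- Stochastic domination on `ℕ` gives a decreasing kernel. -/
theorem exists_thin (p q : PMF ℕ) (h : ∀ m, pr q (fun i => m ≤ i) ≤ pr p fun i => m ≤ i) :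
    ∃ κ : ℕ → PMF ℕ, (∀ a, ∀ b ∈ (κ a).support, b ≤ a) ∧ p.bind κ = q := by
  classical
  obtain ⟨P, hP⟩ : ∃ P : ℕ → ℝ, P = fun m => pr p fun i => m ≤ i := ⟨_, rfl⟩
  obtain ⟨Q, hQ⟩ : ∃ Q : ℕ → ℝ, Q = fun m => pr q fun i => m ≤ i := ⟨_, rfl⟩
  have hQP : ∀ m, Q m ≤ P m := by rw [hP, hQ]; exact h
  have hPs : ∀ m, P m - P (m + 1) = (p m).toReal := by rw [hP]; exact kit2_step p
  have hQs : ∀ m, Q m - Q (m + 1) = (q m).toReal := by rw [hQ]; exact kit2_step q
  have hPa : Antitone P := antitone_nat_of_succ_le fun m => by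
    have := hPs m
    have h2 : 0 ≤ (p m).toReal := ENNReal.toReal_nonneg
    linarith
  have hQa : Antitone Q := antitone_nat_of_succ_le fun m => by
    have := hQs m
    have h2 : 0 ≤ (q m).toReal := ENNReal.toReal_nonneg
    linarith
  have hQ0 : Q 0 = 1 := by rw [hQ]; exact pr_one fun i _ => Nat.zero_le i
  have hP1 : ∀ m, P m ≤ 1 := by rw [hP]; exact fun m => pr_le_one _ _
  have hQn : ∀ m, 0 ≤ Q m := by rw [hQ]; exact fun m => pr_nonneg _ _
  have hPl : Tendsto P atTop (nhds 0) := by rw [hP]; exact kit2_lim p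
  obtain ⟨r, hr⟩ : ∃ r : ℕ → ℕ → ℝ, r = fun a b => (min (P a) (Q b) - min (P (a + 1)) (Q b)) -
    (min (P a) (Q (b + 1)) - min (P (a + 1)) (Q (b + 1))) := ⟨_, rfl⟩
  have r0 : ∀ a b, 0 ≤ r a b := fun a b => by
    have h1 := hPa (Nat.le_succ a)
    have h2 := hQa (Nat.le_succ b)
    rw [hr]
    simp only [min_def]
    split_ifs <;> linarith
  have rz : ∀ a b, a < b → r a b = 0 := fun a b hab => by
    have h1 := hPa (Nat.le_succ a)
    have h2 := hQa (Nat.le_succ b)
    have h3 := (hQa (show a + 1 ≤ b from hab)).trans (hQP (a + 1))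
    rw [hr]
    dsimp only
    rw [min_eq_right (h3.trans h1), min_eq_right h3, min_eq_right ((h2.trans h3).trans h1),
      min_eq_right (h2.trans h3)]
    ring
  have rrow : ∀ a, HasSum (r a) (p a).toReal := fun a => by
    have h1 : HasSum (r a) (∑ b ∈ Finset.range (a + 1), r a b) :=
      hasSum_sum_of_ne_finset_zero fun b hb => rz a b (by simpa using hb)
    have h2 : ∑ b ∈ Finset.range (a + 1), r a b = (p a).toReal := by
      rw [hr]
      dsimp only
      rw [Finset.sum_range_sub' fun b => min (P a) (Q b) - min (P (a + 1)) (Q b), hQ0,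
        min_eq_left (hP1 _), min_eq_left (hP1 _),
        min_eq_right ((hQP _).trans (hPa (Nat.le_succ a))), min_eq_right (hQP _), sub_self,
        sub_zero, hPs]
    rwa [h2] at h1
  have rcol : ∀ b, HasSum (fun a => r a b) (q b).toReal := fun b => by
    rw [hasSum_iff_tendsto_nat_of_nonneg fun a => r0 a b]
    have h1 : ∀ n, ∑ a ∈ Finset.range n, r a b =
        (q b).toReal - (min (P n) (Q b) - min (P n) (Q (b + 1))) := fun n => by
      have h2 := Finset.sum_range_sub' (fun a => min (P a) (Q b) - min (P a) (Q (b + 1))) n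
      rw [min_eq_right ((hQa (Nat.zero_le _)).trans (hQP 0)),
        min_eq_right ((hQa (Nat.zero_le _)).trans (hQP 0)), hQs] at h2
      rw [← h2, hr]
      exact Finset.sum_congr rfl fun a _ => by ring
    have h3 := (tendsto_const_nhds (x := (q b).toReal)).sub
      ((hPl.min (tendsto_const_nhds (x := Q b))).sub
        (hPl.min (tendsto_const_nhds (x := Q (b + 1)))))
    rw [min_eq_left (hQn _), min_eq_left (hQn _), sub_self, sub_zero] at h3
    exact h3.congr fun n => (h1 n).symm
  refine ⟨fun a => if 0 < (p a).toReal then ofW (r a) 0 else PMF.pure 0, fun a b hb => ?_, ?_⟩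
  · dsimp only at hb
    split_ifs at hb with h1
    · by_contra h2
      exact kit2_supp 0 (r0 a) (rrow a).summable (by rw [(rrow a).tsum_eq]; exact h1) hb
        (rz a b (not_le.1 h2))
    · have : b = 0 := by simpa using hb
      omega
  · ext b
    rw [← ENNReal.toReal_eq_toReal_iff' (PMF.apply_ne_top _ _) (PMF.apply_ne_top _ _),
      ← ex_ind_eq, pr_bind, ← (rcol b).tsum_eq, ex]
    refine tsum_congr fun a => ?_
    rw [ex_ind_eq]
    by_cases h1 : 0 < (p a).toReal
    · rw [if_pos h1, ofW_apply 0 (r0 a) (rrow a).summable (by rw [(rrow a).tsum_eq]; exact h1),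
        (rrow a).tsum_eq]
      field_simp
    · have h2 : (p a).toReal = 0 := le_antisymm (not_lt.1 h1) ENNReal.toReal_nonneg
      have h3 : P (a + 1) = P a := by have := hPs a; linarith
      rw [h2, zero_mul, hr]
      dsimp only
      rw [h3]
      ring
theorem thin_spec (p q : PMF ℕ) (h : ∀ m, pr q (fun i => m ≤ i) ≤ pr p fun i => m ≤ i) :
    (∀ a, ∀ b ∈ (thin p q a).support, b ≤ a) ∧ p.bind (thin p q) = q := by
  have h1 := exists_thin p q h
  rw [thin, dif_pos h1]
  exact h1.choose_spec

end Pool.Agent.Lib.MP_dd0771_pr.Sc
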