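import Pool.Agent.Lib.MP_dd0771_pr.Sc.Kit2

open Filter
open scoped ENNReal

namespace Pool.Agent.Lib.MP_dd0771_pr.Sc

variable {d : ℕ}

theorem kit3_bind {α β : Type} {p : PMF α} {q q' : α → PMF β} (h : ∀ a ∈ p.support, q a = q' a) :
    p.bind q = p.bind q' := by
  ext b
  rw [PMF.bind_apply, PMF.bind_apply]
  refine tsum_congr fun a => ?_
  by_cases e : p a = 0
  · rw [e, zero_mul, zero_mul]
  · rw [h a e]
theorem kit3_map {α β : Type} {p : PMF α} {f g : α → β} (h : ∀ a ∈ p.support, f a = g a) :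
    p.map f = p.map g := kit3_bind fun a e => congrArg PMF.pure (h a e)
theorem kit3_const {α β : Type} {p : PMF α} {f : α → β} {b : β} (h : ∀ a ∈ p.support, f a = b) :
    p.map f = PMF.pure b := (kit3_map h).trans (PMF.map_const ..)
theorem kit3_perm (m : S d → PMF ℕ) {l l' : List (S d)} (h : l.Perm l') : pcL m l = pcL m l' := by
  induction h with
  | nil => rfl
  | cons x _ ih => rw [pcL, pcL, ih]
  | swap x y l =>
    by_cases e : x = y
    · rw [e]
    simp only [pcL, PMF.map_bind, PMF.map_comp]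
    rw [PMF.bind_comm]
    refine kit3_bind fun v _ => kit3_bind fun w _ => kit3_map fun η _ => ?_
    exact Function.update_comm e ..
  | trans _ _ a b => exact a.trans b
theorem pc_empty (m : S d → PMF ℕ) : pc ∅ m = PMF.pure 0 := by rw [pc, Finset.toList_empty, pcL]
theorem pc_insert {Q : Finset (S d)} {x : S d} (hx : x ∉ Q) (m : S d → PMF ℕ) :
    pc (insert x Q) m = (m x).bind fun v => (pc Q m).map fun η => Function.update η x v :=
  kit3_perm m (Finset.toList_insert hx)
theorem pc_support {Q : Finset (S d)} {m : S d → PMF ℕ} {η : Cfg d} (h : η ∈ (pc Q m).support) :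
    (∀ x, x ∉ Q → η x = 0) ∧ ∀ x ∈ Q, η x ∈ (m x).support := by
  induction Q using Finset.induction_on generalizing η with
  | empty =>
    rw [pc_empty, PMF.mem_support_pure_iff] at h
    simp [h]
  | insert x Q hx ih =>
    rw [pc_insert hx, PMF.mem_support_bind_iff] at h
    obtain ⟨v, hv, h'⟩ := h
    obtain ⟨η, h, rfl⟩ := (PMF.mem_support_map_iff ..).1 h'
    refine ⟨fun y hy => ?_, fun y hy => ?_⟩
    · rw [Finset.mem_insert, not_or] at hy
      rw [Function.update_of_ne hy.1, (ih h).1 y hy.2]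
    · by_cases e : y = x
      · rwa [e, Function.update_self]
      · rw [Function.update_of_ne e]
        exact (ih h).2 y ((Finset.mem_insert.1 hy).resolve_left e)
theorem kit3_apply {Q : Finset (S d)} {x : S d} (hx : x ∉ Q) (m : S d → PMF ℕ) (η : Cfg d) :
    pc (insert x Q) m η = m x (η x) * pc Q m (Function.update η x 0) := by
  classical
  rw [pc_insert hx, PMF.bind_apply, tsum_eq_single (η x), PMF.map_apply,
    tsum_eq_single (Function.update η x 0), if_pos (by simp)]
  · intro η' n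
    split_ifs with e
    · by_contra z
      refine n ?_
      rw [e, Function.update_idem, ← (pc_support z).1 x hx, Function.update_eq_self]
    · rfl
  · intro v n
    rw [PMF.map_apply, ENNReal.tsum_eq_zero.2 fun η' => if_neg fun e => n (by simp [e]), mul_zero]
open Classical in
theorem pc_apply (Q : Finset (S d)) (m : S d → PMF ℕ) (η : Cfg d) :
    pc Q m η = if ∀ x, x ∉ Q → η x = 0 then ∏ x ∈ Q, m x (η x) else 0 := by
  induction Q using Finset.induction_on generalizing η with
  | empty => simp [pc_empty, PMF.pure_apply, funext_iff]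
  | insert x Q hx ih =>
    have e : (∀ y, y ∉ Q → Function.update η x 0 y = 0) ↔ ∀ y, y ∉ insert x Q → η y = 0 :=
      forall_congr' fun y => by by_cases z : y = x <;> simp [z]
    rw [kit3_apply hx, ih, Finset.prod_insert hx, mul_ite, mul_zero]
    refine if_congr e ?_ rfl
    exact congrArg _ (Finset.prod_congr rfl fun y hy => by
      rw [Function.update_of_ne fun z : y = x => hx (z ▸ hy)])
theorem pc_congr {Q : Finset (S d)} {m m' : S d → PMF ℕ} (h : ∀ x ∈ Q, m x = m' x) :
    pc Q m = pc Q m' := by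
  ext η
  rw [pc_apply, pc_apply, Finset.prod_congr rfl fun x hx => by rw [h x hx]]
theorem pc_union {Q1 Q2 : Finset (S d)} (h : Disjoint Q1 Q2) (m : S d → PMF ℕ) :
    pc (Q1 ∪ Q2) m = (pc Q1 m).bind fun η => (pc Q2 m).map fun η' => η + η' := by
  induction Q1 using Finset.induction_on with
  | empty =>
    rw [pc_empty, PMF.pure_bind, Finset.empty_union]
    exact ((kit3_map fun η _ => zero_add η).trans (PMF.map_id _)).symm
  | insert x Q hx ih =>
    rw [Finset.disjoint_insert_left] at h
    rw [Finset.insert_union, pc_insert (by simp [hx, h.1]), pc_insert hx, ih h.2, PMF.bind_bind]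
    refine kit3_bind fun v _ => ?_
    rw [PMF.map_bind, PMF.bind_map]
    refine kit3_bind fun η _ => ?_
    rw [PMF.map_comp]
    refine kit3_map fun η' k => funext fun y => ?_
    by_cases z : y = x
    · simp [z, (pc_support k).1 x h.1]
    · simp [z]
theorem pc_restrict {Q B : Finset (S d)} (h : B ⊆ Q) (m : S d → PMF ℕ) :
    (pc Q m).map (fun η x => if x ∈ B then η x else 0) = pc B m := by
  rw [← Finset.union_sdiff_of_subset h, pc_union Finset.disjoint_sdiff, PMF.map_bind]
  refine (kit3_bind fun η a => ?_).trans (PMF.bind_pure _)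
  rw [PMF.map_comp]
  refine kit3_const fun η' b => funext fun y => ?_
  by_cases z : y ∈ B
  · simp [z, (pc_support b).1 y]
  · simp [z, (pc_support a).1 y]
theorem pc_site {Q : Finset (S d)} {x : S d} (h : x ∈ Q) (m : S d → PMF ℕ) :
    (pc Q m).map (fun η => η x) = m x := by
  rw [← Finset.insert_erase h, pc_insert (Finset.notMem_erase _ _), PMF.map_bind]
  refine (kit3_bind fun v _ => ?_).trans (PMF.bind_pure _)
  rw [PMF.map_comp]
  exact kit3_const fun η _ => by simp
/-- Expectation with values in `ℝ≥0∞`. -/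
noncomputable def kit3E {α : Type} (p : PMF α) (F : α → ℝ≥0∞) : ℝ≥0∞ := ∑' a, p a * F a
theorem kit3E_bind {α β : Type} (p : PMF α) (q : α → PMF β) (F : β → ℝ≥0∞) :
    kit3E (p.bind q) F = kit3E p fun a => kit3E (q a) F := by
  simp only [kit3E, PMF.bind_apply, ← ENNReal.tsum_mul_right, ← ENNReal.tsum_mul_left, mul_assoc]
  exact ENNReal.tsum_comm
theorem kit3E_pure {α : Type} (a : α) (F : α → ℝ≥0∞) : kit3E (PMF.pure a) F = F a := by
  rw [kit3E, tsum_eq_single a fun b n => by simp [PMF.pure_apply, n]]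
  simp
theorem kit3E_map {α β : Type} (p : PMF α) (g : α → β) (F : β → ℝ≥0∞) :
    kit3E (p.map g) F = kit3E p fun a => F (g a) := by
  rw [PMF.map, kit3E_bind]
  exact congrArg _ (funext fun a => kit3E_pure ..)
theorem kit3E_prod (Q : Finset (S d)) (m : S d → PMF ℕ) (F : S d → ℕ → ℝ≥0∞) :
    kit3E (pc Q m) (fun η => ∏ x ∈ Q, F x (η x)) = ∏ x ∈ Q, kit3E (m x) (F x) := by
  induction Q using Finset.induction_on with
  | empty => simp [pc_empty, kit3E_pure]
  | insert x Q hx ih =>
    have e : ∀ (v : ℕ) (η : Cfg d), ∏ y ∈ insert x Q, F y (Function.update η x v y) =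
        F x v * ∏ y ∈ Q, F y (η y) := fun v η => by
      rw [Finset.prod_insert hx, Function.update_self]
      exact congrArg _ (Finset.prod_congr rfl fun y hy => by
        rw [Function.update_of_ne fun z : y = x => hx (z ▸ hy)])
    rw [pc_insert hx, kit3E_bind, Finset.prod_insert hx, ← ih]
    simp only [kit3E_map, e]
    simp only [kit3E, mul_left_comm _ (F x _), ENNReal.tsum_mul_left, ← ENNReal.tsum_mul_right,
      mul_assoc]
theorem kit3E_of {α : Type} {p : PMF α} {f : α → ℝ} (h0 : ∀ a, 0 ≤ f a)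
    (h : Summable fun a => (p a).toReal * f a) :
    kit3E p (fun a => ENNReal.ofReal (f a)) = ENNReal.ofReal (ex p f) := by
  rw [ex, ENNReal.ofReal_tsum_of_nonneg (fun a => mul_nonneg ENNReal.toReal_nonneg (h0 a)) h]
  refine tsum_congr fun a => ?_
  rw [ENNReal.ofReal_mul ENNReal.toReal_nonneg, ENNReal.ofReal_toReal (p.apply_ne_top a)]
theorem kit3E_fin {α : Type} {p : PMF α} {f : α → ℝ} (h0 : ∀ a, 0 ≤ f a)
    (h : kit3E p (fun a => ENNReal.ofReal (f a)) ≠ ⊤) :
    Summable fun a => (p a).toReal * f a := by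
  simpa [ENNReal.toReal_ofReal, h0] using ENNReal.summable_toReal h
theorem ex_pc_prod (Q B : Finset (S d)) (h : B ⊆ Q) (m : S d → PMF ℕ) {f : S d → ℕ → ℝ}
    (h0 : ∀ x i, 0 ≤ f x i) (hf : ∀ x ∈ B, Summable fun i => (m x i).toReal * f x i) :
    (Summable fun η => (pc Q m η).toReal * ∏ x ∈ B, f x (η x)) ∧
      ex (pc Q m) (fun η => ∏ x ∈ B, f x (η x)) = ∏ x ∈ B, ex (m x) (f x) := by
  have e : kit3E (pc Q m) (fun η => ENNReal.ofReal (∏ x ∈ B, f x (η x))) =
      ENNReal.ofReal (∏ x ∈ B, ex (m x) (f x)) := by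
    rw [ENNReal.ofReal_prod_of_nonneg fun x _ => ex_nonneg fun i _ => h0 x i,
      ← Finset.prod_congr rfl fun x hx => kit3E_of (h0 x) (hf x hx), ← kit3E_prod,
      ← pc_restrict h, kit3E_map]
    refine congrArg _ (funext fun η => ?_)
    rw [ENNReal.ofReal_prod_of_nonneg fun x _ => h0 x _]
    exact Finset.prod_congr rfl fun x hx => by simp only [if_pos hx]
  have n : ∀ η : Cfg d, 0 ≤ ∏ x ∈ B, f x (η x) := fun η => Finset.prod_nonneg fun x _ => h0 x _
  have s := kit3E_fin n (e ▸ ENNReal.ofReal_ne_top)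
  refine ⟨s, ?_⟩
  rwa [kit3E_of n s, ENNReal.ofReal_eq_ofReal_iff (ex_nonneg fun η _ => n η)
    (Finset.prod_nonneg fun x _ => ex_nonneg fun i _ => h0 x i)] at e
theorem ex_pc_mass (Q B : Finset (S d)) (m : S d → PMF ℕ) {c : ℝ} (hc : 0 ≤ c)
    (hf : ∀ x ∈ Q, (Summable fun i : ℕ => (m x i).toReal * (i : ℝ)) ∧
      ex (m x) (fun i => (i : ℝ)) ≤ c) :
    (Summable fun η => (pc Q m η).toReal * (mass η B : ℝ)) ∧
      ex (pc Q m) (fun η => (mass η B : ℝ)) ≤ c * B.card := by
  have k : ∀ x, (Summable fun η => (pc Q m η).toReal * (η x : ℝ)) ∧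
      ex (pc Q m) (fun η => (η x : ℝ)) ≤ c := fun x => by
    by_cases hx : x ∈ Q
    · have := ex_pc_prod Q {x} (Finset.singleton_subset_iff.2 hx) m (f := fun _ i => (i : ℝ))
        (fun _ i => i.cast_nonneg) (fun y hy => (Finset.mem_singleton.1 hy) ▸ (hf x hx).1)
      simp only [Finset.prod_singleton] at this
      exact ⟨this.1, this.2 ▸ (hf x hx).2⟩
    · have : (fun η : Cfg d => (pc Q m η).toReal * (η x : ℝ)) = fun _ => 0 := funext fun η => by
        by_cases z : pc Q m η = 0
        · simp [z]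
        · simp [(pc_support z).1 x hx]
      rw [ex, this, tsum_zero]
      exact ⟨summable_zero, hc⟩
  simp only [ex, mass, Nat.cast_sum, Finset.mul_sum]
  refine ⟨summable_sum fun x _ => (k x).1, ?_⟩
  rw [Summable.tsum_finsetSum fun x _ => (k x).1]
  refine (Finset.sum_le_sum fun x _ => (k x).2).trans_eq ?_
  rw [Finset.sum_const, nsmul_eq_mul, mul_comm]
theorem kit3_upd {Q : Finset (S d)} {z : S d} (hz : z ∈ Q) (m : S d → PMF ℕ) (q : PMF ℕ) :
    pc Q (Function.update m z q) =
      q.bind fun v => (pc (Q.erase z) m).map fun η => Function.update η z v := by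
  conv_lhs => rw [← Finset.insert_erase hz]
  rw [pc_insert (Finset.notMem_erase _ _), Function.update_self,
    pc_congr fun x hx => Function.update_of_ne (Finset.ne_of_mem_erase hx) ..]
/-- A kernel applied at one site. -/
theorem pc_kernel_site {Q : Finset (S d)} {z : S d} (hz : z ∈ Q) (m : S d → PMF ℕ)
    (κ : ℕ → PMF ℕ) :
    ((pc Q m).bind fun η => (κ (η z)).map fun v => Function.update η z v) =
      pc Q (Function.update m z ((m z).bind κ)) := by
  conv_lhs => rw [← Function.update_eq_self z m, kit3_upd hz]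
  rw [kit3_upd hz, PMF.bind_bind, PMF.bind_bind]
  refine kit3_bind fun v _ => ?_
  rw [PMF.bind_map]
  simp only [Function.comp_def, Function.update_self, Function.update_idem, PMF.map]
  exact PMF.bind_comm ..
theorem kit3_pad {Q B : Finset (S d)} (h : B ⊆ Q) {m : S d → PMF ℕ}
    (e : ∀ x, x ∉ B → m x = PMF.pure 0) : pc Q m = pc B m := by
  rw [← pc_restrict h]
  refine ((kit3_map fun η a => funext fun x => ?_).trans (PMF.map_id _)).symm
  split_ifs with z
  · rfl
  by_cases w : x ∈ Q
  · have := (pc_support a).2 x w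
    rw [e x z, PMF.mem_support_pure_iff] at this
    exact this.symm
  · exact ((pc_support a).1 x w).symm
theorem kit3_couple (Q : Finset (S d)) (c : S d → PMF (ℕ × ℕ)) :
    ∃ r : PMF (Cfg d × Cfg d), r.map Prod.fst = pc Q (fun x => (c x).map Prod.fst) ∧
      r.map Prod.snd = pc Q (fun x => (c x).map Prod.snd) ∧
      ∀ p ∈ r.support, ∀ x ∈ Q, (p.1 x, p.2 x) ∈ (c x).support := by
  induction Q using Finset.induction_on with
  | empty => exact ⟨PMF.pure (0, 0), by simp [pc_empty, PMF.pure_map],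
      by simp [pc_empty, PMF.pure_map], by simp⟩
  | insert x Q hx ih =>
    obtain ⟨r, a, b, s⟩ := ih
    refine ⟨(c x).bind fun v => r.map fun p =>
      (Function.update p.1 x v.1, Function.update p.2 x v.2), ?_, ?_, fun p hp y hy => ?_⟩
    · rw [pc_insert hx, ← a, PMF.bind_map, PMF.map_bind]
      simp only [PMF.map_comp, Function.comp_def]
    · rw [pc_insert hx, ← b, PMF.bind_map, PMF.map_bind]
      simp only [PMF.map_comp, Function.comp_def]
    · obtain ⟨v, hv, h'⟩ := (PMF.mem_support_bind_iff ..).1 hp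
      obtain ⟨p, h, rfl⟩ := (PMF.mem_support_map_iff ..).1 h'
      by_cases e : y = x
      · simpa [e] using hv
      · simpa [e] using s p h y ((Finset.mem_insert.1 hy).resolve_left e)
/-- Monotone coupling of two product laws on the common sites. -/
theorem pc_couple (Q1 Q2 : Finset (S d)) (m1 m2 : S d → PMF ℕ)
    (h : ∀ x ∈ Q1, x ∈ Q2 → ∀ k, pr (m1 x) (fun i => k ≤ i) ≤ pr (m2 x) fun i => k ≤ i) :
    ∃ r : PMF (Cfg d × Cfg d), r.map Prod.fst = pc Q1 m1 ∧ r.map Prod.snd = pc Q2 m2 ∧
      ∀ p ∈ r.support, ∀ x ∈ Q1, x ∈ Q2 → p.1 x ≤ p.2 x := by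
  have k : ∀ x, ∃ c : PMF (ℕ × ℕ), c.map Prod.fst = (if x ∈ Q1 then m1 x else PMF.pure 0) ∧
      c.map Prod.snd = (if x ∈ Q2 then m2 x else PMF.pure 0) ∧
      (x ∈ Q1 → x ∈ Q2 → ∀ v ∈ c.support, v.1 ≤ v.2) := fun x => by
    obtain ⟨κ, a, b⟩ : ∃ κ : ℕ → PMF ℕ, (x ∈ Q1 → x ∈ Q2 → ∀ a, ∀ b ∈ (κ a).support, b ≤ a) ∧
        (if x ∈ Q2 then m2 x else PMF.pure 0).bind κ = if x ∈ Q1 then m1 x else PMF.pure 0 := by
      by_cases z : x ∈ Q1 ∧ x ∈ Q2
      · rw [if_pos z.1, if_pos z.2]
        exact (exists_thin _ _ (h x z.1 z.2)).imp fun κ a => ⟨fun _ _ => a.1, a.2⟩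
      · exact ⟨fun _ => _, fun a b => (z ⟨a, b⟩).elim, PMF.bind_const ..⟩
    refine ⟨(if x ∈ Q2 then m2 x else PMF.pure 0).bind fun i => (κ i).map fun j => (j, i), ?_, ?_,
      fun u v p hp => ?_⟩
    · rw [← b, PMF.map_bind]
      exact kit3_bind fun i _ => (PMF.map_comp ..).trans (PMF.map_id _)
    · rw [PMF.map_bind]
      refine (kit3_bind fun i _ => ?_).trans (PMF.bind_pure _)
      rw [PMF.map_comp]
      exact kit3_const fun _ _ => rfl
    · obtain ⟨i, -, s'⟩ := (PMF.mem_support_bind_iff ..).1 hp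
      obtain ⟨j, s, rfl⟩ := (PMF.mem_support_map_iff ..).1 s'
      exact a u v i j s
  choose c a b s using k
  obtain ⟨r, e1, e2, e3⟩ := kit3_couple (Q1 ∪ Q2) c
  refine ⟨r, ?_, ?_, fun p hp x u v => s x u v _ (e3 p hp x (Finset.mem_union_left _ u))⟩
  · rw [e1, kit3_pad Finset.subset_union_left fun x z => (a x).trans (if_neg z)]
    exact pc_congr fun x z => (a x).trans (if_pos z)
  · rw [e2, kit3_pad Finset.subset_union_right fun x z => (b x).trans (if_neg z)]
    exact pc_congr fun x z => (b x).trans (if_pos z)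
theorem kit3_cheb (p : PMF ℕ) {f g : ℕ → ℝ} (hf : Bdd f) (hg : Bdd g) (mf : Monotone f)
    (mg : Monotone g) : ex p f * ex p g ≤ ex p fun i => f i * g i := by
  have h : 0 ≤ ex p fun a => ex p fun b => (f a - f b) * (g a - g b) :=
    ex_nonneg fun a _ => ex_nonneg fun b _ => by
      rcases le_total a b with e | e
      · exact mul_nonneg_of_nonpos_of_nonpos (sub_nonpos.2 (mf e)) (sub_nonpos.2 (mg e))
      · exact mul_nonneg (sub_nonneg.2 (mf e)) (sub_nonneg.2 (mg e))
  have e : ∀ a, (ex p fun b => (f a - f b) * (g a - g b)) =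
      f a * g a + (ex p fun i => f i * g i) - (f a * ex p g + ex p f * g a) := fun a => by
    rw [← ex_mul_left, ← ex_mul_right, ← ex_const p (f a * g a),
      ← ex_add p (.const _) (hf.mul hg), ← ex_add p ((Bdd.const _).mul hg) (hf.mul (.const _)),
      ← ex_sub p ((Bdd.const _).add (hf.mul hg))
        (((Bdd.const _).mul hg).add (hf.mul (.const _)))]
    exact ex_congr fun b _ => by ring
  simp only [e] at h
  rw [ex_sub p ((hf.mul hg).add (.const _)) ((hf.mul (.const _)).add ((Bdd.const _).mul hg)),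
    ex_add p (hf.mul hg) (.const _), ex_add p (hf.mul (.const _)) ((Bdd.const _).mul hg),
    ex_const, ex_mul_left, ex_mul_right] at h
  linarith
theorem kit3_ex {Q : Finset (S d)} {x : S d} (hx : x ∉ Q) (m : S d → PMF ℕ) {f : Cfg d → ℝ}
    (hf : Bdd f) : ex (pc (insert x Q) m) f =
      ex (m x) fun v => ex (pc Q m) fun η => f (Function.update η x v) := by
  rw [pc_insert hx, ex_bind _ _ hf]
  exact ex_congr fun v _ => ex_map _ _ hf
theorem kit3_bdd (p : PMF (Cfg d)) (x : S d) {f : Cfg d → ℝ} (hf : Bdd f) :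
    Bdd fun v => ex p fun η => f (Function.update η x v) :=
  Bdd.ex (f := fun v η => f (Function.update η x v))
    (hf.comp fun q : ℕ × Cfg d => Function.update q.2 x q.1) fun _ => p
theorem pc_harris (Q : Finset (S d)) (m : S d → PMF ℕ) {f g : Cfg d → ℝ} (hf : Bdd f) (hg : Bdd g)
    (mf : Monotone f) (mg : Monotone g) :
    ex (pc Q m) f * ex (pc Q m) g ≤ ex (pc Q m) fun η => f η * g η := by
  induction Q using Finset.induction_on generalizing f g with
  | empty => simp [pc_empty, ex_pure]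
  | insert x Q hx ih =>
    have mo : ∀ {f : Cfg d → ℝ}, Bdd f → Monotone f →
        Monotone fun v => ex (pc Q m) fun η => f (Function.update η x v) :=
      fun hf mf v w e => ex_mono (hf.comp _) (hf.comp _) fun η _ =>
        mf (Function.update_mono e)
    have mu : ∀ v : ℕ, Monotone fun η : Cfg d => Function.update η x v := fun v η η' e y => by
      by_cases z : y = x
      · simp [z]
      · simpa [z] using e y
    rw [kit3_ex hx m hf, kit3_ex hx m hg, kit3_ex hx m (hf.mul hg)]
    exact (kit3_cheb _ (kit3_bdd _ x hf) (kit3_bdd _ x hg) (mo hf mf) (mo hg mg)).trans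
      (ex_mono ((kit3_bdd _ x hf).mul (kit3_bdd _ x hg)) (kit3_bdd _ x (hf.mul hg)) fun v _ =>
        ih (hf.comp _) (hg.comp _) (mf.comp (mu v)) (mg.comp (mu v)))
theorem pc_image (ψ : S d ≃ S d) (Q : Finset (S d)) (m : S d → PMF ℕ) :
    pc (Q.image ψ) m = (pc Q fun x => m (ψ x)).map fun η x => η (ψ.symm x) := by
  induction Q using Finset.induction_on with
  | empty =>
    rw [Finset.image_empty, pc_empty, pc_empty, PMF.pure_map]
    rfl
  | insert x Q hx ih =>
    rw [Finset.image_insert, pc_insert (by simpa using hx), pc_insert hx, ih, PMF.map_bind]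
    refine kit3_bind fun v _ => ?_
    rw [PMF.map_comp, PMF.map_comp]
    refine kit3_map fun η _ => funext fun y => ?_
    obtain ⟨y, rfl⟩ := ψ.surjective y
    by_cases z : y = x <;> simp [z]
/-- Change of one site law with a bounded density. -/
theorem ex_pc_site_le {Q : Finset (S d)} {z : S d} (hz : z ∈ Q) (m : S d → PMF ℕ) (q : PMF ℕ)
    (g : ℕ → ℕ) {C : ℝ} (h : ∀ f : ℕ → ℝ, Bdd f → (∀ i, 0 ≤ f i) →
      ex (m z) (fun i => f (g i)) ≤ C * ex q f) {f : Cfg d → ℝ} (hf : Bdd f) (h0 : ∀ η, 0 ≤ f η) :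
    ex (pc Q m) (fun η => f (Function.update η z (g (η z)))) ≤
      C * ex (pc Q (Function.update m z q)) f := by
  have := h _ (kit3_bdd (pc (Q.erase z) m) z hf) fun i => ex_nonneg fun η _ => h0 _
  rw [kit3_upd hz, ex_bind _ _ hf, ← Finset.insert_erase hz,
    kit3_ex (Finset.notMem_erase _ _) m (hf.comp _), Finset.erase_insert (Finset.notMem_erase _ _)]
  simpa only [Function.update_self, Function.update_idem, ex_map _ _ hf] using this

end Pool.Agent.Lib.MP_dd0771_pr.Sc
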