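import Pool.Agent.Lib.MP_dd0771_pr.Sc.Kit

/-! Products over blocks of windows, families of chains, the law of the first success. -/

open Filter

namespace Pool.Agent.Lib.MP_dd0771_pr.Sc

variable {d : ℕ} {α β : Type}

/-- the block number `k` -/
def liveB (s k : ℕ) (ws : List α) : List α := (ws.drop (k * s)).take s

theorem live_bdd (J : Finset ℕ) {g : ℕ → β → ℝ} (h : ∀ k, Bdd (g k)) :
    Bdd fun a => ∏ k ∈ J, g k a := by
  induction J using Finset.induction_on with
  | empty => simpa using Bdd.const 1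
  | insert k J hk ih => simpa only [Finset.prod_insert hk] using (h k).mul ih

theorem live_prod0 (p : PMF α) (s : ℕ) {f : ℕ → List α → List α → ℝ} {c : ℕ → ℝ}
    (hb : ∀ k, Bdd fun x : List α × List α => f k x.1 x.2) (h0 : ∀ k a b, 0 ≤ f k a b)
    (hc : ∀ k a, ex (iid p s) (f k a) ≤ c k) (m : ℕ) :
    ex (iid p (m * s)) (fun ws => ∏ k ∈ Finset.range m, f k (ws.take (k * s)) (liveB s k ws)) ≤
      ∏ k ∈ Finset.range m, c k := by
  have hB : ∀ m, Bdd fun ws => ∏ k ∈ Finset.range m, f k (ws.take (k * s)) (liveB s k ws) :=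
    fun m => live_bdd _ fun k => (hb k).comp fun ws : List α => (ws.take (k * s), liveB s k ws)
  induction m with
  | zero => simp [ex_const]
  | succ m ih =>
    have c0 : 0 ≤ c m := (ex_nonneg fun b _ => h0 m [] b).trans (hc m [])
    rw [Nat.succ_mul, ex_iid_add _ _ _ (hB _), Finset.prod_range_succ]
    refine le_trans (ex_mono (Bdd.ex (f := fun l l' => ∏ k ∈ Finset.range (m + 1),
      f k ((l ++ l').take (k * s)) (liveB s k (l ++ l'))) ((hB _).comp fun x : List α × List α =>
        x.1 ++ x.2) fun _ => iid p s) ((hB m).mul (Bdd.const (c m))) fun l hl => ?_) ?_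
    · have e := iid_length hl
      rw [ex_congr (g := fun l' => (∏ k ∈ Finset.range m, f k (l.take (k * s)) (liveB s k l)) *
        f m l l') fun l' hl' => ?_, ex_mul_left]
      · exact mul_le_mul_of_nonneg_left (hc m l) (Finset.prod_nonneg fun k _ => h0 _ _ _)
      rw [Finset.prod_range_succ, liveB, List.take_left' e, List.drop_left' e,
        List.take_of_length_le (iid_length hl').le]
      refine congrArg (· * _) (Finset.prod_congr rfl fun k hk => ?_)
      have h1 : (k + 1) * s ≤ m * s := Nat.mul_le_mul_right _ (Finset.mem_range.1 hk)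
      rw [Nat.succ_mul] at h1
      rw [liveB, liveB, List.take_append_of_le_length (by omega),
        List.drop_append_of_le_length (by omega),
        List.take_append_of_le_length (by rw [List.length_drop]; omega)]
    · rw [ex_mul_right]
      exact mul_le_mul_of_nonneg_right ih c0

theorem live_prod (p : PMF α) (s : ℕ) {f : ℕ → List α → List α → ℝ} {c : ℝ}
    (hb : ∀ k, Bdd fun x : List α × List α => f k x.1 x.2) (h0 : ∀ k a b, 0 ≤ f k a b)
    (hc : ∀ k a, ex (iid p s) (f k a) ≤ c) {m : ℕ} {J : Finset ℕ} (hJ : J ⊆ Finset.range m) :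
    ex (iid p (m * s)) (fun ws => ∏ k ∈ J, f k (ws.take (k * s)) (liveB s k ws)) ≤ c ^ J.card := by
  have := live_prod0 p s (f := fun k a b => if k ∈ J then f k a b else 1)
    (c := fun k => if k ∈ J then c else 1) (fun k => ?_) (fun k a b => ?_) (fun k a => ?_) m
  · simpa only [Finset.prod_ite_mem, Finset.inter_eq_right.2 hJ, Finset.prod_const] using this
  · by_cases h : k ∈ J <;> simp only [h, if_true, if_false]
    exacts [hb k, Bdd.const 1]
  · split_ifs
    exacts [h0 k a b, zero_le_one]
  · by_cases h : k ∈ J <;> simp only [h, if_true, if_false]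
    exacts [hc k a, (ex_const _ 1).le]

theorem live_ch (Z : Finset (S d)) (r k1 j : ℕ) : ∃ C : Finset (ℕ → S d),
    C.card ≤ Z.card * ((2 * r + 1) ^ d) ^ j ∧ ∀ x : ℕ → S d, x k1 ∈ Z →
      (∀ k, k1 ≤ k → k < k1 + j → nrm (x (k + 1) - x k) ≤ r) →
      ∃ y ∈ C, ∀ k, k1 ≤ k → k ≤ k1 + j → y k = x k := by
  classical
  induction j with
  | zero =>
    refine ⟨Z.image fun z _ => z, by simpa using Finset.card_image_le, fun x hx _ =>
      ⟨_, Finset.mem_image_of_mem _ hx, fun k h1 h2 => ?_⟩⟩
    rw [show k = k1 by omega]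
  | succ j ih =>
    obtain ⟨C, h1, h2⟩ := ih
    refine ⟨C.biUnion fun y => (bx (y (k1 + j)) r).image (Function.update y (k1 + j + 1)),
      (Finset.card_biUnion_le_card_mul _ _ ((2 * r + 1) ^ d) fun y _ =>
        Finset.card_image_le.trans (card_bx _ _).le).trans ?_, fun x hx hs => ?_⟩
    · rw [pow_succ, ← mul_assoc]
      exact Nat.mul_le_mul_right _ h1
    obtain ⟨y, hy, e⟩ := h2 x hx fun k a b => hs k a (by omega)
    refine ⟨Function.update y (k1 + j + 1) (x (k1 + j + 1)), Finset.mem_biUnion.2 ⟨y, hy,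
      Finset.mem_image_of_mem _ (mem_bx.2 ?_)⟩, fun k a b => ?_⟩
    · rw [e _ (by omega) le_rfl]
      exact hs _ (by omega) (by omega)
    · rcases eq_or_ne k (k1 + j + 1) with rfl | h
      · exact Function.update_self ..
      · rw [Function.update_of_ne h, e k a (by omega)]

variable {F : Fr} {B : Bs} {K n l : ℕ} {pc : ℝ} {H : Mc d} {P : ℕ × Finset (S d) → Prop}

variable (F B K n l pc H) in
/-- probability of failure of one block -/
noncomputable def liveF (k : ℕ) (σ : St d) (ws : List (Word d)) : ℝ :=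
  pr (tryB F B K n l pc H k σ ws) fun o => o = none

variable (F B K n l pc H P) in
/-- probability of a success with `P` in one block -/
noncomputable def liveG (k : ℕ) (σ : St d) (ws : List (Word d)) : ℝ :=
  pr (tryB F B K n l pc H k σ ws) fun o => ∃ Yt, o = some Yt ∧ P (k, Yt)

variable (F B K n l pc H P) in
/-- probability that the first success has `P`, given the windows -/
noncomputable def liveR : ℕ → ℕ → St d → List (Word d) → ℝ
  | 0, _, _, _ => 0
  | m + 1, k, σ, ws => liveG F B K n l pc H P k σ (ws.take (sb F B n l)) +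
      liveF F B K n l pc H k σ (ws.take (sb F B n l)) *
        liveR m (k + 1) (acs F.toMd H.sy σ (ws.take (sb F B n l))) (ws.drop (sb F B n l))

theorem live_add (k : ℕ) (σ : St d) (ws : List (Word d)) :
    liveG F B K n l pc H P k σ ws + liveF F B K n l pc H k σ ws ≤ 1 := by
  have := pr_mono (p := tryB F B K n l pc H k σ ws)
    (E := fun o => ∃ Yt, o = some Yt ∧ P (k, Yt)) (E' := fun o => ¬ o = none)
    fun o _ ⟨Yt, h, _⟩ => by simp [h]
  rw [pr_not] at this
  exact le_sub_iff_add_le.1 this

theorem live_01 (m k : ℕ) (σ : St d) (ws : List (Word d)) :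
    0 ≤ liveR F B K n l pc H P m k σ ws ∧ liveR F B K n l pc H P m k σ ws ≤ 1 := by
  induction m generalizing k σ ws with
  | zero => exact ⟨le_rfl, zero_le_one⟩
  | succ m ih =>
    exact ⟨add_nonneg (pr_nonneg _ _) (mul_nonneg (pr_nonneg _ _) (ih _ _ _).1),
      (add_le_add_right (mul_le_of_le_one_right (pr_nonneg _ _) (ih _ _ _).2) _).trans
        (live_add _ _ _)⟩

theorem live_rv (m k : ℕ) (σ : St d) :
    ex (run F B K n l pc H m k σ) (fun o => o.elim 0 fun p => ind (P p)) =
      ex (wls F.toMd H.sy.A (m * sb F B n l)) (liveR F B K n l pc H P m k σ) := by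
  have hb : Bdd fun o : Option (ℕ × Finset (S d)) => o.elim 0 fun p => ind (P p) :=
    Bdd.of01 fun o => by
      cases o
      exacts [⟨le_rfl, zero_le_one⟩, ⟨ind_nonneg _, ind_le_one _⟩]
  induction m generalizing k σ with
  | zero => rw [run, ex_pure]; exact (ex_const _ 0).symm
  | succ m ih =>
    have e := ex_iid_split (wl F.toMd H.sy.A) (sb F B n l) (m * sb F B n l)
      (f := fun a b => liveG F B K n l pc H P k σ a + liveF F B K n l pc H k σ a *
        liveR F B K n l pc H P m (k + 1) (acs F.toMd H.sy σ a) b)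
      ((Bdd.pr _ _).add ((Bdd.pr _ _).mul (Bdd.of01 fun x => live_01 _ _ _ _)))
    rw [run, ex_bind _ _ hb, Nat.succ_mul, add_comm (m * sb F B n l)]
    refine Eq.trans (ex_congr fun a _ => ?_) e.symm
    rw [ex_bind _ _ hb, ex_add _ (Bdd.const _) ((Bdd.const _).mul
      (Bdd.of01 fun x => live_01 _ _ _ _)), ex_const, ex_mul_left]
    refine Eq.trans (ex_congr (g := fun o => ind (∃ Yt, o = some Yt ∧ P (k, Yt)) + ind (o = none) *
      ex (iid (wl F.toMd H.sy.A) (m * sb F B n l))
        (liveR F B K n l pc H P m (k + 1) (acs F.toMd H.sy σ a))) fun o _ => ?_) ?_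
    · cases o with
      | none => rw [ind_neg (by simp), ind_pos rfl, zero_add, one_mul]; exact ih _ _
      | some Yt =>
        rw [ex_pure, ind_neg (Option.some_ne_none Yt), zero_mul, add_zero]
        simp
    · rw [ex_add _ (Bdd.ind _) ((Bdd.ind _).mul (Bdd.const _)), ex_mul_right]
      rfl

theorem live_sup {k : ℕ} {σ : St d} {ws : List (Word d)}
    (h : ∀ ω, ∀ Yt ∈ H.O k (cand F K n l pc H σ ws ω), P (k, Yt)) :
    liveG F B K n l pc H P k σ ws + liveF F B K n l pc H k σ ws = 1 := by
  have := pr_congr (p := tryB F B K n l pc H k σ ws)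
    (E := fun o => ∃ Yt, o = some Yt ∧ P (k, Yt)) (E' := fun o => ¬ o = none) fun o ho => by
      refine ⟨fun ⟨Yt, h, _⟩ => by simp [h], fun h1 => ?_⟩
      obtain ⟨ω, -, h2⟩ := (PMF.mem_support_bind_iff _ _ _).1 ho
      split_ifs at h2 with h3
      · obtain ⟨Yt, h4, h5⟩ := (PMF.mem_support_bind_iff _ _ _).1 h2
        obtain ⟨b, -, rfl⟩ := (PMF.mem_support_map_iff _ _ _).1 h5
        cases b
        · exact (h1 rfl).elim
        · exact ⟨Yt, rfl, h ω Yt ((PMF.mem_support_uniformOfFinset_iff _ _).1 h4)⟩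
      · exact (h1 ((PMF.mem_support_pure_iff _ _).1 h2)).elim
  rw [pr_not] at this
  exact eq_sub_iff_add_eq.1 this

theorem live_pt (j m k0 : ℕ) (σ : St d) (ws : List (Word d)) (hj : j ≤ m)
    (h : ∀ i < j, ∀ ω, ∀ Yt ∈ H.O (k0 + i) (cand F K n l pc H
      (acs F.toMd H.sy σ (ws.take (i * sb F B n l))) (liveB (sb F B n l) i ws) ω),
        P (k0 + i, Yt)) :
    1 - ∏ i ∈ Finset.range j, liveF F B K n l pc H (k0 + i)
      (acs F.toMd H.sy σ (ws.take (i * sb F B n l))) (liveB (sb F B n l) i ws) ≤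
      liveR F B K n l pc H P m k0 σ ws := by
  induction j generalizing m k0 σ ws with
  | zero => simpa using (live_01 _ _ _ _).1
  | succ j ih =>
    obtain ⟨m, rfl⟩ : ∃ m', m = m' + 1 := ⟨m - 1, by omega⟩
    have e1 : ∀ i, acs F.toMd H.sy σ (ws.take ((i + 1) * sb F B n l)) =
        acs F.toMd H.sy (acs F.toMd H.sy σ (ws.take (sb F B n l)))
          ((ws.drop (sb F B n l)).take (i * sb F B n l)) := fun i => by
      rw [Nat.succ_mul, add_comm, List.take_add, acs_append]
    have e2 : ∀ i, liveB (sb F B n l) (i + 1) ws = liveB (sb F B n l) i (ws.drop (sb F B n l)) :=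
      fun i => by rw [liveB, liveB, List.drop_drop, Nat.succ_mul, add_comm]
    have e3 : ∀ i, k0 + (i + 1) = k0 + 1 + i := fun i => by omega
    have e4 : acs F.toMd H.sy σ (ws.take (0 * sb F B n l)) = σ := by rw [zero_mul]; rfl
    have e5 : liveB (sb F B n l) 0 ws = ws.take (sb F B n l) := by rw [liveB, zero_mul]; rfl
    have h1 := ih m (k0 + 1) (acs F.toMd H.sy σ (ws.take (sb F B n l))) (ws.drop (sb F B n l))
      (by omega) fun i hi => by rw [← e1, ← e2, ← e3]; exact h (i + 1) (by omega)
    have h2 := live_sup (B := B) (h 0 (by omega))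
    rw [Finset.prod_range_succ', liveR, Finset.prod_congr rfl fun i _ => by rw [e1, e2, e3]]
    rw [e4, e5, add_zero] at h2 ⊢
    have h3 := mul_le_mul_of_nonneg_left h1
      (pr_nonneg (tryB F B K n l pc H k0 σ (ws.take (sb F B n l))) fun o => o = none)
    change liveF F B K n l pc H k0 σ _ * _ ≤ liveF F B K n l pc H k0 σ _ * _ at h3
    linarith

end Pool.Agent.Lib.MP_dd0771_pr.Sc
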