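import Pool.Agent.Lib.MP_dd0771_pr.Sc.LiveA

/-! Estimates for one block. -/

open Filter

namespace Pool.Agent.Lib.MP_dd0771_pr.Sc

variable {d : ℕ} {F : Fr} {B : Bs} {K n l : ℕ} {pc : ℝ} {H : Mc d}
  {P : ℕ × Finset (S d) → Prop}

variable (F B K n l pc) in
open Classical in
/-- the try for a given set of options -/
noncomputable def liveT (O : Finset (Finset (S d))) (b : List (Word d)) :
    PMF (Option (Finset (S d))) :=
  if h : O.Nonempty then (PMF.uniformOfFinset _ h).bind fun Yt =>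
    (LTs F B K n l pc b Yt.toList).map fun b => if b then some Yt else none
  else PMF.pure none

variable (F B K n l pc H) in
/-- the rule has an option with probability at least one half -/
def liveO (k : ℕ) (σ : St d) (ws : List (Word d)) : Prop :=
  1 / 2 ≤ pr (mu F.toMd K (pc + B.g / 2) (wQ H.Y H.L)) fun ω =>
    (H.O k (cand F K n l pc H σ ws ω)).Nonempty

variable (F B K n l pc H) in
/-- the site is often not pregood -/
def liveH (ws : List (Word d)) (x : S d) : Prop :=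
  x ∈ wZ H.Y H.L ∧ 1 / 4 < pr (mu F.toMd K (pc + B.g / 2) (wQ H.Y H.L)) fun ω =>
    ¬ pregood F K n l pc (ms (al K (wQ H.Y H.L)) ω (ws.take (s1 F n))) x

theorem live_try {p : PMF (List (Word d))} {O : Finset (Finset (S d))} {c : ℝ}
    (hQ : ∀ Yt ∈ O, c ≤ ex p fun b => pr (LTs F B K n l pc b Yt.toList) fun t => t = true) :
    ex p (fun b => pr (liveT F B K n l pc O b) fun o => o = none) ≤ 1 - c * ind O.Nonempty := by
  by_cases h : O.Nonempty
  · simp only [liveT, dif_pos h, pr_bind, pr_map]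
    rw [ind_pos h, mul_one]
    refine (ex_comm p _ (f := fun b (a : Finset (S d)) => pr (LTs F B K n l pc b a.toList)
      fun t => (if t = true then some a else none) = none)
      (Bdd.of01 fun x => ⟨pr_nonneg _ _, pr_le_one _ _⟩)).trans_le ?_
    refine ex_le (Bdd.ex (f := fun (a : Finset (S d)) b => pr (LTs F B K n l pc b a.toList)
      fun t => (if t = true then some a else none) = none)
      (Bdd.of01 fun x => ⟨pr_nonneg _ _, pr_le_one _ _⟩) fun _ => p) fun Yt hY => ?_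
    rw [ex_congr (g := fun b => 1 - pr (LTs F B K n l pc b Yt.toList) fun t => t = true)
      fun b _ => ?_, ex_sub _ (Bdd.const _) (Bdd.pr _ _), ex_const]
    · exact sub_le_sub_left (hQ Yt ((PMF.mem_support_uniformOfFinset_iff _ _).1 hY)) 1
    · rw [← pr_not]
      exact pr_congr fun t _ => by cases t <;> simp
  · rw [ind_neg h, mul_zero, sub_zero]
    exact ex_le (Bdd.pr _ _) fun b _ => pr_le_one _ _

theorem live_sub (σ : St d) (ws : List (Word d)) (ω : Cfg d) : cand F K n l pc H σ ws ω ⊆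
    (acs F.toMd H.sy σ (ws.take (s1 F n))).2 ∩ wZ H.Y H.L := by
  classical
  exact Finset.filter_subset _ _

theorem live_one {c : ℝ} (c0 : 0 ≤ c) (hQ : ∀ k, ∀ Cd ⊆ wZ H.Y H.L, ∀ Yt ∈ H.O k Cd,
    c ≤ ex (wls F.toMd H.sy.A (sq F B l)) fun b =>
      pr (LTs F B K n l pc b Yt.toList) fun t => t = true) (k : ℕ) (σ : St d) :
    ex (iid (wl F.toMd H.sy.A) (sb F B n l)) (fun b => liveF F B K n l pc H k σ b *
      Real.exp (c / 2 * ind (liveO F B K n l pc H k σ b))) ≤ 1 := by
  have hb : Bdd fun b => liveF F B K n l pc H k σ b *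
      Real.exp (c / 2 * ind (liveO F B K n l pc H k σ b)) := (Bdd.pr _ _).mul
    ⟨Real.exp (c / 2), fun b => by
      rw [abs_of_pos (Real.exp_pos _)]
      exact Real.exp_le_exp.2 (mul_le_of_le_one_right (by positivity) (ind_le_one _))⟩
  rw [sb, ex_iid_add _ _ _ hb]
  refine ex_le (Bdd.ex (hb.comp fun x : List (Word d) × List (Word d) => x.1 ++ x.2) fun _ => _)
    fun a ha => ?_
  have e := iid_length ha
  have e1 : ∀ b ω, cand F K n l pc H σ (a ++ b) ω = cand F K n l pc H σ a ω := fun b ω => by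
    rw [cand, cand, List.take_left' e, List.take_of_length_le e.le]
  have e2 : ∀ b, liveF F B K n l pc H k σ (a ++ b) =
      ex (mu F.toMd K (pc + B.g / 2) (wQ H.Y H.L)) fun ω =>
        pr (liveT F B K n l pc (H.O k (cand F K n l pc H σ a ω)) b) fun o => o = none := fun b => by
    change pr (PMF.bind _ fun ω => liveT F B K n l pc (H.O k (cand F K n l pc H σ (a ++ b) ω))
      ((a ++ b).drop (s1 F n))) _ = _
    simp only [pr_bind, e1, List.drop_left' e]
  simp only [e2, liveO, e1]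
  rw [ex_mul_right]
  have h1 := ex_mono (p := mu F.toMd K (pc + B.g / 2) (wQ H.Y H.L))
    (Bdd.ex (f := fun ω b => pr (liveT F B K n l pc (H.O k (cand F K n l pc H σ a ω)) b)
      fun o => o = none) (Bdd.of01 fun x => ⟨pr_nonneg _ _, pr_le_one _ _⟩) fun _ => _)
    ((Bdd.const 1).sub ((Bdd.const c).mul (Bdd.ind _)))
    fun ω _ => live_try (hQ k (cand F K n l pc H σ a ω)
      ((live_sub σ a ω).trans Finset.inter_subset_right))
  rw [ex_sub _ (Bdd.const 1) ((Bdd.const c).mul (Bdd.ind _)), ex_const, ex_mul_left] at h1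
  refine (mul_le_mul_of_nonneg_right ((ex_comm _ _ (f := fun b ω =>
    pr (liveT F B K n l pc (H.O k (cand F K n l pc H σ a ω)) b) fun o => o = none)
    (Bdd.of01 fun x => ⟨pr_nonneg _ _, pr_le_one _ _⟩)).trans_le h1) (Real.exp_pos _).le).trans ?_
  change (1 - c * pr _ _) * _ ≤ _
  have h2 := pr_nonneg (mu F.toMd K (pc + B.g / 2) (wQ H.Y H.L)) fun ω =>
    (H.O k (cand F K n l pc H σ a ω)).Nonempty
  generalize pr (mu F.toMd K (pc + B.g / 2) (wQ H.Y H.L)) _ = t at h2 ⊢
  by_cases h : 1 / 2 ≤ t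
  · rw [ind_pos h, mul_one, ← le_div_iff₀ (Real.exp_pos _), one_div, ← Real.exp_neg]
    nlinarith [Real.add_one_le_exp (-(c / 2))]
  · rw [ind_neg h, mul_zero, Real.exp_zero, mul_one]
    nlinarith

theorem live_two (hF : F.Ok) (hS : S_STAT d F) (hK : KP F K (pc + B.g / 2))
    (hA : al K (wQ H.Y H.L) ⊆ H.sy.A) {t : ℝ} (t0 : 0 ≤ t) (x : S d)
    (hp : x ∈ wZ H.Y H.L → pr (mu F.toMd K (pc + B.g / 2) (wQ H.Y H.L))
      (fun ω => ¬ pregood F K n l pc ω x) ≤ Real.exp (-t)) :
    ex (iid (wl F.toMd H.sy.A) (sb F B n l))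
      (fun b => Real.exp (t * ind (liveH F B K n l pc H b x))) ≤ 5 := by
  have hb : Bdd fun b => Real.exp (t * ind (liveH F B K n l pc H b x)) := ⟨Real.exp t, fun b => by
    rw [abs_of_pos (Real.exp_pos _)]
    exact Real.exp_le_exp.2 (mul_le_of_le_one_right t0 (ind_le_one _))⟩
  by_cases hx : x ∈ wZ H.Y H.L
  swap
  · refine ex_le hb fun b _ => ?_
    rw [ind_neg fun h => hx h.1, mul_zero, Real.exp_zero]
    norm_num
  have key : ex (iid (wl F.toMd H.sy.A) (sb F B n l)) (fun b =>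
      pr (mu F.toMd K (pc + B.g / 2) (wQ H.Y H.L)) fun ω =>
        ¬ pregood F K n l pc (ms (al K (wQ H.Y H.L)) ω (b.take (s1 F n))) x) ≤ Real.exp (-t) := by
    refine le_trans (le_of_eq ?_) (hp hx)
    conv_rhs => rw [← (hS K _ (wQ H.Y H.L) hK).2.1 (s1 F n), pr_bind]
    refine (ex_comm _ _ (Bdd.ind _)).trans (ex_congr fun ω _ => ?_)
    rw [pr_map, pr, ← ex_wls_flt hF hA _ (Bdd.ind _) fun ws => by rw [ms_flt le_rfl], wls,
      ← iid_take _ (Nat.le_add_right (s1 F n) (sq F B l)), ex_map _ _ (Bdd.ind _)]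
    rfl
  refine (ex_mono hb ((Bdd.const 1).add ((Bdd.const (4 * Real.exp t)).mul
    (Bdd.pr (fun _ => mu F.toMd K (pc + B.g / 2) (wQ H.Y H.L)) fun b ω =>
      ¬ pregood F K n l pc (ms (al K (wQ H.Y H.L)) ω (b.take (s1 F n))) x))) fun b _ => ?_).trans ?_
  · have h1 := mul_nonneg (Real.exp_pos t).le (pr_nonneg (mu F.toMd K (pc + B.g / 2) (wQ H.Y H.L))
      fun ω => ¬ pregood F K n l pc (ms (al K (wQ H.Y H.L)) ω (b.take (s1 F n))) x)
    by_cases h : liveH F B K n l pc H b x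
    · rw [ind_pos h, mul_one]
      nlinarith [h.2, Real.exp_pos t]
    · rw [ind_neg h, mul_zero, Real.exp_zero]
      linarith
  · rw [ex_add _ (Bdd.const 1) ((Bdd.const _).mul (Bdd.pr _ _)), ex_const, ex_mul_left]
    have h1 := mul_le_mul_of_nonneg_left key (Real.exp_pos t).le
    rw [← Real.exp_add, add_neg_cancel, Real.exp_zero] at h1
    linarith

theorem live_cand (σ : St d) (ws : List (Word d)) (k : ℕ) :
    (acs F.toMd H.sy (acs F.toMd H.sy σ (ws.take (k * sb F B n l)))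
      ((liveB (sb F B n l) k ws).take (s1 F n))).2 =
      tj F.toMd H.sy σ ws (k * sb F B n l + s1 F n) := by
  rw [tj, List.take_add, acs_append, liveB, List.take_take,
    min_eq_left (show s1 F n ≤ sb F B n l from Nat.le_add_right _ _)]

theorem live_good {k : ℕ} {σ : St d} {ws : List (Word d)} {x y : S d}
    (hx : x ∈ (acs F.toMd H.sy σ (ws.take (s1 F n))).2 ∩ wZ H.Y H.L)
    (hy : y ∈ (acs F.toMd H.sy σ (ws.take (s1 F n))).2 ∩ wZ H.Y H.L)
    (h : ∀ Cd ⊆ (acs F.toMd H.sy σ (ws.take (s1 F n))).2 ∩ wZ H.Y H.L, x ∈ Cd → y ∈ Cd →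
      (H.O k Cd).Nonempty) :
    liveO F B K n l pc H k σ ws ∨ liveH F B K n l pc H ws x ∨ liveH F B K n l pc H ws y := by
  classical
  by_contra h0
  simp only [not_or, liveH, not_and, not_lt] at h0
  have h1 := h0.2.1 (Finset.mem_inter.1 hx).2
  have h2 := h0.2.2 (Finset.mem_inter.1 hy).2
  have h3 := pr_le_add (p := mu F.toMd K (pc + B.g / 2) (wQ H.Y H.L))
    (E := fun ω => ¬ (H.O k (cand F K n l pc H σ ws ω)).Nonempty)
    (E1 := fun ω => ¬ pregood F K n l pc (ms (al K (wQ H.Y H.L)) ω (ws.take (s1 F n))) x)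
    (E2 := fun ω => ¬ pregood F K n l pc (ms (al K (wQ H.Y H.L)) ω (ws.take (s1 F n))) y)
    fun ω _ h4 => by_contra fun h5 => by
      rw [not_or, not_not, not_not] at h5
      exact h4 (h _ (Finset.filter_subset _ _) (Finset.mem_filter.2 ⟨hx, h5.1⟩)
        (Finset.mem_filter.2 ⟨hy, h5.2⟩))
  rw [pr_not] at h3
  exact h0.1 (by rw [liveO]; linarith)

end Pool.Agent.Lib.MP_dd0771_pr.Sc
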