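import Pool.Agent.Lib.MP_dd0771_pr.Sc.Kit

open Filter

namespace Pool.Agent.Lib.MP_dd0771_pr.Sc

/-- A slow chain inside the zone gives the chain event of the plain rule. -/
theorem mainq_ce {d : ℕ} (F : Fr) (B : Bs) (n : ℕ) (P : Finset (S d)) (J : Tj d) (γ : ℕ → S d)
    (h1 : ∀ u, u ≤ RR F B n → γ u ∈ J u ∧ γ u ∈ P)
    (h2 : ∀ u v, nrm (γ (u + v) - γ u) ≤ VV n * v) :
    CE F B n P (rReg P) (mm F n + 1) (fun _ => True) J := by
  have hk : ∀ k, k < mm F n → k * sb F B n (ls n) + s1 F n ≤ RR F B n := by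
    intro k hk
    have a1 : s1 F n ≤ sb F B n (ls n) := Nat.le_add_right _ _
    have a2 : (k + 1) * sb F B n (ls n) ≤ (mm F n + 2) * sb F B n (ls n) :=
      Nat.mul_le_mul_right _ (by omega)
    rw [Nat.add_mul, Nat.one_mul] at a2
    exact (Nat.add_le_add_left a1 _).trans a2
  have hst : ∀ k, nrm (γ ((k + 1) * sb F B n (ls n) + s1 F n) -
      γ (k * sb F B n (ls n) + s1 F n)) ≤ VV n * sb F B n (ls n) := by
    intro k
    have := h2 (k * sb F B n (ls n) + s1 F n) (sb F B n (ls n))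
    rwa [show k * sb F B n (ls n) + s1 F n + sb F B n (ls n) =
      (k + 1) * sb F B n (ls n) + s1 F n by ring] at this
  refine ⟨0, by omega, fun _ _ _ _ _ _ => trivial, fun k => γ (k * sb F B n (ls n) + s1 F n),
    fun k => γ (k * sb F B n (ls n) + s1 F n), fun k _ hk' => ?_, ?_⟩
  · have := h1 _ (hk k (by omega))
    exact ⟨Finset.mem_inter.2 this, Finset.mem_inter.2 this, hst k, hst k⟩
  · rw [Finset.filter_true_of_mem, Nat.card_Ico]
    · omega
    · intro k hk' Cd _ hx _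
      have := h1 _ (hk k (by have := (Finset.mem_Ico.1 hk').2; omega))
      exact ⟨_, Finset.mem_image.2 ⟨_, Finset.mem_inter.2 ⟨hx, this.2⟩, rfl⟩⟩

theorem mainq_tj {d : ℕ} (G : Md) (Y : Sys d) (σ : St d) (w1 w2 : List (Word d)) {u : ℕ}
    (h : u ≤ w1.length) : tj G Y σ (w1 ++ w2) u = tj G Y σ w1 u := by
  unfold tj
  rw [List.take_append_of_le_length h]

/-- Alive at time `t` and no visit of the origin in `[n1, t]`. -/
def mainqE {d : ℕ} (n1 t : ℕ) (I : Tj d) : Prop :=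
  (I t).Nonempty ∧ ∀ u, n1 ≤ u → u ≤ t → 0 ∉ I u

/-- One epoch, seen from a node at its start. -/
theorem mainq_node {d : ℕ} {F : Fr} {B : Bs} {K n L n1 t T : ℕ} {M : Amb d} (hy : M.y0 = 0)
    (hn1 : n1 ≤ t) (hT : RR F B n ≤ T) (hL : VV n * (t + RR F B n) ≤ L) (he : e2 n ≤ 2 / 25)
    (s : Nd d) (hs : tm s = t)
    (h : 1 / 8 * (pr (wls F.toMd (al K M.Q) (RR F B n)) (fun ws =>
      CE F B n (bx 0 L) (rReg (bx 0 L)) (mm F n + 1) (fun _ => True)
        (tj F.toMd (M.sy K) (M.st F.toMd K s) ws)) - e2 n) ≤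
      pr (wls F.toMd (al K M.Q) T) fun ws => (∃ u, t ≤ u ∧ u ≤ tm (nx s ws) ∧
        0 ∈ (M.st F.toMd K (cut u (nx s ws))).2) ∨ M.fl (nx s ws))
    (hlen : ∀ ws ∈ (wls F.toMd (al K M.Q) T).support, ws.length = T) :
    pr (wls F.toMd (al K M.Q) T) (fun ws => mainqE n1 (t + T)
        (tj F.toMd (M.sy K) (ini F.toMd M.Z {0} s.1) (s.2 ++ ws))) ≤
      9 / 10 * ind (mainqE n1 t (tj F.toMd (M.sy K) (ini F.toMd M.Z {0} s.1) s.2)) +
      pr (wls F.toMd (al K M.Q) T) fun ws => ¬ Chn (VV n) (t + T)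
        (tj F.toMd (M.sy K) (ini F.toMd M.Z {0} s.1) (s.2 ++ ws)) ∨ M.fl (nx s ws) := by
  have hl : s.2.length = t := hs
  refine (pr_le_add (E1 := fun ws =>
      mainqE n1 t (tj F.toMd (M.sy K) (ini F.toMd M.Z {0} s.1) s.2) ∧
      CE F B n (bx 0 L) (rReg (bx 0 L)) (mm F n + 1) (fun _ => True)
        (tj F.toMd (M.sy K) (M.st F.toMd K s) (ws.take (RR F B n))) ∧
      ¬ ((∃ u, t ≤ u ∧ u ≤ tm (nx s ws) ∧ 0 ∈ (M.st F.toMd K (cut u (nx s ws))).2) ∨
        M.fl (nx s ws))) fun ws hws hE => ?_).trans (add_le_add ?_ le_rfl)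
  · by_contra hc
    obtain ⟨hc, hc2⟩ := not_or.1 hc
    obtain ⟨hch, hfl⟩ := not_or.1 hc2
    rw [not_not] at hch
    apply hc
    obtain ⟨⟨x, hx⟩, hno⟩ := hE
    obtain ⟨γ, -, hγ, hd⟩ := hch.chain le_rfl hx
    have h0 : γ 0 = 0 := Finset.mem_singleton.1
      ((regT_tj (G := F.toMd) (M.sy K) {0} s.1 (s.2 ++ ws)).1 (hγ 0 (Nat.zero_le _)))
    refine ⟨⟨⟨γ t, ?_⟩, fun u h1 h2 => ?_⟩, ?_, ?_⟩
    · rw [← mainq_tj _ _ _ _ ws hl.ge]; exact hγ t (by omega)
    · rw [← mainq_tj _ _ _ _ ws (h2.trans hl.ge)]; exact hno u h1 (by omega)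
    · refine mainq_ce F B n _ _ (fun u => γ (t + u)) (fun u hu => ⟨?_, ?_⟩) fun u v => ?_
      · have a1 := hγ (t + u) (by omega)
        rw [← hl, tj_shift] at a1
        have a2 : tj F.toMd (M.sy K) (M.st F.toMd K s) (ws.take (RR F B n)) u =
            tj F.toMd (M.sy K) (M.st F.toMd K s) ws u := by
          unfold tj
          rw [List.take_take, Nat.min_eq_left hu]
        rw [a2, ← hl]
        unfold Amb.st
        rw [hy]
        exact a1
      · have a1 := hd 0 (t + u)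
        rw [h0, Nat.zero_max, Nat.zero_min, Nat.sub_zero] at a1
        exact mem_bx.2 (a1.trans ((Nat.mul_le_mul_left _ (by omega)).trans hL))
      · have a1 := hd (t + u) (t + (u + v))
        rwa [Nat.max_eq_right (by omega), Nat.min_eq_left (by omega),
          show t + (u + v) - (t + u) = v by omega] at a1
    · rintro (⟨u, h1, h2, h3⟩ | h3)
      · rw [tm_nx, hs, hlen ws hws] at h2
        refine hno u (hn1.trans h1) h2 ?_
        unfold Amb.st at h3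
        rw [hy] at h3
        exact h3
      · exact hfl h3
  · by_cases hE : mainqE n1 t (tj F.toMd (M.sy K) (ini F.toMd M.Z {0} s.1) s.2)
    · rw [ind_pos hE]
      have a1 := pr_mono (p := wls F.toMd (al K M.Q) T) (E := fun ws =>
        mainqE n1 t (tj F.toMd (M.sy K) (ini F.toMd M.Z {0} s.1) s.2) ∧
        CE F B n (bx 0 L) (rReg (bx 0 L)) (mm F n + 1) (fun _ => True)
          (tj F.toMd (M.sy K) (M.st F.toMd K s) (ws.take (RR F B n))) ∧
        ¬ ((∃ u, t ≤ u ∧ u ≤ tm (nx s ws) ∧ 0 ∈ (M.st F.toMd K (cut u (nx s ws))).2) ∨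
          M.fl (nx s ws))) fun ws _ hw => hw.2.1
      have a2 := pr_mono (p := wls F.toMd (al K M.Q) T) (E := fun ws =>
        mainqE n1 t (tj F.toMd (M.sy K) (ini F.toMd M.Z {0} s.1) s.2) ∧
        CE F B n (bx 0 L) (rReg (bx 0 L)) (mm F n + 1) (fun _ => True)
          (tj F.toMd (M.sy K) (M.st F.toMd K s) (ws.take (RR F B n))) ∧
        ¬ ((∃ u, t ≤ u ∧ u ≤ tm (nx s ws) ∧ 0 ∈ (M.st F.toMd K (cut u (nx s ws))).2) ∨
          M.fl (nx s ws))) fun ws _ hw => hw.2.2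
      rw [pr_not] at a2
      have a3 : (wls F.toMd (al K M.Q) T).map (List.take (RR F B n)) =
          wls F.toMd (al K M.Q) (RR F B n) := iid_take _ hT
      rw [← a3, pr_map] at h
      linarith
    · rw [ind_neg hE, pr_zero fun ws _ hw => hE hw.1]
      norm_num

/-- One epoch. -/
theorem mainq_step {d : ℕ} {F : Fr} (hd : 2 ≤ d) (hF : F.Ok) (hL : Low d F) (hE : Eng d F)
    (hA : S_A d F) (hBASE : S_BASE d F) {δ : ℝ} (hδ : 0 < δ) {n1 t : ℕ} (hn1 : n1 ≤ t) :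
    ∃ t', t ≤ t' ∧ ∀ᶠ R in atTop, ∀ᶠ K in atTop,
      cP F.toMd K (F.hi, R) (0 : S d) t' (mainqE n1 t') ≤
        9 / 10 * cP F.toMd K (F.hi, R) (0 : S d) t (mainqE n1 t) + δ := by
  obtain ⟨e0, N, he0, hN, hA⟩ := hA
  obtain ⟨B, hB, hBe, hBK⟩ := hBASE (min e0 (1 / 100)) (by positivity) (min_le_right _ _)
  have hg : Tendsto (fun I : ℕ => I ^ N) atTop atTop := tendsto_pow_atTop (by omega)
  obtain ⟨I, ⟨⟨⟨⟨⟨⟨⟨⟨⟨⟨a1, a2⟩, a3⟩, a4⟩, a5⟩, a6⟩, a7⟩, a8⟩, a9⟩, a10⟩, a11⟩⟩ :=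
    (((((((((((hA B hB (hBe.le.trans (min_le_left _ _))).and
      ((hE.hAMB B hB).comp hg)).and ((hL.hEN0 B hB).comp hg)).and (hg.eventually hL.hCHN)).and
      (hg.eventually (er_small (e := min (δ / 2) (2 / 25)) (by positivity)))).and
      (hg.eventually (scales hF B))).and (hg.eventually (le_of_Lmin hF B))).and
      (Lmin_le F B N)).and (hg.eventually (card_le (d := d) (by omega)))).and
      (eventually_ge_atTop 2)).and (eventually_ge_atTop t)).exists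
  set n := I ^ N with hn
  have hIn : I + 1 ≤ n := by
    calc I + 1 ≤ I ^ 2 := by nlinarith
      _ ≤ n := Nat.pow_le_pow_right (by omega) hN
  have hLm := a8 n le_rfl
  obtain ⟨-, b2, b3, b4⟩ := a7 _ hLm
  have hV : 1 ≤ VV n := Nat.one_le_pow _ _ (by omega)
  have hs1 : n ≤ s1 F n := by
    have hA3 : 3 ≤ F.A := hF.2.2.2.2.2.2
    calc n = n ^ 1 := (pow_one _).symm
      _ ≤ n ^ (2 * F.A) := Nat.pow_le_pow_right (by omega) (by omega)
      _ = s1 F n := by unfold s1; rw [pow_mul]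
  have htR : t ≤ RR F B n := by have := a6.2.2.2.2.2.2.1; omega
  have hVR : VV n * (t + RR F B n) ≤ 2 ^ I := by
    calc VV n * (t + RR F B n) ≤ VV n * (2 * RR F B n) := Nat.mul_le_mul_left _ (by omega)
      _ = 2 * (VV n * RR F B n) := by ring
      _ ≤ 2 ^ I := by omega
  have hRI : RR F B n ≤ 2 ^ I := by
    have := Nat.mul_le_mul_right (t + RR F B n) hV
    omega
  have h2I : 2 * 2 ^ I ≤ 2 ^ n := by
    rw [← pow_succ']; exact Nat.pow_le_pow_right (by norm_num) hIn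
  have h4n : 4 * 2 ^ n ≤ 2 ^ (4 * n) := by
    rw [show 4 * 2 ^ n = 2 ^ (n + 2) by ring]
    exact Nat.pow_le_pow_right (by norm_num) (by omega)
  refine ⟨t + (RR F B n + 2 ^ n), by omega, ?_⟩
  filter_upwards [eventually_ge_atTop (2 ^ n)] with R hR
  filter_upwards [hBK n] with K hK
  obtain ⟨C, U, hC, hU, hC2, hV8⟩ := a1 K hK
  have hg0 := hB.2.1
  have hp4 : B.pa ≤ B.p 4 := by unfold Bs.p; push_cast; linarith
  have hp5 : B.p 4 + B.g ≤ F.hi := by
    have := hB.2.2.1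
    unfold Bs.p; push_cast; linarith
  have hQ : bx (0 : S d) (2 ^ n) ⊆ bx 0 (2 * R) := bx_mono _ (by omega)
  set T := RR F B n + 2 ^ n with hT
  set M : Amb d := samb F B K n (B.p 4) (bx 0 (2 * R)) (bx 0 (2 ^ n)) (bx 0 R) 0 t with hM
  have hMo : M.Ok F B K n (B.p 4) := samb_ok F B K n _ hQ (bx_mono _ (by omega)) 0 t
  set f : Nd d → ℝ := fun s => ind ((∃ u, t ≤ u ∧ u ≤ tm s ∧
    0 ∈ (M.st F.toMd K (cut u s)).2) ∨ M.fl s) with hf
  have hMa : Mart F.toMd K M (cl F.toMd K M f (t + T)) (t + T) 1 :=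
    mart_cl (fun s => ⟨ind_nonneg _, ind_le_one _⟩) hMo.2.2.1
      fun s _ h => (ind_pos (Or.inr h)).ge
  have hnode : ∀ η, ∀ w1 ∈ (wls F.toMd (al K M.Q) t).support,
      pr (wls F.toMd (al K M.Q) T) (fun ws => mainqE n1 (t + T)
        (tj F.toMd (M.sy K) (ini F.toMd M.Z {0} η) (w1 ++ ws))) ≤
      9 / 10 * ind (mainqE n1 t (tj F.toMd (M.sy K) (ini F.toMd M.Z {0} η) w1)) +
      pr (wls F.toMd (al K M.Q) T) fun ws => ¬ Chn (VV n) (t + T)
        (tj F.toMd (M.sy K) (ini F.toMd M.Z {0} η) (w1 ++ ws)) ∨ M.fl (η, w1 ++ ws) := by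
    intro η w1 hw1
    have hs : tm (η, w1) = t := (wls_mem hF hw1).1
    refine mainq_node (M := M) (L := 2 ^ I) rfl hn1 (Nat.le_add_right _ _) hVR
      (a5.2.1.trans (min_le_right _ _)) (η, w1) hs ?_ fun ws h => (wls_mem hF h).1
    have h := a2 K hK (B.p 4) M _ (t + T) 1 (1 / 8) C 0 (2 ^ I) (η, w1) hC hMo hMa hs.ge
      (by omega) (bx_mono _ h2I) (by omega) (by omega) (by norm_num) (by norm_num)
      fun z hz => ⟨bx_subset (by have := mem_bx.1 hz; omega), fun t1 h1 h2 =>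
        hV8 M _ (t + T) 1 1 z t1 hMo hMa subset_rfl (bx_mono _ hR) (by rw [hs] at h1; exact h1.le)
          (by omega) (by norm_num) le_rfl (by simpa using mem_bx.1 hz) fun s h3 h4 h5 => by
            rw [cl_of_ge f (by omega)]
            refine le_ex (Bdd.of01 fun _ => ⟨ind_nonneg _, ind_le_one _⟩) fun ws _ => (ind_pos (Or.inl ⟨tm s, by omega,
              by rw [tm_nx]; omega, ?_⟩)).ge
            rw [cut_nx_le le_rfl, cut_self le_rfl]
            exact h5⟩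
    rw [cl_of_ge f (by omega), hs, Nat.add_sub_cancel_left] at h
    exact h
  have hKP : KP F K F.hi := ⟨hK.1, hF.2.2.2.2.2.1.le, le_rfl⟩
  have c1 := a4 K F.hi (bx (0 : S d) (2 * R)) (bx 0 R) {0} (t + T) hKP (by simp) (by omega)
  have c2 := a3 K hK (B.p 4) F.hi (bx (0 : S d) (2 * R)) (bx 0 (2 ^ n)) t (t + T) (t + T) hp4 hp5
    le_rfl hQ (by
      rw [card_bx]
      refine le_trans ?_ a9
      refine le_trans (Nat.pow_le_pow_left ?_ d) (Nat.le_mul_of_pos_left _ (by norm_num))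
      have : 2 ^ (4 * n) ≤ 2 ^ (4 * n + 3) := Nat.pow_le_pow_right (by norm_num) (by omega)
      omega) (by rw [pow_succ]; omega)
  have c3 : ∀ η, pr (wls F.toMd (al K M.Q) (t + T)) (fun ws => mainqE n1 (t + T)
        (tj F.toMd (M.sy K) (ini F.toMd M.Z {0} η) ws)) ≤
      9 / 10 * pr (wls F.toMd (al K M.Q) t) (fun ws =>
        mainqE n1 t (tj F.toMd (M.sy K) (ini F.toMd M.Z {0} η) ws)) +
      (pr (wls F.toMd (al K M.Q) (t + T)) (fun ws => ¬ Chn (VV n) (t + T)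
        (tj F.toMd (M.sy K) (ini F.toMd M.Z {0} η) ws)) +
      pr (wls F.toMd (al K M.Q) (t + T)) fun ws => ∃ u, t ≤ u ∧ u ≤ t + T ∧
        Sparse (n ^ 2) (hh F B K (B.p 4)) (bx 0 (2 ^ n)) (ms (al K M.Q) η (ws.take u))) := by
    intro η
    refine le_trans ?_ (add_le_add le_rfl (pr_le_add (E := fun ws => ¬ Chn (VV n) (t + T)
      (tj F.toMd (M.sy K) (ini F.toMd M.Z {0} η) ws) ∨ M.fl (η, ws)) fun ws hws h => ?_))
    · have d1 : ∀ E : List (Word d) → Prop, pr (wls F.toMd (al K M.Q) (t + T)) E =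
          ex (wls F.toMd (al K M.Q) t) fun w1 =>
            pr (wls F.toMd (al K M.Q) T) fun ws => E (w1 ++ ws) :=
        fun E => ex_iid_add _ t T (Bdd.ind E)
      rw [d1, d1]
      refine (ex_mono (Bdd.pr _ _) (((Bdd.const _).mul (Bdd.ind _)).add (Bdd.pr _ _))
        (hnode η)).trans (le_of_eq ?_)
      rw [ex_add _ ((Bdd.const _).mul (Bdd.ind _)) (Bdd.pr _ _), ex_mul_left]
      rfl
    · refine h.imp_right ?_
      rintro ⟨u, h1, h2, h3⟩
      exact ⟨u, h1, h2.trans (wls_mem hF hws).1.le, h3⟩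
  have c4 := ex_mono (p := mu F.toMd K F.hi (bx (0 : S d) (2 * R))) (Bdd.pr _ _)
    (((Bdd.const _).mul (Bdd.pr _ _)).add ((Bdd.pr _ _).add (Bdd.pr _ _))) fun η _ => c3 η
  rw [ex_add _ ((Bdd.const _).mul (Bdd.pr _ _)) ((Bdd.pr _ _).add (Bdd.pr _ _)), ex_mul_left,
    ex_add _ (Bdd.pr _ _) (Bdd.pr _ _)] at c4
  have c5 := a5.1.trans (min_le_left _ _)
  refine c4.trans (add_le_add le_rfl ((add_le_add c1 c2).trans (by linarith)))

theorem s_main {d : ℕ} {F : Fr} (hd : 2 ≤ d) (hF : F.Ok) (hL : Low d F) (hE : Eng d F)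
    (hA : S_A d F) (hBASE : S_BASE d F) :
    S_MAIN d F := by
  intro e he n1
  have key : ∀ k : ℕ, ∃ t, n1 ≤ t ∧ ∀ᶠ R in atTop, ∀ᶠ K in atTop,
      cP F.toMd K (F.hi, R) (0 : S d) t (mainqE n1 t) ≤ (9 / 10) ^ k + e / 2 := by
    intro k
    induction k with
    | zero =>
      refine ⟨n1, le_rfl, Eventually.of_forall fun R => Eventually.of_forall fun K => ?_⟩
      exact (wP_le_one _).trans (by rw [pow_zero]; linarith)
    | succ k ih =>
      obtain ⟨t, h1, h2⟩ := ih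
      obtain ⟨t', h3, h4⟩ := mainq_step hd hF hL hE hA hBASE (δ := e / 20) (by positivity) h1
      refine ⟨t', h1.trans h3, ?_⟩
      filter_upwards [h2, h4] with R h2 h4
      filter_upwards [h2, h4] with K h2 h4
      rw [pow_succ]
      linarith
  obtain ⟨k, hk⟩ := exists_pow_lt_of_lt_one (half_pos he) (by norm_num : (9 / 10 : ℝ) < 1)
  obtain ⟨t, -, h⟩ := key k
  refine ⟨t, ?_⟩
  filter_upwards [h] with R h
  filter_upwards [h] with K h
  exact h.trans (by linarith)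

end Pool.Agent.Lib.MP_dd0771_pr.Sc
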