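import Pool.Agent.Lib.MP_dd0771_pr.Sc.Kit

open Filter

namespace Pool.Agent.Lib.MP_dd0771_pr.Sc

variable {d : ℕ} {F : Fr}

theorem pbad_ex_le {α : Type} {p : PMF α} {f m r : α → ℝ} {c : ℝ}
    (hm : Summable fun a => (p a).toReal * m a) (hr : Bdd r) (h0 : ∀ a ∈ p.support, 0 ≤ f a)
    (h : ∀ a ∈ p.support, f a ≤ c * m a + r a) : ex p f ≤ c * ex p m + ex p r := by
  have e : (fun a => (p a).toReal * (c * m a + r a)) =
      fun a => c * ((p a).toReal * m a) + (p a).toReal * r a := funext fun a => by ring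
  refine (ex_mono' (e ▸ (hm.mul_left c).add (ex_summable p hr)) h0 h).trans (le_of_eq ?_)
  rw [ex, e, (hm.mul_left c).tsum_add (ex_summable p hr), tsum_mul_left]
  rfl

/-- Union bound over the window times under an invariant law. -/
theorem pbad_time {A A' : Finset (Lt d)} {p : PMF (Cfg d)}
    (h : ∀ T, (p.bind fun η => (wls F.toMd A T).map (ms A' η)) = p) (E : Cfg d → Prop) (T : ℕ) :
    (ex p fun η => pr (wls F.toMd A T) fun ws => ∃ u, u ≤ T ∧ E (ms A' η (ws.take u))) ≤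
      (T + 1) * pr p E := by
  calc _ ≤ ex p fun η => ∑ u ∈ Finset.range (T + 1),
        pr (wls F.toMd A T) fun ws => E (ms A' η (ws.take u)) := by
        refine ex_mono (Bdd.pr _ _) ⟨(T + 1 : ℕ), fun η => ?_⟩ fun η _ =>
          (pr_mono fun ws _ ⟨u, hu, e⟩ => ⟨u, Finset.mem_range.2 (Nat.lt_succ_of_le hu), e⟩).trans
            (pr_union_le _ _ _)
        rw [abs_of_nonneg (Finset.sum_nonneg fun _ _ => pr_nonneg _ _)]
        simpa using Finset.sum_le_card_nsmul (Finset.range (T + 1)) _ 1 fun u _ => pr_le_one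
          (wls F.toMd A T) fun ws => E (ms A' η (ws.take u))
    _ = ∑ u ∈ Finset.range (T + 1), pr p E := by
        rw [ex_sum _ _ fun u _ => Bdd.pr _ _]
        refine Finset.sum_congr rfl fun u hu => ?_
        conv_rhs => rw [← h u, pr_bind]
        refine ex_congr fun η _ => ?_
        rw [pr_map, wls, wls, ← iid_take _ (Nat.lt_succ_iff.1 (Finset.mem_range.1 hu)), pr_map]
    _ = _ := by simp

theorem pbad_box {p : PMF (Cfg d)} {l : ℕ} {B : Finset (S d)} {E : S d → Cfg d → Prop} {e : ℝ}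
    (he : 0 ≤ e) (h : ∀ x, bx x l ⊆ B → pr p (E x) ≤ e) :
    pr p (fun η => ∃ x, bx x l ⊆ B ∧ E x η) ≤ B.card * e := by
  classical
  refine (pr_mono (E' := fun η => ∃ x ∈ B.filter (bx · l ⊆ B), E x η) fun η _ ⟨x, hx, k⟩ =>
    ⟨x, Finset.mem_filter.2 ⟨hx (self_mem_bx x l), hx⟩, k⟩).trans ((pr_union_le _ _ _).trans ?_)
  refine (Finset.sum_le_card_nsmul _ _ e fun x hx => h x (Finset.mem_filter.1 hx).2).trans ?_
  rw [nsmul_eq_mul]
  exact mul_le_mul_of_nonneg_right (Nat.cast_le.2 (Finset.card_filter_le _ _)) he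

theorem pbad_num (hd : 2 ≤ d) (F : Fr) (c : ℝ) : ∀ᶠ n : ℕ in atTop, ∃ W : ℝ, 1 ≤ W ∧
    ((2 * (4 * DD F n) + 1) ^ d : ℕ) ≤ W ∧ (n : ℝ) ^ F.A + 1 ≤ W ∧
      ∀ l : ℕ, ls n ≤ l → c * W ^ 2 ≤ Real.exp (l / 4) := by
  filter_upwards [eventually_ge_atTop 9, tendsto_natCast_atTop_atTop.eventually_ge_atTop c,
    pow_le_exp_ls (2 * ((2 * F.A + 5) * d) + 1) (c := 1 / 4) (by norm_num)] with n n9 nc hp
  have n1 : (1 : ℝ) ≤ n := by exact_mod_cast (by omega : 1 ≤ n)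
  have a1 : ∀ k, 1 ≤ n ^ k := fun k => Nat.one_le_pow _ _ (by omega)
  refine ⟨n ^ ((2 * F.A + 5) * d), one_le_pow₀ n1, ?_, ?_, fun l hl => ?_⟩
  · rw [pow_mul]
    have : 2 * (4 * DD F n) + 1 ≤ n ^ (2 * F.A + 5) := by
      have := a1 (2 * F.A + 4)
      rw [DD, pow_succ n (2 * F.A + 4)]
      nlinarith
    exact_mod_cast Nat.pow_le_pow_left this d
  · have : n ^ F.A + 1 ≤ n ^ ((2 * F.A + 5) * d) := by
      refine le_trans ?_ (Nat.pow_le_pow_right (by omega) (show F.A + 1 ≤ _ by nlinarith))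
      have := a1 F.A
      rw [pow_succ]
      nlinarith
    exact_mod_cast this
  · calc _ ≤ (n : ℝ) * (n ^ ((2 * F.A + 5) * d)) ^ 2 := by gcongr
      _ = _ := by ring
      _ ≤ _ := hp
      _ ≤ _ := Real.exp_le_exp.2 (by
        have : (ls n : ℝ) ≤ l := by exact_mod_cast hl
        linarith)

theorem s_pbad {d : ℕ} {F : Fr} (hd : 2 ≤ d) (hF : F.Ok) (hL : Low d F)
    :
    S_PBAD d F := by
  classical
  intro B hB
  have g0 : 0 < B.g := hB.2.1
  obtain ⟨C, C1, hC⟩ := sl_mean hF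
  obtain ⟨C', C1', hC'⟩ := sl_raise hF
  obtain ⟨γ, γ0, hγ⟩ := hL.hGAP (B.g / 4) (by positivity)
  have j2 : F.j ≤ 2 := by rcases hF.2.2.2.1 with h | h <;> omega
  obtain ⟨l0, hl0⟩ := eventually_atTop.1 ((hγ.and hL.hP1).and
    ((tendsto_natCast_atTop_atTop.eventually_ge_atTop γ⁻¹).and (eventually_ge_atTop 1)))
  filter_upwards [ls_tendsto.eventually_ge_atTop l0, scales hF B,
    pbad_num hd F (2 * C' * (2 * C + 4)), eventually_ge_atTop 1] with n hn0 hs ⟨W, W1, WN, WA, hW⟩ n1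
    K hK l pc Q z l1 l2 p1 p2 hQ
  obtain ⟨⟨hG, hP⟩, lγ, l1'⟩ := hl0 l (hn0.trans l1)
  replace hW := hW l l1
  rw [Bs.p] at p2
  push_cast at p2
  have k0 : KP F K pc := hK.kp hF hB p1 (by linarith)
  have k1 : KP F K (pc + B.g / 4) := hK.kp hF hB (by linarith) (by linarith)
  have k2 : KP F K (pc + B.g / 2) := hK.kp hF hB (by linarith) (by linarith)
  obtain ⟨D, hD⟩ : ∃ D, D = DD F n := ⟨_, rfl⟩
  have lD : l ^ F.A + 1 ≤ D := by
    have h1 := hs.2.2.1
    have h2 : l ^ F.A ≤ n ^ F.A := Nat.pow_le_pow_left l2 _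
    have h3 : 1 ≤ VV n := Nat.one_le_pow _ _ n1
    have h4 := hB.2.2.2.2.2.2.2
    rw [hD]
    nlinarith only [Nat.zero_le (s1 F n), h1, h2, h3, h4]
  rw [← hD] at WN hQ
  rw [← card_bx z] at WN
  obtain ⟨Z, hZ⟩ : ∃ Z, Z = bx z (4 * D) := ⟨_, rfl⟩
  have zZ : z ∈ Z := hZ ▸ self_mem_bx _ _
  rw [← hZ] at WN hQ
  obtain ⟨ε, hε⟩ : ∃ ε, ε = Real.exp (-(l : ℝ)) := ⟨_, rfl⟩
  have ε0 : 0 < ε := hε ▸ Real.exp_pos _
  have ln : (l : ℝ) ≤ n := by exact_mod_cast l2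
  have eγ : Real.exp (-γ * (l : ℝ) ^ d) ≤ ε := by
    have h1 : (1 : ℝ) ≤ l := by exact_mod_cast l1'
    have h2 : (l : ℝ) ^ 2 ≤ l ^ d := pow_le_pow_right₀ h1 hd
    have h3 : 1 ≤ γ * l := by rwa [inv_le_iff_one_le_mul₀' γ0] at lγ
    exact hε ▸ Real.exp_le_exp.2 (by nlinarith only [h1, h2, h3, γ0])
  have eK : 1 ≤ K * ε := by
    have h1 : ((3 ^ (n ^ 2) : ℕ) : ℝ) ≤ K := Nat.cast_le.2 hK.2.1
    have h2 : Real.exp l ≤ 3 ^ (n ^ 2) := by
      rw [← Real.exp_one_pow]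
      exact (pow_le_pow_left₀ (Real.exp_pos _).le (Real.exp_one_lt_d9.le.trans (by norm_num)) l).trans
        (pow_le_pow_right₀ (by norm_num) (l2.trans (Nat.le_self_pow two_ne_zero n)))
    rw [hε, Real.exp_neg, ← div_eq_mul_inv, le_div_iff₀ (Real.exp_pos _), one_mul]
    exact h2.trans (by exact_mod_cast h1)
  have mm := fun (φ : ℝ) (k : KP F K φ) (Q' : Finset (S d)) (f : S d → ℕ) (hf : ∀ x, f x ≤ 2) =>
    ex_pc_mass Q' Z (fun x => sl F.toMd K φ (f x)) (c := C) (by linarith) fun x _ => hC K φ _ k (hf x)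
  have f2 : ∀ x, (if x = z then F.j else 0) ≤ 2 := fun x => by split_ifs <;> omega
  obtain ⟨A, hA⟩ : ∃ A, A = al K Z \ low F.toMd z := ⟨_, rfl⟩
  obtain ⟨h, hh⟩ : ∃ h, h = mn F.toMd K (pc + B.g / 4) := ⟨_, rfl⟩
  obtain ⟨f, hf⟩ : ∃ f : Cfg d → ℝ, f = fun η => ex (piz F.toMd K pc Z z) fun ζ =>
    pr (wls F.toMd A (s2 F l)) fun ws => ∃ x ∈ bx z (3 * D), ms (al K Z) η ws x < ms (al K Z) ζ ws x :=
    ⟨_, rfl⟩
  have f01 : ∀ η, 0 ≤ f η ∧ f η ≤ 1 := fun η => hf ▸ ⟨ex_nonneg fun _ _ => pr_nonneg _ _,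
    ex_le (Bdd.pr _ _) fun _ _ => pr_le_one _ _⟩
  have sup : ∀ φ, KP F K φ → ∀ η ∈ (piz F.toMd K φ Z z).support, ∀ x ∈ Z,
      (if x = z then F.j else 0) ≤ η x := fun φ k η hη x hx =>
    (sl_support hF k (f2 x)).1 ((pc_support hη).2 x hx)
  have one : ∀ η ∈ (piz F.toMd K (pc + B.g / 2) Z z).support, ∀ ζ ∈ (piz F.toMd K pc Z z).support,
      pr (wls F.toMd A (s2 F l)) (fun ws => ∃ x ∈ bx z (3 * D),
        ms (al K Z) η ws x < ms (al K Z) ζ ws x) ≤ 2 * W * ε * mass ζ Z + (W * ε +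
        pr (wls F.toMd A (s2 F l)) (fun ws => ∃ u, u ≤ s2 F l ∧
          Dense l h Z (ms (al K Z) ζ (ws.take u))) +
        pr (wls F.toMd A (s2 F l)) (fun ws => ∃ u, u ≤ s2 F l ∧
          Sparse l h Z (ms (al K Z) η (ws.take u)))) := fun η hη ζ hζ => by
    have a0 := pr_nonneg (wls F.toMd A (s2 F l)) fun ws => ∃ u, u ≤ s2 F l ∧
      Dense l h Z (ms (al K Z) ζ (ws.take u))
    have b0 := pr_nonneg (wls F.toMd A (s2 F l)) fun ws => ∃ u, u ≤ s2 F l ∧
      Sparse l h Z (ms (al K Z) η (ws.take u))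
    have m0 : (0 : ℝ) ≤ mass ζ Z := Nat.cast_nonneg _
    have wε : ε ≤ W * ε := le_mul_of_one_le_left ε0.le W1
    rcases le_or_gt K (mass ζ Z) with c | c
    · have : (K : ℝ) ≤ mass ζ Z := Nat.cast_le.2 c
      refine (pr_le_one _ _).trans ?_
      linarith only [a0, b0, eK, wε, ε0, mul_le_mul_of_nonneg_right this ε0.le,
        mul_le_mul_of_nonneg_right wε m0, mul_nonneg ε0.le m0]
    have sb : ∀ x ∈ bx z (3 * D), bx x (l ^ F.A + 1) ⊆ Z := fun x hx =>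
      hZ ▸ bx_subset (by have := mem_bx.1 hx; omega)
    have sb' : ∀ x ∈ bx z (3 * D), bx x (l ^ F.A) ⊆ Z := fun x hx =>
      (bx_mono _ (Nat.le_succ _)).trans (sb x hx)
    refine (pr_le_add (E1 := fun ws => ∃ x ∈ bx z (3 * D), ms A η ws x < ms A ζ ws x ∧
      ∀ u, u ≤ l ^ F.A → ¬ Dense l h (bx x (l ^ F.A)) (ms A ζ (ws.take u)) ∧
        ¬ Sparse l h (bx x (l ^ F.A)) (ms A η (ws.take u)))
      (E2 := fun ws => (∃ u, u ≤ s2 F l ∧ Dense l h Z (ms (al K Z) ζ (ws.take u))) ∨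
        ∃ u, u ≤ s2 F l ∧ Sparse l h Z (ms (al K Z) η (ws.take u))) ?_).trans ?_
    · rintro ws hws ⟨x, hx, hlt⟩
      have e : ∀ ξ (ws' : List (Word d)), ws' ⊆ ws → ms A ξ ws' = ms (al K Z) ξ ws' :=
        fun ξ ws' hw => ms_congr_al ξ fun w hw' a ha =>
          have := (wls_mem hF hws).2 w (hw hw') a ha
          iff_of_true this (Finset.mem_sdiff.1 (hA ▸ this)).1
      by_contra! k
      refine k.1 x hx (by rwa [e _ _ (List.Subset.refl _), e _ _ (List.Subset.refl _)]) |>.elim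
        fun u ⟨hu, k'⟩ => ?_
      rw [e _ _ (List.take_subset _ _), e _ _ (List.take_subset _ _)] at k'
      obtain ⟨x', h1, h2⟩ := k' fun ⟨x', h1, h2⟩ => k.2.1 u hu ⟨x', h1.trans (sb' x hx), h2⟩
      exact k.2.2 u hu ⟨x', h1.trans (sb' x hx), h2⟩
    · have h1 := (pr_union_le _ _ _).trans (Finset.sum_le_card_nsmul (bx z (3 * D)) _ _
        fun x hx => hP A A A K Z x h _ ζ η subset_rfl subset_rfl
          (hA ▸ (closed_al K Z).mono Finset.sdiff_subset) (sb' x hx) (hA ▸ lev_al_low (sb x hx) z)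
          (hA ▸ lev_al_low (sb x hx) z)
          (fun y hy => ⟨sup _ k0 ζ hζ y (sb' x hx hy), sup _ k2 η hη y (sb' x hx hy)⟩) c)
      have h2 : ((bx z (3 * D)).card : ℝ) ≤ W := le_trans (Nat.cast_le.2 (Finset.card_le_card
        (hZ ▸ bx_mono z (by omega)))) WN
      rw [nsmul_eq_mul, ← hε] at h1
      refine (add_le_add (h1.trans (mul_le_mul_of_nonneg_right h2 (by positivity)))
        (pr_or_le _ _ _)).trans ?_
      linarith only [mul_nonneg (ε0.le.trans wε) m0]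
  have T1 : ((s2 F l : ℕ) : ℝ) + 1 ≤ W := by
    refine le_trans ?_ WA
    exact_mod_cast Nat.succ_le_succ (Nat.pow_le_pow_left l2 _)
  have fl : ∀ φ, KP F K φ → ∀ E : S d → Cfg d → Prop,
      (∀ x, bx x l ⊆ Z → pr (piz F.toMd K φ Z z) (E x) ≤ Real.exp (-γ * (l : ℝ) ^ d)) →
      (ex (piz F.toMd K φ Z z) fun η => pr (wls F.toMd A (s2 F l)) fun ws => ∃ u, u ≤ s2 F l ∧
        ∃ x, bx x l ⊆ Z ∧ E x (ms (al K Z) η (ws.take u))) ≤ W * (W * ε) := fun φ k E hE =>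
    (pbad_time (hA ▸ (hL.hSTAT K φ Z k).2.2.1 z zZ) (fun η => ∃ x, bx x l ⊆ Z ∧ E x η) _).trans
      (mul_le_mul T1 ((pbad_box ε0.le fun x hx => (hE x hx).trans eγ).trans
        (mul_le_mul_of_nonneg_right WN ε0.le)) (pr_nonneg _ _) (by linarith))
  have fd := fl pc k0 _ fun x hx => (hG K pc _ Z x z _ k0 k1 hx (Or.inr rfl)).2 le_rfl
  have fs := fl _ k2 _ fun x hx => (hG K _ _ Z x z _ k2 k1 hx (Or.inr rfl)).1 (by linarith)
  rw [← hh] at fd fs
  have CW : C * Z.card ≤ C * W := mul_le_mul_of_nonneg_left WN (by linarith)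
  have two : ex (piz F.toMd K (pc + B.g / 2) Z z) f ≤ (2 * C + 3) * W ^ 2 * ε := by
    refine (ex_mono (g := fun η => 2 * W * ε * (C * W) + (W * ε + W * (W * ε)) +
      pr (wls F.toMd A (s2 F l)) (fun ws => ∃ u, u ≤ s2 F l ∧
        Sparse l h Z (ms (al K Z) η (ws.take u)))) (Bdd.of01 f01)
      ((Bdd.const _).add (Bdd.pr _ _)) fun η hη => ?_).trans ?_
    · rw [hf]
      refine (pbad_ex_le (mm pc k0 Z _ f2).1 (((Bdd.const _).add (Bdd.pr _ _)).add (Bdd.const _))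
        (fun _ _ => pr_nonneg _ _) (one η hη)).trans ?_
      rw [ex_add _ ((Bdd.const _).add (Bdd.pr _ _)) (Bdd.const _),
        ex_add _ (Bdd.const _) (Bdd.pr _ _), ex_const, ex_const, ← add_assoc]
      exact add_le_add_left (add_le_add (mul_le_mul_of_nonneg_left ((mm pc k0 Z _ f2).2.trans CW)
        (by positivity)) (add_le_add_right fd _)) _
    · rw [ex_add _ (Bdd.const _) (Bdd.pr _ _), ex_const]
      refine (add_le_add_right fs _).trans ?_
      linarith only [mul_nonneg (mul_nonneg (sub_nonneg.2 W1) ε0.le) (zero_le_one.trans W1)]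
  have three : ex (mu F.toMd K (pc + B.g / 2) Q) (fun ω => f (loc F.toMd D z ω)) ≤
      C' * ((2 * C + 3) * W ^ 2 * ε) := by
    have e1 := ex_pc_site_le zZ (fun _ => sl F.toMd K (pc + B.g / 2) 0) _ (fun i => max i F.j)
      (hC' K _ k2) (Bdd.of01 f01) fun η => (f01 η).1
    rw [show Function.update (fun _ => sl F.toMd K (pc + B.g / 2) 0) z
        (sl F.toMd K (pc + B.g / 2) F.j) =
        fun x => sl F.toMd K (pc + B.g / 2) (if x = z then F.j else 0) from funext fun x => by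
          by_cases c : x = z <;> simp [c],
      ← pc_restrict hQ fun _ => sl F.toMd K (pc + B.g / 2) 0,
      ex_map _ _ (Bdd.of01 fun _ => f01 _)] at e1
    refine le_trans (le_of_eq (ex_congr fun ω _ => congrArg f (funext fun x => ?_)))
      (e1.trans (mul_le_mul_of_nonneg_left two (by linarith)))
    by_cases c : x = z
    · simp [loc, ← hZ, c, zZ]
    · simp [loc, ← hZ, c]
  have m1 := markov (mm _ k2 Q (fun _ => 0) fun _ => by omega).1 (fun _ _ => Nat.cast_nonneg _)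
    (c := 2 ^ n) (by positivity)
  have m2 := markov (p := mu F.toMd K (pc + B.g / 2) Q) (ex_summable _ (Bdd.of01 fun ω =>
    f01 (loc F.toMd D z ω))) (fun _ _ => (f01 _).1) (Real.exp_pos (-(l : ℝ) / 2))
  refine (pr_le_add fun ω _ k => ?_).trans ((add_le_add m1 m2).trans ?_)
  · rw [pregood, ← hD, ← hZ, ← hA, not_and_or, not_le, not_le] at k
    exact k.imp (fun k => by exact_mod_cast k.le) fun k => hf ▸ k.le
  · obtain ⟨δ, hδ⟩ : ∃ δ, δ = Real.exp (-(l : ℝ) / 4) := ⟨_, rfl⟩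
    have δ0 : 0 < δ := hδ ▸ Real.exp_pos _
    have e1 : Real.exp (l / 4) * δ = 1 := by
      rw [hδ, ← Real.exp_add, ← Real.exp_zero]
      congr 1
      ring
    have e2 : Real.exp (-(l : ℝ) / 2) = δ ^ 2 := by
      rw [hδ, ← Real.exp_nat_mul]
      congr 1
      push_cast
      ring
    have e3 : ε = δ ^ 4 := by
      rw [hδ, hε, ← Real.exp_nat_mul]
      congr 1
      push_cast
      ring
    have e4 : 1 ≤ δ ^ 2 * 2 ^ n := by
      rw [← e2, show (2 : ℝ) ^ n = Real.exp (n * Real.log 2) by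
        rw [Real.exp_nat_mul, Real.exp_log two_pos], ← Real.exp_add]
      refine Real.one_le_exp ?_
      nlinarith only [Real.log_two_gt_d9, (Nat.cast_nonneg l : (0 : ℝ) ≤ l), ln]
    have e5 : 2 * C' * (2 * C + 4) * W ^ 2 * δ ≤ 1 :=
      e1 ▸ mul_le_mul_of_nonneg_right hW δ0.le
    have u0 : 0 ≤ W ^ 2 * δ := by positivity
    have e6 : C * W * δ ≤ 1 / 2 := by
      have a1 : W * δ ≤ W ^ 2 * δ := by
        linarith only [mul_nonneg (mul_pos (zero_lt_one.trans_le W1) δ0).le (sub_nonneg.2 W1)]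
      have a2 : C * (W ^ 2 * δ) ≤ C' * (2 * C + 4) * (W ^ 2 * δ) :=
        mul_le_mul_of_nonneg_right (by nlinarith only [C1, C1']) u0
      linarith only [a2, e5, mul_le_mul_of_nonneg_left a1 (zero_le_one.trans C1)]
    rw [← hδ, e2]
    refine (add_le_add (b := δ / 2) (d := δ / 2) ?_ ?_).trans (by linarith)
    · rw [div_le_iff₀ (by positivity)]
      refine ((mm _ k2 Q (fun _ => 0) fun _ => by omega).2.trans CW).trans ?_
      have : 0 ≤ C * W := by positivity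
      have h2 : (0 : ℝ) < δ * 2 ^ n := by positivity
      linarith only [mul_le_mul_of_nonneg_left e4 this, mul_le_mul_of_nonneg_right e6 h2.le]
    · rw [div_le_iff₀ (by positivity)]
      refine three.trans ?_
      have h3 : C' * (2 * C + 3) * (W ^ 2 * δ) ≤ 1 / 2 := by
        linarith only [mul_nonneg (zero_le_one.trans C1') u0, e5]
      rw [e3]
      linarith only [mul_le_mul_of_nonneg_right h3 (pow_pos δ0 3).le]

end Pool.Agent.Lib.MP_dd0771_pr.Sc
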