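import Pool.Agent.Lib.MP_dd0771_pr.Sc.Sl2C

open Filter

namespace Pool.Agent.Lib.MP_dd0771_pr.Sc

theorem sl2_num1 {th ε a b : ℝ} (h0 : 0 < th) (h1 : th ≤ 1) (e0 : 0 < ε) (e1 : ε ≤ 1 / 100)
    (ha : a ≤ ε * th ^ 2 / 4) (hb : b ≤ ε * th ^ 2 / 4) {x y : ℝ} (hx : th * (1 - ε) - b ≤ x)
    (hy : th * (1 - ε) - b ≤ y) : (1 - 6 * ε) * (th * (1 + ε)) ^ 2 ≤ x * y - a := by
  have t2 : th ^ 2 ≤ th := by nlinarith
  have b2 : b ≤ ε * th / 4 := hb.trans (by nlinarith)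
  have k0 : 0 ≤ th * (1 - 5 / 4 * ε) := mul_nonneg h0.le (by linarith)
  have kx : th * (1 - 5 / 4 * ε) ≤ x := by linarith
  have ky : th * (1 - 5 / 4 * ε) ≤ y := by linarith
  have k := mul_le_mul kx ky k0 (k0.trans kx)
  have p : (1 - 6 * ε) * (1 + ε) ^ 2 ≤ (1 - 5 / 4 * ε) ^ 2 - ε / 4 := by nlinarith [sq_nonneg ε]
  have := mul_le_mul_of_nonneg_left p (sq_nonneg th)
  nlinarith

theorem sl2_num2 {th ε a b c : ℝ} (h0 : 0 < th) (h1 : th ≤ 1) (e0 : 0 < ε) (e1 : ε ≤ 1 / 100)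
    (hc : 20 * ε ≤ c) (ha : a ≤ ε * th ^ 2 / 4) (hb : b ≤ ε * th ^ 2 / 4) {x y : ℝ}
    (hx : c * th - a ≤ x) (hy : th * (1 - ε) - b ≤ y) :
    c / 4 * (th * (1 + ε)) ^ 2 ≤ x * y - a := by
  have t2 : th ^ 2 ≤ th := by nlinarith
  have b2 : b ≤ ε * th / 4 := hb.trans (by nlinarith)
  have a2 : a ≤ ε * th / 4 := ha.trans (by nlinarith)
  have c0 : 0 < c := by linarith
  have kx : 9 / 10 * c * th ≤ x := by nlinarith
  have ky : 9 / 10 * th ≤ y := by nlinarith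
  have k0 : 0 ≤ 9 / 10 * c * th := by positivity
  have k := mul_le_mul kx ky (by positivity) (k0.trans kx)
  have p : (1 + ε) ^ 2 ≤ 2 := by nlinarith
  have q : 0 ≤ c * th ^ 2 := by positivity
  have := mul_le_mul_of_nonneg_left p q
  have a3 : a ≤ c * th ^ 2 / 80 := ha.trans (by nlinarith [sq_nonneg th])
  nlinarith

theorem sl2_zero {α : Type} (κ : Law α) {f g : α → ℝ} (h : κ.E f = κ.E g) (e : ∀ p, g p = -f p) :
    κ.E f = 0 := by
  have := κ.E_mul (-1) f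
  rw [show (fun p => -1 * f p) = g from funext fun p => by rw [e, neg_one_mul]] at this
  linarith

theorem s_sl2 {d : ℕ} {F : Fr} (hd : 2 ≤ d) (hF : F.Ok) (hL : Low d F)
    (hAL : S_AL d F) (hGEN : S_GEN d F) (hLIVW : S_LIVW d F) (hAT : S_AT d F) :
    S_SL2 d F := by
  intro B hB
  obtain ⟨-, -, -, t0, t1, e0, e1, -⟩ := id hB
  filter_upwards [hAL B hB, hGEN B hB, hLIVW B hB, hAT B hB, hL.hCHN, scales hF B,
    le_of_Lmin hF B, ls_le, er_small (e := B.eps * B.th ^ 2 / 4) (by positivity),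
    eventually_ge_atTop 1] with n hAL hGEN hLIVW hAT hCHN hsc hLm hls hsm hn1
  intro K hK pc C r T c hTy hp1 hr1 hr2 hT hc hre y1 y2 hy
  obtain ⟨-, -, -, -, hs1, hsq, hsR, -⟩ := hsc
  obtain ⟨c1, c2, c3, c4, c5⟩ := id hTy
  obtain ⟨-, l1, l2, l3⟩ := hLm _ c4
  obtain ⟨s1e, s2e, s3e⟩ := hsm
  have hkp : KP F K C.1 := hK.kp hF hB c1 (by
    have := hB.2.1
    simp only [Bs.p] at c3
    push_cast at c3
    linarith)
  have hV : 1 ≤ VV n := Nat.one_le_pow _ _ hn1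
  have hs : 1 ≤ s1 F n := Nat.one_le_pow _ _ (Nat.one_le_pow _ _ hn1)
  have hn0 : B.n0 ≤ RR F B n := le_trans (Nat.le_add_left _ _) hsq
  have hRX : RR F B n ≤ VV n * RR F B n := Nat.le_mul_of_pos_left _ hV
  have hX2 : VV n * (B.n0 + RR F B n) ≤ 2 * (VV n * RR F B n) := by
    rw [mul_add, two_mul]
    exact Nat.add_le_add_right (Nat.mul_le_mul_left _ hn0) _
  obtain ⟨m, hm⟩ : ∃ m, m = T / sb F B n (ls n) + mm F n + 2 := ⟨_, rfl⟩
  have m1 : m * sb F B n (ls n) ≤ T + RR F B n := by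
    rw [hm, add_assoc, add_mul]
    exact Nat.add_le_add_right (Nat.div_mul_le_self _ _) _
  have m2 : T ≤ m * sb F B n (ls n) := by
    have a : T < sb F B n (ls n) * (T / sb F B n (ls n) + 1) := Nat.lt_mul_div_succ T hs1
    have b : (T / sb F B n (ls n) + 1) * sb F B n (ls n) ≤ m * sb F B n (ls n) :=
      Nat.mul_le_mul_right _ (by omega)
    rw [mul_comm] at a
    omega
  have m3 : B.n0 + m * sb F B n (ls n) ≤ 2 ^ (n + 1) := by
    rw [pow_succ]
    omega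
  have m4 : m ≤ 2 ^ (n + 1) := (Nat.le_mul_of_pos_right m hs1).trans (by omega)
  have m5 : 2 ^ (n + 1) ≤ 2 ^ (4 * n) := Nat.pow_le_pow_right (by norm_num) (by omega)
  have m6 : 2 ^ n ≤ 2 ^ (4 * n) := Nat.pow_le_pow_right (by norm_num) (by omega)
  have hne : y1 ≠ y2 := fun e => by
    rw [e, sub_self, nrm_zero] at hy
    omega
  have hcard : ({y1, y2} : Finset (S d)).card = 2 := Finset.card_pair hne
  have hD : 10 * DD F n ≤ C.2 := by omega
  have hO := sl2R_ok (r := r) (kT := T / sb F B n (ls n) + 1) hy hD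
  have hW := sl2_hW (r := r) (kT := T / sb F B n (ls n) + 1) (Zc := wZ {y1, y2} C.2) (m := m) hy
    (sb F B n (ls n))
  have hLV := fun P => hLIVW K hK pc C {y1, y2} _ m P hTy hcard.le hO m4
  have hG : ∀ y, B.th * (1 - B.eps) - e2 n ≤ cP F.toMd K C y (B.n0 + m * sb F B n (ls n)) fun I =>
      sl2Top (VV n) (B.n0 + m * sb F B n (ls n)) I ∨
        sl2Far (VV n) (7 * C.2 / 8) (B.n0 + m * sb F B n (ls n)) y I := fun y =>
    (hAT K hK C y _ hp1 hkp.2.2 c4 c5 (by omega)).trans (sl2_at (by omega))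
  have hE := sl2_far (K := K) (C := C) hL.hSYM y1 (V := VV n) (n0 := B.n0)
    (R := r + Nat.sqrt C.2) (T := T) (H := B.n0 + m * sb F B n (ls n)) (by omega)
    (hCHN K C.1 _ _ {y1} _ hkp (by simp) (m3.trans m5))
  have tp : 0 < B.thp ^ 2 := pow_pos (thp_pos hB) 2
  have sym := sl2_sym (B := B) (K := K) (r := r) (kT := T / sb F B n (ls n) + 1) hL.hISORUN
    (pc := pc) (l := ls n) (m := m) hy hD (sb F B n (ls n))
  refine ⟨sl2Law F B K n (ls n) pc C {y1, y2} (sl2R y1 y2 C.2 r (T / sb F B n (ls n) + 1)) m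
    (sl2W d C.2 (sb F B n (ls n)) m) (sl2H y1 y2 C.2 (sb F B n (ls n))), ?_, ?_, fun i => ?_, ?_⟩
  · refine ⟨sl2Law_nonneg hB _ _, ?_⟩
    rw [sl2Law_E hW (Bdd.ind fun _ => True) fun _ _ => ind_pos trivial, hcard,
      le_div_iff₀ tp, div_le_one tp]
    obtain ⟨a1, a2⟩ := hLV fun _ => True
    constructor
    · refine le_trans ?_ a1
      refine (sl2_num1 t0 t1 e0 e1 s1e s2e (hG y1) (hG y2)).trans (sub_le_sub_right ?_ _)
      rw [← sl2_prod hL.hPROD hkp hy]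
      exact wP_mono fun I _ ⟨g1, g2⟩ =>
        sl2_ce_all (by omega) (by omega) hV hs (by omega) g1 g2
    · refine a2.trans ?_
      have b := (hAL K hK C c1 (c2.trans c3) (by omega) (c5.trans m6)).1
      have b0 : 0 ≤ alv d F.toMd K C B.n0 := by
        unfold alv cP
        exact wP_nonneg _
      have b1 := sl2_prod hL.hPROD hkp hy (B.n0 + m * sb F B n (ls n))
        (fun I => (I B.n0).Nonempty) fun I => (I B.n0).Nonempty
      rw [sl2_alive hL.hSYM y1 (Nat.le_add_right _ _),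
        sl2_alive hL.hSYM y2 (Nat.le_add_right _ _)] at b1
      refine le_trans (wP_mono fun I _ ⟨g, _⟩ => ?_) (b1.le.trans (by nlinarith))
      obtain ⟨x1, p1, q1⟩ := g y1 (by simp)
      obtain ⟨x2, p2, q2⟩ := g y2 (by simp)
      exact ⟨⟨x1, Finset.mem_inter.2 ⟨p1, q1⟩⟩, x2, Finset.mem_inter.2 ⟨p2, q2⟩⟩
  · intro p hp
    obtain ⟨a1, a2, k, a3, a4⟩ := sl2W_mem.1 hp
    have : (k + 1) * sb F B n (ls n) ≤ m * sb F B n (ls n) := Nat.mul_le_mul_right _ a3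
    exact ⟨a1, a2, a4 ▸ Nat.mul_pos (Nat.succ_pos k) hs1, by omega⟩
  · refine ⟨sl2_zero _ (sym (.refl _) (.refl _) (fun _ => false) (fun _ => true) _)
        fun p => by simp [sp],
      sl2_zero _ (sym (.refl _) (.refl _) (fun _ => true) (fun _ => false) _) fun p => by simp [sp],
      sl2_zero _ (sym (.refl _) (.refl _) (fun _ => false) (fun _ => true) _) fun p => by simp [sp],
      ?_⟩
    have hj := fun j => sym (.swap i j) (.swap i j) (fun _ => true) (fun _ => true)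
      fun p => (p.1 i : ℝ) ^ 2 + (p.2.1 i : ℝ) ^ 2
    simp only [sp, if_true, Equiv.swap_apply_left] at hj
    have hsum := Finset.sum_congr (rfl : (Finset.univ : Finset (Fin d)) = _) fun j _ => hj j
    rw [Finset.sum_const, ← Law.E_sum, Finset.card_univ, Fintype.card_fin, nsmul_eq_mul] at hsum
    have hge := sl2Law_ge (K := K) (n := n) (l := ls n) (pc := pc) hB hW
      (f := fun p => ∑ j, ((p.1 j : ℝ) ^ 2 + (p.2.1 j : ℝ) ^ 2))
      ((Bdd.const ((r : ℝ) ^ 2)).mul (Bdd.ind fun q : ℕ × Finset (S d) =>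
        q.1 < T / sb F B n (ls n) + 1)) fun q hq => by
        obtain ⟨z1, z2, -, -, -, -, a5, a6⟩ := sl2_opt hy (sb F B n (ls n)) hq
        rw [a6, Finset.sum_add_distrib]
        change _ ≤ eu (z1 - y1) + eu (z2 - y2)
        have u1 := eu_nonneg (z1 - y1)
        have u2 := eu_nonneg (z2 - y2)
        by_cases hk : q.1 < T / sb F B n (ls n) + 1
        · rw [ind_pos hk, mul_one]
          have w : ∀ x : S d, r ≤ nrm x → (r : ℝ) ^ 2 ≤ eu x := fun x hx =>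
            (pow_le_pow_left₀ (Nat.cast_nonneg _) (Nat.cast_le.2 hx) 2).trans (nrm_sq_le_eu x)
          rcases a5 with a | a | a
          · linarith [w _ a]
          · linarith [w _ a]
          · omega
        · rw [ind_neg hk]
          linarith
    rw [← hsum, sl2L_mul, hcard] at hge
    have hea : c / 4 * B.thp ^ 2 ≤ sl2L F B K n (ls n) pc C {y1, y2}
        (sl2R y1 y2 C.2 r (T / sb F B n (ls n) + 1)) m
        fun q => ind (q.1 < T / sb F B n (ls n) + 1) := by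
      refine le_trans ?_ (hLV fun q => q.1 < T / sb F B n (ls n) + 1).1
      refine (sl2_num2 t0 t1 e0 e1 hc s1e s2e ((sub_le_sub_right hre _).trans hE) (hG y2)).trans
        (sub_le_sub_right ?_ _)
      rw [← sl2_prod hL.hPROD hkp hy]
      exact wP_mono fun I _ ⟨g1, g2⟩ =>
        sl2_ce_early (by omega) (by omega) (by omega) (by omega) hV hs m2 g1 g2
    have d0 : (0 : ℝ) < d := Nat.cast_pos.2 (by omega)
    have hrL : (C.2 : ℝ) ^ 2 ≤ 4 * (r : ℝ) ^ 2 := by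
      have : (C.2 : ℝ) ≤ 2 * r := by exact_mod_cast hr1
      nlinarith [(Nat.cast_nonneg C.2 : (0 : ℝ) ≤ C.2)]
    rw [mul_div_assoc] at hge
    have h4 := mul_le_mul_of_nonneg_left ((le_div_iff₀ tp).2 hea) (sq_nonneg (r : ℝ))
    rw [div_le_iff₀ (by positivity)]
    nlinarith [mul_le_mul_of_nonneg_left hrL (show 0 ≤ c by linarith)]
  · intro M Φ te t ub vb ty v hM hΦ hu ht hA h0 hvb hv hcont
    have t2 : B.eps * B.th ^ 2 / 4 ≤ B.eps := by nlinarith [pow_le_one₀ t0.le t1 (n := 2)]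
    refine sl2Law_val (ty := fun q => ty (sl2H y1 y2 C.2 (sb F B n (ls n)) q)) (kp := id) hB hW
      (fun w hw hrv hco => hGEN K hK (ls n) (ls n) pc M Φ te ub vb vb C _ _ m t _ id w le_rfl
        hls.2 hTy hM hΦ hu (by omega) (by omega) hA hO le_rfl hvb hw hrv hco) h0 hv
      (s3e.trans t2) (s2e.trans t2) fun q hq hp => ?_
    obtain ⟨a1, a2, a3, a4⟩ := hcont _ (hW q hq) hp
    obtain ⟨z1, z2, -, -, b3, -, -, b6⟩ := sl2_opt hy (sb F B n (ls n)) hq
    have e1 : y1 + (sl2H y1 y2 C.2 (sb F B n (ls n)) q).1 = z1 := by rw [b6, add_sub_cancel]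
    have e2 : y2 + (sl2H y1 y2 C.2 (sb F B n (ls n)) q).2.1 = z2 := by rw [b6, add_sub_cancel]
    rw [e1, e2, ← b3] at a2 a3 a4
    exact ⟨subset_rfl, a2, a1, a3, a4⟩

end Pool.Agent.Lib.MP_dd0771_pr.Sc
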