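import Pool.Agent.Lib.MP_dd0771_pr.Sc.Kit

/-! The law of the first success of a machine on a world, pushed forward along a map. -/

open Filter

namespace Pool.Agent.Lib.MP_dd0771_pr.Sc

variable {d : ℕ} {F : Fr} {B : Bs} {K n l m : ℕ} {pc : ℝ} {C : Ty} {Y : Finset (S d)}
  {O : Rule d} {α : Type}

/-- Expected value of the first success on the event that the world is alive. -/
noncomputable def sl2L (F : Fr) (B : Bs) (K n l : ℕ) (pc : ℝ) (C : Ty) (Y : Finset (S d))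
    (O : Rule d) (m : ℕ) (v : ℕ × Finset (S d) → ℝ) : ℝ :=
  wEv F.toMd K B.n0 C Y fun σ => rv F B K n l pc (wMc K C Y O) m σ v

/-- The options of the rule. -/
def sl2Opt (Zc : Finset (S d)) (O : Rule d) (m : ℕ) (q : ℕ × Finset (S d)) : Prop :=
  q.1 < m ∧ ∃ Cd ⊆ Zc, q.2 ∈ O q.1 Cd

theorem sl2_bdd_elim {β : Type} {v : β → ℝ} (hv : Bdd v) :
    Bdd fun o : Option β => o.elim 0 v := by
  obtain ⟨M, hM⟩ := hv
  refine ⟨max M 0, fun o => ?_⟩
  cases o with
  | none => simp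
  | some a => exact (hM a).trans (le_max_left _ _)

theorem sl2_bdd_rv (H : Mc d) {v : ℕ × Finset (S d) → ℝ} (hv : Bdd v) :
    Bdd fun σ => rv F B K n l pc H m σ v :=
  Bdd.ex (f := fun (_ : St d) (o : Option (ℕ × Finset (S d))) => o.elim 0 v)
    ((sl2_bdd_elim hv).comp Prod.snd) fun σ => run F B K n l pc H m 0 σ

theorem sl2L_mono {v w : ℕ × Finset (S d) → ℝ} (hv : Bdd v) (hw : Bdd w)
    (h : ∀ q, sl2Opt (wZ Y C.2) O m q → v q ≤ w q) :
    sl2L F B K n l pc C Y O m v ≤ sl2L F B K n l pc C Y O m w := by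
  refine wEv_mono (sl2_bdd_rv _ hv) (sl2_bdd_rv _ hw) fun σ _ => ?_
  refine ex_mono (sl2_bdd_elim hv) (sl2_bdd_elim hw) fun o ho => ?_
  cases o with
  | none => exact le_rfl
  | some q =>
    obtain ⟨_, h2, h3⟩ := run_support B n l pc _ m 0 σ ho
    exact h q ⟨by simpa using h2, h3⟩

theorem sl2L_congr {v w : ℕ × Finset (S d) → ℝ} (hv : Bdd v) (hw : Bdd w)
    (h : ∀ q, sl2Opt (wZ Y C.2) O m q → v q = w q) :
    sl2L F B K n l pc C Y O m v = sl2L F B K n l pc C Y O m w :=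
  le_antisymm (sl2L_mono hv hw fun q hq => (h q hq).le) (sl2L_mono hw hv fun q hq => (h q hq).ge)

theorem sl2L_add {v w : ℕ × Finset (S d) → ℝ} (hv : Bdd v) (hw : Bdd w) :
    sl2L F B K n l pc C Y O m (fun q => v q + w q) =
      sl2L F B K n l pc C Y O m v + sl2L F B K n l pc C Y O m w := by
  unfold sl2L
  rw [← wEv_add (sl2_bdd_rv _ hv) (sl2_bdd_rv _ hw)]
  congr 1
  funext σ
  unfold rv
  rw [← ex_add _ (sl2_bdd_elim hv) (sl2_bdd_elim hw)]
  refine ex_congr fun o _ => ?_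
  cases o <;> simp

theorem sl2L_mul (c : ℝ) (v : ℕ × Finset (S d) → ℝ) :
    sl2L F B K n l pc C Y O m (fun q => c * v q) = c * sl2L F B K n l pc C Y O m v := by
  unfold sl2L
  rw [← wEv_mul]
  congr 1
  funext σ
  unfold rv
  rw [← ex_mul_left]
  refine ex_congr fun o _ => ?_
  cases o <;> simp

theorem sl2L_nonneg {v : ℕ × Finset (S d) → ℝ} (h : ∀ q, 0 ≤ v q) :
    0 ≤ sl2L F B K n l pc C Y O m v := by
  refine wEv_nonneg fun σ => ex_nonneg fun o _ => ?_
  cases o with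
  | none => exact le_rfl
  | some q => exact h q

theorem sl2_bdd_sum {β : Type} (W : Finset α) {f : α → β → ℝ} (hf : ∀ p, Bdd (f p)) :
    Bdd fun q => ∑ p ∈ W, f p q := by
  classical
  induction W using Finset.induction_on with
  | empty => simpa using Bdd.const (α := β) 0
  | insert a s ha ih => simpa [Finset.sum_insert ha] using (hf a).add ih

theorem sl2L_sum (W : Finset α) {f : α → ℕ × Finset (S d) → ℝ} (hf : ∀ p, Bdd (f p)) :
    sl2L F B K n l pc C Y O m (fun q => ∑ p ∈ W, f p q) =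
      ∑ p ∈ W, sl2L F B K n l pc C Y O m (f p) := by
  classical
  induction W using Finset.induction_on with
  | empty => simpa using sl2L_mul (F := F) (B := B) (K := K) (n := n) (l := l) (m := m) (pc := pc)
              (C := C) (Y := Y) (O := O) 0 fun _ => 0
  | insert a s ha ih =>
    simp only [Finset.sum_insert ha]
    rw [sl2L_add (hf a) (sl2_bdd_sum s hf), ih]

/-- The law of `h` of the first success, normalised. -/
noncomputable def sl2Law (F : Fr) (B : Bs) (K n l : ℕ) (pc : ℝ) (C : Ty) (Y : Finset (S d))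
    (O : Rule d) (m : ℕ) (W : Finset α) (h : ℕ × Finset (S d) → α) : Law α :=
  ⟨W, fun p => sl2L F B K n l pc C Y O m (fun q => ind (h q = p)) / B.thp ^ Y.card⟩

/-- `f ∘ h`, cut off outside `W`. -/
noncomputable def sl2Cut (W : Finset α) (h : ℕ × Finset (S d) → α) (f : α → ℝ)
    (q : ℕ × Finset (S d)) : ℝ := ∑ p ∈ W, f p * ind (h q = p)

theorem sl2Cut_bdd (W : Finset α) (h : ℕ × Finset (S d) → α) (f : α → ℝ) : Bdd (sl2Cut W h f) :=
  sl2_bdd_sum W fun p => (Bdd.const (f p)).mul (Bdd.ind fun q => h q = p)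

theorem sl2Cut_mem {W : Finset α} {h : ℕ × Finset (S d) → α} (f : α → ℝ) {q : ℕ × Finset (S d)}
    (hq : h q ∈ W) : sl2Cut W h f q = f (h q) := by
  unfold sl2Cut
  rw [Finset.sum_eq_single_of_mem _ hq fun p _ hp => by rw [ind_neg (Ne.symm hp), mul_zero],
    ind_pos rfl, mul_one]

theorem sl2Cut_not {W : Finset α} {h : ℕ × Finset (S d) → α} (f : α → ℝ) {q : ℕ × Finset (S d)}
    (hq : h q ∉ W) : sl2Cut W h f q = 0 :=
  Finset.sum_eq_zero fun p hp => by
    rw [ind_neg fun e : h q = p => hq (e ▸ hp), mul_zero]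

theorem sl2Law_cut (W : Finset α) (h : ℕ × Finset (S d) → α) (f : α → ℝ) :
    (sl2Law F B K n l pc C Y O m W h).E f =
      sl2L F B K n l pc C Y O m (sl2Cut W h f) / B.thp ^ Y.card := by
  unfold sl2Cut
  rw [sl2L_sum W fun p => (Bdd.const (f p)).mul (Bdd.ind fun q => h q = p), Finset.sum_div]
  refine Finset.sum_congr rfl fun p _ => ?_
  rw [sl2L_mul]
  simp only [sl2Law]
  ring

/-- Expectations under the pushed law. -/
theorem sl2Law_E {W : Finset α} {h : ℕ × Finset (S d) → α}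
    (hW : ∀ q, sl2Opt (wZ Y C.2) O m q → h q ∈ W) {f : α → ℝ} {v : ℕ × Finset (S d) → ℝ}
    (hv : Bdd v) (e : ∀ q, sl2Opt (wZ Y C.2) O m q → v q = f (h q)) :
    (sl2Law F B K n l pc C Y O m W h).E f = sl2L F B K n l pc C Y O m v / B.thp ^ Y.card := by
  rw [sl2Law_cut, sl2L_congr (sl2Cut_bdd W h f) hv fun q hq => by
    rw [sl2Cut_mem f (hW q hq), e q hq]]

/-- Lower bounds for expectations under the pushed law. -/
theorem sl2Law_ge (hB : B.Ok F) {W : Finset α} {h : ℕ × Finset (S d) → α}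
    (hW : ∀ q, sl2Opt (wZ Y C.2) O m q → h q ∈ W) {f : α → ℝ} {v : ℕ × Finset (S d) → ℝ}
    (hv : Bdd v) (e : ∀ q, sl2Opt (wZ Y C.2) O m q → v q ≤ f (h q)) :
    sl2L F B K n l pc C Y O m v / B.thp ^ Y.card ≤ (sl2Law F B K n l pc C Y O m W h).E f := by
  rw [sl2Law_cut]
  exact div_le_div_of_nonneg_right (sl2L_mono hv (sl2Cut_bdd W h f) fun q hq => by
    rw [sl2Cut_mem f (hW q hq)]; exact e q hq) (pow_pos (thp_pos hB) _).le

theorem sl2Law_nonneg (hB : B.Ok F) (W : Finset α) (h : ℕ × Finset (S d) → α) (p : α) :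
    0 ≤ (sl2Law F B K n l pc C Y O m W h).k p :=
  div_nonneg (sl2L_nonneg fun _ => ind_nonneg _) (pow_pos (thp_pos hB) _).le

/-- Symmetry: `hI` is the conclusion of `S_ISORUN` for all bounded functions. -/
theorem sl2Law_sym {W : Finset α} {h : ℕ × Finset (S d) → α} {ψ : S d → S d} {s : α → α}
    (hW : ∀ q, sl2Opt (wZ Y C.2) O m q → h q ∈ W)
    (hI : ∀ v, Bdd v → sl2L F B K n l pc C Y O m v =
      sl2L F B K n l pc C Y O m fun q => v (q.1, q.2.image ψ))
    (hs : ∀ q, sl2Opt (wZ Y C.2) O m q → h (q.1, q.2.image ψ) = s (h q) ∧ s (h q) ∈ W)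
    (f : α → ℝ) : (sl2Law F B K n l pc C Y O m W h).E f =
      (sl2Law F B K n l pc C Y O m W h).E fun p => f (s p) := by
  rw [sl2Law_cut, hI _ (sl2Cut_bdd W h f)]
  refine (sl2Law_E hW ((sl2Cut_bdd W h f).comp _) fun q hq => ?_).symm
  rw [sl2Cut_mem f ((hs q hq).1 ▸ (hs q hq).2), (hs q hq).1]

/-- The value of a step: `hG` is the conclusion of `S_GEN` for this machine. -/
theorem sl2Law_val (hB : B.Ok F) {l0 t : ℕ} {M : Amb d} {Φ : Nd d → ℝ} {vb : ℝ} {W : Finset α}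
    {h : ℕ × Finset (S d) → α} {ty : ℕ × Finset (S d) → Ty} {kp : Finset (S d) → Finset (S d)}
    {v : α → ℝ} (hW : ∀ q, sl2Opt (wZ Y C.2) O m q → h q ∈ W)
    (hG : ∀ w : ℕ × Finset (S d) → ℝ, (∀ p, 0 ≤ w p ∧ w p ≤ vb) →
      (∀ σ, rv F B K n l pc (wMc K C Y O) m σ w ≤ vb) →
      Cont F B K n l pc M Φ (wZ Y C.2) O m t ty kp w →
      Val F B K n l0 M Φ C Y t
        (sl2L F B K n l pc C Y O m w / B.thp ^ Y.card - tol l0 * vb - e2 n * vb))
    (h0 : 0 ≤ vb) (hv : ∀ p ∈ W, v p ≤ vb) (h1 : tol l0 ≤ B.eps) (h2 : e2 n ≤ B.eps)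
    (hc : ∀ q, sl2Opt (wZ Y C.2) O m q → 0 < v (h q) →
      kp q.2 ⊆ q.2 ∧ Apart (kp q.2) (ty q).2 ∧ TyOk F B n pc (ty q) ∧
        wZ (kp q.2) (ty q).2 ⊆ M.Z ∧
        Val F B K n l M Φ (ty q) (kp q.2) (t + (q.1 + 1) * sb F B n l) (v (h q))) :
    Val F B K n l0 M Φ C Y t ((sl2Law F B K n l pc C Y O m W h).E v - 2 * B.eps * vb) := by
  have hw : ∀ q, 0 ≤ sl2Cut W h (fun p => max (v p) 0) q ∧
      sl2Cut W h (fun p => max (v p) 0) q ≤ vb := fun q => by
    by_cases hq : h q ∈ W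
    · rw [sl2Cut_mem _ hq]
      exact ⟨le_max_right _ _, max_le (hv _ hq) h0⟩
    · rw [sl2Cut_not _ hq]
      exact ⟨le_rfl, h0⟩
  refine (hG _ hw (fun σ => (rv_bounds B n l pc _ m σ hw).2) ?_).mono ?_
  · intro k hk Cd hCd Yt hYt hpos
    have hq : sl2Opt (wZ Y C.2) O m (k, Yt) := ⟨hk, Cd, hCd, hYt⟩
    rw [sl2Cut_mem _ (hW _ hq)] at hpos ⊢
    have hp : 0 < v (h (k, Yt)) := by simpa using hpos
    rw [max_eq_left hp.le]
    exact hc _ hq hp
  · rw [← sl2Law_cut]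
    have : (sl2Law F B K n l pc C Y O m W h).E v ≤
        (sl2Law F B K n l pc C Y O m W h).E fun p => max (v p) 0 :=
      Finset.sum_le_sum fun p _ =>
        mul_le_mul_of_nonneg_left (le_max_left _ _) (sl2Law_nonneg hB W h p)
    nlinarith [mul_le_mul_of_nonneg_right h1 h0, mul_le_mul_of_nonneg_right h2 h0]

end Pool.Agent.Lib.MP_dd0771_pr.Sc
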