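import Pool.Agent.Lib.MP_dd0771_pr.Sc.Sl2A

/-! One-world facts at an arbitrary centre, chains, products of two worlds. -/

open Filter

namespace Pool.Agent.Lib.MP_dd0771_pr.Sc

variable {d : ℕ} {F : Fr} {B : Bs} {K n : ℕ} {C : Ty}

/-- A slow chain of infected sites up to time `u`. -/
def sl2Ch (V : ℕ) (J : Tj d) (u : ℕ) (γ : ℕ → S d) : Prop :=
  (∀ t, t ≤ u → γ t ∈ J t) ∧ ∀ t t', nrm (γ t' - γ t) ≤ V * (max t t' - min t t')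

theorem sl2Ch.mono {V u u' : ℕ} {J J' : Tj d} {γ : ℕ → S d} (h : sl2Ch V J u γ) (hu : u' ≤ u)
    (hJ : ∀ t, J t ⊆ J' t) : sl2Ch V J' u' γ :=
  ⟨fun t ht => hJ t (h.1 t (ht.trans hu)), h.2⟩

theorem sl2_chain {V H u : ℕ} {Z : Finset (S d)} {y x : S d} {J : Tj d} (hr : RegT Z {y} J)
    (h : Chn V H J) (hu : u ≤ H) (hx : x ∈ J u) :
    ∃ γ, sl2Ch V J u γ ∧ γ u = x ∧ nrm (x - y) ≤ V * u := by
  obtain ⟨γ, h1, h2, h3⟩ := h.chain hu hx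
  refine ⟨γ, ⟨h2, h3⟩, h1, ?_⟩
  have h0 : γ 0 = y := Finset.mem_singleton.1 (hr.1 (h2 0 (Nat.zero_le _)))
  simpa [h0, h1] using h3 0 u

/-- Translation of an event that only depends on times and norms. -/
theorem sl2_move (hS : S_SYM d F) (y : S d) (T : ℕ) (P : ℕ → ℕ → Prop) :
    cP F.toMd K C y T (fun I => ∃ u, ∃ x ∈ I u, P u (nrm (x - y))) =
      cP F.toMd K C (0 : S d) T fun I => ∃ u, ∃ x ∈ I u, P u (nrm x) := by
  unfold cP wP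
  rw [hS K C.1 0 y (Equiv.refl _) (fun _ => true) (2 * C.2) C.2 T _ (by omega)]
  congr 1
  funext I
  congr 1
  simp [nrm_sp]

theorem sl2_alive (hS : S_SYM d F) (y : S d) {t H : ℕ} (h : t ≤ H) :
    cP F.toMd K C y H (fun I => (I t).Nonempty) = alv d F.toMd K C t := by
  have k := sl2_move (K := K) (C := C) hS y t fun u _ => u = t
  have e : ∀ I : Tj d, (∃ u, ∃ x ∈ I u, u = t) ↔ (I t).Nonempty := fun I =>
    ⟨fun ⟨_, x, hx, e⟩ => ⟨x, e ▸ hx⟩, fun ⟨x, hx⟩ => ⟨t, x, hx, rfl⟩⟩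
  simp only [e] at k
  rw [alv, ← k]
  exact wP_horizon h fun I J e hI => e t le_rfl ▸ hI

theorem sl2_reach (hS : S_SYM d F) (y : S d) {n0 r T H : ℕ} (h : n0 + T ≤ H) :
    cP F.toMd K C y H (fun I => ∃ u, n0 ≤ u ∧ u ≤ n0 + T ∧ ∃ x ∈ I u, r ≤ nrm (x - y)) =
      reach d F.toMd K C n0 r T := by
  have k := sl2_move (K := K) (C := C) hS y (n0 + T) fun u a => n0 ≤ u ∧ u ≤ n0 + T ∧ r ≤ a
  have e : ∀ (I : Tj d) (g : S d → ℕ), (∃ u, ∃ x ∈ I u, n0 ≤ u ∧ u ≤ n0 + T ∧ r ≤ g x) ↔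
      ∃ u, n0 ≤ u ∧ u ≤ n0 + T ∧ ∃ x ∈ I u, r ≤ g x := fun I g =>
    ⟨fun ⟨u, x, hx, a, b, c⟩ => ⟨u, a, b, x, hx, c⟩, fun ⟨u, a, b, x, hx, c⟩ => ⟨u, x, hx, a, b, c⟩⟩
  rw [funext fun I => propext (e I fun x => nrm (x - y)), funext fun I => propext (e I nrm)] at k
  rw [reach, ← k]
  exact wP_horizon h fun I J e ⟨u, a, b, x, hx, c⟩ => ⟨u, a, b, x, e u b ▸ hx, c⟩

/-- A chain that ends at time `u ≤ H'` far from the centre. -/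
def sl2Far (V R H' : ℕ) (y : S d) (J : Tj d) : Prop :=
  ∃ u γ, u ≤ H' ∧ sl2Ch V J u γ ∧ R ≤ nrm (γ u - y) ∧ R ≤ V * u

/-- A chain up to the horizon. -/
def sl2Top (V H : ℕ) (J : Tj d) : Prop := ∃ γ, sl2Ch V J H γ

/-- From the conclusion of `S_AT`. -/
theorem sl2_at {G : Md} {V n0 H R : ℕ} {y : S d} (hR : 8 * R ≤ 7 * C.2) :
    cP G K C y H (fun I => Chn V H I ∧ ((I H).Nonempty ∨
      ∃ u, n0 ≤ u ∧ u ≤ H ∧ ∃ x ∈ I u, 7 * C.2 ≤ 8 * nrm (x - y))) ≤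
    cP G K C y H fun I => sl2Top V H I ∨ sl2Far V R H y I := by
  refine wP_mono fun I hr ⟨hc, h⟩ => ?_
  rcases h with ⟨x, hx⟩ | ⟨u, _, hu, x, hx, h⟩
  · obtain ⟨γ, h1, -⟩ := sl2_chain hr hc le_rfl hx
    exact .inl ⟨γ, h1⟩
  · obtain ⟨γ, h1, h2, h3⟩ := sl2_chain hr hc hu hx
    exact .inr ⟨u, γ, hu, h1, by rw [h2]; omega, by omega⟩

theorem sl2_far (hS : S_SYM d F) (y : S d) {V n0 R T H : ℕ} {e : ℝ} (h : n0 + T ≤ H)
    (hc : cP F.toMd K C y H (fun I => ¬ Chn V H I) ≤ e) :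
    reach d F.toMd K C n0 R T - e ≤ cP F.toMd K C y H (sl2Far V R (n0 + T) y) := by
  rw [← sl2_reach hS y h]
  have : cP F.toMd K C y H (fun I => ∃ u, n0 ≤ u ∧ u ≤ n0 + T ∧ ∃ x ∈ I u, R ≤ nrm (x - y)) ≤
      cP F.toMd K C y H (sl2Far V R (n0 + T) y) + cP F.toMd K C y H fun I => ¬ Chn V H I := by
    refine wP_le_add fun I hr ⟨u, _, hu, x, hx, hR⟩ => ?_
    by_cases hc : Chn V H I
    · obtain ⟨γ, h1, h2, h3⟩ := sl2_chain hr hc (hu.trans h) hx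
      exact .inl ⟨u, γ, hu, h1, h2 ▸ hR, hR.trans h3⟩
    · exact .inr hc
  linarith

theorem sl2_prod (hP : S_PROD d F) (hk : KP F K C.1) {y1 y2 : S d}
    (h : 4 * C.2 + 2 ≤ nrm (y1 - y2)) (T : ℕ) (E1 E2 : Tj d → Prop) :
    wP F.toMd K C.1 (wQ {y1, y2} C.2) (wZ {y1, y2} C.2) {y1, y2} T
      (fun I => E1 (fun u => I u ∩ bx y1 C.2) ∧ E2 fun u => I u ∩ bx y2 C.2) =
      cP F.toMd K C y1 T E1 * cP F.toMd K C y2 T E2 := by
  unfold cP wP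
  simp only [ind_and]
  exact hP K C.1 y1 y2 C.2 T _ _ hk h (Bdd.ind E1) (Bdd.ind E2)

/-- A chain event from two chains. -/
theorem sl2_ce {Zc : Finset (S d)} {O : Rule d} {m k1 u : ℕ} {P : ℕ × Finset (S d) → Prop}
    {I : Tj d} {γ1 γ2 : ℕ → S d} (h1 : sl2Ch (VV n) (fun t => I t ∩ Zc) u γ1)
    (h2 : sl2Ch (VV n) (fun t => I t ∩ Zc) u γ2) (hm : k1 + mm F n ≤ m)
    (hu : ∀ k, k < k1 + mm F n → B.n0 + (k * sb F B n (ls n) + s1 F n) ≤ u)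
    (hP : ∀ k, k < k1 + mm F n → ∀ Cd, ∀ Yt ∈ O k Cd, P (k, Yt))
    (hO : ∀ k, k1 ≤ k → k < k1 + mm F n → ∀ Cd : Finset (S d),
      γ1 (B.n0 + (k * sb F B n (ls n) + s1 F n)) ∈ Cd →
      γ2 (B.n0 + (k * sb F B n (ls n) + s1 F n)) ∈ Cd → (O k Cd).Nonempty) :
    CE F B n Zc O m P fun t => I (B.n0 + t) := by
  classical
  have st : ∀ γ : ℕ → S d, sl2Ch (VV n) (fun t => I t ∩ Zc) u γ → ∀ k,
      nrm (γ (B.n0 + ((k + 1) * sb F B n (ls n) + s1 F n)) -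
        γ (B.n0 + (k * sb F B n (ls n) + s1 F n))) ≤ VV n * sb F B n (ls n) := fun γ h k => by
    refine (h.2 _ _).trans (Nat.mul_le_mul_left _ ?_)
    rw [Nat.succ_mul]
    omega
  refine ⟨k1, hm, fun k hk Cd _ => hP k hk Cd, fun k => γ1 (B.n0 + (k * sb F B n (ls n) + s1 F n)),
    fun k => γ2 (B.n0 + (k * sb F B n (ls n) + s1 F n)), fun k _ hk =>
      ⟨h1.1 _ (hu k hk), h2.1 _ (hu k hk), st _ h1 k, st _ h2 k⟩, ?_⟩
  rw [Finset.filter_true_of_mem fun k hk Cd _ a b =>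
    hO k (Finset.mem_Ico.1 hk).1 (Finset.mem_Ico.1 hk).2 Cd a b, Nat.card_Ico]
  omega

/-- The blocks that end just before the time `u`. -/
theorem sl2_blocks {n0 s s' M u : ℕ} (hs : 1 ≤ s') (h1 : 1 ≤ s) (h2 : s ≤ s')
    (hu : n0 + (M + 2) * s' ≤ u) :
    ∃ k1, (∀ k, k < k1 + M → n0 + (k * s' + s) ≤ u) ∧
      (∀ k, k1 ≤ k → k < k1 + M → u ≤ n0 + (k * s' + s) + (M + 2) * s') ∧
      (∀ T, u ≤ n0 + T → k1 + M ≤ T / s' + 1) ∧ ∀ m, u ≤ n0 + m * s' → k1 + M ≤ m := by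
  obtain ⟨a, rfl⟩ : ∃ a, u = n0 + (a + s) := ⟨u - n0 - s, by
    have : s' ≤ (M + 2) * s' := Nat.le_mul_of_pos_left _ (by omega)
    omega⟩
  have hM : M + 1 ≤ a / s' := by
    rw [Nat.le_div_iff_mul_le hs]
    have : (M + 2) * s' = (M + 1) * s' + s' := by ring
    omega
  have e1 := Nat.div_mul_le_self a s'
  have e2 : a < (a / s' + 1) * s' := by
    rw [mul_comm]; exact Nat.lt_mul_div_succ a hs
  obtain ⟨b, hb⟩ : ∃ b, a / s' + 1 = b + M := ⟨a / s' + 1 - M, by omega⟩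
  refine ⟨b, fun k hk => ?_, fun k hk _ => ?_, fun T hT => ?_, fun m hm => ?_⟩
  · have : k * s' ≤ a / s' * s' := Nat.mul_le_mul_right _ (by omega)
    omega
  · have : (a / s' + 1) * s' ≤ (k + (M + 2)) * s' := Nat.mul_le_mul_right _ (by omega)
    rw [add_mul k] at this
    omega
  · have : a / s' ≤ T / s' := Nat.div_le_div_right (by omega)
    omega
  · have : a / s' < m := by
      rw [Nat.div_lt_iff_lt_mul hs]
      omega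
    omega

end Pool.Agent.Lib.MP_dd0771_pr.Sc
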