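import Pool.Agent.Lib.MP_dd0771_pr.Sc.Sl2B

/-! The rule of the pair step: cross pairs with a far member, later all cross pairs. -/

open Filter

namespace Pool.Agent.Lib.MP_dd0771_pr.Sc

variable {d : ℕ} {F : Fr} {B : Bs} {K n : ℕ} {y1 y2 : S d} {L r kT : ℕ}

noncomputable def sl2R (y1 y2 : S d) (L r kT : ℕ) : Rule d := fun k Cd =>
  (((Cd ∩ bx y1 L) ×ˢ (Cd ∩ bx y2 L)).filter fun p =>
    r ≤ nrm (p.1 - y1) ∨ r ≤ nrm (p.2 - y2) ∨ kT ≤ k).image fun p => {p.1, p.2}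

theorem sl2R_mem {k : ℕ} {Cd Yt : Finset (S d)} : Yt ∈ sl2R y1 y2 L r kT k Cd ↔
    ∃ z1 z2, z1 ∈ Cd ∧ z1 ∈ bx y1 L ∧ z2 ∈ Cd ∧ z2 ∈ bx y2 L ∧
      (r ≤ nrm (z1 - y1) ∨ r ≤ nrm (z2 - y2) ∨ kT ≤ k) ∧ Yt = {z1, z2} := by
  simp only [sl2R, Finset.mem_image, Finset.mem_filter, Finset.mem_product, Finset.mem_inter,
    Prod.exists]
  exact ⟨fun ⟨a, b, ⟨⟨⟨h1, h2⟩, h3, h4⟩, h5⟩, h6⟩ => ⟨a, b, h1, h2, h3, h4, h5, h6.symm⟩,
    fun ⟨a, b, h1, h2, h3, h4, h5, h6⟩ => ⟨a, b, ⟨⟨⟨h1, h2⟩, h3, h4⟩, h5⟩, h6.symm⟩⟩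

theorem sl2_sep (h : 4 * L + 2 ≤ nrm (y1 - y2)) {z1 z2 : S d} (h1 : z1 ∈ bx y1 L)
    (h2 : z2 ∈ bx y2 L) : 2 * L + 2 ≤ nrm (z1 - z2) := by
  rw [mem_bx] at h1 h2
  have a := nrm_tri y1 z1 y2
  have b := nrm_tri z1 z2 y2
  rw [nrm_sub_comm y1 z1] at a
  omega

theorem sl2R_ok (h : 4 * L + 2 ≤ nrm (y1 - y2)) {D : ℕ} (hD : 10 * D ≤ L) :
    RuleOk D (sl2R y1 y2 L r kT) := by
  intro k Cd Yt hYt
  obtain ⟨z1, z2, a1, a2, a3, a4, -, rfl⟩ := sl2R_mem.1 hYt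
  have s := sl2_sep h a2 a4
  refine ⟨?_, by simp, Finset.card_le_two, fun z hz z' hz' hne => ?_⟩
  · simp [Finset.insert_subset_iff, a1, a3]
  · simp only [Finset.mem_insert, Finset.mem_singleton] at hz hz'
    rcases hz with rfl | rfl <;> rcases hz' with rfl | rfl
    · exact absurd rfl hne
    · omega
    · rw [nrm_sub_comm]; omega
    · exact absurd rfl hne

/-- Displacements and duration. -/
noncomputable def sl2H (y1 y2 : S d) (L s : ℕ) (q : ℕ × Finset (S d)) : S d × S d × ℕ :=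
  (∑ z ∈ q.2 ∩ bx y1 L, (z - y1), ∑ z ∈ q.2 ∩ bx y2 L, (z - y2), (q.1 + 1) * s)

theorem sl2H_pair (h : 4 * L + 2 ≤ nrm (y1 - y2)) {z1 z2 : S d} (h1 : z1 ∈ bx y1 L)
    (h2 : z2 ∈ bx y2 L) (s k : ℕ) :
    sl2H y1 y2 L s (k, {z1, z2}) = (z1 - y1, z2 - y2, (k + 1) * s) := by
  have n1 : z2 ∉ bx y1 L := fun c => by
    have := sl2_sep h c h2
    rw [sub_self, nrm_zero] at this
    omega
  have n2 : z1 ∉ bx y2 L := fun c => by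
    have := sl2_sep h h1 c
    rw [sub_self, nrm_zero] at this
    omega
  unfold sl2H
  rw [Finset.insert_inter_of_mem h1, Finset.singleton_inter_of_notMem n1,
    Finset.insert_inter_of_notMem n2, Finset.singleton_inter_of_mem h2]
  simp

noncomputable def sl2W (d L s m : ℕ) : Finset (S d × S d × ℕ) :=
  bx 0 L ×ˢ bx 0 L ×ˢ (Finset.range m).image fun k => (k + 1) * s

theorem sl2W_mem {s m : ℕ} {p : S d × S d × ℕ} :
    p ∈ sl2W d L s m ↔ nrm p.1 ≤ L ∧ nrm p.2.1 ≤ L ∧ ∃ k, k < m ∧ (k + 1) * s = p.2.2 := by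
  simp [sl2W, mem_bx]

theorem sl2_opt (h : 4 * L + 2 ≤ nrm (y1 - y2)) {Zc : Finset (S d)} {m : ℕ} (s : ℕ)
    {q : ℕ × Finset (S d)} (hq : sl2Opt Zc (sl2R y1 y2 L r kT) m q) :
    ∃ z1 z2, z1 ∈ bx y1 L ∧ z2 ∈ bx y2 L ∧ q.2 = {z1, z2} ∧ q.1 < m ∧
      (r ≤ nrm (z1 - y1) ∨ r ≤ nrm (z2 - y2) ∨ kT ≤ q.1) ∧
      sl2H y1 y2 L s q = (z1 - y1, z2 - y2, (q.1 + 1) * s) := by
  obtain ⟨k, Yt⟩ := q
  obtain ⟨hk, Cd, -, hYt⟩ := hq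
  obtain ⟨z1, z2, -, a2, -, a4, a5, rfl⟩ := sl2R_mem.1 hYt
  exact ⟨z1, z2, a2, a4, rfl, hk, a5, sl2H_pair h a2 a4 s k⟩

theorem sl2_hW (h : 4 * L + 2 ≤ nrm (y1 - y2)) {Zc : Finset (S d)} {m : ℕ} (s : ℕ)
    (q : ℕ × Finset (S d)) (hq : sl2Opt Zc (sl2R y1 y2 L r kT) m q) :
    sl2H y1 y2 L s q ∈ sl2W d L s m := by
  obtain ⟨z1, z2, a1, a2, -, a4, -, a6⟩ := sl2_opt h s hq
  rw [a6, sl2W_mem]
  exact ⟨mem_bx.1 a1, mem_bx.1 a2, q.1, a4, rfl⟩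

theorem sl2_bx1 (y1 y2 : S d) (L : ℕ) : bx y1 L ⊆ wZ {y1, y2} L := fun z hz =>
  Finset.mem_biUnion.2 ⟨y1, by simp, hz⟩

theorem sl2_bx2 (y1 y2 : S d) (L : ℕ) : bx y2 L ⊆ wZ {y1, y2} L := fun z hz =>
  Finset.mem_biUnion.2 ⟨y2, by simp, hz⟩

/-- Invariance of the law under separate signed permutations of the two displacements. -/
theorem sl2_sym (hI : S_ISORUN d F) {pc : ℝ} {C : Ty} {l m : ℕ}
    (h : 4 * C.2 + 2 ≤ nrm (y1 - y2)) (hD : 10 * DD F n ≤ C.2) (s : ℕ)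
    (e1 e2 : Equiv.Perm (Fin d)) (g1 g2 : Fin d → Bool) (f : S d × S d × ℕ → ℝ) :
    (sl2Law F B K n l pc C {y1, y2} (sl2R y1 y2 C.2 r kT) m (sl2W d C.2 s m)
      (sl2H y1 y2 C.2 s)).E f =
    (sl2Law F B K n l pc C {y1, y2} (sl2R y1 y2 C.2 r kT) m (sl2W d C.2 s m)
      (sl2H y1 y2 C.2 s)).E fun p => f (sp e1 g1 p.1, sp e2 g2 p.2.1, p.2.2) := by
  obtain ⟨ψ, dm, p1, p2, p3, p4⟩ := exists_iso_pair h e1 e2 g1 g2
  have b1 : ∀ z ∈ bx y1 C.2, ψ z - y1 = sp e1 g1 (z - y1) := fun z hz => by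
    rw [p1 z (bx_mono _ (by omega) hz), add_sub_cancel_left]
  have b2 : ∀ z ∈ bx y2 C.2, ψ z - y2 = sp e2 g2 (z - y2) := fun z hz => by
    rw [p2 z (bx_mono _ (by omega) hz), add_sub_cancel_left]
  have f1 : ψ y1 = y1 := by
    rw [← sub_eq_zero, ← nrm_eq_zero, b1 _ (self_mem_bx _ _), nrm_sp, sub_self, nrm_zero]
  have f2 : ψ y2 = y2 := by
    rw [← sub_eq_zero, ← nrm_eq_zero, b2 _ (self_mem_bx _ _), nrm_sp, sub_self, nrm_zero]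
  have i1 := p4 y1 C.2 ((sl2_bx1 y1 y2 _).trans (wZ_subset_wQ _ _))
  have i2 := p4 y2 C.2 ((sl2_bx2 y1 y2 _).trans (wZ_subset_wQ _ _))
  rw [f1] at i1
  rw [f2] at i2
  have m1 : ∀ z, ψ z ∈ bx y1 C.2 ↔ z ∈ bx y1 C.2 := fun z => by
    conv_lhs => rw [← i1]
    exact ψ.injective.mem_finset_image
  have m2 : ∀ z, ψ z ∈ bx y2 C.2 ↔ z ∈ bx y2 C.2 := fun z => by
    conv_lhs => rw [← i2]
    exact ψ.injective.mem_finset_image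
  refine sl2Law_sym (ψ := ψ) (s := fun p => (sp e1 g1 p.1, sp e2 g2 p.2.1, p.2.2)) (sl2_hW h s)
    (fun v hv => hI B K n l pc C _ _ m ψ dm v p3 ?_ p4 (by omega) (sl2R_ok h hD) ?_ hv)
    (fun q hq => ?_) f
  · simp [f1, f2]
  · intro k Cd _
    ext Yt
    simp only [Finset.mem_image, sl2R_mem]
    constructor
    · rintro ⟨_, _, ⟨z1, a1, rfl⟩, a2, ⟨z2, a3, rfl⟩, a4, a5, rfl⟩
      rw [m1] at a2
      rw [m2] at a4
      rw [b1 _ a2, b2 _ a4, nrm_sp, nrm_sp] at a5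
      exact ⟨_, ⟨z1, z2, a1, a2, a3, a4, a5, rfl⟩, by simp⟩
    · rintro ⟨_, ⟨z1, z2, a1, a2, a3, a4, a5, rfl⟩, rfl⟩
      refine ⟨ψ z1, ψ z2, ⟨z1, a1, rfl⟩, (m1 _).2 a2, ⟨z2, a3, rfl⟩, (m2 _).2 a4, ?_, by simp⟩
      rwa [b1 _ a2, b2 _ a4, nrm_sp, nrm_sp]
  · obtain ⟨z1, z2, a1, a2, a3, a4, -, a6⟩ := sl2_opt h s hq
    rw [a6, a3, Finset.image_insert, Finset.image_singleton,
      sl2H_pair h ((m1 _).2 a1) ((m2 _).2 a2), b1 _ a1, b2 _ a2, sl2W_mem]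
    exact ⟨rfl, by rw [nrm_sp]; exact mem_bx.1 a1, by rw [nrm_sp]; exact mem_bx.1 a2, q.1, a4, rfl⟩

section ce
variable {I : Tj d} {m : ℕ}

theorem sl2_ce2 {γ1 γ2 : ℕ → S d} {k1 u : ℕ} {P : ℕ × Finset (S d) → Prop}
    (h1 : sl2Ch (VV n) (fun t => I t ∩ bx y1 L) u γ1)
    (h2 : sl2Ch (VV n) (fun t => I t ∩ bx y2 L) u γ2) (hn : B.n0 ≤ u) (hm : k1 + mm F n ≤ m)
    (hu : ∀ k, k < k1 + mm F n → B.n0 + (k * sb F B n (ls n) + s1 F n) ≤ u)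
    (hP : ∀ k, k < k1 + mm F n → ∀ Yt, P (k, Yt))
    (hO : ∀ k, k1 ≤ k → k < k1 + mm F n →
      r ≤ nrm (γ1 (B.n0 + (k * sb F B n (ls n) + s1 F n)) - y1) ∨
      r ≤ nrm (γ2 (B.n0 + (k * sb F B n (ls n) + s1 F n)) - y2) ∨ kT ≤ k) :
    (∀ y ∈ ({y1, y2} : Finset (S d)), ∃ x ∈ I B.n0, x ∈ bx y L) ∧
      CE F B n (wZ {y1, y2} L) (sl2R y1 y2 L r kT) m P fun t => I (B.n0 + t) := by
  refine ⟨?_, sl2_ce (h1.mono le_rfl fun t => Finset.inter_subset_inter_left (sl2_bx1 _ _ _))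
    (h2.mono le_rfl fun t => Finset.inter_subset_inter_left (sl2_bx2 _ _ _)) hm hu
    (fun k hk _ Yt _ => hP k hk Yt) fun k a b Cd c1 c2 => ⟨_, sl2R_mem.2 ⟨_, _, c1,
      (Finset.mem_inter.1 (h1.1 _ (hu k b))).2, c2, (Finset.mem_inter.1 (h2.1 _ (hu k b))).2,
      hO k a b, rfl⟩⟩⟩
  simp only [Finset.mem_insert, Finset.mem_singleton, forall_eq_or_imp, forall_eq]
  exact ⟨⟨_, (Finset.mem_inter.1 (h1.1 _ hn)).1, (Finset.mem_inter.1 (h1.1 _ hn)).2⟩,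
    _, (Finset.mem_inter.1 (h2.1 _ hn)).1, (Finset.mem_inter.1 (h2.1 _ hn)).2⟩

theorem sl2_back {V u t R D : ℕ} {J : Tj d} {γ : ℕ → S d} {y : S d} (h : sl2Ch V J u γ)
    (ht : t ≤ u) (hD : u ≤ t + D) (hR : R ≤ nrm (γ u - y)) (hr : r + V * D ≤ R) :
    r ≤ nrm (γ t - y) := by
  have a := nrm_tri (γ u) (γ t) y
  have b := (h.2 t u).trans (Nat.mul_le_mul_left V (show max t u - min t u ≤ D by omega))
  omega

/-- One of the two chains ends far from its centre. -/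
theorem sl2_ce_far {γ1 γ2 : ℕ → S d} {u R : ℕ} {P : ℕ × Finset (S d) → Prop}
    (h1 : sl2Ch (VV n) (fun t => I t ∩ bx y1 L) u γ1)
    (h2 : sl2Ch (VV n) (fun t => I t ∩ bx y2 L) u γ2)
    (hf : R ≤ nrm (γ1 u - y1) ∨ R ≤ nrm (γ2 u - y2)) (hR : R ≤ VV n * u)
    (hr : r + VV n * RR F B n ≤ R) (hr2 : VV n * (B.n0 + RR F B n) ≤ R) (hV : 1 ≤ VV n)
    (hs : 1 ≤ s1 F n) (hm : u ≤ B.n0 + m * sb F B n (ls n))
    (hP : (∀ q, P q) ∨ ∃ T, u ≤ B.n0 + T ∧ ∀ q, q.1 < T / sb F B n (ls n) + 1 → P q) :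
    (∀ y ∈ ({y1, y2} : Finset (S d)), ∃ x ∈ I B.n0, x ∈ bx y L) ∧
      CE F B n (wZ {y1, y2} L) (sl2R y1 y2 L r kT) m P fun t => I (B.n0 + t) := by
  have hu : B.n0 + RR F B n ≤ u := Nat.le_of_mul_le_mul_left (hr2.trans hR) hV
  have hle : s1 F n ≤ sb F B n (ls n) := Nat.le_add_right _ _
  obtain ⟨k1, a1, a2, a3, a4⟩ := sl2_blocks (M := mm F n) (hs.trans hle) hs hle hu
  refine sl2_ce2 h1 h2 (by omega) (a4 m hm) a1 (fun k hk Yt => ?_) fun k b1 b2 => ?_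
  · rcases hP with hP | ⟨T, hT, hP⟩
    · exact hP _
    · exact hP _ (hk.trans_le (a3 T hT))
  · rcases hf with hf | hf
    · exact .inl (sl2_back h1 (a1 k b2) (a2 k b1 b2) hf hr)
    · exact .inr (.inl (sl2_back h2 (a1 k b2) (a2 k b1 b2) hf hr))

/-- Both worlds are good: the chain event holds. -/
theorem sl2_ce_all {R : ℕ} (hr : r + VV n * RR F B n ≤ R)
    (hr2 : VV n * (B.n0 + RR F B n) ≤ R) (hV : 1 ≤ VV n) (hs : 1 ≤ s1 F n)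
    (hk : kT + mm F n ≤ m)
    (g1 : sl2Top (VV n) (B.n0 + m * sb F B n (ls n)) (fun t => I t ∩ bx y1 L) ∨
      sl2Far (VV n) R (B.n0 + m * sb F B n (ls n)) y1 fun t => I t ∩ bx y1 L)
    (g2 : sl2Top (VV n) (B.n0 + m * sb F B n (ls n)) (fun t => I t ∩ bx y2 L) ∨
      sl2Far (VV n) R (B.n0 + m * sb F B n (ls n)) y2 fun t => I t ∩ bx y2 L) :
    (∀ y ∈ ({y1, y2} : Finset (S d)), ∃ x ∈ I B.n0, x ∈ bx y L) ∧
      CE F B n (wZ {y1, y2} L) (sl2R y1 y2 L r kT) m (fun _ => True) fun t => I (B.n0 + t) := by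
  rcases g1 with ⟨γ1, c1⟩ | ⟨u1, γ1, a1, c1, f1, e1⟩ <;>
    rcases g2 with ⟨γ2, c2⟩ | ⟨u2, γ2, a2, c2, f2, e2⟩
  · refine sl2_ce2 (k1 := kT) c1 c2 (Nat.le_add_right _ _) hk (fun k h => ?_) (fun _ _ _ => trivial)
      fun k h _ => .inr (.inr h)
    have hle : s1 F n ≤ sb F B n (ls n) := Nat.le_add_right _ _
    have : (k + 1) * sb F B n (ls n) ≤ m * sb F B n (ls n) := Nat.mul_le_mul_right _ (by omega)
    rw [Nat.succ_mul] at this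
    omega
  · exact sl2_ce_far (c1.mono a2 fun _ => subset_rfl) c2 (.inr f2) e2 hr hr2 hV hs a2
      (.inl fun _ => trivial)
  · exact sl2_ce_far c1 (c2.mono a1 fun _ => subset_rfl) (.inl f1) e1 hr hr2 hV hs a1
      (.inl fun _ => trivial)
  · rcases le_total u1 u2 with h | h
    · exact sl2_ce_far c1 (c2.mono h fun _ => subset_rfl) (.inl f1) e1 hr hr2 hV hs a1
        (.inl fun _ => trivial)
    · exact sl2_ce_far (c1.mono h fun _ => subset_rfl) c2 (.inr f2) e2 hr hr2 hV hs a2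
        (.inl fun _ => trivial)

/-- The first world goes far early: the first success comes early. -/
theorem sl2_ce_early {R R' T : ℕ} (hr : r + VV n * RR F B n ≤ R)
    (hr2 : VV n * (B.n0 + RR F B n) ≤ R) (hr' : r + VV n * RR F B n ≤ R')
    (hr2' : VV n * (B.n0 + RR F B n) ≤ R') (hV : 1 ≤ VV n) (hs : 1 ≤ s1 F n)
    (hT : T ≤ m * sb F B n (ls n))
    (g1 : sl2Far (VV n) R' (B.n0 + T) y1 fun t => I t ∩ bx y1 L)
    (g2 : sl2Top (VV n) (B.n0 + m * sb F B n (ls n)) (fun t => I t ∩ bx y2 L) ∨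
      sl2Far (VV n) R (B.n0 + m * sb F B n (ls n)) y2 fun t => I t ∩ bx y2 L) :
    (∀ y ∈ ({y1, y2} : Finset (S d)), ∃ x ∈ I B.n0, x ∈ bx y L) ∧
      CE F B n (wZ {y1, y2} L) (sl2R y1 y2 L r kT) m (fun q => q.1 < T / sb F B n (ls n) + 1)
        fun t => I (B.n0 + t) := by
  obtain ⟨u1, γ1, a1, c1, f1, e1⟩ := g1
  rcases g2 with ⟨γ2, c2⟩ | ⟨u2, γ2, a2, c2, f2, e2⟩
  · exact sl2_ce_far c1 (c2.mono (by omega) fun _ => subset_rfl) (.inl f1) e1 hr' hr2' hV hs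
      (by omega) (.inr ⟨T, a1, fun _ h => h⟩)
  · rcases le_total u1 u2 with h | h
    · exact sl2_ce_far c1 (c2.mono h fun _ => subset_rfl) (.inl f1) e1 hr' hr2' hV hs (by omega)
        (.inr ⟨T, a1, fun _ h => h⟩)
    · exact sl2_ce_far (c1.mono h fun _ => subset_rfl) c2 (.inr f2) e2 hr hr2 hV hs a2
        (.inr ⟨T, h.trans a1, fun _ h => h⟩)

end ce

end Pool.Agent.Lib.MP_dd0771_pr.Sc
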