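import Pool.Agent.Lib.MP_dd0771_pr.Sc.Kit

/-! The law of the first success of the strong machine in a world. -/

open Filter

namespace Pool.Agent.Lib.MP_dd0771_pr.Sc

variable {d : ℕ} {α : Type}

/-- `p` is an option of the rule among the first `m` blocks. -/
def slpOpt (Zc : Finset (S d)) (O : Rule d) (m : ℕ) (p : ℕ × Finset (S d)) : Prop :=
  p.1 < m ∧ ∃ Cd ⊆ Zc, p.2 ∈ O p.1 Cd

/-- Normalised expected value of the first success. -/
noncomputable def slpE (F : Fr) (B : Bs) (K n : ℕ) (pc : ℝ) (C : Ty) (Y : Finset (S d))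
    (O : Rule d) (m : ℕ) (v : ℕ × Finset (S d) → ℝ) : ℝ :=
  wEv F.toMd K B.n0 C Y (fun σ => rv F B K n (ls n) pc (wMc K C Y O) m σ v) / B.thp ^ Y.card

/-- The image under `φ` of the normalised law of the first success. -/
noncomputable def slpLaw (F : Fr) (B : Bs) (K n : ℕ) (pc : ℝ) (C : Ty) (Y : Finset (S d))
    (O : Rule d) (m : ℕ) (W : Finset α) (φ : ℕ × Finset (S d) → α) : Law α :=
  ⟨W, fun q => slpE F B K n pc C Y O m fun p => ind (φ p = q)⟩

variable {F : Fr} {B : Bs} {K n : ℕ} {pc : ℝ} {C : Ty} {Y : Finset (S d)} {O : Rule d} {m : ℕ}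
  {v v' : ℕ × Finset (S d) → ℝ} {W : Finset α} {φ : ℕ × Finset (S d) → α}

theorem slp_bdd_elim (h : Bdd v) : Bdd fun o : Option (ℕ × Finset (S d)) => o.elim 0 v := by
  obtain ⟨M, hM⟩ := h
  refine ⟨M, fun o => ?_⟩
  cases o with
  | none => simpa using (abs_nonneg _).trans (hM (0, ∅))
  | some p => exact hM p

theorem slp_bdd_rv (h : Bdd v) (l : ℕ) (H : Mc d) : Bdd fun σ => rv F B K n l pc H m σ v :=
  Bdd.ex (f := fun _ (o : Option (ℕ × Finset (S d))) => o.elim 0 v)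
    ((slp_bdd_elim h).comp Prod.snd) _

theorem slp_opt {l : ℕ} {σ : St d} {p : ℕ × Finset (S d)}
    (h : some p ∈ (run F B K n l pc (wMc K C Y O) m 0 σ).support) : slpOpt (wZ Y C.2) O m p := by
  obtain ⟨-, h2, h3⟩ := run_support B n l pc _ m 0 σ h
  exact ⟨by simpa using h2, h3⟩

theorem slpE_congr (h : ∀ p, slpOpt (wZ Y C.2) O m p → v p = v' p) :
    slpE F B K n pc C Y O m v = slpE F B K n pc C Y O m v' := by
  unfold slpE
  congr 2
  funext σ
  refine ex_congr fun o ho => ?_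
  cases o with
  | none => rfl
  | some p => exact h p (slp_opt ho)

theorem slpE_mono (hB : B.Ok F) (hv : Bdd v) (hv' : Bdd v')
    (h : ∀ p, slpOpt (wZ Y C.2) O m p → v p ≤ v' p) :
    slpE F B K n pc C Y O m v ≤ slpE F B K n pc C Y O m v' := by
  refine div_le_div_of_nonneg_right (wEv_mono (slp_bdd_rv hv _ _) (slp_bdd_rv hv' _ _)
    fun σ _ => ex_mono (slp_bdd_elim hv) (slp_bdd_elim hv') fun o ho => ?_)
    (pow_pos (thp_pos hB) _).le
  cases o with
  | none => exact le_rfl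
  | some p => exact h p (slp_opt ho)

theorem slpE_nonneg (hB : B.Ok F) (h : ∀ p, 0 ≤ v p) : 0 ≤ slpE F B K n pc C Y O m v := by
  refine div_nonneg (wEv_nonneg fun σ => ex_nonneg fun o _ => ?_) (pow_pos (thp_pos hB) _).le
  cases o with
  | none => exact le_rfl
  | some p => exact h p

theorem slpE_mul (c : ℝ) (v : ℕ × Finset (S d) → ℝ) :
    slpE F B K n pc C Y O m (fun p => c * v p) = c * slpE F B K n pc C Y O m v := by
  unfold slpE
  rw [← mul_div_assoc, ← wEv_mul]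
  congr 2
  funext σ
  rw [rv, rv, ← ex_mul_left]
  refine ex_congr fun o _ => ?_
  cases o <;> simp

theorem slpE_add (hv : Bdd v) (hv' : Bdd v') :
    slpE F B K n pc C Y O m (fun p => v p + v' p) =
      slpE F B K n pc C Y O m v + slpE F B K n pc C Y O m v' := by
  unfold slpE
  rw [← add_div, ← wEv_add (slp_bdd_rv hv _ _) (slp_bdd_rv hv' _ _)]
  congr 2
  funext σ
  rw [rv, rv, rv, ← ex_add _ (slp_bdd_elim hv) (slp_bdd_elim hv')]
  refine ex_congr fun o _ => ?_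
  cases o <;> simp

theorem slp_bdd_sum {β γ : Type} (s : Finset β) {f : β → γ → ℝ} (hf : ∀ b, Bdd (f b)) :
    Bdd fun p => ∑ b ∈ s, f b p := by
  classical
  induction s using Finset.induction_on with
  | empty => simpa using Bdd.const 0
  | insert b s hb ih => simpa only [Finset.sum_insert hb] using (hf b).add ih

theorem slpE_sum {β : Type} (s : Finset β) {f : β → ℕ × Finset (S d) → ℝ} (hf : ∀ b, Bdd (f b)) :
    slpE F B K n pc C Y O m (fun p => ∑ b ∈ s, f b p) =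
      ∑ b ∈ s, slpE F B K n pc C Y O m (f b) := by
  classical
  induction s using Finset.induction_on with
  | empty =>
    simpa using slpE_mul (F := F) (B := B) (K := K) (n := n) (pc := pc) (C := C)
      (Y := Y) (O := O) (m := m) 0 fun _ => 0
  | insert b s hb ih =>
    simp only [Finset.sum_insert hb]
    rw [slpE_add (hf b) (slp_bdd_sum s hf), ih]

theorem slp_sum_ind {a : α} (ha : a ∈ W) (f : α → ℝ) : ∑ q ∈ W, f q * ind (a = q) = f a := by
  rw [Finset.sum_eq_single_of_mem a ha fun q _ hq => by rw [ind_neg (Ne.symm hq), mul_zero],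
    ind_pos rfl, mul_one]

theorem slpLaw_E' (f : α → ℝ) : (slpLaw F B K n pc C Y O m W φ).E f =
    slpE F B K n pc C Y O m fun p => ∑ q ∈ W, f q * ind (φ p = q) := by
  rw [slpE_sum W fun q => (Bdd.const (f q)).mul (Bdd.ind _)]
  exact Finset.sum_congr rfl fun q _ => by rw [slpE_mul, mul_comm]; rfl

theorem slpLaw_E (hW : ∀ p, slpOpt (wZ Y C.2) O m p → φ p ∈ W) (f : α → ℝ) :
    (slpLaw F B K n pc C Y O m W φ).E f = slpE F B K n pc C Y O m fun p => f (φ p) := by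
  rw [slpLaw_E']
  exact slpE_congr fun p hp => slp_sum_ind (hW p hp) f

theorem slpLaw_nonneg (hB : B.Ok F) (q : α) : 0 ≤ (slpLaw F B K n pc C Y O m W φ).k q :=
  slpE_nonneg hB fun _ => ind_nonneg _

theorem slpLaw_mono (hB : B.Ok F) {f g : α → ℝ} (h : ∀ q ∈ W, f q ≤ g q) :
    (slpLaw F B K n pc C Y O m W φ).E f ≤ (slpLaw F B K n pc C Y O m W φ).E g :=
  Finset.sum_le_sum fun q hq => mul_le_mul_of_nonneg_left (h q hq) (slpLaw_nonneg hB q)

/-- The general step in terms of the law of the first success. -/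
theorem slp_gen (hGEN : S_GEN d F) : EvB d F fun B n K => ∀ pc (M : Amb d) (Φ : Nd d → ℝ) te ub vb
    (C : Ty) Y O m t (W : Finset α) (φ : ℕ × Finset (S d) → α) (ty : α → Ty)
    (kp : Finset (S d) → Finset (S d)) (v : α → ℝ), TyOk F B n pc C → M.Ok F B K n pc →
    Mart F.toMd K M Φ te ub → M.u0 ≤ t → t + m * sb F B n (ls n) ≤ te →
    m * sb F B n (ls n) ≤ 2 ^ (n + 1) → Adm M Y C.2 → RuleOk (DD F n) O → 0 ≤ vb → vb ≤ ub →
    (∀ p, slpOpt (wZ Y C.2) O m p → φ p ∈ W) → (∀ q ∈ W, v q ≤ vb) →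
    (∀ p, slpOpt (wZ Y C.2) O m p → 0 < v (φ p) → kp p.2 ⊆ p.2 ∧ Apart (kp p.2) (ty (φ p)).2 ∧
      TyOk F B n pc (ty (φ p)) ∧ wZ (kp p.2) (ty (φ p)).2 ⊆ M.Z ∧
      Val F B K n (ls n) M Φ (ty (φ p)) (kp p.2) (t + (p.1 + 1) * sb F B n (ls n)) (v (φ p))) →
    Val F B K n (ls n) M Φ C Y t ((slpLaw F B K n pc C Y O m W φ).E v - 2 * B.eps * vb) := by
  classical
  intro B hB
  filter_upwards [hGEN B hB, ls_le, er_small hB.2.2.2.2.2.1] with n h1 h2 h3 K hK pc M Φ te ub vb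
    C Y O m t W φ ty kp v a1 a2 a3 a4 a5 a6 a7 a8 a9 a10 hW hv hc
  have hb : ∀ p : ℕ × Finset (S d), 0 ≤ (if φ p ∈ W then max 0 (v (φ p)) else 0) ∧
      (if φ p ∈ W then max 0 (v (φ p)) else 0) ≤ vb := fun p => by
    split_ifs with h
    exacts [⟨le_max_left _ _, max_le a9 (hv _ h)⟩, ⟨le_rfl, a9⟩]
  refine (h1 K hK (ls n) (ls n) pc M Φ te ub vb vb C Y O m t (fun p => ty (φ p)) kp _ le_rfl h2.2
    a1 a2 a3 a4 a5 a6 a7 a8 le_rfl a10 hb (fun σ => (rv_bounds B n _ pc _ m σ hb).2)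
    fun k hk Cd hCd Yt hY hp => ?_).mono ?_
  · have ho : slpOpt (wZ Y C.2) O m (k, Yt) := ⟨hk, Cd, hCd, hY⟩
    simp only [if_pos (hW _ ho)] at hp ⊢
    have h0 : 0 < v (φ (k, Yt)) := by simpa using hp
    rw [max_eq_right h0.le]
    exact hc _ ho h0
  · have e : (slpLaw F B K n pc C Y O m W φ).E (fun q => max 0 (v q)) =
        slpE F B K n pc C Y O m fun p => if φ p ∈ W then max 0 (v (φ p)) else 0 := by
      rw [slpLaw_E hW]
      exact slpE_congr fun p hp => by rw [if_pos (hW p hp)]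
    have e2 := slpLaw_mono (K := K) (n := n) (pc := pc) (C := C) (Y := Y) (O := O) (m := m)
      (W := W) (φ := φ) hB (f := v) (g := fun q => max 0 (v q)) fun q _ => le_max_right _ _
    rw [e, slpE] at e2
    nlinarith [mul_le_mul_of_nonneg_right h3.2.1 a9, mul_le_mul_of_nonneg_right h3.2.2 a9]

/-- Transport of the law by an isomorphism that fixes the centres and respects the rule. -/
theorem slp_iso (hI : S_ISORUN d F) {ψ : S d ≃ S d} {dm : S d → Dir d ≃ Dir d}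
    (h1 : Iso ψ dm (wQ Y C.2)) (h2 : ∀ y ∈ Y, ψ y = y)
    (h3 : ∀ z r, bx z r ⊆ wQ Y C.2 → (bx z r).image ψ = bx (ψ z) r) (h4 : 4 * DD F n ≤ C.2)
    (h5 : RuleOk (DD F n) O)
    (h6 : ∀ k, ∀ Cd ⊆ wZ Y C.2, O k (Cd.image ψ) = (O k Cd).image fun Yt => Yt.image ψ)
    (hW : ∀ p, slpOpt (wZ Y C.2) O m p → φ p ∈ W) {f g : α → ℝ}
    (h : ∀ p, slpOpt (wZ Y C.2) O m p → f (φ (p.1, p.2.image ψ)) = g (φ p)) :
    (slpLaw F B K n pc C Y O m W φ).E f = (slpLaw F B K n pc C Y O m W φ).E g := by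
  rw [slpLaw_E hW g, slpLaw_E', slpE, hI B K n (ls n) pc C Y O m ψ dm _ h1 h2 h3 h4 h5 h6
    (slp_bdd_sum W fun q => (Bdd.const (f q)).mul (Bdd.ind _))]
  refine slpE_congr fun p hp => ?_
  rw [← h p hp]
  refine slp_sum_ind (hW _ ?_) f
  obtain ⟨hk, Cd, hCd, hY⟩ := hp
  refine ⟨hk, Cd.image ψ, fun z hz => ?_, by rw [h6 _ _ hCd]; exact Finset.mem_image_of_mem _ hY⟩
  obtain ⟨x, hx, rfl⟩ := Finset.mem_image.1 hz
  obtain ⟨y, hy, hxy⟩ := Finset.mem_biUnion.1 (hCd hx)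
  refine Finset.mem_biUnion.2 ⟨y, hy, ?_⟩
  rw [← h2 y hy, ← h3 y _ ((Finset.subset_biUnion_of_mem (fun y => bx y C.2) hy).trans
    (wZ_subset_wQ Y _))]
  exact Finset.mem_image_of_mem _ hxy

theorem slp_tr (hS : S_SYM d F) (y : S d) (T : ℕ) (E : Tj d → Prop) :
    cP F.toMd K C y T E = cP F.toMd K C 0 T fun I => E fun u => (I u).image fun x => y + x := by
  have e : ∀ x : S d, sp 1 (fun _ => true) (x - 0) = x := fun x => by
    funext i
    simp [sp]
  have := hS K C.1 0 y 1 (fun _ => true) (2 * C.2) C.2 T (fun I => ind (E I)) (by omega)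
  simp only [e] at this
  exact this

theorem slp_alv (hS : S_SYM d F) (y : S d) {t T : ℕ} (h : t ≤ T) :
    cP F.toMd K C y T (fun I => (I t).Nonempty) = alv d F.toMd K C t := by
  rw [cP, wP_horizon h fun I J e hI => by rwa [← e t le_rfl], ← cP, slp_tr hS]
  simp only [Finset.image_nonempty]
  rfl

theorem slp_reach (hS : S_SYM d F) (y : S d) {n0 r t T : ℕ} (h : n0 + t ≤ T) :
    cP F.toMd K C y T (fun I => ∃ u, n0 ≤ u ∧ u ≤ n0 + t ∧ ∃ x ∈ I u, r ≤ nrm (x - y)) =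
      reach d F.toMd K C n0 r t := by
  rw [cP, wP_horizon h fun I J e ⟨u, h1, h2, h3⟩ => ⟨u, h1, h2, by rwa [← e u h2]⟩, ← cP,
    slp_tr hS]
  simp only [Finset.exists_mem_image, add_sub_cancel_left]
  rfl

/-- Two slow chains give the chain event. -/
theorem slp_ce {I : Tj d} {Zc : Finset (S d)} {k1 t n0 : ℕ} (γ1 γ2 : ℕ → S d)
    (h1 : ∀ u, u ≤ t → γ1 u ∈ I u) (h2 : ∀ u, u ≤ t → γ2 u ∈ I u)
    (s1' : ∀ u u', nrm (γ1 u' - γ1 u) ≤ VV n * (max u u' - min u u'))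
    (s2' : ∀ u u', nrm (γ2 u' - γ2 u) ≤ VV n * (max u u' - min u u'))
    (hk : k1 + mm F n ≤ m) (ht : n0 + (k1 + mm F n) * sb F B n (ls n) ≤ t)
    {P : ℕ × Finset (S d) → Prop}
    (hP : ∀ k, k < k1 + mm F n → ∀ Cd ⊆ I (n0 + (k * sb F B n (ls n) + s1 F n)) ∩ Zc,
      ∀ Yt ∈ O k Cd, P (k, Yt))
    (hO : ∀ k, k1 ≤ k → k < k1 + mm F n →
      γ1 (n0 + (k * sb F B n (ls n) + s1 F n)) ∈ Zc ∧
      γ2 (n0 + (k * sb F B n (ls n) + s1 F n)) ∈ Zc ∧
      ∀ Cd ⊆ Zc, γ1 (n0 + (k * sb F B n (ls n) + s1 F n)) ∈ Cd →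
        γ2 (n0 + (k * sb F B n (ls n) + s1 F n)) ∈ Cd → (O k Cd).Nonempty) :
    CE F B n Zc O m P fun u => I (n0 + u) := by
  have hs : s1 F n ≤ sb F B n (ls n) := Nat.le_add_right _ _
  have hu : ∀ k, k < k1 + mm F n → n0 + (k * sb F B n (ls n) + s1 F n) ≤ t := fun k hk => by
    have := Nat.mul_le_mul_right (sb F B n (ls n)) (Nat.succ_le_of_lt hk)
    rw [Nat.succ_mul] at this
    omega
  have e : ∀ k, max (n0 + (k * sb F B n (ls n) + s1 F n))
      (n0 + ((k + 1) * sb F B n (ls n) + s1 F n)) - min (n0 + (k * sb F B n (ls n) + s1 F n))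
      (n0 + ((k + 1) * sb F B n (ls n) + s1 F n)) = sb F B n (ls n) := fun k => by
    rw [Nat.succ_mul]
    omega
  refine ⟨k1, hk, hP, fun k => γ1 (n0 + (k * sb F B n (ls n) + s1 F n)),
    fun k => γ2 (n0 + (k * sb F B n (ls n) + s1 F n)), fun k a1 a2 =>
      ⟨Finset.mem_inter.2 ⟨h1 _ (hu k a2), (hO k a1 a2).1⟩,
        Finset.mem_inter.2 ⟨h2 _ (hu k a2), (hO k a1 a2).2.1⟩,
        (s1' _ _).trans_eq (by rw [e]), (s2' _ _).trans_eq (by rw [e])⟩, ?_⟩
  rw [Finset.filter_true_of_mem fun k hk Cd hCd => (hO k (Finset.mem_Ico.1 hk).1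
    (Finset.mem_Ico.1 hk).2).2.2 Cd (hCd.trans Finset.inter_subset_right), Nat.card_Ico]
  omega

end Pool.Agent.Lib.MP_dd0771_pr.Sc
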