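import Pool.Agent.Lib.MP_dd0771_pr.Sc.SlpA

/-! The steering rule and its deterministic properties. -/

open Filter

namespace Pool.Agent.Lib.MP_dd0771_pr.Sc

variable {d : ℕ}

/-- Pairs of candidates that are separated in the coordinate `i`. -/
def slsP (i : Fin d) (Ds : ℕ) (Cd : Finset (S d)) : Finset (Finset (S d)) :=
  ((Cd ×ˢ Cd).filter fun p => (Ds : ℤ) ≤ |p.1 i - p.2 i|).image fun p => {p.1, p.2}

/-- Separated pairs if there are any, else far candidates, and all candidates from block `k0` on. -/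
def slsO (y : S d) (i : Fin d) (L Ds k0 : ℕ) : Rule d := fun k Cd =>
  if (slsP i Ds Cd).Nonempty then slsP i Ds Cd
  else (Cd.filter fun z => k0 ≤ k ∨ 3 * L ≤ 4 * nrm (z - y)).image fun z => {z}

/-- The site with the least value of `σ * z i`. -/
noncomputable def slsS (σ : ℤ) (i : Fin d) (Yt : Finset (S d)) : S d :=
  if h : Yt.Nonempty then (Finset.exists_min_image Yt (fun z => σ * z i) h).choose else 0

variable {y : S d} {i : Fin d} {L Ds k0 k : ℕ} {Cd Yt : Finset (S d)} {σ : ℤ}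

theorem sls_memP : Yt ∈ slsP i Ds Cd ↔
    ∃ z ∈ Cd, ∃ z' ∈ Cd, (Ds : ℤ) ≤ |z i - z' i| ∧ Yt = {z, z'} := by
  simp only [slsP, Finset.mem_image, Finset.mem_filter, Finset.mem_product, Prod.exists]
  exact ⟨fun ⟨a, b, ⟨⟨p, q⟩, r⟩, s⟩ => ⟨a, p, b, q, r, s.symm⟩,
    fun ⟨a, p, b, q, r, s⟩ => ⟨a, b, ⟨⟨p, q⟩, r⟩, s.symm⟩⟩

theorem sls_pair {z z' : S d} (h : σ * z i < σ * z' i) : slsS σ i {z, z'} = z := by
  have e : ({z, z'} : Finset (S d)).Nonempty := Finset.insert_nonempty _ _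
  obtain ⟨a, b⟩ := (Finset.exists_min_image {z, z'} (fun z => σ * z i) e).choose_spec
  rw [slsS, dif_pos e]
  refine (Finset.mem_insert.1 a).resolve_right fun c => ?_
  have := b z (Finset.mem_insert_self _ _)
  rw [Finset.mem_singleton.1 c] at this
  exact absurd h (not_lt.2 this)

theorem sls_single (z : S d) : slsS σ i {z} = z := by
  have e : ({z} : Finset (S d)).Nonempty := Finset.singleton_nonempty _
  rw [slsS, dif_pos e]
  exact Finset.mem_singleton.1 (Finset.exists_min_image {z} (fun z => σ * z i) e).choose_spec.1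

theorem sls_cases (hσ : σ = 1 ∨ σ = -1) (h : Yt ∈ slsO y i L Ds k0 k Cd) :
    (∃ z ∈ Cd, ∃ z' ∈ Cd, σ * z i + Ds ≤ σ * z' i ∧ Yt = {z, z'}) ∨
      ∃ z ∈ Cd, (k0 ≤ k ∨ 3 * L ≤ 4 * nrm (z - y)) ∧ Yt = {z} := by
  unfold slsO at h
  split_ifs at h
  · obtain ⟨z, a, z', b, c, rfl⟩ := sls_memP.1 h
    left
    rcases le_abs.1 c with c | c <;> rcases hσ with rfl | rfl
    · exact ⟨z', b, z, a, by omega, Finset.pair_comm _ _⟩
    · exact ⟨z, a, z', b, by omega, rfl⟩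
    · exact ⟨z, a, z', b, by omega, rfl⟩
    · exact ⟨z', b, z, a, by omega, Finset.pair_comm _ _⟩
  · obtain ⟨z, a, rfl⟩ := Finset.mem_image.1 h
    exact .inr ⟨z, (Finset.mem_filter.1 a).1, (Finset.mem_filter.1 a).2, rfl⟩

theorem sls_ne {z z' : S d} (a : z ∈ Cd) (b : z' ∈ Cd)
    (h : (Ds : ℤ) ≤ |z i - z' i| ∨ k0 ≤ k ∨ 3 * L ≤ 4 * nrm (z - y)) :
    (slsO y i L Ds k0 k Cd).Nonempty := by
  unfold slsO
  split_ifs with c
  · exact c
  · exact ⟨{z}, Finset.mem_image_of_mem _ (Finset.mem_filter.2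
      ⟨a, h.resolve_left fun e => c ⟨_, sls_memP.2 ⟨z, a, z', b, e, rfl⟩⟩⟩)⟩

theorem sls_ok {D : ℕ} (h : 10 * D ≤ Ds) : RuleOk D (slsO y i L Ds k0) := by
  intro k Cd Yt hY
  rcases sls_cases (.inl rfl) hY with ⟨z, a, z', b, c, rfl⟩ | ⟨z, a, -, rfl⟩
  · refine ⟨Finset.insert_subset a (Finset.singleton_subset_iff.2 b), Finset.insert_nonempty _ _,
      Finset.card_le_two, ?_⟩
    have e1 := abs_le_nrm (z - z') i
    have e2 := nrm_sub_comm z z'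
    rw [Pi.sub_apply] at e1
    have e3 := neg_le_abs (z i - z' i)
    simp only [Finset.mem_insert, Finset.mem_singleton]
    rintro _ (rfl | rfl) _ (rfl | rfl) e <;> first | exact (e rfl).elim | omega
  · refine ⟨Finset.singleton_subset_iff.2 a, Finset.singleton_nonempty _, by simp, ?_⟩
    simp

theorem sls_mem (hσ : σ = 1 ∨ σ = -1) (hD : 0 < Ds) (h : Yt ∈ slsO y i L Ds k0 k Cd) :
    slsS σ i Yt ∈ Yt ∧ slsS σ i Yt ∈ Cd := by
  rcases sls_cases hσ h with ⟨z, a, z', b, c, rfl⟩ | ⟨z, a, -, rfl⟩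
  · rw [sls_pair (by omega)]
    exact ⟨Finset.mem_insert_self _ _, a⟩
  · rw [sls_single]
    exact ⟨Finset.mem_singleton_self _, a⟩

theorem sls_gap (hσ : σ = 1 ∨ σ = -1) (hD : 0 < Ds) (h : Yt ∈ slsO y i L Ds k0 k Cd) :
    σ * slsS σ i Yt i + Ds ≤ σ * slsS (-σ) i Yt i ∨
      slsS σ i Yt = slsS (-σ) i Yt ∧ (k0 ≤ k ∨ ∃ z ∈ Cd, 3 * L ≤ 4 * nrm (z - y)) := by
  rcases sls_cases hσ h with ⟨z, a, z', b, c, rfl⟩ | ⟨z, a, c, rfl⟩
  · rw [sls_pair (by omega), Finset.pair_comm, sls_pair (by rw [neg_mul, neg_mul]; omega)]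
    exact .inl c
  · rw [sls_single, sls_single]
    exact .inr ⟨rfl, c.imp id fun e => ⟨z, a, e⟩⟩

variable {ψ : S d ≃ S d} {ε : ℤ}

theorem sls_sel_image (hσ : σ = 1 ∨ σ = -1) (hε : ε = 1 ∨ ε = -1) (hD : 0 < Ds)
    (hψ : ∀ z z', ψ z i - ψ z' i = ε * (z i - z' i)) (h : Yt ∈ slsO y i L Ds k0 k Cd) :
    slsS σ i (Yt.image ψ) = ψ (slsS (ε * σ) i Yt) := by
  have e : ε * σ = 1 ∨ ε * σ = -1 := by
    rcases hσ with rfl | rfl <;> rcases hε with rfl | rfl <;> simp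
  rcases sls_cases e h with ⟨z, -, z', -, c, rfl⟩ | ⟨z, -, -, rfl⟩
  · rw [sls_pair (σ := ε * σ) (by omega), Finset.image_insert, Finset.image_singleton, sls_pair]
    have := hψ z z'
    rcases hσ with rfl | rfl <;> rcases hε with rfl | rfl <;> omega
  · rw [Finset.image_singleton, sls_single, sls_single]

theorem sls_O_image (hε : ε = 1 ∨ ε = -1) (hψ : ∀ z z', ψ z i - ψ z' i = ε * (z i - z' i))
    (hn : ∀ z, nrm (ψ z - y) = nrm (z - y)) (k : ℕ) (Cd : Finset (S d)) :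
    slsO y i L Ds k0 k (Cd.image ψ) = (slsO y i L Ds k0 k Cd).image fun Yt => Yt.image ψ := by
  have ab (z z') : |ψ z i - ψ z' i| = |z i - z' i| := by
    rw [hψ]
    rcases hε with rfl | rfl <;> simp [abs_sub_comm]
  have e : slsP i Ds (Cd.image ψ) = (slsP i Ds Cd).image fun Yt => Yt.image ψ := by
    ext Yt
    simp only [Finset.mem_image, sls_memP]
    constructor
    · rintro ⟨_, ⟨z, a, rfl⟩, _, ⟨z', b, rfl⟩, c, rfl⟩
      exact ⟨_, ⟨z, a, z', b, ab z z' ▸ c, rfl⟩, by simp⟩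
    · rintro ⟨_, ⟨z, a, z', b, c, rfl⟩, rfl⟩
      exact ⟨_, ⟨z, a, rfl⟩, _, ⟨z', b, rfl⟩, (ab z z').symm ▸ c, by simp⟩
  unfold slsO
  rw [e]
  simp only [Finset.image_nonempty]
  split_ifs
  · rfl
  · rw [Finset.filter_image, Finset.image_image, Finset.image_image]
    simp only [hn]
    exact Finset.image_congr fun z _ => by simp

/-- The reflection of the coordinate `j` about `y`. -/
theorem sls_refl (y : S d) (j : Fin d) : ∃ (ψ : S d ≃ S d) (dm : S d → Dir d ≃ Dir d),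
    (∀ Q, Iso ψ dm Q) ∧ (∀ z r, (bx z r).image ψ = bx (ψ z) r) ∧ ψ y = y ∧
      (∀ z, nrm (ψ z - y) = nrm (z - y)) ∧ (∀ z, ψ z j - y j = -(z j - y j)) ∧
      ∀ z i, i ≠ j → ψ z i = z i := by
  obtain ⟨ψ, dm, a, b, c⟩ := exists_iso_sp y y 1 fun i => decide (i ≠ j)
  refine ⟨ψ, dm, b, c, ?_, fun z => by rw [a, add_sub_cancel_left, nrm_sp], fun z => ?_,
    fun z i e => ?_⟩
  · funext i
    simp [a, sp]
  · simp [a, sp]
  · simp [a, sp, e]

variable {F : Fr} {B : Bs} {n : ℕ} {I : Tj d} {Z : Finset (S d)}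

theorem sls_speed {V H u : ℕ} {x : S d} (r : RegT Z {y} I) (c : Chn V H I) (hu : u ≤ H)
    (hx : x ∈ I u) : nrm (x - y) ≤ V * u := by
  obtain ⟨γ, a, b, e⟩ := c.chain hu hx
  have := e 0 u
  rwa [a, Finset.mem_singleton.1 (r.1 (b 0 (Nat.zero_le _))), Nat.zero_max, Nat.zero_min,
    Nat.sub_zero] at this

theorem sls_alive {Y0 : Finset (S d)} {u t : ℕ} (r : RegT Z Y0 I) (h : u ≤ t)
    (a : (I t).Nonempty) : (I u).Nonempty := by
  induction h with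
  | refl => exact a
  | step _ ih => exact ih (r.2.2 _ a)

/-- Two sites at time `u` give the chain event on the last blocks before `u`. -/
theorem sls_ce {O : Rule d} {H u m : ℕ} {x1 x2 : S d} {P : ℕ × Finset (S d) → Prop}
    (r : RegT Z {y} I) (c : Chn (VV n) H I) (hu : u ≤ H) (h1 : x1 ∈ I u) (h2 : x2 ∈ I u)
    (hs : 1 ≤ sb F B n (ls n)) (l1 : B.n0 + mm F n * sb F B n (ls n) ≤ u)
    (l2 : u ≤ B.n0 + m * sb F B n (ls n))
    (hP : ∀ k, B.n0 + (k + 1) * sb F B n (ls n) ≤ u →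
      ∀ Cd ⊆ I (B.n0 + (k * sb F B n (ls n) + s1 F n)), ∀ Yt ∈ O k Cd, P (k, Yt))
    (hO : ∀ k z1 z2, u < B.n0 + (k + mm F n + 1) * sb F B n (ls n) →
      nrm (x1 - z1) ≤ VV n * RR F B n → nrm (x2 - z2) ≤ VV n * RR F B n →
      ∀ Cd, z1 ∈ Cd → z2 ∈ Cd → (O k Cd).Nonempty) :
    CE F B n Z O m P fun t => I (B.n0 + t) := by
  obtain ⟨γ1, a1, b1, e1⟩ := c.chain hu h1
  obtain ⟨γ2, a2, b2, e2⟩ := c.chain hu h2
  have hs1 : s1 F n ≤ sb F B n (ls n) := Nat.le_add_right _ _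
  have hR : RR F B n = (mm F n + 2) * sb F B n (ls n) := rfl
  obtain ⟨k1, q1, q2⟩ : ∃ k1, B.n0 + (k1 + mm F n) * sb F B n (ls n) ≤ u ∧
      u < B.n0 + (k1 + mm F n + 1) * sb F B n (ls n) := by
    have w1 : mm F n ≤ (u - B.n0) / sb F B n (ls n) := (Nat.le_div_iff_mul_le hs).2 (by omega)
    have w2 := Nat.div_mul_le_self (u - B.n0) (sb F B n (ls n))
    have w3 := Nat.lt_div_mul_add (a := u - B.n0) hs
    refine ⟨(u - B.n0) / sb F B n (ls n) - mm F n, ?_⟩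
    rw [Nat.sub_add_cancel w1, Nat.succ_mul]
    omega
  have lt (k) (hk : k < k1 + mm F n) : B.n0 + (k + 1) * sb F B n (ls n) ≤ u :=
    (Nat.add_le_add_left (Nat.mul_le_mul_right _ hk) _).trans q1
  refine slp_ce (k1 := k1) γ1 γ2 b1 b2 e1 e2 (Nat.lt_succ_iff.1 (Nat.lt_of_mul_lt_mul_right
    (a := sb F B n (ls n)) ?_)) q1
    (fun k hk Cd hC => hP k (lt k hk) Cd (hC.trans Finset.inter_subset_left)) fun k p1 p2 => ?_
  · rw [Nat.succ_mul]
    omega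
  have w1 := lt k p2
  have w2 : u < B.n0 + (k + mm F n + 1) * sb F B n (ls n) :=
    q2.trans_le (Nat.add_le_add_left (Nat.mul_le_mul_right _ (by omega)) _)
  rw [Nat.succ_mul] at w1
  have w3 : B.n0 + (k * sb F B n (ls n) + s1 F n) ≤ u := by omega
  have w4 : VV n * (max (B.n0 + (k * sb F B n (ls n) + s1 F n)) u -
      min (B.n0 + (k * sb F B n (ls n) + s1 F n)) u) ≤ VV n * RR F B n := by
    refine Nat.mul_le_mul_left _ ?_
    rw [max_eq_right w3, min_eq_left w3, hR]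
    simp only [add_mul] at w2 ⊢
    omega
  exact ⟨r.2.1 _ (b1 _ w3), r.2.1 _ (b2 _ w3), fun Cd _ =>
    hO k _ _ w2 (a1 ▸ (e1 _ u).trans w4) (a2 ▸ (e2 _ u).trans w4) Cd⟩

/-- Spread in the coordinate `i` before any far site. -/
def slsG (y : S d) (i : Fin d) (L Ds n0 T : ℕ) (I : Tj d) : Prop :=
  ∃ u, n0 ≤ u ∧ u ≤ n0 + T ∧ (∃ x ∈ I u, ∃ x' ∈ I u, (2 * Ds : ℤ) ≤ |x i - x' i|) ∧
    ∀ t, t ≤ u → ∀ z ∈ I t, 4 * nrm (z - y) < 3 * L

theorem sls_two (hd : 1 ≤ d) {J : Tj d} {V R n0 T : ℕ} (rJ : RegT (bx y (L / 4)) {y} J)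
    (rI : RegT Z {y} I) (hJ : ∀ u, J u ⊆ I u) (c : Chn V (n0 + T) I) (h1 : 8 * Ds ≤ L)
    (h2 : 64 * (V * R) ≤ L) (h3 : n0 ≤ R) (h4 : 1 ≤ R) (h5 : 1 ≤ L)
    (h : ∃ u, n0 ≤ u ∧ u ≤ n0 + T ∧ Spread (2 * Ds) (J u)) : ∃ i, slsG y i L Ds n0 T I := by
  classical
  obtain ⟨u, u1, u2, x, hx, x', hx', hs⟩ := h
  have key {t} (t1 : n0 ≤ t) (t2 : t ≤ n0 + T) {a b} (ha : a ∈ I t) (hb : b ∈ I t)
      (e : 2 * Ds ≤ nrm (a - b)) (f : ∀ s, s ≤ t → ∀ z ∈ I s, 4 * nrm (z - y) < 3 * L) :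
      ∃ i, slsG y i L Ds n0 T I := by
    obtain ⟨i, hi⟩ := exists_nrm_eq hd (a - b)
    exact ⟨i, t, t1, t2, ⟨a, ha, b, hb, by rw [← Pi.sub_apply, hi]; exact_mod_cast e⟩, f⟩
  by_cases f : ∃ t, t ≤ u ∧ ∃ z ∈ I t, 3 * L ≤ 4 * nrm (z - y)
  · obtain ⟨t1, z, hz, t2⟩ := Nat.find_spec f
    have t3 := fun s => Nat.find_min f (m := s)
    generalize Nat.find f = t at t1 hz t3
    have t4 := sls_speed rI c (t1.trans u2) hz
    have t5 : R < t := by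
      by_contra! g
      have := Nat.mul_le_mul_left V g
      have := Nat.le_mul_of_pos_right V h4
      omega
    obtain ⟨t, rfl⟩ : ∃ s, t = s + 1 := ⟨t - 1, by omega⟩
    obtain ⟨a, ha, a1⟩ := c t (by omega) z hz
    obtain ⟨b, hb⟩ := sls_alive rJ (show t ≤ u by omega) ⟨x, hx⟩
    have b1 := mem_bx.1 (rJ.2.1 t hb)
    have b2 := nrm_tri z a y
    have b3 := nrm_tri a b y
    have b4 := Nat.le_mul_of_pos_right V h4
    refine key (by omega) (by omega) ha (hJ t hb) (by omega) fun s hs w hw => ?_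
    by_contra! g
    exact t3 s (by omega) ⟨by omega, w, hw, g⟩
  · refine key u1 u2 (hJ u hx) (hJ u hx') hs fun s hs w hw => ?_
    by_contra! g
    exact f ⟨s, hs, w, hw, g⟩

end Pool.Agent.Lib.MP_dd0771_pr.Sc
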