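import Pool.Agent.Lib.MP_dd0771_pr.Sc.StatA

open Filter

namespace Pool.Agent.Lib.MP_dd0771_pr.Sc

theorem stat_zero {d : ℕ} {F : Fr} (hF : F.Ok) {K : ℕ} {φ : ℝ} (h : KP F K φ) {f : Cfg d}
    (hf : ∀ x, f x ≤ 2) {Q : Finset (S d)} {A : Finset (Lt d)}
    (hA : ∀ x e k, ((x, some (e, k)) : Lt d) ∈ A ↔ x ∈ Q ∧ nb x e ∈ Q ∧ f x ≤ k ∧ k < K)
    (H : Cfg d → ℝ) (hH : Bdd H) :
    ex (pc Q fun x => sl F.toMd K φ (f x))
      (fun η => ∑ a ∈ A, rt F.toMd a * (H (mv (al K Q) η a) - H η)) = 0 := by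
  refine stat_gen hF h hf hA (D := fun a η => H (mv (al K Q) η a) - H η)
    (Ψ := fun x e η => H (hop η x (nb x e)) - H η) (fun x e => (hH.comp _).sub hH)
    (fun x η => sub_self _) (fun x e k η ha => ?_) fun x e β => ?_
  · obtain ⟨h1, h2, -, h3⟩ := (hA _ _ _).1 ha
    simp only [mv, mem_al_some.2 ⟨h1, h2, h3⟩, true_and]
    split_ifs <;> simp
  · simp only [stat_hop, nb_nb]
    ring

theorem s_stat {d : ℕ} {F : Fr} (hd : 2 ≤ d) (hF : F.Ok)
    :
    S_STAT d F := by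
  intro K φ Q h
  have _ := hd
  have h1 : ∀ f : Cfg d → ℝ, Bdd f → (ex (mu F.toMd K φ Q) fun η =>
      ∑ a ∈ al K Q, rt F.toMd a * (f (mv (al K Q) η a) - f η)) = 0 :=
    stat_zero hF h (f := fun _ => 0) (fun _ => Nat.zero_le _) fun x e k => by simp [mem_al_some]
  have h2 := inv_wls hF (al K Q) (mv (al K Q)) _ h1
  have h3 : ∀ η : Cfg d, ms (al K Q) η = fun ws => ws.flatten.foldl (mv (al K Q)) η :=
    fun η => funext fun ws => ms_flatten _ _ _
  refine ⟨?_, fun T => by simpa only [h3] using h2.2 T, fun z _ T => ?_, h1⟩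
  · by_cases h4 : 0 < ∑ a ∈ al K Q, rt F.toMd a
    · exact h2.1 h4
    · simp only [stat_lw hF h4, PMF.pure_map, mv]
      exact PMF.bind_pure _
  · have hj : F.j ≤ 2 := by rcases hF.2.2.2.1 with h4 | h4 <;> omega
    simp only [h3]
    refine (inv_wls hF (al K Q \ low F.toMd z) (mv (al K Q)) _ (stat_zero hF h
      (f := fun x => if x = z then F.j else 0) (fun x => by split_ifs <;> omega)
      fun x e k => ?_)).2 T
    rw [Finset.mem_sdiff, mem_al_some, mem_low]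
    by_cases h4 : x = z
    · simp only [h4, true_and, Option.some.injEq, forall_eq', if_true, not_lt]
      tauto
    · simp [h4]

end Pool.Agent.Lib.MP_dd0771_pr.Sc
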