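import Pool.Agent.Lib.MP_dd0771_pr.Sc.Kit

/-! Detailed balance for the product laws. -/

open Filter

namespace Pool.Agent.Lib.MP_dd0771_pr.Sc

variable {d : ℕ} {F : Fr} {K : ℕ} {φ : ℝ}

theorem stat_bdd (hF : F.Ok) (K f : ℕ) : Bdd fun v : ℕ => gK F.toMd K v - gK F.toMd K f := by
  refine Bdd.sub ⟨gK F.toMd K K, fun v => ?_⟩ (Bdd.const _)
  have h1 := gK_mono hF K (Nat.zero_le v)
  rw [gK_zero] at h1
  rw [abs_of_nonneg h1]
  have h2 : gK F.toMd K v = gK F.toMd K (min v K) := by simp [gK]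
  rw [h2]
  exact gK_mono hF K (min_le_right _ _)

theorem stat_site (hF : F.Ok) (h : KP F K φ) {f : ℕ} (hf : f ≤ 2) {H : ℕ → ℝ} (hH : Bdd H) :
    ex (sl F.toMd K φ f) (fun v => (gK F.toMd K v - gK F.toMd K f) * H v) =
      φ * ex (sl F.toMd K φ f) fun v => H (v + 1) := by
  have h0 : ∀ v, v < f → (sl F.toMd K φ f v).toReal = 0 := by
    intro v hv
    have : v ∉ (sl F.toMd K φ f).support := fun h1 => by
      have := (sl_support hF h hf).1 h1
      omega
    rw [(PMF.apply_eq_zero_iff _ _).2 this]; rfl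
  rw [ex, (ex_summable _ ((stat_bdd hF K f).mul hH)).tsum_eq_zero_add, ex, ← tsum_mul_left]
  have h1 : (sl F.toMd K φ f 0).toReal * ((gK F.toMd K 0 - gK F.toMd K f) * H 0) = 0 := by
    rcases Nat.eq_zero_or_pos f with h1 | h1
    · simp [h1]
    · simp [h0 0 h1]
  rw [h1, zero_add]
  refine tsum_congr fun v => ?_
  by_cases h2 : f ≤ v
  · rw [← mul_assoc, sl_ratio hF h hf h2, mul_assoc]
  · rw [h0 v (not_le.1 h2)]
    rcases (show v + 1 = f ∨ v + 1 < f by omega) with h3 | h3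
    · simp [h3]
    · simp [h0 _ h3]

theorem stat_shift (hF : F.Ok) (h : KP F K φ) {f : Cfg d} (hf : ∀ x, f x ≤ 2) {Q : Finset (S d)}
    {x : S d} (hx : x ∈ Q) {H : Cfg d → ℝ} (hH : Bdd H) :
    ex (pc Q fun x => sl F.toMd K φ (f x))
        (fun η => (gK F.toMd K (η x) - gK F.toMd K (f x)) * H η) =
      φ * ex (pc Q fun x => sl F.toMd K φ (f x)) fun η => H (Function.update η x (η x + 1)) := by
  have h1 : Bdd fun η : Cfg d => (gK F.toMd K (η x) - gK F.toMd K (f x)) * H η :=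
    ((stat_bdd hF K (f x)).comp fun η : Cfg d => η x).mul hH
  have h2 : Bdd fun η : Cfg d => H (Function.update η x (η x + 1)) := hH.comp _
  rw [← Finset.insert_erase hx, pc_insert (Finset.notMem_erase x Q), ex_bind _ _ h1, ex_bind _ _ h2]
  simp only [ex_map _ _ h1, ex_map _ _ h2, Function.update_self, Function.update_idem, ex_mul_left]
  exact stat_site hF h (hf x) (Bdd.ex (f := fun v η => H (Function.update η x v))
    (hH.comp fun p : ℕ × Cfg d => Function.update p.2 x p.1) fun _ => _)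

theorem stat_hop (β : Cfg d) (x y : S d) :
    hop (Function.update β x (β x + 1)) x y = Function.update β y (β y + 1) := by
  funext z
  simp only [hop, Function.update_apply]
  split_ifs with h1 h2 h2
  · subst h1; subst h2; rfl
  · subst h1; rfl
  · subst h2; rfl
  · rfl

/-- An antisymmetric current has mean zero. -/
theorem stat_gen (hF : F.Ok) (h : KP F K φ) {f : Cfg d} (hf : ∀ x, f x ≤ 2) {Q : Finset (S d)}
    {A : Finset (Lt d)}
    (hA : ∀ x e k, ((x, some (e, k)) : Lt d) ∈ A ↔ x ∈ Q ∧ nb x e ∈ Q ∧ f x ≤ k ∧ k < K)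
    {D : Lt d → Cfg d → ℝ} {Ψ : S d → Dir d → Cfg d → ℝ} (hb : ∀ x e, Bdd (Ψ x e))
    (h0 : ∀ x η, D (x, none) η = 0)
    (hD : ∀ x e k η, ((x, some (e, k)) : Lt d) ∈ A →
      D (x, some (e, k)) η = if k < η x then Ψ x e η else 0)
    (hΨ : ∀ x e β, Ψ x e (Function.update β x (β x + 1)) +
      Ψ (nb x e) (e.1, !e.2) (Function.update β (nb x e) (β (nb x e) + 1)) = 0) :
    ex (pc Q fun x => sl F.toMd K φ (f x)) (fun η => ∑ a ∈ A, rt F.toMd a * D a η) = 0 := by
  classical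
  set p := pc Q fun x => sl F.toMd K φ (f x) with hp
  set E := (Q ×ˢ (Finset.univ : Finset (Dir d))).filter fun q => nb q.1 q.2 ∈ Q with hE
  have hmem : ∀ q : S d × Dir d, q ∈ E ↔ q.1 ∈ Q ∧ nb q.1 q.2 ∈ Q := fun q => by simp [hE]
  have h1 : ∀ η ∈ p.support, ∑ a ∈ A, rt F.toMd a * D a η = ∑ q ∈ E,
      (1 / (2 * d) : ℝ) * ((gK F.toMd K (η q.1) - gK F.toMd K (f q.1)) * Ψ q.1 q.2 η) := by
    intro η hη
    have h2 : ∑ a ∈ ((E ×ˢ Finset.range K).filter fun r => f r.1.1 ≤ r.2).image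
        (fun r => ((r.1.1, some (r.1.2, r.2)) : Lt d)), rt F.toMd a * D a η =
        ∑ a ∈ A, rt F.toMd a * D a η := by
      refine Finset.sum_subset (fun a ha => ?_) fun a ha hna => ?_
      · obtain ⟨r, hr, rfl⟩ := Finset.mem_image.1 ha
        simp only [Finset.mem_filter, Finset.mem_product, hmem, Finset.mem_range] at hr
        exact (hA _ _ _).2 ⟨hr.1.1.1, hr.1.1.2, hr.2, hr.1.2⟩
      · obtain ⟨x, _ | ⟨e, k⟩⟩ := a
        · rw [h0, mul_zero]
        · obtain ⟨h3, h4, h5, h6⟩ := (hA _ _ _).1 ha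
          refine absurd (Finset.mem_image.2 ⟨((x, e), k), ?_, rfl⟩) hna
          simp only [Finset.mem_filter, Finset.mem_product, hmem, Finset.mem_range]
          exact ⟨⟨⟨h3, h4⟩, h6⟩, h5⟩
    rw [← h2, Finset.sum_image (by
      rintro ⟨⟨x, e⟩, k⟩ - ⟨⟨x', e'⟩, k'⟩ - h3
      simp only [Prod.mk.injEq, Option.some.injEq] at h3 ⊢
      tauto), Finset.sum_filter, Finset.sum_product]
    refine Finset.sum_congr rfl fun q hq => ?_
    obtain ⟨h3, h4⟩ := (hmem q).1 hq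
    have h5 : f q.1 ≤ η q.1 := (sl_support hF h (hf _)).1 ((pc_support hη).2 _ h3)
    have h6 : ∀ n, gK F.toMd K n = ∑ k ∈ Finset.range K, if k < n then F.a k else 0 := by
      intro n
      rw [gK, ← Finset.sum_filter]
      refine Finset.sum_congr ?_ fun _ _ => rfl
      ext k; simp [and_comm]
    rw [h6, h6, ← Finset.sum_sub_distrib, Finset.sum_mul, Finset.mul_sum]
    refine Finset.sum_congr rfl fun k hk => ?_
    by_cases h7 : f q.1 ≤ k
    · rw [if_pos h7, hD _ _ _ _ ((hA _ _ _).2 ⟨h3, h4, h7, Finset.mem_range.1 hk⟩),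
        if_neg (not_lt.2 h7)]
      simp only [rt]
      split_ifs <;> ring
    · rw [if_neg h7, if_pos (by omega), if_pos (by omega)]
      ring
  rw [ex_congr h1, ex_sum _ _ fun q _ => (Bdd.const _).mul
    (((stat_bdd hF K (f q.1)).comp fun η : Cfg d => η q.1).mul (hb _ _))]
  rw [Finset.sum_congr rfl fun q hq => by
    rw [ex_mul_left, hp, stat_shift hF h hf ((hmem q).1 hq).1 (hb _ _)]]
  refine Finset.sum_involution (fun q _ => (nb q.1 q.2, (q.2.1, !q.2.2))) (fun q _ => ?_)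
    (fun q _ _ h2 => nb_ne q.1 q.2 (congrArg Prod.fst h2)) (fun q hq => ?_) fun q _ => ?_
  · rw [← mul_add, ← mul_add, ← ex_add _ ((hb _ _).comp _) ((hb _ _).comp _)]
    simp only [hΨ, ex_const, mul_zero]
  · rw [hmem] at hq ⊢
    exact ⟨hq.2, by rw [nb_nb]; exact hq.1⟩
  · simp [nb_nb]

theorem stat_lw (hF : F.Ok) {A : Finset (Lt d)} (h : ¬ 0 < ∑ a ∈ A, rt F.toMd a) :
    lw F.toMd A = PMF.pure (0, none) := by
  have h1 : ∀ a ∈ A, rt F.toMd a = 0 := (Finset.sum_eq_zero_iff_of_nonneg fun a _ =>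
    rt_nonneg hF a).1 (le_antisymm (not_lt.1 h) (Finset.sum_nonneg fun a _ => rt_nonneg hF a))
  rw [lw, ofW, dif_neg]
  refine fun h2 => h2.1 ?_
  rw [ENNReal.tsum_eq_zero]
  intro a
  split_ifs with h3
  · simp [h1 a h3]
  · simp

end Pool.Agent.Lib.MP_dd0771_pr.Sc
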