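import Pool.Agent.Lib.MP_dd0771_pr.Sc.Stm1

/-! Statements of the engine. -/

open Filter

namespace Pool.Agent.Lib.MP_dd0771_pr.Sc

/-- For every base, all large `n`, good cutoffs. -/
def EvB (d : ℕ) (F : Fr) (p : Bs → ℕ → ℕ → Prop) : Prop := ∀ B : Bs, B.Ok F → EvN d F B (p B)

def S_AL (d : ℕ) (F : Fr) : Prop :=
  EvB d F fun B n K => ∀ C : Ty, B.pa ≤ C.1 → C.1 ≤ B.p 4 → DD F n ≤ C.2 → C.2 ≤ 2 ^ (4 * n) →
    alv d F.toMd K C B.n0 ≤ B.thp ∧ ∀ T, 4 * T ^ 2 ≤ C.2 → B.thm ≤ alv d F.toMd K C T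

def S_PBAD (d : ℕ) (F : Fr) : Prop :=
  EvB d F fun B n K => ∀ l pc (Q : Finset (S d)) z, ls n ≤ l → l ≤ n → B.pa ≤ pc → pc ≤ B.p 4 →
    bx z (4 * DD F n) ⊆ Q →
    pr (mu F.toMd K (pc + B.g / 2) Q) (fun ω => ¬ pregood F K n l pc ω z) ≤
      Real.exp (-(l : ℝ) / 4)

def S_QQ (d : ℕ) (F : Fr) : Prop :=
  EvB d F fun B n K => ∀ l pc, ls n ≤ l → l ≤ n → B.pa ≤ pc → pc ≤ B.p 4 →
    0 ≤ qq d F B K n l pc ∧ qq d F B K n l pc ≤ 1 ∧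
    4 * (1 / 2 : ℝ) ^ (l ^ (F.A + 1)) ≤ qq d F B K n l pc ^ 2 ∧
    ∀ (Q Yt : Finset (S d)), Yt.card ≤ 2 → (∀ z ∈ Yt, bx z (4 * DD F n) ⊆ Q) →
      (∀ z ∈ Yt, ∀ z' ∈ Yt, z ≠ z' → 10 * DD F n ≤ nrm (z - z')) →
      (ex (wls F.toMd (al K Q) (sq F B l)) fun ws =>
        pr (LTs F B K n l pc ws Yt.toList) fun b => b = true) = qq d F B K n l pc ^ Yt.card

/-- Phase A: the fresh sample is dominated after `s1` windows. -/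
def S_PHA (d : ℕ) (F : Fr) : Prop :=
  EvB d F fun B n K => ∀ pc (M : Amb d) s (Y : Finset (S d)) L, B.pa ≤ pc → pc ≤ B.p 4 →
    M.Ok F B K n pc → M.u0 ≤ tm s → Y.card ≤ 2 → wQ Y L ⊆ M.Q' → 8 * DD F n ≤ L → L ≤ 2 ^ n →
    (ex (mu F.toMd K (pc + B.g / 2) (wQ Y L)) fun ω0 =>
      pr (wls F.toMd (al K M.Q) (s1 F n)) fun ws => ¬ M.fl (nx s ws) ∧
        ∃ y ∈ Y, ∃ x ∈ bx y (L + 4 * DD F n),
          (M.st F.toMd K (nx s ws)).1 x < ms (al K (wQ Y L)) ω0 ws x) ≤ er n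

def S_TRY (d : ℕ) (F : Fr) : Prop :=
  EvB d F fun B n K => ∀ l pc (M : Amb d) (Φ : Nd d → ℝ) s (ω : Cfg d) (Yt Yk : Finset (S d))
    (C : Ty) (v : ℝ), ls n ≤ l → l ≤ n → M.Ok F B K n pc → (∀ s, 0 ≤ Φ s ∧ Φ s ≤ 1) →
    Yt.card ≤ 2 → (∀ z ∈ Yt, bx z (4 * DD F n) ⊆ M.Q) →
    (∀ z ∈ Yt, ∀ z' ∈ Yt, z ≠ z' → 10 * DD F n ≤ nrm (z - z')) → Yk ⊆ Yt → Apart Yk C.2 →
    TyOk F B n pc C → wZ Yk C.2 ⊆ M.Z →
    (∀ z ∈ Yk, z ∈ (M.st F.toMd K s).2 ∧ pregood F K n l pc ω z ∧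
      ∀ x ∈ bx z (4 * DD F n), ω x ≤ (M.st F.toMd K s).1 x) →
    Val F B K n l M Φ C Yk (tm s + sq F B l) v →
    qq d F B K n l pc ^ Yt.card * v ≤ ex (wls F.toMd (al K M.Q) (sq F B l)) fun ws =>
      pr (LTs F B K n l pc ws Yt.toList) (fun b => b = true) * Φ (nx s ws)

def S_ENG (d : ℕ) (F : Fr) : Prop :=
  EvB d F fun B n K => ∀ l pc (M : Amb d) (Φ : Nd d → ℝ) te ub vb (H : Mc d) m s σ ty kp
    (v : ℕ × Finset (S d) → ℝ), ls n ≤ l → l ≤ n → B.pa ≤ pc → pc ≤ B.p 4 → M.Ok F B K n pc →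
    Mart F.toMd K M Φ te ub → M.u0 ≤ tm s → tm s + m * sb F B n l ≤ te → H.Y.card ≤ 2 →
    wQ H.Y H.L ⊆ M.Q' → 8 * DD F n ≤ H.L → H.L ≤ 2 ^ n → al K (wQ H.Y H.L) ⊆ H.sy.A →
    H.sy.A ⊆ al K M.Q → RuleOk (DD F n) H.O → vb ≤ ub → (∀ p, 0 ≤ v p ∧ v p ≤ vb) →
    Cont F B K n l pc M Φ (wZ H.Y H.L) H.O m (tm s) ty kp v →
    rv F B K n l pc H m σ v - vb * (pr (wls F.toMd (al K M.Q) (m * sb F B n l)) (fun ws =>
      ∃ u, u ≤ m * sb F B n l ∧ ¬ M.fl (nx s (ws.take u)) ∧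
        ¬ tj F.toMd H.sy σ ws u ⊆ (M.st F.toMd K (nx s (ws.take u))).2) + m * er n) ≤ Φ s

/-- The engine on a launched world, state by state. -/
def S_ENGW (d : ℕ) (F : Fr) : Prop :=
  EvB d F fun B n K => ∀ l pc (M : Amb d) (Φ : Nd d → ℝ) te ub vb (C : Ty) Y O m s σ ty kp
    (v : ℕ × Finset (S d) → ℝ), ls n ≤ l → l ≤ n → TyOk F B n pc C → M.Ok F B K n pc →
    Mart F.toMd K M Φ te ub → M.u0 ≤ tm s → tm s + m * sb F B n l ≤ te →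
    m * sb F B n l ≤ 2 ^ (n + 1) → Adm M Y C.2 → RuleOk (DD F n) O → vb ≤ ub →
    (∀ p, 0 ≤ v p ∧ v p ≤ vb) → Cont F B K n l pc M Φ (wZ Y C.2) O m (tm s) ty kp v →
    Reg F.toMd (wZ Y C.2) σ → Vld (DD F n) σ (M.st F.toMd K s) →
    rv F B K n l pc (wMc K C Y O) m σ v -
      vb * (werr F.toMd K n (hh F B K pc) (wMc K C Y O).sy (wQ Y C.2) (wQ Y C.2)
        (m * sb F B n l) σ.1 + m * er n) ≤ Φ s

/-- The general step: from a launch of any class `l0`, run the machine of class `l`. -/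
def S_GEN (d : ℕ) (F : Fr) : Prop :=
  EvB d F fun B n K => ∀ l0 l pc (M : Amb d) (Φ : Nd d → ℝ) te ub vb Vb (C : Ty) Y O m t ty kp
    (v : ℕ × Finset (S d) → ℝ), ls n ≤ l → l ≤ n → TyOk F B n pc C → M.Ok F B K n pc →
    Mart F.toMd K M Φ te ub → M.u0 ≤ t → t + m * sb F B n l ≤ te →
    m * sb F B n l ≤ 2 ^ (n + 1) → Adm M Y C.2 → RuleOk (DD F n) O → Vb ≤ vb → vb ≤ ub →
    (∀ p, 0 ≤ v p ∧ v p ≤ vb) → (∀ σ, rv F B K n l pc (wMc K C Y O) m σ v ≤ Vb) →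
    Cont F B K n l pc M Φ (wZ Y C.2) O m t ty kp v →
    Val F B K n l0 M Φ C Y t
      (wEv F.toMd K B.n0 C Y (fun σ => rv F B K n l pc (wMc K C Y O) m σ v) / B.thp ^ Y.card -
        tol l0 * Vb - e2 n * vb)

def S_LIVE (d : ℕ) (F : Fr) : Prop :=
  EvB d F fun B n K => ∀ pc (H : Mc d) σ m (P : ℕ × Finset (S d) → Prop), B.pa ≤ pc →
    pc ≤ B.p 4 → H.Y.card ≤ 2 → 8 * DD F n ≤ H.L → H.L ≤ 2 ^ n → al K (wQ H.Y H.L) ⊆ H.sy.A →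
    (∃ Q, H.sy.A = al K Q) → RuleOk (DD F n) H.O → m ≤ 2 ^ (n + 1) →
    pr (wls F.toMd H.sy.A (m * sb F B n (ls n)))
        (fun ws => CE F B n (wZ H.Y H.L) H.O m P (tj F.toMd H.sy σ ws)) - er n ≤
      rv F B K n (ls n) pc H m σ fun p => ind (P p)

/-- `S_LIVE` in a world, in terms of the trajectory from time `0`. -/
def S_LIVW (d : ℕ) (F : Fr) : Prop :=
  EvB d F fun B n K => ∀ pc (C : Ty) (Y : Finset (S d)) O m (P : ℕ × Finset (S d) → Prop),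
    TyOk F B n pc C → Y.card ≤ 2 → RuleOk (DD F n) O → m ≤ 2 ^ (n + 1) →
    wP F.toMd K C.1 (wQ Y C.2) (wZ Y C.2) Y (B.n0 + m * sb F B n (ls n)) (fun I =>
        (∀ y ∈ Y, ∃ x ∈ I B.n0, x ∈ bx y C.2) ∧
          CE F B n (wZ Y C.2) O m P fun u => I (B.n0 + u)) - er n ≤
      wEv F.toMd K B.n0 C Y (fun σ => rv F B K n (ls n) pc (wMc K C Y O) m σ fun p => ind (P p)) ∧
    wEv F.toMd K B.n0 C Y (fun σ => rv F B K n (ls n) pc (wMc K C Y O) m σ fun p => ind (P p)) ≤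
      wP F.toMd K C.1 (wQ Y C.2) (wZ Y C.2) Y (B.n0 + m * sb F B n (ls n)) fun I =>
        (∀ y ∈ Y, ∃ x ∈ I B.n0, x ∈ bx y C.2) ∧ ∃ k, k < m ∧
          ∃ Cd ⊆ I (B.n0 + (k * sb F B n (ls n) + s1 F n)), ∃ Yt ∈ O k Cd, P (k, Yt)

def S_AT (d : ℕ) (F : Fr) : Prop :=
  EvB d F fun B n K => ∀ (C : Ty) (y : S d) T, B.p 1 ≤ C.1 → C.1 ≤ F.hi → Lmin F B n ≤ C.2 →
    C.2 ≤ 2 ^ n → T ≤ 2 ^ (n + 1) - B.n0 →
    B.thm - e2 n ≤ cP F.toMd K C y (B.n0 + T) fun I => Chn (VV n) (B.n0 + T) I ∧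
      ((I (B.n0 + T)).Nonempty ∨
        ∃ u, B.n0 ≤ u ∧ u ≤ B.n0 + T ∧ ∃ x ∈ I u, 7 * C.2 ≤ 8 * nrm (x - y))

def S_SLP (d : ℕ) (F : Fr) : Prop :=
  EvB d F fun B n K => ∀ pc (C : Ty) r T, TyOk F B n pc C → B.p 1 ≤ C.1 → 4 * r ≤ 3 * C.2 →
    T ≤ 2 ^ n → (∀ t, 2 * t < T → reach d F.toMd K C B.n0 r t ≤ B.th / 4) →
    PlainAt d F B K n pc C T

def S_SL2 (d : ℕ) (F : Fr) : Prop :=
  EvB d F fun B n K => ∀ pc (C : Ty) r T (c : ℝ), TyOk F B n pc C → B.p 1 ≤ C.1 → C.2 ≤ 2 * r →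
    4 * r ≤ 3 * C.2 → T ≤ 2 ^ n → 20 * B.eps ≤ c →
    c * B.th ≤ reach d F.toMd K C B.n0 (r + Nat.sqrt C.2) T → PairAt d F B K n pc C T c

def S_SLS (d : ℕ) (F : Fr) : Prop :=
  EvB d F fun B n K => ∀ pc (C : Ty) Ds T (b : ℝ), TyOk F B n pc C → B.p 1 ≤ C.1 →
    C.2 ≤ Ds ^ 4 → 8 * Ds ≤ C.2 → T ≤ 2 ^ n → B.eps ≤ b →
    b * B.th ≤ wP F.toMd K C.1 (bx (0 : S d) (2 * C.2)) (bx 0 (C.2 / 4)) {0} (B.n0 + T)
      (fun I => ∃ u, B.n0 ≤ u ∧ u ≤ B.n0 + T ∧ Spread (2 * Ds) (I u)) →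
    SteerAt d F B K n pc C T (Ds * b / (4 * d))

/-- One run of the strong machine with a constant continuation value. -/
def S_ONE (d : ℕ) (F : Fr) : Prop :=
  EvB d F fun B n K => ∀ l0 pc (M : Amb d) (Φ : Nd d → ℝ) te ub w (C : Ty) y O m t ty,
    TyOk F B n pc C → M.Ok F B K n pc → Mart F.toMd K M Φ te ub → M.u0 ≤ t →
    t + m * sb F B n (ls n) ≤ te → m * sb F B n (ls n) ≤ 2 ^ (n + 1) → Adm M {y} C.2 →
    RuleOk (DD F n) O → 0 ≤ w → w ≤ ub →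
    Cont F B K n (ls n) pc M Φ (bx y C.2) O m t ty id (fun _ => w) →
    Val F B K n l0 M Φ C {y} t
      (w * (cP F.toMd K C y (B.n0 + m * sb F B n (ls n)) (fun I => (I B.n0).Nonempty ∧
        CE F B n (bx y C.2) O m (fun _ => True) fun u => I (B.n0 + u)) / B.thp -
          tol l0 - 2 * e2 n))

/-- Repeated tries inside one world. -/
def S_WB (d : ℕ) (F : Fr) : Prop :=
  EvB d F fun B n K => ∀ pc (M : Amb d) (Gl : (Nd d → ℝ) → ℝ → ℕ → ℕ → Prop) (Φ : Nd d → ℝ)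
    te ub w u (C : Ty) y O Mn U t ty, TyOk F B n pc C → M.Ok F B K n pc → GlOk Gl →
    Mart F.toMd K M Φ te ub → M.u0 ≤ t → RR F B n ≤ U → t + Mn * U ≤ te → Mn * U ≤ 2 ^ n →
    Adm M {y} C.2 → RuleOk (DD F n) O → 0 ≤ w → w ≤ ub → 0 ≤ u → u ≤ 1 →
    Gl Φ w t (t + Mn * U) →
    (∀ Ψ ub' w' t', t ≤ t' → Mart F.toMd K M Ψ (t' + U) ub' → 0 ≤ w' → w' ≤ ub' →
      Gl Ψ w' t' (t' + U) →
      Cont F B K n (ls n) pc M Ψ (bx y C.2) O (mm F n + 1) t' ty id fun _ => u * w') →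
    Val F B K n (ls n) M Φ C {y} t
      (w / 2 * (wX F.toMd K C.1 (bx y (2 * C.2)) (bx y C.2) {y} (B.n0 + Mn * U) (fun I =>
        ind (I B.n0).Nonempty * min 1 (u * Ncnt F B n (bx y C.2) O Mn U I)) / B.thp -
          tol (ls n) * min 1 (u * Mn) - e2 n))

def S_HIT (d : ℕ) (F : Fr) : Prop :=
  EvB d F fun B n K => ∀ l0 pc (M : Amb d) (Φ : Nd d → ℝ) te ub w (C : Ty) y T t
    (P : Finset (S d) → Prop), TyOk F B n pc C → M.Ok F B K n pc → Mart F.toMd K M Φ te ub →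
    M.u0 ≤ t → t + T ≤ te → T ≤ 2 ^ n → Adm M {y} C.2 → 0 ≤ w → w ≤ ub →
    (∀ I J, I ⊆ J → P I → P J) →
    (∀ s, t ≤ tm s → tm s ≤ t + T → P (M.st F.toMd K s).2 → w ≤ Φ s) →
    Val F B K n l0 M Φ C {y} t
      (w * (cP F.toMd K C y (B.n0 + T) (fun I => (I B.n0).Nonempty ∧
        ∃ u, B.n0 ≤ u ∧ u ≤ B.n0 + T ∧ P (I u)) / B.thp - tol l0 - e2 n))

def S_V0 (d : ℕ) (F : Fr) : Prop :=
  EvB d F fun B n K => ∀ pc (M : Amb d) (Φ : Nd d → ℝ) te ub w (C : Ty) Y t,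
    TyOk F B n pc C → Mart F.toMd K M Φ te ub → t ≤ te → Apart Y C.2 → 0 ≤ w → w ≤ ub →
    (∀ s, tm s = t → (∀ y ∈ Y, ∃ x ∈ (M.st F.toMd K s).2, x ∈ bx y C.2) → w ≤ Φ s) →
    Val F B K n (ls n) M Φ C Y t (w * (1 - 6 * B.eps))

def S_WEAK (d : ℕ) (F : Fr) : Prop :=
  EvB d F fun B n K => ∀ l pc (M : Amb d) (Φ : Nd d → ℝ) te ub v (C C' : Ty) y t, ls n ≤ l →
    l ≤ n → TyOk F B n pc C → TyOk F B n pc C' → M.Ok F B K n pc → Mart F.toMd K M Φ te ub →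
    M.u0 ≤ t → t + sb F B n l ≤ te → Adm M {y} C.2 → 0 ≤ v → v ≤ ub →
    (∀ z ∈ bx y (DD F n), bx z C'.2 ⊆ M.Z ∧ Val F B K n l M Φ C' {z} (t + sb F B n l) v) →
    Val F B K n (ls n) M Φ C {y} t (((1 / 2) ^ (l ^ (F.A + 1)) - e2 n) * v)

/-- A stationary system as the ambient system, with the goal `P` on the time window `[t1, te]`. -/
def S_WA (d : ℕ) (F : Fr) : Prop :=
  EvB d F fun B n K => ∀ pc φ (Q Q' Z : Finset (S d)) y t1 te (P : Finset (S d) → Prop),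
    B.pa ≤ pc → pc + B.g ≤ φ → φ ≤ F.hi → Q' ⊆ Q → Z ⊆ Q → Q'.card ≤ 2 ^ (5 * n * d) →
    B.n0 ≤ te → te ≤ 2 ^ (n + 1) →
    ∃ (M : Amb d) (Φ : Nd d → ℝ), M.Ok F B K n pc ∧ M.Q' = Q' ∧ M.Z = Z ∧ M.u0 = 0 ∧
      Mart F.toMd K M Φ te 1 ∧
      (∀ s, t1 ≤ tm s → tm s ≤ te → P (M.st F.toMd K s).2 → 1 ≤ Φ s) ∧
      ∀ C v, TyOk F B n pc C → Adm M {y} C.2 → 0 ≤ v → Val F B K n (ls n) M Φ C {y} B.n0 v →
        B.thm * v - er n ≤ wP F.toMd K φ Q Z {y} te fun I => ∃ u, t1 ≤ u ∧ u ≤ te ∧ P (I u)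

/-- The machine on the infection of the ambient system itself. -/
def S_AMB (d : ℕ) (F : Fr) : Prop :=
  EvB d F fun B n K => ∀ pc (M : Amb d) (Φ : Nd d → ℝ) te ub v (C : Ty) y L s,
    TyOk F B n pc C → M.Ok F B K n pc → Mart F.toMd K M Φ te ub → M.u0 ≤ tm s →
    tm s + RR F B n ≤ te → bx y (2 * L) ⊆ M.Q' → 8 * DD F n ≤ L → L ≤ 2 ^ n → 0 ≤ v → v ≤ ub →
    (∀ z ∈ bx y L, bx z C.2 ⊆ M.Z ∧ ∀ t, tm s < t → t ≤ tm s + RR F B n →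
      Val F B K n (ls n) M Φ C {z} t v) →
    v * (pr (wls F.toMd (al K M.Q) (RR F B n)) (fun ws =>
      CE F B n (bx y L) (rReg (bx y L)) (mm F n + 1) (fun _ => True)
        (tj F.toMd (M.sy K) (M.st F.toMd K s) ws)) - e2 n) ≤ Φ s

end Pool.Agent.Lib.MP_dd0771_pr.Sc
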