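import Pool.Agent.Lib.MP_dd0771_pr.Sc.Stm2

/-! Statements of the high level. -/

open Filter

namespace Pool.Agent.Lib.MP_dd0771_pr.Sc

/-- Staying near `x` with plain steps until time `t1`. -/
def S_HOV (d : ℕ) (F : Fr) : Prop :=
  ∀ (B : Bs) K n pc (C C' : Ty) T (M : Amb d) (Φ : Nd d → ℝ) te ub (x : S d) (ρ γ w : ℝ) t1,
    B.Ok F → PlainAt d F B K n pc C T → 1 ≤ T → TyOk F B n pc C → TyOk F B n pc C' →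
    M.Ok F B K n pc → Mart F.toMd K M Φ te ub → 0 < ρ → 0 ≤ γ → 0 ≤ w → w ≤ ub →
    t1 + T + RR F B n ≤ te →
    (∀ y, eu (y - x) < ρ ^ 2 → Adm M {y} C.2 ∧ bx y C'.2 ⊆ M.Z) →
    (∀ y t', eu (y - x) < ρ ^ 2 → t1 ≤ t' → t' ≤ t1 + T + RR F B n →
      Val F B K n (ls n) M Φ C' {y} t' (w * (1 - eu (y - x) / ρ ^ 2 - γ))) →
    ∀ y t, M.u0 ≤ t → t < t1 → Val F B K n (ls n) M Φ C {y} t
      (w * (1 - eu (y - x) / ρ ^ 2 - γ - 2 * (d * (C.2 : ℝ) ^ 2 / ρ ^ 2 + 5 * B.eps) *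
        (2 * ((t1 : ℝ) - t) / T + 1)))

/-- Repeated tries while staying near `x`. -/
def S_BOOST (d : ℕ) (F : Fr) : Prop :=
  ∀ (B : Bs) K n pc (C : Ty) T (M : Amb d) (Gl : (Nd d → ℝ) → ℝ → ℕ → ℕ → Prop)
    (Φ : Nd d → ℝ) te ub (x : S d) (ρ w u : ℝ) (Mn U : ℕ),
    B.Ok F → PlainAt d F B K n pc C T → 1 ≤ T → TyOk F B n pc C → M.Ok F B K n pc → GlOk Gl →
    Mart F.toMd K M Φ te ub → 0 < ρ → 0 ≤ w → w ≤ ub → 0 ≤ u → tol (ls n) ≤ 1 / 2 →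
    (∀ y, eu (y - x) < ρ ^ 2 → Adm M {y} C.2) →
    (∀ Ψ ub' w' y t', M.u0 ≤ t' → eu (y - x) < ρ ^ 2 → Mart F.toMd K M Ψ (t' + U) ub' → 0 ≤ w' →
      w' ≤ ub' → Gl Ψ w' t' (t' + U) → Val F B K n (ls n) M Ψ C {y} t' (u * w')) →
    ∀ y t, M.u0 ≤ t → t + Mn * (U + T + 2 * RR F B n) ≤ te →
      Gl Φ w t (t + Mn * (U + T + 2 * RR F B n)) →
      Val F B K n (ls n) M Φ C {y} t (min (w / 4) (Mn * u * w / 2) *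
        (1 - eu (y - x) / ρ ^ 2 - Mn * (2 * (d * (C.2 : ℝ) ^ 2 / ρ ^ 2 + 5 * B.eps) *
          (2 * ((U : ℝ) + RR F B n) / T + 1))))

/-- One doubling of the separation in the coordinate `i`. -/
def S_CL1 (d : ℕ) (F : Fr) : Prop :=
  ∀ (B : Bs) K n pc (C : Ty) (C' : S d → S d → Ty) T (c : ℝ) (M : Amb d) (Φ : Nd d → ℝ) te ub
    (w ρ : ℝ) (a N0 t : ℕ) (i : Fin d) (y1 y2 : S d),
    B.Ok F → PairAt d F B K n pc C T c → TyOk F B n pc C → M.Ok F B K n pc →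
    Mart F.toMd K M Φ te ub → 0 < c → 0 ≤ w → w ≤ ub → 40 * C.2 ≤ a →
    800 * d * (a : ℝ) ^ 2 ≤ c * (C.2 : ℝ) ^ 2 * N0 → 500 * B.eps * N0 ≤ 1 → 0 < ρ →
    200 * d * (C.2 : ℝ) ^ 2 * N0 ≤ ρ ^ 2 → M.u0 ≤ t → t + N0 * (T + RR F B n) ≤ te →
    (a : ℤ) ≤ y2 i - y1 i → y2 i - y1 i < 2 * a →
    (∀ z, eu (z - y1) < ρ ^ 2 ∨ eu (z - y2) < ρ ^ 2 →
      bx z (2 * C.2) ⊆ M.Q' ∧ bx z C.2 ⊆ M.Z) →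
    (∀ z1 z2 t', eu (z1 - y1) < ρ ^ 2 → eu (z2 - y2) < ρ ^ 2 → 2 * (a : ℤ) ≤ z2 i - z1 i →
      t < t' → t' ≤ t + N0 * (T + RR F B n) →
      TyOk F B n pc (C' z1 z2) ∧ Apart {z1, z2} (C' z1 z2).2 ∧ wZ {z1, z2} (C' z1 z2).2 ⊆ M.Z ∧
        Val F B K n (ls n) M Φ (C' z1 z2) {z1, z2} t' w) →
    Val F B K n (ls n) M Φ C {y1, y2} t (39 / 100 * w)

/-- From separation `a` to separation `2 ^ k * a`. -/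
def S_CLIMB (d : ℕ) (F : Fr) : Prop :=
  ∀ (B : Bs) K n pc (C C' : Ty) T (c : ℝ) (M : Amb d) (Φ : Nd d → ℝ) te ub (w : ℝ)
    (a k Nt ρ t : ℕ) (y1 y2 : S d),
    B.Ok F → PairAt d F B K n pc C T c → TyOk F B n pc C → TyOk F B n pc C' → M.Ok F B K n pc →
    Mart F.toMd K M Φ te ub → 0 < c → c ≤ 1 → 0 ≤ w → w ≤ ub → 40 * C.2 ≤ a →
    4 * C'.2 + 2 ≤ 2 ^ k * a → 300 * d * (2 ^ k * a : ℝ) ^ 2 ≤ c * (C.2 : ℝ) ^ 2 * Nt →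
    500 * B.eps * Nt ≤ 1 → 500 * d * (2 ^ k * a : ℝ) ≤ c * ρ → M.u0 ≤ t →
    t + Nt * (T + RR F B n) ≤ te → a ≤ nrm (y1 - y2) → nrm (y1 - y2) < 2 ^ k * a →
    (∀ z, nrm (z - y1) ≤ ρ ∨ nrm (z - y2) ≤ ρ →
      bx z (2 * C.2) ⊆ M.Q' ∧ bx z C.2 ⊆ M.Z ∧ bx z C'.2 ⊆ M.Z) →
    (∀ z1 z2 t', nrm (z1 - y1) ≤ ρ → nrm (z2 - y2) ≤ ρ → 2 ^ k * a ≤ nrm (z1 - z2) → t < t' →
      t' ≤ t + Nt * (T + RR F B n) → Val F B K n (ls n) M Φ C' {z1, z2} t' w) →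
    Val F B K n (ls n) M Φ C {y1, y2} t ((39 / 100) ^ k * w)

/-- Approach of the origin with steered steps. -/
def S_APP (d : ℕ) (F : Fr) : Prop :=
  ∀ (B : Bs) K n pc (C C' : Ty) T (dr W ρ : ℝ) (M : Amb d) (Φ : Nd d → ℝ) te ub (w : ℝ)
    (N0 t : ℕ) (y : S d),
    B.Ok F → SteerAt d F B K n pc C T dr → TyOk F B n pc C → TyOk F B n pc C' →
    M.Ok F B K n pc → Mart F.toMd K M Φ te ub → 0 < dr → 0 < W → 0 < ρ → 0 ≤ w → w ≤ ub →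
    (d : ℝ) ^ 2 * (C.2 : ℝ) ^ 2 ≤ dr * ρ → 4 * d * W ≤ dr * N0 → 20 * d * W * B.eps ≤ dr →
    M.u0 ≤ t → t + N0 * (T + RR F B n) ≤ te → 4 * eu y ≤ W ^ 2 →
    (∀ z, eu z < W ^ 2 → Adm M {z} C.2 ∧ bx z C'.2 ⊆ M.Z) →
    (∀ z t', eu z ≤ ρ ^ 2 → t ≤ t' → t' ≤ t + N0 * (T + RR F B n) →
      Val F B K n (ls n) M Φ C' {z} t' w) →
    Val F B K n (ls n) M Φ (if eu y ≤ ρ ^ 2 then C' else C) {y} t (w / 2)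

def S_F0 (d : ℕ) (F : Fr) : Prop :=
  ∃ c1 : ℝ, 0 < c1 ∧ c1 ≤ 1 ∧ EvB d F fun B n K => ∀ (C : Ty) (y : S d) (i : Fin d),
    B.p 1 ≤ C.1 → C.1 ≤ F.hi → Lmin F B n ≤ C.2 → C.2 ≤ 2 ^ n →
    c1 * B.th ≤ cP F.toMd K C y (B.n0 + (mm F n + 1) * sb F B n (ls n)) fun I =>
      (I B.n0).Nonempty ∧ CE F B n (bx y C.2) (rReg ((bx y C.2).filter fun z => y i + 1 ≤ z i))
        (mm F n + 1) (fun _ => True) fun u => I (B.n0 + u)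

/-- For every base of small tolerance, all large `m` and all cutoffs good for the engine `N * m`. -/
def EvM (d : ℕ) (F : Fr) (e0 : ℝ) (N : ℕ) (p : Bs → ℕ → ℕ → Prop) : Prop :=
  ∀ B : Bs, B.Ok F → B.eps ≤ e0 → ∀ᶠ m in atTop, ∀ K, BK d F B K (N * m) → p B m K

def WAt (d : ℕ) (F : Fr) (c : ℝ) (CT : ℕ) (e0 : ℝ) (N : ℕ) : Prop :=
  EvM d F e0 N fun B m K =>
    c * B.th ≤ reach d F.toMd K (B.p 2, 2 ^ m) B.n0 (11 * 2 ^ m / 16) ((2 ^ m) ^ CT)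
def LDAt (d : ℕ) (F : Fr) (c : ℝ) (CT : ℕ) (e0 : ℝ) (N : ℕ) : Prop :=
  EvM d F e0 N fun B m K => ∃ r T, LDat d F B K c CT (2 ^ m) r T
def F1At (d : ℕ) (F : Fr) (C1 : ℕ) (e0 : ℝ) (N : ℕ) : Prop :=
  EvM d F e0 N fun B m K => ∀ y x : S d, 4 * nrm (x - y) ≤ 2 ^ m →
    (1 / 2 : ℝ) ^ (C1 * m ^ 2) ≤ cP F.toMd K (B.p 3, 2 ^ m) y (B.n0 + 2 ^ (C1 * m)) fun I =>
      (I B.n0).Nonempty ∧ ∃ u, B.n0 ≤ u ∧ u ≤ B.n0 + 2 ^ (C1 * m) ∧ x ∈ I u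
def F2At (d : ℕ) (F : Fr) (C1 : ℕ) (e0 : ℝ) (N : ℕ) : Prop :=
  EvM d F e0 N fun B m K => ∀ y : S d,
    (1 / 2 : ℝ) ^ (C1 * m ^ 2) ≤ cP F.toMd K (B.p 3, 2 ^ m) y (B.n0 + 2 ^ (C1 * m)) fun I =>
      ∃ u, B.n0 ≤ u ∧ u ≤ B.n0 + 2 ^ (C1 * m) ∧ Spread (2 ^ m / 16) (I u)
/-- The hypothesis of the steered step at the level `2 ^ (k * i)`. -/
def BAt (d : ℕ) (F : Fr) (c : ℝ) (CT k : ℕ) (μ e0 : ℝ) (N : ℕ) : Prop :=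
  EvM d F e0 N fun B i K => ∀ r T, LDat d F B K c CT (2 ^ (k * i)) r T →
    ∃ (Ds : ℕ) (b : ℝ), 16 * 2 ^ (k * i) ≤ Ds ^ 4 ∧ Ds ≤ 2 ^ (k * i) ∧ B.eps ≤ b ∧
      μ * 2 ^ (k * i) ≤ Ds * b / (4 * d) ∧
      b * B.th ≤ wP F.toMd K (B.p 4) (bx (0 : S d) (2 * (16 * 2 ^ (k * i))))
        (bx 0 (16 * 2 ^ (k * i) / 4)) {0} (B.n0 + 3 * T) fun I =>
          ∃ u, B.n0 ≤ u ∧ u ≤ B.n0 + 3 * T ∧ Spread (2 * Ds) (I u)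

def S_W (d : ℕ) (F : Fr) : Prop :=
  ∃ (c : ℝ) (CT : ℕ) (e0 : ℝ) (N : ℕ), 0 < c ∧ c ≤ 1 / 10 ∧ 0 < e0 ∧ 1 ≤ CT ∧ CT ≤ N ∧
    WAt d F c CT e0 N
def S_LD (d : ℕ) (F : Fr) : Prop :=
  ∀ c CT e0 N, 0 < c → 1 ≤ CT → CT ≤ N → WAt d F c CT e0 N → LDAt d F c CT e0 N
def S_F1 (d : ℕ) (F : Fr) : Prop :=
  ∀ c CT e0 N, 0 < c → 1 ≤ CT → CT ≤ N → WAt d F c CT e0 N → ∃ C1 N', F1At d F C1 e0 N'
def S_F2 (d : ℕ) (F : Fr) : Prop :=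
  ∀ c CT e0 N, 0 < c → 1 ≤ CT → CT ≤ N → WAt d F c CT e0 N → ∃ C1 N', F2At d F C1 e0 N'
def S_B (d : ℕ) (F : Fr) : Prop :=
  ∀ c CT e0 N C1 N', 0 < c → c ≤ 1 / 10 → 0 < e0 → 1 ≤ CT → LDAt d F c CT e0 N →
    F2At d F C1 e0 N' → ∃ k μ e1 N'', 18 ≤ k ∧ 0 < μ ∧ μ ≤ 1 ∧ 0 < e1 ∧ BAt d F c CT k μ e1 N''

/-- From distance `2 ^ I` the origin is reached with value `1 / 8`. -/
def S_A (d : ℕ) (F : Fr) : Prop :=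
  ∃ (e0 : ℝ) (N : ℕ), 0 < e0 ∧ 2 ≤ N ∧ ∀ B : Bs, B.Ok F → B.eps ≤ e0 → ∀ᶠ I : ℕ in atTop, ∀ K,
    BK d F B K (I ^ N) → ∃ (C : Ty) (U : ℕ), TyOk F B (I ^ N) (B.p 4) C ∧
      2 * U ≤ 2 ^ (I ^ N) ∧ 2 * C.2 ≤ 2 ^ (I ^ N) ∧
      ∀ (M : Amb d) (Φ : Nd d → ℝ) te ub w y t, M.Ok F B K (I ^ N) (B.p 4) →
        Mart F.toMd K M Φ te ub → bx 0 (2 ^ (I ^ N)) ⊆ M.Q' → bx 0 (2 ^ (I ^ N)) ⊆ M.Z →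
        M.u0 ≤ t → t + U ≤ te → 0 ≤ w → w ≤ ub → nrm y ≤ 2 ^ I →
        (∀ s, t ≤ tm s → tm s ≤ t + U → 0 ∈ (M.st F.toMd K s).2 → w ≤ Φ s) →
        Val F B K (I ^ N) (ls (I ^ N)) M Φ C {y} t (w / 8)

/-- Survival in the discrete model at the lowest fugacity. -/
def S_TH (d : ℕ) (F : Fr) : Prop :=
  ∃ θ : ℝ, 0 < θ ∧ ∀ T, ∀ᶠ R in atTop, ∀ᶠ K in atTop, θ ≤ alv d F.toMd K (F.lo, R) T

def S_BASE (d : ℕ) (F : Fr) : Prop :=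
  ∀ e : ℝ, 0 < e → e ≤ 1 / 100 → ∃ B : Bs, B.Ok F ∧ B.eps = e ∧
    ∀ n, ∀ᶠ K in atTop, BK d F B K n

/-- Local survival in the discrete model at the highest fugacity. -/
def S_MAIN (d : ℕ) (F : Fr) : Prop :=
  ∀ e : ℝ, 0 < e → ∀ n1, ∃ t, ∀ᶠ R in atTop, ∀ᶠ K in atTop,
    cP F.toMd K (F.hi, R) (0 : S d) t
      (fun I => (I t).Nonempty ∧ ∀ u, n1 ≤ u → u ≤ t → 0 ∉ I u) ≤ e

end Pool.Agent.Lib.MP_dd0771_pr.Sc
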