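import Pool.Agent.Lib.MP_dd0771_pr.Sc.Kit

/-! Second class particles on a common background. -/

open Filter

namespace Pool.Agent.Lib.MP_dd0771_pr.Sc

variable {d : ℕ} {F : Fr}

/-- One more particle at `x`. -/
def inc (β : Cfg d) (x : S d) : Cfg d := fun z => β z + if z = x then 1 else 0

theorem inc_eq (β : Cfg d) (x : S d) : Function.update β x (β x + 1) = inc β x := by
  funext z
  by_cases h : z = x
  · subst h; simp [inc]
  · simp [inc, h]

/-- Move of a second class particle. -/
def mvp (A : Finset (Lt d)) (β : Cfg d) (X : S d) (a : Lt d) : S d :=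
  match a.2 with
  | none => X
  | some q => if a ∈ A ∧ a.1 = X ∧ q.2 = β X then nb X q.1 else X

theorem mv_inc (A : Finset (Lt d)) (β : Cfg d) (X : S d) (a : Lt d) :
    mv A (inc β X) a = inc (mv A β a) (mvp A β X a) := by
  obtain ⟨z, _ | ⟨e, k⟩⟩ := a
  · rfl
  have hn := nb_ne z e
  by_cases hA : ((z, some (e, k)) : Lt d) ∈ A
  · by_cases hz : z = X
    · subst hz
      simp only [mv, mvp, hA, true_and, inc, if_true]
      rcases lt_trichotomy k (β z) with h | h | h
      · rw [if_pos (by omega), if_pos h, if_neg h.ne]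
        funext w
        simp only [hop, inc]
        by_cases h1 : w = z
        · subst h1; simp [hn.symm]; omega
        · simp [h1]
      · rw [if_pos (by omega), if_neg (by omega), if_pos h]
        funext w
        simp only [hop, inc]
        by_cases h1 : w = z
        · subst h1; simp [hn.symm]
        · simp [h1]
      · rw [if_neg (by omega), if_neg (by omega), if_neg (by omega)]
    · simp only [mv, mvp, hA, true_and, hz, false_and, if_false]
      have : inc β X z = β z := by simp [inc, hz]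
      rw [this]
      by_cases h : k < β z
      · rw [if_pos h, if_pos h]
        funext w
        simp only [hop, inc]
        by_cases h1 : w = z
        · subst h1; simp [hz]
        · simp only [h1, if_false]; omega
      · rw [if_neg h, if_neg h]
  · simp only [mv, mvp, hA, false_and, if_false]

theorem mvp_near (A : Finset (Lt d)) (β : Cfg d) (X : S d) (a : Lt d) :
    nrm (mvp A β X a - X) ≤ 1 := by
  obtain ⟨z, _ | ⟨e, k⟩⟩ := a
  · simp [mvp, nrm_zero]
  · simp only [mvp]
    split_ifs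
    · exact (nrm_nb X e).le
    · simp [nrm_zero]

theorem mvp_one (A : Finset (Lt d)) (β : Cfg d) {X Y : S d} (h : X ≠ Y) (a : Lt d) :
    mvp A β X a = X ∨ mvp A β Y a = Y := by
  obtain ⟨z, _ | ⟨e, k⟩⟩ := a
  · exact Or.inl rfl
  · by_cases hz : z = X
    · right; simp only [mvp]; rw [if_neg]; rintro ⟨-, h1, -⟩; exact h (hz.symm.trans h1)
    · left; simp only [mvp]; rw [if_neg]; rintro ⟨-, h1, -⟩; exact hz h1

/-- Background and two second class particles. -/
abbrev T3 (d : ℕ) : Type := Cfg d × S d × S d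

def st3 (A : Finset (Lt d)) (s : T3 d) (a : Lt d) : T3 d :=
  (mv A s.1 a, mvp A s.1 s.2.1 a, mvp A s.1 s.2.2 a)

theorem mw_st3 (A : Finset (Lt d)) (w : Word d) (s : T3 d) :
    mw A (inc s.1 s.2.1) w = inc (w.foldl (st3 A) s).1 (w.foldl (st3 A) s).2.1 ∧
    mw A (inc s.1 s.2.2) w = inc (w.foldl (st3 A) s).1 (w.foldl (st3 A) s).2.2 := by
  induction w generalizing s with
  | nil => exact ⟨rfl, rfl⟩
  | cons a w ih =>
    simp only [mw, List.foldl_cons, mv_inc]
    exact ih (st3 A s a)

theorem sum_mvp {A A1 : Finset (Lt d)} (hA : A1 ⊆ A) (g : S d → ℝ) (β : Cfg d) (X : S d) :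
    ∑ a ∈ A, rt F.toMd a * (g (mvp A1 β X a) - g X) =
      ∑ e : Dir d, if ((X, some (e, β X)) : Lt d) ∈ A1 then
        F.a (β X) / (2 * d) * (g (nb X e) - g X) else 0 := by
  have : DecidablePred fun e : Dir d => ((X, some (e, β X)) : Lt d) ∈ A1 := fun _ => inferInstance
  have e0 := Finset.sum_filter (s := Finset.univ)
    (fun e : Dir d => ((X, some (e, β X)) : Lt d) ∈ A1)
    (fun e => F.a (β X) / (2 * d) * (g (nb X e) - g X))
  refine Eq.trans ?_ (e0.trans (Finset.sum_congr rfl fun e _ => by congr))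
  refine (Finset.sum_of_injOn (fun e : Dir d => ((X, some (e, β X)) : Lt d)) ?_ ?_ ?_ ?_).symm
  · intro e _ e' _ h
    simpa using h
  · intro e he
    exact hA (by simpa using he)
  · rintro ⟨z, _ | ⟨e, k⟩⟩ _ h
    · simp [mvp]
    · simp only [mvp]
      rw [if_neg, sub_self, mul_zero]
      rintro ⟨h1, rfl, rfl⟩
      exact h ⟨e, by simpa using h1, rfl⟩
  · intro e he
    have : ((X, some (e, β X)) : Lt d) ∈ A1 := by simpa using he
    simp [mvp, this, rt]

theorem sum_mvp_lev {A A1 : Finset (Lt d)} (hA : A1 ⊆ A) (g : S d → ℝ) {β f : Cfg d} {X : S d}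
    {B : Finset (S d)} {K : ℕ} (hL : Lev A1 B f K) (hX : X ∈ B) (h1 : f X ≤ β X) (h2 : β X < K) :
    ∑ a ∈ A, rt F.toMd a * (g (mvp A1 β X a) - g X) =
      F.a (β X) / (2 * d) * ∑ e : Dir d, (g (nb X e) - g X) := by
  rw [sum_mvp hA, Finset.mul_sum]
  exact Finset.sum_congr rfl fun e _ => if_pos ((hL X hX e _).2 ⟨h1, h2⟩)

theorem sum_mvp_le (hd : 1 ≤ d) (hF : F.Ok) {A A1 : Finset (Lt d)} (hA : A1 ⊆ A) (g : S d → ℝ)
    (β : Cfg d) (X : S d) {b : ℝ} (hb : 0 ≤ b) (h : ∀ e, g (nb X e) - g X ≤ b) :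
    ∑ a ∈ A, rt F.toMd a * (g (mvp A1 β X a) - g X) ≤ F.Gp * b := by
  rw [sum_mvp hA]
  have hd0 : (0 : ℝ) < d := by exact_mod_cast hd
  have h1 := hF.2.1 (β X)
  have h2 : 0 < F.a (β X) := hF.1.trans_le h1.1
  have h3 : ∀ e : Dir d, (if ((X, some (e, β X)) : Lt d) ∈ A1 then
      F.a (β X) / (2 * d) * (g (nb X e) - g X) else 0) ≤ F.Gp / (2 * d) * b := by
    intro e
    have h4 : F.a (β X) / (2 * d) * b ≤ F.Gp / (2 * d) * b := by gcongr; exact h1.2
    split_ifs
    · exact (mul_le_mul_of_nonneg_left (h e) (by positivity)).trans h4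
    · exact le_trans (by positivity) h4
  refine (Finset.sum_le_sum fun e _ => h3 e).trans (le_of_eq ?_)
  simp only [Finset.sum_const, Finset.card_univ, Fintype.card_prod, Fintype.card_fin,
    Fintype.card_bool, nsmul_eq_mul]
  push_cast
  field_simp

theorem lev_mv {A : Finset (Lt d)} {B : Finset (S d)} {f β : Cfg d} {K : ℕ} (hL : Lev A B f K)
    (h : ∀ z ∈ B, f z ≤ β z) (a : Lt d) : ∀ z ∈ B, f z ≤ mv A β a z := by
  intro z hz
  obtain ⟨x, _ | ⟨e, k⟩⟩ := a
  · exact h z hz
  · simp only [mv]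
    split_ifs with h1
    · simp only [hop]
      have h2 := h z hz
      by_cases h3 : z = x
      · subst h3
        have := ((hL z hz e k).1 h1.1).1
        have := h1.2
        simp only [if_true]; omega
      · simp only [h3, if_false]; omega
    · exact h z hz

theorem lev_mw {A : Finset (Lt d)} {B : Finset (S d)} {f β : Cfg d} {K : ℕ} (hL : Lev A B f K)
    (h : ∀ z ∈ B, f z ≤ β z) (w : Word d) : ∀ z ∈ B, f z ≤ mw A β w z := by
  induction w generalizing β with
  | nil => exact h
  | cons a w ih => exact ih (lev_mv hL h a)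

theorem mass_mv {A : Finset (Lt d)} {Q : Finset (S d)} (h : Closed A Q) (η : Cfg d) (a : Lt d) :
    mass (mv A η a) Q = mass η Q := mass_mw h η [a]

theorem le_mass {Q : Finset (S d)} (η : Cfg d) {z : S d} (hz : z ∈ Q) : η z ≤ mass η Q :=
  Finset.single_le_sum (f := η) (fun _ _ => Nat.zero_le _) hz

theorem ex_pow_len (hF : F.Ok) (A : Finset (Lt d)) {q : ℝ} (h0 : 0 ≤ q) (h1 : q ≤ 1) (T : ℕ) :
    ex (wls F.toMd A T) (fun ws => q ^ ws.flatten.length) =
      Real.exp (-(T * ((∑ a ∈ A, rt F.toMd a) * (1 - q)))) := by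
  set Λ := ∑ a ∈ A, rt F.toMd a with hΛ
  have hb : ∀ {β : Type} (g : β → ℕ), Bdd fun x => q ^ g x := fun g =>
    Bdd.of01 fun _ => ⟨by positivity, pow_le_one₀ h0 h1⟩
  have h2 : ex (wl F.toMd A) (fun w => q ^ w.length) = Real.exp (-(Λ * (1 - q))) := by
    rw [ex_wl hF A (hb _), ← hΛ]
    have h3 : ∀ N, ex (iid (lw F.toMd A) N) (fun w => q ^ w.length) = q ^ N := fun N => by
      rw [ex_congr (g := fun _ => q ^ N) fun w hw => by rw [iid_length hw], ex_const]
    have h4 : ∀ N : ℕ, Real.exp (-Λ) * Λ ^ N / N.factorial * q ^ N =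
        Real.exp (-Λ) * ((Λ * q) ^ N / N.factorial) := fun N => by rw [mul_pow]; ring
    simp only [h3, h4]
    rw [tsum_mul_left, (NormedSpace.expSeries_div_hasSum_exp (Λ * q)).tsum_eq,
      ← Real.exp_eq_exp_ℝ, ← Real.exp_add]
    congr 1; ring
  induction T with
  | zero => simp [wls, iid, ex_pure]
  | succ T ih =>
    rw [wls, ex_iid_succ _ _ (hb _)]
    simp only [List.flatten_cons, List.length_append, pow_add, ex_mul_left]
    rw [wls] at ih
    rw [ih, ex_mul_right, h2, ← Real.exp_add]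
    congr 1; push_cast; ring

end Pool.Agent.Lib.MP_dd0771_pr.Sc
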