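import Pool.Agent.Lib.MP_dd0771_pr.Sc.TpA

/-! Coalescence of two second class particles. -/

open Filter

namespace Pool.Agent.Lib.MP_dd0771_pr.Sc

variable {d : ℕ} {F : Fr}

theorem tp_bern2 {σ : ℝ} (h : 0 ≤ σ) (m : ℕ) :
    1 + m * σ + m * ((m : ℝ) - 1) / 2 * σ ^ 2 ≤ (1 + σ) ^ m := by
  induction m with
  | zero => simp
  | succ m ih =>
    have h1 := mul_le_mul_of_nonneg_right ih (by linarith : 0 ≤ 1 + σ)
    have h2 : 0 ≤ (m : ℝ) * ((m : ℝ) - 1) := by
      cases m with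
      | zero => simp
      | succ m => push_cast; nlinarith [Nat.cast_nonneg (α := ℝ) m]
    rw [pow_succ (1 + σ)]
    push_cast
    nlinarith [mul_nonneg h2 (pow_nonneg h 3)]

theorem tp_ratio {a t : ℝ} (ha : 0 < a) (hat : 0 < a + t) :
    1 / (a + t) = 1 / a * (a / (a + t)) ∧ 1 + -t / a ≤ a / (a + t) := by
  refine ⟨by field_simp, ?_⟩
  rw [le_div_iff₀ hat]
  have : (1 + -t / a) * (a + t) = a - t ^ 2 / a := by field_simp; ring
  rw [this]
  have : 0 ≤ t ^ 2 / a := by positivity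
  linarith

theorem tp_first {a t : ℝ} (ha : 0 < a) (hat : 0 < a + t) (m : ℕ) :
    (1 / a) ^ m * (1 + m * (-t / a)) ≤ (1 / (a + t)) ^ m := by
  obtain ⟨h1, h2⟩ := tp_ratio ha hat
  rw [h1, mul_pow]
  refine mul_le_mul_of_nonneg_left ?_ (by positivity)
  have h3 := one_add_mul_sub_le_pow (a := a / (a + t)) (by
    have : 0 < a / (a + t) := by positivity
    linarith) m
  nlinarith [Nat.cast_nonneg (α := ℝ) m]

theorem tp_second {a t : ℝ} (ha : 0 < a) (hat : 0 < a + t) (ht : t ≤ 0) (m : ℕ) :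
    (1 / a) ^ m * (1 + m * (-t / a) + m * ((m : ℝ) - 1) / 2 * (-t / a) ^ 2) ≤ (1 / (a + t)) ^ m := by
  obtain ⟨h1, h2⟩ := tp_ratio ha hat
  have h0 : 0 ≤ -t / a := div_nonneg (by linarith) ha.le
  rw [h1, mul_pow]
  exact mul_le_mul_of_nonneg_left ((tp_bern2 h0 m).trans
    (pow_le_pow_left₀ (by linarith) h2 m)) (by positivity)

theorem eu_nb (D : S d) (e : Dir d) :
    eu (nb D e) = eu D + (1 + (if e.2 then 2 else -2) * (D e.1 : ℝ)) := by
  have : ∀ j, ((nb D e j : ℤ) : ℝ) ^ 2 = (D j : ℝ) ^ 2 +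
      if j = e.1 then 1 + (if e.2 then 2 else -2) * (D e.1 : ℝ) else 0 := by
    intro j
    by_cases h : j = e.1
    · subst h
      cases h2 : e.2 <;> simp [nb, h2] <;> ring
    · simp [nb, h]
  simp only [eu, this, Finset.sum_add_distrib, Finset.sum_ite_eq', Finset.mem_univ, if_true]

/-- The subharmonic function. -/
noncomputable def tpu (D : S d) : ℝ := (1 / (1 + eu D)) ^ (8 * d ^ 2 + 2)

theorem tpu_neg (D : S d) : tpu (-D) = tpu D := by simp [tpu, eu]

theorem tpu_bounds (D : S d) : 0 < tpu D ∧ tpu D ≤ 1 := by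
  have := eu_nonneg D
  exact ⟨by unfold tpu; positivity,
    pow_le_one₀ (by positivity) ((div_le_one (by linarith)).2 (by linarith))⟩

theorem tpu_sub (hd : 1 ≤ d) {D : S d} (hD : D ≠ 0) :
    tpu D / (1 + eu D) ≤ ∑ e : Dir d, (tpu (nb D e) - tpu D) := by
  obtain ⟨i, hi⟩ := exists_nrm_eq hd D
  have hn : (1 : ℝ) ≤ nrm D := by
    have : nrm D ≠ 0 := fun h => hD (nrm_eq_zero.1 h)
    exact_mod_cast Nat.one_le_iff_ne_zero.2 this
  have hd0 : (1 : ℝ) ≤ d := by exact_mod_cast hd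
  have h1 := nrm_sq_le_eu D
  have h2 := eu_le D
  set a := 1 + eu D with ha
  have ha0 : 0 < a := by nlinarith
  set m := 8 * d ^ 2 + 2 with hm
  have hmr : (m : ℝ) = 8 * (d : ℝ) ^ 2 + 2 := by rw [hm]; push_cast; ring
  let t : Dir d → ℝ := fun e => 1 + (if e.2 then 2 else -2) * (D e.1 : ℝ)
  have ht : ∀ e, 1 + eu (nb D e) = a + t e := fun e => by rw [eu_nb, ha]; simp only [t]; ring
  have hat : ∀ e, 0 < a + t e := fun e => by rw [← ht]; linarith [eu_nonneg (nb D e)]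
  let e0 : Dir d := (i, decide (D i < 0))
  have ht0 : t e0 = 1 - 2 * nrm D := by
    have h3 : (|(D i : ℝ)|) = nrm D := by exact_mod_cast hi
    by_cases h : D i < 0
    · have h4 : (D i : ℝ) < 0 := by exact_mod_cast h
      rw [abs_of_neg h4] at h3
      simp only [t, e0, h, decide_true, if_true]; linarith
    · have h4 : (0 : ℝ) ≤ D i := by exact_mod_cast not_lt.1 h
      rw [abs_of_nonneg h4] at h3
      simp only [t, e0, h, decide_false, Bool.false_eq_true, if_false]; linarith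
  have h5 : ∀ e, tpu D * (m * (-t e / a) +
      if e = e0 then m * ((m : ℝ) - 1) / 2 * (-t e0 / a) ^ 2 else 0) ≤ tpu (nb D e) - tpu D := by
    intro e
    simp only [tpu, ht, ← ha, ← hm]
    by_cases he : e = e0
    · subst he
      have := tp_second ha0 (hat e0) (by rw [ht0]; linarith) m
      rw [if_pos rfl]; linarith
    · have := tp_first ha0 (hat e) m
      rw [if_neg he]; linarith
  refine le_trans ?_ (Finset.sum_le_sum fun e _ => h5 e)
  have h6 : ∑ e : Dir d, t e = 2 * d := by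
    simp only [t, Fintype.sum_prod_type, Fintype.sum_bool, if_true, Bool.false_eq_true, if_false]
    rw [Finset.sum_congr rfl (g := fun _ => (2 : ℝ)) fun j _ => by ring]
    simp [mul_comm]
  rw [← Finset.mul_sum, Finset.sum_add_distrib, ← Finset.mul_sum, ← Finset.sum_div,
    Finset.sum_neg_distrib, h6, Finset.sum_ite_eq', if_pos (Finset.mem_univ _), div_eq_mul_one_div]
  refine mul_le_mul_of_nonneg_left ?_ (tpu_bounds D).1.le
  have h7 : a / (2 * d) ≤ t e0 ^ 2 := by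
    rw [div_le_iff₀ (by positivity), ht0]
    have : (nrm D : ℝ) ^ 2 ≤ (1 - 2 * nrm D) ^ 2 := by nlinarith
    nlinarith
  have h8 : 1 / (2 * d * a) ≤ (-t e0 / a) ^ 2 := by
    rw [div_pow, neg_sq, le_div_iff₀ (by positivity)]
    exact le_of_eq_of_le (by field_simp) h7
  have h9 : 0 ≤ m * ((m : ℝ) - 1) / 2 := by
    rw [hmr, show 8 * (d : ℝ) ^ 2 + 2 - 1 = 8 * d ^ 2 + 1 by ring]; positivity
  have h10 := mul_le_mul_of_nonneg_left h8 h9
  have h11 : m * (-(2 * d : ℝ) / a) + m * ((m : ℝ) - 1) / 2 * (1 / (2 * d * a)) =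
      m / (4 * d) * (1 / a) := by rw [hmr]; field_simp; ring
  have h12 : 1 ≤ (m : ℝ) / (4 * d) := by rw [hmr, one_le_div (by positivity)]; nlinarith
  nlinarith [mul_le_mul_of_nonneg_right h12 (one_div_pos.2 ha0).le]

theorem nb_sub (X Y : S d) (e : Dir d) : nb X e - Y = nb (X - Y) e := by
  rw [sub_eq_add_neg, sub_eq_add_neg, nb_add]

/-- Generator of the potential of the difference. -/
theorem tp_gen (hd : 1 ≤ d) (hF : F.Ok) {A A1 : Finset (Lt d)} (hA : A1 ⊆ A) {β f : Cfg d}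
    {X Y : S d} {B : Finset (S d)} {K : ℕ} (hL : Lev A1 B f K) (hX : X ∈ B) (hY : Y ∈ B)
    (h1 : ∀ z ∈ B, f z ≤ β z ∧ β z < K) (hXY : X ≠ Y) :
    F.Gm / (2 * d) * (tpu (X - Y) / (1 + eu (X - Y))) ≤
      ∑ a ∈ A, rt F.toMd a * (tpu (mvp A1 β X a - mvp A1 β Y a) - tpu (X - Y)) := by
  have hd0 : (0 : ℝ) < d := by exact_mod_cast hd
  have e1 : ∀ a, tpu (mvp A1 β X a - mvp A1 β Y a) - tpu (X - Y) =
      (tpu (mvp A1 β X a - Y) - tpu (X - Y)) + (tpu (mvp A1 β Y a - X) - tpu (Y - X)) := by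
    intro a
    rw [← tpu_neg (mvp A1 β Y a - X), ← tpu_neg (Y - X), neg_sub, neg_sub]
    rcases mvp_one A1 β hXY a with h | h <;> rw [h] <;> ring
  simp only [e1, mul_add, Finset.sum_add_distrib]
  rw [sum_mvp_lev hA (fun z => tpu (z - Y)) hL hX (h1 X hX).1 (h1 X hX).2,
    sum_mvp_lev hA (fun z => tpu (z - X)) hL hY (h1 Y hY).1 (h1 Y hY).2]
  simp only [nb_sub]
  have h2 := tpu_sub hd (sub_ne_zero.2 hXY)
  have h3 := tpu_sub hd (sub_ne_zero.2 hXY.symm)
  have h4 : ∀ D : S d, 0 ≤ tpu D / (1 + eu D) := fun D =>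
    div_nonneg (tpu_bounds D).1.le (by linarith [eu_nonneg D])
  have h5 := hF.1
  refine le_add_of_le_of_nonneg (mul_le_mul (by gcongr; exact (hF.2.1 _).1) h2 (h4 _)
    (div_nonneg (h5.le.trans (hF.2.1 _).1) (by positivity))) ?_
  exact mul_nonneg (div_nonneg (h5.le.trans (hF.2.1 _).1) (by positivity)) ((h4 _).trans h3)

/-- Triple with the number of letters read and a flag for the exit from a box. -/
def st4 (A : Finset (Lt d)) (B : Finset (S d)) (s : T3 d × ℕ × Prop) (a : Lt d) : T3 d × ℕ × Prop :=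
  (st3 A s.1 a, s.2.1 + 1, s.2.2 ∨ (st3 A s.1 a).2.1 ∉ B ∨ (st3 A s.1 a).2.2 ∉ B)

theorem fold_st4 (A : Finset (Lt d)) (B : Finset (S d)) (w : Word d) (s : T3 d × ℕ × Prop)
    (h : ¬ s.2.2 → s.1.2.1 ∈ B) :
    (w.foldl (st4 A B) s).1 = w.foldl (st3 A) s.1 ∧ (w.foldl (st4 A B) s).2.1 = s.2.1 + w.length ∧
      (¬ (w.foldl (st4 A B) s).2.2 → (w.foldl (st4 A B) s).1.2.1 ∈ B) := by
  induction w generalizing s with
  | nil => exact ⟨rfl, rfl, h⟩
  | cons a w ih =>
    obtain ⟨h1, h2, h3⟩ := ih (st4 A B s a) fun h0 => not_not.1 fun h4 => h0 (Or.inr (Or.inl h4))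
    refine ⟨h1, ?_, h3⟩
    rw [List.foldl_cons, h2, List.length_cons]
    simp only [st4]; omega

theorem tp_exit (hd : 1 ≤ d) (hF : F.Ok) {A A1 : Finset (Lt d)} (hA : A1 ⊆ A) (x : S d) (r T : ℕ)
    (s : T3 d) :
    pr (wls F.toMd A T) (fun ws => (ws.flatten.foldl (st4 A1 (bx x r)) (s, 0, False)).2.2) ≤
      Real.exp (2 * F.Gp * T) *
        (Real.exp (nrm (s.2.1 - x)) + Real.exp (nrm (s.2.2 - x))) / Real.exp r := by
  classical
  let g : S d → ℝ := fun z => Real.exp (min (nrm (z - x)) r : ℕ)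
  have hg0 : ∀ z, 0 < g z := fun z => Real.exp_pos _
  have hg1 : ∀ z, g z ≤ Real.exp r := fun z => Real.exp_le_exp.2 (by exact_mod_cast min_le_right _ _)
  have hg2 : ∀ z, z ∉ bx x r → g z = Real.exp r := fun z hz => by
    simp only [g]; rw [min_eq_right (not_le.1 (mt mem_bx.2 hz)).le]
  have hg3 : ∀ z e, g (nb z e) - g z ≤ 2 * g z := by
    intro z e
    have h1 := nrm_tri (nb z e) z x
    rw [nrm_nb] at h1
    have h2 : g (nb z e) ≤ Real.exp 1 * g z := by
      simp only [g]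
      rw [← Real.exp_add, Real.exp_le_exp]
      exact_mod_cast (by omega : min (nrm (nb z e - x)) r ≤ 1 + min (nrm (z - x)) r)
    nlinarith [Real.exp_one_lt_three, hg0 z]
  let φ : T3 d × ℕ × Prop → ℝ := fun s => if s.2.2 then Real.exp r else g s.1.2.1 + g s.1.2.2
  have hφ0 : ∀ s, 0 ≤ φ s := fun s => by
    simp only [φ]; split_ifs
    · positivity
    · exact (add_pos (hg0 _) (hg0 _)).le
  have hφb : Bdd φ := ⟨2 * Real.exp r, fun s => by
    rw [abs_of_nonneg (hφ0 s)]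
    simp only [φ]; split_ifs
    · linarith [Real.exp_pos (r : ℝ)]
    · linarith [hg1 s.1.2.1, hg1 s.1.2.2]⟩
  have hGp : 0 ≤ F.Gp := hF.1.le.trans ((hF.2.1 0).1.trans (hF.2.1 0).2)
  have h1 := gen_le hF A (st4 A1 (bx x r)) (fun _ => True) (fun _ _ _ _ => trivial) φ hφb
    (2 * F.Gp) 0 (by positivity) le_rfl (fun s _ => hφ0 s) (fun s _ => by
      by_cases ho : s.2.2
      · have : ∀ a, φ (st4 A1 (bx x r) s a) - φ s = 0 := fun a => by simp [φ, st4, ho]
        simp only [this, mul_zero, Finset.sum_const_zero, add_zero]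
        exact mul_nonneg (by positivity) (hφ0 s)
      · have h2 : ∀ a, φ (st4 A1 (bx x r) s a) - φ s ≤
            (g (mvp A1 s.1.1 s.1.2.1 a) - g s.1.2.1) + (g (mvp A1 s.1.1 s.1.2.2 a) - g s.1.2.2) := by
          intro a
          simp only [φ, st4, st3, ho, false_or, if_false]
          split_ifs with h3
          · rcases h3 with h3 | h3
            · linarith [hg2 _ h3, hg0 (mvp A1 s.1.1 s.1.2.2 a)]
            · linarith [hg2 _ h3, hg0 (mvp A1 s.1.1 s.1.2.1 a)]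
          · linarith
        refine (Finset.sum_le_sum fun a _ =>
          mul_le_mul_of_nonneg_left (h2 a) (rt_nonneg hF a)).trans ?_
        simp only [mul_add, Finset.sum_add_distrib]
        have h3 := sum_mvp_le hd hF hA g s.1.1 s.1.2.1 (by linarith [hg0 s.1.2.1]) (hg3 _)
        have h4 := sum_mvp_le hd hF hA g s.1.1 s.1.2.2 (by linarith [hg0 s.1.2.2]) (hg3 _)
        simp only [φ, if_neg ho]
        linarith) T (s, 0, False) trivial
  rw [le_div_iff₀ (Real.exp_pos _), pr, ← ex_mul_right]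
  refine (ex_mono ((Bdd.ind _).mul (Bdd.const _)) (hφb.comp _) fun ws _ => ?_).trans
    (h1.trans ?_)
  · by_cases ho : (ws.flatten.foldl (st4 A1 (bx x r)) (s, 0, False)).2.2
    · simp only [φ, if_pos ho, ind_pos ho, one_mul, le_refl]
    · rw [ind_neg ho, zero_mul]; exact hφ0 _
  · simp only [φ, if_false, zero_mul, add_zero]
    refine mul_le_mul_of_nonneg_left (add_le_add ?_ ?_) (Real.exp_pos _).le <;>
      exact Real.exp_le_exp.2 (by exact_mod_cast min_le_left _ _)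

theorem tp_main (hd : 1 ≤ d) (hF : F.Ok) {A A1 : Finset (Lt d)} (hA : A1 ⊆ A) {Q1 : Finset (S d)}
    (hC : Closed A1 Q1) {x : S d} {r K : ℕ} (hQ : bx x r ⊆ Q1) {f β : Cfg d}
    (hL : Lev A1 (bx x r) f K) (hf : ∀ z ∈ bx x r, f z ≤ β z) (hm : mass β Q1 < K) {y : S d}
    (hy : y ∈ bx x r) {ρ : ℝ} (hρ : 0 ≤ ρ) (T : ℕ) :
    tpu (x - y) - (1 / (1 + ρ)) ^ (8 * d ^ 2 + 2) ≤
      pr (wls F.toMd A T) (fun ws => (ws.flatten.foldl (st3 A1) (β, x, y)).2.1 =
        (ws.flatten.foldl (st3 A1) (β, x, y)).2.2 ∧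
        (ws.flatten.foldl (st3 A1) (β, x, y)).2.1 ∈ bx x r) +
      pr (wls F.toMd A T) (fun ws => (ws.flatten.foldl (st4 A1 (bx x r)) ((β, x, y), 0, False)).2.2) +
      Real.exp (-(T * (F.Gm / (2 * d * (1 + ρ)) / 2))) := by
  classical
  have hd0 : (1 : ℝ) ≤ d := by exact_mod_cast hd
  have hGm := hF.1
  set κ := F.Gm / (2 * d * (1 + ρ)) with hκ
  have hκ0 : 0 < κ := by positivity
  set u0 := (1 / (1 + ρ)) ^ (8 * d ^ 2 + 2) with hu0
  have hu1 : 0 ≤ u0 := by positivity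
  have hu2 : u0 ≤ 1 := pow_le_one₀ (by positivity) ((div_le_one (by linarith)).2 (by linarith))
  set Λ := ∑ a ∈ A, rt F.toMd a with hΛ
  have hx := self_mem_bx x r
  have hΛκ : κ ≤ Λ := by
    have h1 : ((x, some ((⟨0, hd⟩, true), β x)) : Lt d) ∈ A :=
      hA ((hL x hx _ _).2 ⟨hf x hx, (le_mass β (hQ hx)).trans_lt hm⟩)
    refine le_trans ?_ (Finset.single_le_sum (fun a _ => rt_nonneg hF a) h1)
    simp only [rt, hκ]
    exact div_le_div₀ (hGm.le.trans (hF.2.1 _).1) (hF.2.1 _).1 (by positivity) (by nlinarith)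
  have hΛ0 : 0 < Λ := hκ0.trans_le hΛκ
  set q := Λ / (Λ + κ) with hq
  have hq0 : 0 < q := by positivity
  have hq1 : q ≤ 1 := (div_le_one (by positivity)).2 (by linarith)
  let Φ : T3 d × ℕ × Prop → ℝ := fun s =>
    if s.2.2 ∨ s.1.2.1 = s.1.2.2 then 1 else q ^ s.2.1 * (tpu (s.1.2.1 - s.1.2.2) - u0)
  have hb : ∀ (n : ℕ) (D : S d), |q ^ n * (tpu D - u0)| ≤ q ^ n := fun n D => by
    rw [abs_mul, abs_of_pos (pow_pos hq0 n)]
    refine mul_le_of_le_one_right (pow_pos hq0 n).le (abs_le.2 ⟨?_, ?_⟩) <;>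
      linarith [(tpu_bounds D).1, (tpu_bounds D).2]
  have hΦ1 : ∀ s, q ^ s.2.1 * (tpu (s.1.2.1 - s.1.2.2) - u0) ≤ Φ s := fun s => by
    simp only [Φ]; split_ifs
    · exact (le_abs_self _).trans ((hb _ _).trans (pow_le_one₀ hq0.le hq1))
    · exact le_rfl
  have hΦb : Bdd Φ := ⟨1, fun s => by
    simp only [Φ]; split_ifs
    · simp
    · exact (hb _ _).trans (pow_le_one₀ hq0.le hq1)⟩
  have h1 := gen_ge hF A (st4 A1 (bx x r)) (fun s => mass s.1.1 Q1 < K ∧
      (∀ z ∈ bx x r, f z ≤ s.1.1 z) ∧ (¬ s.2.2 → s.1.2.1 ∈ bx x r ∧ s.1.2.2 ∈ bx x r))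
    (fun s a h _ => ⟨by simpa only [st4, st3, mass_mv hC] using h.1, lev_mv hL h.2.1 a,
      fun h0 => ⟨not_not.1 fun h4 => h0 (Or.inr (Or.inl h4)),
        not_not.1 fun h4 => h0 (Or.inr (Or.inr h4))⟩⟩) Φ hΦb 0 le_rfl (fun s h => by
      rw [zero_mul]
      by_cases ho : s.2.2 ∨ s.1.2.1 = s.1.2.2
      · refine (Finset.sum_eq_zero fun a _ => ?_).ge
        have : (st4 A1 (bx x r) s a).2.2 ∨
            (st4 A1 (bx x r) s a).1.2.1 = (st4 A1 (bx x r) s a).1.2.2 := by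
          rcases ho with ho | ho
          · exact Or.inl (Or.inl ho)
          · right; simp only [st4, st3, ho]
        simp only [Φ, if_pos ho, if_pos this, sub_self, mul_zero]
      · obtain ⟨ho1, ho2⟩ := not_or.1 ho
        have h2 := tp_gen hd hF hA hL (h.2.2 ho1).1 (h.2.2 ho1).2 (β := s.1.1)
          (fun z hz => ⟨h.2.1 z hz, (le_mass _ (hQ hz)).trans_lt h.1⟩) ho2
        set D := s.1.2.1 - s.1.2.2
        have h3 : κ * (tpu D - u0) ≤ F.Gm / (2 * d) * (tpu D / (1 + eu D)) := by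
          have h4 := eu_nonneg D
          have h5 := (tpu_bounds D).1
          rcases le_total (eu D) ρ with h6 | h6
          · calc κ * (tpu D - u0) ≤ κ * tpu D := by nlinarith
              _ = F.Gm / (2 * d) * (tpu D / (1 + ρ)) := by rw [hκ]; field_simp
              _ ≤ _ := by gcongr
          · have h7 : tpu D ≤ u0 := by rw [hu0, tpu]; gcongr
            exact le_trans (by nlinarith) (by positivity : 0 ≤ F.Gm / (2 * d) * (tpu D / (1 + eu D)))
        refine le_trans ?_ (Finset.sum_le_sum fun a _ => mul_le_mul_of_nonneg_left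
          (sub_le_sub_right (hΦ1 (st4 A1 (bx x r) s a)) (Φ s)) (rt_nonneg hF a))
        have h8 : ∀ a, rt F.toMd a * (q ^ (st4 A1 (bx x r) s a).2.1 *
            (tpu ((st4 A1 (bx x r) s a).1.2.1 - (st4 A1 (bx x r) s a).1.2.2) - u0) - Φ s) =
            q ^ (s.2.1 + 1) * (rt F.toMd a *
              (tpu (mvp A1 s.1.1 s.1.2.1 a - mvp A1 s.1.1 s.1.2.2 a) - tpu D)) -
            rt F.toMd a * (q ^ s.2.1 * (1 - q) * (tpu D - u0)) := fun a => by
          simp only [Φ, if_neg ho, st4, st3, D]; ring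
        simp only [h8]
        rw [Finset.sum_sub_distrib, ← Finset.mul_sum, ← Finset.sum_mul, ← hΛ]
        have h9 : Λ * (q ^ s.2.1 * (1 - q) * (tpu D - u0)) =
            q ^ (s.2.1 + 1) * (κ * (tpu D - u0)) := by
          rw [pow_succ, hq]; field_simp; ring
        rw [h9, ← mul_sub]
        exact mul_nonneg (pow_pos hq0 _).le (by linarith)) T ((β, x, y), 0, False)
    ⟨hm, hf, fun _ => ⟨hx, hy⟩⟩
  have h2 := hΦ1 ((β, x, y), 0, False)
  rw [zero_mul, Real.exp_zero, one_mul] at h1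
  simp only [pow_zero, one_mul] at h2
  have hpb : Bdd fun ws : List (Word d) => q ^ ws.flatten.length :=
    Bdd.of01 fun _ => ⟨by positivity, pow_le_one₀ hq0.le hq1⟩
  have h3 : Real.exp (-(T * (Λ * (1 - q)))) ≤ Real.exp (-(T * (κ / 2))) := by
    have : κ / 2 ≤ Λ * (1 - q) := by
      rw [show Λ * (1 - q) = κ * Λ / (Λ + κ) by rw [hq]; field_simp; ring,
        div_le_div_iff₀ two_pos (by positivity)]
      nlinarith
    gcongr
  refine (h2.trans h1).trans (le_trans ?_ (add_le_add_right h3 _))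
  rw [hΛ, ← ex_pow_len hF A hq0.le hq1, pr, pr, ← ex_add _ (Bdd.ind _) (Bdd.ind _),
    ← ex_add _ ((Bdd.ind _).add (Bdd.ind _)) hpb]
  refine ex_mono (hΦb.comp _) (((Bdd.ind _).add (Bdd.ind _)).add hpb) fun ws _ => ?_
  obtain ⟨h4, h5, h6⟩ := fold_st4 A1 (bx x r) ws.flatten ((β, x, y), 0, False) fun _ => hx
  simp only [zero_add] at h4 h5
  rw [← h4, ← h5]
  generalize ws.flatten.foldl (st4 A1 (bx x r)) ((β, x, y), 0, False) = s at *
  have h7 := pow_pos hq0 s.2.1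
  have h8 := ind_nonneg (s.1.2.1 = s.1.2.2 ∧ s.1.2.1 ∈ bx x r)
  have h9 := ind_nonneg s.2.2
  simp only [Φ]
  split_ifs with ho
  · by_cases h10 : s.2.2
    · rw [ind_pos h10]; linarith
    · rw [ind_pos ⟨ho.resolve_left h10, h6 h10⟩]; linarith
  · linarith [(le_abs_self _).trans (hb s.2.1 (s.1.2.1 - s.1.2.2))]

end Pool.Agent.Lib.MP_dd0771_pr.Sc
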