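import Pool.Agent.Lib.MP_dd0771_pr.Sc.Kit

open Filter

namespace Pool.Agent.Lib.MP_dd0771_pr.Sc

theorem trk0_num {F : Fr} (hF : F.Ok) {C : ℝ} (hC : 1 ≤ C) :
    ∀ᶠ n : ℕ in atTop, 4 * s1 F n * VV n ≤ DD F n ∧ ∀ T, T ≤ 2 * s1 F n →
      C ^ T * Real.exp (-((DD F n / 2 : ℕ) : ℝ)) ≤ Real.exp (-(n : ℝ) ^ 3) := by
  obtain ⟨k, hk⟩ := exists_nat_ge (2 * C + 1)
  have hA : 3 ≤ F.A := hF.2.2.2.2.2.2
  filter_upwards [eventually_ge_atTop (2 * k + 4)] with n hn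
  have hs : s1 F n = n ^ (2 * F.A) := by rw [s1, ← pow_mul]
  have hD : DD F n = n ^ (2 * F.A) * n ^ 3 * n := by rw [DD]; ring
  have hn1 : 1 ≤ n := by omega
  refine ⟨?_, fun T hT => ?_⟩
  · rw [hs, hD, VV]
    calc 4 * n ^ (2 * F.A) * n ^ 3 = n ^ (2 * F.A) * n ^ 3 * 4 := by ring
      _ ≤ n ^ (2 * F.A) * n ^ 3 * n := Nat.mul_le_mul_left _ (by omega)
  · have h3 : n ^ 3 ≤ n ^ (2 * F.A) := Nat.pow_le_pow_right hn1 (by omega)
    have h4 : n ^ (2 * F.A) * k ≤ DD F n / 2 := by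
      rw [Nat.le_div_iff_mul_le (by norm_num), hD]
      have h5 : 1 ≤ n ^ 3 := Nat.one_le_pow _ _ hn1
      calc n ^ (2 * F.A) * k * 2 = n ^ (2 * F.A) * 1 * (2 * k) := by ring
        _ ≤ n ^ (2 * F.A) * n ^ 3 * n :=
          Nat.mul_le_mul (Nat.mul_le_mul_left _ h5) (by omega)
    have h6 : C ^ T ≤ Real.exp (C * T) := by
      rw [mul_comm, Real.exp_nat_mul]
      exact pow_le_pow_left₀ (by linarith) (by linarith [Real.add_one_le_exp C]) T
    have h3' : ((n : ℝ)) ^ 3 ≤ (n : ℝ) ^ (2 * F.A) := by exact_mod_cast h3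
    have h4' : (n : ℝ) ^ (2 * F.A) * k ≤ ((DD F n / 2 : ℕ) : ℝ) := by exact_mod_cast h4
    have hT' : (T : ℝ) ≤ 2 * (n : ℝ) ^ (2 * F.A) := by rw [hs] at hT; exact_mod_cast hT
    have hp : (0 : ℝ) ≤ (n : ℝ) ^ (2 * F.A) := by positivity
    calc C ^ T * Real.exp (-((DD F n / 2 : ℕ) : ℝ))
        ≤ Real.exp (C * T) * Real.exp (-((DD F n / 2 : ℕ) : ℝ)) :=
          mul_le_mul_of_nonneg_right h6 (Real.exp_pos _).le
      _ = Real.exp (C * T - ((DD F n / 2 : ℕ) : ℝ)) := by rw [← Real.exp_add]; ring_nf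
      _ ≤ _ := by
          apply Real.exp_le_exp.mpr
          have h7 : C * T ≤ C * (2 * (n : ℝ) ^ (2 * F.A)) :=
            mul_le_mul_of_nonneg_left hT' (by linarith)
          have h8 : (n : ℝ) ^ (2 * F.A) * (2 * C + 1) ≤ (n : ℝ) ^ (2 * F.A) * k :=
            mul_le_mul_of_nonneg_left hk hp
          nlinarith

theorem trk0_ms_succ {d : ℕ} (A : Finset (Lt d)) (η : Cfg d) {ws : List (Word d)} {u : ℕ}
    {w : Word d} (h : ws[u]? = some w) :
    ms A η (ws.take (u + 1)) = mw A (ms A η (ws.take u)) w := by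
  rw [List.take_add_one, h, ms_append]
  rfl

/-- The deterministic part. -/
theorem trk0_det {d : ℕ} {G : Md} (hj : 1 ≤ G.j) {Y1 Y2 : Sys d} {σ τ : St d} {V D Di T : ℕ}
    {ws : List (Word d)} (hlen : ws.length = T)
    (hZ : ∀ x ∈ σ.2, ∀ x' ∈ bx x D, x' ∈ Y1.Z → x' ∈ Y2.Z) (hr : Reg G Y1.Z σ)
    (h2 : σ.2 ⊆ τ.2) (hVD : T * V ≤ D) (hVDi : T * V ≤ Di)
    (hA : ∀ x ∈ σ.2, ∀ a : Lt d, a.1 ∈ bx x Di → (a ∈ Y1.A ↔ a ∈ Y2.A))
    (hs : ∀ u w, ws[u]? = some w → Slow G Y1 V ((σ.2.biUnion fun x => bx x D) ∩ Y1.Z)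
      (ms Y1.A σ.1 (ws.take u)) w)
    (hd : ∀ x ∈ σ.2, ∀ u w i, ws[u]? = some w → ∀ x' ∈ bx x Di,
      mw Y1.A (ms Y1.A σ.1 (ws.take u)) (w.take i) x' ≤
        mw Y2.A (ms Y2.A τ.1 (ws.take u)) (w.take i) x') :
    ∀ u, u ≤ T → tj G Y1 σ ws u ⊆ tj G Y2 τ ws u ∧
      ∀ x' ∈ tj G Y1 σ ws u, ∃ x ∈ σ.2, nrm (x' - x) ≤ u * V := by
  intro u
  induction u with
  | zero =>
    intro _
    refine ⟨h2, fun x' hx' => ⟨x', hx', ?_⟩⟩
    rw [sub_self, nrm_zero]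
    exact Nat.zero_le _
  | succ u ih =>
    intro hu
    obtain ⟨i1, i2⟩ := ih (by omega)
    have hlt : u < ws.length := by omega
    have hw : ws[u]? = some ws[u] := List.getElem?_eq_getElem hlt
    have huV : (u + 1) * V ≤ T * V := Nat.mul_le_mul_right _ hu
    have huV' : (u + 1) * V = u * V + V := by ring
    have hsl := hs u _ hw
    rw [← acs_fst (G := G)] at hsl
    have hsub : (acs G Y1 σ (ws.take u)).2 ⊆ (σ.2.biUnion fun x => bx x D) ∩ Y1.Z := by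
      intro x' hx'
      obtain ⟨x, hx, hn⟩ := i2 x' hx'
      exact Finset.mem_inter.mpr ⟨Finset.mem_biUnion.mpr ⟨x, hx, mem_bx.mpr (by omega)⟩,
        (hr.acs _ x' hx').1⟩
    have hanc : ∀ i, ∀ x' ∈ (acw G Y1 (acs G Y1 σ (ws.take u)) (ws[u].take i)).2,
        ∃ x ∈ σ.2, nrm (x' - x) ≤ (u + 1) * V := by
      intro i x' hx'
      obtain ⟨y, hy, hn⟩ := hsl.anc hsub i x' hx'
      obtain ⟨x, hx, hn'⟩ := i2 y hy
      have := nrm_tri x' y x
      exact ⟨x, hx, by omega⟩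
    constructor
    · show (acs G Y1 σ (ws.take (u + 1))).2 ⊆ (acs G Y2 τ (ws.take (u + 1))).2
      rw [acs_take_succ _ _ hw, acs_take_succ _ _ hw]
      refine acw_cmp hj (B := σ.2.biUnion fun x => bx x (T * V)) _ ?_ (hr.acs _) i1 ?_ ?_ ?_
      · intro x' hx'
        obtain ⟨x, hx, hb⟩ := Finset.mem_biUnion.mp hx'
        exact hZ x hx x' (bx_mono x hVD hb)
      · intro a ha
        obtain ⟨x, hx, hb⟩ := Finset.mem_biUnion.mp ha
        exact hA x hx a (bx_mono x hVDi hb)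
      · intro i x' hx'
        obtain ⟨x, hx, hn⟩ := hanc i x' hx'
        exact Finset.mem_biUnion.mpr ⟨x, hx, mem_bx.mpr (by omega)⟩
      · intro i x' hx'
        obtain ⟨x, hx, hb⟩ := Finset.mem_biUnion.mp hx'
        rw [acs_fst, acs_fst]
        exact hd x hx u _ i hw x' (bx_mono x hVDi hb)
    · intro x' hx'
      have hx'' : x' ∈ (acs G Y1 σ (ws.take (u + 1))).2 := hx'
      rw [acs_take_succ _ _ hw] at hx''
      have := hanc ws[u].length x'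
      rw [List.take_length] at this
      exact this hx''

theorem s_trk0 {d : ℕ} {F : Fr} (hd : 2 ≤ d) (hF : F.Ok)
    (hEARLY : S_EARLY d F) :
    S_TRK0 d F := by
  obtain ⟨C, hC, hE⟩ := hEARLY
  have hj : 1 ≤ F.toMd.j := by rcases hF.2.2.2.1 with h | h <;> omega
  filter_upwards [trk0_num hF hC] with n hn
  intro A Y1 Y2 Q1 Do T σ τ h1 h2 hcl hZ hr hsub hDo hT hx
  obtain ⟨n1, n2⟩ := hn
  have hTV : 2 * (T * VV n) ≤ DD F n := by
    have := Nat.mul_le_mul_right (VV n) hT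
    calc 2 * (T * VV n) ≤ 2 * (2 * s1 F n * VV n) := by omega
      _ = 4 * s1 F n * VV n := by ring
      _ ≤ _ := n1
  have hDi : Do - DD F n / 2 ≤ Do := Nat.sub_le _ _
  refine le_trans (pr_mono (E' := fun ws => ∃ x ∈ σ.2, ∃ u w i, ws[u]? = some w ∧
    ∃ x' ∈ bx x (Do - DD F n / 2), mw Y2.A (ms Y2.A τ.1 (ws.take u)) (w.take i) x' <
      mw Y1.A (ms Y1.A σ.1 (ws.take u)) (w.take i) x') ?_) ?_
  · intro ws hws hev
    obtain ⟨hs, u, hu, hbad⟩ := hev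
    by_contra hno
    have hd' : ∀ x ∈ σ.2, ∀ u w i, ws[u]? = some w → ∀ x' ∈ bx x (Do - DD F n / 2),
        mw Y1.A (ms Y1.A σ.1 (ws.take u)) (w.take i) x' ≤
          mw Y2.A (ms Y2.A τ.1 (ws.take u)) (w.take i) x' := by
      intro x hx' u w i hw x' hb
      by_contra hlt
      exact hno ⟨x, hx', u, w, i, hw, x', hb, not_le.mp hlt⟩
    have hlen := (wls_mem hF hws).1
    rcases hbad with hbad | ⟨x, hx', x', hb, hlt⟩
    · refine hbad (trk0_det hj hlen hZ hr hsub (D := DD F n) (Di := Do - DD F n / 2) (by omega)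
        (by omega) ?_ hs hd' u hu).1
      intro x hx' a ha
      exact (hx x hx').2.1 a (bx_mono x hDi ha)
    · cases u with
      | zero => exact absurd ((hx x hx').2.2 x' (bx_mono x hDi hb)) (not_le.mpr hlt)
      | succ u =>
        have hlt' : u < ws.length := by omega
        have hw : ws[u]? = some ws[u] := List.getElem?_eq_getElem hlt'
        rw [trk0_ms_succ _ _ hw, trk0_ms_succ _ _ hw] at hlt
        have := hd' x hx' u _ ws[u].length hw x' hb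
        rw [List.take_length] at this
        omega
  · refine le_trans (pr_union_le _ σ.2 _) ?_
    rw [mul_assoc, ← nsmul_eq_mul]
    refine Finset.sum_le_card_nsmul _ _ _ fun x hx' => ?_
    refine le_trans (hE A Y1.A Y2.A Q1 x Do (Do - DD F n / 2) T σ.1 τ.1 h1 h2 hcl (hx x hx').1
      (fun y hy q => (hx x hx').2.1 (y, some q) hy) hDi (hx x hx').2.2) ?_
    have hc : (Do : ℝ) - ((Do - DD F n / 2 : ℕ) : ℝ) = ((DD F n / 2 : ℕ) : ℝ) := by
      rw [Nat.cast_sub (by omega)]; ring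
    rw [hc, mul_assoc]
    exact mul_le_mul_of_nonneg_left (n2 T hT) (by positivity)

end Pool.Agent.Lib.MP_dd0771_pr.Sc
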