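import Pool.Agent.Lib.MP_dd0771_pr.Sc.Kit

/-! One try: definitions and the freeze phase. -/

open Filter

namespace Pool.Agent.Lib.MP_dd0771_pr.Sc

variable {d : ℕ}

/-- Restriction of a configuration. -/
def tryRes (B : Finset (S d)) (η : Cfg d) : Cfg d := fun x => if x ∈ B then η x else 0
/-- The local box of `z`. -/
noncomputable def tryBox (F : Fr) (n : ℕ) (z : S d) : Finset (S d) := bx z (4 * DD F n)
noncomputable def tryLoc (F : Fr) (n : ℕ) (Y : Finset (S d)) : Finset (S d) :=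
  Y.biUnion (tryBox F n)
noncomputable def tryAl (F : Fr) (K n : ℕ) (Y : Finset (S d)) : Finset (Lt d) :=
  Y.biUnion fun z => al K (tryBox F n z)
/-- The local world at `z` is alive after `ws`. -/
def tryAlive (F : Fr) (K n : ℕ) (z : S d) (ξ : Cfg d) (ws : List (Word d)) : Prop :=
  (acs F.toMd ⟨al K (tryBox F n z), bx z (2 * DD F n)⟩
    (ini F.toMd (bx z (2 * DD F n)) {z} (tryRes (tryBox F n z) ξ)) ws).2.Nonempty
/-- The local system at `z` with the small zone. -/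
noncomputable def tryLs (F : Fr) (K n : ℕ) (z : S d) (ξ : Cfg d) (ws : List (Word d)) : St d :=
  acs F.toMd ⟨al K (tryBox F n z), bx z (DD F n)⟩ (tryRes (tryBox F n z) ξ, {z}) ws
/-- The initial configuration of the local world after the freeze windows `ws`. -/
noncomputable def tryPB (F : Fr) (K n : ℕ) (pc : ℝ) (ws : List (Word d)) (z : S d) :
    PMF (Cfg d) :=
  (piz F.toMd K pc (tryBox F n z) z).bind fun ζ0 =>
    (thin (sl F.toMd K pc F.j) (sl F.toMd K pc 0) (ms (al K (tryBox F n z)) ζ0 ws z)).map fun v =>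
      Function.update (ms (al K (tryBox F n z)) ζ0 ws) z v
noncomputable def tryPX (F : Fr) (K n : ℕ) (pc : ℝ) (ws : List (Word d)) :
    List (S d) → PMF (Cfg d)
  | [] => PMF.pure 0
  | z :: zs => (tryPB F K n pc ws z).bind fun ζ => (tryPX F K n pc ws zs).map fun ξ => ζ + ξ
/-- The boxes are disjoint. -/
def tryFar (F : Fr) (n : ℕ) (Y : Finset (S d)) : Prop :=
  ∀ z ∈ Y, ∀ z' ∈ Y, z ≠ z' → Disjoint (tryBox F n z) (tryBox F n z')
/-- The frozen letters. -/
def tryLow (F : Fr) (Y : Finset (S d)) : Finset (Lt d) := Y.biUnion (low F.toMd)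
/-- The state of the world is below the local systems. -/
def tryGW (F : Fr) (K n : ℕ) (Y : Finset (S d)) (ξ : Cfg d) (ws : List (Word d)) (σ : St d) :
    Prop :=
  ∀ x ∈ σ.2, ∃ z ∈ Y, F.j ≤ ξ z ∧ x ∈ (tryLs F K n z ξ ws).2 ∧
    ∀ x' ∈ bx z (2 * DD F n), σ.1 x' ≤ (tryLs F K n z ξ ws).1 x'
/-- The local systems are below the state `τ`. -/
def tryGA (F : Fr) (K n : ℕ) (Y : Finset (S d)) (ξ : Cfg d) (ws : List (Word d)) (τ : St d) :
    Prop :=
  ∀ z ∈ Y, F.j ≤ ξ z → (tryLs F K n z ξ ws).2 ⊆ τ.2 ∧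
    ∀ x' ∈ bx z (2 * DD F n), (tryLs F K n z ξ ws).1 x' ≤ τ.1 x'
/-- The error of a short tracking. -/
noncomputable def trySe (F : Fr) (n T : ℕ) (Y : Sys d) (Q : Finset (S d)) (z : S d) (η : Cfg d) :
    ℝ :=
  pr (wls F.toMd Y.A T) (fun ws => ∃ u w, ws[u]? = some w ∧
    ¬ Slow F.toMd Y (VV n) (bx z (DD F n) ∩ Y.Z) (ms Y.A η (ws.take u)) w) +
  min 1 ((mass η Q + 1) * Real.exp (-(n : ℝ) ^ 3))

end Pool.Agent.Lib.MP_dd0771_pr.Sc
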