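import Pool.Agent.Lib.MP_dd0771_pr.Sc.TryA

/-! One try: the law of the local configurations after the freeze. -/

open Filter

namespace Pool.Agent.Lib.MP_dd0771_pr.Sc

variable {d : ℕ} {F : Fr}

theorem try_bind_congr {α β : Type} {p : PMF α} {f g : α → PMF β}
    (h : ∀ a ∈ p.support, f a = g a) : p.bind f = p.bind g := by
  ext b
  simp only [PMF.bind_apply]
  refine tsum_congr fun a => ?_
  by_cases ha : p a = 0
  · simp [ha]
  · rw [h a (by simpa using ha)]

theorem try_al_fst {K : ℕ} {Q : Finset (S d)} {a : Lt d} (h : a ∈ al K Q) : a.1 ∈ Q := by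
  obtain ⟨x, o⟩ := a
  rcases o with _ | ⟨e, k⟩
  · exact mem_al_none.1 h
  · exact (mem_al_some.1 h).1

theorem try_self (n : ℕ) (z : S d) : z ∈ tryBox F n z := self_mem_bx _ _

theorem try_flt_flt {B B' : Finset (Lt d)} {ws : List (Word d)}
    (h : ∀ w ∈ ws, ∀ a ∈ w, a ∈ B → a ∈ B') : flt B (flt B' ws) = flt B ws := by
  unfold flt
  rw [List.map_map]
  refine List.map_congr_left fun w hw => ?_
  simp only [Function.comp, List.filter_filter]
  refine List.filter_congr fun a ha => ?_
  by_cases hb : a ∈ B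
  · simp [hb, h w hw a ha hb]
  · simp [hb]

theorem try_pb_supp {K n : ℕ} {pc : ℝ} {ws : List (Word d)} {z : S d} {ζ : Cfg d}
    (h : ζ ∈ (tryPB F K n pc ws z).support) {x : S d} (hx : x ∉ tryBox F n z) : ζ x = 0 := by
  unfold tryPB at h
  obtain ⟨ζ0, h0, h1⟩ := (PMF.mem_support_bind_iff _ _ _).1 h
  obtain ⟨v, _, rfl⟩ := (PMF.mem_support_map_iff _ _ _).1 h1
  have hne : x ≠ z := fun e => hx (by rw [e]; exact try_self n z)
  rw [Function.update_of_ne hne, ms_outside (closed_al K _) _ _ hx]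
  unfold piz at h0
  exact (pc_support h0).1 x hx

theorem try_px_supp {K n : ℕ} {pc : ℝ} {ws : List (Word d)} (zs : List (S d)) :
    ∀ {ξ : Cfg d}, ξ ∈ (tryPX F K n pc ws zs).support → ∀ x, (∀ z ∈ zs, x ∉ tryBox F n z) →
      ξ x = 0 := by
  induction zs with
  | nil =>
    intro ξ h x _
    have : ξ = 0 := by simpa [tryPX] using h
    rw [this]; rfl
  | cons y ys ih =>
    intro ξ h x hx
    unfold tryPX at h
    obtain ⟨ζ, h0, h1⟩ := (PMF.mem_support_bind_iff _ _ _).1 h
    obtain ⟨ξ', h2, rfl⟩ := (PMF.mem_support_map_iff _ _ _).1 h1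
    have a1 := try_pb_supp h0 (hx y List.mem_cons_self)
    have a2 := ih h2 x fun z hz => hx z (List.mem_cons_of_mem _ hz)
    simp [a1, a2]

theorem try_res_head {K n : ℕ} {pc : ℝ} {ws : List (Word d)} {y : S d} {ys : List (S d)}
    (hp : ∀ z ∈ ys, Disjoint (tryBox F n y) (tryBox F n z)) {ζ ξ : Cfg d}
    (h0 : ζ ∈ (tryPB F K n pc ws y).support) (h1 : ξ ∈ (tryPX F K n pc ws ys).support) :
    tryRes (tryBox F n y) (ζ + ξ) = ζ := by
  funext x
  unfold tryRes
  split_ifs with hx
  · have := try_px_supp ys h1 x fun z hz => Finset.disjoint_left.1 (hp z hz) hx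
    simp [this]
  · exact (try_pb_supp h0 hx).symm

theorem try_res_tail {K n : ℕ} {pc : ℝ} {ws : List (Word d)} {y z : S d}
    (hp : Disjoint (tryBox F n y) (tryBox F n z)) {ζ : Cfg d}
    (h0 : ζ ∈ (tryPB F K n pc ws y).support) (ξ : Cfg d) :
    tryRes (tryBox F n z) (ζ + ξ) = tryRes (tryBox F n z) ξ := by
  funext x
  unfold tryRes
  split_ifs with hx
  · have := try_pb_supp h0 (Finset.disjoint_right.1 hp hx)
    simp [this]
  · rfl

theorem try_px_resL {K n : ℕ} {pc : ℝ} (ws : List (Word d)) (zs : List (S d))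
    (hp : zs.Pairwise fun y z => Disjoint (tryBox F n y) (tryBox F n z)) {z : S d} (hz : z ∈ zs) :
    (tryPX F K n pc ws zs).map (tryRes (tryBox F n z)) = tryPB F K n pc ws z := by
  induction zs with
  | nil => simp at hz
  | cons y ys ih =>
    rw [List.pairwise_cons] at hp
    unfold tryPX
    rw [PMF.map_bind]
    rcases List.mem_cons.1 hz with rfl | hz'
    · rw [try_bind_congr (g := fun ζ => PMF.pure ζ), PMF.bind_pure]
      intro ζ h0
      rw [PMF.map_comp, ← PMF.bind_pure_comp,
        try_bind_congr (g := fun _ => PMF.pure ζ), PMF.bind_const]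
      intro ξ h1
      simp only [Function.comp]
      rw [try_res_head hp.1 h0 h1]
    · rw [try_bind_congr (g := fun _ => tryPB F K n pc ws z), PMF.bind_const]
      intro ζ h0
      rw [PMF.map_comp, ← ih hp.2 hz']
      congr 1
      funext ξ
      exact try_res_tail (hp.1 z hz') h0 ξ

theorem try_pw {n : ℕ} {Y : Finset (S d)} (hY : tryFar F n Y) :
    Y.toList.Pairwise fun y z => Disjoint (tryBox F n y) (tryBox F n z) :=
  (Finset.nodup_toList Y).pairwise_of_forall_ne fun a ha b hb hab =>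
    hY a (Finset.mem_toList.1 ha) b (Finset.mem_toList.1 hb) hab

theorem try_px_res {K n : ℕ} {pc : ℝ} {Y : Finset (S d)} (hY : tryFar F n Y)
    (ws : List (Word d)) {z : S d} (hz : z ∈ Y) :
    (tryPX F K n pc ws Y.toList).map (tryRes (tryBox F n z)) = tryPB F K n pc ws z :=
  try_px_resL ws _ (try_pw hY) (Finset.mem_toList.2 hz)

theorem try_pb_congr {K n : ℕ} {pc : ℝ} {ws ws' : List (Word d)} {z : S d}
    (h : flt (al K (tryBox F n z)) ws = flt (al K (tryBox F n z)) ws') :
    tryPB F K n pc ws z = tryPB F K n pc ws' z := by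
  have : ∀ ζ, ms (al K (tryBox F n z)) ζ ws = ms (al K (tryBox F n z)) ζ ws' := fun ζ => by
    rw [← ms_flt (Finset.Subset.refl _) ζ ws, h, ms_flt (Finset.Subset.refl _)]
  unfold tryPB
  simp only [this]

theorem try_px_congr {K n : ℕ} {pc : ℝ} {ws ws' : List (Word d)} (zs : List (S d))
    (h : ∀ z ∈ zs, flt (al K (tryBox F n z)) ws = flt (al K (tryBox F n z)) ws') :
    tryPX F K n pc ws zs = tryPX F K n pc ws' zs := by
  induction zs with
  | nil => rfl
  | cons y ys ih =>
    unfold tryPX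
    rw [try_pb_congr (h y List.mem_cons_self), ih fun z hz => h z (List.mem_cons_of_mem _ hz)]

theorem try_law1 (hF : F.Ok) (hL : Low d F) {K n : ℕ} {pc : ℝ} (hK : KP F K pc) (z : S d) (T : ℕ) :
    ((wls F.toMd (al K (tryBox F n z) \ low F.toMd z) T).bind fun ws => tryPB F K n pc ws z) =
      mu F.toMd K pc (tryBox F n z) := by
  have hj : F.j ≤ 2 := by rcases hF.2.2.2.1 with h | h <;> omega
  have hs := (hL.hSTAT K pc (tryBox F n z) hK).2.2.1 z (try_self n z) T
  have ht := (thin_spec (sl F.toMd K pc F.j) (sl F.toMd K pc 0) fun m =>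
    sl_dom hF hK hK le_rfl (Nat.zero_le _) hj m).2
  have hk := pc_kernel_site (try_self (F := F) n z)
    (fun x => sl F.toMd K pc (if x = z then F.j else 0))
    (thin (sl F.toMd K pc F.j) (sl F.toMd K pc 0))
  unfold tryPB
  rw [PMF.bind_comm]
  have e1 : ((piz F.toMd K pc (tryBox F n z) z).bind fun ζ0 =>
      (wls F.toMd (al K (tryBox F n z) \ low F.toMd z) T).bind fun ws =>
        (thin (sl F.toMd K pc F.j) (sl F.toMd K pc 0) (ms (al K (tryBox F n z)) ζ0 ws z)).map
          fun v => Function.update (ms (al K (tryBox F n z)) ζ0 ws) z v) =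
      ((piz F.toMd K pc (tryBox F n z) z).bind fun η =>
        (wls F.toMd (al K (tryBox F n z) \ low F.toMd z) T).map (ms (al K (tryBox F n z)) η)).bind
        fun η => (thin (sl F.toMd K pc F.j) (sl F.toMd K pc 0) (η z)).map
          fun v => Function.update η z v := by
    rw [PMF.bind_bind]
    congr 1
    funext ζ0
    rw [PMF.bind_map]
    rfl
  rw [e1, hs]
  unfold piz mu
  rw [hk]
  refine pc_congr fun x _ => ?_
  by_cases hx : x = z
  · subst hx
    simp [ht]
  · simp [hx]

theorem try_lawL (hF : F.Ok) (hL : Low d F) {K n : ℕ} {pc : ℝ} (hK : KP F K pc) (T : ℕ)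
    (zs : List (S d)) (hp : zs.Pairwise fun y z => Disjoint (tryBox F n y) (tryBox F n z)) :
    ∀ A : Finset (Lt d),
      (∀ z ∈ zs, al K (tryBox F n z) \ low F.toMd z ⊆ A ∧ ∀ a ∈ A, a ∉ low F.toMd z) →
      ((wls F.toMd A T).bind fun ws => tryPX F K n pc ws zs) =
        mu F.toMd K pc (zs.toFinset.biUnion (tryBox F n)) := by
  induction zs with
  | nil =>
    intro A _
    simp [tryPX, mu, Sc.pc, pcL]
  | cons y ys ih =>
    intro A hA
    rw [List.pairwise_cons] at hp
    have hy := hA y List.mem_cons_self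
    have hd : Disjoint (al K (tryBox F n y) \ low F.toMd y) (A \ al K (tryBox F n y)) :=
      Finset.disjoint_left.2 fun a h1 h2 => (Finset.mem_sdiff.1 h2).2 (Finset.mem_sdiff.1 h1).1
    have hsp := wls_split hF hy.1 (Finset.sdiff_subset (s := A) (t := al K (tryBox F n y))) hd T
    have hne : ∀ z ∈ ys, ∀ a ∈ al K (tryBox F n z), a ∉ al K (tryBox F n y) := fun z hz a h1 h2 =>
      Finset.disjoint_left.1 (hp.1 z hz) (try_al_fst h2) (try_al_fst h1)
    have i2 := ih hp.2 (A \ al K (tryBox F n y)) fun z hz =>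
      ⟨fun a ha => Finset.mem_sdiff.2 ⟨(hA z (List.mem_cons_of_mem _ hz)).1 ha,
        hne z hz a (Finset.mem_sdiff.1 ha).1⟩,
       fun a ha => (hA z (List.mem_cons_of_mem _ hz)).2 a (Finset.mem_sdiff.1 ha).1⟩
    have e1 : ((wls F.toMd A T).bind fun ws => tryPX F K n pc ws (y :: ys)) =
        ((wls F.toMd A T).map fun ws => (flt (al K (tryBox F n y) \ low F.toMd y) ws,
          flt (A \ al K (tryBox F n y)) ws)).bind fun p =>
          (tryPB F K n pc p.1 y).bind fun ζ => (tryPX F K n pc p.2 ys).map fun ξ => ζ + ξ := by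
      rw [PMF.bind_map]
      refine try_bind_congr fun ws hws => ?_
      have hm := (wls_mem hF hws).2
      simp only [Function.comp]
      have c1 : tryPB F K n pc (flt (al K (tryBox F n y) \ low F.toMd y) ws) y =
          tryPB F K n pc ws y := try_pb_congr (try_flt_flt fun w hw a ha hb =>
            Finset.mem_sdiff.2 ⟨hb, hy.2 a (hm w hw a ha)⟩)
      have c2 : tryPX F K n pc (flt (A \ al K (tryBox F n y)) ws) ys = tryPX F K n pc ws ys :=
        try_px_congr ys fun z hz => try_flt_flt fun w hw a ha hb =>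
          Finset.mem_sdiff.2 ⟨hm w hw a ha, hne z hz a hb⟩
      rw [c1, c2]
      rfl
    have hdj : Disjoint (tryBox F n y) (ys.toFinset.biUnion (tryBox F n)) :=
      (Finset.disjoint_biUnion_right _ _ _).2 fun z hz => hp.1 z (List.mem_toFinset.1 hz)
    rw [e1, hsp, List.toFinset_cons, Finset.biUnion_insert]
    unfold mu
    rw [pc_union hdj]
    have i1 := try_law1 (n := n) hF hL hK y T
    unfold mu at i1 i2
    rw [← i1, ← i2, PMF.bind_bind, PMF.bind_bind]
    congr 1
    funext w1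
    rw [PMF.bind_map]
    simp only [Function.comp_def]
    rw [PMF.bind_comm]
    congr 1
    funext ζ
    rw [PMF.map_bind]

theorem try_low_fst {z : S d} {a : Lt d} (h : a ∈ low F.toMd z) : a.1 = z := (mem_low.1 h).1

theorem try_law (hF : F.Ok) (hL : Low d F) {K n : ℕ} {pc : ℝ} (hK : KP F K pc) (hD : 1 ≤ DD F n)
    {Y Q : Finset (S d)} (hY : tryFar F n Y) (hQ : ∀ z ∈ Y, tryBox F n z ⊆ Q) (T : ℕ) :
    ((wls F.toMd (al K Q \ tryLow F Y) T).bind fun ws => tryPX F K n pc ws Y.toList) =
      mu F.toMd K pc (tryLoc F n Y) := by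
  have _ := hD
  have := try_lawL hF hL hK T Y.toList (try_pw hY) (al K Q \ tryLow F Y) fun z hz => by
    have hz' := Finset.mem_toList.1 hz
    refine ⟨fun a ha => ?_, fun a ha hl => ?_⟩
    · obtain ⟨h1, h2⟩ := Finset.mem_sdiff.1 ha
      refine Finset.mem_sdiff.2 ⟨al_mono K (hQ z hz') h1, fun h3 => ?_⟩
      obtain ⟨z', hz2, h4⟩ := Finset.mem_biUnion.1 h3
      by_cases e : z = z'
      · subst e
        exact h2 h4
      · refine Finset.disjoint_left.1 (hY z hz' z' hz2 e) (try_al_fst h1) ?_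
        rw [try_low_fst h4]
        exact try_self n z'
    · exact (Finset.mem_sdiff.1 ha).2 (Finset.mem_biUnion.2 ⟨z, hz', hl⟩)
  rw [this, Finset.toList_toFinset]
  rfl

end Pool.Agent.Lib.MP_dd0771_pr.Sc
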