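import Pool.Agent.Lib.MP_dd0771_pr.Sc.TryA

open Filter

namespace Pool.Agent.Lib.MP_dd0771_pr.Sc

variable {d : ℕ} {F : Fr}

theorem tryc_fst {K : ℕ} {Q : Finset (S d)} {a : Lt d} (h : a ∈ al K Q) : a.1 ∈ Q := by
  obtain ⟨x, _ | ⟨e, k⟩⟩ := a
  · exact mem_al_none.1 h
  · exact (mem_al_some.1 h).1

theorem tryc_low {n : ℕ} {Y : Finset (S d)} (hY : tryFar F n Y) {z : S d} (hz : z ∈ Y) {a : Lt d}
    (ha : a.1 ∈ tryBox F n z) : a ∈ tryLow F Y ↔ a ∈ low F.toMd z := by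
  unfold tryLow
  rw [Finset.mem_biUnion]
  refine ⟨?_, fun h => ⟨z, hz, h⟩⟩
  rintro ⟨z', hz', h⟩
  by_cases hzz : z = z'
  · rwa [hzz]
  · refine absurd ?_ (Finset.disjoint_left.1 (hY z hz z' hz' hzz) ha)
    rw [(mem_low.1 h).1]
    exact self_mem_bx _ _

theorem tryc_num {A : ℕ} {C : ℝ} (hC : 1 ≤ C) {n : ℕ} (h1 : C ≤ n) (h2 : 2 ≤ n) {T m : ℕ}
    (hT : T ≤ n ^ A) (hm : m ≤ 2 ^ n + 2) :
    ((m : ℝ) + 1) * C ^ T * Real.exp (-(((n ^ (2 * A + 4) : ℕ) : ℝ) - 1)) ≤ er n := by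
  have e2 : (2 : ℝ) ≤ Real.exp 1 := by have := Real.add_one_le_exp (1 : ℝ); linarith
  have a1 : (m : ℝ) + 1 ≤ Real.exp ((n + 2 : ℕ) : ℝ) := by
    have b1 : m + 1 ≤ 2 ^ (n + 2) := by
      have : 1 ≤ 2 ^ n := Nat.one_le_two_pow
      rw [pow_add]; omega
    calc (m : ℝ) + 1 ≤ (2 : ℝ) ^ (n + 2) := by exact_mod_cast b1
      _ ≤ Real.exp 1 ^ (n + 2) := pow_le_pow_left₀ (by norm_num) e2 _
      _ = _ := by rw [← Real.exp_nat_mul, mul_one]
  have a2 : C ^ T ≤ Real.exp ((n ^ A * n : ℕ) : ℝ) := by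
    calc C ^ T ≤ C ^ (n ^ A) := pow_le_pow_right₀ hC hT
      _ ≤ Real.exp n ^ (n ^ A) := pow_le_pow_left₀ (by linarith)
          (by have := Real.add_one_le_exp (n : ℝ); linarith) _
      _ = _ := by rw [← Real.exp_nat_mul]; push_cast; rfl
  have a3 : Real.exp (-((4 * n : ℕ) : ℝ)) ≤ er n := by
    unfold er
    rw [Real.exp_neg, one_div, inv_pow]
    refine inv_anti₀ (by positivity) ?_
    calc (2 : ℝ) ^ (4 * n) ≤ Real.exp 1 ^ (4 * n) := pow_le_pow_left₀ (by norm_num) e2 _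
      _ = _ := by rw [← Real.exp_nat_mul, mul_one]
  have a4 : n + 2 + n ^ A * n + 4 * n + 1 ≤ n ^ (2 * A + 4) := by
    have b1 : 1 ≤ n ^ A := Nat.one_le_pow _ _ (by omega)
    have b2 : 8 ≤ n ^ 3 := by calc 8 = 2 ^ 3 := by norm_num
      _ ≤ n ^ 3 := Nat.pow_le_pow_left h2 3
    have b3 : n ≤ n ^ A * n := Nat.le_mul_of_pos_left _ b1
    calc n + 2 + n ^ A * n + 4 * n + 1 ≤ n ^ A * n * (1 * 8) := by omega
      _ ≤ n ^ A * n * (n ^ A * n ^ 3) := Nat.mul_le_mul_left _ (Nat.mul_le_mul b1 b2)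
      _ = n ^ (2 * A + 4) := by ring
  refine le_trans ?_ a3
  refine (mul_le_mul_of_nonneg_right (mul_le_mul a1 a2 (by positivity) (Real.exp_pos _).le)
    (Real.exp_pos _).le).trans ?_
  rw [← Real.exp_add, ← Real.exp_add]
  refine Real.exp_le_exp.2 ?_
  have a5 : ((n + 2 + n ^ A * n + 4 * n + 1 : ℕ) : ℝ) ≤ ((n ^ (2 * A + 4) : ℕ) : ℝ) :=
    Nat.cast_le.2 a4
  push_cast at a5 ⊢
  linarith

theorem try_dom (hF : F.Ok) (hL : Low d F) : ∀ᶠ n : ℕ in atTop, ∀ (K l : ℕ) (pc : ℝ)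
    (Q Y : Finset (S d)) (z : S d) (ω η : Cfg d), KP F K pc → l ≤ n → tryFar F n Y → z ∈ Y →
    tryBox F n z ⊆ Q → pregood F K n l pc ω z → F.j ≤ η z → (∀ x ∈ tryBox F n z, ω x ≤ η x) →
    (ex (wls F.toMd (al K Q \ tryLow F Y) (s2 F l)) fun ws =>
      pr (tryPB F K n pc ws z) fun ζ => ∃ x ∈ bx z (3 * DD F n), ms (al K Q) η ws x < ζ x) ≤
      Real.exp (-(l : ℝ) / 2) + er n := by
  obtain ⟨C, hC, hE⟩ := hL.hEARLY
  filter_upwards [(tendsto_natCast_atTop_atTop (R := ℝ)).eventually_ge_atTop C,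
    eventually_ge_atTop 2] with n h1 h2 K l pc Q Y z ω η hK hl hY hz hQ hp hj hω
  have hj2 : F.j ≤ 2 := by rcases hF.2.2.2.1 with h | h <;> omega
  have hD : 1 ≤ DD F n := Nat.one_le_pow _ _ (by omega)
  obtain ⟨r, hr⟩ : ∃ r, 4 * DD F n = r + 1 := ⟨4 * DD F n - 1, by omega⟩
  have hbx : tryBox F n z = bx z (r + 1) := by unfold tryBox; rw [hr]
  set A := al K Q \ tryLow F Y with hA
  set B := al K (tryBox F n z) \ low F.toMd z with hB
  set ω' := loc F.toMd (DD F n) z ω with hω'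
  have hBA : B ⊆ A := by
    intro a ha
    obtain ⟨a1, a2⟩ := Finset.mem_sdiff.1 ha
    exact Finset.mem_sdiff.2 ⟨al_mono K hQ a1, fun h => a2 ((tryc_low hY hz (tryc_fst a1)).1 h)⟩
  have hAB : ∀ a ∈ A, (a ∈ al K (tryBox F n z) ↔ a ∈ B) := fun a ha =>
    ⟨fun h => Finset.mem_sdiff.2 ⟨h, fun h' => (Finset.mem_sdiff.1 ha).2
      ((tryc_low hY hz (tryc_fst h)).2 h')⟩, fun h => (Finset.mem_sdiff.1 h).1⟩
  have hle : ∀ x ∈ tryBox F n z, ω' x ≤ η x := by
    intro x hx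
    have := hω x hx
    show (if x ∈ bx z (4 * DD F n) then (if x = z then max (ω x) F.j else ω x) else 0) ≤ η x
    split_ifs with _ h
    · subst h; exact max_le this hj
    · exact this
    · exact Nat.zero_le _
  have hmass : mass ω' (tryBox F n z) ≤ 2 ^ n + 2 := by
    have a1 : mass ω' (tryBox F n z) ≤
        ∑ x ∈ tryBox F n z, (ω x + if x = z then 2 else 0) := by
      refine Finset.sum_le_sum fun x _ => ?_
      show (if x ∈ bx z (4 * DD F n) then (if x = z then max (ω x) F.j else ω x) else 0) ≤ _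
      split_ifs <;> omega
    rw [Finset.sum_add_distrib, Finset.sum_ite_eq'] at a1
    have a2 : ∑ x ∈ tryBox F n z, ω x ≤ 2 ^ n := hp.1
    split_ifs at a1 <;> omega
  have hth := (thin_spec (sl F.toMd K pc F.j) (sl F.toMd K pc 0)
    (sl_dom hF hK hK le_rfl (Nat.zero_le _) hj2)).1
  have step1 : ∀ ws ∈ (wls F.toMd A (s2 F l)).support,
      pr (tryPB F K n pc ws z) (fun ζ => ∃ x ∈ bx z (3 * DD F n), ms (al K Q) η ws x < ζ x) ≤
      (ex (piz F.toMd K pc (tryBox F n z) z) fun ζ0 =>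
        ind (∃ x ∈ bx z (3 * DD F n), ms B ω' ws x < ms B ζ0 ws x)) +
      ind (∃ x ∈ bx z (3 * DD F n), ms A η ws x < ms B ω' ws x) := by
    intro ws hws
    have hm := (wls_mem hF hws).2
    by_cases h : ∃ x ∈ bx z (3 * DD F n), ms A η ws x < ms B ω' ws x
    · rw [ind_pos h]
      exact (pr_le_one _ _).trans (le_add_of_nonneg_left (ex_nonneg fun _ _ => ind_nonneg _))
    rw [ind_neg h, add_zero]
    unfold tryPB
    rw [pr_bind]
    refine ex_mono (Bdd.pr _ _) (Bdd.ind _) fun ζ0 _ => ?_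
    by_cases h' : ∃ x ∈ bx z (3 * DD F n), ms B ω' ws x < ms B ζ0 ws x
    · rw [ind_pos h']; exact pr_le_one _ _
    rw [ind_neg h', pr_map]
    refine (pr_zero ?_).le
    rintro v hv ⟨x, hx, hlt⟩
    have b1 := hth _ v hv
    have b2 : Function.update (ms (al K (tryBox F n z)) ζ0 ws) z v x ≤
        ms (al K (tryBox F n z)) ζ0 ws x := by
      by_cases hxz : x = z
      · subst hxz; rwa [Function.update_self]
      · rw [Function.update_of_ne hxz]
    rw [ms_congr_al (A' := B) ζ0 fun w hw a ha => hAB a (hm w hw a ha)] at b2 hlt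
    rw [ms_congr_al (A' := A) η fun w hw a ha =>
      ⟨fun _ => hm w hw a ha, fun h => (Finset.mem_sdiff.1 h).1⟩] at hlt
    have b3 := not_lt.1 fun hh => h ⟨x, hx, hh⟩
    have b4 := not_lt.1 fun hh => h' ⟨x, hx, hh⟩
    omega
  have bd1 : Bdd fun p : List (Word d) × Cfg d =>
      ind (∃ x ∈ bx z (3 * DD F n), ms B ω' p.1 x < ms B p.2 p.1 x) := Bdd.ind _
  have bd2 : Bdd fun ws : List (Word d) => ex (piz F.toMd K pc (tryBox F n z) z) fun ζ0 =>
      ind (∃ x ∈ bx z (3 * DD F n), ms B ω' ws x < ms B ζ0 ws x) := Bdd.pr _ _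
  refine (ex_mono (Bdd.pr _ _) (bd2.add (Bdd.ind _)) step1).trans ?_
  rw [ex_add _ bd2 (Bdd.ind _)]
  refine add_le_add ?_ ?_
  · rw [ex_comm _ _ (f := fun ws ζ0 =>
      ind (∃ x ∈ bx z (3 * DD F n), ms B ω' ws x < ms B ζ0 ws x)) bd1]
    refine le_trans (le_of_eq (ex_congr fun ζ0 _ => ?_)) hp.2
    rw [ex_wls_flt hF hBA _ (Bdd.ind _) fun ws => by rw [ms_flt subset_rfl, ms_flt subset_rfl]]
    refine pr_congr fun ws hws => ?_
    have hm := (wls_mem hF hws).2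
    have hc : ∀ ζ, ms B ζ ws = ms (al K (bx z (4 * DD F n))) ζ ws := fun ζ =>
      (ms_congr_al ζ fun w hw a ha => hAB a (hBA (hm w hw a ha))).symm
    rw [hc, hc]
  · have hsub : bx z r ⊆ tryBox F n z := by rw [hbx]; exact bx_mono _ (by omega)
    have := hE A B A (tryBox F n z) z r (3 * DD F n) (s2 F l) ω' η hBA subset_rfl
      ((closed_al K _).mono Finset.sdiff_subset) hsub (fun x hx q => by
        rw [hA, hB, Finset.mem_sdiff, Finset.mem_sdiff, tryc_low hY hz (a := (x, some q)) (hsub hx),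
          al_agree K (y := z) (r := r) hbx.ge (hbx ▸ hQ) (x, some q) hx])
      (by omega) fun x hx => hle x (hsub hx)
    refine le_trans (pr_mono ?_) (this.trans (le_trans (le_of_eq ?_)
      (tryc_num (A := F.A) hC h1 h2 (Nat.pow_le_pow_left hl _) hmass)))
    · rintro ws - ⟨x, hx, hlt⟩
      rcases List.eq_nil_or_concat' ws with rfl | ⟨L, w, rfl⟩
      · exact absurd hlt (not_lt.2 (hle x (bx_mono _ (by omega) hx)))
      · refine ⟨L.length, w, w.length, by simp, x, hx, ?_⟩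
        rw [ms_append, ms_append] at hlt
        rw [List.take_left', List.take_length]
        · exact hlt
        · rfl
    · have : (r : ℝ) - ((3 * DD F n : ℕ) : ℝ) = ((n ^ (2 * F.A + 4) : ℕ) : ℝ) - 1 := by
        have h4 : ((4 * DD F n : ℕ) : ℝ) = ((r + 1 : ℕ) : ℝ) := by rw [hr]
        show _ = ((DD F n : ℕ) : ℝ) - 1
        push_cast at h4 ⊢
        linarith
      rw [this]
      rfl

end Pool.Agent.Lib.MP_dd0771_pr.Sc
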