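import Pool.Agent.Lib.MP_dd0771_pr.Sc.TryA

/-! One try: the error of a short tracking. -/

open Filter

namespace Pool.Agent.Lib.MP_dd0771_pr.Sc

variable {d : ℕ} {F : Fr}

/-- An event of one window in the stationary system. -/
theorem tryd_window {G : Md} {A : Finset (Lt d)} {p : PMF (Cfg d)}
    (h : ∀ T, (p.bind fun η => (wls G A T).map (ms A η)) = p) {T u : ℕ} (hu : u < T)
    (E : Cfg d → Word d → Prop) :
    (ex p fun η => pr (wls G A T) fun ws => ∃ w, ws[u]? = some w ∧ E (ms A η (ws.take u)) w) =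
      ex p fun η => pr (wl G A) (E η) := by
  have b : Bdd fun η => pr (wl G A) (E η) := Bdd.pr _ _
  conv_rhs => rw [← h u, ex_bind _ _ b]
  refine ex_congr fun η _ => ?_
  rw [ex_map _ _ b]
  refine Eq.trans (ex_congr fun ws _ => ?_) (ex_iid_get (wl G A) hu
    (f := fun l w => ind (E (ms A η l) w)) (Bdd.ind fun x : List (Word d) × Word d =>
      E (ms A η x.1) x.2))
  cases hw : ws[u]? with
  | none => exact ind_neg (by simp [hw])
  | some w => simp [hw]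

theorem tryd_num (c : ℕ) : ∀ᶠ n : ℕ in atTop,
    (2 : ℝ) ^ (c * n) * Real.exp (-(n : ℝ) ^ 2 / 2) ≤ er n / 4 := by
  filter_upwards [eventually_ge_atTop (2 * (c + 6))] with n hn
  have e2 : (2 : ℝ) ≤ Real.exp 1 := by linarith [Real.add_one_le_exp 1]
  set N := c * n + (4 * n + 2) with hN
  have c2 : (2 : ℝ) ^ N ≤ Real.exp (N : ℝ) := by
    rw [← mul_one (N : ℝ), Real.exp_nat_mul]
    exact pow_le_pow_left₀ two_pos.le e2 _
  have c3 : 2 * N ≤ n ^ 2 := by rw [hN]; nlinarith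
  have c4 : 2 * (N : ℝ) ≤ (n : ℝ) ^ 2 := by exact_mod_cast c3
  have c5 : (2 : ℝ) ^ N * Real.exp (-(n : ℝ) ^ 2 / 2) ≤ 1 := by
    refine (mul_le_mul_of_nonneg_right c2 (Real.exp_pos _).le).trans ?_
    rw [← Real.exp_add, Real.exp_le_one_iff]; linarith
  have c6 : er n / 4 = 1 / 2 ^ (4 * n + 2) := by
    rw [er, one_div_pow, pow_add, div_div]; norm_num
  rw [c6, le_div_iff₀ (by positivity), mul_right_comm, ← pow_add]
  exact c5

theorem tryd_slow {G : Md} {Y : Sys d} {V : ℕ} {B : Finset (S d)} {η : Cfg d} {w : Word d}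
    (h : Slow G Y V B η (w.filter fun a => a ∈ Y.A)) : Slow G Y V B η w := by
  intro x hx i x' hx'
  refine h x hx ((w.take i).filter fun a => a ∈ Y.A).length x' ?_
  have e : (w.filter fun a => a ∈ Y.A).take ((w.take i).filter fun a => a ∈ Y.A).length =
      (w.take i).filter fun a => a ∈ Y.A := by
    conv_lhs => rw [← List.take_append_drop i w, List.filter_append]
    rw [List.take_append_drop, List.take_left]
  rwa [e, acw_filter Y subset_rfl]

theorem tryd_flt (hF : F.Ok) {A : Finset (Lt d)} {Y : Sys d} (hA : Y.A ⊆ A) (V T : ℕ)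
    (B : Finset (S d)) (η : Cfg d) :
    pr (wls F.toMd A T) (fun ws => ∃ u w, ws[u]? = some w ∧
      ¬ Slow F.toMd Y V B (ms Y.A η (ws.take u)) w) ≤
    pr (wls F.toMd Y.A T) (fun ws => ∃ u w, ws[u]? = some w ∧
      ¬ Slow F.toMd Y V B (ms Y.A η (ws.take u)) w) := by
  rw [← wls_flt hF hA, pr_map]
  refine pr_mono fun ws _ => ?_
  rintro ⟨u, w, hw, hs⟩
  refine ⟨u, w.filter fun a => a ∈ Y.A, by rw [flt, List.getElem?_map, hw]; rfl, fun h' => hs ?_⟩
  rw [flt_take, ms_flt subset_rfl] at h'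
  exact tryd_slow h'

theorem tryd_card (F : Fr) {n T : ℕ} (hn : 1 ≤ n) (hT : T ≤ n) (z : S d) :
    ((Finset.range T) ×ˢ bx z (DD F n)).card ≤ 2 ^ ((1 + (2 * F.A + 6) * d) * n) := by
  have h0 : DD F n ≤ 2 ^ ((2 * F.A + 4) * n) := by
    rw [DD, mul_comm _ n, pow_mul]; exact Nat.pow_le_pow_left Nat.lt_two_pow_self.le _
  have h1 : 2 * DD F n + 1 ≤ 2 ^ ((2 * F.A + 6) * n) := by
    have h3 := Nat.one_le_two_pow (n := (2 * F.A + 4) * n)
    have h4 : 2 ^ ((2 * F.A + 4) * n + 2) ≤ 2 ^ ((2 * F.A + 6) * n) :=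
      Nat.pow_le_pow_right two_pos (by nlinarith)
    rw [pow_add] at h4
    omega
  rw [Finset.card_product, Finset.card_range, card_bx,
    show (1 + (2 * F.A + 6) * d) * n = n + (2 * F.A + 6) * n * d by ring, pow_add, pow_mul]
  exact Nat.mul_le_mul (hT.trans Nat.lt_two_pow_self.le) (Nat.pow_le_pow_left h1 d)

theorem try_se (hd : 2 ≤ d) (hF : F.Ok) (hL : Low d F) (T : ℕ) : ∀ᶠ n : ℕ in atTop,
    ∀ (K : ℕ) (φ : ℝ) (Q Z : Finset (S d)) (z : S d), KP F K φ → Q.card ≤ 2 ^ (5 * n * d) →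
    ex (mu F.toMd K φ Q) (trySe F n T ⟨al K Q, Z⟩ Q z) ≤ er n / 2 := by
  obtain ⟨C, hC1, hC⟩ := sl_mean hF
  filter_upwards [hL.hSLOW, tryd_num (1 + (2 * F.A + 6) * d), tryd_num (5 * d + 2),
    eventually_ge_atTop 1, eventually_ge_atTop T, eventually_ge_atTop ⌈C⌉₊]
    with n hS hn1 hn2 h1 hT hCn K φ Q Z z hK hQ
  set P := (Finset.range T) ×ˢ bx z (DD F n) with hP
  let E : ℕ × S d → Cfg d → List (Word d) → Prop := fun b η ws => ∃ w, ws[b.1]? = some w ∧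
    ¬ Slow F.toMd ⟨al K Q, Z⟩ (VV n) {b.2} (ms (al K Q) η (ws.take b.1)) w
  have bE : ∀ b, Bdd fun η => pr (wls F.toMd (al K Q) T) (E b η) := fun b => Bdd.pr _ _
  have cP : (P.card : ℝ) ≤ 2 ^ ((1 + (2 * F.A + 6) * d) * n) := by
    exact_mod_cast tryd_card F h1 hT z
  have b1 : Bdd fun η : Cfg d => pr (wls F.toMd (al K Q) T) (fun ws => ∃ u w, ws[u]? = some w ∧
      ¬ Slow F.toMd ⟨al K Q, Z⟩ (VV n) (bx z (DD F n) ∩ Z) (ms (al K Q) η (ws.take u)) w) :=
    Bdd.pr (fun _ => wls F.toMd (al K Q) T) _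
  have p2 : ∀ η : Cfg d, 0 ≤ min 1 (((mass η Q : ℝ) + 1) * Real.exp (-(n : ℝ) ^ 3)) :=
    fun η => le_min one_pos.le (by positivity)
  have b2 : Bdd fun η : Cfg d => min 1 (((mass η Q : ℝ) + 1) * Real.exp (-(n : ℝ) ^ 3)) :=
    Bdd.of01 fun η => ⟨p2 η, min_le_left _ _⟩
  refine (ex_add _ b1 b2).le.trans ?_
  rw [show er n / 2 = er n / 4 + er n / 4 by ring]
  refine add_le_add ?_ ?_
  · refine (ex_mono b1 (wx_bdd_sum P fun b _ => bE b) fun η _ => ?_).trans ?_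
    · refine le_trans (pr_mono fun ws hws H => ?_) (pr_union_le _ P fun b => E b η)
      obtain ⟨u, w, hw, hs⟩ := H
      rw [slow_iff] at hs
      push Not at hs
      obtain ⟨x, hx, hs⟩ := hs
      have hu := (List.getElem?_eq_some_iff.1 hw).1
      rw [iid_length hws] at hu
      exact ⟨(u, x), Finset.mem_product.2 ⟨Finset.mem_range.2 hu, (Finset.mem_inter.1 hx).1⟩,
        w, hw, hs⟩
    rw [ex_sum _ _ fun b _ => bE b]
    refine (Finset.sum_le_card_nsmul P _ (Real.exp (-(n : ℝ) ^ 2 / 2)) fun b hb => ?_).trans ?_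
    · exact (tryd_window (hL.hSTAT K φ Q hK).2.1
        (Finset.mem_range.1 (Finset.mem_product.1 hb).1) _).le.trans (hS K φ Q Z b.2 hK)
    · rw [nsmul_eq_mul]
      exact (mul_le_mul_of_nonneg_right cP (Real.exp_pos _).le).trans hn1
  · obtain ⟨m1, m2⟩ := ex_pc_mass Q Q (fun _ => sl F.toMd K φ 0) (c := C) (by linarith)
      fun x _ => hC K φ 0 hK (by omega)
    set e := Real.exp (-(n : ℝ) ^ 3) with he
    have hs : HasSum (fun η => (mu F.toMd K φ Q η).toReal * (((mass η Q : ℝ) + 1) * e))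
        ((ex (mu F.toMd K φ Q) (fun η => (mass η Q : ℝ)) + 1) * e) := by
      have := (m1.hasSum.add (kit1_one (mu F.toMd K φ Q))).mul_right e
      have e1 : (fun η => (mu F.toMd K φ Q η).toReal * (((mass η Q : ℝ) + 1) * e)) = fun η =>
          ((mu F.toMd K φ Q η).toReal * (mass η Q : ℝ) + (mu F.toMd K φ Q η).toReal) * e :=
        funext fun η => by ring
      rw [e1]
      exact this
    refine (ex_mono' hs.summable (fun η _ => p2 η) fun η _ => min_le_right _ _).trans ?_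
    rw [ex, hs.tsum_eq]
    refine le_trans ?_ hn2
    have hn1' : (1 : ℝ) ≤ n := by exact_mod_cast h1
    refine mul_le_mul ?_ (Real.exp_le_exp.2 (by nlinarith)) (Real.exp_pos _).le (by positivity)
    have q1 : (Q.card : ℝ) ≤ 2 ^ (5 * n * d) := by exact_mod_cast hQ
    have q2 : C ≤ 2 ^ n := by
      have : (⌈C⌉₊ : ℝ) ≤ 2 ^ n := by exact_mod_cast hCn.trans Nat.lt_two_pow_self.le
      exact (Nat.le_ceil C).trans this
    have q3 : C * Q.card ≤ 2 ^ n * 2 ^ (5 * n * d) :=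
      mul_le_mul q2 q1 (by positivity) (by positivity)
    have q4 : (1 : ℝ) ≤ 2 ^ n * 2 ^ (5 * n * d) := by
      rw [← pow_add]; exact one_le_pow₀ one_le_two
    have q5 : (2 : ℝ) ^ (n + 5 * n * d + 1) ≤ 2 ^ ((5 * d + 2) * n) :=
      pow_le_pow_right₀ one_le_two (by nlinarith)
    rw [pow_succ, pow_add] at q5
    have m3 : ex (mu F.toMd K φ Q) (fun η => (mass η Q : ℝ)) ≤ C * Q.card := m2
    linarith

theorem try_tk (hF : F.Ok) (hL : Low d F) (T : ℕ) : ∀ᶠ n : ℕ in atTop,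
    ∀ (K : ℕ) (A : Finset (Lt d)) (Q1 Q2 Z1 Z2 : Finset (S d)) (z : S d) (η : Cfg d) (τ : St d),
    al K Q1 ⊆ A → al K Q2 ⊆ A → tryBox F n z ⊆ Q1 → tryBox F n z ⊆ Q2 → z ∈ Z1 →
    (∀ x ∈ bx z (DD F n), x ∈ Z1 → x ∈ Z2) → F.j ≤ η z → z ∈ τ.2 →
    (∀ x ∈ bx z (3 * DD F n), η x ≤ τ.1 x) →
    pr (wls F.toMd A T) (fun ws =>
      ¬ ((acs F.toMd ⟨al K Q1, Z1⟩ (η, {z}) ws).2 ⊆ (acs F.toMd ⟨al K Q2, Z2⟩ τ ws).2 ∧
        ∀ x ∈ bx z (2 * DD F n), ms (al K Q1) η ws x ≤ ms (al K Q2) τ.1 ws x)) ≤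
      trySe F n T ⟨al K Q1, Z1⟩ Q1 z η := by
  filter_upwards [hL.hTRK0, eventually_ge_atTop 1, eventually_ge_atTop T]
    with n hT0 h1 hT K A Q1 Q2 Z1 Z2 z η τ hA1 hA2 hQ1 hQ2 hz hZ hj hτ hη
  have hD : 1 ≤ DD F n := Nat.one_le_pow _ _ h1
  have hs : T ≤ 2 * s1 F n := by
    have hA : 3 ≤ F.A := hF.2.2.2.2.2.2
    have a1 : n ≤ n ^ 2 := Nat.le_self_pow two_ne_zero n
    have a2 : n ^ 2 ≤ s1 F n := Nat.le_self_pow (by omega) _
    omega
  have hb : bx z (3 * DD F n + 1) ⊆ tryBox F n z := bx_mono z (by omega)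
  have key := hT0 A ⟨al K Q1, Z1⟩ ⟨al K Q2, Z2⟩ Q1 (3 * DD F n) T (η, {z}) τ hA1 hA2
    (closed_al K Q1)
    (fun x hx => by rw [Finset.mem_singleton.1 hx]; exact hZ)
    (fun x hx => by rw [Finset.mem_singleton.1 hx]; exact ⟨hz, hj⟩)
    (Finset.singleton_subset_iff.2 hτ) (by omega) hs
    (fun x hx => by
      rw [Finset.mem_singleton.1 hx]
      exact ⟨(bx_mono z (by omega)).trans (hb.trans hQ1),
        al_agree K (hb.trans hQ1) (hb.trans hQ2), hη⟩)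
  simp only [Finset.singleton_biUnion, Finset.card_singleton, Nat.cast_one, one_mul] at key
  refine le_trans (pr_le_add fun ws hws H => ?_)
    (add_le_add (tryd_flt hF (Y := ⟨al K Q1, Z1⟩) hA1 (VV n) T (bx z (DD F n) ∩ Z1) η)
      (le_min (pr_le_one _ _) key))
  rw [or_iff_not_imp_left]
  intro hS
  refine ⟨fun u w hw => by_contra fun h => hS ⟨u, w, hw, h⟩, T, le_rfl, ?_⟩
  have e : ws.take T = ws := List.take_of_length_le (iid_length hws).le
  rw [or_iff_not_imp_left, not_not, tj, tj, e]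
  intro hI
  by_contra hc
  refine H ⟨hI, fun x hx => not_lt.1 fun hlt => hc ⟨z, Finset.mem_singleton_self z, x, ?_, hlt⟩⟩
  exact bx_mono z (by omega) hx

end Pool.Agent.Lib.MP_dd0771_pr.Sc
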