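import Pool.Agent.Lib.MP_dd0771_pr.Sc.TryB
import Pool.Agent.Lib.MP_dd0771_pr.Sc.TryD

/-! One try: gluing a world along the local data. -/

open Filter

namespace Pool.Agent.Lib.MP_dd0771_pr.Sc

variable {d : ℕ} {F : Fr}

theorem try_se_bdd (n T : ℕ) (Y : Sys d) (Q : Finset (S d)) (z : S d) :
    Bdd (trySe F n T Y Q z) ∧ ∀ η, 0 ≤ trySe F n T Y Q z η := by
  have h : ∀ η : Cfg d, 0 ≤ min 1 (((mass η Q : ℝ) + 1) * Real.exp (-(n : ℝ) ^ 3)) := fun η =>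
    le_min zero_le_one (by positivity)
  refine ⟨Bdd.add (Bdd.of01 fun η => ⟨pr_nonneg _ _, pr_le_one _ _⟩)
    (Bdd.of01 fun η => ⟨h η, min_le_left _ _⟩), fun η => add_nonneg (pr_nonneg _ _) (h η)⟩

theorem try_al_sub {K n : ℕ} {Y : Finset (S d)} {z : S d} (hz : z ∈ Y) :
    al K (tryBox F n z) ⊆ tryAl F K n Y := fun _ ha => Finset.mem_biUnion.2 ⟨z, hz, ha⟩

theorem try_ls_flt {K n : ℕ} {A : Finset (Lt d)} {z : S d} (h : al K (tryBox F n z) ⊆ A)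
    (ξ : Cfg d) (ws : List (Word d)) : tryLs F K n z ξ (flt A ws) = tryLs F K n z ξ ws :=
  acs_flt _ h _ _

theorem try_res_z (n : ℕ) (z : S d) (ξ : Cfg d) : tryRes (tryBox F n z) ξ z = ξ z :=
  if_pos (try_self n z)

theorem try_ls_reg {K n : ℕ} {z : S d} {ξ : Cfg d} (h : F.j ≤ ξ z) (ws : List (Word d)) :
    (tryLs F K n z ξ ws).2 ⊆ bx z (DD F n) := fun x hx =>
  (Reg.acs (Y := ⟨al K (tryBox F n z), bx z (DD F n)⟩) (σ := (tryRes (tryBox F n z) ξ, {z}))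
    (fun y hy => by
      have : y = z := Finset.mem_singleton.1 hy
      subst this
      exact ⟨self_mem_bx _ _, h.trans (try_res_z n _ ξ).ge⟩) ws x hx).1

theorem try_ls_alive (hF : F.Ok) {K n : ℕ} {z x : S d} {ξ : Cfg d} (h : F.j ≤ ξ z)
    {ws : List (Word d)} (hx : x ∈ (tryLs F K n z ξ ws).2) : tryAlive F K n z ξ ws := by
  have hj : 1 ≤ F.toMd.j := by rcases hF.2.2.2.1 with h | h <;> omega
  refine ⟨x, acs_mono hj _ (bx_mono z (by omega : DD F n ≤ 2 * DD F n))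
    (σ := (tryRes (tryBox F n z) ξ, {z}))
    (τ := ini F.toMd (bx z (2 * DD F n)) {z} (tryRes (tryBox F n z) ξ)) ?_ le_rfl ?_ ws hx⟩
  · intro y hy
    have : y = z := Finset.mem_singleton.1 hy
    subst this
    exact ⟨self_mem_bx _ _, h.trans (try_res_z n _ ξ).ge⟩
  · intro y hy
    have : y = z := Finset.mem_singleton.1 hy
    subst this
    exact Finset.mem_filter.2 ⟨Finset.mem_inter.2 ⟨hy, self_mem_bx _ _⟩,
      h.trans (try_res_z n _ ξ).ge⟩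

/-- A living world below the local systems forces them to live. -/
theorem try_gw_alive (hF : F.Ok) {K n L : ℕ} {Y : Finset (S d)} (hA : Apart Y L)
    (hL : 2 * DD F n ≤ L) {ξ : Cfg d} {ws : List (Word d)} {σ : St d}
    (h : tryGW F K n Y ξ ws σ) (he : ∀ y ∈ Y, ∃ x ∈ σ.2, x ∈ bx y L) :
    ∀ z ∈ Y, tryAlive F K n z ξ ws := by
  intro y hy
  obtain ⟨x, hx, hxy⟩ := he y hy
  obtain ⟨z, hz, hj, h1, -⟩ := h x hx
  have h2 := mem_bx.1 (try_ls_reg hj ws h1)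
  have h3 := mem_bx.1 hxy
  by_cases e : y = z
  · subst e
    exact try_ls_alive hF hj h1
  · have h4 := hA.2.2 y hy z hz e
    have h5 := nrm_tri y x z
    rw [nrm_sub_comm y x] at h5
    omega

/-- The glued kernel. -/
theorem try_glue (hF : F.Ok) {T : ℕ} {Aw Ak : Finset (Lt d)} (hA : Ak ⊆ Aw)
    (r : PMF (Cfg d × Cfg d)) (st : Cfg d → List (Word d) → St d) :
    ∃ KS : Cfg d → List (Word d) → PMF (St d), ∀ H : Cfg d → List (Word d) → St d → ℝ,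
      (Bdd fun p : Cfg d × List (Word d) × St d => H p.1 p.2.1 p.2.2) →
      (ex (r.map Prod.snd) fun ξ => ex (wls F.toMd Ak T) fun w => ex (KS ξ w) (H ξ w)) =
        ex r fun c => ex (wls F.toMd Aw T) fun ww => H c.2 (flt Ak ww) (st c.1 ww) := by
  obtain ⟨κc, hc1, hc2⟩ := exists_disint r Prod.snd
  obtain ⟨κw, hw1, hw2⟩ := exists_disint (wls F.toMd Aw T) (flt Ak)
  rw [wls_flt hF hA] at hw1 hw2
  refine ⟨fun ξ w => (κc ξ).bind fun c => (κw w).map (st c.1), fun H hH => ?_⟩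
  have bH : ∀ ξ w, Bdd (H ξ w) := fun ξ w => hH.comp fun σ => (ξ, w, σ)
  have b1 : Bdd fun p : (Cfg d × Cfg d) × List (Word d) =>
      H p.1.2 (flt Ak p.2) (st p.1.1 p.2) :=
    hH.comp fun p : (Cfg d × Cfg d) × List (Word d) => (p.1.2, flt Ak p.2, st p.1.1 p.2)
  have b2 : Bdd fun c : Cfg d × Cfg d => ex (wls F.toMd Aw T) fun ww =>
      H c.2 (flt Ak ww) (st c.1 ww) :=
    Bdd.ex (f := fun (c : Cfg d × Cfg d) ww => H c.2 (flt Ak ww) (st c.1 ww)) b1 _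
  conv_rhs => rw [← hc1]
  rw [ex_bind _ _ b2]
  refine ex_congr fun ξ hξ => ?_
  have e1 : ∀ w, ex ((κc ξ).bind fun c => (κw w).map (st c.1)) (H ξ w) =
      ex (κc ξ) fun c => ex (κw w) fun ww => H ξ w (st c.1 ww) := fun w => by
    rw [ex_bind _ _ (bH ξ w)]
    exact ex_congr fun c _ => ex_map _ _ (bH ξ w)
  simp only [e1]
  have b3 : Bdd fun p : List (Word d) × (Cfg d × Cfg d) =>
      ex (κw p.1) fun ww => H ξ p.1 (st p.2.1 ww) :=
    Bdd.ex (f := fun (p : List (Word d) × (Cfg d × Cfg d)) ww => H ξ p.1 (st p.2.1 ww))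
      (hH.comp fun q : (List (Word d) × (Cfg d × Cfg d)) × List (Word d) =>
        (ξ, q.1.1, st q.1.2.1 q.2)) fun p => κw p.1
  rw [ex_comm _ _ (f := fun w (c : Cfg d × Cfg d) => ex (κw w) fun ww => H ξ w (st c.1 ww)) b3]
  refine ex_congr fun c hc => ?_
  have e2 := (hc2 ξ hξ c hc).2
  conv_rhs => rw [← hw1]
  rw [ex_bind _ _ (b1.comp fun ww => (c, ww))]
  refine ex_congr fun w hw => ex_congr fun ww hww => ?_
  rw [(hw2 w hw ww hww).2, e2]

theorem try_ws (hd : 2 ≤ d) (hF : F.Ok) (hL : Low d F) (T : ℕ) : ∀ᶠ n : ℕ in atTop,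
    ∀ (K : ℕ) (pc : ℝ) (C : Ty) (Y : Finset (S d)), KP F K pc → KP F K C.1 → C.1 ≤ pc →
    Apart Y C.2 → 2 * DD F n ≤ C.2 → C.2 ≤ 2 ^ n →
    ∃ KS : Cfg d → List (Word d) → PMF (St d),
      (∀ f : St d → ℝ, (∀ σ, 0 ≤ f σ ∧ f σ ≤ 1) → wEv F.toMd K T C Y f - er n ≤
        ex (mu F.toMd K pc (tryLoc F n Y)) fun ξ => ex (wls F.toMd (tryAl F K n Y) T) fun w =>
          ind (∀ z ∈ Y, tryAlive F K n z ξ w) * ex (KS ξ w) f) ∧
      (ex (mu F.toMd K pc (tryLoc F n Y)) fun ξ => ex (wls F.toMd (tryAl F K n Y) T) fun w =>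
        pr (KS ξ w) fun σ => ¬ tryGW F K n Y ξ w σ) ≤ er n := by
  filter_upwards [try_se hd hF hL T, try_tk hF hL T, card_le (by omega : 1 ≤ d)] with n hse htk
    hcard K pc C Y hK hK1 hle hA hD hC
  have hbox : ∀ z ∈ Y, tryBox F n z ⊆ wQ Y C.2 := fun z hz x hx =>
    Finset.mem_biUnion.2 ⟨z, hz, bx_mono z (by omega) hx⟩
  have hAl : tryAl F K n Y ⊆ al K (wQ Y C.2) := fun a ha => by
    obtain ⟨z, hz, h⟩ := Finset.mem_biUnion.1 ha
    exact al_mono K (hbox z hz) h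
  obtain ⟨r, hr1, hr2, hr3⟩ := pc_couple (wQ Y C.2) (tryLoc F n Y) (fun _ => sl F.toMd K C.1 0)
    (fun _ => sl F.toMd K pc 0) fun _ _ _ k => sl_dom hF hK1 hK hle le_rfl (by omega) k
  obtain ⟨KS, hKS⟩ := try_glue hF (T := T) hAl r fun η ww =>
    acs F.toMd ⟨al K (wQ Y C.2), wZ Y C.2⟩ (ini F.toMd (wZ Y C.2) Y η) ww
  rw [hr2] at hKS
  have hq : (wQ Y C.2).card ≤ 2 ^ (5 * n * d) := by
    refine (card_wQ Y C.2).trans (le_trans (Nat.mul_le_mul hA.2.1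
      (Nat.pow_le_pow_left ?_ d)) hcard)
    have : 2 ^ (n + 2) ≤ 2 ^ (4 * n + 3) := Nat.pow_le_pow_right (by omega) (by omega)
    rw [pow_add] at this
    omega
  have hbad : (ex r fun c => pr (wls F.toMd (al K (wQ Y C.2)) T) fun ww =>
      ¬ tryGW F K n Y c.2 (flt (tryAl F K n Y) ww)
        (acs F.toMd ⟨al K (wQ Y C.2), wZ Y C.2⟩ (ini F.toMd (wZ Y C.2) Y c.1) ww)) ≤ er n := by
    have bs : ∀ z, Bdd (trySe F n T ⟨al K (wQ Y C.2), wZ Y C.2⟩ (wQ Y C.2) z) := fun z =>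
      (try_se_bdd n T _ _ z).1
    have s1 : ∀ c ∈ r.support, (pr (wls F.toMd (al K (wQ Y C.2)) T) fun ww =>
        ¬ tryGW F K n Y c.2 (flt (tryAl F K n Y) ww)
          (acs F.toMd ⟨al K (wQ Y C.2), wZ Y C.2⟩ (ini F.toMd (wZ Y C.2) Y c.1) ww)) ≤
        ∑ z ∈ Y, trySe F n T ⟨al K (wQ Y C.2), wZ Y C.2⟩ (wQ Y C.2) z c.1 := by
      intro c hc
      have hdom : ∀ z ∈ Y, ∀ x ∈ tryBox F n z, c.1 x ≤ c.2 x := fun z hz x hx =>
        hr3 c hc x (hbox z hz hx) (Finset.mem_biUnion.2 ⟨z, hz, hx⟩)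
      refine le_trans (pr_mono (E' := fun ww => ∃ z ∈ Y, F.j ≤ c.1 z ∧
        ¬ ((acs F.toMd ⟨al K (wQ Y C.2), wZ Y C.2⟩ (c.1, {z}) ww).2 ⊆ (tryLs F K n z c.2 ww).2 ∧
          ∀ x ∈ bx z (2 * DD F n), ms (al K (wQ Y C.2)) c.1 ww x ≤
            ms (al K (tryBox F n z)) (tryRes (tryBox F n z) c.2) ww x)) ?_)
        ((pr_union_le _ _ _).trans (Finset.sum_le_sum fun z hz => ?_))
      · intro ww _ hn
        by_contra hcon
        apply hn
        intro x hx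
        obtain ⟨z, hz, hx'⟩ := (acs_anc _ _ _).1 hx
        obtain ⟨h1, h2⟩ := Finset.mem_filter.1 hz
        have hz' := (Finset.mem_inter.1 h1).1
        have h3 : (acs F.toMd ⟨al K (wQ Y C.2), wZ Y C.2⟩ (c.1, {z}) ww).2 ⊆
            (tryLs F K n z c.2 ww).2 ∧ ∀ x ∈ bx z (2 * DD F n), ms (al K (wQ Y C.2)) c.1 ww x ≤
            ms (al K (tryBox F n z)) (tryRes (tryBox F n z) c.2) ww x := by
          by_contra h4
          exact hcon ⟨z, hz', h2, h4⟩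
        refine ⟨z, hz', h2.trans (hdom z hz' z (try_self n z)), ?_, fun x' hx2 => ?_⟩
        · rw [try_ls_flt (try_al_sub hz')]
          exact h3.1 hx'
        · rw [try_ls_flt (try_al_sub hz'), acs_fst]
          unfold tryLs
          rw [acs_fst]
          exact h3.2 x' hx2
      · by_cases hj : F.j ≤ c.1 z
        · refine le_trans (pr_mono fun ww _ h => h.2) (htk K _ (wQ Y C.2) (tryBox F n z)
            (wZ Y C.2) (bx z (DD F n)) z c.1 (tryRes (tryBox F n z) c.2, {z})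
            (Finset.Subset.refl _) (al_mono K (hbox z hz)) (hbox z hz) (Finset.Subset.refl _)
            (Finset.mem_biUnion.2 ⟨z, hz, self_mem_bx _ _⟩) (fun x hx _ => hx) hj
            (Finset.mem_singleton_self z) fun x hx => ?_)
          have hx' : x ∈ tryBox F n z := bx_mono z (by omega) hx
          exact (hdom z hz x hx').trans (if_pos hx').ge
        · rw [pr_zero fun ww _ h => hj h.1]
          exact (try_se_bdd n T _ _ z).2 _
    have bsum : Bdd fun c : Cfg d × Cfg d =>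
        ∑ z ∈ Y, trySe F n T ⟨al K (wQ Y C.2), wZ Y C.2⟩ (wQ Y C.2) z c.1 := by
      refine ⟨Y.card * 2, fun c => ?_⟩
      rw [abs_of_nonneg (Finset.sum_nonneg fun z _ => (try_se_bdd n T _ _ z).2 _)]
      refine (Finset.sum_le_card_nsmul _ _ 2 fun z _ => ?_).trans (by simp)
      have := add_le_add (pr_le_one (wls F.toMd (al K (wQ Y C.2)) T) fun ws => ∃ u w,
        ws[u]? = some w ∧ ¬ Slow F.toMd ⟨al K (wQ Y C.2), wZ Y C.2⟩ (VV n)
          (bx z (DD F n) ∩ wZ Y C.2) (ms (al K (wQ Y C.2)) c.1 (ws.take u)) w)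
        (min_le_left (1 : ℝ) ((mass c.1 (wQ Y C.2) + 1) * Real.exp (-(n : ℝ) ^ 3)))
      exact this.trans (by norm_num)
    refine (ex_mono (Bdd.pr _ _) bsum s1).trans ?_
    rw [ex_sum _ _ fun z _ => (bs z).comp _]
    have s2 : ∀ z ∈ Y, (ex r fun c =>
        trySe F n T ⟨al K (wQ Y C.2), wZ Y C.2⟩ (wQ Y C.2) z c.1) ≤ er n / 2 := fun z _ => by
      rw [← ex_map r Prod.fst (bs z), hr1]
      exact hse K C.1 _ _ z hK1 hq
    refine (Finset.sum_le_card_nsmul _ _ _ s2).trans ?_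
    have h2 : (Y.card : ℝ) ≤ 2 := by exact_mod_cast hA.2.1
    have h0 := (er_le_e2 n).1
    rw [nsmul_eq_mul]
    nlinarith
  refine ⟨KS, fun f hf => ?_, ?_⟩
  · have bf := Bdd.of01 hf
    have e1 := hKS (fun ξ w σ => ind (∀ z ∈ Y, tryAlive F K n z ξ w) * f σ)
      ((Bdd.ind _).mul (bf.comp _))
    simp only [← ex_mul_left]
    unfold mu
    rw [e1]
    have b0 : Bdd fun p : Cfg d × List (Word d) => ind (∀ y ∈ Y, ∃ x ∈ (acs F.toMd
        ⟨al K (wQ Y C.2), wZ Y C.2⟩ (ini F.toMd (wZ Y C.2) Y p.1) p.2).2, x ∈ bx y C.2) *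
        f (acs F.toMd ⟨al K (wQ Y C.2), wZ Y C.2⟩ (ini F.toMd (wZ Y C.2) Y p.1) p.2) :=
      (Bdd.ind _).mul (bf.comp _)
    have b1 := Bdd.ex (f := fun η ww => ind (∀ y ∈ Y, ∃ x ∈ (acs F.toMd
        ⟨al K (wQ Y C.2), wZ Y C.2⟩ (ini F.toMd (wZ Y C.2) Y η) ww).2, x ∈ bx y C.2) *
        f (acs F.toMd ⟨al K (wQ Y C.2), wZ Y C.2⟩ (ini F.toMd (wZ Y C.2) Y η) ww)) b0
        fun _ => wls F.toMd (al K (wQ Y C.2)) T
    have b2 : Bdd fun c : Cfg d × Cfg d => ex (wls F.toMd (al K (wQ Y C.2)) T) fun ww =>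
        ind (∀ z ∈ Y, tryAlive F K n z c.2 (flt (tryAl F K n Y) ww)) *
        f (acs F.toMd ⟨al K (wQ Y C.2), wZ Y C.2⟩ (ini F.toMd (wZ Y C.2) Y c.1) ww) :=
      Bdd.ex (f := fun (c : Cfg d × Cfg d) ww =>
        ind (∀ z ∈ Y, tryAlive F K n z c.2 (flt (tryAl F K n Y) ww)) *
        f (acs F.toMd ⟨al K (wQ Y C.2), wZ Y C.2⟩ (ini F.toMd (wZ Y C.2) Y c.1) ww))
        ((Bdd.ind _).mul (bf.comp _)) _
    unfold wEv mu
    rw [← hr1, ex_map _ _ b1, sub_le_iff_le_add]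
    refine le_trans ?_ (add_le_add le_rfl hbad)
    rw [← ex_add _ b2 (Bdd.pr _ _)]
    refine ex_mono (b1.comp _) (b2.add (Bdd.pr _ _)) fun c _ => ?_
    unfold pr
    rw [← ex_add _ ((Bdd.ind _).mul (bf.comp _)) (Bdd.ind _)]
    refine ex_mono ((Bdd.ind _).mul (bf.comp _))
      (((Bdd.ind _).mul (bf.comp _)).add (Bdd.ind _)) fun ww _ => ?_
    by_cases hg : tryGW F K n Y c.2 (flt (tryAl F K n Y) ww)
      (acs F.toMd ⟨al K (wQ Y C.2), wZ Y C.2⟩ (ini F.toMd (wZ Y C.2) Y c.1) ww)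
    · rw [ind_neg (not_not.2 hg), add_zero]
      exact mul_le_mul_of_nonneg_right (ind_mono (try_gw_alive hF hA hD hg)) (hf _).1
    · rw [ind_pos hg]
      exact (mul_le_one₀ (ind_le_one _) (hf _).1 (hf _).2).trans
        (le_add_of_nonneg_left (mul_nonneg (ind_nonneg _) (hf _).1))
  · have e1 := hKS (fun ξ w σ => ind (¬ tryGW F K n Y ξ w σ)) (Bdd.ind _)
    unfold mu pr
    rw [e1]
    exact hbad

end Pool.Agent.Lib.MP_dd0771_pr.Sc
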