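import Pool.Agent.Lib.MP_dd0771_pr.Sc.TryC
import Pool.Agent.Lib.MP_dd0771_pr.Sc.TryE

/-! One try: the local systems stay below the ambient system. -/

open Filter

namespace Pool.Agent.Lib.MP_dd0771_pr.Sc

variable {d : ℕ} {F : Fr}

theorem try_bdd_sum {α β : Type} (s : Finset β) {f : β → α → ℝ} (h : ∀ b ∈ s, Bdd (f b)) :
    Bdd fun a => ∑ b ∈ s, f b a := by
  classical
  induction s using Finset.induction_on with
  | empty => simpa using Bdd.const (α := α) 0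
  | insert b s hb ih =>
    simp only [Finset.sum_insert hb]
    exact (h b (Finset.mem_insert_self _ _)).add
      (ih fun c hc => h c (Finset.mem_insert_of_mem hc))

theorem try_card (hd : 2 ≤ d) (hF : F.Ok) :
    ∀ᶠ n : ℕ in atTop, ∀ z : S d, (tryBox F n z).card ≤ 2 ^ (5 * n * d) := by
  have h1 : ∀ᶠ n : ℕ in atTop, ((n : ℝ) ^ (2 * F.A + 4)) / 2 ^ n ≤ 1 :=
    (tendsto_pow_const_div_const_pow_of_one_lt (2 * F.A + 4) (r := 2) one_lt_two).eventually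
      (ge_mem_nhds one_pos)
  have _ := hF
  filter_upwards [h1, card_le (by omega : 1 ≤ d)] with n hn hc z
  rw [div_le_one (by positivity)] at hn
  have h2 : DD F n ≤ 2 ^ n := by
    unfold DD
    exact_mod_cast hn
  unfold tryBox
  rw [card_bx]
  refine le_trans (Nat.pow_le_pow_left ?_ d) (le_trans (Nat.le_mul_of_pos_left _ two_pos) hc)
  have : 2 ^ (n + 3) ≤ 2 ^ (4 * n + 3) := Nat.pow_le_pow_right (by omega) (by omega)
  rw [pow_add] at this
  omega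

theorem try_as (hd : 2 ≤ d) (hF : F.Ok) (hL : Low d F) (T : ℕ) : ∀ᶠ n : ℕ in atTop,
    ∀ (K l : ℕ) (pc : ℝ) (Q Z Yt Yk : Finset (S d)) (ω : Cfg d) (τ : St d), KP F K pc → l ≤ n →
    tryFar F n Yt → Yk ⊆ Yt → Yk.card ≤ 2 → (∀ z ∈ Yt, tryBox F n z ⊆ Q) →
    (∀ z ∈ Yk, bx z (DD F n) ⊆ Z ∧ z ∈ τ.2 ∧ F.j ≤ τ.1 z ∧ pregood F K n l pc ω z ∧
      ∀ x ∈ tryBox F n z, ω x ≤ τ.1 x) →
    (ex (wls F.toMd (al K Q \ tryLow F Yt) (s2 F l)) fun ws1 =>
      ex (tryPX F K n pc ws1 Yt.toList) fun ξ => pr (wls F.toMd (al K Q) T) fun ws2 =>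
        ¬ tryGA F K n Yk ξ ws2 (acs F.toMd ⟨al K Q, Z⟩ τ (ws1 ++ ws2))) ≤
      2 * Real.exp (-(l : ℝ) / 2) + 3 * er n := by
  filter_upwards [try_se hd hF hL T, try_tk hF hL T, try_dom hF hL, try_card hd hF,
    eventually_ge_atTop 1] with n hse htk hdom hcard hn1 K l pc Q Z Yt Yk ω τ hK hl hfar hk hc2 hQ hz
  have hj : 1 ≤ F.toMd.j := by rcases hF.2.2.2.1 with h | h <;> omega
  have hD : 1 ≤ DD F n := Nat.one_le_pow _ _ hn1
  set A' := al K Q \ tryLow F Yt with hA'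
  let se : S d → Cfg d → ℝ := fun z =>
    trySe F n T ⟨al K (tryBox F n z), bx z (DD F n)⟩ (tryBox F n z) z
  have bse : ∀ z, Bdd (se z) := fun z => (try_se_bdd n T _ _ z).1
  let g : S d → List (Word d) → Cfg d → ℝ := fun z ws1 ζ =>
    ind (∃ x ∈ bx z (3 * DD F n), ms (al K Q) τ.1 ws1 x < ζ x) + se z ζ
  have bg : ∀ z, Bdd fun p : List (Word d) × Cfg d => g z p.1 p.2 := fun z =>
    (Bdd.ind _).add ((bse z).comp _)
  have g0 : ∀ z ws1 ζ, 0 ≤ g z ws1 ζ := fun z ws1 ζ =>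
    add_nonneg (ind_nonneg _) ((try_se_bdd n T _ _ z).2 _)
  have s1 : ∀ ws1 ∈ (wls F.toMd A' (s2 F l)).support, ∀ ξ,
      (pr (wls F.toMd (al K Q) T) fun ws2 =>
        ¬ tryGA F K n Yk ξ ws2 (acs F.toMd ⟨al K Q, Z⟩ τ (ws1 ++ ws2))) ≤
      ∑ z ∈ Yk, g z ws1 (tryRes (tryBox F n z) ξ) := by
    intro ws1 h1 ξ
    have hm := (wls_mem hF h1).2
    refine le_trans (pr_mono (E' := fun ws2 => ∃ z ∈ Yk, F.j ≤ ξ z ∧
      ¬ ((tryLs F K n z ξ ws2).2 ⊆
          (acs F.toMd ⟨al K Q, Z⟩ (acs F.toMd ⟨al K Q, Z⟩ τ ws1) ws2).2 ∧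
        ∀ x ∈ bx z (2 * DD F n), ms (al K (tryBox F n z)) (tryRes (tryBox F n z) ξ) ws2 x ≤
          ms (al K Q) (acs F.toMd ⟨al K Q, Z⟩ τ ws1).1 ws2 x)) ?_)
      ((pr_union_le _ _ _).trans (Finset.sum_le_sum fun z hzk => ?_))
    · intro ws2 _ hn
      by_contra hcon
      apply hn
      intro z hzk hjz
      have h3 : (tryLs F K n z ξ ws2).2 ⊆
          (acs F.toMd ⟨al K Q, Z⟩ (acs F.toMd ⟨al K Q, Z⟩ τ ws1) ws2).2 ∧
          ∀ x ∈ bx z (2 * DD F n), ms (al K (tryBox F n z)) (tryRes (tryBox F n z) ξ) ws2 x ≤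
            ms (al K Q) (acs F.toMd ⟨al K Q, Z⟩ τ ws1).1 ws2 x := by
        by_contra h4
        exact hcon ⟨z, hzk, hjz, h4⟩
      rw [acs_append]
      refine ⟨h3.1, fun x hx => ?_⟩
      rw [acs_fst]
      unfold tryLs
      rw [acs_fst]
      exact h3.2 x hx
    · obtain ⟨z1, z2, z3, -, -⟩ := hz z hzk
      by_cases hjz : F.j ≤ ξ z
      · by_cases hdm : ∃ x ∈ bx z (3 * DD F n),
            ms (al K Q) τ.1 ws1 x < tryRes (tryBox F n z) ξ x
        · refine (pr_le_one _ _).trans ?_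
          simp only [g]
          rw [ind_pos hdm]
          exact le_add_of_nonneg_right ((try_se_bdd n T _ _ z).2 _)
        · have hfr : frz F.toMd z ws1 := fun w hw a ha hb =>
            (Finset.mem_sdiff.1 (hm w hw a ha)).2 (Finset.mem_biUnion.2 ⟨z, hk hzk, hb⟩)
          refine le_trans (pr_mono fun ww _ h => h.2) (le_trans (htk K _ (tryBox F n z) Q
            (bx z (DD F n)) Z z (tryRes (tryBox F n z) ξ) (acs F.toMd ⟨al K Q, Z⟩ τ ws1)
            (al_mono K (hQ z (hk hzk))) (Finset.Subset.refl _) (Finset.Subset.refl _)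
            (hQ z (hk hzk)) (self_mem_bx _ _) (fun x hx _ => z1 hx)
            (hjz.trans (try_res_z n z ξ).ge) (frz_stay hj z2 z3 hfr).1 fun x hx => ?_)
            (le_add_of_nonneg_left (ind_nonneg _)))
          rw [acs_fst]
          by_contra h5
          exact hdm ⟨x, hx, not_le.1 h5⟩
      · rw [pr_zero fun ww _ h => hjz h.1]
        exact g0 _ _ _
  have bG : ∀ z, Bdd fun ws1 => ex (tryPB F K n pc ws1 z) (g z ws1) := fun z =>
    Bdd.ex (f := g z) (bg z) _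
  have s2' : ∀ ws1 ∈ (wls F.toMd A' (s2 F l)).support,
      (ex (tryPX F K n pc ws1 Yt.toList) fun ξ => pr (wls F.toMd (al K Q) T) fun ws2 =>
        ¬ tryGA F K n Yk ξ ws2 (acs F.toMd ⟨al K Q, Z⟩ τ (ws1 ++ ws2))) ≤
      ∑ z ∈ Yk, ex (tryPB F K n pc ws1 z) (g z ws1) := by
    intro ws1 h1
    have b1 : ∀ z, Bdd (g z ws1) := fun z => (bg z).comp fun ζ => (ws1, ζ)
    have b2 : ∀ z ∈ Yk, Bdd fun ξ => g z ws1 (tryRes (tryBox F n z) ξ) := fun z _ => (b1 z).comp _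
    have e : ∑ z ∈ Yk, ex (tryPB F K n pc ws1 z) (g z ws1) =
        ex (tryPX F K n pc ws1 Yt.toList) fun ξ =>
          ∑ z ∈ Yk, g z ws1 (tryRes (tryBox F n z) ξ) := by
      rw [ex_sum _ _ b2]
      refine Finset.sum_congr rfl fun z hzk => ?_
      rw [← try_px_res hfar ws1 (hk hzk), ex_map _ _ (b1 z)]
    rw [e]
    exact ex_mono (Bdd.pr _ _) (try_bdd_sum Yk b2) fun ξ _ => s1 ws1 h1 ξ
  have b0 : Bdd fun ws1 => ex (tryPX F K n pc ws1 Yt.toList) fun ξ =>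
      pr (wls F.toMd (al K Q) T) fun ws2 =>
        ¬ tryGA F K n Yk ξ ws2 (acs F.toMd ⟨al K Q, Z⟩ τ (ws1 ++ ws2)) :=
    Bdd.of01 fun ws1 => ⟨ex_nonneg fun _ _ => pr_nonneg _ _,
      ex_le (Bdd.pr _ _) fun _ _ => pr_le_one _ _⟩
  refine (ex_mono b0 (try_bdd_sum Yk fun z _ => bG z) s2').trans ?_
  rw [ex_sum _ _ fun z _ => bG z]
  have s3 : ∀ z ∈ Yk, (ex (wls F.toMd A' (s2 F l)) fun ws1 =>
      ex (tryPB F K n pc ws1 z) (g z ws1)) ≤ Real.exp (-(l : ℝ) / 2) + er n + er n / 2 := by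
    intro z hzk
    obtain ⟨-, -, z3, z4, z5⟩ := hz z hzk
    have e1 : ∀ ws1, ex (tryPB F K n pc ws1 z) (g z ws1) =
        pr (tryPB F K n pc ws1 z) (fun ζ => ∃ x ∈ bx z (3 * DD F n), ms (al K Q) τ.1 ws1 x < ζ x) +
          ex (tryPB F K n pc ws1 z) (se z) := fun ws1 => ex_add _ (Bdd.ind _) (bse z)
    simp only [e1]
    rw [ex_add _ (Bdd.pr _ _) (Bdd.ex (f := fun _ => se z) ((bse z).comp _) _)]
    refine add_le_add (hdom K l pc Q Yt z ω τ.1 hK hl hfar (hk hzk) (hQ z (hk hzk)) z4 z3 z5) ?_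
    have e2 : ((wls F.toMd A' (s2 F l)).bind fun ws1 => tryPB F K n pc ws1 z) =
        mu F.toMd K pc (tryBox F n z) := by
      have h1 := try_law hF hL hK hD hfar hQ (s2 F l)
      have h2 := pc_restrict (Q := tryLoc F n Yt) (B := tryBox F n z)
        (fun x hx => Finset.mem_biUnion.2 ⟨z, hk hzk, hx⟩) fun _ => sl F.toMd K pc 0
      unfold mu at h1 ⊢
      rw [← h2, ← h1, PMF.map_bind]
      congr 1
      funext ws1
      exact (try_px_res hfar ws1 (hk hzk)).symm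
    rw [← ex_bind _ _ (bse z), e2]
    exact hse K pc _ _ z hK (hcard z)
  refine (Finset.sum_le_card_nsmul _ _ _ s3).trans ?_
  have h2 : (Yk.card : ℝ) ≤ 2 := by exact_mod_cast hc2
  have h0 := (er_le_e2 n).1
  have h3 := Real.exp_pos (-(l : ℝ) / 2)
  rw [nsmul_eq_mul]
  nlinarith

end Pool.Agent.Lib.MP_dd0771_pr.Sc
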