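import Pool.Agent.Lib.MP_dd0771_pr.Sc.TryA

/-! One try: independence of the local worlds. -/

open Filter

namespace Pool.Agent.Lib.MP_dd0771_pr.Sc

variable {d : ℕ} {F : Fr}

theorem tryg_words (hF : F.Ok) {A B1 B2 : Finset (Lt d)} (h1 : B1 ⊆ A) (h2 : B2 ⊆ A)
    (h : Disjoint B1 B2) (T : ℕ) {f g : List (Word d) → ℝ} (hf : Bdd f) (hg : Bdd g) :
    (ex (wls F.toMd A T) fun w => f (flt B1 w) * g (flt B2 w)) =
      ex (wls F.toMd B1 T) f * ex (wls F.toMd B2 T) g := by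
  have hb : Bdd fun p : List (Word d) × List (Word d) => f p.1 * g p.2 :=
    (hf.comp Prod.fst).mul (hg.comp Prod.snd)
  have e1 := ex_map (wls F.toMd A T) (fun ws => (flt B1 ws, flt B2 ws)) hb
  rw [wls_split hF h1 h2 h T, ex_bind _ _ hb] at e1
  rw [← e1, ← ex_mul_right]
  refine ex_congr fun w _ => ?_
  rw [ex_map _ _ hb, ← ex_mul_left]

theorem tryg_cfg {Q1 Q2 : Finset (S d)} (h : Disjoint Q1 Q2) (m : S d → PMF ℕ)
    {f g : Cfg d → ℝ} (hf : Bdd f) (hg : Bdd g) :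
    (ex (pc (Q1 ∪ Q2) m) fun ξ => f (tryRes Q1 ξ) * g (tryRes Q2 ξ)) =
      ex (pc Q1 m) f * ex (pc Q2 m) g := by
  have hb : Bdd fun ξ : Cfg d => f (tryRes Q1 ξ) * g (tryRes Q2 ξ) :=
    (hf.comp _).mul (hg.comp _)
  rw [pc_union h, ex_bind _ _ hb, ← ex_mul_right]
  refine ex_congr fun η hη => ?_
  rw [ex_map _ _ hb, ← ex_mul_left]
  refine ex_congr fun η' hη' => ?_
  have k1 := (pc_support hη).1
  have k2 := (pc_support hη').1
  have e1 : tryRes Q1 (η + η') = η := by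
    funext x
    unfold tryRes
    split_ifs with hx
    · rw [Pi.add_apply, k2 x (Finset.disjoint_left.1 h hx), Nat.add_zero]
    · exact (k1 x hx).symm
  have e2 : tryRes Q2 (η + η') = η' := by
    funext x
    unfold tryRes
    split_ifs with hx
    · rw [Pi.add_apply, k1 x (Finset.disjoint_right.1 h hx), Nat.zero_add]
    · exact (k2 x hx).symm
  rw [e1, e2]

theorem tryg_prod (hF : F.Ok) {Q1 Q2 : Finset (S d)} (hQ : Disjoint Q1 Q2) (m : S d → PMF ℕ)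
    {A B1 B2 : Finset (Lt d)} (h1 : B1 ⊆ A) (h2 : B2 ⊆ A) (h : Disjoint B1 B2) (T : ℕ)
    {f g : Cfg d → List (Word d) → ℝ} (hf : Bdd fun p : Cfg d × List (Word d) => f p.1 p.2)
    (hg : Bdd fun p : Cfg d × List (Word d) => g p.1 p.2) :
    (ex (pc (Q1 ∪ Q2) m) fun ξ => ex (wls F.toMd A T) fun w =>
      f (tryRes Q1 ξ) (flt B1 w) * g (tryRes Q2 ξ) (flt B2 w)) =
      (ex (pc Q1 m) fun ξ => ex (wls F.toMd B1 T) (f ξ)) *
        ex (pc Q2 m) fun ξ => ex (wls F.toMd B2 T) (g ξ) := by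
  rw [← tryg_cfg hQ m (hf.ex fun _ => wls F.toMd B1 T) (hg.ex fun _ => wls F.toMd B2 T)]
  refine ex_congr fun ξ _ => ?_
  exact tryg_words hF h1 h2 h T (hf.comp fun w => (tryRes Q1 ξ, w))
    (hg.comp fun w => (tryRes Q2 ξ, w))

theorem tryg_fst {K : ℕ} {Q : Finset (S d)} {a : Lt d} (h : a ∈ al K Q) : a.1 ∈ Q := by
  obtain ⟨x, _ | ⟨e, k⟩⟩ := a
  · exact mem_al_none.1 h
  · exact (mem_al_some.1 h).1

theorem tryg_alive {K n : ℕ} {Y : Finset (S d)} {z : S d} (hz : z ∈ Y) (ξ : Cfg d)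
    (w : List (Word d)) :
    tryAlive F K n z (tryRes (tryLoc F n Y) ξ) (flt (tryAl F K n Y) w) ↔ tryAlive F K n z ξ w := by
  have e1 : tryRes (tryBox F n z) (tryRes (tryLoc F n Y) ξ) = tryRes (tryBox F n z) ξ := by
    funext x
    unfold tryRes
    by_cases hx : x ∈ tryBox F n z
    · have : x ∈ tryLoc F n Y := Finset.mem_biUnion.2 ⟨z, hz, hx⟩
      simp only [hx, this, if_true]
    · simp only [hx, if_false]
  have h2 : al K (tryBox F n z) ⊆ tryAl F K n Y :=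
    Finset.subset_biUnion_of_mem (fun z => al K (tryBox F n z)) hz
  unfold tryAlive
  rw [e1, acs_flt ⟨al K (tryBox F n z), bx z (2 * DD F n)⟩ h2]

theorem try_ind (hF : F.Ok) {K n : ℕ} {pc : ℝ} {Q Yt Yk : Finset (S d)} (hY : tryFar F n Yt)
    (hk : Yk ⊆ Yt) (hQ : ∀ z ∈ Yt, tryBox F n z ⊆ Q) (T : ℕ) {H : Cfg d → List (Word d) → ℝ}
    (hH : Bdd fun p : Cfg d × List (Word d) => H p.1 p.2) :
    (ex (mu F.toMd K pc (tryLoc F n Yt)) fun ξ => ex (wls F.toMd (al K Q) T) fun w =>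
      ind (∀ z ∈ Yt \ Yk, tryAlive F K n z ξ w) *
        H (tryRes (tryLoc F n Yk) ξ) (flt (tryAl F K n Yk) w)) =
    (ex (mu F.toMd K pc (tryLoc F n Yt)) fun ξ => pr (wls F.toMd (al K Q) T) fun w =>
      ∀ z ∈ Yt \ Yk, tryAlive F K n z ξ w) *
    ex (mu F.toMd K pc (tryLoc F n Yk)) fun ξ => ex (wls F.toMd (tryAl F K n Yk) T) (H ξ) := by
  have hne : ∀ z ∈ Yt \ Yk, ∀ z' ∈ Yk, Disjoint (tryBox F n z) (tryBox F n z') := by
    intro z hz z' hz'
    obtain ⟨h1, h2⟩ := Finset.mem_sdiff.1 hz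
    exact hY z h1 z' (hk hz') fun h => h2 (h ▸ hz')
  have hd1 : Disjoint (tryLoc F n (Yt \ Yk)) (tryLoc F n Yk) := by
    rw [Finset.disjoint_left]
    intro x h1 h2
    obtain ⟨z, hz, h1⟩ := Finset.mem_biUnion.1 h1
    obtain ⟨z', hz', h2⟩ := Finset.mem_biUnion.1 h2
    exact Finset.disjoint_left.1 (hne z hz z' hz') h1 h2
  have hd2 : Disjoint (tryAl F K n (Yt \ Yk)) (tryAl F K n Yk) := by
    rw [Finset.disjoint_left]
    intro a h1 h2
    obtain ⟨z, hz, h1⟩ := Finset.mem_biUnion.1 h1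
    obtain ⟨z', hz', h2⟩ := Finset.mem_biUnion.1 h2
    exact Finset.disjoint_left.1 (hne z hz z' hz') (tryg_fst h1) (tryg_fst h2)
  have hs : ∀ Y, Y ⊆ Yt → tryAl F K n Y ⊆ al K Q := fun Y h =>
    Finset.biUnion_subset.2 fun z hz => al_mono K (hQ z (h hz))
  have hu : tryLoc F n Yt = tryLoc F n (Yt \ Yk) ∪ tryLoc F n Yk := by
    unfold tryLoc
    rw [← Finset.union_biUnion, Finset.sdiff_union_of_subset hk]
  have hi : ∀ (ξ : Cfg d) (w : List (Word d)), ind (∀ z ∈ Yt \ Yk, tryAlive F K n z ξ w) =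
      ind (∀ z ∈ Yt \ Yk, tryAlive F K n z (tryRes (tryLoc F n (Yt \ Yk)) ξ)
        (flt (tryAl F K n (Yt \ Yk)) w)) := by
    intro ξ w
    congr 1
    exact propext (forall₂_congr fun z hz => (tryg_alive hz ξ w).symm)
  have hb : Bdd fun p : Cfg d × List (Word d) =>
      ind (∀ z ∈ Yt \ Yk, tryAlive F K n z p.1 p.2) := Bdd.ind _
  have p1 := tryg_prod hF hd1 (fun _ => sl F.toMd K pc 0) (hs _ Finset.sdiff_subset) (hs _ hk)
    hd2 T (f := fun ξ w => ind (∀ z ∈ Yt \ Yk, tryAlive F K n z ξ w)) hb hH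
  have p2 := tryg_prod hF hd1 (fun _ => sl F.toMd K pc 0) (hs _ Finset.sdiff_subset) (hs _ hk)
    hd2 T (f := fun ξ w => ind (∀ z ∈ Yt \ Yk, tryAlive F K n z ξ w)) (g := fun _ _ => 1) hb
    (Bdd.const 1)
  simp only [← hi, ← hu, mul_one, ex_const] at p1 p2
  unfold mu pr
  rw [p1, p2]

end Pool.Agent.Lib.MP_dd0771_pr.Sc
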