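import Pool.Agent.Lib.MP_dd0771_pr.Sc.TryB

/-! One try: the success event in terms of the local configurations. -/

open Filter

namespace Pool.Agent.Lib.MP_dd0771_pr.Sc

variable {d : ℕ} {F : Fr}

theorem try_res_self {K n : ℕ} {pc : ℝ} {ws : List (Word d)} {z : S d} {ζ : Cfg d}
    (h : ζ ∈ (tryPB F K n pc ws z).support) : tryRes (tryBox F n z) ζ = ζ := by
  funext x
  unfold tryRes
  split_ifs with hx
  · rfl
  · exact (try_pb_supp h hx).symm

theorem try_alive_congr {K n : ℕ} {z : S d} {ξ ξ' : Cfg d}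
    (h : tryRes (tryBox F n z) ξ = tryRes (tryBox F n z) ξ') (ws : List (Word d)) :
    tryAlive F K n z ξ ws ↔ tryAlive F K n z ξ' ws := by
  unfold tryAlive
  rw [h]

theorem try_lt {B : Bs} {K n l : ℕ} {pc : ℝ} (ws : List (Word d)) (z : S d) :
    pr (LT F B K n l pc ws z) (fun o => o.isSome = true) =
      ind (frz F.toMd z (ws.take (s2 F l))) *
        pr (tryPB F K n pc (ws.take (s2 F l)) z) fun ζ =>
          tryAlive F K n z ζ (ws.drop (s2 F l)) := by
  have e : pr (tryPB F K n pc (ws.take (s2 F l)) z) (fun ζ =>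
      tryAlive F K n z ζ (ws.drop (s2 F l))) =
      pr (tryPB F K n pc (ws.take (s2 F l)) z) fun ζ =>
        (acs F.toMd ⟨al K (tryBox F n z), bx z (2 * DD F n)⟩
          (ini F.toMd (bx z (2 * DD F n)) {z} ζ) (ws.drop (s2 F l))).2.Nonempty :=
    pr_congr fun ζ h => by
      unfold tryAlive
      rw [try_res_self h]
  rw [e]
  unfold LT
  split_ifs with h
  · rw [ind_pos h, one_mul]
    unfold tryPB tryBox
    rw [pr_bind, pr_bind]
    refine ex_congr fun ζ0 _ => ?_
    rw [pr_map, pr_map]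
    refine pr_congr fun v _ => ?_
    dsimp only
    split_ifs with h2
    · simpa using h2
    · simpa using h2
  · rw [ind_neg h, zero_mul]
    exact pr_zero fun o ho => by
      have : o = none := by simpa using ho
      simp [this]

theorem try_lts {B : Bs} {K n l : ℕ} {pc : ℝ} (ws : List (Word d)) (zs : List (S d))
    (hp : zs.Pairwise fun y z => Disjoint (tryBox F n y) (tryBox F n z)) :
    pr (LTs F B K n l pc ws zs) (fun b => b = true) =
      ind (∀ z ∈ zs, frz F.toMd z (ws.take (s2 F l))) *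
        pr (tryPX F K n pc (ws.take (s2 F l)) zs) fun ξ =>
          ∀ z ∈ zs, tryAlive F K n z ξ (ws.drop (s2 F l)) := by
  induction zs with
  | nil =>
    unfold LTs
    rw [ind_pos (by simp), one_mul, pr_one fun b hb => by simpa using hb,
      pr_one fun _ _ => by simp]
  | cons y ys ih =>
    rw [List.pairwise_cons] at hp
    unfold LTs tryPX
    rw [pr_bind, pr_bind]
    have e1 : (ex (LT F B K n l pc ws y) fun o =>
        pr ((LTs F B K n l pc ws ys).map fun b => o.isSome && b) fun b => b = true) =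
        pr (LT F B K n l pc ws y) (fun o => o.isSome = true) *
          pr (LTs F B K n l pc ws ys) fun b => b = true := by
      unfold pr
      rw [← ex_mul_right]
      refine ex_congr fun o _ => ?_
      rw [ex_map _ _ (Bdd.ind _), ← ex_mul_left]
      refine ex_congr fun b _ => ?_
      rw [← ind_and]
      simp
    have e2 : (ex (tryPB F K n pc (ws.take (s2 F l)) y) fun ζ =>
        pr ((tryPX F K n pc (ws.take (s2 F l)) ys).map fun ξ => ζ + ξ) fun ξ =>
          ∀ z ∈ y :: ys, tryAlive F K n z ξ (ws.drop (s2 F l))) =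
        pr (tryPB F K n pc (ws.take (s2 F l)) y)
          (fun ζ => tryAlive F K n y ζ (ws.drop (s2 F l))) *
        pr (tryPX F K n pc (ws.take (s2 F l)) ys) fun ξ =>
          ∀ z ∈ ys, tryAlive F K n z ξ (ws.drop (s2 F l)) := by
      unfold pr
      rw [← ex_mul_right]
      refine ex_congr fun ζ h0 => ?_
      rw [ex_map _ _ (Bdd.ind _), ← ex_mul_left]
      refine ex_congr fun ξ h1 => ?_
      rw [← ind_and, List.forall_mem_cons]
      congr 1
      refine propext (and_congr ?_ (forall₂_congr fun z hz => ?_))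
      · exact try_alive_congr (by rw [try_res_head hp.1 h0 h1, try_res_self h0]) _
      · exact try_alive_congr (try_res_tail (hp.1 z hz) h0 ξ) _
    rw [e1, e2, try_lt, ih hp.2, List.forall_mem_cons, ind_and]
    ring

theorem try_rate (z : S d) :
    ∑ a ∈ low F.toMd z, rt F.toMd a = ∑ a ∈ low F.toMd (0 : S d), rt F.toMd a := by
  refine Finset.sum_bij' (fun a _ => ((0 : S d), a.2)) (fun a _ => (z, a.2)) ?_ ?_ ?_ ?_ ?_
  · intro a ha
    exact mem_low.2 ⟨rfl, (mem_low.1 ha).2⟩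
  · intro a ha
    exact mem_low.2 ⟨rfl, (mem_low.1 ha).2⟩
  · intro a ha
    exact Prod.ext (mem_low.1 ha).1.symm rfl
  · intro a ha
    exact Prod.ext (mem_low.1 ha).1.symm rfl
  · rintro ⟨x, _ | q⟩ _ <;> rfl

theorem try_rate_low (Y : Finset (S d)) :
    ∑ a ∈ tryLow F Y, rt F.toMd a = Y.card * ∑ a ∈ low F.toMd (0 : S d), rt F.toMd a := by
  unfold tryLow
  rw [Finset.sum_biUnion, Finset.sum_congr rfl fun z _ => try_rate (F := F) z, Finset.sum_const,
    nsmul_eq_mul]
  intro z _ z' _ hne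
  exact Finset.disjoint_left.2 fun a h1 h2 => hne ((try_low_fst h1).symm.trans (try_low_fst h2))

theorem try_low_sub (hF : F.Ok) {K n : ℕ} (hK : KOk F K) (hD : 1 ≤ DD F n) {Y Q : Finset (S d)}
    (hQ : ∀ z ∈ Y, tryBox F n z ⊆ Q) : tryLow F Y ⊆ al K Q := by
  intro a ha
  obtain ⟨z, hz, h⟩ := Finset.mem_biUnion.1 ha
  obtain ⟨h1, h2⟩ := mem_low.1 h
  obtain ⟨x, o⟩ := a
  dsimp only at h1 h2
  subst h1
  rcases o with _ | ⟨e, k⟩
  · exact mem_al_none.2 (hQ x hz (try_self n x))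
  · have hj : F.j ≤ 2 := by rcases hF.2.2.2.1 with h | h <;> omega
    have := h2 (e, k) rfl
    have h4 := hK.1
    refine mem_al_some.2 ⟨hQ x hz (try_self n x), hQ x hz ?_, by dsimp only at this; omega⟩
    unfold tryBox
    rw [mem_bx, nrm_nb]
    omega

theorem try_id (hF : F.Ok) {B : Bs} {K n l : ℕ} {pc : ℝ} (hK : KP F K pc) (hD : 1 ≤ DD F n)
    {Y Q : Finset (S d)} (hY : tryFar F n Y) (hQ : ∀ z ∈ Y, tryBox F n z ⊆ Q)
    {g : List (Word d) → ℝ} (hg : Bdd g) :
    (ex (wls F.toMd (al K Q) (sq F B l)) fun ws =>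
      pr (LTs F B K n l pc ws Y.toList) (fun b => b = true) * g ws) =
    Real.exp (-(s2 F l : ℝ) * ∑ a ∈ low F.toMd (0 : S d), rt F.toMd a) ^ Y.card *
      ex (wls F.toMd (al K Q \ tryLow F Y) (s2 F l)) fun ws1 =>
        ex (tryPX F K n pc ws1 Y.toList) fun ξ => ex (wls F.toMd (al K Q) B.n0) fun ws2 =>
          ind (∀ z ∈ Y, tryAlive F K n z ξ ws2) * g (ws1 ++ ws2) := by
  have b1 : Bdd fun p : (List (Word d) × Cfg d) × List (Word d) =>
      ind (∀ z ∈ Y, tryAlive F K n z p.1.2 p.2) * g (p.1.1 ++ p.2) :=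
    (Bdd.ind _).mul (hg.comp _)
  have b2 : Bdd fun p : List (Word d) × Cfg d => ex (wls F.toMd (al K Q) B.n0) fun ws2 =>
      ind (∀ z ∈ Y, tryAlive F K n z p.2 ws2) * g (p.1 ++ ws2) :=
    Bdd.ex (f := fun (p : List (Word d) × Cfg d) ws2 =>
      ind (∀ z ∈ Y, tryAlive F K n z p.2 ws2) * g (p.1 ++ ws2)) b1 _
  have b3 : Bdd fun ws1 => ex (tryPX F K n pc ws1 Y.toList) fun ξ =>
      ex (wls F.toMd (al K Q) B.n0) fun ws2 =>
        ind (∀ z ∈ Y, tryAlive F K n z ξ ws2) * g (ws1 ++ ws2) :=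
    Bdd.ex (f := fun ws1 ξ => ex (wls F.toMd (al K Q) B.n0) fun ws2 =>
      ind (∀ z ∈ Y, tryAlive F K n z ξ ws2) * g (ws1 ++ ws2)) b2 _
  have ha := ex_wls_avoid hF (try_low_sub hF hK.1 hD hQ) (s2 F l) b3
  rw [try_rate_low] at ha
  have ee : Real.exp (-(s2 F l : ℝ) * ∑ a ∈ low F.toMd (0 : S d), rt F.toMd a) ^ Y.card =
      Real.exp (-(s2 F l : ℝ) * (Y.card * ∑ a ∈ low F.toMd (0 : S d), rt F.toMd a)) := by
    rw [← Real.exp_nat_mul]
    congr 1
    ring
  rw [ee, ← ha]
  unfold sq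
  have b4 : Bdd fun ws => pr (LTs F B K n l pc ws Y.toList) (fun b => b = true) * g ws :=
    (Bdd.pr _ fun _ b => b = true).mul hg
  have e0 := ex_iid_add (wl F.toMd (al K Q)) (s2 F l) B.n0 b4
  unfold wls
  rw [e0]
  refine ex_congr fun ws1 h1 => ?_
  have hl := iid_length h1
  have e1 : ∀ ws2, pr (LTs F B K n l pc (ws1 ++ ws2) Y.toList) (fun b => b = true) *
      g (ws1 ++ ws2) = ind (∀ w ∈ ws1, ∀ a ∈ w, a ∉ tryLow F Y) *
        ex (tryPX F K n pc ws1 Y.toList) fun ξ =>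
          ind (∀ z ∈ Y, tryAlive F K n z ξ ws2) * g (ws1 ++ ws2) := fun ws2 => by
    rw [try_lts _ _ (try_pw hY), List.take_left' hl, List.drop_left' hl, ex_mul_right, mul_assoc]
    congr 2
    · refine propext ⟨fun h w hw a ha hb => ?_, fun h z hz w hw a ha hb => ?_⟩
      · obtain ⟨z, hz, h2⟩ := Finset.mem_biUnion.1 hb
        exact h z (Finset.mem_toList.2 hz) w hw a ha h2
      · exact h w hw a ha (Finset.mem_biUnion.2 ⟨z, Finset.mem_toList.1 hz, hb⟩)
    · unfold pr
      simp only [Finset.mem_toList]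
  simp only [e1]
  rw [ex_mul_left]
  congr 1
  exact ex_comm _ _ (f := fun ws2 ξ => ind (∀ z ∈ Y, tryAlive F K n z ξ ws2) * g (ws1 ++ ws2))
    ((Bdd.ind _).mul (hg.comp _))

end Pool.Agent.Lib.MP_dd0771_pr.Sc
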