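import Pool.Agent.Lib.MP_dd0771_pr.Sc.TryF
import Pool.Agent.Lib.MP_dd0771_pr.Sc.TryG
import Pool.Agent.Lib.MP_dd0771_pr.Sc.TryH

/-! One try: the joint law. -/

open Filter

namespace Pool.Agent.Lib.MP_dd0771_pr.Sc

variable {d : ℕ} {F : Fr}

/-- The joint law of the freeze windows, the local data, the last windows and the world. -/
noncomputable def tryJ (p : PMF (List (Word d))) (X : List (Word d) → PMF (Cfg d))
    (q : PMF (List (Word d))) (k : Cfg d → List (Word d) → PMF (St d)) :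
    PMF ((List (Word d) × Cfg d) × List (Word d) × St d) :=
  p.bind fun ws1 => (X ws1).bind fun ξ => q.bind fun ws2 =>
    (k ξ ws2).map fun σ => ((ws1, ξ), ws2, σ)

theorem try_exJ (p : PMF (List (Word d))) (X : List (Word d) → PMF (Cfg d))
    (q : PMF (List (Word d))) (k : Cfg d → List (Word d) → PMF (St d))
    {h : (List (Word d) × Cfg d) × List (Word d) × St d → ℝ} (hh : Bdd h) :
    ex (tryJ p X q k) h = ex p fun ws1 => ex (X ws1) fun ξ => ex q fun ws2 =>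
      ex (k ξ ws2) fun σ => h ((ws1, ξ), ws2, σ) := by
  unfold tryJ
  rw [ex_bind _ _ hh]
  refine ex_congr fun ws1 _ => ?_
  rw [ex_bind _ _ hh]
  refine ex_congr fun ξ _ => ?_
  rw [ex_bind _ _ hh]
  exact ex_congr fun ws2 _ => ex_map _ _ hh

theorem try_exJ' (p : PMF (List (Word d))) (X : List (Word d) → PMF (Cfg d))
    (q : PMF (List (Word d))) (k : Cfg d → List (Word d) → PMF (St d))
    {h : Cfg d → List (Word d) → St d → ℝ}
    (hh : Bdd fun x : Cfg d × List (Word d) × St d => h x.1 x.2.1 x.2.2) :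
    ex (tryJ p X q k) (fun x => h x.1.2 x.2.1 x.2.2) =
      ex (p.bind X) fun ξ => ex q fun ws2 => ex (k ξ ws2) (h ξ ws2) := by
  have b1 : Bdd fun x : Cfg d × List (Word d) => ex (k x.1 x.2) (h x.1 x.2) :=
    Bdd.ex (f := fun x : Cfg d × List (Word d) => h x.1 x.2)
      (hh.comp fun y : (Cfg d × List (Word d)) × St d => (y.1.1, y.1.2, y.2)) _
  have b2 : Bdd fun ξ => ex q fun ws2 => ex (k ξ ws2) (h ξ ws2) :=
    Bdd.ex (f := fun ξ ws2 => ex (k ξ ws2) (h ξ ws2)) b1 _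
  rw [try_exJ _ _ _ _ (hh.comp fun x : (List (Word d) × Cfg d) × List (Word d) × St d =>
    (x.1.2, x.2.1, x.2.2)), ex_bind _ _ b2]

theorem try_suppJ {p : PMF (List (Word d))} {X : List (Word d) → PMF (Cfg d)}
    {q : PMF (List (Word d))} {k : Cfg d → List (Word d) → PMF (St d)}
    {x : (List (Word d) × Cfg d) × List (Word d) × St d} (h : x ∈ (tryJ p X q k).support) :
    x.1.1 ∈ p.support ∧ x.2.1 ∈ q.support := by
  unfold tryJ at h
  obtain ⟨ws1, h1, h⟩ := (PMF.mem_support_bind_iff _ _ _).1 h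
  obtain ⟨ξ, -, h⟩ := (PMF.mem_support_bind_iff _ _ _).1 h
  obtain ⟨ws2, h2, h⟩ := (PMF.mem_support_bind_iff _ _ _).1 h
  obtain ⟨σ, -, rfl⟩ := (PMF.mem_support_map_iff _ _ _).1 h
  exact ⟨h1, h2⟩

theorem try_al_le {K n : ℕ} {Y Q : Finset (S d)} (hQ : ∀ z ∈ Y, tryBox F n z ⊆ Q) :
    tryAl F K n Y ⊆ al K Q := fun a ha => by
  obtain ⟨z, hz, h⟩ := Finset.mem_biUnion.1 ha
  exact al_mono K (hQ z hz) h

theorem try_marg (hF : F.Ok) {K n : ℕ} {pc : ℝ} {Q Yt Yk : Finset (S d)} (hk : Yk ⊆ Yt)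
    (hQ : ∀ z ∈ Yt, tryBox F n z ⊆ Q) (T : ℕ) {H : Cfg d → List (Word d) → ℝ}
    (hH : Bdd fun p : Cfg d × List (Word d) => H p.1 p.2) :
    (ex (mu F.toMd K pc (tryLoc F n Yt)) fun ξ => ex (wls F.toMd (al K Q) T) fun w =>
      H (tryRes (tryLoc F n Yk) ξ) (flt (tryAl F K n Yk) w)) =
    ex (mu F.toMd K pc (tryLoc F n Yk)) fun ξ => ex (wls F.toMd (tryAl F K n Yk) T) (H ξ) := by
  have h2 := pc_restrict (Q := tryLoc F n Yt) (B := tryLoc F n Yk)
    (Finset.biUnion_subset_biUnion_of_subset_left _ hk) fun _ => sl F.toMd K pc 0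
  have h3 := wls_flt hF (try_al_le (K := K) fun z hz => hQ z (hk hz)) T
  unfold mu
  rw [← h2, ex_map _ _ (Bdd.ex hH _)]
  refine ex_congr fun ξ _ => ?_
  rw [← h3, ex_map _ _ (hH.comp fun w => (_, w))]
  rfl

theorem try_vld {K n : ℕ} {Y : Finset (S d)} {ξ : Cfg d} {ws : List (Word d)} {σ τ : St d}
    (h1 : tryGW F K n Y (tryRes (tryLoc F n Y) ξ) (flt (tryAl F K n Y) ws) σ)
    (h2 : tryGA F K n Y ξ ws τ) : Vld (DD F n) σ τ := by
  have key : ∀ x ∈ σ.2, x ∈ τ.2 ∧ ∀ x' ∈ bx x (DD F n), σ.1 x' ≤ τ.1 x' := by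
    intro x hx
    obtain ⟨z, hz, hj, h3, h4⟩ := h1 x hx
    have hzl : z ∈ tryLoc F n Y := Finset.mem_biUnion.2 ⟨z, hz, try_self n z⟩
    have hj' : F.j ≤ ξ z := hj.trans (if_pos hzl).le
    have e : tryLs F K n z (tryRes (tryLoc F n Y) ξ) (flt (tryAl F K n Y) ws) =
        tryLs F K n z ξ ws := by
      rw [try_ls_flt (try_al_sub hz)]
      unfold tryLs
      congr 2
      funext y
      unfold tryRes
      by_cases hy : y ∈ tryBox F n z
      · have : y ∈ tryLoc F n Y := Finset.mem_biUnion.2 ⟨z, hz, hy⟩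
        simp only [hy, this, if_true]
      · simp only [hy, if_false]
    rw [e] at h3 h4
    obtain ⟨h5, h6⟩ := h2 z hz hj'
    refine ⟨h5 h3, fun x' hx' => ?_⟩
    have h7 : x' ∈ bx z (2 * DD F n) :=
      bx_subset (by have := mem_bx.1 (try_ls_reg hj' ws h3); omega) hx'
    exact (h4 x' h7).trans (h6 x' h7)
  exact ⟨fun x hx => (key x hx).1, fun x hx => (key x hx).2⟩

/-- The probability that all the local worlds live. -/
theorem try_a (hF : F.Ok) (hL : Low d F) {B : Bs} {K n l : ℕ} {pc : ℝ} (hK : KP F K pc)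
    (hD : 1 ≤ DD F n) {Y Q : Finset (S d)} (hY : tryFar F n Y) (hQ : ∀ z ∈ Y, tryBox F n z ⊆ Q)
    (hq : (ex (wls F.toMd (al K Q) (sq F B l)) fun ws =>
      pr (LTs F B K n l pc ws Y.toList) fun b => b = true) = qq d F B K n l pc ^ Y.card) :
    (ex (mu F.toMd K pc (tryLoc F n Y)) fun ξ => ex (wls F.toMd (al K Q) B.n0) fun w =>
      ind (∀ z ∈ Y, tryAlive F K n z ξ w)) = alv d F.toMd K (pc, 2 * DD F n) B.n0 ^ Y.card := by
  have h := try_id (B := B) (l := l) hF hK hD hY hQ (Bdd.const 1)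
  simp only [mul_one] at h
  rw [hq, ← ex_bind _ _ (Bdd.ex (f := fun ξ w => ind (∀ z ∈ Y, tryAlive F K n z ξ w))
    (Bdd.ind _) _), try_law hF hL hK hD hY hQ] at h
  unfold qq at h
  rw [mul_pow] at h
  exact (mul_left_cancel₀ (by positivity) h).symm

theorem try_num {B : Bs} (hB : B.Ok F) : ∀ᶠ n : ℕ in atTop, ∀ l : ℕ, ls n ≤ l → l ≤ n →
    2 * Real.exp (-(l : ℝ) / 2) + 4 * er n ≤ tol l * B.thm ^ 2 := by
  have h0 := thm_pos hB
  filter_upwards [er_small (e := B.thm ^ 2 / 8) (by positivity)] with n hn l h1 h2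
  have t0 : 0 < tol l := Real.exp_pos _
  have t1 : tol l ≤ tol (ls n) := by
    unfold tol
    have : (ls n : ℝ) ≤ l := by exact_mod_cast h1
    exact Real.exp_le_exp.2 (by linarith)
  have t2 : Real.exp (-(l : ℝ) / 2) = tol l * tol l := by
    unfold tol
    rw [← Real.exp_add]
    congr 1
    ring
  have t3 : er n = e2 n * e2 n := by
    unfold er e2
    rw [← pow_add]
    congr 1
    ring
  have t4 : e2 n ≤ tol l := by
    unfold e2 tol
    have a1 : (1 / 4 : ℝ) ≤ Real.exp (-1 / 4) := by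
      have := Real.add_one_le_exp (-1 / 4 : ℝ)
      linarith
    have a2 : (l : ℝ) ≤ n := by exact_mod_cast h2
    calc (1 / 2 : ℝ) ^ (2 * n) = (1 / 4) ^ n := by rw [pow_mul]; norm_num
      _ ≤ Real.exp (-1 / 4) ^ n := pow_le_pow_left₀ (by norm_num) a1 n
      _ = Real.exp (-(n : ℝ) / 4) := by rw [← Real.exp_nat_mul]; congr 1; ring
      _ ≤ _ := Real.exp_le_exp.2 (by linarith)
  have t5 : 0 ≤ e2 n := (er_le_e2 n).1.le.trans (er_le_e2 n).2.1
  rw [t2, t3]
  have u1 : tol l * tol l ≤ tol l * (B.thm ^ 2 / 8) :=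
    mul_le_mul_of_nonneg_left (t1.trans hn.2.2) t0.le
  have u2 : e2 n * e2 n ≤ tol l * (B.thm ^ 2 / 8) := mul_le_mul t4 hn.2.1 t5 t0.le
  have u3 : 0 ≤ tol l * B.thm ^ 2 := by positivity
  linarith

end Pool.Agent.Lib.MP_dd0771_pr.Sc
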