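import Pool.Agent.Lib.MP_dd0771_pr.Sc.Kit3
import Pool.Agent.Lib.MP_dd0771_pr.Sc.Wd1
import Pool.Agent.Lib.MP_dd0771_pr.Sc.Det2

open Filter

namespace Pool.Agent.Lib.MP_dd0771_pr.Sc

section
variable {α β : Type}

theorem wx_sec {f : α → β → ℝ} (hf : Bdd fun x : α × β => f x.1 x.2) (a : α) : Bdd (f a) :=
  hf.comp fun b => (a, b)

theorem wx_ex2_mono (p : PMF α) (q : PMF β) {f g : α → β → ℝ}
    (hf : Bdd fun x : α × β => f x.1 x.2) (hg : Bdd fun x : α × β => g x.1 x.2)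
    (h : ∀ a b, f a b ≤ g a b) :
    (ex p fun a => ex q fun b => f a b) ≤ ex p fun a => ex q fun b => g a b :=
  ex_mono (Bdd.ex hf fun _ => q) (Bdd.ex hg fun _ => q) fun a _ =>
    ex_mono (wx_sec hf a) (wx_sec hg a) fun b _ => h a b

theorem wx_ex2_add (p : PMF α) (q : PMF β) {f g : α → β → ℝ}
    (hf : Bdd fun x : α × β => f x.1 x.2) (hg : Bdd fun x : α × β => g x.1 x.2) :
    (ex p fun a => ex q fun b => f a b + g a b) =
      (ex p fun a => ex q fun b => f a b) + ex p fun a => ex q fun b => g a b := by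
  rw [← ex_add p (Bdd.ex hf fun _ => q) (Bdd.ex hg fun _ => q)]
  exact ex_congr fun a _ => ex_add q (wx_sec hf a) (wx_sec hg a)

theorem wx_ex2_mul (p : PMF α) (q : PMF β) (c : ℝ) (f : α → β → ℝ) :
    (ex p fun a => ex q fun b => c * f a b) = c * ex p fun a => ex q fun b => f a b := by
  rw [← ex_mul_left]
  exact ex_congr fun a _ => ex_mul_left q c _

theorem wx_bdd_sum (s : Finset β) {f : β → α → ℝ} (hf : ∀ b ∈ s, Bdd (f b)) :
    Bdd fun a => ∑ b ∈ s, f b a := by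
  classical
  induction s using Finset.induction_on with
  | empty => simpa using Bdd.const (α := α) 0
  | insert b s hb ih =>
    simp only [Finset.sum_insert hb]
    exact (hf b (Finset.mem_insert_self _ _)).add
      (ih fun b' hb' => hf b' (Finset.mem_insert_of_mem hb'))

end

variable {d : ℕ} {F : Fr} {K T : ℕ} {φ : ℝ} {Q Z Y0 : Finset (S d)}

theorem wX_mono {G : Md} {f g : Tj d → ℝ} (hf : Bdd f) (hg : Bdd g)
    (h : ∀ I, RegT Z Y0 I → f I ≤ g I) : wX G K φ Q Z Y0 T f ≤ wX G K φ Q Z Y0 T g :=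
  wx_ex2_mono _ _ (hf.comp _) (hg.comp _) fun η ws =>
    h _ (regT_tj (G := G) ⟨al K Q, Z⟩ Y0 η ws)

theorem wX_add {G : Md} {f g : Tj d → ℝ} (hf : Bdd f) (hg : Bdd g) :
    wX G K φ Q Z Y0 T (fun I => f I + g I) = wX G K φ Q Z Y0 T f + wX G K φ Q Z Y0 T g :=
  wx_ex2_add _ _ (hf.comp _) (hg.comp _)

theorem wX_mul {G : Md} (c : ℝ) (f : Tj d → ℝ) :
    wX G K φ Q Z Y0 T (fun I => c * f I) = c * wX G K φ Q Z Y0 T f :=
  wx_ex2_mul _ _ c _

theorem wX_const {G : Md} (c : ℝ) : wX G K φ Q Z Y0 T (fun _ => c) = c := by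
  simp only [wX, ex_const]

theorem wx_tj_take {G : Md} (Y : Sys d) (σ : St d) (ws : List (Word d)) {u : ℕ} (hu : u ≤ T) :
    tj G Y σ (ws.take T) u = tj G Y σ ws u := by
  simp only [tj, List.take_take, min_eq_left hu]

theorem wX_horizon {G : Md} {T' : ℕ} (h : T ≤ T') {f : Tj d → ℝ} (hf : Bdd f)
    (hl : ∀ I J : Tj d, (∀ u, u ≤ T → I u = J u) → f I = f J) :
    wX G K φ Q Z Y0 T' f = wX G K φ Q Z Y0 T f := by
  refine ex_congr fun η _ => ?_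
  unfold wls
  rw [← iid_take (wl G (al K Q)) h, ex_map _ _ (hf.comp _)]
  exact ex_congr fun ws _ => hl _ _ fun u hu => (wx_tj_take _ _ ws hu).symm

theorem wP_horizon {G : Md} {T' : ℕ} (h : T ≤ T') {E : Tj d → Prop}
    (hl : ∀ I J : Tj d, (∀ u, u ≤ T → I u = J u) → E I → E J) :
    wP G K φ Q Z Y0 T' E = wP G K φ Q Z Y0 T E :=
  wX_horizon h (Bdd.ind E) fun I J hIJ =>
    le_antisymm (ind_mono (hl I J hIJ)) (ind_mono (hl J I fun u hu => (hIJ u hu).symm))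

theorem wP_nonneg {G : Md} (E : Tj d → Prop) : 0 ≤ wP G K φ Q Z Y0 T E :=
  ex_nonneg fun _ _ => ex_nonneg fun _ _ => ind_nonneg _

theorem wP_le_one {G : Md} (E : Tj d → Prop) : wP G K φ Q Z Y0 T E ≤ 1 := by
  rw [← wX_const (G := G) (K := K) (φ := φ) (Q := Q) (Z := Z) (Y0 := Y0) (T := T) 1]
  exact wX_mono (Bdd.ind E) (Bdd.const 1) fun I _ => ind_le_one _

theorem wP_mono {G : Md} {E E' : Tj d → Prop} (h : ∀ I, RegT Z Y0 I → E I → E' I) :
    wP G K φ Q Z Y0 T E ≤ wP G K φ Q Z Y0 T E' :=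
  wX_mono (Bdd.ind E) (Bdd.ind E') fun I hI => ind_mono (h I hI)

theorem wP_le_add {G : Md} {E E1 E2 : Tj d → Prop} (h : ∀ I, RegT Z Y0 I → E I → E1 I ∨ E2 I) :
    wP G K φ Q Z Y0 T E ≤ wP G K φ Q Z Y0 T E1 + wP G K φ Q Z Y0 T E2 := by
  unfold wP
  rw [← wX_add (Bdd.ind E1) (Bdd.ind E2)]
  refine wX_mono (Bdd.ind E) ((Bdd.ind E1).add (Bdd.ind E2)) fun I hI => ?_
  have h1 := ind_nonneg (E1 I)
  have h2 := ind_nonneg (E2 I)
  by_cases hE : E I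
  · rw [ind_pos hE]
    rcases h I hI hE with h' | h'
    · rw [ind_pos h']; linarith
    · rw [ind_pos h']; linarith
  · rw [ind_neg hE]; linarith

theorem wx_sum {G : Md} {β : Type} (s : Finset β) {f : β → Tj d → ℝ} (hf : ∀ b ∈ s, Bdd (f b)) :
    wX G K φ Q Z Y0 T (fun I => ∑ b ∈ s, f b I) = ∑ b ∈ s, wX G K φ Q Z Y0 T (f b) := by
  classical
  induction s using Finset.induction_on with
  | empty => simpa using wX_const 0
  | insert b s hb ih =>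
    have h' : ∀ b' ∈ s, Bdd (f b') := fun b' hb' => hf b' (Finset.mem_insert_of_mem hb')
    simp only [Finset.sum_insert hb]
    rw [wX_add (hf b (Finset.mem_insert_self _ _)) (wx_bdd_sum s h'), ih h']

theorem wP_union_le {G : Md} {β : Type} (s : Finset β) {E : Tj d → Prop} (E' : β → Tj d → Prop)
    (h : ∀ I, RegT Z Y0 I → E I → ∃ b ∈ s, E' b I) :
    wP G K φ Q Z Y0 T E ≤ ∑ b ∈ s, wP G K φ Q Z Y0 T (E' b) := by
  unfold wP
  rw [← wx_sum s fun b _ => Bdd.ind (E' b)]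
  refine wX_mono (Bdd.ind E) (wx_bdd_sum s fun b _ => Bdd.ind (E' b)) fun I hI => ?_
  by_cases hE : E I
  · obtain ⟨b, hb, hb'⟩ := h I hI hE
    rw [ind_pos hE, ← ind_pos hb']
    exact Finset.single_le_sum (f := fun b => ind (E' b I)) (fun b _ => ind_nonneg _) hb
  · rw [ind_neg hE]
    exact Finset.sum_nonneg fun b _ => ind_nonneg _

theorem wx_ind4 {E1 E2 E E' : Prop} (h1 : E1 ∨ E2 → E) (h2 : E1 → E2 → E') :
    ind E1 + ind E2 ≤ ind E' + ind E := by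
  have a1 := ind_nonneg E
  have a2 := ind_nonneg E'
  by_cases b1 : E1 <;> by_cases b2 : E2
  · rw [ind_pos b1, ind_pos b2, ind_pos (h1 (Or.inl b1)), ind_pos (h2 b1 b2)]
  · rw [ind_pos b1, ind_neg b2, ind_pos (h1 (Or.inl b1))]; linarith
  · rw [ind_neg b1, ind_pos b2, ind_pos (h1 (Or.inr b2))]; linarith
  · rw [ind_neg b1, ind_neg b2]; linarith

/-- Two events inside a third one. -/
theorem wP_inter {G : Md} {E1 E2 E : Tj d → Prop}
    (h : ∀ I, RegT Z Y0 I → E1 I ∨ E2 I → E I) :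
    wP G K φ Q Z Y0 T E1 + wP G K φ Q Z Y0 T E2 - wP G K φ Q Z Y0 T E ≤
      wP G K φ Q Z Y0 T fun I => E1 I ∧ E2 I := by
  rw [sub_le_iff_le_add]
  unfold wP
  rw [← wX_add (Bdd.ind E1) (Bdd.ind E2), ← wX_add (Bdd.ind _) (Bdd.ind E)]
  exact wX_mono ((Bdd.ind E1).add (Bdd.ind E2)) ((Bdd.ind _).add (Bdd.ind E)) fun I hI =>
    wx_ind4 (h I hI) fun a b => ⟨a, b⟩

theorem wx_tj_sub (hF : F.Ok) {Z' : Finset (S d)} (hZ : Z' ⊆ Z) (A : Finset (Lt d)) (η : Cfg d)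
    (ws : List (Word d)) (u : ℕ) :
    tj F.toMd ⟨A, Z'⟩ (ini F.toMd Z' Y0 η) ws u ⊆ tj F.toMd ⟨A, Z⟩ (ini F.toMd Z Y0 η) ws u := by
  have hj : 1 ≤ F.toMd.j := by
    rcases hF.2.2.2.1 with h | h <;> omega
  refine acs_mono hj A hZ (τ := ini F.toMd Z Y0 η) (reg_ini Z' Y0 η) (le_refl η) ?_ _
  exact Finset.filter_subset_filter _ (Finset.inter_subset_inter (Finset.Subset.refl _) hZ)

/-- Two zones at once: the infection of the smaller zone is contained in the other one. -/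
theorem wP_two (hF : F.Ok) {Z' : Finset (S d)} (hZ : Z' ⊆ Z) {E1 E2 E E' : Tj d → Prop}
    (h1 : ∀ J I, RegT Z' Y0 J → RegT Z Y0 I → (∀ u, J u ⊆ I u) → E1 J ∨ E2 I → E I)
    (h2 : ∀ J I, RegT Z' Y0 J → RegT Z Y0 I → (∀ u, J u ⊆ I u) → E1 J → E2 I → E' I) :
    wP F.toMd K φ Q Z' Y0 T E1 + wP F.toMd K φ Q Z Y0 T E2 - wP F.toMd K φ Q Z Y0 T E ≤
      wP F.toMd K φ Q Z Y0 T E' := by
  rw [sub_le_iff_le_add]
  unfold wP wX
  rw [← wx_ex2_add _ _ (Bdd.ind _) (Bdd.ind _), ← wx_ex2_add _ _ (Bdd.ind _) (Bdd.ind _)]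
  refine wx_ex2_mono _ _ ((Bdd.ind _).add (Bdd.ind _)) ((Bdd.ind _).add (Bdd.ind _))
    fun η ws => ?_
  have a := regT_tj (G := F.toMd) ⟨al K Q, Z'⟩ Y0 η ws
  have b := regT_tj (G := F.toMd) ⟨al K Q, Z⟩ Y0 η ws
  have c := wx_tj_sub (Y0 := Y0) hF hZ (al K Q) η ws
  exact wx_ind4 (h1 _ _ a b c) (h2 _ _ a b c)

theorem wEv_nonneg {G : Md} {n0 : ℕ} {C : Ty} {Y : Finset (S d)} {f : St d → ℝ}
    (h : ∀ σ, 0 ≤ f σ) : 0 ≤ wEv G K n0 C Y f :=
  ex_nonneg fun _ _ => ex_nonneg fun _ _ => mul_nonneg (ind_nonneg _) (h _)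

theorem wEv_mono {G : Md} {n0 : ℕ} {C : Ty} {Y : Finset (S d)} {f g : St d → ℝ} (hf : Bdd f)
    (hg : Bdd g) (h : ∀ σ, Reg G (wZ Y C.2) σ → f σ ≤ g σ) : wEv G K n0 C Y f ≤ wEv G K n0 C Y g :=
  wx_ex2_mono _ _ ((Bdd.ind _).mul (hf.comp _)) ((Bdd.ind _).mul (hg.comp _)) fun η ws =>
    mul_le_mul_of_nonneg_left
      (h _ (Reg.acs (Y := ⟨al K (wQ Y C.2), wZ Y C.2⟩) (reg_ini _ Y η) ws)) (ind_nonneg _)

theorem wEv_add {G : Md} {n0 : ℕ} {C : Ty} {Y : Finset (S d)} {f g : St d → ℝ} (hf : Bdd f)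
    (hg : Bdd g) : wEv G K n0 C Y (fun σ => f σ + g σ) = wEv G K n0 C Y f + wEv G K n0 C Y g := by
  unfold wEv
  simp only [mul_add]
  exact wx_ex2_add _ _ ((Bdd.ind _).mul (hf.comp _)) ((Bdd.ind _).mul (hg.comp _))

theorem wEv_mul {G : Md} {n0 : ℕ} {C : Ty} {Y : Finset (S d)} (c : ℝ) (f : St d → ℝ) :
    wEv G K n0 C Y (fun σ => c * f σ) = c * wEv G K n0 C Y f := by
  unfold wEv
  rw [← wx_ex2_mul]
  exact ex_congr fun η _ => ex_congr fun ws _ => by ring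

/-- Markov property at time `n0`. -/
theorem wEv_ex {G : Md} {n0 : ℕ} {C : Ty} {Y : Finset (S d)} (T : ℕ) {f : Tj d → ℝ} (hf : Bdd f) :
    wEv G K n0 C Y (fun σ => ex (wls G (al K (wQ Y C.2)) T) fun ws =>
        f (tj G ⟨al K (wQ Y C.2), wZ Y C.2⟩ σ ws)) =
      wX G K C.1 (wQ Y C.2) (wZ Y C.2) Y (n0 + T) fun I =>
        ind (∀ y ∈ Y, ∃ x ∈ I n0, x ∈ bx y C.2) * f fun u => I (n0 + u) := by
  refine ex_congr fun η _ => ?_
  unfold wls
  rw [ex_iid_add _ _ _ ((Bdd.ind _).mul (hf.comp _))]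
  refine ex_congr fun ws hws => ?_
  have hl : ws.length = n0 := iid_length hws
  rw [← ex_mul_left]
  refine ex_congr fun ws' _ => ?_
  subst hl
  simp only [tj_shift]
  simp only [tj, List.take_left']
  rfl

theorem rv_bounds (B : Bs) (n l : ℕ) (pc : ℝ) (H : Mc d) (m : ℕ) (σ : St d)
    {v : ℕ × Finset (S d) → ℝ} {vb : ℝ} (h : ∀ p, 0 ≤ v p ∧ v p ≤ vb) :
    0 ≤ rv F B K n l pc H m σ v ∧ rv F B K n l pc H m σ v ≤ vb := by
  have hvb : 0 ≤ vb := (h (0, ∅)).1.trans (h (0, ∅)).2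
  have key : ∀ o : Option (ℕ × Finset (S d)), 0 ≤ o.elim 0 v ∧ o.elim 0 v ≤ vb := by
    rintro (_ | p)
    · exact ⟨le_rfl, hvb⟩
    · exact h p
  refine ⟨ex_nonneg fun o _ => (key o).1, ex_le ⟨vb, fun o => ?_⟩ fun o _ => (key o).2⟩
  rw [abs_of_nonneg (key o).1]
  exact (key o).2

theorem wx_tryB (B : Bs) (n l : ℕ) (pc : ℝ) (H : Mc d) (k : ℕ) (σ : St d) (ws : List (Word d))
    {Yt : Finset (S d)} (h : some Yt ∈ (tryB F B K n l pc H k σ ws).support) :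
    ∃ ω0, Yt ∈ H.O k (cand F K n l pc H σ ws ω0) := by
  unfold tryB at h
  obtain ⟨ω0, -, h⟩ := (PMF.mem_support_bind_iff _ _ _).1 h
  refine ⟨ω0, ?_⟩
  split_ifs at h with hne
  · obtain ⟨Y', hY', h⟩ := (PMF.mem_support_bind_iff _ _ _).1 h
    obtain ⟨b, -, hb⟩ := (PMF.mem_support_map_iff _ _ _).1 h
    rw [PMF.mem_support_uniformOfFinset_iff] at hY'
    cases b
    · simp at hb
    · simp only [if_true, Option.some.injEq] at hb
      exact hb ▸ hY'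
  · simp at h

theorem wx_cand_sub (n l : ℕ) (pc : ℝ) (H : Mc d) (σ : St d) (ws : List (Word d)) (ω0 : Cfg d) :
    cand F K n l pc H σ ws ω0 ⊆ (acs F.toMd H.sy σ (ws.take (s1 F n))).2 ∩ wZ H.Y H.L := by
  classical
  unfold cand
  intro z hz
  exact Finset.mem_of_mem_filter z hz

/-- The first success is an option of the rule. -/
theorem run_support (B : Bs) (n l : ℕ) (pc : ℝ) (H : Mc d) (m k0 : ℕ) (σ : St d)
    {p : ℕ × Finset (S d)} (h : some p ∈ (run F B K n l pc H m k0 σ).support) :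
    k0 ≤ p.1 ∧ p.1 < k0 + m ∧ ∃ Cd ⊆ wZ H.Y H.L, p.2 ∈ H.O p.1 Cd := by
  induction m generalizing k0 σ with
  | zero => simp [run] at h
  | succ m ih =>
    unfold run at h
    obtain ⟨ws, -, h⟩ := (PMF.mem_support_bind_iff _ _ _).1 h
    obtain ⟨o, ho, h⟩ := (PMF.mem_support_bind_iff _ _ _).1 h
    cases o with
    | none =>
      obtain ⟨a, b, c⟩ := ih (k0 + 1) _ h
      exact ⟨by omega, by omega, c⟩
    | some Yt =>
      have hp : p = (k0, Yt) := by simpa using h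
      subst hp
      obtain ⟨ω0, hω⟩ := wx_tryB B n l pc H k0 σ ws ho
      exact ⟨le_rfl, by simp, _, (wx_cand_sub n l pc H σ ws ω0).trans Finset.inter_subset_right, hω⟩

end Pool.Agent.Lib.MP_dd0771_pr.Sc
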