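import Pool.Agent.Lib.MP_dd0771_pr.Sc.Wd1

open Filter

namespace Pool.Agent.Lib.MP_dd0771_pr.Sc

variable {d : ℕ} {F : Fr} {α : Type}

theorem wd2_exp (x : ℝ) (k : ℕ) :
    HasSum (fun N : ℕ => (N.choose k : ℝ) * x ^ (N - k) / N.factorial)
      (Real.exp x / k.factorial) := by
  rw [← hasSum_nat_add_iff' k, Finset.sum_eq_zero fun i hi => by
    rw [Nat.choose_eq_zero_of_lt (Finset.mem_range.1 hi)]; simp, sub_zero]
  have h := (NormedSpace.expSeries_div_hasSum_exp (𝔸 := ℝ) x).div_const (k.factorial : ℝ)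
  rw [← Real.exp_eq_exp_ℝ] at h
  refine h.congr_fun fun n => ?_
  have h1 : (((n + k).choose k * n.factorial * k.factorial : ℕ) : ℝ) = (n + k).factorial := by
    rw [Nat.add_choose_mul_factorial_mul_factorial]
  have h2 : ((n + k).choose k : ℝ) ≠ 0 :=
    Nat.cast_ne_zero.2 (Nat.choose_pos (Nat.le_add_left k n)).ne'
  rw [← h1, Nat.add_sub_cancel]
  push_cast
  field_simp

/-- Weighted expectation over the words of length `N`. -/
noncomputable def wd2U (G : Md) (A : Finset (Lt d)) (N : ℕ) (g : Word d → ℝ) : ℝ :=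
  (∑ a ∈ A, rt G a) ^ N * ex (iid (lw G A) N) g

theorem wd2_R (hF : F.Ok) (A : Finset (Lt d)) : 0 ≤ ∑ a ∈ A, rt F.toMd a :=
  Finset.sum_nonneg fun a _ => rt_nonneg hF a

theorem wd2_zero (G : Md) (A : Finset (Lt d)) (g : Word d → ℝ) : wd2U G A 0 g = g [] := by
  simp [wd2U, iid, ex_pure]

theorem wd2_succ (hF : F.Ok) (A : Finset (Lt d)) (N : ℕ) {g : Word d → ℝ} (hg : Bdd g) :
    wd2U F.toMd A (N + 1) g = ∑ a ∈ A, rt F.toMd a * wd2U F.toMd A N fun l => g (a :: l) := by
  rcases (wd2_R hF A).eq_or_lt with h | h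
  · have h1 := (Finset.sum_eq_zero_iff_of_nonneg fun a _ => rt_nonneg hF a).1 h.symm
    rw [Finset.sum_eq_zero fun a ha => by rw [h1 a ha, zero_mul], wd2U, ← h]
    simp
  · simp only [wd2U]
    rw [ex_iid_succ _ _ hg, ex_lw hF h, pow_succ, mul_assoc, mul_div_cancel₀ _ h.ne',
      Finset.mul_sum]
    exact Finset.sum_congr rfl fun a _ => by ring

theorem wd2_sum (hF : F.Ok) (A : Finset (Lt d)) {g : Word d → ℝ} (hg : Bdd g) :
    HasSum (fun N : ℕ => Real.exp (-∑ a ∈ A, rt F.toMd a) * (wd2U F.toMd A N g / N.factorial))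
      (ex (wl F.toMd A) g) := by
  obtain ⟨M, hM⟩ := id hg
  have e : ex (wl F.toMd A) g = ∑' N : ℕ, Real.exp (-∑ a ∈ A, rt F.toMd a) *
      (wd2U F.toMd A N g / N.factorial) := by
    rw [ex_wl hF A hg]
    exact tsum_congr fun N => by simp only [wd2U]; ring
  rw [e]
  refine (Summable.mul_left _ ?_).hasSum
  refine Summable.of_norm_bounded
    ((Real.summable_pow_div_factorial (∑ a ∈ A, rt F.toMd a)).mul_right M) fun N => ?_
  have h1 : |ex (iid (lw F.toMd A) N) g| ≤ M :=
    abs_le.2 ⟨le_ex hg fun a _ => (abs_le.1 (hM a)).1, ex_le hg fun a _ => (abs_le.1 (hM a)).2⟩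
  have h2 := pow_nonneg (wd2_R hF A) N
  rw [Real.norm_eq_abs, wd2U, abs_div, abs_mul, abs_of_nonneg h2, Nat.abs_cast, div_mul_eq_mul_div]
  gcongr

theorem wd2_le (hF : F.Ok) (A : Finset (Lt d)) {g : Word d → ℝ} (hg : Bdd g) {v : ℕ → ℝ} {V : ℝ}
    (h : ∀ N, wd2U F.toMd A N g ≤ v N) (hv : HasSum (fun N => v N / N.factorial) V) :
    ex (wl F.toMd A) g ≤ Real.exp (-∑ a ∈ A, rt F.toMd a) * V :=
  hasSum_le (fun N => by have := h N; gcongr) (wd2_sum hF A hg) (hv.mul_left _)

theorem wd2_inv {A : Finset (Lt d)} {step : α → Lt d → α} {Inv : α → Prop}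
    (hI : ∀ x a, Inv x → a ∈ A → Inv (step x a)) {w : Word d} (hw : ∀ a ∈ w, a ∈ A) {x : α}
    (hx : Inv x) : Inv (w.foldl step x) := by
  induction w generalizing x with
  | nil => exact hx
  | cons a w ih =>
    exact ih (fun b hb => hw b (List.mem_cons_of_mem _ hb)) (hI x a hx (hw a List.mem_cons_self))

/-- One window, for functions of both signs. -/
theorem wd2_win (hF : F.Ok) (A : Finset (Lt d)) (step : α → Lt d → α) (Inv : α → Prop)
    (hI : ∀ x a, Inv x → a ∈ A → Inv (step x a)) (f : α → ℝ) (hf : Bdd f) (c b : ℝ) (hc : 0 ≤ c)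
    (hb : 0 ≤ b)
    (hg : ∀ x, Inv x → ∑ a ∈ A, rt F.toMd a * (f (step x a) - f x) ≤ c * f x + b) (x : α)
    (hx : Inv x) :
    ex (wl F.toMd A) (fun w => f (w.foldl step x)) ≤ Real.exp c * (f x + b) := by
  have hR := wd2_R hF A
  set R := ∑ a ∈ A, rt F.toMd a with eR
  have h1 : ∀ N x, Inv x → wd2U F.toMd A N (fun w => f (w.foldl step x)) ≤
      (R + c) ^ N * f x + b * (N * (R + c) ^ (N - 1)) := by
    intro N
    induction N with
    | zero => intro x _; simp [wd2_zero]
    | succ N ih =>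
      intro x hx
      have h2 := hg x hx
      simp only [mul_sub, Finset.sum_sub_distrib, ← Finset.sum_mul] at h2
      have h3 : R * (N * (R + c) ^ (N - 1)) ≤ N * (R + c) ^ N := by
        rcases N with _ | N
        · simp
        · rw [Nat.add_sub_cancel, pow_succ]
          have : 0 ≤ ((N + 1 : ℕ) : ℝ) * (R + c) ^ N := by positivity
          nlinarith
      have h4 : 0 ≤ (R + c) ^ N := by positivity
      rw [wd2_succ hF A N (hf.comp _)]
      refine (Finset.sum_le_sum fun a ha => mul_le_mul_of_nonneg_left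
        (ih (step x a) (hI x a hx ha)) (rt_nonneg hF a)).trans ?_
      simp only [mul_add, Finset.sum_add_distrib, mul_left_comm _ ((R + c) ^ N), ← Finset.mul_sum,
        ← Finset.sum_mul]
      rw [← eR] at h2 ⊢
      rw [Nat.add_sub_cancel, pow_succ]
      push_cast
      nlinarith [mul_le_mul_of_nonneg_left h2 h4, mul_le_mul_of_nonneg_left h3 hb]
  have h2 := ((wd2_exp (R + c) 0).mul_right (f x)).add ((wd2_exp (R + c) 1).mul_left b)
  refine (wd2_le hF A (hf.comp _) (h1 · x hx) (V := Real.exp (R + c) * (f x + b)) ?_).trans ?_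
  · simp only [Nat.choose_zero_right, Nat.choose_one_right, Nat.sub_zero, Nat.factorial_zero,
      Nat.factorial_one, Nat.cast_one, one_mul, div_one] at h2
    rw [mul_add, mul_comm _ b]
    exact h2.congr_fun fun N => by ring
  · rw [← mul_assoc, ← Real.exp_add, ← eR, neg_add_cancel_left]

theorem wd2_gen (hF : F.Ok) (A : Finset (Lt d)) (step : α → Lt d → α) (Inv : α → Prop)
    (hI : ∀ x a, Inv x → a ∈ A → Inv (step x a)) (f : α → ℝ) (hf : Bdd f) (c b : ℝ) (hc : 0 ≤ c)
    (hb : 0 ≤ b)
    (hg : ∀ x, Inv x → ∑ a ∈ A, rt F.toMd a * (f (step x a) - f x) ≤ c * f x + b) (T : ℕ) (x : α)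
    (hx : Inv x) :
    ex (wls F.toMd A T) (fun ws => f (ws.flatten.foldl step x)) ≤
      Real.exp (c * T) * (f x + b * T) := by
  induction T generalizing x with
  | zero => simp [wls, iid, ex_pure]
  | succ T ih =>
    have h1 := wd2_win hF A step Inv hI f hf c b hc hb hg x hx
    have h2 : Bdd fun w : Word d => f (w.foldl step x) := hf.comp _
    rw [wls, ex_iid_succ _ _ (hf.comp _)]
    refine (ex_mono (g := fun w => Real.exp (c * T) * (f (w.foldl step x) + b * T))
      (Bdd.ex (f := fun (w : Word d) (l : List (Word d)) => f ((w :: l).flatten.foldl step x))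
        (hf.comp _) _) ((Bdd.const _).mul (h2.add (Bdd.const _))) fun w hw => ?_).trans ?_
    · simp only [List.flatten_cons, List.foldl_append]
      exact ih _ (wd2_inv hI (wl_mem hF hw) hx)
    · rw [ex_mul_left, ex_add _ h2 (Bdd.const _), ex_const]
      push_cast
      rw [mul_add c, mul_one, Real.exp_add, mul_assoc]
      have h3 := Real.one_le_exp hc
      have h4 : 0 ≤ b * T := by positivity
      refine mul_le_mul_of_nonneg_left ?_ (Real.exp_pos _).le
      nlinarith

theorem wd2_stop (step : α → Lt d → α) (E : α → Prop) [DecidablePred E] {l₁ l : Word d}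
    (h : l₁ <+: l) {x : α} (hx : E (l₁.foldl step x)) :
    E (l.foldl (fun y a => if E y then y else step y a) x) := by
  have h0 : ∀ (l : Word d) y, E y → l.foldl (fun y a => if E y then y else step y a) y = y := by
    intro l y hy
    induction l with
    | nil => rfl
    | cons a l ih => rw [List.foldl_cons, if_pos hy, ih]
  induction l₁ generalizing l x with
  | nil => rw [h0 l x hx]; exact hx
  | cons a l₁ ih =>
    obtain ⟨t, rfl⟩ := h
    by_cases k : E x
    · rw [h0 _ x k]; exact k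
    · rw [List.cons_append, List.foldl_cons, if_neg k]
      exact ih (List.prefix_append _ _) hx

theorem wd2_pre {ws : List (Word d)} {u : ℕ} {w : Word d} (h : ws[u]? = some w) (i : ℕ) :
    (ws.take u).flatten ++ w.take i <+: ws.flatten := by
  obtain ⟨hu, rfl⟩ := List.getElem?_eq_some_iff.1 h
  conv_rhs => rw [← List.take_append_drop u ws, List.drop_eq_getElem_cons hu, List.flatten_append,
    List.flatten_cons]
  exact (List.prefix_append_right_inj _).2 ((List.take_prefix _ _).trans (List.prefix_append _ _))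

/-- Words may be read backwards. -/
theorem wd2_rev (G : Md) (A : Finset (Lt d)) (T : ℕ) {f : Word d → ℝ} (hf : Bdd f) :
    ex (wls G A T) (fun ws => f (ws.flatten.foldl (fun l a => a :: l) [])) =
      ex (wls G A T) fun ws => f ws.flatten := by
  have h1 : (wl G A).map List.reverse = wl G A := by
    rw [wl, PMF.map_bind]
    simp only [iid_reverse]
  have h2 : (wls G A T).map (fun ws => (ws.map List.reverse).reverse) = wls G A T := by
    conv_rhs => rw [wls, ← iid_reverse, ← h1, ← iid_map, PMF.map_comp]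
    rfl
  conv_rhs => rw [← h2, ex_map _ _ (hf.comp _)]
  refine ex_congr fun ws _ => ?_
  rw [← List.reverse_flatten]
  simp

theorem wd2_bd (G : Md) (A : Finset (Lt d)) {g : Lt d → α → ℝ} (h : ∀ a, Bdd (g a)) :
    Bdd fun x => ∑ a ∈ A, rt G a * g a x := by
  choose M hM using h
  exact ⟨∑ a ∈ A, |rt G a| * M a, fun x => (Finset.abs_sum_le_sum_abs _ _).trans
    (Finset.sum_le_sum fun a _ => by
      rw [abs_mul]
      exact mul_le_mul_of_nonneg_left (hM a x) (abs_nonneg _))⟩

theorem wd2_swap (G : Md) (A : Finset (Lt d)) (p : PMF α) {g : Lt d → α → ℝ}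
    (h : ∀ a, Bdd (g a)) :
    (ex p fun x => ∑ a ∈ A, rt G a * g a x) = ∑ a ∈ A, rt G a * ex p (g a) := by
  rw [ex_sum p A fun a _ => (Bdd.const _).mul (h a)]
  exact Finset.sum_congr rfl fun a _ => ex_mul_left _ _ _

/-- Averaged bound for functionals of the word under a law of the starting point. -/
theorem wd2_avg (hF : F.Ok) (A : Finset (Lt d)) (p : PMF α) {g : α → Word d → ℝ}
    (hg : Bdd fun z : α × Word d => g z.1 z.2) {b : ℝ} (hb : 0 ≤ b)
    (h : ∀ l, (ex p fun x => ∑ a ∈ A, rt F.toMd a * (g x (a :: l) - g x l)) ≤ b) (T : ℕ) :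
    (ex p fun x => ex (wls F.toMd A T) fun ws => g x ws.flatten) ≤
      (ex p fun x => g x []) + b * T := by
  have h1 : Bdd fun l => ex p fun x => g x l :=
    Bdd.ex (f := fun l x => g x l) (hg.comp Prod.swap) fun _ => p
  have h2 : ∀ l, Bdd fun x => g x l := fun l => hg.comp fun x => (x, l)
  have h3 := wd2_gen hF A (fun l a => a :: l) (fun _ => True) (fun _ _ _ _ => trivial) _ h1 0 b
    le_rfl hb (fun l _ => by
      have := h l
      rw [wd2_swap _ A p fun a => (h2 _).sub (h2 _)] at this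
      simp only [ex_sub p (h2 _) (h2 _)] at this
      simpa using this) T [] trivial
  rw [wd2_rev _ A T h1] at h3
  rw [ex_comm p _ (f := fun x (ws : List (Word d)) => g x ws.flatten)
    (hg.comp fun z : α × List (Word d) => (z.1, z.2.flatten))]
  simpa using h3

end Pool.Agent.Lib.MP_dd0771_pr.Sc
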