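import Pool.Agent.Lib.MP_dd0771_pr.Sc.Kit
import Pool.Agent.Lib.MP_dd0771_pr.Sc.CeK

/-! Progress in one coordinate: the goal, the gain property, composition. -/

open Filter

namespace Pool.Agent.Lib.MP_dd0771_pr.Sc

variable {d : ℕ} {F : Fr} {B : Bs} {K n : ℕ} {M : Amb d} {C : Ty} {i : Fin d}

/-- Launches beyond the level `a` in the coordinate `i`, or far out, have value `w`. -/
def wwGl (F : Fr) (B : Bs) (K n : ℕ) (M : Amb d) (C : Ty) (i : Fin d) (a : ℤ) (Φ : Nd d → ℝ)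
    (w : ℝ) (t1 t2 : ℕ) : Prop :=
  ∀ z t, t1 ≤ t → t ≤ t2 → nrm z ≤ 13 * C.2 → (a ≤ z i ∨ 12 * C.2 ≤ nrm z) →
    Val F B K n (ls n) M Φ C {z} t w

/-- A gain `r` in the coordinate `i` costs the factor `u` and the time `U`. -/
def wwG (F : Fr) (B : Bs) (K n : ℕ) (M : Amb d) (C : Ty) (i : Fin d) (r : ℕ) (u : ℝ) (U : ℕ) :
    Prop :=
  ∀ (a : ℤ) (y : S d) (Φ : Nd d → ℝ) (ub w : ℝ) (t : ℕ), nrm y ≤ 13 * C.2 → a ≤ y i + r →
    Mart F.toMd K M Φ (t + U) ub → 0 ≤ w → w ≤ ub → wwGl F B K n M C i a Φ w t (t + U) →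
    Val F B K n (ls n) M Φ C {y} t (u * w)

/-- The ambient system around the worlds of type `C`. -/
structure wwAm (F : Fr) (B : Bs) (K n : ℕ) (M : Amb d) (C : Ty) : Prop where
  ok : M.Ok F B K n (B.p 1)
  u0 : M.u0 = 0
  hQ : bx 0 (16 * C.2) ⊆ M.Q'
  hZ : bx 0 (16 * C.2) ⊆ M.Z
  ty : TyOk F B n (B.p 1) C

theorem wwGl_ok (a : ℤ) : GlOk (wwGl F B K n M C i a) := by
  refine ⟨?_, ?_⟩
  · intro Φ w t1 t2 t1' t2' h1 h2 h z t ht1 ht2 hz ha
    exact h z t (h1.trans ht1) (ht2.trans h2) hz ha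
  · intro Φ Ψ w wb t1 t2 hΦ hΨ hwb hle h z t ht1 ht2 hz ha
    refine Val.lower (Bdd.of01 hΦ) (Bdd.of01 hΨ) hwb (fun s hs => hle s ?_) (h z t ht1 ht2 hz ha)
    rw [hs]; exact ht2

theorem wwG_mono {r r' U U' : ℕ} {u u' : ℝ} (h : wwG F B K n M C i r u U) (hr : r' ≤ r)
    (hu : u' ≤ u) (hU : U ≤ U') : wwG F B K n M C i r' u' U' := by
  intro a y Φ ub w t hy ha hΦ h0 hw hG
  have hr' : (r' : ℤ) ≤ r := by exact_mod_cast hr
  refine Val.mono (h a y Φ ub w t hy (by omega) (hΦ.weaken (by omega) le_rfl) h0 hw ?_)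
    (mul_le_mul_of_nonneg_right hu h0)
  exact (wwGl_ok a).1 Φ w t (t + U') t (t + U) le_rfl (by omega) hG

theorem wwG_comp {r r' U U' : ℕ} {u u' : ℝ} (h : wwG F B K n M C i r u U)
    (h' : wwG F B K n M C i r' u' U') (h0 : 0 ≤ u') (h1 : u' ≤ 1) :
    wwG F B K n M C i (r + r') (u * u') (U + U') := by
  intro a y Φ ub w t hy ha hΦ hw0 hw hG
  have hle : u' * w ≤ w := by nlinarith
  rw [mul_assoc]
  refine h (a - r') y Φ ub (u' * w) t hy (by push_cast at ha; omega)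
    (hΦ.weaken (by omega) le_rfl) (mul_nonneg h0 hw0) (hle.trans hw) ?_
  intro z t' ht1 ht2 hz hza
  rcases hza with hza | hza
  · refine h' a z Φ ub w t' hz (by omega) (hΦ.weaken (by omega) le_rfl) hw0 hw ?_
    exact (wwGl_ok a).1 Φ w t (t + (U + U')) t' (t' + U') ht1 (by omega) hG
  · exact Val.mono (hG z t' ht1 (by omega) hz (Or.inr hza)) hle

theorem wwG_zero : wwG F B K n M C i 0 1 0 := by
  intro a y Φ ub w t hy ha _ _ _ hG
  rw [one_mul]
  exact hG y t le_rfl (by omega) hy (Or.inl (by simpa using ha))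

theorem wwG_pow {r U : ℕ} {u : ℝ} (h : wwG F B K n M C i r u U) (h0 : 0 ≤ u) (h1 : u ≤ 1)
    (k : ℕ) : wwG F B K n M C i (k * r) (u ^ k) (k * U) := by
  induction k with
  | zero => simpa using wwG_zero
  | succ k ih =>
    rw [Nat.succ_mul, Nat.succ_mul, pow_succ]
    exact wwG_comp ih h h0 h1

theorem wwG_of_small {r U : ℕ} {u : ℝ} (h1 : u ≤ 1)
    (h : ∀ (a : ℤ) (y : S d) (Φ : Nd d → ℝ) (ub w : ℝ) (t : ℕ), nrm y < 12 * C.2 → a ≤ y i + r →
      Mart F.toMd K M Φ (t + U) ub → 0 ≤ w → w ≤ ub → wwGl F B K n M C i a Φ w t (t + U) →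
      Val F B K n (ls n) M Φ C {y} t (u * w)) : wwG F B K n M C i r u U := by
  intro a y Φ ub w t hy ha hΦ h0 hw hG
  rcases lt_or_ge (nrm y) (12 * C.2) with hs | hs
  · exact h a y Φ ub w t hs ha hΦ h0 hw hG
  · exact Val.mono (hG y t le_rfl (by omega) hy (Or.inr hs)) (by nlinarith)

theorem wwAm.adm (hA : wwAm F B K n M C) {y : S d} (hy : nrm y < 12 * C.2) : Adm M {y} C.2 := by
  refine ⟨apart_single _ _, ?_, ?_⟩
  · rw [wQ_single]
    exact (bx_subset (by rw [sub_zero]; omega)).trans hA.hQ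
  · rw [wZ_single]
    exact (bx_subset (by rw [sub_zero]; omega)).trans hA.hZ

theorem ww_nrm_le {y z : S d} {L : ℕ} (hy : nrm y < 12 * L) (hz : z ∈ bx y L) :
    nrm z ≤ 13 * L := by
  have h1 := mem_bx.1 hz
  have h2 := nrm_add_le (z - y) y
  rw [sub_add_cancel] at h2
  omega

/-- Continuation of the region rule from the gain property. -/
theorem wwCont (hA : wwAm F B K n M C) {r U mb t te : ℕ} {u ub w : ℝ} {a : ℤ} {y : S d}
    {P : Finset (S d)} {Φ : Nd d → ℝ} (h : wwG F B K n M C i r u U) (hy : nrm y < 12 * C.2)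
    (hP : ∀ z ∈ P, a ≤ z i + r) (hΦ : Mart F.toMd K M Φ te ub) (h0 : 0 ≤ w) (hw : w ≤ ub)
    (ht : t + mb * sb F B n (ls n) + U ≤ te) (hG : wwGl F B K n M C i a Φ w t te) :
    Cont F B K n (ls n) (B.p 1) M Φ (bx y C.2) (rReg P) mb t (tyS fun _ => C) id
      fun _ => u * w := by
  refine cont_rReg (ty := fun _ => C) fun k hk z hz hzP => ⟨hA.ty, ?_, ?_⟩
  · have := ww_nrm_le hy hz
    exact (bx_subset (by rw [sub_zero]; omega)).trans hA.hZ
  · have hk' : (k + 1) * sb F B n (ls n) ≤ mb * sb F B n (ls n) := Nat.mul_le_mul_right _ hk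
    refine h a z Φ ub w _ (ww_nrm_le hy hz) (hP z hzP) (hΦ.weaken (by omega) le_rfl) h0 hw ?_
    exact (wwGl_ok a).1 Φ w t te _ _ (by omega) (by omega) hG

theorem ww_th_div (hB : B.Ok F) : 99 / 100 ≤ B.th / B.thp := by
  obtain ⟨_, _, _, h1, _, h2, h3, _⟩ := hB
  have hp : 0 < B.thp := by unfold Bs.thp; positivity
  rw [le_div_iff₀ hp]
  unfold Bs.thp
  nlinarith

/-- One run of the machine. -/
theorem wwOne (hE : Eng d F) {p : ℝ} (hp : 0 < p) (hp1 : p ≤ 1) :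
    EvB d F fun B n K => ∀ (M : Amb d) (C : Ty) (i : Fin d) (r mb : ℕ), wwAm F B K n M C →
      mb * sb F B n (ls n) ≤ 2 ^ (n + 1) →
      (∀ y : S d, p * B.th ≤ cP F.toMd K C y (B.n0 + mb * sb F B n (ls n)) fun I =>
        (I B.n0).Nonempty ∧ CE F B n (bx y C.2)
          (rReg ((bx y C.2).filter fun z => y i + r ≤ z i)) mb (fun _ => True)
          fun u => I (B.n0 + u)) →
      wwG F B K n M C i r (p / 2) (mb * sb F B n (ls n)) := by
  intro B hB
  filter_upwards [hE.hONE B hB, er_small (show 0 < p / 10 by positivity)] with n h1 he K hK M C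
    i r mb hA hmb hP
  refine wwG_of_small (by linarith) fun a y Φ ub w t hy ha hΦ h0 hw hG => ?_
  have hc := wwCont (P := (bx y C.2).filter fun z => y i + r ≤ z i) (mb := mb) (t := t) hA
    (wwG_zero (i := i)) hy (a := a) (fun z hz => by
      have := (Finset.mem_filter.1 hz).2
      push_cast; omega) hΦ h0 hw (by omega) hG
  rw [one_mul] at hc
  refine Val.mono (h1 K hK (ls n) (B.p 1) M Φ _ ub w C y _ mb t _ hA.ty hA.ok hΦ
    (by rw [hA.u0]; omega) le_rfl hmb (hA.adm hy) (ruleOk_rReg _ _) h0 hw hc) ?_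
  rw [mul_comm (p / 2) w]
  refine mul_le_mul_of_nonneg_left ?_ h0
  have h2 := div_le_div_of_nonneg_right (hP y) (thp_pos hB).le
  have h3 := ww_th_div hB
  rw [mul_div_assoc] at h2
  nlinarith [he.2.1, he.2.2]

/-- Repeated tries restore the value `1 / 8`. -/
theorem wwBoost (hE : Eng d F) :
    EvB d F fun B n K => ∀ (M : Amb d) (C : Ty) (i : Fin d) (r U Mn : ℕ) (u : ℝ),
      wwAm F B K n M C → 0 ≤ u → u ≤ 1 → Mn * (RR F B n + U) ≤ 2 ^ n →
      (∀ y : S d, 2 / 5 * B.th ≤ wX F.toMd K C.1 (bx y (2 * C.2)) (bx y C.2) {y}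
        (B.n0 + Mn * (RR F B n + U)) fun I => ind (I B.n0).Nonempty * min 1 (u * Ncnt F B n
          (bx y C.2) (rReg ((bx y C.2).filter fun z => y i ≤ z i)) Mn (RR F B n + U) I)) →
      wwG F B K n M C i r u U → wwG F B K n M C i r (1 / 8) (Mn * (RR F B n + U)) := by
  intro B hB
  filter_upwards [hE.hWB B hB, er_small (show (0 : ℝ) < 1 / 100 by positivity)] with n h1 he K hK
    M C i r U Mn u hA hu0 hu1 hMn hP hG0
  refine wwG_of_small (by norm_num) fun a y Φ ub w t hy ha hΦ h0 hw hG => ?_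
  have hR : (mm F n + 1) * sb F B n (ls n) ≤ RR F B n :=
    Nat.mul_le_mul_right _ (by omega)
  refine Val.mono (h1 K hK (B.p 1) M (wwGl F B K n M C i a) Φ _ ub w u C y
    (rReg ((bx y C.2).filter fun z => y i ≤ z i)) Mn (RR F B n + U) t (tyS fun _ => C) hA.ty hA.ok
    (wwGl_ok a) hΦ (by rw [hA.u0]; omega) (by omega) le_rfl hMn (hA.adm hy) (ruleOk_rReg _ _) h0 hw
    hu0 hu1 hG fun Ψ ub' w' t' _ hΨ h0' hw' hG' => wwCont hA hG0 hy (fun z hz => by
      have := (Finset.mem_filter.1 hz).2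
      omega) hΨ h0' hw' (by omega) hG') ?_
  have h2 := div_le_div_of_nonneg_right (hP y) (thp_pos hB).le
  have h3 := ww_th_div hB
  rw [mul_div_assoc] at h2
  have h4 : tol (ls n) * min 1 (u * Mn) ≤ 1 / 100 := by
    have h5 : 0 ≤ tol (ls n) := (Real.exp_pos _).le
    have h6 : min 1 (u * Mn) ≤ 1 := min_le_left _ _
    nlinarith [he.2.2]
  have h7 : (1 : ℝ) / 8 * w = w / 2 * (1 / 4) := by ring
  rw [h7]
  refine mul_le_mul_of_nonneg_left ?_ (by linarith)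
  linarith [he.2.1]

end Pool.Agent.Lib.MP_dd0771_pr.Sc
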